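import Mathlib

section

/-!
Coarse geometry: pseudo-metrics given as functions, Gromov products, hyperbolicity,
roughly geodesic spaces, the total graph of a family of metrics over a graph, word length.
-/

set_option autoImplicit false

namespace Pool.Agent.E5f

/-- Gromov product of `x` and `y` at `w`. -/
noncomputable def gp {X : Type} (d : X → X → ℝ) (w x y : X) : ℝ := (d x w + d y w - d x y) / 2

/-- Pseudo-metric. -/
structure PM {X : Type} (d : X → X → ℝ) : Prop where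
  self : ∀ x, d x x = 0
  symm : ∀ x y, d x y = d y x
  tri : ∀ x y z, d x z ≤ d x y + d y z

/-- Gromov hyperbolicity. -/
def Hyp {X : Type} (d : X → X → ℝ) (δ : ℝ) : Prop :=
  ∀ w x y z, min (gp d w x y) (gp d w y z) - δ ≤ gp d w x z

/-- Roughly geodesic. -/
def RG {X : Type} (d : X → X → ℝ) (κ : ℝ) : Prop :=
  ∀ x y (s : ℝ), 0 ≤ s → s ≤ d x y → ∃ z, |d x z - s| ≤ κ ∧ |d z y - (d x y - s)| ≤ κ

/-- The path metric of a graph, as a real number. -/
noncomputable def gd {V : Type} (G : SimpleGraph V) (x y : V) : ℝ := (G.dist x y : ℝ)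

/-- `γ 0, ..., γ n` is a geodesic segment of the graph. -/
def GSeg {V : Type} (G : SimpleGraph V) (γ : ℕ → V) (n : ℕ) : Prop :=
  ∀ i j : ℕ, i ≤ n → j ≤ n → gd G (γ i) (γ j) = |(i : ℝ) - (j : ℝ)|

/-- The total graph of a family of metrics `D b` on `P` over the graph `G`. -/
def totG {P B : Type} (G : SimpleGraph B) (D : B → P → P → ℝ) (r : ℝ) : SimpleGraph (P × B) where
  Adj X Y := X ≠ Y ∧ ((X.2 = Y.2 ∧ D X.2 X.1 Y.1 ≤ r ∧ D X.2 Y.1 X.1 ≤ r) ∨
    (X.1 = Y.1 ∧ G.Adj X.2 Y.2))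
  symm := ⟨by
    rintro X Y ⟨h, h1 | h1⟩
    · exact ⟨h.symm, Or.inl ⟨h1.1.symm, h1.1 ▸ h1.2.2, h1.1 ▸ h1.2.1⟩⟩
    · exact ⟨h.symm, Or.inr ⟨h1.1.symm, h1.2.symm⟩⟩⟩
  loopless := ⟨fun X h => h.1 rfl⟩

/-- Flaring of the family `D` along geodesics of `G`. -/
def Flares {P B : Type} (G : SimpleGraph B) (D : B → P → P → ℝ) (n : ℕ) (M : ℝ) : Prop :=
  ∀ γ : ℕ → B, GSeg G γ (2 * n) → ∀ x y : P, M ≤ D (γ n) x y →
    2 * D (γ n) x y ≤ max (D (γ 0) x y) (D (γ (2 * n)) x y)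

/-- Hypotheses of the combination theorem. -/
structure CombHyp {P B : Type} (G : SimpleGraph B) (D : B → P → P → ℝ)
    (δ κ K : ℝ) (n : ℕ) (M : ℝ) : Prop where
  ne : Nonempty P
  conn : G.Connected
  hypB : Hyp (gd G) δ
  pm : ∀ b, PM (D b)
  hyp : ∀ b, Hyp (D b) δ
  rg : ∀ b, RG (D b) κ
  κ0 : 0 ≤ κ
  K1 : 1 ≤ K
  lip : ∀ b b', G.Adj b b' → ∀ x y, D b' x y ≤ K * D b x y + K
  n1 : 1 ≤ n
  fl : Flares G D n M

/-- Conclusion of the combination theorem for the total graph with fibre edges of size `r`. -/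
structure CombOut {P B : Type} (G : SimpleGraph B) (D : B → P → P → ℝ) (r : ℝ) : Prop where
  conn : (totG G D r).Connected
  hyp : ∃ δ : ℝ, Hyp (gd (totG G D r)) δ
  fib_le : ∀ b x y, gd (totG G D r) (x, b) (y, b) ≤ D b x y + 1
  base_le : ∀ x b b', gd (totG G D r) (x, b) (x, b') ≤ gd G b b'
  le_base : ∀ X Y : P × B, gd G X.2 Y.2 ≤ gd (totG G D r) X Y
  fib_near : ∀ C : ℝ, ∃ C' : ℝ, ∀ X Y : P × B, gd (totG G D r) X Y ≤ C → D X.2 X.1 Y.1 ≤ C'
  out1 : ∀ C : ℝ, ∃ C' : ℝ, ∀ W X Y : P × B, gp (gd (totG G D r)) W X Y ≤ C →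
    gp (D W.2) W.1 X.1 Y.1 ≤ C'
  out2 : ∀ c : ℝ, ∃ C' : ℝ, ∀ (v : P) (X Y : P × B), (∀ b, gp (D b) v X.1 Y.1 ≤ c) →
    ∃ b, gp (gd (totG G D r)) (v, b) X Y ≤ C'

/-- The value of a word in the letters `s`. -/
def wev {G ι : Type} [Group G] (s : ι → G) (l : List (ι × Bool)) : G :=
  (l.map (fun e : ι × Bool => if e.2 = true then s e.1 else (s e.1)⁻¹)).prod

/-- Word length. -/
noncomputable def wl {G ι : Type} [Group G] (s : ι → G) (g : G) : ℕ :=
  sInf {m : ℕ | ∃ l : List (ι × Bool), l.length = m ∧ wev s l = g}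

/-- The letters generate. -/
def Gens {G ι : Type} [Group G] (s : ι → G) : Prop := ∀ g : G, ∃ l : List (ι × Bool), wev s l = g

/-- Cayley graph. -/
def cay {G ι : Type} [Group G] (s : ι → G) : SimpleGraph G where
  Adj g h := g ≠ h ∧ ∃ i, h = g * s i ∨ g = h * s i
  symm := ⟨by
    rintro g h ⟨h1, i, h2⟩
    exact ⟨h1.symm, i, h2.symm⟩⟩
  loopless := ⟨fun g h => h.1 rfl⟩

/-- The four-point condition for the word metric. -/
def FourPt {G ι : Type} [Group G] (s : ι → G) : Prop :=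
  ∃ δ : ℕ, ∀ x y z w : G, wl s (x⁻¹ * y) + wl s (z⁻¹ * w) ≤
    max (wl s (x⁻¹ * z) + wl s (y⁻¹ * w)) (wl s (x⁻¹ * w) + wl s (y⁻¹ * z)) + 2 * δ

/-- Quasi-isometric embedding of graphs. -/
def QIE {V W : Type} (G : SimpleGraph V) (G' : SimpleGraph W) (f : V → W) (K : ℝ) : Prop :=
  ∀ x y, gd G' (f x) (f y) ≤ K * gd G x y + K ∧ gd G x y ≤ K * gd G' (f x) (f y) + K

/-- The line graph on the integers. -/
def lineG : SimpleGraph ℤ where
  Adj i j := j = i + 1 ∨ i = j + 1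
  symm := ⟨fun _ _ h => h.symm⟩
  loopless := ⟨fun i h => by rcases h with h | h <;> omega⟩

/-- Simultaneous betweenness for two pseudo-metrics. -/
def Btw {X : Type} (dv dh : X → X → ℝ) (p r q : X) : Prop :=
  dv p r + dv r q = dv p q ∧ dh p r + dh r q = dh p q

/-- Two trees on the same set with common geodesics. -/
structure BiTree {X : Type} (dv dh : X → X → ℝ) : Prop where
  pv : PM dv
  ph : PM dh
  hv : Hyp dv 0
  hh : Hyp dh 0
  geo : ∀ (α β : ℝ) (p q : X) (s : ℝ), 0 ≤ α → 0 ≤ β → 0 ≤ s → s ≤ α * dv p q + β * dh p q →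
    ∃ r, Btw dv dh p r q ∧ α * dv p r + β * dh p r = s

/-- No rectangle with sides at least `A` and `B`. -/
def NoRect {X : Type} (dv dh : X → X → ℝ) (A B : ℝ) : Prop :=
  ∀ p00 p10 p01 p11 : X, dh p00 p10 = 0 → dh p01 p11 = 0 → dv p00 p01 = 0 → dv p10 p11 = 0 →
    A ≤ dv p00 p10 → B ≤ dh p00 p01 → False

end Pool.Agent.E5f

end

section

/-!
The groups: surface groups, the figure-eight group, the orbifold group of a torus with three cone
points of order two, and the arithmetic data.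
-/

set_option autoImplicit false

namespace Pool.Agent.E5f

/-- The surface relator. -/
abbrev srel (g : ℕ) : FreeGroup (Fin g ⊕ Fin g) :=
  (List.ofFn (fun k : Fin g =>
    (FreeGroup.of (Sum.inl k) * FreeGroup.of (Sum.inr k) *
      (FreeGroup.of (Sum.inl k))⁻¹ * (FreeGroup.of (Sum.inr k))⁻¹ :
      FreeGroup (Fin g ⊕ Fin g)))).prod

/-- The surface group of genus `g`. -/
abbrev SG (g : ℕ) : Type := PresentedGroup ({srel g} : Set (FreeGroup (Fin g ⊕ Fin g)))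

/-- Standard generators of the surface group. -/
def sgen (g : ℕ) : Fin g ⊕ Fin g → SG g := fun i => PresentedGroup.of i

/-- Relators of the figure-eight group on `a = 0`, `b = 1`, `t = 2`:
`t a t⁻¹ = a b`, `t b t⁻¹ = b a b`. -/
def rel8 : Set (FreeGroup (Fin 3)) :=
  {FreeGroup.of 2 * FreeGroup.of 0 * (FreeGroup.of 2)⁻¹ * (FreeGroup.of 0 * FreeGroup.of 1)⁻¹,
   FreeGroup.of 2 * FreeGroup.of 1 * (FreeGroup.of 2)⁻¹ *
     (FreeGroup.of 1 * FreeGroup.of 0 * FreeGroup.of 1)⁻¹}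

/-- The figure-eight group. -/
abbrev G8 : Type := PresentedGroup rel8

def g8a : G8 := PresentedGroup.of 0
def g8b : G8 := PresentedGroup.of 1
def g8t : G8 := PresentedGroup.of 2
/-- The longitude. -/
def g8c : G8 := g8a * g8b * g8a⁻¹ * g8b⁻¹

/-- The exponent of `t`. -/
def g8degHom : G8 →* Multiplicative ℤ :=
  PresentedGroup.toGroup (f := fun i : Fin 3 => if i = 2 then Multiplicative.ofAdd (1 : ℤ) else 1)
    (by
      intro r hr
      rcases hr with rfl | rfl <;> simp)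

/-- The exponent of `t` as an integer. -/
def g8deg (γ : G8) : ℤ := Multiplicative.toAdd (g8degHom γ)

/-- Relators of the orbifold group with `n` cone points of order `m` (`m = 0`: punctures) on
`a = inl 0`, `b = inl 1`, `c i = inr i`. -/
def relO (n m : ℕ) : Set (FreeGroup (Fin 2 ⊕ Fin n)) :=
  {r | (∃ i : Fin n, r = (FreeGroup.of (Sum.inr i)) ^ m) ∨
    r = (List.ofFn (fun i : Fin n => (FreeGroup.of (Sum.inr i) : FreeGroup (Fin 2 ⊕ Fin n)))).prod *
      FreeGroup.of (Sum.inl 1) * FreeGroup.of (Sum.inl 0) * (FreeGroup.of (Sum.inl 1))⁻¹ *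
      (FreeGroup.of (Sum.inl 0))⁻¹}

/-- The orbifold group of a torus with `n` cone points of order `m`. -/
abbrev OG (n m : ℕ) : Type := PresentedGroup (relO n m)

/-- The intersection of the kernels of all homomorphisms to the group of order two. -/
def ker2 (G : Type) [Group G] : Subgroup G := ⨅ ψ : G →* Multiplicative (ZMod 2), ψ.ker

/-- Arithmetic data: a surface group in the figure-eight group and a left invariant
pseudo-distance between cusps. -/
structure Arith (h : ℕ) where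
  ι : SG h →* G8
  L : G8 → G8 → ℝ
  nonneg : ∀ g g', 0 ≤ L g g'
  symm : ∀ g g', L g g' = L g' g
  tri : ∀ g g' g'', L g g'' ≤ L g g' + L g' g''
  left : ∀ (b : SG h) g g', L (ι b * g) (ι b * g') = L g g'
  right_c : ∀ g g', L (g * g8c) g' = L g g'
  right_t : ∀ g g', L (g * g8t) g' = L g g'
  bdd : ∀ f : G8, ∃ C : ℝ, ∀ g, L g (g * f) ≤ C
  low : ∃ K : ℝ, 0 ≤ K ∧ ∀ b : SG h, (wl (sgen h) b : ℝ) ≤ K * L 1 (ι b) + K

end Pool.Agent.E5f

end

section

/-!
The abstract base system (two trees on a set `Q` with an action of the figure-eight group), the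
class of limit length functionals and the fibre data.
-/

set_option autoImplicit false

namespace Pool.Agent.E5f

/-- One-sided properties of the base. -/
structure Side {Q : Type} [MulAction G8 Q] (dv dh : Q → Q → ℝ) (dg : G8 → ℤ) (P0 : Q) : Prop where
  hor : ∀ (q : Q) (R : ℝ), 0 ≤ R → ∃ qm qp, dh q qm = 0 ∧ dh q qp = 0 ∧ dv q qm = R ∧
    dv q qp = R ∧ dv qm qp = 2 * R
  ray : ∀ (p0 : Q) (p : ℕ → Q) (B M : ℝ), 0 ≤ M → (∀ k, dh p0 (p k) ≤ B) →
    (∀ k, M ≤ dv p0 (p k)) →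
    (∃ r, dv p0 r = M ∧ {k | dv p0 r + dv r (p k) = dv p0 (p k)}.Infinite) ∨
    (∃ γ : G8, dg γ = 0 ∧ ∃ J : Set ℕ, J.Infinite ∧
      ∀ k ∈ J, ∀ l ∈ J, k ≠ l → Btw dv dh (p k) (γ • P0) (p l))

/-- The base system. -/
structure Base (Q : Type) [MulAction G8 Q] where
  lam : ℝ
  lam1 : 1 < lam
  dv : Q → Q → ℝ
  dh : Q → Q → ℝ
  dg : G8 → ℤ
  dg_mul : ∀ γ γ', dg (γ * γ') = dg γ + dg γ'
  dg_t : dg g8t = 1 ∨ dg g8t = -1
  dg_c : dg g8c = 0
  bi : BiTree dv dh
  nr : ∃ L : ℝ, 0 < L ∧ NoRect dv dh L L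
  sv : ∀ (γ : G8) p q, dv (γ • p) (γ • q) = lam ^ (dg γ) * dv p q
  sh : ∀ (γ : G8) p q, dh (γ • p) (γ • q) = lam ^ (-dg γ) * dh p q
  P0 : Q
  fix_c : dv (g8c • P0) P0 = 0 ∧ dh (g8c • P0) P0 = 0
  fix_t : dv (g8t • P0) P0 = 0 ∧ dh (g8t • P0) P0 = 0
  dense : ∃ R : ℝ, ∀ q, ∃ γ : G8, dg γ = 0 ∧ dv q (γ • P0) + dh q (γ • P0) ≤ R
  elem : ∀ R : ℝ, ∃ (F : Finset G8) (N : ℕ), ∀ γ : G8, dg γ = 0 →
    dv P0 (γ • P0) + dh P0 (γ • P0) ≤ R →
    ∃ l : List (ℤ × G8 × ℤ), l.length ≤ N ∧ (∀ e ∈ l, e.2.1 ∈ F) ∧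
      γ = (l.map (fun e => g8c ^ e.1 * e.2.1 * g8c ^ e.2.2)).prod
  sideV : Side dv dh dg P0
  sideH : Side dh dv dg P0

/-- One-sided properties of a class `FS` of functions on the base: `FS F z` says that `F` is the
relevant component of a functional of the class whose total length at the base point is `z`. -/
structure FSide {Q : Type} [MulAction G8 Q] (dv dh : Q → Q → ℝ) (dg : G8 → ℤ) (P0 : Q)
    (FS : (Q → ℝ) → ℝ → Prop) : Prop where
  zero : ∀ F z, FS F z → ∀ p q, dv p q = 0 → F p = F q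
  cvx : ∀ F z, FS F z → ∀ p q r, dv p q + dv q r = dv p r →
    dv p r * F q ≤ dv q r * F p + dv p q * F r
  b1 : ∀ F z, FS F z → ∀ p p', F p = 0 → F p' = 0 → 0 < dv p p' → z = 0
  b5l : ∀ F z, FS F z → ∀ (σ : ℝ → Q) (c : ℝ), (∀ s s', dv (σ s) (σ s') = |s - s'|) → 0 < c →
    (∀ s, F (σ s) = c) → ∀ R : ℝ, ∃ P : ℝ → Q, ∀ s s', |s| ≤ R → |s'| ≤ R →
      dv (P s) (σ s) = 0 ∧ dh (P s) (P s') = 0
  b5u : ∀ B : ℝ, ∃ R : ℝ, ∀ N : ℝ, ∃ L η : ℝ, N ≤ L ∧ 0 < η ∧ ∀ F z, FS F z →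
    ∀ (p0 p1 p2 p3 : Q) (s : ℝ), dv p0 p1 = 1 → dv p1 p2 = L → dv p2 p3 = 1 →
      dv p0 p2 = L + 1 → dv p1 p3 = L + 1 → dv p0 p3 = L + 2 → dh p1 p2 ≤ B → 0 < s →
      s ≤ F p1 - F p0 → F p3 - F p2 ≤ (1 + η) * s → F p1 ≤ B * s →
      ∃ γ : G8, dg γ = 0 ∧ dv (γ • P0) p1 ≤ R ∧ ∃ P : ℝ → Q, ∀ τ, 1 ≤ τ → τ ≤ N →
        dh (P τ) (γ • P0) = 0 ∧ dv p1 (P τ) = τ ∧ dv (P τ) p2 = L - τ

/-- A class of pairs of length functionals on the base. -/
structure FClass {Q : Type} [MulAction G8 Q] (S : Base Q) (q0 : Q)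
    (FF : Set ((Q → ℝ) × (Q → ℝ))) : Prop where
  nonneg : ∀ Φ ∈ FF, ∀ q, 0 ≤ Φ.1 q ∧ 0 ≤ Φ.2 q
  inv : ∀ Φ ∈ FF, ∀ γ : G8, ((fun q => S.lam ^ (-S.dg γ) * Φ.1 (γ • q)),
    (fun q => S.lam ^ (S.dg γ) * Φ.2 (γ • q))) ∈ FF
  bound : ∀ q, ∃ K : ℝ, ∀ Φ ∈ FF, Φ.1 q + Φ.2 q ≤ K * (Φ.1 q0 + Φ.2 q0)
  sideV : FSide S.dv S.dh S.dg S.P0 (fun F z => ∃ Φ ∈ FF, F = Φ.1 ∧ z = Φ.1 q0 + Φ.2 q0)
  sideH : FSide S.dh S.dv S.dg S.P0 (fun F z => ∃ Φ ∈ FF, F = Φ.2 ∧ z = Φ.1 q0 + Φ.2 q0)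

/-- The length of the functional `Φ` at the orbit point `γ • q0`. -/
noncomputable def ell {Q : Type} [MulAction G8 Q] (S : Base Q) (q0 : Q)
    (Φ : (Q → ℝ) × (Q → ℝ)) (γ : G8) : ℝ :=
  S.lam ^ (-S.dg γ) * Φ.1 (γ • q0) + S.lam ^ (S.dg γ) * Φ.2 (γ • q0)

/-- No bi-infinite geodesic of the surface group carries a functional of bounded length. -/
def NoBad {Q : Type} [MulAction G8 Q] (S : Base Q) (q0 : Q) (FF : Set ((Q → ℝ) × (Q → ℝ)))
    {h : ℕ} (A : Arith h) : Prop :=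
  ∀ (γ : ℤ → SG h) (Φ : (Q → ℝ) × (Q → ℝ)) (Θ : ℝ),
    (∀ i j : ℤ, gd (cay (sgen h)) (γ i) (γ j) = |(i : ℝ) - (j : ℝ)|) → γ 0 = 1 → Φ ∈ FF →
    Φ.1 q0 + Φ.2 q0 = 1 → (∀ j, ell S q0 Φ (A.ι (γ j)) ≤ Θ) → False

/-- Limits of rescaled length functionals of pairs of points. -/
def LimF {Q P : Type} (dv dh : Q → P → P → ℝ) : Set ((Q → ℝ) × (Q → ℝ)) :=
  {Φ | ∀ (T : Finset Q) (ε : ℝ), 0 < ε → ∃ (x y : P) (t : ℝ), 0 < t ∧ t ≤ ε ∧
    ∀ q ∈ T, |t * dv q x y - Φ.1 q| ≤ ε ∧ |t * dh q x y - Φ.2 q| ≤ ε}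

/-- Limits of rescaled length functionals, one component. -/
def LimF1 {Q P : Type} (dv : Q → P → P → ℝ) : Set (Q → ℝ) :=
  {F | ∀ (T : Finset Q) (ε : ℝ), 0 < ε → ∃ (x y : P) (t : ℝ), 0 < t ∧ t ≤ ε ∧
    ∀ q ∈ T, |t * dv q x y - F q| ≤ ε}

/-- A point of the base where the fibre metric is hyperbolic, roughly geodesic and proper. -/
structure Thick {P : Type} (d : P → P → ℝ) : Prop where
  hyp : ∃ δ, Hyp d δ
  rg : ∃ κ, 0 ≤ κ ∧ RG d κ
  fin : ∀ (x : P) (R : ℝ), {y | d x y ≤ R}.Finite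

/-- Fibre data over the base system. -/
structure Fib {Q : Type} [MulAction G8 Q] (S : Base Q) (q0 : Q) (P : Type) where
  dv : Q → P → P → ℝ
  dh : Q → P → P → ℝ
  pv : ∀ q, PM (dv q)
  ph : ∀ q, PM (dh q)
  φ : OG 3 2 →* Equiv.Perm P
  inj : Function.Injective φ
  s : G8 →* Equiv.Perm P
  norm : ∀ γ o, ∃ o', s γ * φ o * (s γ)⁻¹ = φ o'
  inv_v : ∀ q o x y, dv q (φ o x) (φ o y) = dv q x y
  inv_h : ∀ q o x y, dh q (φ o x) (φ o y) = dh q x y
  eq_v : ∀ (γ : G8) q x y, dv (γ • q) (s γ x) (s γ y) = S.lam ^ (S.dg γ) * dv q x y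
  eq_h : ∀ (γ : G8) q x y, dh (γ • q) (s γ x) (s γ y) = S.lam ^ (-S.dg γ) * dh q x y
  thick : Thick (fun x y => dv q0 x y + dh q0 x y)
  ne : Nonempty P
  orb : ∃ T : Finset P, ∀ x, ∃ o, ∃ y ∈ T, x = φ o y
  stab : ∀ x, {o | φ o x = x}.Finite

end Pool.Agent.E5f

end

section

/-! Two trees with common geodesics and no big rectangles give a hyperbolic space. -/

set_option autoImplicit false

namespace Pool.Agent.E5f

section Tree

variable {X : Type} {d : X → X → ℝ}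

theorem nonneg_HypBi (hd : PM d) (x y : X) : 0 ≤ d x y := by
  have h1 := hd.tri x y x
  have h2 := hd.self x
  have h3 := hd.symm x y
  linarith

theorem congr_HypBi (hd : PM d) {p p' : X} (h : d p p' = 0) (u : X) : d p u = d p' u := by
  have h1 := hd.tri p p' u
  have h2 := hd.tri p' p u
  have h3 := hd.symm p p'
  linarith

theorem gp_symm_HypBi (hd : PM d) (w x y : X) : gp d w x y = gp d w y x := by
  unfold gp
  rw [hd.symm x y]
  ring

theorem gp_le_HypBi (hd : PM d) (w x y : X) : gp d w x y ≤ d w x ∧ gp d w x y ≤ d w y := by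
  unfold gp
  have h1 := hd.tri y x w
  have h2 := hd.tri x y w
  have h3 := hd.symm x y
  have h4 := hd.symm w x
  have h5 := hd.symm w y
  constructor <;> linarith

theorem gp_nonneg_HypBi (hd : PM d) (w x y : X) : 0 ≤ gp d w x y := by
  unfold gp
  have h1 := hd.tri x w y
  have h5 := hd.symm w y
  linarith

theorem gp_on_HypBi (hd : PM d) {x p y : X} (h : d x p + d p y = d x y) : gp d x p y = d x p := by
  unfold gp
  have h4 := hd.symm x p
  have h5 := hd.symm x y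
  linarith

theorem ultra_HypBi (hh : Hyp d 0) {w x y z : X} {s : ℝ} (h1 : s ≤ gp d w x y)
    (h2 : s ≤ gp d w y z) : s ≤ gp d w x z := by
  have h := hh w x y z
  have h3 := le_min h1 h2
  linarith

/-- Points at the same distance on the common part of two geodesics coincide. -/
theorem same_HypBi (hd : PM d) (hh : Hyp d 0) {x y z p p' : X} (h1 : d x p + d p y = d x y)
    (h2 : d x p' + d p' z = d x z) (h3 : d x p = d x p') (h4 : d x p ≤ gp d x y z) :
    d p p' = 0 := by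
  have a1 : d x p ≤ gp d x p y := (gp_on_HypBi hd h1).ge
  have a2 : d x p ≤ gp d x z p' := by rw [gp_symm_HypBi hd, gp_on_HypBi hd h2, h3]
  have a3 := ultra_HypBi hh (ultra_HypBi hh a1 h4) a2
  unfold gp at a3
  have b1 := hd.symm x p
  have b2 := hd.symm x p'
  have b3 := nonneg_HypBi hd p p'
  linarith

/-- Geodesic segments of a tree are convex. -/
theorem conv_HypBi (hd : PM d) (hh : Hyp d 0) {x z p p' q : X} (h1 : d x p + d p z = d x z)
    (h2 : d x p' + d p' z = d x z) (h3 : d p q + d q p' = d p p') : d x q + d q z = d x z := by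
  have a1 : min (d x p) (d x p') ≤ gp d x p z := by
    rw [gp_on_HypBi hd h1]
    exact min_le_left _ _
  have a2 : min (d x p) (d x p') ≤ gp d x z p' := by
    rw [gp_symm_HypBi hd, gp_on_HypBi hd h2]
    exact min_le_right _ _
  have a3 := ultra_HypBi hh a1 a2
  unfold gp at a3
  have b1 := hd.symm x p
  have b2 := hd.symm x p'
  have b3 := hd.symm p q
  have b4 := hd.symm p' q
  have c1 := hd.tri x q z
  have c2 := hd.tri x p q
  have c3 := hd.tri x p' q
  have c4 := hd.tri q p z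
  have c5 := hd.tri q p' z
  rcases min_le_iff.1 a3 with a4 | a4 <;> linarith

/-- Seen from `p` on `[x, y]`, the segment `[x, z]` lies behind the branch point. -/
theorem far_HypBi (hd : PM d) (hh : Hyp d 0) {x y z p e e' : X} (h1 : d x p + d p y = d x y)
    (h2 : d x e + d e z = d x z) (h3 : d x e' + d e' z = d x z) :
    d x p - gp d x y z ≤ gp d p e e' := by
  have key : ∀ u, d x u + d u z = d x z → d x p - gp d x y z ≤ gp d p x u := by
    intro u hu
    have a1 : gp d x p u ≤ gp d x y p := by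
      rw [gp_symm_HypBi hd x y p, gp_on_HypBi hd h1]
      exact (gp_le_HypBi hd x p u).1
    have a2 : gp d x p u ≤ gp d x u z := by
      rw [gp_on_HypBi hd hu]
      exact (gp_le_HypBi hd x p u).2
    have a3 := ultra_HypBi hh (ultra_HypBi hh a1 le_rfl) a2
    have a4 : gp d p x u = d x p - gp d x p u := by
      unfold gp
      have b1 := hd.symm x p
      have b2 := hd.symm x u
      have b3 := hd.symm p u
      linarith
    linarith
  have a1 := key e h2
  rw [gp_symm_HypBi hd p x e] at a1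
  exact ultra_HypBi hh a1 (key e' h3)

theorem gp_add_HypBi (hd : PM d) (x y z : X) : gp d x y z + gp d y x z = d x y := by
  unfold gp
  have b1 := hd.symm x y
  have b2 := hd.symm x z
  have b3 := hd.symm y z
  linarith

end Tree

theorem BiTree.pm {X : Type} {dv dh : X → X → ℝ} (h : BiTree dv dh) {α β : ℝ} (hα : 0 ≤ α)
    (hβ : 0 ≤ β) : PM (fun p q => α * dv p q + β * dh p q) := by
  refine ⟨fun x => ?_, fun x y => ?_, fun x y z => ?_⟩
  · simp only [h.pv.self, h.ph.self, mul_zero, add_zero]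
  · simp only [h.pv.symm x y, h.ph.symm x y]
  · have h1 := mul_le_mul_of_nonneg_left (h.pv.tri x y z) hα
    have h2 := mul_le_mul_of_nonneg_left (h.ph.tri x y z) hβ
    show α * dv x z + β * dh x z ≤ α * dv x y + β * dh x y + (α * dv y z + β * dh y z)
    linarith

theorem BiTree.rg {X : Type} {dv dh : X → X → ℝ} (h : BiTree dv dh) {α β : ℝ} (hα : 0 ≤ α)
    (hβ : 0 ≤ β) : RG (fun p q => α * dv p q + β * dh p q) 0 := by
  intro x y s hs hs'
  obtain ⟨r, ⟨h1, h2⟩, h3⟩ := h.geo α β x y s hα hβ hs hs'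
  refine ⟨r, ?_, ?_⟩
  · show |α * dv x r + β * dh x r - s| ≤ 0
    rw [h3, sub_self, abs_zero]
  · show |α * dv r y + β * dh r y - (α * dv x y + β * dh x y - s)| ≤ 0
    rw [← h1, ← h2, ← h3]
    have e : α * dv r y + β * dh r y -
      (α * (dv x r + dv r y) + β * (dh x r + dh r y) - (α * dv x r + β * dh x r)) = 0 := by ring
    rw [e, abs_zero]

theorem BiTree.swap {X : Type} {dv dh : X → X → ℝ} (h : BiTree dv dh) : BiTree dh dv := by
  refine ⟨h.ph, h.pv, h.hh, h.hv, fun α β p q s hα hβ hs hs' => ?_⟩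
  obtain ⟨r, ⟨h1, h2⟩, h3⟩ := h.geo β α p q s hβ hα hs (by linarith)
  exact ⟨r, ⟨h2, h1⟩, by linarith⟩

section Slim

variable {X : Type} {dv dh : X → X → ℝ} {A B : ℝ}

theorem geoV_HypBi (h : BiTree dv dh) (p q : X) {s : ℝ} (hs : 0 ≤ s) (hs' : s ≤ dv p q) :
    ∃ r, Btw dv dh p r q ∧ dv p r = s := by
  obtain ⟨r, h1, h2⟩ := h.geo 1 0 p q s zero_le_one le_rfl hs (by linarith)
  exact ⟨r, h1, by linarith⟩

theorem geoH_HypBi (h : BiTree dv dh) (p q : X) {s : ℝ} (hs : 0 ≤ s) (hs' : s ≤ dh p q) :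
    ∃ r, Btw dv dh p r q ∧ dh p r = s := by
  obtain ⟨r, h1, h2⟩ := h.geo 0 1 p q s le_rfl zero_le_one hs (by linarith)
  exact ⟨r, h1, by linarith⟩

theorem noRect_swap_HypBi (hn : NoRect dv dh A B) : NoRect dh dv B A :=
  fun p00 p10 p01 p11 h1 h2 h3 h4 h5 h6 => hn p00 p01 p10 p11 h3 h4 h1 h2 h6 h5

theorem btw_symm_HypBi (h : BiTree dv dh) {x p y : X} (hb : Btw dv dh x p y) : Btw dv dh y p x := by
  obtain ⟨h1, h2⟩ := hb
  constructor
  · rw [h.pv.symm y p, h.pv.symm p x, h.pv.symm y x]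
    linarith
  · rw [h.ph.symm y p, h.ph.symm p x, h.ph.symm y x]
    linarith

theorem zero_HypBi {d : X → X → ℝ} (hd : PM d) {p r q : X} (h : d p r + d r q = d p q)
    (h0 : d p q = 0) : d p r = 0 := by
  have h1 := nonneg_HypBi hd p r
  have h2 := nonneg_HypBi hd r q
  linarith

theorem gp_self_HypBi {d : X → X → ℝ} (hd : PM d) (w x : X) : gp d w x x = d w x := by
  unfold gp
  rw [hd.self, hd.symm w x]
  ring

theorem corner_HypBi (h : BiTree dv dh) (hA : 0 ≤ A) (hB : 0 ≤ B) (hn : NoRect dv dh A B)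
    {p p' p'' : X} (h1 : dv p p' = 0) (h2 : dh p p'' = 0) :
    ∃ q, Btw dv dh p' q p'' ∧ dv p q ≤ A ∧ dh p q ≤ B := by
  by_cases ha : dv p p'' ≤ A
  · refine ⟨p'', ⟨?_, ?_⟩, ha, by linarith⟩
    · rw [h.pv.self, add_zero]
    · rw [h.ph.self, add_zero]
  push Not at ha
  have e1 := congr_HypBi h.pv h1
  have e2 := congr_HypBi h.ph h2
  obtain ⟨q, hq, hq'⟩ := geoV_HypBi h p' p'' hA (by rw [← e1]; exact ha.le)
  by_cases hb : dh p q ≤ B
  · exact ⟨q, hq, by rw [e1, hq'], hb⟩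
  push Not at hb
  exfalso
  have hqv : dv p q + dv q p'' = dv p p'' := by rw [e1, e1]; exact hq.1
  have hqh : dh p q + dh q p' = dh p p' := by
    rw [e2, e2]
    exact (btw_symm_HypBi h hq).2
  obtain ⟨c1, hc1, hc1'⟩ := geoV_HypBi h p p'' hA ha.le
  obtain ⟨c2, hc2, hc2'⟩ := geoH_HypBi h p p' (nonneg_HypBi h.ph p q)
    (by have := nonneg_HypBi h.ph q p'; linarith)
  refine hn p c1 c2 q (zero_HypBi h.ph hc1.2 h2) ?_ (zero_HypBi h.pv hc2.1 h1) ?_ hc1'.ge
    (by linarith)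
  · refine same_HypBi h.ph h.hh hc2.2 hqh hc2' ?_
    rw [gp_self_HypBi h.ph]
    have := nonneg_HypBi h.ph c2 p'
    linarith [hc2.2]
  · refine same_HypBi h.pv h.hv hc1.1 hqv (by rw [hc1', e1, hq']) ?_
    rw [gp_self_HypBi h.pv]
    linarith

theorem btw_conv_HypBi (h : BiTree dv dh) {x z p p' q : X} (h1 : Btw dv dh x p z)
    (h2 : Btw dv dh x p' z) (h3 : Btw dv dh p q p') : Btw dv dh x q z :=
  ⟨conv_HypBi h.pv h.hv h1.1 h2.1 h3.1, conv_HypBi h.ph h.hh h1.2 h2.2 h3.2⟩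

/-- A point of `[x, z]` with the same first coordinate as `p`. -/
theorem shadow_HypBi (h : BiTree dv dh) {x y z p : X} (hb : Btw dv dh x p y)
    (hv : dv x p ≤ gp dv x y z) : ∃ p', Btw dv dh x p' z ∧ dv p p' = 0 := by
  obtain ⟨p', h1, h2⟩ := geoV_HypBi h x z (nonneg_HypBi h.pv x p)
    (hv.trans (gp_le_HypBi h.pv x y z).2)
  exact ⟨p', h1, same_HypBi h.pv h.hv hb.1 h1.1 h2.symm hv⟩

theorem btw_swap_HypBi {x p y : X} (hb : Btw dv dh x p y) : Btw dh dv x p y := ⟨hb.2, hb.1⟩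

theorem side_HypBi (h : BiTree dv dh) (hA : 0 ≤ A) (hB : 0 ≤ B) (hn : NoRect dv dh A B)
    {x y z p : X} (hb : Btw dv dh x p y) (hv : dv x p ≤ gp dv x y z)
    (hh : dh x p ≤ gp dh x y z + B) :
    ∃ q, Btw dv dh x q z ∧ dv p q ≤ 2 * A ∧ dh p q ≤ 2 * B := by
  obtain ⟨p', h1, h2⟩ := shadow_HypBi h hb hv
  by_cases hc : dh x p ≤ gp dh x y z
  · obtain ⟨p'', h3, h4⟩ := shadow_HypBi h.swap (btw_swap_HypBi hb) hc
    obtain ⟨q, hq, hq1, hq2⟩ := corner_HypBi h hA hB hn h2 h4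
    exact ⟨q, btw_conv_HypBi h h1 (btw_swap_HypBi h3) hq, by linarith, by linarith⟩
  push Not at hc
  obtain ⟨m, hm, hm'⟩ := geoH_HypBi h x z (gp_nonneg_HypBi h.ph x y z) (gp_le_HypBi h.ph x y z).2
  have f1 := far_HypBi h.ph h.hh hb.2 h1.2 hm.2
  obtain ⟨r, hr, hr'⟩ := geoH_HypBi h p p' (s := dh x p - gp dh x y z) (by linarith)
    (f1.trans (gp_le_HypBi h.ph p p' m).1)
  have g1 : dh p m = dh x p - gp dh x y z := by
    have a1 : gp dh x y z ≤ gp dh x p y := by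
      rw [gp_on_HypBi h.ph hb.2]
      exact hc.le
    have a2 : gp dh x y z ≤ gp dh x z m := by
      rw [gp_symm_HypBi h.ph x z m, gp_on_HypBi h.ph hm.2, hm']
    have a3 := ultra_HypBi h.hh (ultra_HypBi h.hh a1 le_rfl) a2
    have a4 : gp dh x p m = (dh p x + dh m x - dh p m) / 2 := rfl
    have b1 := h.ph.symm x p
    have b2 := h.ph.symm x m
    have b3 := h.ph.symm p m
    have b4 := h.ph.tri x m p
    linarith
  have g2 : dh r m = 0 :=
    same_HypBi h.ph h.hh hr.2 (by rw [h.ph.self, add_zero]) (by rw [hr', g1]) (by rw [hr']; exact f1)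
  have g3 : dv p r = 0 := zero_HypBi h.pv hr.1 h2
  have g4 : dv r p' = 0 := by linarith [hr.1]
  obtain ⟨q, hq, hq1, hq2⟩ := corner_HypBi h hA hB hn g4 g2
  refine ⟨q, btw_conv_HypBi h h1 hm hq, ?_, ?_⟩
  · have := h.pv.tri p r q
    linarith
  · have := h.ph.tri p r q
    linarith

theorem mixed_HypBi (h : BiTree dv dh) (hA : 0 ≤ A) (hB : 0 ≤ B) (hn : NoRect dv dh A B)
    {x y z p : X} (hb : Btw dv dh x p y) (hv : dv x p + A ≤ gp dv x y z)
    (hh : gp dh x y z + B ≤ dh x p) : False := by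
  have hb' := btw_symm_HypBi h hb
  have s1 := gp_add_HypBi h.pv x y z
  have s2 := gp_add_HypBi h.ph x y z
  have s3 := h.pv.symm y p
  have s4 := h.ph.symm y p
  obtain ⟨p', h1, h2⟩ := shadow_HypBi h hb (z := z) (by linarith)
  obtain ⟨p'', h3, h4⟩ := shadow_HypBi h.swap (btw_swap_HypBi hb') (z := z) (by linarith [hb.2])
  have f1 : A ≤ gp dv p p'' z := by
    have := far_HypBi h.pv h.hv hb'.1 h3.2 (e' := z) (by rw [h.pv.self, add_zero])
    linarith [hb.1]
  have e1 := congr_HypBi h.pv h2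
  obtain ⟨c1, hc1, hc1'⟩ := geoV_HypBi h p p'' hA (f1.trans (gp_le_HypBi h.pv p p'' z).1)
  obtain ⟨e, he, he'⟩ := geoV_HypBi h p' z hA
    (by rw [← e1]; exact f1.trans (gp_le_HypBi h.pv p p'' z).2)
  have he2 : Btw dv dh x e z :=
    btw_conv_HypBi h h1 ⟨by rw [h.pv.self, add_zero], by rw [h.ph.self, add_zero]⟩ he
  have f2 : B ≤ gp dh p p' e := by
    have := far_HypBi h.ph h.hh hb.2 h1.2 he2.2
    linarith
  obtain ⟨c2, hc2, hc2'⟩ := geoH_HypBi h p p' hB (f2.trans (gp_le_HypBi h.ph p p' e).1)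
  have g1 : dv c1 e = 0 :=
    same_HypBi h.pv h.hv (z := z) hc1.1 (by rw [e1, e1]; exact he.1) (by rw [hc1', e1, he'])
      (by rw [hc1']; exact f1)
  have g2 : dh p c1 = 0 := zero_HypBi h.ph hc1.2 h4
  have e2 := congr_HypBi h.ph g2
  obtain ⟨f, hf, hf'⟩ := geoH_HypBi h c1 e hB
    (by rw [← e2]; exact f2.trans (gp_le_HypBi h.ph p p' e).2)
  refine hn p c1 c2 f g2 ?_ (zero_HypBi h.pv hc2.1 h2) (zero_HypBi h.pv hf.1 g1) hc1'.ge hc2'.ge
  exact same_HypBi h.ph h.hh (z := e) hc2.2 (by rw [e2, e2]; exact hf.2) (by rw [hc2', e2, hf'])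
    (by rw [hc2']; exact f2)

theorem slim_HypBi (h : BiTree dv dh) (hA : 0 ≤ A) (hB : 0 ≤ B) (hn : NoRect dv dh A B)
    {x y p : X} (hb : Btw dv dh x p y) (z : X) :
    ∃ q, (Btw dv dh x q z ∨ Btw dv dh y q z) ∧ dv p q ≤ 2 * A ∧ dh p q ≤ 2 * B := by
  have hb' := btw_symm_HypBi h hb
  have hn' := noRect_swap_HypBi hn
  have s1 := gp_add_HypBi h.pv x y z
  have s2 := gp_add_HypBi h.ph x y z
  have s3 := h.pv.symm y p
  have s4 := h.ph.symm y p
  have s5 := hb.1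
  have s6 := hb.2
  rcases le_total (dv x p) (gp dv x y z) with hv | hv
  · rcases le_total (dh x p) (gp dh x y z + B) with hh | hh
    · obtain ⟨q, h1, h2⟩ := side_HypBi h hA hB hn hb hv hh
      exact ⟨q, Or.inl h1, h2⟩
    · rcases le_total (dv x p + A) (gp dv x y z) with hv' | hv'
      · exact (mixed_HypBi h hA hB hn hb hv' hh).elim
      · obtain ⟨q, h1, h2, h3⟩ := side_HypBi h.swap hB hA hn' (btw_swap_HypBi hb') (z := z)
          (by linarith) (by linarith)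
        exact ⟨q, Or.inr (btw_swap_HypBi h1), h3, h2⟩
  · rcases le_total (dh y p) (gp dh y x z + B) with hh | hh
    · obtain ⟨q, h1, h2⟩ := side_HypBi h hA hB hn hb' (z := z) (by linarith) hh
      exact ⟨q, Or.inr h1, h2⟩
    · rcases le_total (dv y p + A) (gp dv y x z) with hv' | hv'
      · exact (mixed_HypBi h hA hB hn hb' hv' hh).elim
      · obtain ⟨q, h1, h2, h3⟩ := side_HypBi h.swap hB hA hn' (btw_swap_HypBi hb) (z := z)
          (by linarith) (by linarith)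
        exact ⟨q, Or.inl (btw_swap_HypBi h1), h3, h2⟩

/-- Slim triangles for an abstract betweenness relation. -/
theorem near_abs_HypBi {D : X → X → ℝ} {T : X → X → X → Prop} {σ : ℝ} (hd : PM D)
    (hT : ∀ x p y, T x p y → D x p + D p y = D x y)
    (hg : ∀ x y s, 0 ≤ s → s ≤ D x y → ∃ r, T x r y ∧ D x r = s)
    (hs : ∀ x p y z, T x p y → ∃ q, (T x q z ∨ T y q z) ∧ D p q ≤ σ) (w x y : X) :
    ∃ v, T x v y ∧ D w v ≤ gp D w x y + 2 * σ := by
  obtain ⟨v, h1, h2⟩ := hg x y _ (gp_nonneg_HypBi hd x y w) (gp_le_HypBi hd x y w).1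
  refine ⟨v, h1, ?_⟩
  obtain ⟨q, h3, h4⟩ := hs x v y w h1
  have a1 := hT _ _ _ h1
  unfold gp at h2 ⊢
  have b1 := hd.symm x y
  have b2 := hd.symm x w
  have b3 := hd.symm y w
  have b4 := hd.symm q w
  have b5 := hd.symm q v
  have b6 := hd.symm y v
  have c1 := hd.tri w q v
  have c2 := hd.tri x q v
  have c3 := hd.tri y q v
  rcases h3 with h3 | h3
  · have a2 := hT _ _ _ h3
    linarith
  · have a2 := hT _ _ _ h3
    linarith

theorem hyp_abs_HypBi {D : X → X → ℝ} {T : X → X → X → Prop} {σ : ℝ} (hd : PM D)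
    (hT : ∀ x p y, T x p y → D x p + D p y = D x y)
    (hg : ∀ x y s, 0 ≤ s → s ≤ D x y → ∃ r, T x r y ∧ D x r = s)
    (hs : ∀ x p y z, T x p y → ∃ q, (T x q z ∨ T y q z) ∧ D p q ≤ σ) : Hyp D (3 * σ) := by
  intro w x y z
  obtain ⟨v, h1, h2⟩ := near_abs_HypBi hd hT hg hs w x z
  obtain ⟨q, h3, h4⟩ := hs x v z y h1
  have key : ∀ a b, T a q b → gp D w a b ≤ D w q := by
    intro a b hab
    have a1 := hT _ _ _ hab
    unfold gp
    have c1 := hd.tri a q w
    have c2 := hd.tri b q w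
    have c3 := hd.symm b q
    have c4 := hd.symm q w
    linarith
  have c5 := hd.tri w v q
  rcases h3 with h3 | h3
  · have a1 := key _ _ h3
    have a2 := min_le_left (gp D w x y) (gp D w y z)
    linarith
  · have a1 := key _ _ h3
    rw [gp_symm_HypBi hd w z y] at a1
    have a2 := min_le_right (gp D w x y) (gp D w y z)
    linarith

theorem btw_add_HypBi (α β : ℝ) (x p y : X) (hb : Btw dv dh x p y) :
    α * dv x p + β * dh x p + (α * dv p y + β * dh p y) = α * dv x y + β * dh x y := by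
  rw [← hb.1, ← hb.2]
  ring

theorem slimD_HypBi (h : BiTree dv dh) (hA : 0 ≤ A) (hB : 0 ≤ B) (hn : NoRect dv dh A B)
    {α β : ℝ} (hα : 0 ≤ α) (hβ : 0 ≤ β) (x p y z : X) (hb : Btw dv dh x p y) :
    ∃ q, (Btw dv dh x q z ∨ Btw dv dh y q z) ∧ α * dv p q + β * dh p q ≤ 2 * (α * A + β * B) := by
  obtain ⟨q, h1, h2, h3⟩ := slim_HypBi h hA hB hn hb z
  have a1 := mul_le_mul_of_nonneg_left h2 hα
  have a2 := mul_le_mul_of_nonneg_left h3 hβ
  exact ⟨q, h1, by linarith⟩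

end Slim

theorem BiTree.hyp {X : Type} {dv dh : X → X → ℝ} (h : BiTree dv dh) {A B α β : ℝ}
    (hA : 0 ≤ A) (hB : 0 ≤ B) (hn : NoRect dv dh A B) (hα : 0 ≤ α) (hβ : 0 ≤ β) :
    Hyp (fun p q => α * dv p q + β * dh p q) (9 * (α * A + β * B)) := by
  have h1 := hyp_abs_HypBi (T := Btw dv dh) (h.pm hα hβ) (btw_add_HypBi α β)
    (fun x y s => h.geo α β x y s hα hβ) (slimD_HypBi h hA hB hn hα hβ)
  intro w x y z
  have h2 := h1 w x y z
  have h3 : 0 ≤ α * A + β * B := by positivity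
  linarith

theorem BiTree.near {X : Type} {dv dh : X → X → ℝ} (h : BiTree dv dh) {A B α β : ℝ}
    (hA : 0 ≤ A) (hB : 0 ≤ B) (hn : NoRect dv dh A B) (hα : 0 ≤ α) (hβ : 0 ≤ β) (w x y : X) :
    ∃ v, Btw dv dh x v y ∧ α * dv w v + β * dh w v ≤
      gp (fun p q => α * dv p q + β * dh p q) w x y + 6 * (α * A + β * B) := by
  obtain ⟨v, h1, h2⟩ := near_abs_HypBi (T := Btw dv dh) (h.pm hα hβ) (btw_add_HypBi α β)
    (fun x y s => h.geo α β x y s hα hβ) (slimD_HypBi h hA hB hn hα hβ) w x y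
  have h3 : 0 ≤ α * A + β * B := by positivity
  exact ⟨v, h1, by linarith⟩

end Pool.Agent.E5f

end

section

/-! Graph metrics, slim triangles and the guessing geodesics lemma. -/

set_option autoImplicit false

namespace Pool.Agent.E5f

theorem gd_pm {V : Type} {G : SimpleGraph V} (hG : G.Connected) : PM (gd G) :=
  ⟨fun x => by simp [gd], fun x y => by rw [gd, gd, SimpleGraph.dist_comm],
    fun x y z => by unfold gd; exact_mod_cast hG.dist_triangle⟩

theorem gd_adj {V : Type} {G : SimpleGraph V} {x y : V} : gd G x y = 1 ↔ G.Adj x y := by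
  rw [gd, Nat.cast_eq_one, SimpleGraph.dist_eq_one_iff_adj]

theorem gseg_ex {V : Type} {G : SimpleGraph V} (hG : G.Connected) (x y : V) :
    ∃ γ : ℕ → V, γ 0 = x ∧ γ (G.dist x y) = y ∧ GSeg G γ (G.dist x y) ∧
      ∀ i, i < G.dist x y → G.Adj (γ i) (γ (i + 1)) := by
  obtain ⟨p, hp⟩ := hG.exists_walk_length_eq_dist x y
  have pm := gd_pm hG
  have h1 : ∀ i, i < G.dist x y → G.Adj (p.getVert i) (p.getVert (i + 1)) := fun i hi =>
    p.adj_getVert_succ (hp ▸ hi)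
  have h2 : ∀ i k : ℕ, i + k ≤ G.dist x y → gd G (p.getVert i) (p.getVert (i + k)) ≤ k := by
    intro i k
    induction k with
    | zero => exact fun _ => by simp [gd]
    | succ k ih =>
      intro h
      have := pm.tri (p.getVert i) (p.getVert (i + k)) (p.getVert (i + k + 1))
      rw [gd_adj.2 (h1 (i + k) h)] at this
      have := ih (by omega)
      push_cast
      rw [← add_assoc]
      linarith
  have h3 : ∀ i j : ℕ, i ≤ j → j ≤ G.dist x y → gd G (p.getVert i) (p.getVert j) = j - i := by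
    intro i j hij hj
    obtain ⟨k, rfl⟩ := Nat.exists_eq_add_of_le hij
    obtain ⟨l, hl⟩ := Nat.exists_eq_add_of_le hj
    have e1 := h2 i k hj
    have e2 := h2 0 i (by omega)
    have e3 := h2 (i + k) l hl.ge
    rw [← hl, ← hp, p.getVert_length] at e3
    rw [zero_add, p.getVert_zero] at e2
    have e4 := pm.tri x (p.getVert i) y
    have e5 := pm.tri (p.getVert i) (p.getVert (i + k)) y
    have e6 : gd G x y = i + k + l := by
      rw [gd, hl]
      push_cast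
      rfl
    push_cast
    linarith
  refine ⟨p.getVert, p.getVert_zero, hp ▸ p.getVert_length, fun i j hi hj => ?_, h1⟩
  rcases le_total i j with h | h
  · rw [h3 i j h hj, abs_sub_comm, abs_of_nonneg (sub_nonneg.2 (Nat.cast_le.2 h))]
  · rw [pm.symm, h3 j i h hi, abs_of_nonneg (sub_nonneg.2 (Nat.cast_le.2 h))]

theorem btw_HypGuess {V : Type} {G : SimpleGraph V} {γ : ℕ → V} {x y : V} (h0 : γ 0 = x)
    (h1 : γ (G.dist x y) = y) (h : GSeg G γ (G.dist x y)) {k : ℕ} (hk : k ≤ G.dist x y) :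
    gd G x (γ k) = k ∧ gd G x (γ k) + gd G (γ k) y = gd G x y := by
  have e1 := h 0 k (Nat.zero_le _) hk
  have e2 := h k _ hk le_rfl
  rw [h0, Nat.cast_zero, zero_sub, abs_neg, Nat.abs_cast] at e1
  rw [h1, abs_sub_comm, abs_of_nonneg (sub_nonneg.2 (Nat.cast_le.2 hk))] at e2
  exact ⟨e1, by rw [e1, e2, gd, add_sub_cancel]⟩

theorem pt_HypGuess {V : Type} {G : SimpleGraph V} (hG : G.Connected) (x y : V) {s : ℝ}
    (h0 : 0 ≤ s) (h1 : s ≤ gd G x y) :
    ∃ p, gd G x p + gd G p y = gd G x y ∧ s - 1 ≤ gd G x p ∧ gd G x p ≤ s := by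
  obtain ⟨γ, e0, e1, e2, -⟩ := gseg_ex hG x y
  obtain ⟨e3, e4⟩ := btw_HypGuess e0 e1 e2 (Nat.floor_le_of_le h1)
  exact ⟨_, e4, e3 ▸ (Nat.sub_one_lt_floor s).le, e3 ▸ Nat.floor_le h0⟩

theorem gd_rg {V : Type} {G : SimpleGraph V} (hG : G.Connected) : RG (gd G) 1 := by
  intro x y s h0 h1
  obtain ⟨p, e1, e2, e3⟩ := pt_HypGuess hG x y h0 h1
  exact ⟨p, abs_le.2 ⟨by linarith, by linarith⟩, abs_le.2 ⟨by linarith, by linarith⟩⟩

theorem near_HypGuess {V : Type} {G : SimpleGraph V} (hG : G.Connected) {h : ℝ}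
    (hs : ∀ x y z p, gd G x p + gd G p y = gd G x y →
      ∃ q, (gd G x q + gd G q z = gd G x z ∨ gd G y q + gd G q z = gd G y z) ∧ gd G p q ≤ h)
    (w x z : V) : ∃ p, gd G x p + gd G p z = gd G x z ∧ gd G w p ≤ gp (gd G) w x z + 2 * h + 1 := by
  have pm := gd_pm hG
  have := pm.symm z w
  have := pm.symm x w
  have := pm.symm x z
  obtain ⟨p, e1, e2, e3⟩ := pt_HypGuess hG x z (s := (gd G x z + gd G x w - gd G z w) / 2)
    (by linarith [pm.tri z x w]) (by linarith [pm.tri x z w])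
  obtain ⟨q, e4, e5⟩ := hs x z w p e1
  refine ⟨p, e1, ?_⟩
  have := pm.tri w q p
  have := pm.symm p q
  have := pm.symm w q
  have := pm.symm p z
  unfold gp
  rcases e4 with e4 | e4
  · linarith [pm.tri x q p]
  · linarith [pm.tri z q p]

/-- Slim triangles give hyperbolicity. -/
theorem hyp_of_slim {V : Type} {G : SimpleGraph V} (hG : G.Connected) (h : ℝ)
    (hs : ∀ x y z p, gd G x p + gd G p y = gd G x y →
      ∃ q, (gd G x q + gd G q z = gd G x z ∨ gd G y q + gd G q z = gd G y z) ∧ gd G p q ≤ h) :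
    Hyp (gd G) (3 * h + 3) := by
  intro w x y z
  have pm := gd_pm hG
  obtain ⟨p, e1, e2⟩ := near_HypGuess hG hs w x z
  obtain ⟨q, e3, e4⟩ := hs x z y p e1
  have := pm.tri w p q
  have := pm.symm w q
  have := pm.tri y q w
  have := pm.symm y q
  rcases e3 with e3 | e3
  · refine (sub_le_sub_right (min_le_left _ _) _).trans ?_
    unfold gp at *
    linarith [pm.tri x q w]
  · refine (sub_le_sub_right (min_le_right _ _) _).trans ?_
    unfold gp at *
    linarith [pm.tri z q w, pm.symm y z]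

theorem num_HypGuess (h : ℝ) : ∃ k : ℕ, ∀ m : ℕ, 2 * h * (k + m + 6) < 2 ^ (k + m) := by
  obtain ⟨a, ha⟩ := exists_nat_ge (8 * |h| + 1)
  have h0 := abs_nonneg h
  refine ⟨2 * a, fun m => lt_of_le_of_lt (b := 2 * |h| * ((2 * a : ℕ) + m + 6))
    (by gcongr; exact le_abs_self h) ?_⟩
  induction m with
  | zero =>
    have : ((2 * a ^ 2 + 1 : ℕ) : ℝ) ≤ (2 ^ (2 * a) : ℕ) :=
      Nat.cast_le.2 (Nat.two_mul_sq_add_one_le_two_pow_two_mul a)
    rw [add_zero (2 * a)]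
    push_cast at this ⊢
    nlinarith
  | succ m ih =>
    rw [← add_assoc, pow_succ]
    push_cast at ih ⊢
    nlinarith [mul_nonneg h0 (Nat.cast_nonneg (α := ℝ) a), mul_nonneg h0 (Nat.cast_nonneg (α := ℝ) m)]

/-- Points of the guessed lines stay near a given geodesic. -/
def Fol_HypGuess {V : Type} (G : SimpleGraph V) (Ls : V → V → Set V) (α : ℕ → V) (n : ℕ) (t : ℝ) :
    Prop :=
  ∀ i j W, i ≤ j → j ≤ n → W ∈ Ls (α i) (α j) → ∃ v, i ≤ v ∧ v ≤ j ∧ gd G W (α v) ≤ t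

section
variable {V : Type} {G : SimpleGraph V} {Ls : V → V → Set V} {h : ℝ} {α : ℕ → V} {n : ℕ}
  (hG : G.Connected) (h0 : 0 ≤ h)
  (h1 : ∀ X Y Z W, W ∈ Ls X Y → ∃ W', (W' ∈ Ls X Z ∨ W' ∈ Ls Z Y) ∧ gd G W W' ≤ h)
  (h3 : ∀ X Y W, gd G X Y ≤ 1 → W ∈ Ls X Y → gd G X W ≤ h) (hα : GSeg G α n)

include hG h1 h3 hα

theorem bis_HypGuess (k : ℕ) : ∀ i j W, i ≤ j → j ≤ n → j ≤ i + 2 ^ k → W ∈ Ls (α i) (α j) →
    ∃ v, i ≤ v ∧ v ≤ j ∧ gd G W (α v) ≤ h * (k + 1) := by
  have pm := gd_pm hG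
  induction k with
  | zero =>
    intro i j W e1 e2 e3 e4
    refine ⟨i, le_rfl, e1, ?_⟩
    rw [pm.symm, Nat.cast_zero, zero_add, mul_one]
    refine h3 _ _ _ ?_ e4
    rw [hα i j (e1.trans e2) e2, abs_sub_comm, abs_of_nonneg (sub_nonneg.2 (Nat.cast_le.2 e1)),
      sub_le_iff_le_add']
    exact_mod_cast e3
  | succ k ih =>
    intro i j W e1 e2 e3 e4
    rw [pow_succ] at e3
    obtain ⟨W', e5, e6⟩ := h1 _ _ (α ((i + j) / 2)) W e4
    obtain ⟨v, e7, e8, e9⟩ : ∃ v, i ≤ v ∧ v ≤ j ∧ gd G W' (α v) ≤ h * (k + 1) := by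
      rcases e5 with e5 | e5
      · obtain ⟨v, a, b, c⟩ := ih _ _ _ (by omega) (by omega) (by omega) e5
        exact ⟨v, a, by omega, c⟩
      · obtain ⟨v, a, b, c⟩ := ih _ _ _ (by omega) (by omega) (by omega) e5
        exact ⟨v, by omega, b, c⟩
    refine ⟨v, e7, e8, ?_⟩
    push_cast
    linarith [pm.tri W W' (α v)]

include h0

theorem imp_HypGuess {t : ℝ} {k : ℕ} (ht : 2 * t + 2 * h < 2 ^ k) (hF : Fol_HypGuess G Ls α n t) :
    Fol_HypGuess G Ls α n (h * (k + 4)) := by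
  have pm := gd_pm hG
  intro i j W e1 e2 e3
  have bis := bis_HypGuess hG h1 h3 hα (k + 1)
  rw [pow_succ] at bis
  rw [← Nat.cast_ofNat (n := 2), ← Nat.cast_pow, Nat.cast_ofNat] at ht
  generalize 2 ^ k = r at bis ht
  obtain ⟨v, e4, e5, e6⟩ := hF i j W e1 e2 e3
  have hk := mul_nonneg h0 (Nat.cast_nonneg (α := ℝ) k)
  have far : ∀ u W', u ≤ n → gd G W W' ≤ 2 * h → gd G W' (α u) ≤ t →
      u + r ≤ v ∨ v + r ≤ u → False := fun u W' a b c d => by
    have f1 := hα v u (e5.trans e2) a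
    have f2 : (r : ℝ) ≤ |(v : ℝ) - u| := le_abs.2 (d.imp
      (fun d => le_sub_iff_add_le'.2 (by exact_mod_cast d))
      fun d => by rw [neg_sub]; exact le_sub_iff_add_le'.2 (by exact_mod_cast d))
    linarith [pm.tri (α v) W (α u), pm.tri W W' (α u), pm.symm W (α v)]
  have same : ∀ u W', gd G W W' ≤ 2 * h → W' ∈ Ls (α u) (α u) → gd G W (α u) ≤ h * (k + 4) :=
    fun u W' a b => by
      linarith [h3 _ _ _ ((pm.self _).trans_le zero_le_one) b, pm.tri W W' (α u), pm.symm W' (α u)]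
  obtain ⟨W', e7 | e7, e8⟩ := h1 _ _ (α (max i (v - r))) W e3
  · rcases le_total (v - r) i with a | a
    · rw [max_eq_left a] at e7
      exact ⟨i, le_rfl, e1, same i W' (by linarith) e7⟩
    · rcases a.eq_or_lt with a | a
      · rw [← a, max_self] at e7
        exact ⟨i, le_rfl, e1, same i W' (by linarith) e7⟩
      obtain ⟨u, b, c, d⟩ := hF _ _ _ (le_max_left _ _) (by omega) e7
      exact (far u W' (by omega) (by linarith) d (.inl (by omega))).elim
  obtain ⟨W'', e9, e10⟩ := h1 _ _ (α (min j (v + r))) W' e7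
  have e11 : gd G W W'' ≤ 2 * h := by linarith [pm.tri W W' W'']
  rcases e9 with e9 | e9
  · obtain ⟨u, b, c, d⟩ := bis _ _ _ (by omega) (by omega) (by omega) e9
    refine ⟨u, by omega, by omega, ?_⟩
    push_cast at d
    linarith [pm.tri W W'' (α u)]
  · rcases le_total j (v + r) with a | a
    · rw [min_eq_left a] at e9
      exact ⟨j, e1, le_rfl, same j W'' e11 e9⟩
    obtain ⟨u, b, c, d⟩ := hF _ _ _ (min_le_left _ _) e2 e9
    exact (far u W'' (by omega) e11 d (.inr (by omega))).elim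

theorem fol_HypGuess {k : ℕ} (hk : ∀ m : ℕ, 2 * h * (k + m + 6) < 2 ^ (k + m)) :
    Fol_HypGuess G Ls α n (h * (k + 4)) := by
  have key : ∀ m : ℕ, Fol_HypGuess G Ls α n (h * ((k + m : ℕ) + 4)) →
      Fol_HypGuess G Ls α n (h * (k + 4)) := fun m => by
    induction m with
    | zero => exact id
    | succ m ih =>
      refine fun hF => ih (imp_HypGuess hG h0 h1 h3 hα ?_ hF)
      push_cast
      linarith [hk m]
  refine key n fun i j W e1 e2 e3 => ?_
  obtain ⟨v, a, b, c⟩ := bis_HypGuess hG h1 h3 hα (k + n) i j W e1 e2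
    (by have := (k + n).lt_two_pow_self; omega) e3
  exact ⟨v, a, b, by linarith⟩

end

theorem guess (h : ℝ) : ∃ δ R : ℝ, ∀ {V : Type} (G : SimpleGraph V) (Ls : V → V → Set V),
    G.Connected →
    (∀ X Y Z W, W ∈ Ls X Y → ∃ W', (W' ∈ Ls X Z ∨ W' ∈ Ls Z Y) ∧ gd G W W' ≤ h) →
    (∀ X Y Z, ∃ C W1 W2 W3, W1 ∈ Ls X Y ∧ W2 ∈ Ls X Z ∧ W3 ∈ Ls Z Y ∧ gd G C W1 ≤ h ∧
      gd G C W2 ≤ h ∧ gd G C W3 ≤ h) →
    (∀ X Y W, gd G X Y ≤ 1 → W ∈ Ls X Y → gd G X W ≤ h) →
    Hyp (gd G) δ ∧ (∀ X Y W, W ∈ Ls X Y → gp (gd G) W X Y ≤ R) ∧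
      (∀ X Y W (c : ℝ), gp (gd G) W X Y ≤ c → ∃ W' ∈ Ls X Y, gd G W W' ≤ c + R) := by
  obtain ⟨k, hk⟩ := num_HypGuess h
  obtain ⟨T, hT⟩ : ∃ T, T = h * (k + 4) := ⟨_, rfl⟩
  refine ⟨3 * (4 * T + 5 * h) + 3, 11 * T + 14 * h + 1, fun {V} G Ls hG h1 h2 h3 => ?_⟩
  have pm := gd_pm hG
  have h0 : 0 ≤ h := by
    obtain ⟨X⟩ := hG.nonempty
    obtain ⟨C, W, -, -, -, -, -, e, -⟩ := h2 X X X
    exact (Nat.cast_nonneg _).trans e
  have hT0 : 0 ≤ T := hT ▸ by positivity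
  have hA : ∀ X Y W, W ∈ Ls X Y → ∃ u, gd G X u + gd G u Y = gd G X Y ∧ gd G W u ≤ T := by
    intro X Y W hW
    obtain ⟨γ, e0, e1, e2, -⟩ := gseg_ex hG X Y
    obtain ⟨v, -, a, b⟩ := fol_HypGuess hG h0 h1 h3 e2 hk 0 _ W (Nat.zero_le _) le_rfl
      (by rwa [e0, e1])
    exact ⟨_, (btw_HypGuess e0 e1 e2 a).2, hT ▸ b⟩
  have hB : ∀ X Y p, gd G X p + gd G p Y = gd G X Y → ∃ W ∈ Ls X Y, gd G p W ≤ 3 * T + 4 * h := by
    intro X Y p hp
    obtain ⟨C, W1, W2, W3, a1, a2, a3, b1, b2, b3⟩ := h2 X Y p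
    obtain ⟨u, c1, c2⟩ := hA _ _ _ a2
    obtain ⟨u', c3, c4⟩ := hA _ _ _ a3
    have c5 : gd G u C ≤ T + h := by linarith [pm.tri u W2 C, pm.symm u W2, pm.symm W2 C]
    have c6 : (0 : ℝ) ≤ gd G p u' := Nat.cast_nonneg _
    refine ⟨W1, a1, ?_⟩
    linarith [pm.tri X u Y, pm.tri u C Y, pm.tri C W3 Y, pm.tri W3 u' Y,
      pm.tri p u W1, pm.tri u C W1, pm.symm p u]
  have hs : ∀ x y z p, gd G x p + gd G p y = gd G x y → ∃ q, (gd G x q + gd G q z = gd G x z ∨
      gd G y q + gd G q z = gd G y z) ∧ gd G p q ≤ 4 * T + 5 * h := by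
    intro x y z p hp
    obtain ⟨W, a1, a2⟩ := hB x y p hp
    obtain ⟨W', a3 | a3, a4⟩ := h1 _ _ z W a1 <;> obtain ⟨q, a5, a6⟩ := hA _ _ _ a3
    · exact ⟨q, .inl a5, by linarith [pm.tri p W q, pm.tri W W' q]⟩
    · exact ⟨q, .inr (by linarith [pm.symm y q, pm.symm q z, pm.symm y z]),
        by linarith [pm.tri p W q, pm.tri W W' q]⟩
  refine ⟨hyp_of_slim hG _ hs, fun X Y W hW => ?_, fun X Y W c hc => ?_⟩
  · obtain ⟨u, a1, a2⟩ := hA X Y W hW
    unfold gp
    linarith [pm.tri X u W, pm.tri Y u W, pm.symm u W, pm.symm u Y]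
  · obtain ⟨p, a1, a2⟩ := near_HypGuess hG hs W X Y
    obtain ⟨W', a3, a4⟩ := hB X Y p a1
    exact ⟨W', a3, by linarith [pm.tri W p W']⟩

end Pool.Agent.E5f

end

section

/-! Transport to a presented group. -/

set_option autoImplicit false

namespace Pool.Agent.E5f

theorem wl_equiv_FinPack {G H ι : Type} [Group G] [Group H] (e : G ≃* H) (s : ι → G) (g : G) :
    wl s g = wl (fun i => e (s i)) (e g) := by
  have h : ∀ l, wev (fun i => e (s i)) l = e (wev s l) := fun l => by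
    simp only [wev, map_list_prod, List.map_map, Function.comp_def, apply_ite e, map_inv]
  simp only [wl, h, e.apply_eq_iff_eq]

theorem exists_equiv_FinPack {G ι : Type} [Group G] (s : ι → G) (h : Gens s) :
    ∃ (rels : Set (FreeGroup ι)) (e : PresentedGroup rels ≃* G),
      ∀ i, e (PresentedGroup.of i) = s i := by
  let π : PresentedGroup ((FreeGroup.lift s).ker : Set (FreeGroup ι)) →* G :=
    PresentedGroup.toGroup (f := s) fun r hr => hr
  have h1 : ∀ i, π (PresentedGroup.of i) = s i := fun i => PresentedGroup.toGroup.of _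
  refine ⟨_, MulEquiv.ofBijective π ⟨(injective_iff_map_eq_one π).2 fun x hx => ?_, fun g => ?_⟩,
    h1⟩
  · obtain ⟨w, rfl⟩ := PresentedGroup.mk_surjective _ x
    exact PresentedGroup.one_of_mem hx
  · obtain ⟨l, rfl⟩ := h g
    refine ⟨wev PresentedGroup.of l, ?_⟩
    simp only [wev, map_list_prod, List.map_map, Function.comp_def, apply_ite π, map_inv, h1]

theorem final_pack {g0 h0 : ℕ} (hg : 2 ≤ g0) (hh : 2 ≤ h0) (G : Type) [Group G] (n0 : ℕ)
    (s : Fin n0 → G) (i0 : SG g0 →* G) (p0 : G →* SG h0) (h1 : Gens s) (h2 : FourPt s)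
    (h3 : Function.Injective i0) (h4 : Function.Surjective p0) (h5 : i0.range = p0.ker) :
    ∃ g h : ℕ, 2 ≤ g ∧ 2 ≤ h ∧ ∃ (n : ℕ) (rels : Set (FreeGroup (Fin n))),
      ∃ (i : PresentedGroup ({(List.ofFn (fun k : Fin g =>
              (FreeGroup.of (Sum.inl k) * FreeGroup.of (Sum.inr k) *
                (FreeGroup.of (Sum.inl k))⁻¹ * (FreeGroup.of (Sum.inr k))⁻¹ :
                FreeGroup (Fin g ⊕ Fin g)))).prod} :
              Set (FreeGroup (Fin g ⊕ Fin g))) →* PresentedGroup rels)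
        (p : PresentedGroup rels →* PresentedGroup ({(List.ofFn (fun k : Fin h =>
              (FreeGroup.of (Sum.inl k) * FreeGroup.of (Sum.inr k) *
                (FreeGroup.of (Sum.inl k))⁻¹ * (FreeGroup.of (Sum.inr k))⁻¹ :
                FreeGroup (Fin h ⊕ Fin h)))).prod} :
              Set (FreeGroup (Fin h ⊕ Fin h)))),
        Function.Injective i ∧ Function.Surjective p ∧ i.range = p.ker ∧
        ∃ δ : ℕ, ∀ x y z w : PresentedGroup rels,
          sInf {m : ℕ | ∃ l : List (Fin n × Bool), l.length = m ∧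
              (l.map (fun e : Fin n × Bool => if e.2 = true
                then (PresentedGroup.of e.1 : PresentedGroup rels)
                else (PresentedGroup.of e.1 : PresentedGroup rels)⁻¹)).prod = x⁻¹ * y}
          + sInf {m : ℕ | ∃ l : List (Fin n × Bool), l.length = m ∧
              (l.map (fun e : Fin n × Bool => if e.2 = true
                then (PresentedGroup.of e.1 : PresentedGroup rels)
                else (PresentedGroup.of e.1 : PresentedGroup rels)⁻¹)).prod = z⁻¹ * w}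
          ≤ max
            (sInf {m : ℕ | ∃ l : List (Fin n × Bool), l.length = m ∧
              (l.map (fun e : Fin n × Bool => if e.2 = true
                then (PresentedGroup.of e.1 : PresentedGroup rels)
                else (PresentedGroup.of e.1 : PresentedGroup rels)⁻¹)).prod = x⁻¹ * z}
            + sInf {m : ℕ | ∃ l : List (Fin n × Bool), l.length = m ∧
              (l.map (fun e : Fin n × Bool => if e.2 = true
                then (PresentedGroup.of e.1 : PresentedGroup rels)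
                else (PresentedGroup.of e.1 : PresentedGroup rels)⁻¹)).prod = y⁻¹ * w})
            (sInf {m : ℕ | ∃ l : List (Fin n × Bool), l.length = m ∧
              (l.map (fun e : Fin n × Bool => if e.2 = true
                then (PresentedGroup.of e.1 : PresentedGroup rels)
                else (PresentedGroup.of e.1 : PresentedGroup rels)⁻¹)).prod = x⁻¹ * w}
            + sInf {m : ℕ | ∃ l : List (Fin n × Bool), l.length = m ∧
              (l.map (fun e : Fin n × Bool => if e.2 = true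
                then (PresentedGroup.of e.1 : PresentedGroup rels)
                else (PresentedGroup.of e.1 : PresentedGroup rels)⁻¹)).prod = y⁻¹ * z})
          + 2 * δ := by
  obtain ⟨rels, e, he⟩ := exists_equiv_FinPack s h1
  obtain ⟨δ, hδ⟩ := h2
  refine ⟨g0, h0, hg, hh, n0, rels, e.symm.toMonoidHom.comp i0, p0.comp e.toMonoidHom,
    e.symm.injective.comp h3, h4.comp e.surjective, ?_, δ, fun x y z w => ?_⟩
  · ext x
    rw [MonoidHom.mem_ker, MonoidHom.comp_apply, ← MonoidHom.mem_ker, ← h5]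
    exact ⟨fun ⟨a, ha⟩ => ⟨a, e.symm_apply_eq.1 ha⟩, fun ⟨a, ha⟩ => ⟨a, e.symm_apply_eq.2 ha⟩⟩
  · have h6 : ∀ a b : PresentedGroup rels, wl s ((e a)⁻¹ * e b) =
        wl (PresentedGroup.of : Fin n0 → PresentedGroup rels) (a⁻¹ * b) := fun a b => by
      rw [wl_equiv_FinPack e, map_mul, map_inv, funext he]
    have h7 := hδ (e x) (e y) (e z) (e w)
    simp only [h6] at h7
    exact h7

end Pool.Agent.E5f

end

section

/-! Definitions for the endgame: the total graph of the base, quasi-geodesic sequences in it,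
one-sided functionals, and the intermediate statements. -/

set_option autoImplicit false

namespace Pool.Agent.E5f

/-- Betweenness for one pseudo-metric. -/
def On {X : Type} (d : X → X → ℝ) (x r y : X) : Prop := d x r + d r y = d x y

theorem gd_equiv_End {V W : Type} {G : SimpleGraph V} {G' : SimpleGraph W} (e : G ≃g G')
    (x y : V) : gd G' (e x) (e y) = gd G x y := by
  have key : ∀ {V W : Type} {G : SimpleGraph V} {G' : SimpleGraph W} (e : G ≃g G') (x y : V),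
      G'.edist (e x) (e y) ≤ G.edist x y := by
    intro V W G G' e x y
    refine le_iInf fun w => ?_
    have := SimpleGraph.edist_le (w.map e.toHom)
    rwa [SimpleGraph.Walk.length_map] at this
  have h : G'.edist (e x) (e y) = G.edist x y :=
    le_antisymm (key e x y) (by simpa using key e.symm (e x) (e y))
  simp only [gd, SimpleGraph.dist, h]

variable {Q : Type} [MulAction G8 Q]

namespace Base

/-- The metric on the base at height `t`. -/
noncomputable def D (S : Base Q) (t : ℤ) (p q : Q) : ℝ :=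
  S.lam ^ t * S.dv p q + S.lam ^ (-t) * S.dh p q

/-- The total graph. -/
noncomputable def E (S : Base Q) : SimpleGraph (Q × ℤ) := totG lineG S.D 1

/-- The metric of the total graph. -/
noncomputable def dE (S : Base Q) : Q × ℤ → Q × ℤ → ℝ := gd S.E

/-- Exchange of the two trees. -/
def swap (S : Base Q) : Base Q where
  lam := S.lam
  lam1 := S.lam1
  dv := S.dh
  dh := S.dv
  dg := fun γ => -S.dg γ
  dg_mul := fun γ γ' => by rw [S.dg_mul]; ring
  dg_t := by rcases S.dg_t with h | h <;> simp [h]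
  dg_c := by simp [S.dg_c]
  bi := S.bi.swap
  nr := by
    obtain ⟨L, h0, h⟩ := S.nr
    exact ⟨L, h0, fun a b c d h1 h2 h3 h4 h5 h6 => h a c b d h3 h4 h1 h2 h6 h5⟩
  sv := S.sh
  sh := fun γ p q => by rw [neg_neg]; exact S.sv γ p q
  P0 := S.P0
  fix_c := S.fix_c.symm
  fix_t := S.fix_t.symm
  dense := by
    obtain ⟨R, h⟩ := S.dense
    refine ⟨R, fun q => ?_⟩
    obtain ⟨γ, h1, h2⟩ := h q
    exact ⟨γ, by simp [h1], by rwa [add_comm]⟩
  elem := fun R => by
    obtain ⟨F, N, h⟩ := S.elem R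
    exact ⟨F, N, fun γ h1 h2 => h γ (neg_eq_zero.1 h1) (by rwa [add_comm])⟩
  sideV := ⟨S.sideH.hor, fun p0 p B M h1 h2 h3 => by
    simpa only [neg_eq_zero] using S.sideH.ray p0 p B M h1 h2 h3⟩
  sideH := ⟨S.sideV.hor, fun p0 p B M h1 h2 h3 => by
    simpa only [neg_eq_zero] using S.sideV.ray p0 p B M h1 h2 h3⟩

theorem D_swap (S : Base Q) (t : ℤ) (p q : Q) : S.swap.D t p q = S.D (-t) p q := by
  simp only [D, swap, neg_neg]
  ring

theorem dE_swap (S : Base Q) (p q : Q) (s t : ℤ) :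
    S.swap.dE (p, -s) (q, -t) = S.dE (p, s) (q, t) := by
  refine gd_equiv_End (G := S.E) (G' := S.swap.E)
    ⟨(Equiv.refl Q).prodCongr (Equiv.neg ℤ), ?_⟩ (p, s) (q, t)
  rintro ⟨a, i⟩ ⟨b, j⟩
  simp only [E, totG, lineG, D_swap, Equiv.prodCongr_apply, Equiv.coe_refl, Prod.map, id,
    Equiv.neg_apply, neg_neg, ne_eq, Prod.mk.injEq, neg_inj]
  have : (-j = -i + 1 ∨ -i = -j + 1) ↔ (j = i + 1 ∨ i = j + 1) := by omega
  rw [this]

/-- Seen from `(v, t)`, the way to `X` begins by climbing to the height `t + T`. -/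
def Up (S : Base Q) (v : Q) (t T : ℤ) (X : Q × ℤ) : Prop :=
  (∃ u, Btw S.dv S.dh v u X.1 ∧ S.lam ^ (t + T) ≤ S.dh v u ∧ S.dv v u ≤ S.lam ^ (-(t + T))) ∨
    (S.dv v X.1 ≤ S.lam ^ (-(t + T)) ∧ t + T ≤ X.2)

end Base

/-- A bi-infinite quasi-geodesic of the total graph that does not stay near a cusp. -/
structure Seq (S : Base Q) where
  q : ℤ → Q
  τ : ℤ → ℤ
  K : ℝ
  τ0 : τ 0 = 0
  up : ∀ i j : ℤ, S.dE (q i, τ i) (q j, τ j) ≤ K * |(i : ℝ) - (j : ℝ)| + K
  low : ∀ i j : ℤ, |(i : ℝ) - (j : ℝ)| ≤ K * S.dE (q i, τ i) (q j, τ j) + K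
  cl : ∀ C : ℝ, ∃ n : ℝ, ∀ (γ : G8) (t t' i j : ℤ), S.dE (γ • S.P0, t) (q i, τ i) ≤ C →
    S.dE (γ • S.P0, t') (q j, τ j) ≤ C → |(i : ℝ) - (j : ℝ)| ≤ n

namespace Seq

variable {S : Base Q}

/-- The vertex of index `j`. -/
def X (Z : Seq S) (j : ℤ) : Q × ℤ := (Z.q j, Z.τ j)

/-- The scale at index `j`. -/
noncomputable def a (Z : Seq S) (j : ℤ) : ℝ := S.lam ^ Z.τ j

/-- The reversed sequence. -/
def rev (Z : Seq S) : Seq S where
  q := fun j => Z.q (-j)
  τ := fun j => Z.τ (-j)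
  K := Z.K
  τ0 := Z.τ0
  up := fun i j => by
    have := Z.up (-i) (-j)
    rwa [Int.cast_neg, Int.cast_neg, neg_sub_neg, abs_sub_comm] at this
  low := fun i j => by
    have := Z.low (-i) (-j)
    rwa [Int.cast_neg, Int.cast_neg, neg_sub_neg, abs_sub_comm] at this
  cl := fun C => by
    obtain ⟨n, h⟩ := Z.cl C
    refine ⟨n, fun γ t t' i j h1 h2 => ?_⟩
    have := h γ t t' (-i) (-j) h1 h2
    rwa [Int.cast_neg, Int.cast_neg, neg_sub_neg, abs_sub_comm] at this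

/-- The sequence in the exchanged base. -/
def swap (Z : Seq S) : Seq S.swap where
  q := Z.q
  τ := fun j => -Z.τ j
  K := Z.K
  τ0 := by rw [Z.τ0, neg_zero]
  up := fun i j => by rw [S.dE_swap]; exact Z.up i j
  low := fun i j => by rw [S.dE_swap]; exact Z.low i j
  cl := fun C => by
    obtain ⟨n, h⟩ := Z.cl C
    refine ⟨n, fun γ t t' i j h1 h2 => h γ (-t) (-t') i j ?_ ?_⟩
    · rw [← S.dE_swap, neg_neg]; exact h1
    · rw [← S.dE_swap, neg_neg]; exact h2

/-- The positive end is good for the first functional. -/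
def FGood (Z : Seq S) : Prop :=
  ∀ (A : ℝ) (k0 : ℤ), ∃ k, k0 ≤ k ∧ A ≤ Z.a k * (1 + S.dv (Z.q 0) (Z.q k))

/-- The positive end goes up. -/
def UpE (Z : Seq S) : Prop :=
  ∃ M : ℝ, ∀ (A : ℝ) (k0 : ℤ), ∃ k, k0 ≤ k ∧ A ≤ Z.a k ∧ S.dv (Z.q 0) (Z.q k) ≤ M

/-- The positive end goes far. -/
def FrE (Z : Seq S) : Prop :=
  ∀ (A : ℝ) (k0 : ℤ), ∃ k, k0 ≤ k ∧ A ≤ Z.a k * (1 + S.dv (Z.q 0) (Z.q k)) ∧
    A ≤ S.dv (Z.q 0) (Z.q k)

/-- The positive end is not good. -/
def Bdd (Z : Seq S) (B : ℝ) : Prop := ∀ k, 0 ≤ k → Z.a k * (1 + S.dv (Z.q 0) (Z.q k)) ≤ B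

/-- Long flat strips along the sequence. -/
def Strip (Z : Seq S) : Prop :=
  ∃ C0 : ℝ, ∀ R : ℝ, 0 ≤ R → ∃ (i k : ℤ) (c : ℝ) (P : ℝ → Q), i ≤ 0 ∧ 0 ≤ k ∧
    S.dv (Z.q 0) (P 0) ≤ C0 ∧ ∀ s, |s| ≤ R → S.dh (P s) (P 0) = 0 ∧
      S.dv (Z.q i) (P s) = c + s ∧ On S.dv (Z.q i) (P s) (Z.q k)

/-- The positive end goes down. -/
structure Down (Z : Seq S) (B : ℝ) : Prop where
  bdd : Z.Bdd B
  fh : ∀ j k, 0 ≤ j → j ≤ k → S.dh (Z.q j) (Z.q k) ≤ B * Z.a j
  small : ∀ ε : ℝ, 0 < ε → ∃ k0, ∀ k, k0 ≤ k → Z.a k ≤ ε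

/-- `q'` is the companion point of index `k`. -/
structure Comp (Z : Seq S) (k : ℤ) (q' : Q) : Prop where
  h0 : S.dh (Z.q k) q' = 0
  v1 : S.dv (Z.q k) q' = (Z.a k)⁻¹
  on : On S.dv (Z.q 0) (Z.q k) q'

/-- The functional is small at points of the negative end at bounded distance. -/
def Back (Z : Seq S) (F : Q → ℝ) : Prop :=
  ∃ B : ℝ, ∀ ε : ℝ, 0 < ε → ∃ i, i ≤ 0 ∧ F (Z.q i) ≤ ε ∧ S.dv (Z.q 0) (Z.q i) ≤ B

/-- The functional has a definite slope on the way to infinitely many companion points. -/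
def Slope (Z : Seq S) (F : Q → ℝ) : Prop :=
  ∃ (K1 s0 : ℝ) (x r : Q), 0 < s0 ∧ 0 < S.dv x r ∧ s0 * S.dv x r ≤ F r - F x ∧
    ∀ k0 : ℤ, ∃ (k : ℤ) (q' : Q), k0 ≤ k ∧ Z.Comp k q' ∧ Z.a k * F q' ≤ K1 ∧
      On S.dv (Z.q 0) r q' ∧ On S.dv x r q'

/-- Long strips along the sequence that are attached to a cusp. -/
def Cusp (Z : Seq S) : Prop :=
  ∃ R : ℝ, ∀ N : ℝ, 1 ≤ N → ∃ (k : ℤ) (q' : Q) (U β : ℝ) (γ : G8) (P : ℝ → Q), 0 ≤ k ∧
    Z.Comp k q' ∧ 1 ≤ U ∧ 0 ≤ β ∧ β ≤ 3 * U ∧ ∀ s, 1 ≤ s → s ≤ N →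
      S.dh (P s) (γ • S.P0) = 0 ∧ S.dv (Z.q 0) (P s) = β + s * U ∧ On S.dv (Z.q 0) (P s) q' ∧
        S.dv (γ • S.P0) (P s) ≤ (R + s) * U

end Seq

/-- A nonzero functional that is bounded along the sequence. -/
structure Fn {S : Base Q} (Z : Seq S) (F : Q → ℝ) : Prop where
  nonneg : ∀ q, 0 ≤ F q
  zero : ∀ p q, S.dv p q = 0 → F p = F q
  cvx : ∀ p q r, On S.dv p q r → S.dv p r * F q ≤ S.dv q r * F p + S.dv p q * F r
  b1 : ∀ p p', F p = 0 → F p' = 0 → 0 < S.dv p p' → False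
  b5l : ∀ (σ : ℝ → Q) (c : ℝ), (∀ s s', S.dv (σ s) (σ s') = |s - s'|) → 0 < c →
    (∀ s, F (σ s) = c) → ∀ R : ℝ, ∃ P : ℝ → Q, ∀ s s', |s| ≤ R → |s'| ≤ R →
      S.dv (P s) (σ s) = 0 ∧ S.dh (P s) (P s') = 0
  b5u : ∀ B : ℝ, ∃ R : ℝ, ∀ N : ℝ, ∃ L η : ℝ, N ≤ L ∧ 0 < η ∧
    ∀ (e : ℤ) (U : ℝ) (p0 p1 p2 p3 : Q) (s : ℝ), U = S.lam ^ e → S.dv p0 p1 = U →
      S.dv p1 p2 = L * U → S.dv p2 p3 = U → S.dv p0 p2 = (L + 1) * U →
      S.dv p1 p3 = (L + 1) * U → S.dv p0 p3 = (L + 2) * U → U * S.dh p1 p2 ≤ B → 0 < s →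
      s * U ≤ F p1 - F p0 → F p3 - F p2 ≤ (1 + η) * s * U → F p1 ≤ B * s * U →
      ∃ γ : G8, S.dv (γ • S.P0) p1 ≤ R * U ∧ ∃ P : ℝ → Q, ∀ τ, 1 ≤ τ → τ ≤ N →
        S.dh (P τ) (γ • S.P0) = 0 ∧ S.dv p1 (P τ) = τ * U ∧ S.dv (P τ) p2 = (L - τ) * U
  bd : ∃ Θ : ℝ, ∀ j, Z.a j * F (Z.q j) ≤ Θ
  ext : ∃ K1 : ℝ, ∀ k, ∃ q', Z.Comp k q' ∧ Z.a k * F q' ≤ K1

theorem Fn.rev {S : Base Q} {Z : Seq S} {F : Q → ℝ} (h : Fn Z F) : Fn Z.rev F := by
  refine ⟨h.nonneg, h.zero, h.cvx, h.b1, h.b5l, h.b5u, ?_, ?_⟩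
  · obtain ⟨Θ, hΘ⟩ := h.bd
    exact ⟨Θ, fun j => hΘ (-j)⟩
  · obtain ⟨K1, hK⟩ := h.ext
    refine ⟨K1, fun k => ?_⟩
    obtain ⟨q', h1, h2⟩ := hK (-k)
    exact ⟨q', ⟨h1.h0, h1.v1, h1.on⟩, h2⟩

end Pool.Agent.E5f

end

section

/-! Elementary facts: pseudo-metrics, trees, betweenness, the degree. -/

set_option autoImplicit false

namespace Pool.Agent.E5f

section
variable {X : Type} {d dv dh : X → X → ℝ} {w w' x x' y y' r a b o : X}

theorem PM.nonneg_E (h : PM d) (x y : X) : 0 ≤ d x y := by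
  have := h.tri x y x
  rw [h.self, h.symm y x] at this
  linarith

theorem gp_symm_E (h : PM d) (w x y : X) : gp d w x y = gp d w y x := by
  simp only [gp, h.symm y x]
  ring

theorem PM.gp_nonneg_E (h : PM d) (w x y : X) : 0 ≤ gp d w x y := by
  have := h.tri x w y
  simp only [gp, h.symm y w]
  linarith

theorem PM.gp_le_E (h : PM d) (w x y : X) : gp d w x y ≤ d w x := by
  have := h.tri y x w
  simp only [gp, h.symm x y, h.symm w x]
  linarith

theorem PM.gp_base_E (h : PM d) (w w' x y : X) : gp d w x y ≤ gp d w' x y + d w w' := by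
  have := h.tri x w' w
  have := h.tri y w' w
  simp only [gp, h.symm w w']
  linarith

theorem PM.gp_left_E (h : PM d) (w x x' y : X) : gp d w x y ≤ gp d w x' y + d x x' := by
  have := h.tri x x' w
  have := h.tri x' x y
  have := h.symm x x'
  simp only [gp]
  linarith

theorem PM.gp_right_E (h : PM d) (w x y y' : X) : gp d w x y ≤ gp d w x y' + d y y' := by
  have := h.tri y y' w
  have := h.tri x y y'
  simp only [gp]
  linarith

theorem PM.gp_add_E (h : PM d) (w x y : X) : gp d w x y + gp d x w y = d w x := by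
  have := h.symm x w
  have := h.symm y w
  have := h.symm y x
  simp only [gp]
  linarith

theorem PM.congr_E (h : PM d) (h0 : d x x' = 0) (y : X) : d x y = d x' y := by
  have := h.tri x x' y
  have := h.tri x' x y
  have := h.symm x x'
  linarith

theorem PM.congr'_E (h : PM d) (h0 : d y y' = 0) (x : X) : d x y = d x y' := by
  rw [h.symm x y, h.symm x y']
  exact h.congr_E h0 x

theorem PM.on_iff (h : PM d) : On d x r y ↔ gp d r x y = 0 := by
  have := h.symm y r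
  simp only [On, gp]
  constructor <;> intro h1 <;> linarith

theorem On.symm (h : PM d) (h1 : On d x r y) : On d y r x := by
  have := h.symm y r
  have := h.symm r x
  have := h.symm y x
  simp only [On] at h1 ⊢
  linarith

theorem On.gp_le (h : PM d) (h1 : On d x r y) (w : X) : gp d w x y ≤ d w r := by
  have := h.gp_base_E w r x y
  rw [h.on_iff.1 h1] at this
  linarith

theorem On.trans_left (h : PM d) (h1 : On d x a b) (h2 : On d x b y) :
    On d x a y ∧ On d a b y := by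
  have := h.tri a b y
  have := h.tri x a y
  simp only [On] at h1 h2 ⊢
  constructor <;> linarith

theorem On.trans_right (h : PM d) (h1 : On d x a y) (h2 : On d a b y) :
    On d x b y ∧ On d x a b := by
  have := h.tri x a b
  have := h.tri x b y
  simp only [On] at h1 h2 ⊢
  constructor <;> linarith

theorem On.of_zero (h : PM d) (h1 : On d x r y) (h0 : d r a = 0) : On d x a y := by
  simp only [On] at h1 ⊢
  rw [← h.congr_E h0 y, ← h.congr'_E h0 x]
  exact h1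

/-- In a tree, the middle part of a segment lies on a longer segment. -/
theorem On.tree (h : PM d) (ht : Hyp d 0) (h1 : On d x r y) (hx : gp d x x' y' ≤ d x r)
    (hy : gp d y x' y' ≤ d y r) : On d x' r y' := by
  rw [h.on_iff] at h1 ⊢
  refine le_antisymm (not_lt.1 fun hp => ?_) (h.gp_nonneg_E _ _ _)
  have key : ∀ u, gp d u x' y' ≤ d u r → gp d r u x' ≤ 0 → False := by
    intro u hu h2
    have h3 := ht r u y' x'
    rw [gp_symm_E h r y' x'] at h3
    have h4 : gp d r u y' ≤ 0 := by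
      rcases le_total (gp d r u y') (gp d r x' y') with k | k
      · rw [min_eq_left k] at h3
        linarith
      · rw [min_eq_right k] at h3
        linarith
    have a1 := h.tri u r x'
    have a2 := h.tri u r y'
    have := h.symm x' r
    have := h.symm y' r
    have := h.symm x' u
    have := h.symm y' u
    simp only [gp] at hu h2 h4 hp
    linarith
  have h5 := ht r x x' y
  rcases le_total (gp d r x x') (gp d r x' y) with k | k
  · rw [min_eq_left k] at h5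
    exact key x hx (by linarith)
  · rw [min_eq_right k, gp_symm_E h r x' y] at h5
    exact key y hy (by linarith)

theorem On.tree_right (h : PM d) (ht : Hyp d 0) (h1 : On d o r y) (h2 : d o r ≤ gp d o y y') :
    On d o r y' := by
  rw [h.on_iff] at h1 ⊢
  refine le_antisymm ?_ (h.gp_nonneg_E _ _ _)
  have h5 := ht r o y' y
  rcases le_total (gp d r o y') (gp d r y' y) with k | k
  · rw [min_eq_left k] at h5
    linarith
  · rw [min_eq_right k] at h5
    have := h.symm y o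
    have := h.symm y' o
    have := h.symm y y'
    simp only [gp] at h1 h2 h5 ⊢
    linarith

theorem On.tree_left (h : PM d) (ht : Hyp d 0) (h1 : On d x r y) (h2 : gp d x x' y ≤ d x r) :
    On d x' r y := by
  refine h1.tree h ht h2 ?_
  have := h.gp_le_E y y x'
  rw [h.self, gp_symm_E h] at this
  exact this.trans (h.nonneg_E _ _)

theorem On.dist_eq (h : PM d) (ht : Hyp d 0) (h1 : On d x a y) (h2 : On d x b y) :
    d a b = |d x a - d x b| := by
  have h5 := ht x a y b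
  have t1 := h.tri x a b
  have t2 := h.tri x b a
  have := h.symm a x
  have := h.symm b x
  have := h.symm y x
  have := h.symm y b
  have := h.symm a b
  simp only [On] at h1 h2
  rcases le_total (gp d x a y) (gp d x y b) with k | k
  · rw [min_eq_left k] at h5
    simp only [gp] at h5 k
    rw [abs_of_nonpos (by linarith)]
    linarith
  · rw [min_eq_right k] at h5
    simp only [gp] at h5 k
    rw [abs_of_nonneg (by linarith)]
    linarith

theorem On.order (h : PM d) (ht : Hyp d 0) (h1 : On d x a y) (h2 : On d x b y)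
    (hab : d x a ≤ d x b) : On d x a b ∧ On d a b y := by
  have h3 := h1.dist_eq h ht h2
  rw [abs_of_nonpos (by linarith)] at h3
  simp only [On] at h1 h2 ⊢
  constructor <;> linarith

theorem Btw.symm_E (h : BiTree dv dh) (h1 : Btw dv dh x r y) : Btw dv dh y r x := by
  exact ⟨On.symm h.pv h1.1, On.symm h.ph h1.2⟩

theorem Btw.swap_E (h1 : Btw dv dh x r y) : Btw dh dv x r y := by
  exact ⟨h1.2, h1.1⟩

theorem Btw.trans_left (h : BiTree dv dh) (h1 : Btw dv dh x a b) (h2 : Btw dv dh x b y) :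
    Btw dv dh x a y ∧ Btw dv dh a b y := by
  have a := On.trans_left h.pv h1.1 h2.1
  have b := On.trans_left h.ph h1.2 h2.2
  exact ⟨⟨a.1, b.1⟩, a.2, b.2⟩

theorem Btw.trans_right (h : BiTree dv dh) (h1 : Btw dv dh x a y) (h2 : Btw dv dh a b y) :
    Btw dv dh x b y ∧ Btw dv dh x a b := by
  have a := On.trans_right h.pv h1.1 h2.1
  have b := On.trans_right h.ph h1.2 h2.2
  exact ⟨⟨a.1, b.1⟩, a.2, b.2⟩

theorem BiTree.geoV (h : BiTree dv dh) (p q : X) {s : ℝ} (h0 : 0 ≤ s) (h1 : s ≤ dv p q) :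
    ∃ r, Btw dv dh p r q ∧ dv p r = s := by
  simpa using h.geo 1 0 p q s zero_le_one le_rfl h0 (by simpa using h1)

theorem BiTree.geoH (h : BiTree dv dh) (p q : X) {s : ℝ} (h0 : 0 ≤ s) (h1 : s ≤ dh p q) :
    ∃ r, Btw dv dh p r q ∧ dh p r = s := by
  simpa using h.geo 0 1 p q s le_rfl zero_le_one h0 (by simpa using h1)

end

variable {Q : Type} [MulAction G8 Q]

theorem Base.lam_pos (S : Base Q) (t : ℤ) : 0 < S.lam ^ t := by
  exact zpow_pos (zero_lt_one.trans S.lam1) t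

theorem Base.lam_mono (S : Base Q) {s t : ℤ} (h : s ≤ t) : S.lam ^ s ≤ S.lam ^ t := by
  exact zpow_le_zpow_right₀ S.lam1.le h

theorem Base.lam_add (S : Base Q) (s t : ℤ) : S.lam ^ (s + t) = S.lam ^ s * S.lam ^ t := by
  exact zpow_add₀ (zero_lt_one.trans S.lam1).ne' s t

theorem Base.lam_big (S : Base Q) (A : ℝ) : ∃ b : ℤ, 0 ≤ b ∧ A ≤ S.lam ^ b := by
  obtain ⟨n, hn⟩ := pow_unbounded_of_one_lt A S.lam1
  exact ⟨n, Int.natCast_nonneg n, by rw [zpow_natCast]; exact hn.le⟩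

theorem Base.dg_one (S : Base Q) : S.dg 1 = 0 := by
  have := S.dg_mul 1 1
  rw [mul_one] at this
  omega

theorem Base.dg_inv (S : Base Q) (γ : G8) : S.dg γ⁻¹ = -S.dg γ := by
  have := S.dg_mul γ γ⁻¹
  rw [mul_inv_cancel, S.dg_one] at this
  omega

theorem Base.exists_deg (S : Base Q) (k : ℤ) : ∃ m : ℤ, S.dg (g8t ^ m) = k := by
  have key : ∀ m : ℤ, S.dg (g8t ^ m) = m * S.dg g8t := by
    intro m
    induction m using Int.induction_on with
    | zero => simp [S.dg_one]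
    | succ n ih => rw [zpow_add_one, S.dg_mul, ih]; ring
    | pred n ih => rw [zpow_sub_one, S.dg_mul, ih, S.dg_inv]; ring
  rcases S.dg_t with h | h
  · exact ⟨k, by rw [key, h, mul_one]⟩
  · exact ⟨-k, by rw [key, h]; ring⟩

theorem Base.fix_pow (S : Base Q) (m : ℤ) :
    S.dv (g8t ^ m • S.P0) S.P0 = 0 ∧ S.dh (g8t ^ m • S.P0) S.P0 = 0 := by
  induction m using Int.induction_on with
  | zero => simp [S.bi.pv.self, S.bi.ph.self]
  | succ n ih =>
    rw [zpow_add_one, mul_smul]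
    constructor
    · rw [S.bi.pv.congr_E (x' := g8t ^ (n : ℤ) • S.P0) (by rw [S.sv, S.fix_t.1, mul_zero]), ih.1]
    · rw [S.bi.ph.congr_E (x' := g8t ^ (n : ℤ) • S.P0) (by rw [S.sh, S.fix_t.2, mul_zero]), ih.2]
  | pred n ih =>
    have e : g8t ^ (-(n : ℤ)) = g8t ^ (-(n : ℤ) - 1) * g8t := by rw [← zpow_add_one]; simp
    rw [e, mul_smul] at ih
    constructor
    · rw [← S.bi.pv.congr_E (x := g8t ^ (-(n : ℤ) - 1) • g8t • S.P0)
        (by rw [S.sv, S.fix_t.1, mul_zero]), ih.1]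
    · rw [← S.bi.ph.congr_E (x := g8t ^ (-(n : ℤ) - 1) • g8t • S.P0)
        (by rw [S.sh, S.fix_t.2, mul_zero]), ih.2]

theorem Base.noRect (S : Base Q) : ∃ L : ℝ, 0 < L ∧ ∀ k : ℤ,
    NoRect S.dv S.dh (S.lam ^ (-k) * L) (S.lam ^ k * L) := by
  obtain ⟨L, h0, h⟩ := S.nr
  refine ⟨L, h0, fun k a b c d h1 h2 h3 h4 h5 h6 => ?_⟩
  obtain ⟨m, hm⟩ := S.exists_deg k
  have e : S.lam ^ k * S.lam ^ (-k) = 1 := by rw [← S.lam_add, add_neg_cancel, zpow_zero]
  refine h (g8t ^ m • a) (g8t ^ m • b) (g8t ^ m • c) (g8t ^ m • d) (by rw [S.sh, h1, mul_zero])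
    (by rw [S.sh, h2, mul_zero]) (by rw [S.sv, h3, mul_zero]) (by rw [S.sv, h4, mul_zero]) ?_ ?_
  · rw [S.sv, hm]
    have := mul_le_mul_of_nonneg_left h5 (S.lam_pos k).le
    rwa [← mul_assoc, e, one_mul] at this
  · rw [S.sh, hm]
    have := mul_le_mul_of_nonneg_left h6 (S.lam_pos (-k)).le
    rwa [← mul_assoc, mul_comm (S.lam ^ (-k)), e, one_mul] at this

theorem Base.dv_le_D (S : Base Q) (t : ℤ) (p q : Q) : S.lam ^ t * S.dv p q ≤ S.D t p q := by
  exact le_add_of_nonneg_right (mul_nonneg (S.lam_pos _).le (S.bi.ph.nonneg_E _ _))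

theorem Base.dh_le_D (S : Base Q) (t : ℤ) (p q : Q) : S.lam ^ (-t) * S.dh p q ≤ S.D t p q := by
  exact le_add_of_nonneg_left (mul_nonneg (S.lam_pos _).le (S.bi.pv.nonneg_E _ _))

theorem Seq.a_pos {S : Base Q} (Z : Seq S) (j : ℤ) : 0 < Z.a j := by
  exact S.lam_pos _

theorem Seq.a_zero {S : Base Q} (Z : Seq S) : Z.a 0 = 1 := by
  rw [Seq.a, Z.τ0, zpow_zero]

theorem Seq.a_swap {S : Base Q} (Z : Seq S) (j : ℤ) : Z.swap.a j = (Z.a j)⁻¹ := by
  exact zpow_neg _ _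

/-- The two components of a bound for the metric at the height of index `j`. -/
theorem Seq.of_D {S : Base Q} (Z : Seq S) {j : ℤ} {p v : Q} {C : ℝ}
    (h : S.D (Z.τ j) p v ≤ C) : Z.a j * S.dv p v ≤ C ∧ S.dh p v ≤ C * Z.a j := by
  refine ⟨(S.dv_le_D _ _ _).trans h, ?_⟩
  have := (S.dh_le_D _ _ _).trans h
  rwa [zpow_neg, inv_mul_le_iff₀ (S.lam_pos _), mul_comm] at this

theorem Seq.D_eq {S : Base Q} (Z : Seq S) (j : ℤ) (p v : Q) :
    S.D (Z.τ j) p v = Z.a j * S.dv p v + (Z.a j)⁻¹ * S.dh p v := by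
  rw [Base.D, zpow_neg]
  rfl

end Pool.Agent.E5f

end

section

/-! No big rectangles: a flat strip is close to a geodesic. -/

set_option autoImplicit false

namespace Pool.Agent.E5f

variable {Q : Type} [MulAction G8 Q]


theorem key_EndG5 {X : Type} {dv dh : X → X → ℝ} (hb : BiTree dv dh) {A e : ℝ}
    (hn : NoRect dv dh A e) (he : 0 ≤ e) {P P1 v r : X} (h1 : dv r P1 = 0) (h2 : dh P P1 = 0)
    (h3 : A ≤ dv P P1) (h4 : On dh P v r) (h5 : dv v P = 0) (h6 : e ≤ dh P v) : False := by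
  have pv := hb.pv
  have ph := hb.ph
  have e1 : dh P r = dh P1 r := ph.congr_E h2 r
  have h4' : dh P v + dh v r = dh P r := h4
  obtain ⟨c0, b0, d0⟩ := hb.geoH P v he h6
  obtain ⟨c1, b1, d1⟩ := hb.geoH P1 r he (by have := ph.nonneg_E v r; linarith)
  have z0 : dv P c0 = 0 := by
    have a1 := b0.1
    have a2 := pv.nonneg_E P c0
    have a3 := pv.nonneg_E c0 v
    have a4 := pv.symm v P
    linarith
  have z1 : dv P1 c1 = 0 := by
    have a1 := b1.1
    have a2 := pv.nonneg_E P1 c1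
    have a3 := pv.nonneg_E c1 r
    have a4 := pv.symm r P1
    linarith
  have o0 : On dh P c0 r := (On.trans_left ph (show On dh P c0 v from b0.2) h4).1
  have e2 : dh P c1 = dh P1 c1 := ph.congr_E h2 c1
  have o1 : On dh P c1 r := by
    have := b1.2
    show dh P c1 + dh c1 r = dh P r
    linarith
  have z2 : dh c0 c1 = 0 := by
    rw [On.dist_eq ph hb.hh o0 o1, d0, e2, d1, sub_self, abs_zero]
  exact hn P P1 c0 c1 h2 z2 z0 z1 h3 d0.ge

theorem Base.g5 (S : Base Q) : ∃ L1 : ℝ, 0 < L1 ∧ ∀ (x y v Pm P Pp : Q) (m ε : ℝ), 0 < ε →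
    L1 ≤ ε * m → Btw S.dv S.dh x v y → On S.dv x Pm y → On S.dv x P y → On S.dv x Pp y →
    S.dv x Pm + m = S.dv x v → S.dv x P = S.dv x v → S.dv x Pp = S.dv x v + m →
    S.dh Pm P = 0 → S.dh P Pp = 0 → S.dh v P ≤ ε := by
  obtain ⟨L, hL, hn⟩ := S.noRect
  have hlam : 0 < S.lam := lt_trans one_pos S.lam1
  refine ⟨S.lam * L ^ 2, by positivity, ?_⟩
  intro x y v Pm P Pp m ε hε hm hv oM oP oPp eM eP ePp hM hPp
  have pv := S.bi.pv
  have ph := S.bi.ph
  obtain ⟨k, hk1, hk2⟩ := exists_mem_Ico_zpow (x := ε / L) (by positivity) S.lam1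
  have hk0 : 0 < S.lam ^ k := zpow_pos hlam k
  have he : S.lam ^ k * L ≤ ε := by rwa [le_div_iff₀ hL] at hk1
  have he2 : ε < S.lam ^ k * S.lam * L := by
    rwa [div_lt_iff₀ hL, zpow_add_one₀ hlam.ne'] at hk2
  have hm0 : 0 < m := by
    by_contra hc
    have h1 : ε * m ≤ 0 := mul_nonpos_of_nonneg_of_nonpos hε.le (not_lt.1 hc)
    have h2 : 0 < S.lam * L ^ 2 := by positivity
    linarith
  have hA : S.lam ^ (-k) * L ≤ m := by
    rw [zpow_neg, inv_mul_le_iff₀ hk0]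
    have h1 : ε * m ≤ S.lam ^ k * S.lam * L * m := mul_le_mul_of_nonneg_right he2.le hm0.le
    have h2 : (S.lam * L) * L ≤ (S.lam * L) * (S.lam ^ k * m) := by nlinarith
    exact le_of_mul_le_mul_left h2 (by positivity)
  have hv1 : S.dv x v + S.dv v y = S.dv x y := hv.1
  have oPp' : S.dv x Pp + S.dv Pp y = S.dv x y := oPp
  obtain ⟨rm, bm, dm⟩ := S.bi.geoV x v (pv.nonneg_E x Pm) (by linarith)
  obtain ⟨rp, bp, dp⟩ := S.bi.geoV v y hm0.le (by have := pv.nonneg_E Pp y; linarith)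
  obtain ⟨t1, t2⟩ := Btw.trans_left S.bi bm hv
  obtain ⟨t3, t4⟩ := Btw.trans_right S.bi hv bp
  have t5 := (Btw.trans_right S.bi t2 bp).2
  have zM : S.dv rm Pm = 0 := by
    rw [On.dist_eq pv S.bi.hv (show On S.dv x rm y from t1.1) oM, dm, sub_self, abs_zero]
  have zP : S.dv v P = 0 := by
    rw [On.dist_eq pv S.bi.hv (show On S.dv x v y from hv.1) oP, eP, sub_self, abs_zero]
  have zp : S.dv rp Pp = 0 := by
    have := t4.1
    rw [On.dist_eq pv S.bi.hv (show On S.dv x rp y from t3.1) oPp, ePp, ← this, dp, sub_self,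
      abs_zero]
  have mM : S.dv P Pm = m := by
    rw [On.dist_eq pv S.bi.hv oP oM, eP, ← eM, add_sub_cancel_left, abs_of_pos hm0]
  have mp : S.dv P Pp = m := by
    rw [On.dist_eq pv S.bi.hv oP oPp, eP, ePp, sub_add_cancel_left, abs_neg, abs_of_pos hm0]
  by_contra hc
  have hc' : S.lam ^ k * L ≤ S.dh P v := by
    rw [ph.symm P v]
    linarith [not_le.1 hc]
  have he0 : 0 ≤ S.lam ^ k * L := by positivity
  have hh := S.bi.hh v rm P rp
  have t6 := t5.2
  have s1 := ph.symm rp v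
  have s2 := ph.symm rm v
  have s3 := ph.symm rm P
  have r1 := ph.tri P v rm
  have r2 := ph.tri P v rp
  simp only [gp] at hh
  rcases min_choice ((S.dh rm v + S.dh P v - S.dh rm P) / 2)
    ((S.dh P v + S.dh rp v - S.dh P rp) / 2) with h | h
  · rw [h] at hh
    refine key_EndG5 S.bi (hn k) he0 zM (by rw [ph.symm]; exact hM) (by rw [mM]; exact hA)
      (v := v) ?_ zP hc'
    show S.dh P v + S.dh v rm = S.dh P rm
    linarith
  · rw [h] at hh
    refine key_EndG5 S.bi (hn k) he0 zp hPp (by rw [mp]; exact hA) (v := v) ?_ zP hc'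
    show S.dh P v + S.dh v rp = S.dh P rp
    linarith

end Pool.Agent.E5f

end

section

/-! The characteristic subgroup of index sixteen is a surface group of genus thirteen. -/

set_option autoImplicit false

namespace Pool.Agent.E5f

namespace KerMain

section Words

variable {L G H : Type} [Group G] [Group H]

/-- The value of a word. -/
def ev (f : L → G) (l : List L) : G := (l.map f).prod

theorem ev_nil (f : L → G) : ev f [] = 1 := rfl

theorem ev_cons (f : L → G) (x : L) (l : List L) : ev f (x :: l) = f x * ev f l := by simp [ev]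

theorem ev_append (f : L → G) (l l' : List L) : ev f (l ++ l') = ev f l * ev f l' := by simp [ev]

theorem map_ev (φ : G →* H) (f : L → G) (l : List L) : φ (ev f l) = ev (fun x => φ (f x)) l := by
  rw [ev, ev, map_list_prod, List.map_map]
  rfl

theorem ev_flatMap {L' : Type} (f : L → G) (σ : L' → List L) (l : List L') :
    ev f (l.flatMap σ) = ev (fun x => ev f (σ x)) l := by
  induction l with
  | nil => rfl
  | cons x l ih => rw [List.flatMap_cons, ev_append, ih, ev_cons]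

/-- The inverse word. -/
def wi (iv : L → L) (l : List L) : List L := l.reverse.map iv

theorem ev_wi {iv : L → L} {f : L → G} (h : ∀ x, f (iv x) = (f x)⁻¹) (l : List L) :
    ev f (wi iv l) = (ev f l)⁻¹ := by
  induction l with
  | nil => simp [wi, ev]
  | cons x l ih =>
    rw [wi, List.reverse_cons, List.map_append, ev_append, ← wi, ih, ev_cons f x, mul_inv_rev]
    simp [ev, h]

/-- Reduction of words with a stack: cancellation and rewriting rules. -/
def go [DecidableEq L] (iv : L → L) (R : List (List L × List L)) : ℕ → List L → List L → List L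
  | 0, st, inp => st.reverse ++ inp
  | _ + 1, st, [] => st.reverse
  | n + 1, st, x :: inp =>
    if st.head? = some (iv x) then go iv R n st.tail inp
    else match R.find? fun r => r.1.isPrefixOf (x :: st) with
      | some r => go iv R n ((x :: st).drop r.1.length) (r.2 ++ inp)
      | none => go iv R n (x :: st) inp

theorem ev_go [DecidableEq L] {iv : L → L} {f : L → G} (h : ∀ x, f (iv x) = (f x)⁻¹)
    {R : List (List L × List L)} (hR : ∀ r ∈ R, ev f r.1.reverse = ev f r.2) (n : ℕ)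
    (st inp : List L) : ev f (go iv R n st inp) = ev f st.reverse * ev f inp := by
  induction n generalizing st inp with
  | zero => rw [go, ev_append]
  | succ n ih =>
    obtain _ | ⟨x, inp⟩ := inp
    · rw [go, ev_nil, mul_one]
    rw [go]
    split_ifs with h1
    · obtain _ | ⟨y, st⟩ := st
      · simp at h1
      obtain rfl : y = iv x := by simpa using h1
      rw [ih, List.tail_cons, List.reverse_cons, ev_append, ev_cons, ev_cons, ev_nil, h]
      group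
    · have e : ev f st.reverse * ev f (x :: inp) = ev f (x :: st).reverse * ev f inp := by
        rw [List.reverse_cons, ev_append, mul_assoc, ← ev_append f [x]]
        rfl
      rw [e]
      split
      · next r h2 =>
        have h3 := List.find?_some h2
        obtain ⟨t, ht⟩ := List.isPrefixOf_iff_prefix.1 h3
        rw [ih, ← ht, List.drop_left, List.reverse_append, ev_append, ev_append,
          hR r (List.mem_of_find?_eq_some h2), mul_assoc]
      · exact ih _ _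

/-- Inversion of letters in a free alphabet. -/
def ivN (n : ℕ) : ℕ := if n % 2 = 0 then n + 1 else n - 1

/-- Values of letters and their inverses. -/
def dbl (g : ℕ → G) (n : ℕ) : G := if n % 2 = 0 then g (n / 2) else (g (n / 2))⁻¹

theorem dbl_iv (g : ℕ → G) (n : ℕ) : dbl g (ivN n) = (dbl g n)⁻¹ := by
  unfold dbl ivN
  split_ifs with h1 h2 h3
  · omega
  · rw [show (n + 1) / 2 = n / 2 by omega]
  · rw [show (n - 1) / 2 = n / 2 by omega, inv_inv]
  · omega

theorem dbl_two (g : ℕ → G) (i : ℕ) : ev (dbl g) [2 * i] = g i := by simp [ev, dbl]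

theorem map_dbl (φ : G →* H) (g : ℕ → G) (l : List ℕ) :
    φ (ev (dbl g) l) = ev (dbl fun i => φ (g i)) l := by
  rw [map_ev]
  congr 1
  funext n
  unfold dbl
  split_ifs <;> simp

/-- Substitution of words for letters. -/
def sb (iv : L → L) (σ : ℕ → List L) (l : List ℕ) : List L :=
  l.flatMap fun n => if n % 2 = 0 then σ (n / 2) else wi iv (σ (n / 2))

theorem ev_sb {iv : L → L} {f : L → G} (h : ∀ x, f (iv x) = (f x)⁻¹) (σ : ℕ → List L)
    (l : List ℕ) : ev f (sb iv σ l) = ev (dbl fun i => ev f (σ i)) l := by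
  rw [sb, ev_flatMap]
  congr 1
  funext n
  unfold dbl
  split_ifs
  · rfl
  · exact ev_wi h _

/-- Free reduction. -/
def red (l : List ℕ) : List ℕ := go ivN [] 2000 [] l

theorem ev_red (g : ℕ → G) {l l' : List ℕ} (h : red l = l') : ev (dbl g) l = ev (dbl g) l' := by
  rw [← h, red, ev_go (dbl_iv g) (by simp), List.reverse_nil, ev_nil, one_mul]

theorem ev_mem {S : Subgroup G} {g : ℕ → G} (h : ∀ i, g i ∈ S) (l : List ℕ) :
    ev (dbl g) l ∈ S := by
  induction l with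
  | nil => exact one_mem _
  | cons x l ih =>
    rw [ev_cons, dbl]
    split_ifs
    exacts [mul_mem (h _) ih, mul_mem (inv_mem (h _)) ih]

theorem exists_ev {α : Type} {R : Set (FreeGroup α)} {iv : L → L} {f : L → PresentedGroup R}
    (h : ∀ x, f (iv x) = (f x)⁻¹) (h1 : ∀ j, ∃ l, ev f l = .of j) (g : PresentedGroup R) :
    ∃ l, ev f l = g := by
  have hg : g ∈ Subgroup.closure (Set.range PresentedGroup.of) := by
    rw [PresentedGroup.closure_range_of]
    trivial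
  induction hg using Subgroup.closure_induction with
  | mem x hx =>
    obtain ⟨j, rfl⟩ := hx
    exact h1 j
  | one => exact ⟨[], rfl⟩
  | mul x y _ _ hx hy =>
    obtain ⟨l, rfl⟩ := hx
    obtain ⟨l', rfl⟩ := hy
    exact ⟨l ++ l', ev_append _ _ _⟩
  | inv x _ hx =>
    obtain ⟨l, rfl⟩ := hx
    exact ⟨_, ev_wi h l⟩

end Words

/-! ### The data -/

/-- Inversion of the letters `a, a⁻¹, b, b⁻¹, c₀, c₁, c₂`. -/
def ivO (s : Fin 7) : Fin 7 := [1, 0, 3, 2, 4, 5, 6].getD s 0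

/-- The relator. -/
def rw7 : List (Fin 7) := [4, 5, 6, 2, 0, 3, 1]

/-- The rules of the Dehn algorithm. -/
def rules : List (List (Fin 7) × List (Fin 7)) :=
  [([2, 6, 5, 4], [0, 2, 1]), ([0, 2, 6, 5], [4, 0, 2]), ([3, 0, 2, 6], [5, 4, 0]), ([1, 3, 0, 2],
  [6, 5, 4]), ([4, 1, 3, 0], [3, 6, 5]), ([5, 4, 1, 3], [1, 3, 6]), ([6, 5, 4, 1], [2, 1, 3]),
  ([3, 1, 2, 0], [4, 5, 6]), ([6, 3, 1, 2], [1, 4, 5]), ([5, 6, 3, 1], [3, 1, 4]), ([4, 5, 6, 3],
  [0, 3, 1]), ([0, 4, 5, 6], [2, 0, 3]), ([2, 0, 4, 5], [6, 2, 0]), ([1, 2, 0, 4], [5, 6, 2])]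

/-- The action on cosets. -/
def nx (s : Fin 7) (q : Fin 16) : Fin 16 := Fin.ofNat 16 ([1, 1, 2, 2, 4, 8, 12].getD s 0 ^^^ q)

/-- The transversal. -/
def tT : List (List (Fin 7)) :=
  [[], [1], [2], [3, 1], [4], [4, 1], [2, 4], [4, 3, 1], [5], [5, 1], [2, 5], [5, 3, 1], [6], [6,
  1], [3, 6], [6, 3, 1]]

/-- The basic generators. -/
def yT : List (List (Fin 7)) :=
  [[0, 0], [0, 2, 0, 2], [0, 4, 0, 4], [0, 2, 4, 0, 2, 4], [4, 3, 0, 4, 3, 1], [0, 5, 0, 5], [5,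
  3, 0, 5, 3, 1], [6, 0, 6, 1], [0, 2, 6, 0, 3, 6], [4, 2, 2, 4], [5, 2, 2, 5], [0, 5, 2, 5, 3,
  1], [6, 2, 2, 6], [0, 6, 2, 6, 3, 1], [6, 4, 5], [0, 6, 4, 5, 1], [6, 2, 4, 2, 5], [0, 2, 6, 4,
  5, 3, 1], [6, 5, 4], [0, 6, 5, 4, 1], [6, 2, 5, 2, 4], [0, 2, 6, 5, 4, 3, 1], [6, 2, 6, 2], [5,
  6, 4], [0, 5, 6, 4, 1], [0, 2, 5, 6, 4, 3, 1]]

/-- The Schreier generators as words in the basic generators. -/
def pT : List (List (List ℕ)) :=
  [[[0], [], [2], [3, 38, 0, 36], [4], [46, 18, 8, 6, 19, 5, 48], [6], [8], [10], [29, 36, 47, 20,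
  12, 23], [23, 48, 39, 30, 10, 20], [12], [30, 26, 16], [14], [16], [29, 14, 26]], [[], [1], [37,
  1, 39, 2], [3], [49, 4, 18, 7, 9, 19, 47], [5], [9], [7], [22, 13, 21, 46, 37, 28], [11], [13],
  [21, 11, 31, 38, 49, 22], [15], [17, 27, 31], [27, 15, 28], [17]], [[], [42, 2, 1], [1, 39, 2],
  [], [], [51, 6, 5], [18], [49, 4, 18, 7], [], [50, 43, 34, 23, 48, 39, 30, 10, 20, 11], [20],
  [22], [24], [35, 16, 24, 17, 27, 31], [], [26]], [[3, 38, 0], [], [], [0, 3, 43], [19], [6, 19,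
  5, 48], [], [4, 7, 50], [21], [23], [], [10, 21, 11, 31, 38, 49, 22, 35, 42, 51], [], [27],
  [25], [30, 26, 16, 25, 17, 34]], [[], [], [41, 44, 0, 3, 43, 37, 1, 39, 2], [], [], [], [3, 38,
  0, 36, 42, 2, 1, 45, 40], [], [28], [30], [32], [34], [29], [31], [33], [35]], [[], [], [33, 29,
  14, 26, 35, 16, 24, 17, 27, 31, 15, 25, 44], [], [36], [38], [40], [42], [], [], [45, 24, 14,
  30, 26, 16, 25, 17, 34, 27, 15, 28, 32], [], [37], [39], [41], [43]], [[], [], [44], [], [46],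
  [48], [29, 36, 47, 20, 12, 23, 10, 21, 11, 31, 38, 49, 22, 35, 42, 51, 13, 33, 40], [50], [47],
  [49], [41, 32, 12, 50, 43, 34, 23, 48, 39, 30, 10, 20, 11, 22, 13, 21, 46, 37, 28], [51], [],
  [], [45], []]]

/-- The relator in the basic generators. -/
def ww : List ℕ :=
  [41, 44, 0, 3, 43, 37, 1, 39, 2, 45, 24, 14, 30, 26, 16, 25, 17, 34, 27, 15, 28, 32, 29, 36, 47,
  20, 12, 23, 10, 21, 11, 31, 38, 49, 22, 35, 42, 51, 13, 33, 40, 46, 18, 8, 6, 19, 5, 48, 4, 7,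
  50, 9]

/-- The standard generators as words in the basic generators. -/
def aT : List (List ℕ) :=
  [[41, 44, 0, 36, 42, 38, 45, 40], [41, 44, 39, 43, 37, 3, 38, 45, 40], [41, 44, 39, 43, 37, 45,
  24, 44, 36, 42, 38, 45, 40], [41, 44, 39, 43, 37, 45, 14, 30, 26, 16, 44, 36, 42, 38, 45, 40],
  [41, 44, 39, 30, 10, 20, 11, 48, 45, 40], [41, 44, 49, 10, 21, 11, 31, 43, 37, 45, 14, 30, 26,
  34, 27, 15, 28, 32, 29, 36, 47, 20, 12, 23, 48, 45, 40], [41, 44, 36, 42, 15, 40], [41, 14, 43,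
  37, 49, 10, 21, 11, 31, 15, 40], [41, 14, 43, 34, 50, 15, 40], [41, 14, 51, 35, 37, 49, 10, 21,
  11, 26, 34, 27, 15, 28, 32, 29, 36, 47, 20, 12, 50, 15, 40], [41, 14, 51, 35, 50, 15, 40], [41,
  14, 51, 37, 49, 10, 21, 11, 26, 50, 15, 40], [41, 32, 21], [20, 33, 14, 51, 37, 49, 10, 21, 11,
  15, 28, 32, 29, 36, 47], [20], [33, 14, 51, 37, 49, 10], [33], [14, 51, 37, 49, 15, 28], [14,
  48], [49, 51, 37], [49], [51, 18, 8, 6, 19, 5], [51, 18, 50], [51, 8, 6, 50], [51], [8]]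

/-- The basic generators as words in the standard generators. -/
def bT : List (List ℕ) :=
  [[39, 37, 33, 29, 25, 21, 17, 13, 0, 8, 12, 14, 16, 20, 24, 28, 32, 36, 38], [41, 37, 33, 29,
  25, 15, 13, 9, 3, 8, 12, 14, 16, 20, 24, 28, 32, 36, 38], [43, 44, 46, 45, 48], [51, 49, 46,
  48], [50], [41, 39, 37, 33, 30], [29, 27, 25, 22, 20, 23, 21, 18, 24, 28, 32, 36, 40, 48], [36,
  40], [49, 41, 37, 33, 29, 25, 23, 21, 17, 14, 12, 15, 13, 9, 6, 8, 12, 14, 13, 24, 28, 32], [49,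
  44, 48], [28], [41, 39, 37, 33, 29, 25, 21, 17, 13, 11, 12, 14, 13, 15, 16, 18, 24, 28, 32, 36,
  40, 48], [33, 29, 25, 12, 15, 13, 9, 4, 8, 12, 14, 13, 24, 28, 32], [41, 39, 37, 33, 30, 28, 31,
  29, 25, 22, 24, 28, 32, 36, 40, 48], [36, 39, 37, 34], [41, 37, 33, 29, 25, 15, 16, 20, 24, 28,
  30, 29, 31, 32, 36, 38, 40], [33], [49, 41, 37, 33, 29, 25, 21, 24, 28, 32, 36, 40, 48], [39,
  40, 48], [41, 37, 33, 29, 25, 15, 13, 9, 12, 16, 20, 24, 28, 32, 36, 38], [33, 29, 25], [49, 41,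
  37, 33, 29, 25, 21, 17, 24, 28, 32, 36, 40], [33, 29, 25, 12, 16, 20, 24, 28, 32, 36, 38], [27,
  28, 30, 29, 31, 32, 34, 33, 35, 36, 38, 37, 39, 40, 48], [41], [49]]

/-- The standard relator. -/
def sw : List ℕ :=
  [0, 2, 1, 3, 4, 6, 5, 7, 8, 10, 9, 11, 12, 14, 13, 15, 16, 18, 17, 19, 20, 22, 21, 23, 24, 26,
  25, 27, 28, 30, 29, 31, 32, 34, 33, 35, 36, 38, 37, 39, 40, 42, 41, 43, 44, 46, 45, 47, 48, 50,
  49, 51]

def tw (q : Fin 16) : List (Fin 7) := tT.getD q []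

def yw (i : ℕ) : List (Fin 7) := yT.getD i []

def ps (s : Fin 7) (q : Fin 16) : List ℕ := (pT.getD s []).getD q []

def be (i : ℕ) : List ℕ := bT.getD i []

def enc : Fin 13 ⊕ Fin 13 → ℕ := Sum.elim (fun k => 2 * k) fun k => 2 * k + 1

def dec (i : ℕ) : Fin 13 ⊕ Fin 13 :=
  if i % 2 = 0 then .inl (Fin.ofNat 13 (i / 2)) else .inr (Fin.ofNat 13 (i / 2))

def al (j : Fin 13 ⊕ Fin 13) : List ℕ := aT.getD (enc j) []

/-- The end point of a path of cosets and the word read along it. -/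
def pth : List (Fin 7) → Fin 16 → Fin 16 × List ℕ
  | [], q => (q, [])
  | s :: l, q => (nx s (pth l q).1, ps s (pth l q).1 ++ (pth l q).2)

def dehn (l : List (Fin 7)) : List (Fin 7) := go ivO rules 2000 [] l

/-- Values in the group of order two. -/
def vz (u : Fin 4 → Multiplicative (ZMod 2)) (s : Fin 7) : Multiplicative (ZMod 2) :=
  [u 0, u 0, u 1, u 1, u 2, u 3, u 2 * u 3].getD s 1

theorem c0 : srel 13 = ev (dbl fun i => FreeGroup.of (dec i)) sw := by decide +kernel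

theorem c1 : red (sb ivN (fun i => al (dec i)) sw) = ww := by decide +kernel

theorem c2 : dehn (sb ivO yw ww) = [] := by decide +kernel

theorem c3 : ∀ i < 26, red (sb ivN (fun i => al (dec i)) (be i)) = [2 * i] := by decide +kernel

theorem c4 : ∀ j, red (sb ivN be (al j)) = [2 * enc j] ∧ dec (enc j) = j := by decide +kernel

theorem c5 : red (sb ivN be ww) = sw := by decide +kernel

theorem c6 : ∀ s q, ivO (ivO s) = s ∧ nx (ivO s) (nx s q) = q ∧
    red (ps (ivO s) (nx s q) ++ ps s q) = [] := by decide +kernel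

theorem c7 : ∀ q, (pth rw7 q).1 = q ∧ (red (pth rw7 q).2 = [] ∨ red (pth rw7 q).2 = ww) := by
  decide +kernel

theorem c8 : ∀ i < 26, (pth (yw i) 0).1 = 0 ∧ red (pth (yw i) 0).2 = [2 * i] := by decide +kernel

theorem c9 : ∀ s q, dehn (s :: tw q ++ wi ivO (tw (nx s q) ++ sb ivO yw (ps s q))) = [] := by
  decide +kernel

theorem c10 : ∀ r ∈ rules, ∃ n : Fin 7, r.1.reverse ++ wi ivO r.2 = rw7.rotate n ∨
    r.1.reverse ++ wi ivO r.2 = (wi ivO rw7).rotate n := by decide +kernel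

theorem c11 : ∀ u, ∀ i < 26, ev (vz u) (yw i) = 1 := by decide +kernel

theorem c12 : ∀ q, (∀ u, ev (vz u) (tw q) = 1) → tw q = [] := by decide +kernel

theorem yw_big {i : ℕ} (h : ¬ i < 26) : yw i = [] ∧ be i = [] :=
  ⟨List.getD_eq_default _ _ (not_lt.1 h), List.getD_eq_default _ _ (not_lt.1 h)⟩

/-! ### The orbifold group -/

/-- Values of the letters. -/
def vO {G : Type} [Group G] (g : Fin 2 ⊕ Fin 3 → G) : Fin 7 → G :=
  ![g (.inl 0), (g (.inl 0))⁻¹, g (.inl 1), (g (.inl 1))⁻¹, g (.inr 0), g (.inr 1), g (.inr 2)]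

/-- The generator of each index. -/
def lt : Fin 2 ⊕ Fin 3 → Fin 7 := Sum.elim ![0, 2] ![4, 5, 6]

/-- The universal property. -/
theorem exists_hom {G : Type} [Group G] (f : Fin 7 → G) (h : ∀ x, f (ivO x) = (f x)⁻¹)
    (h1 : ev f rw7 = 1) : ∃ φ : OG 3 2 →* G, ∀ s, φ (vO .of s) = f s := by
  have e1 : f 1 = (f 0)⁻¹ := h 0
  have e3 : f 3 = (f 2)⁻¹ := h 2
  refine ⟨PresentedGroup.toGroup (f := fun j => f (lt j)) ?_, fun s => ?_⟩
  · rintro _ (⟨i, rfl⟩ | rfl)
    · rw [map_pow, FreeGroup.lift_apply_of, sq, mul_eq_one_iff_eq_inv]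
      fin_cases i
      exacts [h 4, h 5, h 6]
    · simpa [ev, rw7, lt, List.ofFn_succ, e1, e3, mul_assoc] using h1
  · fin_cases s <;> simp [vO, lt, e1, e3]

theorem vO_iv (s : Fin 7) : (vO .of (ivO s) : OG 3 2) = (vO .of s)⁻¹ := by
  have h : ∀ i : Fin 3, (PresentedGroup.of (.inr i) : OG 3 2) = (.of (.inr i))⁻¹ := fun i =>
    mul_eq_one_iff_eq_inv.1 ((sq _).symm.trans
      (PresentedGroup.one_of_mem (rels := relO 3 2) (Or.inl ⟨i, rfl⟩)))
  fin_cases s
  exacts [rfl, (inv_inv _).symm, rfl, (inv_inv _).symm, h 0, h 1, h 2]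

theorem vO_rel : ev (vO .of) rw7 = (1 : OG 3 2) := by
  have h := PresentedGroup.one_of_mem (rels := relO 3 2) (Or.inr rfl)
  simpa [ev, rw7, vO, List.ofFn_succ, mul_assoc, PresentedGroup.of] using h

theorem ev_dehn {l : List (Fin 7)} (h : dehn l = []) : ev (vO .of) l = (1 : OG 3 2) := by
  have h1 : ∀ l : List (Fin 7), ev (vO .of) l = (1 : OG 3 2) → ∀ n,
      ev (vO .of) (l.rotate n) = (1 : OG 3 2) := fun l hl n => by
    rw [ev, List.map_rotate]
    exact List.prod_rotate_eq_one_of_prod_eq_one hl n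
  have h2 := ev_go vO_iv (R := rules) (fun r hr => by
    obtain ⟨n, hn⟩ := c10 r hr
    rw [← mul_inv_eq_one, ← ev_wi vO_iv, ← ev_append]
    rcases hn with hn | hn <;> rw [hn]
    · exact h1 _ vO_rel n
    · exact h1 _ (by rw [ev_wi vO_iv, vO_rel, inv_one]) n) 2000 [] l
  rw [← dehn, h] at h2
  simpa [ev_nil] using h2.symm

/-- The basic generators in the orbifold group. -/
def Y (i : ℕ) : OG 3 2 := ev (vO .of) (yw i)

/-- The basic generators in the surface group. -/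
def B (i : ℕ) : SG 13 := ev (dbl fun i => .of (dec i)) (be i)

theorem lift_srel {G : Type} [Group G] (φ : FreeGroup (Fin 13 ⊕ Fin 13) →* G) :
    φ (srel 13) = ev (dbl fun i => φ (.of (dec i))) sw := by rw [c0, map_dbl]

/-- The embedding of the surface group. -/
def Phi : SG 13 →* OG 3 2 :=
  PresentedGroup.toGroup (f := fun j => ev (dbl Y) (al j)) (by
    rintro _ rfl
    simp only [lift_srel, FreeGroup.lift_apply_of]
    rw [← ev_sb (dbl_iv Y), ev_red Y c1]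
    exact (ev_sb vO_iv yw ww).symm.trans (ev_dehn c2))

theorem Phi_ev (l : List ℕ) : Phi (ev (dbl B) l) = ev (dbl Y) l := by
  rw [map_dbl]
  congr 2
  funext i
  by_cases h : i < 26
  · simp only [B, map_dbl, Phi, PresentedGroup.toGroup.of]
    rw [← ev_sb (dbl_iv Y), ev_red Y (c3 i h), dbl_two]
  · rw [B, Y, (yw_big h).1, (yw_big h).2, ev_nil, ev_nil, map_one]

theorem B_ww : ev (dbl B) ww = 1 := by
  refine (ev_sb (dbl_iv _) be ww).symm.trans ((ev_red _ c5).trans ?_)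
  exact (lift_srel (PresentedGroup.mk _)).symm.trans (PresentedGroup.one_of_mem rfl)

theorem B_gen (g : SG 13) : ∃ l, ev (dbl B) l = g :=
  exists_ev (dbl_iv B) (fun j => ⟨al j, (ev_sb (dbl_iv _) be _).symm.trans
    ((ev_red _ (c4 j).1).trans (by rw [dbl_two, (c4 j).2]))⟩) g

/-- The action of a letter. -/
def act (s : Fin 7) (x : Fin 16 × SG 13) : Fin 16 × SG 13 :=
  (nx s x.1, ev (dbl B) (ps s x.1) * x.2)

theorem act_iv (s : Fin 7) (x : Fin 16 × SG 13) : act (ivO s) (act s x) = x :=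
  Prod.ext (c6 s x.1).2.1 (by
    simp only [act]
    rw [← mul_assoc, ← ev_append, ev_red B (c6 s x.1).2.2, ev_nil, one_mul])

/-- The permutation of a letter. -/
def pm (s : Fin 7) : Equiv.Perm (Fin 16 × SG 13) :=
  ⟨act s, act (ivO s), act_iv s, fun x => by simpa only [(c6 s 0).1] using act_iv (ivO s) x⟩

theorem ev_pm (l : List (Fin 7)) (q : Fin 16) (g : SG 13) :
    ev pm l (q, g) = ((pth l q).1, ev (dbl B) (pth l q).2 * g) := by
  induction l with
  | nil => simp [ev_nil, pth]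
  | cons s l ih =>
    rw [ev_cons, Equiv.Perm.mul_apply, ih, pth, ev_append, mul_assoc]
    rfl

theorem Phi_inj : Function.Injective Phi := by
  obtain ⟨ψ, hψ⟩ := exists_hom pm (fun s => Equiv.ext fun x => rfl) (Equiv.ext fun ⟨q, g⟩ => by
    rw [ev_pm, (c7 q).1]
    rcases (c7 q).2 with h | h <;> rw [ev_red B h]
    · rw [ev_nil, one_mul, Equiv.Perm.one_apply]
    · rw [B_ww, one_mul, Equiv.Perm.one_apply])
  have h1 : ∀ i g, ψ (Y i) (0, g) = (0, B i * g) := fun i g => by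
    simp only [Y, map_ev, hψ]
    by_cases h : i < 26
    · rw [ev_pm, (c8 i h).1, ev_red B (c8 i h).2, dbl_two]
    · rw [B, (yw_big h).1, (yw_big h).2, ev_nil, ev_nil, one_mul, Equiv.Perm.one_apply]
  have h2 : ∀ l g, ψ (ev (dbl Y) l) (0, g) = (0, ev (dbl B) l * g) := fun l g => by
    induction l with
    | nil => simp [ev_nil]
    | cons n l ih =>
      rw [ev_cons, ev_cons, map_mul, Equiv.Perm.mul_apply, ih, dbl, dbl]
      split_ifs
      · rw [h1, mul_assoc]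
      · rw [map_inv, Equiv.Perm.inv_eq_iff_eq, h1, mul_assoc, mul_inv_cancel_left]
  refine (injective_iff_map_eq_one _).2 fun g hg => ?_
  obtain ⟨l, rfl⟩ := B_gen g
  have h3 := h2 l 1
  rw [← Phi_ev, hg, map_one, mul_one] at h3
  exact (congrArg Prod.snd h3).symm

theorem Phi_mem (g : SG 13) : Phi g ∈ ker2 (OG 3 2) := by
  obtain ⟨l, rfl⟩ := B_gen g
  rw [Phi_ev]
  refine ev_mem (fun i => Subgroup.mem_iInf.2 fun ψ => ?_) l
  by_cases h : i < 26
  · have h1 := congrArg ψ vO_rel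
    have h2 : ∀ a b c d e : Multiplicative (ZMod 2),
        a * (b * (c * (e * (d * (e⁻¹ * d⁻¹))))) = 1 → c = a * b ∧ d⁻¹ = d ∧ e⁻¹ = e := by decide
    have h3 := h2 (ψ (.of (.inr 0))) (ψ (.of (.inr 1))) (ψ (.of (.inr 2))) (ψ (.of (.inl 0)))
      (ψ (.of (.inl 1))) (by simpa [ev, rw7, vO] using h1)
    rw [MonoidHom.mem_ker, Y, map_ev, ← c11 ![ψ (.of (.inl 0)), ψ (.of (.inl 1)),
      ψ (.of (.inr 0)), ψ (.of (.inr 1))] i h]
    congr 1
    funext s
    fin_cases s <;> simp [vO, vz, h3]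
  · rw [Y, (yw_big h).1]
    exact one_mem _

theorem cover (x : OG 3 2) : ∃ q g, x = ev (vO .of) (tw q) * Phi g := by
  obtain ⟨l, rfl⟩ := exists_ev vO_iv (fun j => ⟨[lt j], by
    rcases j with j | j <;> fin_cases j <;> simp [ev, vO, lt]⟩) x
  induction l with
  | nil => exact ⟨0, 1, by rw [map_one, mul_one]; rfl⟩
  | cons s l ih =>
    obtain ⟨q, g, e⟩ := ih
    have h := ev_dehn (c9 s q)
    rw [ev_append, ev_wi vO_iv, mul_inv_eq_one, ev_cons, ev_append, ev_sb vO_iv] at h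
    exact ⟨nx s q, ev (dbl B) (ps s q) * g, by
      rw [ev_cons, e, ← mul_assoc, h, map_mul, Phi_ev, mul_assoc]; rfl⟩

theorem Phi_range : Phi.range = ker2 (OG 3 2) := by
  refine le_antisymm (by rintro _ ⟨g, rfl⟩; exact Phi_mem g) fun x hx => ?_
  obtain ⟨q, g, rfl⟩ := cover x
  have h := (Subgroup.mul_mem_cancel_right _ (Phi_mem g)).1 hx
  rw [c12 q fun u => ?_, ev_nil, one_mul]
  · exact ⟨g, rfl⟩
  · obtain ⟨ψ, hψ⟩ := exists_hom (vz u) (by revert u; decide) (by revert u; decide)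
    have h1 := Subgroup.mem_iInf.1 h ψ
    simpa only [MonoidHom.mem_ker, map_ev, hψ] using h1

end KerMain

open KerMain

theorem ker2_iso : Nonempty (SG 13 ≃* ker2 (OG 3 2)) :=
  ⟨(MonoidHom.ofInjective Phi_inj).trans (MulEquiv.subgroupCongr Phi_range)⟩

theorem ker2_fi : (ker2 (OG 3 2)).FiniteIndex := by
  have : Finite (OG 3 2 ⧸ ker2 (OG 3 2)) :=
    Finite.of_surjective (fun q : Fin 16 => QuotientGroup.mk (ev (vO .of) (tw q))) fun x => by
      obtain ⟨x, rfl⟩ := QuotientGroup.mk_surjective x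
      obtain ⟨q, g, rfl⟩ := cover x
      exact ⟨q, (QuotientGroup.mk_mul_of_mem _ (Phi_mem g)).symm⟩
  exact Subgroup.finiteIndex_of_finite_quotient

end Pool.Agent.E5f

end
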