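import Pool.Agent.Mg.S03381.G596352

section

/-!
Ordered products of letters, supports, and the change of basis between the generators read off
vertical rays and those read off horizontal rays.
-/

set_option autoImplicit false

namespace Pool.Agent.E5f

open Monoid

section defs
variable {L C K : Type} [CommGroup C] [LinearOrder K]

/-- The product of the letters `c` along a list of labels. -/
def pl (c : C) (w : List L) : W L C := (w.map (fun l => lt l c)).prod

open Classical in
/-- The elements of `D` listed by increasing key. -/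
noncomputable def srt (k : L → K) (D : Finset L) : List L :=
  D.toList.mergeSort (fun a b => decide (k a ≤ k b))

/-- The product of the letters `c` over `D`, ordered by increasing key. -/
noncomputable def op (k : L → K) (c : C) (D : Finset L) : W L C := pl c (srt k D)

open Classical in
/-- The labels of `S` south-west of `l`. -/
noncomputable def SW (X Y : L → K) (S : Finset L) (l : L) : Finset L :=
  S.filter (fun m => X m < X l ∧ Y m < Y l)

/-- The change of basis. -/
noncomputable def Phi (X Y : L → K) (c : C) (S : Finset L) : W L C →* W L C :=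
  lf (fun l => (MulAut.conj (op X c (SW X Y S l))).toMonoidHom.comp
    ((ltH l).comp invMonoidHom))

/-- `D` is a lower part of `S` for the product of the two orders. -/
def LowerIn (X Y : L → K) (S D : Finset L) : Prop :=
  D ⊆ S ∧ ∀ m ∈ S, ∀ l ∈ D, X m < X l → Y m < Y l → m ∈ D

end defs

section sup
variable {L C : Type} [CommGroup C]

theorem red_tail {e : L × C} {w : List (L × C)} (h : Red (e :: w)) : Red w :=
  ⟨fun e' he' => h.1 e' (List.mem_cons_of_mem _ he'), h.2.tail⟩

theorem red_cons {l : L} {x : C} {w : List (L × C)} (hx : x ≠ 1) (h : Red w)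
    (hl : ∀ e ∈ w.head?, l ≠ e.1) : Red ((l, x) :: w) := by
  refine ⟨?_, ?_⟩
  · intro e he
    rcases List.mem_cons.1 he with rfl | he
    · exact hx
    · exact h.1 e he
  · cases w with
    | nil => simp
    | cons e w => exact List.IsChain.cons_cons (hl e (by simp)) h.2

theorem lab_lt_mul_sub (l : L) (x : C) (g : W L C) :
    ∀ m ∈ lab (lt l x * g), m = l ∨ m ∈ lab g := by
  classical
  have hg := ev_wd g
  have hr := red_wd g
  unfold lab
  by_cases hx : x = 1
  · subst hx
    intro m hm
    right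
    simpa using hm
  cases hw : wd g with
  | nil =>
    rw [hw] at hg
    have : g = 1 := by simpa using hg.symm
    subst this
    intro m hm
    rw [mul_one, wd_lt l hx] at hm
    left
    simpa using hm
  | cons e w =>
    rw [hw] at hg hr
    by_cases he : e.1 = l
    · by_cases hy : x * e.2 = 1
      · have : lt l x * g = ev w := by
          rw [← hg, ev_cons, he, ← mul_assoc, ← lt_mul, hy, lt_one, one_mul]
        rw [this, wd_ev (red_tail hr)]
        intro m hm
        right
        simp only [List.map_cons, List.mem_cons]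
        exact Or.inr hm
      · have : lt l x * g = ev ((l, x * e.2) :: w) := by
          rw [← hg, ev_cons, ev_cons, he, ← mul_assoc, ← lt_mul]
        have hr2 : Red ((l, x * e.2) :: w) := by
          refine red_cons hy (red_tail hr) ?_
          intro e' he'
          cases w with
          | nil => simp at he'
          | cons e2 w =>
            have h1 : e.1 ≠ e2.1 := (List.isChain_cons_cons.1 hr.2).1
            have h2 : e2 = e' := by simpa using he'
            rw [← h2, ← he]
            exact h1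
        rw [this, wd_ev hr2]
        intro m hm
        simp only [List.map_cons, List.mem_cons] at hm ⊢
        rcases hm with hm | hm
        · exact Or.inl hm
        · exact Or.inr (Or.inr hm)
    · have : lt l x * g = ev ((l, x) :: e :: w) := by rw [← hg]; simp
      have hr2 : Red ((l, x) :: e :: w) := by
        refine red_cons hx hr ?_
        intro e' he'
        have h2 : e = e' := by simpa using he'
        rw [← h2]
        exact fun h => he h.symm
      rw [this, wd_ev hr2]
      intro m hm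
      simp only [List.map_cons, List.mem_cons] at hm ⊢
      exact hm

theorem sup_one (S : Set L) : Sup S (1 : W L C) := by
  intro l hl
  simp at hl

theorem sup_lt_mul {S : Set L} {l : L} (hl : l ∈ S) (x : C) {g : W L C} (hg : Sup S g) :
    Sup S (lt l x * g) := by
  intro m hm
  rcases lab_lt_mul_sub l x g m hm with rfl | h
  · exact hl
  · exact hg m h

theorem sup_ret (S : Set L) (g : W L C) : Sup S (ret S g) := by
  classical
  induction g using W_ind with
  | h1 => rw [map_one]; exact sup_one S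
  | h l x g ih =>
    rw [map_mul, ret_lt]
    split_ifs with hl
    · exact sup_lt_mul hl x ih
    · rw [one_mul]; exact ih

theorem W_ext_sup {G : Type} [Group G] {f f' : W L C →* G} {S : Set L}
    (h : ∀ l ∈ S, ∀ x, f (lt l x) = f' (lt l x)) {g : W L C} (hg : Sup S g) : f g = f' g := by
  have key : ∀ w : List (L × C), (∀ e ∈ w, e.1 ∈ S) → f (ev w) = f' (ev w) := by
    intro w
    induction w with
    | nil => intro _; simp
    | cons e w ih =>
      intro hw
      rw [ev_cons, map_mul, map_mul, h e.1 (hw e (by simp)),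
        ih (fun e' he' => hw e' (List.mem_cons_of_mem _ he'))]
  have := key (wd g) (fun e he => hg e.1 (List.mem_map.2 ⟨e, he, rfl⟩))
  rwa [ev_wd] at this

theorem sup_iff {S : Set L} {g : W L C} : Sup S g ↔ ret S g = g := by
  classical
  constructor
  · intro hg
    have := W_ext_sup (f := ret S) (f' := MonoidHom.id _) (S := S)
      (fun l hl x => by rw [ret_lt, if_pos hl]; rfl) hg
    exact this
  · intro h
    rw [← h]
    exact sup_ret S g

theorem sup_mul {S : Set L} {g h : W L C} (hg : Sup S g) (hh : Sup S h) : Sup S (g * h) := by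
  rw [sup_iff] at *
  rw [map_mul, hg, hh]

theorem sup_inv {S : Set L} {g : W L C} (hg : Sup S g) : Sup S g⁻¹ := by
  rw [sup_iff] at *
  rw [map_inv, hg]

theorem sup_lt {S : Set L} {l : L} (hl : l ∈ S) (x : C) : Sup S (lt l x : W L C) := by
  have := sup_lt_mul hl x (sup_one (C := C) S)
  rwa [mul_one] at this

theorem sup_mono {S T : Set L} (h : S ⊆ T) {g : W L C} (hg : Sup S g) : Sup T g :=
  fun l hl => h (hg l hl)

theorem sup_ind {S : Set L} {p : W L C → Prop} (h1 : p 1)
    (h : ∀ l ∈ S, ∀ x g, p g → p (lt l x * g)) {g : W L C} (hg : Sup S g) : p g := by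
  have key : ∀ w : List (L × C), (∀ e ∈ w, e.1 ∈ S) → p (ev w) := by
    intro w
    induction w with
    | nil => intro _; exact h1
    | cons e w ih =>
      intro hw
      rw [ev_cons]
      exact h e.1 (hw e (by simp)) _ _ (ih (fun e' he' => hw e' (List.mem_cons_of_mem _ he')))
  have := key (wd g) (fun e he => hg e.1 (List.mem_map.2 ⟨e, he, rfl⟩))
  rwa [ev_wd] at this

theorem sup_map {S T : Set L} {f : W L C →* W L C} (h : ∀ l ∈ S, ∀ x, Sup T (f (lt l x)))
    {g : W L C} (hg : Sup S g) : Sup T (f g) := by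
  refine sup_ind (p := fun g => Sup T (f g)) ?_ ?_ hg
  · rw [map_one]; exact sup_one T
  · intro l hl x g ih
    rw [map_mul]
    exact sup_mul (h l hl x) ih

theorem sup_sw {S : Set L} {a : L} (ha : a ∈ S) (b : L) (x : C) {g : W L C} (hg : Sup S g) :
    Sup S (sw a b x g) := by
  classical
  refine sup_map (fun l hl y => ?_) hg
  rw [sw_lt]
  split_ifs with h
  · exact sup_mul (sup_mul (sup_lt ha x) (sup_lt (h ▸ hl) y)) (sup_inv (sup_lt ha x))
  · exact sup_lt hl y

theorem ret_ret (S T : Set L) (g : W L C) : ret S (ret T g) = ret (S ∩ T) g := by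
  classical
  have : (ret S).comp (ret T) = (ret (S ∩ T) : W L C →* W L C) := by
    refine W_ext (fun l x => ?_)
    simp only [MonoidHom.comp_apply, ret_lt, Set.mem_inter_iff]
    by_cases h1 : l ∈ T <;> by_cases h2 : l ∈ S <;> simp [h1, h2]
  exact DFunLike.congr_fun this g

end sup

section ops
variable {L C K : Type} [CommGroup C] [LinearOrder K]

@[simp] theorem pl_nil (c : C) : pl c ([] : List L) = 1 := rfl

@[simp] theorem pl_cons (c : C) (l : L) (w : List L) : pl c (l :: w) = lt l c * pl c w := by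
  simp [pl]

@[simp] theorem pl_append (c : C) (w w' : List L) : pl c (w ++ w') = pl c w * pl c w' := by
  simp [pl]

theorem srt_perm (k : L → K) (D : Finset L) : (srt k D).Perm D.toList :=
  List.mergeSort_perm _ _

theorem mem_srt {k : L → K} {D : Finset L} {l : L} : l ∈ srt k D ↔ l ∈ D := by
  rw [(srt_perm k D).mem_iff, Finset.mem_toList]

theorem srt_nodup (k : L → K) (D : Finset L) : (srt k D).Nodup :=
  (srt_perm k D).nodup_iff.2 D.nodup_toList

theorem srt_le (k : L → K) (D : Finset L) : (srt k D).Pairwise (fun a b => k a ≤ k b) := by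
  classical
  have := List.pairwise_mergeSort (le := fun a b : L => decide (k a ≤ k b))
    (fun a b c h1 h2 => by simp only [decide_eq_true_eq] at *; exact le_trans h1 h2)
    (fun a b => by simpa using le_total (k a) (k b)) D.toList
  exact this.imp (fun h => by simpa using h)

theorem srt_lt {k : L → K} {D : Finset L} (hk : Set.InjOn k D) :
    (srt k D).Pairwise (fun a b => k a < k b) := by
  have h1 := (srt_le k D).and (srt_nodup k D)
  refine List.Pairwise.imp_of_mem ?_ h1
  intro a b ha hb h
  exact lt_of_le_of_ne h.1 (fun he => h.2 (hk (mem_srt.1 ha) (mem_srt.1 hb) he))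

theorem srt_eq {k : L → K} {D : Finset L} {w : List L}
    (hw : w.Pairwise (fun a b => k a < k b)) (hD : ∀ l, l ∈ w ↔ l ∈ D) : srt k D = w := by
  have hnd : w.Nodup := hw.imp (fun {a b} h he => by subst he; exact lt_irrefl _ h)
  have hk : Set.InjOn k D := by
    have h1 : (w.map k).Nodup := by
      unfold List.Nodup
      rw [List.pairwise_map]
      exact hw.imp (fun h => ne_of_lt h)
    intro a ha b hb he
    exact List.inj_on_of_nodup_map h1 ((hD a).2 ha) ((hD b).2 hb) he
  have hp : (srt k D).Perm w :=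
    (List.perm_ext_iff_of_nodup (srt_nodup k D) hnd).2 (fun l => by rw [mem_srt, hD])
  exact hp.eq_of_pairwise (fun a b _ _ h1 h2 => absurd h1 (not_lt.2 h2.le)) (srt_lt hk) hw

theorem op_eq_pl {k : L → K} (c : C) {D : Finset L} {w : List L}
    (hw : w.Pairwise (fun a b => k a < k b)) (hD : ∀ l, l ∈ w ↔ l ∈ D) : op k c D = pl c w := by
  unfold op
  rw [srt_eq hw hD]

@[simp] theorem op_empty (k : L → K) (c : C) : op k c (∅ : Finset L) = 1 := by
  rw [op_eq_pl (w := []) c (by simp) (by simp)]
  rfl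

theorem op_singleton (k : L → K) (c : C) (l : L) : op k c {l} = lt l c := by
  rw [op_eq_pl (w := [l]) c (by simp) (by simp)]
  simp

/-- Splitting into a lower and an upper part. -/
theorem op_split {k : L → K} (c : C) {D D1 D2 : Finset L} (hk : Set.InjOn k D)
    (hD : ∀ l, l ∈ D ↔ l ∈ D1 ∨ l ∈ D2) (h : ∀ a ∈ D1, ∀ b ∈ D2, k a < k b) :
    op k c D = op k c D1 * op k c D2 := by
  have h1 : Set.InjOn k D1 := hk.mono (fun l hl => (hD l).2 (Or.inl hl))
  have h2 : Set.InjOn k D2 := hk.mono (fun l hl => (hD l).2 (Or.inr hl))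
  rw [op_eq_pl (w := srt k D1 ++ srt k D2) c]
  · rw [pl_append]; rfl
  · rw [List.pairwise_append]
    exact ⟨srt_lt h1, srt_lt h2, fun a ha b hb => h a (mem_srt.1 ha) b (mem_srt.1 hb)⟩
  · intro l
    rw [List.mem_append, mem_srt, mem_srt, hD]

theorem op_max {k : L → K} (c : C) {D D' : Finset L} {l : L} (hk : Set.InjOn k D)
    (hD : ∀ m, m ∈ D ↔ m ∈ D' ∨ m = l) (h : ∀ a ∈ D', k a < k l) :
    op k c D = op k c D' * lt l c := by
  rw [op_split c (D1 := D') (D2 := {l}) hk (by simpa using hD) (by simpa using h), op_singleton]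

theorem op_min {k : L → K} (c : C) {D D' : Finset L} {l : L} (hk : Set.InjOn k D)
    (hD : ∀ m, m ∈ D ↔ m = l ∨ m ∈ D') (h : ∀ a ∈ D', k l < k a) :
    op k c D = lt l c * op k c D' := by
  rw [op_split c (D1 := {l}) (D2 := D') hk (by simpa using hD) (by simpa using h), op_singleton]

open Classical in
theorem op_filter_split {k : L → K} (c : C) {D : Finset L} (hk : Set.InjOn k D) (p : L → Prop)
    (h : ∀ a ∈ D, ∀ b ∈ D, p a → ¬ p b → k a < k b) :
    op k c D = op k c (D.filter p) * op k c (D.filter (fun l => ¬ p l)) := by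
  refine op_split c hk (fun l => ?_) (fun a ha b hb => ?_)
  · simp only [Finset.mem_filter]
    tauto
  · rw [Finset.mem_filter] at ha hb
    exact h a ha.1 b hb.1 ha.2 hb.2

theorem op_congr {K' : Type} [LinearOrder K'] {k : L → K} {k' : L → K'} (c : C) {D : Finset L}
    (hk : Set.InjOn k D) (h : ∀ a ∈ D, ∀ b ∈ D, k a < k b → k' a < k' b) :
    op k c D = op k' c D := by
  rw [op_eq_pl (k := k') (w := srt k D) c ?_ (fun l => mem_srt)]
  · rfl
  · exact List.Pairwise.imp_of_mem
      (fun {a b} ha hb hab => h a (mem_srt.1 ha) b (mem_srt.1 hb) hab) (srt_lt hk)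

open Classical in
theorem ret_pl (T : Set L) (c : C) (w : List L) :
    ret T (pl c w) = pl c (w.filter (fun l => decide (l ∈ T))) := by
  induction w with
  | nil => simp
  | cons l w ih =>
    rw [pl_cons, map_mul, ih, ret_lt]
    by_cases h : l ∈ T
    · simp [h]
    · simp [h]

open Classical in
theorem ret_op {k : L → K} (c : C) {D : Finset L} (hk : Set.InjOn k D) (T : Set L) :
    ret T (op k c D) = op k c (D.filter (fun l => l ∈ T)) := by
  rw [op_eq_pl (D := D.filter (fun l => l ∈ T)) (w := (srt k D).filter (fun l => decide (l ∈ T))) c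
    ((srt_lt hk).filter _) (fun l => by simp [mem_srt])]
  exact ret_pl T c _

theorem sup_op {k : L → K} (c : C) {D : Finset L} {T : Set L} (h : ∀ l ∈ D, l ∈ T) :
    Sup T (op k c D) := by
  have key : ∀ w : List L, (∀ l ∈ w, l ∈ T) → Sup T (pl c w) := by
    intro w
    induction w with
    | nil => intro _; exact sup_one T
    | cons l w ih =>
      intro hw
      rw [pl_cons]
      exact sup_lt_mul (hw l (by simp)) c (ih (fun m hm => hw m (List.mem_cons_of_mem _ hm)))
  exact key _ (fun l hl => h l (mem_srt.1 hl))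

theorem rl_pl {L' : Type} (σ : L → L') (c : C) (w : List L) :
    rl σ (pl c w) = pl c (w.map σ) := by
  induction w with
  | nil => simp
  | cons l w ih => rw [pl_cons, map_mul, ih, rl_lt, List.map_cons, pl_cons]

theorem rl_op {L' K' : Type} [LinearOrder K'] {k : L → K} {k' : L' → K'} (σ : L → L') (c : C)
    {D : Finset L} {D' : Finset L'} (hk : Set.InjOn k D)
    (h : ∀ a ∈ D, ∀ b ∈ D, k a < k b → k' (σ a) < k' (σ b))
    (hD : ∀ l', l' ∈ D' ↔ ∃ l ∈ D, σ l = l') : rl σ (op k c D) = op k' c D' := by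
  rw [op_eq_pl (k := k') (D := D') (w := (srt k D).map σ) c]
  · exact rl_pl σ c _
  · rw [List.pairwise_map]
    exact List.Pairwise.imp_of_mem
      (fun {a b} ha hb hab => h a (mem_srt.1 ha) b (mem_srt.1 hb) hab) (srt_lt hk)
  · intro l'
    rw [hD, List.mem_map]
    simp only [mem_srt]

open Classical in
theorem expo_pl (l : L) (c : C) {w : List L} (hw : w.Nodup) :
    expo l (pl c w) = if l ∈ w then c else 1 := by
  induction w with
  | nil => simp
  | cons m w ih =>
    rw [List.nodup_cons] at hw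
    rw [pl_cons, map_mul, ih hw.2, expo_lt]
    by_cases h : m = l
    · subst h
      simp [hw.1]
    · have h' : ¬ l = m := fun h2 => h h2.symm
      simp [h, h']

open Classical in
theorem expo_op (k : L → K) (l : L) (c : C) (D : Finset L) :
    expo l (op k c D) = if l ∈ D then c else 1 := by
  unfold op
  rw [expo_pl l c (srt_nodup k D)]
  simp only [mem_srt]

/-- Induction on a finite set by removing the element with the largest key. -/
theorem finset_ind_max {k : L → K} {p : Finset L → Prop} (S : Finset L) (hk : Set.InjOn k S)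
    (h0 : p ∅) (h : ∀ D D' : Finset L, ∀ l, D ⊆ S → (∀ m, m ∈ D ↔ m ∈ D' ∨ m = l) →
      (∀ a ∈ D', k a < k l) → p D' → p D) : ∀ D ⊆ S, p D := by
  classical
  intro D
  induction D using Finset.induction_on_max_value k with
  | empty => intro _; exact h0
  | insert a s ha hle ih =>
    intro hs
    refine h _ s a hs (fun m => by simp only [Finset.mem_insert]; tauto) (fun b hb => ?_)
      (ih (fun x hx => hs (Finset.mem_insert_of_mem hx)))
    refine lt_of_le_of_ne (hle b hb) (fun he => ha ?_)
    have := hk (hs (Finset.mem_insert_of_mem hb)) (hs (Finset.mem_insert_self a s)) he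
    exact this ▸ hb

theorem mem_SW {X Y : L → K} {S : Finset L} {l m : L} :
    m ∈ SW X Y S l ↔ m ∈ S ∧ X m < X l ∧ Y m < Y l := by
  unfold SW
  simp only [Finset.mem_filter]

theorem SW_comm (X Y : L → K) (S : Finset L) (l : L) : SW X Y S l = SW Y X S l := by
  ext m
  simp only [mem_SW]
  tauto

theorem SW_sub (X Y : L → K) (S : Finset L) (l : L) : SW X Y S l ⊆ S :=
  fun _ hm => (mem_SW.1 hm).1

theorem lowerIn_SW (X Y : L → K) (S : Finset L) (l : L) : LowerIn X Y S (SW X Y S l) :=
  ⟨SW_sub X Y S l, fun _ hm _ hn h1 h2 => mem_SW.2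
    ⟨hm, h1.trans (mem_SW.1 hn).2.1, h2.trans (mem_SW.1 hn).2.2⟩⟩

theorem LowerIn.symm {X Y : L → K} {S D : Finset L} (h : LowerIn X Y S D) : LowerIn Y X S D :=
  ⟨h.1, fun m hm l hl h1 h2 => h.2 m hm l hl h2 h1⟩

theorem Phi_lt (X Y : L → K) (c : C) (S : Finset L) (l : L) (x : C) :
    Phi X Y c S (lt l x) = op X c (SW X Y S l) * (lt l x)⁻¹ * (op X c (SW X Y S l))⁻¹ := by
  unfold Phi
  rw [lf_lt, ← lt_inv]
  rfl

/-- The key identity. -/
theorem Phi_op {X Y : L → K} (c : C) {S : Finset L} (hX : Set.InjOn X S) (hY : Set.InjOn Y S)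
    {D : Finset L} (hD : LowerIn X Y S D) : Phi X Y c S (op Y c D) = (op X c D)⁻¹ := by
  classical
  have key : ∀ D ⊆ S, LowerIn X Y S D → Phi X Y c S (op Y c D) = (op X c D)⁻¹ := by
    refine finset_ind_max (k := Y) S hY (fun _ => by simp) ?_
    intro D D' l hDS hm hlt ih hD
    have hl : l ∈ D := (hm l).2 (Or.inr rfl)
    have hD'D : D' ⊆ D := fun m h => (hm m).2 (Or.inl h)
    have hD' : LowerIn X Y S D' := by
      refine ⟨hD'D.trans hDS, fun m hmS n hn h1 h2 => ?_⟩
      rcases (hm m).1 (hD.2 m hmS n (hD'D hn) h1 h2) with h | h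
      · exact h
      · subst h
        exact absurd (h2.trans (hlt n hn)) (lt_irrefl _)
    have hXD : Set.InjOn X D := hX.mono hDS
    set B := D'.filter (fun m => X l < X m) with hB
    have e1 : op X c D' = op X c (SW X Y S l) * op X c B := by
      refine op_split c (hXD.mono hD'D) (fun m => ?_) (fun a ha b hb => ?_)
      · simp only [mem_SW, hB, Finset.mem_filter]
        constructor
        · intro h
          rcases lt_trichotomy (X m) (X l) with h1 | h1 | h1
          · exact Or.inl ⟨hDS (hD'D h), h1, hlt m h⟩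
          · have := hXD (hD'D h) hl h1
            subst this
            exact absurd (hlt m h) (lt_irrefl _)
          · exact Or.inr ⟨h, h1⟩
        · rintro (h | h)
          · rcases (hm m).1 (hD.2 m h.1 l hl h.2.1 h.2.2) with h3 | h3
            · exact h3
            · subst h3
              exact absurd h.2.1 (lt_irrefl _)
          · exact h.1
      · exact (mem_SW.1 ha).2.1.trans (Finset.mem_filter.1 hb).2
    have e2 : op X c D = op X c (SW X Y S l) * (lt l c * op X c B) := by
      rw [← op_min c (D := insert l B) (D' := B) (l := l) (hXD.mono ?_) (by simp)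
        (fun a ha => (Finset.mem_filter.1 ha).2)]
      · refine op_split c hXD (fun m => ?_) (fun a ha b hb => ?_)
        · simp only [mem_SW, hB, Finset.mem_filter, Finset.mem_insert]
          constructor
          · intro h
            rcases (hm m).1 h with h0 | h0
            · rcases lt_trichotomy (X m) (X l) with h1 | h1 | h1
              · exact Or.inl ⟨hDS h, h1, hlt m h0⟩
              · exact Or.inr (Or.inl (hXD h hl h1))
              · exact Or.inr (Or.inr ⟨h0, h1⟩)
            · exact Or.inr (Or.inl h0)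
          · rintro (h | h | h)
            · exact hD.2 m h.1 l hl h.2.1 h.2.2
            · exact h ▸ hl
            · exact hD'D h.1
        · rcases Finset.mem_insert.1 hb with rfl | hb
          · exact (mem_SW.1 ha).2.1
          · exact (mem_SW.1 ha).2.1.trans (Finset.mem_filter.1 hb).2
      · intro m hm'
        rcases Finset.mem_insert.1 hm' with rfl | h
        · exact hl
        · exact hD'D (Finset.mem_filter.1 h).1
    rw [op_max c (hY.mono hDS) hm hlt, map_mul, ih hD', Phi_lt, e1, e2]
    group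
  exact key D hD.1 hD

theorem Phi_Phi {X Y : L → K} (c : C) {S : Finset L} (hX : Set.InjOn X S) (hY : Set.InjOn Y S)
    (g : W L C) : Phi Y X c S (Phi X Y c S g) = g := by
  have : (Phi Y X c S).comp (Phi X Y c S) = MonoidHom.id _ := by
    refine W_ext (fun l x => ?_)
    rw [MonoidHom.comp_apply, Phi_lt, map_mul, map_mul, map_inv, map_inv,
      Phi_op c hY hX (lowerIn_SW X Y S l).symm, Phi_lt, SW_comm Y X]
    simp only [MonoidHom.id_apply]
    group
  exact DFunLike.congr_fun this g

theorem Phi_injective {X Y : L → K} (c : C) {S : Finset L} (hX : Set.InjOn X S)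
    (hY : Set.InjOn Y S) : Function.Injective (Phi X Y c S) :=
  Function.LeftInverse.injective (Phi_Phi c hX hY)

theorem sup_Phi (X Y : L → K) (c : C) {S : Finset L} {T : Set L} (hS : ∀ l ∈ S, l ∈ T)
    {g : W L C} (hg : Sup T g) : Sup T (Phi X Y c S g) := by
  refine sup_map (fun l hl x => ?_) hg
  have h := sup_op (k := X) c (D := SW X Y S l) (T := T) (fun m hm => hS m (SW_sub X Y S l hm))
  rw [Phi_lt]
  exact sup_mul (sup_mul h (sup_inv (sup_lt hl x))) (sup_inv h)

theorem expo_Phi (X Y : L → K) (c : C) (S : Finset L) (l : L) (g : W L C) :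
    expo l (Phi X Y c S g) = (expo l g)⁻¹ := by
  induction g using W_ind with
  | h1 => simp
  | h m x g ih =>
    rw [map_mul, map_mul, ih, Phi_lt, map_mul, map_mul, map_mul, map_inv, map_inv, mul_inv]
    congr 1
    rw [mul_comm (expo l (op X c (SW X Y S m))), mul_assoc, mul_inv_cancel, mul_one]

/-- Compatibility with the retractions. -/
theorem ret_Phi {X Y : L → K} (c : C) {S T : Finset L} (hX : Set.InjOn X S) (hT : T ⊆ S)
    (g : W L C) : ret (T : Set L) (Phi X Y c S g) = Phi X Y c T (ret (T : Set L) g) := by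
  classical
  have : (ret (T : Set L)).comp (Phi X Y c S) = (Phi X Y c T).comp (ret (T : Set L)) := by
    refine W_ext (fun l x => ?_)
    have e : ret (T : Set L) (op X c (SW X Y S l)) = op X c (SW X Y T l) := by
      rw [ret_op c (hX.mono (SW_sub X Y S l))]
      congr 1
      ext m
      simp only [Finset.mem_filter, mem_SW, Finset.mem_coe]
      exact ⟨fun h => ⟨h.2, h.1.2⟩, fun h => ⟨⟨hT h.1, h.2⟩, h.1⟩⟩
    rw [MonoidHom.comp_apply, MonoidHom.comp_apply, Phi_lt, map_mul, map_mul, map_inv, map_inv,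
      e, ret_lt]
    split_ifs with h
    · rw [Phi_lt]
    · simp
  exact DFunLike.congr_fun this g

/-- The change of basis depends only on the two orders. -/
theorem Phi_congr {K' : Type} [LinearOrder K'] {X Y : L → K} {X' Y' : L → K'} (c : C)
    {S : Finset L} {T : Set L} (hX : Set.InjOn X S)
    (h0 : ∀ a ∈ S, ∀ b ∈ S, X a < X b → X' a < X' b)
    (h1 : ∀ a ∈ S, ∀ b ∈ T, X a < X b ∧ Y a < Y b ↔ X' a < X' b ∧ Y' a < Y' b)
    {g : W L C} (hg : Sup T g) : Phi X Y c S g = Phi X' Y' c S g := by
  refine W_ext_sup (fun l hl x => ?_) hg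
  have e : SW X Y S l = SW X' Y' S l := by
    ext m
    simp only [mem_SW]
    exact ⟨fun h => ⟨h.1, (h1 m h.1 l hl).1 h.2⟩, fun h => ⟨h.1, (h1 m h.1 l hl).2 h.2⟩⟩
  rw [Phi_lt, Phi_lt, ← e, op_congr c (hX.mono (SW_sub X Y S l))
    (fun a ha b hb => h0 a (SW_sub X Y S l ha) b (SW_sub X Y S l hb))]

/-- Naturality under relabelling. -/
theorem rl_Phi {L' K' : Type} [LinearOrder K'] {X Y : L → K} {X' Y' : L' → K'} (σ : L → L')
    (c : C) {S : Finset L} {S' : Finset L'} (hX : Set.InjOn X S)
    (hx : ∀ a b, X a < X b ↔ X' (σ a) < X' (σ b)) (hy : ∀ a b, Y a < Y b ↔ Y' (σ a) < Y' (σ b))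
    (hS : ∀ l', l' ∈ S' ↔ ∃ l ∈ S, σ l = l') (g : W L C) :
    rl σ (Phi X Y c S g) = Phi X' Y' c S' (rl σ g) := by
  have : (rl σ).comp (Phi X Y c S) = (Phi X' Y' c S').comp (rl σ) := by
    refine W_ext (fun l x => ?_)
    have e : rl σ (op X c (SW X Y S l)) = op X' c (SW X' Y' S' (σ l)) := by
      refine rl_op σ c (hX.mono (SW_sub X Y S l)) (fun a _ b _ h => (hx a b).1 h) (fun l' => ?_)
      simp only [mem_SW, hS]
      constructor
      · rintro ⟨⟨m, hm, rfl⟩, h1, h2⟩
        exact ⟨m, ⟨hm, (hx m l).2 h1, (hy m l).2 h2⟩, rfl⟩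
      · rintro ⟨m, ⟨hm, h1, h2⟩, rfl⟩
        exact ⟨⟨m, hm, rfl⟩, (hx m l).1 h1, (hy m l).1 h2⟩
    rw [MonoidHom.comp_apply, MonoidHom.comp_apply, Phi_lt, map_mul, map_mul, map_inv, map_inv,
      e, rl_lt, Phi_lt]
  exact DFunLike.congr_fun this g

end ops

end Pool.Agent.E5f

end

section

/-!
Transitions between two orders in one direction: adjacent swaps, bubble sort, dependence on the
transverse order.
-/

set_option autoImplicit false

namespace Pool.Agent.E5f

variable {L C K : Type} [CommGroup C] [LinearOrder K]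

/-- The transition from the basis of the order `X` to the basis of the order `X'`, the transverse
order being `Y`. -/
noncomputable def Tr (X X' Y : L → K) (c : C) (S : Finset L) : W L C →* W L C :=
  (Phi X' Y c S).comp (Phi Y X c S)

theorem Tr_apply (X X' Y : L → K) (c : C) (S : Finset L) (g : W L C) :
    Tr X X' Y c S g = Phi X' Y c S (Phi Y X c S g) := rfl

theorem Tr_self {X Y : L → K} (c : C) {S : Finset L} (hX : Set.InjOn X S) (hY : Set.InjOn Y S)
    (g : W L C) : Tr X X Y c S g = g := Phi_Phi c hY hX g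

theorem Tr_Tr {X X' X'' Y : L → K} (c : C) {S : Finset L} (hX : Set.InjOn X' S)
    (hY : Set.InjOn Y S) (g : W L C) : Tr X' X'' Y c S (Tr X X' Y c S g) = Tr X X'' Y c S g := by
  rw [Tr_apply, Tr_apply, Phi_Phi c hX hY, Tr_apply]

theorem sup_Tr (X X' Y : L → K) (c : C) {S : Finset L} {T : Set L} (hS : ∀ l ∈ S, l ∈ T)
    {g : W L C} (hg : Sup T g) : Sup T (Tr X X' Y c S g) :=
  sup_Phi X' Y c hS (sup_Phi Y X c hS hg)

theorem expo_Tr (X X' Y : L → K) (c : C) (S : Finset L) (l : L) (g : W L C) :
    expo l (Tr X X' Y c S g) = expo l g := by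
  rw [Tr_apply, expo_Phi, expo_Phi, inv_inv]

theorem ret_Tr {X X' Y : L → K} (c : C) {S T : Finset L} (hX : Set.InjOn X' S)
    (hY : Set.InjOn Y S) (hT : T ⊆ S) (g : W L C) :
    ret (T : Set L) (Tr X X' Y c S g) = Tr X X' Y c T (ret (T : Set L) g) := by
  rw [Tr_apply, ret_Phi c hX hT, ret_Phi c hY hT, Tr_apply]

/-- An ordered product over a set which is a lower part for both orders is carried to the ordered
product for the new order. -/
theorem Tr_op {X X' Y : L → K} (c : C) {S : Finset L} (hX : Set.InjOn X S) (hX' : Set.InjOn X' S)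
    (hY : Set.InjOn Y S) {D : Finset L} (h : LowerIn X Y S D) (h' : LowerIn X' Y S D) :
    Tr X X' Y c S (op X c D) = op X' c D := by
  rw [Tr_apply, Phi_op c hY hX h.symm, map_inv, Phi_op c hX' hY h', inv_inv]

theorem Tr_lt {X X' Y : L → K} (c : C) {S : Finset L} (hX' : Set.InjOn X' S)
    (hY : Set.InjOn Y S) (l : L) (x : C) (h : LowerIn X' Y S (SW X Y S l)) :
    Tr X X' Y c S (lt l x) = (op X' c (SW X Y S l))⁻¹ * op X' c (SW X' Y S l) * lt l x *
      ((op X' c (SW X Y S l))⁻¹ * op X' c (SW X' Y S l))⁻¹ := by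
  rw [Tr_apply, Phi_lt, SW_comm Y X, map_mul, map_mul, map_inv, map_inv, Phi_op c hX' hY h,
    Phi_lt]
  group

/-- The transition is trivial when the two orders agree. -/
theorem Tr_same {X X' Y : L → K} (c : C) {S : Finset L} (hX' : Set.InjOn X' S)
    (hY : Set.InjOn Y S) (h : ∀ a ∈ S, ∀ b ∈ S, X a < X b ↔ X' a < X' b) {g : W L C}
    (hg : Sup (S : Set L) g) : Tr X X' Y c S g = g := by
  refine W_ext_sup (f' := MonoidHom.id _) (fun l hl x => ?_) hg
  have e : SW X Y S l = SW X' Y S l := by
    ext m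
    simp only [mem_SW]
    exact ⟨fun h1 => ⟨h1.1, (h m h1.1 l hl).1 h1.2.1, h1.2.2⟩,
      fun h1 => ⟨h1.1, (h m h1.1 l hl).2 h1.2.1, h1.2.2⟩⟩
  rw [Tr_lt c hX' hY l x (e ▸ lowerIn_SW X' Y S l), e]
  simp

/-- The orders `X` and `X'` agree on `S` except for the pair `a`, `b`. -/
def AgreeOff (X X' : L → K) (S : Finset L) (a b : L) : Prop :=
  ∀ m ∈ S, ∀ l ∈ S, ¬ (m = a ∧ l = b) → ¬ (m = b ∧ l = a) → (X m < X l ↔ X' m < X' l)

theorem AgreeOff.symm {X X' : L → K} {S : Finset L} {a b : L} (h : AgreeOff X X' S a b) :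
    AgreeOff X' X S a b := fun m hm l hl h1 h2 => (h m hm l hl h1 h2).symm

theorem AgreeOff.swap {X X' : L → K} {S : Finset L} {a b : L} (h : AgreeOff X X' S a b) :
    AgreeOff X X' S b a := fun m hm l hl h1 h2 => h m hm l hl h2 h1

theorem wtr_other {X X' Y : L → K} (c : C) {S : Finset L} (hX' : Set.InjOn X' S)
    (hY : Set.InjOn Y S) {a b : L} (hab : Y a < Y b) (h : AgreeOff X X' S a b) {l : L}
    (hl : l ∈ S) (hb : l ≠ b) (x : C) : Tr X X' Y c S (lt l x) = lt l x := by
  have e : SW X Y S l = SW X' Y S l := by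
    ext m
    simp only [mem_SW]
    have key : m ∈ S → Y m < Y l → (X m < X l ↔ X' m < X' l) := fun hm hy =>
      h m hm l hl (fun h1 => hb h1.2) (fun h1 => by
        rw [h1.1, h1.2] at hy
        exact lt_asymm hy hab)
    exact ⟨fun h1 => ⟨h1.1, (key h1.1 h1.2.2).1 h1.2.1, h1.2.2⟩,
      fun h1 => ⟨h1.1, (key h1.1 h1.2.2).2 h1.2.1, h1.2.2⟩⟩
  rw [Tr_lt c hX' hY l x (e ▸ lowerIn_SW X' Y S l), e]
  simp

/-- Adjacent swap, the upper label `b` moves to the right over the lower label `a`. -/
theorem Tr_swap_right {X X' Y : L → K} (c : C) {S : Finset L} (hX' : Set.InjOn X' S)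
    (hY : Set.InjOn Y S) {a b : L} (ha : a ∈ S) (hb : b ∈ S) (hab : Y a < Y b)
    (h : AgreeOff X X' S a b) (h1 : X b < X a) (h2 : X' a < X' b) {g : W L C}
    (hg : Sup (S : Set L) g) : Tr X X' Y c S g = sw a b c g := by
  classical
  refine W_ext_sup (fun l hl x => ?_) hg
  rw [sw_lt]
  split_ifs with hlb
  · subst hlb
    have hlt : ∀ m ∈ SW X Y S l, X' m < X' a := by
      intro m hm
      obtain ⟨m1, m2, m3⟩ := mem_SW.1 hm
      have hml : m ≠ l := fun e => by rw [e] at m2; exact lt_irrefl _ m2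
      exact (h m m1 a ha (fun e => by rw [e.2] at hab; exact lt_irrefl _ hab)
        (fun e => hml e.1)).1 (m2.trans h1)
    have hD : ∀ m, m ∈ SW X' Y S l ↔ m ∈ SW X Y S l ∨ m = a := by
      intro m
      simp only [mem_SW]
      constructor
      · intro hm
        by_cases e : m = a
        · exact Or.inr e
        · exact Or.inl ⟨hm.1, (h m hm.1 l hb (fun e' => e e'.1)
            (fun e' => by rw [e'.1] at hm; exact lt_irrefl _ hm.2.1)).2 hm.2.1, hm.2.2⟩
      · rintro (hm | rfl)
        · exact ⟨hm.1, (hlt m (mem_SW.2 hm)).trans h2, hm.2.2⟩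
        · exact ⟨ha, h2, hab⟩
    have hlow : LowerIn X' Y S (SW X Y S l) := by
      refine ⟨SW_sub X Y S l, fun m hm n hn k1 k2 => ?_⟩
      rcases (hD m).1 ((lowerIn_SW X' Y S l).2 m hm n ((hD n).2 (Or.inl hn)) k1 k2) with e | e
      · exact e
      · subst e
        exact absurd (k1.trans (hlt n hn)) (lt_irrefl _)
    rw [Tr_lt c hX' hY l x hlow, op_max c (hX'.mono (SW_sub X' Y S l)) hD hlt]
    group
  · exact wtr_other c hX' hY hab h hl hlb x

theorem sw_sw (a b : L) (hab : a ≠ b) (x y : C) (g : W L C) :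
    sw a b x (sw a b y g) = sw a b (x * y) g := by
  classical
  have : (sw a b x).comp (sw a b y) = (sw a b (x * y) : W L C →* W L C) := by
    refine W_ext (fun l z => ?_)
    rw [MonoidHom.comp_apply, sw_lt, sw_lt]
    split_ifs with h
    · simp only [map_mul, map_inv, sw_lt, if_neg hab, if_true, mul_comm x y, lt_mul]
      group
    · rw [sw_lt, if_neg h]
  exact DFunLike.congr_fun this g

theorem sw_one (a b : L) (g : W L C) : sw a b (1 : C) g = g := by
  classical
  have : sw a b (1 : C) = MonoidHom.id (W L C) := by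
    refine W_ext (fun l z => ?_)
    rw [sw_lt]
    split_ifs with h
    · subst h; simp
    · rfl
  rw [this]; rfl

/-- Adjacent swap, the upper label `b` moves to the left over the lower label `a`. -/
theorem Tr_swap_left {X X' Y : L → K} (c : C) {S : Finset L} (hX : Set.InjOn X S)
    (hX' : Set.InjOn X' S) (hY : Set.InjOn Y S) {a b : L} (ha : a ∈ S) (hb : b ∈ S)
    (hab : Y a < Y b) (h : AgreeOff X X' S a b) (h1 : X a < X b) (h2 : X' b < X' a) {g : W L C}
    (hg : Sup (S : Set L) g) : Tr X X' Y c S g = sw a b c⁻¹ g := by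
  have hne : a ≠ b := fun e => by rw [e] at hab; exact lt_irrefl _ hab
  have e1 := Tr_swap_right c hX hY ha hb hab h.symm h2 h1
    (sup_Tr X X' Y c (fun l hl => hl) hg)
  rw [Tr_Tr c hX' hY, Tr_self c hX hY] at e1
  conv_rhs => rw [e1]
  rw [sw_sw a b hne, inv_mul_cancel, sw_one]

open Classical in
theorem agreeOff_swap {X : L → K} {S : Finset L} (hX : Set.InjOn X S) {a b : L} (ha : a ∈ S)
    (hb : b ∈ S) (hab : X a < X b) (hadj : ∀ m ∈ S, X a < X m → X m < X b → False) :
    AgreeOff X (X ∘ Equiv.swap a b) S a b := by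
  have k1 : ∀ m ∈ S, m ≠ a → m ≠ b → (X m < X a ∧ X m < X b) ∨ (X a < X m ∧ X b < X m) := by
    intro m hm h1 h2
    rcases lt_trichotomy (X m) (X a) with h | h | h
    · exact Or.inl ⟨h, h.trans hab⟩
    · exact absurd (hX hm ha h) h1
    · rcases lt_trichotomy (X m) (X b) with h' | h' | h'
      · exact (hadj m hm h h').elim
      · exact absurd (hX hm hb h') h2
      · exact Or.inr ⟨h, h'⟩
  intro m hm l hl h1 h2
  simp only [Function.comp_apply]
  by_cases ma : m = a
  · subst ma
    rw [Equiv.swap_apply_left]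
    by_cases la : l = m
    · subst la; simp
    · have lb : l ≠ b := fun e => h1 ⟨rfl, e⟩
      rw [Equiv.swap_apply_of_ne_of_ne la lb]
      rcases k1 l hl la lb with k | k
      · exact iff_of_false (lt_asymm k.1) (lt_asymm k.2)
      · exact iff_of_true k.1 k.2
  by_cases mb : m = b
  · subst mb
    rw [Equiv.swap_apply_right]
    by_cases lb : l = m
    · subst lb; simp
    · have la : l ≠ a := fun e => h2 ⟨rfl, e⟩
      rw [Equiv.swap_apply_of_ne_of_ne la lb]
      rcases k1 l hl la lb with k | k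
      · exact iff_of_false (lt_asymm k.2) (lt_asymm k.1)
      · exact iff_of_true k.2 k.1
  rw [Equiv.swap_apply_of_ne_of_ne ma mb]
  by_cases la : l = a
  · subst la
    rw [Equiv.swap_apply_left]
    rcases k1 m hm ma mb with k | k
    · exact iff_of_true k.1 k.2
    · exact iff_of_false (lt_asymm k.1) (lt_asymm k.2)
  by_cases lb : l = b
  · subst lb
    rw [Equiv.swap_apply_right]
    rcases k1 m hm ma mb with k | k
    · exact iff_of_true k.2 k.1
    · exact iff_of_false (lt_asymm k.2) (lt_asymm k.1)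
  rw [Equiv.swap_apply_of_ne_of_ne la lb]

omit [LinearOrder K] in
open Classical in
theorem injOn_swap {X : L → K} {S : Finset L} (hX : Set.InjOn X S) {a b : L} (ha : a ∈ S)
    (hb : b ∈ S) : Set.InjOn (X ∘ Equiv.swap a b) S := by
  have hm : ∀ m ∈ S, Equiv.swap a b m ∈ S := by
    intro m hm
    rw [Equiv.swap_apply_def]
    split_ifs <;> assumption
  intro m h1 l h2 e
  exact (Equiv.swap a b).injective (hX (hm m h1) (hm l h2) e)

theorem exists_adjacent {K' : Type} [LinearOrder K'] {X : L → K} {X1 : L → K'} {S : Finset L}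
    (hX1 : Set.InjOn X1 S) (h : ∃ a ∈ S, ∃ b ∈ S, X a < X b ∧ X1 b < X1 a) :
    ∃ a ∈ S, ∃ b ∈ S, X a < X b ∧ X1 b < X1 a ∧ ∀ m ∈ S, X a < X m → X m < X b → False := by
  classical
  have key : ∀ n : ℕ, ∀ a ∈ S, ∀ b ∈ S, X a < X b → X1 b < X1 a →
      (S.filter (fun m => X a < X m ∧ X m < X b)).card ≤ n →
      ∃ a ∈ S, ∃ b ∈ S, X a < X b ∧ X1 b < X1 a ∧ ∀ m ∈ S, X a < X m → X m < X b → False := by
    intro n
    induction n with
    | zero =>
      intro a ha b hb h1 h2 hc
      refine ⟨a, ha, b, hb, h1, h2, fun m hm k1 k2 => ?_⟩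
      have := Finset.card_pos.2 ⟨m, (Finset.mem_filter (p := fun m => X a < X m ∧ X m < X b)).2
        ⟨hm, k1, k2⟩⟩
      omega
    | succ n ih =>
      intro a ha b hb h1 h2 hc
      by_cases hex : ∃ m ∈ S, X a < X m ∧ X m < X b
      · obtain ⟨m, hm, k1, k2⟩ := hex
        have hmem : m ∈ S.filter (fun m => X a < X m ∧ X m < X b) :=
          Finset.mem_filter.2 ⟨hm, k1, k2⟩
        rcases lt_trichotomy (X1 m) (X1 a) with k | k | k
        · refine ih a ha m hm k1 k (Nat.lt_succ_iff.1 (lt_of_lt_of_le (Finset.card_lt_card ?_) hc))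
          refine ⟨fun x hx => ?_, fun hs => ?_⟩
          · rw [Finset.mem_filter] at hx ⊢
            exact ⟨hx.1, hx.2.1, hx.2.2.trans k2⟩
          · exact lt_irrefl _ (Finset.mem_filter.1 (hs hmem)).2.2
        · rw [hX1 hm ha k] at k1
          exact absurd k1 (lt_irrefl _)
        · refine ih m hm b hb k2 (h2.trans k)
            (Nat.lt_succ_iff.1 (lt_of_lt_of_le (Finset.card_lt_card ?_) hc))
          refine ⟨fun x hx => ?_, fun hs => ?_⟩
          · rw [Finset.mem_filter] at hx ⊢
            exact ⟨hx.1, k1.trans hx.2.1, hx.2.2⟩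
          · exact lt_irrefl _ (Finset.mem_filter.1 (hs hmem)).2.1
      · exact ⟨a, ha, b, hb, h1, h2, fun m hm k1 k2 => hex ⟨m, hm, k1, k2⟩⟩
  obtain ⟨a, ha, b, hb, h1, h2⟩ := h
  exact key _ a ha b hb h1 h2 le_rfl

/-- Bubble sort towards the order `X1`. -/
theorem bubble {K' : Type} [LinearOrder K'] {S : Finset L} {X1 : L → K'} (hX1 : Set.InjOn X1 S)
    {P : (L → K) → Prop}
    (h0 : ∀ X : L → K, Set.InjOn X S → (∀ a ∈ S, ∀ b ∈ S, X a < X b ↔ X1 a < X1 b) → P X)
    (hs : ∀ X X' : L → K, Set.InjOn X S → Set.InjOn X' S → ∀ a ∈ S, ∀ b ∈ S, X a < X b →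
      X' b < X' a → X1 b < X1 a → AgreeOff X X' S a b → P X' → P X)
    (X : L → K) (hX : Set.InjOn X S) : P X := by
  classical
  have key : ∀ n : ℕ, ∀ X : L → K, Set.InjOn X S →
      ((S ×ˢ S).filter (fun e => X e.1 < X e.2 ∧ X1 e.2 < X1 e.1)).card ≤ n → P X := by
    intro n
    induction n using Nat.strong_induction_on with
    | _ n ih =>
      intro X hX hc
      by_cases hex : ∃ a ∈ S, ∃ b ∈ S, X a < X b ∧ X1 b < X1 a
      · obtain ⟨a, ha, b, hb, h1, h2, hadj⟩ := exists_adjacent hX1 hex
        have hag := agreeOff_swap hX ha hb h1 hadj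
        have h3 : (X ∘ Equiv.swap a b) b < (X ∘ Equiv.swap a b) a := by simpa using h1
        refine hs X (X ∘ Equiv.swap a b) hX (injOn_swap hX ha hb) a ha b hb h1 h3 h2 hag ?_
        refine ih _ (lt_of_lt_of_le (Finset.card_lt_card ?_) hc) _ (injOn_swap hX ha hb) le_rfl
        refine ⟨fun e he => ?_, fun hsub => ?_⟩
        · rw [Finset.mem_filter, Finset.mem_product] at he ⊢
          refine ⟨he.1, (hag e.1 he.1.1 e.2 he.1.2 (fun k => ?_) (fun k => ?_)).2 he.2.1, he.2.2⟩
          · rw [k.1, k.2] at he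
            exact lt_asymm he.2.1 h3
          · rw [k.1, k.2] at he
            exact lt_asymm he.2.2 h2
        · have : (a, b) ∈ (S ×ˢ S).filter (fun e => X e.1 < X e.2 ∧ X1 e.2 < X1 e.1) :=
            Finset.mem_filter.2 ⟨Finset.mem_product.2 ⟨ha, hb⟩, h1, h2⟩
          exact lt_asymm (Finset.mem_filter.1 (hsub this)).2.1 h3
      · refine h0 X hX (fun a ha b hb => ⟨fun h => ?_, fun h => ?_⟩)
        · rcases lt_trichotomy (X1 a) (X1 b) with k | k | k
          · exact k
          · rw [hX1 ha hb k] at h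
            exact absurd h (lt_irrefl _)
          · exact absurd ⟨a, ha, b, hb, h, k⟩ hex
        · rcases lt_trichotomy (X a) (X b) with k | k | k
          · exact k
          · rw [hX ha hb k] at h
            exact absurd h (lt_irrefl _)
          · exact absurd ⟨b, hb, a, ha, k, h⟩ hex
  exact key _ X hX le_rfl

/-- The transition depends only on the transverse order of the inverted pairs. -/
theorem Tr_congr {X X1 Y Y' : L → K} (c : C) {S : Finset L} (hX : Set.InjOn X S)
    (hX1 : Set.InjOn X1 S) (hY : Set.InjOn Y S) (hY' : Set.InjOn Y' S)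
    (h : ∀ a ∈ S, ∀ b ∈ S, X a < X b → X1 b < X1 a → (Y a < Y b ↔ Y' a < Y' b)) {g : W L C}
    (hg : Sup (S : Set L) g) : Tr X X1 Y c S g = Tr X X1 Y' c S g := by
  revert g h
  refine bubble hX1 (P := fun X => (∀ a ∈ S, ∀ b ∈ S, X a < X b → X1 b < X1 a →
      (Y a < Y b ↔ Y' a < Y' b)) → ∀ {g : W L C}, Sup (S : Set L) g →
      Tr X X1 Y c S g = Tr X X1 Y' c S g) ?_ ?_ X hX
  · intro X _ hag _ g hg
    rw [Tr_same c hX1 hY hag hg, Tr_same c hX1 hY' hag hg]
  · intro X X' hX hX' a ha b hb h1 h2 h3 hag ih h g hg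
    have hne : a ≠ b := fun e => by rw [e] at h1; exact lt_irrefl _ h1
    have hyy := h a ha b hb h1 h3
    have e : Tr X X' Y c S g = Tr X X' Y' c S g := by
      rcases lt_trichotomy (Y a) (Y b) with k | k | k
      · rw [Tr_swap_left c hX hX' hY ha hb k hag h1 h2 hg,
          Tr_swap_left c hX hX' hY' ha hb (hyy.1 k) hag h1 h2 hg]
      · exact absurd (hY ha hb k) hne
      · have k' : Y' b < Y' a := by
          rcases lt_trichotomy (Y' a) (Y' b) with k2 | k2 | k2
          · exact absurd (hyy.2 k2) (lt_asymm k)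
          · exact absurd (hY' ha hb k2) hne
          · exact k2
        rw [Tr_swap_right c hX' hY hb ha k hag.swap h1 h2 hg,
          Tr_swap_right c hX' hY' hb ha k' hag.swap h1 h2 hg]
    rw [← Tr_Tr (X' := X') c hX' hY, ← Tr_Tr (X' := X') (Y := Y') c hX' hY', ← e]
    refine ih (fun m hm l hl k1 k2 => h m hm l hl ?_ k2) (sup_Tr X X' Y c (fun l hl => hl) hg)
    refine (hag m hm l hl (fun k => ?_) (fun k => ?_)).2 k1
    · rw [k.1, k.2] at k1
      exact lt_asymm k1 h2
    · rw [k.1, k.2] at k2
      exact lt_asymm k2 h3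

/-- The transition depends only on the orders. -/
theorem Tr_congr_ord {K' : Type} [LinearOrder K'] {X X' Y : L → K} {Z Z' V : L → K'} (c : C)
    {S : Finset L} (hX' : Set.InjOn X' S) (hY : Set.InjOn Y S)
    (h1 : ∀ a ∈ S, ∀ b ∈ S, X a < X b ↔ Z a < Z b)
    (h2 : ∀ a ∈ S, ∀ b ∈ S, X' a < X' b ↔ Z' a < Z' b)
    (h3 : ∀ a ∈ S, ∀ b ∈ S, Y a < Y b ↔ V a < V b) {g : W L C} (hg : Sup (S : Set L) g) :
    Tr X X' Y c S g = Tr Z Z' V c S g := by
  rw [Tr_apply, Tr_apply, Phi_congr (X' := V) (Y' := Z) c hY (fun a ha b hb => (h3 a ha b hb).1)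
    (fun a ha b hb => and_congr (h3 a ha b hb) (h1 a ha b hb)) hg]
  exact Phi_congr c hX' (fun a ha b hb => (h2 a ha b hb).1)
    (fun a ha b hb => and_congr (h2 a ha b hb) (h3 a ha b hb)) (sup_Phi V Z c (fun l hl => hl) hg)

theorem rl_Tr {L' K' : Type} [LinearOrder K'] {X X1 Y : L → K} {X' X1' Y' : L' → K'} (σ : L → L')
    (c : C) {S : Finset L} {S' : Finset L'} (hX1 : Set.InjOn X1 S) (hY : Set.InjOn Y S)
    (hx : ∀ a b, X a < X b ↔ X' (σ a) < X' (σ b))
    (hx1 : ∀ a b, X1 a < X1 b ↔ X1' (σ a) < X1' (σ b))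
    (hy : ∀ a b, Y a < Y b ↔ Y' (σ a) < Y' (σ b))
    (hS : ∀ l', l' ∈ S' ↔ ∃ l ∈ S, σ l = l') (g : W L C) :
    rl σ (Tr X X1 Y c S g) = Tr X' X1' Y' c S' (rl σ g) := by
  rw [Tr_apply, Tr_apply, rl_Phi σ c hX1 hx1 hy hS, rl_Phi σ c hY hy hx hS]

end Pool.Agent.E5f

end
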