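import Pool.Agent.Mg.S03381.G596352

/-!
The tree of lines: total variation along reduced words is a `0`-hyperbolic pseudo-metric.
-/

set_option autoImplicit false

namespace Pool.Agent.E5f

section var

@[simp] theorem Var_nil : Var [] = 0 := rfl

@[simp] theorem Var_single (a : ℝ) : Var [a] = 0 := rfl

theorem Var_cons2 (a b : ℝ) (l : List ℝ) : Var (a :: b :: l) = |b - a| + Var (b :: l) := rfl

theorem Var_nonneg : ∀ l : List ℝ, 0 ≤ Var l
  | [] => le_rfl
  | [_] => le_rfl
  | a :: b :: l => by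
    rw [Var_cons2]
    exact add_nonneg (abs_nonneg _) (Var_nonneg (b :: l))

theorem Var_split : ∀ (l : List ℝ) (a : ℝ) (l' : List ℝ),
    Var (l ++ a :: l') = Var (l ++ [a]) + Var (a :: l')
  | [], a, l' => by simp
  | [x], a, l' => by simp [Var_cons2]
  | x :: y :: l, a, l' => by
    have := Var_split (y :: l) a l'
    simp only [List.cons_append] at this ⊢
    rw [Var_cons2, Var_cons2, this]; ring

/-- Changing the first entry. -/
theorem Var_cons_le (a x : ℝ) (l : List ℝ) : Var (a :: l) ≤ |x - a| + Var (x :: l) := by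
  cases l with
  | nil => simp
  | cons b l =>
    rw [Var_cons2, Var_cons2]
    have := abs_sub_le b x a
    linarith

theorem abs_le_Var : ∀ (a : ℝ) (l : List ℝ) (b : ℝ), |b - a| ≤ Var (a :: l ++ [b])
  | a, [], b => by simp [Var_cons2]
  | a, x :: l, b => by
    have := abs_le_Var x l b
    simp only [List.cons_append] at this ⊢
    rw [Var_cons2]
    have := abs_sub_le b x a
    linarith

theorem Var_insert (l : List ℝ) (a x : ℝ) (l' : List ℝ) :
    Var (l ++ a :: l') ≤ Var (l ++ a :: x :: l') := by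
  rw [Var_split l a l', Var_split l a (x :: l'), Var_cons2]
  have := Var_cons_le a x l'
  linarith

theorem Var_reverse : ∀ l : List ℝ, Var l.reverse = Var l
  | [] => rfl
  | [_] => rfl
  | a :: b :: l => by
    have h := Var_reverse (b :: l)
    rw [List.reverse_cons] at h
    rw [List.reverse_cons, List.reverse_cons, List.append_assoc, List.singleton_append,
      Var_split, h, Var_cons2, Var_cons2, abs_sub_comm]
    simp only [Var_single]; ring

/-- Every entry is within the total variation of the first entry. -/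
theorem abs_le_Var_mem (a : ℝ) (l : List ℝ) {x : ℝ} (hx : x ∈ l) : |x - a| ≤ Var (a :: l) := by
  obtain ⟨s, t, rfl⟩ := List.append_of_mem hx
  have h := Var_split (a :: s) x t
  have h2 := abs_le_Var a s x
  have h3 := Var_nonneg (x :: t)
  simp only [List.cons_append] at h h2 ⊢
  linarith

/-- Additivity of the variation for comonotone data. -/
theorem Var_add {E : Type} (f f' : E → ℝ) : ∀ (l : List E),
    (∀ p ∈ l, ∀ q ∈ l, 0 ≤ (f p - f q) * (f' p - f' q)) →
    Var (l.map (fun e => f e + f' e)) = Var (l.map f) + Var (l.map f')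
  | [], _ => by simp
  | [_], _ => by simp
  | a :: b :: l, h => by
    have ih := Var_add f f' (b :: l) (fun p hp q hq =>
      h p (List.mem_cons_of_mem _ hp) q (List.mem_cons_of_mem _ hq))
    simp only [List.map_cons] at ih ⊢
    rw [Var_cons2, Var_cons2, Var_cons2, ih]
    have h1 := h b (by simp) a (by simp)
    have : |f b + f' b - (f a + f' a)| = |f b - f a| + |f' b - f' a| := by
      rw [show f b + f' b - (f a + f' a) = (f b - f a) + (f' b - f' a) by ring]
      exact (abs_add_eq_add_abs_iff _ _).2 (by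
        rcases mul_nonneg_iff.1 h1 with h2 | h2
        · exact Or.inl h2
        · exact Or.inr h2)
    rw [this]; ring

theorem Var_const (a : ℝ) : ∀ (l : List ℝ), (∀ x ∈ l, x = a) → Var l = 0
  | [], _ => rfl
  | [_], _ => rfl
  | x :: y :: l, h => by
    rw [Var_cons2, Var_const a (y :: l) (fun z hz => h z (List.mem_cons_of_mem _ hz)),
      h x (by simp), h y (by simp)]
    simp

end var

section words
variable {L C : Type} [CommGroup C]

theorem Red.tail {e : L × C} {w : List (L × C)} (h : Red (e :: w)) : Red w :=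
  ⟨fun x hx => h.1 x (List.mem_cons_of_mem _ hx), h.2.tail⟩

theorem Red.cons {e : L × C} {w : List (L × C)} (h : Red w) (he : e.2 ≠ 1)
    (hh : ∀ e' ∈ w.head?, e.1 ≠ e'.1) : Red (e :: w) := by
  refine ⟨?_, ?_⟩
  · intro x hx
    rcases List.mem_cons.1 hx with rfl | hx
    · exact he
    · exact h.1 x hx
  · exact List.IsChain.cons h.2 hh

theorem Red.append {w w' : List (L × C)} (h : Red w) (h' : Red w')
    (hh : ∀ e ∈ w.getLast?, ∀ e' ∈ w'.head?, e.1 ≠ e'.1) : Red (w ++ w') := by
  refine ⟨?_, List.IsChain.append h.2 h'.2 hh⟩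
  intro x hx
  rcases List.mem_append.1 hx with hx | hx
  · exact h.1 x hx
  · exact h'.1 x hx

theorem Red.left {w w' : List (L × C)} (h : Red (w ++ w')) : Red w :=
  ⟨fun x hx => h.1 x (List.mem_append_left _ hx), h.2.left_of_append⟩

theorem Red.right {w w' : List (L × C)} (h : Red (w ++ w')) : Red w' :=
  ⟨fun x hx => h.1 x (List.mem_append_right _ hx), h.2.right_of_append⟩

/-- The inverse word. -/
def winv (w : List (L × C)) : List (L × C) := (w.map (fun e => (e.1, e.2⁻¹))).reverse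

@[simp] theorem winv_nil : winv ([] : List (L × C)) = [] := rfl

theorem winv_cons (e : L × C) (w : List (L × C)) : winv (e :: w) = winv w ++ [(e.1, e.2⁻¹)] := by
  simp [winv]

theorem ev_winv : ∀ w : List (L × C), ev (winv w) = (ev w)⁻¹
  | [] => by simp
  | e :: w => by
    rw [winv_cons, ev_append, ev_winv w, ev_cons, ev_cons, ev_nil, mul_one, lt_inv, mul_inv_rev]

theorem Red.winv {w : List (L × C)} (h : Red w) : Red (winv w) := by
  refine ⟨?_, ?_⟩
  · intro e he
    simp only [E5f.winv, List.mem_reverse, List.mem_map] at he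
    obtain ⟨e', he', rfl⟩ := he
    simpa using h.1 e' he'
  · unfold E5f.winv
    rw [List.isChain_reverse, List.isChain_map]
    exact h.2.imp (fun a b hab => hab.symm)

theorem map_fst_winv (w : List (L × C)) : (winv w).map Prod.fst = (w.map Prod.fst).reverse := by
  simp [winv, List.map_reverse, Function.comp_def]

theorem wd_inv (g : W L C) : wd g⁻¹ = winv (wd g) := by
  conv_lhs => rw [← ev_wd g, ← ev_winv]
  exact wd_ev (red_wd g).winv

theorem lab_inv (g : W L C) : lab g⁻¹ = (lab g).reverse := by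
  unfold lab; rw [wd_inv, map_fst_winv]

theorem lab_ev {w : List (L × C)} (h : Red w) : lab (ev w) = w.map Prod.fst := by
  unfold lab; rw [wd_ev h]

theorem wd_eq_nil {g : W L C} (h : wd g = []) : g = 1 := by
  rw [← ev_wd g, h, ev_nil]

/-- The reduced word after multiplying by a letter on the left. -/
theorem wd_lt_mul (l : L) (x : C) (g : W L C) :
    (x = 1 ∧ wd (lt l x * g) = wd g) ∨
    (x ≠ 1 ∧ (∀ e ∈ (wd g).head?, l ≠ e.1) ∧ wd (lt l x * g) = (l, x) :: wd g) ∨
    (∃ t, wd g = (l, x⁻¹) :: t ∧ wd (lt l x * g) = t) ∨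
    (∃ y t, wd g = (l, y) :: t ∧ x * y ≠ 1 ∧ wd (lt l x * g) = (l, x * y) :: t) := by
  by_cases hx : x = 1
  · left; subst hx; simp
  right
  have hr := red_wd g
  have he := ev_wd g
  by_cases hh : ∀ e ∈ (wd g).head?, l ≠ e.1
  · left
    refine ⟨hx, hh, ?_⟩
    have : lt l x * g = ev ((l, x) :: wd g) := by rw [ev_cons, he]
    rw [this]
    exact wd_ev (hr.cons hx hh)
  right
  push Not at hh
  obtain ⟨e, he1, he2⟩ := hh
  obtain ⟨t, ht⟩ : ∃ t, wd g = e :: t := by
    cases hw : wd g with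
    | nil => rw [hw] at he1; simp at he1
    | cons a t => rw [hw] at he1; simp at he1; exact ⟨t, by rw [he1]⟩
  obtain ⟨m, y⟩ := e
  simp only at he2
  subst he2
  rw [ht] at hr he
  have h1 : lt l x * g = lt l (x * y) * ev t := by
    rw [← he, ev_cons, lt_mul, mul_assoc]
  by_cases hxy : x * y = 1
  · left
    refine ⟨t, ?_, ?_⟩
    · rw [ht, eq_inv_of_mul_eq_one_right hxy]
    · rw [h1, hxy, lt_one, one_mul]; exact wd_ev hr.tail
  · right
    refine ⟨y, t, ht, hxy, ?_⟩
    rw [h1, show lt l (x * y) * ev t = ev ((l, x * y) :: t) from (ev_cons (l, x * y) t).symm]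
    refine wd_ev (hr.tail.cons hxy ?_)
    intro e' he'
    exact (List.isChain_cons.1 hr.2).1 e' he'

end words

section tree
variable {L C : Type} [CommGroup C]

/-- Distance in the tree of lines from the point `a` of the line `1` to the point `b` of the
line `g`. -/
noncomputable def dT (ρ : L → ℝ) (a : ℝ) (g : W L C) (b : ℝ) : ℝ :=
  Var (a :: (lab g).map ρ ++ [b])

theorem dT_nonneg (ρ : L → ℝ) (a : ℝ) (g : W L C) (b : ℝ) : 0 ≤ dT ρ a g b := Var_nonneg _

@[simp] theorem dT_one (ρ : L → ℝ) (a b : ℝ) : dT ρ a (1 : W L C) b = |b - a| := by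
  simp [dT, Var_cons2]

theorem abs_le_dT (ρ : L → ℝ) (a : ℝ) (g : W L C) (b : ℝ) : |b - a| ≤ dT ρ a g b :=
  abs_le_Var _ _ _

theorem dT_of_wd (ρ : L → ℝ) (a b : ℝ) {g : W L C} {e : L × C} {t : List (L × C)}
    (h : wd g = e :: t) : dT ρ a g b = |ρ e.1 - a| + dT ρ (ρ e.1) (ev t) b := by
  have hr := red_wd g
  rw [h] at hr
  unfold dT
  rw [lab_ev hr.tail]
  unfold lab
  rw [h]
  simp [Var_cons2]

theorem dT_lt (ρ : L → ℝ) (a b : ℝ) (l : L) {x : C} (hx : x ≠ 1) :
    dT ρ a (lt l x : W L C) b = |ρ l - a| + |b - ρ l| := by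
  rw [dT_of_wd ρ a b (wd_lt l hx)]; simp

theorem dT_le_left (ρ : L → ℝ) (a x : ℝ) (g : W L C) (b : ℝ) :
    dT ρ a g b ≤ |x - a| + dT ρ x g b := Var_cons_le _ _ _

theorem dT_lt_mul_le (ρ : L → ℝ) (a b : ℝ) (l : L) (x : C) (g : W L C) :
    dT ρ a (lt l x * g) b ≤ |ρ l - a| + dT ρ (ρ l) g b := by
  rcases wd_lt_mul l x g with ⟨rfl, -⟩ | ⟨-, -, h⟩ | ⟨t, h1, h2⟩ | ⟨y, t, h1, -, h2⟩
  · rw [lt_one, one_mul]; exact dT_le_left _ _ _ _ _
  · rw [dT_of_wd ρ a b h, ev_wd]
  · rw [dT_of_wd ρ _ b h1, ← ev_wd (lt l x * g), h2]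
    simpa using dT_le_left ρ a (ρ l) (ev t) b
  · rw [dT_of_wd ρ _ b h1, dT_of_wd ρ _ b h2]; simp

/-- The reduced word has the least variation. -/
theorem dT_ev_le (ρ : L → ℝ) : ∀ (w : List (L × C)) (a b : ℝ),
    dT ρ a (ev w) b ≤ Var (a :: w.map (fun e => ρ e.1) ++ [b])
  | [], a, b => by simp [Var_cons2]
  | e :: w, a, b => by
    have := dT_ev_le ρ w (ρ e.1) b
    have h2 := dT_lt_mul_le ρ a b e.1 e.2 (ev w)
    simp only [ev_cons, List.map_cons, List.cons_append, Var_cons2] at this h2 ⊢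
    linarith

theorem dT_wd (ρ : L → ℝ) (a b : ℝ) (g : W L C) :
    dT ρ a g b = Var (a :: (wd g).map (fun e => ρ e.1) ++ [b]) := by
  unfold dT lab; rw [List.map_map]; rfl

theorem dT_mul_le (ρ : L → ℝ) (a b c : ℝ) (g h : W L C) :
    dT ρ a (g * h) c ≤ dT ρ a g b + dT ρ b h c := by
  have h1 := dT_ev_le ρ (wd g ++ wd h) a c
  rw [ev_append, ev_wd, ev_wd] at h1
  rw [dT_wd ρ a b g, dT_wd ρ b c h]
  refine h1.trans ?_
  have h2 := Var_split (a :: (wd g).map (fun e => ρ e.1)) b ((wd h).map (fun e => ρ e.1) ++ [c])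
  simp only [List.cons_append] at h2 ⊢
  rw [← h2, List.map_append, List.append_assoc]
  rcases List.eq_nil_or_concat ((wd g).map (fun e => ρ e.1)) with h3 | ⟨s, x, h3⟩
  · rw [h3]; simpa using Var_insert [] a b ((wd h).map (fun e => ρ e.1) ++ [c])
  · rw [h3]; simpa using Var_insert (a :: s) x b ((wd h).map (fun e => ρ e.1) ++ [c])

theorem dT_symm (ρ : L → ℝ) (a b : ℝ) (g : W L C) : dT ρ b g⁻¹ a = dT ρ a g b := by
  unfold dT
  rw [← Var_reverse, lab_inv]
  simp [List.map_reverse]

/-- Splitting the distance at a letter of the reduced word. -/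
theorem dT_split (ρ : L → ℝ) (a b : ℝ) {s t : List (L × C)} {e : L × C}
    (h : Red (s ++ e :: t)) :
    dT ρ a (ev (s ++ e :: t)) b = dT ρ a (ev s) (ρ e.1) + dT ρ (ρ e.1) (ev t) b := by
  rw [dT_wd, dT_wd, dT_wd, wd_ev h, wd_ev h.left, wd_ev h.right.tail]
  have := Var_split (a :: s.map (fun e => ρ e.1)) (ρ e.1) (t.map (fun e => ρ e.1) ++ [b])
  simpa using this

theorem abs_le_dT_mem (ρ : L → ℝ) (a b : ℝ) (g : W L C) {l : L} (hl : l ∈ lab g) :
    |ρ l - a| ≤ dT ρ a g b :=
  abs_le_Var_mem a _ (List.mem_append_left _ (List.mem_map_of_mem hl))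

theorem dT_eq_zero {ρ : L → ℝ} {a b : ℝ} {g : W L C} :
    dT ρ a g b = 0 ↔ b = a ∧ ∀ l ∈ lab g, ρ l = a := by
  constructor
  · intro h
    refine ⟨?_, fun l hl => ?_⟩
    · have := abs_le_dT ρ a g b
      rw [h] at this
      exact sub_eq_zero.1 (abs_nonpos_iff.1 this)
    · have := abs_le_dT_mem ρ a b g hl
      rw [h] at this
      exact sub_eq_zero.1 (abs_nonpos_iff.1 this)
  · rintro ⟨rfl, h⟩
    refine Var_const b _ ?_
    intro x hx
    simp only [List.cons_append, List.mem_cons, List.mem_append, List.mem_map, List.not_mem_nil,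
      or_false] at hx
    rcases hx with rfl | ⟨l, hl, rfl⟩ | rfl
    · rfl
    · exact h l hl
    · rfl

theorem dT_congr {ρ ρ' : L → ℝ} (a b : ℝ) {g : W L C} (h : ∀ l ∈ lab g, ρ l = ρ' l) :
    dT ρ a g b = dT ρ' a g b := by
  unfold dT; rw [List.map_congr_left h]

/-- Additivity for comonotone positions. -/
theorem dT_add {E : Type} (f f' : E → ℝ) (k : L → E) (a b : E) (g : W L C)
    (h : ∀ p q, 0 ≤ (f p - f q) * (f' p - f' q)) :
    dT (fun l => f (k l) + f' (k l)) (f a + f' a) g (f b + f' b) =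
      dT (fun l => f (k l)) (f a) g (f b) + dT (fun l => f' (k l)) (f' a) g (f' b) := by
  have := Var_add f f' (a :: (lab g).map k ++ [b]) (fun p _ q _ => h p q)
  simpa [dT, List.map_map, Function.comp_def] using this

/-- The first entry after the start. -/
noncomputable def fe (ρ : L → ℝ) (w : List (L × C)) (b : ℝ) : ℝ :=
  match w with
  | [] => b
  | e :: _ => ρ e.1

theorem dT_fe (ρ : L → ℝ) (a a' b : ℝ) (g : W L C) :
    dT ρ a g b - |fe ρ (wd g) b - a| = dT ρ a' g b - |fe ρ (wd g) b - a'| := by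
  cases h : wd g with
  | nil => rw [wd_eq_nil h]; simp [fe]
  | cons e t => rw [dT_of_wd ρ a b h, dT_of_wd ρ a' b h]; simp [fe]

/-- The Gromov product at the point `a` of the line `1`. -/
noncomputable def gT (ρ : L → ℝ) (a : ℝ) (g : W L C) (b : ℝ) (h : W L C) (c : ℝ) : ℝ :=
  (dT ρ a g b + dT ρ a h c - dT ρ b (g⁻¹ * h) c) / 2

theorem gT_nonneg (ρ : L → ℝ) (a : ℝ) (g : W L C) (b : ℝ) (h : W L C) (c : ℝ) :
    0 ≤ gT ρ a g b h c := by
  have := dT_mul_le ρ b a c g⁻¹ h
  rw [dT_symm] at this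
  unfold gT; linarith

theorem gT_same (ρ : L → ℝ) (a b c : ℝ) {g h : W L C} {e : L × C} {t t' : List (L × C)}
    (hg : wd g = e :: t) (hh : wd h = e :: t') :
    gT ρ a g b h c = |ρ e.1 - a| + gT ρ (ρ e.1) (ev t) b (ev t') c := by
  have h1 : g⁻¹ * h = (ev t)⁻¹ * ev t' := by
    rw [← ev_wd g, ← ev_wd h, hg, hh, ev_cons, ev_cons]; group
  unfold gT
  rw [dT_of_wd ρ a b hg, dT_of_wd ρ a c hh, h1]; ring

theorem gT_diff (ρ : L → ℝ) (a b c : ℝ) {g h : W L C}
    (hd : ∀ e ∈ (wd g).head?, ∀ e' ∈ (wd h).head?, e ≠ e') :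
    gT ρ a g b h c = (|fe ρ (wd g) b - a| + |fe ρ (wd h) c - a| -
      |fe ρ (wd h) c - fe ρ (wd g) b|) / 2 := by
  unfold gT
  cases hg : wd g with
  | nil =>
    have := dT_fe ρ a b c h
    rw [wd_eq_nil hg]
    simp only [fe, dT_one, inv_one, one_mul] at this ⊢
    linarith
  | cons e t =>
    have hr := red_wd g
    rw [hg] at hr
    have hge : g = lt e.1 e.2 * ev t := by rw [← ev_cons, ← hg, ev_wd]
    cases hh : wd h with
    | nil =>
      have := dT_fe ρ a c b g
      rw [wd_eq_nil hh, mul_one, dT_symm]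
      rw [hg] at this
      simp only [fe, dT_one] at this ⊢
      rw [abs_sub_comm c (ρ e.1)]
      linarith
    | cons e' t' =>
      have hr' := red_wd h
      rw [hh] at hr'
      have hhe : h = lt e'.1 e'.2 * ev t' := by rw [← ev_cons, ← hh, ev_wd]
      have hne : e ≠ e' := hd e (by simp [hg]) e' (by simp [hh])
      rw [dT_of_wd ρ a b hg, dT_of_wd ρ a c hh]
      simp only [fe]
      have hl : ∀ (z : L × C), z.1 = e.1 → ∀ x ∈ (winv t).getLast?, ∀ y ∈ [z].head?, x.1 ≠ y.1 := by
        intro z hz x hx y hy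
        simp only [List.head?_cons, Option.mem_def, Option.some.injEq] at hy
        subst hy
        cases t with
        | nil => simp at hx
        | cons u t =>
          rw [winv_cons] at hx
          simp only [List.getLast?_append, List.getLast?_singleton, Option.some_or,
            Option.mem_def, Option.some.injEq] at hx
          subst hx
          rw [hz]
          exact ((List.isChain_cons.1 hr.2).1 u (by simp)).symm
      by_cases h1 : e.1 = e'.1
      · have h2 : e.2⁻¹ * e'.2 ≠ 1 := by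
          intro h3
          exact hne (Prod.ext h1 (inv_mul_eq_one.1 h3))
        have h3 : Red (winv t ++ (e.1, e.2⁻¹ * e'.2) :: t') := by
          refine hr.tail.winv.append (hr'.tail.cons h2 ?_) ?_
          · intro x hx
            rw [h1]
            exact (List.isChain_cons.1 hr'.2).1 x hx
          · exact hl (e.1, e.2⁻¹ * e'.2) rfl
        have h4 : g⁻¹ * h = ev (winv t ++ (e.1, e.2⁻¹ * e'.2) :: t') := by
          rw [ev_append, ev_winv, ev_cons, lt_mul, lt_inv, hge, hhe, ← h1]; group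
        rw [h4, dT_split ρ b c h3, ev_winv, dT_symm, ← h1]
        simp only [sub_self, abs_zero]
        ring
      · have h3 : Red (winv t ++ (e.1, e.2⁻¹) :: e' :: t') := by
          refine hr.tail.winv.append (hr'.cons (by simpa using hr.1 e (by simp)) ?_) ?_
          · intro x hx
            simp only [List.head?_cons, Option.mem_def, Option.some.injEq] at hx
            subst hx
            exact h1
          · exact hl (e.1, e.2⁻¹) rfl
        have h4 : g⁻¹ * h = ev (winv t ++ (e.1, e.2⁻¹) :: e' :: t') := by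
          rw [ev_append, ev_winv, ev_cons, ev_cons, lt_inv, hge, hhe]; group
        rw [h4, dT_split ρ b c h3, ev_winv, dT_symm, dT_of_wd ρ _ c (wd_ev hr')]
        ring

theorem real_ultra (a x y z : ℝ) :
    min ((|x - a| + |y - a| - |y - x|) / 2) ((|y - a| + |z - a| - |z - y|) / 2) ≤
      (|x - a| + |z - a| - |z - x|) / 2 := by
  rw [min_le_iff]
  rcases abs_cases (x - a) with h1 | h1 <;> rcases abs_cases (y - a) with h2 | h2 <;>
    rcases abs_cases (z - a) with h3 | h3 <;> rcases abs_cases (y - x) with h4 | h4 <;>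
    rcases abs_cases (z - y) with h5 | h5 <;> rcases abs_cases (z - x) with h6 | h6 <;>
    first
      | (left; linarith)
      | (right; linarith)

theorem gT_ultra (ρ : L → ℝ) (b c d : ℝ) : ∀ (n : ℕ) (a : ℝ) (g h k : W L C),
    (wd g).length = n → min (gT ρ a g b h c) (gT ρ a h c k d) ≤ gT ρ a g b k d := by
  intro n
  induction n using Nat.strong_induction_on with
  | _ n ih =>
  intro a g h k hn
  have key : ∀ {g h : W L C}, ¬ (∀ e ∈ (wd g).head?, ∀ e' ∈ (wd h).head?, e ≠ e') →
      ∃ e t t', wd g = e :: t ∧ wd h = e :: t' := by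
    intro g h hh
    push Not at hh
    obtain ⟨e, he, e', he', rfl⟩ := hh
    cases hg : wd g with
    | nil => rw [hg] at he; simp at he
    | cons x t =>
      cases hh : wd h with
      | nil => rw [hh] at he'; simp at he'
      | cons y t' =>
        rw [hg] at he; rw [hh] at he'
        simp only [List.head?_cons, Option.mem_def, Option.some.injEq] at he he'
        exact ⟨e, t, t', by rw [he], by rw [he']⟩
  by_cases hgk : ∀ e ∈ (wd g).head?, ∀ e' ∈ (wd k).head?, e ≠ e'
  · rw [gT_diff ρ a b d hgk]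
    by_cases hgh : ∀ e ∈ (wd g).head?, ∀ e' ∈ (wd h).head?, e ≠ e'
    · by_cases hhk : ∀ e ∈ (wd h).head?, ∀ e' ∈ (wd k).head?, e ≠ e'
      · rw [gT_diff ρ a b c hgh, gT_diff ρ a c d hhk]
        exact real_ultra _ _ _ _
      · obtain ⟨e, t, t', h1, h2⟩ := key hhk
        refine (min_le_left _ _).trans (le_of_eq ?_)
        rw [gT_diff ρ a b c hgh, h1, h2]; rfl
    · obtain ⟨e, t, t', h1, h2⟩ := key hgh
      refine (min_le_right _ _).trans (le_of_eq ?_)
      rw [gT_diff ρ a c d (by rw [h2]; rw [h1] at hgk; simpa using hgk), h1, h2]; rfl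
  · obtain ⟨e, t, t', h1, h2⟩ := key hgk
    by_cases hgh : ∀ e ∈ (wd g).head?, ∀ e' ∈ (wd h).head?, e ≠ e'
    · refine (min_le_left _ _).trans ?_
      rw [gT_diff ρ a b c hgh, gT_same ρ a b d h1 h2, h1]
      have := gT_nonneg ρ (ρ e.1) (ev t) b (ev t') d
      have h3 := abs_sub_le (fe ρ (wd h) c) (ρ e.1) a
      simp only [fe] at h3 ⊢
      linarith
    · obtain ⟨e', s, s', h3, h4⟩ := key hgh
      rw [h1] at h3
      obtain ⟨rfl, rfl⟩ := List.cons.inj h3
      rw [gT_same ρ a b d h1 h2, gT_same ρ a b c h1 h4, gT_same ρ a c d h4 h2, min_add_add_left]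
      have hr := red_wd g
      rw [h1] at hr
      have := ih t.length (by rw [← hn, h1]; simp) (ρ e.1) (ev t) (ev s') (ev t')
        (by rw [wd_ev hr.tail])
      linarith

/-- The pseudo-metric of the tree of lines. -/
noncomputable def dL (ρ : L → ℝ) (p q : ℝ × W L C) : ℝ := dT ρ p.1 (p.2⁻¹ * q.2) q.1

theorem dL_pm (ρ : L → ℝ) : PM (dL (C := C) ρ) where
  self := fun x => by simp [dL]
  symm := fun x y => by
    unfold dL
    rw [← dT_symm]; simp
  tri := fun x y z => by
    unfold dL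
    have := dT_mul_le ρ x.1 y.1 z.1 (x.2⁻¹ * y.2) (y.2⁻¹ * z.2)
    rwa [show x.2⁻¹ * y.2 * (y.2⁻¹ * z.2) = x.2⁻¹ * z.2 by group] at this

theorem gp_dL (ρ : L → ℝ) (w x y : ℝ × W L C) :
    gp (dL ρ) w x y = gT ρ w.1 (w.2⁻¹ * x.2) x.1 (w.2⁻¹ * y.2) y.1 := by
  unfold gp gT
  rw [(dL_pm ρ).symm x w, (dL_pm ρ).symm y w]
  unfold dL
  rw [show (w.2⁻¹ * x.2)⁻¹ * (w.2⁻¹ * y.2) = x.2⁻¹ * y.2 by group]

theorem dL_hyp (ρ : L → ℝ) : Hyp (dL (C := C) ρ) 0 := by
  intro w x y z
  rw [gp_dL, gp_dL, gp_dL, sub_zero]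
  exact gT_ultra ρ _ _ _ _ _ _ _ _ rfl

end tree

end Pool.Agent.E5f
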