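import Pool.Agent.Mg.S03381.G596352
import Pool.Agent.Mg.S03381.G7cdb90
import Pool.Agent.Mg.S03381.G59530b
import Pool.Agent.Mg.S03381.Gb73013
import Pool.Agent.Mg.S03381.G5b3672

section

/-!
The model: ordered products, change of generators, compatible families of words, box words,
planar models, routes and families of fibres.

Conventions.  V-generators: a slit goes down from every label, passing below `l` from left to
right reads `lt l c`.  H-generators: a slit goes left from every label, passing left of `l` from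
bottom to top reads `lt l c`.  The base point is at the north east infinity.
-/

set_option autoImplicit false

namespace Pool.Agent.E5f

open Filter

section words
variable {L C : Type} [CommGroup C]

open Classical in
/-- The elements of `S` in `A`. -/
noncomputable def cut (S : Finset L) (A : Set L) : Finset L := S.filter (fun l => l ∈ A)

@[simp] theorem mem_cut {S : Finset L} {A : Set L} {l : L} : l ∈ cut S A ↔ l ∈ S ∧ l ∈ A := by
  unfold cut; simp

theorem ret_op' (A : Set L) (X : Od L) (c : C) (T : Finset L) :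
    ret A (op X c T) = op X c (cut T A) := by
  rw [ret_op c X.injective.injOn]
  congr 1

/-- Labels to the right of a label. -/
def Rl (X : Od L) (l : L) : Set L := {m | X l < X m}

/-- Labels up and right of a label. -/
def UR (X Y : Od L) (l : L) : Set L := Rl X l ∩ Rl Y l

/-- Change of generators at the finite level `S`: from the generators ordered by `X` to those
ordered by `Y`. -/
noncomputable def Kf (c : C) (X Y : Od L) (S : Finset L) : W L C →* W L C :=
  lf (fun l => (MulAut.conj (op Y c (cut S (UR X Y l)))⁻¹).toMonoidHom.comp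
    ((ltH l).comp invMonoidHom))

theorem Kf_lt (c : C) (X Y : Od L) (S : Finset L) (l : L) (x : C) :
    Kf c X Y S (lt l x) =
      (op Y c (cut S (UR X Y l)))⁻¹ * lt l x⁻¹ * op Y c (cut S (UR X Y l)) := by
  unfold Kf; rw [lf_lt]; simp

theorem cut_cut_sub {S S' : Finset L} (h : S ⊆ S') (A : Set L) :
    cut (cut S' A) (S : Set L) = cut S A := by
  ext l
  simp only [mem_cut, Finset.mem_coe]
  exact ⟨fun h' => ⟨h'.2, h'.1.2⟩, fun h' => ⟨⟨h h'.1, h'.2⟩, h'.1⟩⟩

theorem ret_Kf (c : C) (X Y : Od L) {S S' : Finset L} (h : S ⊆ S') (g : W L C) :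
    ret (S : Set L) (Kf c X Y S' g) = Kf c X Y S (ret (S : Set L) g) := by
  have : (ret (S : Set L)).comp (Kf c X Y S') = (Kf c X Y S).comp (ret (S : Set L)) := by
    refine W_ext fun l x => ?_
    simp only [MonoidHom.comp_apply, Kf_lt, map_mul, map_inv, ret_op', cut_cut_sub h, ret_lt]
    split_ifs
    · rw [Kf_lt]
    · simp
  exact DFunLike.congr_fun this g

theorem ret_rl {L' : Type} (σ : L → L') (A : Set L') (g : W L C) :
    ret A (rl σ g) = rl σ (ret (σ ⁻¹' A) g) := by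
  have : (ret A).comp (rl σ) = (rl σ : W L C →* W L' C).comp (ret (σ ⁻¹' A)) := by
    refine W_ext fun l x => ?_
    simp only [MonoidHom.comp_apply, rl_lt, ret_lt, Set.mem_preimage]
    by_cases h1 : σ l ∈ A <;> simp [h1]
  exact DFunLike.congr_fun this g

theorem rl_rl {L' L'' : Type} (σ : L → L') (τ : L' → L'') (g : W L C) :
    rl τ (rl σ g) = rl (τ ∘ σ) g := by
  have : (rl τ).comp (rl σ) = (rl (τ ∘ σ) : W L C →* W L'' C) := W_ext fun l x => by simp
  exact DFunLike.congr_fun this g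

theorem rl_id (g : W L C) : rl id g = g := by
  have : (rl id : W L C →* W L C) = MonoidHom.id _ := W_ext fun l x => by simp
  exact DFunLike.congr_fun this g

/-- Compatible families of words over the finite sets of labels. -/
def WLs (L C : Type) [CommGroup C] : Subgroup (Finset L → W L C) where
  carrier := {f | ∀ S S' : Finset L, S ⊆ S' → ret (S : Set L) (f S') = f S}
  mul_mem' := fun {a b} ha hb S S' h => by simp [ha S S' h, hb S S' h]
  one_mem' := fun S S' _ => by simp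
  inv_mem' := fun {a} ha S S' h => by simp [ha S S' h]

/-- The group of compatible families. -/
abbrev WL (L C : Type) [CommGroup C] : Type := WLs L C

/-- The word at the finite level `S`. -/
def pj (S : Finset L) : WL L C →* W L C :=
  (Pi.evalMonoidHom (fun _ : Finset L => W L C) S).comp (WLs L C).subtype

theorem ret_pj {S S' : Finset L} (h : S ⊆ S') (ω : WL L C) :
    ret (S : Set L) (pj S' ω) = pj S ω := ω.2 S S' h

theorem ret_pj_self (S : Finset L) (ω : WL L C) : ret (S : Set L) (pj S ω) = pj S ω :=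
  ret_pj (Finset.Subset.refl S) ω

theorem WL_ext {ω ω' : WL L C} (h : ∀ S, pj S ω = pj S ω') : ω = ω' :=
  Subtype.ext (funext h)

/-- A compatible family from its levels. -/
def mkW (f : Finset L → W L C) (h : ∀ S S' : Finset L, S ⊆ S' → ret (S : Set L) (f S') = f S) :
    WL L C := ⟨f, h⟩

@[simp] theorem pj_mkW (f : Finset L → W L C)
    (h : ∀ S S' : Finset L, S ⊆ S' → ret (S : Set L) (f S') = f S) (S : Finset L) :
    pj S (mkW f h) = f S := rfl

/-- Finite words as compatible families. -/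
noncomputable def emb : W L C →* WL L C where
  toFun g := mkW (fun S => ret (S : Set L) g) (fun S S' h => by
    rw [ret_ret, Set.inter_eq_left.2 (Finset.coe_subset.2 h)])
  map_one' := WL_ext fun S => by simp
  map_mul' a b := WL_ext fun S => by simp

@[simp] theorem pj_emb (S : Finset L) (g : W L C) : pj S (emb g) = ret (S : Set L) g := rfl

/-- The ordered product of the letters `c` over an arbitrary set. -/
noncomputable def opH (c : C) (X : Od L) (A : Set L) : WL L C :=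
  mkW (fun S => op X c (cut S A)) (fun S S' h => by rw [ret_op', cut_cut_sub h])

@[simp] theorem pj_opH (c : C) (X : Od L) (A : Set L) (S : Finset L) :
    pj S (opH c X A) = op X c (cut S A) := rfl

/-- Change of generators on compatible families. -/
noncomputable def Kh (c : C) (X Y : Od L) : WL L C →* WL L C where
  toFun ω := mkW (fun S => Kf c X Y S (pj S ω)) (fun S S' h => by rw [ret_Kf c X Y h, ret_pj h])
  map_one' := WL_ext fun S => by simp
  map_mul' a b := WL_ext fun S => by simp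

@[simp] theorem pj_Kh (c : C) (X Y : Od L) (S : Finset L) (ω : WL L C) :
    pj S (Kh c X Y ω) = Kf c X Y S (pj S ω) := rfl

/-- Change of coordinates of the point north east adjacent to the label `l`, finite level. -/
noncomputable def kapf (c : C) (X Y : Od L) (S : Finset L) (l : L) (g : W L C) : W L C :=
  Kf c X Y S (g * op X c (cut S (UR X Y l)))

/-- Change of coordinates of the point north east adjacent to the label `l`. -/
noncomputable def kap (c : C) (X Y : Od L) (l : L) (g : WL L C) : WL L C :=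
  Kh c X Y (g * opH c X (UR X Y l))

theorem pj_kap (c : C) (X Y : Od L) (S : Finset L) (l : L) (g : WL L C) :
    pj S (kap c X Y l g) = kapf c X Y S l (pj S g) := by
  simp [kap, kapf]

/-- Relabelling of compatible families. -/
noncomputable def rlH (σ : Equiv.Perm L) : WL L C →* WL L C where
  toFun ω := mkW (fun S => rl σ (pj (S.map σ.symm.toEmbedding) ω)) (fun S S' h => by
    have e : (σ ⁻¹' (S : Set L)) = ((S.map σ.symm.toEmbedding : Finset L) : Set L) := by
      ext l; simp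
    rw [ret_rl, e, ret_pj (Finset.map_subset_map.2 h)])
  map_one' := WL_ext fun S => by simp
  map_mul' a b := WL_ext fun S => by simp

theorem pj_rlH (σ : Equiv.Perm L) (S : Finset L) (ω : WL L C) :
    pj S (rlH σ ω) = rl σ (pj (S.map σ.symm.toEmbedding) ω) := rfl

theorem rlH_one (ω : WL L C) : rlH 1 ω = ω := WL_ext fun S => by
  have e : S.map (1 : Equiv.Perm L).symm.toEmbedding = S := by ext l; simp [Finset.mem_map_equiv]
  rw [pj_rlH, e]
  exact rl_id _

theorem rlH_mul (σ τ : Equiv.Perm L) (ω : WL L C) : rlH (σ * τ) ω = rlH σ (rlH τ ω) :=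
  WL_ext fun S => by
    have e : S.map (σ * τ).symm.toEmbedding =
        (S.map σ.symm.toEmbedding).map τ.symm.toEmbedding := by
      ext l; simp [Finset.mem_map_equiv]
    rw [pj_rlH, pj_rlH, pj_rlH, rl_rl, e]
    rfl

/-- Relabelling as an action by automorphisms. -/
noncomputable def rlA : Equiv.Perm L →* MulAut (WL L C) where
  toFun σ := MonoidHom.toMulEquiv (rlH σ) (rlH σ⁻¹)
    (MonoidHom.ext fun ω => by simp [← rlH_mul, rlH_one])
    (MonoidHom.ext fun ω => by simp [← rlH_mul, rlH_one])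
  map_one' := MulEquiv.ext fun ω => rlH_one ω
  map_mul' σ τ := MulEquiv.ext fun ω => rlH_mul σ τ ω

theorem rlA_apply (σ : Equiv.Perm L) (ω : WL L C) : rlA σ ω = rlH σ ω := rfl

/-- Left multiplications and relabellings. -/
abbrev Big (L C : Type) [CommGroup C] : Type := WL L C ⋊[rlA] Equiv.Perm L

open Classical in
/-- The swap map on the coordinate of the point adjacent to the label `l`. -/
noncomputable def psw (a b : L) (x : C) (l : L) (g : W L C) : W L C :=
  sw a b x g * (if l = b then lt a x else 1)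

/-- On `S` the order `X'` arises from `X` by the transposition of `f` (which moves right) and `s`
(which moves left). -/
structure Swp (S : Finset L) (X X' : Od L) (f s : L) : Prop where
  hf : f ∈ S
  hs : s ∈ S
  bef : X f < X s
  aft : X' s < X' f
  oth : ∀ a ∈ S, ∀ b ∈ S, ¬ (a = f ∧ b = s) → ¬ (a = s ∧ b = f) → (X a < X b ↔ X' a < X' b)

/-- The orders agree on `S`. -/
def Agr (S : Set L) (X X' : Od L) : Prop := ∀ a ∈ S, ∀ b ∈ S, (X a < X b ↔ X' a < X' b)

/-- Upper sets. -/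
def Up (X : Od L) (R : Set L) : Prop := ∀ l m, l ∈ R → X l < X m → m ∈ R

/-- The set contains the labels above `hi` and no label below `lo`. -/
def InB (ρ : L → ℝ) (lo hi : ℝ) (R : Set L) : Prop :=
  ∀ l, (hi < ρ l → l ∈ R) ∧ (ρ l < lo → l ∉ R)

/-- The cut `R` is at the real position `a`. -/
def At (ρ : L → ℝ) (R : Set L) (a : ℝ) : Prop := ∀ l, (l ∈ R → a ≤ ρ l) ∧ (l ∉ R → ρ l ≤ a)

/-- Labels to the right of a marker. -/
def Rs (ρ : L → ℝ) (u : Mk) : Set L := {l | u.1 < ρ l ∨ (u.1 = ρ l ∧ u.2 = false)}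

/-- The word of a straight step from the cut `R` to the cut `R'` passing below the labels of
`D` and above the others. -/
noncomputable def stp (c : C) (X : Od L) (R R' D : Set L) : WL L C :=
  opH c X (R ∩ D) * (opH c X (R' ∩ D))⁻¹

open Classical in
/-- Insertion of a high label `ν`. -/
noncomputable def ins (c : C) (X : Od L) (ν : L) : W L C →* W L C :=
  lf (fun l => if X l < X ν then (MulAut.conj (lt ν c : W L C)⁻¹).toMonoidHom.comp (ltH l)
    else ltH l)

open Classical in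
/-- The end correction of the insertion of `ν`. -/
noncomputable def jj (c : C) (ν : L) (R : Set L) : W L C := if ν ∈ R then lt ν c else 1

open Classical in
/-- The letter inserted between an entry with side `s` and an entry with side `t`
(the side says that the entry is left of `ν`). -/
noncomputable def wv (c : C) (ν : L) (s t : Prop) : List (L × C) :=
  if s ↔ t then [] else [(ν, if s then c else c⁻¹)]

/-- The reduced word after the insertion of `ν`. -/
noncomputable def weave (c : C) (X : Od L) (ν : L) : Prop → List (L × C) → Prop → List (L × C)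
  | s, [], t => wv c ν s t
  | s, e :: w, t => wv c ν s (X e.1 < X ν) ++ e :: weave c X ν (X e.1 < X ν) w t

/-- Distance in the tree of lines: the eventual value. -/
noncomputable def dW (ρ : L → ℝ) (a : ℝ) (ω : WL L C) (b : ℝ) : ℝ :=
  limUnder atTop (fun S : Finset L => dT ρ a (pj S ω) b)

end words

/-- A configuration of labels in the plane. -/
structure Cfg (L : Type) where
  X : Od L
  Y : Od L
  fin : ∀ B : ℝ, {l | |(ofLex (X l)).1| ≤ B ∧ |(ofLex (Y l)).1| ≤ B}.Finite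

/-- A box. -/
structure Bx where
  x0 : ℝ
  x1 : ℝ
  y0 : ℝ
  y1 : ℝ

/-- The transposed box. -/
def Bx.tr (b : Bx) : Bx := ⟨b.y0, b.y1, b.x0, b.x1⟩

/-- Inclusion of boxes. -/
def Bx.Sub (b b' : Bx) : Prop := b'.x0 ≤ b.x0 ∧ b.x1 ≤ b'.x1 ∧ b'.y0 ≤ b.y0 ∧ b.y1 ≤ b'.y1

/-- The enlarged box. -/
def Bx.grow (b : Bx) (r s : ℝ) : Bx := ⟨b.x0 - r, b.x1 + r, b.y0 - s, b.y1 + s⟩

/-- The point lies in the box. -/
def Bx.Mem (b : Bx) (s t : ℝ) : Prop := b.x0 ≤ s ∧ s ≤ b.x1 ∧ b.y0 ≤ t ∧ t ≤ b.y1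

section planar
variable {L C : Type} [CommGroup C]

/-- Real abscissa. -/
def Cfg.x (Z : Cfg L) (l : L) : ℝ := (ofLex (Z.X l)).1
/-- Real ordinate. -/
def Cfg.y (Z : Cfg L) (l : L) : ℝ := (ofLex (Z.Y l)).1

/-- The transposed configuration. -/
def Cfg.tr (Z : Cfg L) : Cfg L :=
  ⟨Z.Y, Z.X, fun B => (Z.fin B).subset (fun _ h => ⟨h.2, h.1⟩)⟩

@[simp] theorem Cfg.tr_X (Z : Cfg L) : Z.tr.X = Z.Y := rfl
@[simp] theorem Cfg.tr_Y (Z : Cfg L) : Z.tr.Y = Z.X := rfl
@[simp] theorem Cfg.tr_x (Z : Cfg L) : Z.tr.x = Z.y := rfl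
@[simp] theorem Cfg.tr_y (Z : Cfg L) : Z.tr.y = Z.x := rfl
@[simp] theorem Cfg.tr_tr (Z : Cfg L) : Z.tr.tr = Z := rfl

/-- Generic configurations. -/
def Cfg.Gen (Z : Cfg L) : Prop := Function.Injective Z.x ∧ Function.Injective Z.y

/-- Every open square of side `Λ` contains a label. -/
def Cfg.Den (Z : Cfg L) (Λ : ℝ) : Prop :=
  ∀ a b : ℝ, ∃ l, a < Z.x l ∧ Z.x l < a + Λ ∧ b < Z.y l ∧ Z.y l < b + Λ

/-- The labels of a box. -/
def Cfg.bl (Z : Cfg L) (b : Bx) : Set L := {l | b.Mem (Z.x l) (Z.y l)}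

/-- Words of paths inside a box from the cut `R` to another cut. -/
inductive BoxW (c : C) (Z : Cfg L) (b : Bx) (R : Set L) : Set L → WL L C → Prop
  | refl : Up Z.X R → InB Z.x b.x0 b.x1 R → BoxW c Z b R R 1
  | step {R' R'' D : Set L} {ω : WL L C} : BoxW c Z b R R' ω → Up Z.X R'' →
      InB Z.x b.x0 b.x1 R'' → InB Z.y b.y0 b.y1 D →
      BoxW c Z b R R'' (ω * stp c Z.X R' R'' D)

/-- A planar model: a connected set of points with V-word `g`, H-word `h` and markers `u`, `w`,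
closed under vertical and horizontal moves. -/
structure Plan (c : C) (Z : Cfg L) (Q : Type) where
  g : Q → WL L C
  h : Q → WL L C
  u : Q → Mk
  w : Q → Mk
  relv : ∀ q, h q = Kh c Z.X Z.Y (g q * opH c Z.X (Rs Z.x (u q) ∩ Rs Z.y (w q)))
  relh : ∀ q, g q = Kh c Z.Y Z.X (h q * opH c Z.Y (Rs Z.y (w q) ∩ Rs Z.x (u q)))
  mvv : ∀ q w', ∃ q', g q' = g q ∧ u q' = u q ∧ w q' = w'
  mvh : ∀ q u', ∃ q', h q' = h q ∧ w q' = w q ∧ u q' = u'
  conn : ∀ p q, Relation.ReflTransGen
    (fun a b => (g a = g b ∧ u a = u b) ∨ (h a = h b ∧ w a = w b)) p q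
  ext : ∀ p q, g p = g q → u p = u q → w p = w q → p = q

namespace Plan
variable {c : C} {Z : Cfg L} {Q : Type} (P : Plan c Z Q)

/-- The transposed model. -/
def tr : Plan c Z.tr Q where
  g := P.h
  h := P.g
  u := P.w
  w := P.u
  relv := P.relh
  relh := P.relv
  mvv := P.mvh
  mvh := P.mvv
  conn := fun p q => Relation.ReflTransGen.mono (fun _ _ => Or.symm) _ _ (P.conn p q)
  ext := fun p q h1 h2 h3 => P.ext p q (by rw [P.relh p, P.relh q, h1, h2, h3]) h3 h2

/-- The cut of a point. -/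
def R (q : Q) : Set L := Rs Z.x (P.u q)

/-- Distance in the tree of vertical leaves. -/
noncomputable def dv (p q : Q) : ℝ := dW Z.x (P.u p).1 ((P.g p)⁻¹ * P.g q) (P.u q).1

/-- Distance in the tree of horizontal leaves. -/
noncomputable def dh (p q : Q) : ℝ := dW Z.y (P.w p).1 ((P.h p)⁻¹ * P.h q) (P.w q).1

@[simp] theorem tr_g : P.tr.g = P.h := rfl
@[simp] theorem tr_h : P.tr.h = P.g := rfl
@[simp] theorem tr_u : P.tr.u = P.w := rfl
@[simp] theorem tr_w : P.tr.w = P.u := rfl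
@[simp] theorem tr_dv : P.tr.dv = P.dh := rfl
@[simp] theorem tr_dh : P.tr.dh = P.dv := rfl

/-- A vertical move. -/
def MV (p q : Q) : Prop := P.g p = P.g q ∧ P.u p = P.u q

/-- A horizontal move. -/
def MH (p q : Q) : Prop := P.h p = P.h q ∧ P.w p = P.w q

/-- A chain of moves. -/
def Chain (s : ℕ → Q) (n : ℕ) : Prop := ∀ i < n, P.MV (s i) (s (i + 1)) ∨ P.MH (s i) (s (i + 1))

/-- The horizontal length of a chain. -/
def lenV (s : ℕ → Q) (n : ℕ) : ℝ :=
  ∑ i ∈ Finset.range n, |(P.u (s (i + 1))).1 - (P.u (s i)).1|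

/-- The vertical length of a chain. -/
def lenH (s : ℕ → Q) (n : ℕ) : ℝ :=
  ∑ i ∈ Finset.range n, |(P.w (s (i + 1))).1 - (P.w (s i)).1|

/-- A straight step passing below the labels of `D`. -/
def Step (D : Set L) (p q : Q) : Prop :=
  (∃ y0 y1, InB Z.y y0 y1 D) ∧ P.g q = P.g p * stp c Z.X (P.R p) (P.R q) D

/-- A touch of the label `a` with letter `x`. -/
def Touch (a : L) (x : C) (p q : Q) : Prop :=
  (P.u p).1 = Z.x a ∧ (P.u q).1 = Z.x a ∧ P.g q = P.g p * emb (lt a x)

/-- The two points are joined inside the box. -/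
def Box (b : Bx) (p q : Q) : Prop :=
  b.Mem (P.u p).1 (P.w p).1 ∧ b.Mem (P.u q).1 (P.w q).1 ∧
    BoxW c Z b (P.R p) (P.R q) ((P.g p)⁻¹ * P.g q)

/-- The point is south west adjacent to the label `a`. -/
def Cusp (a : L) (r : Q) : Prop := P.u r = (Z.x a, false) ∧ P.w r = (Z.y a, false)

end Plan

/-- A touch from the side `s` to the side `t` with letter `x` is essential: it is not a straight
passage. -/
def Ess (c : C) (s t : Bool) (x : C) : Prop :=
  x ≠ 1 ∧ (s = false → t = true → x ≠ c) ∧ (s = true → t = false → x ≠ c⁻¹)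

/-- A route: steps `p i → q i` for `i ≤ k` alternate with essential touches `q i → p (i + 1)` of
the labels `a i` for `i < k`; the steps next to a touch do not cross the touched label. -/
structure Route {c : C} {Z : Cfg L} {Q : Type} (P : Plan c Z Q) (k : ℕ) (p q : ℕ → Q)
    (D : ℕ → Set L) (a : ℕ → L) (x : ℕ → C) : Prop where
  step : ∀ i ≤ k, P.Step (D i) (p i) (q i)
  touch : ∀ i < k, P.Touch (a i) (x i) (q i) (p (i + 1))
  ess : ∀ i < k, Ess c (P.u (q i)).2 (P.u (p (i + 1))).2 (x i)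
  arr : ∀ i < k, (a i ∈ P.R (p i) ↔ a i ∈ P.R (q i))
  dep : ∀ i < k, (a i ∈ P.R (p (i + 1)) ↔ a i ∈ P.R (q (i + 1)))
  ne : ∀ i, i + 1 < k → a i ≠ a (i + 1)

end planar

/-- The generator of the infinite cyclic group. -/
def cz : CZ := Multiplicative.ofAdd 1

/-- The base configuration. -/
noncomputable def Emb.bc (E : Emb) : Cfg Zl := ⟨E.bkey, E.tr.bkey, E.box_fin⟩

/-- The fibre configuration over the markers `u`, `w`. -/
noncomputable def Emb.fc (E : Emb) (u w : Mk) : Cfg Lam :=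
  ⟨E.key u, E.tr.key w, E.pos_fin u.1 w.1⟩

@[simp] theorem Emb.bc_x (E : Emb) : E.bc.x = E.ξ := rfl
@[simp] theorem Emb.bc_y (E : Emb) : E.bc.y = E.η := rfl
@[simp] theorem Emb.bc_X (E : Emb) : E.bc.X = E.bkey := rfl
@[simp] theorem Emb.bc_Y (E : Emb) : E.bc.Y = E.tr.bkey := rfl
theorem Emb.tr_bc (E : Emb) : E.tr.bc = E.bc.tr := rfl
@[simp] theorem Emb.fc_x (E : Emb) (u w : Mk) : (E.fc u w).x = E.pos u.1 := rfl
@[simp] theorem Emb.fc_y (E : Emb) (u w : Mk) : (E.fc u w).y = E.tr.pos w.1 := rfl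
@[simp] theorem Emb.fc_X (E : Emb) (u w : Mk) : (E.fc u w).X = E.key u := rfl
@[simp] theorem Emb.fc_Y (E : Emb) (u w : Mk) : (E.fc u w).Y = E.tr.key w := rfl
theorem Emb.tr_fc (E : Emb) (u w : Mk) : E.tr.fc w u = (E.fc u w).tr := rfl
@[simp] theorem Emb.tr_tr_key (E : Emb) : E.tr.tr.key = E.key := rfl
@[simp] theorem Emb.tr_tr_kinf (E : Emb) : E.tr.tr.kinf = E.kinf := rfl
@[simp] theorem Emb.tr_tr_bkey (E : Emb) : E.tr.tr.bkey = E.bkey := rfl
@[simp] theorem Emb.tr_tr_pos (E : Emb) : E.tr.tr.pos = E.pos := rfl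
@[simp] theorem Emb.tr_tr_m (E : Emb) : E.tr.tr.m = E.m := rfl

/-- A family of fibres over a planar model of the base.  A fibre point `x` is the point north east
adjacent to the label `lb x`; over the base point `q` it has V-word `gv q x` and H-word
`gh q x`. -/
structure Fam (E : Emb) (Q P : Type) where
  B : Plan cz E.bc Q
  lb : P → Lam
  gv : Q → P → WL Lam C2
  gh : Q → P → WL Lam C2
  relv : ∀ q x, gh q x = kap c2 (E.key (B.u q)) (E.tr.key (B.w q)) (lb x) (gv q x)
  relh : ∀ q x, gv q x = kap c2 (E.tr.key (B.w q)) (E.key (B.u q)) (lb x) (gh q x)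
  mv : ∀ q q' x, B.MV q q' → gv q x = gv q' x
  mh : ∀ q q' x, B.MH q q' → gh q x = gh q' x
  cv : ∀ q x y, ∃ b, BoxW c2 (E.fc (B.u q) (B.w q)) b (Rl (E.key (B.u q)) (lb x))
    (Rl (E.key (B.u q)) (lb y)) ((gv q x)⁻¹ * gv q y)
  ch : ∀ q x y, ∃ b, BoxW c2 (E.tr.fc (B.w q) (B.u q)) b (Rl (E.tr.key (B.w q)) (lb x))
    (Rl (E.tr.key (B.w q)) (lb y)) ((gh q x)⁻¹ * gh q y)
  clv : ∀ q x l b ω, BoxW c2 (E.fc (B.u q) (B.w q)) b (Rl (E.key (B.u q)) (lb x))
    (Rl (E.key (B.u q)) l) ω → ∃ y, lb y = l ∧ gv q y = gv q x * ω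
  clh : ∀ q x l b ω, BoxW c2 (E.tr.fc (B.w q) (B.u q)) b (Rl (E.tr.key (B.w q)) (lb x))
    (Rl (E.tr.key (B.w q)) l) ω → ∃ y, lb y = l ∧ gh q y = gh q x * ω
  ext : ∀ q x y, lb x = lb y → gv q x = gv q y → x = y

namespace Fam
variable {E : Emb} {Q P : Type} (F : Fam E Q P)

/-- The transposed family. -/
noncomputable def tr : Fam E.tr Q P where
  B := F.B.tr
  lb := F.lb
  gv := F.gh
  gh := F.gv
  relv := F.relh
  relh := F.relv
  mv := F.mh
  mh := F.mv
  cv := F.ch
  ch := F.cv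
  clv := F.clh
  clh := F.clv
  ext := fun q x y h1 h2 => F.ext q x y h1 (by rw [F.relh q x, F.relh q y, h1, h2])

/-- The fibre configuration over a base point. -/
noncomputable def Z (q : Q) : Cfg Lam := E.fc (F.B.u q) (F.B.w q)

/-- The two fibre points are joined inside the box in the fibre over `q`. -/
def Box (q : Q) (b : Bx) (x y : P) : Prop :=
  F.lb x ∈ (F.Z q).bl b ∧ F.lb y ∈ (F.Z q).bl b ∧
    BoxW c2 (F.Z q) b (Rl (F.Z q).X (F.lb x)) (Rl (F.Z q).X (F.lb y)) ((F.gv q x)⁻¹ * F.gv q y)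

/-- Distance in the tree of vertical leaves of the fibre. -/
noncomputable def dv (q : Q) (x y : P) : ℝ :=
  dW (E.pos (F.B.u q).1) (E.pos (F.B.u q).1 (F.lb x)) ((F.gv q x)⁻¹ * F.gv q y)
    (E.pos (F.B.u q).1 (F.lb y))

/-- Distance in the tree of horizontal leaves of the fibre. -/
noncomputable def dh (q : Q) (x y : P) : ℝ :=
  dW (E.tr.pos (F.B.w q).1) (E.tr.pos (F.B.w q).1 (F.lb x)) ((F.gh q x)⁻¹ * F.gh q y)
    (E.tr.pos (F.B.w q).1 (F.lb y))

@[simp] theorem tr_dv : F.tr.dv = F.dh := rfl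
@[simp] theorem tr_dh : F.tr.dh = F.dv := rfl
@[simp] theorem tr_B_dv : F.tr.B.dv = F.B.dh := rfl
@[simp] theorem tr_B_dh : F.tr.B.dh = F.B.dv := rfl
@[simp] theorem tr_lb : F.tr.lb = F.lb := rfl
@[simp] theorem tr_gv : F.tr.gv = F.gh := rfl
@[simp] theorem tr_gh : F.tr.gh = F.gv := rfl
theorem tr_Z (q : Q) : F.tr.Z q = (F.Z q).tr := rfl

end Fam

end Pool.Agent.E5f

end

section

/-!
The change of generators of the model: key identity, inverse, naturality, swaps, bubble sort.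
-/

set_option autoImplicit false

namespace Pool.Agent.E5f

open OrderDual

variable {L C : Type} [CommGroup C]

theorem pl_reverse (c : C) (w : List L) : pl c⁻¹ w.reverse = (pl c w)⁻¹ := by
  induction w with
  | nil => simp
  | cons l w ih => rw [List.reverse_cons, pl_append, ih, pl_cons, pl_cons, lt_inv]; simp

theorem op_dual {K : Type} [LinearOrder K] {k : L → K} (c : C) {D : Finset L}
    (hk : Set.InjOn k D) : op (toDual ∘ k) c⁻¹ D = (op k c D)⁻¹ := by
  rw [op_eq_pl (k := toDual ∘ k) (w := (srt k D).reverse) c⁻¹]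
  · exact pl_reverse c _
  · rw [List.pairwise_reverse]
    exact (srt_lt hk).imp (fun h => h)
  · intro l
    rw [List.mem_reverse, mem_srt]

theorem dual_inj (X : Od L) (S : Set L) : Set.InjOn (toDual ∘ X) S :=
  (toDual.injective.comp X.injective).injOn

theorem mem_UR {X Y : Od L} {l m : L} : m ∈ UR X Y l ↔ X l < X m ∧ Y l < Y m := Iff.rfl

theorem UR_comm (X Y : Od L) (l : L) : UR X Y l = UR Y X l := Set.inter_comm _ _

theorem up_Rl (X : Od L) (l : L) : Up X (Rl X l) := fun _ _ h1 h2 => lt_trans h1 h2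

theorem SW_dual (X Y : Od L) (S : Finset L) (l : L) :
    SW (toDual ∘ Y) (toDual ∘ X) S l = cut S (UR X Y l) := by
  ext m
  rw [mem_SW, mem_cut, mem_UR]
  exact ⟨fun h => ⟨h.1, h.2.2, h.2.1⟩, fun h => ⟨h.1, h.2.2, h.2.1⟩⟩

theorem Kf_eq_Phi (c : C) (X Y : Od L) (S : Finset L) :
    Kf c X Y S = Phi (toDual ∘ Y) (toDual ∘ X) c⁻¹ S := by
  refine W_ext (fun l x => ?_)
  rw [Kf_lt, Phi_lt, SW_dual, op_dual c Y.injective.injOn, inv_inv, lt_inv]

/-- The key identity for a set which is an upper part of `S` for the product order. -/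
theorem Kf_op_of_upper (c : C) (X Y : Od L) {S D : Finset L} (hD : D ⊆ S)
    (h : ∀ m ∈ S, ∀ l ∈ D, X l < X m → Y l < Y m → m ∈ D) :
    Kf c X Y S (op X c D) = (op Y c D)⁻¹ := by
  have := Phi_op c⁻¹ (dual_inj Y S) (dual_inj X S) (D := D)
    ⟨hD, fun m hm l hl h1 h2 => h m hm l hl h2 h1⟩
  rw [op_dual c X.injective.injOn, op_dual c Y.injective.injOn, map_inv, inv_inj,
    ← Kf_eq_Phi] at this
  exact this

theorem cut_sub (S : Finset L) (A : Set L) : cut S A ⊆ S := fun _ h => (mem_cut.1 h).1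

/-- The key identity. -/
theorem Kf_op (c : C) {X Y : Od L} (S : Finset L) {R A : Set L} (hR : Up X R) (hA : Up Y A) :
    Kf c X Y S (op X c (cut S (R ∩ A))) = (op Y c (cut S (R ∩ A)))⁻¹ :=
  Kf_op_of_upper c X Y (cut_sub S _) (fun m hm l hl h1 h2 =>
    mem_cut.2 ⟨hm, hR l m (mem_cut.1 hl).2.1 h1, hA l m (mem_cut.1 hl).2.2 h2⟩)

theorem Kf_UR (c : C) (X Y : Od L) (S : Finset L) (l : L) :
    Kf c X Y S (op X c (cut S (UR X Y l))) = (op Y c (cut S (UR X Y l)))⁻¹ :=
  Kf_op c S (up_Rl X l) (up_Rl Y l)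

theorem Kf_Kf (c : C) (X Y : Od L) (S : Finset L) (g : W L C) :
    Kf c Y X S (Kf c X Y S g) = g := by
  rw [Kf_eq_Phi, Kf_eq_Phi]
  exact Phi_Phi c⁻¹ (dual_inj Y S) (dual_inj X S) g

theorem Kf_injective (c : C) (X Y : Od L) (S : Finset L) : Function.Injective (Kf c X Y S) :=
  Function.LeftInverse.injective (Kf_Kf c X Y S)

theorem expo_Kf (c : C) (X Y : Od L) (S : Finset L) (l : L) (g : W L C) :
    expo l (Kf c X Y S g) = (expo l g)⁻¹ := by
  rw [Kf_eq_Phi, expo_Phi]

theorem sup_Kf (c : C) (X Y : Od L) {S : Finset L} {T : Set L} (hS : ∀ l ∈ S, l ∈ T)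
    {g : W L C} (hg : Sup T g) : Sup T (Kf c X Y S g) := by
  rw [Kf_eq_Phi]
  exact sup_Phi _ _ _ hS hg

theorem sup_op_cut (X : Od L) (c : C) (S : Finset L) (A : Set L) :
    Sup (S : Set L) (op X c (cut S A)) := sup_op c (fun _ hl => (mem_cut.1 hl).1)

theorem sup_kapf (c : C) (X Y : Od L) {S : Finset L} (l : L) {g : W L C}
    (hg : Sup (S : Set L) g) : Sup (S : Set L) (kapf c X Y S l g) :=
  sup_Kf c X Y (fun _ h => h) (sup_mul hg (sup_op_cut X c S _))

theorem sup_pj (S : Finset L) (ω : WL L C) : Sup (S : Set L) (pj S ω) :=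
  sup_iff.2 (ret_pj_self S ω)

theorem Agr.refl (S : Set L) (X : Od L) : Agr S X X := fun _ _ _ _ => Iff.rfl

theorem Agr.symm {S : Set L} {X X' : Od L} (h : Agr S X X') : Agr S X' X :=
  fun a ha b hb => (h a ha b hb).symm

theorem Agr.trans {S : Set L} {X X' X'' : Od L} (h : Agr S X X') (h' : Agr S X' X'') :
    Agr S X X'' := fun a ha b hb => (h a ha b hb).trans (h' a ha b hb)

theorem Agr.mono {S T : Set L} {X X' : Od L} (h : Agr S X X') (hT : T ⊆ S) : Agr T X X' :=
  fun a ha b hb => h a (hT ha) b (hT hb)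

theorem op_agr (c : C) {X X' : Od L} {D : Finset L} (h : Agr (D : Set L) X X') :
    op X c D = op X' c D :=
  op_congr c X.injective.injOn (fun a ha b hb => (h a ha b hb).1)

theorem Kf_congr (c : C) {X Y X' Y' : Od L} {S : Finset L} (hX : Agr (S : Set L) X X')
    (hY : Agr (S : Set L) Y Y') {g : W L C} (hg : Sup (S : Set L) g) :
    Kf c X Y S g = Kf c X' Y' S g := by
  rw [Kf_eq_Phi, Kf_eq_Phi]
  exact Phi_congr (X' := toDual ∘ Y') (Y' := toDual ∘ X') c⁻¹ (dual_inj Y S)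
    (fun a ha b hb => (hY b hb a ha).1)
    (fun a ha b hb => and_congr (hY b hb a ha) (hX b hb a ha)) hg

theorem cut_UR_congr {X Y X' Y' : Od L} {S : Finset L} (hX : Agr (S : Set L) X X')
    (hY : Agr (S : Set L) Y Y') {l : L} (hl : l ∈ S) : cut S (UR X Y l) = cut S (UR X' Y' l) := by
  ext m
  simp only [mem_cut, mem_UR]
  exact and_congr_right (fun hm => and_congr (hX l hl m hm) (hY l hl m hm))

theorem kapf_congr (c : C) {X Y X' Y' : Od L} {S : Finset L} (hX : Agr (S : Set L) X X')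
    (hY : Agr (S : Set L) Y Y') {l : L} (hl : l ∈ S) {g : W L C} (hg : Sup (S : Set L) g) :
    kapf c X Y S l g = kapf c X' Y' S l g := by
  unfold kapf
  rw [Kf_congr c hX hY (sup_mul hg (sup_op_cut X c S _)), cut_UR_congr hX hY hl,
    op_agr c (hX.mono (cut_sub S _))]

theorem rl_Kf {L' : Type} (σ : L → L') (c : C) {X Y : Od L} {X' Y' : Od L'} {S : Finset L}
    {S' : Finset L'} (hx : ∀ a b, X a < X b ↔ X' (σ a) < X' (σ b))
    (hy : ∀ a b, Y a < Y b ↔ Y' (σ a) < Y' (σ b)) (hS : ∀ l', l' ∈ S' ↔ ∃ l ∈ S, σ l = l')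
    (g : W L C) : rl σ (Kf c X Y S g) = Kf c X' Y' S' (rl σ g) := by
  rw [Kf_eq_Phi, Kf_eq_Phi]
  exact rl_Phi (X' := toDual ∘ Y') (Y' := toDual ∘ X') σ c⁻¹ (dual_inj Y S) (fun a b => hy b a)
    (fun a b => hx b a) hS g

theorem kapf_mul (c : C) (X Y : Od L) (S : Finset L) (l : L) (k g : W L C) :
    kapf c X Y S l (k * g) = Kf c X Y S k * kapf c X Y S l g := by
  unfold kapf
  rw [mul_assoc, map_mul]

theorem kapf_eq (c : C) (X Y : Od L) (S : Finset L) (l : L) (g : W L C) :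
    kapf c X Y S l g = Kf c X Y S g * (op Y c (cut S (UR X Y l)))⁻¹ := by
  unfold kapf
  rw [map_mul, Kf_UR]

theorem kapf_kapf (c : C) (X Y : Od L) (S : Finset L) (l : L) (g : W L C) :
    kapf c Y X S l (kapf c X Y S l g) = g := by
  rw [kapf_eq c X Y]
  unfold kapf
  rw [UR_comm Y X, inv_mul_cancel_right, Kf_Kf]

theorem ret_kapf (c : C) (X Y : Od L) {S S' : Finset L} (h : S ⊆ S') (l : L) (g : W L C) :
    ret (S : Set L) (kapf c X Y S' l g) = kapf c X Y S l (ret (S : Set L) g) := by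
  unfold kapf
  rw [ret_Kf c X Y h, map_mul, ret_op', cut_cut_sub h]

/-! Compatible families. -/

theorem Kh_opH (c : C) {X Y : Od L} {R A : Set L} (hR : Up X R) (hA : Up Y A) :
    Kh c X Y (opH c X (R ∩ A)) = (opH c Y (R ∩ A))⁻¹ :=
  WL_ext fun S => by rw [pj_Kh, map_inv, pj_opH, pj_opH, Kf_op c S hR hA]

theorem Kh_Kh (c : C) (X Y : Od L) (ω : WL L C) : Kh c Y X (Kh c X Y ω) = ω :=
  WL_ext fun S => by rw [pj_Kh, pj_Kh, Kf_Kf]

theorem Kh_injective (c : C) (X Y : Od L) : Function.Injective (Kh c X Y) :=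
  Function.LeftInverse.injective (Kh_Kh c X Y)

theorem kap_kap (c : C) (X Y : Od L) (l : L) (g : WL L C) : kap c Y X l (kap c X Y l g) = g :=
  WL_ext fun S => by rw [pj_kap, pj_kap, kapf_kapf]

theorem kap_mul (c : C) (X Y : Od L) (l : L) (k g : WL L C) :
    kap c X Y l (k * g) = Kh c X Y k * kap c X Y l g := by
  unfold kap
  rw [mul_assoc, map_mul]

theorem kap_eq (c : C) (X Y : Od L) (l : L) (g : WL L C) :
    kap c X Y l g = Kh c X Y g * (opH c Y (UR X Y l))⁻¹ := by
  unfold kap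
  rw [map_mul]
  congr 1
  exact Kh_opH c (up_Rl X l) (up_Rl Y l)

theorem opH_empty (c : C) (X : Od L) : opH c X (∅ : Set L) = 1 :=
  WL_ext fun S => by
    have : cut S (∅ : Set L) = ∅ := by ext l; simp
    rw [pj_opH, this, op_empty, map_one]

theorem opH_singleton (c : C) (X : Od L) (l : L) : opH c X {l} = emb (lt l c) :=
  WL_ext fun S => by
    rw [pj_opH, pj_emb, ← op_singleton X c l, ret_op']
    congr 1
    ext m
    simp only [mem_cut, Set.mem_singleton_iff, Finset.mem_singleton, Finset.mem_coe]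
    exact and_comm

theorem opH_split (c : C) (X : Od L) {A A1 A2 : Set L} (hA : ∀ l, l ∈ A ↔ l ∈ A1 ∨ l ∈ A2)
    (h : ∀ a ∈ A1, ∀ b ∈ A2, X a < X b) : opH c X A = opH c X A1 * opH c X A2 :=
  WL_ext fun S => by
    rw [map_mul, pj_opH, pj_opH, pj_opH]
    refine op_split c X.injective.injOn (fun l => ?_)
      (fun a ha b hb => h a (mem_cut.1 ha).2 b (mem_cut.1 hb).2)
    simp only [mem_cut, hA]
    tauto

theorem opH_agr (c : C) {X X' : Od L} {A : Set L} (h : Agr A X X') : opH c X A = opH c X' A :=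
  WL_ext fun S => by
    rw [pj_opH, pj_opH]
    exact op_agr c (h.mono (fun l hl => (mem_cut.1 hl).2))

theorem Kh_congr (c : C) {X Y X' Y' : Od L} (hX : Agr Set.univ X X') (hY : Agr Set.univ Y Y')
    (ω : WL L C) : Kh c X Y ω = Kh c X' Y' ω :=
  WL_ext fun S => by
    rw [pj_Kh, pj_Kh]
    exact Kf_congr c (hX.mono (Set.subset_univ _)) (hY.mono (Set.subset_univ _)) (sup_pj S ω)

theorem mem_map_symm (σ : Equiv.Perm L) (S : Finset L) (l' : L) :
    l' ∈ S ↔ ∃ l ∈ S.map σ.symm.toEmbedding, σ l = l' := by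
  constructor
  · intro h
    exact ⟨σ.symm l', by simpa using h, by simp⟩
  · rintro ⟨l, hl, rfl⟩
    simpa using hl

theorem rlA_opH (σ : Equiv.Perm L) (c : C) {X X' : Od L} {A A' : Set L}
    (hx : ∀ a ∈ A, ∀ b ∈ A, X a < X b → X' (σ a) < X' (σ b)) (hA : ∀ l, σ l ∈ A' ↔ l ∈ A) :
    rlA σ (opH c X A) = opH c X' A' :=
  WL_ext fun S => by
    rw [rlA_apply, pj_rlH, pj_opH, pj_opH]
    refine rl_op σ c X.injective.injOn
      (fun a ha b hb => hx a (mem_cut.1 ha).2 b (mem_cut.1 hb).2) (fun l' => ?_)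
    simp only [mem_cut]
    constructor
    · intro h
      refine ⟨σ.symm l', ⟨by simpa using h.1, (hA _).1 (by simpa using h.2)⟩, by simp⟩
    · rintro ⟨l, hl, rfl⟩
      exact ⟨by simpa using hl.1, (hA l).2 hl.2⟩

theorem rlA_emb (σ : Equiv.Perm L) (g : W L C) : rlA σ (emb g) = emb (rl σ g) :=
  WL_ext fun S => by
    have e : (σ ⁻¹' (S : Set L)) = ((S.map σ.symm.toEmbedding : Finset L) : Set L) := by
      ext l; simp
    rw [rlA_apply, pj_rlH, pj_emb, pj_emb, ret_rl, e]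

theorem rlA_Kh (σ : Equiv.Perm L) (c : C) {X Y X' Y' : Od L}
    (hx : ∀ a b, X a < X b ↔ X' (σ a) < X' (σ b)) (hy : ∀ a b, Y a < Y b ↔ Y' (σ a) < Y' (σ b))
    (ω : WL L C) : rlA σ (Kh c X Y ω) = Kh c X' Y' (rlA σ ω) :=
  WL_ext fun S => by
    rw [rlA_apply, rlA_apply, pj_rlH, pj_Kh, pj_Kh, pj_rlH]
    exact rl_Kf σ c hx hy (mem_map_symm σ S) _

theorem rlA_kap (σ : Equiv.Perm L) (c : C) {X Y X' Y' : Od L}
    (hx : ∀ a b, X a < X b ↔ X' (σ a) < X' (σ b)) (hy : ∀ a b, Y a < Y b ↔ Y' (σ a) < Y' (σ b))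
    (l : L) (ω : WL L C) : rlA σ (kap c X Y l ω) = kap c X' Y' (σ l) (rlA σ ω) := by
  unfold kap
  rw [rlA_Kh σ c hx hy, map_mul, rlA_opH σ c (X' := X') (A := UR X Y l) (A' := UR X' Y' (σ l))
    (fun a _ b _ h => (hx a b).1 h) (fun m => and_congr (hx l m).symm (hy l m).symm)]

/-! Swaps. -/

theorem Swp.ne {S : Finset L} {X X' : Od L} {f s : L} (h : Swp S X X' f s) : f ≠ s :=
  fun e => by have := h.bef; rw [e] at this; exact lt_irrefl _ this

theorem Swp.symm {S : Finset L} {X X' : Od L} {f s : L} (h : Swp S X X' f s) : Swp S X' X s f :=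
  ⟨h.hs, h.hf, h.aft, h.bef, fun a ha b hb h1 h2 => (h.oth a ha b hb h2 h1).symm⟩

theorem Swp.dual {S : Finset L} {X X' : Od L} {f s : L} (h : Swp S X X' f s) :
    AgreeOff (toDual ∘ X) (toDual ∘ X') S f s :=
  fun m hm l hl h1 h2 => h.oth l hl m hm (fun k => h2 ⟨k.2, k.1⟩) (fun k => h1 ⟨k.2, k.1⟩)

theorem Kf_Kf_eq_Tr (c : C) (X X' Y : Od L) (S : Finset L) (g : W L C) :
    Kf c Y X' S (Kf c X Y S g) = Tr (toDual ∘ X) (toDual ∘ X') (toDual ∘ Y) c⁻¹ S g := by
  rw [Kf_eq_Phi, Kf_eq_Phi, Tr_apply]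

/-- The label moving right is the upper one. -/
theorem Kf_swap_up (c : C) {S : Finset L} {X X' : Od L} (Y : Od L) {f s : L} (h : Swp S X X' f s)
    (hY : Y s < Y f) {g : W L C} (hg : Sup (S : Set L) g) :
    Kf c Y X' S (Kf c X Y S g) = sw f s c⁻¹ g := by
  rw [Kf_Kf_eq_Tr]
  exact Tr_swap_right c⁻¹ (dual_inj X' S) (dual_inj Y S) h.hf h.hs hY h.dual h.bef h.aft hg

/-- The label moving right is the lower one. -/
theorem Kf_swap_down (c : C) {S : Finset L} {X X' : Od L} (Y : Od L) {f s : L}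
    (h : Swp S X X' f s) (hY : Y f < Y s) {g : W L C} (hg : Sup (S : Set L) g) :
    Kf c Y X' S (Kf c X Y S g) = sw s f c g := by
  rw [Kf_Kf_eq_Tr, Tr_swap_left c⁻¹ (dual_inj X S) (dual_inj X' S) (dual_inj Y S) h.hs h.hf hY
    h.dual.swap h.bef h.aft hg, inv_inv]

theorem kapf_trans (c : C) (X X' Y : Od L) (S : Finset L) (l : L) (g : W L C)
    (h : ∀ m ∈ S, ∀ n ∈ cut S (UR X Y l), X' n < X' m → Y n < Y m → m ∈ cut S (UR X Y l)) :
    kapf c Y X' S l (kapf c X Y S l g) = Kf c Y X' S (Kf c X Y S g) *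
      (op X' c (cut S (UR X Y l)) * (op X' c (cut S (UR X' Y l)))⁻¹) := by
  rw [kapf_eq c Y X', kapf_eq c X Y, map_mul, map_inv,
    Kf_op_of_upper c Y X' (cut_sub S _) (fun m hm n hn h1 h2 => h m hm n hn h2 h1), inv_inv,
    UR_comm Y X', mul_assoc]

theorem kapf_swap_up (c : C) {S : Finset L} {X X' : Od L} (Y : Od L) {f s : L}
    (h : Swp S X X' f s) (hY : Y s < Y f) {l : L} (hl : l ∈ S) {g : W L C}
    (hg : Sup (S : Set L) g) : kapf c Y X' S l (kapf c X Y S l g) = psw f s c⁻¹ l g := by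
  classical
  unfold psw
  by_cases e : l = s
  · subst e
    have hlt : ∀ m ∈ cut S (UR X Y l), X' f < X' m := by
      intro m hm
      obtain ⟨m1, m2, _⟩ := mem_cut.1 hm
      exact (h.oth f h.hf m m1 (fun k => by rw [k.2] at m2; exact lt_irrefl (X l) m2)
        (fun k => h.ne k.1)).1 (h.bef.trans m2)
    have hD : ∀ m, m ∈ cut S (UR X' Y l) ↔ m = f ∨ m ∈ cut S (UR X Y l) := by
      intro m
      constructor
      · intro hm
        obtain ⟨m1, m2, m3⟩ := mem_cut.1 hm
        by_cases k : m = f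
        · exact Or.inl k
        · exact Or.inr (mem_cut.2 ⟨m1, (h.oth l hl m m1 (fun k' => h.ne k'.1.symm)
            (fun k' => k k'.2)).2 m2, m3⟩)
      · rintro (rfl | hm)
        · exact mem_cut.2 ⟨h.hf, h.aft, hY⟩
        · exact mem_cut.2 ⟨(mem_cut.1 hm).1, h.aft.trans (hlt m hm), (mem_cut.1 hm).2.2⟩
    rw [kapf_trans c X X' Y S l g, Kf_swap_up c Y h hY hg,
      op_min c X'.injective.injOn hD hlt, if_pos rfl, lt_inv]
    · group
    · intro m hm n hn k1 k2
      have hn' := mem_cut.1 ((hD n).2 (Or.inr hn))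
      rcases (hD m).1 (mem_cut.2 ⟨hm, lt_trans hn'.2.1 k1, lt_trans hn'.2.2 k2⟩) with k | k
      · subst k
        exact absurd (k1.trans (hlt n hn)) (lt_irrefl _)
      · exact k
  · have hD : cut S (UR X Y l) = cut S (UR X' Y l) := by
      ext m
      simp only [mem_cut, mem_UR]
      refine and_congr_right (fun hm => and_congr_left (fun hy => ?_))
      exact h.oth l hl m hm (fun k => by rw [k.1, k.2] at hy; exact lt_asymm hy hY)
        (fun k => e k.1)
    rw [kapf_trans c X X' Y S l g, Kf_swap_up c Y h hY hg, hD, if_neg e, mul_inv_cancel]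
    intro m hm n hn k1 k2
    rw [hD] at hn ⊢
    exact mem_cut.2 ⟨hm, lt_trans (mem_cut.1 hn).2.1 k1, lt_trans (mem_cut.1 hn).2.2 k2⟩

theorem kapf_swap_down (c : C) {S : Finset L} {X X' : Od L} (Y : Od L) {f s : L}
    (h : Swp S X X' f s) (hY : Y f < Y s) {l : L} (hl : l ∈ S) {g : W L C}
    (hg : Sup (S : Set L) g) : kapf c Y X' S l (kapf c X Y S l g) = psw s f c l g := by
  classical
  unfold psw
  by_cases e : l = f
  · subst e
    have hlt : ∀ m ∈ cut S (UR X' Y l), X' s < X' m := fun m hm =>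
      h.aft.trans (mem_cut.1 hm).2.1
    have hD : ∀ m, m ∈ cut S (UR X Y l) ↔ m = s ∨ m ∈ cut S (UR X' Y l) := by
      intro m
      constructor
      · intro hm
        obtain ⟨m1, m2, m3⟩ := mem_cut.1 hm
        by_cases k : m = s
        · exact Or.inl k
        · exact Or.inr (mem_cut.2 ⟨m1, (h.oth l hl m m1 (fun k' => k k'.2)
            (fun k' => h.ne k'.1)).1 m2, m3⟩)
      · rintro (rfl | hm)
        · exact mem_cut.2 ⟨h.hs, h.bef, hY⟩
        · obtain ⟨m1, m2, m3⟩ := mem_cut.1 hm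
          exact mem_cut.2 ⟨m1, (h.oth l hl m m1
            (fun k => by rw [k.2] at m2; exact lt_asymm m2 h.aft) (fun k => h.ne k.1)).2 m2, m3⟩
    rw [kapf_trans c X X' Y S l g, Kf_swap_down c Y h hY hg,
      op_min c X'.injective.injOn hD hlt, if_pos rfl]
    · group
    · intro m hm n hn k1 k2
      rcases (hD n).1 hn with k | k
      · subst k
        have hmf : m ≠ l := fun k => by rw [k] at k2; exact lt_asymm k2 hY
        exact mem_cut.2 ⟨hm, lt_trans h.bef ((h.oth n h.hs m hm (fun k => h.ne k.1.symm)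
          (fun k => hmf k.2)).2 k1), lt_trans hY k2⟩
      · exact (hD m).2 (Or.inr (mem_cut.2
          ⟨hm, lt_trans (mem_cut.1 k).2.1 k1, lt_trans (mem_cut.1 k).2.2 k2⟩))
  · have hD : cut S (UR X Y l) = cut S (UR X' Y l) := by
      ext m
      simp only [mem_cut, mem_UR]
      refine and_congr_right (fun hm => and_congr_left (fun hy => ?_))
      exact h.oth l hl m hm (fun k => e k.1)
        (fun k => by rw [k.1, k.2] at hy; exact lt_asymm hy hY)
    rw [kapf_trans c X X' Y S l g, Kf_swap_down c Y h hY hg, hD, if_neg e, mul_inv_cancel]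
    intro m hm n hn k1 k2
    rw [hD] at hn ⊢
    exact mem_cut.2 ⟨hm, lt_trans (mem_cut.1 hn).2.1 k1, lt_trans (mem_cut.1 hn).2.2 k2⟩

/-- An adjacent swap acts on the coordinates of pointed letters by the swap map. -/
theorem kapf_swap (c : C) {S : Finset L} {X X' : Od L} (Y : Od L) {f s : L}
    (h : Swp S X X' f s) {l : L} (hl : l ∈ S) {g : W L C} (hg : Sup (S : Set L) g) :
    kapf c Y X' S l (kapf c X Y S l g) =
      if Y s < Y f then psw f s c⁻¹ l g else psw s f c l g := by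
  split_ifs with hY
  · exact kapf_swap_up c Y h hY hl hg
  · exact kapf_swap_down c Y h
      (lt_of_le_of_ne (not_lt.1 hY) (fun e => h.ne (Y.injective e))) hl hg

theorem sup_psw {S : Set L} {a : L} (ha : a ∈ S) (b : L) (x : C) (l : L) {g : W L C}
    (hg : Sup S g) : Sup S (psw a b x l g) := by
  unfold psw
  refine sup_mul (sup_sw ha b x hg) ?_
  split_ifs
  · exact sup_lt ha x
  · exact sup_one S

open Classical in
/-- The order after exchanging two labels. -/
noncomputable def odSwap (X : Od L) (a b : L) : Od L := (Equiv.swap a b).toEmbedding.trans X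

open Classical in
theorem odSwap_coe (X : Od L) (a b : L) : (odSwap X a b : L → Key) = X ∘ Equiv.swap a b := rfl

theorem swp_odSwap {X : Od L} {S : Finset L} {f s : L} (hf : f ∈ S) (hs : s ∈ S) (h : X f < X s)
    (hadj : ∀ m ∈ S, X f < X m → X m < X s → False) : Swp S X (odSwap X f s) f s :=
  ⟨hf, hs, h, by rw [odSwap_coe]; simpa using h,
    agreeOff_swap X.injective.injOn hf hs h hadj⟩

/-- Bubble sort towards the order `X1`. -/
theorem bubble_od {S : Finset L} (X1 : Od L) {P : Od L → Prop}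
    (h0 : ∀ X : Od L, Agr (S : Set L) X X1 → P X)
    (hs : ∀ (X : Od L) (f s : L), Swp S X (odSwap X f s) f s → X1 s < X1 f →
      (∀ m ∈ S, X f < X m → X m < X s → False) → P (odSwap X f s) → P X) (X : Od L) : P X := by
  classical
  have key : ∀ n : ℕ, ∀ X : Od L,
      ((S ×ˢ S).filter (fun e => X e.1 < X e.2 ∧ X1 e.2 < X1 e.1)).card ≤ n → P X := by
    intro n
    induction n using Nat.strong_induction_on with
    | _ n ih =>
      intro X hc
      by_cases hex : ∃ a ∈ S, ∃ b ∈ S, X a < X b ∧ X1 b < X1 a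
      · obtain ⟨a, ha, b, hb, h1, h2, hadj⟩ := exists_adjacent X1.injective.injOn hex
        have hw := swp_odSwap ha hb h1 hadj
        refine hs X a b hw h2 hadj ?_
        refine ih _ (lt_of_lt_of_le (Finset.card_lt_card ?_) hc) _ le_rfl
        refine ⟨fun e he => ?_, fun hsub => ?_⟩
        · rw [Finset.mem_filter, Finset.mem_product] at he ⊢
          refine ⟨he.1, (hw.oth e.1 he.1.1 e.2 he.1.2 (fun k => ?_) (fun k => ?_)).2 he.2.1,
            he.2.2⟩
          · rw [k.1, k.2] at he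
            exact lt_asymm he.2.1 hw.aft
          · rw [k.1, k.2] at he
            exact lt_asymm he.2.2 h2
        · have : (a, b) ∈ (S ×ˢ S).filter (fun e => X e.1 < X e.2 ∧ X1 e.2 < X1 e.1) :=
            Finset.mem_filter.2 ⟨Finset.mem_product.2 ⟨ha, hb⟩, h1, h2⟩
          exact lt_asymm (Finset.mem_filter.1 (hsub this)).2.1 hw.aft
      · refine h0 X (fun a ha b hb => ⟨fun h => ?_, fun h => ?_⟩)
        · rcases lt_trichotomy (X1 a) (X1 b) with k | k | k
          · exact k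
          · rw [X1.injective k] at h
            exact absurd h (lt_irrefl _)
          · exact absurd ⟨a, ha, b, hb, h, k⟩ hex
        · rcases lt_trichotomy (X a) (X b) with k | k | k
          · exact k
          · rw [X.injective k] at h
            exact absurd h (lt_irrefl _)
          · exact absurd ⟨b, hb, a, ha, k, h⟩ hex
  exact key _ X le_rfl

/-- Inverted pairs after a swap towards `X1` were inverted before. -/
theorem Swp.inv_sub {S : Finset L} {X X' X1 : Od L} {f s : L} (h : Swp S X X' f s)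
    (h1 : X1 s < X1 f) {a b : L} (ha : a ∈ S) (hb : b ∈ S) (k1 : X' a < X' b)
    (k2 : X1 b < X1 a) : X a < X b := by
  refine (h.oth a ha b hb (fun k => ?_) (fun k => ?_)).2 k1
  · rw [k.1, k.2] at k1
    exact lt_asymm k1 h.aft
  · rw [k.1, k.2] at k2
    exact lt_asymm k2 h1

theorem kapf_same (c : C) {S : Finset L} {X X' : Od L} (Y : Od L) (h : Agr (S : Set L) X X')
    {l : L} (hl : l ∈ S) {g : W L C} (hg : Sup (S : Set L) g) :
    kapf c Y X' S l (kapf c X Y S l g) = g := by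
  rw [kapf_congr c h (Agr.refl _ Y) hl hg, kapf_kapf]

/-- The transition of pointed coordinates depends only on the transverse order of the inverted
pairs. -/
theorem kapf_R (c : C) {S : Finset L} (X X1 Y Y' : Od L)
    (h : ∀ a ∈ S, ∀ b ∈ S, X a < X b → X1 b < X1 a → (Y a < Y b ↔ Y' a < Y' b)) {l : L}
    (hl : l ∈ S) {g : W L C} (hg : Sup (S : Set L) g) :
    kapf c Y X1 S l (kapf c X Y S l g) = kapf c Y' X1 S l (kapf c X Y' S l g) := by
  revert g h
  refine bubble_od (S := S) X1 (P := fun X => (∀ a ∈ S, ∀ b ∈ S, X a < X b → X1 b < X1 a →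
      (Y a < Y b ↔ Y' a < Y' b)) → ∀ {g : W L C}, Sup (S : Set L) g →
      kapf c Y X1 S l (kapf c X Y S l g) = kapf c Y' X1 S l (kapf c X Y' S l g)) ?_ ?_ X
  · intro X hag _ g hg
    rw [kapf_same c Y hag hl hg, kapf_same c Y' hag hl hg]
  · intro X f s hw h1 _ ih h g hg
    have hyy := h f hw.hf s hw.hs hw.bef h1
    have hy2 : Y s < Y f ↔ Y' s < Y' f := by
      have n1 : Y f ≠ Y s := fun e => hw.ne (Y.injective e)
      have n2 : Y' f ≠ Y' s := fun e => hw.ne (Y'.injective e)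
      rw [← not_iff_not, not_lt, not_lt, le_iff_lt_or_eq, le_iff_lt_or_eq, hyy]
      simp [n1, n2]
    have e : kapf c Y (odSwap X f s) S l (kapf c X Y S l g) =
        kapf c Y' (odSwap X f s) S l (kapf c X Y' S l g) := by
      rw [kapf_swap c Y hw hl hg, kapf_swap c Y' hw hl hg]
      simp only [hy2]
    have := ih (fun a ha b hb k1 k2 => h a ha b hb (hw.inv_sub h1 ha hb k1 k2) k2)
      (sup_kapf c Y (odSwap X f s) l (sup_kapf c X Y l hg))
    rw [kapf_kapf, e, kapf_kapf] at this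
    exact this

theorem Kf_R (c : C) {S : Finset L} (X X1 Y Y' : Od L)
    (h : ∀ a ∈ S, ∀ b ∈ S, X a < X b → X1 b < X1 a → (Y a < Y b ↔ Y' a < Y' b))
    {g : W L C} (hg : Sup (S : Set L) g) :
    Kf c Y X1 S (Kf c X Y S g) = Kf c Y' X1 S (Kf c X Y' S g) := by
  rw [Kf_Kf_eq_Tr, Kf_Kf_eq_Tr]
  exact Tr_congr c⁻¹ (dual_inj X S) (dual_inj X1 S) (dual_inj Y S) (dual_inj Y' S)
    (fun a ha b hb k1 k2 => h b hb a ha k1 k2) hg

theorem kap_R (c : C) (X X1 Y Y' : Od L)
    (h : ∀ a b, X a < X b → X1 b < X1 a → (Y a < Y b ↔ Y' a < Y' b)) (l : L) (g : WL L C) :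
    kap c Y X1 l (kap c X Y l g) = kap c Y' X1 l (kap c X Y' l g) :=
  WL_ext fun S => by
    classical
    have hS : S ⊆ insert l S := Finset.subset_insert l S
    rw [← ret_pj hS, ← ret_pj hS (kap c Y' X1 l _), pj_kap, pj_kap, pj_kap, pj_kap,
      kapf_R c X X1 Y Y' (fun a _ b _ => h a b) (Finset.mem_insert_self l S) (sup_pj _ g)]

theorem Kh_R (c : C) (X X1 Y Y' : Od L)
    (h : ∀ a b, X a < X b → X1 b < X1 a → (Y a < Y b ↔ Y' a < Y' b)) (g : WL L C) :
    Kh c Y X1 (Kh c X Y g) = Kh c Y' X1 (Kh c X Y' g) :=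
  WL_ext fun S => by
    rw [pj_Kh, pj_Kh, pj_Kh, pj_Kh]
    exact Kf_R c X X1 Y Y' (fun a _ b _ => h a b) (sup_pj S g)

theorem kap_congr (c : C) {X Y X' Y' : Od L} (hX : Agr Set.univ X X') (hY : Agr Set.univ Y Y')
    (l : L) (g : WL L C) : kap c X Y l g = kap c X' Y' l g :=
  WL_ext fun S => by
    classical
    have hS : S ⊆ insert l S := Finset.subset_insert l S
    rw [← ret_pj hS, ← ret_pj hS (kap c X' Y' l _), pj_kap, pj_kap,
      kapf_congr c (hX.mono (Set.subset_univ _)) (hY.mono (Set.subset_univ _))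
        (Finset.mem_insert_self l S) (sup_pj _ g)]

end Pool.Agent.E5f

end

section

set_option autoImplicit false

namespace Pool.Agent.E5f

open Filter Classical

section
variable {L C : Type} [CommGroup C]

/-- A configuration which consists of `n` translates of the golden lattice. -/
structure Grid (Z : Cfg L) (n : ℕ) where
  e : L ≃ Fin n × ℤ × ℤ
  ox : Fin n → ℝ
  oy : Fin n → ℝ
  hx : ∀ l, Z.x l = ox (e l).1 + (e l).2.1 + Real.goldenRatio * (e l).2.2
  hy : ∀ l, Z.y l = oy (e l).1 + (e l).2.1 + Real.goldenConj * (e l).2.2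
  ox0 : ∀ i, 0 ≤ ox i
  ox1 : ∀ i, ox i < Real.goldenRatio
  inj : Function.Injective Z.x

namespace Grid
variable {Z : Cfg L} {n : ℕ} (G : Grid Z n)

/-- Translation of labels. -/
def tv (v : ℤ × ℤ) : Equiv.Perm L :=
  (G.e.trans (Equiv.prodCongr (Equiv.refl _) (Equiv.addRight v))).trans G.e.symm

/-- The first generator. -/
noncomputable def pa (c : C) : Big L C :=
  ⟨stp c Z.X (Rs Z.x (0, false)) (Rs Z.x (1, false)) {l | 1 ≤ (G.e l).2.1}, G.tv (1, 0)⟩

/-- The second generator. -/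
noncomputable def pb (c : C) : Big L C :=
  ⟨stp c Z.X (Rs Z.x (0, false)) (Rs Z.x (Real.goldenRatio, false)) {l | 0 ≤ (G.e l).2.1},
    G.tv (0, 1)⟩

/-- The translations which preserve the class of the trivial word at the cut `0`. -/
def Gam (c : C) : Set (Big L C) :=
  {z | ∃ v b, z.right = G.tv v ∧
    BoxW c Z b (Rs Z.x (0, false)) (G.tv v '' Rs Z.x (0, false)) z.left}

end Grid

end

/-- The action of the figure-eight group on a planar model of the base. -/
structure BAct {Q : Type} [MulAction G8 Q] (B : Plan cz E0.bc Q) (P0 : Q) where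
  ρ : G8 →* Big Zl CZ
  e : G8 → Zl
  rt : ∀ γ p, (ρ γ).right p = ((E0.uω ^ (2 * g8deg γ) : Zlˣ) : Zl) * p + e γ
  hg : ∀ γ q, B.g (γ • q) = (ρ γ).left * rlA (ρ γ).right (B.g q)
  hu : ∀ γ q, B.u (γ • q) =
    ((Real.goldenRatio ^ 2) ^ (g8deg γ) * (B.u q).1 + E0.ξ (e γ), (B.u q).2)
  hw : ∀ γ q, B.w (γ • q) =
    ((Real.goldenRatio ^ 2) ^ (-g8deg γ) * (B.w q).1 + E0.η (e γ), (B.w q).2)
  g0 : B.g P0 = 1
  c0 : B.Cusp 0 P0
  hc : (ρ g8c).left = emb (lt 0 cz⁻¹) ∧ e g8c = 0
  ht : (ρ g8t).left = 1 ∧ e g8t = 0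
  cusp : ∀ r a, B.Cusp a r → ∃ γ : G8, g8deg γ = 0 ∧ γ • P0 = r
  free : ∀ γ : G8, g8deg γ = 0 → γ • P0 = P0 → γ = 1

end Pool.Agent.E5f

end

section

/-!
Box words: closure properties, labels outside the box, normal form, attainment of the distance.
-/

set_option autoImplicit false

namespace Pool.Agent.E5f

open Filter

section
variable {L C : Type} [CommGroup C]

theorem pj_stp (c : C) (X : Od L) (S : Finset L) (R R' D : Set L) :
    pj S (stp c X R R' D) = op X c (cut S (R ∩ D)) * (op X c (cut S (R' ∩ D)))⁻¹ := by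
  simp [stp]

theorem stp_self (c : C) (X : Od L) (R D : Set L) : stp c X R R D = 1 := by simp [stp]

theorem stp_inv (c : C) (X : Od L) (R R' D : Set L) : (stp c X R R' D)⁻¹ = stp c X R' R D := by
  simp [stp]

theorem stp_mul (c : C) (X : Od L) (R R' R'' D : Set L) :
    stp c X R R' D * stp c X R' R'' D = stp c X R R'' D := by simp [stp]

theorem InB.mono {ρ : L → ℝ} {lo hi lo' hi' : ℝ} {R : Set L} (h : InB ρ lo hi R) (h1 : lo' ≤ lo)
    (h2 : hi ≤ hi') : InB ρ lo' hi' R :=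
  fun l => ⟨fun h3 => (h l).1 (lt_of_le_of_lt h2 h3), fun h3 => (h l).2 (lt_of_lt_of_le h3 h1)⟩

theorem Cfg.X_lt (Z : Cfg L) {l m : L} (h : Z.x l < Z.x m) : Z.X l < Z.X m := by
  have := Prod.Lex.toLex_lt_toLex (x := ofLex (Z.X l)) (y := ofLex (Z.X m))
  simp only [toLex_ofLex] at this
  exact this.2 (Or.inl h)

theorem Cfg.x_le (Z : Cfg L) {l m : L} (h : Z.X l ≤ Z.X m) : Z.x l ≤ Z.x m := by
  by_contra h1
  exact absurd (Z.X_lt (not_le.1 h1)) (not_lt.2 h)

theorem Cfg.up_Rs (Z : Cfg L) (u : Mk) : Up Z.X (Rs Z.x u) := by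
  intro l m hl hlm
  have h := Z.x_le hlm.le
  rcases hl with hl | hl
  · exact Or.inl (lt_of_lt_of_le hl h)
  · rcases h.lt_or_eq with h | h
    · exact Or.inl (hl.1 ▸ h)
    · exact Or.inr ⟨hl.1.trans h, hl.2⟩

theorem at_Rs (ρ : L → ℝ) (u : Mk) : At ρ (Rs ρ u) u.1 := by
  intro l
  refine ⟨fun h => ?_, fun h => ?_⟩
  · rcases h with h | h
    · exact h.le
    · exact h.1.le
  · by_contra h1
    exact h (Or.inl (not_le.1 h1))

theorem At.inB {ρ : L → ℝ} {R : Set L} {a lo hi : ℝ} (h : At ρ R a) (h1 : lo ≤ a) (h2 : a ≤ hi) :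
    InB ρ lo hi R := by
  intro l
  refine ⟨fun h3 => ?_, fun h3 h4 => ?_⟩
  · by_contra h4
    have := (h l).2 h4
    linarith
  · have := (h l).1 h4
    linarith

theorem Cfg.at_Rl (Z : Cfg L) (l : L) : At Z.x (Rl Z.X l) (Z.x l) := fun _ =>
  ⟨fun h => Z.x_le (le_of_lt h), fun h => Z.x_le (not_lt.1 h)⟩

theorem Cfg.bl_fin (Z : Cfg L) (b : Bx) : (Z.bl b).Finite := by
  refine (Z.fin (|b.x0| + |b.x1| + |b.y0| + |b.y1|)).subset ?_
  rintro l ⟨h1, h2, h3, h4⟩
  have e1 := abs_nonneg b.x0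
  have e2 := abs_nonneg b.x1
  have e3 := abs_nonneg b.y0
  have e4 := abs_nonneg b.y1
  have f1 := neg_abs_le b.x0
  have f2 := le_abs_self b.x1
  have f3 := neg_abs_le b.y0
  have f4 := le_abs_self b.y1
  exact ⟨abs_le.2 ⟨by change _ ≤ Z.x l; linarith, by change Z.x l ≤ _; linarith⟩,
    abs_le.2 ⟨by change _ ≤ Z.y l; linarith, by change Z.y l ≤ _; linarith⟩⟩

theorem Cfg.bl_tr (Z : Cfg L) (b : Bx) : Z.tr.bl b.tr = Z.bl b := by
  ext l
  exact ⟨fun h => ⟨h.2.2.1, h.2.2.2, h.1, h.2.1⟩, fun h => ⟨h.2.2.1, h.2.2.2, h.1, h.2.1⟩⟩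

theorem Bx.Mem.tr {b : Bx} {s t : ℝ} (h : b.Mem s t) : b.tr.Mem t s :=
  ⟨h.2.2.1, h.2.2.2, h.1, h.2.1⟩

theorem Bx.Mem.mono {b b' : Bx} {s t : ℝ} (h : b.Mem s t) (hb : b.Sub b') : b'.Mem s t :=
  ⟨hb.1.trans h.1, h.2.1.trans hb.2.1, hb.2.2.1.trans h.2.2.1, h.2.2.2.trans hb.2.2.2⟩

theorem Bx.Sub.tr {b b' : Bx} (h : b.Sub b') : b.tr.Sub b'.tr := ⟨h.2.2.1, h.2.2.2, h.1, h.2.1⟩

theorem Bx.Sub.refl (b : Bx) : b.Sub b := ⟨le_rfl, le_rfl, le_rfl, le_rfl⟩

theorem Bx.Sub.trans {b b' b'' : Bx} (h : b.Sub b') (h' : b'.Sub b'') : b.Sub b'' :=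
  ⟨h'.1.trans h.1, h.2.1.trans h'.2.1, h'.2.2.1.trans h.2.2.1, h.2.2.2.trans h'.2.2.2⟩

/-- The smallest box containing two boxes. -/
noncomputable def Bx.sup (b b' : Bx) : Bx :=
  ⟨min b.x0 b'.x0, max b.x1 b'.x1, min b.y0 b'.y0, max b.y1 b'.y1⟩

theorem Bx.sub_sup_left (b b' : Bx) : b.Sub (b.sup b') :=
  ⟨min_le_left _ _, le_max_left _ _, min_le_left _ _, le_max_left _ _⟩

theorem Bx.sub_sup_right (b b' : Bx) : b'.Sub (b.sup b') :=
  ⟨min_le_right _ _, le_max_right _ _, min_le_right _ _, le_max_right _ _⟩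

theorem Cfg.bl_mono (Z : Cfg L) {b b' : Bx} (h : b.Sub b') : Z.bl b ⊆ Z.bl b' :=
  fun _ hl => Bx.Mem.mono hl h

variable {c : C} {Z : Cfg L} {b : Bx}

theorem BoxW.left {R R' : Set L} {ω : WL L C} (h : BoxW c Z b R R' ω) :
    Up Z.X R ∧ InB Z.x b.x0 b.x1 R := by
  induction h with
  | refl h1 h2 => exact ⟨h1, h2⟩
  | step _ _ _ _ ih => exact ih

theorem BoxW.right {R R' : Set L} {ω : WL L C} (h : BoxW c Z b R R' ω) :
    Up Z.X R' ∧ InB Z.x b.x0 b.x1 R' := by
  cases h with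
  | refl h1 h2 => exact ⟨h1, h2⟩
  | step _ h1 h2 _ => exact ⟨h1, h2⟩

theorem BoxW.single {R R' D : Set L} (h1 : Up Z.X R) (h2 : InB Z.x b.x0 b.x1 R) (h3 : Up Z.X R')
    (h4 : InB Z.x b.x0 b.x1 R') (h5 : InB Z.y b.y0 b.y1 D) :
    BoxW c Z b R R' (stp c Z.X R R' D) := by
  have := (BoxW.refl (c := c) h1 h2).step h3 h4 h5
  rwa [one_mul] at this

theorem BoxW.trans {R R' R'' : Set L} {ω ω' : WL L C} (h : BoxW c Z b R R' ω)
    (h' : BoxW c Z b R' R'' ω') : BoxW c Z b R R'' (ω * ω') := by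
  induction h' with
  | refl _ _ => rwa [mul_one]
  | step _ h1 h2 h3 ih => rw [← mul_assoc]; exact ih.step h1 h2 h3

theorem BoxW.symm {R R' : Set L} {ω : WL L C} (h : BoxW c Z b R R' ω) :
    BoxW c Z b R' R ω⁻¹ := by
  induction h with
  | refl h1 h2 => rw [inv_one]; exact BoxW.refl h1 h2
  | step h0 h1 h2 h3 ih =>
    rw [mul_inv_rev, stp_inv]
    exact (BoxW.single h1 h2 h0.right.1 h0.right.2 h3).trans ih

theorem BoxW.mono {b' : Bx} {R R' : Set L} {ω : WL L C} (h : BoxW c Z b R R' ω)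
    (hb : b.Sub b') : BoxW c Z b' R R' ω := by
  induction h with
  | refl h1 h2 => exact BoxW.refl h1 (h2.mono hb.1 hb.2.1)
  | step _ h1 h2 h3 ih => exact ih.step h1 (h2.mono hb.1 hb.2.1) (h3.mono hb.2.2.1 hb.2.2.2)

theorem op_cut_split (c : C) (X : Od L) (S : Finset L) (A : Set L) (ν : L) :
    op X c (cut S A) = op X c (cut S (A ∩ {m | X m < X ν})) *
      op X c (cut S (A ∩ {m | X ν ≤ X m})) := by
  refine op_split c X.injective.injOn (fun l => ?_) (fun a ha b hb => ?_)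
  · simp only [mem_cut, Set.mem_inter_iff, Set.mem_setOf_eq]
    rcases lt_or_ge (X l) (X ν) with h | h
    · simp [h, not_le.2 h]
    · simp [h, not_lt.2 h]
  · exact lt_of_lt_of_le (mem_cut.1 ha).2.2 (mem_cut.1 hb).2.2

theorem cut_add {S S' : Finset L} {ν : L} (hS : ∀ l, l ∈ S' ↔ l = ν ∨ l ∈ S) {A : Set L}
    (h : ν ∉ A) : cut S' A = cut S A := by
  ext l
  simp only [mem_cut, hS]
  constructor
  · rintro ⟨rfl | h1, h2⟩
    · exact absurd h2 h
    · exact ⟨h1, h2⟩
  · exact fun h1 => ⟨Or.inr h1.1, h1.2⟩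

/-- Labels that are low or outside do not occur. -/
theorem BoxW.out {R R' : Set L} {ω : WL L C} (h : BoxW c Z b R R' ω) {S S' : Finset L} {ν : L}
    (hS : ∀ l, l ∈ S' ↔ l = ν ∨ l ∈ S)
    (hν : Z.x ν < b.x0 ∨ b.x1 < Z.x ν ∨ Z.y ν < b.y0) : pj S' ω = pj S ω := by
  induction h with
  | refl _ _ => simp
  | @step R1 R2 D ω h0 h1 h2 h3 ih =>
    rw [map_mul, map_mul, ih, pj_stp, pj_stp]
    congr 1
    rcases hν with hν | hν | hν
    · rw [cut_add hS (fun h => (h0.right.2 ν).2 hν h.1), cut_add hS (fun h => (h2 ν).2 hν h.1)]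
    · have key : ∀ R : Set L, Up Z.X R → InB Z.x b.x0 b.x1 R →
          R ∩ D ∩ {m | Z.X ν ≤ Z.X m} = D ∩ {m | Z.X ν ≤ Z.X m} := by
        intro R u1 u2
        ext m
        simp only [Set.mem_inter_iff, Set.mem_setOf_eq]
        refine ⟨fun h => ⟨h.1.2, h.2⟩, fun h => ⟨⟨?_, h.1⟩, h.2⟩⟩
        exact (u2 m).1 (lt_of_lt_of_le hν (Z.x_le h.2))
      have hn : ∀ A : Set L, ν ∉ A ∩ {m | Z.X m < Z.X ν} := fun A h => lt_irrefl (Z.X ν) h.2
      rw [op_cut_split c Z.X S' (R1 ∩ D) ν, op_cut_split c Z.X S' (R2 ∩ D) ν,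
        op_cut_split c Z.X S (R1 ∩ D) ν, op_cut_split c Z.X S (R2 ∩ D) ν,
        key R1 h0.right.1 h0.right.2, key R2 h1 h2, cut_add hS (hn _), cut_add hS (hn _)]
      group
    · rw [cut_add hS (fun h => (h3 ν).2 hν h.2), cut_add hS (fun h => (h3 ν).2 hν h.2)]

open Classical in
theorem ins_lt (c : C) (X : Od L) (ν l : L) (x : C) :
    ins c X ν (lt l x) = if X l < X ν then (lt ν c)⁻¹ * lt l x * lt ν c else lt l x := by
  unfold ins; rw [lf_lt]; split_ifs <;> simp

theorem ins_low (c : C) (X : Od L) (ν : L) {g : W L C} (h : Sup {l | X l < X ν} g) :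
    ins c X ν g = (lt ν c)⁻¹ * g * lt ν c := by
  have := W_ext_sup (f := ins c X ν) (f' := (MulAut.conj (lt ν c : W L C)⁻¹).toMonoidHom)
    (S := {l | X l < X ν}) (fun l hl x => by rw [ins_lt, if_pos (show X l < X ν from hl)]; simp) h
  simpa using this

theorem ins_high (c : C) (X : Od L) (ν : L) {g : W L C} (h : Sup {l | X ν ≤ X l} g) :
    ins c X ν g = g :=
  W_ext_sup (f := ins c X ν) (f' := MonoidHom.id _) (S := {l | X ν ≤ X l})
    (fun l hl x => by rw [ins_lt, if_neg (not_lt.2 hl)]; rfl) h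

theorem op_ins (c : C) (X : Od L) {S S' : Finset L} {ν : L} (hS : ∀ l, l ∈ S' ↔ l = ν ∨ l ∈ S)
    (hν : ν ∉ S) {R D : Set L} (hR : Up X R) (hD : ν ∈ D) :
    op X c (cut S' (R ∩ D)) = jj c ν R * ins c X ν (op X c (cut S (R ∩ D))) := by
  classical
  rw [op_cut_split c X S' (R ∩ D) ν, op_cut_split c X S (R ∩ D) ν, map_mul,
    ins_low c X ν (sup_op c (fun l hl => (mem_cut.1 hl).2.2)),
    ins_high c X ν (sup_op c (fun l hl => (mem_cut.1 hl).2.2)),
    cut_add hS (A := R ∩ D ∩ {m | X m < X ν}) (fun h => lt_irrefl (X ν) h.2)]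
  unfold jj
  by_cases h : ν ∈ R
  · rw [if_pos h, op_min c (D := cut S' (R ∩ D ∩ {m | X ν ≤ X m}))
      (D' := cut S (R ∩ D ∩ {m | X ν ≤ X m})) (l := ν) X.injective.injOn]
    · group
    · intro m
      simp only [mem_cut, hS]
      constructor
      · rintro ⟨h1 | h1, h2⟩
        · exact Or.inl h1
        · exact Or.inr ⟨h1, h2⟩
      · rintro (rfl | h1)
        · exact ⟨Or.inl rfl, ⟨h, hD⟩, le_refl (X m)⟩
        · exact ⟨Or.inr h1.1, h1.2⟩
    · intro a ha
      rw [mem_cut] at ha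
      exact lt_of_le_of_ne ha.2.2 (fun he => hν (X.injective he ▸ ha.1))
  · have e : cut S (R ∩ D ∩ {m | X m < X ν}) = ∅ := by
      ext m
      simp only [mem_cut, Finset.notMem_empty, iff_false]
      exact fun h1 => h (hR m ν h1.2.1.1 h1.2.2)
    rw [if_neg h, e, cut_add hS (fun h1 => h h1.1.1)]
    simp


/-- Insertion of a high label. -/
theorem BoxW.high {R R' : Set L} {ω : WL L C} (h : BoxW c Z b R R' ω) {S S' : Finset L} {ν : L}
    (hS : ∀ l, l ∈ S' ↔ l = ν ∨ l ∈ S) (hν : ν ∉ S) (hy : b.y1 < Z.y ν) :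
    pj S' ω = jj c ν R * ins c Z.X ν (pj S ω) * (jj c ν R')⁻¹ := by
  induction h with
  | refl _ _ => simp
  | @step R1 R2 D ω h0 h1 h2 h3 ih =>
    rw [map_mul, map_mul, ih, pj_stp, pj_stp, op_ins c Z.X hS hν h0.right.1 ((h3 ν).1 hy),
      op_ins c Z.X hS hν h1 ((h3 ν).1 hy), map_mul, map_mul, map_inv]
    group

/-- Adding labels one at a time. -/
theorem add_ind {p : Finset L → Prop} {S : Finset L} (h0 : p S)
    (h : ∀ (S1 S' : Finset L) (ν : L), S ⊆ S1 → ν ∉ S1 → (∀ l, l ∈ S' ↔ l = ν ∨ l ∈ S1) → p S1 →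
      p S') : ∀ S', S ⊆ S' → p S' := by
  classical
  have key : ∀ T : Finset L, p (S ∪ T) := by
    intro T
    induction T using Finset.induction_on with
    | empty => simpa using h0
    | insert ν T _ ih =>
      by_cases h1 : ν ∈ S ∪ T
      · rw [Finset.union_insert, Finset.insert_eq_of_mem h1]; exact ih
      · exact h (S ∪ T) _ ν Finset.subset_union_left h1 (fun l => by
          rw [Finset.union_insert, Finset.mem_insert]) ih
  intro S' hS'
  have := key S'
  rwa [Finset.union_eq_right.2 hS'] at this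

theorem Cfg.not_bl (Z : Cfg L) {b : Bx} {ν : L} (h : ν ∉ Z.bl b) :
    (Z.x ν < b.x0 ∨ b.x1 < Z.x ν ∨ Z.y ν < b.y0) ∨ b.y1 < Z.y ν := by
  by_contra h1
  push Not at h1
  exact h ⟨h1.1.1, h1.1.2.1, h1.1.2.2, h1.2⟩

theorem WL_ext_of {ω ω' : WL L C} (S : Finset L) (h : ∀ S', S ⊆ S' → pj S' ω = pj S' ω') :
    ω = ω' := by
  classical
  refine WL_ext fun T => ?_
  rw [← ret_pj (Finset.subset_union_right (s₁ := S)) ω,
    ← ret_pj (Finset.subset_union_right (s₁ := S)) ω', h _ Finset.subset_union_left]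

/-- Normal form: a box word is determined by its level at the labels of the box. -/
theorem BoxW.nf {R R' : Set L} {ω ω' : WL L C} (h : BoxW c Z b R R' ω) (h' : BoxW c Z b R R' ω')
    {S : Finset L} (hS : Z.bl b ⊆ S) (he : pj S ω = pj S ω') : ω = ω' := by
  refine WL_ext_of S (add_ind (p := fun S' => pj S' ω = pj S' ω') he ?_)
  intro S1 S' ν h1 h2 h3 ih
  rcases Z.not_bl (fun h4 => h2 (h1 (hS h4))) with h4 | h4
  · rw [h.out h3 h4, h'.out h3 h4, ih]
  · rw [h.high h3 h2 h4, h'.high h3 h2 h4, ih]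

open Classical in
theorem ev_wv (c : C) (ν : L) (s t : Prop) :
    ev (wv c ν s t) = (if s then lt ν c else 1) * (if t then lt ν c else 1)⁻¹ := by
  unfold wv
  by_cases hs : s <;> by_cases ht : t <;> simp [hs, ht, lt_inv]

open Classical in
theorem ev_weave (c : C) (X : Od L) (ν : L) : ∀ (w : List (L × C)) (s t : Prop),
    ev (weave c X ν s w t) =
      (if s then lt ν c else 1) * ins c X ν (ev w) * (if t then lt ν c else 1)⁻¹
  | [], s, t => by simp [weave, ev_wv]
  | e :: w, s, t => by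
    rw [weave, ev_append, ev_cons, ev_weave c X ν w, ev_wv, ev_cons, map_mul, ins_lt]
    split_ifs <;> group

theorem wv_cases (c : C) (ν : L) (s t : Prop) :
    ((s ↔ t) ∧ wv c ν s t = []) ∨ (¬ (s ↔ t) ∧ ∃ x, (x = c ∨ x = c⁻¹) ∧ wv c ν s t = [(ν, x)]) := by
  unfold wv
  by_cases h : s ↔ t
  · exact Or.inl ⟨h, if_pos h⟩
  · refine Or.inr ⟨h, _, ?_, if_neg h⟩
    split_ifs
    · exact Or.inl rfl
    · exact Or.inr rfl

theorem head_weave (c : C) (X : Od L) (ν : L) (w : List (L × C)) (s t : Prop) :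
    ∀ e ∈ (weave c X ν s w t).head?, e.1 = ν ∨ e ∈ w.head? := by
  intro e he
  cases w with
  | nil =>
    rcases wv_cases c ν s t with h | ⟨-, x, -, h⟩
    · simp [weave, h.2] at he
    · simp only [weave, h, List.head?_cons, Option.mem_def, Option.some.injEq] at he
      exact Or.inl (by rw [← he])
  | cons a w =>
    rcases wv_cases c ν s (X a.1 < X ν) with h | ⟨-, x, -, h⟩
    · simp only [weave, h.2, List.nil_append, List.head?_cons] at he
      exact Or.inr he
    · simp only [weave, h, List.cons_append, List.head?_cons, Option.mem_def,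
        Option.some.injEq] at he
      exact Or.inl (by rw [← he])

theorem red_weave {c : C} (hc : c ≠ 1) (X : Od L) (ν : L) : ∀ (w : List (L × C)) (s t : Prop),
    Red w → (∀ e ∈ w, e.1 ≠ ν) → Red (weave c X ν s w t)
  | [], s, t, _, _ => by
    rcases wv_cases c ν s t with h | ⟨-, x, hx, h⟩
    · rw [weave, h.2]; exact ⟨by simp, by simp⟩
    · rw [weave, h]
      refine ⟨?_, by simp⟩
      rcases hx with rfl | rfl <;> simpa using hc
  | e :: w, s, t, hr, hn => by
    have ih := red_weave hc X ν w (X e.1 < X ν) t hr.tail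
      (fun a ha => hn a (List.mem_cons_of_mem _ ha))
    have h1 : Red (e :: weave c X ν (X e.1 < X ν) w t) := by
      refine ih.cons (hr.1 e (by simp)) (fun a ha => ?_)
      rcases head_weave c X ν w _ t a ha with h | h
      · rw [h]; exact hn e (by simp)
      · exact (List.isChain_cons.1 hr.2).1 a h
    rw [weave]
    rcases wv_cases c ν s (X e.1 < X ν) with h | ⟨-, x, hx, h⟩
    · rw [h.2]; exact h1
    · rw [h]
      refine h1.cons ?_ ?_
      · rcases hx with rfl | rfl <;> simpa using hc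
      · intro a ha
        simp only [List.head?_cons, Option.mem_def, Option.some.injEq] at ha
        subst ha
        exact (hn _ (by simp)).symm

/-- The reduced word after the insertion of a high label. -/
theorem BoxW.wd_high (hc : c ≠ 1) {R R' : Set L} {ω : WL L C} (h : BoxW c Z b R R' ω)
    {S S' : Finset L} {ν : L} (hS : ∀ l, l ∈ S' ↔ l = ν ∨ l ∈ S) (hν : ν ∉ S)
    (hy : b.y1 < Z.y ν) : wd (pj S' ω) = weave c Z.X ν (ν ∈ R) (wd (pj S ω)) (ν ∈ R') := by
  rw [← wd_ev (red_weave hc Z.X ν (wd (pj S ω)) (ν ∈ R) (ν ∈ R') (red_wd _) ?_), ev_weave, ev_wd,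
    h.high hS hν hy]
  · rfl
  · intro e he h1
    exact hν (h1 ▸ sup_pj S ω e.1 (List.mem_map_of_mem he))

theorem Var_wv (ρ : L → ℝ) (c : C) (ν : L) {s t : Prop} {a a' : ℝ} (l : List ℝ)
    (hs : (s → a ≤ ρ ν) ∧ (¬ s → ρ ν ≤ a)) (ht : (t → a' ≤ ρ ν) ∧ (¬ t → ρ ν ≤ a')) :
    Var (a :: (wv c ν s t).map (fun e => ρ e.1) ++ a' :: l) = Var (a :: a' :: l) := by
  rcases wv_cases c ν s t with h | ⟨h0, x, -, h⟩
  · rw [h.2]; rfl
  · rw [h]
    simp only [List.map_cons, List.map_nil, List.cons_append, List.nil_append, Var_cons2]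
    by_cases h1 : s
    · have e1 := hs.1 h1
      have e2 := ht.2 (fun h2 => h0 ⟨fun _ => h2, fun _ => h1⟩)
      rw [abs_of_nonneg (by linarith), abs_of_nonneg (by linarith), abs_of_nonneg (by linarith)]
      ring
    · have e1 := hs.2 h1
      have e2 : a' ≤ ρ ν := ht.1 (by
        by_contra h2
        exact h0 ⟨fun h3 => absurd h3 h1, fun h3 => absurd h3 h2⟩)
      rw [abs_of_nonpos (by linarith), abs_of_nonpos (by linarith), abs_of_nonpos (by linarith)]
      ring

theorem Var_weave (Z : Cfg L) (c : C) (ν : L) : ∀ (w : List (L × C)) (s t : Prop) (a a' : ℝ),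
    ((s → a ≤ Z.x ν) ∧ (¬ s → Z.x ν ≤ a)) → ((t → a' ≤ Z.x ν) ∧ (¬ t → Z.x ν ≤ a')) →
    Var (a :: (weave c Z.X ν s w t).map (fun e => Z.x e.1) ++ [a']) =
      Var (a :: w.map (fun e => Z.x e.1) ++ [a'])
  | [], s, t, a, a', hs, ht => Var_wv Z.x c ν [] hs ht
  | e :: w, s, t, a, a', hs, ht => by
    have he : (Z.X e.1 < Z.X ν → Z.x e.1 ≤ Z.x ν) ∧ (¬ Z.X e.1 < Z.X ν → Z.x ν ≤ Z.x e.1) :=
      ⟨fun h => Z.x_le h.le, fun h => Z.x_le (not_lt.1 h)⟩
    have ih := Var_weave Z c ν w (Z.X e.1 < Z.X ν) t (Z.x e.1) a' he ht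
    have h2 := Var_wv Z.x c ν
      ((weave c Z.X ν (Z.X e.1 < Z.X ν) w t).map (fun e => Z.x e.1) ++ [a']) hs he
    simp only [weave, List.map_append, List.map_cons, List.cons_append, List.append_assoc,
      Var_cons2] at ih h2 ⊢
    rw [h2, ih]

theorem dT_ret_le (ρ : L → ℝ) (S : Set L) (a b : ℝ) (g : W L C) :
    dT ρ a (ret S g) b ≤ dT ρ a g b := by
  classical
  have key : ∀ (w : List (L × C)) (a : ℝ),
      dT ρ a (ret S (ev w)) b ≤ Var (a :: w.map (fun e => ρ e.1) ++ [b]) := by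
    intro w
    induction w with
    | nil => intro a; simp [Var_cons2]
    | cons e w ih =>
      intro a
      have := ih (ρ e.1)
      simp only [ev_cons, map_mul, ret_lt, List.map_cons, List.cons_append, Var_cons2] at this ⊢
      split_ifs
      · have := dT_lt_mul_le ρ a b e.1 e.2 (ret S (ev w))
        linarith
      · have := dT_le_left ρ a (ρ e.1) (ret S (ev w)) b
        rw [one_mul]
        linarith
  have := key (wd g) a
  rwa [ev_wd, ← dT_wd] at this

theorem BoxW.dT_eq {R R' : Set L} {ω : WL L C} (h : BoxW c Z b R R' ω) {a a' : ℝ}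
    (ha : At Z.x R a) (ha' : At Z.x R' a') {S : Finset L} (hS : Z.bl b ⊆ S) :
    ∀ S', S ⊆ S' → dT Z.x a (pj S' ω) a' = dT Z.x a (pj S ω) a' := by
  classical
  refine add_ind (p := fun S' => dT Z.x a (pj S' ω) a' = dT Z.x a (pj S ω) a') rfl ?_
  intro S1 S' ν h1 h2 h3 ih
  rw [← ih]
  rcases Z.not_bl (fun h4 => h2 (h1 (hS h4))) with h4 | h4
  · rw [h.out h3 h4]
  · refine le_antisymm ?_ ?_
    · have e : pj S' ω = ev (weave c Z.X ν (ν ∈ R) (wd (pj S1 ω)) (ν ∈ R')) := by
        rw [ev_weave, ev_wd, h.high h3 h2 h4]; rfl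
      rw [e, dT_wd Z.x a a' (pj S1 ω), ← Var_weave Z c ν _ (ν ∈ R) (ν ∈ R') a a' (ha ν) (ha' ν)]
      exact dT_ev_le _ _ _ _
    · rw [← ret_pj (S := S1) (S' := S') (fun l hl => (h3 l).2 (Or.inr hl))]
      exact dT_ret_le _ _ _ _ _

theorem dW_eq {ρ : L → ℝ} {a a' v : ℝ} {ω : WL L C} (S : Finset L)
    (h : ∀ S', S ⊆ S' → dT ρ a (pj S' ω) a' = v) : dW ρ a ω a' = v := by
  classical
  unfold dW
  refine Filter.Tendsto.limUnder_eq (tendsto_const_nhds.congr' ?_)
  exact (eventually_ge_atTop S).mono (fun S' hS' => (h S' hS').symm)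

/-- The distance is attained at every level that contains the labels of the box. -/
theorem BoxW.att {R R' : Set L} {ω : WL L C} (h : BoxW c Z b R R' ω) {a a' : ℝ}
    (ha : At Z.x R a) (ha' : At Z.x R' a') {S : Finset L} (hS : Z.bl b ⊆ S) :
    dW Z.x a ω a' = dT Z.x a (pj S ω) a' := dW_eq S (h.dT_eq ha ha' hS)

/-- The initial exponent of a label adjacent to the starting cut does not depend on the level. -/
theorem BoxW.hd_eq (hc : c ≠ 1) {R R' : Set L} {ω : WL L C} (h : BoxW c Z b R R' ω) {a : L}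
    (ha : ∀ ν, ν ≠ a → (ν ∈ R ↔ Z.X a < Z.X ν)) {S : Finset L} (hS : Z.bl b ⊆ S) (haS : a ∈ S) :
    ∀ S', S ⊆ S' → hd a (pj S' ω) = hd a (pj S ω) := by
  classical
  refine add_ind (p := fun S' => hd a (pj S' ω) = hd a (pj S ω)) rfl ?_
  intro S1 S' ν h1 h2 h3 ih
  rw [← ih]
  have hne : ν ≠ a := fun h4 => h2 (h4 ▸ h1 haS)
  rcases Z.not_bl (fun h4 => h2 (h1 (hS h4))) with h4 | h4
  · rw [h.out h3 h4]
  · unfold hd
    rw [h.wd_high hc h3 h2 h4]
    cases wd (pj S1 ω) with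
    | nil =>
      rcases wv_cases c ν (ν ∈ R) (ν ∈ R') with h5 | ⟨-, x, -, h5⟩
      · rw [weave, h5.2]
      · rw [weave, h5]; simp [hne]
    | cons e w =>
      rcases wv_cases c ν (ν ∈ R) (Z.X e.1 < Z.X ν) with h5 | ⟨h6, x, -, h5⟩
      · rw [weave, h5.2]; rfl
      · rw [weave, h5]
        have : e.1 ≠ a := fun h7 => h6 (h7 ▸ ha ν hne)
        simp [hne, this]

end

end Pool.Agent.E5f

end
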