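import Pool.Agent.Mg.S03381.G6add5e
import Pool.Agent.Mg.S03381.G7cdb90
import Pool.Agent.Mg.S03381.Gdf2cf1

section

/-!
Tools for the presentation of the group of translations: normal forms in the orbifold group,
row-wise conjugation maps, flipping of status sets.
-/

set_option autoImplicit false

namespace Pool.Agent.E5f

section og
variable {n m : ℕ}

/-- The generator `a`. -/
def oa (n m : ℕ) : OG n m := PresentedGroup.of (Sum.inl 0)
/-- The generator `b`. -/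
def ob (n m : ℕ) : OG n m := PresentedGroup.of (Sum.inl 1)
/-- The generators `c i`. -/
def oc (m : ℕ) (i : Fin n) : OG n m := PresentedGroup.of (Sum.inr i)

theorem oc_pow (i : Fin n) : oc m i ^ m = 1 := by
  have h : PresentedGroup.mk (relO n m) ((FreeGroup.of (Sum.inr i)) ^ m) = 1 :=
    PresentedGroup.one_of_mem (Or.inl ⟨i, rfl⟩)
  rw [map_pow] at h
  exact h

theorem og_rel : (List.ofFn (fun i : Fin n => oc m i)).prod * ob n m * oa n m * (ob n m)⁻¹ *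
    (oa n m)⁻¹ = 1 := by
  have h : PresentedGroup.mk (relO n m) _ = 1 := PresentedGroup.one_of_mem (Or.inr rfl)
  simp only [map_mul, map_inv, map_list_prod, List.map_ofFn] at h
  exact h

/-- The conjugates of the cone generators along the lattice. -/
def ocp (m : ℕ) (i : Fin n) (p q : ℤ) : OG n m :=
  oa n m ^ p * ob n m ^ q * oc m i * (oa n m ^ p * ob n m ^ q)⁻¹

/-- Normal form in the orbifold group. -/
theorem og_nf (N : Subgroup (OG n m)) (hN : ∀ i p q, ocp m i p q ∈ N)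
    (hN' : ∀ x ∈ N, x ∈ Subgroup.closure {y | ∃ i p q, y = ocp m i p q}) (o : OG n m) :
    ∃ x ∈ N, ∃ p q : ℤ, o = x * oa n m ^ p * ob n m ^ q := by
  have conj : ∀ g : OG n m, (∀ i p q, g * ocp m i p q * g⁻¹ ∈ N) → ∀ x ∈ N, g * x * g⁻¹ ∈ N := by
    intro g hg x hx
    refine Subgroup.closure_induction (p := fun x _ => g * x * g⁻¹ ∈ N) ?_ ?_ ?_ ?_ (hN' x hx)
    · rintro y ⟨i, p, q, rfl⟩
      exact hg i p q
    · simp
    · intro y z _ _ hy hz
      have : g * (y * z) * g⁻¹ = (g * y * g⁻¹) * (g * z * g⁻¹) := by group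
      rw [this]
      exact N.mul_mem hy hz
    · intro y _ hy
      have : g * y⁻¹ * g⁻¹ = (g * y * g⁻¹)⁻¹ := by group
      rw [this]
      exact N.inv_mem hy
  have ha : ∀ s : ℤ, ∀ x ∈ N, oa n m ^ s * x * (oa n m ^ s)⁻¹ ∈ N := fun s =>
    conj _ fun i p q => by
      have : oa n m ^ s * ocp m i p q * (oa n m ^ s)⁻¹ = ocp m i (s + p) q := by
        unfold ocp; rw [zpow_add]; group
      rw [this]
      exact hN _ _ _
  have hT : ∀ q : ℤ, ob n m ^ q * (List.ofFn (fun i : Fin n => oc m i)).prod *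
      (ob n m ^ q)⁻¹ ∈ N := by
    intro q
    have h1 := map_list_prod (MulAut.conj (ob n m ^ q)) (List.ofFn (fun i : Fin n => oc m i))
    rw [MulAut.conj_apply] at h1
    rw [h1]
    refine N.list_prod_mem ?_
    intro x hx
    obtain ⟨y, hy, rfl⟩ := List.mem_map.1 hx
    obtain ⟨i, rfl⟩ := List.mem_ofFn.1 hy
    have := hN i 0 q
    rw [MulAut.conj_apply]
    simpa [ocp] using this
  have hT' : (List.ofFn (fun i : Fin n => oc m i)).prod =
      oa n m * ob n m * (oa n m)⁻¹ * (ob n m)⁻¹ := by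
    have := og_rel (n := n) (m := m)
    calc _ = ((List.ofFn (fun i : Fin n => oc m i)).prod * ob n m * oa n m * (ob n m)⁻¹ *
        (oa n m)⁻¹) * (oa n m * ob n m * (oa n m)⁻¹ * (ob n m)⁻¹) := by group
      _ = _ := by rw [this, one_mul]
  have comm : ∀ g : OG n m, g * oa n m * g⁻¹ * (oa n m)⁻¹ ∈ N → ∀ p : ℤ,
      g * oa n m ^ p * g⁻¹ * (oa n m ^ p)⁻¹ ∈ N := by
    intro g hg p
    induction p using Int.induction_on with
    | zero => simp
    | succ p ih =>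
      have : g * oa n m ^ ((p : ℤ) + 1) * g⁻¹ * (oa n m ^ ((p : ℤ) + 1))⁻¹ =
          (g * oa n m ^ (p : ℤ) * g⁻¹ * (oa n m ^ (p : ℤ))⁻¹) *
          (oa n m ^ (p : ℤ) * (g * oa n m * g⁻¹ * (oa n m)⁻¹) * (oa n m ^ (p : ℤ))⁻¹) := by
        group
      rw [this]
      exact N.mul_mem ih (ha _ _ hg)
    | pred p ih =>
      have : g * oa n m ^ (-(p : ℤ) - 1) * g⁻¹ * (oa n m ^ (-(p : ℤ) - 1))⁻¹ =
          (g * oa n m ^ (-(p : ℤ)) * g⁻¹ * (oa n m ^ (-(p : ℤ)))⁻¹) *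
          (oa n m ^ (-(p : ℤ) - 1) * (g * oa n m * g⁻¹ * (oa n m)⁻¹)⁻¹ *
            (oa n m ^ (-(p : ℤ) - 1))⁻¹) := by
        group
      rw [this]
      exact N.mul_mem ih (ha _ _ (N.inv_mem hg))
  have hb : ∀ ε : ℤ, ε = 1 ∨ ε = -1 → ∀ p : ℤ,
      ob n m ^ ε * oa n m ^ p * (ob n m ^ ε)⁻¹ * (oa n m ^ p)⁻¹ ∈ N := by
    rintro ε (rfl | rfl)
    · refine comm _ ?_
      have h0 := N.inv_mem (hT 0)
      rw [hT'] at h0
      convert h0 using 1
      group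
    · refine comm _ ?_
      have h0 := hT (-1)
      rw [hT'] at h0
      convert h0 using 1
      group
  have hb' : ∀ ε : ℤ, ε = 1 ∨ ε = -1 → ∀ x ∈ N, ob n m ^ ε * x * (ob n m ^ ε)⁻¹ ∈ N :=
    fun ε hε => conj _ fun i p q => by
      have : ob n m ^ ε * ocp m i p q * (ob n m ^ ε)⁻¹ =
          (ob n m ^ ε * oa n m ^ p * (ob n m ^ ε)⁻¹ * (oa n m ^ p)⁻¹) * ocp m i p (ε + q) *
          (ob n m ^ ε * oa n m ^ p * (ob n m ^ ε)⁻¹ * (oa n m ^ p)⁻¹)⁻¹ := by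
        unfold ocp; rw [zpow_add]; group
      rw [this]
      exact N.mul_mem (N.mul_mem (hb ε hε p) (hN _ _ _)) (N.inv_mem (hb ε hε p))
  have step : ∀ (j : Fin 2 ⊕ Fin n) (ε : ℤ), ε = 1 ∨ ε = -1 → ∀ o : OG n m,
      (∃ x ∈ N, ∃ p q : ℤ, o = x * oa n m ^ p * ob n m ^ q) →
      ∃ x ∈ N, ∃ p q : ℤ, (PresentedGroup.of j : OG n m) ^ ε * o =
        x * oa n m ^ p * ob n m ^ q := by
    rintro j ε hε o ⟨x, hx, p, q, rfl⟩
    rcases j with j | i
    · fin_cases j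
      · refine ⟨_, ha ε x hx, ε + p, q, ?_⟩
        show oa n m ^ ε * _ = _
        rw [zpow_add]; group
      · refine ⟨_, N.mul_mem (hb' ε hε x hx) (hb ε hε p), p, ε + q, ?_⟩
        show ob n m ^ ε * _ = _
        rw [zpow_add]; group
    · have h0 : oc m i ∈ N := by simpa [ocp] using hN i 0 0
      refine ⟨_, N.mul_mem (N.zpow_mem h0 ε) hx, p, q, ?_⟩
      show oc m i ^ ε * _ = _
      group
  have ho : o ∈ Subgroup.closure (Set.range (PresentedGroup.of : _ → OG n m)) := by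
    rw [PresentedGroup.closure_range_of]; trivial
  refine Subgroup.closure_induction_left
    (p := fun o _ => ∃ x ∈ N, ∃ p q : ℤ, o = x * oa n m ^ p * ob n m ^ q) ?_ ?_ ?_ ho
  · exact ⟨1, N.one_mem, 0, 0, by simp⟩
  · rintro _ ⟨j, rfl⟩ y _ hy
    simpa using step j 1 (Or.inl rfl) y hy
  · rintro _ ⟨j, rfl⟩ y _ hy
    simpa using step j (-1) (Or.inr rfl) y hy

end og

section words
variable {L C : Type} [CommGroup C]

/-- Conjugation of every letter by an element which depends on the row. -/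
noncomputable def rowc {G : Type} [Group G] (ι : W L C →* G) (row : L → ℤ) (M : ℤ → G) :
    W L C →* G :=
  lf (fun l => (MulAut.conj (M (row l))).toMonoidHom.comp (ι.comp (ltH l)))

theorem rowc_lt {G : Type} [Group G] (ι : W L C →* G) (row : L → ℤ) (M : ℤ → G) (l : L) (x : C) :
    rowc ι row M (lt l x) = M (row l) * ι (lt l x) * (M (row l))⁻¹ := by
  unfold rowc; rw [lf_lt]; rfl

theorem rowc_row {G : Type} [Group G] (ι : W L C →* G) (row : L → ℤ) (M : ℤ → G) {r : ℤ}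
    {g : W L C} (hg : Sup {l | row l = r} g) : rowc ι row M g = M r * ι g * (M r)⁻¹ :=
  W_ext_sup (f := rowc ι row M) (f' := (MulAut.conj (M r)).toMonoidHom.comp ι)
    (fun l hl x => by rw [rowc_lt, show row l = r from hl]; rfl) hg

theorem rowc_injective (row : L → ℤ) (O M : ℤ → W L C) (hO : ∀ r, Sup {l | row l = r} (O r))
    (hM : ∀ r, M r = O r * M (r + 1)) (N : ℤ) (hN : ∀ r, N ≤ r → M r = 1) :
    Function.Injective (rowc (MonoidHom.id _) row (fun r => (M r)⁻¹)) := by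
  let E' : ℕ → W L C := fun k => Nat.rec 1 (fun k e => e * O (N - k - 1)) k
  have E0 : E' 0 = 1 := rfl
  have E1 : ∀ k : ℕ, E' (k + 1) = E' k * O (N - k - 1) := fun _ => rfl
  let g := rowc (MonoidHom.id (W L C)) row (fun r => E' (N - r).toNat)
  have key : ∀ k : ℕ, g (M (N - k)) = E' k := by
    intro k
    induction k with
    | zero => rw [hN _ (by simp), map_one, E0]
    | succ k ih =>
      have e1 : N - ((k + 1 : ℕ) : ℤ) + 1 = N - k := by push_cast; ring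
      have e2 : N - ((k + 1 : ℕ) : ℤ) = N - k - 1 := by push_cast; ring
      have e3 : (N - (N - k - 1)).toNat = k + 1 := by omega
      rw [hM, map_mul, e1, ih, e2, rowc_row _ _ _ (hO _), e3, E1]
      simp only [MonoidHom.id_apply]
      group
  have key2 : ∀ r, g (M r) = E' (N - r).toNat := by
    intro r
    rcases le_total N r with h | h
    · rw [hN r h, map_one, show (N - r).toNat = 0 by omega, E0]
    · have := key (N - r).toNat
      rwa [show N - ((N - r).toNat : ℤ) = r by omega] at this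
  have : g.comp (rowc (MonoidHom.id _) row (fun r => (M r)⁻¹)) = MonoidHom.id _ := by
    refine W_ext fun l x => ?_
    simp only [MonoidHom.comp_apply, rowc_lt, map_mul, map_inv, MonoidHom.id_apply, inv_inv, key2]
    rw [show g (lt l x) = _ from rowc_lt _ _ _ l x]
    simp only [MonoidHom.id_apply]
    group
  exact Function.LeftInverse.injective (g := g) (fun w => DFunLike.congr_fun this w)

/-- Flipping: the loops formed with the reference steps lie in any subgroup which contains the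
reference loops around the labels. -/
theorem flip_mem (c : C) (X : Od L) (R0 D0 : Set L) (K : Subgroup (WL L C))
    (hK : ∀ l, stp c X R0 (Rl X l) D0 * emb (lt l c) * (stp c X R0 (Rl X l) D0)⁻¹ ∈ K)
    {R R' D : Set L} (hR : Up X R) (hR' : Up X R')
    (hD : {l | ¬ (l ∈ R ↔ l ∈ R') ∧ ¬ (l ∈ D ↔ l ∈ D0)}.Finite) :
    stp c X R0 R D0 * stp c X R R' D * (stp c X R0 R' D0)⁻¹ ∈ K := by
  classical
  have mul : ∀ R1 R2 R3, stp c X R0 R1 D0 * stp c X R1 R2 D * (stp c X R0 R2 D0)⁻¹ ∈ K →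
      stp c X R0 R2 D0 * stp c X R2 R3 D * (stp c X R0 R3 D0)⁻¹ ∈ K →
      stp c X R0 R1 D0 * stp c X R1 R3 D * (stp c X R0 R3 D0)⁻¹ ∈ K := by
    intro R1 R2 R3 h1 h2
    have := K.mul_mem h1 h2
    rw [← stp_mul c X R1 R2 R3 D]
    convert this using 1
    group
  have one : ∀ l, stp c X R0 (Rle X l) D0 * stp c X (Rle X l) (Rl X l) D *
      (stp c X R0 (Rl X l) D0)⁻¹ ∈ K := by
    intro l
    rw [← stp_mul c X R0 (Rl X l) (Rle X l) D0, ← stp_inv c X (Rle X l)]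
    by_cases h1 : l ∈ D <;> by_cases h2 : l ∈ D0
    · rw [stp_Rle c X l h1, stp_Rle c X l h2]; simp
    · rw [stp_Rle c X l h1, stp_Rle' c X l h2]; simpa using hK l
    · rw [stp_Rle' c X l h1, stp_Rle c X l h2]
      have := K.inv_mem (hK l)
      convert this using 1
      group
    · rw [stp_Rle' c X l h1, stp_Rle' c X l h2]; simp
  have key : ∀ R R' : Set L, Up X R → Up X R' → R' ⊆ R → ∀ F : Finset L,
      (∀ l, l ∈ R → l ∉ R' → ¬ (l ∈ D ↔ l ∈ D0) → l ∈ F) →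
      stp c X R0 R D0 * stp c X R R' D * (stp c X R0 R' D0)⁻¹ ∈ K := by
    intro R R' hR hR' hs F hF
    refine cut_ind (X := X) (p := fun T T' =>
      stp c X R0 T D0 * stp c X T T' D * (stp c X R0 T' D0)⁻¹ ∈ K) F mul (fun l _ _ _ => one l)
      ?_ hR hR' hs
    intro T T' t1 t2 s1 s2 s3 h
    rw [stp_congr c t1 t2 (D := D) (D' := D0), stp_mul, mul_inv_cancel]
    · exact K.one_mem
    · intro l hl
      by_contra h2
      have k1 : l ∈ T := by
        by_contra k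
        exact hl ⟨fun k' => absurd k' k, fun k' => s2 k'⟩
      have k2 : l ∉ T' := fun k => hl ⟨fun _ => k, fun _ => k1⟩
      exact k2 (h l (hF l (s3 k1) (fun k => k2 (s1 k)) h2) k1)
  rcases up_total hR hR' with h1 | h1
  · have := K.inv_mem (key R' R hR' hR h1 hD.toFinset
      (fun l k1 k2 k3 => hD.mem_toFinset.2 ⟨fun k => k2 (k.2 k1), k3⟩))
    rw [← stp_inv c X R' R D]
    convert this using 1
    group
  · exact key R R' hR hR' h1 hD.toFinset
      (fun l k1 k2 k3 => hD.mem_toFinset.2 ⟨fun k => k2 (k.1 k1), k3⟩)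

end words

end Pool.Agent.E5f

end

section

/-!
The group of translations of a grid of labels is the orbifold group of a torus.
-/

set_option autoImplicit false

namespace Pool.Agent.E5f

open Filter Classical SemidirectProduct

section
variable {L C : Type} [CommGroup C]

theorem Kh_emb_lt (c : C) (X Y : Od L) (l : L) (x : C) :
    Kh c X Y (emb (lt l x)) = (opH c Y (UR X Y l))⁻¹ * emb (lt l x⁻¹) * opH c Y (UR X Y l) :=
  WL_ext fun S => by
    simp only [pj_Kh, map_mul, map_inv, pj_opH, pj_emb, ret_lt]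
    split_ifs
    · rw [Kf_lt]
    · simp

theorem W_ext_gen {H : Type} [Group H] {c : C} (hg : ∀ x : C, ∃ k : ℤ, x = c ^ k)
    {f f' : W L C →* H} (h : ∀ l, f (lt l c) = f' (lt l c)) : f = f' :=
  W_ext fun l x => by
    obtain ⟨k, rfl⟩ := hg x
    rw [show (lt l (c ^ k) : W L C) = lt l c ^ k from map_zpow (ltH l) c k, map_zpow, map_zpow, h]

theorem lex_aux {n : ℕ} (i j : Fin n) (p q : ℤ) :
    (n : ℤ) * p + i < n * q + j ↔ p < q ∨ (p = q ∧ i < j) := by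
  have h1 : ((i : ℕ) : ℤ) < n := by exact_mod_cast i.2
  have h2 : ((j : ℕ) : ℤ) < n := by exact_mod_cast j.2
  have h3 : (0 : ℤ) ≤ (i : ℕ) := by positivity
  have h4 : (0 : ℤ) ≤ (j : ℕ) := by positivity
  rcases lt_trichotomy p q with h | h | h
  · refine iff_of_true ?_ (Or.inl h)
    nlinarith [mul_le_mul_of_nonneg_left (show p + 1 ≤ q from h) (show (0 : ℤ) ≤ n by omega)]
  · subst h
    simp
  · refine iff_of_false ?_ (by omega)
    nlinarith [mul_le_mul_of_nonneg_left (show q + 1 ≤ p from h) (show (0 : ℤ) ≤ n by omega)]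

namespace Grid
variable {Z : Cfg L} {n : ℕ} (G : Grid Z n)

/-- The row of a label. -/
def p1 (l : L) : ℤ := (G.e l).2.1
/-- The column of a label. -/
def p2 (l : L) : ℤ := (G.e l).2.2
/-- The type of a label. -/
def ty (l : L) : Fin n := (G.e l).1
/-- The label with given coordinates. -/
def lb (i : Fin n) (p q : ℤ) : L := G.e.symm (i, p, q)

@[simp] theorem p1_lb (i : Fin n) (p q : ℤ) : G.p1 (G.lb i p q) = p := by simp [p1, lb]
@[simp] theorem p2_lb (i : Fin n) (p q : ℤ) : G.p2 (G.lb i p q) = q := by simp [p2, lb]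
@[simp] theorem ty_lb (i : Fin n) (p q : ℤ) : G.ty (G.lb i p q) = i := by simp [ty, lb]
theorem lb_eq (l : L) : G.lb (G.ty l) (G.p1 l) (G.p2 l) = l := G.e.symm_apply_apply l

theorem lab_ext {l m : L} (h0 : G.ty l = G.ty m) (h1 : G.p1 l = G.p1 m) (h2 : G.p2 l = G.p2 m) :
    l = m := by rw [← G.lb_eq l, h0, h1, h2, G.lb_eq]

@[simp] theorem p1_tv (v : ℤ × ℤ) (l : L) : G.p1 (G.tv v l) = G.p1 l + v.1 := by simp [p1, tv]
@[simp] theorem p2_tv (v : ℤ × ℤ) (l : L) : G.p2 (G.tv v l) = G.p2 l + v.2 := by simp [p2, tv]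
@[simp] theorem ty_tv (v : ℤ × ℤ) (l : L) : G.ty (G.tv v l) = G.ty l := by simp [ty, tv]

theorem tv_lb (v : ℤ × ℤ) (i : Fin n) (p q : ℤ) :
    G.tv v (G.lb i p q) = G.lb i (p + v.1) (q + v.2) := G.lab_ext (by simp) (by simp) (by simp)

theorem tv_zero : G.tv 0 = 1 := Equiv.ext fun l => G.lab_ext (by simp) (by simp) (by simp)

theorem tv_add (v w : ℤ × ℤ) : G.tv (v + w) = G.tv v * G.tv w :=
  Equiv.ext fun l => G.lab_ext (by simp) (by simp; ring) (by simp; ring)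

/-- Translations as a homomorphism. -/
def tvH : Multiplicative (ℤ × ℤ) →* Equiv.Perm L where
  toFun v := G.tv v.toAdd
  map_one' := G.tv_zero
  map_mul' _ _ := G.tv_add _ _

theorem tv_neg (v : ℤ × ℤ) : G.tv (-v) = (G.tv v)⁻¹ := map_inv G.tvH (Multiplicative.ofAdd v)

theorem tv_inj (hn : 0 < n) : Function.Injective G.tv := by
  intro v w h
  have h1 := G.p1_tv v (G.lb ⟨0, hn⟩ 0 0)
  have h2 := G.p2_tv v (G.lb ⟨0, hn⟩ 0 0)
  rw [h, G.p1_tv] at h1
  rw [h, G.p2_tv] at h2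
  exact Prod.ext (by omega) (by omega)

theorem x_eq (l : L) : Z.x l = G.ox (G.ty l) + G.p1 l + Real.goldenRatio * G.p2 l := G.hx l
theorem y_eq (l : L) : Z.y l = G.oy (G.ty l) + G.p1 l + Real.goldenConj * G.p2 l := G.hy l

theorem x_tv (v : ℤ × ℤ) (l : L) :
    Z.x (G.tv v l) = 1 * Z.x l + (v.1 + Real.goldenRatio * v.2) := by
  rw [G.x_eq, G.x_eq l]; simp; ring

theorem y_tv (v : ℤ × ℤ) (l : L) :
    Z.y (G.tv v l) = 1 * Z.y l + (v.1 + Real.goldenConj * v.2) := by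
  rw [G.y_eq, G.y_eq l]; simp; ring

theorem X_tv (v : ℤ × ℤ) (a b : L) : Z.X a < Z.X b ↔ Z.X (G.tv v a) < Z.X (G.tv v b) := by
  rw [Z.X_iff G.inj, Z.X_iff G.inj, G.x_tv, G.x_tv]; simp

theorem Rs_tv (v : ℤ × ℤ) :
    G.tv v '' Rs Z.x (0, false) = Rs Z.x (v.1 + Real.goldenRatio * v.2, false) := by
  rw [Rs_image (G.tv v) one_pos (G.x_tv v)]; simp

/-- The lexicographic order by row, column and type. -/
noncomputable def Yp : Od L :=
  ⟨fun l => toLex ((G.p1 l : ℝ), (((n : ℤ) * G.p2 l + G.ty l : ℤ) : ℝ)), fun l m h => by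
    have h0 := toLex.injective h
    have h1 : G.p1 l = G.p1 m := Int.cast_injective (α := ℝ) (congrArg Prod.fst h0)
    have h2 : (n : ℤ) * G.p2 l + G.ty l = n * G.p2 m + G.ty m :=
      Int.cast_injective (α := ℝ) (congrArg Prod.snd h0)
    have h3 := (lex_aux (G.ty l) (G.ty m) (G.p2 l) (G.p2 m)).not.1 (by omega)
    have h4 := (lex_aux (G.ty m) (G.ty l) (G.p2 m) (G.p2 l)).not.1 (by omega)
    exact G.lab_ext (by omega) h1 (by omega)⟩

theorem Yp_lt (l m : L) : G.Yp l < G.Yp m ↔ G.p1 l < G.p1 m ∨ (G.p1 l = G.p1 m ∧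
    (G.p2 l < G.p2 m ∨ (G.p2 l = G.p2 m ∧ G.ty l < G.ty m))) := by
  rw [← lex_aux]
  show toLex ((G.p1 l : ℝ), (((n : ℤ) * G.p2 l + G.ty l : ℤ) : ℝ)) <
    toLex ((G.p1 m : ℝ), (((n : ℤ) * G.p2 m + G.ty m : ℤ) : ℝ)) ↔ _
  rw [Prod.Lex.toLex_lt_toLex]
  simp only [Int.cast_lt, Int.cast_inj]

theorem Yp_le (l m : L) : G.Yp l ≤ G.Yp m ↔ G.p1 l < G.p1 m ∨ (G.p1 l = G.p1 m ∧
    (G.p2 l < G.p2 m ∨ (G.p2 l = G.p2 m ∧ G.ty l ≤ G.ty m))) := by
  rw [← not_lt, G.Yp_lt]; omega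

theorem Yp_tv (v : ℤ × ℤ) (a b : L) : G.Yp a < G.Yp b ↔ G.Yp (G.tv v a) < G.Yp (G.tv v b) := by
  simp [G.Yp_lt]

/-- The rows from `r` on. -/
def Ar (r : ℤ) : Set L := {l | r ≤ G.p1 l}

theorem up_Ar (r : ℤ) : Up G.Yp (G.Ar r) := fun l m h1 h2 => by
  rw [G.Yp_lt] at h2
  have : r ≤ G.p1 l := h1
  show r ≤ G.p1 m
  omega

theorem fin_sq (N : ℤ) : {l | |G.p1 l| ≤ N ∧ |G.p2 l| ≤ N}.Finite := by
  refine ((Set.finite_univ.prod ((Set.finite_Icc (-N) N).prod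
    (Set.finite_Icc (-N) N))).preimage G.e.injective.injOn).subset fun l hl => ?_
  exact ⟨trivial, abs_le.1 hl.1, abs_le.1 hl.2⟩

theorem band (lo hi : ℝ) (r0 r1 : ℤ) : ∃ y0 y1 : ℝ, y0 ≤ y1 ∧ ∀ l, lo ≤ Z.x l → Z.x l ≤ hi →
    (y1 < Z.y l → r1 ≤ G.p1 l) ∧ (Z.y l < y0 → G.p1 l < r0) := by
  obtain ⟨M, hM⟩ := (Set.finite_range (fun i => |G.oy i|)).bddAbove
  refine ⟨-(|M| + |hi| + 3 * |(r0 : ℝ)|), |M| + |lo| + 3 * |(r1 : ℝ)| + 2, ?_, fun l h1 h2 => ?_⟩
  · have := abs_nonneg M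
    have := abs_nonneg hi
    have := abs_nonneg lo
    have := abs_nonneg (r0 : ℝ)
    have := abs_nonneg (r1 : ℝ)
    linarith
  have k0 : |G.oy (G.ty l)| ≤ |M| := (hM ⟨_, rfl⟩).trans (le_abs_self M)
  have k1 := abs_le.1 k0
  have k2 := G.ox0 (G.ty l)
  have k3 := G.ox1 (G.ty l)
  obtain ⟨g1, g2⟩ := gr_bounds
  have e : (2 * Real.goldenRatio - 1) * G.p1 l = (Real.goldenRatio - 1) *
      (Z.x l - G.ox (G.ty l)) + Real.goldenRatio * (Z.y l - G.oy (G.ty l)) := by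
    rw [G.x_eq l, G.y_eq l, gc_eq]; ring
  constructor
  · intro h3
    by_contra h4
    have h5 : (G.p1 l : ℝ) ≤ |(r1 : ℝ)| :=
      (Int.cast_le.2 (not_le.1 h4).le).trans (le_abs_self _)
    have h6 := neg_abs_le lo
    have h7 := abs_nonneg lo
    have h8 := abs_nonneg (r1 : ℝ)
    nlinarith
  · intro h3
    by_contra h4
    have h5 : -|(r0 : ℝ)| ≤ (G.p1 l : ℝ) :=
      (neg_abs_le _).trans (Int.cast_le.2 (not_lt.1 h4))
    have h6 := le_abs_self hi
    have h7 := abs_nonneg hi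
    have h8 := abs_nonneg (r0 : ℝ)
    nlinarith

/-- Steps with a status set between two rows are box words. -/
theorem box_stp (c : C) (s t : ℝ) {D : Set L} {r0 r1 : ℤ} (h0 : D ⊆ G.Ar r0) (h1 : G.Ar r1 ⊆ D) :
    ∃ b, BoxW c Z b (Rs Z.x (s, false)) (Rs Z.x (t, false))
      (stp c Z.X (Rs Z.x (s, false)) (Rs Z.x (t, false)) D) := by
  obtain ⟨y0, y1, h2, h3⟩ := G.band (min s t) (max s t) r0 r1
  refine ⟨⟨min s t, max s t, y0, y1⟩, BoxW.band (Z.up_Rs _)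
    ((at_Rs _ _).inB (min_le_left _ _) (le_max_left _ _)) (Z.up_Rs _)
    ((at_Rs _ _).inB (min_le_right _ _) (le_max_right _ _)) h2 fun l k1 k2 => ?_⟩
  exact ⟨fun k => h1 ((h3 l k1 k2).1 k), fun k k' => absurd (h0 k') (not_le.2 ((h3 l k1 k2).2 k))⟩

/-- The set of translations is a subgroup. -/
def GamS (c : C) : Subgroup (Big L C) where
  carrier := G.Gam c
  one_mem' := ⟨0, ⟨0, 0, 0, 0⟩, G.tv_zero.symm, by
    rw [G.tv_zero]
    simpa using BoxW.refl (Z.up_Rs _) ((at_Rs Z.x (0, false)).inB le_rfl le_rfl)⟩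
  mul_mem' := by
    rintro z z' ⟨v, b, h1, h2⟩ ⟨v', b', h3, h4⟩
    have h5 := h4.aff (G.tv v) one_pos one_pos (G.X_tv v) (G.x_tv v) (G.y_tv v)
    have h6 := (h2.mono (Bx.sub_sup_left _ _)).trans (h5.mono (Bx.sub_sup_right _ _))
    rw [← Set.image_comp, ← Equiv.Perm.coe_mul, ← G.tv_add] at h6
    exact ⟨v + v', _, by rw [mul_right, h1, h3, G.tv_add], by rw [mul_left, h1]; exact h6⟩
  inv_mem' := by
    rintro z ⟨v, b, h1, h2⟩
    have h5 := h2.symm.aff (G.tv (-v)) one_pos one_pos (G.X_tv _) (G.x_tv _) (G.y_tv _)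
    rw [← Set.image_comp, ← Equiv.Perm.coe_mul, ← G.tv_add, neg_add_cancel, G.tv_zero,
      Equiv.Perm.coe_one, Set.image_id] at h5
    exact ⟨-v, _, by rw [inv_right, h1, G.tv_neg], by rw [inv_left, h1, ← G.tv_neg]; exact h5⟩

/-- Words extended by lattice translations. -/
abbrev BT (C : Type) [CommGroup C] : Type := WL L C ⋊[rlA.comp G.tvH] Multiplicative (ℤ × ℤ)

/-- Back to the V-generators. -/
noncomputable def Th (c : C) : G.BT C →* Big L C :=
  SemidirectProduct.map (Kh c G.Yp Z.X) G.tvH (fun v => MonoidHom.ext fun ω =>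
    (rlA_Kh (G.tv v.toAdd) c (G.Yp_tv _) (G.X_tv _) ω).symm)

theorem Th_inj (hn : 0 < n) (c : C) : Function.Injective (G.Th c) := fun _ _ h =>
  SemidirectProduct.ext (Kh_injective c _ _ (congrArg SemidirectProduct.left h))
    (Multiplicative.toAdd.injective (G.tv_inj hn (congrArg SemidirectProduct.right h)))

/-- The ordered product over a quadrant. -/
noncomputable def Mq (c : C) (r s : ℤ) : WL L C := opH c G.Yp {l | r ≤ G.p1 l ∧ s ≤ G.p2 l}

/-- The ordered product over a half row. -/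
noncomputable def Oq (c : C) (r s : ℤ) : WL L C := opH c G.Yp {l | G.p1 l = r ∧ s ≤ G.p2 l}

theorem rl_Mq (c : C) (v : ℤ × ℤ) (r s : ℤ) :
    rlA (G.tv v) (G.Mq c r s) = G.Mq c (r + v.1) (s + v.2) :=
  rlA_opH _ c (fun a _ b _ h => (G.Yp_tv v a b).1 h) (fun l => by simp)

theorem Mq_eq (c : C) (r s : ℤ) : G.Mq c r s = G.Oq c r s * G.Mq c (r + 1) s :=
  opH_split c _ (fun l => by simp only [Set.mem_ofPred_eq]; omega)
    (fun a ha b hb => by
      simp only [Set.mem_ofPred_eq] at ha hb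
      rw [G.Yp_lt]; omega)

theorem Oq_eq (c : C) :
    G.Oq c 0 0 = (List.ofFn (fun i : Fin n => emb (lt (G.lb i 0 0) c))).prod * G.Oq c 0 1 := by
  unfold Oq
  rw [opH_split c _ (A1 := {l | G.p1 l = 0 ∧ G.p2 l = 0}) (A2 := {l | G.p1 l = 0 ∧ 1 ≤ G.p2 l})
    (fun l => by simp only [Set.mem_ofPred_eq]; omega)
    (fun a ha b hb => by
      simp only [Set.mem_ofPred_eq] at ha hb
      rw [G.Yp_lt]; omega)]
  congr 1
  rw [opH_finset c _ (List.ofFn (fun i : Fin n => G.lb i 0 0)).toFinset,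
    op_eq_pl c (w := List.ofFn (fun i : Fin n => G.lb i 0 0))]
  · unfold pl
    rw [map_list_prod, List.map_ofFn, List.map_ofFn]
    rfl
  · rw [List.pairwise_ofFn]
    intro i j h
    simpa [G.Yp_lt] using h
  · simp
  · intro l
    simp only [Set.mem_ofPred_eq, List.mem_toFinset, List.mem_ofFn]
    constructor
    · rintro ⟨h1, h2⟩
      exact ⟨G.ty l, by rw [← h1, ← G.lb_eq l]; simp [h2, h1]⟩
    · rintro ⟨i, rfl⟩
      simp

theorem inr_conj (v : ℤ × ℤ) (k : WL L C) :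
    (inr (Multiplicative.ofAdd v) * inl k * (inr (Multiplicative.ofAdd v))⁻¹ : G.BT C) =
      inl (rlA (G.tv v) k) := by
  rw [← map_inv, ← inl_aut]
  rfl

/-- The images of the generators in the lexicographic coordinates. -/
noncomputable def gen (c : C) : Fin 2 ⊕ Fin n → G.BT C :=
  Sum.elim ![inl (G.Mq c 0 0) * inr (Multiplicative.ofAdd (1, 0)) * (inl (G.Mq c 0 0))⁻¹,
    inr (Multiplicative.ofAdd (0, 1))] (fun i => inl (emb (lt (G.lb i 0 0) c)))

theorem gen_rel (c : C) {m : ℕ} (hm : c ^ m = 1) :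
    ∀ r ∈ relO n m, FreeGroup.lift (G.gen c) r = 1 := by
  rintro r (⟨i, rfl⟩ | rfl)
  · rw [map_pow, FreeGroup.lift_apply_of]
    show (inl (emb (ltH (G.lb i 0 0) c)) : G.BT C) ^ m = 1
    rw [← map_pow, ← map_pow, ← map_pow, hm, map_one, map_one, map_one]
  · simp only [map_mul, map_inv, map_list_prod, List.map_ofFn, FreeGroup.lift_apply_of]
    have e1 : (List.ofFn (⇑(FreeGroup.lift (G.gen c)) ∘ fun i : Fin n =>
        FreeGroup.of (Sum.inr i))).prod =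
        inl (List.ofFn (fun i : Fin n => emb (lt (G.lb i 0 0) c))).prod := by
      rw [map_list_prod, List.map_ofFn]
      congr 2
      funext i
      simp [gen]
    have e2 : (List.ofFn (fun i : Fin n => emb (lt (G.lb i 0 0) c))).prod =
        G.Mq c 0 0 * (G.Mq c 1 0)⁻¹ * G.Mq c 1 1 * (G.Mq c 0 1)⁻¹ := by
      rw [G.Mq_eq c 0 0, G.Mq_eq c 0 1, G.Oq_eq]
      simp
    have m1 := G.inr_conj (1, 0) (G.Mq c 0 0)
    have m2 := G.inr_conj (0, 1) (G.Mq c 0 0)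
    have m3 := G.inr_conj (1, 0) (G.Mq c 0 1)
    simp only [G.rl_Mq, zero_add, add_zero] at m1 m2 m3
    have hc : ((inr (Multiplicative.ofAdd (0, 1)))⁻¹ * (inr (Multiplicative.ofAdd (1, 0)))⁻¹ *
        inr (Multiplicative.ofAdd (0, 1)) * inr (Multiplicative.ofAdd (1, 0)) : G.BT C) = 1 := by
      rw [← map_inv inr, ← map_inv inr, ← map_mul inr, ← map_mul inr, ← map_mul inr,
        ← map_one inr]
      rfl
    rw [e1, e2, map_mul, map_mul, map_mul, map_inv, map_inv, ← m3, ← m2, ← m1]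
    simp only [gen, Sum.elim_inl, Matrix.cons_val_zero, Matrix.cons_val_one]
    generalize (inr (Multiplicative.ofAdd (0, 1)) : G.BT C) = B at hc ⊢
    generalize (inr (Multiplicative.ofAdd (1, 0)) : G.BT C) = A at hc ⊢
    generalize (inl (G.Mq c 0 0) : G.BT C) = M
    calc _ = M * A * M⁻¹ * B * M * (B⁻¹ * A⁻¹ * B * A) * M⁻¹ * B⁻¹ * M * A⁻¹ * M⁻¹ := by group
      _ = 1 := by rw [hc]; group

/-- The representation in the lexicographic coordinates. -/
noncomputable def th (c : C) {m : ℕ} (hm : c ^ m = 1) : OG n m →* G.BT C :=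
  PresentedGroup.toGroup (G.gen_rel c hm)

variable {c : C} {m : ℕ} (hm : c ^ m = 1)

theorem th_a : G.th c hm (oa n m) =
    inl (G.Mq c 0 0) * inr (Multiplicative.ofAdd (1, 0)) * (inl (G.Mq c 0 0))⁻¹ :=
  PresentedGroup.toGroup.of _

theorem th_b : G.th c hm (ob n m) = inr (Multiplicative.ofAdd (0, 1)) :=
  PresentedGroup.toGroup.of _

theorem th_c (i : Fin n) : G.th c hm (oc m i) = inl (emb (lt (G.lb i 0 0) c)) :=
  PresentedGroup.toGroup.of _

theorem th_a_pow (p : ℤ) : G.th c hm (oa n m ^ p) =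
    inl (G.Mq c 0 0) * inr (Multiplicative.ofAdd (p, 0)) * (inl (G.Mq c 0 0))⁻¹ := by
  rw [map_zpow, G.th_a, conj_zpow, ← map_zpow, ← ofAdd_zsmul]
  simp

theorem th_b_pow (q : ℤ) : G.th c hm (ob n m ^ q) = inr (Multiplicative.ofAdd (0, q)) := by
  rw [map_zpow, G.th_b, ← map_zpow, ← ofAdd_zsmul]
  simp

theorem th_ocp (i : Fin n) (p q : ℤ) : G.th c hm (ocp m i p q) =
    inl (G.Mq c 0 0 * ((G.Mq c p 0)⁻¹ * emb (lt (G.lb i p q) c) * G.Mq c p 0) *
      (G.Mq c 0 0)⁻¹) := by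
  have m1 := G.inr_conj (0, q) (emb (lt (G.lb i 0 0) c))
  have m2 := G.inr_conj (p, 0) ((G.Mq c 0 0)⁻¹ * emb (lt (G.lb i 0 q) c) * G.Mq c 0 0)
  simp only [map_mul, map_inv, G.rl_Mq, rlA_emb, rl_lt, G.tv_lb, zero_add, add_zero] at m1 m2
  unfold ocp
  simp only [map_mul, map_inv, G.th_a_pow, G.th_b_pow, G.th_c]
  rw [← m2, ← m1]
  group

/-- The row-wise conjugation. -/
noncomputable def Fr (c : C) : W L C →* WL L C := rowc emb G.p1 (fun r => (G.Mq c r 0)⁻¹)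

theorem Fr_inj (c : C) : Function.Injective (G.Fr c) := by
  rw [injective_iff_map_eq_one]
  intro w hw
  obtain ⟨N, hN⟩ := ((lab w).toFinset.image G.p1).bddAbove
  have h1 := rowc_injective G.p1 (fun r => pj (lab w).toFinset (G.Oq c r 0))
    (fun r => pj (lab w).toFinset (G.Mq c r 0))
    (fun r => sup_op c (fun l hl => (mem_cut.1 hl).2.1))
    (fun r => by rw [G.Mq_eq, map_mul]) (N + 1) (fun r hr => by
      have : cut (lab w).toFinset {l | r ≤ G.p1 l ∧ 0 ≤ G.p2 l} = ∅ := by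
        refine Finset.eq_empty_of_forall_notMem fun l hl => ?_
        have k1 : G.p1 l ≤ N := hN (Finset.mem_coe.2 (Finset.mem_image_of_mem _ (mem_cut.1 hl).1))
        have k2 : r ≤ G.p1 l := (mem_cut.1 hl).2.1
        omega
      show op _ c _ = 1
      rw [this, op_empty])
  refine h1 ?_
  rw [map_one, ← W_ext_sup (f := (pj (lab w).toFinset).comp (G.Fr c)) ?_ (sup_lab w)]
  · rw [MonoidHom.comp_apply, hw, map_one]
  · intro l hl x
    rw [MonoidHom.comp_apply, Fr, rowc_lt, rowc_lt]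
    simp only [map_mul, map_inv, pj_emb_lt (Finset.mem_coe.1 hl), MonoidHom.id_apply]

theorem th_main (hg : ∀ x : C, ∃ k : ℤ, x = c ^ k)
    (hl : ∀ (H : Type) [Group H] (y : H), y ^ m = 1 → ∃ f : C →* H, f c = y) :
    Function.Injective (G.th c hm) ∧
      ∀ w, inl (G.Mq c 0 0 * G.Fr c w * (G.Mq c 0 0)⁻¹) ∈ (G.th c hm).range := by
  choose f hf using fun i : Fin n => hl (OG n m) (oc m i) (oc_pow i)
  let π : W L C →* OG n m := lf (fun l =>
    (MulAut.conj (oa n m ^ G.p1 l * ob n m ^ G.p2 l)).toMonoidHom.comp (f (G.ty l)))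
  have h1 : ∀ l, π (lt l c) = ocp m (G.ty l) (G.p1 l) (G.p2 l) := fun l => by
    show lf _ _ = _
    rw [lf_lt, MonoidHom.comp_apply, hf]
    rfl
  have h2 : (G.th c hm).comp π =
      inl.comp ((MulAut.conj (G.Mq c 0 0)).toMonoidHom.comp (G.Fr c)) :=
    W_ext_gen hg fun l => by
      rw [MonoidHom.comp_apply, h1, G.th_ocp, G.lb_eq]
      simp [Fr, rowc_lt]
  have h3 : ∀ w, G.th c hm (π w) = inl (G.Mq c 0 0 * G.Fr c w * (G.Mq c 0 0)⁻¹) :=
    fun w => DFunLike.congr_fun h2 w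
  refine ⟨?_, fun w => ⟨π w, h3 w⟩⟩
  rw [injective_iff_map_eq_one]
  intro o ho
  obtain ⟨_, ⟨w, rfl⟩, p, q, rfl⟩ := og_nf π.range
    (fun i p q => ⟨lt (G.lb i p q) c, by simp [h1]⟩) (by
      rintro _ ⟨w, rfl⟩
      induction w using W_ind with
      | h1 => simp
      | h l x g ih =>
        obtain ⟨k, rfl⟩ := hg x
        rw [map_mul, show (lt l (c ^ k) : W L C) = lt l c ^ k from map_zpow (ltH l) c k,
          map_zpow, h1]
        refine Subgroup.mul_mem _ (Subgroup.zpow_mem _ (Subgroup.subset_closure ?_) _) ih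
        exact ⟨_, _, _, rfl⟩) o
  rw [map_mul, map_mul, h3, G.th_a_pow, G.th_b_pow] at ho
  have h4 := congrArg rightHom ho
  simp only [map_mul, map_inv, rightHom_inl, rightHom_inr, map_one, one_mul, inv_one,
    mul_one] at h4
  have h5 : ((p, 0) : ℤ × ℤ) + (0, q) = 0 := congrArg Multiplicative.toAdd h4
  obtain ⟨rfl, rfl⟩ : p = 0 ∧ q = 0 := by simpa using h5
  have h6 : G.Fr c w = 1 := by
    have : (Multiplicative.ofAdd ((0, 0) : ℤ × ℤ)) = 1 := rfl
    rw [this, map_one, mul_one, mul_one, mul_inv_cancel, mul_one, ← map_one inl] at ho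
    simpa using inl_injective ho
  rw [G.Fr_inj c (h6.trans (map_one _).symm)]
  simp

theorem KB (c : C) {R A : Set L} (hR : Up Z.X R) (hA : Up G.Yp A) :
    Kh c G.Yp Z.X (opH c G.Yp (R ∩ A)) = (opH c Z.X (R ∩ A))⁻¹ := by
  rw [Set.inter_comm]
  exact Kh_opH c hA hR

theorem mem_R0 {l : L} (h : G.p1 l = 0) : l ∈ Rs Z.x (0, false) ↔ 0 ≤ G.p2 l := by
  have k2 := G.ox0 (G.ty l)
  have k3 := G.ox1 (G.ty l)
  have k4 := Real.goldenRatio_pos
  have e : l ∈ Rs Z.x (0, false) ↔ 0 ≤ Z.x l := by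
    simp only [Rs, Set.mem_ofPred_eq, and_true]
    exact le_iff_lt_or_eq.symm
  rw [e, G.x_eq, h]
  constructor
  · intro h1
    by_contra h2
    have : (G.p2 l : ℝ) ≤ -1 := by exact_mod_cast (show G.p2 l ≤ -1 by omega)
    push_cast at h1
    nlinarith
  · intro h1
    have : (0 : ℝ) ≤ G.p2 l := by exact_mod_cast h1
    push_cast
    nlinarith

theorem mem_R2 {l : L} (h : G.p1 l = 0) :
    l ∈ Rs Z.x (Real.goldenRatio, false) ↔ 1 ≤ G.p2 l := by
  have e := G.Rs_tv (0, 1)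
  simp only [Int.cast_zero, Int.cast_one, mul_one, zero_add] at e
  obtain ⟨l, rfl⟩ := (G.tv (0, 1)).surjective l
  rw [← e, (G.tv (0, 1)).injective.mem_set_image, G.mem_R0 (by simpa using h)]
  simp

/-- The base word. -/
noncomputable def Bw (c : C) : WL L C := opH c G.Yp (Rs Z.x (0, false) ∩ G.Ar 0)

theorem rl_Bw (c : C) (v : ℤ × ℤ) : rlA (G.tv v) (G.Bw c) =
    opH c G.Yp (Rs Z.x (v.1 + Real.goldenRatio * v.2, false) ∩ G.Ar v.1) :=
  rlA_opH _ c (fun a _ b _ h => (G.Yp_tv v a b).1 h) (fun l => by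
    rw [← G.Rs_tv, Set.mem_inter_iff, (G.tv v).injective.mem_set_image]
    simp [Ar])

theorem Bw_eq (c : C) : G.Bw c = G.Oq c 0 0 * opH c G.Yp (Rs Z.x (0, false) ∩ G.Ar 1) :=
  opH_split c _ (fun l => by
      simp only [Set.mem_inter_iff, Ar, Set.mem_ofPred_eq]
      by_cases h : G.p1 l = 0
      · simp [G.mem_R0 h, h]
      · simp only [h, false_and, false_or]
        exact and_congr_right fun _ => by omega)
    (fun a ha b hb => by
      have h1 : G.p1 a = 0 := ha.1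
      have h2 : 1 ≤ G.p1 b := hb.2
      rw [G.Yp_lt]; omega)

/-- The representation. -/
noncomputable def ps (c : C) {m : ℕ} (hm : c ^ m = 1) : OG n m →* Big L C :=
  (G.Th c).comp ((MulAut.conj (inl (G.Bw c)⁻¹)).toMonoidHom.comp (G.th c hm))

theorem ps_eq (o : OG n m) (k : WL L C) (v : ℤ × ℤ)
    (h : G.th c hm o = ⟨k, Multiplicative.ofAdd v⟩) :
    G.ps c hm o = ⟨Kh c G.Yp Z.X ((G.Bw c)⁻¹ * k * rlA (G.tv v) (G.Bw c)), G.tv v⟩ := by
  have : G.ps c hm o = G.Th c (inl (G.Bw c)⁻¹ * G.th c hm o * (inl (G.Bw c)⁻¹)⁻¹) := rfl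
  have e : (inl (G.Bw c)⁻¹ * ⟨k, Multiplicative.ofAdd v⟩ * inl (G.Bw c) : G.BT C) =
      ⟨(G.Bw c)⁻¹ * k * rlA (G.tv v) (G.Bw c), Multiplicative.ofAdd v⟩ :=
    SemidirectProduct.ext (by
      simp only [mul_left, mul_right, left_inl, right_inl, map_one, MulAut.one_apply, one_mul]
      rfl) (by simp [-mk_eq_inl_mul_inr])
  rw [this, h, ← map_inv inl, inv_inv, e]
  rfl

theorem ps_a : G.ps c hm (oa n m) = G.pa c := by
  rw [G.ps_eq hm _ (G.Oq c 0 0) (1, 0), G.rl_Bw, G.Bw_eq]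
  · unfold pa stp
    simp only [mul_inv_rev, inv_mul_cancel_right, map_mul, map_inv, G.KB c (Z.up_Rs _) (G.up_Ar _),
      inv_inv, Int.cast_one, Int.cast_zero, mul_zero, add_zero]
    rfl
  · have m1 := G.inr_conj (1, 0) (G.Mq c 0 0)
    rw [G.rl_Mq] at m1
    rw [G.th_a, mk_eq_inl_mul_inr, eq_mul_inv_of_mul_eq (G.Mq_eq c 0 0).symm, map_mul, map_inv]
    simp only [add_zero] at m1
    rw [← m1]
    group

theorem ps_b : G.ps c hm (ob n m) = G.pb c := by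
  rw [G.ps_eq hm _ 1 (0, 1) (G.th_b hm), G.rl_Bw]
  unfold pb stp Bw
  simp only [mul_one, map_mul, map_inv, G.KB c (Z.up_Rs _) (G.up_Ar _), inv_inv, Int.cast_one,
    Int.cast_zero, zero_add]
  rfl

theorem ps_inl (o : OG n m) (k : WL L C) (h : G.th c hm o = inl k) :
    G.ps c hm o = inl (Kh c G.Yp Z.X ((G.Bw c)⁻¹ * k * G.Bw c)) := by
  rw [G.ps_eq hm o k 0 h, G.tv_zero, map_one]
  rfl

theorem loop_mem (c : C) {D D' : Set L} (h0 : D ⊆ G.Ar 0) (h1 : G.Ar 1 ⊆ D) (h2 : D' ⊆ G.Ar 0)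
    (h3 : G.Ar 1 ⊆ D') (h : ∀ l, G.p1 l = 0 → 1 ≤ G.p2 l → l ∈ D ∧ l ∈ D') :
    inl (opH c Z.X (Rs Z.x (0, false) ∩ D) * (opH c Z.X (Rs Z.x (0, false) ∩ D'))⁻¹) ∈
      G.GamS c := by
  obtain ⟨b, hb⟩ := G.box_stp c 0 Real.goldenRatio h0 h1
  obtain ⟨b', hb'⟩ := G.box_stp c Real.goldenRatio 0 h2 h3
  have h4 := (hb.mono (Bx.sub_sup_left _ b')).trans (hb'.mono (Bx.sub_sup_right _ _))
  have e : Rs Z.x (Real.goldenRatio, false) ∩ D = Rs Z.x (Real.goldenRatio, false) ∩ D' := by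
    ext l
    refine and_congr_right fun k => ?_
    by_cases k1 : G.p1 l = 0
    · have := h l k1 ((G.mem_R2 k1).1 k)
      exact iff_of_true this.1 this.2
    · have a1 : l ∈ G.Ar 0 → l ∈ G.Ar 1 := fun k2 => by
        have : 0 ≤ G.p1 l := k2
        show 1 ≤ G.p1 l
        omega
      exact ⟨fun k2 => h3 (a1 (h0 k2)), fun k2 => h1 (a1 (h2 k2))⟩
  refine ⟨0, b.sup b', G.tv_zero.symm, ?_⟩
  rw [G.tv_zero, Equiv.Perm.coe_one, Set.image_id]
  convert h4 using 1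
  unfold stp
  rw [e, left_inl]
  group

theorem ps_mem (o : OG n m) : G.ps c hm o ∈ G.GamS c := by
  have ho : o ∈ Subgroup.closure (Set.range (PresentedGroup.of : _ → OG n m)) := by
    rw [PresentedGroup.closure_range_of]; trivial
  refine (Subgroup.closure_le ((G.GamS c).comap (G.ps c hm))).2 ?_ ho
  rintro _ ⟨j, rfl⟩
  rcases j with j | i
  · fin_cases j
    · show G.ps c hm (oa n m) ∈ G.GamS c
      obtain ⟨b, hb⟩ := G.box_stp c 0 1 (D := G.Ar 1) subset_rfl subset_rfl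
      rw [G.ps_a]
      exact ⟨(1, 0), b, rfl, by rw [G.Rs_tv]; simpa [pa, Ar, p1] using hb⟩
    · show G.ps c hm (ob n m) ∈ G.GamS c
      obtain ⟨b, hb⟩ := G.box_stp c 0 Real.goldenRatio (D := G.Ar 0) subset_rfl subset_rfl
      rw [G.ps_b]
      exact ⟨(0, 1), b, rfl, by rw [G.Rs_tv]; simpa [pb, Ar, p1] using hb⟩
  · show G.ps c hm (oc m i) ∈ G.GamS c
    have hl : G.lb i 0 0 ∈ Rs Z.x (0, false) := (G.mem_R0 (by simp)).2 (by simp)
    have e := stp_Rle c G.Yp (G.lb i 0 0) hl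
    have a1 : Rle G.Yp (G.lb i 0 0) ⊆ G.Ar 0 := fun l k => by
      have := (G.Yp_le _ _).1 k
      simp only [p1_lb] at this
      show 0 ≤ G.p1 l
      omega
    have a2 : G.Ar 1 ⊆ Rl G.Yp (G.lb i 0 0) := fun l k => (G.Yp_lt _ _).2 (Or.inl (by
      rw [p1_lb]; exact k))
    have a3 : Rl G.Yp (G.lb i 0 0) ⊆ Rle G.Yp (G.lb i 0 0) :=
      fun l k => le_of_lt (a := G.Yp _) k
    have a4 : ∀ l, G.p1 l = 0 → 1 ≤ G.p2 l → l ∈ Rl G.Yp (G.lb i 0 0) := fun l k1 k2 =>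
      (G.Yp_lt _ _).2 (Or.inr ⟨by simp [k1], Or.inl (by rw [p2_lb]; exact k2)⟩)
    have a5 : G.Ar 1 ⊆ G.Ar 0 := a2.trans (a3.trans a1)
    have b1 := G.loop_mem c subset_rfl a5 a1 (a2.trans a3)
      (fun l k1 k2 => ⟨a1 (a3 (a4 l k1 k2)), a3 (a4 l k1 k2)⟩)
    have b2 := G.loop_mem c (a3.trans a1) a2 subset_rfl a5
      (fun l k1 k2 => ⟨a4 l k1 k2, a1 (a3 (a4 l k1 k2))⟩)
    rw [G.ps_inl hm _ _ (G.th_c hm i), ← e]
    convert (G.GamS c).mul_mem b1 b2 using 1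
    unfold stp Bw
    rw [← map_mul, Set.inter_comm (Rle _ _), Set.inter_comm (Rl _ _)]
    simp only [map_mul, map_inv, G.KB c (Z.up_Rs _) (G.up_Ar _), G.KB c (Z.up_Rs _) (up_Rle _ _),
      G.KB c (Z.up_Rs _) (up_Rl _ _)]
    group

theorem lam_mem' (K : Subgroup (WL L C))
    (hK : ∀ w, G.Mq c 0 0 * G.Fr c w * (G.Mq c 0 0)⁻¹ ∈ K) (l : L) :
    stp c G.Yp (G.Ar 0) (Rl G.Yp l) {l | 0 ≤ G.p2 l} * emb (lt l c) *
      (stp c G.Yp (G.Ar 0) (Rl G.Yp l) {l | 0 ≤ G.p2 l})⁻¹ ∈ K := by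
  have hT : {k | G.p1 k = G.p1 l ∧ 0 ≤ G.p2 k ∧ G.Yp k ≤ G.Yp l}.Finite := by
    refine (G.fin_sq (|G.p1 l| + |G.p2 l|)).subset fun k hk => ?_
    obtain ⟨k1, k2, k3⟩ := hk
    rw [G.Yp_le] at k3
    have := abs_nonneg (G.p1 l)
    have := abs_nonneg (G.p2 l)
    have := le_abs_self (G.p2 l)
    refine ⟨by rw [k1]; omega, ?_⟩
    rw [abs_of_nonneg k2]; omega
  have e : G.Mq c (G.p1 l) 0 =
      emb (op G.Yp c hT.toFinset) * opH c G.Yp (Rl G.Yp l ∩ {l | 0 ≤ G.p2 l}) := by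
    rw [← opH_finset c G.Yp hT.toFinset (fun k => hT.mem_toFinset.symm)]
    refine opH_split c _ (fun k => ?_) (fun a ha b hb => lt_of_le_of_lt ha.2.2 hb.1)
    simp only [Set.mem_ofPred_eq, Set.mem_inter_iff, Rl, G.Yp_lt, G.Yp_le]
    omega
  have hs : Sup {k | G.p1 k = G.p1 l} (op G.Yp c hT.toFinset) :=
    sup_op c fun k hk => (hT.mem_toFinset.1 hk).1
  have := hK (op G.Yp c hT.toFinset * lt l c * (op G.Yp c hT.toFinset)⁻¹)
  rw [Fr, rowc_row _ _ _ (sup_mul (sup_mul hs (sup_lt (l := l) (by simp) c)) (sup_inv hs)), e] at this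
  convert this using 1
  unfold stp
  simp only [map_mul, map_inv]
  rw [show opH c G.Yp (G.Ar 0 ∩ {l | 0 ≤ G.p2 l}) = G.Mq c 0 0 from rfl]
  group

theorem fin_row (l : L) : {k | ¬ (k ∈ G.Ar 0 ↔ k ∈ Rl G.Yp l) ∧
    ¬ (k ∈ Rl Z.X l ↔ k ∈ {l | 0 ≤ G.p2 l})}.Finite := by
  obtain ⟨N, hN⟩ := exists_nat_ge (|Z.x l| + |(G.p1 l : ℝ)| + 2)
  refine (G.fin_sq N).subset fun k hk => ?_
  obtain ⟨k1, k2⟩ := hk
  simp only [Ar, Rl, Set.mem_ofPred_eq, G.Yp_lt, Z.X_iff G.inj] at k1 k2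
  have k3 : |G.p1 k| ≤ |G.p1 l| := by
    have := le_abs_self (G.p1 l)
    have := neg_abs_le (G.p1 l)
    have := abs_nonneg (G.p1 l)
    rw [abs_le]; omega
  have k4 : |(G.p1 k : ℝ)| ≤ |(G.p1 l : ℝ)| := by exact_mod_cast k3
  have k5 := abs_le.1 k4
  have k6 := abs_nonneg (Z.x l)
  have k7 := G.ox0 (G.ty k)
  have k8 := G.ox1 (G.ty k)
  obtain ⟨g1, g2⟩ := gr_bounds
  have k9 := le_abs_self (Z.x l)
  have k10 := neg_abs_le (Z.x l)
  have k11 := abs_nonneg (G.p1 l : ℝ)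
  refine ⟨by exact_mod_cast (show |(G.p1 k : ℝ)| ≤ N by linarith), ?_⟩
  have : |(G.p2 k : ℝ)| ≤ N := by
    rw [G.x_eq k] at k2
    by_cases h : 0 ≤ G.p2 k
    · have h1 : (0 : ℝ) ≤ G.p2 k := by exact_mod_cast h
      have h2 := not_lt.1 (fun k => k2 (iff_of_true k h))
      rw [abs_of_nonneg h1]
      nlinarith
    · have h1 : (G.p2 k : ℝ) < 0 := by exact_mod_cast not_le.1 h
      have h2 := not_not.1 (fun k => k2 (iff_of_false k h))
      rw [abs_of_neg h1]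
      nlinarith
  exact_mod_cast this

theorem lam_mem (hK : ∀ w, inl (G.Mq c 0 0 * G.Fr c w * (G.Mq c 0 0)⁻¹) ∈ (G.th c hm).range)
    (l : L) : stp c Z.X (Rs Z.x (0, false)) (Rl Z.X l) (G.Ar 0) * emb (lt l c) *
      (stp c Z.X (Rs Z.x (0, false)) (Rl Z.X l) (G.Ar 0))⁻¹ ∈ (G.ps c hm).range.comap inl := by
  have h1 := G.lam_mem' ((G.th c hm).range.comap inl) hK
  have h2 := flip_mem c G.Yp (G.Ar 0) {l | 0 ≤ G.p2 l} _ h1 (G.up_Ar 0) (up_Rl G.Yp l)
    (G.fin_row l)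
  rw [stp_self, one_mul] at h2
  obtain ⟨o, ho⟩ := Subgroup.mul_mem _ (Subgroup.mul_mem _ h2 (Subgroup.inv_mem _ (h1 l)))
    (Subgroup.inv_mem _ h2)
  refine ⟨o, ?_⟩
  rw [G.ps_inl hm o _ ho]
  congr 1
  have e := Kh_Kh c Z.X G.Yp (emb (lt l c))
  rw [Kh_emb_lt, lt_inv] at e
  conv_rhs => rw [← e]
  unfold stp Bw UR
  rw [← inv_inv (opH c Z.X (Rs Z.x (0, false) ∩ G.Ar 0)), ← G.KB c (Z.up_Rs _) (G.up_Ar 0),
    ← G.KB c (up_Rl _ _) (G.up_Ar 0), Set.inter_comm (G.Ar 0) (Rl Z.X l),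
    Set.inter_comm (Rl G.Yp l) (Rl Z.X l)]
  simp only [← map_inv, ← map_mul]
  congr 1
  simp only [map_inv]
  group

theorem box_mem (K : Subgroup (WL L C))
    (hK : ∀ l, stp c Z.X (Rs Z.x (0, false)) (Rl Z.X l) (G.Ar 0) * emb (lt l c) *
      (stp c Z.X (Rs Z.x (0, false)) (Rl Z.X l) (G.Ar 0))⁻¹ ∈ K) {b : Bx} {R : Set L}
    {ω : WL L C} (h : BoxW c Z b (Rs Z.x (0, false)) R ω) :
    ω * (stp c Z.X (Rs Z.x (0, false)) R (G.Ar 0))⁻¹ ∈ K := by
  induction h with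
  | refl _ _ => simp [stp_self]
  | @step R1 R2 D ω h0 h1 h2 h3 ih =>
    obtain ⟨y0, y1, -, k⟩ := G.band b.x0 b.x1 0 0
    have := K.mul_mem ih (flip_mem c Z.X _ _ K hK h0.right.1 h1 (D := D)
      ((Z.bl_fin ⟨b.x0, b.x1, min y0 b.y0, max y1 b.y1⟩).subset fun l hl => ?_))
    · convert this using 1
      group
    · obtain ⟨k1, k2⟩ := h0.right.2.band h2 hl.1
      refine ⟨k1, k2, not_lt.1 fun k3 => hl.2 ?_, not_lt.1 fun k3 => hl.2 ?_⟩
      · rw [lt_min_iff] at k3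
        exact iff_of_false ((h3 l).2 k3.2) (not_le.2 ((k l k1 k2).2 k3.1))
      · rw [max_lt_iff] at k3
        exact iff_of_true ((h3 l).1 k3.2) ((k l k1 k2).1 k3.1)

theorem ps_right (p q : ℤ) : (G.ps c hm (oa n m ^ p * ob n m ^ q)).right = G.tv (p, q) := by
  have : ∀ o, (G.ps c hm o).right = G.tvH (rightHom (G.th c hm o)) := fun o => by
    simp [ps, Th]
  rw [this, map_mul, G.th_a_pow, G.th_b_pow]
  simp only [map_mul, map_inv, rightHom_inl, rightHom_inr, one_mul, inv_one, mul_one]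
  rw [← map_mul, ← ofAdd_add]
  simp [tvH]

end Grid

end

theorem Grid.pres {L C : Type} [CommGroup C] {Z : Cfg L} {n : ℕ} (G : Grid Z n) (hn : 0 < n)
    (c : C) (m : ℕ) (hm : c ^ m = 1) (hg : ∀ x : C, ∃ k : ℤ, x = c ^ k)
    (hl : ∀ (H : Type) [Group H] (y : H), y ^ m = 1 → ∃ f : C →* H, f c = y) :
    ∃ ψ : OG n m →* Big L C, Function.Injective ψ ∧
      ψ (PresentedGroup.of (Sum.inl 0)) = G.pa c ∧ ψ (PresentedGroup.of (Sum.inl 1)) = G.pb c ∧
      Set.range ψ = G.Gam c := by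
  obtain ⟨h1, h2⟩ := G.th_main hm hg hl
  refine ⟨G.ps c hm, (G.Th_inj hn c).comp ((MulAut.conj _).injective.comp h1), G.ps_a hm,
    G.ps_b hm, Set.Subset.antisymm ?_ ?_⟩
  · rintro _ ⟨o, rfl⟩
    exact G.ps_mem hm o
  · rintro z ⟨v, b, h3, h4⟩
    obtain ⟨v', b', h5, h6⟩ := G.ps_mem hm (oa n m ^ v.1 * ob n m ^ v.2)
    have h7 := G.ps_right hm v.1 v.2
    rw [G.tv_inj hn (h5.symm.trans h7)] at h6
    obtain ⟨o, ho⟩ := Subgroup.mul_mem _ (G.box_mem _ (G.lam_mem hm h2) h4)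
      (Subgroup.inv_mem _ (G.box_mem _ (G.lam_mem hm h2) h6))
    refine ⟨o * (oa n m ^ v.1 * ob n m ^ v.2), ?_⟩
    rw [map_mul, ho]
    refine SemidirectProduct.ext ?_ ?_
    · rw [mul_left, left_inl, right_inl, map_one, MulAut.one_apply]
      group
    · rw [mul_right, h7, h3]
      simp

theorem cz_lift (H : Type) [Group H] (y : H) (_ : y ^ 0 = 1) : ∃ f : CZ →* H, f cz = y :=
  ⟨zpowersHom H y, by simp [cz]⟩

theorem c2_lift (H : Type) [Group H] (y : H) (h : y ^ 2 = 1) : ∃ f : C2 →* H, f c2 = y := by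
  have h1 : ∀ x : C2, x = 1 ∨ x = c2 := by decide
  have h2 : c2 ≠ 1 := by decide
  have h3 : c2 * c2 = 1 := by decide
  refine ⟨MonoidHom.mk' (fun x => if x = 1 then 1 else y) fun a b => ?_, by simp [h2]⟩
  rcases h1 a with rfl | rfl <;> rcases h1 b with rfl | rfl <;> simp [h2, h3, ← sq, h]

end Pool.Agent.E5f

end

section

/-!
The action of the figure-eight group on a planar model of the base.
-/

set_option autoImplicit false

namespace Pool.Agent.E5f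

open Filter Classical SemidirectProduct

namespace Act

theorem xi_eq (p : Zl) : E0.ξ p = p.re + p.im * Real.goldenRatio :=
  embR_apply _ (by rw [← sq, Real.goldenRatio_sq]) p

theorem eta_eq (p : Zl) : E0.η p = p.re + p.im * Real.goldenConj :=
  embR_apply _ (by rw [← sq, Real.goldenConj_sq]) p

/-- The base configuration is a grid. -/
noncomputable def G0 : Grid E0.bc 1 where
  e := ⟨fun p => (0, p.re, p.im), fun t => ⟨t.2.1, t.2.2⟩, fun _ => rfl,
    fun t => Prod.ext (Subsingleton.elim _ _) rfl⟩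
  ox := fun _ => 0
  oy := fun _ => 0
  hx := fun l => by simp [xi_eq, mul_comm]
  hy := fun l => by simp [eta_eq, mul_comm]
  ox0 := fun _ => le_rfl
  ox1 := fun _ => Real.goldenRatio_pos
  inj := E0.ξ_inj

theorem tv_eq (v : ℤ × ℤ) (p : Zl) : G0.tv v p = p + ⟨v.1, v.2⟩ := by
  ext <;> simp [Grid.tv, G0]

theorem p1_eq (p : Zl) : G0.p1 p = p.re := rfl

/-- Multiplication by the square of the golden unit. -/
noncomputable def tau : Equiv.Perm Zl := Units.mulLeft (E0.uω ^ (2 * (1 : ℤ)))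

theorem tau_eq (p : Zl) : tau p = ⟨p.re + p.im, p.re + 2 * p.im⟩ := by
  have : tau p = E0.ω * E0.ω * p := by
    show ((E0.uω ^ (2 * (1 : ℤ)) : Zlˣ) : Zl) * p = _
    rw [mul_one, zpow_ofNat, sq]
    rfl
  rw [this]
  ext
  · simp [E0]
  · simp [E0]; ring

/-- The cut at a real number. -/
abbrev Rr (s : ℝ) : Set Zl := Rs E0.bc.x (s, false)

theorem mem_Rr (s : ℝ) (p : Zl) : p ∈ Rr s ↔ s ≤ p.re + p.im * Real.goldenRatio := by
  simp only [Rs, Set.mem_ofPred_eq, and_true, Emb.bc_x, xi_eq]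
  exact le_iff_lt_or_eq.symm

theorem cross {s t : ℝ} (h : s ≤ t) {p : Zl} (hp : ¬ (p ∈ Rr s ↔ p ∈ Rr t)) :
    s ≤ p.re + p.im * Real.goldenRatio ∧ p.re + p.im * Real.goldenRatio < t := by
  rw [mem_Rr, mem_Rr] at hp
  by_contra k
  rcases not_and_or.1 k with k | k
  · exact hp (iff_of_false k (fun k' => k (h.trans k')))
  · exact hp (iff_of_true (h.trans (not_lt.1 k)) (not_lt.1 k))

/-- Affine elements whose word is a box word. -/
def Good (z : Big Zl CZ) (k : ℤ) : Prop :=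
  (∀ p, z.right p = ((E0.uω ^ (2 * k) : Zlˣ) : Zl) * p + z.right 0) ∧
    ∃ b, BoxW cz E0.bc b (Rr 0) (z.right '' Rr 0) z.left

theorem gpos (k : ℤ) : (0 : ℝ) < (Real.goldenRatio ^ 2) ^ k :=
  zpow_pos (pow_pos Real.goldenRatio_pos 2) k

section aff
variable {σ : Equiv.Perm Zl} {k : ℤ}
  (h : ∀ p, σ p = ((E0.uω ^ (2 * k) : Zlˣ) : Zl) * p + σ 0)
include h

theorem aff_x (p : Zl) :
    E0.bc.x (σ p) = (Real.goldenRatio ^ 2) ^ k * E0.bc.x p + E0.ξ (σ 0) := by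
  rw [h p, Emb.bc_x, map_add, map_mul, E0.ξ_uω2]

theorem aff_y (p : Zl) :
    E0.bc.y (σ p) = (Real.goldenRatio ^ 2) ^ (-k) * E0.bc.y p + E0.η (σ 0) := by
  rw [h p, Emb.bc_y, map_add, map_mul, E0.η_uω2]

theorem aff_X (a b : Zl) : E0.bc.X a < E0.bc.X b ↔ E0.bc.X (σ a) < E0.bc.X (σ b) := by
  rw [E0.bc.X_iff E0.ξ_inj, E0.bc.X_iff E0.ξ_inj, aff_x h, aff_x h, add_lt_add_iff_right,
    mul_lt_mul_iff_right₀ (gpos k)]

theorem aff_box {b : Bx} {R R' : Set Zl} {ω : WL Zl CZ} (hb : BoxW cz E0.bc b R R' ω) :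
    ∃ b', BoxW cz E0.bc b' (σ '' R) (σ '' R') (rlA σ ω) :=
  ⟨_, hb.aff σ (gpos k) (gpos (-k)) (aff_X h) (aff_x h) (aff_y h)⟩

theorem aff_inv (p : Zl) : σ⁻¹ p = ((E0.uω ^ (2 * (-k)) : Zlˣ) : Zl) * p + σ⁻¹ 0 := by
  have h1 := h (σ⁻¹ p)
  have h2 := h (σ⁻¹ 0)
  rw [Equiv.Perm.coe_inv, Equiv.apply_symm_apply] at h1 h2
  have h3 : ((E0.uω ^ (2 * (-k)) : Zlˣ) : Zl) * ((E0.uω ^ (2 * k) : Zlˣ) : Zl) = 1 := by
    rw [← Units.val_mul, ← zpow_add]; simp
  rw [Equiv.Perm.coe_inv]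
  linear_combination (-((E0.uω ^ (2 * (-k)) : Zlˣ) : Zl)) * (h1 - h2) -
    (σ.symm p - σ.symm 0) * h3

end aff

theorem Good.one : Good 1 0 :=
  ⟨fun p => by simp, ⟨0, 0, 0, 0⟩, by
    simpa [Rr] using BoxW.refl (E0.bc.up_Rs _) ((at_Rs E0.bc.x (0, false)).inB le_rfl le_rfl)⟩

theorem Good.mul {z z' : Big Zl CZ} {k k' : ℤ} (h : Good z k) (h' : Good z' k') :
    Good (z * z') (k + k') := by
  obtain ⟨h1, b, h2⟩ := h
  obtain ⟨h3, b', h4⟩ := h'
  obtain ⟨b'', h5⟩ := aff_box h1 h4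
  refine ⟨fun p => ?_, b.sup b'', ?_⟩
  · rw [mul_right, Equiv.Perm.mul_apply, Equiv.Perm.mul_apply, h1, h1 (z'.right 0), h3 p,
      mul_add 2, zpow_add, Units.val_mul]
    ring
  · rw [mul_left, mul_right, Equiv.Perm.coe_mul, Set.image_comp]
    exact (h2.mono (Bx.sub_sup_left _ _)).trans (h5.mono (Bx.sub_sup_right _ _))

theorem Good.inv {z : Big Zl CZ} {k : ℤ} (h : Good z k) : Good z⁻¹ (-k) := by
  obtain ⟨h1, b, h2⟩ := h
  obtain ⟨b', h3⟩ := aff_box (aff_inv h1) h2.symm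
  rw [← Set.image_comp, ← Equiv.Perm.coe_mul, inv_mul_cancel, Equiv.Perm.coe_one,
    Set.image_id] at h3
  exact ⟨aff_inv h1, b', h3⟩

theorem good_gam {z : Big Zl CZ} (h : z ∈ G0.Gam cz) : Good z 0 := by
  obtain ⟨v, b, h1, h2⟩ := h
  exact ⟨fun p => by simp [h1, tv_eq], b, h1 ▸ h2⟩

theorem tau_aff (p : Zl) : tau p = ((E0.uω ^ (2 * (1 : ℤ)) : Zlˣ) : Zl) * p + tau 0 := by
  simp [tau]

theorem tau_zero : tau 0 = 0 := by simp [tau]

theorem tau_R (s : ℝ) : tau '' Rr s = Rr ((Real.goldenRatio + 1) * s) := by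
  rw [Rs_image tau (gpos 1) (aff_x tau_aff), tau_zero, map_zero, add_zero, zpow_one,
    Real.goldenRatio_sq]

theorem good_t : Good (inr tau) 1 :=
  ⟨tau_aff, ⟨0, 0, 0, 0⟩, by
    rw [right_inr, tau_R, mul_zero]
    exact BoxW.refl (E0.bc.up_Rs _) ((at_Rs E0.bc.x (0, false)).inB le_rfl le_rfl)⟩

theorem mem_tau_A (r : ℤ) (p : Zl) : p ∈ tau '' G0.Ar r ↔ r ≤ 2 * p.re - p.im := by
  obtain ⟨p, rfl⟩ := tau.surjective p
  rw [tau.injective.mem_set_image, tau_eq]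
  show r ≤ p.re ↔ r ≤ 2 * (p.re + p.im) - (p.re + 2 * p.im)
  omega

theorem mem_A (r : ℤ) (p : Zl) : p ∈ G0.Ar r ↔ r ≤ p.re := Iff.rfl

/-- A step between two cuts. -/
noncomputable abbrev st (s t : ℝ) (D : Set Zl) : WL Zl CZ := stp cz E0.bc.X (Rr s) (Rr t) D

theorem rl_st (v : ℤ × ℤ) (s t : ℝ) (r : ℤ) : rlA (G0.tv v) (st s t (G0.Ar r)) =
    st (s + (v.1 + Real.goldenRatio * v.2)) (t + (v.1 + Real.goldenRatio * v.2))
      (G0.Ar (r + v.1)) := by
  rw [rlA_stp cz _ (G0.X_tv v), Rs_image _ one_pos (G0.x_tv v), Rs_image _ one_pos (G0.x_tv v),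
    one_mul, one_mul]
  congr 1
  ext p
  obtain ⟨p, rfl⟩ := (G0.tv v).surjective p
  rw [(G0.tv v).injective.mem_set_image]
  simp [Grid.Ar]

theorem pa_eq : G0.pa cz = ⟨st 0 1 (G0.Ar 1), G0.tv (1, 0)⟩ := rfl

theorem pb_eq : G0.pb cz = ⟨st 0 Real.goldenRatio (G0.Ar 0), G0.tv (0, 1)⟩ := rfl

theorem ab_eq : G0.pa cz * G0.pb cz = ⟨st 0 (Real.goldenRatio + 1) (G0.Ar 1), G0.tv (1, 1)⟩ := by
  refine SemidirectProduct.ext ?_ (G0.tv_add (1, 0) (0, 1)).symm
  rw [mul_left, pa_eq, pb_eq]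
  simp only [rl_st, Int.cast_one, Int.cast_zero, mul_zero, add_zero, zero_add, stp_mul]

theorem ba_eq : G0.pb cz * G0.pa cz = ⟨st 0 Real.goldenRatio (G0.Ar 0) *
    st Real.goldenRatio (Real.goldenRatio + 1) (G0.Ar 1), G0.tv (1, 1)⟩ := by
  refine SemidirectProduct.ext ?_ (G0.tv_add (0, 1) (1, 0)).symm
  rw [mul_left, pa_eq, pb_eq]
  simp only [rl_st, Int.cast_one, Int.cast_zero, mul_one, add_zero, zero_add,
    add_comm (1 : ℝ) Real.goldenRatio]

theorem conj_t (k : WL Zl CZ) (v : ℤ × ℤ) : (inr tau * ⟨k, G0.tv v⟩ * (inr tau)⁻¹ : Big Zl CZ) =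
    ⟨rlA tau k, G0.tv (v.1 + v.2, v.1 + 2 * v.2)⟩ := by
  refine SemidirectProduct.ext ?_ ?_
  · rw [← map_inv inr, mul_left, mul_left]
    simp only [left_inr, right_inr, one_mul, map_one, mul_one]
  · rw [← map_inv inr, mul_right, mul_right, right_inr, right_inr, mul_inv_eq_iff_eq_mul]
    ext p <;> simp [tv_eq, tau_eq] <;> ring

theorem int_le {x : ℤ} {n : ℤ} (h : (x : ℝ) < n + 1) : x ≤ n := by
  have : x < n + 1 := by exact_mod_cast h
  omega

theorem int_ge {x : ℤ} {n : ℤ} (h : (n : ℝ) - 1 < x) : n ≤ x := by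
  have : n - 1 < x := by exact_mod_cast h
  omega

theorem rel_a : (inr tau * G0.pa cz * (inr tau)⁻¹ : Big Zl CZ) = G0.pa cz * G0.pb cz := by
  have hg := Real.goldenRatio_pos
  rw [ab_eq, pa_eq, conj_t, rlA_stp cz _ (aff_X tau_aff), tau_R, tau_R, mul_zero, mul_one,
    stp_congr cz (E0.bc.up_Rs _) (E0.bc.up_Rs _) (D' := G0.Ar 1)]
  · rfl
  · intro p hp
    obtain ⟨h1, h2⟩ := cross (by linarith) hp
    rw [mem_tau_A, mem_A]
    by_cases h : 1 ≤ p.re
    · have h3 : (1 : ℝ) ≤ p.re := by exact_mod_cast h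
      have : p.im ≤ 0 := int_le (by push_cast; nlinarith)
      omega
    · have h3 : (p.re : ℝ) ≤ 0 := by exact_mod_cast (show p.re ≤ 0 by omega)
      have : 0 ≤ p.im := int_ge (by push_cast; nlinarith)
      omega

theorem rel_b :
    (inr tau * G0.pb cz * (inr tau)⁻¹ : Big Zl CZ) = G0.pb cz * G0.pa cz * G0.pb cz := by
  have hg := Real.goldenRatio_pos
  have e : (Real.goldenRatio + 1) * Real.goldenRatio =
      Real.goldenRatio + (1 + Real.goldenRatio) := by linear_combination Real.goldenRatio_sq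
  rw [ba_eq, pb_eq, conj_t, rlA_stp cz _ (aff_X tau_aff), tau_R, tau_R, mul_zero, e]
  refine SemidirectProduct.ext ?_ (G0.tv_add (1, 1) (0, 1))
  rw [mul_left]
  simp only [rl_st, Int.cast_one, mul_one, zero_add, add_comm (1 : ℝ) Real.goldenRatio]
  rw [mul_assoc, stp_mul, ← stp_mul cz _ _ (Rr Real.goldenRatio)]
  congr 1
  · refine stp_congr cz (E0.bc.up_Rs _) (E0.bc.up_Rs _) fun p hp => ?_
    obtain ⟨h1, h2⟩ := cross hg.le hp
    rw [mem_tau_A, mem_A]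
    by_cases h : 0 ≤ p.re
    · have h3 : (0 : ℝ) ≤ p.re := by exact_mod_cast h
      have : p.im ≤ 0 := int_le (by push_cast; nlinarith)
      omega
    · have h3 : (p.re : ℝ) ≤ -1 := by exact_mod_cast (show p.re ≤ -1 by omega)
      have : 0 ≤ p.im := int_ge (by push_cast; nlinarith)
      omega
  · refine stp_congr cz (E0.bc.up_Rs _) (E0.bc.up_Rs _) fun p hp => ?_
    obtain ⟨h1, h2⟩ := cross (by linarith) hp
    rw [mem_tau_A, mem_A]
    by_cases h : 1 ≤ p.re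
    · have h3 : (1 : ℝ) ≤ p.re := by exact_mod_cast h
      have : p.im ≤ 1 := int_le (by push_cast; nlinarith)
      omega
    · have h3 : (p.re : ℝ) ≤ 0 := by exact_mod_cast (show p.re ≤ 0 by omega)
      have : 1 ≤ p.im := int_ge (by push_cast; nlinarith)
      omega

theorem comm_eq : G0.pa cz * G0.pb cz * (G0.pa cz)⁻¹ * (G0.pb cz)⁻¹ = inl (emb (lt 0 cz⁻¹)) := by
  have hg := Real.goldenRatio_pos
  have h0 : ∀ D, stp cz E0.bc.X (Rr 0) (Rs E0.bc.x (0, true)) D =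
      emb (lt 0 (if (0 : Zl) ∈ D then cz else 1)) := fun D => by
    simpa [Rr] using stp_cross (Z := E0.bc) E0.ξ_inj cz 0 D
  have h1 : st 0 Real.goldenRatio (G0.Ar 0) = emb (lt 0 cz) * st 0 Real.goldenRatio (G0.Ar 1) := by
    unfold st
    rw [← stp_mul cz _ _ (Rs E0.bc.x (0, true)) _ (G0.Ar 0),
      ← stp_mul cz _ _ (Rs E0.bc.x (0, true)) _ (G0.Ar 1), h0, h0,
      if_pos (by simp [mem_A]), if_neg (by simp [mem_A]), lt_one, map_one, one_mul]
    congr 1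
    refine stp_congr cz (E0.bc.up_Rs _) (E0.bc.up_Rs _) fun p hp => ?_
    have h2 : p.re ≠ 0 := fun h => hp (by
      simp only [Rs, Set.mem_ofPred_eq, Emb.bc_x, xi_eq, h]
      by_cases k : 1 ≤ p.im
      · have k1 : (1 : ℝ) ≤ p.im := by exact_mod_cast k
        refine iff_of_true (Or.inl (by push_cast; nlinarith)) ?_
        rcases eq_or_lt_of_le k1 with k2 | k2
        · exact Or.inr ⟨by rw [← k2]; simp, trivial⟩
        · exact Or.inl (by push_cast; nlinarith)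
      · have k1 : (p.im : ℝ) ≤ 0 := by exact_mod_cast (show p.im ≤ 0 by omega)
        refine iff_of_false ?_ ?_
        · rintro (k2 | k2)
          · push_cast at k2; nlinarith
          · simp at k2
        · rintro (k2 | k2)
          · push_cast at k2; nlinarith
          · have := k2.1; push_cast at this; nlinarith)
    rw [mem_A, mem_A]
    omega
  rw [mul_assoc, ← mul_inv_rev, ab_eq, ba_eq, mul_inv_eq_iff_eq_mul, h1, mul_assoc, stp_mul]
  refine SemidirectProduct.ext ?_ ?_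
  · rw [mul_left, left_inl, right_inl, map_one, MulAut.one_apply, lt_inv, map_inv,
      inv_mul_cancel_left]
  · rw [mul_right, right_inl, one_mul]

/-- The representation of the figure-eight group. -/
noncomputable def rho : G8 →* Big Zl CZ :=
  PresentedGroup.toGroup (f := ![G0.pa cz, G0.pb cz, inr tau]) (by
    rintro r (rfl | rfl)
    · simpa [mul_inv_eq_one, -mul_inv_rev] using rel_a
    · simpa [mul_inv_eq_one, -mul_inv_rev] using rel_b)

theorem rho_a : rho g8a = G0.pa cz := PresentedGroup.toGroup.of _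
theorem rho_b : rho g8b = G0.pb cz := PresentedGroup.toGroup.of _
theorem rho_t : rho g8t = inr tau := PresentedGroup.toGroup.of _

theorem deg_one : g8deg 1 = 0 := by simp [g8deg]
theorem deg_mul (γ δ : G8) : g8deg (γ * δ) = g8deg γ + g8deg δ := by simp [g8deg]
theorem deg_inv (γ : G8) : g8deg γ⁻¹ = -g8deg γ := by simp [g8deg]
theorem deg_a : g8degHom g8a = 1 := PresentedGroup.toGroup.of _
theorem deg_b : g8degHom g8b = 1 := PresentedGroup.toGroup.of _
theorem deg_t : g8degHom g8t = Multiplicative.ofAdd 1 := PresentedGroup.toGroup.of _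

theorem g8_rel_a : g8t * g8a * g8t⁻¹ = g8a * g8b := by
  have := PresentedGroup.one_of_mem (rels := rel8) (Or.inl rfl)
  simp only [map_mul, map_inv] at this
  exact mul_inv_eq_one.1 this

theorem g8_rel_b : g8t * g8b * g8t⁻¹ = g8b * g8a * g8b := by
  have := PresentedGroup.one_of_mem (rels := rel8) (Or.inr rfl)
  simp only [map_mul, map_inv] at this
  exact mul_inv_eq_one.1 this

theorem oc_eq : oc 0 (0 : Fin 1) = oa 1 0 * ob 1 0 * (oa 1 0)⁻¹ * (ob 1 0)⁻¹ := by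
  have := og_rel (n := 1) (m := 0)
  simp only [List.ofFn_succ, List.ofFn_zero, List.prod_cons, List.prod_nil, mul_one] at this
  calc _ = (oc 0 (0 : Fin 1) * ob 1 0 * oa 1 0 * (ob 1 0)⁻¹ * (oa 1 0)⁻¹) *
      (oa 1 0 * ob 1 0 * (oa 1 0)⁻¹ * (ob 1 0)⁻¹) := by group
    _ = _ := by rw [this, one_mul]

theorem og_ext {H : Type} [Group H] {f f' : OG 1 0 →* H} (ha : f (oa 1 0) = f' (oa 1 0))
    (hb : f (ob 1 0) = f' (ob 1 0)) : f = f' := by
  refine PresentedGroup.ext fun j => ?_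
  rcases j with j | i
  · fin_cases j
    · exact ha
    · exact hb
  · rw [Subsingleton.elim i 0]
    show f (oc 0 0) = f' (oc 0 0)
    simp only [oc_eq, map_mul, map_inv, ha, hb]

/-- The fibre group in the figure-eight group. -/
def jo : OG 1 0 →* G8 :=
  PresentedGroup.toGroup (f := Sum.elim ![g8a, g8b] (fun _ => g8c)) (by
    rintro r (⟨i, rfl⟩ | rfl)
    · simp
    · simp [g8c])

theorem jo_a : jo (oa 1 0) = g8a := PresentedGroup.toGroup.of _
theorem jo_b : jo (ob 1 0) = g8b := PresentedGroup.toGroup.of _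

theorem deg_jo (o : OG 1 0) : g8deg (jo o) = 0 := by
  have : g8degHom.comp jo = 1 := og_ext (by simp [jo_a, deg_a]) (by simp [jo_b, deg_b])
  exact congrArg Multiplicative.toAdd (DFunLike.congr_fun this o)

theorem g8_ind {p : G8 → Prop} (h1 : p 1)
    (h : ∀ g, g = g8a ∨ g = g8b ∨ g = g8t → ∀ γ, p γ → p (g * γ) ∧ p (g⁻¹ * γ)) (γ : G8) :
    p γ := by
  have ho : γ ∈ Subgroup.closure (Set.range (PresentedGroup.of : _ → G8)) := by
    rw [PresentedGroup.closure_range_of]; trivial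
  have key : ∀ j : Fin 3, (PresentedGroup.of j : G8) = g8a ∨ (PresentedGroup.of j : G8) = g8b ∨
      (PresentedGroup.of j : G8) = g8t := fun j => by
    fin_cases j
    exacts [Or.inl rfl, Or.inr (Or.inl rfl), Or.inr (Or.inr rfl)]
  refine Subgroup.closure_induction_left (p := fun γ _ => p γ) h1 ?_ ?_ ho
  · rintro _ ⟨j, rfl⟩ y _ hy
    exact (h _ (key j) y hy).1
  · rintro _ ⟨j, rfl⟩ y _ hy
    exact (h _ (key j) y hy).2

theorem jo_conj (g : G8) (ha : g * g8a * g⁻¹ ∈ jo.range) (hb : g * g8b * g⁻¹ ∈ jo.range)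
    (o : OG 1 0) : g * jo o * g⁻¹ ∈ jo.range := by
  have ho : o ∈ Subgroup.closure (Set.range (PresentedGroup.of : _ → OG 1 0)) := by
    rw [PresentedGroup.closure_range_of]; trivial
  refine (Subgroup.closure_le
    (jo.range.comap ((MulAut.conj g).toMonoidHom.comp jo))).2 ?_ ho
  have ha' : oa 1 0 ∈ jo.range.comap ((MulAut.conj g).toMonoidHom.comp jo) := by
    simpa [jo_a] using ha
  have hb' : ob 1 0 ∈ jo.range.comap ((MulAut.conj g).toMonoidHom.comp jo) := by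
    simpa [jo_b] using hb
  rintro _ ⟨j, rfl⟩
  rcases j with j | i
  · fin_cases j
    · exact ha'
    · exact hb'
  · rw [Subsingleton.elim i 0]
    show oc 0 0 ∈ _
    rw [oc_eq]
    exact Subgroup.mul_mem _ (Subgroup.mul_mem _ (Subgroup.mul_mem _ ha' hb')
      (Subgroup.inv_mem _ ha')) (Subgroup.inv_mem _ hb')

theorem g8_nf (γ : G8) : ∃ x ∈ jo.range, ∃ k : ℤ, γ = x * g8t ^ k := by
  have ha : g8a ∈ jo.range := ⟨_, jo_a⟩
  have hb : g8b ∈ jo.range := ⟨_, jo_b⟩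
  have hb' : g8t⁻¹ * g8b * g8t⁻¹⁻¹ = g8b * g8a⁻¹ := by
    calc _ = g8t⁻¹ * ((g8b * g8a * g8b) * (g8a * g8b)⁻¹) * g8t := by group
      _ = _ := by rw [← g8_rel_b, ← g8_rel_a]; group
  have ha' : g8t⁻¹ * g8a * g8t⁻¹⁻¹ = g8a * g8a * g8b⁻¹ := by
    calc _ = g8t⁻¹ * ((g8a * g8b) * (g8a * g8b) * (g8b * g8a * g8b)⁻¹) * g8t := by group
      _ = _ := by rw [← g8_rel_b, ← g8_rel_a]; group
  induction γ using g8_ind with
  | h1 => exact ⟨1, Subgroup.one_mem _, 0, by simp⟩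
  | h g hg γ ih =>
    obtain ⟨x, hx, k, rfl⟩ := ih
    rcases hg with rfl | rfl | rfl
    · exact ⟨⟨_, Subgroup.mul_mem _ ha hx, k, by group⟩,
        ⟨_, Subgroup.mul_mem _ (Subgroup.inv_mem _ ha) hx, k, by group⟩⟩
    · exact ⟨⟨_, Subgroup.mul_mem _ hb hx, k, by group⟩,
        ⟨_, Subgroup.mul_mem _ (Subgroup.inv_mem _ hb) hx, k, by group⟩⟩
    · obtain ⟨o, rfl⟩ := hx
      refine ⟨⟨_, jo_conj g8t ?_ ?_ o, k + 1, by group⟩, ⟨_, jo_conj g8t⁻¹ ?_ ?_ o, k - 1, by group⟩⟩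
      · rw [g8_rel_a]; exact Subgroup.mul_mem _ ha hb
      · rw [g8_rel_b]; exact Subgroup.mul_mem _ (Subgroup.mul_mem _ hb ha) hb
      · rw [ha']; exact Subgroup.mul_mem _ (Subgroup.mul_mem _ ha ha) (Subgroup.inv_mem _ hb)
      · rw [hb']; exact Subgroup.mul_mem _ hb (Subgroup.inv_mem _ ha)

theorem ker_deg {γ : G8} (h : g8deg γ = 0) : ∃ o, jo o = γ := by
  obtain ⟨_, ⟨o, rfl⟩, k, rfl⟩ := g8_nf γ
  have : g8deg (g8t ^ k) = k := by simp [g8deg, deg_t]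
  rw [deg_mul, deg_jo, this, zero_add] at h
  exact ⟨o, by simp [h]⟩

theorem cz_gen0 (x : CZ) : ∃ k : ℤ, x = cz ^ k := ⟨x.toAdd, by simp [cz, ← ofAdd_zsmul]⟩

theorem pres0 : Function.Injective (rho.comp jo) ∧ Set.range (rho.comp jo) = G0.Gam cz := by
  obtain ⟨ψ, h1, h2, h3, h4⟩ := G0.pres one_pos cz 0 (pow_zero _) cz_gen0 cz_lift
  rw [og_ext (f := rho.comp jo) (f' := ψ) (by rw [MonoidHom.comp_apply, jo_a, rho_a]; exact h2.symm)
    (by rw [MonoidHom.comp_apply, jo_b, rho_b]; exact h3.symm)]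
  exact ⟨h1, h4⟩

theorem good_jo (o : OG 1 0) : Good (rho (jo o)) 0 := good_gam (pres0.2 ▸ ⟨o, rfl⟩)

theorem good_rho (γ : G8) : Good (rho γ) (g8deg γ) := by
  induction γ using g8_ind with
  | h1 => rw [map_one, deg_one]; exact Good.one
  | h g hg γ ih =>
    have : Good (rho g) (g8deg g) := by
      rcases hg with rfl | rfl | rfl
      · rw [← jo_a, deg_jo]; exact good_jo _
      · rw [← jo_b, deg_jo]; exact good_jo _
      · rw [rho_t, g8deg, deg_t]; exact good_t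
    rw [map_mul, map_mul, map_inv, deg_mul, deg_mul, deg_inv]
    exact ⟨this.mul ih, this.inv.mul ih⟩

section
variable {Q : Type} (B : Plan cz E0.bc Q) (P0 : Q) (h0 : B.g P0 = 1) (h1 : B.Cusp 0 P0)
include h0 h1

theorem box0 (q : Q) : ∃ b, BoxW cz E0.bc b (Rr 0) (B.R q) (B.g q) := by
  obtain ⟨b, -, -, h⟩ := B.box_ex P0 q
  rw [h0, inv_one, one_mul, Plan.R, h1.1, Emb.bc_x, map_zero] at h
  exact ⟨b, h⟩

theorem ex0 {u : Mk} {b : Bx} {ω : WL Zl CZ} (h : BoxW cz E0.bc b (Rr 0) (Rs E0.bc.x u) ω)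
    (w : Mk) : ∃ q, B.g q = ω ∧ B.u q = u ∧ B.w q = w := by
  have e : B.R P0 = Rr 0 := by rw [Plan.R, h1.1, Emb.bc_x, map_zero]; rfl
  obtain ⟨q, k1, k2⟩ := Plan.ex_of_box (P := B) ⟨E0.ξ_inj, E0.η_inj⟩ P0 (e ▸ h) w
  exact ⟨q, by rw [k1, h0, one_mul], k2⟩

theorem act_ex (γ : G8) (q : Q) : ∃ q', B.g q' = (rho γ).left * rlA (rho γ).right (B.g q) ∧
    B.u q' = ((Real.goldenRatio ^ 2) ^ (g8deg γ) * (B.u q).1 + E0.ξ ((rho γ).right 0),
      (B.u q).2) ∧
    B.w q' = ((Real.goldenRatio ^ 2) ^ (-g8deg γ) * (B.w q).1 + E0.η ((rho γ).right 0),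
      (B.w q).2) := by
  obtain ⟨k1, b, k2⟩ := good_rho γ
  obtain ⟨b', k3⟩ := box0 B P0 h0 h1 q
  obtain ⟨b'', k4⟩ := aff_box k1 k3
  have k5 := (k2.mono (Bx.sub_sup_left _ _)).trans (k4.mono (Bx.sub_sup_right _ _))
  rw [Plan.R, Rs_image _ (gpos _) (aff_x k1)] at k5
  exact ex0 B P0 h0 h1 k5 _

end

end Act

open Act in
theorem bact_ex {Q : Type} (B : Plan cz E0.bc Q) (P0 : Q) (h0 : B.g P0 = 1) (h1 : B.Cusp 0 P0) :
    ∃ inst : MulAction G8 Q, Nonempty (@BAct Q inst B P0) := by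
  choose f f1 f2 f3 using act_ex B P0 h0 h1
  have one : ∀ q, f 1 q = q := fun q =>
    B.ext _ _ (by rw [f1]; simp) (by rw [f2]; simp [deg_one]) (by rw [f3]; simp [deg_one])
  have mul : ∀ γ δ q, f (γ * δ) q = f γ (f δ q) := by
    intro γ δ q
    have hp : (Real.goldenRatio ^ 2 : ℝ) ≠ 0 := (pow_pos Real.goldenRatio_pos 2).ne'
    refine B.ext _ _ ?_ ?_ ?_
    · rw [f1, f1, f1, map_mul, mul_left, mul_right, map_mul, map_mul, MulAut.mul_apply, mul_assoc]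
    · rw [f2, f2, f2, map_mul, mul_right, Equiv.Perm.mul_apply, deg_mul, zpow_add₀ hp]
      have := aff_x (good_rho γ).1 ((rho δ).right 0)
      rw [Emb.bc_x] at this
      rw [this]
      exact Prod.ext (by ring) rfl
    · rw [f3, f3, f3, map_mul, mul_right, Equiv.Perm.mul_apply, deg_mul, neg_add, zpow_add₀ hp]
      have := aff_y (good_rho γ).1 ((rho δ).right 0)
      rw [Emb.bc_y] at this
      rw [this]
      exact Prod.ext (by ring) rfl
  have hc : rho g8c = inl (emb (lt 0 cz⁻¹)) := by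
    rw [g8c, map_mul, map_mul, map_mul, map_inv, map_inv, rho_a, rho_b, comm_eq]
  let inst : MulAction G8 Q := { smul := f, one_smul := one, mul_smul := mul }
  refine ⟨inst, ⟨⟨rho, fun γ => (rho γ).right 0, fun γ => (good_rho γ).1, f1, f2, f3, h0, h1,
    ⟨by rw [hc]; rfl, by rw [hc]; rfl⟩, ⟨by rw [rho_t]; rfl, by rw [rho_t]; exact tau_zero⟩,
    fun r a hr => ?_, fun γ k1 k2 => ?_⟩⟩⟩
  · obtain ⟨b, hb⟩ := box0 B P0 h0 h1 r
    have e : G0.tv (a.re, a.im) 0 = a := by rw [tv_eq, zero_add]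
    have : (⟨B.g r, G0.tv (a.re, a.im)⟩ : Big Zl CZ) ∈ G0.Gam cz := ⟨_, b, rfl, by
      rw [G0.Rs_tv]
      rw [Plan.R, hr.1, Emb.bc_x, xi_eq, mul_comm] at hb
      exact hb⟩
    rw [← pres0.2] at this
    obtain ⟨o, ho⟩ := this
    rw [MonoidHom.comp_apply] at ho
    refine ⟨jo o, deg_jo o, B.ext (f _ _) _ ?_ ?_ ?_⟩
    · rw [f1, ho, h0, map_one, mul_one]
    · rw [f2, ho, h1.1, hr.1, e]; simp
    · rw [f3, ho, h1.2, hr.2, e]; simp
  · obtain ⟨o, rfl⟩ := ker_deg k1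
    have k3 : f (jo o) P0 = P0 := k2
    have k4 := f1 (jo o) P0
    have k5 := congrArg Prod.fst (f2 (jo o) P0)
    rw [k3, h0, map_one, mul_one] at k4
    rw [k3, h1.1] at k5
    have k6 : (rho (jo o)).right 0 = 0 := E0.ξ_inj (by simpa using k5.symm)
    have k7 : rho (jo o) = 1 := SemidirectProduct.ext k4.symm (Equiv.ext fun p => by
      rw [(good_jo o).1 p, k6]; simp)
    rw [pres0.1 (k7.trans (map_one _).symm), map_one]

end Pool.Agent.E5f

end
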