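import Pool.Agent.Mg.S03381.G5b3672
import Pool.Agent.Mg.S03381.G7cdb90

section

/-!
The interface between the model and the one-sided properties of limit functionals:
lattice data, markers, steps, touches, routes, and paths in the fibre.
-/

set_option autoImplicit false

namespace Pool.Agent.E5f

open Classical Filter

/-- Markers: a real number and a side. -/
abbrev Mx : Type := ℝ ×ₗ Bool

/-- Lattice data: two embeddings and three multipliers; `ty i` is the type of the index `i`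
(0 slow, 1 middle, 2 fast), `w`, `w'` are the speeds of the types in the two directions. -/
structure Lat (O : Type) [AddCommGroup O] where
  ξ : O →+ ℝ
  η : O →+ ℝ
  μ : Fin 3 → O →+ O
  ty : Fin 3 ≃ Fin 3
  w : Fin 3 → ℝ
  w' : Fin 3 → ℝ
  ξμ : ∀ i a, ξ (μ i a) = w (ty i) * ξ a
  ημ : ∀ i a, η (μ i a) = w' (ty i) * η a
  w0 : w 0 = 0
  w1 : 0 < w 1
  w2 : w 1 < w 2
  w'0 : w' 0 = 0
  w'2 : 0 < w' 2
  w'1 : w' 2 < w' 1
  unit : ∀ i j, i ≠ j → ∀ d, ∃ a, μ i a - μ j a = d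
  norm : ∀ a, a ≠ 0 → 1 ≤ |ξ a| * |η a|
  disc : ∀ R : ℝ, {a | |ξ a| ≤ R ∧ |η a| ≤ R}.Finite
  densx : ∀ t : ℝ, 0 < t → ∃ H : ℝ, ∀ x y : ℝ, ∃ a, x < ξ a ∧ ξ a < x + t ∧ y < η a ∧ η a < y + H

namespace Lat
variable {O : Type} [AddCommGroup O] (E : Lat O)

/-- The speed of a label. -/
def sp (ν : Fin 3 × O) : ℝ := E.w (E.ty ν.1)

/-- The position of a label over the real coordinate `x`. -/
def pos (x : ℝ) (ν : Fin 3 × O) : ℝ := E.ξ ν.2 + E.sp ν * x

/-- The order of the labels at a marker. -/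
noncomputable def key (u : Mx) (ν : Fin 3 × O) : ℝ ×ₗ ℝ :=
  toLex (E.pos (ofLex u).1 ν, if (ofLex u).2 = true then E.sp ν else - E.sp ν)

/-- The block of a label at the lattice point `a`. -/
def bk (a : O) (ν : Fin 3 × O) : O := ν.2 + E.μ ν.1 a

/-- The type of a label. -/
def tyl (ν : Fin 3 × O) : Fin 3 := E.ty ν.1

/-- The lattice point `a` is crossed between two markers. -/
def Cr (u u' : Mx) (a : O) : Prop :=
  (u ≤ toLex (E.ξ a, false) ∧ toLex (E.ξ a, true) ≤ u') ∨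
    (u' ≤ toLex (E.ξ a, false) ∧ toLex (E.ξ a, true) ≤ u)

/-- The status function of a level: true for the points below the level. -/
noncomputable def lev (v : Mx) (a : O) : Bool := decide (toLex (E.η a, true) ≤ v)

/-- Thresholds for a status function between two markers. -/
def Thr (lo hi : ℝ) (u u' : Mx) (σ : O → Bool) : Prop :=
  ∀ a, E.Cr u u' a → (E.η a < lo → σ a = true) ∧ (hi < E.η a → σ a = false)

end Lat

/-- The markers are in the order given by the direction `ε`. -/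
def Dir (ε : Bool) (u u' : Mx) : Prop := if ε = true then u ≤ u' else u' ≤ u

/-- Coordinates and steps on the base. -/
structure Stp {O : Type} [AddCommGroup O] (E : Lat O) (Q : Type) where
  ux : Q → Mx
  uy : Q → Mx
  St : Q → Q → (O → Bool) → Prop

namespace Stp
variable {O : Type} [AddCommGroup O] {E : Lat O} {Q : Type} (T : Stp E Q)

/-- First coordinate. -/
def px (q : Q) : ℝ := (ofLex (T.ux q)).1

/-- Side of the first coordinate. -/
def sx (q : Q) : Bool := (ofLex (T.ux q)).2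

/-- Second coordinate. -/
def py (q : Q) : ℝ := (ofLex (T.uy q)).1

/-- A sequence of `n` passes across `a` with alternating status. -/
def Mic (a : O) : ℕ → Bool → Q → Q → Prop
  | 0, _, q, q' => q' = q
  | n + 1, σ, q, q' => ∃ q1, T.px q = E.ξ a ∧ T.ux q1 = toLex (E.ξ a, !T.sx q) ∧
      T.St q q1 (fun _ => σ) ∧ Mic a n (!σ) q1 q'

/-- An essential touch at `a`. -/
def Tch (a : O) (q q' : Q) : Prop := ∃ n σ, 2 ≤ n ∧ T.Mic a n σ q q'

/-- A step in direction `ε` with thresholds. -/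
structure DSt (lo hi : ℝ) (ε : Bool) (q r : Q) (σ : O → Bool) : Prop where
  st : T.St q r σ
  dir : Dir ε (T.ux q) (T.ux r)
  thr : E.Thr lo hi (T.ux q) (T.ux r) σ

/-- Routes: start, direction, end, direction, length, number of touches. -/
inductive Rt (lo hi : ℝ) : Q → Bool → Q → Bool → ℝ → ℕ → Prop
  | one (q r : Q) (ε : Bool) (σ : O → Bool) : T.DSt lo hi ε q r σ →
      Rt lo hi q ε r ε |T.px r - T.px q| 0
  | cons (q b b' r : Q) (ε ε' : Bool) (σ : O → Bool) (a : O) (l : ℝ) (n : ℕ) :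
      T.DSt lo hi ε q b σ → T.sx b = !ε → T.Tch a b b' → Rt lo hi b' (T.sx b') r ε' l n →
      Rt lo hi q ε r ε' (|T.px b - T.px q| + l) (n + 1)

/-- The point `z` with direction `e` lies on a route from `p` to `r`. -/
def OnR (lo hi : ℝ) (p : Q) (ε : Bool) (r : Q) (ε' : Bool) (z : Q) (e : Bool) : Prop :=
  (∃ l n, T.Rt lo hi p ε z e l n) ∧ ∃ l n, T.Rt lo hi z e r ε' l n

/-- The point `a` has status `s` in the closed window of the step from `A` to `B`: it is crossed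
with status `s`, or it is touched just before `A` or just after `B`. -/
def WS (A B : Q) (ε : Bool) (σ : O → Bool) (s : Bool) (a : O) : Option (Q × Q) → Prop
  | none => E.Cr (T.ux A) (T.ux B) a ∧ σ a = s
  | some z => T.Tch a z.1 z.2 ∧ ((z.2 = A ∧ T.sx A = ε) ∨ (z.1 = B ∧ T.sx B = !ε))

end Stp

/-- Axioms on the base. -/
structure BSys {O : Type} [AddCommGroup O] (E : Lat O) {Q : Type} (dv dh : Q → Q → ℝ)
    (Cu : Q → Prop) extends Stp E Q where
  pv : PM dv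
  ph : PM dh
  hv : Hyp dv 0
  symm : ∀ q r σ, St q r σ → St r q σ
  congr : ∀ q r σ σ', St q r σ → (∀ a, E.Cr (ux q) (ux r) a → σ' a = σ a) → St q r σ'
  trans : ∀ ε p q r σ, St p q σ → St q r σ → Dir ε (ux p) (ux q) → Dir ε (ux q) (ux r) → St p r σ
  split : ∀ ε p r σ u, St p r σ → Dir ε (ux p) u → Dir ε u (ux r) →
    ∃ q, ux q = u ∧ St p q σ ∧ St q r σ
  det : ∀ p q r σ, St p q σ → St p r σ → ux q = ux r → St q r σ
  st_dv : ∀ q r σ, St q r σ → dv q r = |toStp.px r - toStp.px q|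
  st_vert : ∀ q r σ, St q r σ → ux q = ux r → dh q r = |toStp.py r - toStp.py q|
  st_hor : ∀ q r, St q r (E.lev (uy q)) → uy q = uy r → dh q r = 0
  vert : ∀ q v σ, ∃ r, ux r = ux q ∧ uy r = v ∧ St q r σ
  hor : ∀ q u, ∃ r, ux r = u ∧ uy r = uy q ∧ St q r (E.lev (uy q))
  cusp : ∀ q a, toStp.px q = E.ξ a → toStp.py q = E.η a → ∃ z, Cu z ∧ dv z q = 0 ∧ dh z q = 0
  route : ∀ p r, ∃ ε ε' n,
    toStp.Rt (toStp.py p - dh p r) (toStp.py p + dh p r) p ε r ε' (dv p r) n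

/-- Axioms on the base and the fibre. -/
structure FSys {O : Type} [AddCommGroup O] (E : Lat O) {Q P : Type} (dv dh : Q → Q → ℝ)
    (Cu : Q → Prop) (fv fh : Q → P → P → ℝ) extends BSys E dv dh Cu where
  path : Q → Finset (Fin 3 × O) → P → P → List (Fin 3 × O)
  fpm : ∀ q, PM (fv q)
  fpm' : ∀ q, PM (fh q)
  ev : ∀ q x y, ∀ᶠ S in atTop, fv q x y = Var ((path q S x y).map (E.pos (toStp.px q)))
  pth : ∀ q x y, ∀ᶠ S : Finset (Fin 3 × O) in atTop, Pth (S : Set (Fin 3 × O)) (path q S x y)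
  box : ∀ q x y, ∃ (T : Finset (Fin 3 × O)) (Y : ℝ), ∀ᶠ S : Finset (Fin 3 × O) in atTop,
    (∀ ν, EndT (E.key (ux q)) (path q S x y) ν → ν ∈ T) ∧
    (∀ ν ∈ path q S x y, -Y ≤ E.η ν.2) ∧
    (∀ ν ∈ S, Y < E.η ν.2 → ¬ Skip (E.key (ux q)) (path q S x y) ν)
  chain : ∀ q r σ, St q r σ → ∀ x y, ∀ᶠ S : Finset (Fin 3 × O) in atTop, ∃ c,
    FCh (S : Set (Fin 3 × O)) (E.key (ux q)) (E.key (ux r)) c ∧
    (∀ e ∈ c, ∀ a, E.bk a e.1 = E.bk a e.2 →
      (hgt (E.tyl e.2) < hgt (E.tyl e.1) ↔ σ a = true)) ∧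
    path r S x y = act c (path q S x y)
  two : ∀ q r, St q r (E.lev (uy q)) → uy q = uy r → toStp.px q ≠ toStp.px r →
    toStp.px q ∉ Set.range E.ξ → toStp.px r ∉ Set.range E.ξ → toStp.py q ∉ Set.range E.η →
    Thick (fun x y => fv q x y + fh q x y) ∧
      ∃ c C : ℝ, 0 < c ∧ ∀ x y, c * fh q x y - C ≤ fv q x y + fv r x y

namespace FSys
variable {O : Type} [AddCommGroup O] {E : Lat O} {Q P : Type} {dv dh : Q → Q → ℝ}
  {Cu : Q → Prop} {fv fh : Q → P → P → ℝ} (Y : FSys E dv dh Cu fv fh)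

/-- The slope at `q` in direction `ε`. -/
noncomputable def sl (S : Finset (Fin 3 × O)) (x y : P) (q : Q) (ε : Bool) : ℝ :=
  (if ε = true then 1 else -1) * lin (E.key (Y.ux q)) E.sp (Y.path q S x y)

/-- The number of turns at `q`. -/
noncomputable def tu (S : Finset (Fin 3 × O)) (x y : P) (q : Q) : ℝ :=
  turns (E.key (Y.ux q)) (Y.path q S x y)

/-- The slope gain at a touch from `z` to `z'`. -/
noncomputable def tg (S : Finset (Fin 3 × O)) (x y : P) (z z' : Q) : ℝ :=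
  Y.sl S x y z' (Y.toStp.sx z') - Y.sl S x y z (!Y.toStp.sx z)

/-- The chain of a step. -/
structure CH (S : Finset (Fin 3 × O)) (x y : P) (q r : Q) (σ : O → Bool) (c : List ((Fin 3 × O) × (Fin 3 × O))) : Prop where
  fch : FCh (S : Set (Fin 3 × O)) (E.key (Y.ux q)) (E.key (Y.ux r)) c
  stat : ∀ e ∈ c, ∀ a, E.bk a e.1 = E.bk a e.2 →
    (hgt (E.tyl e.2) < hgt (E.tyl e.1) ↔ σ a = true)
  eq : Y.path r S x y = act c (Y.path q S x y)
  pth : Pth (S : Set (Fin 3 × O)) (Y.path q S x y)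

end FSys

end Pool.Agent.E5f

end

section

set_option autoImplicit false

namespace Pool.Agent.E5f

open Classical Filter

theorem side_FsLat (u : Mx) (t : ℝ) : u < toLex (t, true) ↔ u ≤ toLex (t, false) := by
  rw [Prod.Lex.lt_iff, Prod.Lex.le_iff]
  cases (ofLex u).2 <;> simp

theorem sp1_FsLat {A B : ℝ} (c d : ℝ) (hc : 0 < c) (hd : 0 < d) (h : c * B = d * A) (hA : A ≠ 0) :
    0 < A * B :=
  pos_of_mul_pos_right (a := c) (by
    rw [mul_left_comm, h, mul_left_comm]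
    exact mul_pos hd (mul_self_pos.2 hA)) hc.le

theorem sp2_FsLat {A B : ℝ} (c d : ℝ) (hc : 0 < c) (hd : 0 < d) (h : c * B = -(d * A)) :
    A * B ≤ 0 :=
  nonpos_of_mul_nonpos_right (a := c) (by
    rw [mul_left_comm, h, mul_neg, mul_left_comm]
    exact neg_nonpos.2 (mul_nonneg hd.le (mul_self_nonneg A))) hc

theorem cr_FsLat {u u' : Mx} {t : ℝ} (h : (ofLex u).1 < t) (h' : t < (ofLex u').1) :
    u ≤ toLex (t, false) ∧ toLex (t, true) ≤ u' :=
  ⟨Prod.Lex.le_iff.2 (.inl h), Prod.Lex.le_iff.2 (.inl h')⟩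

section
variable {O : Type} [AddCommGroup O] (X Y : O →+ ℝ) (H R B N T y L : ℝ) (C : O → Prop)

theorem half_FsLat (P : O → Prop) (h1 : ∀ a, a ≠ 0 → 1 ≤ |X a| * |Y a|)
    (h2 : ∀ x y : ℝ, ∃ a, x < X a ∧ X a < x + 1 ∧ y < Y a ∧ Y a < y + H) (h3 : 0 ≤ T) (h4 : T ≤ R)
    (l1 : R + 2 ≤ L) (l2 : (⌈|2 * H + 4 * B| * (R + N)⌉₊ + 1) * (R + N) + 1 ≤ L)
    (c1 : ∀ d, C d → 0 < X d ∧ T ≤ X d) (c2 : ∀ d, T < X d → X d < T + L → C d)
    (t : ∀ d, C d → (Y d < y - B → P d) ∧ (y + B < Y d → ¬P d))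
    (ad : ∀ d d', C d → C d' → C (d + d') → P d → P d' → P (d + d')) (d : O) (hd : C d)
    (hN : X d ≤ T + N) (hP : P d) : Y d < 0 := by
  have hy : y < 2 * H + 3 * B := by
    by_contra hy
    obtain ⟨a, e1, e2, e3, e4⟩ := h2 T ((y + B) / 2)
    have e5 := c2 a e1 (by linarith)
    have e6 := c2 (a + a) (by rw [map_add]; linarith) (by rw [map_add]; linarith)
    have e7 := (t a e5).1 (by linarith)
    exact (t _ e6).2 (by rw [map_add]; linarith) (ad a a e5 e5 e6 e7 e7)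
  obtain ⟨e1, e2⟩ := c1 d hd
  by_contra h
  have e3 := h1 d fun e => by simp [e] at e1
  rw [abs_of_pos e1, abs_of_nonneg (not_lt.1 h)] at e3
  have e4 : ∀ k : ℕ, (k + 1) * (R + N) < L → C ((k + 1) • d) ∧ P ((k + 1) • d) := fun k => by
    induction k with
    | zero => exact fun _ => by simpa using ⟨hd, hP⟩
    | succ k ih =>
      intro hk
      push_cast at hk
      have f0 : (0 : ℝ) ≤ k := k.cast_nonneg
      obtain ⟨f1, f2⟩ := ih (by linarith)
      have f3 := c2 ((k + 1 + 1) • d) (by rw [map_nsmul, nsmul_eq_mul]; push_cast; nlinarith)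
        (by rw [map_nsmul, nsmul_eq_mul]; push_cast; nlinarith)
      rw [succ_nsmul] at f3 ⊢
      exact ⟨f3, ad _ _ f1 hd f3 f2 hP⟩
  obtain ⟨e5, e6⟩ := e4 _ (lt_of_lt_of_le (lt_add_one _) l2)
  refine (t _ e5).2 ?_ e6
  have e7 := Nat.le_ceil (|2 * H + 4 * B| * (R + N))
  have e8 : 0 < Y d := pos_of_mul_pos_right (zero_lt_one.trans_le e3) e1.le
  have e9 : 1 ≤ (R + N) * Y d := by nlinarith
  rw [map_nsmul, nsmul_eq_mul]
  push_cast
  nlinarith [le_abs_self (2 * H + 4 * B), abs_nonneg (2 * H + 4 * B)]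

theorem full_FsLat (σ : O → Bool) (h1 : ∀ a, a ≠ 0 → 1 ≤ |X a| * |Y a|)
    (h2 : ∀ x y : ℝ, ∃ a, x < X a ∧ X a < x + 1 ∧ y < Y a ∧ Y a < y + H) (h3 : 0 ≤ T) (h4 : T ≤ R)
    (l1 : R + 2 ≤ L) (l2 : (⌈|2 * H + 4 * B| * (R + N)⌉₊ + 1) * (R + N) + 1 ≤ L)
    (c1 : ∀ d, C d → 0 < X d ∧ T ≤ X d) (c2 : ∀ d, T < X d → X d < T + L → C d)
    (t : ∀ d, C d → (Y d < y - B → σ d = true) ∧ (y + B < Y d → σ d = false))
    (ad : ∀ d d', C d → C d' → C (d + d') → σ d = σ d' → σ (d + d') = σ d) (d : O) (hd : C d)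
    (hN : X d ≤ T + N) : σ d = true ↔ Y d < 0 := by
  refine ⟨half_FsLat X Y H R B N T y L C (σ · = true) h1 h2 h3 h4 l1 l2 c1 c2
    (fun d hd => ⟨(t d hd).1, fun h => by simp [(t d hd).2 h]⟩)
    (fun d d' a b c e e' => (ad d d' a b c (e.trans e'.symm)).trans e) d hd hN, fun h => ?_⟩
  by_contra h5
  have := half_FsLat X (-Y) H R B N T (-y) L C (σ · = false) (by simpa using h1) (fun x y => by
      obtain ⟨b, e1, e2, e3, e4⟩ := h2 x (-y - H)
      exact ⟨b, e1, e2, by simp; linarith, by simp; linarith⟩) h3 h4 l1 l2 c1 c2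
    (fun d hd => ⟨fun h => (t d hd).2 (by simp at h; linarith),
      fun h => by simp [(t d hd).1 (by simp at h; linarith)]⟩)
    (fun d d' a b c e e' => (ad d d' a b c (e.trans e'.symm)).trans e) d hd hN (by simpa using h5)
  simp at this
  linarith

end

namespace Lat
variable {O : Type} [AddCommGroup O] (E : Lat O)

theorem ξ_inj : Function.Injective E.ξ := (injective_iff_map_eq_zero _).2 fun a h => by
  by_contra h0
  have := E.norm a h0
  rw [h, abs_zero, zero_mul] at this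
  linarith

theorem η_inj : Function.Injective E.η := (injective_iff_map_eq_zero _).2 fun a h => by
  by_contra h0
  have := E.norm a h0
  rw [h, abs_zero, mul_zero] at this
  linarith

theorem w_FsLat : StrictMono E.w :=
  Fin.strictMono_iff_lt_succ.2 fun i => by
    fin_cases i
    exacts [E.w0.trans_lt E.w1, E.w2]

theorem sp_FsLat {x y : Fin 3 × O} (h : E.sp x = E.sp y) : x.1 = y.1 :=
  E.ty.injective (E.w_FsLat.injective h)

theorem lt_FsLat (u : Mx) (x y : Fin 3 × O) : E.key u x < E.key u y ↔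
    E.pos (ofLex u).1 x < E.pos (ofLex u).1 y ∨ (E.pos (ofLex u).1 x = E.pos (ofLex u).1 y ∧
      if (ofLex u).2 = true then E.sp x < E.sp y else E.sp y < E.sp x) := by
  rw [key, key, Prod.Lex.toLex_lt_toLex]
  cases (ofLex u).2 <;> simp

theorem key_inj (u : Mx) : Function.Injective (E.key u) := fun x y h => by
  obtain ⟨h1, h2⟩ := Prod.ext_iff.1 (toLex.injective h)
  have h3 : E.sp x = E.sp y := by
    dsimp only at h2
    split_ifs at h2
    exacts [h2, neg_injective h2]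
  refine Prod.ext (E.sp_FsLat h3) (E.ξ_inj ?_)
  dsimp only [pos] at h1
  rw [h3] at h1
  exact add_right_cancel h1

theorem key_pos (u : Mx) {x y : Fin 3 × O} (h : E.key u x < E.key u y) :
    E.pos (ofLex u).1 x ≤ E.pos (ofLex u).1 y :=
  ((E.lt_FsLat u x y).1 h).elim le_of_lt fun h => h.1.le

theorem pos_key (u : Mx) {x y : Fin 3 × O} (h : E.pos (ofLex u).1 x < E.pos (ofLex u).1 y) :
    E.key u x < E.key u y :=
  (E.lt_FsLat u x y).2 (.inl h)

theorem sp_mem (x : Fin 3 × O) : 0 ≤ E.sp x ∧ E.sp x ≤ E.w 2 :=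
  ⟨E.w0.ge.trans (E.w_FsLat.monotone (Fin.zero_le _)), E.w_FsLat.monotone (Fin.le_last _)⟩

theorem sp_gap {x y : Fin 3 × O} (h : E.sp x < E.sp y) :
    min (E.w 1) (E.w 2 - E.w 1) ≤ E.sp y - E.sp x := by
  unfold sp at *
  replace h := E.w_FsLat.lt_iff_lt.1 h
  generalize E.ty x.1 = i at h ⊢
  generalize E.ty y.1 = j at h ⊢
  have := E.w0
  have := E.w1
  have := E.w2
  have := min_le_left (E.w 1) (E.w 2 - E.w 1)
  have := min_le_right (E.w 1) (E.w 2 - E.w 1)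
  fin_cases i <;> fin_cases j <;> simp at h <;> simp only [Fin.reduceFinMk] <;> linarith

theorem pos_bk (a : O) (x : Fin 3 × O) : E.pos (E.ξ a) x = E.ξ (E.bk a x) := by
  rw [pos, bk, map_add, E.ξμ, sp]

theorem blk (a : O) : Blk (fun s => E.key (toLex (E.ξ a, s))) E.tyl (E.bk a) := by
  have key : ∀ s x y, E.key (toLex (E.ξ a, s)) x < E.key (toLex (E.ξ a, s)) y ↔
      E.ξ (E.bk a x) < E.ξ (E.bk a y) ∨ (E.bk a x = E.bk a y ∧
        if s = true then E.tyl x < E.tyl y else E.tyl y < E.tyl x) := fun s x y => by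
    simp only [lt_FsLat, ofLex_toLex, pos_bk, E.ξ_inj.eq_iff, sp, tyl, E.w_FsLat.lt_iff_lt]
  refine ⟨fun x y h1 h2 => ?_, fun s s' x x' y y' h1 h2 h3 => ?_, fun x y h => ?_, fun x y h => ?_⟩
  · have h3 : x.1 = y.1 := E.ty.injective h2
    rw [bk, bk, h3] at h1
    exact Prod.ext h3 (add_right_cancel h1)
  · simp only [key, ← h1, ← h2, h3, false_and]
  · simp [key, h]
  · simp [key, h]

theorem key_same (u u' : Mx) {x y : Fin 3 × O} (h : x.1 = y.1) :
    E.key u x < E.key u y ↔ E.key u' x < E.key u' y := by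
  simp [lt_FsLat, pos, sp, h]

theorem col_ex {x y : Fin 3 × O} (h : x.1 ≠ y.1) : ∃ a, E.bk a x = E.bk a y := by
  obtain ⟨a, ha⟩ := E.unit _ _ h (y.2 - x.2)
  exact ⟨a, by rw [bk, bk, sub_eq_iff_eq_add.1 ha]; abel⟩

theorem col_uniq {x y : Fin 3 × O} (h : x.1 ≠ y.1) {a a' : O} (h1 : E.bk a x = E.bk a y)
    (h2 : E.bk a' x = E.bk a' y) : a = a' := by
  have e1 := congrArg E.ξ h1
  have e2 := congrArg E.ξ h2
  simp only [← pos_bk, pos] at e1 e2
  refine E.ξ_inj (mul_left_cancel₀ (sub_ne_zero.2 fun e => h (E.sp_FsLat e)) ?_)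
  linarith

/-- The order of two colliding labels at a marker. -/
theorem key_col (u : Mx) {x y : Fin 3 × O} {a : O} (h : E.bk a x = E.bk a y)
    (hs : E.sp x < E.sp y) : E.key u x < E.key u y ↔ toLex (E.ξ a, true) ≤ u := by
  have e1 := congrArg E.ξ h
  simp only [← pos_bk, pos] at e1
  have e2 : E.pos (ofLex u).1 y - E.pos (ofLex u).1 x = (E.sp y - E.sp x) * ((ofLex u).1 - E.ξ a) := by
    unfold pos
    linarith
  rw [lt_FsLat, Prod.Lex.le_iff, ← sub_pos, eq_comm, ← sub_eq_zero, e2,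
    mul_pos_iff_of_pos_left (sub_pos.2 hs), mul_eq_zero_iff_left (sub_pos.2 hs).ne', sub_pos,
    sub_eq_zero, eq_comm]
  cases (ofLex u).2 <;> simp [hs, hs.asymm, show ¬true ≤ false by decide]

/-- Inverted pairs. -/
theorem inv_iff {ε : Bool} {u u' : Mx} (hd : Dir ε u u') (x y : Fin 3 × O) :
    (E.key u x < E.key u y ∧ E.key u' y < E.key u' x) ↔
      ∃ a, E.bk a x = E.bk a y ∧ E.Cr u u' a ∧
        (if ε = true then E.sp y < E.sp x else E.sp x < E.sp y) := by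
  have tf : ∀ t : ℝ, ¬toLex (t, true) ≤ toLex (t, false) := fun t =>
    not_le.2 ((side_FsLat _ t).2 le_rfl)
  have tot : ∀ {v : Mx} {x y}, E.sp x < E.sp y → ¬E.key v x < E.key v y → E.key v y < E.key v x :=
    fun hs h => (not_lt.1 h).lt_of_ne fun e => hs.ne' (congrArg _ (E.key_inj _ e))
  unfold Dir at hd
  constructor
  · rintro ⟨h1, h2⟩
    have h3 : x.1 ≠ y.1 := fun e => h2.asymm ((E.key_same u u' e).1 h1)
    obtain ⟨a, ha⟩ := E.col_ex h3
    rcases lt_or_gt_of_ne fun e => h3 (E.sp_FsLat e) with hs | hs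
    · have e1 := (E.key_col u ha hs).1 h1
      have e2 := (side_FsLat _ _).1 (not_le.1 (mt (E.key_col u' ha hs).2 h2.asymm))
      refine ⟨a, ha, .inr ⟨e2, e1⟩, ?_⟩
      split_ifs at hd ⊢
      exacts [(tf _ (e1.trans (hd.trans e2))).elim, hs]
    · have e1 := (E.key_col u' ha.symm hs).1 h2
      have e2 := (side_FsLat _ _).1 (not_le.1 (mt (E.key_col u ha.symm hs).2 h1.asymm))
      refine ⟨a, ha, .inl ⟨e2, e1⟩, ?_⟩
      split_ifs at hd ⊢
      exacts [hs, (tf _ (e1.trans (hd.trans e2))).elim]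
  · rintro ⟨a, ha, hc, hs⟩
    split_ifs at hd hs
    · obtain ⟨e1, e2⟩ := hc.resolve_right fun e => tf _ (e.2.trans (hd.trans e.1))
      exact ⟨tot hs fun e => tf _ (((E.key_col u ha.symm hs).1 e).trans e1),
        (E.key_col u' ha.symm hs).2 e2⟩
    · obtain ⟨e1, e2⟩ := hc.resolve_left fun e => tf _ (e.2.trans (hd.trans e.1))
      exact ⟨(E.key_col u ha hs).2 e2, tot hs fun e => tf _ (((E.key_col u' ha hs).1 e).trans e1)⟩

/-- Labels in a rectangle. -/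
theorem rect_fin (x R : ℝ) : {ν : Fin 3 × O | |E.pos x ν| ≤ R ∧ |E.η ν.2| ≤ R}.Finite := by
  refine (Set.finite_univ.prod (E.disc (R + E.w 2 * |x|))).subset fun ν h => ⟨trivial, ?_, ?_⟩
  · have h1 := abs_sub (E.pos x ν) (E.sp ν * x)
    rw [abs_mul, abs_of_nonneg (E.sp_mem ν).1, pos, add_sub_cancel_right] at h1
    exact h1.trans (add_le_add h.1 (mul_le_mul_of_nonneg_right (E.sp_mem ν).2 (abs_nonneg _)))
  · exact h.2.trans (le_add_of_nonneg_right
      (mul_nonneg (E.w1.trans E.w2).le (abs_nonneg _)))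

/-- Climbing a ladder inside a vertical strip. -/
theorem ladder (N : Set O) (v1 v2 : O) (X K y0 y1 : ℝ) (h1 : 0 < E.η v1) (h2 : 0 < E.η v2)
    (s : E.ξ v1 * E.ξ v2 ≤ 0) (k1 : |E.ξ v1| ≤ K) (k2 : |E.ξ v2| ≤ K)
    (hN : ∀ p ∈ N, |E.ξ p - X| ≤ K → y0 ≤ E.η p → E.η p ≤ y1 → p + v1 ∈ N ∧ p + v2 ∈ N)
    {p0 : O} (h0 : p0 ∈ N) (hx : |E.ξ p0 - X| ≤ K) (hy : y0 ≤ E.η p0) (hy' : E.η p0 ≤ y1) :
    ∃ p ∈ N, |E.ξ p - X| ≤ K ∧ y1 < E.η p ∧ E.η p ≤ y1 + max (E.η v1) (E.η v2) := by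
  have step : ∀ p, |E.ξ p - X| ≤ K → ∃ v, (v = v1 ∨ v = v2) ∧ |E.ξ (p + v) - X| ≤ K := fun p h => by
    simp only [map_add, abs_le] at *
    rcases mul_nonpos_iff.1 s with e | e <;> rcases le_total (E.ξ p) X with f | f
    · exact ⟨v1, .inl rfl, by linarith, by linarith⟩
    · exact ⟨v2, .inr rfl, by linarith, by linarith⟩
    · exact ⟨v2, .inr rfl, by linarith, by linarith⟩
    · exact ⟨v1, .inl rfl, by linarith, by linarith⟩
  obtain ⟨n, hn⟩ := exists_lt_nsmul (lt_min h1 h2) (y1 - E.η p0)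
  induction n generalizing p0 with
  | zero => exact absurd hn (by simpa using hy')
  | succ n ih =>
    obtain ⟨v, hv, e⟩ := step p0 hx
    obtain ⟨e1, e2, e3⟩ : p0 + v ∈ N ∧ min (E.η v1) (E.η v2) ≤ E.η v ∧
        E.η v ≤ max (E.η v1) (E.η v2) := by
      rcases hv with rfl | rfl
      exacts [⟨(hN p0 h0 hx hy hy').1, min_le_left _ _, le_max_left _ _⟩,
        ⟨(hN p0 h0 hx hy hy').2, min_le_right _ _, le_max_right _ _⟩]
    have e4 := map_add E.η p0 v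
    rcases lt_or_ge y1 (E.η (p0 + v)) with h | h
    · exact ⟨_, e1, e, h, by linarith⟩
    · rw [succ_nsmul] at hn
      exact ih e1 e (by linarith [lt_min h1 h2]) h (by linarith)

theorem two_FsLat (σ : O → Bool) (v1 v2 : O) (X K lo hi : ℝ) (hK : 0 < K)
    (hT : ∀ p, |E.ξ p - X| ≤ K → (E.η p < lo → σ p = true) ∧ (hi < E.η p → σ p = false))
    (h1 : 0 < E.η v1 * E.η v2) (s : E.ξ v1 * E.ξ v2 ≤ 0) (k1 : |E.ξ v1| ≤ K) (k2 : |E.ξ v2| ≤ K)
    (g1 : ∀ p, |E.ξ p - X| ≤ K → σ (p + v1) = σ p ∧ σ (p + -v1) = σ p)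
    (g2 : ∀ p, |E.ξ p - X| ≤ K → σ (p + v2) = σ p ∧ σ (p + -v2) = σ p) : False := by
  obtain ⟨H, hH⟩ := E.densx K hK
  obtain ⟨p0, e1, e2, -, e4⟩ := hH X (lo - H)
  have e5 : |E.ξ p0 - X| ≤ K := abs_le.2 ⟨by linarith, by linarith⟩
  have key : ∀ v1 v2, 0 < E.η v1 → 0 < E.η v2 → E.ξ v1 * E.ξ v2 ≤ 0 → |E.ξ v1| ≤ K →
      |E.ξ v2| ≤ K → (∀ p, |E.ξ p - X| ≤ K → σ (p + v1) = σ p ∧ σ (p + v2) = σ p) → False :=
    fun v1 v2 a b c d e g => by
      obtain ⟨p, f1, f2, f3, -⟩ := E.ladder {p | σ p = true} v1 v2 X K (E.η p0) (max (E.η p0) hi)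
        a b c d e (fun p hp h _ _ => ⟨(g p h).1.trans hp, (g p h).2.trans hp⟩)
        ((hT p0 e5).1 (by linarith)) e5 le_rfl (le_max_left _ _)
      exact Bool.false_ne_true (((hT p f2).2 ((le_max_right _ _).trans_lt f3)).symm.trans f1)
  rcases mul_pos_iff.1 h1 with h | h
  · exact key v1 v2 h.1 h.2 s k1 k2 fun p hp => ⟨(g1 p hp).1, (g2 p hp).1⟩
  · exact key (-v1) (-v2) (by simpa using h.1) (by simpa using h.2) (by simpa using s)
      (by simpa using k1) (by simpa using k2) fun p hp => ⟨(g1 p hp).2, (g2 p hp).2⟩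

/-- Two close labels of the same type are separated by a third label on a long step. -/
theorem same_lat (R : ℝ) : ∃ W : ℝ, ∀ (ε : Bool) (u u' : Mx) (lo hi : ℝ) (σ : O → Bool),
    Dir ε u u' → E.Thr lo hi u u' σ → W ≤ |(ofLex u').1 - (ofLex u).1| →
    ∀ l r : Fin 3 × O, l.1 = r.1 → l ≠ r → |E.ξ r.2 - E.ξ l.2| ≤ R →
    ∃ (β : Fin 3 × O) (a1 a2 : O), β.1 ≠ l.1 ∧ E.bk a1 β = E.bk a1 l ∧ E.bk a2 β = E.bk a2 r ∧
      E.Cr u u' a1 ∧ E.Cr u u' a2 ∧ σ a1 ≠ σ a2 := by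
  have hδ : 0 < min (E.w 1) (E.w 2 - E.w 1) := lt_min E.w1 (sub_pos.2 E.w2)
  obtain ⟨K, hK, hR⟩ : ∃ K : ℝ, 0 < K ∧ R ≤ min (E.w 1) (E.w 2 - E.w 1) * K :=
    ⟨|R| / min (E.w 1) (E.w 2 - E.w 1) + 1, by positivity, by
      rw [mul_add, mul_div_cancel₀ _ hδ.ne']
      linarith [le_abs_self R]⟩
  refine ⟨8 * K + 2, fun ε u u' lo hi σ _ hT hW l r h1 h2 h3 => ?_⟩
  by_contra hn
  have hc : ∀ p, |E.ξ p - ((ofLex u).1 + (ofLex u').1) / 2| ≤ 4 * K → E.Cr u u' p := fun p h => by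
    rw [abs_le] at h
    exact (le_abs.1 hW).imp (fun e => cr_FsLat (by linarith) (by linarith))
      fun e => cr_FsLat (by linarith) (by linarith)
  generalize ((ofLex u).1 + (ofLex u').1) / 2 = X at hc
  have he : E.η (r.2 - l.2) ≠ 0 := (map_ne_zero_iff _ E.η_inj).2
    (sub_ne_zero.2 fun e => h2 (Prod.ext h1 e.symm))
  have hV : ∀ t, t ≠ E.ty l.1 → ∃ v, (E.w t - E.w (E.ty l.1)) * E.ξ v = E.ξ (r.2 - l.2) ∧
      (E.w' t - E.w' (E.ty l.1)) * E.η v = E.η (r.2 - l.2) ∧ E.η v ≠ 0 ∧ |E.ξ v| ≤ K ∧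
      ∀ p, |E.ξ p - X| ≤ 3 * K → σ (p + v) = σ p ∧ σ (p + -v) = σ p := fun t ht => by
    obtain ⟨k, rfl⟩ := E.ty.surjective t
    have hk : k ≠ l.1 := fun e => ht (congrArg _ e)
    obtain ⟨v, hv⟩ := E.unit k l.1 hk (r.2 - l.2)
    have e1 : (E.w (E.ty k) - E.w (E.ty l.1)) * E.ξ v = E.ξ (r.2 - l.2) := by
      rw [← hv, map_sub, E.ξμ, E.ξμ, sub_mul]
    have e2 : (E.w' (E.ty k) - E.w' (E.ty l.1)) * E.η v = E.η (r.2 - l.2) := by
      rw [← hv, map_sub, E.ημ, E.ημ, sub_mul]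
    have e3 : |E.ξ v| ≤ K := by
      have f1 : min (E.w 1) (E.w 2 - E.w 1) ≤ |E.w (E.ty k) - E.w (E.ty l.1)| :=
        le_abs.2 ((lt_or_gt_of_ne (E.w_FsLat.injective.ne ht)).symm.imp
          (fun h => E.sp_gap (x := l) (y := (k, 0)) h)
          fun h => by rw [neg_sub]; exact E.sp_gap (x := (k, 0)) (y := l) h)
      rw [← map_sub, ← e1, abs_mul] at h3
      exact le_of_mul_le_mul_left
        ((mul_le_mul_of_nonneg_right f1 (abs_nonneg _)).trans (h3.trans hR)) hδ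
    have e4 : ∀ p, E.Cr u u' p → E.Cr u u' (p + v) → σ (p + v) = σ p := fun p f1 f2 => by
      by_contra f3
      refine hn ⟨(k, l.2 + E.μ l.1 p - E.μ k p), p, p + v, hk, by simp [bk], ?_, f1, f2, Ne.symm f3⟩
      simp only [bk, map_add, ← h1, sub_eq_iff_eq_add.1 hv]
      abel
    refine ⟨v, e1, e2, fun e => he (by rw [← e2, e, mul_zero]), e3, fun p hp => ?_⟩
    rw [abs_le] at hp e3
    have f1 := hc p (abs_le.2 ⟨by linarith, by linarith⟩)
    refine ⟨e4 p f1 (hc _ ?_), (e4 _ (hc _ ?_) (by simpa using f1)).symm.trans (by simp)⟩ <;>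
      simp only [map_add, map_neg, abs_le] <;> exact ⟨by linarith, by linarith⟩
  have two := fun v1 v2 => E.two_FsLat σ v1 v2 X (2 * K) lo hi (by positivity)
    fun p hp => hT p (hc p (by linarith))
  have wk : ∀ {v p}, (∀ p, |E.ξ p - X| ≤ 3 * K → σ (p + v) = σ p ∧ σ (p + -v) = σ p) →
      |E.ξ p - X| ≤ 2 * K → σ (p + v) = σ p ∧ σ (p + -v) = σ p := fun h hp => h _ (by linarith)
  have := E.w1
  have := E.w2
  have := E.w'1
  have := E.w'2
  generalize E.ty l.1 = j at hV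
  fin_cases j <;> simp only [Fin.reduceFinMk] at hV
  · obtain ⟨a, a1, a2, a3, a4, a5⟩ := hV 1 (by decide)
    obtain ⟨b, b1, b2, b3, b4, b5⟩ := hV 2 (by decide)
    simp only [E.w0, E.w'0] at a1 a2 b1 b2
    refine two a (b + -a) ?_ ?_ (by linarith) ?_ (fun p => wk a5) fun p hp => ?_
    · rw [map_add, map_neg]
      exact sp1_FsLat (E.w' 2) (E.w' 1 - E.w' 2) (by linarith) (by linarith) (by linarith) a3
    · rw [map_add, map_neg]
      exact sp2_FsLat (E.w 2) (E.w 2 - E.w 1) (by linarith) (by linarith) (by linarith)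
    · rw [map_add, map_neg]
      exact (abs_add_le _ _).trans (by rw [abs_neg]; linarith)
    · rw [abs_le] at hp b4
      rw [neg_add, neg_neg, ← add_assoc, ← add_assoc, (a5 _ _).2, (a5 _ _).1]
      · exact b5 p (abs_le.2 ⟨by linarith, by linarith⟩)
      all_goals
        simp only [map_add, map_neg, abs_le]
        exact ⟨by linarith, by linarith⟩
  · obtain ⟨a, a1, a2, a3, a4, a5⟩ := hV 0 (by decide)
    obtain ⟨b, b1, b2, b3, b4, b5⟩ := hV 2 (by decide)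
    simp only [E.w0, E.w'0] at a1 a2
    exact two a b
      (sp1_FsLat (E.w' 1 - E.w' 2) (E.w' 1) (by linarith) (by linarith) (by linarith) a3)
      (sp2_FsLat (E.w 2 - E.w 1) (E.w 1) (by linarith) (by linarith) (by linarith))
      (by linarith) (by linarith) (fun p => wk a5) fun p => wk b5
  · obtain ⟨a, a1, a2, a3, a4, a5⟩ := hV 0 (by decide)
    obtain ⟨b, b1, b2, b3, b4, b5⟩ := hV 1 (by decide)
    simp only [E.w0, E.w'0] at a1 a2
    refine two (-a) b ?_ ?_ (by rw [map_neg, abs_neg]; linarith) (by linarith)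
      (fun p hp => by rw [neg_neg]; exact (wk a5 hp).symm) fun p => wk b5
    · rw [map_neg]
      exact sp1_FsLat (E.w' 1 - E.w' 2) (E.w' 2) (by linarith) (by linarith) (by linarith)
        (neg_ne_zero.2 a3)
    · rw [map_neg]
      exact sp2_FsLat (E.w 2 - E.w 1) (E.w 2) (by linarith) (by linarith) (by linarith)

/-- A status function which is additive about a point behind the step is the level of it. -/
theorem sg_lat (R B N : ℝ) : ∃ L0 : ℝ, ∀ (ε : Bool) (u u' : Mx) (y0 : ℝ) (σ : O → Bool) (a0 : O),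
    Dir ε u u' → E.Thr (y0 - B) (y0 + B) u u' σ → L0 ≤ |(ofLex u').1 - (ofLex u).1| →
    |E.ξ a0 - (ofLex u).1| ≤ R → Dir ε (toLex (E.ξ a0, ε)) u →
    (∀ a a', E.Cr u u' a → E.Cr u u' a' → E.Cr u u' (a + a' - a0) → σ a = σ a' →
      σ (a + a' - a0) = σ a) →
    ∀ a, E.Cr u u' a → |E.ξ a - (ofLex u).1| ≤ N → (σ a = true ↔ E.η a < E.η a0) := by
  obtain ⟨H, hH⟩ := E.densx 1 one_pos
  refine ⟨max (R + 2) ((⌈|2 * H + 4 * B| * (R + N)⌉₊ + 1) * (R + N) + 1),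
    fun ε u u' y0 σ a0 hd hT hL hR h0 hA a ha hN => ?_⟩
  have tf : ∀ t : ℝ, ¬toLex (t, true) ≤ toLex (t, false) := fun t =>
    not_le.2 ((side_FsLat _ t).2 le_rfl)
  have le : ∀ {v v' : Mx}, v ≤ v' → (ofLex v).1 ≤ (ofLex v').1 := fun h =>
    (Prod.Lex.le_iff.1 h).elim le_of_lt fun h => h.1.le
  have lt : ∀ {s t : ℝ}, toLex (s, true) ≤ toLex (t, false) → s < t := fun h =>
    (le h).lt_of_ne fun e => tf _ (by cases e; exact h)
  have key := fun (X : O →+ ℝ) T h1 h2 h3 h4 h5 h6 => full_FsLat X E.η H R B N T (y0 - E.η a0) _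
    (fun d => E.Cr u u' (a0 + d)) (fun d => σ (a0 + d)) h1 h2 h3 h4 (le_max_left _ _)
    (le_max_right _ _) h5 h6 (fun d hd => by
      have := hT _ hd
      rw [map_add] at this
      exact ⟨fun h => this.1 (by linarith), fun h => this.2 (by linarith)⟩)
    (fun d d' e1 e2 e3 e4 => by
      have e : a0 + (d + d') = a0 + d + (a0 + d') - a0 := by abel
      rw [e] at e3 ⊢
      exact hA _ _ e1 e2 e3 e4) (a - a0) (by simpa using ha)
  simp only [add_sub_cancel, map_sub, sub_neg] at key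
  rw [abs_le] at hR hN
  cases ε
  · have f1 := le (show u' ≤ u from hd)
    have f2 : (ofLex u).1 ≤ E.ξ a0 := le (show u ≤ _ from h0)
    rw [abs_sub_comm, abs_of_nonneg (sub_nonneg.2 f1)] at hL
    refine key (-E.ξ) (E.ξ a0 - (ofLex u).1) (by simpa using E.norm) (fun x y => ?_) (by linarith)
      (by linarith) (fun d hd' => ?_) (fun d e1 e2 => .inr (cr_FsLat ?_ ?_)) ?_
    · obtain ⟨b, e1, e2, e3⟩ := hH (-x - 1) y
      exact ⟨b, by simp; linarith, by simp; linarith, e3⟩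
    · obtain ⟨-, e2⟩ := hd'.resolve_left fun e => tf _ (e.2.trans (le_trans hd e.1))
      have e3 := lt (e2.trans h0)
      have e4 : E.ξ (a0 + d) ≤ _ := le e2
      simp only [map_add, AddMonoidHom.neg_apply] at *
      exact ⟨by linarith, by linarith⟩
    all_goals
      simp only [map_add, AddMonoidHom.neg_apply] at *
      linarith
  · have f1 := le (show u ≤ u' from hd)
    have f2 : E.ξ a0 ≤ (ofLex u).1 := le (show _ ≤ u from h0)
    rw [abs_of_nonneg (sub_nonneg.2 f1)] at hL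
    refine key E.ξ ((ofLex u).1 - E.ξ a0) E.norm hH (by linarith)
      (by linarith) (fun d hd' => ?_) (fun d e1 e2 => .inl (cr_FsLat ?_ ?_)) ?_
    · obtain ⟨e2, -⟩ := hd'.resolve_right fun e => tf _ (e.2.trans (le_trans hd e.1))
      have e3 := lt (le_trans h0 e2)
      have e4 : _ ≤ E.ξ (a0 + d) := le e2
      simp only [map_add] at *
      exact ⟨by linarith, by linarith⟩
    all_goals
      try rw [map_add]
      linarith

end Lat

end Pool.Agent.E5f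

end

section

set_option autoImplicit false

namespace Pool.Agent.E5f

open Classical Filter

theorem tree0 {X : Type} {d : X → X → ℝ} (h : PM d) (h0 : Hyp d 0) {p q z r : X}
    (hq : d p q + d q r = d p r) (hz : d p z + d z r = d p r) (e : d p q = d p z) :
    d q z = 0 := by
  have h1 := h0 p q r z
  have h2 := h.tri q z q
  have h3 := h.self q
  have s1 := h.symm q p
  have s2 := h.symm r p
  have s3 := h.symm z p
  have s4 := h.symm r z
  have s5 := h.symm z q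
  simp only [gp] at h1
  rcases min_le_iff.1 (sub_zero (G := ℝ) _ ▸ h1) with h1 | h1 <;> linarith

section Mark
variable {O : Type} [AddCommGroup O] {E : Lat O} {u u' u'' : Mx} {ε : Bool} {a : O}

theorem lt_FsBase (x : ℝ) : (toLex (x, false) : Mx) < toLex (x, true) :=
  Prod.Lex.toLex_lt_toLex.2 (Or.inr ⟨rfl, Bool.false_lt_true⟩)

theorem cov_FsBase (x : ℝ) (u : Mx) : u ≤ toLex (x, false) ∨ toLex (x, true) ≤ u := by
  obtain ⟨⟨y, s⟩, rfl⟩ := toLex.surjective u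
  simp only [Prod.Lex.toLex_le_toLex]
  rcases lt_trichotomy y x with h | h | h
  · exact Or.inl (Or.inl h)
  · cases s
    · exact Or.inl (Or.inr ⟨h, le_rfl⟩)
    · exact Or.inr (Or.inr ⟨h.symm, le_rfl⟩)
  · exact Or.inr (Or.inl h)

theorem fst_FsBase (h : u ≤ u') : (ofLex u).1 ≤ (ofLex u').1 := Prod.Lex.monotone_fst _ _ h

theorem dir_refl_FsBase (ε : Bool) (u : Mx) : Dir ε u u := by
  cases ε <;> exact le_refl u

theorem dir_trans_FsBase (h : Dir ε u u') (h' : Dir ε u' u'') : Dir ε u u'' := by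
  cases ε
  · exact le_trans (a := u'') h' h
  · exact le_trans (a := u) h h'

theorem dir_rev_FsBase (h : Dir ε u u') : Dir (!ε) u' u := by
  cases ε <;> exact h

theorem add_FsBase (h : Dir ε u u') (h' : Dir ε u' u'') :
    |(ofLex u'').1 - (ofLex u).1| = |(ofLex u').1 - (ofLex u).1| + |(ofLex u'').1 - (ofLex u').1| := by
  cases ε
  · have a := fst_FsBase (u := u') h
    have b := fst_FsBase (u := u'') h'
    rw [abs_of_nonpos (by linarith), abs_of_nonpos (by linarith), abs_of_nonpos (by linarith)]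
    ring
  · have a := fst_FsBase (u := u) h
    have b := fst_FsBase (u := u') h'
    rw [abs_of_nonneg (by linarith), abs_of_nonneg (by linarith), abs_of_nonneg (by linarith)]
    ring

theorem cr_or_FsBase (u' : Mx) (h : E.Cr u u'' a) : E.Cr u u' a ∨ E.Cr u' u'' a := by
  rcases cov_FsBase (E.ξ a) u' with c | c <;> rcases h with h | h
  · exact Or.inr (Or.inl ⟨c, h.2⟩)
  · exact Or.inl (Or.inr ⟨c, h.2⟩)
  · exact Or.inl (Or.inl ⟨h.1, c⟩)
  · exact Or.inr (Or.inr ⟨h.1, c⟩)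

theorem cr_dir_FsBase (d : Dir ε u u') (h : E.Cr u u' a) :
    Dir ε u (toLex (E.ξ a, !ε)) ∧ Dir ε (toLex (E.ξ a, ε)) u' := by
  have l := lt_FsBase (E.ξ a)
  cases ε <;> rcases h with h | h
  · exact absurd ((h.2.trans d).trans h.1) l.not_ge
  · exact h.symm
  · exact h
  · exact absurd ((h.2.trans d).trans h.1) l.not_ge

theorem dir_cr_FsBase (h : Dir ε u (toLex (E.ξ a, !ε))) (h' : Dir ε (toLex (E.ξ a, ε)) u') :
    E.Cr u u' a := by
  cases ε
  · exact Or.inr ⟨h', h⟩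
  · exact Or.inl ⟨h, h'⟩

theorem cr_not_FsBase (d : Dir ε u u') (d' : Dir ε u' u'') (h : E.Cr u u' a)
    (h' : E.Cr u' u'' a) : False := by
  have := dir_trans_FsBase (cr_dir_FsBase d h).2 (cr_dir_FsBase d' h').1
  cases ε <;> exact (lt_FsBase (E.ξ a)).not_ge this

theorem mid_FsBase (d : Dir ε u u') {s : ℝ} (h0 : 0 ≤ s)
    (h1 : s ≤ |(ofLex u').1 - (ofLex u).1|) :
    ∃ v, Dir ε u v ∧ Dir ε v u' ∧ |(ofLex v).1 - (ofLex u).1| = s := by
  rcases h0.eq_or_lt with rfl | h0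
  · exact ⟨u, dir_refl_FsBase ε u, d, by rw [sub_self, abs_zero]⟩
  rcases h1.eq_or_lt with rfl | h1
  · exact ⟨u', d, dir_refl_FsBase ε u', rfl⟩
  cases ε
  · rw [abs_of_nonpos (sub_nonpos.2 (fst_FsBase (u := u') d))] at h1
    refine ⟨toLex ((ofLex u).1 - s, false), Prod.Lex.le_iff.2 (Or.inl ?_),
      Prod.Lex.le_iff.2 (Or.inl ?_), ?_⟩ <;> simp only [ofLex_toLex]
    · linarith
    · linarith
    · rw [sub_sub_cancel_left, abs_neg, abs_of_pos h0]
  · rw [abs_of_nonneg (sub_nonneg.2 (fst_FsBase (u := u) d))] at h1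
    refine ⟨toLex ((ofLex u).1 + s, false), Prod.Lex.le_iff.2 (Or.inl ?_),
      Prod.Lex.le_iff.2 (Or.inl ?_), ?_⟩ <;> simp only [ofLex_toLex]
    · linarith
    · linarith
    · rw [add_sub_cancel_left, abs_of_pos h0]

end Mark

namespace BSys
variable {O : Type} [AddCommGroup O] {E : Lat O} {Q : Type} {dv dh : Q → Q → ℝ} {Cu : Q → Prop}
  (X : BSys E dv dh Cu) {lo hi : ℝ}

theorem snoc_FsBase {a : O} {r r' : Q} (h1 : X.toStp.px r = E.ξ a)
    (h2 : X.ux r' = toLex (E.ξ a, !X.toStp.sx r)) : ∀ (n : ℕ) (σ : Bool) (q : Q),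
      X.toStp.Mic a n σ q r → X.St r r' (fun _ => not^[n] σ) → X.toStp.Mic a (n + 1) σ q r'
  | 0, _, _, h, h3 => ⟨r', h ▸ h1, h ▸ h2, h ▸ h3, rfl⟩
  | n + 1, σ, _, ⟨q1, a1, a2, a3, h⟩, h3 => ⟨q1, a1, a2, a3, snoc_FsBase h1 h2 n (!σ) q1 h h3⟩

theorem rev_FsBase {a : O} {r : Q} : ∀ (n : ℕ) (σ : Bool) (q : Q), X.toStp.Mic a n σ q r →
    ∃ τ, X.toStp.Mic a n τ r q ∧ not^[n] τ = !σ
  | 0, σ, _, h => ⟨!σ, Eq.symm h, rfl⟩
  | n + 1, σ, q, ⟨q1, a1, a2, a3, h⟩ => by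
    obtain ⟨τ, h1, h2⟩ := rev_FsBase n (!σ) q1 h
    rw [Bool.not_not] at h2
    refine ⟨τ, X.snoc_FsBase (by rw [Stp.px, a2]; rfl) ?_ n τ r h1 ?_, ?_⟩
    · rw [← a1, Stp.sx, a2, ofLex_toLex, Bool.not_not]
      rfl
    · rw [h2]
      exact X.symm _ _ _ a3
    · rw [Function.iterate_succ_apply', h2]

theorem mic_FsBase {a : O} {r : Q} : ∀ (n : ℕ) (σ : Bool) (q : Q), X.toStp.Mic a n σ q r →
    X.toStp.px q = E.ξ a → X.toStp.px r = E.ξ a ∧ dv q r = 0
  | 0, _, _, h, h1 => by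
    obtain rfl : r = _ := h
    exact ⟨h1, X.pv.self _⟩
  | n + 1, σ, q, ⟨q1, _, a2, a3, h⟩, h1 => by
    have e : X.toStp.px q1 = E.ξ a := by
      rw [Stp.px, a2]
      rfl
    obtain ⟨b1, b2⟩ := mic_FsBase n (!σ) q1 h e
    have b3 := X.st_dv _ _ _ a3
    rw [e, h1, sub_self, abs_zero] at b3
    have b4 := X.pv.tri q r q
    refine ⟨b1, ?_⟩
    linarith [X.pv.tri q q1 r, X.pv.self q, X.pv.symm r q]

theorem tch_symm {a : O} {q r : Q} (h : X.toStp.Tch a q r) : X.toStp.Tch a r q := by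
  obtain ⟨n, σ, hn, h⟩ := h
  obtain ⟨τ, h1, -⟩ := X.rev_FsBase n σ q h
  exact ⟨n, τ, hn, h1⟩

theorem tch_px {a : O} {q r : Q} (h : X.toStp.Tch a q r) :
    X.toStp.px q = E.ξ a ∧ X.toStp.px r = E.ξ a ∧ dv q r = 0 := by
  obtain ⟨n, σ, hn, h⟩ := h
  obtain ⟨m, rfl⟩ : ∃ m, n = m + 1 := ⟨n - 1, by omega⟩
  have h1 : X.toStp.px q = E.ξ a := h.choose_spec.1
  exact ⟨h1, X.mic_FsBase _ σ q h h1⟩

theorem rt_nonneg {p r : Q} {ε ε' : Bool} {l : ℝ} {n : ℕ} (h : X.toStp.Rt lo hi p ε r ε' l n) :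
    0 ≤ l := by
  induction h with
  | one => exact abs_nonneg _
  | cons _ _ _ _ _ _ _ _ _ _ _ _ _ _ ih => exact add_nonneg (abs_nonneg _) ih

theorem rt_dv {p r : Q} {ε ε' : Bool} {l : ℝ} {n : ℕ} (h : X.toStp.Rt lo hi p ε r ε' l n) :
    dv p r ≤ l := by
  induction h with
  | one q r ε σ h => exact (X.st_dv _ _ _ h.st).le
  | cons q b b' r ε ε' σ a l n h _ ht _ ih =>
    linarith [X.st_dv _ _ _ h.st, (X.tch_px ht).2.2, X.pv.tri q b r, X.pv.tri b b' r]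

theorem rt_mono {p r : Q} {ε ε' : Bool} {l : ℝ} {n : ℕ} (h : X.toStp.Rt lo hi p ε r ε' l n)
    {lo' hi' : ℝ} (h1 : lo' ≤ lo) (h2 : hi ≤ hi') : X.toStp.Rt lo' hi' p ε r ε' l n := by
  have key : ∀ ε q r σ, X.toStp.DSt lo hi ε q r σ → X.toStp.DSt lo' hi' ε q r σ :=
    fun ε q r σ h => ⟨h.st, h.dir, fun a c => ⟨fun x => (h.thr a c).1 (x.trans_le h1),
      fun x => (h.thr a c).2 (h2.trans_lt x)⟩⟩
  induction h with
  | one q r ε σ h => exact .one q r ε σ (key _ _ _ _ h)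
  | cons q b b' r ε ε' σ a l n h hs ht _ ih =>
    exact .cons q b b' r ε ε' σ a l n (key _ _ _ _ h) hs ht ih

theorem rt_zero {p r : Q} {ε ε' : Bool} {l : ℝ} (h : X.toStp.Rt lo hi p ε r ε' l 0) :
    ε' = ε ∧ l = |X.toStp.px r - X.toStp.px p| ∧ ∃ σ, X.toStp.DSt lo hi ε p r σ := by
  cases h with
  | one _ _ _ σ h => exact ⟨rfl, rfl, σ, h⟩

theorem split_FsBase {q r : Q} {ε : Bool} {σ : O → Bool} (h : X.toStp.DSt lo hi ε q r σ) {s : ℝ}
    (h0 : 0 ≤ s) (h1 : s ≤ |X.toStp.px r - X.toStp.px q|) :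
    ∃ z, X.toStp.DSt lo hi ε q z σ ∧ X.toStp.DSt lo hi ε z r σ ∧
      |X.toStp.px z - X.toStp.px q| = s ∧
      |X.toStp.px r - X.toStp.px z| = |X.toStp.px r - X.toStp.px q| - s := by
  obtain ⟨v, d1, d2, e⟩ := mid_FsBase h.dir h0 h1
  obtain ⟨z, rfl, a1, a2⟩ := X.split ε q r σ v h.st d1 d2
  refine ⟨z, ⟨a1, d1, fun a c => h.thr a ?_⟩, ⟨a2, d2, fun a c => h.thr a ?_⟩, e, ?_⟩
  · exact dir_cr_FsBase (cr_dir_FsBase d1 c).1 (dir_trans_FsBase (cr_dir_FsBase d1 c).2 d2)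
  · exact dir_cr_FsBase (dir_trans_FsBase d1 (cr_dir_FsBase d2 c).1) (cr_dir_FsBase d2 c).2
  · rw [← e]
    exact eq_sub_of_add_eq' (add_FsBase d1 d2).symm

theorem rt_split {p r : Q} {ε ε' : Bool} {l : ℝ} {n : ℕ} (h : X.toStp.Rt lo hi p ε r ε' l n)
    {s : ℝ} (h0 : 0 ≤ s) (h1 : s ≤ l) : ∃ q e n1 n2, X.toStp.Rt lo hi p ε q e s n1 ∧
      X.toStp.Rt lo hi q e r ε' (l - s) n2 := by
  induction h generalizing s with
  | one q r ε σ h =>
    obtain ⟨z, a1, a2, a3, a4⟩ := X.split_FsBase h h0 h1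
    exact ⟨z, ε, 0, 0, a3 ▸ .one q z ε σ a1, a4 ▸ .one z r ε σ a2⟩
  | cons q b b' r ε ε' σ a l n h hs ht hr ih =>
    rcases le_total s |X.toStp.px b - X.toStp.px q| with c | c
    · obtain ⟨z, a1, a2, a3, a4⟩ := X.split_FsBase h h0 c
      refine ⟨z, ε, 0, n + 1, a3 ▸ .one q z ε σ a1, ?_⟩
      have := Stp.Rt.cons z b b' r ε ε' σ a l n a2 hs ht hr
      rwa [a4, sub_add_eq_add_sub] at this
    · obtain ⟨z, e, n1, n2, a1, a2⟩ := ih (sub_nonneg.2 c) (by linarith)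
      have := Stp.Rt.cons q b b' z ε e σ a _ n1 h hs ht a1
      rw [add_sub_cancel] at this
      refine ⟨z, e, n1 + 1, n2, this, ?_⟩
      rwa [← sub_add, sub_add_eq_add_sub, add_comm] at a2

theorem merge_FsBase {p q r : Q} {ε : Bool} {σ σ' : O → Bool} (h : X.toStp.DSt lo hi ε p q σ)
    (h' : X.toStp.DSt lo hi ε q r σ') : ∃ τ, X.toStp.DSt lo hi ε p r τ ∧
      |X.toStp.px r - X.toStp.px p| =
        |X.toStp.px q - X.toStp.px p| + |X.toStp.px r - X.toStp.px q| := by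
  refine ⟨fun a => if E.Cr (X.ux p) (X.ux q) a then σ a else σ' a,
    ⟨X.trans ε p q r _ (X.congr _ _ _ _ h.st fun a c => if_pos c)
      (X.congr _ _ _ _ h'.st fun a c => if_neg fun c' => cr_not_FsBase h.dir h'.dir c' c)
      h.dir h'.dir, dir_trans_FsBase h.dir h'.dir, fun a c => ?_⟩, add_FsBase h.dir h'.dir⟩
  by_cases c' : E.Cr (X.ux p) (X.ux q) a
  · simp only [if_pos c']
    exact h.thr a c'
  · simp only [if_neg c']
    exact h'.thr a ((cr_or_FsBase _ c).resolve_left c')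

theorem rt_append {p q r : Q} {ε e ε' : Bool} {l l' : ℝ} {n n' : ℕ}
    (h : X.toStp.Rt lo hi p ε q e l n) (h' : X.toStp.Rt lo hi q e r ε' l' n') :
    X.toStp.Rt lo hi p ε r ε' (l + l') (n + n') := by
  induction h with
  | one p q ε σ h =>
    rw [Nat.zero_add]
    cases h' with
    | one _ _ _ σ' h' =>
      obtain ⟨τ, a1, a2⟩ := X.merge_FsBase h h'
      exact a2 ▸ .one p r _ τ a1
    | cons _ b b' _ _ _ σ' a l n h' hs ht hr =>
      obtain ⟨τ, a1, a2⟩ := X.merge_FsBase h h'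
      rw [← add_assoc, ← a2]
      exact .cons p b b' r ε ε' τ a l n a1 hs ht hr
  | cons p b b' q ε e σ a l n h hs ht _ ih =>
    rw [add_assoc, Nat.add_right_comm]
    exact .cons p b b' r ε ε' σ a _ _ h hs ht (ih h')

theorem rt_rev {p r : Q} {ε ε' : Bool} {l : ℝ} {n : ℕ} (h : X.toStp.Rt lo hi p ε r ε' l n) :
    X.toStp.Rt lo hi r (!ε') p (!ε) l n := by
  have key : ∀ ε q r σ, X.toStp.DSt lo hi ε q r σ →
      X.toStp.Rt lo hi r (!ε) q (!ε) |X.toStp.px r - X.toStp.px q| 0 := fun ε q r σ h => by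
    rw [abs_sub_comm]
    exact .one r q (!ε) σ ⟨X.symm _ _ _ h.st, dir_rev_FsBase h.dir, fun a c => h.thr a c.symm⟩
  induction h with
  | one q r ε σ h => exact key ε q r σ h
  | cons q b b' r ε ε' σ a l n h hs ht _ ih =>
    obtain ⟨z, -, -, hz⟩ := X.vert b' (X.uy b') σ
    have d := dir_refl_FsBase (!X.toStp.sx b') (X.ux b')
    have h1 : X.toStp.DSt lo hi (!X.toStp.sx b') b' b' σ :=
      ⟨X.det z b' b' σ (X.symm _ _ _ hz) (X.symm _ _ _ hz) rfl, d,
        fun a c => (cr_not_FsBase d d c c).elim⟩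
    have h2 := X.rt_append ih (.cons b' b' b q _ (!ε) σ a _ 0 h1 (Bool.not_not _).symm
      (X.tch_symm ht) (by rw [hs]; exact key ε q b σ h))
    rwa [sub_self, abs_zero, zero_add, add_comm l] at h2

end BSys

end Pool.Agent.E5f

end

section

set_option autoImplicit false

namespace Pool.Agent.E5f

open Classical Filter

theorem pm0_FsDich {Q : Type} {d : Q → Q → ℝ} (h : PM d) (x y : Q) : 0 ≤ d x y := by
  have h1 := h.tri x y x
  rw [h.self, h.symm y x] at h1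
  linarith

theorem dir_refl_FsDich (ε : Bool) (u : Mx) : Dir ε u u := by
  unfold Dir
  split_ifs <;> exact le_rfl

theorem le_of_lt_FsDich {u u' : Mx} (h : (ofLex u).1 < (ofLex u').1) : u ≤ u' :=
  Prod.Lex.le_iff.2 (Or.inl h)

theorem fst_le_FsDich {u u' : Mx} (h : u ≤ u') : (ofLex u).1 ≤ (ofLex u').1 :=
  Prod.Lex.monotone_fst _ _ h

theorem tf_FsDich (x : ℝ) : ¬ (toLex (x, true) : Mx) ≤ toLex (x, false) := by
  simp [Prod.Lex.toLex_le_toLex]

/-- The sign of a direction. -/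
noncomputable def sgn_FsDich (ε : Bool) : ℝ := if ε = true then 1 else -1

theorem dir_eq_FsDich {ε : Bool} {u u' : Mx} (h : Dir ε u u') :
    (ofLex u').1 = (ofLex u).1 + sgn_FsDich ε * |(ofLex u').1 - (ofLex u).1| := by
  cases ε
  · have := fst_le_FsDich (show u' ≤ u from h)
    rw [abs_of_nonpos (by linarith)]
    simp [sgn_FsDich]
  · have := fst_le_FsDich (show u ≤ u' from h)
    rw [abs_of_nonneg (by linarith)]
    simp [sgn_FsDich]

theorem abs_sgn_FsDich (ε : Bool) {s : ℝ} (h : 0 ≤ s) : |sgn_FsDich ε * s| = s := by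
  cases ε <;> simp [sgn_FsDich, abs_of_nonneg h]

theorem dir_of_FsDich {ε : Bool} {u u' : Mx} {s : ℝ} (h : 0 < s)
    (e : (ofLex u').1 = (ofLex u).1 + sgn_FsDich ε * s) : Dir ε u u' := by
  cases ε
  · refine le_of_lt_FsDich (u := u') (u' := u) ?_
    simp [sgn_FsDich] at e
    linarith
  · refine le_of_lt_FsDich (u := u) (u' := u') ?_
    simp [sgn_FsDich] at e
    linarith

namespace Lat
variable {O : Type} [AddCommGroup O] (E : Lat O)

theorem not_cr_FsDich (u : Mx) (a : O) : ¬ E.Cr u u a := by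
  rintro (h | h) <;> exact tf_FsDich _ (h.2.trans h.1)

theorem cr_mono_FsDich {ε : Bool} {u u1 u2 u' : Mx} {a : O} (h1 : Dir ε u u1) (h1' : Dir ε u1 u')
    (h2 : Dir ε u u2) (h2' : Dir ε u2 u') (h : E.Cr u1 u2 a) : E.Cr u u' a := by
  cases ε
  · rcases h with h | h
    · exact Or.inr ⟨le_trans h1' h.1, le_trans h.2 h2⟩
    · exact Or.inr ⟨le_trans h2' h.1, le_trans h.2 h1⟩
  · rcases h with h | h
    · exact Or.inl ⟨le_trans h1 h.1, le_trans h.2 h2'⟩
    · exact Or.inl ⟨le_trans h2 h.1, le_trans h.2 h1'⟩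

theorem cr_btw_FsDich {u u' : Mx} {a : O} (h : E.Cr u u' a) :
    ((ofLex u).1 ≤ E.ξ a ∧ E.ξ a ≤ (ofLex u').1) ∨ ((ofLex u').1 ≤ E.ξ a ∧ E.ξ a ≤ (ofLex u).1) := by
  rcases h with h | h
  · exact Or.inl ⟨(fst_le_FsDich h.1 :), (fst_le_FsDich h.2 :)⟩
  · exact Or.inr ⟨(fst_le_FsDich h.1 :), (fst_le_FsDich h.2 :)⟩

theorem not_cr_end_FsDich {ε : Bool} {u : Mx} {a : O} (h : Dir ε u (toLex (E.ξ a, !ε))) :
    ¬ E.Cr u (toLex (E.ξ a, !ε)) a := by
  cases ε
  · rintro (h1 | h1)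
    · exact tf_FsDich _ (le_trans h h1.1)
    · exact tf_FsDich _ h1.1
  · rintro (h1 | h1)
    · exact tf_FsDich _ h1.2
    · exact tf_FsDich _ (le_trans h1.2 h)

theorem not_cr_start_FsDich {ε : Bool} {u : Mx} {a : O} (h : Dir ε (toLex (E.ξ a, ε)) u) :
    ¬ E.Cr (toLex (E.ξ a, ε)) u a := by
  cases ε
  · rintro (h1 | h1)
    · exact tf_FsDich _ (le_trans h1.2 h)
    · exact tf_FsDich _ h1.2
  · rintro (h1 | h1)
    · exact tf_FsDich _ h1.1
    · exact tf_FsDich _ (le_trans h h1.1)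

theorem lev_iff_FsDich (a : O) (y : ℝ) (s : Bool) :
    E.lev (toLex (y, s)) a = true ↔ E.η a < y ∨ (E.η a = y ∧ s = true) := by
  cases s <;> simp [lev, Prod.Lex.toLex_le_toLex]

theorem exists_lev_FsDich (C : O → Prop) (σ : O → Bool) (lo hi : ℝ)
    (h : ∀ a, C a → (E.η a < lo → σ a = true) ∧ (hi < E.η a → σ a = false))
    (hm : ∀ a a', C a → C a' → σ a = true → σ a' = false → ¬ E.η a' < E.η a) :
    ∃ v : Mx, ∀ a, C a → E.lev v a = σ a := by
  have key : ∀ v : Mx, (∀ a, C a → σ a = true → E.lev v a = true) →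
      (∀ a, C a → σ a = false → ¬ E.lev v a = true) → ∀ a, C a → E.lev v a = σ a := by
    intro v h1 h2 a ha
    cases hs : σ a
    · simpa using h2 a ha hs
    · exact h1 a ha hs
  by_cases hne : ∃ a, C a ∧ σ a = true
  · let T : Set ℝ := E.η '' {a | C a ∧ σ a = true}
    have hb : BddAbove T := by
      refine ⟨hi, ?_⟩
      rintro _ ⟨a, ha, rfl⟩
      by_contra hc
      have := (h a ha.1).2 (not_le.1 hc)
      simp [ha.2] at this
    have h1 : ∀ a, C a → σ a = true → E.η a ≤ sSup T := fun a ha hs => le_csSup hb ⟨a, ⟨ha, hs⟩, rfl⟩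
    have h2 : ∀ a, C a → σ a = false → sSup T ≤ E.η a := fun a ha hs => by
      refine csSup_le (Set.Nonempty.image _ hne) ?_
      rintro _ ⟨b, hb, rfl⟩
      exact not_lt.1 (hm b a hb.1 ha hb.2 hs)
    by_cases he : ∃ a, C a ∧ σ a = false ∧ E.η a = sSup T
    · obtain ⟨b, hb, hs, he⟩ := he
      refine ⟨toLex (sSup T, false), key _ (fun a ha hs' => ?_) fun a ha hs' => ?_⟩
      · rw [lev_iff_FsDich]
        refine Or.inl (lt_of_le_of_ne (h1 a ha hs') fun e => ?_)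
        rw [E.η_inj (e.trans he.symm), hs] at hs'
        simp at hs'
      · rw [lev_iff_FsDich]
        simpa using h2 a ha hs'
    · refine ⟨toLex (sSup T, true), key _ (fun a ha hs' => ?_) fun a ha hs' => ?_⟩
      · rw [lev_iff_FsDich]
        simpa using (h1 a ha hs').lt_or_eq
      · rw [lev_iff_FsDich]
        rintro (h3 | h3)
        · exact h3.not_ge (h2 a ha hs')
        · exact he ⟨a, ha, hs', h3.1⟩
  · refine ⟨toLex (lo, false), key _ (fun a ha hs => absurd ⟨a, ha, hs⟩ hne) fun a ha hs => ?_⟩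
    rw [lev_iff_FsDich]
    rintro (h3 | h3)
    · exact hne ⟨a, ha, (h a ha).1 h3⟩
    · simp at h3

include E in
theorem countable_FsDich : Countable O := by
  rw [← Set.countable_univ_iff]
  refine (Set.countable_iUnion fun n : ℕ => (E.disc n).countable).mono fun a _ => ?_
  obtain ⟨n, hn⟩ := exists_nat_ge (max |E.ξ a| |E.η a|)
  exact Set.mem_iUnion.2 ⟨n, (le_max_left _ _).trans hn, (le_max_right _ _).trans hn⟩

end Lat

namespace BSys
variable {O : Type} [AddCommGroup O] {E : Lat O} {Q : Type} {dv dh : Q → Q → ℝ} {Cu : Q → Prop}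
  (X : BSys E dv dh Cu) {lo hi : ℝ}

theorem st_tr_FsDich {p y y' : Q} {σ : O → Bool} (h : X.St p y σ) (h' : X.St p y' σ) :
    X.St y y' σ := by
  have key : ∀ (ε : Bool) (y y' : Q), X.St p y σ → X.St p y' σ → Dir ε (X.ux p) (X.ux y) →
      Dir ε (X.ux y) (X.ux y') → X.St y y' σ := by
    intro ε y y' h h' d1 d2
    obtain ⟨q, e, h1, h2⟩ := X.split ε p y' σ _ h' d1 d2
    exact X.trans ε _ _ _ _ (X.det _ _ _ _ h h1 e.symm) h2 (e ▸ dir_refl_FsDich _ _) (e ▸ d2)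
  wlog hle : X.ux y ≤ X.ux y' generalizing y y'
  · exact X.symm _ _ _ (this h' h (le_of_not_ge hle))
  rcases le_total (X.ux p) (X.ux y) with h1 | h1
  · exact key true y y' h h' h1 hle
  rcases le_total (X.ux p) (X.ux y') with h2 | h2
  · exact X.trans true _ _ _ _ (X.symm _ _ _ h) h' h1 h2
  · exact X.symm _ _ _ (key false y' y h' h h2 hle)

theorem st_tr'_FsDich {p y y' : Q} {σ : O → Bool} (h : X.St p y σ) (h' : X.St y y' σ) :
    X.St p y' σ := X.st_tr_FsDich (X.symm _ _ _ h) h'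

theorem st_self_FsDich (q : Q) (σ : O → Bool) : X.St q q σ := by
  obtain ⟨r, -, -, h⟩ := X.vert q (X.uy q) σ
  exact X.st_tr'_FsDich h (X.symm _ _ _ h)

theorem dst_self_FsDich (ε : Bool) (q : Q) (σ : O → Bool) : X.toStp.DSt lo hi ε q q σ :=
  ⟨X.st_self_FsDich q σ, dir_refl_FsDich _ _, fun a ha => absurd ha (E.not_cr_FsDich _ a)⟩

theorem rt_self_FsDich (ε : Bool) (q : Q) : ∃ l n, X.toStp.Rt lo hi q ε q ε l n :=
  ⟨_, _, .one q q ε (fun _ => true) (X.dst_self_FsDich ε q _)⟩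

theorem pt_FsDich (p : Q) (u v : Mx) : ∃ y, X.ux y = u ∧ X.uy y = v ∧ X.St p y (E.lev v) := by
  obtain ⟨p', -, h2, h3⟩ := X.vert p v (E.lev v)
  obtain ⟨y, h4, h5, h6⟩ := X.hor p' u
  rw [h2] at h5 h6
  exact ⟨y, h4, h5, X.st_tr'_FsDich h3 h6⟩

theorem dh_FsDich {p y y' : Q} {v : Mx} (h : X.St p y (E.lev v)) (h' : X.St p y' (E.lev v))
    (e : X.uy y = v) (e' : X.uy y' = v) : dh y y' = 0 :=
  X.st_hor y y' (e ▸ X.st_tr_FsDich h h') (e.trans e'.symm)

theorem seg_FsDich {p r : Q} {v : Mx} {ε : Bool} (h : X.St p r (E.lev v))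
    (hd : Dir ε (X.ux p) (X.ux r)) (s : ℝ) : ∃ y, X.St p y (E.lev v) ∧ X.uy y = v ∧
      (0 ≤ s → s ≤ |X.toStp.px r - X.toStp.px p| →
        dv p y = s ∧ dv y r = |X.toStp.px r - X.toStp.px p| - s) := by
  obtain ⟨y, h1, h2, h3⟩ := X.pt_FsDich p (toLex (X.toStp.px p + sgn_FsDich ε * s, false)) v
  have e : X.toStp.px y = X.toStp.px p + sgn_FsDich ε * s := by
    rw [Stp.px, h1]
    rfl
  refine ⟨y, h3, h2, fun h0 hl => ⟨?_, ?_⟩⟩
  · rw [X.st_dv _ _ _ h3, e, add_sub_cancel_left, abs_sgn_FsDich ε h0]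
  · have h4 : X.toStp.px r = X.toStp.px p + sgn_FsDich ε * |X.toStp.px r - X.toStp.px p| :=
      dir_eq_FsDich hd
    rw [X.st_dv _ _ _ (X.st_tr_FsDich h3 h), e,
      ← abs_sgn_FsDich ε (sub_nonneg.2 hl)]
    congr 1
    linarith

/-- All points at height `t` over the horizontal lines through `q` are horizontally close to `c`. -/
def Hz_FsDich (t : ℝ) (q c : Q) : Prop :=
  ∀ s y, X.St q y (E.lev (toLex (t, s))) → X.uy y = toLex (t, s) → dh y c = 0

theorem hz_ex_FsDich (t : ℝ) (q : Q) : ∃ c, X.Hz_FsDich t q c := by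
  obtain ⟨c, h1, h2, h3⟩ := X.vert q (toLex (t, false)) (fun _ => true)
  refine ⟨c, fun s y hy e => ?_⟩
  obtain ⟨c', h4, h5, h6⟩ := X.vert q (toLex (t, s)) (E.lev (toLex (t, s)))
  have h7 := X.dh_FsDich hy h6 e h5
  have h8 : X.St q c' (fun _ => true) :=
    X.congr _ _ _ _ h6 fun a ha => absurd (h4 ▸ ha) (E.not_cr_FsDich _ a)
  have h9 := X.st_vert _ _ _ (X.st_tr_FsDich h8 h3) (h4.trans h1.symm)
  rw [Stp.py, Stp.py, h2, h5] at h9
  have := X.ph.tri y c' c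
  have := pm0_FsDich X.ph y c
  simp at h9
  linarith

theorem hz_st_FsDich {t : ℝ} {q q1 c : Q} {s : Bool} (h : X.Hz_FsDich t q c)
    (h1 : X.St q q1 (E.lev (toLex (t, s)))) : X.Hz_FsDich t q1 c := by
  obtain ⟨c1, h2⟩ := X.hz_ex_FsDich t q1
  obtain ⟨y0, -, h4, h5⟩ := X.vert q1 (toLex (t, s)) (E.lev (toLex (t, s)))
  intro s' y hy e
  have e1 := h s y0 (X.st_tr'_FsDich h1 h5) h4
  have e2 := h2 s y0 h5 h4
  have e3 := h2 s' y hy e
  have := X.ph.tri y c1 c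
  have := X.ph.tri c1 y0 c
  have := X.ph.symm c1 y0
  have := pm0_FsDich X.ph y c
  linarith

theorem hz_mic_FsDich {a : O} {c : Q} (n : ℕ) : ∀ (σ : Bool) (q q' : Q), X.toStp.Mic a n σ q q' →
    X.Hz_FsDich (E.η a) q c → X.Hz_FsDich (E.η a) q' c := by
  induction n with
  | zero =>
    intro σ q q' h hc
    rw [show q' = q from h]
    exact hc
  | succ n ih =>
    rintro σ q q' ⟨q1, h1, h2, h3, h4⟩ hc
    refine ih _ q1 q' h4 (X.hz_st_FsDich (s := σ) hc (X.congr _ _ _ _ h3 fun b hb => ?_))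
    have h5 := E.cr_btw_FsDich hb
    rw [h2] at h5
    have h6 : E.ξ b = E.ξ a := by
      change (X.toStp.px q ≤ _ ∧ _ ≤ E.ξ a) ∨ (E.ξ a ≤ _ ∧ _ ≤ X.toStp.px q) at h5
      rw [h1] at h5
      rcases h5 with h5 | h5 <;> exact le_antisymm h5.2 h5.1
    rw [E.ξ_inj h6]
    cases σ
    · simpa using (E.lev_iff_FsDich a (E.η a) false).not.2 (by simp)
    · exact (E.lev_iff_FsDich a (E.η a) true).2 (by simp)

theorem ux_FsDich (q : Q) : X.ux q = toLex (X.toStp.px q, X.toStp.sx q) := rfl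

theorem st_lev_FsDich {p r : Q} {σ : O → Bool} {a0 : O} (h : X.St p r σ)
    (h0 : ¬ E.Cr (X.ux p) (X.ux r) a0)
    (h1 : ¬ ∃ a, E.Cr (X.ux p) (X.ux r) a ∧ σ a = true ∧ E.η a0 < E.η a)
    (h2 : ¬ ∃ a, E.Cr (X.ux p) (X.ux r) a ∧ σ a = false ∧ E.η a < E.η a0) :
    X.St p r (E.lev (toLex (E.η a0, false))) := by
  refine X.congr _ _ _ _ h fun a ha => ?_
  cases hs : σ a
  · simpa using (E.lev_iff_FsDich a (E.η a0) false).not.2
      (by simpa using not_lt.1 fun h3 => h2 ⟨a, ha, hs, h3⟩)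
  · refine (E.lev_iff_FsDich a (E.η a0) false).2 (Or.inl (lt_of_le_of_ne
      (not_lt.1 fun h3 => h1 ⟨a, ha, hs, h3⟩) fun e => h0 ?_))
    rwa [E.η_inj e] at ha

/-- A route is horizontal or has an inverted pair in a closed window. -/
theorem dich {p r : Q} {ε ε' : Bool} {l : ℝ} {n : ℕ} (h : X.toStp.Rt lo hi p ε r ε' l n) :
    (∃ z : ℝ → Q, (∀ s, 0 ≤ s → s ≤ l → dv p (z s) ≤ s ∧ dv (z s) r ≤ l - s) ∧
      ∀ s s', 0 ≤ s → s ≤ l → 0 ≤ s' → s' ≤ l → dh (z s) (z s') = 0) ∨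
    ∃ (A B : Q) (e : Bool) (σ : O → Bool) (a a' : O) (o o' : Option (Q × Q)),
      X.toStp.DSt lo hi e A B σ ∧ |X.toStp.px B - X.toStp.px A| ≤ l ∧ E.η a' < E.η a ∧
      X.toStp.WS A B e σ true a o ∧ X.toStp.WS A B e σ false a' o' ∧
      X.toStp.OnR lo hi p ε r ε' A e ∧ X.toStp.OnR lo hi p ε r ε' B e ∧
      ∀ z, (o = some z ∨ o' = some z) → X.toStp.OnR lo hi p ε r ε' z.1 (!X.toStp.sx z.1) ∧
        X.toStp.OnR lo hi p ε r ε' z.2 (X.toStp.sx z.2) := by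
  have hfull := h
  cases h with
  | one _ _ _ σ hd =>
    by_cases hinv : ∃ a a', E.Cr (X.ux p) (X.ux r) a ∧ E.Cr (X.ux p) (X.ux r) a' ∧ σ a = true ∧
        σ a' = false ∧ E.η a' < E.η a
    · obtain ⟨a, a', h1, h2, h3, h4, h5⟩ := hinv
      exact Or.inr ⟨p, r, ε, σ, a, a', none, none, hd, le_rfl, h5, ⟨h1, h3⟩, ⟨h2, h4⟩,
        ⟨X.rt_self_FsDich _ _, _, _, hfull⟩, ⟨⟨_, _, hfull⟩, X.rt_self_FsDich _ _⟩, by simp⟩
    · obtain ⟨v, hv⟩ := E.exists_lev_FsDich _ σ lo hi hd.thr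
        fun a a' h1 h2 h3 h4 h5 => hinv ⟨a, a', h1, h2, h3, h4, h5⟩
      choose z h1 h2 h3 using X.seg_FsDich (X.congr _ _ _ _ hd.st hv) hd.dir
      exact Or.inl ⟨z, fun s h0 hl => ⟨(h3 s h0 hl).1.le, (h3 s h0 hl).2.le⟩,
        fun s s' _ _ _ _ => X.dh_FsDich (h1 s) (h1 s') (h2 s) (h2 s')⟩
  | cons _ b b' _ _ _ σ a0 l' n' hd hs ht hr =>
    have hl' := X.rt_nonneg hr
    obtain ⟨pb, pb', dbb⟩ := X.tch_px ht
    have op : X.toStp.OnR lo hi p ε r ε' p ε := ⟨X.rt_self_FsDich _ _, _, _, hfull⟩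
    have ob : X.toStp.OnR lo hi p ε r ε' b ε := ⟨⟨_, _, .one _ _ _ σ hd⟩, _, _,
      .cons b b b' r ε ε' σ a0 _ _ (X.dst_self_FsDich _ _ _) hs ht hr⟩
    have pre : ∀ {z : Q} {e : Bool}, (∃ l n, X.toStp.Rt lo hi b' (X.toStp.sx b') z e l n) →
        ∃ l n, X.toStp.Rt lo hi p ε z e l n := fun ⟨_, _, h⟩ =>
      ⟨_, _, .cons p b b' _ ε _ σ a0 _ _ hd hs ht h⟩
    have ob' : X.toStp.OnR lo hi p ε r ε' b' (X.toStp.sx b') :=
      ⟨pre (X.rt_self_FsDich _ _), _, _, hr⟩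
    have obb : X.toStp.OnR lo hi p ε r ε' b (!X.toStp.sx b) ∧
        X.toStp.OnR lo hi p ε r ε' b' (X.toStp.sx b') := ⟨by simpa [hs] using ob, ob'⟩
    have habs := abs_nonneg (X.toStp.px b - X.toStp.px p)
    cases n' with
    | zero =>
      obtain ⟨rfl, rfl, σ', hd'⟩ := X.rt_zero hr
      have or' : X.toStp.OnR lo hi p ε r (X.toStp.sx b') r (X.toStp.sx b') :=
        ⟨⟨_, _, hfull⟩, X.rt_self_FsDich _ _⟩
      by_cases i1 : ∃ a, E.Cr (X.ux p) (X.ux b) a ∧ σ a = true ∧ E.η a0 < E.η a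
      · obtain ⟨a, h1, h2, h3⟩ := i1
        exact Or.inr ⟨p, b, ε, σ, a, a0, none, some (b, b'), hd, by linarith, h3, ⟨h1, h2⟩,
          ⟨ht, Or.inr ⟨rfl, hs⟩⟩, op, ob, by simpa using obb⟩
      by_cases i2 : ∃ a, E.Cr (X.ux p) (X.ux b) a ∧ σ a = false ∧ E.η a < E.η a0
      · obtain ⟨a, h1, h2, h3⟩ := i2
        exact Or.inr ⟨p, b, ε, σ, a0, a, some (b, b'), none, hd, by linarith, h3,
          ⟨ht, Or.inr ⟨rfl, hs⟩⟩, ⟨h1, h2⟩, op, ob, by simpa using obb⟩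
      by_cases i3 : ∃ a, E.Cr (X.ux b') (X.ux r) a ∧ σ' a = true ∧ E.η a0 < E.η a
      · obtain ⟨a, h1, h2, h3⟩ := i3
        exact Or.inr ⟨b', r, _, σ', a, a0, none, some (b, b'), hd', by linarith, h3, ⟨h1, h2⟩,
          ⟨ht, Or.inl ⟨rfl, rfl⟩⟩, ob', or', by simpa using obb⟩
      by_cases i4 : ∃ a, E.Cr (X.ux b') (X.ux r) a ∧ σ' a = false ∧ E.η a < E.η a0
      · obtain ⟨a, h1, h2, h3⟩ := i4
        exact Or.inr ⟨b', r, _, σ', a0, a, some (b, b'), none, hd', by linarith, h3,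
          ⟨ht, Or.inl ⟨rfl, rfl⟩⟩, ⟨h1, h2⟩, ob', or', by simpa using obb⟩
      have ub : X.ux b = toLex (E.ξ a0, !ε) := by rw [ux_FsDich, pb, hs]
      have ub' : X.ux b' = toLex (E.ξ a0, X.toStp.sx b') := by rw [ux_FsDich, pb']
      have s1 := X.st_lev_FsDich hd.st
        (by rw [ub]; exact E.not_cr_end_FsDich (ub ▸ hd.dir)) i1 i2
      have s2 := X.st_lev_FsDich hd'.st
        (by rw [ub']; exact E.not_cr_start_FsDich (ub' ▸ hd'.dir)) i3 i4
      obtain ⟨c, hc⟩ := X.hz_ex_FsDich (E.η a0) p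
      obtain ⟨m, s0, -, hm⟩ := ht
      have hc' := X.hz_mic_FsDich m s0 b b' hm (X.hz_st_FsDich hc s1)
      choose z h1 h2 h3 using X.seg_FsDich s1 hd.dir
      choose z' h1' h2' h3' using X.seg_FsDich s2 hd'.dir
      have d1 := X.st_dv _ _ _ hd.st
      have d2 := X.st_dv _ _ _ hd'.st
      have hz : ∀ s, dh (if s ≤ |X.toStp.px b - X.toStp.px p| then z s
          else z' (s - |X.toStp.px b - X.toStp.px p|)) c = 0 := fun s => by
        split_ifs
        · exact hc _ _ (h1 s) (h2 s)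
        · exact hc' _ _ (h1' _) (h2' _)
      refine Or.inl ⟨fun s => if s ≤ |X.toStp.px b - X.toStp.px p| then z s
        else z' (s - |X.toStp.px b - X.toStp.px p|), fun s h0 hl => ?_, fun s s' _ _ _ _ => ?_⟩
      · beta_reduce
        split_ifs with h4
        · obtain ⟨e1, e2⟩ := h3 s h0 h4
          have := X.pv.tri (z s) b r
          have := X.pv.tri b b' r
          exact ⟨e1.le, by linarith⟩
        · obtain ⟨e1, e2⟩ := h3' (s - |X.toStp.px b - X.toStp.px p|) (by linarith) (by linarith)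
          have := X.pv.tri p b' (z' (s - |X.toStp.px b - X.toStp.px p|))
          have := X.pv.tri p b b'
          exact ⟨by linarith, by linarith⟩
      · refine le_antisymm ((X.ph.tri _ c _).trans ?_) (pm0_FsDich X.ph _ _)
        rw [hz, X.ph.symm, hz, add_zero]
    | succ n' =>
      have hr0 := hr
      generalize he : X.toStp.sx b' = e at hr
      generalize hn : n' + 1 = n1 at hr
      cases hr with
      | one => omega
      | cons _ c c' _ _ _ σ' a1 l'' n'' hd' hs' ht' hr' =>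
        subst he
        have hl'' := X.rt_nonneg hr'
        obtain ⟨pc, -, -⟩ := X.tch_px ht'
        have oc : X.toStp.OnR lo hi p ε r ε' c (X.toStp.sx b') := ⟨pre ⟨_, _, .one _ _ _ σ' hd'⟩, _, _,
          .cons c c c' r _ ε' σ a1 _ _ (X.dst_self_FsDich _ _ _) hs' ht' hr'⟩
        obtain ⟨_, _, hself⟩ := X.rt_self_FsDich (lo := lo) (hi := hi) (X.toStp.sx c') c'
        have occ : X.toStp.OnR lo hi p ε r ε' c (!X.toStp.sx c) ∧
            X.toStp.OnR lo hi p ε r ε' c' (X.toStp.sx c') := ⟨by simpa [hs'] using oc,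
          pre ⟨_, _, .cons b' c c' c' _ _ σ' a1 _ _ hd' hs' ht' hself⟩, _, _, hr'⟩
        have hne : E.η a0 ≠ E.η a1 := fun e => by
          have h1 := hd'.dir
          rw [ux_FsDich, ux_FsDich, pb', pc, hs', E.η_inj e] at h1
          revert h1
          cases X.toStp.sx b' <;> exact tf_FsDich _
        rcases lt_or_gt_of_ne hne with h1 | h1
        · exact Or.inr ⟨b', c, _, σ', a1, a0, some (c, c'), some (b, b'), hd', by linarith, h1,
            ⟨ht', Or.inr ⟨rfl, hs'⟩⟩, ⟨ht, Or.inl ⟨rfl, rfl⟩⟩, ob', oc, by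
              rintro z (hz | hz) <;> obtain rfl := Option.some.inj hz
              exacts [occ, obb]⟩
        · exact Or.inr ⟨b', c, _, σ', a0, a1, some (b, b'), some (c, c'), hd', by linarith, h1,
            ⟨ht, Or.inl ⟨rfl, rfl⟩⟩, ⟨ht', Or.inr ⟨rfl, hs'⟩⟩, ob', oc, by
              rintro z (hz | hz) <;> obtain rfl := Option.some.inj hz
              exacts [obb, occ]⟩

theorem pos_step_FsDich {p r : Q} {ε ε' : Bool} {l : ℝ} {n : ℕ}
    (h : X.toStp.Rt lo hi p ε r ε' l n) (h0 : 0 < l) :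
    ∃ A B e σ, X.toStp.DSt lo hi e A B σ ∧ X.toStp.px A ≠ X.toStp.px B ∧
      dv p A + |X.toStp.px B - X.toStp.px A| + dv B r ≤ l := by
  induction h with
  | one q r ε σ hd =>
    exact ⟨q, r, ε, σ, hd, (sub_ne_zero.1 (abs_pos.1 h0)).symm, by simp [X.pv.self]⟩
  | cons q b b' r ε ε' σ a l n hd hs ht hr ih =>
    obtain ⟨-, -, dbb⟩ := X.tch_px ht
    by_cases he : X.toStp.px q = X.toStp.px b
    · obtain ⟨A, B, e, σ', h1, h2, h3⟩ := ih (by simpa [he] using h0)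
      have := X.pv.tri q b' A
      have := X.pv.tri q b b'
      have := X.st_dv _ _ _ hd.st
      exact ⟨A, B, e, σ', h1, h2, by linarith⟩
    · have := X.pv.tri b b' r
      have := X.rt_dv hr
      exact ⟨q, b, ε, σ, hd, he, by rw [X.pv.self]; linarith⟩

/-- A horizontal step between generic points over a nondegenerate geodesic. -/
theorem gen_step {p p' : Q} (h : 0 < dv p p') : ∃ q r, X.St q r (E.lev (X.uy q)) ∧
    X.uy q = X.uy r ∧ X.toStp.px q ≠ X.toStp.px r ∧ X.toStp.px q ∉ Set.range E.ξ ∧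
    X.toStp.px r ∉ Set.range E.ξ ∧ X.toStp.py q ∉ Set.range E.η ∧
    dv p q + dv q p' = dv p p' ∧ dv p r + dv r p' = dv p p' := by
  obtain ⟨ε, ε', n, hr⟩ := X.route p p'
  generalize X.toStp.py p - dh p p' = lo at hr
  generalize X.toStp.py p + dh p p' = hi at hr
  obtain ⟨A, B, e, σ, hd, hne, hl⟩ := X.pos_step_FsDich hr h
  have := E.countable_FsDich
  have dξ : Dense (Set.range E.ξ)ᶜ := (Set.countable_range _).dense_compl ℝ
  have dη : Dense (Set.range E.η)ᶜ := (Set.countable_range _).dense_compl ℝ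
  have hmM : min (X.toStp.px A) (X.toStp.px B) < max (X.toStp.px A) (X.toStp.px B) :=
    min_lt_max.2 hne
  obtain ⟨R, hR0, hR⟩ : ∃ R : ℝ, 0 < R ∧ |X.toStp.px A| ≤ R ∧ |X.toStp.px B| ≤ R ∧ |lo| ≤ R ∧
      |hi| ≤ R := by
    have := abs_nonneg (X.toStp.px A)
    have := abs_nonneg (X.toStp.px B)
    have := abs_nonneg lo
    have := abs_nonneg hi
    exact ⟨|X.toStp.px A| + |X.toStp.px B| + |lo| + |hi| + 1, by linarith, by linarith, by linarith,
      by linarith, by linarith⟩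
  obtain ⟨x1, g1, m1, M1⟩ := dξ.exists_between hmM
  have hcl : IsClosed (E.ξ '' {a | |E.ξ a| ≤ R ∧ |E.η a| ≤ R}) := ((E.disc R).image _).isClosed
  obtain ⟨δ, hδ, hball⟩ := Metric.isOpen_iff.1 hcl.isOpen_compl x1
    fun ⟨a, _, ha⟩ => g1 ⟨a, ha⟩
  obtain ⟨x2, g2, m2, M2⟩ := dξ.exists_between
    (lt_min M1 (show x1 < x1 + δ by linarith))
  obtain ⟨M2, M2'⟩ := lt_min_iff.1 M2
  obtain ⟨y, g3, m3, M3⟩ := dη.exists_between (show -R < R by linarith)
  have hbtw : ∀ x, min (X.toStp.px A) (X.toStp.px B) < x → x < max (X.toStp.px A) (X.toStp.px B) →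
      Dir e (X.ux A) (toLex (x, false)) ∧ Dir e (toLex (x, false)) (X.ux B) ∧
      |x - X.toStp.px A| + |X.toStp.px B - x| = |X.toStp.px B - X.toStp.px A| ∧ |x| ≤ R := by
    intro x h1 h2
    obtain ⟨r1, r2⟩ := abs_le.1 hR.1
    obtain ⟨r3, r4⟩ := abs_le.1 hR.2.1
    cases e
    · have h3 : X.toStp.px B ≤ X.toStp.px A := fst_le_FsDich (show X.ux B ≤ X.ux A from hd.dir)
      rw [min_eq_right h3] at h1
      rw [max_eq_left h3] at h2
      refine ⟨le_of_lt_FsDich (u := toLex (x, false)) h2, le_of_lt_FsDich (u := X.ux B) h1, ?_,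
        abs_le.2 ⟨by linarith, by linarith⟩⟩
      rw [abs_of_nonpos (by linarith), abs_of_nonpos (by linarith), abs_of_nonpos (by linarith)]
      ring
    · have h3 : X.toStp.px A ≤ X.toStp.px B := fst_le_FsDich (show X.ux A ≤ X.ux B from hd.dir)
      rw [min_eq_left h3] at h1
      rw [max_eq_right h3] at h2
      refine ⟨le_of_lt_FsDich (u := X.ux A) h1, le_of_lt_FsDich (u := toLex (x, false)) h2, ?_,
        abs_le.2 ⟨by linarith, by linarith⟩⟩
      rw [abs_of_nonneg (by linarith), abs_of_nonneg (by linarith), abs_of_nonneg (by linarith)]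
      ring
  have hpt : ∀ x, min (X.toStp.px A) (X.toStp.px B) < x → x < max (X.toStp.px A) (X.toStp.px B) →
      ∃ q, X.ux q = toLex (x, false) ∧ X.uy q = toLex (y, false) ∧ X.St A q σ ∧
        dv p q + dv q p' = dv p p' := by
    intro x h1 h2
    obtain ⟨d1, d2, d3, -⟩ := hbtw x h1 h2
    obtain ⟨q1, u1, s1, -⟩ := X.split e A B σ _ hd.st d1 d2
    obtain ⟨q, u2, u3, s2⟩ := X.vert q1 (toLex (y, false)) σ
    have s3 := X.st_tr'_FsDich s1 s2
    have e1 := X.st_dv _ _ _ s3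
    have e2 := X.st_dv _ _ _ (X.st_tr_FsDich s3 hd.st)
    have e3 : X.toStp.px q = x := by
      rw [Stp.px, u2, u1]
      rfl
    rw [e3] at e1 e2
    have := X.pv.tri p A q
    have := X.pv.tri q B p'
    have := X.pv.tri p q p'
    exact ⟨q, u2.trans u1, u3, s3, by linarith⟩
  obtain ⟨q, a1, a2, a3, a4⟩ := hpt x1 m1 M1
  obtain ⟨r, b1, b2, b3, b4⟩ := hpt x2 (m1.trans m2) M2
  have e1 : X.toStp.px q = x1 := by
    rw [Stp.px, a1]
    rfl
  have e2 : X.toStp.px r = x2 := by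
    rw [Stp.px, b1]
    rfl
  have e3 : X.toStp.py q = y := by
    rw [Stp.py, a2]
    rfl
  refine ⟨q, r, X.congr _ _ _ _ (X.st_tr_FsDich a3 b3) fun a ha => ?_, a2.trans b2.symm,
    by rw [e1, e2]; exact m2.ne, e1 ▸ g1, e2 ▸ g2, e3 ▸ g3, a4, b4⟩
  rw [a1, b1] at ha
  have h1 := hd.thr a (E.cr_mono_FsDich (hbtw x1 m1 M1).1 (hbtw x1 m1 M1).2.1
    (hbtw x2 (m1.trans m2) M2).1 (hbtw x2 (m1.trans m2) M2).2.1 ha)
  have h2 : x1 ≤ E.ξ a ∧ E.ξ a ≤ x2 := by
    rcases E.cr_btw_FsDich ha with h2 | h2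
    · exact h2
    · exact absurd (le_trans h2.1 h2.2) (not_le.2 m2)
  have h3 : R < |E.η a| := by
    refine not_le.1 fun h3 => hball (a := E.ξ a) ?_ ⟨a, ⟨?_, h3⟩, rfl⟩
    · rw [Metric.mem_ball, Real.dist_eq, abs_lt]
      constructor <;> linarith
    · exact (hbtw _ (by linarith) (by linarith)).2.2.2
  obtain ⟨r1, -⟩ := abs_le.1 hR.2.2.1
  obtain ⟨-, r2⟩ := abs_le.1 hR.2.2.2
  rw [a2]
  rcases lt_abs.1 h3 with h4 | h4
  · rw [h1.2 (by linarith)]
    simpa using (E.lev_iff_FsDich a y false).not.2 (by simpa using (M3.trans h4).le)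
  · rw [h1.1 (by linarith)]
    exact (E.lev_iff_FsDich a y false).2 (Or.inl (by linarith))

/-- A step whose status is the level of a nearby lattice point runs over a prong of a cusp. -/
theorem prong {z r : Q} {ε : Bool} {σ : O → Bool} (h : X.toStp.DSt lo hi ε z r σ) {a0 : O}
    {R N : ℝ} (hR : |E.ξ a0 - X.toStp.px z| ≤ R)
    (hσ : ∀ a, E.Cr (X.ux z) (X.ux r) a → |E.ξ a - X.toStp.px z| ≤ N →
      (σ a = true ↔ E.η a < E.η a0)) (hN : N < |X.toStp.px r - X.toStp.px z|) :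
    ∃ c, Cu c ∧ dv c z ≤ R ∧ ∃ y : ℝ → Q, ∀ τ, 0 < τ → τ ≤ N →
      dh (y τ) c = 0 ∧ dv z (y τ) = τ ∧ dv (y τ) r = |X.toStp.px r - X.toStp.px z| - τ := by
  obtain ⟨c0, h1, h2, h3⟩ := X.pt_FsDich z (toLex (E.ξ a0, false)) (toLex (E.η a0, false))
  have e1 : X.toStp.px c0 = E.ξ a0 := by
    rw [Stp.px, h1]
    rfl
  obtain ⟨c, hc, d1, d2⟩ := X.cusp c0 a0 e1 (by rw [Stp.py, h2]; rfl)
  choose y y1 y2 y3 using fun τ : ℝ =>
    X.pt_FsDich z (toLex (X.toStp.px z + sgn_FsDich ε * τ, false)) (toLex (E.η a0, false))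
  refine ⟨c, hc, ?_, y, fun τ t0 tN => ?_⟩
  · have := X.pv.tri c c0 z
    have h4 := X.st_dv _ _ _ h3
    rw [e1, X.pv.symm] at h4
    linarith
  have e2 : X.toStp.px (y τ) = X.toStp.px z + sgn_FsDich ε * τ := by
    rw [Stp.px, y1]
    rfl
  have h4 : X.toStp.px r = X.toStp.px z + sgn_FsDich ε * |X.toStp.px r - X.toStp.px z| :=
    dir_eq_FsDich h.dir
  refine ⟨?_, ?_, ?_⟩
  · have := X.ph.tri (y τ) c0 c
    have := X.dh_FsDich (y3 τ) h3 (y2 τ) h2
    have := X.ph.symm c c0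
    have := pm0_FsDich X.ph (y τ) c
    linarith
  · rw [X.st_dv _ _ _ (y3 τ), e2, add_sub_cancel_left, abs_sgn_FsDich ε t0.le]
  · have d3 : Dir ε (X.ux z) (X.ux (y τ)) := dir_of_FsDich t0 e2
    have d4 : Dir ε (X.ux (y τ)) (X.ux r) :=
      dir_of_FsDich (s := |X.toStp.px r - X.toStp.px z| - τ) (by linarith) (by
        change X.toStp.px r = X.toStp.px (y τ) + _
        linarith)
    have s1 : X.St z (y τ) σ := by
      refine X.congr _ _ _ _ (y3 τ) fun a ha => ?_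
      have h5 := hσ a (E.cr_mono_FsDich (dir_refl_FsDich _ _) h.dir d3 d4 ha) (by
        have h6 := E.cr_btw_FsDich ha
        have h7 := abs_le.1 (abs_sgn_FsDich ε t0.le).le
        change (X.toStp.px z ≤ _ ∧ _ ≤ X.toStp.px (y τ)) ∨
          (X.toStp.px (y τ) ≤ _ ∧ _ ≤ X.toStp.px z) at h6
        rw [abs_le]
        rcases h6 with h6 | h6 <;> constructor <;> linarith)
      rw [Bool.eq_iff_iff, h5, E.lev_iff_FsDich]
      simp
    rw [X.st_dv _ _ _ (X.st_tr_FsDich s1 h.st), e2,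
      ← abs_sgn_FsDich ε (show 0 ≤ |X.toStp.px r - X.toStp.px z| - τ by linarith)]
    congr 1
    linarith

end BSys

end Pool.Agent.E5f

end

section

set_option autoImplicit false

namespace Pool.Agent.E5f

open Classical Filter

theorem count_FsDrift {α : Type} (b1 b2 : α → Bool) (Z : List α)
    (h : ∀ z ∈ Z, b1 z = false → b2 z = false → False) :
    Z.length ≤ Z.countP b1 + Z.countP b2 := by
  induction Z with
  | nil => simp
  | cons z Z ih =>
    have h1 := ih fun w hw => h w (List.mem_cons_of_mem _ hw)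
    have h2 := h z List.mem_cons_self
    rw [List.length_cons, List.countP_cons, List.countP_cons]
    cases e1 : b1 z <;> cases e2 : b2 z <;> simp_all <;> omega

theorem hgt_inj_FsDrift : ∀ i j : Fin 3, ¬ hgt i < hgt j → ¬ hgt j < hgt i → i = j := by decide

theorem hgt_lt_FsDrift : ∀ j : Fin 3, j ≠ 1 → hgt j < hgt 1 := by decide

theorem hgt_asymm_FsDrift {i j : Fin 3} {s : Prop} (h1 : hgt i < hgt j ↔ s)
    (h2 : hgt j < hgt i ↔ s) : i = j :=
  hgt_inj_FsDrift i j (fun h => lt_asymm h (h2.2 (h1.1 h))) fun h => lt_asymm h (h1.2 (h2.1 h))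

namespace Lat
variable {O : Type} [AddCommGroup O] (E : Lat O)

/-- The label of index `i` in the block of `ν` at `a`. -/
def mv_FsDrift (a : O) (i : Fin 3) (ν : Fin 3 × O) : Fin 3 × O := (i, E.bk a ν - E.μ i a)

/-- The label `ν` is strictly between two labels over `x`. -/
def Btw_FsDrift (x : ℝ) (bl br ν : Fin 3 × O) : Prop :=
  E.pos x bl < E.pos x ν ∧ E.pos x ν < E.pos x br

/-- The closure rule for absent labels at the point `a` with status `s`. -/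
def Rule_FsDrift (x m M r : ℝ) (a : O) (s : Bool) (q : List (Fin 3 × O)) : Prop :=
  ∀ (ν : Fin 3 × O) (i : Fin 3), i ≠ ν.1 → (hgt (E.ty i) < hgt (E.tyl ν) ↔ s = true) →
    m ≤ E.pos x ν → E.pos x ν ≤ M → m ≤ E.pos x (E.mv_FsDrift a i ν) →
    E.pos x (E.mv_FsDrift a i ν) ≤ M → |E.η ν.2| ≤ r → ν ∉ q → E.mv_FsDrift a i ν ∉ q

theorem mv_bk_FsDrift (a : O) (i : Fin 3) (ν : Fin 3 × O) :
    E.bk a (E.mv_FsDrift a i ν) = E.bk a ν := sub_add_cancel _ _

theorem w2_pos_FsDrift : 0 < E.w 2 := E.w1.trans E.w2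

theorem pos_move_FsDrift {x x' W : ℝ} (h : |x' - x| ≤ W) (ν : Fin 3 × O) :
    |E.pos x' ν - E.pos x ν| ≤ E.w 2 * W := by
  have h1 : E.pos x' ν - E.pos x ν = E.sp ν * (x' - x) := by
    simp only [pos]
    ring
  rw [h1, abs_mul, abs_of_nonneg (E.sp_mem ν).1]
  exact mul_le_mul (E.sp_mem ν).2 h (abs_nonneg _) E.w2_pos_FsDrift.le

theorem pos_blk_FsDrift {x W : ℝ} {a : O} (h : |E.ξ a - x| ≤ W) {ν ν' : Fin 3 × O}
    (hb : E.bk a ν = E.bk a ν') : |E.pos x ν - E.pos x ν'| ≤ E.w 2 * W := by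
  have h0 : E.pos (E.ξ a) ν = E.pos (E.ξ a) ν' := by rw [E.pos_bk, E.pos_bk, hb]
  have h1 : E.pos x ν - E.pos x ν' = (E.sp ν' - E.sp ν) * (E.ξ a - x) := by
    simp only [pos] at h0 ⊢
    linarith
  have h2 := E.sp_mem ν
  have h3 := E.sp_mem ν'
  rw [h1, abs_mul]
  exact mul_le_mul (abs_le.2 ⟨by linarith, by linarith⟩) h (abs_nonneg _) E.w2_pos_FsDrift.le

theorem eta_mv_FsDrift {a : O} {U : ℝ} (hU : ∀ i, |E.η (E.μ i a)| ≤ U) (i : Fin 3)
    (ν : Fin 3 × O) : |E.η (E.mv_FsDrift a i ν).2| ≤ |E.η ν.2| + 2 * U := by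
  have h1 := abs_le.1 (hU i)
  have h2 := abs_le.1 (hU ν.1)
  have h3 := le_abs_self (E.η ν.2)
  have h4 := neg_abs_le (E.η ν.2)
  simp only [mv_FsDrift, bk, map_sub, map_add]
  exact abs_le.2 ⟨by linarith, by linarith⟩

theorem lab_ex_FsDrift : ∃ H : ℝ, 0 < H ∧ ∀ (x : ℝ) (i : Fin 3) (s y : ℝ), ∃ ν : Fin 3 × O,
    ν.1 = i ∧ s < E.pos x ν ∧ E.pos x ν < s + 1 ∧ y < E.η ν.2 ∧ E.η ν.2 < y + H := by
  obtain ⟨H, hH⟩ := E.densx 1 one_pos
  obtain ⟨b, -, -, h1, h2⟩ := hH 0 0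
  refine ⟨H, by linarith, fun x i s y => ?_⟩
  obtain ⟨a, h3, h4, h5⟩ := hH (s - E.w (E.ty i) * x) y
  refine ⟨(i, a), rfl, ?_, ?_, h5⟩ <;> simp only [pos, sp] <;> linarith

theorem key_le_FsDrift (u : Mx) {x y : Fin 3 × O} (h : E.key u x ≤ E.key u y) :
    E.pos (ofLex u).1 x ≤ E.pos (ofLex u).1 y := by
  rcases h.lt_or_eq with h | h
  · exact E.key_pos u h
  · rw [E.key_inj u h]

theorem sp_ne_FsDrift {x y : Fin 3 × O} (h : x.1 ≠ y.1) : E.sp x ≠ E.sp y := by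
  have h0 := E.w0
  have h1 := E.w1
  have h2 := E.w2
  have h3 : E.ty x.1 ≠ E.ty y.1 := fun e => h (E.ty.injective e)
  unfold sp
  generalize E.ty x.1 = i at h3
  generalize E.ty y.1 = j at h3
  fin_cases i <;> fin_cases j <;> simp at h3 ⊢ <;> intro e <;> linarith

theorem cr_FsDrift {u u' : Mx} {a : O} (h : E.Cr u u' a) :
    |E.ξ a - (ofLex u).1| ≤ |(ofLex u').1 - (ofLex u).1| := by
  have h3 := le_abs_self ((ofLex u').1 - (ofLex u).1)
  have h4 := neg_abs_le ((ofLex u').1 - (ofLex u).1)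
  rcases h with ⟨h1, h2⟩ | ⟨h1, h2⟩
  · have h5 : (ofLex u).1 ≤ E.ξ a := Prod.Lex.monotone_fst _ _ h1
    have h6 : E.ξ a ≤ (ofLex u').1 := Prod.Lex.monotone_fst _ _ h2
    exact abs_le.2 ⟨by linarith, by linarith⟩
  · have h5 : (ofLex u').1 ≤ E.ξ a := Prod.Lex.monotone_fst _ _ h1
    have h6 : E.ξ a ≤ (ofLex u).1 := Prod.Lex.monotone_fst _ _ h2
    exact abs_le.2 ⟨by linarith, by linarith⟩

/-- A piece that is not mixed contains all or none of the labels of a block in the middle. -/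
theorem notMixed_FsDrift {S : Set (Fin 3 × O)} {u : Mx} {a : O} (ha : (ofLex u).1 = E.ξ a)
    {q : List (Fin 3 × O)} {bl br ν ν' : Fin 3 × O} (hs : Spans (E.key u) bl br q)
    (hm : ¬ Mixed S (E.key u) E.tyl (E.bk a) q) (hν : ν ∈ S) (hF : Full S E.tyl (E.bk a) ν')
    (hb : E.bk a ν = E.bk a ν') (hw : E.Btw_FsDrift (ofLex u).1 bl br ν') (h : ν' ∈ q) :
    ν ∈ q := by
  by_contra hn
  obtain ⟨d, x, y, h1, h2, h3, h4⟩ := hs
  have key : ∀ z, (E.key u z < E.key u bl ∨ E.key u br < E.key u z) → E.bk a z ≠ E.bk a ν' := by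
    intro z hz e
    have h5 : E.pos (ofLex u).1 z = E.pos (ofLex u).1 ν' := by rw [ha, E.pos_bk, E.pos_bk, e]
    rcases hz with hz | hz
    · have := E.key_pos u hz
      linarith [hw.1]
    · have := E.key_pos u hz
      linarith [hw.2]
  refine hm ⟨⟨d, h1⟩, ν', ν, hF, hν, hb, h, hn, fun z hz => key z ?_, fun z hz => key z ?_⟩
  · obtain rfl : x = z := Option.some.inj (h2.symm.trans hz)
    exact h4.imp (·.1) (·.2)
  · obtain rfl : y = z := Option.some.inj (h3.symm.trans hz)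
    exact h4.symm.imp (·.1) (·.2)

/-- Barriers near the ends of a long interval. -/
theorem bar_FsDrift {S : Set (Fin 3 × O)} {e : Bool} {u u' : Mx} (hd : Dir e u u') {W H X : ℝ}
    (hW : |(ofLex u').1 - (ofLex u).1| ≤ W)
    (hH : ∀ (x : ℝ) (i : Fin 3) (s y : ℝ), ∃ ν : Fin 3 × O,
      ν.1 = i ∧ s < E.pos x ν ∧ E.pos x ν < s + 1 ∧ y < E.η ν.2 ∧ E.η ν.2 < y + H)
    (hS : ∀ ν, |E.pos (ofLex u).1 ν| ≤ X → |E.η ν.2| ≤ H → ν ∈ S) {lo hi : ℝ}
    (h1 : -X ≤ lo) (h2 : hi ≤ X) (h3 : lo + (6 + 12 * (E.w 2 * W)) ≤ hi) :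
    ∃ bl br, Bar S (E.key u) (E.key u') bl br ∧ lo < E.pos (ofLex u).1 bl ∧
      E.pos (ofLex u).1 br < hi ∧
      E.pos (ofLex u).1 bl + (4 + 12 * (E.w 2 * W)) ≤ E.pos (ofLex u).1 br := by
  have hV : 0 ≤ E.w 2 * W := mul_nonneg E.w2_pos_FsDrift.le ((abs_nonneg _).trans hW)
  obtain ⟨bl, a1, a2, a3, a4, a5⟩ := hH (ofLex u).1 (E.ty.symm (if e = true then 2 else 0)) lo 0
  obtain ⟨br, b1, b2, b3, b4, b5⟩ :=
    hH (ofLex u).1 (E.ty.symm (if e = true then 0 else 2)) (hi - 1) 0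
  have m1 := abs_le.1 (E.pos_move_FsDrift hW bl)
  have m2 := abs_le.1 (E.pos_move_FsDrift hW br)
  have s1 : E.sp bl = E.w (if e = true then 2 else 0) := by rw [sp, a1, Equiv.apply_symm_apply]
  have s2 : E.sp br = E.w (if e = true then 0 else 2) := by rw [sp, b1, Equiv.apply_symm_apply]
  refine ⟨bl, br, ⟨hS _ (abs_le.2 ⟨by linarith, by linarith⟩) (abs_le.2 ⟨by linarith, by linarith⟩),
    hS _ (abs_le.2 ⟨by linarith, by linarith⟩) (abs_le.2 ⟨by linarith, by linarith⟩),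
    E.pos_key u (by linarith), E.pos_key u' (by linarith), fun x _ hx => ?_, fun x _ hx => ?_⟩,
    a2, by linarith, by linarith⟩
  · by_contra hn
    have hlt : E.key u' bl < E.key u' x := lt_of_le_of_ne (not_lt.1 hn) fun h => by
      rw [E.key_inj u' h] at hx
      exact lt_irrefl _ hx
    obtain ⟨_, -, -, h5⟩ := (E.inv_iff hd x bl).1 ⟨hx, hlt⟩
    have h6 := E.sp_mem x
    have h7 := E.w0
    cases e <;> simp at h5 s1 <;> linarith
  · by_contra hn
    have hlt : E.key u' x < E.key u' br := lt_of_le_of_ne (not_lt.1 hn) fun h => by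
      rw [E.key_inj u' h] at hx
      exact lt_irrefl _ hx
    obtain ⟨_, -, -, h5⟩ := (E.inv_iff hd br x).1 ⟨hx, hlt⟩
    have h6 := E.sp_mem x
    have h7 := E.w0
    cases e <;> simp at h5 s2 <;> linarith

/-- Climbing from a low absent label to a high absent label. -/
theorem climb_FsDrift {x W H Y U b : ℝ} {a a' : O} {q : List (Fin 3 × O)}
    (hH : ∀ (x : ℝ) (i : Fin 3) (s y : ℝ), ∃ ν : Fin 3 × O,
      ν.1 = i ∧ s < E.pos x ν ∧ E.pos x ν < s + 1 ∧ y < E.η ν.2 ∧ E.η ν.2 < y + H)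
    (hY : 0 ≤ Y) (ha : |E.ξ a - x| ≤ W) (ha' : |E.ξ a' - x| ≤ W) (hη : E.η a' < E.η a)
    (hU : ∀ i, |E.η (E.μ i a)| ≤ U) (hU' : ∀ i, |E.η (E.μ i a')| ≤ U)
    (r1 : E.Rule_FsDrift x (b + 1 + 2 * (E.w 2 * W)) (b + 3 + 10 * (E.w 2 * W)) (Y + H + 4 * U)
      a true q)
    (r2 : E.Rule_FsDrift x (b + 1 + 2 * (E.w 2 * W)) (b + 3 + 10 * (E.w 2 * W)) (Y + H + 4 * U)
      a' false q) (hq : ∀ ν ∈ q, -Y ≤ E.η ν.2) :
    ∃ ν, ν ∉ q ∧ b + 1 + 2 * (E.w 2 * W) ≤ E.pos x ν ∧ E.pos x ν ≤ b + 3 + 10 * (E.w 2 * W) ∧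
      Y < E.η ν.2 ∧ E.η ν.2 ≤ Y + 4 * U := by
  have hW : 0 ≤ W := (abs_nonneg _).trans ha
  have hV : 0 ≤ E.w 2 * W := mul_nonneg E.w2_pos_FsDrift.le hW
  have hU0 : 0 ≤ U := (abs_nonneg _).trans (hU 0)
  have hp : ∀ p : O, E.pos x (E.ty.symm 1, p) = E.ξ p + E.w 1 * x := fun p => by
    simp only [pos, sp, Equiv.apply_symm_apply]
  obtain ⟨⟨i0, p0⟩, rfl, a2, a3, a4, a5⟩ :=
    hH x (E.ty.symm 1) (b + 2 + 6 * (E.w 2 * W)) (-Y - H)
  rw [hp] at a2 a3
  have hd : |E.ξ (a - a')| ≤ 2 * W := by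
    have h1 := abs_le.1 ha
    have h2 := abs_le.1 ha'
    rw [map_sub]
    exact abs_le.2 ⟨by linarith, by linarith⟩
  have hη' : 0 < E.η (a - a') := by rw [map_sub]; linarith
  have vξ : ∀ j, E.ξ (E.μ (E.ty.symm 1) (a - a') - E.μ (E.ty.symm j) (a - a')) =
      (E.w 1 - E.w j) * E.ξ (a - a') := fun j => by
    rw [map_sub E.ξ, E.ξμ, E.ξμ, Equiv.apply_symm_apply, Equiv.apply_symm_apply, sub_mul]
  have vη : ∀ j, E.η (E.μ (E.ty.symm 1) (a - a') - E.μ (E.ty.symm j) (a - a')) =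
      (E.w' 1 - E.w' j) * E.η (a - a') := fun j => by
    rw [map_sub E.η, E.ημ, E.ημ, Equiv.apply_symm_apply, Equiv.apply_symm_apply, sub_mul]
  have vU : ∀ j, E.η (E.μ (E.ty.symm 1) (a - a') - E.μ (E.ty.symm j) (a - a')) ≤ 4 * U :=
    fun j => by
      have h1 := abs_le.1 (hU (E.ty.symm 1))
      have h2 := abs_le.1 (hU (E.ty.symm j))
      have h3 := abs_le.1 (hU' (E.ty.symm 1))
      have h4 := abs_le.1 (hU' (E.ty.symm j))
      simp only [map_sub]
      linarith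
  have vK : ∀ j, |E.w 1 - E.w j| ≤ E.w 2 →
      |E.ξ (E.μ (E.ty.symm 1) (a - a') - E.μ (E.ty.symm j) (a - a'))| ≤ 1 + 2 * (E.w 2 * W) :=
    fun j hj => by
      rw [vξ, abs_mul]
      have := mul_le_mul hj hd (abs_nonneg _) E.w2_pos_FsDrift.le
      linarith
  have step : ∀ j : Fin 3, j ≠ 1 → ∀ p : O, (E.ty.symm 1, p) ∉ q →
      |E.ξ p - (b + 2 + 6 * (E.w 2 * W) - E.w 1 * x)| ≤ 1 + 2 * (E.w 2 * W) → -Y - H ≤ E.η p →
      E.η p ≤ Y →
      (E.ty.symm 1, p + (E.μ (E.ty.symm 1) (a - a') - E.μ (E.ty.symm j) (a - a'))) ∉ q := by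
    intro j hj p h1 h2 h3 h4
    have hne : E.ty.symm j ≠ E.ty.symm 1 := fun e => hj (E.ty.symm.injective e)
    have hh := hgt_lt_FsDrift j hj
    have c0 := abs_le.1 h2
    have c1 := abs_le.1 (E.pos_blk_FsDrift ha (E.mv_bk_FsDrift a (E.ty.symm j) (E.ty.symm 1, p)))
    have c2 := abs_le.1 (E.pos_blk_FsDrift ha' (E.mv_bk_FsDrift a' (E.ty.symm 1)
      (E.mv_FsDrift a (E.ty.symm j) (E.ty.symm 1, p))))
    have c3 : |E.η p| ≤ Y + H := abs_le.2 ⟨by linarith, by linarith⟩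
    have c4 := E.eta_mv_FsDrift hU (E.ty.symm j) (E.ty.symm 1, p)
    have c5 := hp p
    have e1 := r1 (E.ty.symm 1, p) (E.ty.symm j) hne (by simpa [tyl] using hh) (by linarith)
      (by linarith) (by linarith) (by linarith) (by linarith) h1
    have e2 := r2 _ (E.ty.symm 1) hne.symm (by simpa [tyl, mv_FsDrift] using hh.le) (by linarith)
      (by linarith) (by linarith) (by linarith) (by linarith) e1
    have e3 : E.mv_FsDrift a' (E.ty.symm 1) (E.mv_FsDrift a (E.ty.symm j) (E.ty.symm 1, p)) =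
        (E.ty.symm 1, p + (E.μ (E.ty.symm 1) (a - a') - E.μ (E.ty.symm j) (a - a'))) := by
      simp only [mv_FsDrift, bk, map_sub, Prod.mk.injEq, true_and]
      abel
    rwa [e3] at e2
  have w0 := E.w0
  have w1 := E.w1
  have w2 := E.w2
  obtain ⟨p, h1, h2, h3, h4⟩ := E.ladder {p | (E.ty.symm 1, p) ∉ q} _ _
    (b + 2 + 6 * (E.w 2 * W) - E.w 1 * x) (1 + 2 * (E.w 2 * W)) (-Y - H) Y
    (by rw [vη 0]; exact mul_pos (by linarith [E.w'0, E.w'1, E.w'2]) hη')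
    (by rw [vη 2]; exact mul_pos (by linarith [E.w'1]) hη')
    (by
      rw [vξ, vξ, mul_mul_mul_comm]
      exact mul_nonpos_of_nonpos_of_nonneg
        (mul_nonpos_of_nonneg_of_nonpos (by linarith) (by linarith)) (mul_self_nonneg _))
    (vK 0 (abs_le.2 ⟨by linarith, by linarith⟩)) (vK 2 (abs_le.2 ⟨by linarith, by linarith⟩))
    (fun p h1 h2 h3 h4 => ⟨step 0 (by decide) p h1 h2 h3 h4, step 2 (by decide) p h1 h2 h3 h4⟩)
    (p0 := p0) (fun h => by have := hq _ h; simp only at this a5; linarith)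
    (abs_le.2 ⟨by linarith, by linarith⟩) a4.le (by simp only at a5; linarith)
  have c0 := abs_le.1 h2
  have c1 := max_le (vU 0) (vU 2)
  exact ⟨(E.ty.symm 1, p), h1, by rw [hp]; linarith, by rw [hp]; linarith, h3, by linarith⟩

end Lat

end Pool.Agent.E5f

end
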