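import Pool.Agent.Mg.S03381.G66dc53

section

/-! The surface group of genus three in the figure-eight group. -/

set_option autoImplicit false

namespace Pool.Agent.E5f.Ar

/-- Words in the generators of the figure-eight group. -/
abbrev Wd : Type := List (Fin 3 × Bool)

/-- Put a letter in front, with cancellation. -/
def cr (e : Fin 3 × Bool) : Wd → Wd
  | [] => [e]
  | e' :: l => if e' = (e.1, !e.2) then l else e :: e' :: l

theorem wev_cr (e : Fin 3 × Bool) (l : Wd) : wev g8 (cr e l) = lv g8 e * wev g8 l := by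
  rcases l with _ | ⟨e', l⟩
  · exact wev_cons _ _ _
  · rw [cr]
    split_ifs with h
    · rw [h, wev_cons, lv_not, mul_inv_cancel_left]
    · exact wev_cons _ _ _

/-- Conjugation of a letter by the third generator or by its inverse. -/
def al (b : Bool) (e : Fin 3 × Bool) : Wd :=
  match b, e with
  | true, (0, true) => [(0, true), (1, true)]
  | true, (0, false) => [(1, false), (0, false)]
  | true, (1, true) => [(1, true), (0, true), (1, true)]
  | true, (1, false) => [(1, false), (0, false), (1, false)]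
  | false, (0, true) => [(0, true), (0, true), (1, false)]
  | false, (0, false) => [(1, true), (0, false), (0, false)]
  | false, (1, true) => [(1, true), (0, false)]
  | false, (1, false) => [(0, true), (1, false)]
  | _, (2, c) => [(2, c)]

theorem rel_a : g8 2 * g8 0 * (g8 2)⁻¹ = g8 0 * g8 1 := by
  have := PresentedGroup.one_of_mem (rels := rel8) (Or.inl rfl)
  simp only [map_mul, map_inv] at this
  exact mul_inv_eq_one.1 this

theorem rel_b : g8 2 * g8 1 * (g8 2)⁻¹ = g8 1 * g8 0 * g8 1 := by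
  have := PresentedGroup.one_of_mem (rels := rel8) (Or.inr rfl)
  simp only [map_mul, map_inv] at this
  exact mul_inv_eq_one.1 this

theorem wev_al (b : Bool) (e : Fin 3 × Bool) :
    wev g8 (al b e) = lv g8 (2, b) * lv g8 e * (lv g8 (2, b))⁻¹ := by
  have ha := rel_a
  have hb := rel_b
  have hb' : g8 1 * (g8 0)⁻¹ = (g8 2)⁻¹ * g8 1 * g8 2 := by
    calc _ = (g8 2)⁻¹ * ((g8 2 * g8 1 * (g8 2)⁻¹) * (g8 2 * g8 0 * (g8 2)⁻¹)⁻¹) * g8 2 := by group
      _ = _ := by rw [ha, hb]; group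
  have ha' : g8 0 * g8 0 * (g8 1)⁻¹ = (g8 2)⁻¹ * g8 0 * g8 2 := by
    calc _ = (g8 2)⁻¹ * ((g8 2 * g8 0 * (g8 2)⁻¹) * (g8 2 * g8 0 * (g8 2)⁻¹) *
          (g8 2 * g8 1 * (g8 2)⁻¹)⁻¹) * g8 2 := by group
      _ = _ := by rw [ha, hb]; group
  have inv : ∀ {x y t : G8}, x = t * y * t⁻¹ → x⁻¹ = t * y⁻¹ * t⁻¹ := fun h => by rw [h]; group
  obtain ⟨i, c⟩ := e
  fin_cases i <;> cases b <;> cases c <;>
    simp only [al, wev_cons, wev_nil, lv, if_true, Bool.false_eq_true, if_false, mul_one,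
      Fin.zero_eta, Fin.mk_one, Fin.reduceFinMk, ← mul_assoc]
  · exact Eq.trans (by group) (inv (ha'.trans (by rw [inv_inv])))
  · exact ha'.trans (by rw [inv_inv])
  · exact Eq.trans (by group) (inv ha.symm)
  · exact ha.symm
  · exact Eq.trans (by group) (inv (hb'.trans (by rw [inv_inv])))
  · exact hb'.trans (by rw [inv_inv])
  · exact Eq.trans (by group) (inv hb.symm)
  · exact hb.symm
  all_goals group

/-- Conjugation of a word. -/
def sub (b : Bool) (l : Wd) : Wd := l.foldr (fun e acc => (al b e).foldr cr acc) []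

theorem wev_sub (b : Bool) (l : Wd) :
    wev g8 (sub b l) = lv g8 (2, b) * wev g8 l * (lv g8 (2, b))⁻¹ := by
  have h : ∀ l acc : Wd, wev g8 (l.foldr cr acc) = wev g8 l * wev g8 acc := fun l acc => by
    induction l with
    | nil => simp [wev_nil]
    | cons e l ih => rw [List.foldr_cons, wev_cr, ih, wev_cons, mul_assoc]
  induction l with
  | nil => simp [sub, wev_nil]
  | cons e l ih =>
    rw [sub, List.foldr_cons, h, ← sub, ih, wev_al, wev_cons]
    group

/-- Normal form: a word times a power of the third generator. -/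
def nf : Wd → Wd × Wd
  | [] => ([], [])
  | e :: l => if e.1 = 2 then (sub e.2 (nf l).1, cr e (nf l).2) else (cr e (nf l).1, (nf l).2)

theorem wev_nf (l : Wd) : wev g8 l = wev g8 (nf l).1 * wev g8 (nf l).2 := by
  induction l with
  | nil => simp [nf, wev_nil]
  | cons e l ih =>
    rw [wev_cons, ih, nf]
    split_ifs with h
    · obtain ⟨i, c⟩ := e
      obtain rfl : i = 2 := h
      rw [wev_sub, wev_cr]
      group
    · rw [wev_cr, mul_assoc]

def w1 : Wd := [(0, false), (1, true), (2, true), (1, true), (0, true), (2, false), (1, true),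
  (0, false)]
def w2 : Wd := [(0, true), (1, false), (2, true), (1, false), (1, false), (2, true), (2, true),
  (1, true), (0, true)]
def w3 : Wd := [(1, false), (1, false), (2, false), (2, false), (1, true), (2, false), (1, true),
  (0, false)]
def w4 : Wd := [(0, true), (1, false), (0, true), (1, true), (1, true)]
def w5 : Wd := [(0, true), (2, true), (2, true), (2, true), (0, true)]
def w6 : Wd := [(0, false), (1, true), (2, false), (0, false), (0, false), (2, false), (2, false),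
  (0, false)]

theorem rel12 : wev g8 w1 * wev g8 w2 * wev g8 w3 * wev g8 w4 * wev g8 w5 * wev g8 w6 *
    (wev g8 w1)⁻¹ * (wev g8 w2)⁻¹ * (wev g8 w3)⁻¹ * (wev g8 w4)⁻¹ * (wev g8 w5)⁻¹ *
    (wev g8 w6)⁻¹ = 1 := by
  simp only [← wev_winv, ← wev_append]
  rw [wev_nf, show nf (w1 ++ w2 ++ w3 ++ w4 ++ w5 ++ w6 ++ winv w1 ++ winv w2 ++ winv w3 ++
    winv w4 ++ winv w5 ++ winv w6) = ([], []) by decide +kernel]
  exact mul_one _

/-- The images of the standard generators. -/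
def img : Fin 3 ⊕ Fin 3 → G8
  | .inl 0 => wev g8 w1 * wev g8 w2
  | .inr 0 => wev g8 w3 * wev g8 w4 * wev g8 w5 * wev g8 w6 * (wev g8 w1)⁻¹
  | .inl 1 => wev g8 w3 * wev g8 w4
  | .inr 1 => wev g8 w5 * wev g8 w6 * (wev g8 w3)⁻¹
  | .inl 2 => wev g8 w5
  | .inr 2 => wev g8 w6

theorem srel3 {G : Type} [Group G] (φ : FreeGroup (Fin 3 ⊕ Fin 3) →* G) : φ (srel 3) =
    φ (.of (.inl 0)) * φ (.of (.inr 0)) * (φ (.of (.inl 0)))⁻¹ * (φ (.of (.inr 0)))⁻¹ *
    (φ (.of (.inl 1)) * φ (.of (.inr 1)) * (φ (.of (.inl 1)))⁻¹ * (φ (.of (.inr 1)))⁻¹ *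
    (φ (.of (.inl 2)) * φ (.of (.inr 2)) * (φ (.of (.inl 2)))⁻¹ * (φ (.of (.inr 2)))⁻¹)) := by
  simp [srel, List.ofFn_succ]

/-- The embedding. -/
def emb : SG 3 →* G8 :=
  PresentedGroup.toGroup (f := img) (by
    rintro r rfl
    rw [srel3, ← rel12]
    simp only [FreeGroup.lift_apply_of, img]
    group)

theorem emb_of (i : Fin 3 ⊕ Fin 3) : emb (sgen 3 i) = img i := PresentedGroup.toGroup.of _

/-- Twelve elements from six. -/
def mk12 {α : Type} (f : α → α) (a1 a2 a3 a4 a5 a6 : α) : Fin 12 → α :=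
  ![a1, a6, f a5, a4, f a3, a2, f a1, f a6, a5, f a4, a3, f a2]

/-- The side pairings in the surface group. -/
def sp : Fin 12 → SG 3 :=
  mk12 (·⁻¹) ((sgen 3 (.inr 0))⁻¹ * sgen 3 (.inl 1) * sgen 3 (.inl 2) * sgen 3 (.inr 2))
    ((sgen 3 (.inr 2))⁻¹ * (sgen 3 (.inl 2))⁻¹ * (sgen 3 (.inl 1))⁻¹ * sgen 3 (.inr 0) *
      sgen 3 (.inl 0))
    ((sgen 3 (.inr 1))⁻¹ * sgen 3 (.inl 2) * sgen 3 (.inr 2))
    ((sgen 3 (.inr 2))⁻¹ * (sgen 3 (.inl 2))⁻¹ * sgen 3 (.inr 1) * sgen 3 (.inl 1))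
    (sgen 3 (.inl 2)) (sgen 3 (.inr 2))

/-- The side pairings as words. -/
def wd : Fin 12 → Wd := mk12 winv w1 w2 w3 w4 w5 w6

theorem emb_sp (i : Fin 12) : emb (sp i) = wev g8 (wd i) := by
  fin_cases i <;> simp [sp, wd, mk12, emb_of, img, wev_winv, mul_assoc]

theorem sp_six (i : Fin 12) : sp (i + 6) = (sp i)⁻¹ := by
  fin_cases i <;> simp [sp, mk12]

theorem sp_rel : sp 0 * sp 5 * sp 10 * sp 3 * sp 8 * sp 1 =
    sp 1 * sp 8 * sp 3 * sp 10 * sp 5 * sp 0 := by
  have h := PresentedGroup.one_of_mem (rels := {srel 3}) rfl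
  rw [srel3] at h
  refine mul_inv_eq_one.1 (Eq.trans ?_ h)
  change _ = sgen 3 (.inl 0) * sgen 3 (.inr 0) * (sgen 3 (.inl 0))⁻¹ * (sgen 3 (.inr 0))⁻¹ *
    (sgen 3 (.inl 1) * sgen 3 (.inr 1) * (sgen 3 (.inl 1))⁻¹ * (sgen 3 (.inr 1))⁻¹ *
    (sgen 3 (.inl 2) * sgen 3 (.inr 2) * (sgen 3 (.inl 2))⁻¹ * (sgen 3 (.inr 2))⁻¹))
  simp [sp, mk12, mul_assoc]

theorem sp_gens : Gens sp := by
  refine gens_of sp fun a => ?_
  have m := mem_wsub sp
  have e : ∀ {x y : SG 3}, x ∈ wsub sp → x = y → y ∈ wsub sp := fun h e => e ▸ h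
  change sgen 3 a ∈ _
  rcases a with a | a <;> fin_cases a
  · exact e (mul_mem (m 0) (m 5)) (by simp [sp, mk12, mul_assoc])
  · exact e (mul_mem (m 10) (m 3)) (by simp [sp, mk12, mul_assoc])
  · exact m 8
  · exact e (mul_mem (mul_mem (mul_mem (mul_mem (m 10) (m 3)) (m 8)) (m 1)) (m 6))
      (by simp [sp, mk12, mul_assoc])
  · exact e (mul_mem (mul_mem (m 8) (m 1)) (m 4)) (by simp [sp, mk12, mul_assoc])
  · exact m 1

/-- The action of the side pairings. -/
def act (i : Fin 12) (x : V) : V := actW (wd i) x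

/-- The normal vectors of the sides. -/
def nv : Fin 12 → V := ![(-6, 5, 10, -12), (-57, 74, 88, -114), (-15, 26, 16, -30),
  (-21, 32, 4, -42), (-141, 182, -32, -282), (-19, 22, -8, -38), (-18, 19, -10, -36),
  (-111, 94, -88, -222), (-9, -2, -16, -18), (-3, -8, -4, -6), (-27, -14, 32, -54),
  (-5, 2, 8, -10)]

theorem poly : Poly act nv := by
  unfold Poly
  decide +kernel

theorem act_e : ∀ i, act i eO = eO := by decide +kernel

/-- The descent elements. -/
def dw : Fin 16 → List (Fin 12) := ![[9, 4], [9, 4, 11, 3], [8, 1, 6], [8, 1], [8], [7, 2], [3],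
  [2, 7], [2], [1, 8], [0, 7, 2], [11, 4], [10, 3], [10, 5], [9], [9, 5, 10, 3]]

/-- The corners of the descent polygon. -/
def zv : Fin 16 → ℤ × ℤ := ![(325, 162), (250, 304), (212, 321), (109, 321), (54, 304),
  (-163, 162), (-215, 105), (-320, -105), (-325, -163), (-250, -304), (-212, -321), (-109, -321),
  (-54, -304), (162, -163), (215, -105), (320, 105)]

theorem sect : ∀ k, Sect ((dw k).foldr act pO) (zv k) (zv (k + 1)) := by decide +kernel

end Pool.Agent.E5f.Ar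

end

section

/-! The arithmetic data exist. -/

set_option autoImplicit false

namespace Pool.Agent.E5f

namespace Ar

/-- The action of the surface group. -/
def rho : SG 3 →* Equiv.Perm V := R.comp emb

theorem rho_sp (i : Fin 12) (x : V) : rho (sp i) x = act i x := by
  rw [rho, MonoidHom.comp_apply, emb_sp, R_wev, act]

theorem rho_bt (g : SG 3) (x y : V) : bt (rho g x) (rho g y) = bt x y := R_bt _ _ _

theorem fw_pO : Fw pO := ⟨by decide, by decide⟩

theorem fw_nO : Fw nO := ⟨by decide, by decide⟩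

theorem rho_e (g : SG 3) : rho g eO = eO := by
  obtain ⟨l, rfl⟩ := sp_gens g
  induction l with
  | nil => rw [wev_nil, map_one]; rfl
  | cons e l ih =>
    rw [wev_cons, map_mul, Equiv.Perm.mul_apply, ih]
    rcases e with ⟨i, _ | _⟩
    · exact (congrArg (fun g => rho g eO) (sp_six i).symm).trans ((rho_sp _ _).trans (act_e _))
    · exact (rho_sp _ _).trans (act_e _)

theorem rho_be (g : SG 3) (x : V) : bt (rho g x) eO = bt x eO := by
  conv_lhs => rw [← rho_e g, rho_bt]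

theorem rho_mv (g : SG 3) (x y : V) : bt (rho g⁻¹ x) y = bt x (rho g y) := by
  rw [← rho_bt g, ← Equiv.Perm.mul_apply, ← map_mul, mul_inv_cancel, map_one, Equiv.Perm.one_apply]

theorem orb (g : SG 3) : ∃ t u v : ℤ, rho g pO = (t, u, v, 2 * t) ∧ 0 < t ∧
    u ^ 2 - u * v + v ^ 2 = 2 * t ^ 2 - 2 ∧ bt (rho g pO) pO = 4 * t := by
  have h1 := rho_be g pO
  have h2 := rho_bt g pO pO
  have h3 : 0 < bt (rho g pO) pO := (R_fw _ fw_pO).2
  generalize rho g pO = x at h1 h2 h3 ⊢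
  obtain ⟨t, u, v, c⟩ := x
  simp only [bt, eO, pO] at h1 h2 h3 ⊢
  obtain rfl : c = 2 * t := by omega
  exact ⟨t, u, v, rfl, by omega, by linarith, by ring⟩

theorem cover (u v : ℤ) : ∃ k, 0 ≤ (zv k).1 * v - (zv k).2 * u ∧
    (zv (k + 1)).1 * v - (zv (k + 1)).2 * u ≤ 0 := by
  by_contra h
  have h' : ∀ k, (zv k).1 * v - (zv k).2 * u < 0 ∨
      0 < (zv (k + 1)).1 * v - (zv (k + 1)).2 * u := fun k => by
    by_contra h1
    exact h ⟨k, by omega, by omega⟩
  have e : (zv 1).1 * v - (zv 1).2 * u + ((zv 9).1 * v - (zv 9).2 * u) = 0 := by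
    change 250 * v - 304 * u + (-250 * v - -304 * u) = 0
    ring
  obtain ⟨d, hd⟩ : ∃ d : Fin 16 → ℤ, d = fun k => (zv k).1 * v - (zv k).2 * u := ⟨_, rfl⟩
  have k : ∀ k, d k < 0 ∨ 0 < d (k + 1) := by rw [hd]; exact h'
  have e' : d 1 + d 9 = 0 := by rw [hd]; exact e
  have k0 : d 0 < 0 ∨ 0 < d 1 := k 0
  have k1 : d 1 < 0 ∨ 0 < d 2 := k 1
  have k2 : d 2 < 0 ∨ 0 < d 3 := k 2
  have k3 : d 3 < 0 ∨ 0 < d 4 := k 3
  have k4 : d 4 < 0 ∨ 0 < d 5 := k 4
  have k5 : d 5 < 0 ∨ 0 < d 6 := k 5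
  have k6 : d 6 < 0 ∨ 0 < d 7 := k 6
  have k7 : d 7 < 0 ∨ 0 < d 8 := k 7
  have k8 : d 8 < 0 ∨ 0 < d 9 := k 8
  have k9 : d 9 < 0 ∨ 0 < d 10 := k 9
  have k10 : d 10 < 0 ∨ 0 < d 11 := k 10
  have k11 : d 11 < 0 ∨ 0 < d 12 := k 11
  have k12 : d 12 < 0 ∨ 0 < d 13 := k 12
  have k13 : d 13 < 0 ∨ 0 < d 14 := k 13
  have k14 : d 14 < 0 ∨ 0 < d 15 := k 14
  have k15 : d 15 < 0 ∨ 0 < d 0 := k 15
  omega

theorem rho_prod (l : List (Fin 12)) : rho (l.map sp).prod pO = l.foldr act pO := by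
  induction l with
  | nil => rw [List.map_nil, List.prod_nil, map_one]; rfl
  | cons i l ih =>
    rw [List.map_cons, List.prod_cons, map_mul, Equiv.Perm.mul_apply, ih, rho_sp, List.foldr_cons]

theorem low3 : ∃ K : ℝ, 0 ≤ K ∧ ∀ g : SG 3,
    (wl (sgen 3) g : ℝ) ≤ K * Real.log (bt (rho g pO) pO : ℤ) + K := by
  refine low_of (gens_of _ (mem_wsub (sgen 3))) (fun g => bt (rho g pO) pO)
    (fun g => (R_fw _ fw_pO).2) 140 ?_ (fun k => ((dw k).map sp).prod) fun g hg => ?_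
  · refine ((Set.finite_Icc ((-100, -100, -100, -100) : V) (100, 100, 100, 100)).preimage
      (free_of sp_gens sp_six sp_rel rho rho_bt (fun g => R_fw _ fw_pO) rho_sp
        poly).injOn).subset fun g hg => ?_
    obtain ⟨t, u, v, h1, h2, h3, h4⟩ := orb g
    have h5 : t ≤ 35 := by
      have : bt (rho g pO) pO ≤ 140 := hg
      omega
    have h6 : t ^ 2 ≤ 35 ^ 2 := pow_le_pow_left₀ h2.le h5 2
    have h7 : |u| ≤ 100 := abs_le_of_sq_le_sq (by nlinarith [sq_nonneg (2 * v - u)]) (by norm_num)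
    have h8 : |v| ≤ 100 := abs_le_of_sq_le_sq (by nlinarith [sq_nonneg (2 * u - v)]) (by norm_num)
    rw [abs_le] at h7 h8
    rw [Set.mem_preimage, h1]
    simp only [Set.mem_Icc, Prod.mk_le_mk]
    omega
  · obtain ⟨t, u, v, h1, h2, h3, h4⟩ := orb g
    obtain ⟨k, k1, k2⟩ := cover u v
    refine ⟨k, ?_⟩
    by_contra h
    rw [map_mul, Equiv.Perm.mul_apply, rho_mv, rho_prod, h4, h1] at h
    have := (sect k).bound h2 k1 k2 (not_le.1 h) h3
    omega

/-- The projection to the invariant plane. -/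
def pj (x : V) : V := (4 : ℤ) • x + bt x eO • eO

theorem pj_bt (x y : V) : bt (pj x) (pj y) = 16 * bt x y + 4 * (bt x eO * bt y eO) := by
  rw [pj, pj, bt_lc, bt_lc', bt_lc', bt_comm eO y, show bt eO eO = -4 by decide]
  ring

/-- Forward null vectors. -/
def Nl (x : V) : Prop := Fw x ∧ bt x x = 0

theorem Nl.abs_pos {x : V} (h : Nl x) : (1 : ℝ) ≤ |((bt x eO : ℤ) : ℝ)| := by
  exact_mod_cast Int.one_le_abs (null_ne h.1 h.2)

theorem Nl.sq {x : V} (h : Nl x) : bt (pj x) (pj x) = 4 * bt x eO ^ 2 := by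
  rw [pj_bt, h.2]; ring

theorem Nl.pos {x : V} (h : Nl x) : 0 < bt (pj x) (pj x) := by
  have := null_ne h.1 h.2
  rw [h.sq]; positivity

theorem Nl.fw {x : V} (h : Nl x) : Fw (pj x) :=
  ⟨h.pos.le, by
    have := h.1.2
    rw [pj, bt_lc, show bt eO pO = 0 by decide]
    omega⟩

/-- The ratio. -/
noncomputable def rat (x y : V) : ℝ :=
  ((bt (pj x) (pj y) : ℤ) : ℝ) / (2 * (|((bt x eO : ℤ) : ℝ)| * |((bt y eO : ℤ) : ℝ)|))

theorem rat_ge {x y : V} (hx : Nl x) (hy : Nl y) : 1 ≤ rat x y := by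
  have h1 := rcs (pj x) (pj y) hy.pos
  rw [hx.sq, hy.sq] at h1
  have h2 : |2 * (bt x eO * bt y eO)| ≤ bt (pj x) (pj y) :=
    abs_le_of_sq_le_sq (by nlinarith [sq_nonneg (bt x eO * bt y eO)]) (fw_pos hx.fw hy.fw hy.pos).le
  have h3 := hx.abs_pos
  have h4 := hy.abs_pos
  rw [rat, one_le_div (by positivity)]
  rw [abs_mul, abs_mul, abs_two] at h2
  exact_mod_cast h2

theorem rat_tri {x y z : V} (hx : Nl x) (hy : Nl y) (hz : Nl z) :
    rat x z ≤ rat x y * rat y z := by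
  have h1 := fw_tri hx.fw hy.fw hz.fw hy.pos
  rw [hy.sq, bt_comm (pj z)] at h1
  have h2 : ((bt (pj x) (pj z) : ℤ) : ℝ) * (4 * |((bt y eO : ℤ) : ℝ)| ^ 2) ≤
      2 * ((bt (pj x) (pj y) : ℤ) * (bt (pj y) (pj z) : ℤ)) := by
    rw [sq_abs]
    exact_mod_cast h1
  have h3 := hx.abs_pos
  have h4 := hy.abs_pos
  have h5 := hz.abs_pos
  rw [rat, rat, rat, div_mul_div_comm, div_le_div_iff₀ (by positivity) (by positivity)]
  have h6 := mul_le_mul_of_nonneg_right h2
    (show 0 ≤ |((bt x eO : ℤ) : ℝ)| * |((bt z eO : ℤ) : ℝ)| by positivity)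
  linarith

theorem rat_le {x y : V} (hx : Nl x) (hy : Nl y) : rat x y ≤ 8 * (bt x y : ℤ) + 2 := by
  have h1 : (0 : ℝ) ≤ (bt x y : ℤ) := by exact_mod_cast fw_nonneg hx.1 hy.1
  have h3 := hx.abs_pos
  have h4 := hy.abs_pos
  have h5 := one_le_mul_of_one_le_of_one_le h3 h4
  have h6 := le_abs_self (((bt x eO : ℤ) : ℝ) * ((bt y eO : ℤ) : ℝ))
  rw [abs_mul] at h6
  rw [rat, div_le_iff₀ (by positivity), pj_bt]
  push_cast
  nlinarith [mul_le_mul_of_nonneg_left h5 h1]

theorem nl_R (g : G8) : Nl (R g nO) := ⟨R_fw g fw_nO, by rw [R_bt]; decide⟩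

theorem R_c : R g8c nO = nO :=
  (congrArg (fun g => R g nO) (show g8c = wev g8 [(0, true), (1, true), (0, false), (1, false)] by
    simp [wev, g8c, g8a, g8b, g8, mul_assoc])).trans ((R_wev _ _).trans (by decide))

theorem R_t : R g8t nO = nO := (R_lv (2, true) nO).trans (by decide)

theorem rat_low (b : SG 3) : ((bt (rho b pO) pO : ℤ) : ℝ) = 2 * rat nO (rho b nO) := by
  have e : pO = (2 : ℤ) • nO + (-1 : ℤ) • eO := by decide
  have h1 : bt (rho b pO) pO = 2 * bt (rho b pO) nO := by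
    conv_lhs => rw [show bt (rho b pO) pO = bt (rho b pO) ((2 : ℤ) • nO + (-1 : ℤ) • eO) by rw [← e],
      bt_lc', rho_be, show bt pO eO = 0 by decide]
    ring
  have h2 : bt (rho b pO) nO = 2 * bt nO (rho b nO) + 2 := by
    rw [bt_comm, ← rho_mv, e, bt_lc', rho_be, rho_mv, show bt nO eO = -2 by decide]
    ring
  rw [rat, pj_bt, rho_be, h1, h2, show bt nO eO = -2 by decide]
  push_cast
  rw [abs_neg, abs_two]
  ring

end Ar

open Ar in
theorem arith_ex : ∃ h : ℕ, 2 ≤ h ∧ Nonempty (Arith h) := by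
  have pos : ∀ g g', 0 < rat (R g nO) (R g' nO) := fun g g' =>
    one_pos.trans_le (rat_ge (nl_R g) (nl_R g'))
  refine ⟨3, by norm_num, ⟨⟨emb, fun g g' => Real.log (rat (R g nO) (R g' nO)),
    fun g g' => Real.log_nonneg (rat_ge (nl_R g) (nl_R g')), fun g g' => ?_, fun g g' g'' => ?_,
    fun b g g' => ?_, fun g g' => ?_, fun g g' => ?_, fun f => ?_, ?_⟩⟩⟩
  · rw [rat, rat, bt_comm (pj _), mul_comm |_|]
  · rw [← Real.log_mul (pos _ _).ne' (pos _ _).ne']
    exact Real.log_le_log (pos _ _) (rat_tri (nl_R _) (nl_R _) (nl_R _))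
  · have h : ∀ x, bt (R (emb b) x) eO = bt x eO := rho_be b
    simp only [map_mul, Equiv.Perm.mul_apply, rat, pj_bt, R_bt, h]
  · rw [map_mul, Equiv.Perm.mul_apply, R_c]
  · rw [map_mul, Equiv.Perm.mul_apply, R_t]
  · refine ⟨8 * (bt nO (R f nO) : ℤ) + 2, fun g => ?_⟩
    have h := rat_le (nl_R g) (nl_R (g * f))
    conv_rhs at h => rw [map_mul, Equiv.Perm.mul_apply, R_bt]
    exact (Real.log_le_self (pos _ _).le).trans h
  · obtain ⟨K, hK, h⟩ := low3
    refine ⟨2 * K, by positivity, fun b => ?_⟩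
    have h1 := h b
    have h2 := pos 1 (emb b)
    have h3 := Real.log_nonneg (rat_ge (nl_R 1) (nl_R (emb b)))
    rw [map_one, Equiv.Perm.one_apply] at h2 h3 ⊢
    have h4 : Real.log 2 ≤ 1 := (Real.log_le_sub_one_of_pos two_pos).trans (by norm_num)
    change _ ≤ 2 * K * Real.log (rat nO (rho b nO)) + 2 * K
    change 0 ≤ Real.log (rat nO (rho b nO)) at h3
    change 0 < rat nO (rho b nO) at h2
    rw [rat_low, Real.log_mul two_ne_zero h2.ne'] at h1
    nlinarith [mul_le_mul_of_nonneg_left h4 hK, mul_nonneg hK h3]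

end Pool.Agent.E5f

end
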