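import Pool.Agent.Mg.S03381.G5b3672

section

set_option autoImplicit false

namespace Pool.Agent.E5f

open Classical

variable {L κ : Type} [LinearOrder κ]

namespace LsGain

theorem gap_ind {a : L} {P : List L → Prop} (h0 : P []) (h1 : ∀ x, P [x])
    (h2 : ∀ y l, P (y :: l) → P (a :: y :: l)) (h3 : ∀ x, x ≠ a → P [x, a])
    (h4 : ∀ x z l, x ≠ a → P (z :: l) → P (x :: a :: z :: l))
    (h5 : ∀ x y l, x ≠ a → y ≠ a → P (y :: l) → P (x :: y :: l)) (p : List L) : P p := by
  suffices h : P p ∧ ∀ x, P (x :: p) from h.1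
  induction p with
  | nil => exact ⟨h0, h1⟩
  | cons y l ih =>
    refine ⟨ih.2 y, fun x => ?_⟩
    by_cases hx : x = a
    · rw [hx]; exact h2 y l (ih.2 y)
    by_cases hy : y = a
    · rw [hy]
      cases l with
      | nil => exact h3 x hx
      | cons z l => exact h4 x z l hx ih.1
    · exact h5 x y l hx hy (ih.2 y)

variable {a b x y z : L}

theorem swL_nil : swL a b [] = [] := by simp [swL]

theorem swL_one : swL a b [x] = [x] := by simp [swL]

theorem swL_a (l : List L) : swL a b (a :: y :: l) = a :: swL a b (y :: l) := by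
  cases l <;> simp [swL]

theorem swL_xa : swL a b [x, a] = [x, a] := by simp [swL]

theorem swL_xaz (hx : x ≠ a) (l : List L) : swL a b (x :: a :: z :: l) =
    if (x = b ↔ z = b) then x :: a :: swL a b (z :: l) else x :: swL a b (z :: l) := by
  simp [swL, hx]

theorem swL_xy (hx : x ≠ a) (hy : y ≠ a) (l : List L) : swL a b (x :: y :: l) =
    if (x = b ↔ y = b) then x :: swL a b (y :: l) else x :: a :: swL a b (y :: l) := by
  cases l <;> simp [swL, hx, hy]

theorem swL_cons (a b x : L) (l : List L) : ∃ t, swL a b (x :: l) = x :: t := by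
  by_cases hx : x = a
  · rw [hx]
    cases l with
    | nil => exact ⟨_, swL_one⟩
    | cons y l => exact ⟨_, swL_a l⟩
  rcases l with _ | ⟨y, l⟩
  · exact ⟨_, swL_one⟩
  by_cases hy : y = a
  · rw [hy]
    cases l with
    | nil => exact ⟨_, swL_xa⟩
    | cons z l => rw [swL_xaz hx]; split_ifs <;> exact ⟨_, rfl⟩
  · rw [swL_xy hx hy]; split_ifs <;> exact ⟨_, rfl⟩

theorem swL_tail (a b x : L) (l : List L) : x :: (swL a b (x :: l)).tail = swL a b (x :: l) := by
  obtain ⟨t, ht⟩ := swL_cons a b x l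
  rw [ht, List.tail_cons]

/-- Cutting at a letter different from `a`. -/
theorem swL_cut (hy : y ≠ a) (A B : List L) :
    swL a b (A ++ y :: B) = swL a b (A ++ [y]) ++ (swL a b (y :: B)).tail := by
  induction A using gap_ind (a := a) with
  | h0 => simp [swL_one, swL_tail]
  | h1 x =>
    by_cases hx : x = a
    · simp [hx, swL_a, swL_one, swL_tail]
    · simp only [List.cons_append, List.nil_append, swL_xy hx hy, swL_one]
      split_ifs <;> simp [swL_tail]
  | h2 x l ih =>
    simp only [List.cons_append, swL_a] at ih ⊢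
    rw [ih]
  | h3 x hx =>
    simp only [List.cons_append, List.nil_append, swL_xaz hx, swL_one]
    split_ifs <;> simp [swL_tail]
  | h4 x z l hx ih =>
    simp only [List.cons_append, swL_xaz hx] at ih ⊢
    split_ifs <;> simp [ih]
  | h5 x z l hx hz ih =>
    simp only [List.cons_append, swL_xy hx hz] at ih ⊢
    split_ifs <;> simp [ih]

theorem rd_cons {l : List L} : Rd (x :: y :: l) ↔ x ≠ y ∧ Rd (y :: l) := List.isChain_cons_cons

theorem rd_one : Rd [x] := List.isChain_singleton x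

theorem pth_tail {S : Set L} {l : List L} (h : Pth S (x :: y :: l)) : Pth S (y :: l) :=
  ⟨(rd_cons.1 h.rd).2, List.cons_ne_nil _ _, fun w hw => h.sub w (List.mem_cons_of_mem _ hw)⟩

theorem lin_cut (k : L → κ) (ρ : L → ℝ) (A : List L) (y : L) (B : List L) :
    lin k ρ (A ++ y :: B) = lin k ρ (A ++ [y]) + lin k ρ (y :: B) := by
  induction A with
  | nil => simp [lin]
  | cons x A ih =>
    cases A with
    | nil => simp [lin]
    | cons w A =>
      simp only [List.cons_append, lin] at ih ⊢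
      rw [ih, add_assoc]

theorem lin_reverse {k : L → κ} (hk : Function.Injective k) (ρ : L → ℝ) {p : List L}
    (hp : Rd p) : lin k ρ p.reverse = lin k ρ p := by
  induction p with
  | nil => rfl
  | cons x p ih =>
    cases p with
    | nil => rfl
    | cons y l =>
      obtain ⟨h1, h2⟩ := rd_cons.1 hp
      have e := ih h2
      rw [List.reverse_cons] at e
      rw [List.reverse_cons, List.reverse_cons, List.append_assoc, List.singleton_append, lin_cut,
        e]
      simp only [lin]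
      rcases lt_or_gt_of_ne (hk.ne h1) with h | h
      · rw [if_pos h, if_neg h.not_gt]; ring
      · rw [if_pos h, if_neg h.not_gt]; ring

end LsGain

open LsGain

theorem swL_pth {S : Set L} {a b : L} (ha : a ∈ S) (hab : a ≠ b) {p : List L} (hp : Pth S p) :
    Pth S (swL a b p) := by
  have key : ∀ {x y : L} {l : List L}, x ∈ S → x ≠ y → Pth S (swL a b (y :: l)) →
      Pth S (x :: swL a b (y :: l)) := fun {x y l} hx hxy h => by
    obtain ⟨t, ht⟩ := swL_cons a b y l
    rw [ht] at h ⊢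
    exact ⟨rd_cons.2 ⟨hxy, h.rd⟩, List.cons_ne_nil _ _, fun w hw =>
      (List.mem_cons.1 hw).elim (fun e => e ▸ hx) (h.sub w)⟩
  have key2 : ∀ {x : L} {l : List L}, x ∈ S → x ≠ a → Pth S (a :: l) → Pth S (x :: a :: l) :=
    fun {x l} hx hxy h => ⟨rd_cons.2 ⟨hxy, h.rd⟩, List.cons_ne_nil _ _, fun w hw =>
      (List.mem_cons.1 hw).elim (fun e => e ▸ hx) (h.sub w)⟩
  induction p using gap_ind (a := a) with
  | h0 => exact absurd rfl hp.ne
  | h1 x => rwa [swL_one]
  | h2 y l ih =>
    rw [swL_a]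
    exact key ha (rd_cons.1 hp.rd).1 (ih (pth_tail hp))
  | h3 x hx => rwa [swL_xa]
  | h4 x z l hx ih =>
    have h1 := ih (pth_tail (pth_tail hp))
    have h2 := hp.sub x List.mem_cons_self
    rw [swL_xaz hx]
    split_ifs with h
    · exact key2 h2 hx (key ha (rd_cons.1 (pth_tail hp).rd).1 h1)
    · exact key h2 (fun e => h (by rw [e])) h1
  | h5 x y l hx hy ih =>
    have h1 := ih (pth_tail hp)
    have h2 := hp.sub x List.mem_cons_self
    rw [swL_xy hx hy]
    split_ifs with h
    · exact key h2 (rd_cons.1 hp.rd).1 h1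
    · exact key2 h2 hx (key ha hy.symm h1)

theorem swL_head (a b : L) (p : List L) : (swL a b p).head? = p.head? := by
  cases p with
  | nil => rw [swL_nil]
  | cons x l =>
    obtain ⟨t, ht⟩ := swL_cons a b x l
    rw [ht, List.head?_cons, List.head?_cons]

theorem swL_last (a b : L) (p : List L) : (swL a b p).getLast? = p.getLast? := by
  have key : ∀ (x y : L) (l : List L), (x :: swL a b (y :: l)).getLast? =
      (swL a b (y :: l)).getLast? := fun x y l => by
    obtain ⟨t, ht⟩ := swL_cons a b y l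
    rw [ht, List.getLast?_cons_cons]
  induction p using gap_ind (a := a) with
  | h0 => rw [swL_nil]
  | h1 x => rw [swL_one]
  | h2 y l ih => rw [swL_a, key, ih, List.getLast?_cons_cons]
  | h3 x hx => rw [swL_xa]
  | h4 x z l hx ih =>
    rw [swL_xaz hx]
    split_ifs <;> simp only [List.getLast?_cons_cons, key, ih]
  | h5 x y l hx hy ih =>
    rw [swL_xy hx hy]
    split_ifs <;> simp only [List.getLast?_cons_cons, key, ih]

theorem swL_two (a b : L) {p : List L} (h : 2 ≤ p.length) : 2 ≤ (swL a b p).length := by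
  have key : ∀ (y : L) (l : List L), 1 ≤ (swL a b (y :: l)).length := fun y l => by
    obtain ⟨t, ht⟩ := swL_cons a b y l
    rw [ht]; simp
  induction p using gap_ind (a := a) with
  | h0 => simp at h
  | h1 x => simp at h
  | h2 y l _ => have := key y l; rw [swL_a, List.length_cons]; omega
  | h3 x hx => rwa [swL_xa]
  | h4 x z l hx _ =>
    have := key z l
    rw [swL_xaz hx]
    split_ifs <;> simp only [List.length_cons] <;> omega
  | h5 x y l hx hy _ =>
    have := key y l
    rw [swL_xy hx hy]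
    split_ifs <;> simp only [List.length_cons] <;> omega

theorem swL_mem {a b x : L} (hx : x ≠ a) (p : List L) : x ∈ swL a b p ↔ x ∈ p := by
  induction p using gap_ind (a := a) with
  | h0 => rw [swL_nil]
  | h1 x => rw [swL_one]
  | h2 y l ih => rw [swL_a, List.mem_cons, ih, List.mem_cons (l := y :: l)]
  | h3 w hw => rw [swL_xa]
  | h4 w z l hw ih =>
    rw [swL_xaz hw]
    split_ifs <;> simp only [List.mem_cons (l := swL a b _), List.mem_cons (l := _ :: _), ih, hx,
      false_or]
  | h5 w y l hw hy ih =>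
    rw [swL_xy hw hy]
    split_ifs <;> simp only [List.mem_cons (l := swL a b _), List.mem_cons (l := _ :: _), ih, hx,
      false_or]

theorem swL_reverse {a b : L} (hab : a ≠ b) {p : List L} (hp : Rd p) :
    swL a b p.reverse = (swL a b p).reverse := by
  induction p using gap_ind (a := a) with
  | h0 => simp [swL_nil]
  | h1 x => simp [swL_one]
  | h2 y l ih =>
    obtain ⟨h1, h2⟩ := rd_cons.1 hp
    have e := ih h2
    rw [List.reverse_cons] at e
    rw [List.reverse_cons, List.reverse_cons, List.append_assoc, List.singleton_append,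
      swL_cut h1.symm, e, swL_xa, swL_a, List.reverse_cons, List.tail_cons]
  | h3 x hx => simp [swL_xa, swL_a, swL_one]
  | h4 x z l hx ih =>
    obtain ⟨h1, h2⟩ := rd_cons.1 (rd_cons.1 hp).2
    have e := ih h2
    rw [List.reverse_cons] at e
    have e2 : (x :: a :: z :: l).reverse = l.reverse ++ z :: [a, x] := by simp
    rw [e2, swL_cut h1.symm, e, swL_xaz h1.symm, swL_xaz hx, swL_one]
    by_cases h : (x = b ↔ z = b)
    · rw [if_pos h, if_pos h.symm]; simp
    · rw [if_neg h, if_neg fun h' => h h'.symm]; simp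
  | h5 x y l hx hy ih =>
    have e := ih (rd_cons.1 hp).2
    rw [List.reverse_cons] at e
    have e2 : (x :: y :: l).reverse = l.reverse ++ y :: [x] := by simp
    rw [e2, swL_cut hy, e, swL_xy hy hx, swL_xy hx hy, swL_one]
    by_cases h : (x = b ↔ y = b)
    · rw [if_pos h, if_pos h.symm]; simp
    · rw [if_neg h, if_neg fun h' => h h'.symm]; simp

theorem swL_swL {a b : L} (hab : a ≠ b) {p : List L} (hp : Rd p) : swL a b (swL a b p) = p := by
  induction p using gap_ind (a := a) with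
  | h0 => simp [swL_nil]
  | h1 x => simp [swL_one]
  | h2 y l ih =>
    have e := ih (rd_cons.1 hp).2
    obtain ⟨t, ht⟩ := swL_cons a b y l
    rw [ht] at e
    rw [swL_a, ht, swL_a, e]
  | h3 x hx => simp [swL_xa]
  | h4 x z l hx ih =>
    obtain ⟨h1, h2⟩ := rd_cons.1 (rd_cons.1 hp).2
    have e := ih h2
    obtain ⟨t, ht⟩ := swL_cons a b z l
    rw [ht] at e
    rw [swL_xaz hx, ht]
    split_ifs with h
    · rw [swL_xaz hx, if_pos h, e]
    · rw [swL_xy hx h1.symm, if_neg h, e]
  | h5 x y l hx hy ih =>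
    have e := ih (rd_cons.1 hp).2
    obtain ⟨t, ht⟩ := swL_cons a b y l
    rw [ht] at e
    rw [swL_xy hx hy, ht]
    split_ifs with h
    · rw [swL_xy hx hy, if_pos h, e]
    · rw [swL_xaz hx, if_neg h, e]

/-- Gluing at a letter which is not `a`, or is `a` with both or no neighbours equal to `b`. -/
theorem swL_glue {a b : L} (hab : a ≠ b) {A B : List L} {x y z : L}
    (hp : Rd (A ++ x :: y :: z :: B)) (h : y ≠ a ∨ (x = b ↔ z = b)) :
    swL a b (A ++ x :: y :: z :: B) = swL a b (A ++ [x, y]) ++ (swL a b (y :: z :: B)).tail := by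
  by_cases hy : y = a
  · subst hy
    have hx : x ≠ y := (rd_cons.1 (List.isChain_append.1 hp).2.1).1
    rw [swL_cut hx, swL_cut hx A [y], swL_xaz hx, if_pos (h.resolve_left fun e => e rfl), swL_xa,
      swL_a]
    simp
  · have := swL_cut (b := b) hy (A ++ [x]) (z :: B)
    simpa only [List.append_assoc, List.cons_append, List.nil_append] using this

theorem ks_inj {k : L → κ} (hk : Function.Injective k) (a b : L) :
    Function.Injective (ks k a b) := hk.comp (Equiv.swap a b).injective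

namespace LsGain

variable {S : Set L} {k : L → κ} {a b x y z : L}

theorem ks_a : ks k a b a = k b := by simp [ks]

theorem ks_b : ks k a b b = k a := by simp [ks]

theorem ks_c (h : x ≠ a) (h' : x ≠ b) : ks k a b x = k x := by
  simp [ks, Equiv.swap_apply_of_ne_of_ne h h']

/-- The gain is `N` for all position functions. -/
def Gn (k : L → κ) (a b : L) (p : List L) (N : ℝ) : Prop :=
  ∀ ρ : L → ℝ, lin (ks k a b) ρ (swL a b p) = lin k ρ p + N * (ρ (fw k a b) - ρ (bw k a b))

theorem Gn.eq {p : List L} {N : ℝ} (hab : a ≠ b) (h : Gn k a b p N) : gn k a b p = N := by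
  have : bw k a b ≠ fw k a b := by
    unfold bw fw
    split_ifs
    exacts [hab.symm, hab]
  rw [gn, h, if_pos rfl, if_neg this]
  ring

theorem lin_swL_cut (hy : y ≠ a) (k : L → κ) (ρ : L → ℝ) (A B : List L) :
    lin k ρ (swL a b (A ++ y :: B)) =
      lin k ρ (swL a b (A ++ [y])) + lin k ρ (swL a b (y :: B)) := by
  have h := swL_last a b (A ++ [y])
  rw [List.getLast?_concat] at h
  obtain ⟨A', hA'⟩ := List.getLast?_eq_some_iff.1 h
  rw [swL_cut hy, hA', List.append_assoc, List.singleton_append, lin_cut, swL_tail]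

theorem Gn.cut (hy : y ≠ a) {A B : List L} {N N' : ℝ} (h : Gn k a b (A ++ [y]) N)
    (h' : Gn k a b (y :: B) N') : Gn k a b (A ++ y :: B) (N + N') := fun ρ => by
  rw [lin_swL_cut hy, h, h', lin_cut k ρ A y B]
  ring

theorem gn_cut (hy : y ≠ a) (A B : List L) :
    gn k a b (A ++ y :: B) = gn k a b (A ++ [y]) + gn k a b (y :: B) := by
  rw [gn, gn, gn, lin_swL_cut hy, lin_cut k _ A y B]
  ring

theorem gn_one : gn k a b [x] = 0 := by simp [gn, swL_one, lin]

theorem Gn_one : Gn k a b [x] 0 := fun ρ => by simp [swL_one, lin]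

variable (hk : Function.Injective k) (hA : Adjc S k a b)
include hk hA

theorem o_ba : k b < k a ↔ ¬ k a < k b :=
  ⟨fun h => h.not_gt, fun h => (lt_or_gt_of_ne (hk.ne hA.ne)).resolve_left h⟩

omit hA in
theorem o_ca (h : x ≠ a) : k x < k a ↔ ¬ k a < k x :=
  ⟨fun h => h.not_gt, fun h' => (lt_or_gt_of_ne (hk.ne h)).resolve_right h'⟩

theorem o_cb (hx : x ∈ S) (h : x ≠ a) (h' : x ≠ b) : k x < k b ↔ ¬ k a < k x := by
  rw [← hA.adj x hx h h', o_ca hk h]

theorem o_bc (hx : x ∈ S) (h : x ≠ a) (h' : x ≠ b) : k b < k x ↔ k a < k x := by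
  rw [o_ca hk h'.symm, o_cb hk hA hx h h', not_not]

theorem Gn_ay (hS : y ∈ S) (hy : y ≠ a) : Gn k a b [a, y] (if y = b then 2 else 0) := by
  intro ρ
  by_cases h : y = b
  · subst h
    by_cases c : k a < k y <;>
      simp [swL_a, swL_one, lin, ks_a, ks_b, fw, bw, o_ba hk hA, c] <;> ring
  · simp [swL_a, swL_one, lin, ks_a, ks_c hy h, h, o_bc hk hA hS hy h]

theorem Gn_xa (hS : x ∈ S) (hx : x ≠ a) : Gn k a b [x, a] (if x = b then 2 else 0) := by
  intro ρ
  by_cases h : x = b
  · subst h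
    by_cases c : k a < k x <;>
      simp [swL_xa, lin, ks_a, ks_b, fw, bw, o_ba hk hA, c] <;> ring
  · simp [swL_xa, lin, ks_a, ks_c hx h, h, hA.adj x hS hx h]

theorem Gn_xaz (hS : x ∈ S) (hS' : z ∈ S) (hx : x ≠ a) (hz : z ≠ a) :
    Gn k a b [x, a, z] (if x = b ∧ z = b then 4 else if x ≠ b ∧ z ≠ b then 0
      else if (k x < k a ↔ k a < k z) then 0 else 2) := by
  intro ρ
  by_cases h : x = b <;> by_cases h' : z = b
  · subst h h'
    by_cases c : k a < k z <;>
      simp [swL_xaz hx, swL_one, lin, ks_a, ks_b, fw, bw, o_ba hk hA, c] <;> ring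
  · subst h
    by_cases c : k a < k x <;> by_cases c' : k a < k z <;>
      simp [swL_xaz hx, swL_one, lin, ks_b, ks_c hz h', fw, bw, o_ba hk hA, c, c', h'] <;> ring
  · subst h'
    by_cases c : k a < k z <;> by_cases c' : k a < k x <;>
      simp [swL_xaz hx, swL_one, lin, ks_b, ks_c hx h, fw, bw, o_ca hk hx, c, c', h] <;> ring
  · simp [swL_xaz hx, swL_one, lin, ks_a, ks_c hx h, ks_c hz h', h, h', hA.adj x hS hx h,
      o_bc hk hA hS' hz h']

theorem Gn_xy (hS : x ∈ S) (hS' : y ∈ S) (hx : x ≠ a) (hy : y ≠ a) (hxy : x ≠ y) :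
    Gn k a b [x, y] (if x ≠ b ∧ y ≠ b then 0
      else if (ks k a b x < ks k a b a ↔ ks k a b a < ks k a b y) then 0 else 2) := by
  intro ρ
  by_cases h : x = b <;> by_cases h' : y = b
  · exact absurd (h.trans h'.symm) hxy
  · subst h
    by_cases c : k a < k x <;> by_cases c' : k a < k y <;>
      simp [swL_xy hx hy, swL_one, lin, ks_a, ks_b, ks_c hy h', fw, bw, o_bc hk hA hS' hy h', c, c',
        h'] <;> ring
  · subst h'
    by_cases c : k a < k y <;> by_cases c' : k a < k x <;>
      simp [swL_xy hx hy, swL_one, lin, ks_a, ks_b, ks_c hx h, fw, bw, o_cb hk hA hS hx h,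
        o_ba hk hA, c, c', h] <;> ring
  · simp [swL_xy hx hy, swL_one, lin, ks_c hx h, ks_c hy h', h, h']

theorem exists_Gn {p : List L} (hp : Pth S p) : ∃ N, (N = 0 ∨ 2 ≤ N) ∧ Gn k a b p N := by
  have key : ∀ {u N : ℝ}, (u = 0 ∨ 2 ≤ u) → (N = 0 ∨ 2 ≤ N) → (u + N = 0 ∨ 2 ≤ u + N) := by
    rintro u N (h | h) (h' | h')
    · left; linarith
    all_goals right; linarith
  induction p using gap_ind (a := a) with
  | h0 => exact absurd rfl hp.ne
  | h1 x => exact ⟨0, .inl rfl, Gn_one⟩
  | h2 y l ih =>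
    obtain ⟨N, h1, h2⟩ := ih (pth_tail hp)
    have hy := (rd_cons.1 hp.rd).1.symm
    refine ⟨_, key ?_ h1, Gn.cut (A := [a]) hy (Gn_ay hk hA (hp.sub y (by simp)) hy) h2⟩
    split_ifs <;> simp
  | h3 x hx =>
    refine ⟨_, ?_, Gn_xa hk hA (hp.sub x (by simp)) hx⟩
    split_ifs <;> simp
  | h4 x z l hx ih =>
    obtain ⟨N, h1, h2⟩ := ih (pth_tail (pth_tail hp))
    have hz := (rd_cons.1 (pth_tail hp).rd).1.symm
    refine ⟨_, key ?_ h1, Gn.cut (A := [x, a]) hz
      (Gn_xaz hk hA (hp.sub x (by simp)) (hp.sub z (by simp)) hx hz) h2⟩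
    split_ifs <;> norm_num
  | h5 x y l hx hy ih =>
    obtain ⟨N, h1, h2⟩ := ih (pth_tail hp)
    refine ⟨_, key ?_ h1, Gn.cut (A := [x]) hy
      (Gn_xy hk hA (hp.sub x (by simp)) (hp.sub y (by simp)) hx hy (rd_cons.1 hp.rd).1) h2⟩
    split_ifs <;> norm_num

theorem gn_nonneg {p : List L} (hp : Pth S p) : 0 ≤ gn k a b p := by
  obtain ⟨N, h1, h2⟩ := exists_Gn hk hA hp
  rw [h2.eq hA.ne]
  rcases h1 with h | h <;> linarith

theorem gn_a {l : List L} (hp : Pth S (a :: y :: l)) :
    gn k a b (a :: y :: l) = (if y = b then 2 else 0) + gn k a b (y :: l) := by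
  have hy := (rd_cons.1 hp.rd).1.symm
  rw [← (Gn_ay hk hA (hp.sub y (by simp)) hy).eq hA.ne]
  exact gn_cut hy [a] l

theorem gn_xa (hx : x ≠ a) (hS : x ∈ S) : gn k a b [x, a] = if x = b then 2 else 0 :=
  (Gn_xa hk hA hS hx).eq hA.ne

theorem gn_xaz {l : List L} (hp : Pth S (x :: a :: z :: l)) :
    gn k a b (x :: a :: z :: l) = (if x = b ∧ z = b then 4 else if x ≠ b ∧ z ≠ b then 0
      else if (k x < k a ↔ k a < k z) then 0 else 2) + gn k a b (z :: l) := by
  have hz := (rd_cons.1 (pth_tail hp).rd).1.symm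
  rw [← (Gn_xaz hk hA (hp.sub x (by simp)) (hp.sub z (by simp)) (rd_cons.1 hp.rd).1 hz).eq hA.ne]
  exact gn_cut hz [x, a] l

theorem gn_xy {l : List L} (hx : x ≠ a) (hy : y ≠ a) (hp : Pth S (x :: y :: l)) :
    gn k a b (x :: y :: l) = (if x ≠ b ∧ y ≠ b then 0
      else if (ks k a b x < ks k a b a ↔ ks k a b a < ks k a b y) then 0 else 2) +
        gn k a b (y :: l) := by
  rw [← (Gn_xy hk hA (hp.sub x (by simp)) (hp.sub y (by simp)) hx hy (rd_cons.1 hp.rd).1).eq hA.ne]
  exact gn_cut hy [x] l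

theorem d_ay (hS : y ∈ S) (hy : y ≠ a) (h : y ≠ b) : ks k a b a < ks k a b y ↔ k a < k y := by
  rw [ks_a, ks_c hy h, o_bc hk hA hS hy h]

omit hk in
theorem d_xa (hS : x ∈ S) (hx : x ≠ a) (h : x ≠ b) : ks k a b x < ks k a b a ↔ k x < k a := by
  rw [ks_a, ks_c hx h, hA.adj x hS hx h]

omit hk hA in
theorem d_xaz (hx : x ≠ a) (hz : z ≠ a) (h : ¬ (x = b ↔ z = b)) (h' : k x < k a ↔ k a < k z) :
    ks k a b x < ks k a b z ↔ k x < k a := by
  by_cases e : x = b
  · rw [h', e, ks_b, ks_c hz fun e' => h (iff_of_true e e')]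
  · have e' : z = b := by tauto
    rw [e', ks_b, ks_c hx e]

omit hk hA in
theorem d_xy (hx : x ≠ a) (hy : y ≠ a) (h : ¬ (x = b ↔ y = b))
    (h' : ks k a b x < ks k a b a ↔ ks k a b a < ks k a b y) :
    ks k a b x < ks k a b a ↔ k x < k y := by
  by_cases e : x = b
  · rw [h', e, ks_a, ks_c hy fun e' => h (iff_of_true e e')]
  · have e' : y = b := by tauto
    rw [e', ks_a, ks_c hx e]

/-- The first gap is `x, a, z`. -/
theorem gap_xaz {l : List L} (hp : Pth S (x :: a :: z :: l)) :
    2 + gn k a b (z :: l) ≤ gn k a b (x :: a :: z :: l) ∨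
      gn k a b (x :: a :: z :: l) = gn k a b (z :: l) ∧
      ((swL a b (x :: a :: z :: l) = x :: a :: swL a b (z :: l) ∧
        (ks k a b x < ks k a b a ↔ k x < k a) ∧ (ks k a b a < ks k a b z ↔ k a < k z)) ∨
      (swL a b (x :: a :: z :: l) = x :: swL a b (z :: l) ∧
        (ks k a b x < ks k a b z ↔ k x < k a) ∧ (k x < k a ↔ k a < k z))) := by
  have hx := (rd_cons.1 hp.rd).1
  have hz := (rd_cons.1 (pth_tail hp).rd).1.symm
  rw [gn_xaz hk hA hp, swL_xaz hx]
  by_cases c1 : x = b ∧ z = b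
  · left; rw [if_pos c1]; linarith
  by_cases c2 : x ≠ b ∧ z ≠ b
  · rw [if_neg c1, if_pos c2, if_pos (iff_of_false c2.1 c2.2)]
    exact .inr ⟨zero_add _, .inl ⟨rfl, d_xa hA (hp.sub x (by simp)) hx c2.1,
      d_ay hk hA (hp.sub z (by simp)) hz c2.2⟩⟩
  have c3 : ¬ (x = b ↔ z = b) := by tauto
  rw [if_neg c1, if_neg c2, if_neg c3]
  by_cases c : k x < k a ↔ k a < k z
  · rw [if_pos c]
    exact .inr ⟨zero_add _, .inr ⟨rfl, d_xaz hx hz c3 c, c⟩⟩
  · rw [if_neg c]
    exact .inl le_rfl

/-- The first gap is `x, y`. -/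
theorem gap_xy {l : List L} (hx : x ≠ a) (hy : y ≠ a) (hp : Pth S (x :: y :: l)) :
    2 + gn k a b (y :: l) ≤ gn k a b (x :: y :: l) ∨
      gn k a b (x :: y :: l) = gn k a b (y :: l) ∧
      ((swL a b (x :: y :: l) = x :: swL a b (y :: l) ∧ (ks k a b x < ks k a b y ↔ k x < k y)) ∨
      (swL a b (x :: y :: l) = x :: a :: swL a b (y :: l) ∧
        (ks k a b x < ks k a b a ↔ k x < k y) ∧ (ks k a b a < ks k a b y ↔ k x < k y))) := by
  rw [gn_xy hk hA hx hy hp, swL_xy hx hy]
  by_cases c2 : x ≠ b ∧ y ≠ b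
  · rw [if_pos c2, if_pos (iff_of_false c2.1 c2.2), ks_c hx c2.1, ks_c hy c2.2]
    exact .inr ⟨zero_add _, .inl ⟨rfl, Iff.rfl⟩⟩
  have c3 : ¬ (x = b ↔ y = b) := fun h => by
    have : x = b ∧ y = b := by tauto
    exact (rd_cons.1 hp.rd).1 (this.1.trans this.2.symm)
  rw [if_neg c2, if_neg c3]
  by_cases c : ks k a b x < ks k a b a ↔ ks k a b a < ks k a b y
  · rw [if_pos c]
    exact .inr ⟨zero_add _, .inr ⟨rfl, d_xy hx hy c3 c, c.symm.trans (d_xy hx hy c3 c)⟩⟩
  · rw [if_neg c]
    exact .inl le_rfl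

/-- The first gap is `a, y`. -/
theorem gap_ay {l : List L} (hp : Pth S (a :: y :: l)) :
    2 + gn k a b (y :: l) ≤ gn k a b (a :: y :: l) ∨
      gn k a b (a :: y :: l) = gn k a b (y :: l) ∧ (ks k a b a < ks k a b y ↔ k a < k y) := by
  rw [gn_a hk hA hp]
  split_ifs with h
  · exact .inl le_rfl
  · exact .inr ⟨zero_add _, d_ay hk hA (hp.sub y (by simp)) (rd_cons.1 hp.rd).1.symm h⟩

/-- The last gap is `x, a`. -/
theorem gap_xa (hp : Pth S [x, a]) :
    2 ≤ gn k a b [x, a] ∨ gn k a b [x, a] = 0 ∧ (ks k a b x < ks k a b a ↔ k x < k a) := by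
  have hx := (rd_cons.1 hp.rd).1
  rw [gn_xa hk hA hx (hp.sub x (by simp))]
  split_ifs with h
  · exact .inl le_rfl
  · exact .inr ⟨rfl, d_xa hA (hp.sub x (by simp)) hx h⟩

omit hA in
theorem mono_cons {d : Bool} {l : List L} (h : x ≠ y) :
    Mono k d (x :: y :: l) ↔ (k x < k y ↔ d = true) ∧ Mono k d (y :: l) := by
  refine List.isChain_cons_cons.trans (and_congr_left fun _ => ?_)
  cases d
  · simp only [Bool.false_eq_true, if_false, iff_false, o_ca hk h.symm]
  · simp only [if_true, iff_true]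

omit hk hA

/-- The indicator of a change of direction. -/
noncomputable def J (d e : Prop) : ℕ := if (d ↔ e) then 0 else 1

theorem J_le (d e : Prop) : J d e ≤ 1 := by unfold J; split_ifs <;> simp

theorem J_self (d : Prop) : J d d = 0 := if_pos Iff.rfl

/-- The number of turns with a weight for the first direction. -/
noncomputable def T (k : L → κ) : (Prop → ℕ) → List L → ℕ
  | f, x :: y :: l => f (k x < k y) + T k (J (k x < k y)) (y :: l)
  | _, _ => 0

theorem T_J (l : List L) : T k (J (k x < k y)) (y :: l) = turns k (x :: y :: l) := by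
  induction l generalizing x y with
  | nil => simp [T, turns]
  | cons z l ih => rw [T, ih, turns, J]; congr

theorem T_zero (p : List L) : T k (fun _ => 0) p = turns k p := by
  rcases p with _ | ⟨x, _ | ⟨y, l⟩⟩
  · simp [T, turns]
  · simp [T, turns]
  · rw [T, T_J, zero_add]

theorem T_le (d e : Prop) (p : List L) : T k (J d) p ≤ T k (J e) p + 1 := by
  rcases p with _ | ⟨x, _ | ⟨y, l⟩⟩
  · simp [T]
  · simp [T]
  · have := J_le d (k x < k y)
    rw [T, T]
    omega

theorem T_tail (f : Prop → ℕ) (x y : L) (l : List L) :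
    ∃ e, T k (J e) (y :: l) ≤ T k f (x :: y :: l) := ⟨_, by rw [T]; exact Nat.le_add_left _ _⟩

include hk hA in
theorem T_swL {p : List L} (hp : Pth S p) (f : Prop → ℕ) (hf : ∀ e, f e ≤ 1) :
    (T k f p : ℝ) - 3 * gn k a b p ≤ T (ks k a b) f (swL a b p) := by
  have big : ∀ {u v g g' : ℝ} {n n' m m' : ℕ}, u - 3 * g' ≤ n → 2 + g' ≤ g → v ≤ u + 2 →
      n ≤ n' + 1 → n' ≤ m → m ≤ m' → v - 3 * g ≤ m' := by
    intro u v g g' n n' m m' h1 h2 h3 h4 h5 h6
    have : (n : ℝ) ≤ m' + 1 := by exact_mod_cast (by omega : n ≤ m' + 1)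
    linarith
  induction p using gap_ind (a := a) generalizing f with
  | h0 => exact absurd rfl hp.ne
  | h1 x => simp [T, swL_one, gn_one]
  | h2 y l ih =>
    have i := ih (pth_tail hp) (J (k a < k y)) (J_le _)
    obtain ⟨t, ht⟩ := swL_cons a b y l
    rw [swL_a]
    rw [ht] at i ⊢
    rcases gap_ay hk hA hp with h | ⟨h, e⟩
    · obtain ⟨e, he⟩ := T_tail (k := ks k a b) f a y t
      refine big i h ?_ (T_le _ e _) he le_rfl
      have := hf (k a < k y)
      rw [T]
      exact_mod_cast (by omega)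
    · rw [h, T, T, propext e]
      push_cast
      linarith
  | h3 x hx =>
    rw [swL_xa]
    rcases gap_xa hk hA hp with h | ⟨h, e⟩
    · have h1 : (T k f [x, a] : ℝ) ≤ 1 := by
        have := hf (k x < k a)
        simp only [T]
        exact_mod_cast (by omega)
      have h2 : (0 : ℝ) ≤ T (ks k a b) f [x, a] := Nat.cast_nonneg _
      linarith
    · simp only [h, T, propext e]
      simp
  | h4 x z l hx ih =>
    have i := ih (pth_tail (pth_tail hp)) (J (k a < k z)) (J_le _)
    obtain ⟨t, ht⟩ := swL_cons a b z l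
    rcases gap_xaz hk hA hp with h | ⟨h, ⟨e, e1, e2⟩ | ⟨e, e1, e2⟩⟩
    · have h3 : (T k f (x :: a :: z :: l) : ℝ) ≤ T k (J (k a < k z)) (z :: l) + 2 := by
        have := hf (k x < k a)
        have := J_le (k x < k a) (k a < k z)
        rw [T, T]
        exact_mod_cast (by omega)
      rw [swL_xaz hx]
      rw [ht] at i ⊢
      split_ifs
      · obtain ⟨e, he⟩ := T_tail (k := ks k a b) f x a (z :: t)
        obtain ⟨e', he'⟩ := T_tail (k := ks k a b) (J e) a z t
        exact big i h h3 (T_le _ e' _) he' he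
      · obtain ⟨e, he⟩ := T_tail (k := ks k a b) f x z t
        exact big i h h3 (T_le _ e _) he le_rfl
    · rw [e]
      rw [ht] at i ⊢
      rw [h, T, T, T, T, propext e1, propext e2]
      push_cast
      linarith
    · rw [e]
      rw [ht] at i ⊢
      rw [h, T, T, T, propext e1, propext e2, J_self]
      push_cast
      linarith
  | h5 x y l hx hy ih =>
    have i := ih (pth_tail hp) (J (k x < k y)) (J_le _)
    obtain ⟨t, ht⟩ := swL_cons a b y l
    rcases gap_xy hk hA hx hy hp with h | ⟨h, ⟨e, e1⟩ | ⟨e, e1, e2⟩⟩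
    · have h3 : (T k f (x :: y :: l) : ℝ) ≤ T k (J (k x < k y)) (y :: l) + 2 := by
        have := hf (k x < k y)
        rw [T]
        exact_mod_cast (by omega)
      rw [swL_xy hx hy]
      rw [ht] at i ⊢
      split_ifs
      · obtain ⟨e, he⟩ := T_tail (k := ks k a b) f x y t
        exact big i h h3 (T_le _ e _) he le_rfl
      · obtain ⟨e, he⟩ := T_tail (k := ks k a b) f x a (y :: t)
        obtain ⟨e', he'⟩ := T_tail (k := ks k a b) (J e) a y t
        exact big i h h3 (T_le _ e' _) he' he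
    · rw [e]
      rw [ht] at i ⊢
      rw [h, T, T, propext e1]
      push_cast
      linarith
    · rw [e]
      rw [ht] at i ⊢
      rw [h, T, T, T, propext e1, propext e2, J_self]
      push_cast
      linarith

end LsGain

section
variable {S : Set L} {k : L → κ} {a b : L} (hk : Function.Injective k) (hA : Adjc S k a b)
include hk hA

theorem gain_eq {p : List L} (hp : Pth S p) (ρ : L → ℝ) :
    lin (ks k a b) ρ (swL a b p) = lin k ρ p + gn k a b p * (ρ (fw k a b) - ρ (bw k a b)) := by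
  obtain ⟨N, -, h⟩ := exists_Gn hk hA hp
  rw [h.eq hA.ne, h]

theorem gn_cases {p : List L} (hp : Pth S p) : gn k a b p = 0 ∨ 2 ≤ gn k a b p := by
  obtain ⟨N, h1, h⟩ := exists_Gn hk hA hp
  rwa [h.eq hA.ne]

theorem gn_reverse {p : List L} (hp : Pth S p) : gn k a b p.reverse = gn k a b p := by
  rw [gn, gn, swL_reverse hA.ne hp.rd, lin_reverse hk _ hp.rd,
    lin_reverse (ks_inj hk a b) _ (swL_pth hA.ha hA.ne hp).rd]

theorem gn_mono {p : List L} (hp : Pth S p) {d : Bool} (hm : Mono k d p) (h0 : gn k a b p = 0) :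
    Mono (ks k a b) d (swL a b p) := by
  have hk' := ks_inj hk a b
  have rd := (swL_pth hA.ha hA.ne hp).rd
  induction p using gap_ind (a := a) with
  | h0 => exact absurd rfl hp.ne
  | h1 x => rw [swL_one]; exact List.isChain_singleton x
  | h2 y l ih =>
    have n := gn_nonneg hk hA (pth_tail hp)
    obtain ⟨m1, m2⟩ := (mono_cons hk (rd_cons.1 hp.rd).1).1 hm
    obtain ⟨t, ht⟩ := swL_cons a b y l
    rcases gap_ay hk hA hp with h | ⟨h, e⟩
    · linarith
    have i := ih (pth_tail hp) m2 (h ▸ h0) (swL_pth hA.ha hA.ne (pth_tail hp)).rd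
    rw [swL_a]
    rw [ht] at i ⊢
    exact (mono_cons hk' (rd_cons.1 hp.rd).1).2 ⟨e.trans m1, i⟩
  | h3 x hx =>
    rcases gap_xa hk hA hp with h | ⟨h, e⟩
    · linarith
    rw [swL_xa]
    exact (mono_cons hk' hx).2 ⟨e.trans ((mono_cons hk hx).1 hm).1, List.isChain_singleton a⟩
  | h4 x z l hx ih =>
    have hp2 := pth_tail (pth_tail hp)
    have hz := (rd_cons.1 (pth_tail hp).rd).1
    have n := gn_nonneg hk hA hp2
    obtain ⟨m1, m2⟩ := (mono_cons hk hx).1 hm
    obtain ⟨m2, m3⟩ := (mono_cons hk hz).1 m2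
    obtain ⟨t, ht⟩ := swL_cons a b z l
    rcases gap_xaz hk hA hp with h | ⟨h, e⟩
    · linarith
    have i := ih hp2 m3 (h ▸ h0) (swL_pth hA.ha hA.ne hp2).rd
    rcases e with ⟨e, e1, e2⟩ | ⟨e, e1, -⟩
    · rw [e]
      rw [ht] at i ⊢
      exact (mono_cons hk' hx).2 ⟨e1.trans m1, (mono_cons hk' hz).2 ⟨e2.trans m2, i⟩⟩
    · rw [e] at rd ⊢
      rw [ht] at i rd ⊢
      exact (mono_cons hk' (rd_cons.1 rd).1).2 ⟨e1.trans m1, i⟩
  | h5 x y l hx hy ih =>
    have n := gn_nonneg hk hA (pth_tail hp)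
    obtain ⟨m1, m2⟩ := (mono_cons hk (rd_cons.1 hp.rd).1).1 hm
    obtain ⟨t, ht⟩ := swL_cons a b y l
    rcases gap_xy hk hA hx hy hp with h | ⟨h, e⟩
    · linarith
    have i := ih (pth_tail hp) m2 (h ▸ h0) (swL_pth hA.ha hA.ne (pth_tail hp)).rd
    rcases e with ⟨e, e1⟩ | ⟨e, e1, e2⟩
    · rw [e]
      rw [ht] at i ⊢
      exact (mono_cons hk' (rd_cons.1 hp.rd).1).2 ⟨e1.trans m1, i⟩
    · rw [e]
      rw [ht] at i ⊢
      exact (mono_cons hk' hx).2 ⟨e1.trans m1, (mono_cons hk' hy.symm).2 ⟨e2.trans m1, i⟩⟩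

/-- A path of gain zero does not start with `a, b`. -/
theorem gn_start {B : List L} (hp : Pth S (a :: b :: B)) : 2 ≤ gn k a b (a :: b :: B) := by
  have n := gn_nonneg hk hA (pth_tail hp)
  rw [gn_a hk hA hp, if_pos rfl]
  linarith

/-- The first direction is kept if an initial piece has gain zero. -/
theorem gn_dir {x y : L} {A B : List L} (hp : Pth S (x :: y :: A ++ B))
    (h0 : gn k a b (x :: y :: A) = 0) :
    ∃ y' C, swL a b (x :: y :: A ++ B) = x :: y' :: C ∧
      (ks k a b x < ks k a b y' ↔ k x < k y) := by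
  have hq : Pth S (x :: y :: A) := ⟨(List.isChain_append.1 hp.rd).1, List.cons_ne_nil _ _,
    fun w hw => hp.sub w (List.mem_append_left _ hw)⟩
  have n := gn_nonneg hk hA (pth_tail hq)
  simp only [List.cons_append] at hp ⊢
  obtain ⟨t, ht⟩ := swL_cons a b y (A ++ B)
  by_cases hx : x = a
  · subst hx
    rcases gap_ay hk hA hq with h | ⟨-, e⟩
    · linarith
    exact ⟨y, t, by rw [swL_a, ht], e⟩
  by_cases hy : y = a
  · subst hy
    have nb : x ≠ b → ∃ y' C, swL y b (x :: y :: (A ++ B)) = x :: y' :: C ∧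
        (ks k y b x < ks k y b y' ↔ k x < k y) := fun h => by
      have e := d_xa hA (hp.sub x (by simp)) hx h
      generalize A ++ B = C
      rcases C with _ | ⟨z, C⟩
      · exact ⟨y, [], swL_xa, e⟩
      rw [swL_xaz hx]
      split_ifs with c
      · exact ⟨y, _, rfl, e⟩
      · have e' : z = b := by tauto
        obtain ⟨t, ht⟩ := swL_cons y b z C
        exact ⟨z, t, by rw [ht], by rw [e', ks_b, ks_c hx h]⟩
    by_cases h : x = b
    swap
    · exact nb h
    rcases A with _ | ⟨z, A⟩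
    · rw [gn_xa hk hA hx (hp.sub x (by simp)), if_pos h] at h0
      norm_num at h0
    have n := gn_nonneg hk hA (pth_tail (pth_tail hq))
    have hz := (rd_cons.1 (pth_tail hq).rd).1.symm
    rw [gn_xaz hk hA hq] at h0
    have c : ¬ (x = b ∧ z = b) := fun c => by rw [if_pos c] at h0; linarith
    have c' : ¬ (x = b ↔ z = b) := by tauto
    rw [if_neg c, if_neg fun c => c.1 h] at h0
    obtain ⟨t, ht⟩ := swL_cons y b z (A ++ B)
    refine ⟨z, t, by rw [List.cons_append, swL_xaz hx, if_neg c', ht], d_xaz hx hz c' ?_⟩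
    by_contra c''
    rw [if_neg c''] at h0
    linarith
  · rw [swL_xy hx hy]
    rcases gap_xy hk hA hx hy hq with h | ⟨-, ⟨e, e1⟩ | ⟨e, e1, -⟩⟩
    · linarith
    · split_ifs with c
      · exact ⟨y, t, by rw [ht], e1⟩
      · obtain ⟨t, ht⟩ := swL_cons a b y A
        rw [swL_xy hx hy, if_neg c, ht] at e
        exact (hy (List.cons.inj (List.cons.inj e).2).1.symm).elim
    · split_ifs with c
      · obtain ⟨t, ht⟩ := swL_cons a b y A
        rw [swL_xy hx hy, if_pos c, ht] at e
        exact (hy (List.cons.inj (List.cons.inj e).2).1).elim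
      · exact ⟨a, _, rfl, e1⟩

omit hk in
theorem gn_glue_LsGain {A B : List L} {x y z : L} (hp : Pth S (A ++ x :: y :: z :: B))
    (h : y ≠ a ∨ (x = b ↔ z = b)) :
    gn k a b (A ++ x :: y :: z :: B) = gn k a b (A ++ [x, y]) + gn k a b (y :: z :: B) := by
  have h1 := swL_last a b (A ++ [x, y])
  have e : A ++ [x, y] = (A ++ [x]) ++ [y] := by simp
  rw [e, List.getLast?_concat, ← e] at h1
  obtain ⟨A', hA'⟩ := List.getLast?_eq_some_iff.1 h1
  have e2 := lin_cut k (fun x => if x = fw k a b then 1 else 0) (A ++ [x]) y (z :: B)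
  rw [← e, List.append_assoc, List.singleton_append] at e2
  rw [gn, gn, gn, swL_glue hA.ne hp.rd h, hA', List.append_assoc, List.singleton_append, lin_cut,
    swL_tail, e2]
  ring

/-- The gain is additive when cutting at a turn. -/
theorem gn_turn {A B : List L} {x y z : L} (hp : Pth S (A ++ x :: y :: z :: B))
    (h : ¬ (k x < k y ↔ k y < k z)) :
    gn k a b (A ++ x :: y :: z :: B) = gn k a b (A ++ [x, y]) + gn k a b (y :: z :: B) := by
  by_cases c0 : y ≠ a ∨ (x = b ↔ z = b)
  · exact gn_glue_LsGain hA hp c0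
  obtain ⟨hy, c⟩ := not_or.1 c0
  clear c0
  rw [not_not] at hy
  subst hy
  have hq : Pth S (x :: y :: z :: B) := ⟨(List.isChain_append.1 hp.rd).2.1, List.cons_ne_nil _ _,
    fun w hw => hp.sub w (List.mem_append_right _ hw)⟩
  have hx := (rd_cons.1 hq.rd).1
  rw [gn_cut hx, gn_cut hx A [y], gn_xaz hk hA hq, gn_a hk hA (pth_tail hq),
    gn_xa hk hA hx (hq.sub x (by simp)), if_neg h, if_neg (by tauto), if_neg (by tauto)]
  by_cases e : x = b
  · rw [if_pos e, if_neg fun e' => c (iff_of_true e e')]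
    ring
  · rw [if_neg e, if_pos (by tauto)]
    ring

/-- The gain is additive when cutting at a letter that survives. -/
theorem gn_glue {A B : List L} {x y z : L} (hp : Pth S (A ++ x :: y :: z :: B))
    (h : y ≠ a ∨ (x = b ↔ z = b)) :
    gn k a b (A ++ x :: y :: z :: B) = gn k a b (A ++ [x, y]) + gn k a b (y :: z :: B) :=
  (fun _ => gn_glue_LsGain hA hp h) hk

theorem turns_swL {p : List L} (hp : Pth S p) :
    (turns k p : ℝ) - 3 * gn k a b p ≤ turns (ks k a b) (swL a b p) := by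
  have := T_swL hk hA hp (fun _ => 0) fun _ => Nat.zero_le _
  rwa [T_zero, T_zero] at this

/-- In a path monotone before and after, an interior `b` forces an `a`. -/
theorem mono_imp {p : List L} (hp : Pth S p) {d : Bool} (hm : Mono k d p)
    (hm' : Mono (ks k a b) d (swL a b p)) (h1 : p.head? ≠ some b) (h2 : p.getLast? ≠ some b)
    (hb : b ∈ p) : a ∈ p := by
  by_contra ha
  obtain ⟨A, B, rfl⟩ := List.append_of_mem hb
  rcases B with _ | ⟨z, B⟩
  · exact h2 List.getLast?_concat
  rcases List.eq_nil_or_concat' A with rfl | ⟨A, x, rfl⟩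
  · exact h1 rfl
  have hx : x ≠ a := fun e => ha (by simp [e])
  have hz : z ≠ a := fun e => ha (by simp [e])
  rw [List.append_assoc, List.singleton_append] at hp hm'
  have r := rd_cons.1 (List.isChain_append.1 hp.rd).2.1
  have r' := (rd_cons.1 r.2).1
  rw [swL_cut hx, swL_xy hx hA.ne.symm, if_neg (by simp [r.1]), swL_xy hA.ne.symm hz,
    if_neg (by simp [r'.symm]), List.tail_cons] at hm'
  have m := (List.isChain_append.1 hm').2.1
  have hk' := ks_inj hk a b
  obtain ⟨m1, m2⟩ := (mono_cons hk' hA.ne).1 m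
  have m3 := ((mono_cons hk' hA.ne.symm).1 m2).1
  rw [o_ca hk' hA.ne.symm, m1] at m3
  tauto

end

end Pool.Agent.E5f

end

section

set_option autoImplicit false

namespace Pool.Agent.E5f

open Classical

variable {L κ : Type} [LinearOrder κ]

theorem act_append (c c' : List (L × L)) (p : List L) : act (c ++ c') p = act c' (act c p) := by
  induction c generalizing p with
  | nil => rfl
  | cons e c ih => exact ih _

theorem kend_append (k : L → κ) (c c' : List (L × L)) :
    kend k (c ++ c') = kend (kend k c) c' := by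
  induction c generalizing k with
  | nil => rfl
  | cons e c ih => exact ih _

theorem act_head (c : List (L × L)) (p : List L) : (act c p).head? = p.head? := by
  induction c generalizing p with
  | nil => rfl
  | cons e c ih => exact (ih _).trans (swL_head _ _ p)

theorem act_last (c : List (L × L)) (p : List L) : (act c p).getLast? = p.getLast? := by
  induction c generalizing p with
  | nil => rfl
  | cons e c ih => exact (ih _).trans (swL_last _ _ p)

theorem act_two (c : List (L × L)) {p : List L} (h : 2 ≤ p.length) : 2 ≤ (act c p).length := by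
  induction c generalizing p with
  | nil => exact h
  | cons e c ih => exact ih (swL_two _ _ h)

theorem flip_LsChain {k : L → κ} (hk : Function.Injective k) {x y : L} (h : x ≠ y) :
    k y < k x ↔ ¬ k x < k y :=
  ⟨fun h1 => lt_asymm h1, fun h1 => lt_of_le_of_ne (not_lt.1 h1) fun e => h (hk e).symm⟩

theorem ks_ne_LsChain {S : Set L} {k : L → κ} {a b : L} (hk : Function.Injective k)
    (hA : Adjc S k a b) {x y : L} (hx : x ∈ S) (hy : y ∈ S) (h1 : (x, y) ≠ (a, b))
    (h2 : (y, x) ≠ (a, b)) : ks k a b x < ks k a b y ↔ k x < k y := by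
  have up : ∀ c ∈ S, c ≠ a → c ≠ b → (k a < k c ↔ k b < k c) := fun c hc ha hb => by
    rw [flip_LsChain hk ha, flip_LsChain hk hb, hA.adj c hc ha hb]
  simp only [ks, Function.comp_apply]
  by_cases xa : x = a
  · subst xa
    by_cases ya : y = x
    · subst ya
      simp
    have yb : y ≠ b := fun e => h1 (by rw [e])
    rw [Equiv.swap_apply_left, Equiv.swap_apply_of_ne_of_ne ya yb, up y hy ya yb]
  by_cases xb : x = b
  · subst xb
    by_cases yb : y = x
    · subst yb
      simp
    have ya : y ≠ a := fun e => h2 (by rw [e])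
    rw [Equiv.swap_apply_right, Equiv.swap_apply_of_ne_of_ne ya yb, up y hy ya yb]
  rw [Equiv.swap_apply_of_ne_of_ne xa xb]
  by_cases ya : y = a
  · subst ya
    rw [Equiv.swap_apply_left, hA.adj x hx xa xb]
  by_cases yb : y = b
  · subst yb
    rw [Equiv.swap_apply_right, hA.adj x hx xa xb]
  rw [Equiv.swap_apply_of_ne_of_ne ya yb]

theorem ks_eq_LsChain (k : L → κ) {a b x y : L} (h : (x, y) = (a, b) ∨ (y, x) = (a, b)) :
    ks k a b x < ks k a b y ↔ k y < k x := by
  simp only [ks, Function.comp_apply]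
  rcases h with h | h <;> obtain ⟨rfl, rfl⟩ := Prod.ext_iff.1 h <;>
    rw [Equiv.swap_apply_left, Equiv.swap_apply_right]

theorem chn_append_LsChain {S : Set L} {k0 k1 : L → κ} (k : L → κ) (c c' : List (L × L)) :
    Chn S k0 k1 k (c ++ c') ↔ Chn S k0 k1 k c ∧ Chn S k0 k1 (kend k c) c' := by
  induction c generalizing k with
  | nil => simp [Chn, kend]
  | cons e c ih =>
    simp only [List.cons_append, Chn, kend, ih, and_assoc]

theorem chn_mem_LsChain {S : Set L} {k0 k1 k : L → κ} {c : List (L × L)} (h : Chn S k0 k1 k c)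
    {e : L × L} (he : e ∈ c) : e.1 ∈ S ∧ e.2 ∈ S ∧ e.1 ≠ e.2 := by
  induction c generalizing k with
  | nil => simp at he
  | cons e' c ih =>
    rcases List.mem_cons.1 he with rfl | he
    · exact ⟨h.1.ha, h.1.hb, h.1.ne⟩
    · exact ih h.2.2.2 he

theorem chn_stage_LsChain {S : Set L} {k0 k1 k : L → κ} (h0 : Function.Injective k0)
    (h1 : Function.Injective k1) (hk : Function.Injective k) {c : List (L × L)}
    (h : Chn S k0 k1 k c) {x y : L} (hx : x ∈ S) (hy : y ∈ S) (hne : x ≠ y) :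
    ((x, y) ∈ c ∨ (y, x) ∈ c → (k x < k y ↔ k0 x < k0 y) ∧ (k x < k y ↔ k1 y < k1 x) ∧
      (kend k c x < kend k c y ↔ k y < k x) ∧ ¬ ((x, y) ∈ c ∧ (y, x) ∈ c)) ∧
    (¬ ((x, y) ∈ c ∨ (y, x) ∈ c) → (kend k c x < kend k c y ↔ k x < k y)) := by
  induction c generalizing k with
  | nil => simp [kend]
  | cons e c ih =>
    obtain ⟨a, b⟩ := e
    obtain ⟨hA, e0, e1, hc⟩ := h
    obtain ⟨i1, i2⟩ := ih (ks_inj hk a b) hc
    have f := flip_LsChain hk hne
    have f0 := flip_LsChain h0 hne
    have f1 := flip_LsChain h1 hne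
    simp only [List.mem_cons, kend]
    by_cases he : (x, y) = (a, b) ∨ (y, x) = (a, b)
    · have e2 := ks_eq_LsChain k he
      have e3 : (k x < k y ↔ k0 x < k0 y) ∧ (k x < k y ↔ k1 y < k1 x) := by
        rcases he with he | he <;> obtain ⟨rfl, rfl⟩ := Prod.ext_iff.1 he
        · exact ⟨e0, e1⟩
        · simp only at e0 e1
          rw [f, f0, not_iff_not] at e0
          rw [f, not_iff_comm, ← f1] at e1
          exact ⟨e0, e1.symm⟩
      have e4 : ¬ ((x, y) ∈ c ∨ (y, x) ∈ c) := fun h => by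
        have h2 := (i1 h).1
        rw [e2, f, ← e3.1] at h2
        exact not_iff_self h2
      have e5 : ¬ ((x, y) = (a, b) ∧ (y, x) = (a, b)) := fun h =>
        hne (congrArg Prod.fst (h.1.trans h.2.symm))
      refine ⟨fun _ => ⟨e3.1, e3.2, (i2 e4).trans e2, ?_⟩, fun h => (h (he.imp .inl .inl)).elim⟩
      rintro ⟨h2 | h2, h3 | h3⟩
      exacts [e5 ⟨h2, h3⟩, e4 (.inr h3), e4 (.inl h2), e4 (.inl h2)]
    · have e2 := ks_ne_LsChain hk hA hx hy (fun h => he (Or.inl h)) fun h => he (Or.inr h)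
      have e3 := ks_ne_LsChain hk hA hy hx (fun h => he (Or.inr h)) fun h => he (Or.inl h)
      simp only at e2 e3
      rw [e2, e3] at i1
      rw [e2] at i2
      rw [not_or] at he
      simp only [he.1, he.2, false_or]
      exact ⟨i1, i2⟩

theorem adj_ex_LsChain (S : Finset L) {k k1 : L → κ} (hk : Function.Injective k)
    (h1 : Function.Injective k1) (h : ∃ y ∈ S, ∃ x ∈ S, k x < k y ∧ k1 y < k1 x) :
    ∃ x y, Adjc (S : Set L) k x y ∧ k x < k y ∧ k1 y < k1 x := by
  obtain ⟨y, hy, hmin⟩ := (S.filter fun y => ∃ x ∈ S, k x < k y ∧ k1 y < k1 x).exists_min_image k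
    (by simpa only [Finset.filter_nonempty_iff] using h)
  obtain ⟨hyS, hy⟩ := Finset.mem_filter.1 hy
  obtain ⟨x, hx, hmax⟩ := (S.filter fun x => k x < k y ∧ k1 y < k1 x).exists_max_image k
    (by simpa only [Finset.filter_nonempty_iff] using hy)
  obtain ⟨hxS, hx1, hx2⟩ := Finset.mem_filter.1 hx
  refine ⟨x, y, ⟨hxS, hyS, fun e => hx1.ne (by rw [e]), fun c hc cx _ =>
    ⟨fun h => h.trans hx1, fun h => ?_⟩⟩, hx1, hx2⟩
  by_contra h2
  rw [← flip_LsChain hk cx] at h2
  by_cases h3 : k1 c < k1 x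
  · exact absurd (hmin c (Finset.mem_filter.2 ⟨hc, x, hxS, h2, h3⟩)) (not_le.2 h)
  · rw [← flip_LsChain h1 cx] at h3
    exact absurd (hmax c (Finset.mem_filter.2 ⟨hc, h, hx2.trans h3⟩)) (not_le.2 h2)

theorem sort_LsChain (S : Finset L) {k0 k1 : L → κ} (h0 : Function.Injective k0)
    (h1 : Function.Injective k1) (up : L → L → Prop) (n : ℕ) :
    ∀ k : L → κ, Function.Injective k →
      ((S ×ˢ S).filter fun e => k e.1 < k e.2 ∧ k1 e.2 < k1 e.1).card = n →
      (∀ x ∈ S, ∀ y ∈ S, k0 x < k0 y → k1 x < k1 y → k x < k y) →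
      ∃ c, Chn (S : Set L) k0 k1 k c ∧
        (∀ x ∈ S, ∀ y ∈ S, (kend k c x < kend k c y ↔ k1 x < k1 y)) ∧
        ∀ e ∈ c, up e.1 e.2 ∨ ¬ up e.2 e.1 := by
  induction n using Nat.strong_induction_on with
  | _ n ih =>
  intro k hk hn hI
  by_cases h : ∃ y ∈ S, ∃ x ∈ S, k x < k y ∧ k1 y < k1 x
  swap
  · refine ⟨[], trivial, fun x hx y hy => ?_, by simp⟩
    change k x < k y ↔ _
    by_cases e : x = y
    · simp [e]
    constructor
    · intro h2
      by_contra h3
      exact h ⟨y, hy, x, hx, h2, (flip_LsChain h1 e).2 h3⟩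
    · intro h2
      by_contra h3
      exact h ⟨x, hx, y, hy, (flip_LsChain hk e).2 h3, h2⟩
  obtain ⟨a, b, hA, a1, a2⟩ := adj_ex_LsChain S hk h1 h
  have a0 : k0 a < k0 b := by
    by_contra h2
    exact lt_asymm a1 (hI b hA.hb a hA.ha ((flip_LsChain h0 hA.ne).2 h2) a2)
  have b1 : ¬ ks k a b a < ks k a b b := by
    rw [ks_eq_LsChain k (Or.inl rfl)]
    exact lt_asymm a1
  obtain ⟨c, c1, c2, c3⟩ := ih _ (by
      rw [← hn]
      refine Finset.card_lt_card ⟨fun e he => ?_, fun hs => ?_⟩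
      · obtain ⟨e1, e2, e3⟩ := Finset.mem_filter.1 he
        obtain ⟨e4, e5⟩ := Finset.mem_product.1 e1
        refine Finset.mem_filter.2 ⟨e1, (ks_ne_LsChain hk hA e4 e5 (fun h => ?_) fun h => ?_).1 e2,
          e3⟩ <;> obtain ⟨h2, h3⟩ := Prod.ext_iff.1 h <;> simp only at h2 h3
        · rw [h2, h3] at e2
          exact b1 e2
        · rw [h2, h3] at e3
          exact lt_asymm a2 e3
      · exact b1 (Finset.mem_filter.1 (hs (x := (a, b)) (Finset.mem_filter.2
          ⟨Finset.mem_product.2 ⟨hA.ha, hA.hb⟩, a1, a2⟩))).2.1)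
    (ks k a b) (ks_inj hk a b) rfl fun x hx y hy x0 x1 => by
      refine (ks_ne_LsChain hk hA hx hy (fun h => ?_) fun h => ?_).2 (hI x hx y hy x0 x1) <;>
        obtain ⟨rfl, rfl⟩ := Prod.ext_iff.1 h
      · exact lt_asymm a2 x1
      · exact lt_asymm a0 x0
  by_cases hu : up a b
  · refine ⟨(a, b) :: c, ⟨hA, iff_of_true a1 a0, iff_of_true a1 a2, c1⟩, c2, fun e he => ?_⟩
    rcases List.mem_cons.1 he with rfl | he
    · exact Or.inl hu
    · exact c3 e he
  · have e0 : ks k a b = ks k b a := by rw [ks, ks, Equiv.swap_comm]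
    rw [e0] at c1 c2
    refine ⟨(b, a) :: c, ⟨⟨hA.hb, hA.ha, hA.ne.symm, fun z hz zb za => (hA.adj z hz za zb).symm⟩,
      iff_of_false (lt_asymm a1) (lt_asymm a0), iff_of_false (lt_asymm a1) (lt_asymm a2), c1⟩, c2,
      fun e he => ?_⟩
    rcases List.mem_cons.1 he with rfl | he
    · exact Or.inr hu
    · exact c3 e he

theorem chn_left_LsChain {S : Set L} {k0 k1 k2 k : L → κ} (h0 : Function.Injective k0)
    (h1 : Function.Injective k1)
    (hm : ∀ x ∈ S, ∀ y ∈ S, k0 x < k0 y → k1 y < k1 x → k2 y < k2 x) {c : List (L × L)}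
    (h : Chn S k0 k1 k c) : Chn S k0 k2 k c := by
  induction c generalizing k with
  | nil => trivial
  | cons e c ih =>
    obtain ⟨hA, e0, e1, hc⟩ := h
    refine ⟨hA, e0, ⟨fun h => hm _ hA.ha _ hA.hb (e0.1 h) (e1.1 h), fun h => ?_⟩, ih hc⟩
    by_contra h2
    exact lt_asymm h (hm _ hA.hb _ hA.ha ((flip_LsChain h0 hA.ne).2 fun h3 => h2 (e0.2 h3))
      ((flip_LsChain h1 hA.ne.symm).2 fun h3 => h2 (e1.2 h3)))

theorem chn_right_LsChain {S : Set L} {k0 k1 k2 k k' : L → κ} (h0 : Function.Injective k0)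
    (h1 : Function.Injective k1)
    (hm : ∀ x ∈ S, ∀ y ∈ S, k0 x < k0 y → k1 y < k1 x → k2 y < k2 x) {c : List (L × L)}
    (h : Chn S k1 k2 k' c) (hs : ∀ x ∈ S, ∀ y ∈ S, (k x < k y ↔ k' x < k' y)) :
    Chn S k0 k2 k c ∧ ∀ x ∈ S, ∀ y ∈ S, (kend k c x < kend k c y ↔ kend k' c x < kend k' c y) := by
  induction c generalizing k k' with
  | nil => exact ⟨trivial, hs⟩
  | cons e c ih =>
    obtain ⟨hA, e0, e1, hc⟩ := h
    have hw : ∀ x ∈ S, Equiv.swap e.1 e.2 x ∈ S := fun x hx => by
      rw [Equiv.swap_apply_def]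
      split_ifs
      exacts [hA.hb, hA.ha, hx]
    obtain ⟨i1, i2⟩ := ih (k := ks k e.1 e.2) hc fun x hx y hy => hs _ (hw x hx) _ (hw y hy)
    rw [← hs _ hA.ha _ hA.hb] at e0 e1
    refine ⟨⟨⟨hA.ha, hA.hb, hA.ne, fun z hz za zb => ?_⟩, ⟨fun h => ?_, fun h => ?_⟩, e1, i1⟩, i2⟩
    · rw [hs _ hz _ hA.ha, hs _ hz _ hA.hb]
      exact hA.adj z hz za zb
    · by_contra h2
      exact lt_asymm (e1.1 h) (hm _ hA.hb _ hA.ha ((flip_LsChain h0 hA.ne).2 h2) (e0.1 h))
    · by_contra h2
      exact h2 (e1.2 (hm _ hA.ha _ hA.hb h ((flip_LsChain h1 hA.ne).2 fun h3 => h2 (e0.2 h3))))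

theorem chn_pth_LsChain {S : Set L} {k0 k1 k : L → κ} {c : List (L × L)} (h : Chn S k0 k1 k c)
    {p : List L} (hp : Pth S p) : Pth S (act c p) := by
  induction c generalizing k p with
  | nil => exact hp
  | cons e c ih => exact ih h.2.2.2 (swL_pth h.1.ha h.1.ne hp)

theorem gn_nonneg_LsChain {S : Set L} {k : L → κ} {a b : L} (hk : Function.Injective k)
    (hA : Adjc S k a b) {p : List L} (hp : Pth S p) : 0 ≤ gn k a b p := by
  rcases gn_cases hk hA hp with h | h <;> linarith

theorem chn_gains_LsChain {S : Set L} {k0 k1 k : L → κ} (hk : Function.Injective k)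
    {c : List (L × L)} (h : Chn S k0 k1 k c) {p : List L} (hp : Pth S p) : 0 ≤ gains k c p := by
  induction c generalizing k p with
  | nil => exact le_rfl
  | cons e c ih =>
    exact add_nonneg (gn_nonneg_LsChain hk h.1 hp)
      (ih (ks_inj hk _ _) h.2.2.2 (swL_pth h.1.ha h.1.ne hp))

theorem chn_lin_LsChain {S : Set L} {k0 k1 k : L → κ} (h0 : Function.Injective k0)
    (h1 : Function.Injective k1) (hk : Function.Injective k) {c : List (L × L)}
    (h : Chn S k0 k1 k c) {p : List L} (hp : Pth S p) {ρ : L → ℝ} {δ : ℝ}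
    (hρ : ∀ x ∈ S, ∀ y ∈ S, k0 x < k0 y → k1 y < k1 x → δ ≤ ρ x - ρ y) :
    lin k ρ p + δ * gains k c p ≤ lin (kend k c) ρ (act c p) := by
  induction c generalizing k p with
  | nil => simp [gains, kend, act]
  | cons e c ih =>
    obtain ⟨hA, e0, e1, hc⟩ := h
    have i1 := ih (ks_inj hk _ _) hc (swL_pth hA.ha hA.ne hp)
    have i2 : δ ≤ ρ (fw k e.1 e.2) - ρ (bw k e.1 e.2) := by
      unfold fw bw
      split_ifs with h2
      · exact hρ _ hA.ha _ hA.hb (e0.1 h2) (e1.1 h2)
      · exact hρ _ hA.hb _ hA.ha ((flip_LsChain h0 hA.ne).2 fun h3 => h2 (e0.2 h3))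
          ((flip_LsChain h1 hA.ne.symm).2 fun h3 => h2 (e1.2 h3))
    have i3 := mul_le_mul_of_nonneg_left i2 (gn_nonneg_LsChain hk hA hp)
    rw [gain_eq hk hA hp] at i1
    simp only [gains, kend, act]
    linarith

theorem chn_turns_LsChain {S : Set L} {k0 k1 k : L → κ} (hk : Function.Injective k)
    {c : List (L × L)} (h : Chn S k0 k1 k c) {p : List L} (hp : Pth S p) :
    (turns k p : ℝ) - 3 * gains k c p ≤ turns (kend k c) (act c p) := by
  induction c generalizing k p with
  | nil => simp [gains, kend, act]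
  | cons e c ih =>
    have i1 := ih (ks_inj hk _ _) h.2.2.2 (swL_pth h.1.ha h.1.ne hp)
    have i2 := turns_swL hk h.1 hp
    simp only [gains, kend, act]
    linarith

theorem chn_rev_LsChain {S : Set L} {k0 k1 k : L → κ} {c : List (L × L)} (h : Chn S k0 k1 k c)
    {p : List L} (hp : Pth S p) : act c p.reverse = (act c p).reverse := by
  induction c generalizing k p with
  | nil => rfl
  | cons e c ih =>
    simp only [act]
    rw [swL_reverse h.1.ne hp.rd]
    exact ih h.2.2.2 (swL_pth h.1.ha h.1.ne hp)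

/-- Bubble sort. -/
theorem fch_exists (S : Finset L) {k0 k1 : L → κ} (h0 : Function.Injective k0)
    (h1 : Function.Injective k1) (up : L → L → Prop) :
    ∃ c, FCh (S : Set L) k0 k1 c ∧ ∀ e ∈ c, up e.1 e.2 ∨ ¬ up e.2 e.1 := by
  obtain ⟨c, c1, c2, c3⟩ := sort_LsChain S h0 h1 up _ k0 h0 rfl fun _ _ _ _ h _ => h
  exact ⟨c, ⟨h0, h1, c1, c2⟩, c3⟩

/-- Concatenation of forward chains when no pair is inverted twice. -/
theorem fch_append {S : Set L} {k0 k1 k2 : L → κ} {c c' : List (L × L)} (h : FCh S k0 k1 c)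
    (h' : FCh S k1 k2 c')
    (hm : ∀ x ∈ S, ∀ y ∈ S, k0 x < k0 y → k1 y < k1 x → k2 y < k2 x) :
    FCh S k0 k2 (c ++ c') := by
  obtain ⟨i1, i2⟩ := chn_right_LsChain h.inj0 h.inj1 hm h'.chn h.fin
  refine ⟨h.inj0, h'.inj1, (chn_append_LsChain _ _ _).2
    ⟨chn_left_LsChain h.inj0 h.inj1 hm h.chn, i1⟩, fun x hx y hy => ?_⟩
  rw [kend_append, i2 x hx y hy, h'.fin x hx y hy]

section
variable {S : Set L} {k0 k1 : L → κ} {c : List (L × L)} (h : FCh S k0 k1 c)
include h

theorem fch_pth {p : List L} (hp : Pth S p) : Pth S (act c p) := chn_pth_LsChain h.chn hp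

theorem fch_mem {e : L × L} (he : e ∈ c) : e.1 ∈ S ∧ e.2 ∈ S ∧ e.1 ≠ e.2 ∧
    (k0 e.1 < k0 e.2 ↔ k1 e.2 < k1 e.1) := by
  obtain ⟨h1, h2, h3⟩ := chn_mem_LsChain h.chn he
  exact ⟨h1, h2, h3, ((chn_stage_LsChain h.inj0 h.inj1 h.inj0 h.chn h1 h2 h3).1 (Or.inl he)).2.1⟩

theorem fch_inv {x y : L} (hx : x ∈ S) (hy : y ∈ S) (h0 : k0 x < k0 y) (h1 : k1 y < k1 x) :
    ((x, y) ∈ c ∨ (y, x) ∈ c) ∧ ¬ ((x, y) ∈ c ∧ (y, x) ∈ c) := by
  obtain ⟨i1, i2⟩ := chn_stage_LsChain h.inj0 h.inj1 h.inj0 h.chn hx hy fun e => h0.ne (by rw [e])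
  have h2 : (x, y) ∈ c ∨ (y, x) ∈ c := by
    by_contra h3
    exact lt_asymm h1 ((h.fin x hx y hy).1 ((i2 h3).2 h0))
  exact ⟨h2, (i1 h2).2.2.2⟩

/-- The order at an intermediate stage. -/
theorem fch_stage {c1 c2 : List (L × L)} (hc : c = c1 ++ c2) {x y : L} (hx : x ∈ S) (hy : y ∈ S)
    (h0 : k0 x < k0 y) :
    (kend k0 c1 x < kend k0 c1 y ↔ ¬ ((x, y) ∈ c1 ∨ (y, x) ∈ c1)) := by
  obtain ⟨i1, i2⟩ := chn_stage_LsChain h.inj0 h.inj1 h.inj0
    ((chn_append_LsChain _ _ _).1 (hc ▸ h.chn)).1 hx hy fun e => h0.ne (by rw [e])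
  exact ⟨fun h1 h2 => lt_asymm h0 ((i1 h2).2.2.1.1 h1), fun h1 => (i2 h1).2 h0⟩

theorem gains_nonneg {p : List L} (hp : Pth S p) : 0 ≤ gains k0 c p :=
  chn_gains_LsChain h.inj0 h.chn hp

theorem fch_lin {p : List L} (hp : Pth S p) {ρ : L → ℝ} {δ : ℝ}
    (hρ : ∀ x ∈ S, ∀ y ∈ S, k0 x < k0 y → k1 y < k1 x → δ ≤ ρ x - ρ y) :
    lin k0 ρ p + δ * gains k0 c p ≤ lin k1 ρ (act c p) := by
  have hq := (fch_pth h hp).sub
  rw [← lin_congr ρ fun x hx y hy => h.fin x (hq x hx) y (hq y hy)]
  exact chn_lin_LsChain h.inj0 h.inj1 h.inj0 h.chn hp hρ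

theorem fch_turns {p : List L} (hp : Pth S p) :
    (turns k0 p : ℝ) - 3 * gains k0 c p ≤ turns k1 (act c p) := by
  have hq := (fch_pth h hp).sub
  rw [← turns_congr fun x hx y hy => h.fin x (hq x hx) y (hq y hy)]
  exact chn_turns_LsChain h.inj0 h.chn hp

theorem pers_reverse {q : List L} (hq : Pth S q) {d : Bool} (hp : Pers k0 d c q) :
    Pers k0 (!d) c q.reverse := by
  intro c1 c2 hc
  rw [chn_rev_LsChain ((chn_append_LsChain _ _ _).1 (hc ▸ h.chn)).1 hq, mono_reverse, Bool.not_not]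
  exact hp c1 c2 hc

end

end Pool.Agent.E5f

end

section

set_option autoImplicit false

namespace Pool.Agent.E5f

open Classical

variable {L κ : Type} [LinearOrder κ]

/-- The product of the generators along a list of labels. -/
def evlLink (w : List L) : W L C2 := ev (w.map (fun l => (l, c2)))

/-- The path of labels attached to a group element and two end labels. -/
noncomputable def dstLink (l m : L) (u : W L C2) : List L :=
  (l :: lab u ++ [m]).destutter (· ≠ ·)

theorem c2_cases_link : ∀ x : C2, x = 1 ∨ x = c2 := by decide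

theorem c2_ne_link : c2 ≠ 1 := by decide

theorem lt_sq_link (l : L) : (lt l c2 : W L C2) * lt l c2 = 1 := by
  rw [← lt_mul, show c2 * c2 = 1 by decide, lt_one]

theorem lt_inv_link (l : L) : (lt l c2 : W L C2)⁻¹ = lt l c2 :=
  inv_eq_of_mul_eq_one_right (lt_sq_link l)

theorem lt_sq_link' (l : L) (u : W L C2) : lt l c2 * (lt l c2 * u) = u := by
  rw [← mul_assoc, lt_sq_link, one_mul]

theorem evl_nil_link : evlLink ([] : List L) = 1 := rfl

theorem evl_cons_link (l : L) (w : List L) : evlLink (l :: w) = lt l c2 * evlLink w := by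
  simp [evlLink]

theorem evl_snoc_link (l : L) (w : List L) : evlLink (w ++ [l]) = evlLink w * lt l c2 := by
  simp [evlLink]

theorem lab_evl_link {w : List L} (h : Rd w) : lab (evlLink w) = w := by
  have h1 : Red (w.map (fun l => (l, c2))) := by
    refine ⟨?_, ?_⟩
    · intro e he
      obtain ⟨l, -, rfl⟩ := List.mem_map.1 he
      exact c2_ne_link
    · rw [List.isChain_map]
      exact h
  unfold lab evlLink
  rw [wd_ev h1, List.map_map]
  simp [Function.comp_def]

theorem rd_lab_link (u : W L C2) : Rd (lab u) := by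
  unfold Rd lab
  rw [List.isChain_map]
  exact (red_wd u).2

theorem evl_lab_link (u : W L C2) : evlLink (lab u) = u := by
  have h : (lab u).map (fun l => (l, c2)) = wd u := by
    unfold lab
    rw [List.map_map]
    conv_rhs => rw [← List.map_id (wd u)]
    apply List.map_congr_left
    intro e he
    have h1 := (red_wd u).1 e he
    have h2 : e.2 = c2 := (c2_cases_link e.2).resolve_left h1
    simp only [Function.comp, id]
    rw [← h2]
  unfold evlLink
  rw [h, ev_wd]

theorem dst_snoc_link (m : L) (w : List L) : ∀ a : L,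
    List.destutter' (· ≠ ·) a (w ++ [m] ++ [m]) = List.destutter' (· ≠ ·) a (w ++ [m]) := by
  induction w with
  | nil =>
    intro a
    by_cases h : a = m
    · subst h
      simp
    · simp [h]
  | cons b w ih =>
    intro a
    simp only [List.cons_append, List.destutter'_cons]
    rw [ih a, ih b]

theorem rd_cons_link {l : L} {w : List L} (h : Rd w) (hl : w.head? ≠ some l) : Rd (l :: w) := by
  cases w with
  | nil => exact List.isChain_singleton _
  | cons b w =>
    refine List.isChain_cons_cons.2 ⟨?_, h⟩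
    rintro rfl
    exact hl rfl

theorem rd_snoc_link {m : L} {w : List L} (h : Rd w) (hm : w.getLast? ≠ some m) :
    Rd (w ++ [m]) := by
  unfold Rd
  rw [List.isChain_append]
  refine ⟨h, List.isChain_singleton _, ?_⟩
  intro x hx y hy
  simp only [List.head?_cons, Option.mem_def, Option.some.injEq] at hy
  subst hy
  rintro rfl
  exact hm hx

theorem rd_tail_link {l : L} {w : List L} (h : Rd (l :: w)) : Rd w := List.IsChain.tail h

theorem rd_init_link {m : L} {w : List L} (h : Rd (w ++ [m])) : Rd w :=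
  (List.isChain_append.1 h).1

theorem dst_left_link (l m : L) (u : W L C2) (x : C2) :
    dstLink l m (lt l x * u) = dstLink l m u := by
  rcases c2_cases_link x with rfl | rfl
  · rw [lt_one, one_mul]
  · by_cases h : (lab u).head? = some l
    · obtain ⟨w, hw⟩ : ∃ w, lab u = l :: w := by
        cases hu : lab u with
        | nil => rw [hu] at h; simp at h
        | cons b w =>
          rw [hu] at h
          simp only [List.head?_cons, Option.some.injEq] at h
          exact ⟨w, by rw [h]⟩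
      have h1 : lt l c2 * u = evlLink w := by
        rw [← evl_lab_link u, hw, evl_cons_link, lt_sq_link']
      have h2 : Rd w := rd_tail_link (hw ▸ rd_lab_link u)
      unfold dstLink
      rw [h1, lab_evl_link h2, hw]
      simp [List.destutter_cons']
    · have h1 : lt l c2 * u = evlLink (l :: lab u) := by rw [evl_cons_link, evl_lab_link]
      unfold dstLink
      rw [h1, lab_evl_link (rd_cons_link (rd_lab_link u) h)]
      simp [List.destutter_cons']

theorem dst_right_link (l m : L) (u : W L C2) (y : C2) :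
    dstLink l m (u * lt m y) = dstLink l m u := by
  rcases c2_cases_link y with rfl | rfl
  · rw [lt_one, mul_one]
  · by_cases h : (lab u).getLast? = some m
    · obtain ⟨w, hw⟩ : ∃ w, lab u = w ++ [m] := List.getLast?_eq_some_iff.1 h
      have h1 : u * lt m c2 = evlLink w := by
        rw [← evl_lab_link u, hw, evl_snoc_link, mul_assoc, lt_sq_link, mul_one]
      have h2 : Rd w := rd_init_link (hw ▸ rd_lab_link u)
      unfold dstLink
      rw [h1, lab_evl_link h2, hw, List.cons_append, List.cons_append, List.destutter_cons',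
        List.destutter_cons', dst_snoc_link]
    · have h1 : u * lt m c2 = evlLink (lab u ++ [m]) := by rw [evl_snoc_link, evl_lab_link]
      unfold dstLink
      rw [h1, lab_evl_link (rd_snoc_link (rd_lab_link u) h), List.cons_append, List.cons_append,
        List.destutter_cons', List.destutter_cons', dst_snoc_link]

theorem dst_evl_link {l m : L} {p : List L} (hp : Rd p) (hl : p.head? = some l)
    (hm : p.getLast? = some m) (x y : C2) : dstLink l m (lt l x * evlLink p * lt m y) = p := by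
  rw [dst_right_link, dst_left_link]
  unfold dstLink
  rw [lab_evl_link hp]
  obtain ⟨q, hq⟩ := List.getLast?_eq_some_iff.1 hm
  have h1 : List.destutter' (· ≠ ·) l (p ++ [m]) = List.destutter' (· ≠ ·) l p := by
    rw [hq, dst_snoc_link]
  rw [List.cons_append, List.destutter_cons', h1]
  cases p with
  | nil => simp at hl
  | cons b t =>
    simp only [List.head?_cons, Option.some.injEq] at hl
    subst hl
    rw [List.destutter'_cons_neg _ (by simp)]
    exact List.destutter'_of_isChain_cons _ _ hp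

theorem exists_nf_link (l m : L) (u : W L C2) : ∃ (p : List L) (x y : C2), Rd p ∧
    p.head? = some l ∧ p.getLast? = some m ∧ u = lt l x * evlLink p * lt m y := by
  have h1 : ∃ (w : List L) (x : C2), Rd w ∧ w.head? = some l ∧ u = lt l x * evlLink w := by
    by_cases h : (lab u).head? = some l
    · exact ⟨lab u, 1, rd_lab_link u, h, by rw [lt_one, one_mul, evl_lab_link]⟩
    · exact ⟨l :: lab u, c2, rd_cons_link (rd_lab_link u) h, rfl, by
        rw [evl_cons_link, lt_sq_link', evl_lab_link]⟩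
  obtain ⟨w, x, hw, hl, hu⟩ := h1
  by_cases h : w.getLast? = some m
  · exact ⟨w, x, 1, hw, hl, h, by rw [lt_one, mul_one, hu]⟩
  · refine ⟨w ++ [m], x, c2, rd_snoc_link hw h, ?_, by simp, ?_⟩
    · rw [List.head?_append, hl]
      rfl
    · rw [evl_snoc_link, mul_assoc, mul_assoc, lt_sq_link, mul_one, hu]

theorem cpl_nf_link (P Q : L × W L C2) : ∃ x y : C2, Rd (cpl P Q) ∧
    (cpl P Q).head? = some P.1 ∧ (cpl P Q).getLast? = some Q.1 ∧
    P.2⁻¹ * Q.2 = lt P.1 x * evlLink (cpl P Q) * lt Q.1 y := by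
  obtain ⟨p, x, y, hp, hl, hm, hu⟩ := exists_nf_link P.1 Q.1 (P.2⁻¹ * Q.2)
  have h : cpl P Q = p := by
    have h1 : cpl P Q = dstLink P.1 Q.1 (P.2⁻¹ * Q.2) := rfl
    rw [h1, hu, dst_evl_link hp hl hm]
  rw [h]
  exact ⟨x, y, hp, hl, hm, hu⟩

theorem mem_dst_link (x : L) (w : List L) : ∀ a : L,
    x ∈ List.destutter' (· ≠ ·) a w ↔ x = a ∨ x ∈ w := by
  induction w with
  | nil => intro a; simp
  | cons b w ih =>
    intro a
    by_cases h : a = b
    · subst h
      rw [List.destutter'_cons_neg _ (by simp), ih]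
      simp
    · rw [List.destutter'_cons_pos _ h, List.mem_cons, ih, List.mem_cons]

theorem var_dst_link (ρ : L → ℝ) (w : List L) : ∀ a : L,
    (∃ t, List.destutter' (· ≠ ·) a w = a :: t) ∧
    Var ((List.destutter' (· ≠ ·) a w).map ρ) = Var ((a :: w).map ρ) := by
  induction w with
  | nil => intro a; exact ⟨⟨[], rfl⟩, rfl⟩
  | cons b w ih =>
    intro a
    by_cases h : a = b
    · subst h
      rw [List.destutter'_cons_neg _ (by simp)]
      refine ⟨(ih a).1, ?_⟩
      rw [(ih a).2]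
      simp [Var]
    · rw [List.destutter'_cons_pos _ h]
      refine ⟨⟨_, rfl⟩, ?_⟩
      obtain ⟨⟨t, ht⟩, h2⟩ := ih b
      rw [ht] at h2 ⊢
      simp only [List.map_cons, Var] at h2 ⊢
      rw [h2]

/-- The correction factor of the swap map. -/
noncomputable def epsLink (a b x : L) : W L C2 := if x = b then lt a c2 else 1

theorem sw_lt_link (a b l : L) (x : C2) :
    sw a b c2 (lt l x) = epsLink a b l * lt l x * (epsLink a b l)⁻¹ := by
  rw [sw_lt]
  unfold epsLink
  split_ifs with h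
  · rw [h]
  · simp

theorem sw_step_link (a b x y : L) (r : List L) (e : W L C2) :
    (epsLink a b x)⁻¹ * sw a b c2 (evlLink (x :: r)) * e =
      lt x c2 * ((epsLink a b x)⁻¹ * epsLink a b y) *
        ((epsLink a b y)⁻¹ * sw a b c2 (evlLink r) * e) := by
  rw [evl_cons_link, map_mul, sw_lt_link]
  group

theorem sw_evl_link {a b : L} (hab : a ≠ b) (m : L) (p : List L) : Rd p → ∀ x0 : L,
    p.head? = some x0 → p.getLast? = some m → ∃ s t : C2, (x0 ≠ a → s = 1) ∧
      (epsLink a b x0)⁻¹ * sw a b c2 (evlLink p) * epsLink a b m =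
        lt x0 s * evlLink (swL a b p) * lt m t := by
  have ea : epsLink a b a = 1 := if_neg hab
  have e1 : ∀ x z : L, (x = b ↔ z = b) → epsLink a b x = epsLink a b z := fun x z h => by
    unfold epsLink
    by_cases hx : x = b
    · rw [if_pos hx, if_pos (h.1 hx)]
    · rw [if_neg hx, if_neg (fun hz => hx (h.2 hz))]
  have e2 : ∀ x z : L, ¬ (x = b ↔ z = b) →
      (epsLink a b x)⁻¹ * epsLink a b z = lt a c2 := fun x z h => by
    unfold epsLink
    by_cases hx : x = b
    · rw [if_pos hx, if_neg (fun hz => h ⟨fun _ => hz, fun _ => hx⟩), mul_one, lt_inv_link]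
    · have hz : z = b := by
        by_contra hz
        exact h ⟨fun h1 => absurd h1 hx, fun h1 => absurd h1 hz⟩
      rw [if_neg hx, if_pos hz, inv_one, one_mul]
  have e3 : ∀ z : L, ∃ s : C2, epsLink a b z = lt a s := fun z => by
    unfold epsLink
    split_ifs
    · exact ⟨c2, rfl⟩
    · exact ⟨1, (lt_one a).symm⟩
  have e4 : ∀ x z : L, (epsLink a b x)⁻¹ * lt a c2 * epsLink a b z =
      lt a c2 * ((epsLink a b x)⁻¹ * epsLink a b z) := fun x z => by
    obtain ⟨s, hs⟩ := e3 x
    rw [hs, ← lt_inv, ← lt_mul, ← mul_assoc, ← lt_mul, mul_comm c2]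
  induction p using swL.induct a b with
  | case1 y z l ih =>
    intro hp x0 hx hm
    simp only [List.head?_cons, Option.some.injEq] at hx
    subst hx
    have hy : y ≠ a := (List.isChain_cons_cons.1 hp).1.symm
    obtain ⟨s, t, hs, h⟩ := ih (rd_tail_link hp) y rfl (by simpa using hm)
    obtain ⟨s', hs'⟩ := e3 y
    refine ⟨s', t, fun h => absurd rfl h, ?_⟩
    rw [sw_step_link a b a y, h, hs hy, lt_one, one_mul, ea, inv_one, one_mul, hs', swL,
      if_pos rfl, evl_cons_link, ← lt_mul, mul_comm c2, lt_mul]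
    simp only [mul_assoc]
  | case2 x z l hxa hxz ih =>
    intro hp x0 hx hm
    simp only [List.head?_cons, Option.some.injEq] at hx
    subst hx
    have hz : z ≠ a := (List.isChain_cons_cons.1 (rd_tail_link hp)).1.symm
    obtain ⟨s, t, hs, h⟩ := ih (rd_tail_link (rd_tail_link hp)) z rfl (by simpa using hm)
    refine ⟨1, t, fun _ => rfl, ?_⟩
    have h5 := e4 x z
    rw [e1 x z hxz, inv_mul_cancel, mul_one] at h5
    rw [sw_step_link a b x a, sw_step_link a b a z, h, hs hz, ea, swL, if_neg hxa, if_pos rfl,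
      if_pos hxz, evl_cons_link, evl_cons_link, e1 x z hxz, lt_one, lt_one]
    simp only [one_mul, mul_one, inv_one, ← mul_assoc]
    rw [mul_assoc (lt x c2) _ (lt a c2), mul_assoc (lt x c2) _ (epsLink a b z), h5]
  | case3 x z l hxa hxz ih =>
    intro hp x0 hx hm
    simp only [List.head?_cons, Option.some.injEq] at hx
    subst hx
    have hz : z ≠ a := (List.isChain_cons_cons.1 (rd_tail_link hp)).1.symm
    obtain ⟨s, t, hs, h⟩ := ih (rd_tail_link (rd_tail_link hp)) z rfl (by simpa using hm)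
    refine ⟨1, t, fun _ => rfl, ?_⟩
    have h5 := e4 x z
    rw [e2 x z hxz, lt_sq_link] at h5
    rw [sw_step_link a b x a, sw_step_link a b a z, h, hs hz, ea, swL, if_neg hxa, if_pos rfl,
      if_neg hxz, evl_cons_link, lt_one, lt_one]
    simp only [one_mul, mul_one, inv_one, ← mul_assoc]
    rw [mul_assoc (lt x c2) _ (lt a c2), mul_assoc (lt x c2) _ (epsLink a b z), h5, mul_one]
  | case4 x y z l hxa hya hxy ih =>
    intro hp x0 hx hm
    simp only [List.head?_cons, Option.some.injEq] at hx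
    subst hx
    obtain ⟨s, t, hs, h⟩ := ih (rd_tail_link hp) y rfl (by simpa using hm)
    refine ⟨1, t, fun _ => rfl, ?_⟩
    rw [sw_step_link a b x y, h, hs hya, swL, if_neg hxa, if_neg hya, if_pos hxy, evl_cons_link,
      e1 x y hxy, inv_mul_cancel, lt_one, lt_one]
    simp only [one_mul, mul_one, mul_assoc]
  | case5 x y z l hxa hya hxy ih =>
    intro hp x0 hx hm
    simp only [List.head?_cons, Option.some.injEq] at hx
    subst hx
    obtain ⟨s, t, hs, h⟩ := ih (rd_tail_link hp) y rfl (by simpa using hm)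
    refine ⟨1, t, fun _ => rfl, ?_⟩
    rw [sw_step_link a b x y, h, hs hya, swL, if_neg hxa, if_neg hya, if_neg hxy, evl_cons_link,
      evl_cons_link, e2 x y hxy, lt_one, lt_one]
    simp only [one_mul, mul_assoc]
  | case6 x y hc =>
    intro hp x0 hx hm
    simp only [List.head?_cons, Option.some.injEq] at hx
    subst hx
    have hmy : y = m := by simpa using hm
    subst hmy
    have h0 : (epsLink a b x)⁻¹ * sw a b c2 (evlLink [x, y]) * epsLink a b y =
        lt x c2 * ((epsLink a b x)⁻¹ * epsLink a b y) * lt y c2 := by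
      rw [evl_cons_link, evl_cons_link, evl_nil_link, mul_one, map_mul, sw_lt_link, sw_lt_link]
      group
    rw [h0, swL, if_pos hc, evl_cons_link, evl_cons_link, evl_nil_link, mul_one]
    by_cases hxy : (x = b ↔ y = b)
    · refine ⟨1, 1, fun _ => rfl, ?_⟩
      rw [e1 x y hxy, inv_mul_cancel, lt_one, lt_one]
      simp only [one_mul, mul_one]
    · rw [e2 x y hxy]
      rcases hc with rfl | rfl | hc
      · exact ⟨c2, 1, fun h => absurd rfl h, by rw [lt_one, mul_one, mul_assoc]⟩
      · exact ⟨1, c2, fun _ => rfl, by rw [lt_one, one_mul]⟩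
      · exact absurd hc hxy
  | case7 x y hc =>
    intro hp x0 hx hm
    simp only [List.head?_cons, Option.some.injEq] at hx
    subst hx
    have hmy : y = m := by simpa using hm
    subst hmy
    have h0 : (epsLink a b x)⁻¹ * sw a b c2 (evlLink [x, y]) * epsLink a b y =
        lt x c2 * ((epsLink a b x)⁻¹ * epsLink a b y) * lt y c2 := by
      rw [evl_cons_link, evl_cons_link, evl_nil_link, mul_one, map_mul, sw_lt_link, sw_lt_link]
      group
    refine ⟨1, 1, fun _ => rfl, ?_⟩
    rw [h0, swL, if_neg hc, evl_cons_link, evl_cons_link, evl_cons_link, evl_nil_link,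
      e2 x y (fun h => hc (Or.inr (Or.inr h))), lt_one, lt_one]
    simp only [one_mul, mul_one, mul_assoc]
  | case8 l h1 h2 =>
    intro hp x0 hx hm
    match l, h1, h2, hx, hm with
    | [], _, _, hx, _ => simp at hx
    | [x], _, _, hx, hm =>
      simp only [List.head?_cons, Option.some.injEq] at hx
      subst hx
      have hmy : x = m := by simpa using hm
      subst hmy
      refine ⟨1, 1, fun _ => rfl, ?_⟩
      have h3 : swL a b [x] = [x] := by simp [swL]
      rw [h3, evl_cons_link, evl_nil_link, mul_one, sw_lt_link, lt_one]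
      group
    | [x, y], _, h2, _, _ => exact absurd rfl (h2 x y)
    | x :: y :: z :: l, h1, _, _, _ => exact absurd rfl (h1 x y z l)

theorem cpl_rd (P Q : L × W L C2) : Rd (cpl P Q) ∧ cpl P Q ≠ [] ∧ (cpl P Q).head? = some P.1 ∧
    (cpl P Q).getLast? = some Q.1 := by
  obtain ⟨x, y, h1, h2, h3, -⟩ := cpl_nf_link P Q
  refine ⟨h1, fun h => ?_, h2, h3⟩
  rw [h] at h2
  simp at h2

theorem cpl_mem (P Q : L × W L C2) (x : L) :
    x ∈ cpl P Q ↔ x = P.1 ∨ x = Q.1 ∨ x ∈ lab (P.2⁻¹ * Q.2) := by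
  unfold cpl
  rw [List.cons_append, List.destutter_cons', mem_dst_link, List.mem_append, List.mem_singleton]
  tauto

theorem cpl_var (P Q : L × W L C2) (ρ : L → ℝ) :
    Var ((cpl P Q).map ρ) = Var ((P.1 :: lab (P.2⁻¹ * Q.2) ++ [Q.1]).map ρ) := by
  unfold cpl
  rw [List.cons_append, List.destutter_cons']
  exact (var_dst_link ρ _ _).2

/-- The path does not depend on the representatives. -/
theorem cpl_rep (l m : L) (g h : W L C2) (x y : C2) :
    cpl (l, g * lt l x) (m, h * lt m y) = cpl (l, g) (m, h) := by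
  have h1 : (g * lt l x)⁻¹ * (h * lt m y) = lt l x⁻¹ * (g⁻¹ * h) * lt m y := by
    rw [lt_inv]
    group
  show dstLink l m ((g * lt l x)⁻¹ * (h * lt m y)) = dstLink l m (g⁻¹ * h)
  rw [h1, dst_right_link, dst_left_link]

theorem cpl_left (u : W L C2) (l m : L) (g h : W L C2) :
    cpl (l, u * g) (m, u * h) = cpl (l, g) (m, h) := by
  have h1 : (u * g)⁻¹ * (u * h) = g⁻¹ * h := by group
  show dstLink l m ((u * g)⁻¹ * (u * h)) = dstLink l m (g⁻¹ * h)
  rw [h1]

/-- Every reduced path is a path between pointed letters. -/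
theorem cpl_surj {p : List L} (hp : Rd p) (hne : p ≠ []) : ∃ P Q : L × W L C2, cpl P Q = p := by
  refine ⟨(p.head hne, 1), (p.getLast hne, evlLink p), ?_⟩
  have h := dst_evl_link hp (List.head?_eq_some_head hne) (List.getLast?_eq_some_getLast hne) 1 1
  rw [lt_one, lt_one, one_mul, mul_one] at h
  show dstLink (p.head hne) (p.getLast hne) (1⁻¹ * evlLink p) = p
  rw [inv_one, one_mul, h]

theorem cpl_tp {a b : L} (hab : a ≠ b) (P Q : L × W L C2) :
    cpl (tp a b P) (tp a b Q) = swL a b (cpl P Q) := by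
  obtain ⟨x, y, h1, h2, h3, h4⟩ := cpl_nf_link P Q
  have hne : cpl P Q ≠ [] := (cpl_rd P Q).2.1
  obtain ⟨s, t, -, h5⟩ := sw_evl_link hab Q.1 (cpl P Q) h1 P.1 h2 h3
  have h6 : Rd (swL a b (cpl P Q)) :=
    (swL_pth (S := Set.univ) (Set.mem_univ a) hab ⟨h1, hne, fun _ _ => Set.mem_univ _⟩).rd
  have h7 : (sw a b c2 P.2 * epsLink a b P.1)⁻¹ * (sw a b c2 Q.2 * epsLink a b Q.1) =
      lt P.1 (x * s) * evlLink (swL a b (cpl P Q)) * lt Q.1 (t * y) := by
    have h8 : (sw a b c2 P.2 * epsLink a b P.1)⁻¹ * (sw a b c2 Q.2 * epsLink a b Q.1) =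
        (epsLink a b P.1)⁻¹ * sw a b c2 (P.2⁻¹ * Q.2) * epsLink a b Q.1 := by
      rw [map_mul, map_inv]
      group
    have h9 : (epsLink a b P.1)⁻¹ * sw a b c2 (lt P.1 x * evlLink (cpl P Q) * lt Q.1 y) *
        epsLink a b Q.1 = lt P.1 x * ((epsLink a b P.1)⁻¹ * sw a b c2 (evlLink (cpl P Q)) *
          epsLink a b Q.1) * lt Q.1 y := by
      rw [map_mul, map_mul, sw_lt_link, sw_lt_link]
      group
    rw [h8, h4, h9, h5, lt_mul, lt_mul]
    simp only [mul_assoc]
  show dstLink P.1 Q.1 ((sw a b c2 P.2 * epsLink a b P.1)⁻¹ *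
    (sw a b c2 Q.2 * epsLink a b Q.1)) = _
  rw [h7]
  exact dst_evl_link h6 (by rw [swL_head, h2]) (by rw [swL_last, h3]) _ _

/-- The swap map on conjugates of letters. -/
theorem sw_conj (a b : L) (P : L × W L C2) :
    sw a b c2 (P.2 * lt P.1 c2 * P.2⁻¹) = (tp a b P).2 * lt P.1 c2 * (tp a b P).2⁻¹ := by
  show _ = sw a b c2 P.2 * epsLink a b P.1 * lt P.1 c2 * (sw a b c2 P.2 * epsLink a b P.1)⁻¹
  rw [map_mul, map_mul, map_inv, sw_lt_link]
  group

/-- A conjugate of a letter determines the label and the coset. -/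
theorem conj_lt_inj {l m : L} {g h : W L C2} (e : g * lt l c2 * g⁻¹ = h * lt m c2 * h⁻¹) :
    l = m ∧ ∃ x : C2, h = g * lt l x := by
  have hlm : l = m := by
    have h1 := congrArg (expo l) e
    simp only [map_mul, map_inv, expo_lt, if_true, mul_inv_cancel_comm] at h1
    by_contra hne
    rw [if_neg (fun h2 => hne h2.symm)] at h1
    exact c2_ne_link h1
  subst hlm
  refine ⟨rfl, ?_⟩
  obtain ⟨p, x, y, hp, hl, hm, hu⟩ := exists_nf_link l l (g⁻¹ * h)
  have hc : ∀ z : C2, (lt l c2 : W L C2) * lt l z = lt l z * lt l c2 := fun z => by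
    rw [← lt_mul, ← lt_mul, mul_comm]
  have h1 : lt l c2 * (g⁻¹ * h) = g⁻¹ * h * lt l c2 := by
    have : lt l c2 * (g⁻¹ * h) = g⁻¹ * (g * lt l c2 * g⁻¹) * h := by group
    rw [this, e]
    group
  have h2 : lt l c2 * evlLink p = evlLink p * lt l c2 := by
    have h3 : lt l x * (lt l c2 * evlLink p) * lt l y = lt l x * (evlLink p * lt l c2) * lt l y :=
      calc lt l x * (lt l c2 * evlLink p) * lt l y
          = (lt l x * lt l c2) * evlLink p * lt l y := by simp only [mul_assoc]
        _ = lt l c2 * (g⁻¹ * h) := by rw [← hc, hu]; simp only [mul_assoc]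
        _ = lt l x * evlLink p * (lt l y * lt l c2) := by rw [h1, hu]; simp only [mul_assoc]
        _ = _ := by rw [← hc]; simp only [mul_assoc]
    exact mul_left_cancel (mul_right_cancel h3)
  obtain ⟨q, hq⟩ := List.getLast?_eq_some_iff.1 hm
  cases p with
  | nil => simp at hl
  | cons b r =>
    simp only [List.head?_cons, Option.some.injEq] at hl
    subst hl
    have h3 : evlLink r = evlLink q := by
      rw [← lt_sq_link' b (evlLink r), ← evl_cons_link, h2, hq, evl_snoc_link, mul_assoc,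
        lt_sq_link, mul_one]
    have h4 : r = q := by
      rw [← lab_evl_link (rd_tail_link hp), h3, lab_evl_link (rd_init_link (hq ▸ hp))]
    subst h4
    cases r with
    | nil =>
      refine ⟨x * c2 * y, ?_⟩
      rw [evl_cons_link, evl_nil_link, mul_one, ← lt_mul, ← lt_mul] at hu
      rw [← hu]
      group
    | cons z r =>
      exfalso
      simp only [List.cons_append, List.cons.injEq] at hq
      exact (List.isChain_cons_cons.1 hp).1 hq.1

end Pool.Agent.E5f

end

section

set_option autoImplicit false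

namespace Pool.Agent.E5f

open Classical

variable {L κ : Type} [LinearOrder κ]

/-- The cut between two consecutive pieces is a turn. -/
def Cut_LsTrackT (k : L → κ) (u v : List L) : Prop :=
  ∃ A x y z B, u = A ++ [x, y] ∧ v = y :: z :: B ∧ ¬ (k x < k y ↔ k y < k z)

/-- The path starts with a piece of gain zero. -/
def St_LsTrackT (k : L → κ) (a b : L) (v : List L) : Prop :=
  ∃ x y A B, v = x :: y :: A ++ B ∧ gn k a b (x :: y :: A) = 0

/-- A cut which is a turn between two pieces of gain zero. -/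
def Good_LsTrackT (k : L → κ) (a b : L) (u v : List L) : Prop :=
  Cut_LsTrackT k u v ∧ St_LsTrackT k a b u.reverse ∧ St_LsTrackT k a b v

theorem glue_head_LsTrackT (q : List L) (R : List (List L)) : ∃ w, glue (q :: R) = q ++ w := by
  cases R with
  | nil => exact ⟨[], by simp [glue]⟩
  | cons r R => exact ⟨_, rfl⟩

theorem glue_app_LsTrackT (A e : List L) (E : List (List L)) :
    glue ((A ++ e) :: E) = A ++ glue (e :: E) := by
  cases E with
  | nil => rfl
  | cons r R => simp [glue]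

theorem glue_two_LsTrackT (q r : List L) (R : List (List L)) :
    glue (q :: r :: R) = q ++ (glue (r :: R)).tail := rfl

theorem st_app_LsTrackT {k : L → κ} {a b : L} {v : List L} (h : St_LsTrackT k a b v)
    (w : List L) : St_LsTrackT k a b (v ++ w) := by
  obtain ⟨x, y, A, B, rfl, h0⟩ := h
  exact ⟨x, y, A, B ++ w, by simp, h0⟩

theorem good_app_LsTrackT {k : L → κ} {a b : L} {u v : List L} (h : Good_LsTrackT k a b u v)
    (C : List L) : Good_LsTrackT k a b (C ++ u) v := by
  obtain ⟨⟨A, x, y, z, B, hu, hv, ht⟩, h1, h2⟩ := h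
  refine ⟨⟨C ++ A, x, y, z, B, by simp [hu], hv, ht⟩, ?_, h2⟩
  rw [List.reverse_append]
  exact st_app_LsTrackT h1 _

theorem chain_app_LsTrackT {k : L → κ} {a b : L} {u : List L} {E : List (List L)}
    (h : (u :: E).IsChain (Good_LsTrackT k a b)) (C : List L) :
    ((C ++ u) :: E).IsChain (Good_LsTrackT k a b) := by
  cases E with
  | nil => exact List.isChain_singleton _
  | cons v E =>
    rw [List.isChain_cons_cons] at h ⊢
    exact ⟨good_app_LsTrackT h.1 C, h.2⟩

theorem dec_cut_LsTrackT {k : L → κ} {D : List (List L)} (hne : D ≠ [])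
    (h2 : ∀ v ∈ D, 2 ≤ v.length) (hc : D.IsChain (Cut_LsTrackT k)) : Dec D (glue D) := by
  refine ⟨rfl, hne, h2, hc.imp ?_⟩
  rintro u v ⟨A, x, y, z, B, rfl, rfl, -⟩
  simp

theorem mono_dir_LsTrackT {k : L → κ} {d d' : Bool} {q : List L} (h2 : 2 ≤ q.length)
    (h : Mono k d q) (h' : Mono k d' q) : d = d' := by
  match q, h2 with
  | x :: y :: l, _ =>
    unfold Mono at h h'
    rw [List.isChain_cons_cons] at h h'
    have h1 := h.1
    have h3 := h'.1
    cases d <;> cases d'
    · rfl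
    · simp at h1 h3
      exact absurd h1 (not_lt.mpr h3.le)
    · simp at h1 h3
      exact absurd h1 (not_lt.mpr h3.le)
    · rfl

section
variable {S : Set L} {k : L → κ} {a b : L} (hk : Function.Injective k) (hA : Adjc S k a b)
include hk hA

/-- Merging the pieces next to a piece of positive gain. -/
theorem merge_LsTrackT (P : List L → Bool) : ∀ (R : List (List L)) (q : List L),
    (∀ v ∈ q :: R, 2 ≤ v.length) → (q :: R).IsChain (Cut_LsTrackT k) → Pth S (glue (q :: R)) →
    ∃ w E, glue ((q ++ w) :: E) = glue (q :: R) ∧ (∀ v ∈ E, 2 ≤ v.length) ∧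
      ((q ++ w) :: E).IsChain (Good_LsTrackT k a b) ∧
      (gn k a b q = 0 → ((q :: R).countP P : ℝ) ≤
        (((q ++ w) :: E).countP (fun v => P v && decide (gn k a b v = 0)) : ℝ) +
          3 * gn k a b (glue (q :: R))) ∧
      (gn k a b q ≠ 0 → ((q :: R).countP P : ℝ) + 1 ≤
        (E.countP (fun v => P v && decide (gn k a b v = 0)) : ℝ) +
          3 * gn k a b (glue (q :: R))) := by
  intro R
  induction R with
  | nil =>
    intro q _ _ hp
    have hg : glue [q] = q := rfl
    rw [hg] at hp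
    refine ⟨[], [], by simp, by simp, List.isChain_singleton _, ?_, ?_⟩
    · intro h0
      rw [hg, h0]
      cases hP : P q <;> simp [hP, h0]
    · intro h0
      rw [hg]
      have h2 := (gn_cases hk hA hp).resolve_left h0
      have h3 : ([q].countP P : ℝ) ≤ 1 := by
        have : [q].countP P ≤ 1 := List.countP_le_length
        exact_mod_cast this
      simp only [List.countP_nil, Nat.cast_zero]
      linarith
  | cons r R ih =>
    intro q h2 hc hp
    rw [List.isChain_cons_cons] at hc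
    obtain ⟨⟨A, x, y, z, B, hq, hr, ht⟩, hc⟩ := hc
    obtain ⟨w0, hw0⟩ := glue_head_LsTrackT r R
    have hgr : glue (r :: R) = y :: z :: (B ++ w0) := by rw [hw0, hr]; simp
    have hg : glue (q :: r :: R) = A ++ x :: y :: z :: (B ++ w0) := by
      rw [glue_two_LsTrackT, hgr, hq]; simp
    have hpr : Pth S (glue (r :: R)) :=
      pth_inf hp ⟨A ++ [x], [], by rw [hg, hgr]; simp⟩ (by rw [hgr]; simp)
    have hpq : Pth S q := pth_inf hp ⟨[], z :: (B ++ w0), by rw [hg, hq]; simp⟩ (by rw [hq]; simp)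
    have hadd : gn k a b (glue (q :: r :: R)) = gn k a b q + gn k a b (glue (r :: R)) := by
      rw [hg, hgr, hq]
      exact gn_turn hk hA (hg ▸ hp) ht
    obtain ⟨w, E, hE1, hE2, hE3, hE4, hE5⟩ :=
      ih r (fun v hv => h2 v (List.mem_cons_of_mem _ hv)) hc hpr
    have hcq : ((q :: r :: R).countP P : ℝ) ≤ ((r :: R).countP P : ℝ) + 1 := by
      have : (q :: r :: R).countP P ≤ (r :: R).countP P + 1 := by
        rw [List.countP_cons]
        split_ifs <;> omega
      exact_mod_cast this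
    have hce : ∀ u : List L, (E.countP (fun v => P v && decide (gn k a b v = 0)) : ℝ) ≤
        ((u :: E).countP (fun v => P v && decide (gn k a b v = 0)) : ℝ) ∧
        ((u :: E).countP (fun v => P v && decide (gn k a b v = 0)) : ℝ) ≤
        (E.countP (fun v => P v && decide (gn k a b v = 0)) : ℝ) + 1 := by
      intro u
      have : E.countP (fun v => P v && decide (gn k a b v = 0)) ≤
          (u :: E).countP (fun v => P v && decide (gn k a b v = 0)) ∧
          (u :: E).countP (fun v => P v && decide (gn k a b v = 0)) ≤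
          E.countP (fun v => P v && decide (gn k a b v = 0)) + 1 := by
        rw [List.countP_cons]
        split_ifs <;> omega
      exact_mod_cast this
    by_cases h00 : gn k a b q = 0 ∧ gn k a b r = 0
    · obtain ⟨hq0, hr0⟩ := h00
      refine ⟨[], (r ++ w) :: E, ?_, ?_, ?_, ?_, ?_⟩
      · rw [List.append_nil, glue_two_LsTrackT, glue_two_LsTrackT, hE1]
      · intro v hv
        rcases List.mem_cons.mp hv with rfl | hv
        · rw [hr]; simp
        · exact hE2 v hv
      · rw [List.append_nil, List.isChain_cons_cons]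
        refine ⟨⟨⟨A, x, y, z, B ++ w, hq, by rw [hr]; simp, ht⟩, ?_, ?_⟩, hE3⟩
        · refine ⟨y, x, A.reverse, [], by rw [hq]; simp, ?_⟩
          have h5 : y :: x :: A.reverse = q.reverse := by rw [hq]; simp
          rw [h5, gn_reverse hk hA hpq, hq0]
        · exact ⟨y, z, B, w, by rw [hr], hr ▸ hr0⟩
      · intro _
        have h6 := hE4 hr0
        rw [List.append_nil, hadd, hq0, List.countP_cons (a := q), List.countP_cons (a := q)]
        cases hP : P q
        · simp only [Bool.false_and, Bool.false_eq_true, if_false, Nat.add_zero]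
          linarith
        · simp only [hq0, decide_true, Bool.and_self, if_true]
          push_cast
          linarith
      · intro h0
        exact absurd hq0 h0
    · have hm : q ++ (z :: B ++ w) = (A ++ [x]) ++ (r ++ w) := by rw [hq, hr]; simp
      refine ⟨z :: B ++ w, E, ?_, hE2, ?_, ?_, ?_⟩
      · rw [hm, glue_app_LsTrackT, hE1, hg, hgr]; simp
      · rw [hm]
        exact chain_app_LsTrackT hE3 _
      · intro hq0
        have hr0 : gn k a b r ≠ 0 := fun h => h00 ⟨hq0, h⟩
        have h6 := hE5 hr0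
        have h7 := (hce (q ++ (z :: B ++ w))).1
        rw [hadd, hq0]
        linarith
      · intro hq0
        have h8 := (gn_cases hk hA hpq).resolve_left hq0
        rw [hadd]
        by_cases hr0 : gn k a b r = 0
        · have h6 := hE4 hr0
          have h7 := (hce (r ++ w)).2
          linarith
        · have h6 := hE5 hr0
          linarith

theorem st_facts_LsTrackT {x y : L} {B : List L} (hp : Pth S (x :: y :: B))
    (h : St_LsTrackT k a b (x :: y :: B)) : ¬ (x = a ∧ y = b) ∧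
      ∃ y' C, swL a b (x :: y :: B) = x :: y' :: C ∧ (ks k a b x < ks k a b y' ↔ k x < k y) := by
  obtain ⟨x', y', A, C, he, h0⟩ := h
  simp only [List.cons_append, List.cons.injEq] at he
  obtain ⟨rfl, rfl, rfl⟩ := he
  refine ⟨?_, gn_dir hk hA (by simpa using hp) h0⟩
  rintro ⟨rfl, rfl⟩
  have h1 : Pth S (x :: y :: A) := pth_inf hp ⟨[], C, by simp⟩ (by simp)
  have h2 := gn_start hk hA h1
  linarith

/-- The swap acts piecewise on a decomposition with good cuts and the cuts stay turns. -/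
theorem swap_LsTrackT : ∀ (E : List (List L)) (u : List L),
    (u :: E).IsChain (Good_LsTrackT k a b) → Pth S (glue (u :: E)) →
    glue ((u :: E).map (swL a b)) = swL a b (glue (u :: E)) ∧
      ((u :: E).map (swL a b)).IsChain (Cut_LsTrackT (ks k a b)) := by
  intro E
  induction E with
  | nil =>
    intro u _ _
    exact ⟨rfl, List.isChain_singleton _⟩
  | cons v E ih =>
    intro u hc hp
    rw [List.isChain_cons_cons] at hc
    obtain ⟨⟨⟨A, x, y, z, B, hu, hv, ht⟩, hs1, hs2⟩, hc⟩ := hc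
    obtain ⟨w0, hw0⟩ := glue_head_LsTrackT v E
    have hgr : glue (v :: E) = y :: z :: (B ++ w0) := by rw [hw0, hv]; simp
    have hg : glue (u :: v :: E) = A ++ x :: y :: z :: (B ++ w0) := by
      rw [glue_two_LsTrackT, hgr, hu]; simp
    have hpr : Pth S (glue (v :: E)) :=
      pth_inf hp ⟨A ++ [x], [], by rw [hg, hgr]; simp⟩ (by rw [hgr]; simp)
    have hpu : Pth S u := pth_inf hp ⟨[], z :: (B ++ w0), by rw [hg, hu]; simp⟩ (by rw [hu]; simp)
    have hpv : Pth S (y :: z :: B) := pth_inf hpr ⟨[], w0, by rw [hgr]; simp⟩ (by simp)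
    have hur : u.reverse = y :: x :: A.reverse := by rw [hu]; simp
    have hpu' : Pth S (y :: x :: A.reverse) := by
      rw [← hur]
      refine ⟨?_, by simpa using hpu.ne, fun t ht => hpu.sub t (by simpa using ht)⟩
      have h1 := hpu.rd
      unfold Rd at h1 ⊢
      rw [List.isChain_reverse]
      exact h1.imp fun _ _ h => Ne.symm h
    obtain ⟨hn1, x', C, hx1, hx2⟩ := st_facts_LsTrackT hk hA hpu' (hur ▸ hs1)
    obtain ⟨hn2, z', C', hz1, hz2⟩ := st_facts_LsTrackT hk hA hpv (hv ▸ hs2)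
    obtain ⟨ih1, ih2⟩ := ih v hc hpr
    have hsu : swL a b u = C.reverse ++ [x', y] := by
      have h1 := swL_reverse hA.ne hpu.rd
      rw [hur, hx1] at h1
      have h2 := congrArg List.reverse h1
      rw [List.reverse_reverse] at h2
      rw [← h2]
      simp
    constructor
    · have hsurv : y ≠ a ∨ (x = b ↔ z = b) := by
        by_cases hy : y = a
        · exact Or.inr ⟨fun h => absurd ⟨hy, h⟩ hn1, fun h => absurd ⟨hy, h⟩ hn2⟩
        · exact Or.inl hy
      have h1 := swL_glue hA.ne (hg ▸ hp.rd) hsurv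
      rw [hg, h1, ← hu, ← hgr, ← ih1]
      rfl
    · rw [List.map_cons, List.map_cons, List.isChain_cons_cons]
      refine ⟨⟨C.reverse, x', y, z', C', hsu, by rw [hv, hz1], ?_⟩, ih2⟩
      have hxy : y ≠ x := by
        have h1 := hpu'.rd
        unfold Rd at h1
        rw [List.isChain_cons_cons] at h1
        exact h1.1
      have hxy' : y ≠ x' := by
        have h1 := (swL_pth hA.ha hA.ne hpu').rd
        rw [hx1] at h1
        unfold Rd at h1
        rw [List.isChain_cons_cons] at h1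
        exact h1.1
      have e1 : k x < k y ↔ ¬ k y < k x :=
        ⟨fun h => not_lt.mpr h.le, fun h => lt_of_le_of_ne (not_lt.mp h) fun h' => hxy (hk h').symm⟩
      have e2 : ks k a b x' < ks k a b y ↔ ¬ ks k a b y < ks k a b x' :=
        ⟨fun h => not_lt.mpr h.le,
          fun h => lt_of_le_of_ne (not_lt.mp h) fun h' => hxy' (ks_inj hk a b h').symm⟩
      rw [e2, hx2, ← e1, hz2]
      exact ht

end

theorem main_LsTrackT {S : Set L} {k0 k1 : L → κ} : ∀ (c : List (L × L)) (k : L → κ)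
    (D : List (List L)), Function.Injective k → Chn S k0 k1 k c → D ≠ [] →
    (∀ v ∈ D, 2 ≤ v.length) → D.IsChain (Cut_LsTrackT k) → Pth S (glue D) →
    (D.countP (fun q => decide ((∃ d, Mono k d q) ∧ ¬ ∃ d, Pers k d c q)) : ℝ) ≤
      3 * gains k c (glue D) := by
  intro c
  induction c with
  | nil =>
    intro k D _ _ _ _ _ _
    have h0 : D.countP (fun q => decide ((∃ d, Mono k d q) ∧ ¬ ∃ d, Pers k d [] q)) = 0 := by
      rw [List.countP_eq_zero]
      intro q _
      rw [decide_eq_true_iff]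
      rintro ⟨⟨d, hd⟩, hn⟩
      refine hn ⟨d, fun c1 c2 h => ?_⟩
      have h1 : c1 = [] := (List.append_eq_nil_iff.mp h.symm).1
      subst h1
      exact hd
    rw [h0]
    simp [gains]
  | cons e c ih =>
    intro k D hk hc hne h2 hcut hp
    obtain ⟨hA, -, -, hc⟩ := hc
    obtain ⟨q, R, rfl⟩ := List.exists_cons_of_ne_nil hne
    obtain ⟨w, E, hE1, hE2, hE3, hE4, hE5⟩ := merge_LsTrackT hk hA
      (fun q => decide ((∃ d, Mono k d q) ∧ ¬ ∃ d, Pers k d (e :: c) q)) R q h2 hcut hp
    have hp' : Pth S (glue ((q ++ w) :: E)) := hE1 ▸ hp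
    obtain ⟨hs1, hs2⟩ := swap_LsTrackT hk hA E (q ++ w) hE3 hp'
    have h2E : ∀ v ∈ (q ++ w) :: E, 2 ≤ v.length := by
      intro v hv
      rcases List.mem_cons.mp hv with rfl | hv
      · have := h2 q List.mem_cons_self
        rw [List.length_append]
        omega
      · exact hE2 v hv
    have hdec : Dec ((q ++ w) :: E) (glue ((q ++ w) :: E)) :=
      dec_cut_LsTrackT (k := k) (by simp) h2E (hE3.imp fun _ _ h => h.1)
    have h3 := ih (ks k e.1 e.2) (((q ++ w) :: E).map (swL e.1 e.2)) (ks_inj hk _ _) hc (by simp)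
      (by
        intro v hv
        obtain ⟨u, hu, rfl⟩ := List.mem_map.mp hv
        exact swL_two _ _ (h2E u hu)) hs2
      (by rw [hs1]; exact swL_pth hA.ha hA.ne hp')
    rw [hs1, hE1, List.countP_map] at h3
    have h4 : ((q ++ w) :: E).countP (fun v =>
        decide ((∃ d, Mono k d v) ∧ ¬ ∃ d, Pers k d (e :: c) v) &&
          decide (gn k e.1 e.2 v = 0)) ≤ ((q ++ w) :: E).countP ((fun q =>
        decide ((∃ d, Mono (ks k e.1 e.2) d q) ∧ ¬ ∃ d, Pers (ks k e.1 e.2) d c q)) ∘
          swL e.1 e.2) := by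
      apply List.countP_mono_left
      intro v hv hb
      rw [Bool.and_eq_true, decide_eq_true_iff, decide_eq_true_iff] at hb
      obtain ⟨⟨⟨d, hd⟩, hn⟩, h0⟩ := hb
      have hv2 := h2E v hv
      have hpv : Pth S v := pth_inf hp' (dec_inf hdec hv) (by rintro rfl; simp at hv2)
      have hm := gn_mono hk hA hpv hd h0
      rw [Function.comp_apply, decide_eq_true_iff]
      refine ⟨⟨d, hm⟩, ?_⟩
      rintro ⟨d', hd'⟩
      have h5 : d' = d := mono_dir_LsTrackT (swL_two _ _ hv2) (hd' [] c rfl) hm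
      subst h5
      refine hn ⟨d', fun c1 c2 h => ?_⟩
      cases c1 with
      | nil => exact hd
      | cons e' c1 =>
        rw [List.cons_append, List.cons.injEq] at h
        obtain ⟨rfl, h⟩ := h
        exact hd' c1 c2 h
    have h4' := (Nat.cast_le (α := ℝ)).mpr h4
    have h6 : gains k (e :: c) (glue (q :: R)) = gn k e.1 e.2 (glue (q :: R)) +
        gains (ks k e.1 e.2) c (swL e.1 e.2 (glue (q :: R))) := rfl
    rw [h6]
    by_cases hq0 : gn k e.1 e.2 q = 0
    · have h7 := hE4 hq0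
      linarith
    · have h7 := hE5 hq0
      have h8 : E.countP (fun v =>
          decide ((∃ d, Mono k d v) ∧ ¬ ∃ d, Pers k d (e :: c) v) &&
            decide (gn k e.1 e.2 v = 0)) ≤ ((q ++ w) :: E).countP (fun v =>
          decide ((∃ d, Mono k d v) ∧ ¬ ∃ d, Pers k d (e :: c) v) &&
            decide (gn k e.1 e.2 v = 0)) := by
        rw [List.countP_cons]
        omega
      have h8' := (Nat.cast_le (α := ℝ)).mpr h8
      linarith

theorem two_end_LsTrackT {q : List L} (h : 2 ≤ q.length) : ∃ A x y, q = A ++ [x, y] := by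
  have h1 : 2 ≤ q.reverse.length := by simpa using h
  match hq : q.reverse, h1 with
  | y :: x :: l, _ =>
    refine ⟨l.reverse, x, y, ?_⟩
    have h2 := congrArg List.reverse hq
    simpa using h2

theorem alt_cut_LsTrackT {k : L → κ} : ∀ (D : List (List L)), (∀ v ∈ D, 2 ≤ v.length) →
    D.IsChain (fun q q' => q.getLast? = q'.head?) →
    D.IsChain (fun q q' => ∃ d, Mono k d q ∧ Mono k (!d) q') → D.IsChain (Cut_LsTrackT k)
  | [], _, _, _ => List.isChain_nil
  | [_], _, _, _ => List.isChain_singleton _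
  | q :: r :: R, h2, h3, h4 => by
    rw [List.isChain_cons_cons] at h3 h4 ⊢
    refine ⟨?_, alt_cut_LsTrackT (r :: R) (fun v hv => h2 v (List.mem_cons_of_mem _ hv)) h3.2 h4.2⟩
    obtain ⟨A, x, y, rfl⟩ := two_end_LsTrackT (h2 q List.mem_cons_self)
    obtain ⟨d, hq, hr⟩ := h4.1
    have h5 := h3.1
    have h6 := h2 r (List.mem_cons_of_mem _ List.mem_cons_self)
    match r, h5, h6, hr with
    | y' :: z :: B, h5, _, hr =>
      have h7 : y = y' := by simpa using h5
      subst h7
      refine ⟨A, x, y, z, B, rfl, rfl, ?_⟩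
      unfold Mono at hq hr
      rw [List.isChain_cons_cons] at hr
      have h8 := hr.1
      have h9 := (List.isChain_cons_cons.mp (List.isChain_append.mp hq).2.1).1
      cases d
      · simp at h8 h9
        exact fun h => absurd (h.mpr h8) (not_lt.mpr h9.le)
      · simp at h8 h9
        exact fun h => absurd (h.mp h9) (not_lt.mpr h8.le)

/-- All but few of the pieces between consecutive turns stay monotone. -/
theorem trackT {S : Set L} {k0 k1 : L → κ} {c : List (L × L)} (h : FCh S k0 k1 c) {p : List L}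
    (hp : Pth S p) {D : List (List L)} (hD : Dec D p) (hA : Alt k0 D) :
    (D.countP (fun q => decide (¬ ∃ d, Pers k0 d c q)) : ℝ) ≤ 3 * gains k0 c p := by
  have h1 := main_LsTrackT c k0 D h.inj0 h.chn hD.ne hD.two
    (alt_cut_LsTrackT D hD.two hD.ch hA.2) (hD.eq ▸ hp)
  rw [hD.eq] at h1
  have h2 : D.countP (fun q => decide (¬ ∃ d, Pers k0 d c q)) =
      D.countP (fun q => decide ((∃ d, Mono k0 d q) ∧ ¬ ∃ d, Pers k0 d c q)) := by
    apply List.countP_congr
    intro q hq
    rw [decide_eq_true_iff, decide_eq_true_iff]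
    exact ⟨fun h => ⟨hA.1 q hq, h⟩, fun h => h.2⟩
  rw [h2]
  exact h1

end Pool.Agent.E5f

end

section

set_option autoImplicit false

namespace Pool.Agent.E5f

open Classical

variable {L κ : Type} [LinearOrder κ]

theorem bounds_LsCC {k : L → κ} {p : List L} (hm : Mono k true p) (h2 : 2 ≤ p.length) {l r : L}
    (hl : p.head? = some l) (hr : p.getLast? = some r) :
    k l < k r ∧ ∀ x ∈ p, k l ≤ k x ∧ k x ≤ k r := by
  have hm' : p.IsChain (fun x y => k x < k y) := hm.imp fun x y h => by simpa using h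
  have : Trans (fun x y => k x < k y) (fun x y => k x < k y) (fun x y => k x < k y) := ⟨lt_trans⟩
  have hp := List.isChain_iff_pairwise.1 hm'
  obtain ⟨t, rfl⟩ := List.head?_eq_some_iff.1 hl
  obtain ⟨t', e⟩ := List.getLast?_eq_some_iff.1 hr
  have h1 : ∀ x ∈ t, k l < k x := (List.pairwise_cons.1 hp).1
  have h3 : ∀ x ∈ t', k x < k r := fun x hx =>
    (List.pairwise_append.1 (e ▸ hp)).2.2 x hx r (by simp)
  refine ⟨?_, fun x hx => ⟨?_, ?_⟩⟩
  · cases t' with
    | nil =>
      rw [e] at h2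
      simp at h2
    | cons y t' => exact h3 l (by rw [(List.cons.inj e).1]; simp)
  · rcases List.mem_cons.1 hx with rfl | hx
    · exact le_rfl
    · exact (h1 x hx).le
  · rw [e] at hx
    rcases List.mem_append.1 hx with hx | hx
    · exact (h3 x hx).le
    · rw [List.mem_singleton.1 hx]

theorem swL_not_LsCC {a b : L} (p : List L) (hb : b ∉ p) : swL a b p = p := by
  fun_induction swL a b p <;> grind

theorem enter_LsCC {a b : L} {p : List L} (hp : Rd p) (h2 : 2 ≤ p.length) (ha : a ∉ p)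
    (hb : p.head? = some b) : a ∈ swL a b p := by
  match p, hp, h2, ha, hb with
  | [x, y], hp, _, ha, hb =>
    have h1 : x ≠ y := by simpa [Rd] using hp
    simp_all [swL, eq_comm]
  | x :: y :: z :: t, hp, _, ha, hb =>
    have h1 : x ≠ y := (List.isChain_cons_cons.1 hp).1
    simp_all [swL, eq_comm]

theorem ends_LsCC {S : Set L} {a b : L} (ha : a ∈ S) (hab : a ≠ b) {p : List L} (hp : Pth S p)
    (h2 : 2 ≤ p.length) (hb : p.head? = some b ∨ p.getLast? = some b) :
    (a ∉ p → a ∈ swL a b p) ∧ (a ∉ swL a b p → a ∈ p) := by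
  have key : ∀ p : List L, Rd p → 2 ≤ p.length → (p.head? = some b ∨ p.getLast? = some b) →
      a ∉ p → a ∈ swL a b p := fun p hp h2 hb ha => by
    rcases hb with hb | hb
    · exact enter_LsCC hp h2 ha hb
    · have := enter_LsCC (p := p.reverse) (List.isChain_reverse.2 (hp.imp fun _ _ h => h.symm))
        (by simpa using h2) (by simpa using ha) (by simpa using hb)
      rwa [swL_reverse hab hp, List.mem_reverse] at this
  refine ⟨key p hp.rd h2 hb, fun h => ?_⟩
  have := key _ (swL_pth ha hab hp).rd (swL_two a b h2) (by rwa [swL_head, swL_last]) h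
  rwa [swL_swL hab hp.rd] at this

theorem inner_LsCC {S : Set L} {k : L → κ} {a b : L} (hk : Function.Injective k)
    (hA : Adjc S k a b) {p : List L} (hp : Pth S p) (hm : Mono k true p)
    (hm' : Mono (ks k a b) true (swL a b p)) (h1 : p.head? ≠ some b) (h2 : p.getLast? ≠ some b) :
    a ∈ swL a b p ↔ a ∈ p := by
  by_cases hb : b ∈ p
  · have hA' : Adjc S (ks k a b) a b := ⟨hA.ha, hA.hb, hA.ne, fun c hc h3 h4 => by
      simp only [ks, Function.comp_apply, Equiv.swap_apply_left, Equiv.swap_apply_right,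
        Equiv.swap_apply_of_ne_of_ne h3 h4]
      exact (hA.adj c hc h3 h4).symm⟩
    have e : ks (ks k a b) a b = k := funext fun x => by simp [ks]
    refine iff_of_true (mono_imp (ks_inj hk a b) hA' (swL_pth hA.ha hA.ne hp) hm' ?_ ?_ ?_ ?_)
      (mono_imp hk hA hp hm hm' h1 h2 hb)
    · rwa [e, swL_swL hA.ne hp.rd]
    · rwa [swL_head]
    · rwa [swL_last]
    · rwa [swL_mem hA.ne.symm]
  · rw [swL_not_LsCC p hb]

theorem chn_LsCC {S : Set L} {k0 k1 : L → κ} (c1 c2 : List (L × L)) : ∀ k : L → κ,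
    Function.Injective k → Chn S k0 k1 k (c1 ++ c2) →
    Function.Injective (kend k c1) ∧ Chn S k0 k1 (kend k c1) c2 ∧
      ∀ p, Pth S p → Pth S (act c1 p) := by
  induction c1 with
  | nil => exact fun k hk h => ⟨hk, h, fun p hp => hp⟩
  | cons e c1 ih =>
    intro k hk h
    obtain ⟨h1, h2, h3⟩ := ih _ (ks_inj hk e.1 e.2) h.2.2.2
    exact ⟨h1, h2, fun p hp => h3 _ (swL_pth h.1.ha h.1.ne hp)⟩

section
variable {S : Set L} {k0 k1 : L → κ} {c : List (L × L)} (h : FCh S k0 k1 c) {q : List L}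
  (hq : Pth S q) (h2 : 2 ≤ q.length) (hp : Pers k0 true c q) {l r : L}
  (hl : q.head? = some l) (hr : q.getLast? = some r)
include h hq h2 hp hl hr

omit h hq in
theorem bd_LsCC {c1 c2 : List (L × L)} (hc : c = c1 ++ c2) : kend k0 c1 l < kend k0 c1 r ∧
    ∀ x ∈ act c1 q, kend k0 c1 l ≤ kend k0 c1 x ∧ kend k0 c1 x ≤ kend k0 c1 r :=
  bounds_LsCC (hp c1 c2 hc) (act_two c1 h2) (by rwa [act_head]) (by rwa [act_last])

omit h2 hl hr in
theorem stage_LsCC {c1 c2 : List (L × L)} {a b : L} (hc : c = c1 ++ (a, b) :: c2) :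
    Function.Injective (kend k0 c1) ∧ Adjc S (kend k0 c1) a b ∧
      (kend k0 c1 a < kend k0 c1 b ↔ k0 a < k0 b) ∧ Pth S (act c1 q) ∧
      Mono (kend k0 c1) true (act c1 q) ∧
      Mono (ks (kend k0 c1) a b) true (swL a b (act c1 q)) := by
  obtain ⟨h1, h3, h4⟩ := chn_LsCC c1 ((a, b) :: c2) k0 h.inj0 (hc ▸ h.chn)
  have h5 := hp (c1 ++ [(a, b)]) c2 (by simp [hc])
  rw [kend_append, act_append] at h5
  exact ⟨h1, h3.1, h3.2.1, h4 q hq, hp c1 _ hc, h5⟩

omit h h2 hp in
theorem mem_LsCC : l ∈ S ∧ r ∈ S :=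
  ⟨hq.sub l (List.mem_of_mem_head? hl), hq.sub r (List.mem_of_mem_getLast? hr)⟩

theorem pers_ends : k0 l < k0 r ∧ k1 l < k1 r :=
  ⟨(bd_LsCC h2 hp hl hr (c1 := []) rfl).1,
    (h.fin l (mem_LsCC hq hl hr).1 r (mem_LsCC hq hl hr).2).1
      (bd_LsCC h2 hp hl hr (List.append_nil c).symm).1⟩

theorem inv_LsCC {β u v : L} (huv : u = l ∧ v = r ∧ k0 β < k0 l ∨ u = r ∧ v = l ∧ k0 r < k0 β)
    (c1 : List (L × L)) : ∀ c2, c = c1 ++ c2 → (β, v) ∉ c1 → (β ∈ act c1 q ↔ (β, u) ∈ c1) := by
  induction c1 using List.reverseRecOn with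
  | nil =>
    intro c2 hc _
    refine iff_of_false (fun hβ => ?_) (by simp)
    have := (bd_LsCC h2 hp hl hr hc).2 β hβ
    rcases huv with ⟨-, -, h0⟩ | ⟨-, -, h0⟩
    · exact absurd this.1 h0.not_ge
    · exact absurd this.2 h0.not_ge
  | append_singleton c1 e ih =>
    intro c2 hc hv
    obtain ⟨a, b⟩ := e
    rw [List.append_assoc, List.singleton_append] at hc
    rw [List.mem_append, List.mem_singleton, not_or] at hv
    have ih := ih _ hc hv.1
    obtain ⟨h1, h3, h4, h5, h6, h7⟩ := stage_LsCC h hq hp hc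
    have hh : (act c1 q).head? = some l := by rwa [act_head]
    have ht : (act c1 q).getLast? = some r := by rwa [act_last]
    rw [act_append, List.mem_append, List.mem_singleton]
    change β ∈ swL a b (act c1 q) ↔ _
    by_cases e1 : β = a
    swap
    · rw [swL_mem e1, ih]
      simp [e1]
    subst e1
    have e2 : b ≠ v := fun e => hv.2 (by rw [e])
    by_cases e3 : b = u
    · subst e3
      refine iff_of_true ((ends_LsCC h3.ha h3.ne h5 (act_two c1 h2) ?_).1 fun hβ => ?_) (.inr rfl)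
      · rcases huv with ⟨rfl, -, -⟩ | ⟨rfl, -, -⟩
        exacts [.inl hh, .inr ht]
      · have := (bd_LsCC h2 hp hl hr hc).2 β hβ
        rcases huv with ⟨rfl, -, h0⟩ | ⟨rfl, -, h0⟩
        · exact absurd this.1 (h4.2 h0).not_ge
        · exact h3.ne (h1 (le_antisymm this.2 (not_lt.1 fun h8 => h0.not_gt (h4.1 h8))))
    · have e4 : b ≠ l ∧ b ≠ r := by
        rcases huv with ⟨rfl, rfl, -⟩ | ⟨rfl, rfl, -⟩
        exacts [⟨e3, e2⟩, ⟨e2, e3⟩]
      rw [inner_LsCC h1 h3 h5 h6 h7 (by rw [hh]; simpa using e4.1.symm)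
        (by rw [ht]; simpa using e4.2.symm), ih]
      simp [Ne.symm e3]

theorem cc2_LsCC {β u v : L} (hβ : β ∈ S)
    (huv : u = l ∧ v = r ∧ k0 β < k0 l ∧ k1 r < k1 β ∨ u = r ∧ v = l ∧ k0 r < k0 β ∧ k1 β < k1 l) :
    ((β, u) ∈ c ↔ (β, v) ∈ c) := by
  have hi := inv_LsCC h hq h2 hp hl hr (β := β) (u := u) (v := v) (by tauto)
  obtain ⟨m1, m2⟩ := mem_LsCC hq hl hr
  have e0 := (pers_ends h hq h2 hp hl hr).1
  constructor
  · intro hu
    by_contra hv
    have := (bd_LsCC h2 hp hl hr (List.append_nil c).symm).2 β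
      ((hi c [] (List.append_nil c).symm hv).2 hu)
    rcases huv with ⟨-, -, -, h1⟩ | ⟨-, -, -, h1⟩
    · exact absurd this.2 ((h.fin r m2 β hβ).2 h1).not_ge
    · exact absurd this.1 ((h.fin β hβ l m1).2 h1).not_ge
  · intro hv
    obtain ⟨c1, c2, hc, hv'⟩ := List.eq_append_cons_of_mem hv
    obtain ⟨h1, h3, h4, h5, h6, h7⟩ := stage_LsCC h hq hp hc
    have hh : (act c1 q).head? = some l := by rwa [act_head]
    have ht : (act c1 q).getLast? = some r := by rwa [act_last]
    have key : β ∈ act c1 q := by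
      refine (ends_LsCC h3.ha h3.ne h5 (act_two c1 h2) ?_).2 fun hm => ?_
      · rcases huv with ⟨-, rfl, -⟩ | ⟨-, rfl, -⟩
        exacts [.inr ht, .inl hh]
      · have := (bounds_LsCC h7 (swL_two _ _ (act_two c1 h2)) (by rwa [swL_head])
          (by rwa [swL_last])).2 β hm
        rcases huv with ⟨-, rfl, h0, -⟩ | ⟨-, rfl, h0, -⟩
        · simp only [ks, Function.comp_apply, Equiv.swap_apply_left, Equiv.swap_apply_right] at this
          exact absurd this.2 (h4.2 (h0.trans e0)).not_ge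
        · simp only [ks, Function.comp_apply, Equiv.swap_apply_left, Equiv.swap_apply_right] at this
          exact h3.ne (h1 (le_antisymm this.1
            (not_lt.1 fun h8 => (e0.trans h0).not_gt (h4.1 h8))))
    rw [hc]
    exact List.mem_append_left _ ((hi c1 _ hc hv').1 key)

theorem cc2a {β : L} (hβ : β ∈ S) (h0 : k0 β < k0 l) (h1 : k1 r < k1 β) :
    ((β, l) ∈ c ↔ (β, r) ∈ c) := cc2_LsCC h hq h2 hp hl hr hβ (.inl ⟨rfl, rfl, h0, h1⟩)

theorem cc2b {α : L} (hα : α ∈ S) (h0 : k0 r < k0 α) (h1 : k1 α < k1 l) :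
    ((α, l) ∈ c ↔ (α, r) ∈ c) := (cc2_LsCC h hq h2 hp hl hr hα (.inr ⟨rfl, rfl, h0, h1⟩)).symm

theorem cc1 {α β : L} (hα : α ∈ S) (hβ : β ∈ S) (b0 : k0 β < k0 l) (b1 : k1 β < k1 r)
    (a0 : k0 r < k0 α) (a1 : k1 l < k1 α) (hx : k1 α < k1 β) :
    ((β, l) ∈ c → (r, α) ∈ c → (β, α) ∈ c) ∧ ((l, β) ∈ c → (α, r) ∈ c → (α, β) ∈ c) := by
  obtain ⟨m1, m2⟩ := mem_LsCC hq hl hr
  have e0 := (pers_ends h hq h2 hp hl hr).1
  have hn : ∀ x y, k0 x < k0 y → k1 x < k1 y → (x, y) ∉ c ∧ (y, x) ∉ c := fun x y h0 h1 =>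
    ⟨fun hm => h1.not_gt ((fch_mem h hm).2.2.2.1 h0),
      fun hm => h0.not_gt ((fch_mem h hm).2.2.2.2 h1)⟩
  have n1 := hn β r (b0.trans e0) b1
  have n2 := hn l α (e0.trans a0) a1
  have i1 := (fch_inv h hβ m1 b0 (a1.trans hx)).2
  have i2 := (fch_inv h m2 hα a0 (hx.trans b1)).2
  have i3 := (fch_inv h hβ hα (b0.trans (e0.trans a0)) hx).1
  have hβl : β ≠ l := fun e => b0.ne (by rw [e])
  have hβr : β ≠ r := fun e => b1.ne (by rw [e])
  have hαl : α ≠ l := fun e => a1.ne (by rw [e])
  have hαr : α ≠ r := fun e => a0.ne (by rw [e])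
  have hi : ∀ c1 c2, c = c1 ++ c2 → (∀ e ∈ c1, e ∈ c) ∧ (β ∈ act c1 q ↔ (β, l) ∈ c1) ∧
      (α ∈ act c1 q ↔ (α, r) ∈ c1) := fun c1 c2 hc => by
    have hs : ∀ e ∈ c1, e ∈ c := fun e he => hc ▸ List.mem_append_left _ he
    exact ⟨hs, inv_LsCC h hq h2 hp hl hr (.inl ⟨rfl, rfl, b0⟩) c1 c2 hc fun hm => n1.1 (hs _ hm),
      inv_LsCC h hq h2 hp hl hr (.inr ⟨rfl, rfl, a0⟩) c1 c2 hc fun hm => n2.2 (hs _ hm)⟩
  constructor
  · intro p1 p2
    refine i3.resolve_right fun hm => ?_
    obtain ⟨c1, c2, hc⟩ := List.append_of_mem hm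
    obtain ⟨h1, h3, -, h5, h6, h7⟩ := stage_LsCC h hq hp hc
    obtain ⟨hs, j1, j2⟩ := hi c1 _ hc
    have s1 := (fch_stage h hc m1 hα (e0.trans a0)).2
      (fun hm => hm.elim (fun hm => n2.1 (hs _ hm)) fun hm => n2.2 (hs _ hm))
    have s2 := (h3.adj l m1 hαl.symm hβl.symm).1 s1
    have s3 := not_not.1 (mt (fch_stage h hc hβ m1 b0).2 s2.not_gt)
    have s4 := j1.2 (s3.resolve_right fun hm => i1 ⟨p1, hs _ hm⟩)
    exact i2 ⟨p2, hs _ (j2.1 (mono_imp h1 h3 h5 h6 h7 (by rw [act_head, hl]; simpa using hβl.symm)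
      (by rw [act_last, hr]; simpa using hβr.symm) s4))⟩
  · intro p1 p2
    refine i3.resolve_left fun hm => ?_
    obtain ⟨c1, c2, hc⟩ := List.append_of_mem hm
    obtain ⟨h1, h3, -, h5, h6, h7⟩ := stage_LsCC h hq hp hc
    obtain ⟨hs, j1, j2⟩ := hi c1 _ hc
    have s1 := (fch_stage h hc hβ m2 (b0.trans e0)).2
      (fun hm => hm.elim (fun hm => n1.1 (hs _ hm)) fun hm => n1.2 (hs _ hm))
    have s2 := mt (h3.adj r m2 hβr.symm hαr.symm).2 s1.not_gt
    have s3 := not_not.1 (mt (fch_stage h hc m2 hα a0).2 s2)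
    have s4 := j2.2 (s3.resolve_left fun hm => i2 ⟨hs _ hm, p2⟩)
    exact i1 ⟨hs _ (j1.1 (mono_imp h1 h3 h5 h6 h7 (by rw [act_head, hl]; simpa using hαl.symm)
      (by rw [act_last, hr]; simpa using hαr.symm) s4)), p1⟩

end

end Pool.Agent.E5f

end
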