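import Pool.Agent.Mg.S03381.G5b3672

section

/-!
Block decompositions of reduced words and the signed variation as a sum over block syllables.
-/

set_option autoImplicit false

namespace Pool.Agent.E5f.Wall

section dec
variable {L C B : Type} [CommGroup C]

theorem red_nil_W : Red ([] : List (L × C)) := ⟨by simp, by simp⟩

theorem _root_.Pool.Agent.E5f.Red.tail_W {e : L × C} {w : List (L × C)} (h : Red (e :: w)) : Red w :=
  ⟨fun x hx => h.1 x (List.mem_cons_of_mem _ hx), h.2.tail⟩

theorem red_append_W {w w' : List (L × C)} (h : Red w) (h' : Red w')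
    (hj : ∀ e ∈ w.getLast?, ∀ e' ∈ w'.head?, e.1 ≠ e'.1) : Red (w ++ w') := by
  refine ⟨?_, ?_⟩
  · intro e he
    rcases List.mem_append.1 he with he | he
    · exact h.1 e he
    · exact h'.1 e he
  · rw [List.isChain_append]
    exact ⟨h.2, h'.2, hj⟩

theorem eq_one_of_wd_nil {g : W L C} (h : wd g = []) : g = 1 := by
  rw [← ev_wd g, h, ev_nil]

theorem lab_eq_nil {g : W L C} : lab g = [] ↔ g = 1 := by
  constructor
  · intro h
    apply eq_one_of_wd_nil
    simpa [lab] using h
  · rintro rfl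
    simp

theorem wd_mul_W {g h : W L C}
    (hj : ∀ a ∈ (lab g).getLast?, ∀ b ∈ (lab h).head?, a ≠ b) : wd (g * h) = wd g ++ wd h := by
  have : g * h = ev (wd g ++ wd h) := by rw [ev_append, ev_wd, ev_wd]
  rw [this]
  apply wd_ev
  apply red_append_W (red_wd g) (red_wd h)
  intro e he e' he'
  apply hj
  · simp only [lab, List.getLast?_map, Option.mem_def, Option.map_eq_some_iff]
    exact ⟨e, he, rfl⟩
  · simp only [lab, List.head?_map, Option.mem_def, Option.map_eq_some_iff]
    exact ⟨e', he', rfl⟩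

theorem lab_mul_W {g h : W L C}
    (hj : ∀ a ∈ (lab g).getLast?, ∀ b ∈ (lab h).head?, a ≠ b) : lab (g * h) = lab g ++ lab h := by
  simp only [lab] at *
  rw [wd_mul_W hj, List.map_append]

theorem lab_ev {w : List (L × C)} (h : Red w) : lab (ev w) = w.map Prod.fst := by
  rw [lab, wd_ev h]

theorem lab_chain (g : W L C) : (lab g).IsChain (· ≠ ·) := by
  rw [lab, List.isChain_map]
  exact (red_wd g).2

/-- Support and retraction. -/
theorem ret_ev_of_mem {S : Set L} {w : List (L × C)} (h : ∀ e ∈ w, e.1 ∈ S) :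
    ret S (ev w) = ev w := by
  induction w with
  | nil => simp
  | cons e w ih =>
    rw [ev_cons, map_mul, ret_lt, if_pos (h e (by simp)), ih (fun x hx => h x (by simp [hx]))]

theorem _root_.Pool.Agent.E5f.Sup.ret_eq_W {S : Set L} {g : W L C} (h : Sup S g) : ret S g = g := by
  conv_lhs => rw [← ev_wd g]
  rw [ret_ev_of_mem, ev_wd]
  intro e he
  exact h _ (List.mem_map.2 ⟨e, he, rfl⟩)

theorem sup_lt_mul {S : Set L} {l : L} (x : C) {g : W L C} (hl : l ∈ S) (h : Sup S g) :
    Sup S (lt l x * g) := by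
  classical
  by_cases hx : x = 1
  · simpa [hx] using h
  rcases hw : wd g with _ | ⟨e, w⟩
  · have hg := eq_one_of_wd_nil hw
    intro a ha
    rw [hg, mul_one, lab, wd_lt l hx] at ha
    simp at ha
    exact ha ▸ hl
  · have hr : Red (e :: w) := hw ▸ red_wd g
    have hg : g = lt e.1 e.2 * ev w := by rw [← ev_cons, ← hw, ev_wd]
    have hS : ∀ a ∈ (e :: w).map Prod.fst, a ∈ S := by
      intro a ha
      apply h
      rw [lab, hw]
      exact ha
    by_cases he : e.1 = l
    · by_cases hxe : x * e.2 = 1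
      · have : lt l x * g = ev w := by
          rw [hg, he, ← mul_assoc, ← lt_mul, hxe, lt_one, one_mul]
        intro a ha
        rw [this, lab_ev hr.tail_W] at ha
        exact hS a (by simp only [List.map_cons, List.mem_cons]; exact Or.inr ha)
      · have h1 : lt l x * g = ev ((l, x * e.2) :: w) := by
          rw [hg, he, ← mul_assoc, ← lt_mul, ev_cons]
        have h2 : Red ((l, x * e.2) :: w) := by
          refine ⟨?_, ?_⟩
          · intro y hy
            rcases List.mem_cons.1 hy with rfl | hy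
            · exact hxe
            · exact hr.1 y (by simp [hy])
          · have := hr.2
            rw [List.isChain_cons] at this ⊢
            refine ⟨fun y hy => ?_, this.2⟩
            have := this.1 y hy
            rwa [he] at this
        intro a ha
        rw [h1, lab_ev h2] at ha
        rcases List.mem_cons.1 ha with rfl | ha
        · exact hl
        · exact hS a (by simp only [List.map_cons, List.mem_cons]; exact Or.inr ha)
    · have h1 : lt l x * g = ev ((l, x) :: e :: w) := by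
        rw [ev_cons, ← hw, ev_wd]
      have h2 : Red ((l, x) :: e :: w) := by
        refine ⟨?_, ?_⟩
        · intro y hy
          rcases List.mem_cons.1 hy with rfl | hy
          · exact hx
          · exact hr.1 y hy
        · rw [List.isChain_cons_cons]
          exact ⟨fun h => he h.symm, hr.2⟩
      intro a ha
      rw [h1, lab_ev h2] at ha
      rcases List.mem_cons.1 ha with rfl | ha
      · exact hl
      · exact hS a ha

theorem sup_one_W (S : Set L) : Sup S (1 : W L C) := by
  intro a ha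
  simp at ha

theorem sup_ret (S : Set L) (g : W L C) : Sup S (ret S g) := by
  classical
  induction g using W_ind with
  | h1 => simpa using sup_one_W S
  | h l x g ih =>
    rw [map_mul, ret_lt]
    split_ifs with hl
    · exact sup_lt_mul x hl ih
    · simpa using ih

theorem sup_iff_ret {S : Set L} {g : W L C} : Sup S g ↔ ret S g = g :=
  ⟨Sup.ret_eq_W, fun h => h ▸ sup_ret S g⟩

theorem _root_.Pool.Agent.E5f.Sup.mul_W {S : Set L} {g h : W L C} (hg : Sup S g) (hh : Sup S h) : Sup S (g * h) := by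
  rw [sup_iff_ret] at *
  rw [map_mul, hg, hh]

theorem _root_.Pool.Agent.E5f.Sup.inv_W {S : Set L} {g : W L C} (hg : Sup S g) : Sup S g⁻¹ := by
  rw [sup_iff_ret] at *
  rw [map_inv, hg]

theorem sup_lt {S : Set L} {l : L} (x : C) (hl : l ∈ S) : Sup S (lt l x : W L C) := by
  simpa using sup_lt_mul x hl (sup_one_W S)

theorem _root_.Pool.Agent.E5f.Sup.mono_W {S S' : Set L} {g : W L C} (hg : Sup S g) (h : S ⊆ S') : Sup S' g :=
  fun a ha => h (hg a ha)

theorem sup_ev {S : Set L} {w : List (L × C)} (h : ∀ e ∈ w, e.1 ∈ S) : Sup S (ev w) :=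
  sup_iff_ret.2 (ret_ev_of_mem h)

/-- A homomorphism that maps the letters of `S` into the subgroup of `S'`. -/
theorem _root_.Pool.Agent.E5f.Sup.map_W {L' : Type} {S : Set L} {S' : Set L'} (τ : W L C →* W L' C)
    (hτ : ∀ l ∈ S, ∀ x, Sup S' (τ (lt l x))) {g : W L C} (hg : Sup S g) : Sup S' (τ g) := by
  have key : ∀ w : List (L × C), (∀ e ∈ w, e.1 ∈ S) → Sup S' (τ (ev w)) := by
    intro w
    induction w with
    | nil => intro _; simpa using sup_one_W S'
    | cons e w ih =>
      intro h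
      rw [ev_cons, map_mul]
      exact (hτ _ (h e (by simp)) _).mul_W (ih (fun x hx => h x (by simp [hx])))
  have := key (wd g) (fun e he => hg _ (List.mem_map.2 ⟨e, he, rfl⟩))
  rwa [ev_wd] at this

/-- Decomposition into nontrivial block syllables. -/
def BDec (blk : L → B) (d : List (B × W L C)) : Prop :=
  (∀ e ∈ d, e.2 ≠ 1 ∧ Sup (blk ⁻¹' {e.1}) e.2) ∧ d.IsChain (fun e e' => e.1 ≠ e'.1)

theorem BDec.tail {blk : L → B} {e : B × W L C} {d : List (B × W L C)} (h : BDec blk (e :: d)) :
    BDec blk d := ⟨fun x hx => h.1 x (List.mem_cons_of_mem _ hx), h.2.tail⟩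

theorem BDec.lab_prod {blk : L → B} {d : List (B × W L C)} (h : BDec blk d) :
    lab (d.map Prod.snd).prod = (d.map (fun e => lab e.2)).flatten ∧
      ∀ a ∈ (lab (d.map Prod.snd).prod).head?, ∃ e ∈ d.head?, blk a = e.1 := by
  induction d with
  | nil => simp
  | cons e d ih =>
    obtain ⟨ih1, ih2⟩ := ih h.tail
    have he := h.1 e (by simp)
    have hl : lab (e.2 * (d.map Prod.snd).prod) = lab e.2 ++ lab (d.map Prod.snd).prod := by
      apply lab_mul_W
      intro a ha b hb hab
      obtain ⟨e', he', hb'⟩ := ih2 b hb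
      have ha' : blk a = e.1 := he.2 a (List.mem_of_mem_getLast? ha)
      have := (List.isChain_cons.1 h.2).1 e' he'
      exact this (by rw [← ha', ← hb', hab])
    refine ⟨by simp only [List.map_cons, List.prod_cons, List.flatten_cons]; rw [hl, ih1], ?_⟩
    intro a ha
    simp only [List.map_cons, List.prod_cons] at ha
    rw [hl] at ha
    have hne : lab e.2 ≠ [] := fun h0 => he.1 (lab_eq_nil.1 h0)
    rcases hq : lab e.2 with _ | ⟨c, t⟩
    · exact absurd hq hne
    · rw [hq] at ha
      simp at ha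
      refine ⟨e, by simp, ?_⟩
      exact he.2 a (by rw [hq, ← ha]; simp)

theorem exists_bdec (blk : L → B) (g : W L C) :
    ∃ d : List (B × W L C), BDec blk d ∧ g = (d.map Prod.snd).prod := by
  classical
  induction g using W_ind with
  | h1 => exact ⟨[], ⟨by simp, by simp⟩, by simp⟩
  | h l x g ih =>
    obtain ⟨d, hd, rfl⟩ := ih
    by_cases hx : x = 1
    · exact ⟨d, hd, by simp [hx]⟩
    have hlt : (lt l x : W L C) ≠ 1 := by
      intro h0
      have := wd_lt l hx
      rw [h0] at this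
      simp at this
    have hs : Sup (blk ⁻¹' {blk l}) (lt l x : W L C) := sup_lt x (by simp)
    rcases d with _ | ⟨e, d⟩
    · exact ⟨[(blk l, lt l x)], ⟨by simpa using ⟨hlt, hs⟩, by simp⟩, by simp⟩
    by_cases he : e.1 = blk l
    · by_cases h1 : lt l x * e.2 = 1
      · refine ⟨d, hd.tail, ?_⟩
        simp only [List.map_cons, List.prod_cons]
        rw [← mul_assoc, h1, one_mul]
      · refine ⟨(e.1, lt l x * e.2) :: d, ⟨?_, ?_⟩, by simp [mul_assoc]⟩
        · intro y hy
          rcases List.mem_cons.1 hy with rfl | hy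
          · exact ⟨h1, (he ▸ hs).mul_W (hd.1 e (by simp)).2⟩
          · exact hd.1 y (by simp [hy])
        · have := hd.2
          rw [List.isChain_cons] at this ⊢
          exact this
    · refine ⟨(blk l, lt l x) :: e :: d, ⟨?_, ?_⟩, by simp⟩
      · intro y hy
        rcases List.mem_cons.1 hy with rfl | hy
        · exact ⟨hlt, hs⟩
        · exact hd.1 y hy
      · rw [List.isChain_cons_cons]
        exact ⟨fun h => he h.symm, hd.2⟩

/-- The image of a decomposition under an injective block preserving homomorphism. -/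
theorem BDec.map {blk : L → B} {d : List (B × W L C)} (h : BDec blk d) (τ : W L C →* W L C)
    (hinj : Function.Injective τ) (hτ : ∀ l x, Sup (blk ⁻¹' {blk l}) (τ (lt l x))) :
    BDec blk (d.map (fun e => (e.1, τ e.2))) := by
  refine ⟨?_, ?_⟩
  · intro e he
    obtain ⟨e', he', rfl⟩ := List.mem_map.1 he
    refine ⟨fun h0 => (h.1 e' he').1 (hinj (by simpa using h0)), ?_⟩
    refine Sup.map_W τ (fun l hl x => ?_) (h.1 e' he').2
    have : blk l = e'.1 := hl
    exact this ▸ hτ l x
  · rw [List.isChain_map]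
    exact h.2

end dec


/-- The sequence of labels visited between two pointed points. -/
noncomputable def wsq {L C : Type} [CommGroup C] (l : L) (g : W L C) (m : L) : List L :=
  l :: (lab g ++ [m])

/-- Signed variation of `ρ` along a list, the signs being given by the order `k`. -/
noncomputable def wLin {L K : Type} [LinearOrder K] (k : L → K) (ρ : L → ℝ) : List L → ℝ
  | a :: b :: s => (if k a < k b then ρ b - ρ a else ρ a - ρ b) + wLin k ρ (b :: s)
  | _ => 0

/-- Value at the first entry. -/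
def hdv {L : Type} (ρ : L → ℝ) (s : List L) : ℝ := s.head?.elim 0 ρ

/-- Value at the last entry. -/
def lsv {L : Type} (ρ : L → ℝ) (s : List L) : ℝ := s.getLast?.elim 0 ρ

/-- The local term of a syllable; `e1`, `e2` are `1` for a neighbour on the left, `-1` for a
neighbour on the right and `0` for no neighbour. -/
noncomputable def loc {L K : Type} [LinearOrder K] (k : L → K) (ρ : L → ℝ) (e1 e2 : ℝ)
    (s : List L) : ℝ := e1 * hdv ρ s + wLin k ρ s + e2 * lsv ρ s

/-- Sum of local terms along a list of syllables. -/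
noncomputable def sumE {α K : Type} [LinearOrder K] (κ : α → K) (F : ℝ → ℝ → α → ℝ) :
    ℝ → List α → ℝ
  | _, [] => 0
  | e, [x] => F e 0 x
  | e, x :: y :: D => F e (-(if κ x < κ y then 1 else -1)) x +
      sumE κ F (if κ x < κ y then 1 else -1) (y :: D)

section
variable {L K : Type} [LinearOrder K]

@[simp] theorem wLin_nil (k : L → K) (ρ : L → ℝ) : wLin k ρ [] = 0 := by simp [wLin]
@[simp] theorem wLin_one (k : L → K) (ρ : L → ℝ) (a : L) : wLin k ρ [a] = 0 := by simp [wLin]
theorem wLin_cons (k : L → K) (ρ : L → ℝ) (a b : L) (s : List L) :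
    wLin k ρ (a :: b :: s) = (if k a < k b then ρ b - ρ a else ρ a - ρ b) + wLin k ρ (b :: s) := by
  simp [wLin]

@[simp] theorem hdv_cons (ρ : L → ℝ) (a : L) (s : List L) : hdv ρ (a :: s) = ρ a := rfl
@[simp] theorem lsv_one (ρ : L → ℝ) (a : L) : lsv ρ [a] = ρ a := rfl
@[simp] theorem lsv_cons (ρ : L → ℝ) (a b : L) (s : List L) :
    lsv ρ (a :: b :: s) = lsv ρ (b :: s) := by simp [lsv, List.getLast?_cons_cons]
theorem lsv_concat (ρ : L → ℝ) (a : L) (s : List L) : lsv ρ (s ++ [a]) = ρ a := by simp [lsv]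

theorem wLin_append (k : L → K) (ρ : L → ℝ) (s : List L) (a b : L) (t : List L) :
    wLin k ρ (s ++ a :: b :: t) = wLin k ρ (s ++ [a]) +
      (if k a < k b then ρ b - ρ a else ρ a - ρ b) + wLin k ρ (b :: t) := by
  induction s with
  | nil => simp [wLin_cons]
  | cons c s ih =>
    rcases s with _ | ⟨d, s⟩
    · simp only [List.cons_append, List.nil_append, wLin_cons, wLin_one]; ring
    · simp only [List.cons_append, wLin_cons] at ih ⊢
      rw [ih]; ring

theorem wLin_lin (k : L → K) (ρ ρ' : L → ℝ) (x y : ℝ) (s : List L) :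
    wLin k (fun l => x * ρ l + y * ρ' l) s = x * wLin k ρ s + y * wLin k ρ' s := by
  induction s with
  | nil => simp
  | cons a s ih =>
    rcases s with _ | ⟨b, s⟩
    · simp
    · rw [wLin_cons, wLin_cons, wLin_cons, ih]
      split_ifs <;> ring

theorem wLin_congr (k : L → K) {ρ ρ' : L → ℝ} {s : List L} (h : ∀ a ∈ s, ρ a = ρ' a) :
    wLin k ρ s = wLin k ρ' s := by
  induction s with
  | nil => simp
  | cons a s ih =>
    rcases s with _ | ⟨b, s⟩
    · simp
    · rw [wLin_cons, wLin_cons, ih (fun x hx => h x (by simp [hx])), h a (by simp), h b (by simp)]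

theorem wLin_congr_k {K' : Type} [LinearOrder K'] {k : L → K} {k' : L → K'} (ρ : L → ℝ)
    {s : List L} (h : ∀ a ∈ s, ∀ b ∈ s, a ≠ b → (k a < k b ↔ k' a < k' b)) :
    wLin k ρ s = wLin k' ρ s := by
  induction s with
  | nil => simp
  | cons a s ih =>
    rcases s with _ | ⟨b, s⟩
    · simp
    · rw [wLin_cons, wLin_cons,
        ih (fun x hx y hy => h x (List.mem_cons_of_mem _ hx) y (List.mem_cons_of_mem _ hy))]
      by_cases hab : a = b
      · subst hab; simp
      · simp only [h a (by simp) b (by simp) hab]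

theorem wLin_neg (k : L → K) (ρ : L → ℝ) (s : List L) :
    wLin k (fun l => -ρ l) s = -wLin k ρ s := by
  have := wLin_lin k ρ ρ (-1) 0 s
  simpa using this

/-- If the order refines the positions, the signed variation is the variation. -/
theorem wLin_eq_var (k : L → K) (ρ : L → ℝ) {s : List L}
    (h : ∀ a ∈ s, ∀ b ∈ s, (k a < k b → ρ a ≤ ρ b) ∧ (¬ k a < k b → ρ b ≤ ρ a)) :
    wLin k ρ s = Var (s.map ρ) := by
  induction s with
  | nil => simp [Var]
  | cons a s ih =>
    rcases s with _ | ⟨b, s⟩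
    · simp [Var]
    · rw [wLin_cons,
        ih (fun x hx y hy => h x (List.mem_cons_of_mem _ hx) y (List.mem_cons_of_mem _ hy))]
      simp only [List.map_cons, Var]
      have := h a (by simp) b (by simp)
      split_ifs with hab
      · rw [abs_of_nonneg (by linarith [this.1 hab])]
      · rw [abs_of_nonpos (by linarith [this.2 hab])]; ring

theorem loc_congr (k : L → K) {ρ ρ' : L → ℝ} (e1 e2 : ℝ) {s : List L}
    (h : ∀ a ∈ s, ρ a = ρ' a) : loc k ρ e1 e2 s = loc k ρ' e1 e2 s := by
  unfold loc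
  rw [wLin_congr k h]
  have h1 : hdv ρ s = hdv ρ' s := by
    rcases s with _ | ⟨a, s⟩
    · rfl
    · simp [h a (by simp)]
  have h2 : lsv ρ s = lsv ρ' s := by
    rcases List.eq_nil_or_concat s with rfl | ⟨t, a, rfl⟩
    · rfl
    · simp only [List.concat_eq_append] at h ⊢
      rw [lsv_concat, lsv_concat, h a (by simp)]
  rw [h1, h2]

theorem loc_lin (k : L → K) (ρ ρ' : L → ℝ) (x y e1 e2 : ℝ) (s : List L) :
    loc k (fun l => x * ρ l + y * ρ' l) e1 e2 s =
      x * loc k ρ e1 e2 s + y * loc k ρ' e1 e2 s := by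
  unfold loc
  rw [wLin_lin]
  have h1 : hdv (fun l => x * ρ l + y * ρ' l) s = x * hdv ρ s + y * hdv ρ' s := by
    rcases s with _ | ⟨a, s⟩
    · simp [hdv]
    · simp
  have h2 : lsv (fun l => x * ρ l + y * ρ' l) s = x * lsv ρ s + y * lsv ρ' s := by
    rcases List.eq_nil_or_concat s with rfl | ⟨t, a, rfl⟩
    · simp [lsv]
    · simp only [List.concat_eq_append]
      rw [lsv_concat, lsv_concat, lsv_concat]
  rw [h1, h2]; ring

/-- The sum formula. -/
theorem wLin_flatten {α K' : Type} [LinearOrder K'] (k : L → K) (ρ : L → ℝ) (κ : α → K')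
    (f : α → List L) (D : List α) (hne : ∀ x ∈ D, f x ≠ [])
    (hk : D.IsChain (fun x y => ∀ a ∈ f x, ∀ b ∈ f y, (k a < k b ↔ κ x < κ y))) (e : ℝ) :
    e * hdv ρ (D.map f).flatten + wLin k ρ (D.map f).flatten =
      sumE κ (fun e1 e2 x => loc k ρ e1 e2 (f x)) e D := by
  induction D generalizing e with
  | nil => simp [sumE, hdv]
  | cons x D ih =>
    rcases D with _ | ⟨y, D⟩
    · simp [sumE, loc]
    · have ih' := ih (fun z hz => hne z (List.mem_cons_of_mem _ hz)) hk.tail
        (if κ x < κ y then 1 else -1)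
      rw [sumE, ← ih']
      have hx := hne x (by simp)
      have hy := hne y (by simp)
      obtain ⟨s, a, hs⟩ : ∃ s a, f x = s ++ [a] := by
        rcases List.eq_nil_or_concat (f x) with h | ⟨t, a, h⟩
        · exact absurd h hx
        · exact ⟨t, a, by simpa using h⟩
      obtain ⟨b, t, ht⟩ : ∃ b t, f y = b :: t := List.exists_cons_of_ne_nil hy
      have hab : k a < k b ↔ κ x < κ y :=
        (List.isChain_cons_cons.1 hk).1 a (by simp [hs]) b (by simp [ht])
      have h1 : ((x :: y :: D).map f).flatten = s ++ a :: b :: (t ++ (D.map f).flatten) := by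
        simp [hs, ht]
      have h2 : ((y :: D).map f).flatten = b :: (t ++ (D.map f).flatten) := by simp [ht]
      have h3 : hdv ρ (s ++ a :: b :: (t ++ (D.map f).flatten)) = hdv ρ (s ++ [a]) := by
        rcases s with _ | ⟨c, s⟩ <;> simp
      rw [h1, h2, wLin_append, h3]
      simp only [loc, hs, lsv_concat, hdv_cons, hab]
      split_ifs <;> ring

end

theorem sumE_add {α K : Type} [LinearOrder K] (κ : α → K) (F F' : ℝ → ℝ → α → ℝ) (e : ℝ)
    (D : List α) : sumE κ F e D + sumE κ F' e D =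
      sumE κ (fun e1 e2 x => F e1 e2 x + F' e1 e2 x) e D := by
  induction D generalizing e with
  | nil => simp [sumE]
  | cons x D ih =>
    rcases D with _ | ⟨y, D⟩
    · simp [sumE]
    · simp only [sumE]
      rw [← ih]; ring

theorem sumE_ge {α K : Type} [LinearOrder K] (κ : α → K) (F : ℝ → ℝ → α → ℝ) (c : ℝ)
    (D : List α) (z : α)
    (hD : ∀ x ∈ D, ∀ e1 e2 : ℝ, (e1 = 1 ∨ e1 = -1) → (e2 = 1 ∨ e2 = -1) → 0 ≤ F e1 e2 x)
    (hz : ∀ e1 : ℝ, (e1 = 1 ∨ e1 = -1) → -c ≤ F e1 0 z) (e : ℝ) (he : e = 1 ∨ e = -1) :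
    -c ≤ sumE κ F e (D ++ [z]) := by
  induction D generalizing e with
  | nil => simpa [sumE] using hz e he
  | cons x D ih =>
    obtain ⟨y, D', hy⟩ : ∃ y D', D ++ [z] = y :: D' := List.exists_cons_of_ne_nil (by simp)
    have h1 := ih (fun w hw => hD w (List.mem_cons_of_mem _ hw)) (if κ x < κ y then 1 else -1)
      (by split_ifs <;> simp)
    rw [List.cons_append, hy, sumE, ← hy]
    have h2 := hD x (by simp) e (-(if κ x < κ y then 1 else -1)) he (by split_ifs <;> simp)
    linarith

section cmp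
variable {L C B : Type} [CommGroup C]

/-- Pointed block decomposition. -/
theorem exists_pdec (blk : L → B) (l m : L) (g : W L C) :
    (blk l = blk m ∧ Sup (blk ⁻¹' {blk l}) g) ∨
    ∃ (h0 : W L C) (d : List (B × W L C)) (h1 : W L C), Sup (blk ⁻¹' {blk l}) h0 ∧
      Sup (blk ⁻¹' {blk m}) h1 ∧ BDec blk d ∧
      (blk l :: (d.map Prod.fst ++ [blk m])).IsChain (· ≠ ·) ∧
      g = h0 * (d.map Prod.snd).prod * h1 := by
  classical
  -- first split off the head
  have key : ∀ g : W L C, ∃ (h0 : W L C) (d : List (B × W L C)), Sup (blk ⁻¹' {blk l}) h0 ∧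
      BDec blk d ∧ (blk l :: d.map Prod.fst).IsChain (· ≠ ·) ∧ g = h0 * (d.map Prod.snd).prod := by
    intro g
    obtain ⟨d, hd, rfl⟩ := exists_bdec blk g
    have hc : (d.map Prod.fst).IsChain (· ≠ ·) := by rw [List.isChain_map]; exact hd.2
    rcases d with _ | ⟨e, d⟩
    · exact ⟨1, [], sup_one_W _, hd, by simp, by simp⟩
    by_cases he : e.1 = blk l
    · exact ⟨e.2, d, he ▸ (hd.1 e (by simp)).2, hd.tail, he ▸ hc, by simp⟩
    · refine ⟨1, e :: d, sup_one_W _, hd, ?_, by simp⟩
      simp only [List.map_cons] at hc ⊢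
      exact List.isChain_cons_cons.2 ⟨fun h => he h.symm, hc⟩
  obtain ⟨h0, d, hh0, hd, hc, rfl⟩ := key g
  rcases List.eq_nil_or_concat d with rfl | ⟨d', e, rfl⟩
  · by_cases hlm : blk l = blk m
    · exact Or.inl ⟨hlm, by simpa using hh0⟩
    · exact Or.inr ⟨h0, [], 1, hh0, sup_one_W _, hd, by simpa using hlm, by simp⟩
  · simp only [List.concat_eq_append] at *
    right
    by_cases he : e.1 = blk m
    · refine ⟨h0, d', e.2, hh0, he ▸ (hd.1 e (by simp)).2,
        ⟨fun x hx => hd.1 x (by simp [hx]), hd.2.left_of_append⟩, ?_, by simp [mul_assoc]⟩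
      rw [← he]
      simpa using hc
    · refine ⟨h0, d' ++ [e], 1, hh0, sup_one_W _, hd, ?_, by simp⟩
      have : blk l :: ((d' ++ [e]).map Prod.fst ++ [blk m]) =
          (blk l :: (d' ++ [e]).map Prod.fst) ++ [blk m] := by simp
      rw [this, List.isChain_append]
      refine ⟨hc, by simp, ?_⟩
      intro x hx y hy
      have hx' : x = e.1 := by
        have : (blk l :: (d' ++ [e]).map Prod.fst) = (blk l :: d'.map Prod.fst) ++ [e.1] := by simp
        rw [this, List.getLast?_concat] at hx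
        simpa using hx.symm
      have hy' : y = blk m := by simpa using hy.symm
      rw [hx', hy']
      exact he

theorem lab_pdec {blk : L → B} {bl bm : B} {h0 h1 : W L C} {d : List (B × W L C)}
    (hh0 : Sup (blk ⁻¹' {bl}) h0) (hh1 : Sup (blk ⁻¹' {bm}) h1) (hd : BDec blk d)
    (hc : (bl :: (d.map Prod.fst ++ [bm])).IsChain (· ≠ ·)) :
    lab (h0 * (d.map Prod.snd).prod * h1) =
      lab h0 ++ (d.map (fun e => lab e.2)).flatten ++ lab h1 := by
  classical
  have hA : ∀ (b : B) (h : W L C), Sup (blk ⁻¹' {b}) h →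
      ∃ dd : List (B × W L C), (dd = [] ∨ dd = [(b, h)]) ∧ (∀ e ∈ dd, e.2 ≠ 1) ∧
        (dd.map Prod.snd).prod = h ∧ (dd.map (fun e => lab e.2)).flatten = lab h := by
    intro b h _
    by_cases h1 : h = 1
    · exact ⟨[], Or.inl rfl, by simp, by simp [h1], by simp [h1]⟩
    · exact ⟨[(b, h)], Or.inr rfl, by simpa using h1, by simp, by simp⟩
  obtain ⟨d0, hd0, hn0, hp0, hl0⟩ := hA bl h0 hh0
  obtain ⟨d1, hd1, hn1, hp1, hl1⟩ := hA bm h1 hh1
  have hB : BDec blk (d0 ++ d ++ d1) := by
    refine ⟨?_, ?_⟩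
    · intro e he
      rcases List.mem_append.1 he with he | he
      · rcases List.mem_append.1 he with he | he
        · refine ⟨hn0 e he, ?_⟩
          rcases hd0 with rfl | rfl
          · simp at he
          · rw [List.mem_singleton.1 he]; exact hh0
        · exact hd.1 e he
      · refine ⟨hn1 e he, ?_⟩
        rcases hd1 with rfl | rfl
        · simp at he
        · rw [List.mem_singleton.1 he]; exact hh1
    · have hfull : ((bl, h0) :: (d ++ [(bm, h1)])).IsChain
          (fun e e' : B × W L C => e.1 ≠ e'.1) := by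
        have : bl :: (d.map Prod.fst ++ [bm]) = ((bl, h0) :: (d ++ [(bm, h1)])).map Prod.fst := by
          simp
        rw [this, List.isChain_map] at hc
        exact hc
      rcases hd0 with rfl | rfl <;> rcases hd1 with rfl | rfl
      · simpa using hd.2
      · simpa using hfull.tail
      · have : ((bl, h0) :: (d ++ [(bm, h1)])) = ((bl, h0) :: d) ++ [(bm, h1)] := by simp
        rw [this] at hfull
        simpa using hfull.left_of_append
      · simpa using hfull
  have := hB.lab_prod.1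
  simpa [hp0, hp1, hl0, hl1, mul_assoc] using this

end cmp

end Pool.Agent.E5f.Wall

end

section

/-!
Local wall inequalities for lists.
-/

set_option autoImplicit false

namespace Pool.Agent.E5f.Wall

theorem var_cons_W (a b : ℝ) (s : List ℝ) : Var (a :: b :: s) = |b - a| + Var (b :: s) := by
  simp [Var]

theorem var_nonneg_W (s : List ℝ) : 0 ≤ Var s := by
  induction s with
  | nil => simp [Var]
  | cons a s ih =>
    rcases s with _ | ⟨b, s⟩
    · simp [Var]
    · rw [var_cons_W]; positivity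

theorem var_tri_W (x a : ℝ) (s : List ℝ) : Var (x :: s) ≤ |a - x| + Var (a :: s) := by
  rcases s with _ | ⟨b, s⟩
  · simp [Var]
  · rw [var_cons_W, var_cons_W]
    have := abs_sub_le b a x
    linarith

theorem var_sublist_cons {s' s : List ℝ} (h : s'.Sublist s) (x : ℝ) :
    Var (x :: s') ≤ Var (x :: s) := by
  induction h generalizing x with
  | slnil => exact le_rfl
  | cons a _ ih =>
    rw [var_cons_W]
    exact (ih x).trans (var_tri_W x a _)
  | cons_cons a _ ih =>
    rw [var_cons_W, var_cons_W]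
    linarith [ih a]

theorem var_concat_same (s : List ℝ) (a : ℝ) : Var (s ++ [a, a]) = Var (s ++ [a]) := by
  induction s with
  | nil => simp [Var]
  | cons b s ih =>
    rcases s with _ | ⟨c, s⟩
    · simp [Var]
    · simp only [List.cons_append, var_cons_W] at ih ⊢
      rw [ih]

section
variable {L : Type}

/-- The variation dominates the variation along any sublist extended by the two ends. -/
theorem var_sub_ends (u : L → ℝ) {s t : List L} (hs : s ≠ []) (ht : t.Sublist s) :
    Var (hdv u s :: (t.map u ++ [lsv u s])) ≤ Var (s.map u) := by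
  have h1 : Var (hdv u s :: (t.map u ++ [lsv u s])) ≤ Var (hdv u s :: (s.map u ++ [lsv u s])) :=
    var_sublist_cons ((ht.map u).append_right _) _
  refine h1.trans (le_of_eq ?_)
  obtain ⟨a, s1, rfl⟩ := List.exists_cons_of_ne_nil hs
  have h2 : Var (hdv u (a :: s1) :: ((a :: s1).map u ++ [lsv u (a :: s1)])) =
      Var ((a :: s1).map u ++ [lsv u (a :: s1)]) := by
    simp [var_cons_W]
  rw [h2]
  rcases List.eq_nil_or_concat (a :: s1) with h | ⟨t1, c, h⟩
  · exact absurd h hs
  · simp only [List.concat_eq_append] at h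
    rw [h, lsv_concat]
    have := var_concat_same (t1.map u) (u c)
    simpa using this

theorem var_ge_one (u : L → ℝ) {s : List L} {p : L} (hp : p ∈ s) :
    |u p - hdv u s| + |lsv u s - u p| ≤ Var (s.map u) := by
  have := var_sub_ends u (List.ne_nil_of_mem hp) (List.singleton_sublist.2 hp)
  simpa [Var] using this

theorem var_ge_zero (u : L → ℝ) {s : List L} (hs : s ≠ []) :
    |lsv u s - hdv u s| ≤ Var (s.map u) := by
  have := var_sub_ends u hs (List.nil_sublist s)
  simpa [Var] using this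

theorem hdv_mem (u : L → ℝ) {s : List L} (hs : s ≠ []) : ∃ a ∈ s, hdv u s = u a := by
  obtain ⟨a, s1, rfl⟩ := List.exists_cons_of_ne_nil hs
  exact ⟨a, by simp, rfl⟩

theorem lsv_mem (u : L → ℝ) {s : List L} (hs : s ≠ []) : ∃ a ∈ s, lsv u s = u a := by
  rcases List.eq_nil_or_concat s with h | ⟨t1, c, h⟩
  · exact absurd h hs
  · simp only [List.concat_eq_append] at h
    exact ⟨c, by simp [h], by rw [h, lsv_concat]⟩

theorem var_map_sign (u : L → ℝ) {ε : ℝ} (hε : ε = 1 ∨ ε = -1) (s : List L) :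
    Var (s.map (fun l => ε * u l)) = Var (s.map u) := by
  induction s with
  | nil => simp
  | cons a s ih =>
    rcases s with _ | ⟨b, s⟩
    · simp [Var]
    · simp only [List.map_cons, var_cons_W] at ih ⊢
      rw [ih, ← mul_sub, abs_mul]
      rcases hε with rfl | rfl <;> simp

variable {K : Type} [LinearOrder K]

/-- The order `k` refines the function `ρ` on the set `A`. -/
def Refi (k : L → K) (ρ : L → ℝ) (A : Set L) : Prop :=
  ∀ a ∈ A, ∀ b ∈ A, (k a < k b → ρ a ≤ ρ b) ∧ (¬ k a < k b → ρ b ≤ ρ a)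

theorem loc_sign {k : L → K} {u : L → ℝ} {ε : ℝ} (hε : ε = 1 ∨ ε = -1) {A : Set L}
    (h : Refi k (fun l => ε * u l) A) {s : List L} (hs : ∀ a ∈ s, a ∈ A) (e1 e2 : ℝ) :
    loc k (fun l => ε * u l) e1 e2 s =
      ε * e1 * hdv u s + Var (s.map u) + ε * e2 * lsv u s := by
  have h1 := loc_lin k u u ε 0 e1 e2 s
  have h2 := wLin_lin k u u ε 0 s
  simp only [zero_mul, add_zero] at h1 h2
  have h3 := wLin_eq_var k (fun l => ε * u l) (s := s) (fun a ha b hb => h a (hs a ha) b (hs b hb))
  rw [var_map_sign u hε] at h3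
  rw [h1, loc, ← h3, h2]
  ring

theorem loc_odd {k k' : L → K} {u : L → ℝ} {ε : ℝ} (hε : ε = 1 ∨ ε = -1) {A : Set L}
    (h : Refi k (fun l => ε * u l) A) (h' : Refi k' (fun l => (-ε) * u l) A) {s s' : List L}
    (hs : ∀ a ∈ s, a ∈ A) (hs' : ∀ a ∈ s', a ∈ A) {p p' : L} (hp : p ∈ s) (hp' : p' ∈ s')
    (hpp : u p = u p') {e1 e2 : ℝ} (he1 : |e1| ≤ 1) (he2 : |e2| ≤ 1) :
    0 ≤ loc k (fun l => ε * u l) e1 e2 s + loc k' (fun l => (-ε) * u l) e1 e2 s' := by
  rw [loc_sign hε h hs, loc_sign (by rcases hε with rfl | rfl <;> simp) h' hs']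
  have h1 := var_ge_one u hp
  have h2 := var_ge_one u hp'
  rw [← hpp] at h2
  have hε1 : |ε| = 1 := by rcases hε with rfl | rfl <;> simp
  have b1 : ∀ e x : ℝ, |e| ≤ 1 → -|x| ≤ ε * e * x := by
    intro e x he
    have : |ε * e * x| ≤ |x| := by
      rw [abs_mul, abs_mul, hε1, one_mul]
      exact mul_le_of_le_one_left (abs_nonneg _) he
    linarith [neg_abs_le (ε * e * x)]
  have c1 := b1 e1 (hdv u s - u p) he1
  have c2 := b1 e1 (u p - hdv u s') he1
  have c3 := b1 e2 (lsv u s - u p) he2
  have c4 := b1 e2 (u p - lsv u s') he2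
  rw [abs_sub_comm] at c1 c4
  nlinarith

theorem loc_even {k k' : L → K} {u : L → ℝ} (hu : ∀ a, u a = 0 ∨ u a = 1) {ε : ℝ}
    (hε : ε = 1 ∨ ε = -1) {A : Set L}
    (h : Refi k (fun l => ε * u l) A) (h' : Refi k' (fun l => ε * u l) A) {s s' : List L}
    (hs : ∀ a ∈ s, a ∈ A) (hs' : ∀ a ∈ s', a ∈ A) (hn : s ≠ []) (hn' : s' ≠ [])
    (hq : (∀ a ∈ s, u a = 1) → ∃ a b c, [a, b, c].Sublist s' ∧ u a = 0 ∧ u b = 1 ∧ u c = 0)
    (hq' : (∀ a ∈ s', u a = 1) → ∃ a b c, [a, b, c].Sublist s ∧ u a = 0 ∧ u b = 1 ∧ u c = 0)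
    {e1 e2 : ℝ} (he1 : e1 = 1 ∨ e1 = -1) (he2 : e2 = 1 ∨ e2 = -1) :
    0 ≤ loc k (fun l => ε * u l) e1 e2 s + loc k' (fun l => ε * u l) e1 e2 s' := by
  rw [loc_sign hε h hs, loc_sign hε h' hs']
  have r : ∀ t : List L, t ≠ [] → (0 ≤ hdv u t ∧ hdv u t ≤ 1) ∧ (0 ≤ lsv u t ∧ lsv u t ≤ 1) := by
    intro t ht
    obtain ⟨a, -, ha⟩ := hdv_mem u ht
    obtain ⟨b, -, hb⟩ := lsv_mem u ht
    rw [ha, hb]
    rcases hu a with h | h <;> rcases hu b with h' | h' <;> simp [h, h']
  have z : ∀ t : List L, t ≠ [] → (∀ a ∈ t, u a = 1) ∨ hdv u t + lsv u t ≤ Var (t.map u) := by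
    intro t ht
    by_cases h1 : ∀ a ∈ t, u a = 1
    · exact Or.inl h1
    · right
      push Not at h1
      obtain ⟨p, hp, hp1⟩ := h1
      have hp0 : u p = 0 := (hu p).resolve_right hp1
      have := var_ge_one u hp
      rw [hp0, zero_sub, sub_zero, abs_neg] at this
      linarith [le_abs_self (hdv u t), le_abs_self (lsv u t)]
  have y : ∀ t : List L, t ≠ [] →
      (∃ a b c, [a, b, c].Sublist t ∧ u a = 0 ∧ u b = 1 ∧ u c = 0) →
      hdv u t + lsv u t + 2 ≤ Var (t.map u) := by
    rintro t ht ⟨a, b, c, h1, ha, hb, hc⟩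
    have := var_sub_ends u ht h1
    simp only [List.map_cons, List.map_nil, ha, hb, hc, List.cons_append, List.nil_append,
      Var] at this
    norm_num at this
    linarith [le_abs_self (hdv u t), le_abs_self (lsv u t)]
  have r1 := r s hn
  have r2 := r s' hn'
  have v1 := abs_le.1 (var_ge_zero u hn)
  have v2 := abs_le.1 (var_ge_zero u hn')
  have w1 := var_nonneg_W (s.map u)
  have w2 := var_nonneg_W (s'.map u)
  have key : hdv u s + lsv u s + (hdv u s' + lsv u s') ≤ Var (s.map u) + Var (s'.map u) := by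
    rcases z s hn with h1 | h1
    · have := y s' hn' (hq h1)
      linarith [r1.1.2, r1.2.2]
    · rcases z s' hn' with h2 | h2
      · have := y s hn (hq' h2)
        linarith [r2.1.2, r2.2.2]
      · linarith
  rcases hε with rfl | rfl <;> rcases he1 with rfl | rfl <;> rcases he2 with rfl | rfl <;>
    linarith [r1.1.1, r1.2.1, r2.1.1, r2.2.1, v1.1, v1.2, v2.1, v2.2]

theorem loc_end {k : L → K} {u : L → ℝ} (hu : ∀ a, u a = 0 ∨ u a = 1) {ε : ℝ}
    (hε : ε = 1 ∨ ε = -1) {A : Set L} (h : Refi k (fun l => ε * u l) A) {s : List L}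
    (hs : ∀ a ∈ s, a ∈ A) (hn : s ≠ []) {e : ℝ} (he : e = 1 ∨ e = -1) :
    -1 ≤ loc k (fun l => ε * u l) 0 e s ∧ -1 ≤ loc k (fun l => ε * u l) e 0 s := by
  rw [loc_sign hε h hs, loc_sign hε h hs]
  obtain ⟨a, -, ha⟩ := hdv_mem u hn
  obtain ⟨b, -, hb⟩ := lsv_mem u hn
  have w1 := var_nonneg_W (s.map u)
  rw [ha, hb]
  clear h
  rcases hu a with h | h <;> rcases hu b with h' | h' <;> rcases hε with rfl | rfl <;>
    rcases he with rfl | rfl <;> simp only [h, h'] <;> constructor <;> linarith

end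

section grp
variable {L C B : Type} [CommGroup C]

theorem expo_of_not_mem {a : L} {h : W L C} (ha : a ∉ lab h) : expo a h = 1 := by
  classical
  have key : ∀ w : List (L × C), (∀ e ∈ w, e.1 ≠ a) → expo a (ev w) = 1 := by
    intro w
    induction w with
    | nil => intro _; simp
    | cons e w ih =>
      intro hw
      rw [ev_cons, map_mul, expo_lt, if_neg (hw e (by simp)), ih (fun x hx => hw x (by simp [hx])),
        one_mul]
  have := key (wd h) (fun e he hea => ha (hea ▸ List.mem_map.2 ⟨e, he, rfl⟩))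
  rwa [ev_wd] at this

theorem eq_lt_of_sup {a : L} {h : W L C} (hh : ∀ b ∈ lab h, b = a) : h = lt a (expo a h) := by
  classical
  have key : ∀ w : List (L × C), (∀ e ∈ w, e.1 = a) → ev w = lt a (expo a (ev w)) := by
    intro w
    induction w with
    | nil => intro _; simp
    | cons e w ih =>
      intro hw
      rw [ev_cons, map_mul, expo_lt, if_pos (hw e (by simp)), lt_mul,
        ← ih (fun x hx => hw x (by simp [hx])), hw e (by simp)]
  have := key (wd h) (fun e he => hh _ (List.mem_map.2 ⟨e, he, rfl⟩))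
  rwa [ev_wd] at this

theorem zo_eq {x y z : ℝ} (hx : x = 0 ∨ x = 1) (hy : y = 0 ∨ y = 1) (hz : z = 0 ∨ z = 1)
    (h1 : x ≠ y) (h2 : z ≠ y) : z = x := by
  rcases hx with rfl | rfl <;> rcases hy with rfl | rfl <;> rcases hz with rfl | rfl <;>
    first | rfl | exact absurd rfl h1 | exact absurd rfl h2

/-- Two nontrivial elements with the same exponents have labels with a common value of a zero-one
function, one of whose values is taken only once. -/
theorem common_val {u : L → ℝ} (hu : ∀ a, u a = 0 ∨ u a = 1) {A : Set L} {p0 : ℝ}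
    (hA : ∀ a ∈ A, ∀ b ∈ A, u a = p0 → u b = p0 → a = b) (hp0 : p0 = 0 ∨ p0 = 1) {h h' : W L C}
    (hh : Sup A h) (hh' : Sup A h') (h1 : h ≠ 1) (h1' : h' ≠ 1)
    (he : ∀ a, expo a h' = expo a h) : ∃ p ∈ lab h, ∃ p' ∈ lab h', u p = u p' := by
  by_contra hc
  push Not at hc
  have key : ∀ h h' : W L C, Sup A h → h ≠ 1 → (∀ a, expo a h' = expo a h) →
      (∀ p ∈ lab h, u p = p0) → (∀ p ∈ lab h', u p ≠ p0) → False := by
    intro h h' hh h1 he hp hp'
    obtain ⟨a, ha⟩ := List.exists_mem_of_ne_nil _ (fun h0 => h1 (lab_eq_nil.1 h0))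
    have h2 := eq_lt_of_sup (a := a) (h := h)
      (fun b hb => hA b (hh b hb) a (hh a ha) (hp b hb) (hp a ha))
    rw [← he, expo_of_not_mem (fun h3 => hp' a h3 (hp a ha)), lt_one] at h2
    exact h1 h2
  obtain ⟨a, ha⟩ := List.exists_mem_of_ne_nil _ (fun h0 => h1 (lab_eq_nil.1 h0))
  obtain ⟨a', ha'⟩ := List.exists_mem_of_ne_nil _ (fun h0 => h1' (lab_eq_nil.1 h0))
  by_cases hap : u a = p0
  · refine key h h' hh h1 he (fun p hp => ?_) (fun p hp h3 => hc a ha p hp (hap.trans h3.symm))
    exact (zo_eq (hu a) (hu a') (hu p) (hc a ha a' ha') (hc p hp a' ha')).trans hap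
  · have hap' : u a' = p0 := zo_eq hp0 (hu a) (hu a') (Ne.symm hap) (hc a ha a' ha').symm
    refine key h' h hh' h1' (fun a => (he a).symm) (fun p hp => ?_)
      (fun p hp h3 => hc p hp a' ha' (h3.trans hap'.symm))
    exact (zo_eq (hu a') (hu a) (hu p) (hc a ha a' ha').symm (hc a ha p hp).symm).trans hap'

end grp

end Pool.Agent.E5f.Wall

end

section

/-!
Sums over syllables with context, and counting of turns and mixed runs.
-/

set_option autoImplicit false
set_option linter.unusedSimpArgs false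
set_option linter.unusedSectionVars false

namespace Pool.Agent.E5f.Wall

open Classical

section sums
variable {α K : Type} [LinearOrder K] (κ : α → K)

/-- The sign of a step. -/
noncomputable def sgx (x y : α) : ℝ := if κ x < κ y then 1 else -1

theorem sgx_cases (x y : α) : sgx κ x y = 1 ∨ sgx κ x y = -1 := by
  unfold sgx; split_ifs <;> simp

theorem sumE_cons (F : ℝ → ℝ → α → ℝ) (e : ℝ) (x y : α) (D : List α) :
    sumE κ F e (x :: y :: D) = F e (-sgx κ x y) x + sumE κ F (sgx κ x y) (y :: D) := rfl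

theorem sumE_one (F : ℝ → ℝ → α → ℝ) (e : ℝ) (x : α) : sumE κ F e [x] = F e 0 x := rfl

theorem sumE_tel (D : List α) (x : α) (e : ℝ) :
    sumE κ (fun e1 e2 _ => e1 + e2) e (x :: D) = e := by
  induction D generalizing x e with
  | nil => simp [sumE_one]
  | cons y D ih => rw [sumE_cons, ih]; ring

theorem sumE_lin (F F' F'' : ℝ → ℝ → α → ℝ) (s t : ℝ) (e : ℝ) (D : List α) :
    sumE κ (fun e1 e2 x => F e1 e2 x - s * F' e1 e2 x - t * F'' e1 e2 x) e D =
      sumE κ F e D - s * sumE κ F' e D - t * sumE κ F'' e D := by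
  induction D generalizing e with
  | nil => simp [sumE]
  | cons x D ih =>
    rcases D with _ | ⟨y, D⟩
    · simp [sumE]
    · rw [sumE_cons, sumE_cons, sumE_cons, sumE_cons, ih]; ring

theorem sumE_ctx_aux (F : ℝ → ℝ → α → ℝ) (c : ℝ) (D : List α) (x y : α)
    (hz : ∀ z ∈ y :: D, ∀ e : ℝ, (e = 1 ∨ e = -1) → -c ≤ F e 0 z)
    (hD : ∀ D1 x' y' z D2, x :: y :: D = D1 ++ x' :: y' :: z :: D2 →
      0 ≤ F (sgx κ x' y') (-sgx κ y' z) y') : -c ≤ sumE κ F (sgx κ x y) (y :: D) := by
  induction D generalizing x y with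
  | nil => exact hz y (by simp) _ (sgx_cases κ x y)
  | cons z D ih =>
    rw [sumE_cons]
    have h1 := ih y z (fun w hw => hz w (List.mem_cons_of_mem _ hw))
      (fun D1 x' y' z' D2 e => hD (x :: D1) x' y' z' D2 (by rw [e]; rfl))
    have h2 := hD [] x y z D rfl
    linarith

theorem sumE_ctx (F : ℝ → ℝ → α → ℝ) {c : ℝ} (hc : 0 ≤ c) (D : List α)
    (hz : ∀ z ∈ D, ∀ e : ℝ, (e = 1 ∨ e = -1 ∨ e = 0) → -c ≤ F e 0 z ∧ -c ≤ F 0 e z)
    (hD : ∀ D1 x y z D2, D = D1 ++ x :: y :: z :: D2 → 0 ≤ F (sgx κ x y) (-sgx κ y z) y) :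
    -(2 * c) ≤ sumE κ F 0 D := by
  rcases D with _ | ⟨x, _ | ⟨y, D⟩⟩
  · simp [sumE, hc]
  · have := (hz x (by simp) 0 (by simp)).1
    rw [sumE_one]; linarith
  · rw [sumE_cons]
    have h1 := sumE_ctx_aux κ F c D x y
      (fun z hz' e he => (hz z (List.mem_cons_of_mem _ hz') e (by tauto)).1) hD
    have h2 := (hz x (by simp) (-sgx κ x y) (by rcases sgx_cases κ x y with h | h <;> simp [h])).2
    linarith

variable {L : Type}

theorem cnt_app {N : List L → ℕ} (h1 : ∀ a l, N (a :: l) ≤ 1 + N l) (s t : List L) :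
    N (s ++ t) ≤ s.length + N t := by
  induction s with
  | nil => simp
  | cons a s ih =>
    have := h1 a (s ++ t)
    simp only [List.cons_append, List.length_cons]
    omega

theorem cnt_aux {N : List L → ℕ} (h1 : ∀ a l, N (a :: l) ≤ 1 + N l) (h0 : ∀ a, N [a] = 0)
    (f : α → List L) (Cl : ℝ → ℝ → α → Prop) (hC : ∀ e x, ¬ Cl e 0 x) (D : List α) (x y : α)
    (hne : ∀ z ∈ y :: D, f z ≠ [])
    (h2 : ∀ D1 x' y' z D2, x :: y :: D = D1 ++ x' :: y' :: z :: D2 →
      Cl (sgx κ x' y') (-sgx κ y' z) y' → ∀ a ∈ f x', ∀ b ∈ f z, ∀ s l t, f y' = s ++ [l] →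
      N (a :: (s ++ l :: b :: t)) ≤ N (l :: b :: t)) (a : L) (ha : a ∈ f x) :
    (N (a :: ((y :: D).map f).flatten) : ℝ) ≤
      sumE κ (fun e1 e2 z => if Cl e1 e2 z then 0 else ((f z).length : ℝ)) (sgx κ x y) (y :: D) := by
  induction D generalizing x y a with
  | nil =>
    obtain ⟨s, l, hs⟩ : ∃ s l, f y = s ++ [l] :=
      ⟨_, _, (List.dropLast_append_getLast (hne y (by simp))).symm⟩
    rw [sumE_one, if_neg (hC _ _)]
    have := cnt_app h1 (a :: s) [l]
    rw [h0] at this
    simp only [List.map_cons, List.map_nil, List.flatten_cons, List.flatten_nil, List.append_nil,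
      hs, List.length_append, List.length_singleton]
    exact_mod_cast this
  | cons z D ih =>
    obtain ⟨s, l, hs⟩ : ∃ s l, f y = s ++ [l] :=
      ⟨_, _, (List.dropLast_append_getLast (hne y (by simp))).symm⟩
    obtain ⟨b, t, ht⟩ := List.exists_cons_of_ne_nil (hne z (by simp))
    have h3 := ih y z (fun w hw => hne w (List.mem_cons_of_mem _ hw))
      (fun D1 x' y' z' D2 e => h2 (x :: D1) x' y' z' D2 (by rw [e]; rfl)) l (by simp [hs])
    have e1 : ((z :: D).map f).flatten = b :: (t ++ (D.map f).flatten) := by simp [ht]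
    have e2 : ((y :: z :: D).map f).flatten = s ++ l :: b :: (t ++ (D.map f).flatten) := by
      simp [hs, ht]
    rw [e1] at h3
    rw [sumE_cons, e2]
    split_ifs with hc
    · have := h2 [] x y z D rfl hc a ha b (by simp [ht]) s l (t ++ (D.map f).flatten) hs
      have : (N (a :: (s ++ l :: b :: (t ++ (D.map f).flatten))) : ℝ) ≤
          N (l :: b :: (t ++ (D.map f).flatten)) := by exact_mod_cast this
      linarith
    · have := cnt_app h1 (a :: s) (l :: b :: (t ++ (D.map f).flatten))
      have : (N (a :: (s ++ l :: b :: (t ++ (D.map f).flatten))) : ℝ) ≤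
          ((f y).length : ℝ) + N (l :: b :: (t ++ (D.map f).flatten)) := by
        rw [hs]
        simp only [List.length_append, List.length_singleton]
        exact_mod_cast this
      linarith

theorem cnt_le {N : List L → ℕ} (h1 : ∀ a l, N (a :: l) ≤ 1 + N l) (h0 : ∀ a, N [a] = 0)
    (f : α → List L) (Cl : ℝ → ℝ → α → Prop) (hC : ∀ e x, ¬ Cl e 0 x) (hC' : ∀ e x, ¬ Cl 0 e x)
    (D : List α) (hD : D ≠ []) (hne : ∀ z ∈ D, f z ≠ [])
    (h2 : ∀ D1 x y z D2, D = D1 ++ x :: y :: z :: D2 →
      Cl (sgx κ x y) (-sgx κ y z) y → ∀ a ∈ f x, ∀ b ∈ f z, ∀ s l t, f y = s ++ [l] →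
      N (a :: (s ++ l :: b :: t)) ≤ N (l :: b :: t)) :
    (N (D.map f).flatten : ℝ) ≤
      sumE κ (fun e1 e2 z => if Cl e1 e2 z then 0 else ((f z).length : ℝ)) 0 D := by
  obtain ⟨x, D, rfl⟩ := List.exists_cons_of_ne_nil hD
  obtain ⟨s, l, hs⟩ : ∃ s l, f x = s ++ [l] :=
    ⟨_, _, (List.dropLast_append_getLast (hne x (by simp))).symm⟩
  have h4 := cnt_app h1 s (l :: (D.map f).flatten)
  have e : ((x :: D).map f).flatten = s ++ l :: (D.map f).flatten := by simp [hs]
  have h5 : (N ((x :: D).map f).flatten : ℝ) ≤ (f x).length + N (l :: (D.map f).flatten) := by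
    rw [e, hs]
    simp only [List.length_append, List.length_singleton]
    exact_mod_cast (by omega)
  rcases D with _ | ⟨y, D⟩
  · rw [sumE_one, if_neg (hC _ _)]
    simpa [h0] using h5
  · rw [sumE_cons, if_neg (hC' _ _)]
    have := cnt_aux κ h1 h0 f Cl hC D x y (fun w hw => hne w (List.mem_cons_of_mem _ hw)) h2 l
      (by simp [hs])
    linarith

theorem chain3 {R : α → α → Prop} {D D1 D2 : List α} {x y z : α} (h : D.IsChain R)
    (e : D = D1 ++ x :: y :: z :: D2) : R x y ∧ R y z := by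
  rw [e] at h
  have := h.right_of_append
  exact ⟨(List.isChain_cons_cons.1 this).1, (List.isChain_cons_cons.1 this.tail).1⟩

end sums

section trn
variable {L κ : Type} [LinearOrder κ] {k : L → κ}

theorem turns_cons (a : L) (l : List L) : turns k (a :: l) ≤ 1 + turns k l := by
  rcases l with _ | ⟨b, _ | ⟨c, l⟩⟩
  · simp [turns]
  · simp [turns]
  · rw [turns]; split_ifs <;> omega

theorem turns_mn {d : Prop} (A : List L) (l b : L) (t : List L)
    (h : (A ++ [l, b]).IsChain (fun x y => (k x < k y ↔ d))) :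
    turns k (A ++ l :: b :: t) = turns k (l :: b :: t) := by
  induction A with
  | nil => rfl
  | cons a A ih =>
    rw [← ih h.tail]
    rcases A with _ | ⟨a1, _ | ⟨a2, A⟩⟩ <;>
      simp only [List.cons_append, List.nil_append, List.isChain_cons_cons] at h ⊢ <;>
      rw [turns, if_pos (h.1.trans h.2.1.symm), zero_add]

theorem mono_mn {d : Bool} {s : List L} (h : Mono k d s) :
    s.IsChain (fun x y => (k x < k y ↔ d = true)) := by
  refine List.IsChain.imp (fun x y hxy => ?_) h
  cases d
  · simpa using le_of_lt hxy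
  · simpa using hxy

theorem ex_turn (s : List L) (a l b : L) (t : List L)
    (h : ¬ (k a < k ((s ++ [l]).head (by simp)) ↔ k l < k b)) :
    ∃ x ∈ s ++ [l], TurnAt k (a :: (s ++ l :: b :: t)) x := by
  induction s generalizing a with
  | nil => exact ⟨l, by simp, [], t, a, b, rfl, h⟩
  | cons x s ih =>
    by_cases h2 : k x < k ((s ++ [l]).head (by simp)) ↔ k l < k b
    · refine ⟨x, by simp, [], (s ++ l :: b :: t).tail, a, (s ++ [l]).head (by simp), ?_, ?_⟩
      · rcases s with _ | ⟨y, s⟩ <;> rfl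
      · rw [h2]; exact h
    · obtain ⟨y, hy, A, B, a', c, e, h3⟩ := ih x h2
      exact ⟨y, List.mem_cons_of_mem _ hy, a :: A, B, a', c, by rw [List.cons_append, e]; rfl, h3⟩

end trn

section mix
variable {L B : Type} (bk : L → B) (P : List L → Prop)

/-- After the first entry there is a complete run in one block with the property `P`. -/
def Qr (t : List L) : Prop := ∃ a r b rest β, t = a :: (r ++ b :: rest) ∧ r ≠ [] ∧
  (∀ z ∈ r, bk z = β) ∧ bk a ≠ β ∧ bk b ≠ β ∧ P r

/-- The number of complete runs with the property `P`. -/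
noncomputable def cntM : List L → ℕ
  | [] => 0
  | a :: l => (if Qr bk P (a :: l) then 1 else 0) + cntM l

variable {bk P}

theorem cntM_cons (a : L) (l : List L) : cntM bk P (a :: l) ≤ 1 + cntM bk P l := by
  rw [cntM]; split_ifs <;> omega

theorem cntM_one (a : L) : cntM bk P [a] = 0 := by
  rw [cntM, if_neg]
  · rfl
  · rintro ⟨a', r, b, rest, β, e, -⟩
    simp at e

theorem cntM_app (A l : List L) : cntM bk P l ≤ cntM bk P (A ++ l) := by
  induction A with
  | nil => exact le_rfl
  | cons a A ih => rw [List.cons_append, cntM]; omega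

theorem cntM_app' (A1 : List L) (a : L) (A2 l : List L) (h : Qr bk P (a :: (A2 ++ l))) :
    1 + cntM bk P l ≤ cntM bk P (A1 ++ a :: (A2 ++ l)) := by
  refine le_trans ?_ (cntM_app A1 _)
  rw [cntM, if_pos h]
  have := cntM_app (bk := bk) (P := P) A2 l
  omega

theorem run_unique {π : L → Prop} {r r' : List L} {b b' : L} {t t' : List L} (h : ∀ z ∈ r, π z)
    (h' : ∀ z ∈ r', π z) (hb : ¬ π b) (hb' : ¬ π b') (e : r ++ b :: t = r' ++ b' :: t') :
    r = r' := by
  induction r generalizing r' with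
  | nil =>
    rcases r' with _ | ⟨x, r'⟩
    · rfl
    · simp only [List.nil_append, List.cons_append, List.cons.injEq] at e
      exact absurd (e.1 ▸ h' x (by simp)) hb
  | cons x r ih =>
    rcases r' with _ | ⟨y, r'⟩
    · simp only [List.nil_append, List.cons_append, List.cons.injEq] at e
      exact absurd (e.1 ▸ h x (by simp)) hb'
    · simp only [List.cons_append, List.cons.injEq] at e
      rw [e.1, ih (fun z hz => h z (by simp [hz])) (fun z hz => h' z (by simp [hz])) e.2]

theorem cntM_run {β : B} (s : List L) (l : L) (t : List L) (h : ∀ z ∈ s ++ [l], bk z = β) :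
    cntM bk P (s ++ l :: t) = cntM bk P (l :: t) := by
  induction s with
  | nil => rfl
  | cons x s ih =>
    rw [List.cons_append, cntM, if_neg, ih (fun z hz => h z (List.mem_cons_of_mem _ hz)), zero_add]
    rintro ⟨a, r, b, rest, β', e, hr, h1, h2, -⟩
    obtain ⟨y, r, rfl⟩ := List.exists_cons_of_ne_nil hr
    simp only [List.cons_append, List.cons.injEq] at e
    have hy : y ∈ s ++ [l] := by
      rcases s with _ | ⟨w, s⟩ <;> simp only [List.nil_append, List.cons_append,
        List.cons.injEq] at e <;> simp [e.2.1]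
    exact h2 (by rw [← e.1, h x (by simp), ← h1 y (by simp), h y (List.mem_cons_of_mem _ hy)])

theorem cntM_clean {β : B} (a : L) (s : List L) (l b : L) (t : List L)
    (h : ∀ z ∈ s ++ [l], bk z = β) (hb : bk b ≠ β) (hP : ¬ P (s ++ [l])) :
    cntM bk P (a :: (s ++ l :: b :: t)) ≤ cntM bk P (l :: b :: t) := by
  rw [cntM, if_neg, cntM_run s l _ h, zero_add]
  rintro ⟨a', r, b', rest, β', e, hr, h1, -, h3, h4⟩
  simp only [List.cons.injEq] at e
  have e' : (s ++ [l]) ++ b :: t = r ++ b' :: rest := by simpa using e.2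
  have hβ : β' = β := by
    obtain ⟨y, r, rfl⟩ := List.exists_cons_of_ne_nil hr
    have hy : y ∈ s ++ [l] := by
      rcases s with _ | ⟨w, s⟩ <;> simp only [List.nil_append, List.cons_append,
        List.cons.injEq] at e' <;> simp [e'.1]
    rw [← h1 y (by simp), h y hy]
  subst hβ
  exact hP (run_unique (π := fun z => bk z = β') h h1 hb h3 e' ▸ h4)

theorem split_first (π : L → Prop) (A : List L) :
    (∀ z ∈ A, π z) ∨ ∃ r b t, A = r ++ b :: t ∧ ¬ π b ∧ ∀ z ∈ r, π z := by
  induction A with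
  | nil => simp
  | cons a A ih =>
    by_cases ha : π a
    · rcases ih with h | ⟨r, b, t, rfl, h1, h2⟩
      · left; simpa using ⟨ha, h⟩
      · right; exact ⟨a :: r, b, t, rfl, h1, by simpa using ⟨ha, h2⟩⟩
    · exact Or.inr ⟨[], a, A, rfl, ha, by simp⟩

theorem split_last (π : L → Prop) (A : List L) :
    (∀ z ∈ A, π z) ∨ ∃ t b r, A = t ++ b :: r ∧ ¬ π b ∧ ∀ z ∈ r, π z := by
  rcases split_first π A.reverse with h | ⟨r, b, t, e, h1, h2⟩
  · left; simpa using h
  · right
    refine ⟨t.reverse, b, r.reverse, ?_, h1, by simpa using h2⟩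
    rw [← List.reverse_reverse A, e]; simp

/-- A piece whose ends lie outside the block of one of its entries contains a complete run. -/
theorem ex_run {q : List L} {x : L} (hx : x ∈ q) (h1 : ∀ z, q.head? = some z → bk z ≠ bk x)
    (h2 : ∀ z, q.getLast? = some z → bk z ≠ bk x) : ∃ A a r b t, q = A ++ a :: (r ++ b :: t) ∧
      x ∈ r ∧ (∀ z ∈ r, bk z = bk x) ∧ bk a ≠ bk x ∧ bk b ≠ bk x := by
  obtain ⟨A, C, rfl⟩ := List.append_of_mem hx
  rcases split_last (fun z => bk z = bk x) A with h | ⟨A1, a, r1, rfl, ha, hr1⟩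
  · rcases A with _ | ⟨z, A⟩
    · exact absurd rfl (h1 x rfl)
    · exact absurd (h z (by simp)) (h1 z rfl)
  rcases split_first (fun z => bk z = bk x) C with h | ⟨r2, b, t, rfl, hb, hr2⟩
  · rcases List.eq_nil_or_concat C with rfl | ⟨C, z, rfl⟩
    · exact absurd rfl (h2 x List.getLast?_concat)
    · refine absurd (h z (by simp)) (h2 z ?_)
      rw [List.concat_eq_append, ← List.cons_append, ← List.append_assoc, List.getLast?_concat]
  refine ⟨A1, a, r1 ++ x :: r2, b, t, by simp, by simp, ?_, ha, hb⟩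
  intro z hz
  rcases List.mem_append.1 hz with hz | hz
  · exact hr1 z hz
  · rcases List.mem_cons.1 hz with rfl | hz
    · rfl
    · exact hr2 z hz

theorem count_le_cntM {M : List L → Prop}
    (hM : ∀ q, M q → ∃ A a r b t β, q = A ++ a :: (r ++ b :: t) ∧ r ≠ [] ∧ (∀ z ∈ r, bk z = β) ∧
      bk a ≠ β ∧ bk b ≠ β ∧ P r) {D : List (List L)} {p : List L} (h : Dec D p) :
    D.countP (fun q => decide (M q)) ≤ cntM bk P p := by
  refine dec_ind_LsBasic (P := fun D p => D.countP (fun q => decide (M q)) ≤ cntM bk P p)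
    (fun q => ?_) (fun A x C D ih => ?_) h
  · rw [List.countP_cons]
    split_ifs with hq
    · obtain ⟨A, a, r, b, t, β, rfl, h⟩ := hM q (by simpa using hq)
      have := cntM_app' A a (r ++ b :: t) [] ⟨a, r, b, t, β, by simp, h⟩
      simpa [cntM] using this
    · simp
  · rw [List.countP_cons]
    split_ifs with hq
    · obtain ⟨A1, a, r, b, t, β, e, h⟩ := hM _ (by simpa using hq)
      obtain ⟨A2, e2⟩ : ∃ A2, r ++ b :: t = A2 ++ [x] := by
        refine ⟨(r ++ b :: t).dropLast, ?_⟩
        have h3 := congrArg List.getLast? e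
        rw [List.getLast?_concat, ← List.singleton_append, ← List.append_assoc,
          List.getLast?_append_of_ne_nil _ (by simp)] at h3
        exact (List.dropLast_append_getLast? x h3.symm).symm
      have e3 : A = A1 ++ a :: A2 := by
        rw [e2, ← List.cons_append, ← List.append_assoc] at e
        exact List.append_cancel_right e
      have := cntM_app' (bk := bk) (P := P) A1 a A2 (x :: C) ⟨a, r, b, t ++ C, β, by
        rw [← List.singleton_append (l := C), ← List.append_assoc, ← e2]; simp, h⟩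
      rw [e3, List.append_assoc, List.cons_append]
      omega
    · have := cntM_app (bk := bk) (P := P) A (x :: C)
      omega

end mix

section syl
variable {L C B : Type} [CommGroup C]

/-- Both lists of a syllable are nonempty and lie in its block. -/
def Syl (S : Set L) (blk : L → B) (x : B × List L × List L) : Prop :=
  (x.2.1 ≠ [] ∧ ∀ a ∈ x.2.1, blk a = x.1 ∧ a ∈ S) ∧ (x.2.2 ≠ [] ∧ ∀ a ∈ x.2.2, blk a = x.1 ∧ a ∈ S)

theorem exists_syl (S : Set L) (blk : L → B)
    (τ : W L C →* W L C) (hinj : Function.Injective τ)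
    (hτ : ∀ l x, Sup (blk ⁻¹' {blk l}) (τ (lt l x))) (hτS : ∀ l ∈ S, ∀ x, Sup S (τ (lt l x)))
    {l m : L} (hl : l ∈ S) (hm : m ∈ S) {g a1 a2 : W L C} (hg : Sup S g)
    (ha1 : Sup (blk ⁻¹' {blk l}) a1) (ha1S : Sup S a1)
    (ha2 : Sup (blk ⁻¹' {blk m}) a2) (ha2S : Sup S a2) :
    ∃ D : List (B × List L × List L), D ≠ [] ∧ wsq l g m = (D.map (fun x => x.2.1)).flatten ∧
      wsq l (a1 * τ g * a2) m = (D.map (fun x => x.2.2)).flatten ∧ (∀ x ∈ D, Syl S blk x) ∧
      D.IsChain (fun x y => x.1 ≠ y.1) ∧ ∀ D1 x y z D2, D = D1 ++ x :: y :: z :: D2 →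
        ∃ h : W L C, h ≠ 1 ∧ y.2.1 = lab h ∧ y.2.2 = lab (τ h) := by
  have hτb : ∀ (b : B) (h : W L C), Sup (blk ⁻¹' {b}) h → Sup (blk ⁻¹' {b}) (τ h) := by
    intro b h hh
    refine Sup.map_W τ (fun l hl x => ?_) hh
    have : blk l = b := hl
    exact this ▸ hτ l x
  have hτS' : ∀ h : W L C, Sup S h → Sup S (τ h) := fun h hh => Sup.map_W τ hτS hh
  rcases exists_pdec blk l m g with ⟨hlm, hgb⟩ | ⟨h0, d, h1, hh0, hh1, hd, hc, rfl⟩
  · have hb' : Sup (blk ⁻¹' {blk l}) (a1 * τ g * a2) :=
      (ha1.mul_W (hτb _ _ hgb)).mul_W (hlm ▸ ha2)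
    have hS' : Sup S (a1 * τ g * a2) := (ha1S.mul_W (hτS' _ hg)).mul_W ha2S
    refine ⟨[(blk l, wsq l g m, wsq l (a1 * τ g * a2) m)], by simp, by simp, by simp, ?_, by simp,
      fun D1 x y z D2 e => ?_⟩
    · intro x hx
      rw [List.mem_singleton.1 hx]
      refine ⟨⟨by simp [wsq], fun a ha => ?_⟩, by simp [wsq], fun a ha => ?_⟩
      · simp only [wsq, List.mem_cons, List.mem_append, List.not_mem_nil, or_false] at ha
        rcases ha with rfl | ha | rfl
        · exact ⟨rfl, hl⟩
        · exact ⟨hgb a ha, hg a ha⟩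
        · exact ⟨hlm.symm, hm⟩
      · simp only [wsq, List.mem_cons, List.mem_append, List.not_mem_nil, or_false] at ha
        rcases ha with rfl | ha | rfl
        · exact ⟨rfl, hl⟩
        · exact ⟨hb' a ha, hS' a ha⟩
        · exact ⟨hlm.symm, hm⟩
    · have := congrArg List.length e
      simp at this
      omega
  · have hlab := lab_pdec hh0 hh1 hd hc
    have hS0 : Sup S h0 := fun a ha => hg a (by rw [hlab]; simp [ha])
    have hS1 : Sup S h1 := fun a ha => hg a (by rw [hlab]; simp [ha])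
    have hSd : ∀ e ∈ d, Sup S e.2 := fun e he a ha => hg a (by
      rw [hlab]
      refine List.mem_append_left _ (List.mem_append_right _ ?_)
      exact List.mem_flatten.2 ⟨lab e.2, List.mem_map.2 ⟨e, he, rfl⟩, ha⟩)
    have hd' := hd.map τ hinj hτ
    have hb0 : Sup (blk ⁻¹' {blk l}) (a1 * τ h0) := ha1.mul_W (hτb _ _ hh0)
    have hb1 : Sup (blk ⁻¹' {blk m}) (τ h1 * a2) := (hτb _ _ hh1).mul_W ha2
    have hlab' := lab_pdec hb0 hb1 hd' (by simpa [List.map_map, Function.comp_def] using hc)
    have hprod : a1 * τ (h0 * (d.map Prod.snd).prod * h1) * a2 =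
        a1 * τ h0 * ((d.map (fun e => (e.1, τ e.2))).map Prod.snd).prod * (τ h1 * a2) := by
      simp [map_list_prod, List.map_map, Function.comp_def, mul_assoc]
    let x0 : B × List L × List L := (blk l, l :: lab h0, l :: lab (a1 * τ h0))
    let x1 : B × List L × List L := (blk m, lab h1 ++ [m], lab (τ h1 * a2) ++ [m])
    let D : List (B × List L × List L) := d.map (fun e => (e.1, lab e.2, lab (τ e.2)))
    refine ⟨x0 :: (D ++ [x1]), by simp, ?_, ?_, ?_, ?_, fun D1 x y z D2 e => ?_⟩
    · simp [wsq, hlab, x0, x1, D, List.map_map, Function.comp_def]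
    · rw [hprod]
      simp only [wsq]
      rw [hlab']
      simp [x0, x1, D, List.map_map, Function.comp_def]
    · intro x hx
      simp only [List.mem_cons, List.mem_append, List.not_mem_nil, or_false] at hx
      rcases hx with rfl | hx | rfl
      · refine ⟨⟨by simp [x0], ?_⟩, by simp [x0], ?_⟩
        · intro a ha
          rcases List.mem_cons.1 ha with rfl | ha
          · exact ⟨rfl, hl⟩
          · exact ⟨hh0 a ha, hS0 a ha⟩
        · intro a ha
          rcases List.mem_cons.1 ha with rfl | ha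
          · exact ⟨rfl, hl⟩
          · exact ⟨hb0 a ha, (ha1S.mul_W (hτS' _ hS0)) a ha⟩
      · obtain ⟨e, he, rfl⟩ := List.mem_map.1 hx
        have h1 := hd.1 e he
        refine ⟨⟨fun h => h1.1 (lab_eq_nil.1 h), fun a ha => ⟨h1.2 a ha, hSd e he a ha⟩⟩,
          fun h => h1.1 (hinj (by simpa using lab_eq_nil.1 h)),
          fun a ha => ⟨hτb _ _ h1.2 a ha, hτS' _ (hSd e he) a ha⟩⟩
      · refine ⟨⟨by simp [x1], ?_⟩, by simp [x1], ?_⟩
        · intro a ha
          rcases List.mem_append.1 ha with ha | ha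
          · exact ⟨hh1 a ha, hS1 a ha⟩
          · rw [List.mem_singleton.1 ha]; exact ⟨rfl, hm⟩
        · intro a ha
          rcases List.mem_append.1 ha with ha | ha
          · exact ⟨hb1 a ha, ((hτS' _ hS1).mul_W ha2S) a ha⟩
          · rw [List.mem_singleton.1 ha]; exact ⟨rfl, hm⟩
    · have : blk l :: (d.map Prod.fst ++ [blk m]) = (x0 :: (D ++ [x1])).map Prod.fst := by
        simp [x0, x1, D, List.map_map, Function.comp_def]
      rw [this, List.isChain_map] at hc
      exact hc
    · have hy : y ∈ D := by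
        obtain ⟨E, e'⟩ : ∃ E, D ++ [x1] = E ++ y :: z :: D2 := by
          rcases D1 with _ | ⟨w, D1⟩
          · exact ⟨[], (List.cons.inj e).2⟩
          · exact ⟨D1 ++ [x], by simpa using (List.cons.inj e).2⟩
        have := congrArg List.dropLast e'
        rw [List.dropLast_concat, List.dropLast_append_cons, List.dropLast_cons_cons] at this
        rw [this]; simp
      obtain ⟨v, hv, rfl⟩ := List.mem_map.1 hy
      exact ⟨v.2, (hd.1 v hv).1, rfl, rfl⟩

end syl

end Pool.Agent.E5f.Wall

end
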