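import Pool.Agent.Mg.S03381.Gb47797
import Pool.Agent.Mg.S03381.G54d886
import Pool.Agent.Mg.S03381.G09b917
import Pool.Agent.Mg.S03381.Gaed4f6

section

/-!
The homomorphism of a touch and the local inequalities.
-/

set_option autoImplicit false
set_option linter.unusedSimpArgs false
set_option linter.unusedSectionVars false

namespace Pool.Agent.E5f.Wall

open Classical

variable {L κ B : Type} [LinearOrder κ]

theorem sw_invol {a b : L} (hab : a ≠ b) (g : W L C2) : sw a b c2 (sw a b c2 g) = g := by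
  refine ext_lc (S := Set.univ) (f := (sw a b c2).comp (sw a b c2)) (f' := MonoidHom.id _)
    (fun l _ => ?_) (fun _ _ => trivial)
  by_cases h : l = b <;> simp [sw_lc, h, hab, mul_assoc]

theorem actH_inj {c : List (L × L)} (h : ∀ e ∈ c, e.1 ≠ e.2) : Function.Injective (actH c) := by
  induction c with
  | nil => exact fun _ _ h => h
  | cons e c ih =>
    exact (ih (fun x hx => h x (List.mem_cons_of_mem _ hx))).comp
      (Function.LeftInverse.injective (sw_invol (h e (by simp))))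

theorem actH_sup {T : Set L} {c : List (L × L)} (h : ∀ e ∈ c, e.2 ∈ T → e.1 ∈ T) {g : W L C2}
    (hg : Sup T g) : Sup T (actH c g) := by
  induction c generalizing g with
  | nil => exact hg
  | cons e c ih =>
    refine ih (fun x hx => h x (List.mem_cons_of_mem _ hx)) (sup_map_lc (fun l hl => ?_) hg)
    rw [sw_lc]
    split_ifs with h1
    · have := sup_lc (h e (by simp) (h1 ▸ hl))
      exact sup_mul (sup_mul this (sup_lc (h1 ▸ hl))) this
    · exact sup_lc hl

theorem act_cpl {c : List (L × L)} (h : ∀ e ∈ c, e.1 ≠ e.2) {T T' : Set L}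
    (hT : ∀ e ∈ c, e.2 ∈ T → e.1 ∈ T) (hT' : ∀ e ∈ c, e.2 ∈ T' → e.1 ∈ T') {l m : L} (hl : l ∈ T)
    (hm : m ∈ T') (g g' : W L C2) : ∃ a1 a2, Sup T a1 ∧ Sup T' a2 ∧
      act c (cpl (l, g) (m, g')) = cpl (l, actH c g * a1) (m, actH c g' * a2) := by
  induction c generalizing g g' with
  | nil => exact ⟨1, 1, sup_one _, sup_one _, by simp [act, actH]⟩
  | cons e c ih =>
    have q : ∀ (T : Set L) (l : L), (e.2 ∈ T → e.1 ∈ T) → l ∈ T →
        Sup T (if l = e.2 then lt e.1 c2 else 1 : W L C2) := fun T l h1 h2 => by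
      split_ifs with h3
      · exact sup_lc (h1 (h3 ▸ h2))
      · exact sup_one _
    have i1 := fun x hx => hT x (List.mem_cons_of_mem _ hx)
    have i2 := fun x hx => hT' x (List.mem_cons_of_mem _ hx)
    obtain ⟨a1, a2, h1, h2, e1⟩ := ih (fun x hx => h x (List.mem_cons_of_mem _ hx)) i1 i2
      (sw e.1 e.2 c2 g * (if l = e.2 then lt e.1 c2 else 1))
      (sw e.1 e.2 c2 g' * (if m = e.2 then lt e.1 c2 else 1))
    refine ⟨_, _, sup_mul (actH_sup i1 (q T l (hT e (by simp)) hl)) h1,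
      sup_mul (actH_sup i2 (q T' m (hT' e (by simp)) hm)) h2, ?_⟩
    rw [act, ← cpl_tp (h e (by simp))]
    simp only [map_mul, mul_assoc] at e1
    exact e1

theorem act_one (c : List (L × L)) (l : L) : act c [l] = [l] := by
  induction c with
  | nil => rfl
  | cons e c ih => rw [act, show swL e.1 e.2 [l] = [l] by simp [swL], ih]

theorem wLin_eq (k : L → κ) (ρ : L → ℝ) (s : List L) : wLin k ρ s = lin k ρ s := by
  induction s with
  | nil => rfl
  | cons a s ih =>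
    rcases s with _ | ⟨b, s⟩
    · rfl
    · rw [wLin_cons, lin, ih]

theorem lin_dst (k : L → κ) (ρ : L → ℝ) (w : List L) (a : L) :
    lin k ρ (List.destutter' (· ≠ ·) a w) = lin k ρ (a :: w) := by
  induction w generalizing a with
  | nil => rfl
  | cons b w ih =>
    by_cases h : a = b
    · subst h
      rw [List.destutter'_cons_neg _ (by simp), ih, lin]
      simp
    · rw [List.destutter'_cons_pos _ h]
      obtain ⟨t, ht⟩ := (var_dst_link ρ w b).1
      have := ih b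
      rw [ht] at this ⊢
      rw [lin, lin, this]

theorem lin_cpl (k : L → κ) (ρ : L → ℝ) (l m : L) (g g' : W L C2) :
    lin k ρ (cpl (l, g) (m, g')) = wLin k ρ (wsq l (g⁻¹ * g') m) := by
  rw [wLin_eq, cpl, List.cons_append, List.destutter_cons', lin_dst, wsq]

variable {S : Set L} {kk : Bool → L → κ} {ty : L → Fin 3} {bk : L → B} (hB : Blk kk ty bk)
include hB

theorem blk_mem {o a b : L} (ha : bk a = bk o) (hb : bk b = bk o) (t0 : ty o = 0) (t1 : ty a = 1)
    (t2 : ty b = 2) {x : L} (hx : bk x = bk o) : x = o ∨ x = a ∨ x = b := by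
  have : ty x = 0 ∨ ty x = 1 ∨ ty x = 2 := by generalize ty x = i; revert i; decide
  rcases this with h | h | h
  · exact Or.inl (hB.uniq _ _ hx (h.trans t0.symm))
  · exact Or.inr (Or.inl (hB.uniq _ _ (hx.trans ha.symm) (h.trans t1.symm)))
  · exact Or.inr (Or.inr (hB.uniq _ _ (hx.trans hb.symm) (h.trans t2.symm)))

theorem blk_ord (s : Bool) {x y : L} (h : bk x = bk y) (ht : ty x < ty y) :
    (kk s x < kk s y ↔ s = true) := by
  cases s
  · rw [hB.minus x y h]; simpa using ht.le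
  · rw [hB.plus x y h]; simpa using ht

theorem tou_chain {n : ℕ} {sd σ sd' : Bool} {p p' : List L} (h : Tou S kk ty n sd σ p sd' p') :
    ∃ c : List (L × L), (∀ e ∈ c, e.1 ∈ S ∧ e.2 ∈ S ∧ e.1 ≠ e.2 ∧ bk e.1 = bk e.2) ∧ p' = act c p ∧
      sd' = (if Even n then sd else !sd) ∧ ∀ o ∈ S, ∀ a ∈ S, ∀ b ∈ S, bk a = bk o → bk b = bk o →
        ty o = 0 → ty a = 1 → ty b = 2 → ∀ g, Sup {o, a, b} g → actH c g = TT o a b n σ g := by
  induction n generalizing sd σ p with
  | zero => exact ⟨[], by simp, h.2, by simpa using h.1, fun _ _ _ _ _ _ _ _ _ _ _ _ _ => rfl⟩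
  | succ n ih =>
    obtain ⟨p1, ⟨c1, hF, hσ, rfl⟩, h2⟩ := h
    obtain ⟨c, hc, rfl, hsd, hf⟩ := ih h2
    have hc1 : ∀ e ∈ c1, e.1 ∈ S ∧ e.2 ∈ S ∧ e.1 ≠ e.2 ∧ bk e.1 = bk e.2 := by
      intro e he
      obtain ⟨h1, h2, h3, h4⟩ := fch_mem hF he
      refine ⟨h1, h2, h3, ?_⟩
      by_contra h5
      rw [hB.out sd (!sd) _ _ _ _ rfl rfl h5] at h4
      rcases lt_trichotomy (kk (!sd) e.1) (kk (!sd) e.2) with h6 | h6 | h6
      · exact lt_asymm h6 (h4.1 h6)
      · exact h3 (hF.inj1 h6)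
      · exact lt_asymm h6 (h4.2 h6)
    refine ⟨c1 ++ c, fun e he => (List.mem_append.1 he).elim (hc1 e) (hc e),
      (act_append _ _ _).symm, ?_, fun o ho a ha b hb qa qb t0 t1 t2 g hg => ?_⟩
    · rw [hsd]
      by_cases h : Even n <;> simp [h, Nat.even_add_one]
    · have hoa : o ≠ a := fun e => by rw [e, t1] at t0; exact absurd t0 (by decide)
      have hob : o ≠ b := fun e => by rw [e, t2] at t0; exact absurd t0 (by decide)
      have hab : a ≠ b := fun e => by rw [e, t2] at t1; exact absurd t1 (by decide)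
      have l1 : ty o < ty a := by rw [t0, t1]; decide
      have l2 : ty o < ty b := by rw [t0, t2]; decide
      have l3 : ty a < ty b := by rw [t1, t2]; decide
      have nb : ((!sd) = true) ↔ ¬ sd = true := by cases sd <;> simp
      have e1 := pass_eq hoa hob hab ho ha hb (d := sd = true) (blk_ord hB sd qa.symm l1)
        (blk_ord hB sd qb.symm l2) (blk_ord hB sd (qa.trans qb.symm) l3)
        ((blk_ord hB _ qa.symm l1).trans nb) ((blk_ord hB _ qb.symm l2).trans nb)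
        ((blk_ord hB _ (qa.trans qb.symm) l3).trans nb) (σ := σ) hF (fun e he => ?_) hg
      · rw [actH_append, e1, hf o ho a ha b hb qa qb t0 t1 t2 _ (sup_TP hoa hob hab σ hg)]
        rfl
      · obtain ⟨-, -, h3, h4⟩ := hc1 e he
        have h5 := hσ e he
        obtain ⟨x, y⟩ := e
        simp only at h3 h4 h5 ⊢
        by_cases h6 : bk x = bk o
        · right
          rcases blk_mem hB qa qb t0 t1 t2 h6 with e1 | e1 | e1 <;>
            rcases blk_mem hB qa qb t0 t1 t2 (h4.symm.trans h6) with e2 | e2 | e2 <;>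
            rw [e1, e2] at h3 h5 ⊢ <;> simp only [t0, t1, t2] at h5 <;> cases σ <;>
            simp [hgt] at h3 h5 ⊢
        · left
          have h7 : bk y ≠ bk o := fun e => h6 (h4.trans e)
          exact ⟨fun e => h6 (e ▸ rfl), fun e => h6 (e ▸ qa), fun e => h6 (e ▸ qb),
            fun e => h7 (e ▸ rfl), fun e => h7 (e ▸ qa), fun e => h7 (e ▸ qb)⟩

omit hB in
/-- The sign of a side. -/
noncomputable def sgb (d : Bool) : ℝ := if d = true then 1 else -1

omit hB in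
theorem sgb_cases (d : Bool) : sgb d = 1 ∨ sgb d = -1 := by cases d <;> simp [sgb]

omit hB in
theorem sgb_not (d : Bool) : sgb (!d) = -sgb d := by cases d <;> simp [sgb]

theorem refi_blk {f : Fin 3 → ℝ} (hf : Monotone f) (sd : Bool) (β : B) :
    Refi (kk sd) (fun l => sgb sd * f (ty l)) (bk ⁻¹' {β}) := by
  intro a ha b hb
  have e : bk a = bk b := ha.trans hb.symm
  cases sd
  · rw [hB.minus a b e]
    simp only [sgb, Bool.false_eq_true, if_false, neg_mul, one_mul, neg_le_neg_iff]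
    exact ⟨fun h => hf h.le, fun h => hf (not_lt.1 h)⟩
  · rw [hB.plus a b e]
    simp only [sgb, if_true, one_mul]
    exact ⟨fun h => hf h.le, fun h => hf (not_lt.1 h)⟩

section wts
variable {w : Fin 3 → ℝ} (w0 : w 0 = 0) (w1 : 0 < w 1) (w2 : w 1 < w 2)
include w0 w1 w2

omit hB in
theorem w_mono : Monotone w := by
  intro i j h
  fin_cases i <;> fin_cases j <;> simp at h ⊢ <;> linarith

omit hB in
theorem w_bd (i : Fin 3) : 0 ≤ w i ∧ w i ≤ w 2 :=
  ⟨w0 ▸ w_mono w0 w1 w2 (Fin.zero_le i), w_mono w0 w1 w2 (Fin.le_last i)⟩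

theorem w_gap {x y : L} (h : bk x = bk y) (hn : x ≠ y) :
    min (w 1) (w 2 - w 1) ≤ |w (ty y) - w (ty x)| := by
  have h1 : ty x ≠ ty y := fun e => hn (hB.uniq x y h e)
  have a1 := min_le_left (w 1) (w 2 - w 1)
  have a2 := min_le_right (w 1) (w 2 - w 1)
  generalize min (w 1) (w 2 - w 1) = δ at *
  rw [le_abs]
  generalize ty x = i at *
  generalize ty y = j at *
  fin_cases i <;> fin_cases j <;> simp only [Fin.zero_eta, Fin.mk_one, Fin.reduceFinMk] at h1 ⊢ <;>
    first | exact absurd rfl h1 | (left; linarith) | (right; linarith)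

theorem var_len {β : B} {s : List L} (hr : Rd s) (hs : ∀ a ∈ s, bk a = β) :
    min (w 1) (w 2 - w 1) * (s.length - 1) ≤ Var (s.map (fun l => w (ty l))) := by
  induction s with
  | nil => simpa [Var] using ⟨w1.le, w2.le⟩
  | cons a s ih =>
    rcases s with _ | ⟨b, s⟩
    · simp [Var]
    · have h1 := ih hr.tail (fun x hx => hs x (List.mem_cons_of_mem _ hx))
      have h2 := w_gap hB w0 w1 w2 ((hs a (by simp)).trans (hs b (by simp)).symm)
        (List.isChain_cons_cons.1 hr).1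
      simp only [List.map_cons, var_cons_W, List.length_cons] at h1 ⊢
      push_cast at h1 ⊢
      linarith

theorem loc_crude (sd : Bool) {β : B} {s : List L} (hn : s ≠ []) (hs : ∀ a ∈ s, bk a = β)
    {e1 e2 : ℝ} (h1 : |e1| ≤ 1) (h2 : |e2| ≤ 1) :
    Var (s.map (fun l => w (ty l))) - 2 * w 2 ≤
      loc (kk sd) (fun l => sgb sd * w (ty l)) e1 e2 s := by
  rw [loc_sign (u := fun l => w (ty l)) (sgb_cases sd) (refi_blk hB (w_mono w0 w1 w2) sd β) hs]
  obtain ⟨a, -, ha⟩ := hdv_mem (fun l => w (ty l)) hn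
  obtain ⟨b, -, hb⟩ := lsv_mem (fun l => w (ty l)) hn
  rw [ha, hb]
  have q : ∀ (e : ℝ) (i : Fin 3), |e| ≤ 1 → -w 2 ≤ sgb sd * e * w i := fun e i he => by
    have := w_bd w0 w1 w2 i
    have := abs_le.1 he
    rcases sgb_cases sd with h | h <;> rw [h] <;> nlinarith
  linarith [q e1 (ty a) h1, q e2 (ty b) h2]

theorem loc_lr (sd d : Bool) {β : B} {s : List L} (hn : s ≠ []) (hs : ∀ a ∈ s, bk a = β) :
    0 ≤ loc (kk sd) (fun l => sgb sd * w (ty l)) (sgb d) (-sgb d) s ∧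
    (Rd s → ¬ Mono (kk sd) d s → 2 * min (w 1) (w 2 - w 1) ≤
      loc (kk sd) (fun l => sgb sd * w (ty l)) (sgb d) (-sgb d) s) := by
  have R := refi_blk hB (w_mono w0 w1 w2) sd β
  have gp : ∀ x ∈ s, ∀ y ∈ s, x ≠ y →
      min (w 1) (w 2 - w 1) ≤ |sgb sd * w (ty y) - sgb sd * w (ty x)| := fun x hx y hy h => by
    have := w_gap hB w0 w1 w2 ((hs x hx).trans (hs y hy).symm) h
    rw [← mul_sub, abs_mul]
    rcases sgb_cases sd with h | h <;> rw [h] <;> simpa using this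
  rw [loc, wLin_eq_var _ _ (fun a ha b hb => R a (hs a ha) b (hs b hb))]
  generalize hρ : (fun l => sgb sd * w (ty l)) = ρ at R ⊢
  have hρ' : ∀ l, sgb sd * w (ty l) = ρ l := fun l => congrFun hρ l
  simp only [hρ'] at gp
  refine ⟨?_, fun hr hm => ?_⟩
  · have := abs_le.1 (var_ge_zero ρ hn)
    rcases sgb_cases d with h | h <;> rw [h] <;> linarith [this.1, this.2]
  · rw [Mono, List.isChain_iff_forall_rel_of_append_cons_cons] at hm
    push Not at hm
    obtain ⟨x, y, A, C, e, hm⟩ := hm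
    have hx : x ∈ s := by simp [e]
    have hy : y ∈ s := by simp [e]
    have g1 := gp x hx y hy (List.isChain_iff_forall_rel_of_append_cons_cons.1 hr e)
    have v := var_sub_ends ρ hn (t := [x, y]) (by
      rw [e]
      exact List.Sublist.trans (by simp) (List.sublist_append_right _ _))
    simp only [List.map_cons, List.map_nil, List.cons_append, List.nil_append, Var] at v
    cases d
    · have := (R y (hs y hy) x (hs x hx)).2 (by simpa using hm)
      rw [abs_of_nonneg (sub_nonneg.2 this)] at g1 v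
      simp only [sgb, Bool.false_eq_true, if_false]
      linarith [neg_abs_le (ρ x - hdv ρ s), neg_abs_le (lsv ρ s - ρ y)]
    · have := (R x (hs x hx) y (hs y hy)).2 (by simpa using hm)
      rw [abs_of_nonpos (sub_nonpos.2 this)] at g1 v
      simp only [sgb, if_true]
      linarith [le_abs_self (ρ x - hdv ρ s), le_abs_self (lsv ρ s - ρ y)]

theorem loc_ll {o a b : L} (qa : bk a = bk o) (qb : bk b = bk o) (t0 : ty o = 0) (t1 : ty a = 1)
    (t2 : ty b = 2) {n : ℕ} (hn : 2 ≤ n) (σ sd : Bool) {sd' : Bool}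
    (hsd : sd' = if Even n then sd else !sd) {h : W L C2} (hh : Sup {o, a, b} h) (h1 : h ≠ 1)
    {e : ℝ} (he : e = 1 ∨ e = -1) :
    0 ≤ loc (kk sd) (fun l => sgb sd * w (ty l)) e e (lab h) +
      loc (kk sd') (fun l => sgb sd' * w (ty l)) e e (lab (TT o a b n σ h)) ∧
    (sgb sd * e = 1 → 2 * w 1 ≤ loc (kk sd) (fun l => sgb sd * w (ty l)) e e (lab h) +
      loc (kk sd') (fun l => sgb sd' * w (ty l)) e e (lab (TT o a b n σ h))) := by
  have hoa : o ≠ a := fun e => by rw [e, t1] at t0; exact absurd t0 (by decide)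
  have hob : o ≠ b := fun e => by rw [e, t2] at t0; exact absurd t0 (by decide)
  have hab : a ≠ b := fun e => by rw [e, t2] at t1; exact absurd t1 (by decide)
  let f1 : Fin 3 → ℝ := ![0, 1, 1]
  let f2 : Fin 3 → ℝ := ![0, 0, 1]
  have m1 : Monotone f1 := by
    intro i j h
    fin_cases i <;> fin_cases j <;> simp [f1] at h ⊢
  have m2 : Monotone f2 := by
    intro i j h
    fin_cases i <;> fin_cases j <;> simp [f2] at h ⊢
  have z1 : ∀ l, f1 (ty l) = 0 ∨ f1 (ty l) = 1 := fun l => by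
    generalize ty l = i; fin_cases i <;> simp [f1]
  have z2 : ∀ l, f2 (ty l) = 0 ∨ f2 (ty l) = 1 := fun l => by
    generalize ty l = i; fin_cases i <;> simp [f2]
  have dc : ∀ (s : Bool) (t : List L), loc (kk s) (fun l => sgb s * w (ty l)) e e t =
      w 1 * loc (kk s) (fun l => sgb s * f1 (ty l)) e e t +
        (w 2 - w 1) * loc (kk s) (fun l => sgb s * f2 (ty l)) e e t := fun s t => by
    rw [← loc_lin]
    refine loc_congr _ _ _ (fun l _ => ?_)
    generalize ty l = i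
    fin_cases i <;> simp [f1, f2, w0] <;> ring
  have hh' := sup_TT hoa hob hab n σ hh
  have h1' := TT_ne hoa hob hab (n := n) σ hh h1
  have bl : ∀ g : W L C2, Sup {o, a, b} g → ∀ x ∈ lab g, x ∈ bk ⁻¹' {bk o} := fun g hg x hx => by
    rcases hg x hx with rfl | rfl | rfl
    · rfl
    · exact qa
    · exact qb
  have n1 : lab h ≠ [] := fun h0 => h1 (lab_eq_nil.1 h0)
  have n2 : lab (TT o a b n σ h) ≠ [] := fun h0 => h1' (lab_eq_nil.1 h0)
  have N : ∀ f : Fin 3 → ℝ, Monotone f → (∀ l, f (ty l) = 0 ∨ f (ty l) = 1) → f 0 = 0 →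
      f 2 = 1 → 0 ≤ loc (kk sd) (fun l => sgb sd * f (ty l)) e e (lab h) +
      loc (kk sd') (fun l => sgb sd' * f (ty l)) e e (lab (TT o a b n σ h)) := by
    intro f mf zf f0 f2
    have uo : f (ty o) = 0 := by rw [t0, f0]
    have ub : f (ty b) = 1 := by rw [t2, f2]
    by_cases hev : Even n
    · rw [hsd, if_pos hev]
      refine loc_even (u := fun l => f (ty l)) zf (sgb_cases sd) (refi_blk hB mf sd (bk o))
        (refi_blk hB mf sd (bk o)) (bl _ hh) (bl _ hh') n1 n2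
        (EV hoa hob hab hn σ (u := fun l => f (ty l)) uo (zf a).symm ub hh h1) (fun h2 => ?_) he he
      have := EV hoa hob hab hn (if Even n then !σ else σ) (u := fun l => f (ty l)) uo (zf a).symm
        ub hh' h1' h2
      rwa [TT_inv hoa hob hab n σ hh] at this
    · have R' := refi_blk hB mf (!sd) (bk o)
      rw [hsd, if_neg hev]
      rw [sgb_not] at R' ⊢
      obtain ⟨p, hp, p', hp', hpp⟩ := common_val (u := fun l => f (ty l)) zf (A := {o, a, b})
        (p0 := 1 - f (ty a)) (by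
          have za := zf a
          rintro x (rfl | rfl | rfl) y (rfl | rfl | rfl) e1 e2 <;>
            first | rfl | (exfalso; rcases za with h | h <;> linarith))
        (by rcases zf a with h | h <;> simp [h]) hh hh' h1 h1' (fun x => expo_TT o a b n σ x h)
      exact loc_odd (u := fun l => f (ty l)) (sgb_cases sd) (refi_blk hB mf sd (bk o)) R'
        (bl _ hh) (bl _ hh') hp hp' hpp (by rcases he with rfl | rfl <;> simp)
        (by rcases he with rfl | rfl <;> simp)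
  have N1 := N f1 m1 z1 rfl rfl
  have N2 := N f2 m2 z2 rfl rfl
  rw [dc, dc]
  refine ⟨by nlinarith [mul_nonneg w1.le N1, mul_nonneg (sub_nonneg.2 w2.le) N2], fun hg => ?_⟩
  have uo : f1 (ty o) = 0 := by rw [t0]; rfl
  have ua : f1 (ty a) = 1 := by rw [t1]; rfl
  have ub : f1 (ty b) = 1 := by rw [t2]; rfl
  have G : 2 ≤ loc (kk sd) (fun l => sgb sd * f1 (ty l)) e e (lab h) +
      loc (kk sd') (fun l => sgb sd' * f1 (ty l)) e e (lab (TT o a b n σ h)) := by
    rw [loc_sign (u := fun l => f1 (ty l)) (sgb_cases sd) (refi_blk hB m1 sd (bk o)) (bl _ hh),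
      loc_sign (u := fun l => f1 (ty l)) (sgb_cases sd') (refi_blk hB m1 sd' (bk o)) (bl _ hh'), hg]
    by_cases hev : Even n
    · rw [hsd, if_pos hev, hg]
      linarith [good_even hoa hob hab hn σ (u := fun l => f1 (ty l)) z1 uo ua ub hh h1]
    · rw [hsd, if_neg hev, sgb_not, neg_mul, hg]
      linarith [good_odd hoa hob hab hn σ (u := fun l => f1 (ty l)) z1 uo ua ub hh h1 hev]
  nlinarith [mul_le_mul_of_nonneg_left G w1.le, mul_nonneg (sub_nonneg.2 w2.le) N2]

end wts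

end Pool.Agent.E5f.Wall

end

section

set_option autoImplicit false
set_option linter.unusedSectionVars false

namespace Pool.Agent.E5f

open Classical

namespace Wall

theorem arith {θ δ w1 w2 G n : ℝ} (hθ : θ * (6 * w2) = δ) (h0 : 0 < δ) (h1 : δ ≤ w1)
    (h2 : w1 ≤ w2) (hG : δ * (n - 1) - 4 * w2 ≤ G) :
    (0 ≤ G → θ * δ * n - θ * (δ + 4 * w2) ≤ G) ∧
    (2 * w1 ≤ G → θ * δ * n + θ * (δ + 4 * w2) ≤ G) ∧ (2 * δ ≤ G → θ * δ * n ≤ G) := by
  have p2 : 0 < w2 := by linarith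
  have t0 : 0 < θ := by
    by_contra h
    nlinarith [mul_nonneg (neg_nonneg.2 (not_lt.1 h)) p2.le]
  have t1 : θ ≤ 1 / 6 := by
    by_contra h
    nlinarith [mul_pos (sub_pos.2 (not_le.1 h)) p2]
  have q := mul_le_mul_of_nonneg_left hG t0.le
  have t2 : 0 ≤ 1 - θ := by linarith
  have b1 : θ * δ ≤ θ * w2 := mul_le_mul_of_nonneg_left (h1.trans h2) t0.le
  have b2 : θ * w1 ≤ θ * w2 := mul_le_mul_of_nonneg_left h2 t0.le
  refine ⟨fun h => ?_, fun h => ?_, fun h => ?_⟩ <;>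
    have := mul_le_mul_of_nonneg_left h t2 <;> nlinarith

theorem ite_eq {P Q : Prop} {i : Decidable P} {j : Decidable Q}
    (h : (@ite ℝ P i 1 (-1)) = @ite ℝ Q j 1 (-1)) : P ↔ Q := by
  split_ifs at h with g1 g2 g2 <;> first | tauto | linarith

theorem ite_ne {P Q : Prop} {i : Decidable P} {j : Decidable Q}
    (h : (@ite ℝ P i 1 (-1)) = -@ite ℝ Q j 1 (-1)) : ¬ (P ↔ Q) := by
  split_ifs at h with g1 g2 g2 <;> first | tauto | linarith

variable {L κ B : Type} [LinearOrder κ]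

/-- The run misses a label of its full block. -/
def Pm (S : Set L) (ty : L → Fin 3) (bk : L → B) (r : List L) : Prop :=
  ∃ x ∈ r, Full S ty bk x ∧ ∃ y ∈ S, bk y = bk x ∧ y ∉ r

/-- Clean syllables: monotone in the direction of the neighbours and not mixed. -/
def Cln (S : Set L) (k : L → κ) (ty : L → Fin 3) (bk : L → B) (e1 e2 : ℝ)
    (x : B × List L × List L) : Prop :=
  ∃ d, e1 = sgb d ∧ e2 = -sgb d ∧ Mono k d x.2.1 ∧ ¬ Pm S ty bk x.2.1

variable {S : Set L} {kk : Bool → L → κ} {ty : L → Fin 3} {bk : L → B} (hB : Blk kk ty bk)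
  {w : Fin 3 → ℝ} (w0 : w 0 = 0) (w1 : 0 < w 1) (w2 : w 1 < w 2)
include hB w0 w1 w2

theorem crude (sd sd' : Bool) {x : B × List L × List L} (hx : Syl S bk x) (hr : Rd x.2.1)
    {e1 e2 : ℝ} (h1 : |e1| ≤ 1) (h2 : |e2| ≤ 1) :
    min (w 1) (w 2 - w 1) * (x.2.1.length - 1) - 4 * w 2 ≤
      loc (kk sd) (fun l => sgb sd * w (ty l)) e1 e2 x.2.1 +
        loc (kk sd') (fun l => sgb sd' * w (ty l)) e1 e2 x.2.2 := by
  linarith [loc_crude hB w0 w1 w2 sd hx.1.1 (fun a ha => (hx.1.2 a ha).1) h1 h2,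
    loc_crude hB w0 w1 w2 sd' hx.2.1 (fun a ha => (hx.2.2 a ha).1) h1 h2,
    var_len hB w0 w1 w2 hr (fun a ha => (hx.1.2 a ha).1),
    var_nonneg_W (x.2.2.map (fun l => w (ty l)))]

theorem loc_main {θ : ℝ} (hθ : θ * (6 * w 2) = min (w 1) (w 2 - w 1)) {n : ℕ} (hn : 2 ≤ n)
    (σ sd : Bool) {sd' : Bool} (hsd : sd' = if Even n then sd else !sd)
    {τ : W L C2 →* W L C2} (hf : ∀ o ∈ S, ∀ a ∈ S, ∀ b ∈ S, bk a = bk o → bk b = bk o →
      ty o = 0 → ty a = 1 → ty b = 2 → ∀ g, Sup {o, a, b} g → τ g = TT o a b n σ g)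
    {x : B × List L × List L} (hx : Syl S bk x) {h : W L C2} (h1 : h ≠ 1) (q1 : x.2.1 = lab h)
    (q2 : x.2.2 = lab (τ h)) {e1 e2 : ℝ} (he1 : e1 = 1 ∨ e1 = -1) (he2 : e2 = 1 ∨ e2 = -1)
    (hF : e1 = e2 → ∃ y ∈ x.2.1, Full S ty bk y) :
    0 ≤ loc (kk sd) (fun l => sgb sd * w (ty l)) e1 e2 x.2.1 +
        loc (kk sd') (fun l => sgb sd' * w (ty l)) e1 e2 x.2.2 -
      θ * (min (w 1) (w 2 - w 1) + 4 * w 2) / 2 * sgb sd * (e1 + e2) -
      θ * min (w 1) (w 2 - w 1) *
        (if Cln S (kk sd) ty bk e1 e2 x then 0 else (x.2.1.length : ℝ)) := by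
  have r1 : Rd x.2.1 := q1 ▸ lab_chain h
  have r2 : Rd x.2.2 := q2 ▸ lab_chain (τ h)
  have cr := crude hB w0 w1 w2 sd sd' hx r1 (e1 := e1) (e2 := e2)
    (by rcases he1 with rfl | rfl <;> simp) (by rcases he2 with rfl | rfl <;> simp)
  obtain ⟨a1, a2, a3⟩ := arith hθ (lt_min w1 (sub_pos.2 w2)) (min_le_left _ _) w2.le cr
  have full : ∀ y ∈ x.2.1, Full S ty bk y → ∃ o a b, bk a = bk o ∧ bk b = bk o ∧ ty o = 0 ∧
      ty a = 1 ∧ ty b = 2 ∧ bk o = x.1 ∧ Sup {o, a, b} h ∧ x.2.2 = lab (TT o a b n σ h) := by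
    intro y hy hY
    obtain ⟨o, ho, bo, t0⟩ := hY 0
    obtain ⟨a, ha, ba, t1⟩ := hY 1
    obtain ⟨b, hb, bb, t2⟩ := hY 2
    have qa := ba.trans bo.symm
    have qb := bb.trans bo.symm
    have q0 := bo.trans (hx.1.2 y hy).1
    have hh : Sup {o, a, b} h := fun z hz =>
      blk_mem hB qa qb t0 t1 t2 ((hx.1.2 z (q1 ▸ hz)).1.trans q0.symm)
    exact ⟨o, a, b, qa, qb, t0, t1, t2, q0, hh, by rw [q2, hf o ho a ha b hb qa qb t0 t1 t2 h hh]⟩
  by_cases hee : e1 = e2
  · subst hee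
    obtain ⟨y, hy, hY⟩ := hF rfl
    obtain ⟨o, a, b, qa, qb, t0, t1, t2, -, hh, q3⟩ := full y hy hY
    have := loc_ll hB w0 w1 w2 qa qb t0 t1 t2 hn σ sd hsd hh h1 he1
    rw [← q1, ← q3] at this
    rw [if_neg (by
      rintro ⟨d, d1, d2, -⟩
      rcases sgb_cases d with h | h <;> rw [h] at d1 d2 <;> linarith)]
    have b1 := a1 this.1
    by_cases hg : sgb sd * e1 = 1
    · have b2 := a2 (this.2 hg)
      have e : θ * (min (w 1) (w 2 - w 1) + 4 * w 2) / 2 * sgb sd * (e1 + e1) =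
          θ * (min (w 1) (w 2 - w 1) + 4 * w 2) * (sgb sd * e1) := by ring
      rw [e, hg]
      linarith
    · have hg' : sgb sd * e1 = -1 := by
        rcases sgb_cases sd with h | h <;> rcases he1 with rfl | rfl <;> rw [h] at hg ⊢ <;>
          first | linarith | exact absurd (by norm_num) hg
      have e : θ * (min (w 1) (w 2 - w 1) + 4 * w 2) / 2 * sgb sd * (e1 + e1) =
          θ * (min (w 1) (w 2 - w 1) + 4 * w 2) * (sgb sd * e1) := by ring
      rw [e, hg']
      linarith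
  · obtain ⟨d, rfl, rfl⟩ : ∃ d, e1 = sgb d ∧ e2 = -sgb d := by
      rcases he1 with rfl | rfl <;> rcases he2 with rfl | rfl
      · exact absurd rfl hee
      · exact ⟨true, by simp [sgb], by simp [sgb]⟩
      · exact ⟨false, by simp [sgb], by simp [sgb]⟩
      · exact absurd rfl hee
    have l1 := loc_lr hB w0 w1 w2 sd d hx.1.1 (fun a ha => (hx.1.2 a ha).1)
    have l2 := loc_lr hB w0 w1 w2 sd' d hx.2.1 (fun a ha => (hx.2.2 a ha).1)
    rw [add_neg_cancel, mul_zero, sub_zero]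
    split_ifs with hc
    · linarith [l1.1, l2.1]
    · refine sub_nonneg.2 (a3 ?_)
      by_cases hm : Mono (kk sd) d x.2.1
      · obtain ⟨y, hy, hY, z, -, bz, hz⟩ : Pm S ty bk x.2.1 := by
          by_contra h3
          exact hc ⟨d, rfl, rfl, hm, h3⟩
        obtain ⟨o, a, b, qa, qb, t0, t1, t2, q0, hh, q3⟩ := full y hy hY
        have := MX (fun e => by rw [e, t1] at t0; exact absurd t0 (by decide))
          (fun e => by rw [e, t2] at t0; exact absurd t0 (by decide))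
          (fun e => by rw [e, t2] at t1; exact absurd t1 (by decide)) hn σ hh h1
          (q1 ▸ mono_nodup hm)
          (blk_mem hB qa qb t0 t1 t2 (bz.trans ((hx.1.2 y hy).1.trans q0.symm))) (q1 ▸ hz)
        rw [← q3] at this
        linarith [l1.1, l2.2 r2 (fun h3 => this (mono_nodup h3))]
      · linarith [l1.2 r1 hm, l2.1]

theorem core {θ : ℝ} (hθ : θ * (6 * w 2) = min (w 1) (w 2 - w 1)) {n : ℕ} {sd σ sd' : Bool}
    {p p' : List L} (hn : 2 ≤ n) (hT : Tou S kk ty n sd σ p sd' p') (hp : Pth S p)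
    (hF : ∀ x, TurnAt (kk sd) p x → Full S ty bk x) :
    θ * min (w 1) (w 2 - w 1) * turns (kk sd) p - 4 * (min (w 1) (w 2 - w 1) + 4 * w 2) ≤
      lin (kk sd) (fun l => sgb sd * w (ty l)) p + lin (kk sd') (fun l => sgb sd' * w (ty l)) p' ∧
    θ * min (w 1) (w 2 - w 1) * cntM bk (Pm S ty bk) p - 4 * (min (w 1) (w 2 - w 1) + 4 * w 2) ≤
      lin (kk sd) (fun l => sgb sd * w (ty l)) p + lin (kk sd') (fun l => sgb sd' * w (ty l)) p' := by
  have d0 : 0 < min (w 1) (w 2 - w 1) := lt_min w1 (sub_pos.2 w2)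
  have d1 : min (w 1) (w 2 - w 1) ≤ w 2 := (min_le_left _ _).trans w2.le
  have p2 : 0 < w 2 := w1.trans w2
  have t0 : 0 < θ := by
    by_contra h
    nlinarith [mul_nonneg (neg_nonneg.2 (not_lt.1 h)) p2.le]
  have t1 : θ ≤ 1 := by
    by_contra h
    nlinarith [mul_pos (sub_pos.2 (not_le.1 h)) p2]
  obtain ⟨c, hc, rfl, hsd, hf⟩ := tou_chain hB hT
  obtain ⟨l, t, rfl⟩ := List.exists_cons_of_ne_nil hp.ne
  rcases List.eq_nil_or_concat t with rfl | ⟨t, m, rfl⟩
  · rw [act_one, cntM_one]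
    simp only [turns, lin, Nat.cast_zero]
    constructor <;> linarith
  rw [List.concat_eq_append] at *
  have hl : l ∈ S := hp.sub l (by simp)
  have hm : m ∈ S := hp.sub m (by simp)
  have hlab : lab (evlLink t) = t := lab_evl_link (rd_init_link (rd_tail_link hp.rd))
  have e1 : wsq l (evlLink t) m = l :: (t ++ [m]) := by rw [wsq, hlab]
  have e2 : cpl (l, 1) (m, evlLink t) = l :: (t ++ [m]) := by
    rw [cpl, inv_one, one_mul, hlab, List.cons_append]
    exact List.destutter_of_isChain _ _ hp.rd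
  have hb : ∀ β, ∀ e ∈ c, e.2 ∈ bk ⁻¹' {β} → e.1 ∈ bk ⁻¹' {β} :=
    fun β e he h => (hc e he).2.2.2.trans h
  have hbS : ∀ β, ∀ e ∈ c, e.2 ∈ bk ⁻¹' {β} ∩ S → e.1 ∈ bk ⁻¹' {β} ∩ S :=
    fun β e he h => ⟨hb β e he h.1, (hc e he).1⟩
  obtain ⟨a1, a2, s1, s2, e3⟩ := act_cpl (fun e he => (hc e he).2.2.1) (hbS (bk l)) (hbS (bk m))
    ⟨rfl, hl⟩ ⟨rfl, hm⟩ 1 (evlLink t)
  rw [e2, map_one, one_mul] at e3
  obtain ⟨D, hD, f1, f2, hS, hch, hI⟩ := exists_syl S bk (actH c)
    (actH_inj (fun e he => (hc e he).2.2.1))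
    (fun l x => actH_sup (hb _) (E5f.sup_lt (S := bk ⁻¹' {bk l}) (l := l) rfl x))
    (fun l hl x => actH_sup (fun e he _ => (hc e he).1) (E5f.sup_lt hl x)) hl hm
    (g := evlLink t) (a1 := a1⁻¹) (a2 := a2)
    (fun a ha => hp.sub a (by rw [hlab] at ha; simp [ha]))
    (sup_inv (fun a ha => (s1 a ha).1)) (sup_inv (fun a ha => (s1 a ha).2))
    (fun a ha => (s2 a ha).1) (fun a ha => (s2 a ha).2)
  rw [e1] at f1
  have : Nonempty L := ⟨l⟩
  let κb : B × List L × List L → κ := fun x => kk true (Function.invFun bk x.1)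
  have ord : ∀ (s : Bool) (x y : B × List L × List L) (a b : L), x.1 ≠ y.1 → bk a = x.1 →
      bk b = y.1 → (kk s a < kk s b ↔ κb x < κb y) := fun s x y a b h ha hb =>
    hB.out s true _ _ _ _ (ha.trans (Function.invFun_eq ⟨a, ha⟩).symm)
      (hb.trans (Function.invFun_eq ⟨b, hb⟩).symm) (by rw [ha, hb]; exact h)
  have hE := wLin_flatten (kk sd) (fun l => sgb sd * w (ty l)) κb (fun x => x.2.1) D
    (fun x hx => (hS x hx).1.1) (List.IsChain.imp_of_mem_imp (fun x y hx hy hxy a ha b hb =>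
      ord sd x y a b hxy ((hS x hx).1.2 a ha).1 ((hS y hy).1.2 b hb).1) hch) 0
  have hE' := wLin_flatten (kk sd') (fun l => sgb sd' * w (ty l)) κb (fun x => x.2.2) D
    (fun x hx => (hS x hx).2.1) (List.IsChain.imp_of_mem_imp (fun x y hx hy hxy a ha b hb =>
      ord sd' x y a b hxy ((hS x hx).2.2 a ha).1 ((hS y hy).2.2 b hb).1) hch) 0
  rw [zero_mul, zero_add] at hE hE'
  rw [e3, lin_cpl, ← mul_assoc, f2, hE', ← wLin_eq, f1, hE, sumE_add]
  have rd : ∀ x ∈ D, Rd x.2.1 := fun x hx => (pth_inf hp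
    (f1 ▸ List.infix_of_mem_flatten (List.mem_map.2 ⟨x, hx, rfl⟩)) (hS x hx).1.1).rd
  have mem : ∀ D1 x y z D2, D = D1 ++ x :: y :: z :: D2 → Syl S bk x ∧ Syl S bk y ∧ Syl S bk z :=
    fun D1 x y z D2 e => ⟨hS x (by simp [e]), hS y (by simp [e]), hS z (by simp [e])⟩
  have main := sumE_ctx κb (fun e1 e2 x => (loc (kk sd) (fun l => sgb sd * w (ty l)) e1 e2 x.2.1 +
        loc (kk sd') (fun l => sgb sd' * w (ty l)) e1 e2 x.2.2) -
      θ * (min (w 1) (w 2 - w 1) + 4 * w 2) / 2 * sgb sd * (e1 + e2) -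
      θ * min (w 1) (w 2 - w 1) *
        (if Cln S (kk sd) ty bk e1 e2 x then 0 else (x.2.1.length : ℝ)))
    (c := 2 * (min (w 1) (w 2 - w 1) + 4 * w 2)) (by positivity) D (by
      intro z hz e he
      have ae : |e| ≤ 1 := by rcases he with rfl | rfl | rfl <;> simp
      have c1 := crude hB w0 w1 w2 sd sd' (hS z hz) (rd z hz) ae (e2 := 0) (by simp)
      have c2 := crude hB w0 w1 w2 sd sd' (hS z hz) (rd z hz) (e1 := 0) (by simp) ae
      have u : ∀ P : Prop, θ * min (w 1) (w 2 - w 1) * (if P then 0 else (z.2.1.length : ℝ)) ≤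
          min (w 1) (w 2 - w 1) * z.2.1.length := fun P => by
        have : 0 ≤ min (w 1) (w 2 - w 1) * z.2.1.length := by positivity
        split_ifs <;> nlinarith
      have v : θ * (min (w 1) (w 2 - w 1) + 4 * w 2) / 2 * sgb sd * e ≤
          min (w 1) (w 2 - w 1) + 4 * w 2 := by
        have h1 : sgb sd * e ≤ 1 := by
          have := abs_le.1 ae
          rcases sgb_cases sd with h | h <;> rw [h] <;> linarith [this.1, this.2]
        have h2 : 0 ≤ θ * (min (w 1) (w 2 - w 1) + 4 * w 2) / 2 := by positivity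
        have h3 := mul_le_mul_of_nonneg_left h1 h2
        have h4 := mul_le_mul_of_nonneg_right t1
          (show 0 ≤ min (w 1) (w 2 - w 1) + 4 * w 2 by positivity)
        linarith
      simp only [add_zero, zero_add]
      constructor <;> linarith [u (Cln S (kk sd) ty bk e 0 z), u (Cln S (kk sd) ty bk 0 e z)])
    (by
      intro D1 x y z D2 e
      obtain ⟨h, h1, q1, q2⟩ := hI D1 x y z D2 e
      obtain ⟨sx, sy, sz⟩ := mem D1 x y z D2 e
      obtain ⟨n1, n2⟩ := chain3 hch e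
      refine loc_main hB w0 w1 w2 hθ hn σ sd hsd hf sy h1 q1 q2 (sgx_cases _ _ _)
        (by rcases sgx_cases κb y z with h | h <;> simp [h]) (fun hee => ?_)
      obtain ⟨s, l', hs⟩ : ∃ s l, y.2.1 = s ++ [l] :=
        ⟨_, _, (List.dropLast_append_getLast sy.1.1).symm⟩
      obtain ⟨A, a, ha⟩ : ∃ s l, x.2.1 = s ++ [l] :=
        ⟨_, _, (List.dropLast_append_getLast sx.1.1).symm⟩
      obtain ⟨b, t', hb⟩ := List.exists_cons_of_ne_nil sz.1.1
      obtain ⟨v, hv, A', B', a', c', e', h'⟩ := ex_turn (k := kk sd) s a l' b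
        (t' ++ (D2.map (fun x => x.2.1)).flatten) (by
          rw [ord sd x y a _ n1 (sx.1.2 a (by simp [ha])).1
            (sy.1.2 _ (by rw [hs]; exact List.head_mem _)).1,
            ord sd y z l' b n2 (sy.1.2 l' (by simp [hs])).1 (sz.1.2 b (by simp [hb])).1]
          exact ite_ne hee)
      refine ⟨v, hs ▸ hv, hF v ⟨(D1.map (fun x => x.2.1)).flatten ++ A ++ A', B', a', c', ?_, h'⟩⟩
      rw [f1, e, List.append_assoc _ A', ← e']
      simp [ha, hs, hb])
  obtain ⟨x0, D0, hx0⟩ := List.exists_cons_of_ne_nil hD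
  rw [sumE_lin κb _ (fun e1 e2 _ => e1 + e2), hx0, sumE_tel, ← hx0] at main
  have hC : ∀ e x, ¬ Cln S (kk sd) ty bk e 0 x := by
    rintro e x ⟨d, -, h, -⟩
    rcases sgb_cases d with h1 | h1 <;> rw [h1] at h <;> linarith
  have hC' : ∀ e x, ¬ Cln S (kk sd) ty bk 0 e x := by
    rintro e x ⟨d, h, -⟩
    rcases sgb_cases d with h1 | h1 <;> rw [h1] at h <;> linarith
  have k1 := cnt_le κb (N := turns (kk sd)) turns_cons (fun _ => rfl) (fun x => x.2.1)
    (Cln S (kk sd) ty bk) hC hC' D hD (fun x hx => (hS x hx).1.1) (by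
      rintro D1 x y z D2 e ⟨d, g1, g2, hm, -⟩ a ha b hb s l' t' hs
      obtain ⟨sx, sy, sz⟩ := mem D1 x y z D2 e
      obtain ⟨n1, n2⟩ := chain3 hch e
      have sg : ∀ x y, sgx κb x y = sgb d → (κb x < κb y ↔ d = true) := fun x y h => ite_eq h
      refine (turns_mn (d := d = true) (a :: s) l' b t' ?_).le
      have : a :: s ++ [l', b] = [a] ++ (y.2.1 ++ [b]) := by simp [hs]
      rw [this, List.isChain_append, List.isChain_append]
      refine ⟨by simp, ⟨mono_mn hm, by simp, fun u hu v hv => ?_⟩, fun u hu v hv => ?_⟩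
      · obtain rfl : b = v := by simpa using hv
        rw [ord sd y z u b n2 (sy.1.2 u (List.mem_of_mem_getLast? hu)).1 (sz.1.2 b hb).1]
        exact sg y z (neg_injective g2)
      · obtain rfl : a = u := by simpa using hu
        rw [List.head?_append_of_ne_nil _ sy.1.1] at hv
        rw [ord sd x y a v n1 (sx.1.2 a ha).1 (sy.1.2 v (List.mem_of_mem_head? hv)).1]
        exact sg x y g1)
  have k2 := cnt_le κb (N := cntM bk (Pm S ty bk)) cntM_cons cntM_one (fun x => x.2.1)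
    (Cln S (kk sd) ty bk) hC hC' D hD (fun x hx => (hS x hx).1.1) (by
      rintro D1 x y z D2 e ⟨d, -, -, -, hm⟩ a - b hb s l' t' hs
      obtain ⟨-, sy, sz⟩ := mem D1 x y z D2 e
      refine cntM_clean (β := y.1) a s l' b t' (fun v hv => (sy.1.2 v (hs ▸ hv)).1) ?_ (hs ▸ hm)
      rw [(sz.1.2 b hb).1]
      exact (chain3 hch e).2.symm)
  have cp : 0 ≤ θ * min (w 1) (w 2 - w 1) := by positivity
  constructor
  · linarith [mul_le_mul_of_nonneg_left k1 cp]
  · linarith [mul_le_mul_of_nonneg_left k2 cp]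

end Wall

variable {L κ : Type} [LinearOrder κ]

/-- The gain at an essential touch. -/
theorem touchE (w : Fin 3 → ℝ) (w0 : w 0 = 0) (w1 : 0 < w 1) (w2 : w 1 < w 2) :
    ∃ c C : ℝ, 0 < c ∧ 0 ≤ C ∧ ∀ (L κ B : Type) [LinearOrder κ] (S : Set L) (kk : Bool → L → κ)
      (ty : L → Fin 3) (bk : L → B), Blk kk ty bk → ∀ (n : ℕ) (sd σ sd' : Bool) (p p' : List L),
      2 ≤ n → Tou S kk ty n sd σ p sd' p' → Pth S p →
      (∀ x, TurnAt (kk sd) p x → Full S ty bk x) → (∀ x, TurnAt (kk sd') p' x → Full S ty bk x) →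
      c * turns (kk sd) p - C ≤ asl kk (fun x => w (ty x)) sd p + asl kk (fun x => w (ty x)) sd' p' ∧
      ∀ D, Dec D p → c * (D.countP (fun q => decide (Mixed S (kk sd) ty bk q)) : ℝ) - C ≤
        asl kk (fun x => w (ty x)) sd p + asl kk (fun x => w (ty x)) sd' p' := by
  have d0 : 0 < min (w 1) (w 2 - w 1) := lt_min w1 (sub_pos.2 w2)
  have p2 : 0 < w 2 := w1.trans w2
  refine ⟨min (w 1) (w 2 - w 1) / (6 * w 2) * min (w 1) (w 2 - w 1),
    4 * (min (w 1) (w 2 - w 1) + 4 * w 2), by positivity, by positivity, ?_⟩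
  intro L κ B _ S kk ty bk hB n sd σ sd' p p' hn hT hp hF _
  obtain ⟨h1, h2⟩ := Wall.core hB w0 w1 w2 (θ := min (w 1) (w 2 - w 1) / (6 * w 2))
    (by field_simp) hn hT hp hF
  have e : ∀ (s : Bool) (q : List L), asl kk (fun x => w (ty x)) s q =
      lin (kk s) (fun l => Wall.sgb s * w (ty l)) q := fun s q => by
    have := Wall.wLin_lin (kk s) (fun x => w (ty x)) (fun x => w (ty x)) (Wall.sgb s) 0 q
    simp only [zero_mul, add_zero, Wall.wLin_eq] at this
    rw [this]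
    rfl
  rw [e, e]
  refine ⟨h1, fun D hD => le_trans ?_ h2⟩
  have := Wall.count_le_cntM (bk := bk) (P := Wall.Pm S ty bk) (M := Mixed S (kk sd) ty bk) (by
    rintro q ⟨-, x, y, hx, hy, bxy, xq, yq, g1, g2⟩
    obtain ⟨A, a, r, b, t, rfl, xr, g3, g4, g5⟩ := Wall.ex_run xq g1 g2
    exact ⟨A, a, r, b, t, bk x, rfl, List.ne_nil_of_mem xr, g3, g4, g5, x, xr, hx, y, hy, bxy,
      fun h => yq (by simp [h])⟩) hD
  have h3 : (D.countP (fun q => decide (Mixed S (kk sd) ty bk q)) : ℝ) ≤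
      Wall.cntM bk (Wall.Pm S ty bk) p := by exact_mod_cast this
  have h4 : 0 ≤ min (w 1) (w 2 - w 1) / (6 * w 2) * min (w 1) (w 2 - w 1) := by positivity
  linarith [mul_le_mul_of_nonneg_left h3 h4]

end Pool.Agent.E5f

end

section

set_option autoImplicit false

namespace Pool.Agent.E5f

open Classical Filter

theorem lin_mul_FsStep {L κ : Type} [LinearOrder κ] (k : L → κ) (ρ : L → ℝ) (t : ℝ) (p : List L) :
    lin k (fun x => t * ρ x) p = t * lin k ρ p := by
  have h := lin_add k ρ ρ (t - 1) p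
  rw [show (fun x => ρ x + (t - 1) * ρ x) = fun x => t * ρ x from funext fun x => by ring] at h
  rw [h]
  ring

theorem dir_FsStep {ε : Bool} {u u' : Mx} (h : Dir ε u u') :
    |(ofLex u').1 - (ofLex u).1| * (if ε = true then 1 else -1) = (ofLex u').1 - (ofLex u).1 := by
  cases ε
  · have h1 : (ofLex u').1 ≤ (ofLex u).1 := Prod.Lex.monotone_fst_ofLex (by simpa [Dir] using h)
    rw [abs_of_nonpos (sub_nonpos.2 h1)]
    simp
  · have h1 : (ofLex u).1 ≤ (ofLex u').1 := Prod.Lex.monotone_fst_ofLex (by simpa [Dir] using h)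
    rw [abs_of_nonneg (sub_nonneg.2 h1)]
    simp

namespace FSys
variable {O : Type} [AddCommGroup O] {E : Lat O} {Q P : Type} {dv dh : Q → Q → ℝ}
  {Cu : Q → Prop} {fv fh : Q → P → P → ℝ} (Y : FSys E dv dh Cu fv fh)

theorem sl_not (S : Finset (Fin 3 × O)) (x y : P) (q : Q) (ε : Bool) :
    Y.sl S x y q (!ε) = - Y.sl S x y q ε := by
  cases ε <;> simp [sl]

/-- The slope is bounded by the number of turns. -/
theorem sl_le (q : Q) (ε : Bool) (x y : P) :
    ∀ᶠ S in atTop, |Y.sl S x y q ε| ≤ E.w 2 * (Y.tu S x y q + 1) := by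
  filter_upwards [Y.pth q x y] with S hS
  have h := lin_le_turns (E.key_inj (Y.ux q)) (E.w1.trans E.w2).le E.sp_mem hS.rd
  cases ε <;> simpa [sl, tu] using h

theorem fv_FsStep (q : Q) (x y : P) : ∀ᶠ S in atTop,
    fv q x y = lin (E.key (Y.ux q)) (E.pos (Y.toStp.px q)) (Y.path q S x y) := by
  filter_upwards [Y.pth q x y, Y.ev q x y] with S hS h
  exact h.trans (lin_eq_var (E.key_inj _) hS.rd fun a _ b _ hab => E.key_pos _ hab).symm

theorem step_ev {q r : Q} {σ : O → Bool} {ε : Bool} (h : Y.St q r σ)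
    (hd : Dir ε (Y.ux q) (Y.ux r)) (x y : P) : ∀ᶠ S in atTop, ∃ c, Y.CH S x y q r σ c ∧
      0 ≤ gains (E.key (Y.ux q)) c (Y.path q S x y) ∧
      min (E.w 1) (E.w 2 - E.w 1) * gains (E.key (Y.ux q)) c (Y.path q S x y) ≤
        Y.sl S x y r ε - Y.sl S x y q ε ∧
      |Y.toStp.px r - Y.toStp.px q| * Y.sl S x y q ε ≤ fv r x y - fv q x y ∧
      fv r x y - fv q x y ≤ |Y.toStp.px r - Y.toStp.px q| * Y.sl S x y r ε := by
  filter_upwards [Y.pth q x y, Y.chain q r σ h x y, Y.fv_FsStep q x y, Y.fv_FsStep r x y]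
    with S hS hc hq hr
  obtain ⟨c, h1, h2, h3⟩ := hc
  have hΔ : |Y.toStp.px r - Y.toStp.px q| * (if ε = true then 1 else -1) =
      Y.toStp.px r - Y.toStp.px q := dir_FsStep hd
  have hp : ∀ k : Fin 3 × O → ℝ ×ₗ ℝ, ∀ p, lin k (E.pos (Y.toStp.px r)) p =
      lin k (E.pos (Y.toStp.px q)) p + (Y.toStp.px r - Y.toStp.px q) * lin k E.sp p := fun k p => by
    rw [← lin_add]
    congr 1
    funext ν
    simp only [Lat.pos]
    ring
  refine ⟨c, ⟨h1, h2, h3, hS⟩, gains_nonneg h1 hS, ?_, ?_, ?_⟩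
  · have := fch_lin h1 hS (ρ := fun ν => (if ε = true then 1 else -1) * E.sp ν)
      (δ := min (E.w 1) (E.w 2 - E.w 1)) fun a _ b _ h0 h1 => by
        obtain ⟨-, -, -, h4⟩ := (E.inv_iff hd a b).1 ⟨h0, h1⟩
        cases ε
        · have := E.sp_gap (by simpa using h4 : E.sp a < E.sp b)
          simp only [Bool.false_eq_true, if_false]
          linarith
        · have := E.sp_gap (by simpa using h4 : E.sp b < E.sp a)
          simp only [if_true]
          linarith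
    rw [lin_mul_FsStep, lin_mul_FsStep, ← h3] at this
    unfold sl
    linarith
  · have := fch_lin h1 hS (ρ := E.pos (Y.toStp.px r)) (δ := 0) fun a _ b _ _ h1 =>
      sub_nonneg.2 (E.key_pos _ h1)
    rw [← h3, ← hr, hp, ← hq] at this
    rw [sl, ← mul_assoc, hΔ]
    linarith
  · have := fch_lin h1 hS (ρ := fun ν => - E.pos (Y.toStp.px q) ν) (δ := 0) fun a _ b _ h0 _ => by
      have := E.key_pos _ h0
      unfold Stp.px
      linarith
    rw [lin_neg, lin_neg, ← h3, ← hq] at this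
    rw [sl, ← mul_assoc, hΔ, hr, hp]
    linarith

theorem ux_FsStep {a : O} {q : Q} (h : Y.toStp.px q = E.ξ a) :
    Y.ux q = toLex (E.ξ a, Y.toStp.sx q) := by
  rw [← h]
  rfl

theorem mic_FsStep (a : O) (x y : P) (n : ℕ) : ∀ (σ : Bool) (q q' : Q), Y.toStp.Mic a n σ q q' →
    fv q' x y = fv q x y ∧ ∀ᶠ S : Finset (Fin 3 × O) in atTop,
      Tou (S : Set (Fin 3 × O)) (fun s => E.key (toLex (E.ξ a, s))) E.tyl n (Y.toStp.sx q) σ
        (Y.path q S x y) (Y.toStp.sx q') (Y.path q' S x y) := by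
  induction n with
  | zero =>
    rintro σ q q' rfl
    exact ⟨rfl, Eventually.of_forall fun S => ⟨rfl, rfl⟩⟩
  | succ n ih =>
    rintro σ q q' ⟨q1, h1, h2, h3, h4⟩
    obtain ⟨i1, i2⟩ := ih _ _ _ h4
    have e1 : Y.toStp.px q1 = E.ξ a := by rw [Stp.px, h2]; rfl
    have e2 : Y.toStp.sx q1 = !Y.toStp.sx q := by rw [Stp.sx, h2]; rfl
    obtain ⟨ε, hd⟩ : ∃ ε, Dir ε (Y.ux q) (Y.ux q1) :=
      (le_total (Y.ux q) (Y.ux q1)).elim (fun h => ⟨true, by simpa [Dir] using h⟩)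
        fun h => ⟨false, by simpa [Dir] using h⟩
    have hs := Y.step_ev h3 hd x y
    constructor
    · obtain ⟨S, c, -, -, -, h5, h6⟩ := hs.exists
      rw [e1, h1, sub_self, abs_zero, zero_mul] at h5 h6
      linarith
    · filter_upwards [hs, i2] with S hS i2
      obtain ⟨c, hc, -⟩ := hS
      have hf := hc.fch
      rw [e2] at i2
      refine ⟨_, ⟨c, by rwa [Y.ux_FsStep h1, h2] at hf, fun e he => ?_, hc.eq⟩, i2⟩
      obtain ⟨-, -, m1, m2⟩ := fch_mem hf he
      obtain ⟨a', ha⟩ := E.col_ex (x := e.1) (y := e.2) fun m3 => by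
        rw [E.key_same _ (Y.ux q1) m3] at m2
        exact m1 (E.key_inj _ (le_antisymm (not_lt.1 fun m => m.not_gt (m2.2 m))
          (not_lt.1 fun m => m.not_gt (m2.1 m))))
      exact hc.stat e he a' ha

theorem full_FsStep (a : O) (q : Q) (x y : P) : ∀ᶠ S : Finset (Fin 3 × O) in atTop,
    ∀ ν, TurnAt (E.key (Y.ux q)) (Y.path q S x y) ν →
      Full (S : Set (Fin 3 × O)) E.tyl (E.bk a) ν := by
  obtain ⟨T, _, hT⟩ := Y.box q x y
  have h : ∀ᶠ S : Finset (Fin 3 × O) in atTop, ∀ ν ∈ T, ∀ i,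
      (E.ty.symm i, E.bk a ν - E.μ (E.ty.symm i) a) ∈ S :=
    (eventually_all_finset T).2 fun ν _ => eventually_all.2 fun i =>
      (eventually_ge_atTop _).mono fun S hS => Finset.singleton_subset_iff.1 hS
  filter_upwards [hT, h] with S h1 h2 ν hν i
  exact ⟨_, h2 ν (h1.1 ν (.inr (.inr hν))) i, sub_add_cancel _ _, E.ty.apply_symm_apply i⟩

theorem touch_ev : ∃ c C : ℝ, 0 < c ∧ 0 ≤ C ∧ ∀ (a : O) (z z' : Q), Y.toStp.Tch a z z' →
    ∀ x y : P, fv z' x y = fv z x y ∧ ∀ᶠ S in atTop,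
      c * Y.tu S x y z - C ≤ Y.tg S x y z z' ∧
      ∀ D, Dec D (Y.path z S x y) → c * (D.countP (fun q => decide
        (Mixed (S : Set (Fin 3 × O)) (E.key (Y.ux z)) E.tyl (E.bk a) q)) : ℝ) - C ≤
          Y.tg S x y z z' := by
  obtain ⟨c, C, hc, hC, H⟩ := touchE E.w E.w0 E.w1 E.w2
  refine ⟨c, C, hc, hC, fun a z z' h x y => ?_⟩
  obtain ⟨h1, h2, -⟩ := Y.toBSys.tch_px h
  obtain ⟨n, σ, hn, hm⟩ := h
  obtain ⟨i1, i2⟩ := Y.mic_FsStep a x y n σ z z' hm
  refine ⟨i1, ?_⟩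
  filter_upwards [i2, Y.pth z x y, Y.full_FsStep a z x y, Y.full_FsStep a z' x y]
    with S i2 hp f1 f2
  rw [Y.ux_FsStep h1] at f1
  rw [Y.ux_FsStep h2] at f2
  have := H _ _ _ _ _ _ _ (E.blk a) n _ σ _ _ _ hn i2 hp f1 f2
  rw [tg, sl_not, sub_neg_eq_add, add_comm, tu, sl, sl, Y.ux_FsStep h1, Y.ux_FsStep h2]
  exact this

theorem route_ev : ∃ c C : ℝ, 0 < c ∧ 0 ≤ C ∧ ∀ (lo hi : ℝ) (p r : Q) (ε ε' : Bool) (l : ℝ)
    (n : ℕ), Y.toStp.Rt lo hi p ε r ε' l n → ∀ x y : P, ∀ᶠ S in atTop,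
      Y.sl S x y p ε - n * C ≤ Y.sl S x y r ε' ∧
      l * (Y.sl S x y p ε - n * C) ≤ fv r x y - fv p x y ∧
      fv r x y - fv p x y ≤ l * (Y.sl S x y r ε' + n * C) ∧
      (0 < n → c * Y.tu S x y p - n * C ≤ Y.sl S x y r ε' - Y.sl S x y p ε) := by
  obtain ⟨c, C, hc, hC, H⟩ := Y.touch_ev
  have hδ : 0 < min (E.w 1) (E.w 2 - E.w 1) := lt_min E.w1 (sub_pos.2 E.w2)
  refine ⟨min c (min (E.w 1) (E.w 2 - E.w 1) / 3), C, lt_min hc (by positivity), hC,
    fun lo hi p r ε ε' l n h x y => ?_⟩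
  induction h with
  | one q r ε σ h =>
    filter_upwards [Y.step_ev h.st h.dir x y] with S hS
    obtain ⟨c', -, h1, h2, h3, h4⟩ := hS
    have := mul_nonneg hδ.le h1
    simp only [Nat.cast_zero, zero_mul, sub_zero, add_zero, lt_irrefl, false_imp_iff, and_true]
    exact ⟨by linarith, h3, h4⟩
  | cons q b b' r ε ε' σ a l n h hs ht hr ih =>
    have hl := Y.toBSys.rt_nonneg hr
    obtain ⟨e1, e2⟩ := H a b b' ht x y
    filter_upwards [Y.step_ev h.st h.dir x y, e2, ih] with S hS e2 ih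
    obtain ⟨c', hc', h1, h2, h3, h4⟩ := hS
    obtain ⟨i1, i2, i3, -⟩ := ih
    have e3 := e2.1
    rw [tg, hs, Bool.not_not] at e3
    have t0 : 0 ≤ Y.tu S x y b := Nat.cast_nonneg _
    have t1 := fch_turns hc'.fch hc'.pth
    rw [← hc'.eq] at t1
    change Y.tu S x y q - _ ≤ Y.tu S x y b at t1
    have t2 := mul_nonneg hδ.le h1
    have t3 := mul_nonneg hc.le t0
    have t4 : 0 ≤ (n : ℝ) * C := mul_nonneg (Nat.cast_nonneg n) hC
    have hA := abs_nonneg (Y.toStp.px b - Y.toStp.px q)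
    rw [e1] at i2 i3
    push_cast
    refine ⟨by linarith, ?_, ?_, fun _ => ?_⟩
    · have u1 := mul_le_mul_of_nonneg_left (show Y.sl S x y q ε - (n + 1) * C ≤
        Y.sl S x y b' (Y.toStp.sx b') - n * C by linarith) hl
      have u2 := mul_le_mul_of_nonneg_left (show Y.sl S x y q ε - (n + 1) * C ≤
        Y.sl S x y q ε by linarith) hA
      linarith
    · have u1 := mul_le_mul_of_nonneg_left (show Y.sl S x y r ε' + n * C ≤
        Y.sl S x y r ε' + (n + 1) * C by linarith) hl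
      have u2 := mul_le_mul_of_nonneg_left (show Y.sl S x y b ε ≤
        Y.sl S x y r ε' + (n + 1) * C by linarith) hA
      linarith
    · have u1 := mul_le_mul_of_nonneg_left t1
        (le_min hc.le (by positivity) : 0 ≤ min c (min (E.w 1) (E.w 2 - E.w 1) / 3))
      have u2 := mul_le_mul_of_nonneg_right (min_le_left c (min (E.w 1) (E.w 2 - E.w 1) / 3)) t0
      have u3 := mul_le_mul_of_nonneg_right (min_le_right c (min (E.w 1) (E.w 2 - E.w 1) / 3)) h1
      linarith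

end FSys

end Pool.Agent.E5f

end

section

set_option autoImplicit false

namespace Pool.Agent.E5f

open Classical Filter

theorem le_eps_FsCvx {a b K : ℝ} (hK : 0 ≤ K) (h : ∀ ε : ℝ, 0 < ε → a ≤ b + ε * K) : a ≤ b := by
  refine le_of_forall_pos_le_add fun δ hδ => ?_
  have h1 := h (δ / (K + 1)) (by positivity)
  have h2 : δ / (K + 1) * K ≤ δ := by
    rw [div_mul_eq_mul_div, div_le_iff₀ (by positivity)]
    nlinarith
  linarith

theorem pm_nonneg_FsCvx {X : Type} {d : X → X → ℝ} (h : PM d) (x y : X) : 0 ≤ d x y := by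
  have h1 := h.tri x y x
  have h2 := h.self x
  have h3 := h.symm x y
  linarith

theorem nonneg_FsCvx {Q P : Type} {f : Q → P → P → ℝ} (hf : ∀ q, PM (f q)) {F : Q → ℝ}
    (hF : F ∈ LimF1 f) (q : Q) : 0 ≤ F q := by
  refine le_eps_FsCvx zero_le_one fun ε hε => ?_
  obtain ⟨x, y, t, ht, -, h⟩ := hF {q} ε hε
  have h1 := (abs_le.mp (h q (Finset.mem_singleton_self q))).2
  have h2 : 0 ≤ t * f q x y := mul_nonneg ht.le (pm_nonneg_FsCvx (hf q) x y)
  linarith

namespace FSys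
variable {O : Type} [AddCommGroup O] {E : Lat O} {Q P : Type} {dv dh : Q → Q → ℝ}
  {Cu : Q → Prop} {fv fh : Q → P → P → ℝ} (Y : FSys E dv dh Cu fv fh)

include Y

theorem fv_zero {p q : Q} (h : dv p q = 0) (x y : P) : fv p x y = fv q x y := by
  obtain ⟨c, C, -, -, H⟩ := Y.route_ev
  obtain ⟨ε, ε', n, hr⟩ := Y.route p q
  obtain ⟨S, -, h1, h2, -⟩ := (H _ _ _ _ _ _ _ _ hr x y).exists
  rw [h, zero_mul] at h1 h2
  linarith

theorem lim_nonneg {F : Q → ℝ} (hF : F ∈ LimF1 fv) (q : Q) : 0 ≤ F q := nonneg_FsCvx Y.fpm hF q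

theorem lim_zero {F : Q → ℝ} (hF : F ∈ LimF1 fv) {p q : Q} (h : dv p q = 0) : F p = F q := by
  have key : ∀ p q : Q, dv p q = 0 → F p ≤ F q := by
    intro p q h
    refine le_eps_FsCvx zero_le_two fun ε hε => ?_
    obtain ⟨x, y, t, -, -, H⟩ := hF {p, q} ε hε
    have h1 := (abs_le.mp (H p (by simp))).1
    have h2 := (abs_le.mp (H q (by simp))).2
    rw [Y.fv_zero h] at h1
    linarith
  exact le_antisymm (key p q h) (key q p (by rw [Y.pv.symm, h]))

theorem lim_cvx {F : Q → ℝ} (hF : F ∈ LimF1 fv) {p q r : Q} (h : dv p q + dv q r = dv p r) :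
    dv p r * F q ≤ dv q r * F p + dv p q * F r := by
  obtain ⟨c, C, -, hC, H⟩ := Y.route_ev
  obtain ⟨ε, ε', n, hr⟩ := Y.route p r
  have hs : 0 ≤ dv p q := pm_nonneg_FsCvx Y.pv p q
  have hs' : 0 ≤ dv q r := pm_nonneg_FsCvx Y.pv q r
  obtain ⟨z, e, n1, n2, r1, r2⟩ := Y.toBSys.rt_split hr hs (by linarith)
  have hl : dv p r - dv p q = dv q r := by linarith
  rw [hl] at r2
  have d1 := Y.toBSys.rt_dv r1
  have d2 := Y.toBSys.rt_dv r2
  have d3 := Y.pv.tri p z r
  have hz : dv q z = 0 := tree0 Y.pv Y.hv h (by linarith) (by linarith)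
  have hK : 0 ≤ dv p q * dv q r * ((n1 + n2) * C) := by positivity
  have key : ∀ x y, dv p r * fv q x y ≤ dv q r * fv p x y + dv p q * fv r x y +
      dv p q * dv q r * ((n1 + n2) * C) := by
    intro x y
    obtain ⟨S, ⟨-, -, a1, -⟩, ⟨-, a2, -, -⟩⟩ :=
      ((H _ _ _ _ _ _ _ _ r1 x y).and (H _ _ _ _ _ _ _ _ r2 x y)).exists
    rw [Y.fv_zero hz, ← h]
    have b1 := mul_le_mul_of_nonneg_left a1 hs'
    have b2 := mul_le_mul_of_nonneg_left a2 hs
    nlinarith
  refine le_eps_FsCvx (K := 2 * dv p r + dv p q * dv q r * ((n1 + n2) * C))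
    (by linarith) fun δ hδ => ?_
  obtain ⟨x, y, t, ht, htδ, G⟩ := hF {p, q, r} δ hδ
  have g1 := (abs_le.mp (G p (by simp))).2
  have g2 := (abs_le.mp (G q (by simp))).1
  have g3 := (abs_le.mp (G r (by simp))).2
  have b0 := mul_le_mul_of_nonneg_left (key x y) ht.le
  have b1 := mul_le_mul_of_nonneg_left g1 hs'
  have b2 := mul_le_mul_of_nonneg_left g2 (add_nonneg hs hs')
  have b3 := mul_le_mul_of_nonneg_left g3 hs
  have b4 := mul_le_mul_of_nonneg_right htδ hK
  rw [← h] at b0 ⊢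
  nlinarith

theorem lim_b1 {Φ : (Q → ℝ) × (Q → ℝ)} (hΦ : Φ ∈ LimF fv fh) {p p' : Q} (h : Φ.1 p = 0)
    (h' : Φ.1 p' = 0) (hd : 0 < dv p p') :
    ∃ q, Thick (fun x y => fv q x y + fh q x y) ∧ Φ.1 q = 0 ∧ Φ.2 q = 0 := by
  have h1 : Φ.1 ∈ LimF1 fv := fun T ε hε => by
    obtain ⟨x, y, t, a, b, H⟩ := hΦ T ε hε
    exact ⟨x, y, t, a, b, fun q hq => (H q hq).1⟩
  have h2 : Φ.2 ∈ LimF1 fh := fun T ε hε => by
    obtain ⟨x, y, t, a, b, H⟩ := hΦ T ε hε
    exact ⟨x, y, t, a, b, fun q hq => (H q hq).2⟩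
  have hz : ∀ q, dv p q + dv q p' = dv p p' → Φ.1 q = 0 := by
    intro q hq
    have a1 := Y.lim_cvx h1 hq
    rw [h, h', mul_zero, mul_zero, add_zero] at a1
    refine le_antisymm ?_ (Y.lim_nonneg h1 q)
    by_contra hc
    exact absurd a1 (not_le.mpr (mul_pos hd (not_le.mp hc)))
  obtain ⟨q, r, s1, s2, s3, s4, s5, s6, s7, s8⟩ := Y.toBSys.gen_step hd
  obtain ⟨hT, c, C, hc, H⟩ := Y.two q r s1 s2 s3 s4 s5 s6
  refine ⟨q, hT, hz q s7, le_antisymm ?_ (nonneg_FsCvx Y.fpm' h2 q)⟩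
  have key : c * Φ.2 q ≤ 0 := by
    refine le_eps_FsCvx (K := c + |C| + 2) (by positivity) fun δ hδ => ?_
    obtain ⟨x, y, t, ht, htδ, G⟩ := hΦ {q, r} δ hδ
    have g1 := (abs_le.mp (G q (by simp)).1).2
    have g2 := (abs_le.mp (G q (by simp)).2).1
    have g3 := (abs_le.mp (G r (by simp)).1).2
    rw [hz q s7] at g1
    rw [hz r s8] at g3
    have b0 := mul_le_mul_of_nonneg_left (H x y) ht.le
    have b1 := mul_le_mul_of_nonneg_left g2 hc.le
    have b2 := mul_le_mul_of_nonneg_left (le_abs_self C) ht.le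
    have b3 := mul_le_mul_of_nonneg_right htδ (abs_nonneg C)
    nlinarith
  by_contra hn
  exact absurd key (not_le.mpr (mul_pos hc (not_le.mp hn)))

end FSys

end Pool.Agent.E5f

end
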