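import Pool.Agent.Mg.S03381.G7cdb90

section

/-!
Free products of copies of a commutative group `C` indexed by labels: reduced words, labels,
retractions, exponents, total variation, swap maps.
-/

set_option autoImplicit false

namespace Pool.Agent.E5f

open Monoid

/-- The free product of copies of `C` indexed by `L`. -/
abbrev W (L C : Type) [CommGroup C] : Type := CoprodI (fun _ : L => C)

/-- The group of order two. -/
abbrev C2 : Type := Multiplicative (ZMod 2)

/-- The infinite cyclic group. -/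
abbrev CZ : Type := Multiplicative ℤ

section
variable {L C : Type} [CommGroup C]

/-- The letter `x` at the label `l`. -/
def lt (l : L) (x : C) : W L C := CoprodI.of (M := fun _ : L => C) (i := l) x

/-- The value of a list of letters. -/
def ev (w : List (L × C)) : W L C := (w.map (fun e => lt e.1 e.2)).prod

/-- Reduced lists of letters. -/
def Red (w : List (L × C)) : Prop := (∀ e ∈ w, e.2 ≠ 1) ∧ w.IsChain (fun e e' => e.1 ≠ e'.1)

open Classical in
/-- The reduced word of an element. -/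
noncomputable def wd (g : W L C) : List (L × C) :=
  (CoprodI.Word.equiv g).toList.map (fun e => (e.1, e.2))

/-- The labels of the reduced word. -/
noncomputable def lab (g : W L C) : List L := (wd g).map Prod.fst

/-- The homomorphism given on letters. -/
def lf {G : Type} [Group G] (f : L → C →* G) : W L C →* G := CoprodI.lift (M := fun _ : L => C) f

/-- The letters at `l` as a homomorphism. -/
def ltH (l : L) : C →* W L C := CoprodI.of (M := fun _ : L => C) (i := l)

open Classical in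
/-- The retraction killing the letters with label outside `S`. -/
noncomputable def ret (S : Set L) : W L C →* W L C := lf (fun l => if l ∈ S then ltH l else 1)

open Classical in
/-- The total exponent of the label `l`. -/
noncomputable def expo (l : L) : W L C →* C := lf (fun m => if m = l then MonoidHom.id C else 1)

open Classical in
/-- The initial exponent of the label `l`. -/
noncomputable def hd (l : L) (g : W L C) : C :=
  match wd g with
  | [] => 1
  | e :: _ => if e.1 = l then e.2 else 1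

/-- Relabelling. -/
def rl {L' : Type} (σ : L → L') : W L C →* W L' C := lf (fun l => ltH (σ l))

open Classical in
/-- The swap map: the letters at `b` are conjugated by the letter `x` at `a`. -/
noncomputable def sw (a b : L) (x : C) : W L C →* W L C :=
  lf (fun l => if l = b then (MulAut.conj (lt a x : W L C)).toMonoidHom.comp (ltH b) else ltH l)

/-- The support of an element lies in `S`. -/
def Sup (S : Set L) (g : W L C) : Prop := ∀ l ∈ lab g, l ∈ S

end

/-- Total variation of a list of reals. -/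
noncomputable def Var : List ℝ → ℝ
  | a :: b :: l => |b - a| + Var (b :: l)
  | _ => 0

section api
variable {L C : Type} [CommGroup C]

@[simp] theorem ltH_apply (l : L) (x : C) : (ltH l x : W L C) = lt l x := rfl

@[simp] theorem lf_lt {G : Type} [Group G] (f : L → C →* G) (l : L) (x : C) :
    lf f (lt l x) = f l x := CoprodI.lift_of _ _

@[simp] theorem lt_one (l : L) : (lt l (1 : C) : W L C) = 1 := map_one (ltH l : C →* W L C)

theorem lt_mul (l : L) (x y : C) : (lt l (x * y) : W L C) = lt l x * lt l y :=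
  map_mul (ltH l : C →* W L C) x y

theorem lt_inv (l : L) (x : C) : (lt l x⁻¹ : W L C) = (lt l x)⁻¹ :=
  map_inv (ltH l : C →* W L C) x

theorem W_ext {G : Type} [Group G] {f g : W L C →* G} (h : ∀ l x, f (lt l x) = g (lt l x)) :
    f = g := CoprodI.ext_hom _ _ (fun l => MonoidHom.ext (h l))

@[simp] theorem ev_nil : ev ([] : List (L × C)) = 1 := rfl

@[simp] theorem ev_cons (e : L × C) (w : List (L × C)) : ev (e :: w) = lt e.1 e.2 * ev w := by
  simp [ev]

@[simp] theorem ev_append (w w' : List (L × C)) : ev (w ++ w') = ev w * ev w' := by simp [ev]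

theorem ev_wd (g : W L C) : ev (wd g) = g := by
  classical
  have h := (CoprodI.Word.equiv (M := fun _ : L => C)).symm_apply_apply g
  have h2 : ∀ w : CoprodI.Word (fun _ : L => C),
      (CoprodI.Word.equiv (M := fun _ : L => C)).symm w = w.prod := fun _ => rfl
  rw [h2] at h
  rw [← h]
  unfold ev wd
  simp only [h, List.map_map]
  conv_rhs => rw [← h]
  unfold CoprodI.Word.prod
  congr 1

theorem red_wd (g : W L C) : Red (wd g) := by
  classical
  unfold wd
  refine ⟨?_, ?_⟩
  · intro e he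
    obtain ⟨e', he', rfl⟩ := List.mem_map.1 he
    exact CoprodI.Word.ne_one _ e' he'
  · rw [List.isChain_map]
    exact CoprodI.Word.chain_ne _

theorem wd_ev {w : List (L × C)} (h : Red w) : wd (ev w) = w := by
  classical
  let v : CoprodI.Word (fun _ : L => C) :=
    ⟨w.map (fun e => ⟨e.1, e.2⟩), by
      intro e he
      obtain ⟨e', he', rfl⟩ := List.mem_map.1 he
      exact h.1 e' he', by
      rw [List.isChain_map]
      exact h.2⟩
  have hv : v.prod = ev w := by
    unfold CoprodI.Word.prod ev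
    simp only [v, List.map_map]
    congr 1
  have h3 : CoprodI.Word.equiv (M := fun _ : L => C) (ev w) = v := by
    rw [← hv]
    exact (CoprodI.Word.equiv (M := fun _ : L => C)).apply_symm_apply v
  unfold wd
  have h4 : ∀ (i1 : DecidableEq L) (i2 : ∀ _ : L, DecidableEq C),
      @CoprodI.Word.equiv L (fun _ : L => C) _ i1 i2 (ev w) = v := by
    intro i1 i2
    rw [Subsingleton.elim i1 (fun a b => Classical.propDecidable (a = b)),
      Subsingleton.elim i2 (fun _ a b => Classical.propDecidable (a = b))]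
    exact h3
  rw [h4]
  simp [v, List.map_map, Function.comp_def]

@[simp] theorem wd_one : wd (1 : W L C) = [] := wd_ev (w := []) ⟨by simp, by simp⟩

@[simp] theorem lab_one : lab (1 : W L C) = [] := by simp [lab]

theorem wd_lt (l : L) {x : C} (hx : x ≠ 1) : wd (lt l x : W L C) = [(l, x)] := by
  have := wd_ev (w := [(l, x)]) ⟨by simpa using hx, by simp⟩
  simpa using this

theorem W_ind {p : W L C → Prop} (h1 : p 1) (h : ∀ l x g, p g → p (lt l x * g)) (g : W L C) :
    p g := CoprodI.induction_left g h1 (fun {l} x g hg => h l x g hg)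

open Classical in
@[simp] theorem ret_lt (S : Set L) (l : L) (x : C) :
    ret S (lt l x : W L C) = if l ∈ S then lt l x else 1 := by
  unfold ret; rw [lf_lt]; split_ifs <;> rfl

open Classical in
@[simp] theorem expo_lt (l m : L) (x : C) : expo l (lt m x : W L C) = if m = l then x else 1 := by
  unfold expo; rw [lf_lt]; split_ifs <;> rfl

@[simp] theorem rl_lt {L' : Type} (σ : L → L') (l : L) (x : C) :
    rl σ (lt l x : W L C) = lt (σ l) x := by
  unfold rl; rw [lf_lt]; rfl

open Classical in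
theorem sw_lt (a b l : L) (x y : C) :
    sw a b x (lt l y : W L C) = if l = b then lt a x * lt b y * (lt a x)⁻¹ else lt l y := by
  unfold sw; rw [lf_lt]; split_ifs <;> rfl

end api

end Pool.Agent.E5f

end

section

/-!
The golden lattice with its two real embeddings, the fibre labels and their orders.
-/

set_option autoImplicit false

namespace Pool.Agent.E5f

/-- Keys of orders. -/
abbrev Key : Type := ℝ ×ₗ ℝ

/-- Linear orders on labels, given by injective keys. -/
abbrev Od (L : Type) : Type := L ↪ Key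

/-- Markers on the real line: a real number and a side (`false` = just left, `true` = just
right). -/
abbrev Mk : Type := ℝ × Bool

/-- The golden ring. -/
abbrev Zl : Type := QuadraticAlgebra ℤ 1 1

/-- Fibre labels: a type and a lattice point. -/
abbrev Lam : Type := Fin 3 × Zl

/-- One-sided lattice data.  The label `(i, p)` sits at `p + μ i * z`.  In the `ξ` direction the
type `0` is slow, `md` is the middle type and `fs` is the fast type. -/
structure Emb where
  ξ : Zl →+* ℝ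
  η : Zl →+* ℝ
  ω : Zl
  span : ∀ p : Zl, ∃ a b : ℤ, p = (a : Zl) + (b : Zl) * ω
  ωω : ω * ω = ω + 1
  ξω : ξ ω = Real.goldenRatio
  ηω : η ω = Real.goldenConj
  μ : Fin 3 → Zl
  md : Fin 3
  fs : Fin 3
  μ0 : μ 0 = 0
  md0 : md ≠ 0
  fs0 : fs ≠ 0
  mf : md ≠ fs
  μf : μ fs = ω * ω * μ md
  μ1 : μ md = 1 ∨ μ fs = 1

/-- The transposed data. -/
def Emb.tr (E : Emb) : Emb where
  ξ := E.η
  η := E.ξ
  ω := 1 - E.ω
  span := fun p => by
    obtain ⟨a, b, h⟩ := E.span p
    exact ⟨a + b, -b, by rw [h]; push_cast; ring⟩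
  ωω := by linear_combination E.ωω
  ξω := by rw [map_sub, map_one, E.ηω, Real.one_sub_goldenRatio]
  ηω := by rw [map_sub, map_one, E.ξω, Real.one_sub_goldenConj]
  μ := E.μ
  md := E.fs
  fs := E.md
  μ0 := E.μ0
  md0 := E.fs0
  fs0 := E.md0
  mf := E.mf.symm
  μf := by rw [E.μf]; linear_combination (-(E.ω * E.ω - E.ω + 1) * E.μ E.md) * E.ωω
  μ1 := E.μ1.symm

@[simp] theorem Emb.tr_ξ (E : Emb) : E.tr.ξ = E.η := rfl
@[simp] theorem Emb.tr_η (E : Emb) : E.tr.η = E.ξ := rfl
@[simp] theorem Emb.tr_μ (E : Emb) : E.tr.μ = E.μ := rfl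
@[simp] theorem Emb.tr_md (E : Emb) : E.tr.md = E.fs := rfl
@[simp] theorem Emb.tr_fs (E : Emb) : E.tr.fs = E.md := rfl

theorem Emb.ξ_inj (E : Emb) : Function.Injective E.ξ := by
  rw [injective_iff_map_eq_zero]
  intro p hp
  obtain ⟨a, b, rfl⟩ := E.span p
  simp only [map_add, map_mul, map_intCast, E.ξω] at hp
  by_cases hb : b = 0
  · subst hb
    have : a = 0 := by simpa using hp
    simp [this]
  · exfalso
    have h1 := (Real.goldenRatio_irrational.intCast_mul hb).intCast_add a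
    rw [hp] at h1
    exact h1 ⟨0, by simp⟩

theorem Emb.η_inj (E : Emb) : Function.Injective E.η := E.tr.ξ_inj

/-- The speed of type `i`. -/
def Emb.m (E : Emb) (i : Fin 3) : ℝ := E.ξ (E.μ i)

theorem Emb.m_zero (E : Emb) : E.m 0 = 0 := by simp [Emb.m, E.μ0]

theorem Emb.m_fs (E : Emb) : E.m E.fs = Real.goldenRatio ^ 2 * E.m E.md := by
  simp only [Emb.m, E.μf, map_mul, E.ξω, sq]

theorem Emb.m_md_pos (E : Emb) : 0 < E.m E.md := by
  have hg := Real.goldenRatio_pos
  rcases E.μ1 with h | h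
  · simp [Emb.m, h]
  · have h1 : E.m E.fs = 1 := by simp [Emb.m, h]
    rw [E.m_fs] at h1
    by_contra h2
    have := mul_nonpos_of_nonneg_of_nonpos (sq_nonneg Real.goldenRatio) (not_lt.1 h2)
    linarith

theorem Emb.m_md_lt (E : Emb) : E.m E.md < E.m E.fs := by
  have h1 := E.m_md_pos
  have h2 := Real.one_lt_goldenRatio
  rw [E.m_fs]
  nlinarith [mul_pos h1 (show 0 < Real.goldenRatio ^ 2 - 1 by nlinarith)]

theorem Emb.types (E : Emb) (i : Fin 3) : i = 0 ∨ i = E.md ∨ i = E.fs := by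
  have h1 := E.md0
  have h2 := E.fs0
  have h3 := E.mf
  omega

theorem Emb.m_inj (E : Emb) : Function.Injective E.m := by
  intro i j h
  have h1 := E.m_md_pos
  have h2 := E.m_md_lt
  have h3 := E.m_zero
  rcases E.types i with rfl | rfl | rfl <;> rcases E.types j with rfl | rfl | rfl <;>
    first | rfl | (exfalso; linarith)

/-- The position of a fibre label when the base coordinate is `t`. -/
def Emb.pos (E : Emb) (t : ℝ) (l : Lam) : ℝ := E.ξ l.2 + E.m l.1 * t

/-- The order of the fibre labels at the base marker `u`. -/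
noncomputable def Emb.key (E : Emb) (u : Mk) : Od Lam :=
  ⟨fun l => toLex (E.pos u.1 l, if u.2 = true then E.m l.1 else -E.m l.1), by
    intro l l' h
    have h0 := toLex.injective h
    have h1 : E.pos u.1 l = E.pos u.1 l' := congrArg Prod.fst h0
    have h2 : (if u.2 = true then E.m l.1 else -E.m l.1) =
      (if u.2 = true then E.m l'.1 else -E.m l'.1) := congrArg Prod.snd h0
    have h3 : l.1 = l'.1 := by
      apply E.m_inj
      split_ifs at h2
      · exact h2
      · exact neg_injective h2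
    refine Prod.ext h3 (E.ξ_inj ?_)
    unfold Emb.pos at h1
    rw [h3] at h1
    linarith⟩

/-- The order of the fibre labels at plus infinity (`true`) or minus infinity (`false`). -/
noncomputable def Emb.kinf (E : Emb) (b : Bool) : Od Lam :=
  ⟨fun l => toLex (if b = true then E.m l.1 else -E.m l.1, E.ξ l.2), by
    intro l l' h
    have h0 := toLex.injective h
    have h1 : E.ξ l.2 = E.ξ l'.2 := congrArg Prod.snd h0
    have h2 : (if b = true then E.m l.1 else -E.m l.1) =
      (if b = true then E.m l'.1 else -E.m l'.1) := congrArg Prod.fst h0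
    refine Prod.ext (E.m_inj ?_) (E.ξ_inj h1)
    split_ifs at h2
    · exact h2
    · exact neg_injective h2⟩

/-- The order of the lattice points. -/
noncomputable def Emb.bkey (E : Emb) : Od Zl :=
  ⟨fun a => toLex (E.ξ a, 0), fun _ _ h => E.ξ_inj (congrArg Prod.fst (toLex.injective h))⟩

/-- The lattice point at which two labels of different types collide. -/
noncomputable def Emb.col (E : Emb) (l l' : Lam) : Zl :=
  (l.2 - l'.2) * Ring.inverse (E.μ l'.1 - E.μ l.1)

theorem Emb.box_fin (E : Emb) (B : ℝ) : {p : Zl | |E.ξ p| ≤ B ∧ |E.η p| ≤ B}.Finite := by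
  obtain ⟨N, hN⟩ := exists_nat_ge (4 * B)
  refine (((Set.finite_Icc (-(N : ℤ)) N).prod (Set.finite_Icc (-(N : ℤ)) N)).image
    (fun e : ℤ × ℤ => (e.1 : Zl) + (e.2 : Zl) * E.ω)).subset ?_
  rintro p ⟨h1, h2⟩
  obtain ⟨a, b, rfl⟩ := E.span p
  simp only [map_add, map_mul, map_intCast, E.ξω, E.ηω] at h1 h2
  have hB : 0 ≤ B := (abs_nonneg _).trans h1
  obtain ⟨h1a, h1b⟩ := abs_le.1 h1
  obtain ⟨h2a, h2b⟩ := abs_le.1 h2
  have g1 := Real.one_lt_goldenRatio
  have g2 := Real.goldenConj_neg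
  have g3 := Real.neg_one_lt_goldenConj
  have hb1 : (b : ℝ) ≤ 2 * B := by
    by_contra h
    have h' : 2 * B < (b : ℝ) := not_le.1 h
    nlinarith
  have hb2 : -(2 * B) ≤ (b : ℝ) := by
    by_contra h
    have h' : (b : ℝ) < -(2 * B) := not_le.1 h
    nlinarith
  have ha1 : (a : ℝ) ≤ 3 * B := by nlinarith
  have ha2 : -(3 * B) ≤ (a : ℝ) := by nlinarith
  refine ⟨(a, b), ⟨⟨?_, ?_⟩, ?_, ?_⟩, rfl⟩
  · have : (-(N : ℝ)) ≤ (a : ℝ) := by linarith
    exact_mod_cast this
  · have : (a : ℝ) ≤ (N : ℝ) := by linarith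
    exact_mod_cast this
  · have : (-(N : ℝ)) ≤ (b : ℝ) := by linarith
    exact_mod_cast this
  · have : (b : ℝ) ≤ (N : ℝ) := by linarith
    exact_mod_cast this

theorem Emb.pos_fin (E : Emb) (s t B : ℝ) :
    {l : Lam | |E.pos s l| ≤ B ∧ |E.tr.pos t l| ≤ B}.Finite := by
  refine (Set.finite_iUnion (fun i : Fin 3 =>
    (E.box_fin (B + |E.m i * s| + |E.tr.m i * t|)).image (fun p => ((i, p) : Lam)))).subset ?_
  rintro ⟨i, p⟩ ⟨h1, h2⟩
  refine Set.mem_iUnion.2 ⟨i, p, ⟨?_, ?_⟩, rfl⟩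
  · have : E.ξ p = E.pos s (i, p) - E.m i * s := by simp [Emb.pos]
    rw [this]
    have := abs_sub (E.pos s (i, p)) (E.m i * s)
    have := abs_nonneg (E.tr.m i * t)
    linarith
  · have : E.η p = E.tr.pos t (i, p) - E.tr.m i * t := by simp [Emb.pos]
    rw [this]
    have := abs_sub (E.tr.pos t (i, p)) (E.tr.m i * t)
    have := abs_nonneg (E.m i * s)
    linarith

/-- The real embedding of the golden ring given by a root. -/
noncomputable def embR (r : ℝ) (h : r * r = r + 1) : Zl →+* ℝ :=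
  (QuadraticAlgebra.lift (R := ℤ) (a := 1) (b := 1) (A := ℝ)
    ⟨r, by rw [h]; simp [add_comm]⟩).toRingHom

theorem embR_apply (r : ℝ) (h : r * r = r + 1) (p : Zl) : embR r h p = p.re + p.im * r := by
  simp [embR, QuadraticAlgebra.lift]

/-- The standard data: `ω` the golden unit, `μ = (0, 1, ω ^ 2)`. -/
noncomputable def E0 : Emb where
  ξ := embR Real.goldenRatio (by rw [← sq, Real.goldenRatio_sq])
  η := embR Real.goldenConj (by rw [← sq, Real.goldenConj_sq])
  ω := ⟨0, 1⟩
  span := fun p => ⟨p.re, p.im, by ext <;> simp⟩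
  ωω := by ext <;> simp [QuadraticAlgebra.re_one, QuadraticAlgebra.im_one]
  ξω := by simp [embR_apply]
  ηω := by simp [embR_apply]
  μ := ![0, 1, ⟨1, 1⟩]
  md := 1
  fs := 2
  μ0 := rfl
  md0 := by decide
  fs0 := by decide
  mf := by decide
  μf := by ext <;> simp
  μ1 := Or.inl rfl

end Pool.Agent.E5f

end

section

/-!
Lattice facts: norms, density in boxes, collisions, the orders of the fibre labels, equivariance.
-/

set_option autoImplicit false

namespace Pool.Agent.E5f

open Real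

theorem gr_bounds : (1.6 : ℝ) < goldenRatio ∧ goldenRatio < 1.62 := by
  have h1 := goldenRatio_sq
  have h2 := one_lt_goldenRatio
  constructor <;> nlinarith

theorem gc_eq : goldenConj = 1 - goldenRatio := by
  have := goldenRatio_add_goldenConj
  linarith

namespace Emb
variable (E : Emb)

theorem norm_int (p : Zl) : ∃ n : ℤ, E.ξ p * E.η p = n := by
  obtain ⟨a, b, rfl⟩ := E.span p
  refine ⟨a ^ 2 + a * b - b ^ 2, ?_⟩
  simp only [map_add, map_mul, map_intCast, E.ξω, E.ηω, gc_eq]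
  push_cast
  linear_combination (-(b : ℝ) ^ 2) * goldenRatio_sq

theorem ξ_ne {p : Zl} (hp : p ≠ 0) : E.ξ p ≠ 0 := fun h => hp (E.ξ_inj (by rw [h, map_zero]))

theorem η_ne {p : Zl} (hp : p ≠ 0) : E.η p ≠ 0 := E.tr.ξ_ne hp

theorem norm_ge {p : Zl} (hp : p ≠ 0) : 1 ≤ |E.ξ p * E.η p| := by
  obtain ⟨n, hn⟩ := E.norm_int p
  have h0 : n ≠ 0 := by
    rintro rfl
    exact mul_ne_zero (E.ξ_ne hp) (E.η_ne hp) (by simpa using hn)
  rw [hn, ← Int.cast_abs]
  exact_mod_cast Int.one_le_abs h0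

theorem norm_ge' {p : Zl} (hp : p ≠ 0) : 1 ≤ |E.ξ p| * |E.η p| := by
  rw [← abs_mul]; exact E.norm_ge hp

theorem eq_zero_of_small {p : Zl} (h : |E.ξ p| * |E.η p| < 1) : p = 0 := by
  by_contra hp
  exact absurd (E.norm_ge' hp) (not_le.2 h)

/-- Every open square of side three contains a lattice point. -/
theorem den (a b : ℝ) : ∃ p : Zl, a < E.ξ p ∧ E.ξ p < a + 3 ∧ b < E.η p ∧ E.η p < b + 3 := by
  obtain ⟨g1, g2⟩ := gr_bounds
  set s : ℝ := 2 * goldenRatio - 1 with hs
  have hs0 : 0 < s := by linarith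
  set y : ℤ := round ((a - b) / s) with hy
  have h1 : |(a - b) / s - y| ≤ 1 / 2 := abs_sub_round _
  have h2 : |(a - b) - y * s| ≤ s / 2 := by
    have : (a - b) - y * s = ((a - b) / s - y) * s := by field_simp
    rw [this, abs_mul, abs_of_pos hs0]
    nlinarith
  obtain ⟨h3, h4⟩ := abs_le.1 h2
  set c : ℝ := max (a - y * goldenRatio) (b - y * (1 - goldenRatio)) with hc
  have c1 : a - y * goldenRatio ≤ c := le_max_left _ _
  have c2 : b - y * (1 - goldenRatio) ≤ c := le_max_right _ _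
  have c3 : c ≤ a - y * goldenRatio + s / 2 := max_le (by linarith) (by rw [hs] at *; linarith)
  have c4 : c ≤ b - y * (1 - goldenRatio) + s / 2 :=
    max_le (by rw [hs] at *; linarith) (by linarith)
  have f1 := Int.lt_floor_add_one c
  have f2 := Int.floor_le c
  refine ⟨((⌊c⌋ + 1 : ℤ) : Zl) + (y : Zl) * E.ω, ?_⟩
  simp only [map_add, map_mul, map_intCast, E.ξω, E.ηω, gc_eq]
  push_cast
  refine ⟨by linarith, by linarith, by linarith, by linarith⟩

/-- The golden unit. -/
def uω : Zlˣ := ⟨E.ω, E.ω - 1, by linear_combination E.ωω, by linear_combination E.ωω⟩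

@[simp] theorem uω_val : (E.uω : Zl) = E.ω := rfl

theorem ξ_uω (k : ℤ) : E.ξ ((E.uω ^ k : Zlˣ) : Zl) = goldenRatio ^ k := by
  rw [← E.ξω]
  exact map_zpow ((Units.coeHom ℝ).comp (Units.map (E.ξ : Zl →* ℝ))) E.uω k

theorem η_uω (k : ℤ) : E.η ((E.uω ^ k : Zlˣ) : Zl) = goldenConj ^ k := by
  rw [← E.ηω]
  exact map_zpow ((Units.coeHom ℝ).comp (Units.map (E.η : Zl →* ℝ))) E.uω k

theorem ξ_uω2 (k : ℤ) : E.ξ ((E.uω ^ (2 * k) : Zlˣ) : Zl) = (goldenRatio ^ 2) ^ k := by
  rw [E.ξ_uω, zpow_mul, zpow_ofNat]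

theorem η_uω2 (k : ℤ) : E.η ((E.uω ^ (2 * k) : Zlˣ) : Zl) = (goldenRatio ^ 2) ^ (-k) := by
  rw [E.η_uω, zpow_mul, zpow_ofNat, zpow_neg, ← inv_zpow]
  congr 1
  have h := goldenRatio_mul_goldenConj
  refine eq_inv_of_mul_eq_one_left ?_
  calc goldenConj ^ 2 * goldenRatio ^ 2 = (goldenRatio * goldenConj) ^ 2 := by ring
    _ = 1 := by rw [h]; norm_num

/-- Every open box of area at least `27` contains a lattice point. -/
theorem den_box (a b A B : ℝ) (hA : 0 < A) (hAB : 27 ≤ A * B) :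
    ∃ p : Zl, a < E.ξ p ∧ E.ξ p < a + A ∧ b < E.η p ∧ E.η p < b + B := by
  obtain ⟨g1, g2⟩ := gr_bounds
  set l : ℝ := goldenRatio ^ 2 with hl
  have l1 : 1 < l := by nlinarith
  have l3 : l < 3 := by nlinarith
  obtain ⟨k, hk1, hk2⟩ := exists_mem_Ico_zpow (x := A / 3) (by positivity) l1
  have hq : 0 < l ^ k := zpow_pos (by linarith) k
  have hq' : l ^ (-k) = (l ^ k)⁻¹ := zpow_neg l k
  rw [zpow_add_one₀ (by linarith)] at hk2
  obtain ⟨p, h1, h2, h3, h4⟩ := E.den (a / l ^ k) (b * l ^ k)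
  refine ⟨((E.uω ^ (2 * k) : Zlˣ) : Zl) * p, ?_⟩
  simp only [map_mul, E.ξ_uω2, E.η_uω2, ← hl, hq']
  have hB : 3 ≤ B * l ^ k := by
    by_contra h
    have h' : B * l ^ k < 3 := not_le.1 h
    have hB0 : 0 < B := by
      by_contra h0
      nlinarith
    have : A * B < 9 * (l ^ k * B) := by nlinarith [mul_pos hq hB0]
    nlinarith
  refine ⟨?_, ?_, ?_, ?_⟩
  · rw [div_lt_iff₀ hq] at h1
    linarith
  · have : E.ξ p * l ^ k < (a / l ^ k + 3) * l ^ k := mul_lt_mul_of_pos_right h2 hq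
    rw [add_mul, div_mul_cancel₀ _ hq.ne'] at this
    linarith
  · rw [inv_mul_eq_div, lt_div_iff₀ hq]
    exact h3
  · rw [inv_mul_eq_div, div_lt_iff₀ hq]
    nlinarith

theorem den_lab (i : Fin 3) (s t a b : ℝ) : ∃ l : Lam, l.1 = i ∧ a < E.pos s l ∧
    E.pos s l < a + 3 ∧ b < E.tr.pos t l ∧ E.tr.pos t l < b + 3 := by
  obtain ⟨p, h1, h2, h3, h4⟩ := E.den (a - E.m i * s) (b - E.tr.m i * t)
  refine ⟨(i, p), rfl, ?_⟩
  simp only [Emb.pos, tr_ξ]
  exact ⟨by linarith, by linarith, by linarith, by linarith⟩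

theorem den_lab_box (i : Fin 3) (s t a b A B : ℝ) (hA : 0 < A) (hAB : 27 ≤ A * B) :
    ∃ l : Lam, l.1 = i ∧ a < E.pos s l ∧ E.pos s l < a + A ∧ b < E.tr.pos t l ∧
      E.tr.pos t l < b + B := by
  obtain ⟨p, h1, h2, h3, h4⟩ := E.den_box (a - E.m i * s) (b - E.tr.m i * t) A B hA hAB
  refine ⟨(i, p), rfl, ?_⟩
  simp only [Emb.pos, tr_ξ]
  exact ⟨by linarith, by linarith, by linarith, by linarith⟩

theorem unit_ω : IsUnit E.ω := E.uω.isUnit

theorem unit_md : IsUnit (E.μ E.md) := by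
  rcases E.μ1 with h | h
  · rw [h]; exact isUnit_one
  · rw [E.μf] at h
    exact IsUnit.of_mul_eq_one_right _ h

theorem unit_fs : IsUnit (E.μ E.fs) := by
  rw [E.μf]
  exact (E.unit_ω.mul E.unit_ω).mul E.unit_md

theorem μ_fs_sub : E.μ E.fs - E.μ E.md = E.ω * E.μ E.md := by
  rw [E.μf]; linear_combination (E.μ E.md) * E.ωω

theorem unit_sub {i j : Fin 3} (h : i ≠ j) : IsUnit (E.μ i - E.μ j) := by
  have h1 := E.unit_md
  have h2 := E.unit_fs
  have h3 : IsUnit (E.μ E.fs - E.μ E.md) := by rw [E.μ_fs_sub]; exact E.unit_ω.mul h1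
  rcases E.types i with rfl | rfl | rfl <;> rcases E.types j with rfl | rfl | rfl
  · exact absurd rfl h
  · rw [E.μ0, zero_sub]; exact h1.neg
  · rw [E.μ0, zero_sub]; exact h2.neg
  · rw [E.μ0, sub_zero]; exact h1
  · exact absurd rfl h
  · rw [← neg_sub]; exact h3.neg
  · rw [E.μ0, sub_zero]; exact h2
  · exact h3
  · exact absurd rfl h

theorem norm_unit {u : Zl} (hu : IsUnit u) : |E.ξ u| * |E.η u| = 1 := by
  obtain ⟨v, hv⟩ := hu.exists_right_inv
  have h1 := E.norm_ge' hu.ne_zero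
  have h2 := E.norm_ge' (right_ne_zero_of_mul_eq_one hv)
  have h3 : |E.ξ u| * |E.η u| * (|E.ξ v| * |E.η v|) = 1 := by
    have a1 : E.ξ u * E.ξ v = 1 := by rw [← map_mul, hv, map_one]
    have a2 : E.η u * E.η v = 1 := by rw [← map_mul, hv, map_one]
    calc |E.ξ u| * |E.η u| * (|E.ξ v| * |E.η v|) = |E.ξ u * E.ξ v| * |E.η u * E.η v| := by
          rw [abs_mul, abs_mul]; ring
      _ = 1 := by rw [a1, a2]; simp
  nlinarith

theorem m_nonneg (i : Fin 3) : 0 ≤ E.m i := by
  have h1 := E.m_md_pos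
  have h2 := E.m_md_lt
  have h3 := E.m_zero
  rcases E.types i with rfl | rfl | rfl <;> linarith

theorem m_le_fs (i : Fin 3) : E.m i ≤ E.m E.fs := by
  have h1 := E.m_md_pos
  have h2 := E.m_md_lt
  have h3 := E.m_zero
  rcases E.types i with rfl | rfl | rfl <;> linarith

theorem m_fs_sub : E.m E.fs - E.m E.md = goldenRatio * E.m E.md := by
  rw [E.m_fs]; linear_combination (E.m E.md) * goldenRatio_sq

theorem m_md_ge : 1 / 3 ≤ E.m E.md := by
  obtain ⟨g1, g2⟩ := gr_bounds
  have h0 := E.m_md_pos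
  rcases E.μ1 with h | h
  · have : E.m E.md = 1 := by simp [Emb.m, h]
    linarith
  · have h1 : E.m E.fs = 1 := by simp [Emb.m, h]
    rw [E.m_fs] at h1
    nlinarith

theorem m_fs_le : E.m E.fs ≤ 3 := by
  obtain ⟨g1, g2⟩ := gr_bounds
  rcases E.μ1 with h | h
  · have : E.m E.md = 1 := by simp [Emb.m, h]
    rw [E.m_fs, this]
    nlinarith
  · have h1 : E.m E.fs = 1 := by simp [Emb.m, h]
    linarith

theorem m_le (i : Fin 3) : E.m i ≤ 3 := (E.m_le_fs i).trans E.m_fs_le

theorem m_gap {i j : Fin 3} (h : E.m i < E.m j) : E.m i + 1 / 3 ≤ E.m j := by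
  have h1 := E.m_md_ge
  have h2 := E.m_fs_sub
  have h3 := E.m_zero
  have h4 := one_lt_goldenRatio
  have h5 : E.m E.md ≤ goldenRatio * E.m E.md := by nlinarith
  rcases E.types i with rfl | rfl | rfl <;> rcases E.types j with rfl | rfl | rfl <;> linarith

theorem m_ne {i j : Fin 3} (h : i ≠ j) : E.m i ≠ E.m j := fun h' => h (E.m_inj h')

/-- The orders of the speeds in the two directions agree unless the types are `md` and `fs`. -/
theorem tr_m_lt {i j : Fin 3} (h : E.m i < E.m j) :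
    (i = 0 ∧ E.tr.m i < E.tr.m j) ∨ (i = E.md ∧ j = E.fs ∧ E.tr.m j < E.tr.m i) := by
  have h1 := E.m_md_pos
  have h2 := E.m_md_lt
  have h3 := E.m_zero
  have k1 : 0 < E.tr.m E.fs := E.tr.m_md_pos
  have k2 : E.tr.m E.fs < E.tr.m E.md := E.tr.m_md_lt
  have k3 := E.tr.m_zero
  rcases E.types i with rfl | rfl | rfl <;> rcases E.types j with rfl | rfl | rfl <;>
    first
    | (exfalso; linarith)
    | exact Or.inl ⟨rfl, by linarith⟩
    | exact Or.inr ⟨rfl, rfl, by linarith⟩

@[simp] theorem tr_col : E.tr.col = E.col := rfl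

theorem col_spec {l l' : Lam} (h : l.1 ≠ l'.1) :
    l.2 + E.μ l.1 * E.col l l' = l'.2 + E.μ l'.1 * E.col l l' := by
  have h1 := Ring.inverse_mul_cancel _ (E.unit_sub h.symm)
  unfold Emb.col
  linear_combination (-(l.2 - l'.2)) * h1

theorem col_eq_iff {l l' : Lam} (h : l.1 ≠ l'.1) (a : Zl) :
    E.col l l' = a ↔ l.2 + E.μ l.1 * a = l'.2 + E.μ l'.1 * a := by
  constructor
  · rintro rfl
    exact E.col_spec h
  · intro h1
    have h2 := E.col_spec h
    refine (E.unit_sub h).mul_left_cancel ?_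
    linear_combination h2 - h1

theorem col_symm {l l' : Lam} (h : l.1 ≠ l'.1) : E.col l l' = E.col l' l := by
  rw [E.col_eq_iff h]
  exact (E.col_spec h.symm).symm

/-- Collisions are triple collisions. -/
theorem col_trans {l l' l'' : Lam} (h : l.1 ≠ l'.1) (h' : l'.1 ≠ l''.1) (h'' : l.1 ≠ l''.1)
    (e : E.col l l' = E.col l' l'') : E.col l l'' = E.col l l' := by
  rw [E.col_eq_iff h'']
  have h1 := E.col_spec h
  have h2 := E.col_spec h'
  rw [← e] at h2
  exact h1.trans h2

theorem pos_sub {l l' : Lam} (h : l.1 ≠ l'.1) (t : ℝ) :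
    E.pos t l' - E.pos t l = (E.m l'.1 - E.m l.1) * (t - E.ξ (E.col l l')) := by
  have h1 := congrArg E.ξ (E.col_spec h)
  simp only [map_add, map_mul] at h1
  unfold Emb.pos Emb.m
  linear_combination -h1

theorem pos_eq_iff {l l' : Lam} (h : l.1 ≠ l'.1) (t : ℝ) :
    E.pos t l = E.pos t l' ↔ t = E.ξ (E.col l l') := by
  have h1 := E.pos_sub h t
  have h2 : E.m l'.1 - E.m l.1 ≠ 0 := sub_ne_zero.2 (E.m_ne h.symm)
  constructor
  · intro h3
    rw [h3, sub_self] at h1
    exact sub_eq_zero.1 ((mul_eq_zero.1 h1.symm).resolve_left h2)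
  · intro h3
    rw [← h3, sub_self, mul_zero] at h1
    linarith

theorem pos_same {l l' : Lam} (h : l.1 = l'.1) (t : ℝ) :
    E.pos t l' - E.pos t l = E.ξ l'.2 - E.ξ l.2 := by
  unfold Emb.pos
  rw [h]
  ring

theorem pos_move (l : Lam) (s t : ℝ) : E.pos t l = E.pos s l + E.m l.1 * (t - s) := by
  unfold Emb.pos
  ring

theorem key_lt_iff (u : Mk) (l l' : Lam) : E.key u l < E.key u l' ↔
    E.pos u.1 l < E.pos u.1 l' ∨ (E.pos u.1 l = E.pos u.1 l' ∧
      (if u.2 = true then E.m l.1 < E.m l'.1 else E.m l'.1 < E.m l.1)) := by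
  change toLex (_, _) < toLex (_, _) ↔ _
  rw [Prod.Lex.toLex_lt_toLex]
  cases u.2 <;> simp

theorem pos_le_of_key {u : Mk} {l l' : Lam} (h : E.key u l < E.key u l') :
    E.pos u.1 l ≤ E.pos u.1 l' := by
  rcases (E.key_lt_iff u l l').1 h with h | h
  · exact h.le
  · exact h.1.le

theorem key_of_pos {u : Mk} {l l' : Lam} (h : E.pos u.1 l < E.pos u.1 l') :
    E.key u l < E.key u l' := (E.key_lt_iff u l l').2 (Or.inl h)

/-- The faster label is to the left exactly when the collision point is to the right of the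
marker. -/
theorem key_lt_fast (u : Mk) {l l' : Lam} (h : E.m l.1 < E.m l'.1) :
    E.key u l' < E.key u l ↔
      u.1 < E.ξ (E.col l l') ∨ (u.1 = E.ξ (E.col l l') ∧ u.2 = false) := by
  have hne : l.1 ≠ l'.1 := fun h0 => by rw [h0] at h; exact lt_irrefl _ h
  have h1 := E.pos_sub hne u.1
  have h2 : 0 < E.m l'.1 - E.m l.1 := sub_pos.2 h
  rw [E.key_lt_iff, eq_comm, E.pos_eq_iff hne]
  refine or_congr ?_ (and_congr Iff.rfl ?_)
  · rw [← sub_neg, h1]
    constructor
    · intro h3
      by_contra h4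
      nlinarith [mul_nonneg h2.le (sub_nonneg.2 (not_lt.1 h4))]
    · intro h3
      exact mul_neg_of_pos_of_neg h2 (sub_neg.2 h3)
  · cases u.2 <;> simp [h, h.le]

theorem key_lt_slow (u : Mk) {l l' : Lam} (h : E.m l.1 < E.m l'.1) :
    E.key u l < E.key u l' ↔
      ¬ (u.1 < E.ξ (E.col l l') ∨ (u.1 = E.ξ (E.col l l') ∧ u.2 = false)) := by
  have hne : l ≠ l' := fun h0 => by rw [h0] at h; exact lt_irrefl _ h
  rw [← E.key_lt_fast u h, not_lt]
  exact ⟨le_of_lt, fun h1 => lt_of_le_of_ne h1 (fun h2 => hne ((E.key u).injective h2))⟩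

theorem key_lt_same (u : Mk) {l l' : Lam} (h : l.1 = l'.1) :
    E.key u l < E.key u l' ↔ E.ξ l.2 < E.ξ l'.2 := by
  have h1 := E.pos_same h u.1
  rw [E.key_lt_iff, h]
  constructor
  · rintro (h2 | ⟨_, h2⟩)
    · linarith
    · split_ifs at h2 <;> exact absurd h2 (lt_irrefl _)
  · intro h2
    left
    linarith

theorem kinf_lt_iff (b : Bool) (l l' : Lam) : E.kinf b l < E.kinf b l' ↔
    (if b = true then E.m l.1 < E.m l'.1 else E.m l'.1 < E.m l.1) ∨
      (l.1 = l'.1 ∧ E.ξ l.2 < E.ξ l'.2) := by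
  change toLex (_, _) < toLex (_, _) ↔ _
  rw [Prod.Lex.toLex_lt_toLex]
  cases b <;> simp [E.m_inj.eq_iff]

theorem kinf_lt_same (b : Bool) {l l' : Lam} (h : l.1 = l'.1) :
    E.kinf b l < E.kinf b l' ↔ E.ξ l.2 < E.ξ l'.2 := by
  rw [E.kinf_lt_iff, h]
  cases b <;> simp

theorem kinf_true_lt {l l' : Lam} (h : l.1 ≠ l'.1) :
    E.kinf true l < E.kinf true l' ↔ E.m l.1 < E.m l'.1 := by
  rw [E.kinf_lt_iff]; simp [h]

theorem kinf_false_lt {l l' : Lam} (h : l.1 ≠ l'.1) :
    E.kinf false l < E.kinf false l' ↔ E.m l'.1 < E.m l.1 := by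
  rw [E.kinf_lt_iff]; simp [h]

theorem bkey_lt_iff (a a' : Zl) : E.bkey a < E.bkey a' ↔ E.ξ a < E.ξ a' := by
  change toLex (_, _) < toLex (_, _) ↔ _
  rw [Prod.Lex.toLex_lt_toLex]
  simp

/-- Inverted pairs between two markers. -/
theorem key_inverted {u u' : Mk} {l l' : Lam} (h1 : E.key u l < E.key u l')
    (h2 : E.key u' l' < E.key u' l) : l.1 ≠ l'.1 ∧
    ((E.m l.1 < E.m l'.1 ∧
      ¬ (u.1 < E.ξ (E.col l l') ∨ (u.1 = E.ξ (E.col l l') ∧ u.2 = false)) ∧
      (u'.1 < E.ξ (E.col l l') ∨ (u'.1 = E.ξ (E.col l l') ∧ u'.2 = false))) ∨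
    (E.m l'.1 < E.m l.1 ∧
      (u.1 < E.ξ (E.col l l') ∨ (u.1 = E.ξ (E.col l l') ∧ u.2 = false)) ∧
      ¬ (u'.1 < E.ξ (E.col l l') ∨ (u'.1 = E.ξ (E.col l l') ∧ u'.2 = false)))) := by
  have hne : l.1 ≠ l'.1 := by
    intro h
    rw [E.key_lt_same u h] at h1
    rw [E.key_lt_same u' h.symm] at h2
    exact lt_asymm h1 h2
  refine ⟨hne, ?_⟩
  rcases lt_or_gt_of_ne (E.m_ne hne) with h | h
  · exact Or.inl ⟨h, (E.key_lt_slow u h).1 h1, (E.key_lt_fast u' h).1 h2⟩
  · rw [E.col_symm hne]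
    exact Or.inr ⟨h, (E.key_lt_fast u h).1 h1, (E.key_lt_slow u' h).1 h2⟩

theorem pos_inj {t : ℝ} (ht : t ∉ Set.range E.ξ) : Function.Injective (E.pos t) := by
  intro l l' h
  by_cases h0 : l.1 = l'.1
  · have := E.pos_same h0 t
    exact Prod.ext h0 (E.ξ_inj (by linarith))
  · exact absurd ⟨_, ((E.pos_eq_iff h0 t).1 h).symm⟩ ht

theorem key_lt_generic {u : Mk} (hu : u.1 ∉ Set.range E.ξ) (l l' : Lam) :
    E.key u l < E.key u l' ↔ E.pos u.1 l < E.pos u.1 l' := by
  refine ⟨fun h => lt_of_le_of_ne (E.pos_le_of_key h) (fun h2 => ?_), E.key_of_pos⟩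
  rw [E.pos_inj hu h2] at h
  exact lt_irrefl _ h

instance : Countable Zl :=
  Function.Injective.countable (f := fun p : Zl => (p.re, p.im))
    (fun _ _ h => QuadraticAlgebra.ext (congrArg Prod.fst h) (congrArg Prod.snd h))

theorem exists_generic {a b : ℝ} (h : a < b) : ∃ t, a < t ∧ t < b ∧ t ∉ Set.range E.ξ := by
  have h1 : Dense (Set.range E.ξ)ᶜ := Set.Countable.dense_compl ℝ (Set.countable_range E.ξ)
  obtain ⟨t, ht1, ht2⟩ := h1.exists_between h
  exact ⟨t, ht2.1, ht2.2, ht1⟩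

/-- The affine relabelling attached to `z ↦ ε z + e`. -/
def aff (ε e : Zl) (l : Lam) : Lam := (l.1, ε * l.2 - E.μ l.1 * e)

@[simp] theorem aff_fst (ε e : Zl) (l : Lam) : (E.aff ε e l).1 = l.1 := rfl

@[simp] theorem aff_snd (ε e : Zl) (l : Lam) : (E.aff ε e l).2 = ε * l.2 - E.μ l.1 * e := rfl

@[simp] theorem tr_aff : E.tr.aff = E.aff := rfl

theorem pos_aff (ε e : Zl) (t : ℝ) (l : Lam) :
    E.pos (E.ξ ε * t + E.ξ e) (E.aff ε e l) = E.ξ ε * E.pos t l := by
  simp only [Emb.pos, Emb.m, aff_fst, aff_snd, map_sub, map_mul]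
  ring

theorem key_aff {ε : Zl} (hε : 0 < E.ξ ε) (e : Zl) (u : Mk) (l l' : Lam) :
    E.key (E.ξ ε * u.1 + E.ξ e, u.2) (E.aff ε e l) < E.key (E.ξ ε * u.1 + E.ξ e, u.2) (E.aff ε e l')
      ↔ E.key u l < E.key u l' := by
  simp only [E.key_lt_iff, E.pos_aff, aff_fst, mul_lt_mul_iff_right₀ hε,
    mul_right_inj' hε.ne']

theorem kinf_aff {ε : Zl} (hε : 0 < E.ξ ε) (e : Zl) (b : Bool) (l l' : Lam) :
    E.kinf b (E.aff ε e l) < E.kinf b (E.aff ε e l') ↔ E.kinf b l < E.kinf b l' := by
  simp only [E.kinf_lt_iff, aff_fst, aff_snd, map_sub, map_mul]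
  refine or_congr Iff.rfl (and_congr_right (fun h => ?_))
  rw [h, sub_lt_sub_iff_right, mul_lt_mul_iff_right₀ hε]

theorem col_aff (ε e : Zl) {l l' : Lam} (h : l.1 ≠ l'.1) :
    E.col (E.aff ε e l) (E.aff ε e l') = ε * E.col l l' + e := by
  rw [E.col_eq_iff (by simpa using h)]
  simp only [aff_fst, aff_snd]
  linear_combination ε * E.col_spec h

theorem aff_aff (ε e ε' e' : Zl) (l : Lam) :
    E.aff ε e (E.aff ε' e' l) = E.aff (ε * ε') (ε * e' + e) l := by
  refine Prod.ext rfl ?_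
  simp only [aff_fst, aff_snd]
  ring

theorem aff_one (l : Lam) : E.aff 1 0 l = l := by
  refine Prod.ext rfl ?_
  simp

end Emb

/-- Translation of fibre labels. -/
def trl (v : Zl) (l : Lam) : Lam := (l.1, l.2 + v)

@[simp] theorem trl_fst (v : Zl) (l : Lam) : (trl v l).1 = l.1 := rfl

@[simp] theorem trl_snd (v : Zl) (l : Lam) : (trl v l).2 = l.2 + v := rfl

theorem trl_trl (v v' : Zl) (l : Lam) : trl v (trl v' l) = trl (v + v') l := by
  refine Prod.ext rfl ?_
  simp only [trl_snd]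
  ring

theorem trl_zero (l : Lam) : trl 0 l = l := by
  refine Prod.ext rfl ?_
  simp

namespace Emb
variable (E : Emb)

theorem pos_trl (v : Zl) (t : ℝ) (l : Lam) : E.pos t (trl v l) = E.pos t l + E.ξ v := by
  simp only [Emb.pos, trl_fst, trl_snd, map_add]
  ring

theorem key_trl (v : Zl) (u : Mk) (l l' : Lam) :
    E.key u (trl v l) < E.key u (trl v l') ↔ E.key u l < E.key u l' := by
  simp only [E.key_lt_iff, E.pos_trl, trl_fst, add_lt_add_iff_right, add_left_inj]

theorem kinf_trl (v : Zl) (b : Bool) (l l' : Lam) :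
    E.kinf b (trl v l) < E.kinf b (trl v l') ↔ E.kinf b l < E.kinf b l' := by
  simp only [E.kinf_lt_iff, trl_fst, trl_snd, map_add, add_lt_add_iff_right]

theorem col_trl (v : Zl) (l l' : Lam) : E.col (trl v l) (trl v l') = E.col l l' := by
  simp only [Emb.col, trl_fst, trl_snd, add_sub_add_right_eq_sub]

theorem aff_trl (ε e v : Zl) (l : Lam) : E.aff ε e (trl v l) = trl (ε * v) (E.aff ε e l) := by
  refine Prod.ext rfl ?_
  simp only [aff_snd, trl_fst, trl_snd]
  ring

end Emb

end Pool.Agent.E5f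

end
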