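import Pool.Agent.Mg.S03381.Gdf2cf1
import Pool.Agent.Mg.S03381.Ge56106
import Pool.Agent.Mg.S03381.G7cdb90
import Pool.Agent.Mg.S03381.G09b917

section

/-!
Planar models: moves, boxes, the two trees and their common geodesics.
-/

set_option autoImplicit false

namespace Pool.Agent.E5f

open Filter

section
variable {L C : Type} [CommGroup C]

theorem Var_of_le : ∀ (a : ℝ) (l : List ℝ) (b : ℝ), (a :: l ++ [b]).IsChain (· ≤ ·) →
    Var (a :: l ++ [b]) = b - a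
  | a, [], b, h => by
    have : a ≤ b := by simpa using h
    simp [Var_cons2, abs_of_nonneg (sub_nonneg.2 this)]
  | a, x :: l, b, h => by
    simp only [List.cons_append] at h ⊢
    rw [List.isChain_cons_cons] at h
    have := Var_of_le x l b h.2
    simp only [List.cons_append] at this
    rw [Var_cons2, this, abs_of_nonneg (sub_nonneg.2 h.1)]; ring

theorem pl_eq_ev (c : C) (w : List L) : pl c w = ev (w.map (fun l => (l, c))) := by
  simp [pl, ev, List.map_map, Function.comp_def]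

theorem Up.total {X : Od L} {R R' : Set L} (h : Up X R) (h' : Up X R') : R' ⊆ R ∨ R ⊆ R' := by
  by_contra h1
  rw [not_or, Set.not_subset, Set.not_subset] at h1
  obtain ⟨⟨a, a1, a2⟩, b, b1, b2⟩ := h1
  rcases lt_trichotomy (X a) (X b) with h2 | h2 | h2
  · exact b2 (h' a b a1 h2)
  · exact a2 (X.injective h2 ▸ b1)
  · exact a2 (h b a b1 h2)

theorem stp_of_sub (c : C) {X : Od L} {R R' : Set L} (D : Set L) (h' : Up X R') (hs : R' ⊆ R) :
    stp c X R R' D = opH c X ((R \ R') ∩ D) := by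
  unfold stp
  rw [opH_split c X (A := R ∩ D) (A1 := (R \ R') ∩ D) (A2 := R' ∩ D)]
  · simp
  · intro l
    constructor
    · intro h
      by_cases h1 : l ∈ R'
      · exact Or.inr ⟨h1, h.2⟩
      · exact Or.inl ⟨⟨h.1, h1⟩, h.2⟩
    · rintro (h | h)
      · exact ⟨h.1.1, h.2⟩
      · exact ⟨hs h.1, h.2⟩
  · intro a ha b hb
    rcases lt_trichotomy (X a) (X b) with h2 | h2 | h2
    · exact h2
    · exact absurd (X.injective h2 ▸ hb.1) ha.1.2
    · exact absurd (h' b a hb.1 h2) ha.1.2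

theorem dT_op (Z : Cfg L) (c : C) (D : Finset L) {a a' : ℝ} (haa : a ≤ a')
    (h : ∀ l ∈ D, a ≤ Z.x l ∧ Z.x l ≤ a') : dT Z.x a (op Z.X c D) a' = |a' - a| := by
  refine le_antisymm ?_ (abs_le_dT _ _ _ _)
  unfold op
  rw [pl_eq_ev]
  refine (dT_ev_le _ _ _ _).trans (le_of_eq ?_)
  rw [abs_of_nonneg (sub_nonneg.2 haa), List.map_map]
  refine Var_of_le _ _ _ (List.Pairwise.isChain ?_)
  rw [List.cons_append, List.pairwise_cons, List.pairwise_append]
  refine ⟨fun x hx => ?_, ?_, by simp, fun x hx y hy => ?_⟩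
  · rcases List.mem_append.1 hx with hx | hx
    · obtain ⟨l, hl, rfl⟩ := List.mem_map.1 hx
      exact (h l (mem_srt.1 hl)).1
    · rw [List.mem_singleton.1 hx]; exact haa
  · rw [List.pairwise_map]
    exact (srt_le Z.X D).imp (fun h => Z.x_le h)
  · obtain ⟨l, hl, rfl⟩ := List.mem_map.1 hx
    rw [List.mem_singleton.1 hy]
    exact (h l (mem_srt.1 hl)).2

theorem dT_stp (Z : Cfg L) (c : C) (S : Finset L) {R R' : Set L} (D : Set L) {a a' : ℝ}
    (h : Up Z.X R) (h' : Up Z.X R') (ha : At Z.x R a) (ha' : At Z.x R' a') :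
    dT Z.x a (pj S (stp c Z.X R R' D)) a' = |a' - a| := by
  have key : ∀ {R R' : Set L} {a a' : ℝ}, Up Z.X R' → At Z.x R a → At Z.x R' a' → R' ⊆ R →
      dT Z.x a (pj S (stp c Z.X R R' D)) a' = |a' - a| := by
    intro R R' a a' h' ha ha' hs
    rw [stp_of_sub c D h' hs, pj_opH]
    have hb : ∀ l ∈ cut S ((R \ R') ∩ D), a ≤ Z.x l ∧ Z.x l ≤ a' := fun l hl =>
      ⟨(ha l).1 (mem_cut.1 hl).2.1.1, (ha' l).2 (mem_cut.1 hl).2.1.2⟩
    by_cases haa : a ≤ a'
    · exact dT_op Z c _ haa hb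
    · have : cut S ((R \ R') ∩ D) = ∅ := by
        ext l
        simp only [Finset.notMem_empty, iff_false]
        exact fun hl => haa ((hb l hl).1.trans (hb l hl).2)
      rw [this, op_empty, dT_one]
  rcases h.total h' with hs | hs
  · exact key h' ha ha' hs
  · rw [← stp_inv, map_inv, dT_symm, key h ha' ha hs, abs_sub_comm]

theorem dW_stp (Z : Cfg L) (c : C) {R R' : Set L} (D : Set L) {a a' : ℝ}
    (h : Up Z.X R) (h' : Up Z.X R') (ha : At Z.x R a) (ha' : At Z.x R' a') :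
    dW Z.x a (stp c Z.X R R' D) a' = |a' - a| :=
  dW_eq ∅ (fun S _ => dT_stp Z c S D h h' ha ha')

open Classical in
theorem stp_cross {Z : Cfg L} (hx : Function.Injective Z.x) (c : C) (l : L) (D : Set L) :
    stp c Z.X (Rs Z.x (Z.x l, false)) (Rs Z.x (Z.x l, true)) D =
      emb (lt l (if l ∈ D then c else 1)) := by
  have e : Rs Z.x (Z.x l, false) \ Rs Z.x (Z.x l, true) = {l} := by
    ext m
    simp only [Rs, Set.mem_diff, Set.mem_setOf_eq, and_true, Bool.true_eq_false, and_false,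
      or_false, Set.mem_singleton_iff]
    constructor
    · rintro ⟨h | h, h'⟩
      · exact absurd h h'
      · exact (hx h).symm
    · rintro rfl
      exact ⟨Or.inr rfl, lt_irrefl _⟩
  rw [stp_of_sub c D (Z.up_Rs _) (fun m hm => by
    rcases hm with hm | hm
    · exact Or.inl hm
    · simp at hm), e]
  split_ifs with h
  · rw [Set.inter_eq_left.2 (Set.singleton_subset_iff.2 h), opH_singleton]
  · rw [Set.singleton_inter_eq_empty.2 h, opH_empty, lt_one, map_one]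

theorem pj_emb_lt {S : Finset L} {l : L} (hl : l ∈ S) (x : C) :
    pj S (emb (lt l x : W L C)) = lt l x := by
  rw [pj_emb, ret_lt, if_pos (Finset.mem_coe.2 hl)]

theorem Rs_mono (ρ : L → ℝ) {u u' : Mk} (h : toLex u ≤ toLex u') : Rs ρ u' ⊆ Rs ρ u :=
  fun l hl => (rtP_iff ρ u l).2 (h.trans ((rtP_iff ρ u' l).1 hl))

theorem rtg_symm {X : Type} {r : X → X → Prop} (hr : ∀ a b, r a b → r b a) {a b : X}
    (h : Relation.ReflTransGen r a b) : Relation.ReflTransGen r b a := by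
  induction h with
  | refl => exact Relation.ReflTransGen.refl
  | tail _ h2 ih => exact Relation.ReflTransGen.head (hr _ _ h2) ih

namespace Plan
variable {c : C} {Z : Cfg L} {Q : Type} (P : Plan c Z Q)

theorem MV.symm {P : Plan c Z Q} {p q : Q} (h : P.MV p q) : P.MV q p := ⟨h.1.symm, h.2.symm⟩

theorem MH.symm {P : Plan c Z Q} {p q : Q} (h : P.MH p q) : P.MH q p := ⟨h.1.symm, h.2.symm⟩

theorem MH.trans {P : Plan c Z Q} {p q r : Q} (h : P.MH p q) (h' : P.MH q r) : P.MH p r :=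
  ⟨h.1.trans h'.1, h.2.trans h'.2⟩

theorem MV.trans {P : Plan c Z Q} {p q r : Q} (h : P.MV p q) (h' : P.MV q r) : P.MV p r :=
  ⟨h.1.trans h'.1, h.2.trans h'.2⟩

theorem ex_mh (q : Q) (u' : Mk) : ∃ q', P.MH q q' ∧ P.u q' = u' := by
  obtain ⟨q', h1, h2, h3⟩ := P.mvh q u'
  exact ⟨q', ⟨h1.symm, h2.symm⟩, h3⟩

theorem ex_mv (q : Q) (w' : Mk) : ∃ q', P.MV q q' ∧ P.w q' = w' := P.tr.ex_mh q w'

/-- The word of a horizontal move. -/
theorem mh_g {p q : Q} (h : P.MH p q) :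
    P.g q = P.g p * stp c Z.X (P.R p) (P.R q) (Rs Z.y (P.w p)) := by
  have e : ∀ r, P.g r = Kh c Z.Y Z.X (P.h r) * (opH c Z.X (P.R r ∩ Rs Z.y (P.w r)))⁻¹ := by
    intro r
    rw [P.relh r, map_mul, Kh_opH c (X := Z.Y) (R := Rs Z.y (P.w r)) (Z.tr.up_Rs _) (Z.up_Rs _),
      Set.inter_comm]
    rfl
  rw [e q, e p, h.1, h.2]
  unfold stp
  group

theorem at_R (q : Q) : At Z.x (P.R q) (P.u q).1 := at_Rs _ _

theorem up_R (q : Q) : Up Z.X (P.R q) := Z.up_Rs _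

theorem dv_of_g {p q : Q} {D : Set L} (h : P.g q = P.g p * stp c Z.X (P.R p) (P.R q) D) :
    P.dv p q = |(P.u q).1 - (P.u p).1| := by
  unfold dv
  rw [h, inv_mul_cancel_left]
  exact dW_stp Z c D (P.up_R p) (P.up_R q) (P.at_R p) (P.at_R q)

theorem dv_mh {p q : Q} (h : P.MH p q) : P.dv p q = |(P.u q).1 - (P.u p).1| :=
  P.dv_of_g (P.mh_g h)

theorem dv_mv {p q : Q} (h : P.MV p q) : P.dv p q = 0 := by
  have : P.g q = P.g p * stp c Z.X (P.R p) (P.R q) ∅ := by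
    unfold R
    rw [h.1, h.2, stp_self, mul_one]
  rw [P.dv_of_g this, h.2, sub_self, abs_zero]

theorem dh_mv {p q : Q} (h : P.MV p q) : P.dh p q = |(P.w q).1 - (P.w p).1| := P.tr.dv_mh h

theorem dh_mh {p q : Q} (h : P.MH p q) : P.dh p q = 0 := P.tr.dv_mv h

/-- A move. -/
def Mv (p q : Q) : Prop := P.MV p q ∨ P.MH p q

theorem Mv.symm {P : Plan c Z Q} {p q : Q} (h : P.Mv p q) : P.Mv q p := h.imp MV.symm MH.symm

theorem dv_move {p q : Q} (h : P.Mv p q) : P.dv p q = |(P.u q).1 - (P.u p).1| := by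
  rcases h with h | h
  · rw [P.dv_mv h, h.2, sub_self, abs_zero]
  · exact P.dv_mh h

theorem dh_move {p q : Q} (h : P.Mv p q) : P.dh p q = |(P.w q).1 - (P.w p).1| :=
  P.tr.dv_move (Or.symm h)

/-- The point lies in the box. -/
def In (b : Bx) (q : Q) : Prop := b.Mem (P.u q).1 (P.w q).1

/-- Joined by moves inside the box. -/
def Rch (b : Bx) (p q : Q) : Prop :=
  P.In b p ∧ Relation.ReflTransGen (fun a a' => P.Mv a a' ∧ P.In b a') p q

variable {P}

theorem Rch.refl {b : Bx} {p : Q} (h : P.In b p) : P.Rch b p p := ⟨h, Relation.ReflTransGen.refl⟩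

theorem Rch.tail {b : Bx} {p q r : Q} (h : P.Rch b p q) (h1 : P.Mv q r) (h2 : P.In b r) :
    P.Rch b p r := ⟨h.1, h.2.tail ⟨h1, h2⟩⟩

theorem Rch.right {b : Bx} {p q : Q} (h : P.Rch b p q) : P.In b q := by
  obtain ⟨h1, h2⟩ := h
  induction h2 with
  | refl => exact h1
  | tail _ h3 _ => exact h3.2

theorem Rch.trans {b : Bx} {p q r : Q} (h : P.Rch b p q) (h' : P.Rch b q r) : P.Rch b p r :=
  ⟨h.1, h.2.trans h'.2⟩

theorem Rch.symm {b : Bx} {p q : Q} (h : P.Rch b p q) : P.Rch b q p := by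
  obtain ⟨h1, h2⟩ := h
  induction h2 with
  | refl => exact Rch.refl h1
  | tail h0 h3 ih => exact ((Rch.refl h3.2).tail h3.1.symm ih.1).trans ih

theorem Rch.tr {b : Bx} {p q : Q} (h : P.Rch b p q) : P.tr.Rch b.tr p q :=
  ⟨h.1.tr, Relation.ReflTransGen.mono (fun _ _ h => ⟨Or.symm h.1, h.2.tr⟩) _ _ h.2⟩

theorem Rch.mono {b b' : Bx} {p q : Q} (h : P.Rch b p q) (hb : b.Sub b') : P.Rch b' p q :=
  ⟨h.1.mono hb, Relation.ReflTransGen.mono (fun _ _ h => ⟨h.1, h.2.mono hb⟩) _ _ h.2⟩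

theorem In.inB {b : Bx} {q : Q} (h : P.In b q) : InB Z.x b.x0 b.x1 (P.R q) :=
  (P.at_R q).inB h.1 h.2.1

theorem Rch.box {b : Bx} {p q : Q} (h : P.Rch b p q) : P.Box b p q := by
  obtain ⟨h1, h2⟩ := h
  refine ⟨h1, Rch.right ⟨h1, h2⟩, ?_⟩
  induction h2 with
  | refl => rw [inv_mul_cancel]; exact BoxW.refl (P.up_R p) h1.inB
  | @tail q r h0 h3 ih =>
    rcases h3.1 with h4 | h4
    · unfold R at ih ⊢
      rw [← h4.1, ← h4.2]; exact ih
    · have hq : P.In b q := Rch.right ⟨h1, h0⟩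
      rw [P.mh_g h4, ← mul_assoc]
      exact ih.step (P.up_R r) h3.2.inB ((at_Rs _ _).inB hq.2.2.1 hq.2.2.2)

variable (P)

/-- The box of a point. -/
def pt (q : Q) : Bx := ⟨(P.u q).1, (P.u q).1, (P.w q).1, (P.w q).1⟩

theorem in_pt (q : Q) : P.In (P.pt q) q := ⟨le_rfl, le_rfl, le_rfl, le_rfl⟩

theorem exists_rch (p q : Q) : ∃ b, P.Rch b p q := by
  have h := P.conn p q
  induction h with
  | refl => exact ⟨_, Rch.refl (P.in_pt p)⟩
  | @tail q r _ h3 ih =>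
    obtain ⟨b, hb⟩ := ih
    exact ⟨b.sup (P.pt r), (hb.mono (Bx.sub_sup_left _ _)).tail h3
      ((P.in_pt r).mono (Bx.sub_sup_right _ _))⟩

theorem exists_rch2 (p q r : Q) : ∃ b, P.Rch b p q ∧ P.Rch b p r := by
  obtain ⟨b, hb⟩ := P.exists_rch p q
  obtain ⟨b', hb'⟩ := P.exists_rch p r
  exact ⟨b.sup b', hb.mono (Bx.sub_sup_left _ _), hb'.mono (Bx.sub_sup_right _ _)⟩

variable {P}

theorem Box.dv_eq {b : Bx} {p q : Q} (h : P.Box b p q) {S : Finset L} (hS : Z.bl b ⊆ S) :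
    P.dv p q = dT Z.x (P.u p).1 ((pj S (P.g p))⁻¹ * pj S (P.g q)) (P.u q).1 := by
  rw [← map_inv, ← map_mul]
  exact h.2.2.att (P.at_R p) (P.at_R q) hS

variable (P)

theorem dv_ev' (p q : Q) : ∀ᶠ S : Finset L in atTop,
    P.dv p q = dL Z.x ((P.u p).1, pj S (P.g p)) ((P.u q).1, pj S (P.g q)) := by
  obtain ⟨b, hb⟩ := P.exists_rch p q
  refine (eventually_ge_atTop (Z.bl_fin b).toFinset).mono (fun S hS => hb.box.dv_eq ?_)
  intro l hl
  exact hS ((Z.bl_fin b).mem_toFinset.2 hl)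

theorem pv : PM P.dv := by
  classical
  refine ⟨fun x => P.dv_mv ⟨rfl, rfl⟩, fun x y => ?_, fun x y z => ?_⟩
  · obtain ⟨S, h1, h2⟩ := ((P.dv_ev' x y).and (P.dv_ev' y x)).exists
    rw [h1, h2, (dL_pm _).symm]
  · obtain ⟨S, h1, h2, h3⟩ := ((P.dv_ev' x z).and ((P.dv_ev' x y).and (P.dv_ev' y z))).exists
    rw [h1, h2, h3]
    exact (dL_pm _).tri _ _ _

theorem ph : PM P.dh := P.tr.pv

theorem hv : Hyp P.dv 0 := by
  classical
  intro w x y z
  obtain ⟨S, ⟨h1, h2, h3⟩, h4, h5, h6⟩ := (((P.dv_ev' x w).and ((P.dv_ev' y w).and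
    (P.dv_ev' z w))).and ((P.dv_ev' x y).and ((P.dv_ev' y z).and (P.dv_ev' x z)))).exists
  unfold gp
  rw [h1, h2, h3, h4, h5, h6]
  exact dL_hyp Z.x _ _ _ _

theorem hh : Hyp P.dh 0 := P.tr.hv

theorem abs_le_dv' (p q : Q) : |(P.u q).1 - (P.u p).1| ≤ P.dv p q := by
  classical
  obtain ⟨S, h⟩ := (P.dv_ev' p q).exists
  rw [h]
  exact abs_le_dT _ _ _ _

theorem abs_le_dh (p q : Q) : |(P.w q).1 - (P.w p).1| ≤ P.dh p q := P.tr.abs_le_dv' p q

open Classical in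
/-- The coordinate at a finite level on a set of points. -/
noncomputable def cd (S : Finset L) (T : Set Q) : Cd L C T :=
  ⟨Z.x, fun s => P.u s, fun s => pj S (P.g s), fun t => if t then c else 1⟩

/-- The points that can be reached inside the box. -/
def rs (b : Bx) (p : Q) : Set Q := {q | P.Rch b p q}

theorem rs_tr (b : Bx) (p : Q) : P.tr.rs b.tr p = P.rs b p :=
  Set.ext fun _ => ⟨fun h => Rch.tr h, fun h => Rch.tr h⟩

theorem step_of_mh (hx : Function.Injective Z.x) {S : Finset L} {T : Set Q} {s s' : T}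
    (h : P.MH s s') (he : Elm Z.x S (P.u s) (P.u s')) :
    E5f.Step S (P.cd S T) (P.tr.cd S T) s s' := by
  classical
  have gap : Gap Z.x S (P.u s) (P.u s') → E5f.Step S (P.cd S T) (P.tr.cd S T) s s' := by
    intro hg
    refine ⟨h.2.symm, congrArg (pj S) h.1.symm, Or.inl ⟨?_, hg⟩⟩
    change pj S (P.g s') = pj S (P.g s)
    have e : cut S (P.R s ∩ Rs Z.y (P.w s)) = cut S (P.R s' ∩ Rs Z.y (P.w s)) := by
      ext l
      simp only [mem_cut, Set.mem_inter_iff]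
      exact ⟨fun h1 => ⟨h1.1, (hg l h1.1).1 h1.2.1, h1.2.2⟩,
        fun h1 => ⟨h1.1, (hg l h1.1).2 h1.2.1, h1.2.2⟩⟩
    rw [P.mh_g h, map_mul, pj_stp, e, mul_inv_cancel, mul_one]
  have crs : ∀ {s s' : T}, P.MH s s' → ∀ l ∈ S, P.u s = (Z.x l, false) → P.u s' = (Z.x l, true) →
      Crs (P.cd S T) (P.tr.cd S T) l s s' := by
    intro s s' h l hl h1 h2
    refine ⟨h1, h2, ?_⟩
    change pj S (P.g s') = pj S (P.g s) * lt l (if l ∈ Rs Z.y (P.w s) then c else 1)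
    rw [P.mh_g h, map_mul]
    unfold R
    rw [h1, h2, stp_cross hx, pj_emb_lt hl]
  rcases he with he | ⟨l, hl, h1, h2⟩
  · exact gap he
  · cases e1 : (P.u s).2 <;> cases e2 : (P.u s').2
    · refine gap ?_
      rw [Prod.ext (h1.trans h2.symm) (e1.trans e2.symm)]
      exact Gap.refl _ _ _
    · exact ⟨h.2.symm, congrArg (pj S) h.1.symm, Or.inr ⟨l, hl, Or.inl
        (crs h l hl (Prod.ext h1 e1) (Prod.ext h2 e2))⟩⟩
    · exact ⟨h.2.symm, congrArg (pj S) h.1.symm, Or.inr ⟨l, hl, Or.inr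
        (crs h.symm l hl (Prod.ext h2 e2) (Prod.ext h1 e1))⟩⟩
    · refine gap ?_
      rw [Prod.ext (h1.trans h2.symm) (e1.trans e2.symm)]
      exact Gap.refl _ _ _

theorem g_eq_of_box {b : Bx} {S : Finset L} (hS : Z.bl b ⊆ S) {p q : Q} (h : P.Box b p q)
    (hu : P.u p = P.u q) (hg : pj S (P.g p) = pj S (P.g q)) : P.g p = P.g q := by
  have h1 := h.2.2
  have e : P.R q = P.R p := by unfold R; rw [hu]
  rw [e] at h1
  have := h1.nf (BoxW.refl h1.left.1 h1.left.2) hS (by rw [map_mul, map_inv, hg]; simp)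
  exact inv_mul_eq_one.1 this

theorem pl1 (hx : Function.Injective Z.x) {b : Bx} {S : Finset L} (hS : Z.bl b ⊆ S) (p : Q)
    {T : Set Q} (hT : T = P.rs b p) : Pl1 S (P.cd S T) (P.tr.cd S T) := by
  subst hT
  refine ⟨hx.injOn, fun s s' h1 h2 h3 => Subtype.ext (P.ext _ _ ?_ h1 h2), fun s t he => ?_⟩
  · exact P.g_eq_of_box hS (Rch.trans (Rch.symm s.2) s'.2).box h1 h3
  · obtain ⟨q, h1, h2⟩ := P.ex_mh s (P.u t)
    have hs := Rch.right s.2
    have ht := Rch.right t.2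
    have hq : P.In b q := by
      unfold In
      rw [h2, ← h1.2]
      exact ⟨ht.1, ht.2.1, hs.2.2.1, hs.2.2.2⟩
    refine ⟨⟨q, Rch.tail s.2 (Or.inr h1) hq⟩, P.step_of_mh hx h1 ?_, h2⟩
    change Elm Z.x S (P.u s) (P.u q)
    rw [h2]; exact he

theorem mv_of_step {b : Bx} {S : Finset L} (hS : Z.bl b ⊆ S) {p : Q} {T : Set Q}
    (hT : T = P.rs b p) {B : Cd L C T} {s s' : T} (h : E5f.Step S B (P.cd S T) s s') :
    P.MV s s' := by
  subst hT
  exact ⟨P.g_eq_of_box hS (Rch.trans (Rch.symm s.2) s'.2).box h.1.symm h.2.1.symm, h.1.symm⟩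

theorem steps_of_mh (hx : Function.Injective Z.x) {b : Bx} {S : Finset L}
    (hS : ∀ l ∈ S, l ∈ Z.bl b) {p : Q} {T : Set Q} (hT : T = P.rs b p) {s s' : T}
    (h : P.MH s s') : Relation.ReflTransGen (E5f.Step S (P.cd S T) (P.tr.cd S T)) s s' := by
  classical
  subst hT
  have key : ∀ (n : ℕ) (s s' : P.rs b p), P.MH s s' → toLex (P.u s) ≤ toLex (P.u s') →
      (cut S (P.R s \ P.R s')).card = n →
      Relation.ReflTransGen (E5f.Step S (P.cd S _) (P.tr.cd S _)) s s' := by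
    intro n
    induction n using Nat.strong_induction_on with
    | _ n ih =>
    intro s s' h hle hn
    have hsub : P.R s' ⊆ P.R s := Rs_mono _ hle
    rcases (cut S (P.R s \ P.R s')).eq_empty_or_nonempty with he | he
    · refine Relation.ReflTransGen.single (P.step_of_mh hx h (Or.inl fun l hl => ⟨fun h1 => ?_,
        fun h1 => hsub h1⟩))
      by_contra h2
      have : l ∈ cut S (P.R s \ P.R s') := mem_cut.2 ⟨hl, h1, h2⟩
      rw [he] at this
      exact Finset.notMem_empty _ this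
    obtain ⟨l, hl, hmin⟩ := Finset.exists_min_image _ Z.x he
    obtain ⟨hlS, hl1, hl2⟩ := mem_cut.1 hl
    have hs := Rch.right s.2
    have hb := hS l hlS
    have mk : ∀ e : Bool, ∃ q : P.rs b p, P.MH s q ∧ P.u q = (Z.x l, e) := by
      intro e
      obtain ⟨q, h1, h2⟩ := P.ex_mh s (Z.x l, e)
      refine ⟨⟨q, Rch.tail s.2 (Or.inr h1) ?_⟩, h1, h2⟩
      unfold In
      rw [h2, ← h1.2]
      exact ⟨hb.1, hb.2.1, hs.2.2.1, hs.2.2.2⟩
    obtain ⟨s1, a1, a2⟩ := mk false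
    obtain ⟨s2, b1, b2⟩ := mk true
    have st1 : E5f.Step S (P.cd S _) (P.tr.cd S _) s s1 := by
      refine P.step_of_mh hx a1 (Or.inl fun m hm => ⟨fun h1 => ?_, fun h1 => ?_⟩)
      · rw [a2]
        have : Z.x l ≤ Z.x m := by
          by_cases h2 : m ∈ P.R s'
          · by_contra h3
            exact hl2 (P.up_R s' m l h2 (Z.X_lt (not_le.1 h3)))
          · exact hmin m (mem_cut.2 ⟨hm, h1, h2⟩)
        rcases this.lt_or_eq with h3 | h3
        · exact Or.inl h3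
        · exact Or.inr ⟨h3, rfl⟩
      · exact Rs_mono Z.x (a2 ▸ (rtP_iff _ _ _).1 hl1) h1
    have st2 : E5f.Step S (P.cd S _) (P.tr.cd S _) s1 s2 :=
      P.step_of_mh hx (a1.symm.trans b1) (Or.inr ⟨l, hlS, by rw [a2], by rw [b2]⟩)
    have hle1 : toLex (P.u s) ≤ toLex (P.u s2) := by
      rw [b2]
      exact ((rtP_iff _ _ _).1 hl1).trans (by rw [Prod.Lex.toLex_le_toLex]; simp)
    refine ((Relation.ReflTransGen.single st1).tail st2).trans
      (ih _ ?_ s2 s' (b1.symm.trans h) (b2 ▸ (not_rtP_iff _ _ _).1 hl2) rfl)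
    rw [← hn]
    refine Finset.card_lt_card ⟨fun m hm => ?_, fun hm => ?_⟩
    · rw [mem_cut] at hm ⊢
      exact ⟨hm.1, Rs_mono _ hle1 hm.2.1, hm.2.2⟩
    · have := (mem_cut.1 (hm hl)).2.1
      unfold R at this
      rw [b2] at this
      exact not_rtP_true _ _ this
  rcases le_total (toLex (P.u s)) (toLex (P.u s')) with h1 | h1
  · exact key _ s s' h h1 rfl
  · exact rtg_symm (fun _ _ h => E5f.Step.symm h) (key _ s' s h.symm h1 rfl)

theorem exists_wk (hZ : Z.Gen) {b : Bx} {S : Finset L} (hS : ∀ l ∈ S, l ∈ Z.bl b) {p : Q}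
    (s t : P.rs b p) : ∃ w, Wk S (P.cd S _) (P.tr.cd S _) s t w := by
  have key : ∀ (q : Q) (h : P.Rch b p q), Relation.ReflTransGen
      (PStp S (P.cd S (P.rs b p)) (P.tr.cd S _)) ⟨p, Rch.refl h.1⟩ ⟨q, h⟩ := by
    rintro q ⟨h1, h2⟩
    induction h2 with
    | refl => exact Relation.ReflTransGen.refl
    | @tail q r h0 h3 ih =>
      refine ih.trans ?_
      rcases h3.1 with h4 | h4
      · exact Relation.ReflTransGen.mono (fun _ _ h => Or.inr h) _ _
          (P.tr.steps_of_mh hZ.2 (b := b.tr) (fun l hl => by rw [Z.bl_tr]; exact hS l hl)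
            (P.rs_tr b p).symm (s := ⟨q, h1, h0⟩) (s' := ⟨r, h1, h0.tail h3⟩) h4)
      · exact Relation.ReflTransGen.mono (fun _ _ h => Or.inl h) _ _
          (P.steps_of_mh hZ.1 hS rfl (s := ⟨q, h1, h0⟩) (s' := ⟨r, h1, h0.tail h3⟩) h4)
  have h := (rtg_symm (fun _ _ h => PStp.symm h) (key s s.2)).trans
    (key t t.2)
  obtain ⟨l, h1, h2⟩ := List.exists_isChain_cons_of_relationReflTransGen h
  exact ⟨s :: l, h1, rfl, by rw [List.getLast?_eq_some_getLast (List.cons_ne_nil _ _), h2]⟩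

theorem cd_d {b : Bx} {S : Finset L} (hS : Z.bl b ⊆ S) {p : Q} {T : Set Q} (hT : T = P.rs b p) :
    (P.cd S T).d = fun s s' : T => P.dv s s' := by
  subst hT
  funext s s'
  exact ((Rch.trans (Rch.symm s.2) s'.2).box.dv_eq hS).symm

/-- Tight walks at the level of a box. -/
theorem tight_wk (hZ : Z.Gen) {b : Bx} {S : Finset L} (hS : ∀ l, l ∈ S ↔ l ∈ Z.bl b) {p : Q}
    (s t : P.rs b p) : ∃ w, Wk S (P.cd S _) (P.tr.cd S _) s t w ∧
      wlen (P.cd S _).d w = (P.cd S _).d s t ∧ wlen (P.tr.cd S _).d w = (P.tr.cd S _).d s t :=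
  exists_tight (P.pl1 hZ.1 (fun l hl => (hS l).2 hl) p rfl)
    (P.tr.pl1 hZ.2 (b := b.tr) (fun l hl => (hS l).2 (by rwa [Z.bl_tr] at hl)) p
      (P.rs_tr b p).symm)
    (P.exists_wk hZ (fun l hl => (hS l).1 hl) s t)

theorem mv_of_pstp {b : Bx} {S : Finset L} (hS : Z.bl b ⊆ S) {p : Q} {s s' : P.rs b p}
    (h : PStp S (P.cd S _) (P.tr.cd S _) s s') : P.Mv s s' := by
  rcases h with h | h
  · exact Or.inr (P.tr.mv_of_step (b := b.tr) (by rwa [Z.bl_tr]) (P.rs_tr b p).symm h)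
  · exact Or.inl (P.mv_of_step hS rfl h)

/-- Common geodesics as lists of moves. -/
theorem geo_list (hZ : Z.Gen) (p q : Q) : ∃ l : List Q, (p :: l).IsChain P.Mv ∧
    (p :: l).getLast (List.cons_ne_nil _ _) = q ∧ wlen P.dv (p :: l) = P.dv p q ∧
    wlen P.dh (p :: l) = P.dh p q := by
  obtain ⟨b, hb⟩ := P.exists_rch p q
  have hS : ∀ l, l ∈ (Z.bl_fin b).toFinset ↔ l ∈ Z.bl b := fun l => Set.Finite.mem_toFinset _
  have hS' : Z.bl b ⊆ (Z.bl_fin b).toFinset := fun l hl => (hS l).2 hl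
  obtain ⟨w, ⟨h1, h2, h3⟩, h4, h5⟩ := P.tight_wk hZ hS ⟨p, Rch.refl hb.1⟩ ⟨q, hb⟩
  rw [P.cd_d hS' rfl] at h4
  rw [P.tr.cd_d (b := b.tr) (by rwa [Z.bl_tr]) (P.rs_tr b p).symm] at h5
  cases w with
  | nil => simp at h2
  | cons a w =>
    simp only [List.head?_cons, Option.some.injEq] at h2
    subst h2
    rw [List.getLast?_eq_some_getLast (List.cons_ne_nil _ _), Option.some.injEq] at h3
    refine ⟨w.map Subtype.val, ?_, ?_, ?_, ?_⟩
    · exact (List.isChain_map (Subtype.val : P.rs b p → Q)).2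
        (h1.imp (fun _ _ h => P.mv_of_pstp hS' h))
    · exact (List.getLast_map (f := (Subtype.val : P.rs b p → Q))
        (l := ⟨p, Rch.refl hb.1⟩ :: w) (by simp)).trans (congrArg Subtype.val h3)
    · exact (wlen_map P.dv Subtype.val (⟨p, Rch.refl hb.1⟩ :: w)).trans h4
    · exact (wlen_map P.dh Subtype.val (⟨p, Rch.refl hb.1⟩ :: w)).trans h5

theorem mid_mh {p q : Q} (h : P.MH p q) {t : ℝ} (h0 : 0 ≤ t) (h1 : t ≤ P.dv p q) :
    ∃ r, P.MH p r ∧ P.dv p r = t ∧ P.dv r q = P.dv p q - t := by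
  rw [P.dv_mh h] at h1 ⊢
  rcases le_total (P.u p).1 (P.u q).1 with h2 | h2
  · obtain ⟨r, e1, e2⟩ := P.ex_mh p ((P.u p).1 + t, false)
    rw [abs_of_nonneg (sub_nonneg.2 h2)] at h1 ⊢
    refine ⟨r, e1, ?_, ?_⟩
    · rw [P.dv_mh e1, e2]; simpa using h0
    · rw [P.dv_mh (e1.symm.trans h), e2, abs_of_nonneg (by simp only; linarith)]
      simp only; ring
  · obtain ⟨r, e1, e2⟩ := P.ex_mh p ((P.u p).1 - t, false)
    rw [abs_of_nonpos (sub_nonpos.2 h2)] at h1 ⊢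
    refine ⟨r, e1, ?_, ?_⟩
    · rw [P.dv_mh e1, e2]; simpa using h0
    · rw [P.dv_mh (e1.symm.trans h), e2, abs_of_nonpos (by simp only; linarith)]
      simp only; ring

theorem geo_mh {p q : Q} (h : P.MH p q) {α β s : ℝ} (hα : 0 ≤ α) (h0 : 0 ≤ s)
    (h1 : s ≤ α * P.dv p q + β * P.dh p q) :
    ∃ r, Btw P.dv P.dh p r q ∧ α * P.dv p r + β * P.dh p r = s := by
  rw [P.dh_mh h, mul_zero, add_zero] at h1
  rcases hα.eq_or_lt with hα | hα
  · refine ⟨p, ⟨by rw [P.pv.self, zero_add], by rw [P.ph.self, zero_add]⟩, ?_⟩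
    rw [P.pv.self, P.ph.self]
    rw [← hα] at h1
    linarith
  · obtain ⟨r, e1, e2, e3⟩ := P.mid_mh h (div_nonneg h0 hα.le) ((div_le_iff₀' hα).2 h1)
    refine ⟨r, ⟨by rw [e2, e3]; ring, ?_⟩, ?_⟩
    · rw [P.dh_mh e1, P.dh_mh (e1.symm.trans h), P.dh_mh h, add_zero]
    · rw [e2, P.dh_mh e1, mul_div_cancel₀ _ hα.ne']; ring

theorem geo_chain {α β : ℝ} (hα : 0 ≤ α) (hβ : 0 ≤ β) (q : Q) : ∀ (l : List Q) (p : Q) (s : ℝ),
    (p :: l).IsChain P.Mv → (p :: l).getLast (List.cons_ne_nil _ _) = q →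
    wlen P.dv (p :: l) = P.dv p q → wlen P.dh (p :: l) = P.dh p q → 0 ≤ s →
    s ≤ α * P.dv p q + β * P.dh p q →
    ∃ r, Btw P.dv P.dh p r q ∧ α * P.dv p r + β * P.dh p r = s
  | [], p, s, _, h2, _, _, h0, h1 => by
    have : p = q := by simpa using h2
    subst this
    exact P.geo_mh ⟨rfl, rfl⟩ hα h0 h1
  | a :: l, p, s, h1, h2, h3, h4, h0, h5 => by
    rw [List.isChain_cons_cons] at h1
    rw [List.getLast_cons_cons] at h2
    rw [wlen_cons2] at h3 h4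
    have t1 := le_wlen' P.pv a l
    have t2 := le_wlen' P.ph a l
    rw [h2] at t1 t2
    have t3 := P.pv.tri p a q
    have t4 := P.ph.tri p a q
    have e1 : P.dv p a + P.dv a q = P.dv p q := by linarith
    have e2 : P.dh p a + P.dh a q = P.dh p q := by linarith
    by_cases hs : s ≤ α * P.dv p a + β * P.dh p a
    · obtain ⟨r, b1, b2⟩ : ∃ r, Btw P.dv P.dh p r a ∧ α * P.dv p r + β * P.dh p r = s := by
        rcases h1.1 with h6 | h6
        · obtain ⟨r, b1, b2⟩ := P.tr.geo_mh (α := β) (β := α) h6 hβ h0 (by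
            rw [add_comm]; exact hs)
          exact ⟨r, ⟨b1.2, b1.1⟩, by rw [add_comm]; exact b2⟩
        · exact P.geo_mh h6 hα h0 hs
      have t5 := P.pv.tri r a q
      have t6 := P.ph.tri r a q
      have t7 := P.pv.tri p r q
      have t8 := P.ph.tri p r q
      exact ⟨r, ⟨by linarith [b1.1], by linarith [b1.2]⟩, b2⟩
    · obtain ⟨r, b1, b2⟩ := geo_chain hα hβ q l a (s - (α * P.dv p a + β * P.dh p a)) h1.2 h2
        (by linarith) (by linarith) (by linarith) (by rw [← e1, ← e2] at h5; linarith)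
      have t5 := P.pv.tri p a r
      have t6 := P.ph.tri p a r
      have t7 := P.pv.tri p r q
      have t8 := P.ph.tri p r q
      have e3 : P.dv p r = P.dv p a + P.dv a r := by linarith [b1.1]
      have e4 : P.dh p r = P.dh p a + P.dh a r := by linarith [b1.2]
      exact ⟨r, ⟨by linarith [b1.1], by linarith [b1.2]⟩, by rw [e3, e4]; linarith⟩

theorem biTree' (hZ : Z.Gen) : BiTree P.dv P.dh where
  pv := P.pv
  ph := P.ph
  hv := P.hv
  hh := P.hh
  geo := fun _ _ p q s hα hβ h0 h1 => by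
    obtain ⟨l, e1, e2, e3, e4⟩ := P.geo_list hZ p q
    exact P.geo_chain hα hβ q l p s e1 e2 e3 e4 h0 h1

theorem rch_of_chain {b : Bx} : ∀ (l : List Q) (p : Q), (p :: l).IsChain P.Mv →
    (∀ r ∈ p :: l, P.In b r) → P.Rch b p ((p :: l).getLast (List.cons_ne_nil _ _))
  | [], p, _, h => Rch.refl (h p (by simp))
  | a :: l, p, h1, h => by
    rw [List.isChain_cons_cons] at h1
    rw [List.getLast_cons_cons]
    exact ((Rch.refl (h p (by simp))).tail h1.1 (h a (by simp))).trans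
      (rch_of_chain l a h1.2 (fun r hr => h r (List.mem_cons_of_mem _ hr)))

theorem le_wlen_mem {X : Type} {d : X → X → ℝ} (h : PM d) (a : X) (l : List X) {r : X}
    (hr : r ∈ a :: l) : d a r ≤ wlen d (a :: l) := by
  rcases List.mem_cons.1 hr with rfl | hr
  · rw [h.self]; exact wlen_nonneg h _
  · obtain ⟨s, t, rfl⟩ := List.append_of_mem hr
    have h1 := wlen_split d (a :: s) r t
    have h2 := le_wlen h a s r
    have h3 := wlen_nonneg h (r :: t)
    simp only [List.cons_append] at h1 h2 ⊢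
    linarith

/-- Two points are joined inside the box given by their distances. -/
theorem rch_dist (hZ : Z.Gen) (p q : Q) {A B : ℝ} (hA : P.dv p q ≤ A) (hB : P.dh p q ≤ B) :
    P.Rch ((P.pt p).grow A B) p q := by
  obtain ⟨l, e1, e2, e3, e4⟩ := P.geo_list hZ p q
  rw [← e2]
  refine P.rch_of_chain l p e1 (fun r hr => ?_)
  have h1 := (P.abs_le_dv' p r).trans ((le_wlen_mem P.pv p l hr).trans (e3.le.trans hA))
  have h2 := (P.abs_le_dh p r).trans ((le_wlen_mem P.ph p l hr).trans (e4.le.trans hB))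
  rw [abs_le] at h1 h2
  exact ⟨by change (P.u p).1 - A ≤ _; linarith [h1.1], by change _ ≤ (P.u p).1 + A; linarith [h1.2],
    by change (P.w p).1 - B ≤ _; linarith [h2.1], by change _ ≤ (P.w p).1 + B; linarith [h2.2]⟩

end Plan

end

end Pool.Agent.E5f

end

section

/-!
Elementary properties of steps and box words.
-/

set_option autoImplicit false

namespace Pool.Agent.E5f

open Filter Classical

section
variable {L C : Type} [CommGroup C] {c : C} {Z : Cfg L} {b : Bx} {R R' R'' : Set L}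
  {ω ω' : WL L C}

theorem up_total {X : Od L} (hR : Up X R) (hR' : Up X R') : R ⊆ R' ∨ R' ⊆ R :=
  (hR.total hR').symm

theorem pj_emb_of_sup {S : Finset L} {g : W L C} (h : Sup (S : Set L) g) : pj S (emb g) = g := by
  rw [pj_emb, sup_iff.1 h]

theorem sup_lab (g : W L C) : Sup ((lab g).toFinset : Set L) g := fun l hl => by simpa using hl

theorem emb_inj : Function.Injective (emb : W L C → WL L C) := by
  rw [injective_iff_map_eq_one]
  intro g hg
  rw [← pj_emb_of_sup (sup_lab g), hg, map_one]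

theorem opH_congr (c : C) (X : Od L) {A A' : Set L} (h : ∀ l, l ∈ A ↔ l ∈ A') :
    opH c X A = opH c X A' := by rw [Set.ext h]

theorem opH_finset (c : C) (X : Od L) (T : Finset L) {A : Set L} (h : ∀ l, l ∈ A ↔ l ∈ T) :
    opH c X A = emb (op X c T) :=
  WL_ext fun S => by
    rw [pj_opH, pj_emb, ret_op']
    congr 1
    ext l
    simp only [mem_cut, Finset.mem_coe, h]
    exact and_comm

theorem stp_sub (c : C) {X : Od L} (hR' : Up X R') (h : R' ⊆ R) (D : Set L) :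
    stp c X R R' D = opH c X ((R \ R') ∩ D) := stp_of_sub c D hR' h

theorem stp_congr (c : C) {X : Od L} {D D' : Set L} (hR : Up X R) (hR' : Up X R')
    (h : ∀ l, ¬ (l ∈ R ↔ l ∈ R') → (l ∈ D ↔ l ∈ D')) : stp c X R R' D = stp c X R R' D' := by
  rcases up_total hR hR' with h1 | h1
  · rw [← stp_inv, ← stp_inv c X R' R D', stp_sub c hR h1, stp_sub c hR h1]
    congr 1
    exact opH_congr c X fun l => and_congr_right fun k => h l fun k' => k.2 (k'.2 k.1)
  · rw [stp_sub c hR' h1, stp_sub c hR' h1]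
    exact opH_congr c X fun l => and_congr_right fun k => h l fun k' => k.2 (k'.1 k.1)

theorem stp_agr (c : C) {X X' : Od L} (h : Agr Set.univ X X') (R R' D : Set L) :
    stp c X R R' D = stp c X' R R' D := by
  unfold stp
  rw [opH_agr c (h.mono (Set.subset_univ _)), opH_agr c (X := X) (h.mono (Set.subset_univ _))]

theorem rlA_stp (c : C) (σ : Equiv.Perm L) {X X' : Od L}
    (h : ∀ a b, X a < X b ↔ X' (σ a) < X' (σ b)) (R R' D : Set L) :
    rlA σ (stp c X R R' D) = stp c X' (σ '' R) (σ '' R') (σ '' D) := by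
  unfold stp
  rw [map_mul, map_inv,
    rlA_opH σ c (X' := X') (A := R ∩ D) (A' := σ '' R ∩ σ '' D) (fun a _ b _ k => (h a b).1 k)
      (fun l => by simp),
    rlA_opH σ c (X' := X') (A := R' ∩ D) (A' := σ '' R' ∩ σ '' D) (fun a _ b _ k => (h a b).1 k)
      (fun l => by simp)]

theorem Cfg.bl_ev (Z : Cfg L) (b : Bx) : ∀ᶠ S : Finset L in atTop, Z.bl b ⊆ (S : Set L) :=
  (eventually_ge_atTop (Z.bl_fin b).toFinset).mono fun _ hS _ hl =>
    hS ((Z.bl_fin b).mem_toFinset.2 hl)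

theorem Cfg.X_iff (Z : Cfg L) (h : Function.Injective Z.x) (l m : L) :
    Z.X l < Z.X m ↔ Z.x l < Z.x m :=
  ⟨fun k => lt_of_le_of_ne (Z.x_le k.le) (fun e => by rw [h e] at k; exact lt_irrefl _ k), Z.X_lt⟩

theorem Cfg.Gen.tr (h : Z.Gen) : Z.tr.Gen := ⟨h.2, h.1⟩

theorem Cfg.Den.tr {Λ : ℝ} (h : Z.Den Λ) : Z.tr.Den Λ := fun a b => by
  obtain ⟨l, h1, h2, h3, h4⟩ := h b a
  exact ⟨l, h3, h4, h1, h2⟩

theorem Rs_eq_Rl (Z : Cfg L) (h : Function.Injective Z.x) (l : L) :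
    Rs Z.x (Z.x l, true) = Rl Z.X l := by
  ext m
  simp only [Rs, Rl, Set.mem_ofPred_eq, Z.X_iff h]
  simp

theorem up_eq_Rs (Z : Cfg L) (h : Function.Injective Z.x) {lo hi : ℝ} (hl : lo ≤ hi)
    (hR : Up Z.X R) (hB : InB Z.x lo hi R) : ∃ u : Mk, R = Rs Z.x u ∧ lo ≤ u.1 ∧ u.1 ≤ hi := by
  have hb : ∀ t ∈ insert lo (Z.x '' Rᶜ), t ≤ hi := by
    rintro t (rfl | ⟨l, h1, rfl⟩)
    · exact hl
    · exact not_lt.1 fun k => h1 ((hB l).1 k)
  have hne : (insert lo (Z.x '' Rᶜ)).Nonempty := ⟨lo, Or.inl rfl⟩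
  have h1 : lo ≤ sSup (insert lo (Z.x '' Rᶜ)) := le_csSup ⟨hi, hb⟩ (Or.inl rfl)
  have h2 : sSup (insert lo (Z.x '' Rᶜ)) ≤ hi := csSup_le hne hb
  have h3 : ∀ l, l ∉ R → Z.x l ≤ sSup (insert lo (Z.x '' Rᶜ)) :=
    fun l k => le_csSup ⟨hi, hb⟩ (Or.inr ⟨l, k, rfl⟩)
  have h4 : ∀ l, l ∈ R → sSup (insert lo (Z.x '' Rᶜ)) ≤ Z.x l := by
    intro l k
    refine csSup_le hne ?_
    rintro t (rfl | ⟨m, k1, rfl⟩)
    · exact not_lt.1 fun k2 => (hB l).2 k2 k
    · exact not_lt.1 fun k2 => k1 (hR l m k (Z.X_lt k2))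
  generalize sSup (insert lo (Z.x '' Rᶜ)) = a at h1 h2 h3 h4
  by_cases he : ∃ m, m ∉ R ∧ Z.x m = a
  · obtain ⟨m, k1, k2⟩ := he
    refine ⟨(a, true), ?_, h1, h2⟩
    ext l
    simp only [Rs, Set.mem_ofPred_eq, Bool.true_eq_false, and_false, or_false]
    refine ⟨fun k => lt_of_le_of_ne (h4 l k) fun e => k1 ?_, fun k => ?_⟩
    · rw [h (k2.trans e)]; exact k
    · by_contra k3
      exact absurd (h3 l k3) (not_le.2 k)
  · refine ⟨(a, false), ?_, h1, h2⟩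
    ext l
    simp only [Rs, Set.mem_ofPred_eq, and_true]
    refine ⟨fun k => (h4 l k).lt_or_eq, fun k => ?_⟩
    by_contra k3
    rcases k with k | k
    · exact absurd (h3 l k3) (not_le.2 k)
    · exact he ⟨l, k3, k.symm⟩

/-- Crossed labels lie in the band. -/
theorem InB.band {ρ : L → ℝ} {lo hi : ℝ} (h : InB ρ lo hi R) (h' : InB ρ lo hi R') {l : L}
    (hl : ¬ (l ∈ R ↔ l ∈ R')) : lo ≤ ρ l ∧ ρ l ≤ hi := by
  constructor
  · by_contra k
    have := (h l).2 (not_le.1 k)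
    have := (h' l).2 (not_le.1 k)
    tauto
  · by_contra k
    have := (h l).1 (not_le.1 k)
    have := (h' l).1 (not_le.1 k)
    tauto

theorem Up.agr {X X' : Od L} (h : Up X R) (hX : Agr Set.univ X X') : Up X' R :=
  fun l m h1 h2 => h l m h1 ((hX l trivial m trivial).2 h2)

/-- Transfer to a configuration with the same order of abscissae. -/
theorem BoxW.transfer {Z' : Cfg L} {b' : Bx} (h : BoxW c Z b R R' ω) (hX : Agr Set.univ Z.X Z'.X)
    (hx : ∀ T, Up Z.X T → InB Z.x b.x0 b.x1 T → InB Z'.x b'.x0 b'.x1 T)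
    (hy : ∀ D, InB Z.y b.y0 b.y1 D → ∃ D', InB Z'.y b'.y0 b'.y1 D' ∧
      ∀ l, b.x0 ≤ Z.x l → Z.x l ≤ b.x1 → (l ∈ D ↔ l ∈ D')) : BoxW c Z' b' R R' ω := by
  induction h with
  | refl h1 h2 => exact BoxW.refl (h1.agr hX) (hx _ h1 h2)
  | step h0 h1 h2 h3 ih =>
    obtain ⟨D', k1, k2⟩ := hy _ h3
    rw [stp_congr c h0.right.1 h1 (D' := D')
      (fun l hl => k2 l (h0.right.2.band h2 hl).1 (h0.right.2.band h2 hl).2), stp_agr c hX]
    exact BoxW.step ih (h1.agr hX) (hx _ h1 h2) k1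

theorem Up.image {X X' : Od L} (σ : Equiv.Perm L) (hx : ∀ a b, X a < X b ↔ X' (σ a) < X' (σ b))
    (h : Up X R) : Up X' (σ '' R) := by
  rintro _ m ⟨l, hl, rfl⟩ h1
  obtain ⟨m, rfl⟩ := σ.surjective m
  exact ⟨m, h l m hl ((hx l m).2 h1), rfl⟩

/-- Relabelling. -/
theorem BoxW.rl {Z' : Cfg L} {b' : Bx} (h : BoxW c Z b R R' ω) (σ : Equiv.Perm L)
    (hX : ∀ l m, Z.X l < Z.X m ↔ Z'.X (σ l) < Z'.X (σ m))
    (hx : ∀ T, InB Z.x b.x0 b.x1 T → InB Z'.x b'.x0 b'.x1 (σ '' T))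
    (hy : ∀ D, InB Z.y b.y0 b.y1 D → InB Z'.y b'.y0 b'.y1 (σ '' D)) :
    BoxW c Z' b' (σ '' R) (σ '' R') (rlA σ ω) := by
  induction h with
  | refl h1 h2 =>
    rw [map_one]
    exact BoxW.refl (h1.image σ hX) (hx _ h2)
  | step _ h1 h2 h3 ih =>
    rw [map_mul, rlA_stp c σ hX]
    exact BoxW.step ih (h1.image σ hX) (hx _ h2) (hy _ h3)

theorem InB.image {ρ ρ' : L → ℝ} (σ : Equiv.Perm L) {α β : ℝ} (hα : 0 < α)
    (h : ∀ l, ρ' (σ l) = α * ρ l + β) {lo hi : ℝ} (hR : InB ρ lo hi R) :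
    InB ρ' (α * lo + β) (α * hi + β) (σ '' R) := by
  intro l
  obtain ⟨l, rfl⟩ := σ.surjective l
  rw [h, σ.injective.mem_set_image]
  exact ⟨fun k => (hR l).1 (lt_of_mul_lt_mul_left (by linarith) hα.le),
    fun k => (hR l).2 (lt_of_mul_lt_mul_left (by linarith) hα.le)⟩

theorem Rs_image {ρ ρ' : L → ℝ} (σ : Equiv.Perm L) {α β : ℝ} (hα : 0 < α)
    (h : ∀ l, ρ' (σ l) = α * ρ l + β) (u : Mk) :
    σ '' Rs ρ u = Rs ρ' (α * u.1 + β, u.2) := by
  ext l
  obtain ⟨l, rfl⟩ := σ.surjective l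
  rw [σ.injective.mem_set_image]
  simp only [Rs, Set.mem_ofPred_eq, h, add_lt_add_iff_right, add_left_inj,
    mul_lt_mul_iff_right₀ hα, mul_right_inj' hα.ne']

theorem Rl_image {X X' : Od L} (σ : Equiv.Perm L) (hx : ∀ a b, X a < X b ↔ X' (σ a) < X' (σ b))
    (l : L) : σ '' Rl X l = Rl X' (σ l) := by
  ext m
  obtain ⟨m, rfl⟩ := σ.surjective m
  rw [σ.injective.mem_set_image]
  exact hx l m

/-- The image of a box under a positive affine map. -/
def Bx.aff (b : Bx) (α β α' β' : ℝ) : Bx :=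
  ⟨α * b.x0 + β, α * b.x1 + β, α' * b.y0 + β', α' * b.y1 + β'⟩

/-- Relabelling by an affine map. -/
theorem BoxW.aff {Z' : Cfg L} (h : BoxW c Z b R R' ω) (σ : Equiv.Perm L) {α β α' β' : ℝ}
    (hα : 0 < α) (hα' : 0 < α') (hX : ∀ l m, Z.X l < Z.X m ↔ Z'.X (σ l) < Z'.X (σ m))
    (hx : ∀ l, Z'.x (σ l) = α * Z.x l + β) (hy : ∀ l, Z'.y (σ l) = α' * Z.y l + β') :
    BoxW c Z' (b.aff α β α' β') (σ '' R) (σ '' R') (rlA σ ω) :=
  h.rl σ hX (fun _ k => k.image σ hα hx) (fun _ k => k.image σ hα' hy)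

/-- A step whose status set is bounded in the band of the crossed labels is a box word. -/
theorem BoxW.band {D : Set L} (h1 : Up Z.X R) (h2 : InB Z.x b.x0 b.x1 R) (h3 : Up Z.X R')
    (h4 : InB Z.x b.x0 b.x1 R') (hb : b.y0 ≤ b.y1)
    (hD : ∀ l, b.x0 ≤ Z.x l → Z.x l ≤ b.x1 → (b.y1 < Z.y l → l ∈ D) ∧ (Z.y l < b.y0 → l ∉ D)) :
    BoxW c Z b R R' (stp c Z.X R R' D) := by
  rw [stp_congr c h1 h3 (D := D)
    (D' := {l | (b.x0 ≤ Z.x l ∧ Z.x l ≤ b.x1 ∧ l ∈ D) ∨ b.y1 < Z.y l})]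
  · refine BoxW.single h1 h2 h3 h4 fun l => ⟨fun k => Or.inr k, fun k k' => ?_⟩
    rcases k' with ⟨k1, k2, k3⟩ | k1
    · exact (hD l k1 k2).2 k k3
    · linarith
  · intro l hl
    obtain ⟨k1, k2⟩ := h2.band h4 hl
    exact ⟨fun k => Or.inl ⟨k1, k2, k⟩, fun k => k.elim (fun k => k.2.2) (hD l k1 k2).1⟩

theorem expo_stp (c : C) (X : Od L) (R R' D : Set L) {ν : L} {S : Finset L} (hS : ν ∈ S) :
    expo ν (pj S (stp c X R R' D)) =
      (if ν ∈ R ∩ D then c else 1) * (if ν ∈ R' ∩ D then c else 1)⁻¹ := by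
  rw [pj_stp, map_mul, map_inv, expo_op, expo_op]
  simp only [mem_cut, hS, true_and]

/-- The exponent of a label outside the box. -/
theorem BoxW.expo_out (h : BoxW c Z b R R' ω) {ν : L} (hν : ν ∉ Z.bl b) {S : Finset L}
    (hS : ν ∈ S) : expo ν (pj S ω) =
      if b.y1 < Z.y ν then (if ν ∈ R then c else 1) * (if ν ∈ R' then c else 1)⁻¹ else 1 := by
  induction h with
  | refl _ _ => simp
  | @step R1 R2 D ω h0 h1 h2 h3 ih =>
    rw [map_mul, map_mul, ih, expo_stp c Z.X R1 R2 D hS]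
    by_cases hy : b.y1 < Z.y ν
    · have := (h3 ν).1 hy
      by_cases k : ν ∈ R1 <;> simp [hy, this, k]
    · rcases Z.not_bl hν with (k | k | k) | k
      · simp [hy, (h0.right.2 ν).2 k, (h2 ν).2 k]
      · simp [hy, (h0.right.2 ν).1 k, (h2 ν).1 k]
      · simp [hy, (h3 ν).2 k]
      · exact absurd k hy

theorem rl_ev {L' : Type} (σ : L → L') (w : List (L × C)) :
    rl σ (ev w) = ev (w.map (fun e => (σ e.1, e.2))) := by
  induction w with
  | nil => simp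
  | cons e w ih => simp [ih]

theorem wd_rl {L' : Type} {σ : L → L'} (hσ : Function.Injective σ) (g : W L C) :
    wd (rl σ g) = (wd g).map (fun e => (σ e.1, e.2)) := by
  conv_lhs => rw [← ev_wd g, rl_ev]
  refine wd_ev ⟨fun e he => ?_, ?_⟩
  · obtain ⟨e', he', rfl⟩ := List.mem_map.1 he
    exact (red_wd g).1 e' he'
  · rw [List.isChain_map]
    exact (red_wd g).2.imp (fun _ _ k k' => k (hσ k'))

theorem lab_rl {L' : Type} {σ : L → L'} (hσ : Function.Injective σ) (g : W L C) :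
    lab (rl σ g) = (lab g).map σ := by
  unfold lab
  rw [wd_rl hσ, List.map_map, List.map_map]
  rfl

theorem Var_aff {s : ℝ} (hs : 0 ≤ s) (t : ℝ) : ∀ l : List ℝ,
    Var (l.map (fun x => s * x + t)) = s * Var l
  | [] => by simp
  | [_] => by simp
  | x :: y :: l => by
    have := Var_aff hs t (y :: l)
    simp only [List.map_cons] at this ⊢
    rw [Var_cons2, Var_cons2, this, show s * y + t - (s * x + t) = s * (y - x) by ring, abs_mul,
      abs_of_nonneg hs]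
    ring

theorem dT_rl {L' : Type} {σ : L → L'} (hσ : Function.Injective σ) {ρ : L → ℝ} {ρ' : L' → ℝ}
    {s t : ℝ} (hs : 0 ≤ s) (hρ : ∀ l, ρ' (σ l) = s * ρ l + t) (a a' : ℝ) (g : W L C) :
    dT ρ' (s * a + t) (rl σ g) (s * a' + t) = s * dT ρ a g a' := by
  unfold dT
  rw [← Var_aff hs t, lab_rl hσ]
  simp [List.map_map, Function.comp_def, hρ]

/-- Scaling and relabelling of the eventual distance. -/
theorem BoxW.dW_rl (h : BoxW c Z b R R' ω) {a a' : ℝ} (ha : At Z.x R a)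
    (ha' : At Z.x R' a') (σ : Equiv.Perm L) {ρ' : L → ℝ} {s t : ℝ} (hs : 0 ≤ s)
    (hρ : ∀ l, ρ' (σ l) = s * Z.x l + t) :
    dW ρ' (s * a + t) (rlA σ ω) (s * a' + t) = s * dW Z.x a ω a' := by
  refine dW_eq ((Z.bl_fin b).toFinset.map σ.toEmbedding) fun S hS => ?_
  rw [rlA_apply, pj_rlH, dT_rl σ.injective hs hρ, h.att ha ha']
  intro l hl
  have : σ l ∈ S := hS (Finset.mem_map_of_mem _ ((Z.bl_fin b).mem_toFinset.2 hl))
  simpa using this

end

end Pool.Agent.E5f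

end

section

/-!
Box words in the two systems of generators.
-/

set_option autoImplicit false

namespace Pool.Agent.E5f

open Filter Classical

section
variable {L C : Type} [CommGroup C]

/-- Labels to the right of a label, including the label. -/
def Rle (X : Od L) (l : L) : Set L := {m | X l ≤ X m}

theorem up_Rle (X : Od L) (l : L) : Up X (Rle X l) := fun _ _ h1 h2 => le_trans h1 h2.le

theorem self_mem_Rle (X : Od L) (l : L) : l ∈ Rle X l := le_refl (X l)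

theorem self_not_mem_Rl (X : Od L) (l : L) : l ∉ Rl X l := lt_irrefl (X l)

theorem Rle_cross {X : Od L} {l m : L} (h : ¬ (m ∈ Rle X l ↔ m ∈ Rl X l)) : m = l := by
  by_contra k
  exact h ⟨fun k1 => lt_of_le_of_ne (a := X l) k1 (fun e => k (X.injective e).symm),
    fun k1 => le_of_lt (a := X l) k1⟩

theorem Cfg.at_Rle (Z : Cfg L) (l : L) : At Z.x (Rle Z.X l) (Z.x l) := fun _ =>
  ⟨fun h => Z.x_le h, fun h => Z.x_le (not_le.1 h).le⟩

theorem stp_Rle (c : C) (X : Od L) (l : L) {D : Set L} (h : l ∈ D) :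
    stp c X (Rle X l) (Rl X l) D = emb (lt l c) := by
  rw [stp_sub c (R := Rle X l) (up_Rl X l) (fun m hm => le_of_lt (a := X l) hm),
    ← opH_singleton c X]
  refine opH_congr c X fun m => ⟨fun k => ?_, fun k => ?_⟩
  · exact (X.injective (le_antisymm k.1.1 (not_lt.1 k.1.2))).symm
  · rw [show m = l from k]
    exact ⟨⟨le_refl (X l), lt_irrefl (X l)⟩, h⟩

theorem stp_Rle' (c : C) (X : Od L) (l : L) {D : Set L} (h : l ∉ D) :
    stp c X (Rle X l) (Rl X l) D = 1 := by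
  rw [stp_sub c (R := Rle X l) (up_Rl X l) (fun m hm => le_of_lt (a := X l) hm), ← opH_empty c X]
  refine opH_congr c X fun m => ⟨fun k => ?_, fun k => k.elim⟩
  exact h ((X.injective (le_antisymm k.1.1 (not_lt.1 k.1.2))) ▸ k.2)

/-- Induction over finitely many special labels between two cuts. -/
theorem cut_ind {X : Od L} {p : Set L → Set L → Prop} {R0 R1 : Set L} (F : Finset L)
    (htr : ∀ T1 T2 T3, p T1 T2 → p T2 T3 → p T1 T3)
    (hone : ∀ l ∈ F, l ∈ R0 → l ∉ R1 → p (Rle X l) (Rl X l))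
    (h0 : ∀ T T', Up X T → Up X T' → R1 ⊆ T' → T' ⊆ T → T ⊆ R0 →
      (∀ l ∈ F, l ∈ T → l ∈ T') → p T T')
    (hR0 : Up X R0) (hR1 : Up X R1) (h : R1 ⊆ R0) : p R0 R1 := by
  have key : ∀ (k : ℕ) (T T' : Set L), Up X T → Up X T' → R1 ⊆ T' → T' ⊆ T → T ⊆ R0 →
      ∀ F' : Finset L, F'.card ≤ k → (∀ l ∈ F, l ∈ T → l ∉ T' → l ∈ F') → p T T' := by
    intro k
    induction k with
    | zero =>
      intro T T' hT hT' s1 s2 s3 F' hF h
      have hF0 : F' = ∅ := Finset.card_eq_zero.1 (by omega)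
      refine h0 T T' hT hT' s1 s2 s3 fun l hl k1 => ?_
      by_contra k2
      simpa [hF0] using h l hl k1 k2
    | succ k ih =>
      intro T T' hT hT' s1 s2 s3 F' hF h
      by_cases he : ∃ l ∈ F, l ∈ T ∧ l ∉ T'
      · obtain ⟨l, hl, h1, h2⟩ := he
        have hc : (F'.erase l).card ≤ k := by
          rw [Finset.card_erase_of_mem (h l hl h1 h2)]; omega
        have t1 : Rle X l ⊆ T := fun m hm => by
          rcases eq_or_lt_of_le (show X l ≤ X m from hm) with k1 | k1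
          · exact X.injective k1 ▸ h1
          · exact hT l m h1 k1
        have t2 : Rl X l ⊆ Rle X l := fun m hm => le_of_lt (a := X l) hm
        have t3 : T' ⊆ Rl X l := fun m hm => by
          rcases lt_trichotomy (X l) (X m) with k1 | k1 | k1
          · exact k1
          · exact absurd (X.injective k1 ▸ hm) h2
          · exact absurd (hT' m l hm k1) h2
        refine htr _ _ _
          (ih T (Rle X l) hT (up_Rle X l) (s1.trans (t3.trans t2)) t1 s3 (F'.erase l) hc ?_)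
          (htr _ _ _ (hone l hl (s3 h1) (fun k1 => h2 (s1 k1)))
            (ih (Rl X l) T' (up_Rl X l) hT' s1 t3 (t2.trans (t1.trans s3)) (F'.erase l) hc ?_))
        · intro m hm k1 k2
          exact Finset.mem_erase.2 ⟨fun e => k2 (e ▸ self_mem_Rle X m),
            h m hm k1 (fun k3 => k2 (t2 (t3 k3)))⟩
        · intro m hm k1 k2
          exact Finset.mem_erase.2 ⟨fun e => self_not_mem_Rl X l (e ▸ k1),
            h m hm (t1 (t2 k1)) k2⟩
      · exact ih T T' hT hT' s1 s2 s3 ∅ (by simp) (fun l k0 k1 k2 => absurd ⟨l, k0, k1, k2⟩ he)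
  exact key _ R0 R1 hR0 hR1 subset_rfl h subset_rfl F le_rfl (fun l k _ _ => k)

theorem InB.between {ρ : L → ℝ} {lo hi : ℝ} {R R' T : Set L} (h : InB ρ lo hi R)
    (h' : InB ρ lo hi R') (h1 : R' ⊆ T) (h2 : T ⊆ R) : InB ρ lo hi T :=
  fun l => ⟨fun k => h1 ((h' l).1 k), fun k k' => (h l).2 k (h2 k')⟩

variable {c : C} {Z : Cfg L} {b : Bx}

theorem vh_step {R A A' D : Set L} (h1 : Up Z.X R) (h2 : InB Z.x b.x0 b.x1 R) (a1 : Up Z.Y A)
    (a2 : InB Z.y b.y0 b.y1 A) (a3 : Up Z.Y A') (a4 : InB Z.y b.y0 b.y1 A')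
    (hD : InB Z.x b.x0 b.x1 D) :
    BoxW c Z b R R
      (opH c Z.X (R ∩ A) * Kh c Z.Y Z.X (stp c Z.Y A A' D) * (opH c Z.X (R ∩ A'))⁻¹) := by
  have base : ∀ T T' E, Up Z.Y T → InB Z.y b.y0 b.y1 T → Up Z.Y T' → InB Z.y b.y0 b.y1 T' →
      Up Z.X E → InB Z.x b.x0 b.x1 E → (∀ l, ¬ (l ∈ T ↔ l ∈ T') → (l ∈ D ↔ l ∈ E)) →
      BoxW c Z b R R
        (opH c Z.X (R ∩ T) * Kh c Z.Y Z.X (stp c Z.Y T T' D) * (opH c Z.X (R ∩ T'))⁻¹) := by
    intro T T' E t1 t2 t3 t4 e1 e2 e3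
    have := (BoxW.single (c := c) h1 h2 e1 e2 t2).trans (BoxW.single e1 e2 h1 h2 t4)
    rw [stp_congr c t1 t3 e3]
    convert this using 1
    unfold stp
    rw [map_mul, map_inv, Kh_opH c t1 e1, Kh_opH c t3 e1, Set.inter_comm T E, Set.inter_comm T' E]
    group
  have key : ∀ A A', Up Z.Y A → InB Z.y b.y0 b.y1 A → Up Z.Y A' → InB Z.y b.y0 b.y1 A' → A' ⊆ A →
      BoxW c Z b R R
        (opH c Z.X (R ∩ A) * Kh c Z.Y Z.X (stp c Z.Y A A' D) * (opH c Z.X (R ∩ A'))⁻¹) := by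
    intro A A' a1 a2 a3 a4 hs
    refine cut_ind (X := Z.Y) (p := fun T T' => BoxW c Z b R R
      (opH c Z.X (R ∩ T) * Kh c Z.Y Z.X (stp c Z.Y T T' D) * (opH c Z.X (R ∩ T'))⁻¹))
      (Z.bl_fin b).toFinset ?_ ?_ ?_ a1 a3 hs
    · intro T1 T2 T3 k1 k2
      have := k1.trans k2
      rw [← stp_mul c Z.Y T1 T2 T3 D, map_mul]
      convert this using 1
      group
    · intro l hl _ _
      have k : b.Mem (Z.x l) (Z.y l) := (Z.bl_fin b).mem_toFinset.1 hl
      have y1 := (Z.tr.at_Rle l).inB k.2.2.1 k.2.2.2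
      have y2 := (Z.tr.at_Rl l).inB k.2.2.1 k.2.2.2
      by_cases hl : l ∈ D
      · refine base _ _ (Rle Z.X l) (up_Rle _ l) y1 (up_Rl _ l) y2 (up_Rle _ l)
          ((Z.at_Rle l).inB k.1 k.2.1) fun m hm => ?_
        rw [Rle_cross hm]
        exact iff_of_true hl (self_mem_Rle _ l)
      · refine base _ _ (Rl Z.X l) (up_Rle _ l) y1 (up_Rl _ l) y2 (up_Rl _ l)
          ((Z.at_Rl l).inB k.1 k.2.1) fun m hm => ?_
        rw [Rle_cross hm]
        exact iff_of_false hl (self_not_mem_Rl _ l)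
    · intro T T' t1 t3 s1 s2 s3 hF
      have t2 := a2.between a4 (s1.trans s2) s3
      have t4 := a2.between a4 s1 (s2.trans s3)
      refine base T T' R t1 t2 t3 t4 h1 h2 fun l hl => ?_
      by_contra k
      have k1 := hD.band h2 k
      have k2 := t2.band t4 hl
      exact hl ⟨hF l ((Z.bl_fin b).mem_toFinset.2 ⟨k1.1, k1.2, k2.1, k2.2⟩), fun k3 => s2 k3⟩
  rcases up_total a1 a3 with hs | hs
  · have := (key A' A a3 a4 a1 a2 hs).symm
    rw [← stp_inv c Z.Y A' A D, map_inv]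
    convert this using 1
    group
  · exact key A A' a1 a2 a3 a4 hs

end

/-- From box words in the H-generators to box words in the V-generators. -/
theorem BoxW.vh {L C : Type} [CommGroup C] {c : C} {Z : Cfg L} {b : Bx} {R R' A A' : Set L}
    {ω : WL L C} (h : BoxW c Z.tr b.tr A A' ω) (h1 : Up Z.X R)
    (h2 : InB Z.x b.x0 b.x1 R) (h3 : Up Z.X R') (h4 : InB Z.x b.x0 b.x1 R') :
    BoxW c Z b R R'
      (opH c Z.X (R ∩ A) * Kh c Z.Y Z.X ω * (opH c Z.X (R' ∩ A'))⁻¹) := by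
  have key : BoxW c Z b R R (opH c Z.X (R ∩ A) * Kh c Z.Y Z.X ω * (opH c Z.X (R ∩ A'))⁻¹) := by
    induction h with
    | refl _ _ =>
      rw [map_one, mul_one, mul_inv_cancel]
      exact BoxW.refl h1 h2
    | step h0 k1 k2 k3 ih =>
      have := ih.trans (vh_step (c := c) h1 h2 h0.right.1 h0.right.2 k1 k2 k3)
      rw [map_mul]
      convert this using 1
      simp only [Cfg.tr_X]
      group
  have := key.trans (BoxW.single h1 h2 h3 h4 h.right.2)
  convert this using 1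
  unfold stp
  group

/-- The same for points adjacent to labels of the box. -/
theorem BoxW.kap {L C : Type} [CommGroup C] {c : C} {Z : Cfg L} {b : Bx} {l m : L}
    {g g' : WL L C} (h : BoxW c Z b (Rl Z.X l) (Rl Z.X m) (g⁻¹ * g')) (hl : l ∈ Z.bl b)
    (hm : m ∈ Z.bl b) :
    BoxW c Z.tr b.tr (Rl Z.Y l) (Rl Z.Y m) ((kap c Z.X Z.Y l g)⁻¹ * kap c Z.X Z.Y m g') := by
  have := BoxW.vh (Z := Z.tr) (b := b.tr) h (up_Rl Z.Y l) ((Z.tr.at_Rl l).inB hl.2.2.1 hl.2.2.2)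
    (up_Rl Z.Y m) ((Z.tr.at_Rl m).inB hm.2.2.1 hm.2.2.2)
  convert this using 1
  rw [kap_eq, kap_eq, map_mul, map_inv, UR_comm Z.X Z.Y l, UR_comm Z.X Z.Y m]
  simp only [Cfg.tr_X, Cfg.tr_Y, UR]
  group

end Pool.Agent.E5f

end

section

/-!
Existence of planar models and their elementary properties.
-/

set_option autoImplicit false

namespace Pool.Agent.E5f

open Filter Classical

/-- The H-word of a triple of a V-word and two markers. -/
noncomputable def hOf {L C : Type} [CommGroup C] (c : C) (Z : Cfg L) (s : WL L C × Mk × Mk) :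
    WL L C := Kh c Z.X Z.Y (s.1 * opH c Z.X (Rs Z.x s.2.1 ∩ Rs Z.y s.2.2))

/-- Moves between triples. -/
def mvOf {L C : Type} [CommGroup C] (c : C) (Z : Cfg L) (a b : WL L C × Mk × Mk) : Prop :=
  (a.1 = b.1 ∧ a.2.1 = b.2.1) ∨ (hOf c Z a = hOf c Z b ∧ a.2.2 = b.2.2)

theorem plan_ex {L C : Type} [CommGroup C] (c : C) (Z : Cfg L) (g0 : WL L C) (u0 w0 : Mk) :
    ∃ (Q : Type) (P : Plan c Z Q) (q0 : Q), P.g q0 = g0 ∧ P.u q0 = u0 ∧ P.w q0 = w0 := by
  let Q := {s : WL L C × Mk × Mk // Relation.ReflTransGen (mvOf c Z) (g0, u0, w0) s}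
  let r : Q → Q → Prop := fun a b => mvOf c Z a.1 b.1
  have hr : ∀ a b, r a b → r b a := fun a b h =>
    h.imp (fun h => ⟨h.1.symm, h.2.symm⟩) (fun h => ⟨h.1.symm, h.2.symm⟩)
  have key : ∀ s (h : Relation.ReflTransGen (mvOf c Z) (g0, u0, w0) s),
      Relation.ReflTransGen r ⟨(g0, u0, w0), Relation.ReflTransGen.refl⟩ ⟨s, h⟩ := by
    intro s h
    induction h with
    | refl => exact Relation.ReflTransGen.refl
    | tail h1 h2 ih => exact ih.tail h2
  refine ⟨Q, ⟨fun q => q.1.1, fun q => hOf c Z q.1, fun q => q.1.2.1, fun q => q.1.2.2,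
    fun _ => rfl, fun q => ?_, fun q w' => ?_, fun q u' => ?_, fun p q => ?_, fun p q h1 h2 h3 => ?_⟩,
    ⟨(g0, u0, w0), Relation.ReflTransGen.refl⟩, rfl, rfl, rfl⟩
  · unfold hOf
    rw [map_mul, Kh_Kh, Kh_opH c (X := Z.Y) (R := Rs Z.y q.1.2.2) (Z.tr.up_Rs _) (Z.up_Rs _),
      Set.inter_comm, mul_inv_cancel_right]
  · exact ⟨⟨(q.1.1, q.1.2.1, w'), q.2.tail (Or.inl ⟨rfl, rfl⟩)⟩, rfl, rfl, rfl⟩
  · have e : hOf c Z (q.1.1 * stp c Z.X (Rs Z.x q.1.2.1) (Rs Z.x u') (Rs Z.y q.1.2.2), u',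
        q.1.2.2) = hOf c Z q.1 := by
      unfold hOf stp
      simp only [mul_assoc, inv_mul_cancel, mul_one]
    exact ⟨⟨_, q.2.tail (Or.inr ⟨e.symm, rfl⟩)⟩, e, rfl, rfl⟩
  · exact (rtg_symm hr (key p.1 p.2)).trans (key q.1 q.2)
  · exact Subtype.ext (Prod.ext h1 (Prod.ext h2 h3))

theorem sup_single {L C : Type} [CommGroup C] {a : L} {g : W L C} (h : Sup {a} g) :
    ∃ x, g = lt a x := by
  refine sup_ind (p := fun g => ∃ x, g = lt a x) ⟨1, by simp⟩ ?_ h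
  rintro l hl x g ⟨y, rfl⟩
  rw [Set.mem_singleton_iff.1 hl]
  exact ⟨x * y, (lt_mul a x y).symm⟩

theorem dT_ret_lt {L C : Type} [CommGroup C] (ρ : L → ℝ) (S : Set L) (a : L) (x : C) :
    dT ρ (ρ a) (ret S (lt a x)) (ρ a) = 0 := by
  rw [ret_lt]
  split_ifs
  · by_cases hx : x = 1
    · rw [hx]; simp
    · rw [dT_lt _ _ _ _ hx]; simp
  · simp

namespace Plan
variable {L C : Type} [CommGroup C] {c : C} {Z : Cfg L} {Q : Type} {P : Plan c Z Q} {b : Bx}
  {p q r : Q} {D : Set L}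

theorem MH.g_eq (h : P.MH p q) :
    P.g q = P.g p * stp c Z.X (P.R p) (P.R q) (Rs Z.y (P.w p)) := P.mh_g h

theorem MH.step (h : P.MH p q) : P.Step (Rs Z.y (P.w p)) p q :=
  ⟨⟨_, _, (at_Rs Z.y (P.w p)).inB le_rfl le_rfl⟩, h.g_eq⟩

theorem mh_of (hw : P.w p = P.w q)
    (hg : P.g q = P.g p * stp c Z.X (P.R p) (P.R q) (Rs Z.y (P.w p))) : P.MH p q := by
  refine ⟨?_, hw⟩
  rw [P.relv p, P.relv q, hg, ← hw]
  unfold stp R
  simp only [mul_assoc, inv_mul_cancel, mul_one]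

theorem Step.symm (h : P.Step D p q) : P.Step D q p :=
  ⟨h.1, by rw [h.2, mul_assoc, stp_mul, stp_self, mul_one]⟩

theorem Step.trans (h : P.Step D p q) (h' : P.Step D q r) : P.Step D p r :=
  ⟨h.1, by rw [h'.2, h.2, mul_assoc, stp_mul]⟩

theorem Step.mv (h : P.Step D p q) (hu : P.u p = P.u q) : P.MV p q := by
  refine ⟨?_, hu⟩
  have := h.2
  unfold R at this
  rw [this, hu, stp_self, mul_one]

theorem Box.tr (h : P.Box b p q) : P.tr.Box b.tr p q := by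
  refine ⟨h.1.tr, h.2.1.tr, ?_⟩
  have h1 := BoxW.vh (Z := Z.tr) (b := b.tr) (R := Rs Z.y (P.w p)) (R' := Rs Z.y (P.w q)) h.2.2
    (Z.tr.up_Rs _) ((at_Rs _ _).inB h.1.2.2.1 h.1.2.2.2) (Z.tr.up_Rs _)
    ((at_Rs _ _).inB h.2.1.2.2.1 h.2.1.2.2.2)
  have e : (P.h p)⁻¹ * P.h q = opH c Z.Y (Rs Z.y (P.w p) ∩ P.R p) *
      Kh c Z.X Z.Y ((P.g p)⁻¹ * P.g q) * (opH c Z.Y (Rs Z.y (P.w q) ∩ P.R q))⁻¹ := by
    rw [P.relv p, P.relv q, map_mul, map_mul, map_mul, map_inv,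
      Kh_opH c (Y := Z.Y) (A := Rs Z.y (P.w p)) (Z.up_Rs _) (Z.tr.up_Rs _),
      Kh_opH c (Y := Z.Y) (A := Rs Z.y (P.w q)) (Z.up_Rs _) (Z.tr.up_Rs _),
      Set.inter_comm (Rs Z.y (P.w p)), Set.inter_comm (Rs Z.y (P.w q))]
    unfold R
    group
  change BoxW c Z.tr b.tr _ _ ((P.h p)⁻¹ * P.h q)
  rw [e]
  exact h1

theorem Box.mono {b' : Bx} (h : P.Box b p q) (hb : b.Sub b') : P.Box b' p q :=
  ⟨h.1.mono hb, h.2.1.mono hb, h.2.2.mono hb⟩

theorem Box.symm (h : P.Box b p q) : P.Box b q p :=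
  ⟨h.2.1, h.1, by simpa using h.2.2.symm⟩

theorem Box.trans (h : P.Box b p q) (h' : P.Box b q r) : P.Box b p r :=
  ⟨h.1, h'.2.1, by simpa [mul_assoc] using h.2.2.trans h'.2.2⟩

theorem chain_rch {s : ℕ → Q} {n : ℕ} (hs : P.Chain s n)
    (hb : ∀ i ≤ n, b.Mem (P.u (s i)).1 (P.w (s i)).1) : P.Rch b (s 0) (s n) := by
  induction n with
  | zero => exact Rch.refl (hb 0 le_rfl)
  | succ n ih =>
    exact (ih (fun i hi => hs i (Nat.lt_succ_of_lt hi))
      (fun i hi => hb i (Nat.le_succ_of_le hi))).tail (hs n (Nat.lt_succ_self n)) (hb _ le_rfl)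

theorem chain_box {s : ℕ → Q} {n : ℕ} (hs : P.Chain s n)
    (hb : ∀ i ≤ n, b.Mem (P.u (s i)).1 (P.w (s i)).1) : P.Box b (s 0) (s n) :=
  (chain_rch hs hb).box

theorem box_ex (P : Plan c Z Q) (p q : Q) : ∃ b, P.Box b p q :=
  (P.exists_rch p q).imp (fun _ h => h.box)

theorem dv_eq (_hc : c ≠ 1) (h : P.Box b p q) {S : Finset L} (hS : Z.bl b ⊆ (S : Set L)) :
    P.dv p q = dT Z.x (P.u p).1 ((pj S (P.g p))⁻¹ * pj S (P.g q)) (P.u q).1 := h.dv_eq hS

theorem dv_ev (_hc : c ≠ 1) (p q : Q) : ∀ᶠ S : Finset L in atTop,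
    P.dv p q = dL Z.x ((P.u p).1, pj S (P.g p)) ((P.u q).1, pj S (P.g q)) := P.dv_ev' p q

theorem dv_pm (P : Plan c Z Q) (_hc : c ≠ 1) : PM P.dv := P.pv

theorem dv_hyp (P : Plan c Z Q) (_hc : c ≠ 1) : Hyp P.dv 0 := P.hv

theorem abs_le_dv (_hc : c ≠ 1) (p q : Q) : |(P.u q).1 - (P.u p).1| ≤ P.dv p q :=
  P.abs_le_dv' p q

theorem Step.dv (_hc : c ≠ 1) (h : P.Step D p q) : P.dv p q = |(P.u q).1 - (P.u p).1| :=
  P.dv_of_g h.2

theorem MV.dv (_hc : c ≠ 1) (h : P.MV p q) : P.dv p q = 0 := P.dv_mv h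

theorem MV.dh (_hc : c ≠ 1) (h : P.MV p q) : P.dh p q = |(P.w q).1 - (P.w p).1| := P.dh_mv h

theorem MH.dv (_hc : c ≠ 1) (h : P.MH p q) : P.dv p q = |(P.u q).1 - (P.u p).1| := P.dv_mh h

theorem MH.dh (_hc : c ≠ 1) (h : P.MH p q) : P.dh p q = 0 := P.dh_mh h

theorem Touch.dv' {a : L} {x : C} (h : P.Touch a x p q) : P.dv p q = 0 := by
  unfold Plan.dv
  rw [h.2.2, inv_mul_cancel_left, h.1, h.2.1]
  exact dW_eq ∅ (fun S _ => dT_ret_lt _ _ _ _)

theorem Touch.dv (_hc : c ≠ 1) {a : L} {x : C} (h : P.Touch a x p q) : P.dv p q = 0 := h.dv'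

theorem dv_le_lenV (_hc : c ≠ 1) {s : ℕ → Q} {n : ℕ} (hs : P.Chain s n) :
    P.dv (s 0) (s n) ≤ P.lenV s n := by
  unfold lenV
  induction n with
  | zero => simp [P.pv.self]
  | succ n ih =>
    rw [Finset.sum_range_succ, ← P.dv_move (hs n (Nat.lt_succ_self n))]
    have := ih (fun i hi => hs i (Nat.lt_succ_of_lt hi))
    have := P.pv.tri (s 0) (s n) (s (n + 1))
    linarith

theorem dv_zero' (hx : Function.Injective Z.x) (h : P.dv p q = 0) :
    (P.u p).1 = (P.u q).1 ∧ (P.g p = P.g q ∨ ∃ a x, P.Touch a x p q) := by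
  have hu : (P.u p).1 = (P.u q).1 := by
    have := P.abs_le_dv' p q
    rw [h] at this
    exact (sub_eq_zero.1 (abs_nonpos_iff.1 this)).symm
  refine ⟨hu, ?_⟩
  obtain ⟨S0, hS0⟩ := eventually_atTop.1 (P.dv_ev' p q)
  have key : ∀ S, S0 ⊆ S → ∀ l ∈ lab (pj S ((P.g p)⁻¹ * P.g q)), Z.x l = (P.u p).1 := by
    intro S hS
    have h1 := hS0 S hS
    rw [h] at h1
    rw [map_mul, map_inv]
    exact (dT_eq_zero.1 h1.symm).2
  by_cases ha : ∃ a, Z.x a = (P.u p).1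
  · obtain ⟨a, ha⟩ := ha
    obtain ⟨x, hx'⟩ := sup_single (a := a) (g := pj {a} ((P.g p)⁻¹ * P.g q))
      (by simpa using sup_pj {a} ((P.g p)⁻¹ * P.g q))
    refine Or.inr ⟨a, x, ha.symm, hu ▸ ha.symm, ?_⟩
    rw [← inv_mul_eq_iff_eq_mul]
    refine WL_ext_of (insert a S0) (fun S hS => ?_)
    have haS : a ∈ S := hS (Finset.mem_insert_self _ _)
    have h1 : Sup (({a} : Finset L) : Set L) (pj S ((P.g p)⁻¹ * P.g q)) := fun l hl => by
      have := key S ((Finset.subset_insert _ _).trans hS) l hl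
      simpa using hx (this.trans ha.symm)
    rw [← sup_iff.1 h1, ret_pj (Finset.singleton_subset_iff.2 haS), hx', pj_emb_lt haS]
  · left
    rw [← inv_mul_eq_one]
    refine WL_ext_of S0 (fun S hS => ?_)
    rw [map_one]
    apply wd_eq_nil
    cases hw : wd (pj S ((P.g p)⁻¹ * P.g q)) with
    | nil => rfl
    | cons e t => exact absurd ⟨e.1, key S hS e.1 (by unfold lab; rw [hw]; simp)⟩ ha

theorem dv_zero (hZ : Z.Gen) (_hc : c ≠ 1) (h : P.dv p q = 0) :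
    (P.u p).1 = (P.u q).1 ∧ (P.g p = P.g q ∨ ∃ a x, P.Touch a x p q) := dv_zero' hZ.1 h

end Plan

end Pool.Agent.E5f

end

section

/-!
Zigzags: steps, box words and touches are realised by moves.
-/

set_option autoImplicit false

namespace Pool.Agent.E5f

open Filter Classical

/-- Induction over the labels of a finite set between two markers. -/
theorem mk_ind {L : Type} {ρ : L → ℝ} (S : Finset L) {p : Mk → Mk → Prop} (lo hi : Mk)
    (htr : ∀ u u' u'', p u u' → p u' u'' → p u u'')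
    (hgap : ∀ u u', toLex lo ≤ toLex u → toLex u ≤ toLex u' → toLex u' ≤ toLex hi →
      (∀ l ∈ S, l ∈ Rs ρ u ↔ l ∈ Rs ρ u') → p u u')
    (hcr : ∀ l ∈ S, p (ρ l, false) (ρ l, true)) :
    ∀ u u', toLex lo ≤ toLex u → toLex u ≤ toLex u' → toLex u' ≤ toLex hi → p u u' := by
  have key : ∀ (n : ℕ) (u u' : Mk), toLex lo ≤ toLex u → toLex u ≤ toLex u' →
      toLex u' ≤ toLex hi → (cut S (Rs ρ u \ Rs ρ u')).card = n → p u u' := by
    intro n
    induction n using Nat.strong_induction_on with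
    | _ n ih =>
    intro u u' h0 hle h1 hn
    have hsub : Rs ρ u' ⊆ Rs ρ u := Rs_mono _ hle
    rcases (cut S (Rs ρ u \ Rs ρ u')).eq_empty_or_nonempty with he | he
    · refine hgap u u' h0 hle h1 fun l hl => ⟨fun h2 => ?_, fun h2 => hsub h2⟩
      by_contra h3
      have : l ∈ cut S (Rs ρ u \ Rs ρ u') := mem_cut.2 ⟨hl, h2, h3⟩
      rw [he] at this
      exact Finset.notMem_empty _ this
    obtain ⟨l, hl, hmin⟩ := Finset.exists_min_image _ ρ he
    obtain ⟨hlS, hl1, hl2⟩ := mem_cut.1 hl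
    have e1 : toLex u ≤ toLex ((ρ l, false) : Mk) := (rtP_iff _ _ _).1 hl1
    have e2 : toLex ((ρ l, true) : Mk) ≤ toLex u' := (not_rtP_iff _ _ _).1 hl2
    have e3 : toLex ((ρ l, false) : Mk) ≤ toLex ((ρ l, true) : Mk) := by
      rw [Prod.Lex.toLex_le_toLex]; simp
    refine htr _ _ _ (htr _ _ _ (hgap u (ρ l, false) h0 e1 (e3.trans (e2.trans h1))
      fun m hm => ⟨fun h2 => ?_, fun h2 => Rs_mono ρ e1 h2⟩) (hcr l hlS))
      (ih _ ?_ (ρ l, true) u' (h0.trans (e1.trans e3)) e2 h1 rfl)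
    · have : ρ l ≤ ρ m := by
        by_cases h3 : m ∈ Rs ρ u'
        · exact ((at_Rs ρ u' l).2 hl2).trans ((at_Rs ρ u' m).1 h3)
        · exact hmin m (mem_cut.2 ⟨hm, h2, h3⟩)
      rcases this.lt_or_eq with h3 | h3
      · exact Or.inl h3
      · exact Or.inr ⟨h3, rfl⟩
    · rw [← hn]
      refine Finset.card_lt_card ⟨fun m hm => ?_, fun hm => ?_⟩
      · rw [mem_cut] at hm ⊢
        exact ⟨hm.1, Rs_mono _ (e1.trans e3) hm.2.1, hm.2.2⟩
      · exact not_rtP_true _ _ (mem_cut.1 (hm hl)).2.1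
  exact fun u u' h0 h1 h2 => key _ u u' h0 h1 h2 rfl

theorem seq_of_rtg {X : Type} {r : X → X → Prop} {a b : X} (h : Relation.ReflTransGen r a b) :
    ∃ (s : ℕ → X) (n : ℕ), s 0 = a ∧ s n = b ∧ ∀ i < n, r (s i) (s (i + 1)) := by
  induction h with
  | refl => exact ⟨fun _ => a, 0, rfl, rfl, fun _ h => absurd h (Nat.not_lt_zero _)⟩
  | @tail b c _ h2 ih =>
    obtain ⟨s, n, h0, h1, h3⟩ := ih
    refine ⟨fun i => if i ≤ n then s i else c, n + 1, by simp [h0], by simp, fun i hi => ?_⟩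
    rcases (Nat.lt_succ_iff.1 hi).lt_or_eq with h4 | h4
    · simp only [h4.le, Nat.succ_le_of_lt h4, if_true]
      exact h3 i h4
    · subst h4
      simp only [le_refl, if_true, Nat.not_succ_le_self, if_false, h1]
      exact h2

theorem seq_between {X : Type} [Preorder X] {f : ℕ → X} {n : ℕ} (h : ∀ i < n, f i ≤ f (i + 1)) :
    ∀ i j, i ≤ j → j ≤ n → f i ≤ f j := by
  intro i j hij hj
  induction j, hij using Nat.le_induction with
  | base => exact le_rfl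
  | succ j _ ih => exact (ih (Nat.le_of_succ_le hj)).trans (h j hj)

namespace Plan
variable {L C : Type} [CommGroup C] {c : C} {Z : Cfg L} {Q : Type} {P : Plan c Z Q} {b : Bx}
  {p q r : Q} {D : Set L}

/-- A move which respects the status set. -/
def Zm (P : Plan c Z Q) (D : Set L) (a a' : Q) : Prop :=
  P.MV a a' ∨ (P.MH a a' ∧ ∀ l, ¬ (l ∈ P.R a ↔ l ∈ P.R a') → (l ∈ D ↔ l ∈ Rs Z.y (P.w a)))

/-- The point is on one of the two levels. -/
def Lv (P : Plan c Z Q) (y0 y1 : ℝ) (a : Q) : Prop := P.w a = (y0, false) ∨ P.w a = (y1, true)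

theorem Zm.step (hD : ∃ y0 y1, InB Z.y y0 y1 D) (h : P.Zm D p q) : P.Step D p q := by
  refine ⟨hD, ?_⟩
  rcases h with h | h
  · unfold R
    rw [h.1, h.2, stp_self, mul_one]
  · rw [h.1.g_eq, stp_congr c (P.up_R p) (P.up_R q) h.2]

theorem zig_core (hZ : Z.Gen) {y0 y1 : ℝ} (hD : InB Z.y y0 y1 D) {u u' : Mk}
    (hu : toLex u ≤ toLex u') :
    (∀ q, P.Lv y0 y1 q → P.u q = u → ∃ q', P.u q' = u' ∧ P.Lv y0 y1 q' ∧ Relation.ReflTransGen
      (fun a a' => P.Zm D a a' ∧ P.Lv y0 y1 a' ∧ toLex (P.u a) ≤ toLex (P.u a')) q q') ∧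
    (∀ q', P.Lv y0 y1 q' → P.u q' = u' → ∃ q, P.u q = u ∧ P.Lv y0 y1 q ∧ Relation.ReflTransGen
      (fun a a' => P.Zm D a a' ∧ P.Lv y0 y1 a' ∧ toLex (P.u a') ≤ toLex (P.u a)) q' q) := by
  refine mk_ind (ρ := Z.x) (Z.bl_fin ⟨u.1, u'.1, y0, y1⟩).toFinset (p := fun u u' =>
    (∀ q, P.Lv y0 y1 q → P.u q = u → ∃ q', P.u q' = u' ∧ P.Lv y0 y1 q' ∧ Relation.ReflTransGen
      (fun a a' => P.Zm D a a' ∧ P.Lv y0 y1 a' ∧ toLex (P.u a) ≤ toLex (P.u a')) q q') ∧
    (∀ q', P.Lv y0 y1 q' → P.u q' = u' → ∃ q, P.u q = u ∧ P.Lv y0 y1 q ∧ Relation.ReflTransGen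
      (fun a a' => P.Zm D a a' ∧ P.Lv y0 y1 a' ∧ toLex (P.u a') ≤ toLex (P.u a)) q' q))
    u u' ?_ ?_ ?_ u u' le_rfl hu le_rfl
  · intro v v' v'' h1 h2
    refine ⟨fun q a1 a2 => ?_, fun q a1 a2 => ?_⟩
    · obtain ⟨q1, b1, b2, b3⟩ := h1.1 q a1 a2
      obtain ⟨q2, c1, c2, c3⟩ := h2.1 q1 b2 b1
      exact ⟨q2, c1, c2, b3.trans c3⟩
    · obtain ⟨q1, b1, b2, b3⟩ := h2.2 q a1 a2
      obtain ⟨q2, c1, c2, c3⟩ := h1.2 q1 b2 b1
      exact ⟨q2, c1, c2, b3.trans c3⟩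
  · intro v v' h0 h1 h2 hg
    have key : ∀ l, ¬ (l ∈ Rs Z.x v ↔ l ∈ Rs Z.x v') → ∀ q, P.Lv y0 y1 q →
        (l ∈ D ↔ l ∈ Rs Z.y (P.w q)) := by
      intro l hl q hq
      have e1 : l ∈ Rs Z.x v := by
        by_contra h3
        exact hl ⟨fun h4 => absurd h4 h3, fun h4 => Rs_mono _ h1 h4⟩
      have e2 : l ∉ Rs Z.x v' := fun h3 => hl ⟨fun _ => h3, fun _ => e1⟩
      have e3 : l ∉ Z.bl ⟨u.1, u'.1, y0, y1⟩ := fun h3 => hl (hg l (by simpa using h3))
      have x1 : u.1 ≤ Z.x l := (fst_mono h0).trans ((at_Rs _ _ l).1 e1)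
      have x2 : Z.x l ≤ u'.1 := ((at_Rs _ _ l).2 e2).trans (fst_mono h2)
      have d1 := (hD l).1
      have d2 := (hD l).2
      rcases Z.not_bl e3 with (h3 | h3 | h3) | h3
      · exact absurd h3 (not_lt.2 x1)
      · exact absurd h3 (not_lt.2 x2)
      · refine ⟨fun h4 => absurd h4 (d2 h3), fun h4 => ?_⟩
        rcases hq with hq | hq <;> rw [hq] at h4
        · exact absurd ((at_Rs _ _ l).1 h4) (not_le.2 h3)
        · exact d1 (by simpa [Rs] using h4)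
      · refine ⟨fun h4 => ?_, fun _ => d1 h3⟩
        rcases hq with hq | hq <;> rw [hq]
        · by_contra h5
          exact d2 (by simpa [Rs, ← le_iff_lt_or_eq] using h5) h4
        · exact Or.inl h3
    refine ⟨fun q a1 a2 => ?_, fun q a1 a2 => ?_⟩
    · obtain ⟨q', e1, e2⟩ := P.ex_mh q v'
      have hl : P.Lv y0 y1 q' := by unfold Lv; rw [← e1.2]; exact a1
      refine ⟨q', e2, hl, Relation.ReflTransGen.single ⟨Or.inr ⟨e1, fun l h => ?_⟩, hl, ?_⟩⟩
      · unfold R at h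
        rw [a2, e2] at h
        exact key l h q a1
      · rw [a2, e2]; exact h1
    · obtain ⟨q', e1, e2⟩ := P.ex_mh q v
      have hl : P.Lv y0 y1 q' := by unfold Lv; rw [← e1.2]; exact a1
      refine ⟨q', e2, hl, Relation.ReflTransGen.single ⟨Or.inr ⟨e1, fun l h => ?_⟩, hl, ?_⟩⟩
      · unfold R at h
        rw [a2, e2] at h
        exact key l (fun h3 => h h3.symm) q a1
      · rw [a2, e2]; exact h1
  · intro l _
    have e3 : toLex ((Z.x l, false) : Mk) ≤ toLex ((Z.x l, true) : Mk) := by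
      rw [Prod.Lex.toLex_le_toLex]; simp
    have key : ∀ q (s t : Bool), P.u q = (Z.x l, s) → ∃ q1 q2, P.MV q q1 ∧ P.Lv y0 y1 q1 ∧
        P.Zm D q1 q2 ∧ P.Lv y0 y1 q2 ∧ P.u q2 = (Z.x l, t) := by
      intro q s t hq
      obtain ⟨q1, e1, e2⟩ := P.ex_mv q (if l ∈ D then (y0, false) else (y1, true))
      obtain ⟨q2, f1, f2⟩ := P.ex_mh q1 (Z.x l, t)
      have hl : P.Lv y0 y1 q1 := by
        unfold Lv; rw [e2]
        split_ifs
        · exact Or.inl rfl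
        · exact Or.inr rfl
      refine ⟨q1, q2, e1, hl, Or.inr ⟨f1, fun m hm => ?_⟩, by unfold Lv; rw [← f1.2]; exact hl, f2⟩
      have : m = l := by
        by_contra h3
        apply hm
        unfold R
        rw [← e1.2, hq, f2]
        exact rtP_congr rfl (fun h4 => h3 (hZ.1 h4).symm)
      subst this
      rw [e2]
      split_ifs with h3
      · refine ⟨fun _ => ?_, fun _ => h3⟩
        by_contra h5
        exact (hD m).2 (by simpa [Rs, ← le_iff_lt_or_eq] using h5) h3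
      · exact ⟨fun h4 => absurd h4 h3, fun h4 => (hD m).1 (by simpa [Rs] using h4)⟩
    refine ⟨fun q _ a2 => ?_, fun q _ a2 => ?_⟩
    · obtain ⟨q1, q2, b1, b2, b3, b4, b5⟩ := key q false true a2
      exact ⟨q2, b5, b4, (Relation.ReflTransGen.single ⟨Or.inl b1, b2, by rw [b1.2]⟩).tail
        ⟨b3, b4, by rw [← b1.2, a2, b5]; exact e3⟩⟩
    · obtain ⟨q1, q2, b1, b2, b3, b4, b5⟩ := key q true false a2
      exact ⟨q2, b5, b4, (Relation.ReflTransGen.single ⟨Or.inl b1, b2, by rw [b1.2]⟩).tail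
        ⟨b3, b4, by rw [← b1.2, a2, b5]; exact e3⟩⟩

/-- A step from `p` to any marker is realised by a monotone zigzag between the two levels
`(y0, false)` and `(y1, true)`. -/
theorem zigzag (hZ : Z.Gen) (p : Q) {y0 y1 : ℝ} (hD : InB Z.y y0 y1 D) (u' w' : Mk) :
    ∃ (s : ℕ → Q) (n : ℕ), s 0 = p ∧ P.u (s n) = u' ∧ P.w (s n) = w' ∧ P.Step D p (s n) ∧
      (∀ i, 0 < i → i < n → P.w (s i) = (y0, false) ∨ P.w (s i) = (y1, true)) ∧
      (∀ i < n, P.MV (s i) (s (i + 1)) ∨ (P.MH (s i) (s (i + 1)) ∧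
        ∀ a, ¬ (a ∈ P.R (s i) ↔ a ∈ P.R (s (i + 1))) → (a ∈ D ↔ a ∈ Rs Z.y (P.w (s i))))) ∧
      (toLex (P.u p) ≤ toLex u' → ∀ i < n, toLex (P.u (s i)) ≤ toLex (P.u (s (i + 1)))) ∧
      (toLex u' ≤ toLex (P.u p) → ∀ i < n, toLex (P.u (s (i + 1))) ≤ toLex (P.u (s i))) := by
  obtain ⟨p1, a1, a2⟩ := P.ex_mv p (y1, true)
  let r : Q → Q → Prop := fun a a' => P.Zm D a a' ∧ P.Lv y0 y1 a' ∧
    (toLex (P.u p) ≤ toLex u' → toLex (P.u a) ≤ toLex (P.u a')) ∧
    (toLex u' ≤ toLex (P.u p) → toLex (P.u a') ≤ toLex (P.u a))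
  obtain ⟨q, b1, b2⟩ : ∃ q, P.u q = u' ∧ Relation.ReflTransGen r p1 q := by
    rcases lt_trichotomy (toLex (P.u p)) (toLex u') with h | h | h
    · obtain ⟨q, b1, -, b2⟩ := (zig_core (P := P) hZ hD h.le).1 p1 (Or.inr a2) a1.2.symm
      exact ⟨q, b1, Relation.ReflTransGen.mono
        (fun _ _ k => ⟨k.1, k.2.1, fun _ => k.2.2, fun h' => absurd h' (not_le.2 h)⟩) _ _ b2⟩
    · exact ⟨p1, a1.2.symm.trans (toLex.injective h), Relation.ReflTransGen.refl⟩
    · obtain ⟨q, b1, -, b2⟩ := (zig_core (P := P) hZ hD h.le).2 p1 (Or.inr a2) a1.2.symm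
      exact ⟨q, b1, Relation.ReflTransGen.mono
        (fun _ _ k => ⟨k.1, k.2.1, fun h' => absurd h' (not_le.2 h), fun _ => k.2.2⟩) _ _ b2⟩
  obtain ⟨s, n, c0, c1, c2⟩ := seq_of_rtg (Relation.ReflTransGen.head
    (show r p p1 from ⟨Or.inl a1, Or.inr a2, fun _ => by rw [a1.2], fun _ => by rw [a1.2]⟩) b2)
  obtain ⟨q', d1, d2⟩ := P.ex_mv q w'
  let s' : ℕ → Q := fun i => if i ≤ n then s i else q'
  have e1 : ∀ i ≤ n, s' i = s i := fun i hi => if_pos hi
  have e2 : s' (n + 1) = q' := if_neg (Nat.not_succ_le_self n)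
  have key : ∀ i < n + 1, P.Zm D (s' i) (s' (i + 1)) ∧
      (toLex (P.u p) ≤ toLex u' → toLex (P.u (s' i)) ≤ toLex (P.u (s' (i + 1)))) ∧
      (toLex u' ≤ toLex (P.u p) → toLex (P.u (s' (i + 1))) ≤ toLex (P.u (s' i))) := by
    intro i hi
    rcases (Nat.lt_succ_iff.1 hi).lt_or_eq with h | h
    · rw [e1 i h.le, e1 (i + 1) h]
      exact ⟨(c2 i h).1, (c2 i h).2.2⟩
    · subst h
      rw [e1 i le_rfl, e2, c1]
      exact ⟨Or.inl d1, fun _ => by rw [d1.2], fun _ => by rw [d1.2]⟩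
  have hst : ∀ i ≤ n + 1, P.Step D p (s' i) := by
    intro i hi
    induction i with
    | zero => rw [e1 0 (Nat.zero_le _), c0]; exact Zm.step ⟨_, _, hD⟩ (Or.inl ⟨rfl, rfl⟩)
    | succ i ih => exact (ih (Nat.le_of_succ_le hi)).trans (Zm.step ⟨_, _, hD⟩ (key i hi).1)
  refine ⟨s', n + 1, by rw [e1 0 (Nat.zero_le _), c0], by rw [e2, ← d1.2, b1], by rw [e2, d2],
    hst _ le_rfl, fun i h0 hi => ?_, fun i hi => (key i hi).1, fun h i hi => (key i hi).2.1 h,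
    fun h i hi => (key i hi).2.2 h⟩
  obtain ⟨j, rfl⟩ := Nat.exists_eq_succ_of_ne_zero h0.ne'
  rw [e1 _ (Nat.lt_succ_iff.1 hi)]
  exact (c2 j (Nat.lt_of_succ_lt_succ hi)).2.1

theorem step_ex (hZ : Z.Gen) (p : Q) (hD : ∃ y0 y1, InB Z.y y0 y1 D) (u' w' : Mk) :
    ∃ q, P.Step D p q ∧ P.u q = u' ∧ P.w q = w' := by
  obtain ⟨y0, y1, hD⟩ := hD
  obtain ⟨s, n, -, h1, h2, h3, -⟩ := zigzag (P := P) hZ p hD u' w'
  exact ⟨s n, h3, h1, h2⟩

theorem Step.mid (hZ : Z.Gen) (h : P.Step D p q) (u' w' : Mk) :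
    ∃ r, P.Step D p r ∧ P.Step D r q ∧ P.u r = u' ∧ P.w r = w' := by
  obtain ⟨r, h1, h2, h3⟩ := step_ex (P := P) hZ p h.1 u' w'
  exact ⟨r, h1, h1.symm.trans h, h2, h3⟩

theorem step_rch (hZ : Z.Gen) (hp : P.In b p) (hD : InB Z.y b.y0 b.y1 D) {u' w' : Mk}
    (h : b.Mem u'.1 w'.1) : ∃ q, P.Step D p q ∧ P.u q = u' ∧ P.w q = w' ∧ P.Rch b p q := by
  obtain ⟨s, n, h0, h1, h2, h3, h4, h5, h6, h7⟩ := zigzag (P := P) hZ p hD u' w'
  refine ⟨s n, h3, h1, h2, h0 ▸ chain_rch (fun i hi => (h5 i hi).imp id (fun k => k.1))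
    (fun i hi => ?_)⟩
  have hx : b.x0 ≤ (P.u (s i)).1 ∧ (P.u (s i)).1 ≤ b.x1 := by
    rcases le_total (toLex (P.u p)) (toLex u') with k | k
    · have k1 := seq_between (f := fun i => toLex (P.u (s i))) (h6 k) 0 i (Nat.zero_le _) hi
      have k2 := seq_between (f := fun i => toLex (P.u (s i))) (h6 k) i n hi le_rfl
      simp only [h0, h1] at k1 k2
      exact ⟨hp.1.trans (fst_mono k1), (fst_mono k2).trans h.2.1⟩
    · have k1 : toLex (P.u (s i)) ≤ toLex (P.u (s 0)) := seq_between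
        (f := fun i => OrderDual.toDual (toLex (P.u (s i)))) (h7 k) 0 i (Nat.zero_le _) hi
      have k2 : toLex (P.u (s n)) ≤ toLex (P.u (s i)) := seq_between
        (f := fun i => OrderDual.toDual (toLex (P.u (s i)))) (h7 k) i n hi le_rfl
      rw [h0] at k1
      rw [h1] at k2
      exact ⟨h.1.trans (fst_mono k2), (fst_mono k1).trans hp.2.1⟩
  refine ⟨hx.1, hx.2, ?_⟩
  rcases Nat.eq_zero_or_pos i with k | k
  · rw [k, h0]; exact hp.2.2
  rcases hi.lt_or_eq with k' | k'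
  · have := hp.2.2.1.trans hp.2.2.2
    rcases h4 i k k' with e | e <;> rw [e]
    · exact ⟨le_rfl, this⟩
    · exact ⟨this, le_rfl⟩
  · rw [k', h2]; exact h.2.2

theorem rch_of_boxW (hZ : Z.Gen) (hp : P.In b p) {R' : Set L} {ω : WL L C}
    (h : BoxW c Z b (P.R p) R' ω) : ∀ u' w' : Mk, R' = Rs Z.x u' → b.Mem u'.1 w'.1 →
    ∃ q, P.g q = P.g p * ω ∧ P.u q = u' ∧ P.w q = w' ∧ P.Rch b p q := by
  induction h with
  | refl _ _ =>
    intro u' w' h1 h2
    obtain ⟨q, e1, e2, e3, e4⟩ := step_rch hZ hp ((at_Rs Z.y (P.w p)).inB hp.2.2.1 hp.2.2.2) h2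
    refine ⟨q, ?_, e2, e3, e4⟩
    rw [e1.2, h1]
    unfold R
    rw [e2, stp_self]
  | @step R1 R2 D ω h0 _ _ h3 ih =>
    intro u' w' h1 h2
    obtain ⟨u1, f1, f2, f3⟩ := up_eq_Rs Z hZ.1 (hp.1.trans hp.2.1) h0.right.1 h0.right.2
    obtain ⟨q1, e1, e2, e3, e4⟩ := ih u1 w' f1 ⟨f2, f3, h2.2.2⟩
    obtain ⟨q, g1, g2, g3, g4⟩ := step_rch hZ e4.right h3 h2
    refine ⟨q, ?_, g2, g3, e4.trans g4⟩
    rw [g1.2, e1, h1, f1, mul_assoc]
    unfold R
    rw [e2, g2]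

theorem ex_of_box (hZ : Z.Gen) (p : Q) {u' : Mk} {ω : WL L C}
    (h : BoxW c Z b (P.R p) (Rs Z.x u') ω) (w' : Mk) :
    ∃ q, P.g q = P.g p * ω ∧ P.u q = u' ∧ P.w q = w' := by
  let b' := (b.sup (P.pt p)).sup ⟨u'.1, u'.1, w'.1, w'.1⟩
  obtain ⟨q, h1, h2, h3, -⟩ := rch_of_boxW (b := b') hZ
    ((P.in_pt p).mono ((Bx.sub_sup_right _ _).trans (Bx.sub_sup_left _ _)))
    (h.mono ((Bx.sub_sup_left _ _).trans (Bx.sub_sup_left _ _))) u' w' rfl
    (Bx.Mem.mono (b := ⟨u'.1, u'.1, w'.1, w'.1⟩) ⟨le_rfl, le_rfl, le_rfl, le_rfl⟩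
      (Bx.sub_sup_right _ _))
  exact ⟨q, h1, h2, h3⟩

theorem Box.rch (hZ : Z.Gen) (h : P.Box b p q) : P.Rch b p q := by
  obtain ⟨q', h1, h2, h3, h4⟩ := rch_of_boxW hZ h.1 h.2.2 (P.u q) (P.w q) rfl h.2.1
  rwa [P.ext q' q (by rw [h1, mul_inv_cancel_left]) h2 h3] at h4

theorem box_chain (hZ : Z.Gen) (h : P.Box b p q) :
    ∃ (s : ℕ → Q) (n : ℕ), s 0 = p ∧ s n = q ∧ P.Chain s n ∧
      ∀ i ≤ n, b.Mem (P.u (s i)).1 (P.w (s i)).1 := by
  obtain ⟨s, n, h0, h1, h2⟩ := seq_of_rtg (h.rch hZ).2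
  refine ⟨s, n, h0, h1, fun i hi => (h2 i hi).1, fun i hi => ?_⟩
  cases i with
  | zero => rw [h0]; exact h.1
  | succ i => exact (h2 i hi).2

theorem touch_box (hg : ∀ x : C, ∃ n : ℤ, x = c ^ n) (hZ : Z.Gen) {a : L} (ha : a ∈ Z.bl b)
    (x : C) (s t : Bool) :
    BoxW c Z b (Rs Z.x (Z.x a, s)) (Rs Z.x (Z.x a, t)) (emb (lt a x)) := by
  have hI : ∀ s : Bool, InB Z.x b.x0 b.x1 (Rs Z.x (Z.x a, s)) := fun s =>
    (at_Rs _ _).inB ha.1 ha.2.1
  have hs : ∀ e : Bool, BoxW c Z b (Rs Z.x (Z.x a, false)) (Rs Z.x (Z.x a, true))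
      (emb (lt a (if a ∈ Rs Z.y (Z.y a, e) then c else 1))) := fun e => by
    rw [← stp_cross hZ.1]
    exact BoxW.single (Z.up_Rs _) (hI _) (Z.up_Rs _) (hI _) ((at_Rs _ _).inB ha.2.2.1 ha.2.2.2)
  have h1 := hs false
  have h0 := hs true
  rw [if_pos (show a ∈ Rs Z.y (Z.y a, false) from rtP_false _ _)] at h1
  rw [if_neg (show a ∉ Rs Z.y (Z.y a, true) from not_rtP_true _ _), lt_one, map_one] at h0
  have h2 : ∀ s : Bool, BoxW c Z b (Rs Z.x (Z.x a, false)) (Rs Z.x (Z.x a, s)) 1 := by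
    intro s
    cases s
    · exact BoxW.refl (Z.up_Rs _) (hI _)
    · exact h0
  have h3 : BoxW c Z b (Rs Z.x (Z.x a, false)) (Rs Z.x (Z.x a, false)) (emb (lt a c)) := by
    simpa using h1.trans h0.symm
  have h4 : ∀ n : ℤ, BoxW c Z b (Rs Z.x (Z.x a, false)) (Rs Z.x (Z.x a, false))
      (emb (lt a (c ^ n))) := by
    intro n
    induction n using Int.induction_on with
    | zero => simpa using h2 false
    | succ n ih => rw [zpow_add_one, lt_mul, map_mul]; exact ih.trans h3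
    | pred n ih => rw [zpow_sub_one, lt_mul, lt_inv, map_mul, map_inv]; exact ih.trans h3.symm
  obtain ⟨n, rfl⟩ := hg x
  simpa using ((h2 s).symm.trans (h4 n)).trans (h2 t)

theorem touch_ex (hZ : Z.Gen) (hg : ∀ x : C, ∃ n : ℤ, x = c ^ n) {a : L} (hp : (P.u p).1 = Z.x a)
    (x : C) (t : Bool) (w' : Mk) : ∃ q, P.Touch a x p q ∧ (P.u q).2 = t ∧ P.w q = w' := by
  have h := touch_box (b := ⟨Z.x a, Z.x a, Z.y a, Z.y a⟩) (a := a) hg hZ
    ⟨le_rfl, le_rfl, le_rfl, le_rfl⟩ x (P.u p).2 t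
  rw [show ((Z.x a, (P.u p).2) : Mk) = P.u p from Prod.ext hp.symm rfl] at h
  obtain ⟨q, h1, h2, h3⟩ := ex_of_box (P := P) hZ p h w'
  exact ⟨q, ⟨hp, by rw [h2], h1⟩, by rw [h2], h3⟩

theorem Touch.box (hZ : Z.Gen) (hg : ∀ x : C, ∃ n : ℤ, x = c ^ n) {a : L} {x : C}
    (h : P.Touch a x p q) (ha : a ∈ Z.bl b) (hp : P.In b p) (hq : P.In b q) : P.Box b p q := by
  refine ⟨hp, hq, ?_⟩
  have h1 := touch_box hg hZ ha x (P.u p).2 (P.u q).2
  rw [show ((Z.x a, (P.u p).2) : Mk) = P.u p from Prod.ext h.1.symm rfl,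
    show ((Z.x a, (P.u q).2) : Mk) = P.u q from Prod.ext h.2.1.symm rfl] at h1
  rw [h.2.2, inv_mul_cancel_left]
  exact h1

/-- A touch between points at the level of the touched label has no vertical length. -/
theorem Touch.dh (hZ : Z.Gen) (_hc : c ≠ 1) (hg : ∀ x : C, ∃ n : ℤ, x = c ^ n) {a : L} {x : C}
    (h : P.Touch a x p q) (hp : (P.w p).1 = Z.y a) (hq : (P.w q).1 = Z.y a) : P.dh p q = 0 := by
  have h1 := (h.box (b := ⟨Z.x a, Z.x a, Z.y a, Z.y a⟩) hZ hg ⟨le_rfl, le_rfl, le_rfl, le_rfl⟩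
    ⟨h.1.ge, h.1.le, hp.ge, hp.le⟩ ⟨h.2.1.ge, h.2.1.le, hq.ge, hq.le⟩).tr
  have h2 := h1.dv_eq (S := {a}) (fun l hl => by
    simpa using hZ.2 (le_antisymm hl.2.1 hl.1))
  change P.tr.dv p q = 0
  rw [h2, dT_eq_zero]
  refine ⟨hq.trans hp.symm, fun l hl => ?_⟩
  have : l = a := by simpa using sup_mul (sup_inv (sup_pj {a} _)) (sup_pj {a} _) l hl
  rw [this]; exact hp.symm

theorem hor (P : Plan c Z Q) (_hc : c ≠ 1) (q : Q) (T : ℝ) (hT : 0 ≤ T) :
    ∃ qm qp, P.dh q qm = 0 ∧ P.dh q qp = 0 ∧ P.dv q qm = T ∧ P.dv q qp = T ∧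
      P.dv qm qp = 2 * T := by
  obtain ⟨qm, a1, a2⟩ := P.ex_mh q ((P.u q).1 - T, false)
  obtain ⟨qp, b1, b2⟩ := P.ex_mh q ((P.u q).1 + T, false)
  refine ⟨qm, qp, P.dh_mh a1, P.dh_mh b1, ?_, ?_, ?_⟩
  · rw [P.dv_mh a1, a2]; simpa using hT
  · rw [P.dv_mh b1, b2]; simpa using hT
  · rw [P.dv_mh (a1.symm.trans b1), a2, b2, abs_of_nonneg (by simp only; linarith)]
    simp only; ring

theorem cusp_at (P : Plan c Z Q) (_hc : c ≠ 1) (q : Q) (a : L) :
    ∃ r, P.Cusp a r ∧ P.dv q r = |Z.x a - (P.u q).1| ∧ P.dh q r = |Z.y a - (P.w q).1| := by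
  obtain ⟨q1, a1, a2⟩ := P.ex_mh q (Z.x a, false)
  obtain ⟨r, b1, b2⟩ := P.ex_mv q1 (Z.y a, false)
  refine ⟨r, ⟨b1.2.symm.trans a2, b2⟩, ?_, ?_⟩
  · rw [P.pv.symm, ← congr_HypBi P.pv (P.dv_mv b1), P.pv.symm, P.dv_mh a1, a2]
  · rw [congr_HypBi P.ph (P.dh_mh a1), P.dh_mv b1, b2, a1.2]

end Plan

end Pool.Agent.E5f

end

section

/-!
Common geodesics of a planar model.
-/

set_option autoImplicit false

namespace Pool.Agent.E5f

open Filter Classical

/-- The possible values of the distance to a level in a countable set form a countable set. -/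
theorem countable_dT {L C : Type} [CommGroup C] (ρ : L → ℝ) (S : Finset L) (a : ℝ) {T : Set ℝ}
    (hT : T.Countable) : ∃ B : Set ℝ, B.Countable ∧ ∀ (g : W L C) (t : ℝ), Sup (S : Set L) g →
      t ∈ T → dT ρ a g t ∈ B := by
  haveI := hT.to_subtype
  refine ⟨Set.range (fun z : List S × T => Var (a :: (z.1.map Subtype.val).map ρ ++ [z.2.1])),
    Set.countable_range _, fun g t hg ht => ?_⟩
  obtain ⟨l, hl⟩ : ∃ l : List S, l.map Subtype.val = lab g :=
    ⟨(lab g).pmap Subtype.mk hg, by simp [List.map_pmap]⟩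
  exact ⟨(l, ⟨t, ht⟩), by simp only [hl]; rfl⟩

namespace Plan
variable {L C : Type} [CommGroup C] {c : C} {Z : Cfg L} {Q : Type} (P : Plan c Z Q)

theorem seq_of_list : ∀ (l : List Q) (p : Q), (p :: l).IsChain P.Mv →
    ∃ s : ℕ → Q, s 0 = p ∧ s l.length = (p :: l).getLast (List.cons_ne_nil _ _) ∧
      P.Chain s l.length ∧ P.lenV s l.length = wlen P.dv (p :: l) ∧
      P.lenH s l.length = wlen P.dh (p :: l)
  | [], p, _ => ⟨fun _ => p, rfl, rfl, fun _ h => absurd h (Nat.not_lt_zero _),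
      by simp [lenV], by simp [lenH]⟩
  | a :: l, p, h => by
    rw [List.isChain_cons_cons] at h
    obtain ⟨s, h0, h1, h2, h3, h4⟩ := seq_of_list l a h.2
    refine ⟨fun i => Nat.casesOn i p s, rfl, by rw [List.getLast_cons_cons]; exact h1, ?_, ?_, ?_⟩
    · intro i hi
      cases i with
      | zero => change P.Mv p (s 0); rw [h0]; exact h.1
      | succ i => exact h2 i (Nat.lt_of_succ_lt_succ hi)
    · rw [wlen_cons2, ← h3, P.dv_move h.1, ← h0]
      unfold lenV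
      rw [List.length_cons, Finset.sum_range_succ', add_comm]
      rfl
    · rw [wlen_cons2, ← h4, P.dh_move h.1, ← h0]
      unfold lenH
      rw [List.length_cons, Finset.sum_range_succ', add_comm]
      rfl

theorem geo (hZ : Z.Gen) (_hc : c ≠ 1) (p q : Q) :
    ∃ (s : ℕ → Q) (n : ℕ), s 0 = p ∧ s n = q ∧ P.Chain s n ∧ P.lenV s n = P.dv p q ∧
      P.lenH s n = P.dh p q := by
  obtain ⟨l, e1, e2, e3, e4⟩ := P.geo_list hZ p q
  obtain ⟨s, h0, h1, h2, h3, h4⟩ := P.seq_of_list l p e1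
  exact ⟨s, _, h0, h1.trans e2, h2, h3.trans e3, h4.trans e4⟩

theorem biTree (hZ : Z.Gen) (_hc : c ≠ 1) : BiTree P.dv P.dh := P.biTree' hZ

theorem box_dist (hZ : Z.Gen) (_hc : c ≠ 1) (p q : Q) :
    P.Box ⟨(P.u p).1 - P.dv p q, (P.u p).1 + P.dv p q, (P.w p).1 - P.dh p q,
      (P.w p).1 + P.dh p q⟩ p q := (P.rch_dist hZ p q le_rfl le_rfl).box

/-- Between any two parameters there is a point of a common geodesic at a generic level. -/
theorem geo_gen (hZ : Z.Gen) (_hc : c ≠ 1) (p q : Q) {T : Set ℝ} (hT : T.Countable) {α β : ℝ}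
    (h0 : 0 ≤ α) (h1 : α < β) (h2 : β ≤ P.dh p q) :
    ∃ r, Btw P.dv P.dh p r q ∧ α < P.dh p r ∧ P.dh p r < β ∧ (P.w r).1 ∉ T := by
  set b := (P.pt p).grow (P.dv p q) (P.dh p q)
  obtain ⟨B, hB, hB'⟩ := countable_dT (C := C) Z.y (Z.bl_fin b).toFinset (P.w p).1 hT
  obtain ⟨s, hs, hs1, hs2⟩ := (hB.dense_compl ℝ).exists_between h1
  obtain ⟨r, e1, e2⟩ := geoH_HypBi (P.biTree' hZ) p q (s := s) (by linarith) (by linarith)
  refine ⟨r, e1, e2 ▸ hs1, e2 ▸ hs2, fun ht => hs ?_⟩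
  have hr : P.Rch b p r := P.rch_dist hZ p r (by linarith [e1.1, P.pv.nn r q])
    (by linarith [e1.2, P.ph.nn r q])
  have e3 := hr.tr.box.dv_eq (S := (Z.bl_fin b).toFinset) (by rw [Z.bl_tr]; simp)
  rw [← e2]
  change P.tr.dv p r ∈ B
  rw [e3]
  exact hB' _ _ (sup_mul (sup_inv (sup_pj _ _)) (sup_pj _ _)) ht

end Plan

end Pool.Agent.E5f

end

section

/-!
Balls of a planar model: bounded words, finiteness, chains of cusps.
-/

set_option autoImplicit false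

namespace Pool.Agent.E5f

open Filter Classical

theorem exists_gap {L : Type} (ρ : L → ℝ) (S : Finset L) (h : Set.InjOn ρ S) :
    ∃ δ : ℝ, 0 < δ ∧ ∀ l ∈ S, ∀ l' ∈ S, l ≠ l' → δ ≤ |ρ l' - ρ l| := by
  rcases ((S ×ˢ S).filter (fun e : L × L => e.1 ≠ e.2)).eq_empty_or_nonempty with he | he
  · refine ⟨1, one_pos, fun l hl l' hl' hne => ?_⟩
    have : (l, l') ∈ (S ×ˢ S).filter (fun e : L × L => e.1 ≠ e.2) := by simp [hl, hl', hne]
    rw [he] at this
    exact absurd this (Finset.notMem_empty _)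
  · obtain ⟨e, h1, h2⟩ := Finset.exists_min_image _ (fun e : L × L => |ρ e.2 - ρ e.1|) he
    simp only [Finset.mem_filter, Finset.mem_product] at h1
    refine ⟨_, abs_pos.2 (sub_ne_zero.2 fun h3 => h1.2 (h h1.1.2 h1.1.1 h3).symm),
      fun l hl l' hl' hne => h2 (l, l') (by simp [hl, hl', hne])⟩

theorem len_le {L C : Type} [CommGroup C] (ρ : L → ℝ) (S : Finset L) (h : Set.InjOn ρ S)
    (T : ℝ) : ∃ N : ℕ, ∀ (g : W L C) (a b : ℝ), Sup (S : Set L) g → dT ρ a g b ≤ T →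
      (wd g).length ≤ N := by
  obtain ⟨δ, h0, h1⟩ := exists_gap ρ S h
  have key : ∀ (b : ℝ) (w : List (L × C)) (e : L × C), Red (e :: w) → (∀ z ∈ e :: w, z.1 ∈ S) →
      δ * w.length ≤ Var (ρ e.1 :: w.map (fun z => ρ z.1) ++ [b]) := by
    intro b w
    induction w with
    | nil => intro e _ _; simpa using Var_nonneg _
    | cons z w ih =>
      intro e hr hs
      have e1 := ih z hr.tail (fun y hy => hs y (List.mem_cons_of_mem _ hy))
      have e2 := h1 e.1 (hs e (by simp)) z.1 (hs z (by simp)) (List.isChain_cons_cons.1 hr.2).1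
      simp only [List.map_cons, List.cons_append, Var_cons2, List.length_cons, Nat.cast_add,
        Nat.cast_one] at e1 ⊢
      linarith
  refine ⟨⌈T / δ⌉₊ + 1, fun g a b hg hT => ?_⟩
  have hr := red_wd g
  rw [dT_wd] at hT
  have hs : ∀ z ∈ wd g, z.1 ∈ S := fun z hz => hg z.1 (List.mem_map_of_mem hz)
  cases hw : wd g with
  | nil => simp
  | cons e w =>
    rw [hw] at hr hs hT
    have e1 := key b w e hr hs
    simp only [List.map_cons, List.cons_append, Var_cons2] at hT e1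
    have e2 : (w.length : ℝ) ≤ T / δ := by
      rw [le_div_iff₀' h0]
      linarith [abs_nonneg (ρ e.1 - a)]
    have e3 : w.length ≤ ⌈T / δ⌉₊ := by exact_mod_cast e2.trans (Nat.le_ceil _)
    simpa using e3

theorem words_fin {L C : Type} [CommGroup C] [Finite C] (S : Finset L) (N : ℕ) :
    {g : W L C | Sup (S : Set L) g ∧ (wd g).length ≤ N}.Finite := by
  refine ((List.finite_length_le (S × C) N).image
    (fun w => ev (w.map (fun e => (e.1.1, e.2))))).subset ?_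
  rintro g ⟨h1, h2⟩
  refine ⟨(wd g).pmap (fun e he => (⟨e.1, he⟩, e.2))
    (fun e he => h1 e.1 (List.mem_map_of_mem he)), by simpa using h2, ?_⟩
  simp only [List.map_pmap]
  rw [List.pmap_eq_map]
  simpa using ev_wd g

namespace Plan
variable {L C : Type} [CommGroup C] {c : C} {Z : Cfg L} {Q : Type} (P : Plan c Z Q)

/-- Words to the points of a ball have boundedly many letters. -/
theorem ball_words (hZ : Z.Gen) (_hc : c ≠ 1) (p : Q) (T : ℝ) :
    ∃ (b : Bx) (S : Finset L) (N : ℕ), (S : Set L) = Z.bl b ∧ ∀ q, P.dv p q + P.dh p q ≤ T →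
      P.Box b p q ∧ (wd ((pj S (P.g p))⁻¹ * pj S (P.g q))).length ≤ N := by
  obtain ⟨N, hN⟩ := len_le (C := C) Z.x (Z.bl_fin ((P.pt p).grow T T)).toFinset hZ.1.injOn T
  refine ⟨(P.pt p).grow T T, _, N, Set.Finite.coe_toFinset (Z.bl_fin _), fun q hq => ?_⟩
  have h1 := P.pv.nn p q
  have h2 := P.ph.nn p q
  have hb := (P.rch_dist hZ p q (A := T) (B := T) (by linarith) (by linarith)).box
  refine ⟨hb, hN _ (P.u p).1 (P.u q).1 (sup_mul (sup_inv (sup_pj _ _)) (sup_pj _ _)) ?_⟩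
  rw [← hb.dv_eq (by simp)]
  linarith

/-- For a finite group of letters a ball contains finitely many points adjacent to labels. -/
theorem ball_fin [Finite C] (hZ : Z.Gen) (hc : c ≠ 1) (p : Q) (T : ℝ) :
    {q | P.dv p q + P.dh p q ≤ T ∧
      ∃ l, P.u q = (Z.x l, true) ∧ P.w q = (Z.y l, true)}.Finite := by
  obtain ⟨b, S, N, hS, h⟩ := P.ball_words hZ hc p T
  refine Set.Finite.of_finite_image
    (f := fun q => ((P.u q, P.w q), (pj S (P.g p))⁻¹ * pj S (P.g q))) ?_ ?_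
  · refine (((S.finite_toSet.image
      (fun l => (((Z.x l, true), (Z.y l, true)) : Mk × Mk))).prod (words_fin S N))).subset ?_
    rintro _ ⟨q, ⟨h1, l, h2, h3⟩, rfl⟩
    refine ⟨⟨l, ?_, Prod.ext h2.symm h3.symm⟩,
      sup_mul (sup_inv (sup_pj _ _)) (sup_pj _ _), (h q h1).2⟩
    have := (h q h1).1.2.1
    rw [h2, h3] at this
    rw [hS]; exact this
  · rintro q ⟨h1, -⟩ q' ⟨h1', -⟩ he
    simp only [Prod.mk.injEq, mul_right_inj] at he
    exact P.ext _ _ (P.g_eq_of_box hS.ge ((h q h1).1.symm.trans (h q' h1').1) he.1.1 he.2)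
      he.1.1 he.1.2

theorem Step.box {b : Bx} {D : Set L} {p q : Q} (h : P.Step D p q) (hD : InB Z.y b.y0 b.y1 D)
    (hp : P.In b p) (hq : P.In b q) : P.Box b p q := by
  refine ⟨hp, hq, ?_⟩
  rw [h.2, inv_mul_cancel_left]
  exact BoxW.single (P.up_R p) hp.inB (P.up_R q) hq.inB hD

theorem Cusp.in {b : Bx} {a : L} {r : Q} (h : P.Cusp a r) (ha : a ∈ Z.bl b) : P.In b r := by
  unfold In
  rw [h.1, h.2]; exact ha

theorem Step.pj_top {b : Bx} {S : Finset L} (hS : (S : Set L) = Z.bl b) {p q : Q}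
    (h : P.Step {l | b.y1 < Z.y l} p q) : pj S (P.g q) = pj S (P.g p) := by
  have e : ∀ R : Set L, cut S (R ∩ {l | b.y1 < Z.y l}) = ∅ := by
    intro R
    ext l
    simp only [mem_cut, Finset.notMem_empty, iff_false]
    rintro ⟨h1, -, h2⟩
    have : l ∈ Z.bl b := hS ▸ h1
    exact absurd this.2.2.2 (not_le.2 h2)
  rw [h.2, map_mul, pj_stp, e, e, mul_inv_cancel, mul_one]

theorem elem_aux (hZ : Z.Gen) (hg : ∀ x : C, ∃ n : ℤ, x = c ^ n) {b : Bx} {S : Finset L}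
    (hS : (S : Set L) = Z.bl b) {a : L} {r : Q} (hr : P.Cusp a r) (ha : a ∈ S) :
    ∀ (w : List (L × C)) (a0 : L) (x0 : C) (t0 : Q), (∀ e ∈ w, e.1 ∈ S) → a0 ∈ S →
      P.Cusp a0 t0 → P.Box b t0 r → pj S (P.g r) = pj S (P.g t0) * lt a0 x0 * ev w →
      ∃ s : ℕ → L × Q, s 0 = (a0, t0) ∧ s (w.length + 1) = (a, r) ∧ ∀ i < w.length + 1,
        ((s (i + 1)).1 ∈ S ∧ P.Cusp (s (i + 1)).1 (s (i + 1)).2) ∧ ∃ x t', P.Cusp (s i).1 t' ∧
          P.Touch (s i).1 x (s i).2 t' ∧ P.Step {l | b.y1 < Z.y l} t' (s (i + 1)).2 := by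
  have stage : ∀ (a0 : L) (x0 : C) (t0 : Q) (a1 : L), a0 ∈ S → a1 ∈ S → P.Cusp a0 t0 →
      P.Box b t0 r → ∃ t' t1, P.Cusp a0 t' ∧ P.Touch a0 x0 t0 t' ∧
        P.Step {l | b.y1 < Z.y l} t' t1 ∧ P.Cusp a1 t1 ∧ P.Box b t1 r ∧
        pj S (P.g t1) = pj S (P.g t0) * lt a0 x0 := by
    intro a0 x0 t0 a1 h0 h1 h2 h3
    have hD : InB Z.y b.y0 b.y1 {l | b.y1 < Z.y l} := fun l => ⟨id, fun k k' =>
      absurd (k.le.trans (h3.1.2.2.1.trans h3.1.2.2.2)) (not_le.2 k')⟩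
    have b0 : a0 ∈ Z.bl b := hS ▸ h0
    have b1 : a1 ∈ Z.bl b := hS ▸ h1
    obtain ⟨t', e1, e2, e3⟩ := touch_ex (P := P) hZ hg (by rw [h2.1]) x0 false (Z.y a0, false)
    have c1 : P.Cusp a0 t' := ⟨Prod.ext e1.2.1 e2, e3⟩
    obtain ⟨t1, f1, f2, f3⟩ := step_ex (P := P) hZ t' ⟨_, _, hD⟩ (Z.x a1, false) (Z.y a1, false)
    have c2 : P.Cusp a1 t1 := ⟨f2, f3⟩
    refine ⟨t', t1, c1, e1, f1, c2, ?_, ?_⟩
    · exact ((e1.box hZ hg b0 h3.1 (c1.in P b0)).trans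
        (f1.box P hD (c1.in P b0) (c2.in P b1))).symm.trans h3
    · rw [f1.pj_top P hS, e1.2.2, map_mul, pj_emb_lt h0]
  intro w
  induction w with
  | nil =>
    intro a0 x0 t0 _ h0 h1 h2 h3
    obtain ⟨t', t1, e1, e2, e3, e4, e5, e6⟩ := stage a0 x0 t0 a h0 ha h1 h2
    have hu : P.u t1 = P.u r := e4.1.trans hr.1.symm
    have : t1 = r := P.ext _ _ (P.g_eq_of_box hS.ge e5 hu (by rw [e6, h3]; simp)) hu
      (e4.2.trans hr.2.symm)
    subst this
    refine ⟨fun i => Nat.casesOn i (a0, t0) (fun _ => (a, t1)), rfl, rfl, fun i hi => ?_⟩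
    have : i = 0 := by simpa using hi
    subst this
    exact ⟨⟨ha, hr⟩, x0, t', e1, e2, e3⟩
  | cons e w ih =>
    intro a0 x0 t0 hw h0 h1 h2 h3
    have he : e.1 ∈ S := hw e (by simp)
    obtain ⟨t', t1, e1, e2, e3, e4, e5, e6⟩ := stage a0 x0 t0 e.1 h0 he h1 h2
    obtain ⟨s, s0, s1, s2⟩ := ih e.1 e.2 t1 (fun z hz => hw z (List.mem_cons_of_mem _ hz)) he e4 e5
      (by rw [h3, e6, ev_cons]; simp only [mul_assoc])
    refine ⟨fun i => Nat.casesOn i (a0, t0) s, rfl, s1, fun i hi => ?_⟩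
    cases i with
    | zero =>
      change ((s 0).1 ∈ S ∧ P.Cusp (s 0).1 (s 0).2) ∧ ∃ x t', P.Cusp a0 t' ∧ P.Touch a0 x t0 t' ∧
        P.Step _ t' (s 0).2
      rw [s0]
      exact ⟨⟨he, e4⟩, x0, t', e1, e2, e3⟩
    | succ i => exact s2 i (Nat.lt_of_succ_lt_succ hi)

/-- Cusps in a ball are reached by boundedly many touches and top level steps. -/
theorem elem (hZ : Z.Gen) (hc : c ≠ 1) (hg : ∀ x : C, ∃ n : ℤ, x = c ^ n) {a0 : L} {r0 : Q}
    (h0 : P.Cusp a0 r0) (T : ℝ) :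
    ∃ (S : Finset L) (N : ℕ) (y1 : ℝ), ∀ a r, P.Cusp a r → P.dv r0 r + P.dh r0 r ≤ T →
      ∃ n ≤ N, ∃ (t t' : ℕ → Q) (e : ℕ → L) (x : ℕ → C), t 0 = r0 ∧ t n = r ∧
        (∀ i ≤ n, e i ∈ S ∧ P.Cusp (e i) (t i)) ∧
        ∀ i < n, P.Cusp (e i) (t' i) ∧ P.Touch (e i) (x i) (t i) (t' i) ∧
          P.Step {l | y1 < Z.y l} (t' i) (t (i + 1)) := by
  obtain ⟨b, S, N, hS, h⟩ := P.ball_words hZ hc r0 T
  refine ⟨S, N + 1, b.y1, fun a r hr hT => ?_⟩
  obtain ⟨h1, h2⟩ := h r hT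
  have mem : ∀ {a : L} {r : Q}, P.Cusp a r → P.In b r → a ∈ S := by
    intro a r k1 k2
    unfold In at k2
    rw [k1.1, k1.2] at k2
    have : a ∈ (S : Set L) := by rw [hS]; exact k2
    exact this
  have ha0 := mem h0 h1.1
  obtain ⟨s, s0, s1, s2⟩ := P.elem_aux hZ hg hS hr (mem hr h1.2.1)
    (wd ((pj S (P.g r0))⁻¹ * pj S (P.g r))) a0 1 r0
    (fun e he => sup_mul (sup_inv (sup_pj S _)) (sup_pj S _) e.1 (List.mem_map_of_mem he))
    ha0 h0 h1 (by rw [ev_wd]; simp)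
  haveI : Nonempty Q := ⟨r0⟩
  choose! x t' hx using fun i hi => (s2 i hi).2
  refine ⟨_, Nat.succ_le_succ h2, fun i => (s i).2, t', fun i => (s i).1, x,
    congrArg Prod.snd s0, congrArg Prod.snd s1, fun i hi => ?_, hx⟩
  cases i with
  | zero => simp only [s0]; exact ⟨ha0, h0⟩
  | succ i => exact (s2 i hi).1

end Plan

end Pool.Agent.E5f

end

section

/-!
Winding indices at a cusp and rays in a strip.
-/

set_option autoImplicit false

namespace Pool.Agent.E5f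

open Filter Classical

section words
variable {L C : Type} [CommGroup C]

theorem hd_of_wd {g : W L C} {e : L × C} {t : List (L × C)} (h : wd g = e :: t) (a : L) :
    hd a g = if e.1 = a then e.2 else 1 := by unfold hd; rw [h]

theorem hd_one (a : L) : hd a (1 : W L C) = 1 := by unfold hd; rw [wd_one]

theorem hd_lt (a : L) (x : C) : hd a (lt a x : W L C) = x := by
  by_cases hx : x = 1
  · rw [hx, lt_one, hd_one]
  · rw [hd_of_wd (wd_lt a hx), if_pos rfl]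

theorem hd_lt_ne {a l : L} (h : l ≠ a) (x : C) : hd a (lt l x : W L C) = 1 := by
  by_cases hx : x = 1
  · rw [hx, lt_one, hd_one]
  · rw [hd_of_wd (wd_lt l hx), if_neg h]

theorem dT_lt_self (ρ : L → ℝ) (a : L) (x : C) : dT ρ (ρ a) (lt a x : W L C) (ρ a) = 0 := by
  by_cases hx : x = 1
  · rw [hx]; simp
  · rw [dT_lt _ _ _ _ hx]; simp

/-- Different initial exponents: the geodesic passes through the vertex. -/
theorem dT_of_hd_ne (ρ : L → ℝ) {a : L} {g h : W L C} (hne : hd a g ≠ hd a h) (s t : ℝ) :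
    dT ρ s (g⁻¹ * h) t = dT ρ (ρ a) g s + dT ρ (ρ a) h t := by
  have h1 : ∀ e ∈ (wd g).head?, ∀ e' ∈ (wd h).head?, e ≠ e' := by
    intro e he e' he' hee
    subst hee
    apply hne
    cases hg : wd g with
    | nil => rw [hg] at he; simp at he
    | cons x u =>
      cases hh : wd h with
      | nil => rw [hh] at he'; simp at he'
      | cons y v =>
        rw [hg] at he; rw [hh] at he'
        simp only [List.head?_cons, Option.mem_def, Option.some.injEq] at he he'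
        rw [hd_of_wd hg, hd_of_wd hh, he, he']
  have key : ∀ (g : W L C) (s : ℝ), hd a g ≠ 1 → fe ρ (wd g) s = ρ a := by
    intro g s hg
    cases hw : wd g with
    | nil => rw [wd_eq_nil hw, hd_one] at hg; exact absurd rfl hg
    | cons x u =>
      rw [hd_of_wd hw] at hg
      by_cases h2 : x.1 = a
      · simp [fe, h2]
      · rw [if_neg h2] at hg; exact absurd rfl hg
  have h2 := gT_diff ρ (ρ a) s t h1
  unfold gT at h2
  by_cases h3 : hd a g = 1
  · rw [key h t (fun h4 => hne (h3.trans h4.symm)), abs_sub_comm (ρ a) (fe ρ (wd g) s)] at h2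
    simp only [sub_self, abs_zero] at h2
    linarith
  · rw [key g s h3] at h2
    simp only [sub_self, abs_zero] at h2
    linarith

theorem hd_mul_lt {a l : L} (v : W L C) (x : C) (h : ¬ (l = a ∧ ∃ y, v = lt a y)) :
    hd a (v * lt l x) = hd a v := by
  by_contra hne
  -- use positions which separate `a` from the other labels
  let ρ : L → ℝ := fun m => if m = a then 0 else 1
  have h1 := dT_of_hd_ne ρ (Ne.symm hne) (ρ l) (ρ l)
  rw [inv_mul_cancel_left, dT_lt_self] at h1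
  have h2 := dT_nonneg ρ (ρ a) v (ρ l)
  have h3 := dT_nonneg ρ (ρ a) (v * lt l x) (ρ l)
  have h4 := dT_eq_zero.1 (show dT ρ (ρ a) v (ρ l) = 0 by linarith)
  have h5 : ∀ m, ρ m = ρ a → m = a := by
    intro m hm
    by_contra h6
    simp [ρ, h6] at hm
  exact h ⟨h5 l h4.1, sup_single (fun m hm => h5 m (h4.2 m hm))⟩

end words

theorem chain_first {X Y : Type} {R : X → X → Prop} {P : X → Prop} {f : X → Y}
    (h : ∀ x y, R x y → ¬ P x → f y = f x) : ∀ (l : List X) (a : X), (a :: l).IsChain R →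
    (∀ y ∈ a :: l, f y = f a) ∨ ∃ s x t, a :: l = s ++ x :: t ∧ P x ∧ f x = f a
  | [], a, _ => Or.inl (by simp)
  | b :: l, a, hc => by
    rw [List.isChain_cons_cons] at hc
    by_cases hP : P a
    · exact Or.inr ⟨[], a, b :: l, rfl, hP, rfl⟩
    have e := h a b hc.1 hP
    rcases chain_first h l b hc.2 with h1 | ⟨s, x, t, h1, h2, h3⟩
    · left
      intro y hy
      rcases List.mem_cons.1 hy with rfl | hy
      · rfl
      · rw [h1 y hy, e]
    · exact Or.inr ⟨a :: s, x, t, by rw [h1]; rfl, h2, h3.trans e⟩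

theorem chain_last {X Y : Type} {R : X → X → Prop} {P : X → Prop} {f : X → Y}
    (h : ∀ x y, R x y → ¬ P y → f y = f x) : ∀ (l : List X) (a : X), (a :: l).IsChain R →
    f ((a :: l).getLast (List.cons_ne_nil _ _)) = f a ∨
      ∃ s x t, l = s ++ x :: t ∧ P x ∧ f ((a :: l).getLast (List.cons_ne_nil _ _)) = f x
  | [], a, _ => Or.inl rfl
  | b :: l, a, hc => by
    rw [List.isChain_cons_cons] at hc
    rw [List.getLast_cons_cons]
    rcases chain_last h l b hc.2 with h1 | ⟨s, x, t, h1, h2, h3⟩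
    · by_cases hP : P b
      · exact Or.inr ⟨[], b, l, rfl, hP, h1⟩
      · exact Or.inl (h1.trans (h a b hc.1 hP))
    · exact Or.inr ⟨b :: s, x, t, by rw [h1]; rfl, h2, h3⟩

section idx
variable {L C St : Type} [CommGroup C] {S : Finset L} {A B : Cd L C St}

/-- The states on the leaf of a vertex. -/
def OnV (A : Cd L C St) (a : L) (g0 : W L C) (s : St) : Prop :=
  (A.u s).1 = A.ρ a ∧ ∃ x, A.g s = g0 * lt a x

theorem PStp.hd_eq {a : L} {g0 : W L C} {s s' : St} (h : PStp S A B s s') (hs : ¬ OnV A a g0 s) :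
    hd a (g0⁻¹ * A.g s') = hd a (g0⁻¹ * A.g s) := by
  have key : ∀ l x, (A.u s).1 = A.ρ l → A.g s' = A.g s * lt l x →
      hd a (g0⁻¹ * A.g s') = hd a (g0⁻¹ * A.g s) := by
    intro l x h1 h2
    rw [h2, ← mul_assoc]
    refine hd_mul_lt _ _ ?_
    rintro ⟨rfl, y, hy⟩
    exact hs ⟨h1, y, by rw [← hy, mul_inv_cancel_left]⟩
  rcases h with h | h
  · rcases h.2.2 with h3 | ⟨l, hl, h3 | h3⟩
    · rw [h3.1]
    · exact key l _ (by rw [h3.1]) h3.2.2
    · exact key l (A.ex (rtP B.ρ (B.u s') l))⁻¹ (by rw [h3.2.1])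
        (by rw [h3.2.2, lt_inv, mul_inv_cancel_right])
  · rw [h.2.1]

theorem mk_eq_of_rtP {L : Type} {ρ : L → ℝ} {u u' : Mk} {a : L} (h1 : u.1 = ρ a) (h2 : u'.1 = ρ a)
    (h : rtP ρ u a ↔ rtP ρ u' a) : u = u' := by
  refine Prod.ext (h1.trans h2.symm) ?_
  unfold rtP at h
  rw [h1, h2] at h
  cases h3 : u.2 <;> cases h4 : u'.2 <;> simp_all

/-- A tight walk whose ends have indices that differ by more than one passage visits the level of
the label. -/
theorem idx_abs (hA : Set.InjOn A.ρ S) {p q : St} {w : List St} (hw : Wk S A B p q w)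
    (ht : wlen A.d w = A.d p q) {a : L} (ha : a ∈ S) (g0 : W L C)
    (h0 : hd a (g0⁻¹ * A.g q) ≠ hd a (g0⁻¹ * A.g p))
    (h1 : ∀ t, hd a (g0⁻¹ * A.g q) ≠ hd a (g0⁻¹ * A.g p) * A.ex t)
    (h2 : ∀ t, hd a (g0⁻¹ * A.g q) * A.ex t ≠ hd a (g0⁻¹ * A.g p)) :
    ∃ r ∈ w, OnV A a g0 r ∧ (B.u r).1 = B.ρ a := by
  obtain ⟨hc, e1, e2⟩ := hw
  cases w with
  | nil => simp at e1
  | cons p' l =>
  simp only [List.head?_cons, Option.some.injEq] at e1
  subst e1
  have e3 := e2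
  rw [List.getLast?_eq_some_getLast (List.cons_ne_nil _ _), Option.some.injEq] at e3
  rcases chain_first (P := OnV A a g0) (f := fun s => hd a (g0⁻¹ * A.g s))
    (fun x y k1 k2 => PStp.hd_eq k1 k2) l p' hc with k | ⟨s, x, t, k1, k2, k3⟩
  · exact absurd (k q (e3 ▸ List.getLast_mem _)) h0
  rw [k1] at hc e2 ht ⊢
  have hc1 : (x :: t).IsChain (PStp S A B) := hc.right_of_append
  have e4 : (x :: t).getLast (List.cons_ne_nil _ _) = q := by
    rw [List.getLast?_append, List.getLast?_eq_some_getLast (List.cons_ne_nil _ _)] at e2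
    simpa using e2
  rcases chain_last (P := OnV A a g0) (f := fun s => hd a (g0⁻¹ * A.g s))
    (fun x y k1 k2 => (PStp.hd_eq k1.symm k2).symm) t x hc1 with k | ⟨m, y, t', k4, k5, k6⟩
  · rw [e4] at k
    exact absurd (k.trans k3) h0
  rw [e4] at k6
  subst k4
  have pm := A.pm
  have hxy : A.d x y = 0 := by
    obtain ⟨x1, x2, x3⟩ := k2
    obtain ⟨y1, y2, y3⟩ := k5
    unfold Cd.d
    rw [x1, y1, x3, y3, show (g0 * lt a x2)⁻¹ * (g0 * lt a y2) = lt a (x2⁻¹ * y2) by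
      rw [lt_mul, lt_inv]; group]
    exact dT_lt_self _ _ _
  have hz : wlen A.d (x :: m ++ [y]) = 0 := by
    have f1 := wlen_split A.d s x (m ++ y :: t')
    have f2 := wlen_split A.d (x :: m) y t'
    have f3 : A.d p' x ≤ wlen A.d (s ++ [x]) := by
      cases s with
      | nil =>
        have : p' = x := by simpa using (List.cons.inj k1).1
        rw [this, pm.self]; simp
      | cons z s =>
        have : p' = z := by simpa using (List.cons.inj k1).1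
        rw [this]; exact le_wlen pm z s x
    have f4 := le_wlen' pm y t'
    have f5 : (y :: t').getLast (List.cons_ne_nil _ _) = q := by
      have e5 : s ++ x :: (m ++ y :: t') = (s ++ x :: m) ++ y :: t' := by simp
      rw [e5, List.getLast?_append, List.getLast?_eq_some_getLast (List.cons_ne_nil _ _)] at e2
      simpa using e2
    rw [f5] at f4
    have f6 := pm.tri p' x q
    have f7 := pm.tri x y q
    have f8 := wlen_nonneg pm (x :: m ++ [y])
    simp only [List.cons_append] at f2 f8 ⊢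
    linarith
  have hc2 : (x :: (m ++ [y])).IsChain (PStp S A B) := by
    have : x :: (m ++ y :: t') = (x :: (m ++ [y])) ++ t' := by simp
    rw [this] at hc1
    exact hc1.left_of_append
  by_contra hno
  push Not at hno
  have hsub : ∀ v ∈ x :: (m ++ [y]), v ∈ s ++ x :: (m ++ y :: t') := by
    intro v hv
    simp only [List.mem_append, List.mem_cons, List.not_mem_nil, or_false] at hv ⊢
    tauto
  let σ := rtP B.ρ (B.u x) a
  let φ : St → C := fun v => hd a (g0⁻¹ * A.g v) * (if (A.u v).2 = true then (A.ex σ)⁻¹ else 1)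
  have inv := chain_inv (P := fun v => OnV A a g0 v ∧ (rtP B.ρ (B.u v) a ↔ σ) ∧ φ v = φ x)
    (m ++ [y]) x (isChain_and hc2 (chain_of_wlen_zero pm _ hz)) ⟨k2, Iff.rfl, rfl⟩ (by
      rintro v hv v' - ⟨c1, c2⟩ ⟨⟨d1, z, d2⟩, d3, d4⟩
      have hu : (A.u v').1 = A.ρ a := by
        rw [← d1]; exact (dT_eq_zero.1 c2).1
      have same : A.g v' = A.g v → A.u v' = A.u v → (rtP B.ρ (B.u v') a ↔ σ) →
          OnV A a g0 v' ∧ (rtP B.ρ (B.u v') a ↔ σ) ∧ φ v' = φ x := by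
        intro g1 g2 g3
        refine ⟨⟨hu, z, g1.trans d2⟩, g3, ?_⟩
        rw [← d4]
        simp only [φ, g1, g2]
      rcases c1 with c1 | c1
      · have hσ : rtP B.ρ (B.u v') a ↔ σ := by rw [c1.1]; exact d3
        rcases c1.2.2 with c3 | ⟨l, hl, c3 | c3⟩
        · exact same c3.1 (mk_eq_of_rtP hu d1 (c3.2 a ha).symm) hσ
        · have : l = a := hA hl ha (by rw [← d1, c3.1])
          subst this
          have g1 : A.g v' = g0 * lt l (z * A.ex σ) := by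
            rw [c3.2.2, d2, propext d3, lt_mul, mul_assoc]
          refine ⟨⟨hu, _, g1⟩, hσ, ?_⟩
          rw [← d4]
          simp only [φ, g1, d2, c3.1, c3.2.1, inv_mul_cancel_left, hd_lt]
          simp
        · have : l = a := hA hl ha (by rw [← d1, c3.2.1])
          subst this
          have g1 : A.g v' = g0 * lt l (z * (A.ex σ)⁻¹) := by
            rw [lt_mul, lt_inv, ← mul_assoc, ← d2, c3.2.2, propext hσ, mul_inv_cancel_right]
          refine ⟨⟨hu, _, g1⟩, hσ, ?_⟩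
          rw [← d4]
          simp only [φ, g1, d2, c3.1, c3.2.1, inv_mul_cancel_left, hd_lt]
          simp
      · have hn := hno v (hsub v hv) ⟨d1, z, d2⟩
        refine same c1.2.1 c1.1 (Iff.trans ?_ d3)
        rcases c1.elm with c3 | ⟨l, -, c3, c4⟩
        · exact (c3 a ha).symm
        · exact (rtP_congr (c3.trans c4.symm) hn).symm) y (by simp)
  have fin := inv.2.2
  simp only [φ] at fin
  rw [← k6, k3] at fin
  cases g1 : (A.u y).2 <;> cases g2 : (A.u x).2 <;> simp only [g1, g2, if_true, mul_one,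
    Bool.false_eq_true, if_false] at fin
  · exact h0 fin
  · exact h2 σ (by rw [fin, inv_mul_cancel_right])
  · exact h1 σ (by rw [← fin, inv_mul_cancel_right])
  · exact h0 (mul_right_cancel fin)

end idx

theorem wlen_btw {X : Type} {d : X → X → ℝ} (hd : PM d) {p q r : X} {w : List X}
    (h1 : w.head? = some p) (h2 : w.getLast? = some q) (ht : wlen d w = d p q) (hr : r ∈ w) :
    d p r + d r q = d p q := by
  obtain ⟨s, t, rfl⟩ := List.append_of_mem hr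
  have f1 := wlen_split d s r t
  have f3 : d p r ≤ wlen d (s ++ [r]) := by
    cases s with
    | nil =>
      have : r = p := by simpa using h1
      rw [this, hd.self]; simp
    | cons z s =>
      have : z = p := by simpa using h1
      rw [← this]; exact le_wlen hd z s r
  have f4 := le_wlen' hd r t
  rw [List.getLast?_append, List.getLast?_eq_some_getLast (List.cons_ne_nil _ _)] at h2
  have f5 : (r :: t).getLast (List.cons_ne_nil _ _) = q := by simpa using h2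
  rw [f5] at f4
  have := hd.tri p r q
  linarith

namespace Plan
variable {L C : Type} [CommGroup C] {c : C} {Z : Cfg L} {Q : Type} (P : Plan c Z Q)

/-- The index of a point seen from a cusp. -/
def Ix (a : L) (κ p : Q) (e : C) : Prop :=
  ∀ᶠ S : Finset L in atTop, hd a ((pj S (P.g κ))⁻¹ * pj S (P.g p)) = e

theorem ix_of_box (hZ : Z.Gen) (hc : c ≠ 1) {a : L} {κ p : Q} (hκ : P.Cusp a κ) {b : Bx}
    (h : P.Box b κ p) {S : Finset L} (hS : Z.bl b ⊆ S) :
    P.Ix a κ p (hd a ((pj S (P.g κ))⁻¹ * pj S (P.g p))) := by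
  have ha : a ∈ Z.bl b := by
    have := h.1
    rwa [hκ.1, hκ.2] at this
  refine (eventually_ge_atTop S).mono (fun S' hS' => ?_)
  rw [← map_inv, ← map_mul, ← map_inv, ← map_mul]
  refine h.2.2.hd_eq hc (fun ν hν => ?_) hS (hS ha) S' hS'
  unfold R
  rw [hκ.1, Z.X_iff hZ.1]
  exact ⟨fun k => k.elim id (fun k => absurd (hZ.1 k.1).symm hν), Or.inl⟩

theorem ix_ex (hZ : Z.Gen) (hc : c ≠ 1) {a : L} {κ : Q} (hκ : P.Cusp a κ) (p : Q) :
    ∃ e, P.Ix a κ p e := by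
  obtain ⟨b, hb⟩ := P.box_ex κ p
  exact ⟨_, P.ix_of_box hZ hc hκ hb (S := (Z.bl_fin b).toFinset) (by simp)⟩

theorem Ix.unique {a : L} {κ p : Q} {e e' : C} (h : P.Ix a κ p e) (h' : P.Ix a κ p e') :
    e = e' := by
  obtain ⟨S, h1, h2⟩ := (Filter.Eventually.and h h').exists
  exact h1.symm.trans h2

theorem dv_of_ix {a : L} {κ p q : Q} (hκ : P.Cusp a κ) {e e' : C} (h : P.Ix a κ p e)
    (h' : P.Ix a κ q e') (hne : e ≠ e') : P.dv p q = P.dv κ p + P.dv κ q := by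
  obtain ⟨S, ⟨h1, h2⟩, h3, h4, h5⟩ := ((Filter.Eventually.and h h').and ((P.dv_ev' p q).and
    ((P.dv_ev' κ p).and (P.dv_ev' κ q)))).exists
  rw [h3, h4, h5]
  unfold dL
  simp only [hκ.1]
  rw [← dT_of_hd_ne Z.x (by rw [h1, h2]; exact hne)]
  congr 1
  group

theorem cd_ex (S : Finset L) (T : Set Q) (t : Prop) : (P.cd S T).ex t = c ∨ (P.cd S T).ex t = 1 := by
  unfold cd
  simp only
  split_ifs
  · exact Or.inl rfl
  · exact Or.inr rfl

theorem idx_pt (hZ : Z.Gen) {a : L} {κ : Q} {b : Bx} {S : Finset L}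
    (hS : ∀ l, l ∈ S ↔ l ∈ Z.bl b) (ha : a ∈ S) (s t : P.rs b κ) (g0 : W L C)
    (h0 : hd a (g0⁻¹ * pj S (P.g t)) ≠ hd a (g0⁻¹ * pj S (P.g s)))
    (h1 : hd a (g0⁻¹ * pj S (P.g t)) ≠ hd a (g0⁻¹ * pj S (P.g s)) * c)
    (h2 : hd a (g0⁻¹ * pj S (P.g t)) * c ≠ hd a (g0⁻¹ * pj S (P.g s))) :
    ∃ r : P.rs b κ, (P.u r).1 = Z.x a ∧ (P.w r).1 = Z.y a ∧ (∃ x, pj S (P.g r) = g0 * lt a x) ∧
      P.dv s r + P.dv r t = P.dv s t ∧ P.dh s r + P.dh r t = P.dh s t := by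
  have hS' : Z.bl b ⊆ S := fun l hl => (hS l).2 hl
  obtain ⟨w, hw, t1, t2⟩ := P.tight_wk hZ hS s t
  have hA : Set.InjOn (P.cd S (P.rs b κ)).ρ S := hZ.1.injOn
  obtain ⟨r, r1, ⟨r2, r3⟩, r4⟩ := idx_abs hA hw t1 ha g0 h0
    (fun u => by
      rcases P.cd_ex S (P.rs b κ) u with k | k <;> rw [k]
      · exact h1
      · rw [mul_one]; exact h0)
    (fun u => by
      rcases P.cd_ex S (P.rs b κ) u with k | k <;> rw [k]
      · exact h2
      · rw [mul_one]; exact h0)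
  have b1 := wlen_btw (Cd.pm _) hw.2.1 hw.2.2 t1 r1
  have b2 := wlen_btw (Cd.pm _) hw.2.1 hw.2.2 t2 r1
  rw [P.cd_d hS' rfl] at b1
  rw [P.tr.cd_d (b := b.tr) (by rwa [Z.bl_tr]) (P.rs_tr b κ).symm] at b2
  exact ⟨r, r2, r4, r3, b1, b2⟩

theorem idx (hZ : Z.Gen) (hc : c ≠ 1) (hg : ∀ x : C, ∃ n : ℤ, x = c ^ n) {a : L} {κ p q : Q}
    (hκ : P.Cusp a κ) {e e' : C} (h : P.Ix a κ p e) (h' : P.Ix a κ q e') (h0 : e' ≠ e)
    (h1 : e' ≠ e * c) (h2 : e' * c ≠ e) : Btw P.dv P.dh p κ q := by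
  obtain ⟨b, hp, hq⟩ := P.exists_rch2 κ p q
  obtain ⟨S, hS⟩ : ∃ S : Finset L, ∀ l, l ∈ S ↔ l ∈ Z.bl b :=
    ⟨(Z.bl_fin b).toFinset, fun l => Set.Finite.mem_toFinset _⟩
  have hS' : Z.bl b ⊆ S := fun l hl => (hS l).2 hl
  have ha : a ∈ Z.bl b := by
    have := hp.1
    unfold In at this
    rwa [hκ.1, hκ.2] at this
  have e1 := (P.ix_of_box hZ hc hκ hp.box hS').unique P h
  have e2 := (P.ix_of_box hZ hc hκ hq.box hS').unique P h'
  obtain ⟨⟨r, hr⟩, r2, r4, ⟨x, r3⟩, b1, b2⟩ := P.idx_pt hZ hS (hS' ha) ⟨p, hp⟩ ⟨q, hq⟩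
    (pj S (P.g κ)) (by rw [e1, e2]; exact h0) (by rw [e1, e2]; exact h1)
    (by rw [e1, e2]; exact h2)
  simp only at r2 r3 r4 b1 b2
  have tch : P.Touch a x κ r := by
    refine ⟨by rw [hκ.1], r2, ?_⟩
    rw [← inv_mul_eq_iff_eq_mul]
    have k1 := touch_box hg hZ ha x false (P.u r).2
    rw [← hκ.1, show ((Z.x a, (P.u r).2) : Mk) = P.u r from Prod.ext r2.symm rfl] at k1
    refine (Rch.box hr).2.2.nf k1 hS' ?_
    rw [map_mul, map_inv, r3, inv_mul_cancel_left, pj_emb_lt (hS' ha)]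
  have z1 := tch.dv'
  have z2 := tch.dh hZ hc hg (by rw [hκ.2]) r4
  constructor
  · rw [P.pv.symm p κ, congr_HypBi P.pv z1, congr_HypBi P.pv z1, P.pv.symm _ p]; exact b1
  · rw [P.ph.symm p κ, congr_HypBi P.ph z2, congr_HypBi P.ph z2, P.ph.symm _ p]; exact b2

/-- Every word in the labels of a box is realised inside the box. -/
theorem realize (hZ : Z.Gen) (hg : ∀ x : C, ∃ n : ℤ, x = c ^ n) {b : Bx} {S : Finset L}
    (hS : (S : Set L) = Z.bl b) {g : W L C} (hs : Sup (S : Set L) g) :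
    ∀ (p : Q) (u' w' : Mk), P.In b p → b.Mem u'.1 w'.1 →
      ∃ q, P.Box b p q ∧ P.u q = u' ∧ P.w q = w' ∧ pj S (P.g q) = pj S (P.g p) * g := by
  have top : ∀ (p : Q) (u' w' : Mk), P.In b p → b.Mem u'.1 w'.1 →
      ∃ q, P.Box b p q ∧ P.u q = u' ∧ P.w q = w' ∧ pj S (P.g q) = pj S (P.g p) := by
    intro p u' w' hp hu
    have hD : InB Z.y b.y0 b.y1 {l | b.y1 < Z.y l} := fun l => ⟨id, fun k k' =>
      absurd (k.le.trans (hp.2.2.1.trans hp.2.2.2)) (not_le.2 k')⟩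
    obtain ⟨q, f1, f2, f3⟩ := step_ex (P := P) hZ p ⟨_, _, hD⟩ u' w'
    exact ⟨q, f1.box P hD hp (by unfold In; rw [f2, f3]; exact hu), f2, f3, f1.pj_top P hS⟩
  refine sup_ind (p := fun g => ∀ (p : Q) (u' w' : Mk), P.In b p → b.Mem u'.1 w'.1 →
      ∃ q, P.Box b p q ∧ P.u q = u' ∧ P.w q = w' ∧ pj S (P.g q) = pj S (P.g p) * g)
    (by simpa using top) ?_ hs
  intro l hl x g ih p u' w' hp hu
  have hb : l ∈ Z.bl b := hS ▸ hl
  obtain ⟨q1, a1, a2, a3, a4⟩ := top p (Z.x l, false) (Z.y l, false) hp hb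
  obtain ⟨q2, b1, -, b3⟩ := touch_ex (P := P) hZ hg (p := q1) (by rw [a2]) x false (Z.y l, false)
  have h2 : P.In b q2 := by
    unfold In
    rw [b1.2.1, b3]; exact hb
  obtain ⟨q, c1, c2, c3, c4⟩ := ih q2 u' w' h2 hu
  refine ⟨q, (a1.trans (b1.box hZ hg hb a1.2.1 h2)).trans c1, c2, c3, ?_⟩
  rw [c4, b1.2.2, map_mul, pj_emb_lt hl, a4, mul_assoc]

end Plan

theorem pigeon_fin {Y : Type} {J : Set ℕ} (hJ : J.Infinite) {T : Set Y} (hT : T.Finite)
    (f : ℕ → Y) (h : ∀ k ∈ J, f k ∈ T) : ∃ y ∈ T, {k | k ∈ J ∧ f k = y}.Infinite := by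
  by_contra h1
  push Not at h1
  refine hJ ((hT.biUnion (t := fun y => {k | k ∈ J ∧ f k = y}) h1).subset fun k hk => ?_)
  exact Set.mem_biUnion (h k hk) ⟨hk, rfl⟩

theorem pigeon_words {L C : Type} (S : Finset L) : ∀ (N : ℕ) (J : Set ℕ)
    (f : ℕ → List (L × C)), J.Infinite → (∀ k ∈ J, (f k).length ≤ N ∧ ∀ e ∈ f k, e.1 ∈ S) →
    (∃ w, {k | k ∈ J ∧ f k = w}.Infinite) ∨
      ∃ (pre : List (L × C)) (a : L) (J' : Set ℕ) (e : ℕ → C), J'.Infinite ∧ J' ⊆ J ∧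
        (∀ k ∈ J', ∃ rest, f k = pre ++ (a, e k) :: rest) ∧ ∀ x, {k | k ∈ J' ∧ e k = x}.Finite := by
  intro N
  induction N with
  | zero =>
    intro J f hJ h
    exact Or.inl ⟨[], hJ.mono fun k hk => ⟨hk, List.eq_nil_of_length_eq_zero
      (Nat.le_zero.1 (h k hk).1)⟩⟩
  | succ N ih =>
    intro J f hJ h
    obtain ⟨y, -, hy⟩ := pigeon_fin hJ (T := insert none (some '' (S : Set L)))
      ((S.finite_toSet.image _).insert _) (fun k => (f k).head?.map Prod.fst) (fun k hk => by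
        cases hf : f k with
        | nil => simp
        | cons e t => simpa using (h k hk).2 e (by rw [hf]; simp))
    cases y with
    | none =>
      refine Or.inl ⟨[], hy.mono fun k hk => ⟨hk.1, ?_⟩⟩
      simpa using hk.2
    | some a =>
      have hex : ∀ k, k ∈ {k | k ∈ J ∧ (f k).head?.map Prod.fst = some a} →
          ∃ x t, f k = (a, x) :: t := by
        intro k hk
        have h2 := hk.2
        cases hf : f k with
        | nil => rw [hf] at h2; simp at h2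
        | cons e t =>
          rw [hf] at h2
          have : e.1 = a := by simpa using h2
          exact ⟨e.2, t, by rw [← this]⟩
      obtain ⟨k0, hk0⟩ := hy.nonempty
      haveI : Nonempty C := ⟨(hex k0 hk0).choose⟩
      choose! e t het using hex
      by_cases hx : ∃ x, {k | k ∈ {k | k ∈ J ∧ (f k).head?.map Prod.fst = some a} ∧
          e k = x}.Infinite
      · obtain ⟨x, hx⟩ := hx
        rcases ih _ t hx (fun k hk => by
          have h1 := h k hk.1.1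
          rw [het k hk.1] at h1
          exact ⟨Nat.le_of_succ_le_succ h1.1, fun z hz => h1.2 z (List.mem_cons_of_mem _ hz)⟩)
          with ⟨w, hw⟩ | ⟨pre, a', J', e', g1, g2, g3, g4⟩
        · exact Or.inl ⟨(a, x) :: w, hw.mono fun k hk =>
            ⟨hk.1.1.1, by rw [het k hk.1.1, hk.1.2, hk.2]⟩⟩
        · refine Or.inr ⟨(a, x) :: pre, a', J', e', g1, fun k hk => (g2 hk).1.1, fun k hk => ?_, g4⟩
          obtain ⟨rest, hr⟩ := g3 k hk
          exact ⟨rest, by rw [het k (g2 hk).1, (g2 hk).2, hr]; rfl⟩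
      · push Not at hx
        exact Or.inr ⟨[], a, _, e, hy, fun k hk => hk.1, fun k hk => ⟨t k, het k hk⟩, hx⟩

theorem sparse_sub {J : Set ℕ} (hJ : J.Infinite) (e : ℕ → ℤ)
    (h : ∀ x, {k | k ∈ J ∧ e k = x}.Finite) : ∃ J' ⊆ J, J'.Infinite ∧
      ∀ k ∈ J', ∀ l ∈ J', k ≠ l → e l ≠ e k ∧ e l ≠ e k + 1 ∧ e l + 1 ≠ e k := by
  obtain ⟨y, -, hy⟩ := pigeon_fin hJ (Set.finite_Ico (0 : ℤ) 2) (fun k => e k % 2)
    (fun k _ => ⟨by omega, by omega⟩)
  have hi : (e '' {k | k ∈ J ∧ e k % 2 = y}).Infinite := by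
    intro hf
    refine hy ((hf.biUnion (t := fun x => {k | k ∈ J ∧ e k = x}) (fun x _ => h x)).subset
      fun k hk => Set.mem_biUnion (Set.mem_image_of_mem e hk) ⟨hk.1, rfl⟩)
  obtain ⟨J', h1, h2, h3⟩ := Set.exists_subset_bijOn {k | k ∈ J ∧ e k % 2 = y} e |>.imp
    (fun J' k => (⟨k.1, k.2.injOn, k.2.image_eq⟩ : J' ⊆ _ ∧ Set.InjOn e J' ∧ e '' J' = _))
  refine ⟨J', fun k hk => (h1 hk).1, Set.Infinite.of_image e (h3 ▸ hi), fun k hk l hl hne => ?_⟩
  have a1 := (h1 hk).2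
  have a2 := (h1 hl).2
  have a3 : e l ≠ e k := fun k' => hne (h2 hl hk k').symm
  exact ⟨a3, by omega, by omega⟩

theorem Plan.ray {L : Type} {Z : Cfg L} {Q : Type} (P : Plan cz Z Q) (hZ : Z.Gen) (p0 : Q)
    (p : ℕ → Q) (B M : ℝ) (hM : 0 ≤ M) (h1 : ∀ k, P.dh p0 (p k) ≤ B)
    (h2 : ∀ k, M ≤ P.dv p0 (p k)) :
    (∃ r, P.dv p0 r = M ∧ {k | P.dv p0 r + P.dv r (p k) = P.dv p0 (p k)}.Infinite) ∨
    (∃ a r, P.Cusp a r ∧ ∃ J : Set ℕ, J.Infinite ∧
      ∀ k ∈ J, ∀ l ∈ J, k ≠ l → Btw P.dv P.dh (p k) r (p l)) := by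
  have hc : cz ≠ 1 := by decide
  have hg : ∀ x : CZ, ∃ n : ℤ, x = cz ^ n := fun x =>
    ⟨Multiplicative.toAdd x, by rw [cz, ← ofAdd_zsmul]; simp⟩
  choose r hr hr' using fun k => geoV_HypBi (P.biTree' hZ) p0 (p k) hM (h2 k)
  set b := (P.pt p0).grow M B
  have hb : ∀ k, P.Box b p0 (r k) := fun k => (P.rch_dist hZ p0 (r k) (hr' k).le
    (by linarith [(hr k).2, P.ph.nn (r k) (p k), h1 k])).box
  set S := (Z.bl_fin b).toFinset
  have hS : (S : Set L) = Z.bl b := Set.Finite.coe_toFinset _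
  let v : ℕ → W L CZ := fun k => (pj S (P.g p0))⁻¹ * pj S (P.g (r k))
  have hv : ∀ k, Sup (S : Set L) (v k) := fun k => sup_mul (sup_inv (sup_pj _ _)) (sup_pj _ _)
  have hd' : ∀ k, dT Z.x (P.u p0).1 (v k) (P.u (r k)).1 = M := fun k => by
    rw [← hr' k, (hb k).dv_eq hS.ge]
  obtain ⟨N, hN⟩ := len_le (C := CZ) Z.x S hZ.1.injOn M
  have first : ∀ (z : Q) (J : Set ℕ), J.Infinite → P.dv p0 z = M → (∀ k ∈ J, P.dv z (r k) = 0) →
      ∃ r, P.dv p0 r = M ∧ {k | P.dv p0 r + P.dv r (p k) = P.dv p0 (p k)}.Infinite := by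
    intro z J j1 j2 j3
    refine ⟨z, j2, j1.mono fun k hk => ?_⟩
    change P.dv p0 z + P.dv z (p k) = P.dv p0 (p k)
    rw [congr_HypBi P.pv (j3 k hk), j2, ← hr' k, (hr k).1]
  rcases pigeon_words S N Set.univ (fun k => wd (v k)) Set.infinite_univ
    (fun k _ => ⟨hN _ _ _ (hv k) (hd' k).le, fun e he => hv k e.1 (List.mem_map_of_mem he)⟩)
    with ⟨w, hw⟩ | ⟨pre, a, J, e, g1, -, g3, g4⟩
  · left
    have hv' : ∀ k ∈ {k | k ∈ Set.univ ∧ wd (v k) = w}, v k = ev w := fun k hk => by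
      rw [← hk.2, ev_wd]
    set f := fe Z.x (wd (ev w : W L CZ)⁻¹) (P.u p0).1
    set K := M - dT Z.x f (ev w : W L CZ)⁻¹ (P.u p0).1
    obtain ⟨y, -, hy⟩ := pigeon_fin hw (T := {f - K, f + K}) (Set.toFinite _)
      (fun k => (P.u (r k)).1) (fun k hk => by
        have e1 := dT_fe Z.x (P.u (r k)).1 f (P.u p0).1 (ev w : W L CZ)⁻¹
        have e2 := hd' k
        rw [hv' k hk, ← dT_symm] at e2
        rw [e2, sub_self, abs_zero] at e1
        have e3 : |f - (P.u (r k)).1| = K := by linarith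
        rcases abs_cases (f - (P.u (r k)).1) with e4 | e4
        · left; linarith [e4.1]
        · right; simp only [Set.mem_singleton_iff]; linarith [e4.1])
    obtain ⟨k0, hk0⟩ := hy.nonempty
    refine first (r k0) _ hy (hr' k0) fun k hk => ?_
    rw [((hb k0).symm.trans (hb k)).dv_eq hS.ge,
      show (pj S (P.g (r k0)))⁻¹ * pj S (P.g (r k)) = (v k0)⁻¹ * v k by simp only [v]; group,
      hv' k hk.1, hv' k0 hk0.1, hk.2, hk0.2]
    simp
  obtain ⟨k0, hk0⟩ := g1.nonempty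
  obtain ⟨rest0, hr0⟩ := g3 k0 hk0
  have mem0 : ∀ z ∈ pre ++ (a, e k0) :: rest0, z.1 ∈ S := fun z hz =>
    hv k0 z.1 (List.mem_map_of_mem (by rw [hr0]; exact hz))
  have red0 : Red (pre ++ (a, e k0) :: rest0) := hr0 ▸ red_wd _
  have ha : a ∈ Z.bl b := hS ▸ mem0 (a, e k0) (by simp)
  obtain ⟨κ, k1, k2, k3, k4⟩ := P.realize hZ hg hS (g := ev pre) (fun l hl => by
    rw [lab_ev red0.left] at hl
    obtain ⟨z, hz, rfl⟩ := List.mem_map.1 hl
    exact mem0 z (List.mem_append_left _ hz)) p0 (Z.x a, false) (Z.y a, false) (hb 0).1 ha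
  have hκ : P.Cusp a κ := ⟨k2, k3⟩
  have key : ∀ k ∈ J, P.Ix a κ (r k) (e k) ∧ P.dv p0 κ + P.dv κ (r k) = M := by
    intro k hk
    obtain ⟨rest, h3⟩ := g3 k hk
    have red : Red (pre ++ (a, e k) :: rest) := h3 ▸ red_wd _
    have e1 : v k = ev (pre ++ (a, e k) :: rest) := by rw [← h3, ev_wd]
    have e2 : (pj S (P.g κ))⁻¹ * pj S (P.g (r k)) = ev ((a, e k) :: rest) := by
      rw [k4, mul_inv_rev, mul_assoc]
      change (ev pre)⁻¹ * v k = _
      rw [e1, ev_append, inv_mul_cancel_left]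
    have hbk := k1.symm.trans (hb k)
    constructor
    · have := P.ix_of_box hZ hc hκ hbk hS.ge
      rwa [e2, hd_of_wd (wd_ev red.right), if_pos rfl] at this
    · rw [← hd' k, e1, dT_split _ _ _ red, k1.dv_eq hS.ge, hbk.dv_eq hS.ge, e2, k4,
        inv_mul_cancel_left, k2, dT_of_wd _ _ _ (wd_ev red.right)]
      simp
  by_cases hz : P.dv p0 κ = M
  · exact Or.inl (first κ J g1 hz fun k hk => by linarith [(key k hk).2])
  right
  have key2 : ∀ k ∈ J, P.Ix a κ (p k) (e k) := by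
    intro k hk
    obtain ⟨x, hx⟩ := P.ix_ex hZ hc hκ (p k)
    by_cases h3 : e k = x
    · rwa [h3]
    exfalso
    have e1 := P.dv_of_ix hκ (key k hk).1 hx h3
    have e2 := (hr k).1
    have e3 := P.pv.tri p0 κ (p k)
    have e4 := P.pv.nn κ (r k)
    have e5 := (key k hk).2
    rw [hr' k] at e2
    exact hz (by linarith)
  obtain ⟨J', j1, j2, j3⟩ := sparse_sub g1 (fun k => Multiplicative.toAdd (e k))
    (fun x => (g4 (Multiplicative.ofAdd x)).subset fun k hk => ⟨hk.1, by rw [← hk.2]; rfl⟩)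
  refine ⟨a, κ, hκ, J', j2, fun k hk l hl hne => ?_⟩
  obtain ⟨i1, i2, i3⟩ := j3 k hk l hl hne
  exact P.idx hZ hc hg hκ (key2 k (j1 hk)) (key2 l (j1 hl)) (fun h => i1 (by rw [h]))
    (fun h => i2 (by rw [h]; rfl)) (fun h => i3 (by rw [← h]; rfl))

end Pool.Agent.E5f

end
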