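import Pool.Agent.Mg.S03381.G6add5e
import Pool.Agent.Mg.S03381.G7cdb90
import Pool.Agent.Mg.S03381.G00a67e
import Pool.Agent.Mg.S03381.Gaed4f6
import Pool.Agent.Mg.S03381.G09b917

section

set_option autoImplicit false

namespace Pool.Agent.E5f

open Filter Classical

section
variable {L C : Type} [CommGroup C]

/-- A sequence with a new first term. -/
def cns_MoRoute {α : Type} (a : α) (f : ℕ → α) : ℕ → α
  | 0 => a
  | i + 1 => f i

/-- A sequence with a changed first term. -/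
def chg_MoRoute {α : Type} (a : α) (f : ℕ → α) : ℕ → α
  | 0 => a
  | i + 1 => f (i + 1)

/-- The status set which is `A` before `l`, contains `l` and is `B` after `l`. -/
def mix_MoRoute (X : Od L) (A : Set L) (l : L) (B : Set L) : Set L :=
  {m | (X m < X l ∧ m ∈ A) ∨ m = l ∨ (X l < X m ∧ m ∈ B)}

theorem mix_inB_MoRoute (X : Od L) {ρ : L → ℝ} {lo hi : ℝ} {A B : Set L} {l : L}
    (hA : InB ρ lo hi A) (hB : InB ρ lo hi B) (hl : lo ≤ ρ l) :
    InB ρ lo hi (mix_MoRoute X A l B) := by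
  intro m
  refine ⟨fun h => ?_, fun h h' => ?_⟩
  · rcases lt_trichotomy (X m) (X l) with h1 | h1 | h1
    · exact Or.inl ⟨h1, (hA m).1 h⟩
    · exact Or.inr (Or.inl (X.injective h1))
    · exact Or.inr (Or.inr ⟨h1, (hB m).1 h⟩)
  · rcases h' with h1 | h1 | h1
    · exact (hA m).2 h h1.2
    · rw [h1] at h; linarith
    · exact (hB m).2 h h1.2

theorem up_le_MoRoute {X : Od L} {R : Set L} (hR : Up X R) {l m : L} (hl : l ∈ R)
    (h : X l ≤ X m) : m ∈ R := by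
  rcases h.lt_or_eq with h | h
  · exact hR l m hl h
  · exact X.injective h ▸ hl

theorem self_Rs_MoRoute (ρ : L → ℝ) (l : L) (s : Bool) : l ∈ Rs ρ (ρ l, s) ↔ s = false := by
  simp [Rs]

/-- A straight passage below `l` joins two steps to one step. -/
theorem merge_MoRoute {Z : Cfg L} (hx : Function.Injective Z.x) (c : C) (A B : Set L) {l : L}
    {R1 R2 : Set L} (h1 : Up Z.X R1) (h2 : Up Z.X R2) (l1 : l ∈ R1) (l2 : l ∉ R2) :
    stp c Z.X R1 (Rs Z.x (Z.x l, false)) A * emb (lt l c) *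
      stp c Z.X (Rs Z.x (Z.x l, true)) R2 B = stp c Z.X R1 R2 (mix_MoRoute Z.X A l B) := by
  have e := stp_cross hx c l (mix_MoRoute Z.X A l B)
  rw [if_pos (show l ∈ mix_MoRoute Z.X A l B from Or.inr (Or.inl rfl))] at e
  rw [← e, stp_congr c (D := A) (D' := mix_MoRoute Z.X A l B) h1 (Z.up_Rs _),
    stp_congr c (D := B) (D' := mix_MoRoute Z.X A l B) (Z.up_Rs _) h2, stp_mul, stp_mul]
  · intro m hm
    have h3 : Z.X l < Z.X m := by
      by_contra h3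
      rw [not_lt] at h3
      refine hm ⟨fun h => ?_, fun h => absurd (up_le_MoRoute h2 h h3) l2⟩
      have := (self_Rs_MoRoute Z.x l true).1 (up_le_MoRoute (Z.up_Rs _) h h3)
      simp at this
    refine ⟨fun h => Or.inr (Or.inr ⟨h3, h⟩), ?_⟩
    rintro (h | h | h)
    · exact absurd h.1 h3.not_gt
    · rw [h] at h3; exact absurd h3 (lt_irrefl _)
    · exact h.2
  · intro m hm
    have h3 : Z.X m < Z.X l := by
      by_contra h3
      rw [not_lt] at h3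
      exact hm ⟨fun _ => up_le_MoRoute (Z.up_Rs _) ((self_Rs_MoRoute Z.x l false).2 rfl) h3,
        fun _ => up_le_MoRoute h1 l1 h3⟩
    refine ⟨fun h => Or.inl ⟨h3, h⟩, ?_⟩
    rintro (h | h | h)
    · exact h.2
    · rw [h] at h3; exact absurd h3 (lt_irrefl _)
    · exact absurd h.1 h3.not_gt

theorem merge'_MoRoute {Z : Cfg L} (hx : Function.Injective Z.x) (c : C) (A B : Set L) {l : L}
    {R1 R2 : Set L} (h1 : Up Z.X R1) (h2 : Up Z.X R2) (l1 : l ∈ R1) (l2 : l ∉ R2) :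
    stp c Z.X R2 (Rs Z.x (Z.x l, true)) B * emb (lt l c⁻¹) *
      stp c Z.X (Rs Z.x (Z.x l, false)) R1 A = stp c Z.X R2 R1 (mix_MoRoute Z.X A l B) := by
  rw [← stp_inv c Z.X R1 R2, ← merge_MoRoute hx c A B h1 h2 l1 l2, mul_inv_rev, mul_inv_rev,
    stp_inv, stp_inv, lt_inv, map_inv, mul_assoc]

/-- The letters of a step are crossed labels. -/
theorem sup_stp_MoRoute (c : C) {X : Od L} (S : Finset L) {R R' : Set L} (D : Set L)
    (h : Up X R) (h' : Up X R') : Sup {l | ¬ (l ∈ R ↔ l ∈ R')} (pj S (stp c X R R' D)) := by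
  rcases h.total h' with hs | hs
  · rw [stp_of_sub c D h' hs, pj_opH]
    exact sup_op c (fun l hl e => (mem_cut.1 hl).2.1.2 (e.1 (mem_cut.1 hl).2.1.1))
  · rw [← stp_inv, map_inv, stp_of_sub c D h hs, pj_opH]
    exact sup_inv (sup_op c (fun l hl e => (mem_cut.1 hl).2.1.2 (e.2 (mem_cut.1 hl).2.1.1)))

theorem red_mid_MoRoute {g h : W L C} {l : L} {x : C} (hx : x ≠ 1)
    (hg : ∀ e ∈ (wd g).getLast?, e.1 ≠ l) (hh : l ∉ lab h) : Red (wd g ++ (l, x) :: wd h) := by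
  refine (red_wd g).append ((red_wd h).cons hx (fun e he e' => hh ?_)) (fun e he e' he' => ?_)
  · exact List.mem_map.2 ⟨e, List.mem_of_mem_head? he, e'.symm⟩
  · simp only [List.head?_cons, Option.mem_def, Option.some.injEq] at he'
    rw [← he']
    exact hg e he

/-- The labels to the right of the first entry of a word. -/
def ent_MoRoute {L C : Type} (ρ : L → ℝ) (R : Set L) : List (L × C) → Set L
  | [] => R
  | e :: _ => Rs ρ (ρ e.1, false)

end

section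
variable {L C : Type} [CommGroup C] {c : C} {Z : Cfg L} {Q : Type} {P : Plan c Z Q}
  {k : ℕ} {s t : ℕ → Q} {D : ℕ → Set L} {a : ℕ → L} {x : ℕ → C}

theorem Route.cons_MoRoute (h : Route P k s t D a x) {D0 : Set L} {p q : Q} {l : L} {y : C}
    (h1 : P.Step D0 p q) (h2 : P.Touch l y q (s 0)) (h3 : Ess c (P.u q).2 (P.u (s 0)).2 y)
    (h4 : l ∈ P.R p ↔ l ∈ P.R q) (h5 : l ∈ P.R (s 0) ↔ l ∈ P.R (t 0)) (h6 : 0 < k → l ≠ a 0) :
    Route P (k + 1) (cns_MoRoute p s) (cns_MoRoute q t) (cns_MoRoute D0 D) (cns_MoRoute l a)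
      (cns_MoRoute y x) where
  step := fun i hi => by
    cases i with
    | zero => exact h1
    | succ i => exact h.step i (Nat.le_of_succ_le_succ hi)
  touch := fun i hi => by
    cases i with
    | zero => exact h2
    | succ i => exact h.touch i (Nat.lt_of_succ_lt_succ hi)
  ess := fun i hi => by
    cases i with
    | zero => exact h3
    | succ i => exact h.ess i (Nat.lt_of_succ_lt_succ hi)
  arr := fun i hi => by
    cases i with
    | zero => exact h4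
    | succ i => exact h.arr i (Nat.lt_of_succ_lt_succ hi)
  dep := fun i hi => by
    cases i with
    | zero => exact h5
    | succ i => exact h.dep i (Nat.lt_of_succ_lt_succ hi)
  ne := fun i hi => by
    cases i with
    | zero => exact h6 (Nat.lt_of_succ_lt_succ hi)
    | succ i => exact h.ne i (Nat.lt_of_succ_lt_succ hi)

theorem Route.chg_MoRoute (h : Route P k s t D a x) {D0 : Set L} {p : Q}
    (h1 : P.Step D0 p (t 0)) (h2 : 0 < k → (a 0 ∈ P.R p ↔ a 0 ∈ P.R (t 0))) :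
    Route P k (chg_MoRoute p s) t (chg_MoRoute D0 D) a x where
  step := fun i hi => by
    cases i with
    | zero => exact h1
    | succ i => exact h.step _ hi
  touch := h.touch
  ess := h.ess
  arr := fun i hi => by
    cases i with
    | zero => exact h2 hi
    | succ i => exact h.arr _ hi
  dep := h.dep
  ne := h.ne

theorem Route.init_MoRoute (h : Route P (k + 1) s t D a x) : Route P k s t D a x where
  step := fun i hi => h.step i (Nat.le_succ_of_le hi)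
  touch := fun i hi => h.touch i (Nat.lt_succ_of_lt hi)
  ess := fun i hi => h.ess i (Nat.lt_succ_of_lt hi)
  arr := fun i hi => h.arr i (Nat.lt_succ_of_lt hi)
  dep := fun i hi => h.dep i (Nat.lt_succ_of_lt hi)
  ne := fun i hi => h.ne i (Nat.lt_succ_of_lt hi)

theorem Route.lvl_MoRoute (S : Finset L) : ∀ k : ℕ, Route P k s t D a x → (∀ i < k, a i ∈ S) →
    dT Z.x (P.u (s 0)).1 (pj S ((P.g (s 0))⁻¹ * P.g (t k))) (P.u (t k)).1 =
      ∑ i ∈ Finset.range (k + 1), |(P.u (t i)).1 - (P.u (s i)).1| ∧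
    ∀ e ∈ (wd (pj S ((P.g (s 0))⁻¹ * P.g (t k)))).getLast?,
      ¬ (e.1 ∈ P.R (s k) ↔ e.1 ∈ P.R (t k)) ∨ ∃ j, k = j + 1 ∧ e.1 = a j
  | 0, h, _ => by
    rw [(h.step 0 le_rfl).2, inv_mul_cancel_left]
    refine ⟨?_, fun e he => Or.inl ?_⟩
    · rw [dT_stp Z c S _ (P.up_R _) (P.up_R _) (P.at_R _) (P.at_R _)]
      simp
    · exact sup_stp_MoRoute c S _ (P.up_R _) (P.up_R _) _
        (List.mem_map.2 ⟨e, List.mem_of_mem_getLast? he, rfl⟩)
  | k + 1, h, hS => by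
    obtain ⟨i1, i2⟩ := Route.lvl_MoRoute S k h.init_MoRoute
      (fun i hi => hS i (Nat.lt_succ_of_lt hi))
    have hk := Nat.lt_succ_self k
    have ht := h.touch k hk
    have hsup := sup_stp_MoRoute c S (D (k + 1)) (P.up_R (s (k + 1))) (P.up_R (t (k + 1)))
    have hr := red_mid_MoRoute (g := pj S ((P.g (s 0))⁻¹ * P.g (t k)))
      (h := pj S (stp c Z.X (P.R (s (k + 1))) (P.R (t (k + 1))) (D (k + 1)))) (l := a k)
      (h.ess k hk).1 (fun e he e' => by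
        rcases i2 e he with h1 | ⟨j, h1, h2⟩
        · exact h1 (e' ▸ h.arr k hk)
        · exact h.ne j (h1 ▸ hk) (by rw [← h2, e', h1])) (fun hl => hsup _ hl (h.dep k hk))
    have e : pj S ((P.g (s 0))⁻¹ * P.g (t (k + 1))) = ev (wd (pj S ((P.g (s 0))⁻¹ * P.g (t k))) ++
        (a k, x k) :: wd (pj S (stp c Z.X (P.R (s (k + 1))) (P.R (t (k + 1))) (D (k + 1))))) := by
      rw [ev_append, ev_cons, ev_wd, ev_wd, (h.step (k + 1) le_rfl).2, ht.2.2]
      simp only [map_mul, pj_emb_lt (hS k hk), mul_assoc]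
    rw [e]
    refine ⟨?_, fun e he => ?_⟩
    · rw [dT_split _ _ _ hr, ev_wd, ev_wd, Finset.sum_range_succ, ← i1, ht.1]
      congr 1
      change dT Z.x (Z.x (a k)) _ _ = _
      rw [← ht.2.1, dT_stp Z c S _ (P.up_R _) (P.up_R _) (P.at_R _) (P.at_R _)]
    · rw [wd_ev hr, List.getLast?_append] at he
      cases hw : wd (pj S (stp c Z.X (P.R (s (k + 1))) (P.R (t (k + 1))) (D (k + 1)))) with
      | nil =>
        rw [hw] at he
        simp only [List.getLast?_singleton, Option.some_or, Option.mem_def,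
          Option.some.injEq] at he
        exact Or.inr ⟨k, rfl, by rw [← he]⟩
      | cons e' w =>
        left
        refine hsup _ (List.mem_map.2 ⟨e, ?_, rfl⟩)
        rw [hw] at he ⊢
        rw [List.getLast?_cons_cons, List.getLast?_cons] at he
        simp only [Option.some_or, Option.mem_def, Option.some.injEq] at he
        refine List.mem_of_mem_getLast? ?_
        rw [List.getLast?_cons, he]
        rfl

end

namespace Plan
variable {L C : Type} [CommGroup C] {c : C} {Z : Cfg L} {Q : Type} {P : Plan c Z Q}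

theorem route_aux_MoRoute [Nonempty L] (hZ : Z.Gen) (hg : ∀ x : C, ∃ n : ℤ, x = c ^ n) {b : Bx}
    {r : Q} {S : Finset L} (hS : ∀ l, l ∈ S ↔ l ∈ Z.bl b) : ∀ (w : List (L × C)) (p : Q),
    P.Box b p r → wd (pj S ((P.g p)⁻¹ * P.g r)) = w →
    ∃ (k : ℕ) (s t : ℕ → Q) (D : ℕ → Set L) (a : ℕ → L) (x : ℕ → C),
      Route P k s t D a x ∧ s 0 = p ∧ t k = r ∧ (∀ i ≤ k, InB Z.y b.y0 b.y1 (D i)) ∧
      ∀ m, (P.u p).1 = Z.x m → (∀ e ∈ w.head?, m ≠ e.1) →
        (m ∈ P.R p ↔ m ∈ ent_MoRoute Z.x (P.R r) w) →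
        (m ∈ P.R p ↔ m ∈ P.R (t 0)) ∧ (0 < k → m ≠ a 0) := by
  intro w
  have hT : ∀ p, P.Box b p r → InB Z.y b.y0 b.y1 {m | b.y1 < Z.y m} := fun p h m =>
    ⟨fun h' => h', fun h1 (h2 : b.y1 < Z.y m) => by linarith [h.1.2.2.1, h.1.2.2.2]⟩
  have hp : ∀ R R' : Set L, pj S (stp c Z.X R R' {m | b.y1 < Z.y m}) = 1 := by
    have : ∀ R : Set L, cut S (R ∩ {m | b.y1 < Z.y m}) = ∅ := fun R => by
      ext m
      simp only [Finset.notMem_empty, iff_false, mem_cut]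
      exact fun hm => absurd ((hS m).1 hm.1).2.2.2 (not_le.2 hm.2.2)
    intro R R'
    rw [pj_stp, this, this]
    simp
  induction w with
  | nil =>
    intro p h hw
    have e := h.2.2.nf (BoxW.single h.2.2.left.1 h.2.2.left.2 h.2.2.right.1 h.2.2.right.2 (hT p h))
      (S := S) (fun l hl => (hS l).2 hl) (by rw [hp, wd_eq_nil hw])
    exact ⟨0, fun _ => p, fun _ => r, fun _ => {m | b.y1 < Z.y m}, fun _ => Classical.ofNonempty,
      fun _ => 1, ⟨fun _ _ => ⟨⟨_, _, hT p h⟩, by rw [← e, mul_inv_cancel_left]⟩, by simp, by simp,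
        by simp, by simp, by simp⟩, rfl, rfl, fun _ _ => hT p h, fun m _ _ h' => ⟨h', by simp⟩⟩
  | cons e w ih =>
    intro p h hw
    obtain ⟨l, y⟩ := e
    have hr : Red ((l, y) :: w) := hw ▸ red_wd (pj S ((P.g p)⁻¹ * P.g r))
    have hlS : l ∈ S := sup_pj S ((P.g p)⁻¹ * P.g r) l (by unfold lab; rw [hw]; simp)
    have hl := (hS l).1 hlS
    obtain ⟨σ, hσ⟩ : ∃ σ : Bool, σ = false ↔ l ∈ P.R p := ⟨!decide (l ∈ P.R p), by simp⟩
    obtain ⟨τ, hτ⟩ : ∃ τ : Bool, (τ = false ↔ l ∈ ent_MoRoute Z.x (P.R r) w) :=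
      ⟨!decide (l ∈ ent_MoRoute Z.x (P.R r) w), by simp⟩
    obtain ⟨q, q1, q2, q3⟩ := step_ex (P := P) hZ p ⟨_, _, hT p h⟩ (Z.x l, σ) (P.w p)
    obtain ⟨p', p1, p2, p3⟩ := touch_ex (P := P) (p := q) hZ hg (a := l) (by rw [q2]) y τ (P.w p)
    have p4 : P.u p' = (Z.x l, τ) := Prod.ext p1.2.1 p2
    have Rq : P.R q = Rs Z.x (Z.x l, σ) := by unfold R; rw [q2]
    have Rp : P.R p' = Rs Z.x (Z.x l, τ) := by unfold R; rw [p4]
    have mq : b.Mem (P.u q).1 (P.w q).1 := by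
      rw [q2, q3]; exact ⟨hl.1, hl.2.1, h.1.2.2⟩
    have mp : b.Mem (P.u p').1 (P.w p').1 := by
      rw [p4, p3]; exact ⟨hl.1, hl.2.1, h.1.2.2⟩
    have b1 : P.Box b p q := ⟨h.1, mq, by
      rw [q1.2, inv_mul_cancel_left]
      exact BoxW.single (P.up_R _) h.2.2.left.2 (P.up_R _) ((P.at_R _).inB mq.1 mq.2.1) (hT p h)⟩
    have b2 : P.Box b q p' := ⟨mq, mp, by
      rw [p1.2.2, inv_mul_cancel_left, Rq, Rp]
      exact touch_box hg hZ hl y σ τ⟩
    have hw' : wd (pj S ((P.g p')⁻¹ * P.g r)) = w := by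
      have e1 := ev_wd (pj S ((P.g p)⁻¹ * P.g r))
      rw [hw, ev_cons] at e1
      have e2 : (P.g p')⁻¹ * P.g r = (emb (lt l y))⁻¹ *
          (stp c Z.X (P.R p) (P.R q) {m | b.y1 < Z.y m})⁻¹ * ((P.g p)⁻¹ * P.g r) := by
        rw [p1.2.2, q1.2]; group
      rw [e2, map_mul, map_mul, map_inv, map_inv, hp, pj_emb_lt hlS, ← e1]
      simp only [inv_one, mul_one, inv_mul_cancel_left]
      exact wd_ev hr.tail
    obtain ⟨k, s, t, D, a, x, hR, rfl, ht, hD, hJ⟩ := ih p' ((b1.trans b2).symm.trans h) hw'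
    obtain ⟨j1, j2⟩ := hJ l p1.2.1 (fun e he => by
      cases w with
      | nil => simp at he
      | cons e' w =>
        simp only [List.head?_cons, Option.mem_def, Option.some.injEq] at he
        rw [← he]
        exact (List.isChain_cons_cons.1 hr.2).1) (by rw [Rp, self_Rs_MoRoute, hτ])
    have hat : 0 < k → (P.u (t 0)).1 = Z.x (a 0) := fun hk => (hR.touch 0 hk).1
    have hne : ∀ {m : L}, m ≠ l → Z.x m ≠ Z.x l := fun hm e => hm (hZ.1 e)
    have hin : ∀ (v : Q) (m : L), (P.u v).1 < Z.x m → m ∈ P.R v := fun v m h => Or.inl h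
    have hout : ∀ (v : Q) (m : L), Z.x m < (P.u v).1 → m ∉ P.R v := fun v m h h' =>
      absurd ((P.at_R v m).1 h') (not_le.2 h)
    by_cases hE : Ess c σ τ y
    · refine ⟨k + 1, _, _, _, _, _, hR.cons_MoRoute q1 p1 (by rw [q2, p2]; exact hE)
        (by rw [Rq, self_Rs_MoRoute, hσ]) j1 j2, rfl, ht, fun i hi => ?_, fun m _ m2 m3 => ?_⟩
      · cases i with
        | zero => exact hT p h
        | succ i => exact hD i (Nat.le_of_succ_le_succ hi)
      · have m4 : m ≠ l := m2 (l, y) (by simp)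
        refine ⟨m3.trans ?_, fun _ => m4⟩
        change m ∈ Rs Z.x (Z.x l, false) ↔ m ∈ P.R q
        rw [Rq]
        simp [Rs, (hne m4).symm]
    · have hy : y ≠ 1 := hr.1 (l, y) (by simp)
      have hst := (hR.step 0 (Nat.zero_le _)).2
      rw [p1.2.2, q1.2, Rq, Rp, mul_assoc, mul_assoc, ← mul_assoc (stp _ _ _ _ _)] at hst
      rw [Rp, self_Rs_MoRoute] at j1
      have hcase : (σ = false ∧ τ = true ∧ y = c) ∨ (σ = true ∧ τ = false ∧ y = c⁻¹) := by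
        by_contra hn
        exact hE ⟨hy, fun h1 h2 h3 => hn (Or.inl ⟨h1, h2, h3⟩),
          fun h1 h2 h3 => hn (Or.inr ⟨h1, h2, h3⟩)⟩
      rcases hcase with ⟨rfl, rfl, rfl⟩ | ⟨rfl, rfl, rfl⟩
      · have l1 : l ∈ P.R p := hσ.1 rfl
        have l2 : l ∉ P.R (t 0) := fun h' => by simpa using j1.2 h'
        have x1 := (P.at_R p l).1 l1
        have x2 := (P.at_R (t 0) l).2 l2
        have hI := mix_inB_MoRoute Z.X (hT p h) (hD 0 (Nat.zero_le _)) hl.2.2.1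
        rw [merge_MoRoute hZ.1 y _ _ (P.up_R _) (P.up_R _) l1 l2] at hst
        refine ⟨k, _, t, _, a, x, hR.chg_MoRoute (p := p) ⟨⟨_, _, hI⟩, hst⟩ (fun hk => ?_), rfl, ht,
          fun i hi => ?_, fun m m1 m2 m3 => ?_⟩
        · have x3 : Z.x l < Z.x (a 0) := lt_of_le_of_ne (hat hk ▸ x2) (hne (j2 hk).symm).symm
          exact ⟨fun _ => (hR.arr 0 hk).1 (hin _ _ (p1.2.1 ▸ x3)),
            fun _ => hin _ _ (x1.trans_lt x3)⟩
        · cases i with
          | zero => exact hI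
          | succ i => exact hD _ hi
        · have x3 : Z.x m < Z.x l := lt_of_le_of_ne (m1 ▸ x1) (hne (m2 (l, y) (by simp)))
          refine ⟨⟨fun h' => ?_, fun h' => absurd h' (hout _ _ (x3.trans_le x2))⟩, fun hk e => ?_⟩
          · exact absurd ((at_Rs Z.x (Z.x l, false) m).1 (m3.1 h')) (not_le.2 x3)
          · rw [hat hk, ← e] at x2
            exact absurd x2 (not_le.2 x3)
      · have l1 : l ∉ P.R p := fun h' => by simpa using hσ.2 h'
        have l2 : l ∈ P.R (t 0) := j1.1 rfl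
        have x1 := (P.at_R p l).2 l1
        have x2 := (P.at_R (t 0) l).1 l2
        have hI := mix_inB_MoRoute Z.X (hD 0 (Nat.zero_le _)) (hT p h) hl.2.2.1
        rw [merge'_MoRoute hZ.1 c _ _ (P.up_R _) (P.up_R _) l2 l1] at hst
        refine ⟨k, _, t, _, a, x, hR.chg_MoRoute (p := p) ⟨⟨_, _, hI⟩, hst⟩ (fun hk => ?_), rfl, ht,
          fun i hi => ?_, fun m m1 m2 m3 => ?_⟩
        · have x3 : Z.x (a 0) < Z.x l := lt_of_le_of_ne (hat hk ▸ x2) (hne (j2 hk).symm)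
          exact ⟨fun h' => absurd h' (hout _ _ (x3.trans_le x1)),
            fun h' => absurd ((hR.arr 0 hk).2 h') (hout _ _ (p1.2.1 ▸ x3))⟩
        · cases i with
          | zero => exact hI
          | succ i => exact hD _ hi
        · have x3 : Z.x l < Z.x m :=
            lt_of_le_of_ne (m1 ▸ x1) (hne (m2 (l, c⁻¹) (by simp))).symm
          refine ⟨⟨fun _ => hin _ _ (x2.trans_lt x3), fun _ => m3.2 (Or.inl x3)⟩, fun hk e => ?_⟩
          rw [hat hk, ← e] at x2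
          exact absurd x2 (not_le.2 x3)

/-- Two points joined in a box are joined by a route whose steps have status sets in the box. -/
theorem route_ex [Nonempty L] (hZ : Z.Gen) (hc : c ≠ 1) (hg : ∀ x : C, ∃ n : ℤ, x = c ^ n)
    {b : Bx} {p r : Q}
    (h : P.Box b p r) : ∃ (k : ℕ) (s t : ℕ → Q) (D : ℕ → Set L) (a : ℕ → L) (x : ℕ → C),
      Route P k s t D a x ∧ s 0 = p ∧ t k = r ∧ ∀ i ≤ k, InB Z.y b.y0 b.y1 (D i) := by
  obtain ⟨k, s, t, D, a, x, h1, h2, h3, h4, -⟩ := route_aux_MoRoute hZ hg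
    (S := (Z.bl_fin b).toFinset) (fun l => by simp) _ p h rfl
  exact ⟨k, s, t, D, a, x, h1, h2, h3, h4⟩

end Plan

/-- Routes are tight. -/
theorem Route.dv {L C : Type} [CommGroup C] {c : C} {Z : Cfg L} {Q : Type} {P : Plan c Z Q}
    (hZ : Z.Gen) (hc : c ≠ 1) {k : ℕ} {s t : ℕ → Q} {D : ℕ → Set L} {a : ℕ → L} {x : ℕ → C}
    (h : Route P k s t D a x) :
    P.dv (s 0) (t k) = ∑ i ∈ Finset.range (k + 1), |(P.u (t i)).1 - (P.u (s i)).1| :=
  dW_eq ((Finset.range k).image a) (fun S hS => (Route.lvl_MoRoute S k h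
    (fun i hi => hS (Finset.mem_image_of_mem a (Finset.mem_range.2 hi)))).1)

end Pool.Agent.E5f

end

section

/-!
No large rectangles in a planar model.
-/

set_option autoImplicit false

namespace Pool.Agent.E5f

open Filter Classical

theorem expo_of_sup {L C : Type} [CommGroup C] {ν : L} {g : W L C} (h : ν ∉ lab g) :
    expo ν g = 1 :=
  W_ext_sup (f := expo ν) (f' := 1) (S := {l | l ≠ ν})
    (fun l hl x => by rw [expo_lt, if_neg hl]; rfl) (fun l hl he => h (he ▸ hl))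

theorem expo_ret {L C : Type} [CommGroup C] {ν : L} {S : Set L} (h : ν ∈ S) (g : W L C) :
    expo ν (ret S g) = expo ν g := by
  have : (expo ν).comp (ret S) = (expo ν : W L C →* C) := by
    refine W_ext (fun l x => ?_)
    rw [MonoidHom.comp_apply, ret_lt]
    split_ifs with h1
    · rfl
    · rw [map_one, expo_lt, if_neg (fun h2 : l = ν => h1 (h2 ▸ h))]
  exact DFunLike.congr_fun this g

theorem expo_pj {L C : Type} [CommGroup C] {ν : L} {S : Finset L} (h : ν ∈ S) (ω : WL L C) :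
    expo ν (pj S ω) = expo ν (pj {ν} ω) := by
  rw [← ret_pj (Finset.singleton_subset_iff.2 h), expo_ret (by simp)]

theorem par_tree {X : Type} {d : X → X → ℝ} (hd : PM d) (hh : Hyp d 0) {x y x' y' p p' : X}
    (hx : d x x' = 0) (hy : d y y' = 0) (h1 : d x p + d p y = d x y)
    (h2 : d x' p' + d p' y' = d x' y') (h3 : d x p = d x' p') : d p p' = 0 := by
  have e1 := congr_HypBi hd hx p'
  have e2 := congr_HypBi hd hx y'
  have e3 := congr_HypBi hd hy x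
  have e4 := congr_HypBi hd hy p'
  rw [hd.symm y x, hd.symm y' x] at e3
  rw [hd.symm y p', hd.symm y' p'] at e4
  refine same_HypBi hd hh (z := y) h1 (by linarith) (by linarith) ?_
  rw [gp_self_HypBi hd]
  linarith [hd.nn p y]

theorem Rs_iff_lt {L : Type} {ρ : L → ℝ} {u : Mk} {l : L} (h : ρ l ≠ u.1) :
    l ∈ Rs ρ u ↔ u.1 < ρ l := by
  unfold Rs
  simp [h.symm]

namespace Plan
variable {L C : Type} [CommGroup C] {c : C} {Z : Cfg L} {Q : Type} (P : Plan c Z Q)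

theorem one_turn (hZ : Z.Gen) {p q : Q} (h : P.dh p q = 0) :
    P.dv p q = |(P.u q).1 - (P.u p).1| ∨ ∃ l, Z.y l = (P.w p).1 ∧
      P.dv p q = |Z.x l - (P.u p).1| + |(P.u q).1 - Z.x l| := by
  have hb := (P.rch_dist hZ p q le_rfl h.le).box
  have hl : ∀ l ∈ Z.bl ((P.pt p).grow (P.dv p q) 0), Z.y l = (P.w p).1 := fun l hl =>
    le_antisymm (by simpa [pt, Bx.grow] using hl.2.2.2) (by simpa [pt, Bx.grow] using hl.2.2.1)
  by_cases ha : ∃ a, Z.y a = (P.w p).1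
  · obtain ⟨a, ha⟩ := ha
    have e := hb.dv_eq (S := {a}) (fun l h1 => by simpa using hZ.2 ((hl l h1).trans ha.symm))
    obtain ⟨x, hx⟩ := sup_single (a := a) (g := (pj {a} (P.g p))⁻¹ * pj {a} (P.g q))
      (by simpa using sup_mul (sup_inv (sup_pj {a} (P.g p))) (sup_pj {a} (P.g q)))
    rw [hx] at e
    by_cases h1 : x = 1
    · left; rw [e, h1, lt_one, dT_one]
    · right; exact ⟨a, ha, by rw [e, dT_lt _ _ _ _ h1]⟩
  · left
    have e := hb.dv_eq (S := ∅) (fun l h1 => absurd ⟨l, hl l h1⟩ ha)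
    have h1 : ∀ ω : WL L C, pj ∅ ω = 1 := fun ω => by
      apply wd_eq_nil
      cases hw : wd (pj ∅ ω) with
      | nil => rfl
      | cons e t => simpa using sup_pj ∅ ω e.1 (by unfold lab; rw [hw]; simp)
    rw [e, h1, h1, inv_one, mul_one, dT_one]

theorem w_of_dh {p q : Q} (h : P.dh p q = 0) : (P.w q).1 = (P.w p).1 := by
  have := P.abs_le_dh p q
  rw [h] at this
  exact sub_eq_zero.1 (abs_nonpos_iff.1 this)

theorem u_of_dv {p q : Q} (h : P.dv p q = 0) : (P.u q).1 = (P.u p).1 := P.tr.w_of_dh h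

theorem turn_pt (hZ : Z.Gen) {p q : Q} (h : P.dh p q = 0) {l : L} (hl : Z.y l = (P.w p).1)
    (h1 : |Z.x l - (P.u p).1| ≤ P.dv p q) :
    ∃ r, Btw P.dv P.dh p r q ∧ |(P.u r).1 - (P.u p).1| = |Z.x l - (P.u p).1| := by
  obtain ⟨r, e1, e2⟩ := geoV_HypBi (P.biTree' hZ) p q (abs_nonneg _) h1
  refine ⟨r, e1, ?_⟩
  rcases P.one_turn hZ (zero_HypBi P.ph e1.2 h) with h2 | ⟨l', h2, h3⟩
  · rw [← h2, e2]
  · have : l' = l := hZ.2 (h2.trans hl.symm)
    subst this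
    have h4 : |(P.u r).1 - Z.x l'| = 0 := by linarith
    rw [sub_eq_zero.1 (abs_eq_zero.1 h4)]

theorem half (hZ : Z.Gen) {p q : Q} (h : P.dh p q = 0) :
    ∃ r r', Btw P.dv P.dh p r q ∧ Btw P.dv P.dh p r' q ∧
      P.dv p q ≤ 2 * |(P.u r').1 - (P.u r).1| := by
  have b1 : Btw P.dv P.dh p p q := ⟨by rw [P.pv.self, zero_add], by rw [P.ph.self, zero_add]⟩
  have b2 : Btw P.dv P.dh p q q := ⟨by rw [P.pv.self, add_zero], by rw [P.ph.self, add_zero]⟩
  rcases P.one_turn hZ h with h1 | ⟨l, h1, h2⟩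
  · exact ⟨p, q, b1, b2, by linarith [abs_nonneg ((P.u q).1 - (P.u p).1)]⟩
  have n1 := abs_nonneg (Z.x l - (P.u p).1)
  have n2 := abs_nonneg ((P.u q).1 - Z.x l)
  rcases le_total |(P.u q).1 - Z.x l| |Z.x l - (P.u p).1| with h3 | h3
  · obtain ⟨r, e1, e2⟩ := P.turn_pt hZ h h1 (by linarith)
    exact ⟨p, r, b1, e1, by linarith⟩
  · obtain ⟨r, e1, e2⟩ := P.turn_pt hZ (p := q) (q := p) (by rw [P.ph.symm, h])
      (h1.trans (P.w_of_dh h).symm) (by rw [P.pv.symm, abs_sub_comm]; linarith)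
    rw [abs_sub_comm (Z.x l)] at e2
    exact ⟨q, r, b2, btw_symm_HypBi (P.biTree' hZ) e1, by linarith⟩

theorem half_rect (hZ : Z.Gen) {p00 p10 p01 p11 : Q} (h1 : P.dh p00 p10 = 0)
    (h2 : P.dh p01 p11 = 0) (h3 : P.dv p00 p01 = 0) (h4 : P.dv p10 p11 = 0) :
    ∃ r r' t t', P.dh r r' = 0 ∧ P.dh t t' = 0 ∧ P.dv r t = 0 ∧ P.dv r' t' = 0 ∧
      P.dh p00 r = 0 ∧ P.dh p01 t = 0 ∧ P.dv p00 p10 ≤ 2 * |(P.u r').1 - (P.u r).1| := by
  have e0 : P.dv p01 p11 = P.dv p00 p10 := by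
    have e1 := congr_HypBi P.pv h3 p11
    have e2 := congr_HypBi P.pv h4 p00
    rw [P.pv.symm p10, P.pv.symm p11] at e2
    linarith
  have key : ∀ r, Btw P.dv P.dh p00 r p10 → ∃ t, P.dv r t = 0 ∧ P.dh p01 t = 0 := by
    intro r hr
    obtain ⟨t, e1, e2⟩ := geoV_HypBi (P.biTree' hZ) p01 p11 (P.pv.nn p00 r)
      (by linarith [hr.1, P.pv.nn r p10])
    exact ⟨t, par_tree P.pv P.hv h3 h4 hr.1 e1.1 e2.symm, zero_HypBi P.ph e1.2 h2⟩
  obtain ⟨r, r', a1, a2, a3⟩ := P.half hZ h1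
  obtain ⟨t, b1, b2⟩ := key r a1
  obtain ⟨t', c1, c2⟩ := key r' a2
  have d1 := zero_HypBi P.ph a1.2 h1
  have d2 := zero_HypBi P.ph a2.2 h1
  exact ⟨r, r', t, t', by rw [← congr_HypBi P.ph d1, d2], by rw [← congr_HypBi P.ph b2, c2],
    b1, c1, d1, b2, a3⟩

theorem expo_dv {p q : Q} (h : P.dv p q = 0) {ν : L} (hν : Z.x ν ≠ (P.u p).1) :
    expo ν (pj {ν} (P.g q)) = expo ν (pj {ν} (P.g p)) := by
  obtain ⟨S, h1, h2⟩ := ((P.dv_ev' p q).and (eventually_ge_atTop {ν})).exists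
  have hS : ν ∈ S := Finset.singleton_subset_iff.1 h2
  rw [h] at h1
  have h3 := expo_of_sup (fun h4 => hν ((dT_eq_zero.1 h1.symm).2 ν h4))
  rw [map_mul, map_inv, expo_pj hS, expo_pj hS] at h3
  exact (inv_mul_eq_one.1 h3).symm

theorem expo_rel (q : Q) (ν : L) : expo ν (pj {ν} (P.h q)) = (expo ν (pj {ν} (P.g q)) *
    if ν ∈ Rs Z.x (P.u q) ∧ ν ∈ Rs Z.y (P.w q) then c else 1)⁻¹ := by
  rw [P.relv q, pj_Kh, expo_Kf, map_mul, map_mul, pj_opH, expo_op]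
  simp

theorem rect_false (hc : c ≠ 1) {e f e' f' : Q} {ν : L} (h1 : P.dh e f = 0) (h2 : P.dh e' f' = 0)
    (h3 : P.dv e e' = 0) (h4 : P.dv f f' = 0)
    (hx : ((P.u e).1 < Z.x ν ∧ Z.x ν < (P.u f).1) ∨ ((P.u f).1 < Z.x ν ∧ Z.x ν < (P.u e).1))
    (hy : ((P.w e).1 < Z.y ν ∧ Z.y ν < (P.w e').1) ∨ ((P.w e').1 < Z.y ν ∧ Z.y ν < (P.w e).1)) :
    False := by
  have x1 : Z.x ν ≠ (P.u e).1 := by rcases hx with h | h <;> [exact h.1.ne'; exact h.2.ne]
  have x2 : Z.x ν ≠ (P.u f).1 := by rcases hx with h | h <;> [exact h.2.ne; exact h.1.ne']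
  have y1 : Z.y ν ≠ (P.w e).1 := by rcases hy with h | h <;> [exact h.1.ne'; exact h.2.ne]
  have y2 : Z.y ν ≠ (P.w e').1 := by rcases hy with h | h <;> [exact h.2.ne; exact h.1.ne']
  have a1 := P.expo_dv h3 x1
  have a2 := P.expo_dv h4 x2
  have a3 : expo ν (pj {ν} (P.h f)) = expo ν (pj {ν} (P.h e)) := P.tr.expo_dv h1 y1
  have a4 : expo ν (pj {ν} (P.h f')) = expo ν (pj {ν} (P.h e')) := P.tr.expo_dv h2 y2
  have u1 := P.u_of_dv h3
  have u2 := P.u_of_dv h4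
  have w1 := P.w_of_dh h1
  have w2 := P.w_of_dh h2
  rw [P.expo_rel, P.expo_rel, inv_inj] at a3 a4
  rw [a1, a2] at a4
  rw [Rs_iff_lt x1, Rs_iff_lt x2, Rs_iff_lt y1, Rs_iff_lt (u := P.w f) (w1 ▸ y1), w1] at a3
  rw [Rs_iff_lt (u := P.u e') (u1 ▸ x1), Rs_iff_lt (u := P.u f') (u2 ▸ x2), Rs_iff_lt y2,
    Rs_iff_lt (u := P.w f') (w2 ▸ y2), u1, u2, w2] at a4
  apply hc
  rcases hx with hx | hx <;> rcases hy with hy | hy <;>
    simp only [hx.1, hy.1, hx.2.not_gt, hy.2.not_gt, and_true, and_false, if_true, if_false,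
      mul_one] at a3 a4
  · rw [a4] at a3; exact mul_eq_left.1 a3.symm
  · rw [a3] at a4; exact mul_eq_left.1 a4.symm
  · rw [← a4] at a3; exact mul_eq_left.1 a3
  · rw [← a3] at a4; exact mul_eq_left.1 a4

end Plan

theorem between_of_abs {a b t Λ : ℝ} (h : Λ ≤ |b - a|) (h1 : min a b < t) (h2 : t < min a b + Λ) :
    (a < t ∧ t < b) ∨ (b < t ∧ t < a) := by
  rcases le_total a b with h3 | h3
  · rw [min_eq_left h3] at h1 h2
    rw [abs_of_nonneg (sub_nonneg.2 h3)] at h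
    exact Or.inl ⟨h1, by linarith⟩
  · rw [min_eq_right h3] at h1 h2
    rw [abs_of_nonpos (sub_nonpos.2 h3)] at h
    exact Or.inr ⟨h1, by linarith⟩

theorem Plan.noRect {L C : Type} [CommGroup C] {c : C} {Z : Cfg L} {Q : Type} (P : Plan c Z Q)
    (hZ : Z.Gen) (hc : c ≠ 1) {Λ : ℝ} (hΛ : 0 < Λ) (hD : Z.Den Λ) :
    NoRect P.dv P.dh (4 * Λ) (4 * Λ) := by
  intro p00 p10 p01 p11 h1 h2 h3 h4 h5 h6
  obtain ⟨r, r', t, t', a1, a2, a3, a4, a5, a6, a7⟩ := P.half_rect hZ h1 h2 h3 h4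
  obtain ⟨e, e', f, f', b1, b2, b3, b4, b5, b6, b7⟩ :=
    P.tr.half_rect ⟨hZ.2, hZ.1⟩ (p00 := r) (p10 := t) (p01 := r') (p11 := t') a3 a4 a1 a2
  have e1 : P.dh r t = P.dh p00 p01 := by
    have c1 := congr_HypBi P.ph a5 t
    have c2 := congr_HypBi P.ph a6 p00
    rw [P.ph.symm p01, P.ph.symm t] at c2
    linarith
  change P.dh r t ≤ 2 * |(P.w e').1 - (P.w e).1| at b7
  rw [← P.u_of_dv b5, ← P.u_of_dv b6] at a7
  obtain ⟨ν, n1, n2, n3, n4⟩ := hD (min (P.u e).1 (P.u f).1) (min (P.w e).1 (P.w e').1)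
  exact P.rect_false hc b3 b4 b1 b2 (between_of_abs (by linarith) n1 n2)
    (between_of_abs (by linarith) n3 n4)

end Pool.Agent.E5f

end

section

set_option autoImplicit false

namespace Pool.Agent.E5f

open Filter Classical

theorem c2_ne : c2 ≠ 1 := by decide

theorem c2_gen : ∀ x : C2, ∃ n : ℤ, x = c2 ^ n := fun x => by
  have h : ∀ x : C2, x = 1 ∨ x = c2 := by decide
  rcases h x with h | h
  · exact ⟨0, by rw [h, zpow_zero]⟩
  · exact ⟨1, by rw [h, zpow_one]⟩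

theorem cz_ne : cz ≠ 1 := fun h => one_ne_zero (Multiplicative.ofAdd.injective h)

theorem cz_gen : ∀ x : CZ, ∃ n : ℤ, x = cz ^ n := fun x =>
  ⟨x.toAdd, by unfold cz; rw [← ofAdd_zsmul]; simp⟩

theorem Emb.bc_gen (E : Emb) : E.bc.Gen := ⟨E.ξ_inj, E.η_inj⟩

theorem Emb.bc_den (E : Emb) : E.bc.Den 3 := E.den

theorem Emb.fc_den (E : Emb) (u w : Mk) : (E.fc u w).Den 3 := fun a b =>
  (E.den_lab 0 u.1 w.1 a b).imp fun _ h => h.2

theorem Emb.fc_gen (E : Emb) {u w : Mk} (hu : u.1 ∉ Set.range E.ξ) (hw : w.1 ∉ Set.range E.η) :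
    (E.fc u w).Gen := ⟨E.pos_inj hu, E.tr.pos_inj hw⟩

theorem pos_abs_MoFam (E : Emb) (l : Lam) (s t : ℝ) :
    E.pos s l - 3 * |t - s| ≤ E.pos t l ∧ E.pos t l ≤ E.pos s l + 3 * |t - s| := by
  have h1 := E.m_le l.1
  have h2 := E.m_nonneg l.1
  have h3 := le_abs_self (t - s)
  have h4 := neg_abs_le (t - s)
  have h5 := abs_nonneg (t - s)
  rw [E.pos_move l s t]
  constructor <;> nlinarith

theorem bl_mv_MoFam (E : Emb) (u w w' : Mk) {b : Bx} {l : Lam} (h : l ∈ (E.fc u w).bl b) :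
    l ∈ (E.fc u w').bl (b.grow 0 (3 * |w'.1 - w.1|)) := by
  obtain ⟨h1, h2, h3, h4⟩ := h
  obtain ⟨k1, k2⟩ := pos_abs_MoFam E.tr l w.1 w'.1
  simp only [Emb.fc_x, Emb.fc_y] at h1 h2 h3 h4
  refine ⟨?_, ?_, ?_, ?_⟩ <;> simp only [Bx.grow, Emb.fc_x, Emb.fc_y] <;> linarith

theorem boxW_mv_MoFam (E : Emb) (u w w' : Mk) {b : Bx} {R R' : Set Lam} {ω : WL Lam C2}
    (h : BoxW c2 (E.fc u w) b R R' ω) :
    BoxW c2 (E.fc u w') (b.grow 0 (3 * |w'.1 - w.1|)) R R' ω := by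
  refine h.transfer (fun _ _ _ _ => Iff.rfl)
    (fun T _ hT => hT.mono (sub_zero _).le (add_zero _).ge) fun D hD =>
      ⟨D, fun l => ?_, fun _ _ _ => Iff.rfl⟩
  obtain ⟨k1, k2⟩ := pos_abs_MoFam E.tr l w.1 w'.1
  refine ⟨fun k => (hD l).1 ?_, fun k => (hD l).2 ?_⟩ <;>
    simp only [Bx.grow, Emb.fc_y] at k ⊢ <;> linarith

namespace Fam
variable {E : Emb} {Q P : Type} {F : Fam E Q P} {q q' : Q} {b : Bx} {x y z : P}

theorem box_ex (F : Fam E Q P) (q : Q) (x y : P) : ∃ b, F.Box q b x y := by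
  obtain ⟨b, hb⟩ := F.cv q x y
  let pt : Lam → Bx := fun l => ⟨(F.Z q).x l, (F.Z q).x l, (F.Z q).y l, (F.Z q).y l⟩
  have hp : ∀ l, l ∈ (F.Z q).bl (pt l) := fun l => ⟨le_rfl, le_rfl, le_rfl, le_rfl⟩
  exact ⟨(b.sup (pt (F.lb x))).sup (pt (F.lb y)),
    (F.Z q).bl_mono ((Bx.sub_sup_right _ _).trans (Bx.sub_sup_left _ _)) (hp _),
    (F.Z q).bl_mono (Bx.sub_sup_right _ _) (hp _),
    hb.mono ((Bx.sub_sup_left _ _).trans (Bx.sub_sup_left _ _))⟩

theorem Box.tr (h : F.Box q b x y) : F.tr.Box q b.tr x y := by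
  refine ⟨Bx.Mem.tr h.1, Bx.Mem.tr h.2.1, ?_⟩
  change BoxW c2 (F.Z q).tr b.tr (Rl (F.Z q).Y (F.lb x)) (Rl (F.Z q).Y (F.lb y))
    ((F.gh q x)⁻¹ * F.gh q y)
  rw [F.relv, F.relv]
  exact h.2.2.kap h.1 h.2.1

theorem Box.mono {b' : Bx} (h : F.Box q b x y) (hb : b.Sub b') : F.Box q b' x y :=
  ⟨(F.Z q).bl_mono hb h.1, (F.Z q).bl_mono hb h.2.1, h.2.2.mono hb⟩

theorem Box.mv (h : F.Box q b x y) (hm : F.B.MV q q') :
    F.Box q' (b.grow 0 (3 * |(F.B.w q').1 - (F.B.w q).1|)) x y := by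
  unfold Box Z at h ⊢
  rw [← hm.2, ← F.mv q q' x hm, ← F.mv q q' y hm]
  exact ⟨bl_mv_MoFam E _ _ _ h.1, bl_mv_MoFam E _ _ _ h.2.1, boxW_mv_MoFam E _ _ _ h.2.2⟩

theorem Box.mh (h : F.Box q b x y) (hm : F.B.MH q q') :
    F.Box q' (b.grow (3 * |(F.B.u q').1 - (F.B.u q).1|) 0) x y :=
  (Box.mv (F := F.tr) h.tr hm).tr

theorem Box.move_MoFam (h : F.Box q b x y) (hm : F.B.Mv q q') :
    F.Box q' (b.grow (3 * F.B.dv q q') (3 * F.B.dh q q')) x y := by
  rcases hm with hm | hm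
  · rw [F.B.dv_mv hm, F.B.dh_mv hm, mul_zero]
    exact h.mv hm
  · rw [F.B.dv_mh hm, F.B.dh_mh hm, mul_zero]
    exact h.mh hm

theorem chain_MoFam : ∀ (l : List Q) (q : Q) (b : Bx), F.Box q b x y → (q :: l).IsChain F.B.Mv →
    F.Box ((q :: l).getLast (List.cons_ne_nil _ _))
      (b.grow (3 * wlen F.B.dv (q :: l)) (3 * wlen F.B.dh (q :: l))) x y
  | [], q, b, h, _ => h.mono (by simp [Bx.Sub, Bx.grow, wlen])
  | a :: l, q, b, h, hc => by
    rw [List.isChain_cons_cons] at hc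
    rw [List.getLast_cons_cons, wlen_cons2, wlen_cons2]
    refine (chain_MoFam l a _ (h.move_MoFam hc.1) hc.2).mono ⟨?_, ?_, ?_, ?_⟩ <;>
      simp only [Bx.grow] <;> linarith

/-- Boxes are uniform on balls of the base. -/
theorem Box.ball (h : F.Box q b x y) (q' : Q) :
    F.Box q' (b.grow (3 * F.B.dv q q') (3 * F.B.dh q q')) x y := by
  obtain ⟨l, e1, e2, e3, e4⟩ := F.B.geo_list E.bc_gen q q'
  have := chain_MoFam l q b h e1
  rwa [e2, e3, e4] at this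

theorem dv_eq (h : F.Box q b x y) {S : Finset Lam} (hS : (F.Z q).bl b ⊆ (S : Set Lam)) :
    F.dv q x y = dT (E.pos (F.B.u q).1) (E.pos (F.B.u q).1 (F.lb x))
      ((pj S (F.gv q x))⁻¹ * pj S (F.gv q y)) (E.pos (F.B.u q).1 (F.lb y)) := by
  rw [← map_inv, ← map_mul]
  exact h.2.2.att ((F.Z q).at_Rl _) ((F.Z q).at_Rl _) hS

theorem dv_ev_MoFam (F : Fam E Q P) (q : Q) (x y : P) : ∀ᶠ S : Finset Lam in atTop,
    F.dv q x y = dL (E.pos (F.B.u q).1) (E.pos (F.B.u q).1 (F.lb x), pj S (F.gv q x))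
      (E.pos (F.B.u q).1 (F.lb y), pj S (F.gv q y)) := by
  obtain ⟨b, hb⟩ := F.box_ex q x y
  exact ((F.Z q).bl_ev b).mono fun S hS => dv_eq hb hS

theorem dv_pm (F : Fam E Q P) (q : Q) : PM (F.dv q) := by
  refine ⟨fun x => ?_, fun x y => ?_, fun x y z => ?_⟩
  · obtain ⟨S, h1⟩ := (F.dv_ev_MoFam q x x).exists
    rw [h1, (dL_pm _).self]
  · obtain ⟨S, h1, h2⟩ := ((F.dv_ev_MoFam q x y).and (F.dv_ev_MoFam q y x)).exists
    rw [h1, h2, (dL_pm _).symm]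
  · obtain ⟨S, h1, h2, h3⟩ := ((F.dv_ev_MoFam q x z).and
      ((F.dv_ev_MoFam q x y).and (F.dv_ev_MoFam q y z))).exists
    rw [h1, h2, h3]
    exact (dL_pm _).tri _ _ _

/-- The planar model of a generic fibre. -/
theorem plan (F : Fam E Q P) (q : Q) (hq : (F.Z q).Gen) (x0 : P) :
    ∃ (Q' : Type) (M : Plan c2 (F.Z q) Q') (j : P → Q'),
      (∀ x, M.g (j x) = F.gv q x ∧ M.h (j x) = F.gh q x ∧
        M.u (j x) = ((F.Z q).x (F.lb x), true) ∧ M.w (j x) = ((F.Z q).y (F.lb x), true)) ∧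
      (∀ x y, M.dv (j x) (j y) = F.dv q x y ∧ M.dh (j x) (j y) = F.dh q x y) ∧
      Function.Injective j ∧
      ∀ r l, M.u r = ((F.Z q).x l, true) → M.w r = ((F.Z q).y l, true) → ∃ x, j x = r := by
  obtain ⟨Q', M, r0, g0, u0, -⟩ := plan_ex c2 (F.Z q) (F.gv q x0) ((F.Z q).x (F.lb x0), true)
    ((F.Z q).y (F.lb x0), true)
  have hR : ∀ r l, M.u r = ((F.Z q).x l, true) → M.R r = Rl (F.Z q).X l := fun r l h => by
    unfold Plan.R
    rw [h, Rs_eq_Rl _ hq.1]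
  have ex : ∀ x, ∃ r, M.g r = F.gv q x ∧ M.u r = ((F.Z q).x (F.lb x), true) ∧
      M.w r = ((F.Z q).y (F.lb x), true) := by
    intro x
    obtain ⟨b, hb⟩ := F.box_ex q x0 x
    have h1 := hb.2.2
    rw [← hR r0 _ u0, ← Rs_eq_Rl _ hq.1] at h1
    obtain ⟨r, e1, e2, e3⟩ := Plan.ex_of_box hq r0 h1 ((F.Z q).y (F.lb x), true)
    exact ⟨r, by rw [e1, g0, mul_inv_cancel_left], e2, e3⟩
  choose j hg hu hw using ex
  have hh : ∀ x, M.h (j x) = F.gh q x := fun x => by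
    have e : Rs (F.Z q).y ((F.Z q).y (F.lb x), true) = Rl (F.Z q).Y (F.lb x) :=
      Rs_eq_Rl (F.Z q).tr hq.2 _
    rw [M.relv, F.relv, hg, hu, hw, Rs_eq_Rl _ hq.1, e]
    rfl
  refine ⟨Q', M, j, fun x => ⟨hg x, hh x, hu x, hw x⟩, fun x y => ⟨?_, ?_⟩, fun x y e => ?_,
    fun r l h1 h2 => ?_⟩
  · unfold Plan.dv
    rw [hg, hg, hu, hu]
    rfl
  · unfold Plan.dh
    rw [hh, hh, hw, hw]
    rfl
  · refine F.ext q x y (hq.1 ?_) (by rw [← hg, ← hg, e])
    have := hu x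
    rw [e, hu] at this
    exact (congrArg Prod.fst this).symm
  · obtain ⟨b, hb⟩ := M.box_ex (j x0) r
    have h3 := hb.2.2
    rw [hR _ _ (hu x0), hR r l h1] at h3
    obtain ⟨y, e1, e2⟩ := F.clv q x0 l b _ h3
    exact ⟨y, M.ext _ _ (by rw [hg, e2, hg, mul_inv_cancel_left]) (by rw [hu, e1, h1])
      (by rw [hw, e1, h2])⟩

theorem thick (F : Fam E Q P) (q : Q) (hq : (F.Z q).Gen) :
    Thick (fun x y => F.dv q x y + F.dh q x y) := by
  rcases isEmpty_or_nonempty P with h0 | ⟨⟨x0⟩⟩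
  · exact ⟨⟨0, fun w => isEmptyElim w⟩, ⟨0, le_rfl, fun w => isEmptyElim w⟩,
      fun w => isEmptyElim w⟩
  obtain ⟨Q', M, j, h1, h2, h3, h4⟩ := F.plan q hq x0
  have BT := M.biTree hq c2_ne
  have hden : (F.Z q).Den 3 := E.fc_den _ _
  have hD : ∀ x y, F.dv q x y + F.dh q x y = 1 * M.dv (j x) (j y) + 1 * M.dh (j x) (j y) :=
    fun x y => by rw [(h2 x y).1, (h2 x y).2, one_mul, one_mul]
  refine ⟨⟨9 * (1 * (4 * 3) + 1 * (4 * 3)), fun w x y z => ?_⟩,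
    ⟨6, by norm_num, fun x y s hs hs' => ?_⟩, fun x T => ?_⟩
  · unfold gp
    simp only [hD]
    exact BT.hyp (by norm_num) (by norm_num) (M.noRect hq c2_ne (by norm_num) hden) zero_le_one
      zero_le_one (j w) (j x) (j y) (j z)
  · beta_reduce at hs' ⊢
    obtain ⟨r, e1, e2⟩ := BT.rg zero_le_one zero_le_one (j x) (j y) s hs (by rwa [hD] at hs')
    obtain ⟨l, l1, l2, l3, l4⟩ := hden (M.u r).1 (M.w r).1
    obtain ⟨r1, m1, k1⟩ := M.ex_mh r ((F.Z q).x l, true)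
    obtain ⟨r2, m2, k2⟩ := M.ex_mv r1 ((F.Z q).y l, true)
    obtain ⟨z, rfl⟩ := h4 r2 l (m2.2.symm.trans k1) k2
    have a1 : M.dv r r1 ≤ 3 := by
      rw [M.dv_mh m1, k1]
      exact abs_le.2 ⟨by linarith, by linarith⟩
    have a2 : M.dh r1 (j z) ≤ 3 := by
      rw [M.dh_mv m2, k2, ← m1.2]
      exact abs_le.2 ⟨by linarith, by linarith⟩
    have a3 : M.dv r (j z) ≤ 3 := by linarith [M.pv.tri r r1 (j z), M.dv_mv m2]
    have a4 : M.dh r (j z) ≤ 3 := by linarith [M.ph.tri r r1 (j z), M.dh_mh m1]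
    have b1 := abs_le.1 e1
    have b2 := abs_le.1 e2
    refine ⟨z, ?_⟩
    rw [hD, hD, hD]
    have c1 := M.pv.symm r (j z)
    have c2 := M.ph.symm r (j z)
    refine ⟨abs_le.2 ⟨?_, ?_⟩, abs_le.2 ⟨?_, ?_⟩⟩
    · linarith [M.pv.tri (j x) (j z) r, M.ph.tri (j x) (j z) r]
    · linarith [M.pv.tri (j x) r (j z), M.ph.tri (j x) r (j z)]
    · linarith [M.pv.tri r (j z) (j y), M.ph.tri r (j z) (j y)]
    · linarith [M.pv.tri (j z) r (j y), M.ph.tri (j z) r (j y)]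
  · refine ((M.ball_fin hq c2_ne (j x) T).preimage h3.injOn).subset fun y hy => ⟨?_, ?_⟩
    · rw [(h2 x y).1, (h2 x y).2]
      exact hy
    · exact ⟨_, (h1 y).2.2⟩

end Fam

end Pool.Agent.E5f

end

section

set_option autoImplicit false

namespace Pool.Agent.E5f

open Classical Filter

/-- The exponent of one pass from the side `s` with status `σ`. -/
def pe_BrRoute (s σ : Bool) : ℤ := if σ = true then 0 else if s = true then -1 else 1

/-- The exponent of a sequence of passes with alternating status. -/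
def te_BrRoute : ℕ → Bool → Bool → ℤ
  | 0, _, _ => 0
  | n + 1, s, σ => pe_BrRoute s σ + te_BrRoute n (!s) (!σ)

theorem te_even_BrRoute (s σ : Bool) : ∀ m : ℕ,
    te_BrRoute (2 * m) s σ = (if s = σ then (m : ℤ) else -m) ∧ not^[2 * m] s = s
  | 0 => by simp [te_BrRoute]
  | m + 1 => by
    obtain ⟨h1, h2⟩ := te_even_BrRoute s σ m
    rw [show 2 * (m + 1) = 2 * m + 1 + 1 by ring]
    refine ⟨?_, ?_⟩
    · rw [te_BrRoute, te_BrRoute, Bool.not_not, Bool.not_not, h1]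
      cases s <;> cases σ <;> simp [pe_BrRoute] <;> ring
    · rw [Function.iterate_succ_apply, Function.iterate_succ_apply, Bool.not_not, h2]

theorem te_odd_BrRoute (s σ : Bool) (m : ℕ) :
    te_BrRoute (2 * m + 1) s σ = pe_BrRoute s σ + (if s = σ then (m : ℤ) else -m) ∧
      not^[2 * m + 1] s = !s := by
  obtain ⟨h1, h2⟩ := te_even_BrRoute (!s) (!σ) m
  refine ⟨?_, by rw [Function.iterate_succ_apply, h2]⟩
  rw [te_BrRoute, h1]
  cases s <;> cases σ <;> simp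

theorem te_ex_BrRoute (s t : Bool) (k : ℤ) (h0 : k ≠ 0) (h1 : s = false → t = true → k ≠ 1)
    (h2 : s = true → t = false → k ≠ -1) :
    ∃ n σ, 1 ≤ n ∧ not^[n + 1] s = t ∧ te_BrRoute (n + 1) s σ = k := by
  have ev : ∀ (m : ℕ) (σ : Bool), 1 ≤ m → s = t → (if s = σ then (m : ℤ) else -m) = k →
      ∃ n σ, 1 ≤ n ∧ not^[n + 1] s = t ∧ te_BrRoute (n + 1) s σ = k := by
    intro m σ a b c
    obtain ⟨j1, j2⟩ := te_even_BrRoute s σ m
    refine ⟨2 * m - 1, σ, by omega, ?_⟩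
    rw [show 2 * m - 1 + 1 = 2 * m by omega, j1, j2]
    exact ⟨b, c⟩
  have od : ∀ (m : ℕ) (σ : Bool), 1 ≤ m → (!s) = t →
      pe_BrRoute s σ + (if s = σ then (m : ℤ) else -m) = k →
      ∃ n σ, 1 ≤ n ∧ not^[n + 1] s = t ∧ te_BrRoute (n + 1) s σ = k := by
    intro m σ a b c
    obtain ⟨j1, j2⟩ := te_odd_BrRoute s σ m
    exact ⟨2 * m, σ, by omega, j2.trans b, j1.trans c⟩
  rcases lt_or_gt_of_ne h0 with h | h
  · cases s <;> cases t
    · exact ev k.natAbs true (by omega) rfl (by simp only [Bool.false_eq_true, if_false]; omega)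
    · exact od k.natAbs true (by omega) rfl
        (by simp only [pe_BrRoute, Bool.false_eq_true, if_false, if_true]; omega)
    · have := h2 rfl rfl
      exact od (k.natAbs - 1) false (by omega) rfl
        (by simp only [pe_BrRoute, Bool.false_eq_true, Bool.true_eq_false, if_false, if_true]; omega)
    · exact ev k.natAbs false (by omega) rfl (by simp only [Bool.true_eq_false, if_false]; omega)
  · cases s <;> cases t
    · exact ev k.natAbs false (by omega) rfl (by simp only [if_true]; omega)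
    · have := h1 rfl rfl
      exact od (k.natAbs - 1) false (by omega) rfl
        (by simp only [pe_BrRoute, Bool.false_eq_true, if_false, if_true]; omega)
    · exact od k.natAbs true (by omega) rfl (by simp only [pe_BrRoute, if_true]; omega)
    · exact ev k.natAbs true (by omega) rfl (by simp only [if_true]; omega)

theorem dir_BrRoute {L : Type} (ρ : L → ℝ) {a : L} {u u' : Mk} (hu : u.1 = ρ a)
    (h : a ∈ Rs ρ u ↔ a ∈ Rs ρ u') : Dir u.2 (toLex u) (toLex u') := by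
  obtain ⟨x, e⟩ := u
  obtain rfl : x = ρ a := hu
  cases e
  · exact (mem_Rs_iff ρ u' a).1 (h.1 (Or.inr ⟨rfl, rfl⟩))
  · exact (not_mem_Rs_iff ρ u' a).1 fun k => by simpa [Rs] using h.2 k

namespace Plan
variable {E : Emb} {Q : Type} (B : Plan cz E.bc Q)

theorem stp_BrRoute (E : Emb) (a : Zl) (s σ : Bool) :
    stp cz E.bc.X (Rs E.bc.x (E.ξ a, s)) (Rs E.bc.x (E.ξ a, !s)) (Rs E.bc.y (E.η a, σ)) =
      emb (lt a (cz ^ pe_BrRoute s σ)) := by
  have h := stp_cross (Z := E.bc) E.ξ_inj cz a (Rs E.bc.y (E.η a, σ))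
  have e : (if a ∈ Rs E.bc.y (E.η a, σ) then cz else 1) = cz ^ pe_BrRoute false σ := by
    cases σ <;> simp [Rs, pe_BrRoute]
  rw [e] at h
  cases s
  · exact h
  · rw [← stp_inv]
    refine (congrArg Inv.inv h).trans ?_
    rw [← map_inv, ← lt_inv]
    cases σ <;> simp [pe_BrRoute]

theorem pass_BrRoute {a : Zl} {s σ : Bool} {p q : Q} (hp : B.u p = (E.ξ a, s))
    (hq : B.u q = (E.ξ a, !s)) (hg : B.g q = B.g p * emb (lt a (cz ^ pe_BrRoute s σ))) :
    B.stpI.St p q (fun _ => σ) := by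
  refine ⟨Rs E.bc.y (E.η a, σ), ⟨⟨_, _, inB_Rs_BrStep _ _⟩, ?_⟩, fun b hb => ?_⟩
  · unfold R
    rw [hp, hq, stp_BrRoute, hg]
  · rw [E.cr_iff, hp, hq] at hb
    have e : a = b := E.ξ_inj (by
      by_contra k
      exact hb (by simp [Rs, k]))
    subst e
    cases σ <;> simp [Rs]

theorem mic_BrRoute {a : Zl} {q : Q} : ∀ (n : ℕ) (s σ : Bool) (p : Q), B.u p = (E.ξ a, s) →
    B.u q = (E.ξ a, not^[n + 1] s) →
    B.g q = B.g p * emb (lt a (cz ^ te_BrRoute (n + 1) s σ)) → B.stpI.Mic a (n + 1) σ p q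
  | 0, s, σ, p, hp, hq, hg => by
    refine ⟨q, congrArg Prod.fst hp, ?_, B.pass_BrRoute hp hq (by simpa [te_BrRoute] using hg), rfl⟩
    show toLex (B.u q) = toLex (E.ξ a, !(B.u p).2)
    rw [hp, hq]
    rfl
  | n + 1, s, σ, p, hp, hq, hg => by
    obtain ⟨r, h1, h2⟩ := B.reach_all_BrStep E.ξ_inj (inB_Rs_BrStep E.bc.y (E.η a, σ))
      (E.ξ a, s) (E.ξ a, !s) p hp
    rw [stp_BrRoute] at h2
    refine ⟨r, congrArg Prod.fst hp, ?_, B.pass_BrRoute hp h1 h2,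
      mic_BrRoute n (!s) (!σ) r h1 hq ?_⟩
    · show toLex (B.u r) = toLex (E.ξ a, !(B.u p).2)
      rw [hp, h1]
    · rw [hg, h2, mul_assoc, ← map_mul, ← lt_mul, ← zpow_add]
      rfl

/-- An essential touch of the model is an essential touch of the interface. -/
theorem brs_tch {a : Zl} {x : CZ} {p q : Q} (h : B.Touch a x p q)
    (he : Ess cz (B.u p).2 (B.u q).2 x) : B.stpI.Tch a p q := by
  obtain ⟨k, rfl⟩ : ∃ k : ℤ, x = cz ^ k :=
    ⟨Multiplicative.toAdd x, by rw [cz, ← ofAdd_zsmul, smul_eq_mul, mul_one, ofAdd_toAdd]⟩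
  obtain ⟨n, σ, h1, h2, h3⟩ := te_ex_BrRoute (B.u p).2 (B.u q).2 k
    (fun e => he.1 (by rw [e, zpow_zero])) (fun e1 e2 e => he.2.1 e1 e2 (by rw [e, zpow_one]))
    (fun e1 e2 e => he.2.2 e1 e2 (by rw [e, zpow_neg_one]))
  refine ⟨n + 1, σ, by omega, B.mic_BrRoute n (B.u p).2 σ p (Prod.ext h.1 rfl)
    (Prod.ext h.2.1 h2.symm) ?_⟩
  rw [h3]
  exact h.2.2

theorem rt_BrRoute {k : ℕ} {s t : ℕ → Q} {D : ℕ → Set Zl} {a : ℕ → Zl} {x : ℕ → CZ}
    (h : Route B k s t D a x) {lo hi : ℝ} (hD : ∀ i ≤ k, InB E.bc.y lo hi (D i)) :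
    ∀ (j i : ℕ) (ε : Bool), i + j = k → Dir ε (B.stpI.ux (s i)) (B.stpI.ux (t i)) →
      (i < k → B.stpI.sx (t i) = !ε) → ∃ ε' n, B.stpI.Rt lo hi (s i) ε (t k) ε'
        (∑ m ∈ Finset.range (j + 1), |(B.u (t (i + m))).1 - (B.u (s (i + m))).1|) n := by
  have st : ∀ i ≤ k, ∀ ε, Dir ε (B.stpI.ux (s i)) (B.stpI.ux (t i)) →
      B.stpI.DSt lo hi ε (s i) (t i) (fun b => decide (b ∉ D i)) := fun i hi' ε hd =>
    ⟨⟨D i, h.step i hi', fun b _ => by simp⟩, hd, fun b _ =>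
      ⟨fun e => by simpa using (hD i hi' b).2 e, fun e => by simpa using (hD i hi' b).1 e⟩⟩
  intro j
  induction j with
  | zero =>
    intro i ε e hd _
    obtain rfl : i = k := e
    rw [Finset.sum_range_one]
    exact ⟨ε, 0, Stp.Rt.one _ _ ε _ (st i le_rfl ε hd)⟩
  | succ j ih =>
    intro i ε e hd hs
    have hi : i < k := by omega
    have d1 : Dir (B.u (s (i + 1))).2 (toLex (B.u (s (i + 1)))) (toLex (B.u (t (i + 1)))) :=
      dir_BrRoute E.bc.x (h.touch i hi).2.1 (h.dep i hi)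
    obtain ⟨ε', n, hr⟩ := ih (i + 1) (B.u (s (i + 1))).2 (by omega) d1 (fun h1 => by
      have d2 : Dir (B.u (t (i + 1))).2 (toLex (B.u (t (i + 1)))) (toLex (B.u (s (i + 1)))) :=
        dir_BrRoute E.bc.x (h.touch (i + 1) h1).1 (h.arr (i + 1) h1).symm
      show (B.u (t (i + 1))).2 = !(B.u (s (i + 1))).2
      rw [Bool.eq_not_iff]
      intro e1
      rw [e1] at d2
      have e2 : B.u (s (i + 1)) = B.u (t (i + 1)) := by
        unfold Dir at d1 d2
        split_ifs at d1 d2 <;> exact toLex.injective (le_antisymm (by assumption) (by assumption))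
      refine h.ne i h1 (E.ξ_inj ?_)
      have e3 := (h.touch i hi).2.1
      rw [e2, (h.touch (i + 1) h1).1] at e3
      exact e3.symm)
    refine ⟨ε', n + 1, ?_⟩
    rw [Finset.sum_range_succ', add_comm]
    simp only [Nat.add_right_comm i 1, Nat.add_assoc i] at hr
    exact Stp.Rt.cons _ _ _ _ ε ε' _ (a i) _ n (st i hi.le ε hd) (hs hi)
      (B.brs_tch (h.touch i hi) (h.ess i hi)) hr

theorem brs_route (p r : Q) : ∃ ε ε' n, B.stpI.Rt (B.stpI.py p - B.dh p r) (B.stpI.py p + B.dh p r)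
    p ε r ε' (B.dv p r) n := by
  have hZ : E.bc.Gen := ⟨E.ξ_inj, E.η_inj⟩
  have hc : cz ≠ 1 := by decide
  obtain ⟨k, s, t, D, a, x, h, rfl, rfl, hD⟩ := route_ex hZ hc cz_gen (B.box_dist hZ hc p r)
  obtain ⟨ε, h1, h2⟩ : ∃ ε, Dir ε (B.stpI.ux (s 0)) (B.stpI.ux (t 0)) ∧
      (0 < k → B.stpI.sx (t 0) = !ε) := by
    by_cases hk : 0 < k
    · exact ⟨!(B.u (t 0)).2,
        dir_rev_FsBase (dir_BrRoute E.bc.x (h.touch 0 hk).1 (h.arr 0 hk).symm),
        fun _ => (Bool.not_not _).symm⟩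
    · rcases le_total (B.stpI.ux (s 0)) (B.stpI.ux (t 0)) with e | e
      · exact ⟨true, by simpa [Dir] using e, fun e => absurd e hk⟩
      · exact ⟨false, by simpa [Dir] using e, fun e => absurd e hk⟩
  obtain ⟨ε', n, hr⟩ := B.rt_BrRoute h hD k 0 ε (zero_add k) h1 h2
  refine ⟨ε, ε', n, ?_⟩
  rw [h.dv hZ hc]
  simp only [zero_add] at hr
  exact hr

/-- The base system of a planar model. -/
noncomputable def bsys (Cu : Q → Prop) (hc : ∀ r a, B.Cusp a r → Cu r) :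
    BSys E.lat B.dv B.dh Cu where
  toStp := B.stpI
  pv := B.brs_pv.1
  ph := (brs_pv (E := E.tr) B.tr).1
  hv := B.brs_pv.2
  symm := B.brs_symm
  congr := B.brs_congr
  trans := B.brs_trans
  split := B.brs_split
  det := B.brs_det
  st_dv := B.brs_dv
  st_vert := B.brs_vert_dh
  st_hor := B.brs_hor_dh
  vert := B.brs_vert
  hor := B.brs_hor
  cusp := fun q a hx hy => by
    obtain ⟨z, h1, h2⟩ := B.brs_cusp q a hx hy
    exact ⟨z, hc z a h1, h2⟩
  route := B.brs_route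

end Plan

end Pool.Agent.E5f

end

section

set_option autoImplicit false

namespace Pool.Agent.E5f

open Classical Filter

section
variable {O : Type} [AddCommGroup O] {E : Lat O}

theorem fin_BrZig (lo hi : ℝ) (u u' : Mx) :
    {a | E.Cr u u' a ∧ lo ≤ E.η a ∧ E.η a ≤ hi}.Finite := by
  refine (E.disc (|(ofLex u).1| + |(ofLex u').1| + |lo| + |hi|)).subset fun a ha => ?_
  have h1 := abs_le.1 (le_refl |(ofLex u).1|)
  have h2 := abs_le.1 (le_refl |(ofLex u').1|)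
  have h3 := abs_le.1 (le_refl |lo|)
  have h4 := abs_le.1 (le_refl |hi|)
  obtain ⟨h | h, h5, h6⟩ := ha <;> have h7 := fst_FsBase h.1 <;> have h8 := fst_FsBase h.2 <;>
    rw [ofLex_toLex] at h7 h8 <;>
    exact ⟨abs_le.2 ⟨by linarith, by linarith⟩, abs_le.2 ⟨by linarith, by linarith⟩⟩

theorem ord_BrZig (ε : Bool) {a b : O} (h : a ≠ b) :
    Dir ε (toLex (E.ξ a, ε)) (toLex (E.ξ b, !ε)) ∨ Dir ε (toLex (E.ξ b, ε)) (toLex (E.ξ a, !ε)) := by
  have h1 : E.ξ a ≠ E.ξ b := fun e => by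
    have := E.norm _ (sub_ne_zero.2 h)
    rw [map_sub, e, sub_self, abs_zero, zero_mul] at this
    linarith
  rcases h1.lt_or_gt with h2 | h2 <;> cases ε
  · exact Or.inr (Prod.Lex.toLex_le_toLex.2 (Or.inl h2))
  · exact Or.inl (Prod.Lex.toLex_le_toLex.2 (Or.inl h2))
  · exact Or.inl (Prod.Lex.toLex_le_toLex.2 (Or.inl h2))
  · exact Or.inr (Prod.Lex.toLex_le_toLex.2 (Or.inl h2))

theorem lev_BrZig {lo hi : ℝ} {u u' : Mx} {σ : O → Bool} (h : E.Thr lo hi u u' σ)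
    (hs : {a | E.Cr u u' a ∧ lo ≤ E.η a ∧ E.η a ≤ hi}.Subsingleton) :
    ∃ v, ∀ a, E.Cr u u' a → σ a = E.lev v a := by
  have k1 : ∀ a y s, E.η a < y → E.lev (toLex (y, s)) a = true := fun a y s h =>
    decide_eq_true (Prod.Lex.toLex_le_toLex.2 (Or.inl h))
  have k2 : ∀ a y s, y < E.η a → E.lev (toLex (y, s)) a = false := fun a y s h =>
    decide_eq_false (Prod.Lex.toLex_lt_toLex.2 (Or.inl h)).not_ge
  by_cases h0 : ∃ b, E.Cr u u' b ∧ lo ≤ E.η b ∧ E.η b ≤ hi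
  · obtain ⟨b, hb⟩ := h0
    refine ⟨toLex (E.η b, σ b), fun a ha => ?_⟩
    rcases lt_or_ge (E.η a) lo with h1 | h1
    · rw [(h a ha).1 h1, k1 a _ _ (h1.trans_le hb.2.1)]
    rcases lt_or_ge hi (E.η a) with h2 | h2
    · rw [(h a ha).2 h2, k2 a _ _ (hb.2.2.trans_lt h2)]
    rw [hs ⟨ha, h1, h2⟩ hb]
    cases σ b
    · exact (decide_eq_false (lt_FsBase _).not_ge).symm
    · exact (decide_eq_true le_rfl).symm
  · refine ⟨toLex (lo, false), fun a ha => ?_⟩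
    rcases lt_or_ge (E.η a) lo with h1 | h1
    · rw [(h a ha).1 h1, k1 a _ _ h1]
    · rw [(h a ha).2 (not_le.1 fun h2 => h0 ⟨a, ha, h1, h2⟩)]
      have h2 : (toLex (lo, false) : Mx) ≤ toLex (E.η a, false) :=
        Prod.Lex.toLex_le_toLex.2 (h1.lt_or_eq.imp_right fun e => ⟨e, le_rfl⟩)
      exact (decide_eq_false (h2.trans_lt (lt_FsBase _)).not_ge).symm

end

/-- Induction principle: a step is a monotone zigzag of vertical and horizontal moves. -/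
theorem BSys.zig {O : Type} [AddCommGroup O] {E : Lat O} {Q : Type} {dv dh : Q → Q → ℝ}
    {Cu : Q → Prop} (X : BSys E dv dh Cu) (σ : O → Bool) (ε : Bool) (Pr : Q → Q → Prop)
    (hv : ∀ q r, X.St q r σ → X.ux q = X.ux r → Pr q r)
    (hh : ∀ q r, X.St q r (E.lev (X.uy q)) → X.uy q = X.uy r → Dir ε (X.ux q) (X.ux r) →
      (∀ a, E.Cr (X.ux q) (X.ux r) a → σ a = E.lev (X.uy q) a) → Pr q r)
    (ht : ∀ p q r, Dir ε (X.ux p) (X.ux q) → Dir ε (X.ux q) (X.ux r) → Pr p q → Pr q r → Pr p r)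
    {lo hi : ℝ} {q r : Q} (h : X.toStp.DSt lo hi ε q r σ) : Pr q r := by
  induction hn : {a | E.Cr (X.ux q) (X.ux r) a ∧ lo ≤ E.η a ∧ E.η a ≤ hi}.ncard
    using Nat.strong_induction_on generalizing q r with
  | _ n ih =>
  by_cases hs : {a | E.Cr (X.ux q) (X.ux r) a ∧ lo ≤ E.η a ∧ E.η a ≤ hi}.Subsingleton
  · obtain ⟨v, hl⟩ := lev_BrZig h.thr hs
    obtain ⟨q1, a1, a2, a3⟩ := X.vert q v σ
    obtain ⟨r1, b1, b2, b3⟩ := X.vert r v σ
    have d1 : Dir ε (X.ux q1) (X.ux q) := a1 ▸ dir_refl_FsBase ε _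
    have d2 : Dir ε (X.ux q1) (X.ux r) := a1 ▸ h.dir
    have d3 : Dir ε (X.ux r) (X.ux r1) := b1 ▸ dir_refl_FsBase ε _
    have d4 := dir_trans_FsBase d2 d3
    have s1 := X.trans ε _ _ _ σ (X.trans ε _ _ _ σ (X.symm _ _ _ a3) h.st d1 h.dir) b3 d2 d3
    have e : ∀ a, E.Cr (X.ux q1) (X.ux r1) a → σ a = E.lev (X.uy q1) a := by
      rwa [a1, b1, a2]
    exact ht q r1 r (b1 ▸ h.dir) (b1 ▸ dir_refl_FsBase ε _)
      (ht q q1 r1 (a1 ▸ dir_refl_FsBase ε _) d4 (hv _ _ a3 a1.symm)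
        (hh _ _ (X.congr _ _ _ _ s1 fun a ha => (e a ha).symm) (a2.trans b2.symm) d4 e))
      (hv _ _ (X.symm _ _ _ b3) b1)
  · have key : ∀ a b, (E.Cr (X.ux q) (X.ux r) a ∧ lo ≤ E.η a ∧ E.η a ≤ hi) →
        (E.Cr (X.ux q) (X.ux r) b ∧ lo ≤ E.η b ∧ E.η b ≤ hi) →
        Dir ε (toLex (E.ξ a, ε)) (toLex (E.ξ b, !ε)) → Pr q r := by
      intro a b ha hb hd
      have c1 := cr_dir_FsBase h.dir ha.1
      have c2 := cr_dir_FsBase h.dir hb.1
      have d1 : Dir ε (X.ux q) (toLex (E.ξ a, ε)) := dir_trans_FsBase c1.1 (by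
        cases ε <;> exact (lt_FsBase _).le)
      obtain ⟨m, m1, m2, m3⟩ := X.split ε q r σ _ h.st d1 c1.2
      have e1 : E.Cr (X.ux q) (X.ux m) a := dir_cr_FsBase c1.1 (m1 ▸ dir_refl_FsBase ε _)
      have e2 : E.Cr (X.ux m) (X.ux r) b := dir_cr_FsBase (m1 ▸ hd) c2.2
      have d2 := c1.2
      rw [← m1] at d1 d2
      have f1 : ∀ x, E.Cr (X.ux q) (X.ux m) x → E.Cr (X.ux q) (X.ux r) x := fun x hx =>
        dir_cr_FsBase (cr_dir_FsBase d1 hx).1 (dir_trans_FsBase (cr_dir_FsBase d1 hx).2 d2)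
      have f2 : ∀ x, E.Cr (X.ux m) (X.ux r) x → E.Cr (X.ux q) (X.ux r) x := fun x hx =>
        dir_cr_FsBase (dir_trans_FsBase d1 (cr_dir_FsBase d2 hx).1) (cr_dir_FsBase d2 hx).2
      refine ht q m r d1 d2 (ih _ ?_ ⟨m2, d1, fun x hx => h.thr x (f1 x hx)⟩ rfl)
        (ih _ ?_ ⟨m3, d2, fun x hx => h.thr x (f2 x hx)⟩ rfl)
      · exact hn ▸ Set.ncard_lt_ncard ⟨fun x hx => ⟨f1 x hx.1, hx.2⟩,
          fun hx => cr_not_FsBase d1 d2 (hx hb).1 e2⟩ (fin_BrZig lo hi _ _)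
      · exact hn ▸ Set.ncard_lt_ncard ⟨fun x hx => ⟨f2 x hx.1, hx.2⟩,
          fun hx => cr_not_FsBase d1 d2 e1 (hx ha).1⟩ (fin_BrZig lo hi _ _)
    obtain ⟨a, ha, b, hb, hab⟩ := Set.not_subsingleton_iff.1 hs
    exact (ord_BrZig (E := E) ε hab).elim (key a b ha hb) (key b a hb ha)

end Pool.Agent.E5f

end

section

set_option autoImplicit false

namespace Pool.Agent.E5f

open Classical Filter

/-- One adjacent swap acts by the swap map of the upper label on the lower label. -/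
theorem swap_BrChain {L : Type} {S : Finset L} (X Y : Od L) {a b : L}
    (hA : Adjc (S : Set L) X a b) (hY : Y b < Y a) {l : L} (hl : l ∈ S) {g : W L C2}
    (hg : Sup (S : Set L) g) :
    kapf c2 Y (odSwap X a b) S l (kapf c2 X Y S l g) = psw a b c2 l g := by
  rcases lt_trichotomy (X a) (X b) with h | h | h
  · have hw : Swp S X (odSwap X a b) a b := swp_odSwap hA.ha hA.hb h (fun m hm h1 h2 => by
      have n1 : m ≠ a := fun e => by rw [e] at h1; exact lt_irrefl _ h1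
      have n2 : m ≠ b := fun e => by rw [e] at h2; exact lt_irrefl _ h2
      exact lt_asymm h1 ((hA.adj m hm n1 n2).2 h2))
    rw [kapf_swap_up c2 Y hw hY hl hg, show c2⁻¹ = c2 by decide]
  · exact absurd (X.injective h) hA.ne
  · have hw : Swp S X (odSwap X b a) b a := swp_odSwap hA.hb hA.ha h (fun m hm h1 h2 => by
      have n1 : m ≠ b := fun e => by rw [e] at h1; exact lt_irrefl _ h1
      have n2 : m ≠ a := fun e => by rw [e] at h2; exact lt_irrefl _ h2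
      exact lt_asymm h1 ((hA.adj m hm n2 n1).1 h2))
    have e : odSwap X a b = odSwap X b a := by
      unfold odSwap
      rw [Equiv.swap_comm]
    rw [e, kapf_swap_down c2 Y hw hY hl hg]

/-- The change of coordinates along a chain of swaps acts on paths by the swap moves. -/
theorem chn_BrChain {L : Type} {S : Finset L} (k0 : L → Key) (X1 Y : Od L) {l m : L} (hl : l ∈ S)
    (hm : m ∈ S) : ∀ (c : List (L × L)) (X : Od L), Chn (S : Set L) k0 X1 X c →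
      (∀ e ∈ c, Y e.2 < Y e.1) →
      (∀ a ∈ (S : Set L), ∀ b ∈ (S : Set L), (kend X c a < kend X c b ↔ X1 a < X1 b)) →
      ∀ g h : W L C2, Sup (S : Set L) g → Sup (S : Set L) h →
      cpl (l, kapf c2 Y X1 S l (kapf c2 X Y S l g)) (m, kapf c2 Y X1 S m (kapf c2 X Y S m h)) =
        act c (cpl (l, g) (m, h))
  | [], X, _, _, he, g, h, hg, hh => by
    rw [kapf_same c2 Y he hl hg, kapf_same c2 Y he hm hh]
    rfl
  | e :: c, X, hc, hy, he, g, h, hg, hh => by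
    obtain ⟨hA, -, -, hc'⟩ := hc
    have hY := hy e (List.mem_cons_self ..)
    have ih := chn_BrChain k0 X1 Y hl hm c (odSwap X e.1 e.2) hc'
      (fun e' h' => hy e' (List.mem_cons_of_mem _ h')) he _ _
      (sup_psw hA.ha e.2 c2 l hg) (sup_psw hA.ha e.2 c2 m hh)
    have h1 := swap_BrChain X Y hA hY hl hg
    have h2 := swap_BrChain X Y hA hY hm hh
    have h3 : cpl (l, psw e.1 e.2 c2 l g) (m, psw e.1 e.2 c2 m h) =
        swL e.1 e.2 (cpl (l, g) (m, h)) := cpl_tp hA.ne (l, g) (m, h)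
    rw [h3, ← h1, ← h2, kapf_kapf, kapf_kapf] at ih
    exact ih

theorem hgt_BrChain {O : Type} [AddCommGroup O] (E : Lat O) (s t : Fin 3) :
    hgt s < hgt t ↔ E.w' s < E.w' t := by
  have h0 := E.w'0
  have h1 := E.w'1
  have h2 := E.w'2
  fin_cases s <;> fin_cases t <;> simp [hgt] <;> linarith

/-- A pair exchanged in a chain between two markers collides at a crossed point. -/
theorem cr_BrChain {O : Type} [AddCommGroup O] (E : Lat O) {ε : Bool} {u u' : Mx}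
    (hd : Dir ε u u') {x y : Fin 3 × O} (hne : x ≠ y)
    (h : E.key u x < E.key u y ↔ E.key u' y < E.key u' x) {a : O} (ha : E.bk a x = E.bk a y) :
    x.1 ≠ y.1 ∧ E.Cr u u' a := by
  have key : ∀ x y : Fin 3 × O, E.bk a x = E.bk a y → E.key u x < E.key u y →
      E.key u' y < E.key u' x → x.1 ≠ y.1 ∧ E.Cr u u' a := by
    intro x y ha h1 h2
    obtain ⟨a', b1, b2, b3⟩ := (E.inv_iff hd x y).1 ⟨h1, h2⟩
    have n : x.1 ≠ y.1 := fun e => by
      have : E.sp x = E.sp y := by unfold Lat.sp; rw [e]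
      rw [this] at b3
      split_ifs at b3 <;> exact lt_irrefl _ b3
    exact ⟨n, by rw [E.col_uniq n ha b1]; exact b2⟩
  by_cases h1 : E.key u x < E.key u y
  · exact key x y ha h1 (h.1 h1)
  · have h2 := (flip_LsChain (E.key_inj u) hne).2 h1
    have h3 := (flip_LsChain (E.key_inj u') hne.symm).2 (fun k => h1 (h.2 k))
    obtain ⟨n, c⟩ := key y x ha.symm h2 h3
    exact ⟨n.symm, c⟩

/-- No pair is inverted twice along a monotone sequence of markers. -/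
theorem mono_BrChain {O : Type} [AddCommGroup O] (E : Lat O) {ε : Bool} {u u' u'' : Mx}
    (hd : Dir ε u u') (hd' : Dir ε u' u'') {x y : Fin 3 × O} (h1 : E.key u x < E.key u y)
    (h2 : E.key u' y < E.key u' x) : E.key u'' y < E.key u'' x := by
  have hne : x ≠ y := fun e => by rw [e] at h1; exact lt_irrefl _ h1
  refine (flip_LsChain (E.key_inj u'') hne).2 (fun h3 => ?_)
  obtain ⟨_, _, _, b⟩ := (E.inv_iff hd x y).1 ⟨h1, h2⟩
  obtain ⟨_, _, _, b'⟩ := (E.inv_iff hd' y x).1 ⟨h2, h3⟩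
  split_ifs at b b' <;> exact lt_asymm b b'

/-- The vertical order of two colliding labels gives the status of the collision point. -/
theorem stat_BrChain (E : Emb) (w : Mk) {x y : Lam} (n : x.1 ≠ y.1) {a : Zl}
    (ha : E.lat.bk a x = E.lat.bk a y) (h : E.tr.key w y < E.tr.key w x) :
    hgt (E.lat.tyl y) < hgt (E.lat.tyl x) ↔ E.lat.lev (toLex w) a = true := by
  have e : ∀ z : Lam, E.lat.w' (E.lat.tyl z) = E.tr.m z.1 := fun z => by
    simp [Lat.tyl, Emb.lat]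
  have c1 : E.tr.col x y = a := (E.col_eq_iff n a).2 ha
  have c2 : E.tr.col y x = a := (E.col_eq_iff n.symm a).2 ha.symm
  rw [hgt_BrChain E.lat, e, e, ← Bool.not_eq_false, E.lev_iff]
  rcases lt_or_gt_of_ne (E.tr.m_ne n) with k | k
  · have := (E.tr.key_lt_fast w k).1 h
    rw [c1] at this
    exact iff_of_false (lt_asymm k) (not_not.2 this)
  · have := (E.tr.key_lt_slow w k).1 h
    rw [c2] at this
    exact iff_of_true k this

namespace Fam
variable {E : Emb} {Q P : Type} (F : Fam E Q P)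

theorem ev_BrChain (x y : P) : ∀ᶠ S : Finset Lam in atTop, F.lb x ∈ S ∧ F.lb y ∈ S :=
  (eventually_ge_atTop {F.lb x, F.lb y}).mono fun _ hS => ⟨hS (by simp), hS (by simp)⟩

theorem br_pth (q : Q) (x y : P) :
    ∀ᶠ S : Finset Lam in atTop, Pth (S : Set Lam) (F.path q S x y) := by
  filter_upwards [F.ev_BrChain x y] with S hS
  refine ⟨(cpl_rd _ _).1, (cpl_rd _ _).2.1, fun z hz => ?_⟩
  rcases (cpl_mem _ _ z).1 hz with rfl | rfl | h
  · exact hS.1
  · exact hS.2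
  · have h1 := sup_pj S ((F.gv q x)⁻¹ * F.gv q y)
    rw [map_mul, map_inv] at h1
    exact h1 z h

/-- A horizontal move is a chain of swaps. -/
theorem br_chain_mh {q r : Q} (h : F.B.MH q r) (x y : P) : ∀ᶠ S : Finset Lam in atTop, ∃ c,
    FCh (S : Set Lam) (E.key (F.B.u q)) (E.key (F.B.u r)) c ∧
    (∀ e ∈ c, E.tr.key (F.B.w q) e.2 < E.tr.key (F.B.w q) e.1) ∧
    F.path r S x y = act c (F.path q S x y) := by
  filter_upwards [F.ev_BrChain x y] with S hS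
  obtain ⟨c, hc, hu⟩ := fch_exists S (E.key (F.B.u q)).injective (E.key (F.B.u r)).injective
    (fun a b => E.tr.key (F.B.w q) b < E.tr.key (F.B.w q) a)
  have hy : ∀ e ∈ c, E.tr.key (F.B.w q) e.2 < E.tr.key (F.B.w q) e.1 := fun e he =>
    (hu e he).elim id
      (flip_LsChain (E.tr.key (F.B.w q)).injective (fch_mem hc he).2.2.1).2
  have hg : ∀ z, pj S (F.gv r z) = kapf c2 (E.tr.key (F.B.w q)) (E.key (F.B.u r)) S (F.lb z)
      (kapf c2 (E.key (F.B.u q)) (E.tr.key (F.B.w q)) S (F.lb z) (pj S (F.gv q z))) := by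
    intro z
    rw [F.relh r z, ← F.mh q r z h, F.relv q z, ← h.2, pj_kap, pj_kap]
  refine ⟨c, hc, hy, ?_⟩
  unfold Fam.path
  rw [hg x, hg y]
  exact chn_BrChain _ _ _ hS.1 hS.2 c _ hc.chn hy hc.fin _ _ (sup_pj S _) (sup_pj S _)

theorem br_chain (q r : Q) (σ : Zl → Bool) (h : F.B.stpI.St q r σ) (x y : P) :
    ∀ᶠ S : Finset Lam in atTop, ∃ c,
    FCh (S : Set Lam) (E.lat.key (F.B.stpI.ux q)) (E.lat.key (F.B.stpI.ux r)) c ∧
    (∀ e ∈ c, ∀ a, E.lat.bk a e.1 = E.lat.bk a e.2 →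
      (hgt (E.lat.tyl e.2) < hgt (E.lat.tyl e.1) ↔ σ a = true)) ∧
    F.path r S x y = act c (F.path q S x y) := by
  obtain ⟨lo, hi, ht⟩ := F.B.brs_thr h
  obtain ⟨ε, hd⟩ : ∃ ε, Dir ε (F.B.stpI.ux q) (F.B.stpI.ux r) := by
    rcases le_total (F.B.stpI.ux q) (F.B.stpI.ux r) with k | k
    · exact ⟨true, by simpa [Dir] using k⟩
    · exact ⟨false, by simpa [Dir] using k⟩
  refine BSys.zig (F.B.bsys (fun _ => True) (fun _ _ _ => trivial)) σ ε
    (fun q r => ∀ᶠ S : Finset Lam in atTop, ∃ c,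
      FCh (S : Set Lam) (E.lat.key (F.B.stpI.ux q)) (E.lat.key (F.B.stpI.ux r)) c ∧
      (∀ e ∈ c, ∀ a, E.lat.bk a e.1 = E.lat.bk a e.2 →
        (hgt (E.lat.tyl e.2) < hgt (E.lat.tyl e.1) ↔ σ a = true)) ∧
      F.path r S x y = act c (F.path q S x y)) ?_ ?_ ?_ (lo := lo) (hi := hi) ⟨h, hd, ht⟩
  · intro q r h1 h2
    have h3 : F.B.stpI.ux q = F.B.stpI.ux r := h2
    have hm := F.B.brs_mv h1 h3
    refine Eventually.of_forall fun S => ⟨[], ⟨E.lat.key_inj _, E.lat.key_inj _, trivial,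
      fun a _ b _ => by rw [← h3]; rfl⟩, by simp, ?_⟩
    unfold Fam.path
    rw [F.mv q r x hm, F.mv q r y hm]
    rfl
  · intro q r h1 h2 h3 h4
    filter_upwards [F.br_chain_mh (F.B.brs_mh h1 h2) x y] with S ⟨c, k1, k2, k3⟩
    rw [← E.lat_key, ← E.lat_key] at k1
    refine ⟨c, k1, fun e he a ha => ?_, k3⟩
    obtain ⟨-, -, n1, n2⟩ := fch_mem k1 he
    obtain ⟨n3, n4⟩ := cr_BrChain E.lat h3 n1 n2 ha
    rw [h4 a n4]
    exact stat_BrChain E (F.B.w q) n3 ha (k2 e he)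
  · intro p q r d d' h1 h2
    filter_upwards [h1, h2] with S ⟨c, k1, k2, k3⟩ ⟨c', j1, j2, j3⟩
    refine ⟨c ++ c', fch_append k1 j1 (fun a _ b _ => mono_BrChain E.lat d d'), fun e he => ?_, ?_⟩
    · exact (List.mem_append.1 he).elim (k2 e) (j2 e)
    · rw [act_append, ← k3, j3]

end Fam

end Pool.Agent.E5f

end

section

set_option autoImplicit false

namespace Pool.Agent.E5f

open Classical Filter

section Words
variable {L C : Type} [CommGroup C] {c : C} {A A' : Cfg L} {b b' : Bx} {R R' : Set L}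
  {ω : WL L C} {a a' : ℝ}

theorem step_BrTwo (h : BoxW c A b R R' ω) (ha : At A.x R a) (ha' : At A.x R' a')
    {S S' : Finset L} {ν : L} (h3 : ∀ l, l ∈ S' ↔ l = ν ∨ l ∈ S) (h2 : ν ∉ S)
    (hν : ν ∉ A.bl b) : dT A.x a (pj S' ω) a' = dT A.x a (pj S ω) a' := by
  rcases A.not_bl hν with h4 | h4
  · rw [h.out h3 h4]
  · refine le_antisymm ?_ ?_
    · have e : pj S' ω = ev (weave c A.X ν (ν ∈ R) (wd (pj S ω)) (ν ∈ R')) := by
        rw [ev_weave, ev_wd, h.high h3 h2 h4]; rfl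
      rw [e, dT_wd A.x a a' (pj S ω), ← Var_weave A c ν _ (ν ∈ R) (ν ∈ R') a a' (ha ν) (ha' ν)]
      exact dT_ev_le _ _ _ _
    · rw [← ret_pj (S := S) (S' := S') (fun l hl => (h3 l).2 (Or.inr hl))]
      exact dT_ret_le _ _ _ _ _

theorem del_BrTwo (h : BoxW c A b R R' ω) (ha : At A.x R a) (ha' : At A.x R' a') (S : Finset L) :
    dT A.x a (pj S ω) a' = dT A.x a (pj (cut S (A.bl b)) ω) a' := by
  refine add_ind (p := fun S' => (∀ l ∈ S', l ∈ A.bl b → l ∈ cut S (A.bl b)) →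
    dT A.x a (pj S' ω) a' = dT A.x a (pj (cut S (A.bl b)) ω) a') (fun _ => rfl) ?_ S
    (cut_sub S _) fun l hl hb => mem_cut.2 ⟨hl, hb⟩
  intro S1 S' ν h1 h2 h3 ih h4
  rw [step_BrTwo h ha ha' h3 h2 fun h5 => h2 (h1 (h4 ν ((h3 ν).2 (Or.inl rfl)) h5))]
  exact ih fun l hl => h4 l ((h3 l).2 (Or.inr hl))

theorem one_BrTwo (hx : A'.x = A.x) (h : BoxW c A b R R' ω) (h' : BoxW c A' b' R R' ω)
    (ha : At A.x R a) (ha' : At A.x R' a')
    (H : ∀ l ∈ A.bl b, l ∈ A'.bl b' → ∀ m ∈ A.bl b, m ∈ A'.bl b' → l = m) :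
    dW A.x a ω a' = |a' - a| ∨
      ∃ ν ∈ A.bl b, ν ∈ A'.bl b' ∧ dW A.x a ω a' = |A.x ν - a| + |a' - A.x ν| := by
  have e := del_BrTwo h' (hx ▸ ha) (hx ▸ ha') (A.bl_fin b).toFinset
  rw [hx] at e
  rw [h.att ha ha' (S := (A.bl_fin b).toFinset) fun l hl => by simpa using hl, e]
  have hs : ∀ l ∈ lab (pj (cut (A.bl_fin b).toFinset (A'.bl b')) ω), l ∈ A.bl b ∧ l ∈ A'.bl b' :=
    fun l hl => by simpa using sup_pj _ _ l hl
  generalize pj (cut (A.bl_fin b).toFinset (A'.bl b')) ω = g at hs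
  by_cases h1 : ∃ ν ∈ A.bl b, ν ∈ A'.bl b'
  · obtain ⟨ν, h1, h2⟩ := h1
    obtain ⟨x, rfl⟩ := sup_single (a := ν) (g := g) fun l hl => H l (hs l hl).1 (hs l hl).2 ν h1 h2
    by_cases hx1 : x = 1
    · exact Or.inl (by rw [hx1, lt_one, dT_one])
    · exact Or.inr ⟨ν, h1, h2, dT_lt _ _ _ _ hx1⟩
  · left
    rw [dT, List.eq_nil_iff_forall_not_mem.2 fun l hl => h1 ⟨l, hs l hl⟩]
    exact add_zero _

theorem sep_BrTwo (hc : c ≠ 1) (h : BoxW c A b R R' ω) (h' : BoxW c A' b' R R' ω) {ν : L}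
    (hν : ¬ (ν ∈ R ↔ ν ∈ R')) (h1 : b.y1 < A.y ν) (h2 : A'.y ν < b'.y0) (hb : b'.y0 ≤ b'.y1) :
    False := by
  have e := h.expo_out (fun h => h.2.2.2.not_gt h1) (Finset.mem_singleton_self ν)
  rw [h'.expo_out (fun h => h.2.2.1.not_gt h2) (Finset.mem_singleton_self ν), if_pos h1,
    if_neg (h2.le.trans hb).not_gt] at e
  by_cases r : ν ∈ R <;> by_cases r' : ν ∈ R'
  · exact hν (iff_of_true r r')
  · rw [if_pos r, if_neg r', inv_one, mul_one] at e
    exact hc e.symm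
  · rw [if_neg r, if_pos r', one_mul] at e
    exact hc (inv_eq_one.1 e.symm)
  · exact hν (iff_of_false r r')

end Words

/-- Two configurations with the same first order whose second coordinates are transverse. -/
structure TwoBrTwo {L : Type} (A A' : Cfg L) (K δ Y : ℝ) : Prop where
  gen : A.Gen
  gen' : A'.Gen
  hX : A'.X = A.X
  δ0 : 0 < δ
  Y0 : 0 ≤ Y
  near : ∀ l, |A'.y l - A.y l| ≤ K
  sep : ∀ α s s', ∃ l, α < A.x l ∧ A.x l < α + Y ∧
    ((s + δ < A.y l ∧ A'.y l < s' - δ) ∨ (A.y l < s - δ ∧ s' + δ < A'.y l))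
  uniq : ∀ l m, |A.x l - A.x m| ≤ 4 * Y + 4 → |A.y l - A.y m| ≤ 2 * δ →
    |A'.y l - A'.y m| ≤ 2 * δ → l = m

/-- Matched points. -/
def MatBrTwo {L C : Type} [CommGroup C] {c : C} {A A' : Cfg L} {Q Q' : Type} (N : Plan c A Q)
    (N' : Plan c A' Q') (z : Q) (z' : Q') : Prop :=
  N'.g z' = N.g z ∧ (N'.u z').1 = (N.u z).1 ∧ N'.R z' = N.R z

namespace TwoBrTwo
variable {L C : Type} [CommGroup C] {c : C} {A A' : Cfg L} {Q Q' : Type} {N : Plan c A Q}
  {N' : Plan c A' Q'} {K δ Y : ℝ} (T : TwoBrTwo A A' K δ Y)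

include T

theorem hx : A'.x = A.x := funext fun l => by rw [Cfg.x, T.hX, Cfg.x]

theorem dv {p q : Q} {p' q' : Q'} (hp : MatBrTwo N N' p p') (hq : MatBrTwo N N' q q') :
    N'.dv p' q' = N.dv p q := by
  rw [Plan.dv, T.hx, hp.1, hq.1, hp.2.1, hq.2.1, Plan.dv]

theorem ex {p : Q} {p' : Q'} (hp : MatBrTwo N N' p p') (q : Q) : ∃ q', MatBrTwo N N' q q' := by
  obtain ⟨b, -, -, hb⟩ := N.box_ex p q
  have h1 := hb.transfer (Z' := A') (b' := b.grow 0 K) (fun _ _ _ _ => by rw [T.hX])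
    (fun D _ h => by
      rw [T.hx]
      exact h.mono (sub_zero _).le (add_zero _).ge)
    fun D h => ⟨D, fun l => ⟨fun h1 => (h l).1 ?_, fun h1 => (h l).2 ?_⟩, fun _ _ _ => Iff.rfl⟩
  · rw [← hp.2.2, Plan.R, Plan.R, ← T.hx] at h1
    obtain ⟨q', e1, e2, -⟩ := N'.ex_of_box T.gen' p' h1 (0, false)
    exact ⟨q', by rw [e1, hp.1, mul_inv_cancel_left], by rw [e2], by
      rw [Plan.R, e2, T.hx, Plan.R]⟩
  · change b.y1 + K < _ at h1
    linarith [(abs_le.1 (T.near l)).2]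
  · change _ < b.y0 - K at h1
    linarith [(abs_le.1 (T.near l)).1]

theorem geo {p q r : Q} {p' q' : Q'} (hp : MatBrTwo N N' p p') (hq : MatBrTwo N N' q q')
    (h : N.dv p r + N.dv r q = N.dv p q) (hr : (N.u r).1 ∉ Set.range A.x) :
    ∃ r', MatBrTwo N N' r r' ∧ Btw N'.dv N'.dh p' r' q' := by
  obtain ⟨z, hz⟩ := T.ex hp r
  obtain ⟨r', h1, h2⟩ := geoV_HypBi (N'.biTree' T.gen') p' q' (nonneg_HypBi N.pv p r) (by
    rw [T.dv hp hq]
    linarith [nonneg_HypBi N.pv r q])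
  have h3 : N'.dv z r' = 0 := tree0 N'.pv N'.hv
    (by rw [T.dv hp hz, T.dv hz hq, T.dv hp hq, h]) h1.1 (by rw [T.dv hp hz, h2])
  obtain ⟨h4, h5⟩ := Plan.dv_zero' T.gen'.1 h3
  have h6 : (N'.u r').1 = (N.u r).1 := h4.symm.trans hz.2.1
  refine ⟨r', ⟨?_, h6, ?_⟩, h1⟩
  · rcases h5 with h5 | ⟨a, x, h5, -⟩
    · exact h5.symm.trans hz.1
    · exact absurd ⟨a, by rw [← T.hx, ← h5, hz.2.1]⟩ hr
  · ext l
    have : (N.u r).1 ≠ A.x l := fun e => hr ⟨l, e.symm⟩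
    simp only [Plan.R, Rs, T.hx, h6, Set.mem_ofPred_eq, this, false_and]

theorem same {x x' s s' : ℝ} {l m : L} (hl : l ∈ A.bl ((Bx.mk x x s s).grow (2 * Y + 2) δ))
    (hl' : l ∈ A'.bl ((Bx.mk x' x' s' s').grow (2 * Y + 2) δ))
    (hm : m ∈ A.bl ((Bx.mk x x s s).grow (2 * Y + 2) δ))
    (hm' : m ∈ A'.bl ((Bx.mk x' x' s' s').grow (2 * Y + 2) δ)) : l = m := by
  simp only [Cfg.bl, Bx.grow, Bx.Mem, Set.mem_ofPred_eq] at hl hl' hm hm'
  refine T.uniq l m ?_ ?_ ?_ <;> rw [abs_le] <;> constructor <;>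
    linarith [hl.1, hl.2.1, hl.2.2.1, hl.2.2.2, hl'.2.2.1, hl'.2.2.2, hm.1, hm.2.1, hm.2.2.1,
      hm.2.2.2, hm'.2.2.1, hm'.2.2.2]

theorem pair (hc : c ≠ 1) {p q : Q} {p' q' : Q'} (hp : MatBrTwo N N' p p')
    (hq : MatBrTwo N N' q q') {x x' s s' : ℝ}
    (h : N.Box ((Bx.mk x x s s).grow (2 * Y + 2) δ) p q)
    (h' : N'.Box ((Bx.mk x' x' s' s').grow (2 * Y + 2) δ) p' q') (hY : Y < N.dv p q) :
    ∃ ν ∈ A.bl ((Bx.mk x x s s).grow (2 * Y + 2) δ),
      ν ∈ A'.bl ((Bx.mk x' x' s' s').grow (2 * Y + 2) δ) ∧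
      N.dv p q = |A.x ν - (N.u p).1| + |(N.u q).1 - A.x ν| := by
  have b1 := h.2.2
  have b2 := h'.2.2
  rw [hp.1, hq.1, hp.2.2, hq.2.2] at b2
  refine (one_BrTwo T.hx b1 b2 (N.at_R p) (N.at_R q)
    fun l h1 h2 m h3 h4 => T.same h1 h2 h3 h4).resolve_left fun e => ?_
  rw [Plan.dv, e] at hY
  obtain ⟨l, h1, h2, h3⟩ := T.sep (min (N.u p).1 (N.u q).1) s s'
  have hδ := T.δ0
  have h4 : ¬ (l ∈ N.R p ↔ l ∈ N.R q) := by
    rcases le_total (N.u p).1 (N.u q).1 with k | k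
    · rw [min_eq_left k] at h1 h2
      rw [abs_of_nonneg (sub_nonneg.2 k)] at hY
      exact fun i => by linarith [(N.at_R q l).1 (i.1 (Or.inl h1))]
    · rw [min_eq_right k] at h1 h2
      rw [abs_of_nonpos (sub_nonpos.2 k)] at hY
      exact fun i => by linarith [(N.at_R p l).1 (i.2 (Or.inl h1))]
  rcases h3 with h3 | h3
  · exact sep_BrTwo hc b1 b2 h4 h3.1 h3.2 (show s' - δ ≤ s' + δ by linarith)
  · exact sep_BrTwo hc b2 b1 h4 h3.2 h3.1 (show s - δ ≤ s + δ by linarith)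

theorem loc (hc : c ≠ 1) {p q r : Q} {p' q' r' : Q'} (hp : MatBrTwo N N' p p')
    (hq : MatBrTwo N N' q q') (hr : MatBrTwo N N' r r') (h : N.dv p q + N.dv q r = N.dv p r)
    (a1 : Y < N.dv p q) (a2 : N.dv p q < Y + 1) (a3 : Y < N.dv q r) (a4 : N.dv q r < Y + 1)
    (hg : (N.u q).1 ∉ Set.range A.x) :
    δ ≤ N.dh p q + N.dh q r + (N'.dh p' q' + N'.dh q' r') := by
  by_contra hn
  have hY := T.Y0
  have n1 := nonneg_HypBi N.ph p q
  have n2 := nonneg_HypBi N.ph q r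
  have n3 := nonneg_HypBi N'.ph p' q'
  have n4 := nonneg_HypBi N'.ph q' r'
  have t1 := N.ph.tri p q r
  have t2 := N'.ph.tri p' q' r'
  have b1 := (N.rch_dist T.gen p q (A := 2 * Y + 2) (B := δ) (by linarith) (by linarith)).box
  have b2 := (N.rch_dist T.gen p r (A := 2 * Y + 2) (B := δ) (by linarith) (by linarith)).box
  have b3 := (N'.rch_dist T.gen' p' q' (A := 2 * Y + 2) (B := δ)
    (by rw [T.dv hp hq]; linarith) (by linarith)).box
  have b4 := (N'.rch_dist T.gen' p' r' (A := 2 * Y + 2) (B := δ)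
    (by rw [T.dv hp hr]; linarith) (by linarith)).box
  obtain ⟨l, l1, l2, l3⟩ := T.pair hc hp hq b1 b3 a1
  obtain ⟨m, m1, m2, m3⟩ := T.pair hc hq hr (b1.symm.trans b2) (b3.symm.trans b4) a3
  obtain ⟨k, k1, k2, k3⟩ := T.pair hc hp hr b2 b4 (by linarith)
  obtain rfl := T.same l1 l2 m1 m2
  obtain rfl := T.same l1 l2 k1 k2
  rw [abs_sub_comm (A.x l)] at m3
  refine hg ⟨l, (sub_eq_zero.1 (abs_eq_zero.1 ?_)).symm⟩
  linarith

theorem glob [Countable L] (hc : c ≠ 1) {e : Q} {e' : Q'} (he : MatBrTwo N N' e e') (n : ℕ) :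
    ∀ z z', MatBrTwo N N' z z' → n * (2 * Y + 2) ≤ N.dv z e →
      n * δ ≤ N.dh z e + N'.dh z' e' := by
  have hY := T.Y0
  induction n with
  | zero =>
    intro z z' _ _
    rw [Nat.cast_zero, zero_mul]
    exact add_nonneg (nonneg_HypBi N.ph _ _) (nonneg_HypBi N'.ph _ _)
  | succ n ih =>
    intro z z' hz h
    rw [Nat.cast_succ, add_mul, one_mul] at h ⊢
    have h0 : 0 ≤ n * (2 * Y + 2) := by positivity
    obtain ⟨q, ⟨q1, q2⟩, q3, q4, q5⟩ := N.tr.geo_gen T.gen.tr hc z e (Set.countable_range A.x) hY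
      (lt_add_one Y) (show Y + 1 ≤ N.dv z e by linarith)
    change N.dh z q + N.dh q e = N.dh z e at q1
    change N.dv z q + N.dv q e = N.dv z e at q2
    change Y < N.dv z q at q3
    change N.dv z q < Y + 1 at q4
    obtain ⟨r, ⟨r1, r2⟩, r3, r4, r5⟩ := N.tr.geo_gen T.gen.tr hc q e (Set.countable_range A.x) hY
      (lt_add_one Y) (show Y + 1 ≤ N.dv q e by linarith)
    change N.dh q r + N.dh r e = N.dh q e at r1
    change N.dv q r + N.dv r e = N.dv q e at r2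
    change Y < N.dv q r at r3
    change N.dv q r < Y + 1 at r4
    obtain ⟨q', hq, -, q6⟩ := T.geo hz he q2 q5
    obtain ⟨r', hr, -, r6⟩ := T.geo hq he r2 r5
    have h1 := T.loc hc hz hq hr (by linarith [N.pv.tri z q r, N.pv.tri z r e]) q3 q4 r3 r4 q5
    have h2 := ih r r' hr (by linarith)
    linarith

theorem fin [Countable L] (hc : c ≠ 1) {z e : Q} {z' e' : Q'} (hz : MatBrTwo N N' z z')
    (he : MatBrTwo N N' e e') : δ / (2 * Y + 2) * N.dv z e - δ ≤ N.dh z e + N'.dh z' e' := by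
  have hY : 0 < 2 * Y + 2 := by linarith [T.Y0]
  have h0 := div_nonneg (nonneg_HypBi N.pv z e) hY.le
  have h1 := T.glob hc he ⌊N.dv z e / (2 * Y + 2)⌋₊ z z' hz ((le_div_iff₀ hY).1 (Nat.floor_le h0))
  have h2 := mul_le_mul_of_nonneg_right (Nat.lt_floor_add_one (N.dv z e / (2 * Y + 2))).le T.δ0.le
  have h3 : δ / (2 * Y + 2) * N.dv z e = N.dv z e / (2 * Y + 2) * δ := by ring
  linarith

end TwoBrTwo

theorem Emb.two_BrTwo (E : Emb) {u u' w : Mk} (hne : u.1 ≠ u'.1) (hu : u.1 ∉ Set.range E.ξ)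
    (hu' : u'.1 ∉ Set.range E.ξ) (hw : w.1 ∉ Set.range E.η) :
    ∃ K δ Y, TwoBrTwo (E.fc u w).tr (E.fc u' w).tr K δ Y := by
  obtain ⟨t, ht, hΔ⟩ : ∃ t : ℝ, 0 < t ∧ |u'.1 - u.1| = 12 * t :=
    ⟨|u'.1 - u.1| / 12, by have := abs_pos.2 (sub_ne_zero.2 hne.symm); positivity, by ring⟩
  have hY : 0 < 27 / t := by positivity
  obtain ⟨δ, d0, d1, d2⟩ : ∃ δ : ℝ, 0 < δ ∧ 2 * δ ≤ t ∧ 2 * δ * (4 * (27 / t) + 4) < 1 := by
    refine ⟨min (t / 2) (1 / (4 * (4 * (27 / t) + 4))), by positivity,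
      by linarith [min_le_left (t / 2) (1 / (4 * (4 * (27 / t) + 4)))], ?_⟩
    have := (le_div_iff₀ (by positivity)).1 (min_le_right (t / 2) (1 / (4 * (4 * (27 / t) + 4))))
    linarith
  have key : ∀ (i : Fin 3) (α s s' : ℝ), 2 * δ + t ≤ |s' - s - E.m i * (u'.1 - u.1)| →
      ∃ l, α < E.tr.pos w.1 l ∧ E.tr.pos w.1 l < α + 27 / t ∧
        ((s + δ < E.pos u.1 l ∧ E.pos u'.1 l < s' - δ) ∨
          (E.pos u.1 l < s - δ ∧ s' + δ < E.pos u'.1 l)) := by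
    intro i α s s' h
    have e : 27 ≤ t * (27 / t) := (mul_div_cancel₀ _ ht.ne').ge
    rcases le_abs.1 h with h | h
    · obtain ⟨l, rfl, a1, a2, a3, a4⟩ := E.den_lab_box i u.1 w.1 (s + δ) α t _ ht e
      exact ⟨l, a3, a4, Or.inl ⟨a1, by linarith [E.pos_move l u.1 u'.1]⟩⟩
    · obtain ⟨l, rfl, a1, a2, a3, a4⟩ := E.den_lab_box i u.1 w.1 (s - δ - t) α t _ ht e
      exact ⟨l, a3, a4, Or.inr ⟨by linarith, by linarith [E.pos_move l u.1 u'.1]⟩⟩
  refine ⟨3 * |u'.1 - u.1|, δ, 27 / t, (E.fc_gen hu hw).tr, (E.fc_gen hu' hw).tr, rfl, d0, hY.le,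
    fun l => ?_, fun α s s' => ?_, fun l m h1 h2 h3 => ?_⟩
  · change |E.pos u'.1 l - E.pos u.1 l| ≤ _
    rw [E.pos_move l u.1 u'.1, add_sub_cancel_left, abs_mul, abs_of_nonneg (E.m_nonneg _)]
    exact mul_le_mul_of_nonneg_right (E.m_le _) (abs_nonneg _)
  · by_cases h : 2 * δ + t ≤ |s' - s - E.m 0 * (u'.1 - u.1)|
    · exact key 0 α s s' h
    · refine key E.md α s s' ?_
      rw [E.m_zero, zero_mul, sub_zero] at h
      have h1 := abs_sub_abs_le_abs_sub (E.m E.md * (u'.1 - u.1)) (s' - s)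
      rw [abs_mul, abs_of_pos E.m_md_pos, hΔ, abs_sub_comm (_ * _)] at h1
      nlinarith [E.m_md_ge]
  · change |E.tr.pos w.1 l - E.tr.pos w.1 m| ≤ _ at h1
    change |E.pos u.1 l - E.pos u.1 m| ≤ _ at h2
    change |E.pos u'.1 l - E.pos u'.1 m| ≤ _ at h3
    have h4 : l.1 = m.1 := by
      by_contra hn
      have e : (E.m l.1 - E.m m.1) * (u'.1 - u.1) =
          E.pos u'.1 l - E.pos u'.1 m - (E.pos u.1 l - E.pos u.1 m) := by
        rw [E.pos_move l u.1 u'.1, E.pos_move m u.1 u'.1]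
        ring
      have h5 := abs_sub (E.pos u'.1 l - E.pos u'.1 m) (E.pos u.1 l - E.pos u.1 m)
      rw [← e, abs_mul, hΔ] at h5
      have h6 : 1 / 3 ≤ |E.m l.1 - E.m m.1| := by
        rcases (E.m_ne hn).lt_or_gt with k | k
        · exact le_abs.2 (Or.inr (by linarith [E.m_gap k]))
        · exact le_abs.2 (Or.inl (by linarith [E.m_gap k]))
      nlinarith
    rw [E.tr.pos_same h4.symm, ← map_sub] at h1
    rw [E.pos_same h4.symm, ← map_sub] at h2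
    refine Prod.ext h4 (sub_eq_zero.1 (E.eq_zero_of_small ?_))
    exact (mul_le_mul h2 h1 (abs_nonneg _) (by linarith)).trans_lt d2

namespace Fam
variable {E : Emb} {Q P : Type} (F : Fam E Q P)

/-- Two generic configurations on a horizontal move control the vertical length. -/
theorem br_two {q r : Q} (h : F.B.MH q r) (hne : (F.B.u q).1 ≠ (F.B.u r).1)
    (hq : (F.B.u q).1 ∉ Set.range E.ξ) (hr : (F.B.u r).1 ∉ Set.range E.ξ)
    (hw : (F.B.w q).1 ∉ Set.range E.η) :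
    ∃ c C : ℝ, 0 < c ∧ ∀ x y, c * F.dh q x y - C ≤ F.dv q x y + F.dv r x y := by
  obtain ⟨K, δ, Y, T⟩ := E.two_BrTwo (w := F.B.w q) hne hq hr hw
  have e : F.Z r = E.fc (F.B.u r) (F.B.w q) := by rw [Fam.Z, h.2]
  rw [← e] at T
  change TwoBrTwo (F.Z q).tr (F.Z r).tr K δ Y at T
  refine ⟨δ / (2 * Y + 2), δ, div_pos T.δ0 (by linarith [T.Y0]), fun x y => ?_⟩
  obtain ⟨Q1, M, j, a1, a2, -⟩ := F.plan q T.gen.tr x
  obtain ⟨Q2, M', j', b1, b2, -⟩ := F.plan r T.gen'.tr x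
  have hy : (F.Z r).y = (F.Z q).y := T.hx
  have m : ∀ z, MatBrTwo M.tr M'.tr (j z) (j' z) := fun z => by
    have e1 : M'.w (j' z) = M.w (j z) := by rw [(a1 z).2.2.2, (b1 z).2.2.2, hy]
    refine ⟨(b1 z).2.1.trans ((F.mh q r z h).symm.trans (a1 z).2.1.symm), congrArg _ e1, ?_⟩
    change Rs (F.Z r).y (M'.w (j' z)) = Rs (F.Z q).y (M.w (j z))
    rw [e1, hy]
  have := T.fin c2_ne (m x) (m y)
  rwa [M.tr_dv, M.tr_dh, M'.tr_dh, (a2 x y).1, (a2 x y).2, (b2 x y).1] at this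

end Fam

end Pool.Agent.E5f

end
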