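import Pool.Agent.Mg.S03381.Gdf2cf1
import Pool.Agent.Mg.S03381.Gd982a0
import Pool.Agent.Mg.S03381.G6add5e
import Pool.Agent.Mg.S03381.Gb346c8

section

set_option autoImplicit false

namespace Pool.Agent.E5f

open Filter Classical

theorem deg_mul_MoBase (γ γ' : G8) : g8deg (γ * γ') = g8deg γ + g8deg γ' := by
  simp [g8deg]

theorem deg_one_MoBase : g8deg 1 = 0 := by simp [g8deg]

theorem deg_inv_MoBase (γ : G8) : g8deg γ⁻¹ = -g8deg γ := by simp [g8deg]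

theorem deg_t_MoBase : g8deg g8t = 1 := by
  simp [g8deg, g8degHom, g8t]

theorem deg_c_MoBase : g8deg g8c = 0 := by
  simp [g8c, deg_mul_MoBase, deg_inv_MoBase]

theorem deg_zpow_MoBase (γ : G8) (k : ℤ) : g8deg (γ ^ k) = k * g8deg γ := by
  simp [g8deg]

theorem lam_pos_MoBase (k : ℤ) : 0 < (Real.goldenRatio ^ 2) ^ k :=
  zpow_pos (pow_pos Real.goldenRatio_pos 2) k

theorem Plan.side_MoBase {L : Type} {Z : Cfg L} {Q : Type} [MulAction G8 Q] (P : Plan cz Z Q)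
    (hZ : Z.Gen) (dg : G8 → ℤ) (P0 : Q)
    (hc : ∀ r a, P.Cusp a r → ∃ γ : G8, dg γ = 0 ∧ γ • P0 = r) : Side P.dv P.dh dg P0 where
  hor := fun q R hR => by
    obtain ⟨qm, a1, a2⟩ := P.ex_mh q ((P.u q).1 - R, false)
    obtain ⟨qp, b1, b2⟩ := P.ex_mh q ((P.u q).1 + R, false)
    refine ⟨qm, qp, P.dh_mh a1, P.dh_mh b1, ?_, ?_, ?_⟩
    · rw [P.dv_mh a1, a2]
      simp [abs_of_nonneg hR]
    · rw [P.dv_mh b1, b2]
      simp [abs_of_nonneg hR]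
    · rw [P.dv_mh (a1.symm.trans b1), a2, b2]
      have : (P.u q).1 + R - ((P.u q).1 - R) = 2 * R := by ring
      rw [this, abs_of_nonneg (by linarith)]
  ray := fun p0 p B M hM h1 h2 => by
    rcases P.ray hZ p0 p B M hM h1 h2 with h | ⟨a, r, hr, h⟩
    · exact Or.inl h
    · obtain ⟨γ, g1, rfl⟩ := hc r a hr
      exact Or.inr ⟨γ, g1, h⟩

theorem Plan.cusp_at_MoBase {L C : Type} [CommGroup C] {c : C} {Z : Cfg L} {Q : Type}
    (P : Plan c Z Q) (q : Q) (a : L) : ∃ r, P.Cusp a r ∧ P.dv q r ≤ |Z.x a - (P.u q).1| ∧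
      P.dh q r ≤ |Z.y a - (P.w q).1| := by
  obtain ⟨q1, a1, a2⟩ := P.ex_mh q (Z.x a, false)
  obtain ⟨r, b1, b2⟩ := P.ex_mv q1 (Z.y a, false)
  refine ⟨r, ⟨b1.2 ▸ a2, b2⟩, ?_, ?_⟩
  · have := P.pv.tri q q1 r
    rw [P.dv_mh a1, P.dv_mv b1, a2] at this
    simpa using this
  · have := P.ph.tri q q1 r
    rw [P.dh_mh a1, P.dh_mv b1, b2, ← a1.2] at this
    simpa using this

namespace BAct
variable {Q : Type} [MulAction G8 Q] {B : Plan cz E0.bc Q} {P0 : Q} (A : BAct B P0)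

theorem x_MoBase (γ : G8) (p : Zl) : E0.bc.x ((A.ρ γ).right p) =
    (Real.goldenRatio ^ 2) ^ (g8deg γ) * E0.bc.x p + E0.ξ (A.e γ) := by
  rw [A.rt, Emb.bc_x, map_add, map_mul, E0.ξ_uω2]

theorem y_MoBase (γ : G8) (p : Zl) : E0.bc.y ((A.ρ γ).right p) =
    (Real.goldenRatio ^ 2) ^ (-g8deg γ) * E0.bc.y p + E0.η (A.e γ) := by
  rw [A.rt, Emb.bc_y, map_add, map_mul, E0.η_uω2]

theorem X_MoBase (γ : G8) (a b : Zl) :
    E0.bc.X a < E0.bc.X b ↔ E0.bc.X ((A.ρ γ).right a) < E0.bc.X ((A.ρ γ).right b) := by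
  rw [E0.bc.X_iff E0.bc_gen.1, E0.bc.X_iff E0.bc_gen.1, A.x_MoBase, A.x_MoBase,
    add_lt_add_iff_right, mul_lt_mul_iff_right₀ (lam_pos_MoBase _)]

theorem Y_MoBase (γ : G8) (a b : Zl) :
    E0.bc.Y a < E0.bc.Y b ↔ E0.bc.Y ((A.ρ γ).right a) < E0.bc.Y ((A.ρ γ).right b) := by
  have h := E0.bc.tr.X_iff E0.bc_gen.2
  simp only [Cfg.tr_X, Cfg.tr_x] at h
  rw [h, h, A.y_MoBase, A.y_MoBase, add_lt_add_iff_right,
    mul_lt_mul_iff_right₀ (lam_pos_MoBase _)]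

theorem R_MoBase (γ : G8) (q : Q) : (A.ρ γ).right '' B.R q = B.R (γ • q) := by
  unfold Plan.R
  rw [A.hu]
  exact Rs_image _ (lam_pos_MoBase _) (A.x_MoBase γ) _

theorem Rw_MoBase (γ : G8) (q : Q) :
    (A.ρ γ).right '' Rs E0.bc.y (B.w q) = Rs E0.bc.y (B.w (γ • q)) := by
  rw [A.hw]
  exact Rs_image _ (lam_pos_MoBase _) (A.y_MoBase γ) _

theorem hh (γ : G8) (q : Q) : B.h (γ • q) =
    Kh cz E0.bkey E0.tr.bkey (A.ρ γ).left * rlA (A.ρ γ).right (B.h q) := by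
  have e := rlA_opH (A.ρ γ).right cz (X := E0.bc.X) (X' := E0.bc.X)
    (A := Rs E0.bc.x (B.u q) ∩ Rs E0.bc.y (B.w q))
    (A' := Rs E0.bc.x (B.u (γ • q)) ∩ Rs E0.bc.y (B.w (γ • q)))
    (fun a _ b _ h => (A.X_MoBase γ a b).1 h) (fun l => by
      have h1 := A.R_MoBase γ q
      unfold Plan.R at h1
      rw [← h1, ← A.Rw_MoBase γ q, Set.mem_inter_iff, Set.mem_inter_iff,
        (A.ρ γ).right.injective.mem_set_image, (A.ρ γ).right.injective.mem_set_image])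
  rw [B.relv (γ • q), B.relv q, rlA_Kh _ cz (A.X_MoBase γ) (A.Y_MoBase γ), map_mul (rlA _), e,
    A.hg, mul_assoc, map_mul]
  rfl

include A in
theorem mv (γ : G8) {p q : Q} (h : B.MV p q) : B.MV (γ • p) (γ • q) :=
  ⟨by rw [A.hg, A.hg, h.1], by rw [A.hu, A.hu, h.2]⟩

include A in
theorem mh (γ : G8) {p q : Q} (h : B.MH p q) : B.MH (γ • p) (γ • q) :=
  ⟨by rw [A.hh, A.hh, h.1], by rw [A.hw, A.hw, h.2]⟩

include A in
theorem sv (γ : G8) (p q : Q) :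
    B.dv (γ • p) (γ • q) = (Real.goldenRatio ^ 2) ^ (g8deg γ) * B.dv p q := by
  obtain ⟨b, h⟩ := B.box_ex p q
  have e := h.2.2.dW_rl (B.at_R p) (B.at_R q) (A.ρ γ).right (lam_pos_MoBase _).le (A.x_MoBase γ)
  have e2 : (B.g (γ • p))⁻¹ * B.g (γ • q) = rlA (A.ρ γ).right ((B.g p)⁻¹ * B.g q) := by
    rw [A.hg, A.hg, map_mul, map_inv]
    group
  unfold Plan.dv
  rw [e2, A.hu, A.hu]
  exact e

include A in
theorem sh (γ : G8) (p q : Q) :
    B.dh (γ • p) (γ • q) = (Real.goldenRatio ^ 2) ^ (-g8deg γ) * B.dh p q := by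
  obtain ⟨b, h⟩ := B.tr.box_ex p q
  have e := h.2.2.dW_rl (B.tr.at_R p) (B.tr.at_R q) (A.ρ γ).right (lam_pos_MoBase _).le
    (A.y_MoBase γ)
  have e2 : (B.h (γ • p))⁻¹ * B.h (γ • q) = rlA (A.ρ γ).right ((B.h p)⁻¹ * B.h q) := by
    rw [A.hh, A.hh, map_mul, map_inv]
    group
  unfold Plan.dh
  rw [e2, A.hw, A.hw]
  exact e

theorem cusp_MoBase (γ : G8) {a : Zl} {r : Q} (h : B.Cusp a r) :
    B.Cusp ((A.ρ γ).right a) (γ • r) :=
  ⟨by rw [A.hu, h.1, A.x_MoBase], by rw [A.hw, h.2, A.y_MoBase]⟩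

theorem step_MoBase (γ : G8) {D : Set Zl} {p q : Q} (h : B.Step D p q) :
    B.Step ((A.ρ γ).right '' D) (γ • p) (γ • q) := by
  obtain ⟨⟨y0, y1, h1⟩, h2⟩ := h
  refine ⟨⟨_, _, h1.image _ (lam_pos_MoBase _) (A.y_MoBase γ)⟩, ?_⟩
  rw [A.hg, A.hg, h2, map_mul, rlA_stp cz _ (A.X_MoBase γ), A.R_MoBase, A.R_MoBase, mul_assoc]

theorem rt0_MoBase {γ : G8} (h : g8deg γ = 0) (p : Zl) : (A.ρ γ).right p = p + A.e γ := by
  rw [A.rt, h]
  simp

omit [MulAction G8 Q] in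
theorem uniq_MoBase {a a' : Zl} {r : Q} (h : B.Cusp a r) (h' : B.Cusp a' r) : a = a' :=
  E0.bc_gen.1 (Prod.mk.inj (h.1.symm.trans h'.1)).1

theorem rho_c_MoBase : A.ρ g8c = SemidirectProduct.inl (emb (lt 0 cz⁻¹)) := by
  refine SemidirectProduct.ext A.hc.1 ?_
  ext p : 1
  rw [A.rt0_MoBase deg_c_MoBase, A.hc.2]
  simp

include A in
theorem cpow_MoBase (k : ℤ) : B.Cusp 0 (g8c ^ k • P0) ∧
    B.g (g8c ^ k • P0) = emb (lt 0 (cz⁻¹ ^ k)) := by
  have e : A.ρ (g8c ^ k) = SemidirectProduct.inl (emb (lt 0 (cz⁻¹ ^ k))) := by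
    rw [map_zpow, A.rho_c_MoBase, ← map_zpow, ← map_zpow, ← ltH_apply, ← ltH_apply,
      map_zpow (ltH (0 : Zl))]
  constructor
  · have := A.cusp_MoBase (g8c ^ k) A.c0
    rw [e] at this
    exact this
  · rw [A.hg, A.g0, e]
    simp

include A in
theorem touch_MoBase {γ : G8} {a : Zl} {x : CZ} {r : Q} (h1 : B.Cusp a (γ • P0))
    (h2 : B.Cusp a r) (h : B.Touch a x (γ • P0) r) : ∃ k : ℤ, (γ * g8c ^ k) • P0 = r := by
  obtain ⟨n, rfl⟩ := cz_gen x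
  have ha : (A.ρ γ).right 0 = a := uniq_MoBase (A.cusp_MoBase γ A.c0) h1
  obtain ⟨c1, c2⟩ := A.cpow_MoBase (-n)
  have c3 := A.cusp_MoBase γ c1
  rw [ha] at c3
  refine ⟨-n, ?_⟩
  rw [mul_smul]
  refine B.ext _ _ ?_ (c3.1.trans h2.1.symm) (c3.2.trans h2.2.symm)
  rw [h.2.2, A.hg, A.hg γ P0, c2, A.g0, rlA_emb, rl_lt, ha]
  simp

/-- The elements which move the base point by a top level step. -/
def F_MoBase (B : Plan cz E0.bc Q) (P0 : Q) (y1 : ℝ) (a a' : Zl) : Set G8 :=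
  {f | g8deg f = 0 ∧ B.Cusp (a' - a) (f • P0) ∧
    B.Step {l | y1 - E0.η a < E0.η l} P0 (f • P0)}

include A in
theorem sub_MoBase (y1 : ℝ) (a a' : Zl) : (F_MoBase B P0 y1 a a').Subsingleton := by
  rintro f ⟨f1, f2, f3⟩ f' ⟨g1, g2, g3⟩
  have hu : B.u (f • P0) = B.u (f' • P0) := f2.1.trans g2.1.symm
  have e : f • P0 = f' • P0 := by
    refine B.ext _ _ ?_ hu (f2.2.trans g2.2.symm)
    rw [f3.2, g3.2]
    unfold Plan.R
    rw [hu]
  have := A.free (f'⁻¹ * f) (by rw [deg_mul_MoBase, deg_inv_MoBase, f1, g1]; simp)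
    (by rw [mul_smul, e, inv_smul_smul])
  exact (inv_mul_eq_one.1 this).symm

include A in
theorem mem_MoBase {y1 : ℝ} {a a' : Zl} {δ δ' : G8} (d1 : g8deg δ = 0) (d2 : g8deg δ' = 0)
    (h1 : B.Cusp a (δ • P0)) (h2 : B.Cusp a' (δ' • P0))
    (h : B.Step {l | y1 < E0.bc.y l} (δ • P0) (δ' • P0)) : δ⁻¹ * δ' ∈ F_MoBase B P0 y1 a a' := by
  have d3 : g8deg δ⁻¹ = 0 := by rw [deg_inv_MoBase, d1, neg_zero]
  have k1 := A.cusp_MoBase δ⁻¹ h1
  have k2 := A.cusp_MoBase δ⁻¹ h2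
  have k3 := A.step_MoBase δ⁻¹ h
  rw [inv_smul_smul] at k1 k3
  rw [A.rt0_MoBase d3] at k1 k2
  have he : A.e δ⁻¹ = -a := by
    have := uniq_MoBase k1 A.c0
    linear_combination this
  rw [he, ← sub_eq_add_neg, ← mul_smul] at k2
  have hD : (A.ρ δ⁻¹).right '' {l | y1 < E0.bc.y l} = {l | y1 - E0.η a < E0.η l} := by
    ext l
    constructor
    · rintro ⟨m, hm, rfl⟩
      have hm' : y1 < E0.η m := hm
      change y1 - E0.η a < E0.η ((A.ρ δ⁻¹).right m)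
      rw [A.rt0_MoBase d3, he, map_add, map_neg]
      linarith
    · intro hl
      have hl' : y1 - E0.η a < E0.η l := hl
      refine ⟨l + a, ?_, ?_⟩
      · change y1 < E0.η (l + a)
        rw [map_add]
        linarith
      · rw [A.rt0_MoBase d3, he]
        ring
  rw [hD, ← mul_smul] at k3
  exact ⟨by rw [deg_mul_MoBase, d3, d2]; simp, k2, k3⟩

include A in
theorem elem (T : ℝ) : ∃ (F : Finset G8) (N : ℕ), ∀ γ : G8, g8deg γ = 0 →
    B.dv P0 (γ • P0) + B.dh P0 (γ • P0) ≤ T →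
    ∃ l : List (ℤ × G8 × ℤ), l.length ≤ N ∧ (∀ e ∈ l, e.2.1 ∈ F) ∧
      γ = (l.map (fun e => g8c ^ e.1 * e.2.1 * g8c ^ e.2.2)).prod := by
  obtain ⟨S, N, y1, hS⟩ := B.elem E0.bc_gen cz_ne cz_gen A.c0 T
  have hF : (⋃ a ∈ S, ⋃ a' ∈ S, F_MoBase B P0 y1 a a').Finite :=
    S.finite_toSet.biUnion fun a _ => S.finite_toSet.biUnion fun a' _ =>
      (A.sub_MoBase y1 a a').finite
  refine ⟨hF.toFinset, N, fun γ hγ hT => ?_⟩
  obtain ⟨n, hn, t, t', e, x, t0, tn, h1, h2⟩ := hS _ _ (A.cusp_MoBase γ A.c0) hT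
  have key : ∀ m ≤ n, ∃ l : List (ℤ × G8 × ℤ), l.length = m ∧ (∀ e ∈ l, e.2.1 ∈ hF.toFinset) ∧
      g8deg (l.map (fun e => g8c ^ e.1 * e.2.1 * g8c ^ e.2.2)).prod = 0 ∧
      (l.map (fun e => g8c ^ e.1 * e.2.1 * g8c ^ e.2.2)).prod • P0 = t m := by
    intro m
    induction m with
    | zero => exact fun _ => ⟨[], rfl, by simp, by simpa using deg_one_MoBase, by simp [t0]⟩
    | succ m ih =>
      intro hm
      obtain ⟨l, l1, l2, l3, l4⟩ := ih (by omega)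
      generalize hδ : (l.map (fun e => g8c ^ e.1 * e.2.1 * g8c ^ e.2.2)).prod = δ at l3 l4
      obtain ⟨a1, a2, a3⟩ := h2 m (by omega)
      obtain ⟨b1, b2⟩ := h1 m (by omega)
      obtain ⟨c1, c2⟩ := h1 (m + 1) hm
      rw [← l4] at a2 b2
      obtain ⟨k, hk⟩ := A.touch_MoBase b2 a1 a2
      obtain ⟨δ', d1, d2⟩ := A.cusp _ _ c2
      rw [← hk] at a1 a3
      rw [← d2] at a3 c2
      have hf := A.mem_MoBase (by rw [deg_mul_MoBase, deg_zpow_MoBase, deg_c_MoBase, l3]; simp)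
        d1 a1 c2 a3
      have hp : ((l ++ [(k, (δ * g8c ^ k)⁻¹ * δ', (0 : ℤ))]).map
          (fun e : ℤ × G8 × ℤ => g8c ^ e.1 * e.2.1 * g8c ^ e.2.2)).prod = δ' := by
        rw [List.map_append, List.prod_append, hδ]
        simp only [List.map_cons, List.map_nil, List.prod_cons, List.prod_nil]
        group
      refine ⟨l ++ [(k, (δ * g8c ^ k)⁻¹ * δ', 0)], by simp [l1], ?_, by rw [hp, d1],
        by rw [hp, d2]⟩
      intro z hz
      rcases List.mem_append.1 hz with hz | hz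
      · exact l2 z hz
      · rw [List.mem_singleton.1 hz, Set.Finite.mem_toFinset]
        exact Set.mem_biUnion b1 (Set.mem_biUnion c1 hf)
  obtain ⟨l, l1, l2, l3, l4⟩ := key n le_rfl
  refine ⟨l, by omega, l2, ?_⟩
  have := A.free (γ⁻¹ * (l.map (fun e => g8c ^ e.1 * e.2.1 * g8c ^ e.2.2)).prod)
    (by rw [deg_mul_MoBase, deg_inv_MoBase, hγ, l3]; simp)
    (by rw [mul_smul, l4, tn, inv_smul_smul])
  exact inv_mul_eq_one.1 this

include A in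
theorem fixc_MoBase : B.dv (g8c • P0) P0 = 0 ∧ B.dh (g8c • P0) P0 = 0 := by
  obtain ⟨c1, c2⟩ := A.cpow_MoBase 1
  rw [zpow_one] at c1 c2
  have h : B.Touch 0 (cz⁻¹ ^ (1 : ℤ)) P0 (g8c • P0) :=
    ⟨by rw [A.c0.1], by rw [c1.1], by rw [c2, A.g0, one_mul]⟩
  rw [B.pv.symm, B.ph.symm]
  exact ⟨h.dv', h.dh E0.bc_gen cz_ne cz_gen (by rw [A.c0.2]) (by rw [c1.2])⟩

include A in
theorem fixt_MoBase : g8t • P0 = P0 := by
  have h := A.cusp_MoBase g8t A.c0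
  rw [A.rt, A.ht.2, mul_zero, add_zero] at h
  refine B.ext _ _ ?_ (h.1.trans A.c0.1.symm) (h.2.trans A.c0.2.symm)
  rw [A.hg, A.g0, A.ht.1]
  simp

include A in
theorem dense_MoBase (q : Q) :
    ∃ γ : G8, g8deg γ = 0 ∧ B.dv q (γ • P0) + B.dh q (γ • P0) ≤ 6 := by
  obtain ⟨a, a1, a2, a3, a4⟩ := E0.bc_den (B.u q).1 (B.w q).1
  obtain ⟨r, r1, r2, r3⟩ := B.cusp_at_MoBase q a
  obtain ⟨γ, g1, rfl⟩ := A.cusp r a r1
  rw [abs_of_pos (by linarith)] at r2 r3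
  exact ⟨γ, g1, by linarith⟩

include A in
theorem base_ex : ∃ S : Base Q, S.dv = B.dv ∧ S.dh = B.dh ∧ S.dg = g8deg ∧ S.P0 = P0 ∧
    S.lam = Real.goldenRatio ^ 2 :=
  ⟨{ lam := Real.goldenRatio ^ 2
     lam1 := one_lt_pow₀ Real.one_lt_goldenRatio (by norm_num)
     dv := B.dv
     dh := B.dh
     dg := g8deg
     dg_mul := deg_mul_MoBase
     dg_t := Or.inl deg_t_MoBase
     dg_c := deg_c_MoBase
     bi := B.biTree E0.bc_gen cz_ne
     nr := ⟨4 * 3, by norm_num, B.noRect E0.bc_gen cz_ne (by norm_num) E0.bc_den⟩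
     sv := A.sv
     sh := A.sh
     P0 := P0
     fix_c := A.fixc_MoBase
     fix_t := by rw [A.fixt_MoBase]; exact ⟨B.pv.self _, B.ph.self _⟩
     dense := ⟨6, A.dense_MoBase⟩
     elem := A.elem
     sideV := B.side_MoBase E0.bc_gen _ _ A.cusp
     sideH := B.tr.side_MoBase E0.bc_gen.tr _ _ fun r a h => A.cusp r a ⟨h.2, h.1⟩ },
    rfl, rfl, rfl, rfl, rfl⟩

end BAct

end Pool.Agent.E5f

end

section

set_option autoImplicit false

namespace Pool.Agent.E5f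

open Filter Classical

namespace Fam
variable {E : Emb} {Q P : Type} (F : Fam E Q P)

/-- A self-map of the base together with a compatible relabelling. -/
structure Adm (τ : Q → Q) (σ : Equiv.Perm Lam) (s t s' t' : ℝ) : Prop where
  mv : ∀ p q, F.B.MV p q → F.B.MV (τ p) (τ q)
  mh : ∀ p q, F.B.MH p q → F.B.MH (τ p) (τ q)
  kx : ∀ q a b, E.key (F.B.u q) a < E.key (F.B.u q) b ↔
    E.key (F.B.u (τ q)) (σ a) < E.key (F.B.u (τ q)) (σ b)
  ky : ∀ q a b, E.tr.key (F.B.w q) a < E.tr.key (F.B.w q) b ↔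
    E.tr.key (F.B.w (τ q)) (σ a) < E.tr.key (F.B.w (τ q)) (σ b)
  px : ∀ q l, E.pos (F.B.u (τ q)).1 (σ l) = s * E.pos (F.B.u q).1 l + t
  py : ∀ q l, E.tr.pos (F.B.w (τ q)).1 (σ l) = s' * E.tr.pos (F.B.w q).1 l + t'
  s0 : 0 < s
  s0' : 0 < s'

/-- The map `f` covers `τ` at `q` with multiplier `k`. -/
def Cov (τ : Q → Q) (σ : Equiv.Perm Lam) (f : P → P) (q : Q) (k : WL Lam C2) : Prop :=
  ∀ x, F.lb (f x) = σ (F.lb x) ∧ F.gv (τ q) (f x) = k * rlA σ (F.gv q x)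

variable {F} {τ τ' : Q → Q} {σ σ' : Equiv.Perm Lam} {s t s' t' : ℝ} {f f' : P → P} {q : Q}
  {k k' : WL Lam C2}

theorem Adm.tr (h : F.Adm τ σ s t s' t') : F.tr.Adm τ σ s' t' s t :=
  ⟨h.mh, h.mv, h.ky, h.kx, h.py, h.px, h.s0', h.s0⟩

theorem Cov.tr (h : F.Adm τ σ s t s' t') (hc : F.Cov τ σ f q k) : ∃ k', F.tr.Cov τ σ f q k' := by
  refine ⟨Kh c2 (E.key (F.B.u (τ q))) (E.tr.key (F.B.w (τ q))) k, fun x => ⟨(hc x).1, ?_⟩⟩
  show F.gh (τ q) (f x) = _ * rlA σ (F.gh q x)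
  rw [F.relv, F.relv, (hc x).1, (hc x).2, kap_mul, rlA_kap σ c2 (h.kx q) (h.ky q)]

theorem Cov.mv (h : F.Adm τ σ s t s' t') (hc : F.Cov τ σ f q k) {q' : Q} (hm : F.B.MV q q') :
    F.Cov τ σ f q' k := fun x =>
  ⟨(hc x).1, by rw [← F.mv _ _ _ (h.mv _ _ hm), ← F.mv _ _ _ hm, (hc x).2]⟩

theorem Cov.all (h : F.Adm τ σ s t s' t') (hc : F.Cov τ σ f q k) (q' : Q) :
    ∃ k', F.Cov τ σ f q' k' := by
  induction F.B.conn q q' with
  | refl => exact ⟨k, hc⟩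
  | tail _ h2 ih =>
    obtain ⟨k1, h1⟩ := ih
    rcases h2 with h2 | h2
    · exact ⟨k1, h1.mv h h2⟩
    · obtain ⟨k2, h3⟩ := h1.tr h
      exact (h3.mv h.tr h2).tr h.tr

theorem Cov.dv (h : F.Adm τ σ s t s' t') (hc : F.Cov τ σ f q k) (q' : Q) (x y : P) :
    F.dv (τ q') (f x) (f y) = s * F.dv q' x y := by
  obtain ⟨k1, h1⟩ := hc.all h q'
  obtain ⟨b, hb⟩ := F.cv q' x y
  have e : (F.gv (τ q') (f x))⁻¹ * F.gv (τ q') (f y) = rlA σ ((F.gv q' x)⁻¹ * F.gv q' y) := by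
    rw [(h1 x).2, (h1 y).2, map_mul, map_inv]; group
  unfold Fam.dv
  rw [e, (h1 x).1, (h1 y).1, h.px, h.px]
  exact hb.dW_rl (Cfg.at_Rl _ _) (Cfg.at_Rl _ _) σ h.s0.le (h.px q')

theorem Cov.dh (h : F.Adm τ σ s t s' t') (hc : F.Cov τ σ f q k) (q' : Q) (x y : P) :
    F.dh (τ q') (f x) (f y) = s' * F.dh q' x y := by
  obtain ⟨k1, h1⟩ := hc.tr h
  exact h1.dv h.tr q' x y

theorem Adm.ex (h : F.Adm τ σ s t s' t') (q : Q) {x0 y0 : P} (hl : F.lb y0 = σ (F.lb x0)) :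
    ∃ f k, F.Cov τ σ f q k ∧ f x0 = y0 := by
  have key : ∀ x, ∃ y, F.lb y = σ (F.lb x) ∧
      F.gv (τ q) y = (F.gv (τ q) y0 * (rlA σ (F.gv q x0))⁻¹) * rlA σ (F.gv q x) := by
    intro x
    obtain ⟨b, hb⟩ := F.cv q x0 x
    have h1 := hb.aff (Z' := E.fc (F.B.u (τ q)) (F.B.w (τ q))) σ h.s0 h.s0' (h.kx q) (h.px q)
      (h.py q)
    rw [Rl_image σ (h.kx q), Rl_image σ (h.kx q), ← hl] at h1
    obtain ⟨y, h2, h3⟩ := F.clv (τ q) y0 _ _ _ h1
    refine ⟨y, h2, ?_⟩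
    rw [h3, map_mul, map_inv, mul_assoc]
  choose f hf using key
  refine ⟨f, _, hf, F.ext (τ q) _ _ ((hf x0).1.trans hl.symm) ?_⟩
  rw [(hf x0).2, inv_mul_cancel_right]

theorem Cov.eq (hc : F.Cov τ σ f q k) (hc' : F.Cov τ σ f' q k) : f = f' :=
  funext fun x => F.ext (τ q) _ _ ((hc x).1.trans (hc' x).1.symm) ((hc x).2.trans (hc' x).2.symm)

theorem Cov.eq' (hc : F.Cov τ σ f q k) (hc' : F.Cov τ σ f' q k') {x0 : P} (h : f x0 = f' x0) :
    f = f' := by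
  have e : k = k' := by
    have h1 := (hc x0).2
    rw [h, (hc' x0).2] at h1
    exact (mul_right_cancel h1).symm
  subst e
  exact hc.eq hc'

theorem Cov.comp (hc : F.Cov τ σ f (τ' q) k) (hc' : F.Cov τ' σ' f' q k') :
    F.Cov (τ ∘ τ') (σ * σ') (f ∘ f') q (k * rlA σ k') := fun x => by
  refine ⟨by rw [Function.comp_apply, (hc _).1, (hc' x).1]; rfl, ?_⟩
  rw [Function.comp_apply, Function.comp_apply, (hc _).2, (hc' x).2, map_mul, map_mul, mul_assoc]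
  rfl

theorem cov_id (F : Fam E Q P) (q : Q) : F.Cov id 1 id q 1 := fun x => ⟨rfl, by simp⟩

end Fam

end Pool.Agent.E5f

end

section

set_option autoImplicit false

namespace Pool.Agent.E5f

open Filter Classical

/-- Affine relabelling. -/
def Emb.affP (E : Emb) (ε : Zlˣ) (e : Zl) : Equiv.Perm Lam where
  toFun := E.aff ε e
  invFun := E.aff (ε⁻¹ : Zlˣ) (-((ε⁻¹ : Zlˣ) * e))
  left_inv := fun l => by rw [E.aff_aff, Units.inv_mul, add_neg_cancel, E.aff_one]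
  right_inv := fun l => by
    rw [E.aff_aff, Units.mul_inv, mul_neg, ← mul_assoc, Units.mul_inv, one_mul, neg_add_cancel,
      E.aff_one]

/-- Translation of labels. -/
def trlP (v : Zl) : Equiv.Perm Lam where
  toFun := trl v
  invFun := trl (-v)
  left_inv := fun l => by rw [trl_trl, neg_add_cancel, trl_zero]
  right_inv := fun l => by rw [trl_trl, add_neg_cancel, trl_zero]

theorem Fam.adm_trl {E : Emb} {Q P : Type} (F : Fam E Q P) (v : Zl) :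
    F.Adm id (trlP v) 1 (E.ξ v) 1 (E.η v) :=
  ⟨fun _ _ h => h, fun _ _ h => h, fun _ a b => (E.key_trl v _ a b).symm,
    fun _ a b => (E.tr.key_trl v _ a b).symm, fun _ l => by rw [one_mul]; exact E.pos_trl v _ l,
    fun _ l => by rw [one_mul]; exact E.tr.pos_trl v _ l, one_pos, one_pos⟩

theorem g8deg_mul_MoFib (γ γ' : G8) : g8deg (γ * γ') = g8deg γ + g8deg γ' := by
  simp [g8deg]

namespace BAct
variable {Q P : Type} [MulAction G8 Q] {F : Fam E0 Q P} {P0 : Q} (A : BAct F.B P0)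

/-- The relabelling of fibre labels. -/
noncomputable def sg (γ : G8) : Equiv.Perm Lam := E0.affP (E0.uω ^ (2 * g8deg γ)) (A.e γ)

theorem sg_apply (γ : G8) (l : Lam) :
    A.sg γ l = E0.aff ((E0.uω ^ (2 * g8deg γ) : Zlˣ) : Zl) (A.e γ) l := rfl

theorem sg_mul (γ γ' : G8) : A.sg (γ * γ') = A.sg γ * A.sg γ' := by
  have h1 := A.rt (γ * γ') 0
  rw [map_mul, SemidirectProduct.mul_right, Equiv.Perm.mul_apply, A.rt, A.rt] at h1
  simp only [mul_zero, zero_add] at h1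
  ext1 l
  rw [Equiv.Perm.mul_apply, sg_apply, sg_apply, sg_apply, E0.aff_aff, h1, g8deg_mul_MoFib, mul_add,
    zpow_add, Units.val_mul]

theorem sg_one : A.sg 1 = 1 := by
  have h := A.sg_mul 1 1
  rw [mul_one] at h
  exact left_eq_mul.1 h

theorem sg_zero (γ : G8) : A.sg γ (0, 0) = (0, 0) := by
  rw [sg_apply]
  refine Prod.ext rfl ?_
  simp [E0.μ0]

theorem adm (γ : G8) : F.Adm (fun q => γ • q) (A.sg γ) ((Real.goldenRatio ^ 2) ^ g8deg γ) 0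
    ((Real.goldenRatio ^ 2) ^ (-g8deg γ)) 0 := by
  have p1 : 0 < (Real.goldenRatio ^ 2) ^ g8deg γ := zpow_pos (pow_pos Real.goldenRatio_pos 2) _
  have p2 : 0 < (Real.goldenRatio ^ 2) ^ (-g8deg γ) := zpow_pos (pow_pos Real.goldenRatio_pos 2) _
  have e1 := E0.ξ_uω2 (g8deg γ)
  have e2 : E0.tr.ξ _ = _ := E0.η_uω2 (g8deg γ)
  refine ⟨fun _ _ h => A.mv γ h, fun _ _ h => A.mh γ h, fun q a b => ?_, fun q a b => ?_,
    fun q l => ?_, fun q l => ?_, p1, p2⟩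
  · rw [A.hu, ← e1]
    exact (E0.key_aff (by rw [e1]; exact p1) _ _ a b).symm
  · rw [A.hw, ← e2]
    exact (E0.tr.key_aff (by rw [e2]; exact p2) _ _ a b).symm
  · rw [A.hu, ← e1, add_zero]
    exact E0.pos_aff _ _ _ l
  · rw [A.hw, ← e2, add_zero]
    exact E0.tr.pos_aff _ _ _ l

theorem s_ex (q0 : Q) {x0 : P} (h1 : F.lb x0 = (0, 0)) : ∃ s : G8 →* Equiv.Perm P, ∀ γ,
    ∃ k, F.Cov (fun q => γ • q) (A.sg γ) (s γ) q0 k := by
  have key : ∀ γ : G8, ∃ f k, F.Cov (fun q => γ • q) (A.sg γ) f q0 k ∧ f x0 = x0 := fun γ =>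
    (A.adm γ).ex q0 (by rw [h1, A.sg_zero])
  choose f k hf hx using key
  let s0 : G8 →* Function.End P :=
    { toFun := f
      map_one' := by
        have h2 : F.Cov (fun q => (1 : G8) • q) (A.sg 1) id q0 1 := by
          rw [A.sg_one, show (fun q : Q => (1 : G8) • q) = id from funext fun q => one_smul _ q]
          exact F.cov_id q0
        exact (hf 1).eq' h2 (hx 1)
      map_mul' := fun γ γ' => by
        obtain ⟨k1, h2⟩ := (hf γ).all (A.adm γ) (γ' • q0)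
        have h3 := h2.comp (τ' := fun q => γ' • q) (hf γ')
        rw [← A.sg_mul] at h3
        have h4 : ((fun q : Q => γ • q) ∘ fun q => γ' • q) = fun q => (γ * γ') • q :=
          funext fun q => (mul_smul γ γ' q).symm
        rw [h4] at h3
        have h5 : f (γ * γ') = f γ ∘ f γ' :=
          (hf (γ * γ')).eq' h3 (x0 := x0) (by rw [Function.comp_apply, hx, hx, hx])
        exact h5 }
  exact ⟨s0.toHomPerm, fun γ => ⟨k γ, hf γ⟩⟩

end BAct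

/-- The fibre configuration as a grid. -/
noncomputable def gridF (u w : Mk) (h3 : (E0.fc u w).Gen) (h4 : 0 < u.1) (h5 : u.1 < 1 / 2) :
    Grid (E0.fc u w) 3 where
  e := Equiv.prodCongr (Equiv.refl _) (QuadraticAlgebra.equivProd 1 1)
  ox := fun i => E0.m i * u.1
  oy := fun i => E0.tr.m i * w.1
  hx := fun l => by
    show E0.ξ l.2 + E0.m l.1 * u.1 = E0.m l.1 * u.1 + l.2.re + Real.goldenRatio * l.2.im
    rw [show E0.ξ l.2 = l.2.re + l.2.im * Real.goldenRatio from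
      embR_apply _ (by rw [← sq, Real.goldenRatio_sq]) l.2]
    ring
  hy := fun l => by
    show E0.η l.2 + E0.tr.m l.1 * w.1 = E0.tr.m l.1 * w.1 + l.2.re + Real.goldenConj * l.2.im
    rw [show E0.η l.2 = l.2.re + l.2.im * Real.goldenConj from
      embR_apply _ (by rw [← sq, Real.goldenConj_sq]) l.2]
    ring
  ox0 := fun i => mul_nonneg (E0.m_nonneg i) h4.le
  ox1 := fun i => by
    have := E0.m_le i
    have := E0.m_nonneg i
    have := gr_bounds.1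
    nlinarith
  inj := h3.1

theorem gridF_tv (u w : Mk) (h3 : (E0.fc u w).Gen) (h4 : 0 < u.1) (h5 : u.1 < 1 / 2)
    (v : ℤ × ℤ) : (gridF u w h3 h4 h5).tv v = trlP ⟨v.1, v.2⟩ := by
  ext1 l
  rfl

theorem box_side_MoFib {L : Type} {Z : Cfg L} (hx : Function.Injective Z.x) (l : L) :
    ∃ b, BoxW c2 Z b (Rs Z.x (Z.x l, false)) (Rl Z.X l) 1 := by
  have h := BoxW.single (c := c2) (Z := Z) (b := ⟨Z.x l, Z.x l, Z.y l, Z.y l⟩)
    (D := Rs Z.y (Z.y l, true)) (Z.up_Rs (Z.x l, false)) ((at_Rs _ _).inB le_rfl le_rfl)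
    (Z.up_Rs (Z.x l, true)) ((at_Rs _ _).inB le_rfl le_rfl) ((at_Rs _ _).inB le_rfl le_rfl)
  rw [stp_cross hx, if_neg (by simp [Rs]), lt_one, map_one, Rs_eq_Rl Z hx] at h
  exact ⟨_, h⟩

theorem box_tr3_MoFib {L : Type} {Z : Cfg L} {R1 R2 R3 R4 : Set L} {ω : WL L C2}
    (h1 : ∃ b, BoxW c2 Z b R1 R2 1) (h2 : ∃ b, BoxW c2 Z b R2 R3 ω)
    (h3 : ∃ b, BoxW c2 Z b R3 R4 1) : ∃ b, BoxW c2 Z b R1 R4 ω := by
  obtain ⟨b1, h1⟩ := h1
  obtain ⟨b2, h2⟩ := h2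
  obtain ⟨b3, h3⟩ := h3
  have := ((h1.mono (b1.sub_sup_left b2)).trans (h2.mono (b1.sub_sup_right b2))).mono
    ((b1.sup b2).sub_sup_left b3) |>.trans (h3.mono ((b1.sup b2).sub_sup_right b3))
  rw [one_mul, mul_one] at this
  exact ⟨_, this⟩

theorem box_inv_MoFib {L : Type} {Z : Cfg L} {R1 R2 : Set L} (h : ∃ b, BoxW c2 Z b R1 R2 1) :
    ∃ b, BoxW c2 Z b R2 R1 1 := h.imp fun _ k => by simpa using k.symm

theorem gam_iff_MoFib {Q P : Type} (F : Fam E0 Q P) (q0 : Q) (x0 : P) (h1 : F.lb x0 = (0, 0))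
    (h2 : F.gv q0 x0 = 1) (h3 : (F.Z q0).Gen) (h4 : 0 < (F.B.u q0).1) (h5 : (F.B.u q0).1 < 1 / 2)
    (z : Big Lam C2) : z ∈ (gridF _ _ h3 h4 h5).Gam c2 ↔
      ∃ v y, z.right = trlP v ∧ F.lb y = (0, v) ∧ F.gv q0 y = z.left := by
  have x00 : ∀ v : Zl, (F.Z q0).x (0, v) = E0.ξ v := fun v => by
    show E0.ξ v + E0.m 0 * _ = _
    rw [E0.m_zero, zero_mul, add_zero]
  have im : ∀ v : Zl, trlP v '' Rs (F.Z q0).x (0, false) =
      Rs (F.Z q0).x ((F.Z q0).x (0, v), false) := fun v => by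
    have := Rs_image (trlP v) one_pos ((F.adm_trl v).px q0) (0, false)
    rw [mul_zero, zero_add] at this
    rw [x00]
    exact this
  have z0 : Rs (F.Z q0).x (0, false) = Rs (F.Z q0).x ((F.Z q0).x (0, 0), false) := by
    rw [x00, map_zero]
  constructor
  · rintro ⟨v, b, k1, k2⟩
    rw [gridF_tv] at k1 k2
    obtain ⟨b', k3⟩ := box_tr3_MoFib (box_inv_MoFib (box_side_MoFib h3.1 (0, 0)))
      ⟨b, by rw [← z0, ← im]; exact k2⟩ (box_side_MoFib h3.1 (0, ⟨v.1, v.2⟩))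
    rw [← h1] at k3
    obtain ⟨y, k4, k5⟩ := F.clv q0 x0 _ _ _ k3
    exact ⟨_, y, k1, k4, by rw [k5, h2, one_mul]⟩
  · rintro ⟨v, y, k1, k2, k3⟩
    obtain ⟨b, hb⟩ := F.cv q0 x0 y
    rw [h1, k2, h2, k3, inv_one, one_mul] at hb
    obtain ⟨b', k4⟩ := box_tr3_MoFib (box_side_MoFib h3.1 (0, 0)) ⟨b, hb⟩
      (box_inv_MoFib (box_side_MoFib h3.1 (0, v)))
    refine ⟨(v.re, v.im), b', by rw [gridF_tv]; exact k1, ?_⟩
    rw [gridF_tv]
    rw [← z0, ← im] at k4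
    exact k4

theorem c2_lift_MoFib (H : Type) [Group H] (y : H) (hy : y ^ 2 = 1) :
    ∃ f : C2 →* H, f c2 = y := by
  refine ⟨MonoidHom.mk' (fun x => if x = 1 then 1 else y) (fun a b => ?_), by simp [c2_ne]⟩
  have h : ∀ x : C2, x = 1 ∨ x = c2 := by decide
  have h2 : c2 * c2 = 1 := by decide
  rcases h a with rfl | rfl <;> rcases h b with rfl | rfl <;> simp [c2_ne, h2]
  rw [← sq, hy]

theorem fib_ex {Q P : Type} [MulAction G8 Q] (F : Fam E0 Q P) {P0 : Q} (A : BAct F.B P0)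
    (q0 : Q) (x0 : P) (h1 : F.lb x0 = (0, 0)) (h2 : F.gv q0 x0 = 1) (h3 : (F.Z q0).Gen)
    (h4 : 0 < (F.B.u q0).1) (h5 : (F.B.u q0).1 < 1 / 2) (S : Base Q)
    (h6 : S.lam = Real.goldenRatio ^ 2) (h7 : S.dg = g8deg) :
    ∃ Fb : Fib S q0 P, Fb.dv = F.dv ∧ Fb.dh = F.dh := by
  obtain ⟨s, hs⟩ := A.s_ex q0 h1
  obtain ⟨ψ, ψi, -, -, ψr⟩ := (gridF _ _ h3 h4 h5).pres (by norm_num) c2 2 (by decide) c2_gen
    c2_lift_MoFib
  have gam := gam_iff_MoFib F q0 x0 h1 h2 h3 h4 h5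
  have t0 : ∀ v : Zl, trlP v (0, 0) = (0, v) := fun v => Prod.ext rfl (zero_add v)
  have back : ∀ (v : Zl) (f : P → P) (k : WL Lam C2), F.Cov id (trlP v) f q0 k →
      ∃ o, ψ o = ⟨k, trlP v⟩ := by
    intro v f k hc
    have : (⟨k, trlP v⟩ : Big Lam C2) ∈ Set.range ψ := by
      rw [ψr, gam]
      refine ⟨v, f x0, rfl, by rw [(hc x0).1, h1, t0], ?_⟩
      have := (hc x0).2
      rwa [h2, map_one, mul_one] at this
    exact this
  have key : ∀ o, ∃ f v, (ψ o).right = trlP v ∧ F.Cov id (ψ o).right f q0 (ψ o).left := by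
    intro o
    obtain ⟨v, y, k1, k2, k3⟩ := (gam _).1 (ψr ▸ Set.mem_range_self o)
    obtain ⟨f, k, k4, k5⟩ := (F.adm_trl v).ex q0 (x0 := x0) (y0 := y) (by rw [k2, h1, t0])
    have k6 := (k4 x0).2
    rw [k5, h2, map_one, mul_one] at k6
    refine ⟨f, v, k1, ?_⟩
    rw [k1, ← k3]
    exact (show F.gv q0 y = k from k6) ▸ k4
  choose f v hv hf using key
  let φ0 : OG 3 2 →* Function.End P :=
    { toFun := f
      map_one' := by
        have := hf 1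
        rw [map_one] at this
        exact this.eq (F.cov_id q0)
      map_mul' := fun o o' => by
        have := hf (o * o')
        rw [map_mul] at this
        have h8 : F.Cov id (ψ o * ψ o').right (f o ∘ f o') q0 (ψ o * ψ o').left :=
          Fam.Cov.comp (τ := id) (τ' := id) (hf o) (hf o')
        exact this.eq h8 }
  have hf' : ∀ o, F.Cov id (trlP (v o)) (φ0.toHomPerm o) q0 (ψ o).left := fun o => hv o ▸ hf o
  have free : ∀ o x, φ0.toHomPerm o x = x → o = 1 := by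
    intro o x hx
    obtain ⟨k1, k2⟩ := hf' o x
    rw [hx] at k1 k2
    have k3 : v o = 0 := left_eq_add.1 (congrArg Prod.snd k1)
    have k4 : trlP (v o) = 1 := by
      rw [k3]
      ext1 l
      exact trl_zero l
    rw [k4, map_one] at k2
    apply ψi
    rw [map_one]
    exact SemidirectProduct.ext (right_eq_mul.1 k2) ((hv o).trans k4)
  have onto : ∀ (w : Zl) (g : P → P) (k : WL Lam C2), F.Cov id (trlP w) g q0 k →
      ∃ o, ⇑(φ0.toHomPerm o) = g := by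
    intro w g k hc
    obtain ⟨o, ho⟩ := back w g k hc
    have := hf o
    rw [ho] at this
    exact ⟨o, this.eq hc⟩
  refine ⟨⟨F.dv, F.dh, F.dv_pm, F.tr.dv_pm, φ0.toHomPerm, ?_, s, ?_, ?_, ?_, ?_, ?_,
    F.thick q0 h3, ⟨x0⟩, ?_, ?_⟩, rfl, rfl⟩
  · rw [injective_iff_map_eq_one]
    intro o ho
    exact free o x0 (by rw [ho]; rfl)
  · intro γ o
    obtain ⟨k1, a1⟩ := hs γ⁻¹
    obtain ⟨k2, a2⟩ := (hf' o).all (F.adm_trl _) (γ⁻¹ • q0)
    obtain ⟨k0, a0⟩ := hs γ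
    obtain ⟨k3, a3⟩ := a0.all (A.adm γ) (γ⁻¹ • q0)
    have a4 := Fam.Cov.comp (τ' := id ∘ fun q => γ⁻¹ • q) a3
      (a2.comp (τ' := fun q => γ⁻¹ • q) a1)
    have e1 : ((fun q : Q => γ • q) ∘ id ∘ fun q => γ⁻¹ • q) = id :=
      funext fun q => smul_inv_smul γ q
    have e2 : A.sg γ * (trlP (v o) * A.sg γ⁻¹) =
        trlP (((E0.uω ^ (2 * g8deg γ) : Zlˣ) : Zl) * v o) := by
      have e3 : A.sg γ * trlP (v o) =
          trlP (((E0.uω ^ (2 * g8deg γ) : Zlˣ) : Zl) * v o) * A.sg γ := by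
        ext1 l
        exact E0.aff_trl _ _ _ l
      rw [← mul_assoc, e3, mul_assoc, ← A.sg_mul, mul_inv_cancel, A.sg_one, mul_one]
    rw [e1, e2] at a4
    obtain ⟨o', ho'⟩ := onto _ _ _ a4
    refine ⟨o', Equiv.ext fun x => ?_⟩
    rw [ho', ← map_inv]
    rfl
  · intro q o x y
    simpa using (hf' o).dv (F.adm_trl _) q x y
  · intro q o x y
    simpa using (hf' o).dh (F.adm_trl _) q x y
  · intro γ q x y
    obtain ⟨k, a⟩ := hs γ
    rw [h6, h7]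
    exact a.dv (A.adm γ) q x y
  · intro γ q x y
    obtain ⟨k, a⟩ := hs γ
    rw [h6, h7]
    exact a.dh (A.adm γ) q x y
  · have rep : ∀ i : Fin 3, ∃ y : P, ∀ x, (F.lb x).1 = i → (F.lb y).1 = i := by
      intro i
      by_cases h : ∃ x, (F.lb x).1 = i
      · exact h.imp fun _ k _ _ => k
      · exact ⟨x0, fun x k => absurd ⟨x, k⟩ h⟩
    choose y hy using rep
    refine ⟨Finset.univ.image y, fun x => ?_⟩
    obtain ⟨g, k, a1, a2⟩ := (F.adm_trl ((F.lb x).2 - (F.lb (y (F.lb x).1)).2)).ex q0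
      (x0 := y (F.lb x).1) (y0 := x) (Prod.ext (hy _ x rfl).symm (add_sub_cancel _ _).symm)
    obtain ⟨o, ho⟩ := onto _ _ _ a1
    exact ⟨o, y (F.lb x).1, Finset.mem_image_of_mem _ (Finset.mem_univ _), by rw [ho, a2]⟩
  · intro x
    exact (Set.finite_singleton 1).subset fun o ho => free o x ho

end Pool.Agent.E5f

end
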