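import Pool.Agent.Mg.S03381.G7cdb90

section

/-! Near points and the Morse lemma. -/

set_option autoImplicit false

namespace Pool.Agent.E5f

/-- Quasi-geodesic finite sequence. -/
def QG {X : Type} (d : X → X → ℝ) (K : ℝ) (z : ℕ → X) (n : ℕ) : Prop :=
  ∀ i j : ℕ, i ≤ n → j ≤ n →
    d (z i) (z j) ≤ K * |(i : ℝ) - (j : ℝ)| + K ∧ |(i : ℝ) - (j : ℝ)| ≤ K * d (z i) (z j) + K

theorem nonneg_HypMorse {X : Type} {d : X → X → ℝ} (h : PM d) (x y : X) : 0 ≤ d x y := by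
  have h1 := h.tri x y x
  have h2 := h.self x
  have h3 := h.symm x y
  linarith

theorem near_pt (δ κ : ℝ) : ∃ C : ℝ, ∀ {X : Type} (d : X → X → ℝ), PM d → Hyp d δ → RG d κ →
    ∀ x y w, ∃ m, gp d m x y ≤ κ ∧ d w m ≤ gp d w x y + C := by
  refine ⟨3 * κ + 2 * δ, fun d hd hh hr x y w => ?_⟩
  have t1 := hd.tri y x w
  have t2 := hd.tri w y x
  have t3 := hd.tri y x w
  have t4 := hd.tri w x y
  have s1 := hd.symm x y
  have s2 := hd.symm x w
  have s3 := hd.symm y w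
  obtain ⟨m, h1, h2⟩ := hr x y (gp d x y w) (by unfold gp; linarith) (by unfold gp; linarith)
  have s4 := hd.symm x m
  have s5 := hd.symm y m
  have s6 := hd.symm w m
  have hκ : 0 ≤ κ := (abs_nonneg _).trans h1
  obtain ⟨h1, h1'⟩ := abs_le.1 h1
  obtain ⟨h2, h2'⟩ := abs_le.1 h2
  have h3 := hh x m y w
  refine ⟨m, by unfold gp at *; linarith, ?_⟩
  rcases min_cases (gp d x m y) (gp d x y w) with ⟨h4, -⟩ | ⟨h4, -⟩ <;> rw [h4] at h3 <;>
    unfold gp at * <;> linarith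

theorem ord_HypMorse {X : Type} {d : X → X → ℝ} {δ c e : ℝ} (hd : PM d) (hh : Hyp d δ)
    {x y a w : X} (ha : gp d a x y ≤ c) (hw : gp d w x y ≤ c) (h1 : d x a - d x w ≤ e)
    (h2 : d x w - d x a ≤ e) : d a w ≤ e + 2 * c + 2 * δ := by
  have h3 := hh x a y w
  have s1 := hd.symm x y
  have s2 := hd.symm x w
  have s3 := hd.symm y w
  have s4 := hd.symm x a
  have s5 := hd.symm y a
  rcases min_cases (gp d x a y) (gp d x y w) with ⟨h4, -⟩ | ⟨h4, -⟩ <;> rw [h4] at h3 <;>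
    unfold gp at * <;> linarith

theorem log_HypMorse {X : Type} {d : X → X → ℝ} {δ J ρ : ℝ} (hd : PM d) (hh : Hyp d δ)
    {z : ℕ → X} {n : ℕ} {w : X} (hJ0 : 0 ≤ J) (hJ : ∀ i, i + 1 ≤ n → d (z i) (z (i + 1)) ≤ J)
    (hρ : ∀ i, i ≤ n → ρ ≤ d w (z i)) (k : ℕ) :
    ∀ i j, i ≤ j → j ≤ n → j ≤ i + 2 ^ k → ρ - J - k * δ ≤ gp d w (z i) (z j) := by
  induction k with
  | zero =>
    intro i j hij hj hk
    have h1 := hρ i (hij.trans hj)
    have h2 := hρ j hj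
    have s1 := hd.symm w (z i)
    have s2 := hd.symm w (z j)
    have h3 : d (z i) (z j) ≤ J := by
      rcases (show j = i ∨ j = i + 1 by omega) with h | h
      · rw [h, hd.self]
        exact hJ0
      · rw [h]
        exact hJ i (h ▸ hj)
    unfold gp
    simp only [Nat.cast_zero, zero_mul, sub_zero]
    linarith
  | succ k ih =>
    intro i j hij hj hk
    rw [pow_succ] at hk
    have h1 := ih i (min j (i + 2 ^ k)) (by omega) (by omega) (by omega)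
    have h2 := ih (min j (i + 2 ^ k)) j (by omega) hj (by omega)
    have h3 := hh w (z i) (z (min j (i + 2 ^ k))) (z j)
    have h4 := le_min h1 h2
    push_cast
    linarith

theorem side_HypMorse {X : Type} {d : X → X → ℝ} {δ κ D ρ : ℝ} (hd : PM d) (hh : Hyp d δ)
    (hr : RG d κ) (hδ : 0 ≤ δ) (hκ : 0 ≤ κ) (hD : κ ≤ D) {z : ℕ → X} {n i₀ : ℕ} {y w : X}
    (hi : i₀ ≤ n) (hP : ∀ u, gp d u (z i₀) y ≤ κ → ∃ j, j ≤ n ∧ d u (z j) ≤ D)
    (hw : gp d w (z i₀) y ≤ κ) (hρ : ρ ≤ d w (z i₀)) (hρD : ρ ≤ D) :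
    ∃ i, i ≤ n ∧ ρ - κ ≤ gp d w (z i₀) (z i) ∧ d w (z i) ≤ 3 * D + 3 * κ + 2 * δ := by
  have s1 := hd.symm w (z i₀)
  rcases le_total (d (z i₀) w) (2 * D) with h | h
  · refine ⟨i₀, hi, ?_, by linarith⟩
    unfold gp
    rw [hd.self]
    linarith
  · have t1 := hd.tri (z i₀) y w
    obtain ⟨a, h1, h2⟩ := hr (z i₀) y (d (z i₀) w - 2 * D) (by linarith)
      (by unfold gp at hw; linarith)
    obtain ⟨h1, h1'⟩ := abs_le.1 h1
    obtain ⟨h2, h2'⟩ := abs_le.1 h2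
    have s2 := hd.symm y a
    have ha : gp d a (z i₀) y ≤ κ := by unfold gp; linarith
    obtain ⟨j, hj, hj'⟩ := hP a ha
    have h3 := ord_HypMorse (e := 2 * D + κ) hd hh ha hw (by linarith) (by linarith)
    have t2 := hd.tri w a (z j)
    have t3 := hd.tri (z i₀) a (z j)
    have t4 := hd.tri (z i₀) (z j) w
    have s3 := hd.symm w a
    refine ⟨j, hj, ?_, by linarith⟩
    unfold gp
    linarith

theorem gp_symm_HypMorse {X : Type} {d : X → X → ℝ} (hd : PM d) (w x y : X) :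
    gp d w x y = gp d w y x := by
  unfold gp
  rw [hd.symm x y, add_comm]

theorem step_HypMorse {X : Type} {d : X → X → ℝ} {δ κ K D : ℝ} (hd : PM d) (hh : Hyp d δ)
    (hr : RG d κ) (hδ : 0 ≤ δ) (hκ : 0 ≤ κ) (hK : 0 ≤ K) (hD : κ ≤ D) {z : ℕ → X} {n : ℕ}
    (hz : QG d K z n) (k : ℕ) (hk : K * (6 * D + 6 * κ + 4 * δ) + K ≤ 2 ^ k)
    (hP : ∀ u, gp d u (z 0) (z n) ≤ κ → ∃ j, j ≤ n ∧ d u (z j) ≤ D) (w : X)
    (hw : gp d w (z 0) (z n) ≤ κ) :
    ∃ j, j ≤ n ∧ d w (z j) ≤ 2 * κ + 2 * K + (k + 2) * δ := by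
  obtain ⟨j₀, hj₀, hmin⟩ := (Finset.range (n + 1)).exists_min_image (fun j => d w (z j))
    ⟨0, by simp⟩
  have hρ : ∀ i, i ≤ n → d w (z j₀) ≤ d w (z i) := fun i hi =>
    hmin i (Finset.mem_range.2 (Nat.lt_succ_of_le hi))
  refine ⟨j₀, Nat.le_of_lt_succ (Finset.mem_range.1 hj₀), ?_⟩
  generalize d w (z j₀) = ρ at hρ
  have hρD : ρ ≤ D := by
    obtain ⟨j, hj, hj'⟩ := hP w hw
    exact (hρ j hj).trans hj'
  obtain ⟨a, ha, ha1, ha2⟩ := side_HypMorse hd hh hr hδ hκ hD (Nat.zero_le n) hP hw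
    (hρ 0 (Nat.zero_le n)) hρD
  obtain ⟨b, hb, hb1, hb2⟩ := side_HypMorse (y := z 0) hd hh hr hδ hκ hD le_rfl
    (fun u hu => hP u (by rwa [gp_symm_HypMorse hd])) (by rwa [gp_symm_HypMorse hd])
    (hρ n le_rfl) hρD
  have hJ : ∀ i, i + 1 ≤ n → d (z i) (z (i + 1)) ≤ 2 * K := fun i hi => by
    have h1 := (hz i (i + 1) (by omega) hi).1
    rw [show ((i : ℝ) - ((i + 1 : ℕ) : ℝ)) = -1 by push_cast; ring, abs_neg, abs_one] at h1
    linarith
  have hab : |(a : ℝ) - (b : ℝ)| ≤ 2 ^ k := by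
    have h1 := (hz a b ha hb).2
    have t1 := hd.tri (z a) w (z b)
    have s1 := hd.symm w (z a)
    have h2 : K * d (z a) (z b) ≤ K * (6 * D + 6 * κ + 4 * δ) :=
      mul_le_mul_of_nonneg_left (by linarith) hK
    linarith
  obtain ⟨hab1, hab2⟩ := abs_le.1 hab
  have hlog := log_HypMorse hd hh (by linarith : 0 ≤ 2 * K) hJ hρ k
  have hm : ρ - 2 * K - k * δ ≤ gp d w (z a) (z b) := by
    rcases le_total a b with h | h
    · refine hlog a b h hb ?_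
      have : (b : ℝ) ≤ a + 2 ^ k := by linarith
      exact_mod_cast this
    · rw [gp_symm_HypMorse hd]
      refine hlog b a h ha ?_
      have : (a : ℝ) ≤ b + 2 ^ k := by linarith
      exact_mod_cast this
  rw [gp_symm_HypMorse hd] at hb1
  have h1 := hh w (z 0) (z a) (z b)
  have h2 := hh w (z 0) (z b) (z n)
  have hkδ : 0 ≤ (k : ℝ) * δ := mul_nonneg (Nat.cast_nonneg k) hδ
  have h3 : ρ - κ - 2 * K - k * δ ≤ min (gp d w (z 0) (z a)) (gp d w (z a) (z b)) :=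
    le_min (by linarith) (by linarith)
  have h4 : ρ - κ - 2 * K - k * δ - δ ≤ min (gp d w (z 0) (z b)) (gp d w (z b) (z n)) :=
    le_min (by linarith) (by linarith)
  linarith

theorem pow_HypMorse (A B : ℝ) (hA : 0 ≤ A) (hB : 0 ≤ B) :
    ∃ k₀ : ℕ, ∀ k : ℕ, k₀ ≤ k → A * k + B ≤ 2 ^ k := by
  have h1 : ∀ k : ℕ, (k : ℝ) + 1 ≤ 2 ^ k ∧ (k : ℝ) ^ 2 ≤ 2 * 2 ^ k := fun k => by
    induction k with
    | zero => norm_num
    | succ k ih =>
      have : (0 : ℝ) ≤ k := Nat.cast_nonneg k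
      rw [pow_succ (2 : ℝ) k]
      push_cast
      constructor <;> nlinarith [ih.1, ih.2]
  obtain ⟨k₀, hk₀⟩ := exists_nat_ge (2 * A + 2 * B + 1)
  refine ⟨k₀, fun k hk => ?_⟩
  have h2 : (k₀ : ℝ) ≤ k := by exact_mod_cast hk
  have h3 : 2 * A + 2 * B + 1 ≤ k := hk₀.trans h2
  have h4 : (1 : ℝ) ≤ k := by linarith
  have h5 : (2 * A + 2 * B) * k ≤ k * k := mul_le_mul_of_nonneg_right (by linarith) (by linarith)
  have h6 : B * 1 ≤ B * k := mul_le_mul_of_nonneg_left h4 hB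
  nlinarith [(h1 k).2]

theorem core_HypMorse (δ κ K : ℝ) : ∃ D : ℝ, ∀ {X : Type} (d : X → X → ℝ), PM d → Hyp d δ →
    RG d κ → ∀ (z : ℕ → X) (n : ℕ), QG d K z n → 0 ≤ δ ∧ 0 ≤ κ ∧ 0 ≤ K ∧ 0 ≤ D ∧
      ∀ w, gp d w (z 0) (z n) ≤ κ → ∃ j, j ≤ n ∧ d w (z j) ≤ D := by
  have hpos : ∀ {X : Type} (d : X → X → ℝ), PM d → Hyp d δ → RG d κ → ∀ (z : ℕ → X) (n : ℕ),
      QG d K z n → 0 ≤ δ ∧ 0 ≤ κ ∧ 0 ≤ K := fun d hd hh hr z n hz => by
    refine ⟨?_, ?_, ?_⟩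
    · have h1 := hh (z 0) (z 0) (z 0) (z 0)
      rw [min_self] at h1
      linarith
    · obtain ⟨m, h1, -⟩ := hr (z 0) (z 0) 0 le_rfl (hd.self _).ge
      exact (abs_nonneg _).trans h1
    · have h1 := (hz 0 0 (Nat.zero_le n) (Nat.zero_le n)).1
      rw [hd.self, sub_self, abs_zero, mul_zero, zero_add] at h1
      exact h1
  by_cases h0 : 0 ≤ δ ∧ 0 ≤ κ ∧ 0 ≤ K
  swap
  · exact ⟨0, fun d hd hh hr z n hz => (h0 (hpos d hd hh hr z n hz)).elim⟩
  obtain ⟨hδ, hκ, hK⟩ := h0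
  obtain ⟨k₀, hk₀⟩ := pow_HypMorse (K * (6 * (δ + 1)))
    (K * (6 * (2 * κ + 2 * K + 3 * (δ + 1)) + 6 * κ + 4 * δ) + K) (by positivity) (by positivity)
  refine ⟨2 * κ + 2 * K + (k₀ + 2) * (δ + 1), fun d hd hh hr z n hz =>
    ⟨hδ, hκ, hK, by positivity, ?_⟩⟩
  have key : ∀ m : ℕ, (∀ w, gp d w (z 0) (z n) ≤ κ → ∃ j, j ≤ n ∧
      d w (z j) ≤ 2 * κ + 2 * K + ((k₀ + m : ℕ) + 2) * (δ + 1)) →
      ∀ w, gp d w (z 0) (z n) ≤ κ → ∃ j, j ≤ n ∧
        d w (z j) ≤ 2 * κ + 2 * K + (k₀ + 2) * (δ + 1) := by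
    intro m
    induction m with
    | zero => exact fun h => h
    | succ m ih =>
      intro h
      refine ih fun w hw => ?_
      have h1 := hk₀ (k₀ + m) (Nat.le_add_right _ _)
      have h2 : (0 : ℝ) ≤ ((k₀ + m : ℕ) : ℝ) := Nat.cast_nonneg _
      rw [show ((k₀ + (m + 1) : ℕ) : ℝ) = ((k₀ + m : ℕ) : ℝ) + 1 by push_cast; ring] at h
      obtain ⟨j, hj, hj'⟩ := step_HypMorse hd hh hr hδ hκ hK
        (by have : 0 ≤ (((k₀ + m : ℕ) : ℝ) + 1 + 2) * (δ + 1) := by positivity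
            linarith) hz (k₀ + m) (le_of_eq_of_le (by ring) h1) h w hw
      exact ⟨j, hj, by nlinarith⟩
  obtain ⟨m, hm⟩ := exists_nat_ge (d (z 0) (z n))
  refine key m fun w hw => ⟨0, Nat.zero_le n, ?_⟩
  have t1 := hd.tri (z 0) (z n) w
  have s1 := hd.symm w (z 0)
  have h2 : (0 : ℝ) ≤ k₀ := Nat.cast_nonneg _
  have h3 : (0 : ℝ) ≤ m := Nat.cast_nonneg _
  have h4 : 0 ≤ ((k₀ : ℝ) + m + 2) * δ := by positivity
  unfold gp at hw
  push_cast
  nlinarith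

theorem mid_HypMorse (δ κ K : ℝ) : ∃ C : ℝ, ∀ {X : Type} (d : X → X → ℝ), PM d → Hyp d δ →
    RG d κ → ∀ (z : ℕ → X) (n : ℕ), QG d K z n → ∀ j, j ≤ n → gp d (z j) (z 0) (z n) ≤ C := by
  obtain ⟨D, hD⟩ := core_HypMorse δ κ K
  refine ⟨κ + D + (K * (K * (2 * D + 1 + 4 * κ + 2 * δ) + K) + K), fun d hd hh hr z n hz j hj => ?_⟩
  obtain ⟨hδ, hκ, hK, hD0, hP⟩ := hD d hd hh hr z n hz
  have hL := nonneg_HypMorse hd (z 0) (z n)
  have s0 := hd.symm (z 0) (z n)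
  obtain ⟨m, hm, hm'⟩ : ∃ m : ℕ, ¬¬((m : ℝ) ≤ d (z 0) (z n) ∧ ∃ w t, gp d w (z 0) (z n) ≤ κ ∧
      |d (z 0) w - m| ≤ κ ∧ t ≤ j ∧ d w (z t) ≤ D) ∧
      ¬(((m + 1 : ℕ) : ℝ) ≤ d (z 0) (z n) ∧ ∃ w t, gp d w (z 0) (z n) ≤ κ ∧
      |d (z 0) w - (m + 1 : ℕ)| ≤ κ ∧ t ≤ j ∧ d w (z t) ≤ D) := by
    refine Nat.exists_not_and_succ_of_not_zero_of_exists (p := fun m : ℕ =>
      ¬((m : ℝ) ≤ d (z 0) (z n) ∧ ∃ w t, gp d w (z 0) (z n) ≤ κ ∧
        |d (z 0) w - m| ≤ κ ∧ t ≤ j ∧ d w (z t) ≤ D)) (not_not.2 ⟨by simpa using hL, z 0, 0, ?_,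
          ?_, Nat.zero_le j, ?_⟩) ?_
    · unfold gp
      rw [hd.self]
      linarith
    · rw [hd.self]
      simpa using hκ
    · rw [hd.self]
      exact hD0
    · obtain ⟨N, hN⟩ := exists_nat_gt (d (z 0) (z n))
      exact ⟨N, fun h => absurd h.1 (not_le.2 hN)⟩
  obtain ⟨hm0, w, t, hw, hw1, ht, hw2⟩ := not_not.1 hm
  obtain ⟨hw1, hw1'⟩ := abs_le.1 hw1
  obtain ⟨w', t', hv, hv1, hv1', ht', ht'', hv2⟩ : ∃ w' t', gp d w' (z 0) (z n) ≤ κ ∧
      (m : ℝ) - κ ≤ d (z 0) w' ∧ d (z 0) w' ≤ m + 1 + κ ∧ j ≤ t' ∧ t' ≤ n ∧ d w' (z t') ≤ D := by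
    rcases le_total (((m + 1 : ℕ) : ℝ)) (d (z 0) (z n)) with h | h
    · obtain ⟨a, h1, h2⟩ := hr (z 0) (z n) ((m + 1 : ℕ) : ℝ) (Nat.cast_nonneg _) h
      obtain ⟨h3, h3'⟩ := abs_le.1 h1
      obtain ⟨h2, h2'⟩ := abs_le.1 h2
      have s2 := hd.symm (z n) a
      have ha : gp d a (z 0) (z n) ≤ κ := by unfold gp; linarith
      obtain ⟨t', h4, h5⟩ := hP a ha
      push_cast at h3 h3'
      refine ⟨a, t', ha, by linarith, by linarith, ?_, h4, h5⟩
      by_contra h6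
      exact hm' ⟨h, a, t', ha, h1, (not_le.1 h6).le, h5⟩
    · push_cast at h
      refine ⟨z n, n, ?_, by linarith, by linarith, hj, le_rfl, ?_⟩
      · unfold gp
        rw [hd.self]
        linarith
      · rw [hd.self]
        exact hD0
  have h1 := ord_HypMorse (e := 1 + 2 * κ) hd hh hw hv (by linarith) (by linarith)
  have h2 : d (z t) (z t') ≤ 2 * D + 1 + 4 * κ + 2 * δ := by
    have t1 := hd.tri (z t) w (z t')
    have t2 := hd.tri w w' (z t')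
    have s1 := hd.symm w (z t)
    linarith
  have h3 := (hz t t' (ht.trans hj) ht'').2
  have h4 := (hz t j (ht.trans hj) hj).1
  have c1 : (t : ℝ) ≤ j := by exact_mod_cast ht
  have c2 : (j : ℝ) ≤ t' := by exact_mod_cast ht'
  rw [abs_of_nonpos (by linarith)] at h3 h4
  have h5 := mul_le_mul_of_nonneg_left h2 hK
  have h6 : K * -((t : ℝ) - j) ≤ K * (K * (2 * D + 1 + 4 * κ + 2 * δ) + K) :=
    mul_le_mul_of_nonneg_left (by linarith) hK
  have t3 := hd.tri w (z t) (z j)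
  have t4 := hd.tri (z 0) w (z j)
  have t5 := hd.tri (z n) w (z j)
  unfold gp at hw ⊢
  linarith

theorem morse_a (δ κ K : ℝ) : ∃ C : ℝ, ∀ {X : Type} (d : X → X → ℝ), PM d → Hyp d δ → RG d κ →
    ∀ (z : ℕ → X) (n : ℕ), QG d K z n → ∀ i j k, i ≤ j → j ≤ k → k ≤ n →
      gp d (z j) (z i) (z k) ≤ C := by
  obtain ⟨C, hC⟩ := mid_HypMorse δ κ K
  refine ⟨C, fun d hd hh hr z n hz i j k hij hjk hkn => ?_⟩
  have h := hC d hd hh hr (fun t => z (i + t)) (k - i) (fun a b ha hb => by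
    have h1 := hz (i + a) (i + b) (by omega) (by omega)
    rwa [show ((i + a : ℕ) : ℝ) - ((i + b : ℕ) : ℝ) = a - b by push_cast; ring] at h1)
    (j - i) (by omega)
  simp only [Nat.add_zero] at h
  rwa [show i + (j - i) = j by omega, show i + (k - i) = k by omega] at h

theorem morse_b (δ κ K c : ℝ) : ∃ C : ℝ, ∀ {X : Type} (d : X → X → ℝ), PM d → Hyp d δ →
    RG d κ → ∀ (z : ℕ → X) (n : ℕ), QG d K z n → ∀ w, gp d w (z 0) (z n) ≤ c →
      ∃ j, j ≤ n ∧ d w (z j) ≤ C := by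
  obtain ⟨D, hD⟩ := core_HypMorse δ κ K
  obtain ⟨C, hC⟩ := near_pt δ κ
  refine ⟨c + C + D, fun d hd hh hr z n hz w hw => ?_⟩
  obtain ⟨m, h1, h2⟩ := hC d hd hh hr (z 0) (z n) w
  obtain ⟨j, hj, h3⟩ := (hD d hd hh hr z n hz).2.2.2.2 m h1
  have t1 := hd.tri w m (z j)
  exact ⟨j, hj, by linarith⟩

end Pool.Agent.E5f

end

section

/-! Quasi-isometric embeddings, Cayley graphs, the Svarc-Milnor lemma. -/

set_option autoImplicit false

namespace Pool.Agent.E5f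

theorem gd_nonneg_HypQI {V : Type} (G : SimpleGraph V) (x y : V) : 0 ≤ gd G x y :=
  Nat.cast_nonneg _

theorem gseg_le_HypQI {V : Type} {G : SimpleGraph V} {γ : ℕ → V} {n i j : ℕ} (h : GSeg G γ n)
    (hij : i ≤ j) (hj : j ≤ n) : gd G (γ i) (γ j) = (j : ℝ) - i := by
  have h1 : (i : ℝ) ≤ j := by exact_mod_cast hij
  rw [h i j (hij.trans hj) hj, abs_sub_comm, abs_of_nonneg (by linarith)]

/-- A geodesic through a given point between the end points. -/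
theorem gseg_through_HypQI {V : Type} {G : SimpleGraph V} (hG : G.Connected) {x y p : V}
    (h : gd G x p + gd G p y = gd G x y) :
    ∃ (γ : ℕ → V) (a n : ℕ), a ≤ n ∧ γ 0 = x ∧ γ a = p ∧ γ n = y ∧ GSeg G γ n := by
  obtain ⟨γ1, h10, h11, h12, -⟩ := gseg_ex hG x p
  obtain ⟨γ2, h20, h21, h22, -⟩ := gseg_ex hG p y
  have hpm := gd_pm hG
  set a := G.dist x p with ha
  set b := G.dist p y with hb
  have hxy : gd G x y = (a : ℝ) + b := h.symm
  let γ : ℕ → V := fun i => if i ≤ a then γ1 i else γ2 (i - a)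
  have e1 : ∀ i, i ≤ a → γ i = γ1 i := fun i hi => if_pos hi
  have e2 : ∀ i, γ (a + i) = γ2 i := by
    intro i
    rcases Nat.eq_zero_or_pos i with rfl | hi
    · rw [Nat.add_zero, e1 a le_rfl, h11, h20]
    · have h1 : ¬ a + i ≤ a := by omega
      simp only [γ, if_neg h1, Nat.add_sub_cancel_left]
  have key : ∀ i j : ℕ, i ≤ j → j ≤ a + b → gd G (γ i) (γ j) = (j : ℝ) - i := by
    intro i j hij hj
    by_cases h1 : j ≤ a
    · rw [e1 i (hij.trans h1), e1 j h1, gseg_le_HypQI h12 hij h1]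
    obtain ⟨j', rfl⟩ : ∃ j', j = a + j' := ⟨j - a, by omega⟩
    have hj' : j' ≤ b := by omega
    by_cases h2 : a ≤ i
    · obtain ⟨i', rfl⟩ : ∃ i', i = a + i' := ⟨i - a, by omega⟩
      rw [e2, e2, gseg_le_HypQI h22 (by omega) hj']
      push_cast
      ring
    · have hi : i ≤ a := by omega
      rw [e1 i hi, e2]
      have t1 := gseg_le_HypQI h12 hi le_rfl
      have t2 := gseg_le_HypQI h22 (Nat.zero_le j') hj'
      have t3 := gseg_le_HypQI h12 (Nat.zero_le i) hi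
      have t4 := gseg_le_HypQI h22 hj' le_rfl
      rw [h11] at t1
      rw [h20] at t2
      rw [h10] at t3
      rw [h21] at t4
      have t5 := hpm.tri (γ1 i) p (γ2 j')
      have t6 := hpm.tri x (γ1 i) y
      have t7 := hpm.tri (γ1 i) (γ2 j') y
      push_cast at t2 t3 ⊢
      linarith
  refine ⟨γ, a, a + b, Nat.le_add_right _ _, by rw [e1 0 (Nat.zero_le _), h10],
    by rw [e1 a le_rfl, h11], by rw [e2, h21], fun i j hi hj => ?_⟩
  rcases le_total i j with hij | hij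
  · have h1 : (i : ℝ) ≤ j := by exact_mod_cast hij
    rw [key i j hij hj, abs_sub_comm, abs_of_nonneg (by linarith)]
  · have h1 : (j : ℝ) ≤ i := by exact_mod_cast hij
    rw [hpm.symm, key j i hij hi, abs_of_nonneg (by linarith)]

theorem qg_HypQI {V W : Type} {G : SimpleGraph V} {G' : SimpleGraph W} {K : ℝ} {f : V → W}
    (hf : QIE G G' f K) {γ : ℕ → V} {n : ℕ} (h : GSeg G γ n) :
    QG (gd G') K (fun i => f (γ i)) n := by
  intro i j hi hj
  rw [← h i j hi hj]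
  exact hf _ _

theorem hyp_of_qie {V W : Type} {G : SimpleGraph V} {G' : SimpleGraph W} (hG : G.Connected)
    (hG' : G'.Connected) {δ K : ℝ} (hh : Hyp (gd G') δ) {f : V → W} (hf : QIE G G' f K) :
    ∃ δ', Hyp (gd G) δ' := by
  obtain ⟨C1, hC1⟩ := morse_a δ 1 K
  obtain ⟨C2, hC2⟩ := morse_b δ 1 K (C1 + δ)
  have hpm := gd_pm hG
  have hpm' := gd_pm hG'
  have hrg' := gd_rg hG'
  have near : ∀ x z p, gp (gd G') (f p) (f x) (f z) ≤ C1 + δ →
      ∃ q, gd G x q + gd G q z = gd G x z ∧ gd G p q ≤ K * C2 + K := by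
    intro x z p hp
    obtain ⟨γ, h0, h1, h2, -⟩ := gseg_ex hG x z
    obtain ⟨j, hj, hd⟩ := hC2 (gd G') hpm' hh hrg' _ _ (qg_HypQI hf h2) (f p)
      (by simpa only [h0, h1] using hp)
    have hK : 0 ≤ K := by
      have h3 := (hf x x).2
      rw [hpm.self, hpm'.self] at h3
      linarith
    refine ⟨γ j, ?_, (hf p (γ j)).2.trans ?_⟩
    · have t1 := gseg_le_HypQI h2 (Nat.zero_le j) hj
      have t2 := gseg_le_HypQI h2 hj le_rfl
      rw [h0] at t1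
      rw [h1] at t2
      rw [t1, t2, gd]
      push_cast
      ring
    · have t3 := mul_le_mul_of_nonneg_left hd hK
      linarith
  refine ⟨_, hyp_of_slim hG (K * C2 + K) fun x y z p hp => ?_⟩
  obtain ⟨γ, a, n, han, h0, ha, hn, hγ⟩ := gseg_through_HypQI hG hp
  have h1 := hC1 (gd G') hpm' hh hrg' _ _ (qg_HypQI hf hγ) 0 a n (Nat.zero_le _) han le_rfl
  simp only [h0, ha, hn] at h1
  have h2 := hh (f p) (f x) (f z) (f y)
  rcases min_le_iff.1 (show min (gp (gd G') (f p) (f x) (f z)) (gp (gd G') (f p) (f z) (f y)) ≤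
      C1 + δ by linarith) with h3 | h3
  · obtain ⟨q, hq, hq'⟩ := near x z p h3
    exact ⟨q, Or.inl hq, hq'⟩
  · have h4 : gp (gd G') (f p) (f y) (f z) = gp (gd G') (f p) (f z) (f y) := by
      rw [gp, gp, hpm'.symm (f y) (f z), add_comm]
    obtain ⟨q, hq, hq'⟩ := near y z p (h4.trans_le h3)
    exact ⟨q, Or.inr hq, hq'⟩

theorem wev_cons_HypQI {G ι : Type} [Group G] (s : ι → G) (e : ι × Bool) (l : List (ι × Bool)) :
    wev s (e :: l) = (if e.2 = true then s e.1 else (s e.1)⁻¹) * wev s l := by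
  rw [wev, List.map_cons, List.prod_cons, wev]

theorem wev_nil_HypQI {G ι : Type} [Group G] (s : ι → G) : wev s [] = 1 := rfl

theorem step_HypQI {G ι : Type} [Group G] (s : ι → G) (e : ι × Bool) (g : G) :
    g = g * (if e.2 = true then s e.1 else (s e.1)⁻¹) ∨
      (cay s).Adj g (g * (if e.2 = true then s e.1 else (s e.1)⁻¹)) := by
  by_cases h : g = g * (if e.2 = true then s e.1 else (s e.1)⁻¹)
  · exact Or.inl h
  · refine Or.inr ⟨h, e.1, ?_⟩
    split_ifs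
    · exact Or.inl rfl
    · exact Or.inr (by rw [inv_mul_cancel_right])

theorem walk_HypQI {G ι : Type} [Group G] (s : ι → G) (l : List (ι × Bool)) (g : G) :
    ∃ p : (cay s).Walk g (g * wev s l), p.length ≤ l.length := by
  induction l generalizing g with
  | nil =>
    rw [wev_nil_HypQI, mul_one]
    exact ⟨SimpleGraph.Walk.nil, le_rfl⟩
  | cons e l ih =>
    rw [wev_cons_HypQI, ← mul_assoc]
    rcases step_HypQI s e g with h | h
    · rw [← h]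
      obtain ⟨p, hp⟩ := ih g
      exact ⟨p, hp.trans (Nat.le_succ _)⟩
    · obtain ⟨p, hp⟩ := ih (g * (if e.2 = true then s e.1 else (s e.1)⁻¹))
      exact ⟨SimpleGraph.Walk.cons h p, Nat.succ_le_succ hp⟩

theorem word_HypQI {G ι : Type} [Group G] (s : ι → G) {g h : G} (p : (cay s).Walk g h) :
    ∃ l : List (ι × Bool), l.length = p.length ∧ wev s l = g⁻¹ * h := by
  induction p with
  | nil => exact ⟨[], rfl, by rw [wev_nil_HypQI, inv_mul_cancel]⟩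
  | cons h p ih =>
    obtain ⟨l, hl, hw⟩ := ih
    obtain ⟨-, i, hi | hi⟩ := h
    · refine ⟨(i, true) :: l, congrArg Nat.succ hl, ?_⟩
      rw [wev_cons_HypQI, hw, hi, if_pos rfl]
      group
    · refine ⟨(i, false) :: l, congrArg Nat.succ hl, ?_⟩
      rw [wev_cons_HypQI, hw, hi, if_neg (by simp)]
      group

theorem wl_le_HypQI {G ι : Type} [Group G] (s : ι → G) (l : List (ι × Bool)) :
    wl s (wev s l) ≤ l.length :=
  Nat.sInf_le ⟨l, rfl, rfl⟩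

theorem wl_ex_HypQI {G ι : Type} [Group G] {s : ι → G} (hs : Gens s) (g : G) :
    ∃ l : List (ι × Bool), l.length = wl s g ∧ wev s l = g := by
  obtain ⟨l, hl⟩ := hs g
  exact Nat.sInf_mem (s := {m : ℕ | ∃ l : List (ι × Bool), l.length = m ∧ wev s l = g})
    ⟨_, l, rfl, hl⟩

theorem cay_conn {G ι : Type} [Group G] {s : ι → G} (hs : Gens s) : (cay s).Connected := by
  have : Nonempty G := ⟨1⟩
  refine ⟨fun g h => ?_⟩
  obtain ⟨l, hl⟩ := hs (g⁻¹ * h)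
  obtain ⟨p, -⟩ := walk_HypQI s l g
  rw [hl, mul_inv_cancel_left] at p
  exact ⟨p⟩

theorem cay_dist {G ι : Type} [Group G] {s : ι → G} (hs : Gens s) (g h : G) :
    gd (cay s) g h = (wl s (g⁻¹ * h) : ℝ) := by
  rw [gd, Nat.cast_inj]
  apply le_antisymm
  · obtain ⟨l, hl, hw⟩ := wl_ex_HypQI hs (g⁻¹ * h)
    obtain ⟨p, hp⟩ := walk_HypQI s l g
    have h1 := (SimpleGraph.dist_le p).trans hp
    rwa [hw, mul_inv_cancel_left, hl] at h1
  · obtain ⟨p, hp⟩ := (cay_conn hs).exists_walk_length_eq_dist g h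
    obtain ⟨l, hl, hw⟩ := word_HypQI s p
    rw [← hw, ← hp, ← hl]
    exact wl_le_HypQI s l

theorem fourPt_of_hyp {G ι : Type} [Group G] {s : ι → G} (hs : Gens s) {δ : ℝ}
    (hh : Hyp (gd (cay s)) δ) : FourPt s := by
  refine ⟨⌈δ⌉₊, fun x y z w => ?_⟩
  have hpm := gd_pm (cay_conn hs)
  have h1 := hh w x z y
  have h2 := Nat.le_ceil δ
  have h3 : gd (cay s) x y + gd (cay s) z w ≤
      max (gd (cay s) x z + gd (cay s) y w) (gd (cay s) x w + gd (cay s) y z) + 2 * ⌈δ⌉₊ := by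
    have h4 := le_max_left (gd (cay s) x z + gd (cay s) y w) (gd (cay s) x w + gd (cay s) y z)
    have h5 := le_max_right (gd (cay s) x z + gd (cay s) y w) (gd (cay s) x w + gd (cay s) y z)
    have h6 := hpm.symm z y
    rcases min_le_iff.1 (sub_le_iff_le_add.1 h1) with h7 | h7
    · simp only [gp] at h7
      linarith
    · simp only [gp] at h7
      linarith
  simp only [cay_dist hs] at h3
  exact_mod_cast h3

theorem svarc {G V : Type} [Group G] [MulAction G V] (Gr : SimpleGraph V) (hc : Gr.Connected)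
    (hadj : ∀ (g : G) X Y, Gr.Adj X Y → Gr.Adj (g • X) (g • Y)) (X0 : V) (R : ℝ)
    (hco : ∀ X, ∃ g : G, gd Gr (g • X0) X ≤ R)
    (hpr : ∀ C : ℝ, {g : G | gd Gr X0 (g • X0) ≤ C}.Finite) :
    ∃ (n : ℕ) (s : Fin n → G) (K : ℝ), Gens s ∧ QIE (cay s) Gr (fun g => g • X0) K := by
  have hpm := gd_pm hc
  have hR : 0 ≤ R := by
    obtain ⟨g, hg⟩ := hco X0
    exact (gd_nonneg_HypQI _ _ _).trans hg
  have inv1 : ∀ (g : G) X Y, Gr.dist (g • X) (g • Y) ≤ Gr.dist X Y := by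
    intro g X Y
    obtain ⟨p, hp⟩ := hc.exists_walk_length_eq_dist X Y
    let F : Gr →g Gr := ⟨fun X => g • X, fun h => hadj g _ _ h⟩
    have h1 := SimpleGraph.dist_le (p.map F)
    rw [SimpleGraph.Walk.length_map, hp] at h1
    exact h1
  have inv : ∀ (g : G) X Y, gd Gr (g • X) (g • Y) = gd Gr X Y := by
    intro g X Y
    rw [gd, gd, Nat.cast_inj]
    refine le_antisymm (inv1 g X Y) ?_
    have h1 := inv1 g⁻¹ (g • X) (g • Y)
    rwa [inv_smul_smul, inv_smul_smul] at h1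
  have inv2 : ∀ g h : G, gd Gr X0 ((g⁻¹ * h) • X0) = gd Gr (g • X0) (h • X0) := by
    intro g h
    rw [← inv g, smul_smul, mul_inv_cancel_left]
  obtain ⟨n, s, -, hs⟩ := (hpr (2 * R + 1)).fin_param
  have hs1 : ∀ i, gd Gr X0 (s i • X0) ≤ 2 * R + 1 := fun i =>
    show s i ∈ {g : G | gd Gr X0 (g • X0) ≤ 2 * R + 1} from hs ▸ Set.mem_range_self i
  have hs2 : ∀ g h : G, gd Gr (g • X0) (h • X0) ≤ 2 * R + 1 → ∃ i, s i = g⁻¹ * h := by
    intro g h hgh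
    have h1 : g⁻¹ * h ∈ {g : G | gd Gr X0 (g • X0) ≤ 2 * R + 1} := (inv2 g h).trans_le hgh
    rw [← hs] at h1
    exact h1
  have c1 : ∀ {X Y : V} (p : Gr.Walk X Y) (g h : G), gd Gr (g • X0) X ≤ R →
      gd Gr (h • X0) Y ≤ R → ∃ l, wev s l = g⁻¹ * h ∧ l.length ≤ p.length + 1 := by
    intro X Y p
    induction p with
    | @nil X =>
      intro g h hg hh
      have t1 := hpm.tri (g • X0) X (h • X0)
      have t2 := hpm.symm X (h • X0)
      obtain ⟨i, hi⟩ := hs2 g h (by linarith)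
      exact ⟨[(i, true)], by rw [wev_cons_HypQI, wev_nil_HypQI, mul_one, if_pos rfl, hi], le_rfl⟩
    | @cons X X' Y hXX p ih =>
      intro g h hg hh
      obtain ⟨g', hg'⟩ := hco X'
      obtain ⟨l, hl, hl'⟩ := ih g' h hg' hh
      have t1 := hpm.tri (g • X0) X (g' • X0)
      have t2 := hpm.tri X X' (g' • X0)
      have t3 := hpm.symm X' (g' • X0)
      have t4 := gd_adj.2 hXX
      obtain ⟨i, hi⟩ := hs2 g g' (by linarith)
      refine ⟨(i, true) :: l, ?_, Nat.succ_le_succ hl'⟩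
      rw [wev_cons_HypQI, if_pos rfl, hi, hl]
      group
  have c2 : ∀ g h : G, ∃ l, wev s l = g⁻¹ * h ∧ l.length ≤ Gr.dist (g • X0) (h • X0) + 1 := by
    intro g h
    obtain ⟨p, hp⟩ := hc.exists_walk_length_eq_dist (g • X0) (h • X0)
    rw [← hp]
    exact c1 p g h (by rw [hpm.self]; exact hR) (by rw [hpm.self]; exact hR)
  have c3 : ∀ l : List (Fin n × Bool), gd Gr X0 (wev s l • X0) ≤ (2 * R + 1) * l.length := by
    intro l
    induction l with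
    | nil => rw [wev_nil_HypQI, one_smul, hpm.self, List.length_nil, Nat.cast_zero, mul_zero]
    | cons e l ih =>
      rw [wev_cons_HypQI, mul_smul, List.length_cons]
      set u : G := if e.2 = true then s e.1 else (s e.1)⁻¹ with hu
      have t1 := hpm.tri X0 (u • X0) (u • wev s l • X0)
      have t2 := inv u X0 (wev s l • X0)
      have t3 : gd Gr X0 (u • X0) ≤ 2 * R + 1 := by
        rw [hu]
        split_ifs
        · exact hs1 _
        · rw [← inv (s e.1), smul_inv_smul, hpm.symm]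
          exact hs1 _
      push_cast
      linarith
  have hgen : Gens s := by
    intro g
    obtain ⟨l, hl, -⟩ := c2 1 g
    exact ⟨l, by rw [hl, inv_one, one_mul]⟩
  refine ⟨n, s, 2 * R + 1, hgen, fun g h => ⟨?_, ?_⟩⟩
  · obtain ⟨l, hl, hw⟩ := wl_ex_HypQI hgen (g⁻¹ * h)
    have t1 := c3 l
    rw [hw, inv2, hl, ← cay_dist hgen] at t1
    dsimp only
    linarith
  · obtain ⟨l, hw, hl⟩ := c2 g h
    have t1 := (wl_le_HypQI s l).trans hl
    rw [hw] at t1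
    have t2 : (wl s (g⁻¹ * h) : ℝ) ≤ gd Gr (g • X0) (h • X0) + 1 := by
      rw [gd]
      exact_mod_cast t1
    have t3 := mul_nonneg hR (gd_nonneg_HypQI Gr (g • X0) (h • X0))
    rw [cay_dist hgen]
    dsimp only
    linarith

/-- A pseudo-metric invariant under a group that acts cocompactly on a proper roughly geodesic
space is coarsely Lipschitz. -/
theorem lip_of_orbits {O P : Type} [Group O] (φ : O →* Equiv.Perm P) (d d' : P → P → ℝ)
    (hd : PM d) (hd' : PM d') {κ : ℝ} (hκ : 0 ≤ κ) (hrg : RG d κ)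
    (hfin : ∀ (x : P) (R : ℝ), {y | d x y ≤ R}.Finite)
    (horb : ∃ T : Finset P, ∀ x, ∃ o, ∃ y ∈ T, x = φ o y)
    (hi : ∀ o x y, d (φ o x) (φ o y) = d x y) (hi' : ∀ o x y, d' (φ o x) (φ o y) = d' x y) :
    ∃ K : ℝ, 1 ≤ K ∧ ∀ x y, d' x y ≤ K * d x y + K := by
  obtain ⟨T, hT⟩ := horb
  have hA : (⋃ t ∈ (T : Set P), d' t '' {y | d t y ≤ 2 * κ + 1}).Finite :=
    T.finite_toSet.biUnion fun t _ => (hfin t _).image _
  obtain ⟨M0, hM0⟩ := hA.bddAbove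
  have hM : ∀ x y, d x y ≤ 2 * κ + 1 → d' x y ≤ max M0 0 := by
    intro x y hxy
    obtain ⟨o, t, ht, rfl⟩ := hT x
    obtain ⟨y, rfl⟩ := (φ o).surjective y
    rw [hi] at hxy
    rw [hi']
    exact (hM0 (Set.mem_biUnion ht ⟨y, hxy, rfl⟩)).trans (le_max_left _ _)
  have hM' : 0 ≤ max M0 0 := le_max_right _ _
  generalize max M0 0 = M at hM hM'
  have key : ∀ n : ℕ, ∀ x y, d x y ≤ n + κ + 1 → d' x y ≤ (n + 1) * M := by
    intro n
    induction n with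
    | zero =>
      intro x y h
      rw [Nat.cast_zero, zero_add] at h
      rw [Nat.cast_zero, zero_add, one_mul]
      exact hM x y (by linarith)
    | succ n ih =>
      intro x y h
      push_cast at h ⊢
      by_cases h1 : d x y ≤ κ + 1
      · have t1 := hM x y (by linarith)
        have t2 := mul_nonneg (Nat.cast_nonneg (α := ℝ) n) hM'
        linarith
      · obtain ⟨z, hz1, hz2⟩ := hrg x y (κ + 1) (by linarith) (not_le.1 h1).le
        have t1 := hM x z (by linarith [(abs_le.1 hz1).2])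
        have t2 := ih z y (by linarith [(abs_le.1 hz2).2])
        have t3 := hd'.tri x z y
        linarith
  refine ⟨2 * M + 1, by linarith, fun x y => ?_⟩
  have h0 : 0 ≤ d x y := by
    have t1 := hd.tri x y x
    rw [hd.self, hd.symm y x] at t1
    linarith
  have t1 := key ⌈d x y⌉₊ x y (by linarith [Nat.le_ceil (d x y)])
  have t2 := mul_le_mul_of_nonneg_right (Nat.ceil_lt_add_one h0).le hM'
  have t3 := mul_nonneg h0 hM'
  linarith

end Pool.Agent.E5f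

end

section

/-! The class of limit functionals. -/

set_option autoImplicit false

namespace Pool.Agent.E5f

theorem pm_nonneg_FinClass {X : Type} {d : X → X → ℝ} (h : PM d) (x y : X) : 0 ≤ d x y := by
  have h1 := h.tri x y x
  rw [h.self, h.symm y x] at h1
  linarith

theorem pm_add_FinClass {X : Type} {d d' : X → X → ℝ} (h : PM d) (h' : PM d') :
    PM fun x y => d x y + d' x y :=
  ⟨fun x => by rw [h.self, h'.self, add_zero], fun x y => by rw [h.symm, h'.symm],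
    fun x y z => by linarith [h.tri x y z, h'.tri x y z]⟩

theorem bound_FinClass {Q P : Type} [MulAction G8 Q] {S : Base Q} {q0 : Q} (Fb : Fib S q0 P)
    (p q : Q) (hp : Thick (fun x y => Fb.dv p x y + Fb.dh p x y)) :
    ∃ K : ℝ, ∀ Φ ∈ LimF Fb.dv Fb.dh, Φ.1 q + Φ.2 q ≤ K * (Φ.1 p + Φ.2 p) := by
  classical
  obtain ⟨κ, hκ, hrg⟩ := hp.rg
  obtain ⟨K, hK, h⟩ := lip_of_orbits Fb.φ (fun x y => Fb.dv p x y + Fb.dh p x y)
    (fun x y => Fb.dv q x y + Fb.dh q x y) (pm_add_FinClass (Fb.pv p) (Fb.ph p))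
    (pm_add_FinClass (Fb.pv q) (Fb.ph q)) hκ hrg hp.fin Fb.orb
    (fun o x y => by rw [Fb.inv_v, Fb.inv_h]) (fun o x y => by rw [Fb.inv_v, Fb.inv_h])
  refine ⟨K, fun Φ hΦ => le_of_forall_pos_le_add fun ε hε => ?_⟩
  have hK' : 0 < 3 * K + 2 := by linarith
  obtain ⟨x, y, t, t0, t1, ht⟩ := hΦ {p, q} (ε / (3 * K + 2)) (div_pos hε hK')
  obtain ⟨a1, a2⟩ := ht p (by simp)
  obtain ⟨a3, a4⟩ := ht q (by simp)
  have e : (3 * K + 2) * (ε / (3 * K + 2)) = ε := mul_div_cancel₀ _ hK'.ne'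
  generalize ε / (3 * K + 2) = η at *
  have h1 := mul_le_mul_of_nonneg_left (h x y) t0.le
  have h2 := mul_le_mul_of_nonneg_left (add_le_add (abs_le.1 a1).2 (abs_le.1 a2).2)
    (zero_le_one.trans hK)
  have h3 := mul_le_mul_of_nonneg_left t1 (zero_le_one.trans hK)
  linarith [(abs_le.1 a3).1, (abs_le.1 a4).1]

theorem nonneg_FinClass {Q P : Type} [MulAction G8 Q] {S : Base Q} {q0 : Q} (Fb : Fib S q0 P)
    (Φ : (Q → ℝ) × (Q → ℝ)) (hΦ : Φ ∈ LimF Fb.dv Fb.dh) (q : Q) : 0 ≤ Φ.1 q ∧ 0 ≤ Φ.2 q := by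
  constructor <;> refine le_of_forall_pos_le_add fun ε hε => ?_ <;>
    obtain ⟨x, y, t, t0, -, ht⟩ := hΦ {q} ε hε <;>
    obtain ⟨a1, a2⟩ := ht q (Finset.mem_singleton_self q)
  · linarith [(abs_le.1 a1).2, mul_nonneg t0.le (pm_nonneg_FinClass (Fb.pv q) x y)]
  · linarith [(abs_le.1 a2).2, mul_nonneg t0.le (pm_nonneg_FinClass (Fb.ph q) x y)]

theorem fclass_of {Q P : Type} [MulAction G8 Q] {S : Base Q} {q0 : Q} (Fb : Fib S q0 P)
    (hV : FSide S.dv S.dh S.dg S.P0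
      (fun F z => ∃ Φ ∈ LimF Fb.dv Fb.dh, F = Φ.1 ∧ z = Φ.1 q0 + Φ.2 q0))
    (hH : FSide S.dh S.dv S.dg S.P0
      (fun F z => ∃ Φ ∈ LimF Fb.dv Fb.dh, F = Φ.2 ∧ z = Φ.1 q0 + Φ.2 q0)) :
    FClass S q0 (LimF Fb.dv Fb.dh) := by
  classical
  refine ⟨nonneg_FinClass Fb, fun Φ hΦ γ T ε hε => ?_, fun q => bound_FinClass Fb q0 q Fb.thick,
    hV, hH⟩
  have hl : 0 < S.lam := zero_lt_one.trans S.lam1
  have ha : 0 < S.lam ^ (S.dg γ) := zpow_pos hl _
  have hb : 0 < S.lam ^ (-S.dg γ) := zpow_pos hl _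
  have hab : S.lam ^ (-S.dg γ) * S.lam ^ (S.dg γ) = 1 := by
    rw [← zpow_add₀ hl.ne', neg_add_cancel, zpow_zero]
  have hc : 0 < 1 + S.lam ^ (S.dg γ) + S.lam ^ (-S.dg γ) := by positivity
  obtain ⟨x, y, t, t0, t1, ht⟩ := hΦ (T.image (γ • ·)) _ (div_pos hε hc)
  have e := mul_div_cancel₀ ε hc.ne'
  have hη := div_pos hε hc
  generalize ε / (1 + S.lam ^ (S.dg γ) + S.lam ^ (-S.dg γ)) = η at *
  have h1 := mul_pos ha hη
  have h2 := mul_pos hb hη
  refine ⟨(Fb.s γ)⁻¹ x, (Fb.s γ)⁻¹ y, t, t0, by linarith, fun q hq => ?_⟩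
  obtain ⟨a1, a2⟩ := ht _ (Finset.mem_image_of_mem _ hq)
  have ev := Fb.eq_v γ q ((Fb.s γ)⁻¹ x) ((Fb.s γ)⁻¹ y)
  have eh := Fb.eq_h γ q ((Fb.s γ)⁻¹ x) ((Fb.s γ)⁻¹ y)
  simp only [Equiv.Perm.coe_inv, Equiv.apply_symm_apply] at ev eh ⊢
  rw [ev] at a1
  rw [eh] at a2
  constructor
  · have h3 := mul_le_mul_of_nonneg_left a1 hb.le
    rw [← abs_of_pos hb, ← abs_mul, abs_of_pos hb, mul_sub, mul_left_comm, ← mul_assoc _ _
      (Fb.dv _ _ _), hab, one_mul] at h3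
    linarith
  · have h3 := mul_le_mul_of_nonneg_left a2 ha.le
    rw [← abs_of_pos ha, ← abs_mul, abs_of_pos ha, mul_sub, mul_left_comm, ← mul_assoc _ _
      (Fb.dh _ _ _), mul_comm (S.lam ^ (S.dg γ)), hab, one_mul] at h3
    linarith

/-- If a limit functional vanishes at a thick point, it vanishes at the base point. -/
theorem zero_of_thick {Q P : Type} [MulAction G8 Q] {S : Base Q} {q0 : Q} (Fb : Fib S q0 P)
    (q : Q) (hq : Thick (fun x y => Fb.dv q x y + Fb.dh q x y))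
    (Φ : (Q → ℝ) × (Q → ℝ)) (hΦ : Φ ∈ LimF Fb.dv Fb.dh) (h1 : Φ.1 q = 0) (h2 : Φ.2 q = 0) :
    Φ.1 q0 + Φ.2 q0 = 0 := by
  obtain ⟨K, hK⟩ := bound_FinClass Fb q q0 hq
  have h3 := hK Φ hΦ
  rw [h1, h2, add_zero, mul_zero] at h3
  obtain ⟨h4, h5⟩ := nonneg_FinClass Fb Φ hΦ q0
  linarith

end Pool.Agent.E5f

end

section

/-! Flaring from the absence of bounded bi-infinite strips. -/

set_option autoImplicit false

namespace Pool.Agent.E5f

/-- The fibre metric over an element of the surface group. -/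
noncomputable def Fib.D {Q P : Type} [MulAction G8 Q] {S : Base Q} {q0 : Q} (Fb : Fib S q0 P)
    {h : ℕ} (A : Arith h) (b : SG h) (x y : P) : ℝ :=
  Fb.dv q0 ((Fb.s (A.ι b))⁻¹ x) ((Fb.s (A.ι b))⁻¹ y) +
    Fb.dh q0 ((Fb.s (A.ι b))⁻¹ x) ((Fb.s (A.ι b))⁻¹ y)

section Aux

variable {Q P : Type} [MulAction G8 Q] {S : Base Q} {q0 : Q} (Fb : Fib S q0 P) {h : ℕ}

theorem pm_nonneg_FinFlare {X : Type} {d : X → X → ℝ} (hd : PM d) (x y : X) : 0 ≤ d x y := by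
  have h1 := hd.tri x y x
  rw [hd.self, hd.symm y x] at h1
  linarith

theorem pm_add_FinFlare {X : Type} {d d' : X → X → ℝ} (hd : PM d) (hd' : PM d') :
    PM (fun x y => d x y + d' x y) :=
  ⟨fun x => by simp [hd.self, hd'.self], fun x y => by rw [hd.symm x, hd'.symm x],
    fun x y z => by linarith [hd.tri x y z, hd'.tri x y z]⟩

theorem Fib.lipq_FinFlare (q : Q) : ∃ K : ℝ, 1 ≤ K ∧ ∀ x y,
    Fb.dv q x y + Fb.dh q x y ≤ K * (Fb.dv q0 x y + Fb.dh q0 x y) + K := by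
  obtain ⟨κ, hκ, hrg⟩ := Fb.thick.rg
  exact lip_of_orbits Fb.φ _ _ (pm_add_FinFlare (Fb.pv q0) (Fb.ph q0))
    (pm_add_FinFlare (Fb.pv q) (Fb.ph q)) hκ hrg Fb.thick.fin Fb.orb
    (fun o x y => by rw [Fb.inv_v, Fb.inv_h]) (fun o x y => by rw [Fb.inv_v, Fb.inv_h])

theorem Fib.D_eq_FinFlare (A : Arith h) (b : SG h) (x y : P) :
    Fb.D A b x y = S.lam ^ (-S.dg (A.ι b)) * Fb.dv (A.ι b • q0) x y +
      S.lam ^ (S.dg (A.ι b)) * Fb.dh (A.ι b • q0) x y := by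
  have hl : S.lam ≠ 0 := (zero_lt_one.trans S.lam1).ne'
  have h1 := Fb.eq_v (A.ι b) q0 ((Fb.s (A.ι b))⁻¹ x) ((Fb.s (A.ι b))⁻¹ y)
  have h2 := Fb.eq_h (A.ι b) q0 ((Fb.s (A.ι b))⁻¹ x) ((Fb.s (A.ι b))⁻¹ y)
  simp only [Equiv.Perm.coe_inv, Equiv.apply_symm_apply] at h1 h2
  rw [h1, h2, ← mul_assoc, ← mul_assoc, ← zpow_add₀ hl, ← zpow_add₀ hl]
  simp [Fib.D]

theorem Fib.D_nonneg_FinFlare (A : Arith h) (b : SG h) (x y : P) : 0 ≤ Fb.D A b x y :=
  add_nonneg (pm_nonneg_FinFlare (Fb.pv q0) _ _) (pm_nonneg_FinFlare (Fb.ph q0) _ _)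

theorem Fib.D_mul_FinFlare (A : Arith h) (b g : SG h) (x y : P) :
    Fb.D A (b * g) x y = Fb.D A g ((Fb.s (A.ι b))⁻¹ x) ((Fb.s (A.ι b))⁻¹ y) := by
  simp only [Fib.D, map_mul, mul_inv_rev, Equiv.Perm.mul_apply]

theorem Fib.D_one_FinFlare (A : Arith h) (x y : P) :
    Fb.D A 1 x y = Fb.dv q0 x y + Fb.dh q0 x y := by
  simp [Fib.D]

theorem Fib.lipg_FinFlare (A : Arith h) (g : SG h) : ∃ K : ℝ, 1 ≤ K ∧ ∀ x y,
    Fb.D A g x y ≤ K * Fb.D A 1 x y + K := by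
  obtain ⟨K, hK, hx⟩ := Fb.lipq_FinFlare (A.ι g • q0)
  have hl : 0 < S.lam := zero_lt_one.trans S.lam1
  have h1 : 0 < S.lam ^ (-S.dg (A.ι g)) := zpow_pos hl _
  have h2 : 0 < S.lam ^ (S.dg (A.ι g)) := zpow_pos hl _
  refine ⟨(1 + S.lam ^ (-S.dg (A.ι g)) + S.lam ^ (S.dg (A.ι g))) * K, by nlinarith,
    fun x y => ?_⟩
  have h3 := pm_nonneg_FinFlare (Fb.pv (A.ι g • q0)) x y
  have h4 := pm_nonneg_FinFlare (Fb.ph (A.ι g • q0)) x y
  rw [Fb.D_eq_FinFlare A g, Fb.D_one_FinFlare, mul_assoc, ← mul_add]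
  refine le_trans ?_ (mul_le_mul_of_nonneg_left (hx x y) (by positivity))
  nlinarith [mul_nonneg h1.le h4, mul_nonneg h2.le h3]

theorem ball_finite_FinFlare {G ι : Type} [Group G] [Finite ι] {s : ι → G} (hs : Gens s)
    (m : ℕ) : {g : G | wl s g = m}.Finite := by
  refine ((List.finite_length_eq (ι × Bool) m).image (wev s)).subset fun g hg => ?_
  obtain ⟨l, hl⟩ := hs g
  have hne : {m : ℕ | ∃ l : List (ι × Bool), l.length = m ∧ wev s l = g}.Nonempty :=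
    ⟨_, l, rfl, hl⟩
  obtain ⟨l', h1, h2⟩ := Nat.sInf_mem hne
  exact ⟨l', h1.trans hg, h2⟩

theorem ultra_lim_FinFlare (U : Ultrafilter ℕ) (f : ℕ → ℝ) (C : ℝ) (hf : ∀ n, 0 ≤ f n ∧ f n ≤ C) :
    ∃ a, Filter.Tendsto f U (nhds a) := by
  obtain ⟨a, -, ha⟩ := (isCompact_Icc (a := 0) (b := C)).ultrafilter_le_nhds (U.map f)
    (by
      rw [Filter.le_principal_iff]
      exact Filter.mem_map.2 (Filter.Eventually.of_forall hf))
  exact ⟨a, ha⟩

/-- The limit lemma. -/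
theorem Fib.limit_FinFlare (A : Arith h) (hg : Gens (sgen h))
    (hb : NoBad S q0 (LimF Fb.dv Fb.dh) A) (Θ : ℝ) : ∃ n : ℕ, ∀ (γ : ℤ → SG h) (x y : P),
      (∀ i j : ℤ, |i| ≤ n → |j| ≤ n → gd (cay (sgen h)) (γ i) (γ j) = |(i : ℝ) - (j : ℝ)|) →
      (n : ℝ) ≤ Fb.D A (γ 0) x y →
      ∃ j : ℤ, |j| ≤ n ∧ Θ * Fb.D A (γ 0) x y < Fb.D A (γ j) x y := by
  by_contra hc
  push Not at hc
  have hc' : ∀ n : ℕ, ∃ (γ : ℤ → SG h) (x y : P), γ 0 = 1 ∧
      (∀ i j : ℤ, |i| ≤ n → |j| ≤ n → gd (cay (sgen h)) (γ i) (γ j) = |(i : ℝ) - (j : ℝ)|) ∧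
      (n : ℝ) + 1 ≤ Fb.D A 1 x y ∧
      ∀ j : ℤ, |j| ≤ n → Fb.D A (γ j) x y ≤ Θ * Fb.D A 1 x y := by
    intro n
    obtain ⟨γ, x, y, h1, h2, h3⟩ := hc (n + 1)
    have e : ∀ j, Fb.D A (γ j) x y = Fb.D A ((γ 0)⁻¹ * γ j) ((Fb.s (A.ι (γ 0)))⁻¹ x)
        ((Fb.s (A.ι (γ 0)))⁻¹ y) := fun j => by
      rw [← Fb.D_mul_FinFlare, mul_inv_cancel_left]
    have e0 := e 0
    rw [inv_mul_cancel] at e0
    refine ⟨fun j => (γ 0)⁻¹ * γ j, (Fb.s (A.ι (γ 0)))⁻¹ x, (Fb.s (A.ι (γ 0)))⁻¹ y,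
      inv_mul_cancel _, fun i j hi hj => ?_, ?_, fun j hj => ?_⟩
    · rw [← h1 i j (by push_cast; omega) (by push_cast; omega), cay_dist hg, cay_dist hg]
      congr 2
      group
    · rw [← e0]; exact_mod_cast h2
    · rw [← e0, ← e]; exact h3 j (by push_cast; omega)
  choose γ x y h0 h1 h2 h3 using hc'
  set U := Filter.hyperfilter ℕ with hU
  have hUt : (U : Filter ℕ) ≤ Filter.atTop := by
    rw [← Nat.cofinite_eq_atTop]; exact Filter.hyperfilter_le_cofinite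
  have hge : ∀ j : ℤ, ∀ᶠ n : ℕ in U, |j| ≤ n := fun j =>
    ((Filter.eventually_ge_atTop j.natAbs).mono fun n hn => by
      rw [abs_le]; omega).filter_mono hUt
  have hconst : ∀ j : ℤ, ∃ b, ∀ᶠ n : ℕ in U, γ n j = b := by
    intro j
    have hm : {g : SG h | wl (sgen h) g = j.natAbs} ∈ U.map (fun n => γ n j) := by
      refine (hge j).mono fun n hn => ?_
      have h4 := h1 n 0 j (by simp) hn
      rw [h0, cay_dist hg, inv_one, one_mul] at h4
      have h5 : ((wl (sgen h) (γ n j) : ℤ) : ℝ) = ((j.natAbs : ℤ) : ℝ) := by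
        simpa using h4
      exact_mod_cast h5
    obtain ⟨b, -, hb'⟩ := Ultrafilter.eq_pure_of_finite_mem (ball_finite_FinFlare hg _) hm
    refine ⟨b, ?_⟩
    have : {b} ∈ U.map (fun n => γ n j) := by rw [hb']; simp
    exact this
  choose β hβ using hconst
  set t : ℕ → ℝ := fun n => (Fb.D A 1 (x n) (y n))⁻¹ with ht
  have hD : ∀ n, 0 < Fb.D A 1 (x n) (y n) := fun n => lt_of_lt_of_le (by positivity) (h2 n)
  have ht0 : ∀ n, 0 < t n := fun n => inv_pos.2 (hD n)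
  have htD : ∀ n, t n * Fb.D A 1 (x n) (y n) = 1 := fun n => inv_mul_cancel₀ (hD n).ne'
  have ht1 : ∀ n, t n ≤ ((n : ℝ) + 1)⁻¹ := fun n => inv_anti₀ (by positivity) (h2 n)
  have hbd : ∀ q, ∃ C : ℝ, ∀ n, (0 ≤ t n * Fb.dv q (x n) (y n) ∧ t n * Fb.dv q (x n) (y n) ≤ C) ∧
      (0 ≤ t n * Fb.dh q (x n) (y n) ∧ t n * Fb.dh q (x n) (y n) ≤ C) := by
    intro q
    obtain ⟨K, hK, hx⟩ := Fb.lipq_FinFlare q
    refine ⟨2 * K, fun n => ?_⟩
    have a1 := mul_nonneg (ht0 n).le (pm_nonneg_FinFlare (Fb.pv q) (x n) (y n))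
    have a2 := mul_nonneg (ht0 n).le (pm_nonneg_FinFlare (Fb.ph q) (x n) (y n))
    have a3 := mul_le_mul_of_nonneg_left (hx (x n) (y n)) (ht0 n).le
    rw [← Fb.D_one_FinFlare A, mul_add, mul_add, mul_left_comm, htD] at a3
    have a4 : t n ≤ 1 := (ht1 n).trans (inv_le_one_of_one_le₀ (by simp))
    have a5 : t n * K ≤ K := by nlinarith
    exact ⟨⟨a1, by linarith⟩, a2, by linarith⟩
  have hl1 : ∀ q, ∃ a, Filter.Tendsto (fun n => t n * Fb.dv q (x n) (y n)) U (nhds a) := fun q =>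
    let ⟨C, hC⟩ := hbd q
    ultra_lim_FinFlare U _ C fun n => (hC n).1
  have hl2 : ∀ q, ∃ a, Filter.Tendsto (fun n => t n * Fb.dh q (x n) (y n)) U (nhds a) := fun q =>
    let ⟨C, hC⟩ := hbd q
    ultra_lim_FinFlare U _ C fun n => (hC n).2
  choose F1 hF1 using hl1
  choose F2 hF2 using hl2
  refine hb β (F1, F2) Θ (fun i j => ?_) ?_ (fun T ε hε => ?_) ?_ fun j => ?_
  · obtain ⟨n, a1, a2, a3, a4⟩ := ((hβ i).and ((hβ j).and ((hge i).and (hge j)))).exists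
    rw [← a1, ← a2]
    exact h1 n i j a3 a4
  · obtain ⟨n, a1⟩ := (hβ 0).exists
    rw [← a1, h0]
  · have a1 : ∀ᶠ n : ℕ in U, t n ≤ ε := by
      have := (tendsto_one_div_add_atTop_nhds_zero_nat (𝕜 := ℝ)).eventually (ge_mem_nhds hε)
      exact (this.mono fun n hn => (ht1 n).trans (by simpa using hn)).filter_mono hUt
    have a2 : ∀ᶠ n : ℕ in U, ∀ q ∈ T, |t n * Fb.dv q (x n) (y n) - F1 q| ≤ ε ∧
        |t n * Fb.dh q (x n) (y n) - F2 q| ≤ ε := by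
      rw [Filter.eventually_all_finset]
      intro q _
      have b1 := Metric.tendsto_nhds.1 (hF1 q) ε hε
      have b2 := Metric.tendsto_nhds.1 (hF2 q) ε hε
      filter_upwards [b1, b2] with n c1 c2
      exact ⟨c1.le, c2.le⟩
    obtain ⟨n, b1, b2⟩ := (a1.and a2).exists
    exact ⟨x n, y n, t n, ht0 n, b1, b2⟩
  · refine tendsto_nhds_unique ((hF1 q0).add (hF2 q0)) (tendsto_const_nhds.congr fun n => ?_)
    rw [← mul_add, ← Fb.D_one_FinFlare A, htD]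
  · refine le_of_tendsto (((hF1 (A.ι (β j) • q0)).const_mul _).add
      ((hF2 (A.ι (β j) • q0)).const_mul _)) ?_
    filter_upwards [hβ j, hge j] with n a1 a2
    have a3 := mul_le_mul_of_nonneg_left (h3 n j a2) (ht0 n).le
    rw [mul_left_comm, htD, mul_one, a1, Fb.D_eq_FinFlare] at a3
    linarith

theorem chain_FinFlare {f : ℕ → ℝ} {C : ℝ} {N : ℕ} (hC : 0 ≤ C)
    (hf : ∀ i, i < N → f (i + 1) ≤ C * f i) (k : ℕ) (hk : k ≤ N) : f k ≤ C ^ k * f 0 := by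
  induction k with
  | zero => simp
  | succ k ih =>
    refine (hf k hk).trans ?_
    rw [pow_succ', mul_assoc]
    exact mul_le_mul_of_nonneg_left (ih (by omega)) hC

end Aux

theorem Fib.lipD {Q P : Type} [MulAction G8 Q] {S : Base Q} {q0 : Q} (Fb : Fib S q0 P)
    {h : ℕ} (A : Arith h) : ∃ K : ℝ, 1 ≤ K ∧ ∀ b b', (cay (sgen h)).Adj b b' → ∀ x y,
      Fb.D A b' x y ≤ K * Fb.D A b x y + K := by
  choose K hK hx using Fb.lipg_FinFlare A
  have h0 : ∀ i, 0 ≤ K (sgen h i) + K (sgen h i)⁻¹ := fun i => by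
    linarith [hK (sgen h i), hK (sgen h i)⁻¹]
  have h1 : 0 ≤ ∑ i, (K (sgen h i) + K (sgen h i)⁻¹) := Finset.sum_nonneg fun i _ => h0 i
  refine ⟨1 + ∑ i, (K (sgen h i) + K (sgen h i)⁻¹), by linarith, ?_⟩
  have key : ∀ b g x y, K g ≤ 1 + ∑ i, (K (sgen h i) + K (sgen h i)⁻¹) →
      Fb.D A (b * g) x y ≤ (1 + ∑ i, (K (sgen h i) + K (sgen h i)⁻¹)) * Fb.D A b x y +
        (1 + ∑ i, (K (sgen h i) + K (sgen h i)⁻¹)) := by
    intro b g x y hle
    have h2 := hx g ((Fb.s (A.ι b))⁻¹ x) ((Fb.s (A.ι b))⁻¹ y)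
    rw [← Fb.D_mul_FinFlare, ← Fb.D_mul_FinFlare, mul_one] at h2
    have h3 := mul_le_mul_of_nonneg_right hle (Fb.D_nonneg_FinFlare A b x y)
    linarith
  rintro b b' ⟨-, i, hi⟩ x y
  have h4 := Finset.single_le_sum (f := fun i => K (sgen h i) + K (sgen h i)⁻¹)
    (fun i _ => h0 i) (Finset.mem_univ i)
  have h5 := hK (sgen h i)
  have h6 := hK (sgen h i)⁻¹
  rcases hi with hi | hi
  · rw [hi]
    exact key _ _ _ _ (by linarith)
  · rw [show b' = b * (sgen h i)⁻¹ by rw [hi, mul_inv_cancel_right]]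
    exact key _ _ _ _ (by linarith)

theorem Fib.flares {Q P : Type} [MulAction G8 Q] {S : Base Q} {q0 : Q} (Fb : Fib S q0 P)
    {h : ℕ} (A : Arith h) (hg : Gens (sgen h)) (hb : NoBad S q0 (LimF Fb.dv Fb.dh) A) :
    ∃ (n : ℕ) (M : ℝ), 1 ≤ n ∧ Flares (cay (sgen h)) (Fb.D A) n M := by
  obtain ⟨K, hK, hlip⟩ := Fb.lipD A
  obtain ⟨n1, hn1⟩ := Fb.limit_FinFlare A hg hb 1
  obtain ⟨m, hm⟩ := Fb.limit_FinFlare A hg hb (3 * (2 * K) ^ n1)
  refine ⟨m + 1, m + n1 + 1, by omega, fun γ hγ x y hM => ?_⟩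
  by_contra hlt
  rw [not_le, max_lt_iff] at hlt
  have hseg : ∀ (c r : ℕ), r ≤ c → c + r ≤ 2 * (m + 1) → ∀ i j : ℤ, |i| ≤ r → |j| ≤ r →
      gd (cay (sgen h)) (γ (c + i).toNat) (γ (c + j).toNat) = |(i : ℝ) - (j : ℝ)| := by
    intro c r h1 h2 i j hi hj
    rw [abs_le] at hi hj
    rw [hγ _ _ (by omega) (by omega)]
    have e : ∀ k : ℤ, 0 ≤ (c : ℤ) + k → (((c + k).toNat : ℕ) : ℝ) = c + k := fun k hk => by
      have : (((c + k).toNat : ℕ) : ℤ) = c + k := Int.toNat_of_nonneg hk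
      exact_mod_cast this
    rw [e i (by omega), e j (by omega)]
    congr 1
    ring
  obtain ⟨i, hi, hmax⟩ := (Finset.range (2 * (m + 1) + 1)).exists_max_image
    (fun i => Fb.D A (γ i) x y) ⟨0, by simp⟩
  rw [Finset.mem_range] at hi
  have hmax' : ∀ j, j ≤ 2 * (m + 1) → Fb.D A (γ j) x y ≤ Fb.D A (γ i) x y := fun j hj =>
    hmax j (Finset.mem_range.2 (by omega))
  have hm0 : (0 : ℝ) ≤ m := Nat.cast_nonneg _
  have hn0 : (0 : ℝ) ≤ n1 := Nat.cast_nonneg _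
  have hstep : ∀ a b : ℕ, a ≤ 2 * (m + 1) → b ≤ 2 * (m + 1) → (a = b + 1 ∨ b = a + 1) →
      Fb.D A (γ b) x y + 1 ≤ 2 * K * (Fb.D A (γ a) x y + 1) := by
    intro a b ha hb' hab
    have h1 := hγ a b ha hb'
    have h2 : |(a : ℝ) - (b : ℝ)| = 1 := by rcases hab with rfl | rfl <;> simp
    rw [h2, gd] at h1
    have h3 := hlip _ _ (SimpleGraph.dist_eq_one_iff_adj.1 (by exact_mod_cast h1)) x y
    have h4 := Fb.D_nonneg_FinFlare A (γ a) x y
    nlinarith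
  have hpow : ∀ k, k ≤ n1 → (2 * K) ^ k ≤ (2 * K) ^ n1 := fun k hk =>
    pow_le_pow_right₀ (by linarith) hk
  have hp0 : 0 < (2 * K) ^ n1 := by positivity
  have hend : ∀ (k : ℕ) (z : ℝ), k ≤ n1 → 0 ≤ z → z < 2 * Fb.D A (γ (m + 1)) x y →
      Fb.D A (γ i) x y + 1 ≤ (2 * K) ^ k * (z + 1) →
      Fb.D A (γ i) x y ≤ 3 * (2 * K) ^ n1 * Fb.D A (γ (m + 1)) x y := by
    intro k z hk hz hz' h1
    have h2 : (2 * K) ^ k * (z + 1) ≤ (2 * K) ^ n1 * (3 * Fb.D A (γ (m + 1)) x y) :=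
      mul_le_mul (hpow k hk) (by linarith) (by linarith) hp0.le
    linarith
  have hbd : Fb.D A (γ i) x y ≤ 3 * (2 * K) ^ n1 * Fb.D A (γ (m + 1)) x y := by
    by_cases h1 : i < n1
    · refine hend i _ h1.le (Fb.D_nonneg_FinFlare A _ x y) hlt.1 ?_
      exact chain_FinFlare (f := fun k => Fb.D A (γ k) x y + 1) (N := 2 * (m + 1)) (by linarith)
        (fun k hk => hstep k (k + 1) (by omega) (by omega) (Or.inr rfl)) i (by omega)
    by_cases h2 : 2 * (m + 1) < i + n1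
    · refine hend (2 * (m + 1) - i) _ (by omega) (Fb.D_nonneg_FinFlare A _ x y) hlt.2 ?_
      have := chain_FinFlare (f := fun k => Fb.D A (γ (2 * (m + 1) - k)) x y + 1)
        (N := 2 * (m + 1)) (C := 2 * K) (by linarith)
        (fun k hk => hstep _ _ (by omega) (by omega) (Or.inl (by omega))) (2 * (m + 1) - i)
        (by omega)
      rwa [show 2 * (m + 1) - (2 * (m + 1) - i) = i by omega, Nat.sub_zero] at this
    exfalso
    obtain ⟨j, hj, hlt'⟩ := hn1 (fun j => γ (i + j).toNat) x y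
      (hseg i n1 (by omega) (by omega)) (by
        have := hmax' (m + 1) (by omega)
        simp only [add_zero, Int.toNat_natCast]
        linarith)
    rw [abs_le] at hj
    have := hmax' (i + j).toNat (by omega)
    simp only [add_zero, Int.toNat_natCast] at hlt'
    linarith
  obtain ⟨j, hj, hlt'⟩ := hm (fun j => γ (((m + 1 : ℕ) : ℤ) + j).toNat) x y
    (hseg (m + 1) m (by omega) (by omega)) (by
      simp only [add_zero, Int.toNat_natCast]
      linarith)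
  rw [abs_le] at hj
  have := hmax' (((m + 1 : ℕ) : ℤ) + j).toNat (by omega)
  simp only [add_zero, Int.toNat_natCast] at hlt'
  linarith

end Pool.Agent.E5f

end

section

/-! Transfer of betweenness between quasi-isometric metrics; centres. -/

set_option autoImplicit false

namespace Pool.Agent.E5f

section
variable {X : Type} {d : X → X → ℝ} {δ κ : ℝ}

theorem nonneg_HypTrans (h : PM d) (x y : X) : 0 ≤ d x y := by
  have h1 := h.tri x y x
  have h2 := h.symm x y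
  have h3 := h.self x
  linarith

theorem delta_HypTrans (h : PM d) (H : Hyp d δ) (x : X) : 0 ≤ δ := by
  have := H x x x x
  simp only [gp, h.self, min_self] at this
  linarith

theorem kappa_HypTrans (h : PM d) (R : RG d κ) (x : X) : 0 ≤ κ := by
  obtain ⟨z, hz, _⟩ := R x x 0 le_rfl (h.self x).ge
  exact (abs_nonneg _).trans hz

theorem move_HypTrans (h : PM d) (s m x y : X) : gp d s x y ≤ gp d m x y + d s m := by
  have h1 := h.tri x m s
  have h2 := h.tri y m s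
  have h3 := h.symm s m
  simp only [gp]
  linarith

theorem pair_HypTrans (h : PM d) (H : Hyp d δ) {x y z z' : X} {t t' : ℝ}
    (a1 : |d x z - t| ≤ κ) (a2 : |d z y - (d x y - t)| ≤ κ)
    (b1 : |d x z' - t'| ≤ κ) (b2 : |d z' y - (d x y - t')| ≤ κ) :
    d z z' ≤ |t - t'| + (4 * κ + 2 * δ) ∧ |t - t'| ≤ d z z' + 2 * κ := by
  rw [abs_le] at a1 a2 b1 b2
  have h1 := H x z y z'
  have h2 := h.symm x z
  have h3 := h.symm x z'
  have h4 := h.symm x y
  have h5 := h.symm y z'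
  have h6 := h.tri x z z'
  have h7 := h.tri x z' z
  have h8 := h.symm z z'
  have h9 := le_abs_self (t - t')
  have h10 := neg_abs_le (t - t')
  simp only [gp, sub_le_iff_le_add, min_le_iff] at h1
  refine ⟨?_, abs_le.2 ⟨by linarith [a1.1, b1.2], by linarith [a1.2, b1.1]⟩⟩
  rcases h1 with h1 | h1 <;> linarith [a1.1, a1.2, a2.1, a2.2, b1.1, b1.2, b2.1, b2.2]

/-- A unit spaced rough geodesic. -/
theorem chain_HypTrans (h : PM d) (H : Hyp d δ) (R : RG d κ) (x y : X) :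
    ∃ (z : ℕ → X) (n : ℕ), z 0 = x ∧ z n = y ∧ ∀ i j : ℕ, i ≤ n → j ≤ n →
      d (z i) (z j) ≤ |(i : ℝ) - j| + (4 * κ + 2 * δ + 2) ∧
        |(i : ℝ) - j| ≤ d (z i) (z j) + (4 * κ + 2 * δ + 2) := by
  have hκ := kappa_HypTrans h R x
  have hδ := delta_HypTrans h H x
  have hL := nonneg_HypTrans h x y
  have hc := Nat.le_ceil (d x y)
  have hc' := Nat.ceil_lt_add_one hL
  have ex : ∀ i : ℕ, ∃ z, (i = 0 → z = x) ∧ (i = ⌈d x y⌉₊ + 1 → z = y) ∧
      |d x z - min (i : ℝ) (d x y)| ≤ κ ∧ |d z y - (d x y - min (i : ℝ) (d x y))| ≤ κ := by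
    intro i
    by_cases h0 : i = 0
    · subst h0
      refine ⟨x, fun _ => rfl, fun e => by omega, ?_, ?_⟩ <;> simp [h.self, hL, hκ]
    by_cases h1 : i = ⌈d x y⌉₊ + 1
    · have e : min (i : ℝ) (d x y) = d x y := min_eq_right (by rw [h1]; push_cast; linarith)
      refine ⟨y, fun e => absurd e h0, fun _ => rfl, ?_, ?_⟩ <;> simp [e, h.self, hκ]
    · obtain ⟨z, hz⟩ := R x y (min (i : ℝ) (d x y)) (le_min (Nat.cast_nonneg i) hL)
        (min_le_right _ _)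
      exact ⟨z, fun e => absurd e h0, fun e => absurd e h1, hz⟩
  choose z z0 zn z1 z2 using ex
  refine ⟨z, ⌈d x y⌉₊ + 1, z0 0 rfl, zn _ rfl, fun i j hi hj => ?_⟩
  obtain ⟨p1, p2⟩ := pair_HypTrans h H (z1 i) (z2 i) (z1 j) (z2 j)
  have hi' : (i : ℝ) ≤ ⌈d x y⌉₊ + 1 := by exact_mod_cast hi
  have hj' : (j : ℝ) ≤ ⌈d x y⌉₊ + 1 := by exact_mod_cast hj
  have q1 : |min (i : ℝ) (d x y) - min (j : ℝ) (d x y)| ≤ |(i : ℝ) - j| := by
    simpa using abs_min_sub_min_le_max (i : ℝ) (d x y) (j : ℝ) (d x y)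
  have q2 : |(i : ℝ) - j| ≤ |min (i : ℝ) (d x y) - min (j : ℝ) (d x y)| + 2 := by
    have a1 := le_abs_self (min (i : ℝ) (d x y) - min (j : ℝ) (d x y))
    have a2 := neg_abs_le (min (i : ℝ) (d x y) - min (j : ℝ) (d x y))
    have a3 := min_le_left (i : ℝ) (d x y)
    have a4 := min_le_left (j : ℝ) (d x y)
    have a5 : (i : ℝ) - 2 ≤ min (i : ℝ) (d x y) := le_min (by linarith) (by linarith)
    have a6 : (j : ℝ) - 2 ≤ min (j : ℝ) (d x y) := le_min (by linarith) (by linarith)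
    exact abs_le.2 ⟨by linarith, by linarith⟩
  exact ⟨by linarith, by linarith⟩

end

theorem trans_btw (δ κ K c : ℝ) : ∃ c' : ℝ, ∀ {X : Type} (d d' : X → X → ℝ), PM d → Hyp d δ →
    RG d κ → PM d' → Hyp d' δ → RG d' κ → (∀ x y, d' x y ≤ K * d x y + K) →
    (∀ x y, d x y ≤ K * d' x y + K) → ∀ s x y, gp d s x y ≤ c → gp d' s x y ≤ c' := by
  obtain ⟨Cb, hb⟩ := morse_b δ κ (4 * κ + 2 * δ + 2 + 1) c
  obtain ⟨Ca, ha⟩ := morse_a δ κ (K * (4 * κ + 2 * δ + 2) + K + (4 * κ + 2 * δ + 2))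
  refine ⟨Ca + (K * Cb + K), fun d d' h H R h' H' R' l1 l2 s x y hs => ?_⟩
  have hκ := kappa_HypTrans h R x
  have hδ := delta_HypTrans h H x
  have hK : 0 ≤ K := by simpa [h.self, h'.self] using l1 x x
  obtain ⟨z, n, rfl, rfl, hz⟩ := chain_HypTrans h H R x y
  generalize hA : 4 * κ + 2 * δ + 2 = A at *
  have hA0 : 0 ≤ A := by linarith
  have hKA := mul_nonneg hK hA0
  obtain ⟨j, hj, hd⟩ := hb d h H R z n (fun i j hi hj => by
    obtain ⟨p1, p2⟩ := hz i j hi hj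
    have a1 := mul_nonneg hA0 (abs_nonneg ((i : ℝ) - j))
    have a2 := mul_nonneg hA0 (nonneg_HypTrans h (z i) (z j))
    exact ⟨by linarith, by linarith⟩) s hs
  have hg := ha d' h' H' R' z n (fun i j hi hj => by
    obtain ⟨p1, p2⟩ := hz i j hi hj
    have a1 := mul_nonneg (add_nonneg hKA hA0) (abs_nonneg ((i : ℝ) - j))
    have a2 := mul_nonneg (add_nonneg hKA hA0) (nonneg_HypTrans h' (z i) (z j))
    have a3 := l1 (z i) (z j)
    have a4 := l2 (z i) (z j)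
    have a5 := mul_le_mul_of_nonneg_left p1 hK
    exact ⟨by linarith, by linarith⟩) 0 j n (Nat.zero_le _) hj le_rfl
  have a1 := move_HypTrans h' s (z j) (z 0) (z n)
  have a2 := l1 s (z j)
  have a3 := mul_le_mul_of_nonneg_left hd hK
  linarith

theorem trans_gp (δ κ K : ℝ) (hK : 0 ≤ K) : ∃ C : ℝ, ∀ {X : Type} (d d' : X → X → ℝ), PM d →
    Hyp d δ → RG d κ → PM d' → Hyp d' δ → RG d' κ → (∀ x y, d' x y ≤ K * d x y + K) →
    (∀ x y, d x y ≤ K * d' x y + K) → ∀ s x y, gp d' s x y ≤ K * gp d s x y + C := by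
  obtain ⟨C, hC⟩ := near_pt δ κ
  obtain ⟨c', hc⟩ := trans_btw δ κ K κ
  refine ⟨c' + (K * C + K), fun d d' h H R h' H' R' l1 l2 s x y => ?_⟩
  obtain ⟨m, m1, m2⟩ := hC d h H R x y s
  have a0 := hc d d' h H R h' H' R' l1 l2 m x y m1
  have a1 := move_HypTrans h' s m x y
  have a2 := l1 s m
  have a3 := mul_le_mul_of_nonneg_left m2 hK
  linarith

theorem centre_ex (δ κ : ℝ) : ∃ c : ℝ, ∀ {X : Type} (d : X → X → ℝ), PM d → Hyp d δ → RG d κ →
    ∀ x y z, ∃ m, gp d m x y ≤ c ∧ gp d m y z ≤ c ∧ gp d m x z ≤ c := by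
  refine ⟨2 * κ + δ, fun d h H R x y z => ?_⟩
  have hκ := kappa_HypTrans h R x
  have hδ := delta_HypTrans h H x
  have s1 := h.symm x y
  have s2 := h.symm x z
  have s3 := h.symm y z
  have t1 := h.tri y x z
  have t2 := h.tri z y x
  obtain ⟨m, m1, m2⟩ := R x y (gp d x y z) (by simp only [gp]; linarith)
    (by simp only [gp]; linarith)
  have h1 := H x m y z
  have h2 := H y m x z
  have s4 := h.symm x m
  have s5 := h.symm y m
  have s6 := h.symm z m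
  rw [abs_le] at m1 m2
  obtain ⟨m1, m1'⟩ := m1
  obtain ⟨m2, m2'⟩ := m2
  simp only [gp, sub_le_iff_le_add, min_le_iff] at h1 h2
  simp only [gp] at m1 m1' m2 m2' ⊢
  refine ⟨m, by linarith, ?_, ?_⟩
  · rcases h2 with h2 | h2 <;> linarith
  · rcases h1 with h1 | h1 <;> linarith

theorem centre_uniq (δ c : ℝ) : ∃ C : ℝ, ∀ {X : Type} (d : X → X → ℝ), PM d → Hyp d δ →
    ∀ x y z m m', gp d m x y ≤ c → gp d m y z ≤ c → gp d m x z ≤ c →
      gp d m' x y ≤ c → gp d m' y z ≤ c → gp d m' x z ≤ c → d m m' ≤ C := by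
  refine ⟨2 * c + 2 * δ, fun d h H x y z m m' a1 a2 a3 b1 b2 b3 => ?_⟩
  have key : ∀ p q u v, gp d p u v ≤ c → gp d p u q ≤ c + δ ∨ gp d p v q ≤ c + δ := by
    intro p q u v e
    have h1 := H p u q v
    have s1 := h.symm q v
    rw [sub_le_iff_le_add, min_le_iff] at h1
    simp only [gp] at h1 e ⊢
    rcases h1 with h1 | h1
    · exact Or.inl (by linarith)
    · exact Or.inr (by linarith)
  have fin : ∀ w, gp d m w m' ≤ c + δ → gp d m' w m ≤ c + δ → d m m' ≤ 2 * c + 2 * δ := by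
    intro w e1 e2
    have s1 := h.symm m m'
    simp only [gp] at e1 e2
    linarith
  have c1 := key m m' x y a1
  have c2 := key m m' y z a2
  have c3 := key m m' x z a3
  have e1 := key m' m x y b1
  have e2 := key m' m y z b2
  have e3 := key m' m x z b3
  have f1 := fin x
  have f2 := fin y
  have f3 := fin z
  tauto

end Pool.Agent.E5f

end
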