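import Pool.Agent.Mg.S03381.Gf847ec
import Pool.Agent.Mg.S03381.G7cdb90
import Pool.Agent.Mg.S03381.G224cd9

section

/-! The last case: almost affine pieces give strips attached to a cusp. -/

set_option autoImplicit false

namespace Pool.Agent.E5f

/-- Three-point convexity on `[0, l]`. -/
def Cv_EndCusp (g : ℝ → ℝ) (l : ℝ) : Prop :=
  ∀ a b c, 0 ≤ a → a ≤ b → b ≤ c → c ≤ l → (c - a) * g b ≤ (c - b) * g a + (b - a) * g c

theorem sec_mono_EndCusp {g : ℝ → ℝ} {l a b c d : ℝ} (h : Cv_EndCusp g l) (h0 : 0 ≤ a)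
    (h1 : a < b) (h2 : b ≤ c) (h3 : c < d) (h4 : d ≤ l) :
    (g b - g a) / (b - a) ≤ (g d - g c) / (d - c) := by
  have k1 := h a b d h0 h1.le (h2.trans h3.le) h4
  have k2 := h a c d h0 (h1.le.trans h2) h3.le h4
  have p : 0 < d - a := by linarith
  have l1 : (g b - g a) / (b - a) ≤ (g d - g a) / (d - a) := by
    rw [div_le_div_iff₀ (by linarith) p]
    nlinarith
  have l2 : (g d - g a) / (d - a) ≤ (g d - g c) / (d - c) := by
    rw [div_le_div_iff₀ p (by linarith)]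
    nlinarith
  exact l1.trans l2

theorem scale_EndCusp {g : ℝ → ℝ} {l s0 s1 η L : ℝ} (h : Cv_EndCusp g l) (hη : 0 < η)
    (hL : 0 ≤ L) (U : ℕ → ℝ) (hU : ∀ n, 0 < U n)
    (hU1 : ∀ n, (3 + L) * U n ≤ U (n + 1)) (n1 : ℕ) (hn : s1 < (1 + η) ^ n1 * s0)
    (hl : ∀ n, n ≤ n1 → 2 * U n ≤ l) (hlo : s0 ≤ (g (2 * U 0) - g (U 0)) / U 0)
    (hhi : (g (2 * U n1) - g (U n1)) / U n1 ≤ s1) :
    ∃ n, n < n1 ∧ g ((3 + L) * U n) - g ((2 + L) * U n) ≤
      (1 + η) * ((g (2 * U n) - g (U n)) / U n) * U n := by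
  by_contra hc
  push Not at hc
  have key : ∀ n, n ≤ n1 → (1 + η) ^ n * s0 ≤ (g (2 * U n) - g (U n)) / U n := by
    intro n
    induction n with
    | zero => intro _; simpa using hlo
    | succ n ih =>
      intro hn'
      have a := ih (by omega)
      have b := hc n (by omega)
      have u := hU n
      have u' := hU (n + 1)
      have c := sec_mono_EndCusp h (a := (2 + L) * U n) (b := (3 + L) * U n) (c := U (n + 1))
        (d := 2 * U (n + 1)) (by positivity) (by nlinarith) (hU1 n) (by linarith) (hl _ hn')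
      rw [show (3 + L) * U n - (2 + L) * U n = U n by ring,
        show 2 * U (n + 1) - U (n + 1) = U (n + 1) by ring] at c
      have d : (1 + η) * ((g (2 * U n) - g (U n)) / U n) ≤
          (g ((3 + L) * U n) - g ((2 + L) * U n)) / U n := by
        rw [le_div_iff₀ u]
        exact b.le
      calc (1 + η) ^ (n + 1) * s0 = (1 + η) * ((1 + η) ^ n * s0) := by ring
        _ ≤ (1 + η) * ((g (2 * U n) - g (U n)) / U n) :=
          mul_le_mul_of_nonneg_left a (by linarith)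
        _ ≤ _ := d.trans c
  linarith [key n1 le_rfl]

variable {Q : Type} [MulAction G8 Q] {S : Base Q}

theorem cusp_of_slope {Z : Seq S} {F : Q → ℝ} (hF : Fn Z F) {B : ℝ} (h : Z.Down B)
    (hs : Z.Slope F) : Z.Cusp := by
  obtain ⟨K1, s0, x, r, hs0, hxr, hsl, hk⟩ := hs
  have pv := S.bi.pv
  have hv := S.bi.hv
  obtain ⟨C, hC0, hC⟩ := Z.mor_conv 2
  have hB : 1 ≤ B := by
    have := h.bdd 0 le_rfl
    rwa [Z.a_zero, pv.self, add_zero, mul_one] at this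
  set M := S.dv (Z.q 0) r with hM
  have M0 : 0 ≤ M := pv.nonneg_E _ _
  obtain ⟨R, hR⟩ := hF.b5u (3 + (B + C) ^ 2)
  refine ⟨R, fun N hN => ?_⟩
  obtain ⟨L, η, hL, hη, hb⟩ := hR N
  have L0 : 0 ≤ L := by linarith
  obtain ⟨w, w0, hw⟩ := S.lam_big (3 + L)
  obtain ⟨e0, -, he⟩ := S.lam_big (M + F r / s0 + 1)
  obtain ⟨n1, hn1⟩ := pow_unbounded_of_one_lt (4 * K1 / s0) (show 1 < 1 + η by linarith)
  rw [div_lt_iff₀ hs0] at hn1
  let U : ℕ → ℝ := fun n => S.lam ^ (e0 + n * w)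
  have Upos : ∀ n, 0 < U n := fun n => S.lam_pos _
  have Usucc : ∀ n, (3 + L) * U n ≤ U (n + 1) := by
    intro n
    have : U (n + 1) = S.lam ^ w * U n := by
      simp only [U]
      rw [← S.lam_add]
      congr 1
      push_cast
      ring
    rw [this]
    exact mul_le_mul_of_nonneg_right hw (Upos n).le
  have Umono : ∀ n m, n ≤ m → U n ≤ U m := fun n m hnm =>
    S.lam_mono (by nlinarith [Int.ofNat_le.2 hnm])
  have f0 : 0 ≤ F r / s0 := div_nonneg (hF.nonneg r) hs0.le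
  have Ulo : ∀ n, M + F r / s0 + 1 ≤ U n := fun n =>
    (he.trans (by simp [U])).trans (Umono 0 n (Nat.zero_le n))
  have pE : 0 < 2 * M + 8 * U n1 := by linarith [Upos n1]
  obtain ⟨k0, hk0⟩ := h.small _ (inv_pos.2 pE)
  obtain ⟨k, q', hkk, cp, hK, on1, on2⟩ := hk (max k0 0)
  have k0' : 0 ≤ k := (le_max_right _ _).trans hkk
  have ak := Z.a_pos k
  have big : 2 * M + 8 * U n1 ≤ (Z.a k)⁻¹ :=
    (le_inv_comm₀ pE ak).2 (hk0 k ((le_max_left _ _).trans hkk))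
  set l' := S.dv (Z.q 0) q' with hl'
  have hl1 : (Z.a k)⁻¹ ≤ l' := by
    have := cp.on
    rw [On, cp.v1] at this
    linarith [pv.nonneg_E (Z.q 0) (Z.q k)]
  have K0 : 0 ≤ K1 := (mul_nonneg ak.le (hF.nonneg _)).trans hK
  have Fq : F q' ≤ K1 * l' := by
    have : F q' ≤ K1 * (Z.a k)⁻¹ := by rw [← div_eq_mul_inv, le_div_iff₀ ak, mul_comm]; exact hK
    exact this.trans (mul_le_mul_of_nonneg_left hl1 K0)
  have ex : ∀ t : ℝ, ∃ y, 0 ≤ t → t ≤ l' - M →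
      Btw S.dv S.dh (Z.q 0) y q' ∧ S.dv (Z.q 0) y = M + t := by
    intro t
    by_cases ht : 0 ≤ t ∧ t ≤ l' - M
    · obtain ⟨y, hy⟩ := S.bi.geoV (Z.q 0) q' (s := M + t) (by linarith) (by linarith)
      exact ⟨y, fun _ _ => hy⟩
    · exact ⟨q', fun a b => absurd ⟨a, b⟩ ht⟩
  choose y hy using ex
  have yd : ∀ a b, 0 ≤ a → a ≤ b → b ≤ l' - M → S.dv (y a) (y b) = b - a := by
    intro a b h1 h2 h3
    have ya := hy a h1 (h2.trans h3)
    have yb := hy b (h1.trans h2) h3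
    rw [On.dist_eq pv hv ya.1.1 yb.1.1, ya.2, yb.2, abs_of_nonpos (by linarith)]
    ring
  have cv : Cv_EndCusp (fun t => F (y t)) (l' - M) := by
    intro a b c h1 h2 h3 h4
    have e1 := yd a b h1 h2 (h3.trans h4)
    have e2 := yd b c (h1.trans h2) h3 h4
    have e3 := yd a c h1 (h2.trans h3) h4
    have := hF.cvx (y a) (y b) (y c) (by rw [On, e1, e2, e3]; ring)
    rwa [e1, e2, e3] at this
  have l0 : 8 * U n1 + M ≤ l' - M := by linarith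
  have U0 := Upos 0
  have U01 := Umono 0 n1 (Nat.zero_le _)
  have g0 : F (y 0) = F r := by
    have y0 := hy 0 le_rfl (by linarith [Upos n1])
    refine hF.zero _ _ ?_
    rw [On.dist_eq pv hv y0.1.1 on1, y0.2, add_zero, sub_self, abs_zero]
  have gl : F (y (l' - M)) = F q' := by
    have y0 := hy (l' - M) (by linarith [Upos n1]) le_rfl
    refine hF.zero _ _ ?_
    have := y0.1.1
    rw [y0.2] at this
    linarith
  have first : s0 ≤ (F (y (U 0)) - F (y 0)) / (U 0 - 0) := by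
    have y1 := hy (U 0) U0.le (by linarith)
    have o1 := On.order pv hv on1 y1.1.1 (by rw [y1.2]; linarith)
    have o2 := (On.trans_right pv on2 o1.2).2
    have e : S.dv r (y (U 0)) = U 0 := by
      have := o1.1
      rw [On, y1.2] at this
      linarith
    have c := hF.cvx _ _ _ o2
    rw [← o2, e] at c
    rw [g0, sub_zero, le_div_iff₀ U0]
    refine le_of_mul_le_mul_left ?_ hxr
    linarith [mul_le_mul_of_nonneg_left hsl U0.le]
  have lo : ∀ n, n ≤ n1 → s0 ≤ (F (y (2 * U n)) - F (y (U n))) / U n ∧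
      F (y (U n)) - F r ≤ F (y (2 * U n)) - F (y (U n)) := by
    intro n hn
    have u := Upos n
    have u1 := Umono n n1 hn
    have a := sec_mono_EndCusp cv le_rfl U0 (Umono 0 n (Nat.zero_le _)) (d := 2 * U n)
      (by linarith) (by linarith)
    have b := sec_mono_EndCusp cv le_rfl u le_rfl (d := 2 * U n) (by linarith) (by linarith)
    simp only [show 2 * U n - U n = U n by ring] at a b
    rw [sub_zero, div_le_div_iff_of_pos_right u, g0] at b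
    exact ⟨first.trans a, b⟩
  have hi : (F (y (2 * U n1)) - F (y (U n1))) / U n1 ≤ 4 * K1 := by
    have u := Upos n1
    have a := sec_mono_EndCusp cv u.le (b := 2 * U n1) (c := 2 * U n1) (d := l' - M) (by linarith)
      le_rfl (by linarith) le_rfl
    simp only [show 2 * U n1 - U n1 = U n1 by ring] at a
    refine a.trans ?_
    rw [gl, div_le_iff₀ (by linarith)]
    linarith [hF.nonneg (y (2 * U n1)), mul_nonneg K0 (show 0 ≤ 4 * (l' - M - 2 * U n1) - l' by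
      linarith)]
  obtain ⟨n, hn, hgood⟩ := scale_EndCusp cv hη L0 U Upos Usucc n1 hn1
    (fun n hn => by linarith [Umono n n1 hn, Upos n]) (lo 0 (Nat.zero_le _)).1 hi
  have u := Upos n
  have u3 : (3 + L) * U n ≤ U n1 := (Usucc n).trans (Umono _ _ hn)
  have uL : 0 ≤ L * U n := mul_nonneg L0 u.le
  have u4 : 3 * U n + L * U n ≤ l' - M := by linarith [Upos n1]
  obtain ⟨sl, sl2⟩ := lo n hn.le
  set s := (F (y (2 * U n)) - F (y (U n))) / U n with hsdef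
  have es : s * U n = F (y (2 * U n)) - F (y (U n)) := div_mul_cancel₀ _ u.ne'
  have y0 := hy (U n) u.le (by linarith)
  have y1 := hy (2 * U n) (by linarith) (by linarith)
  have y2 := hy ((2 + L) * U n) (by linarith) (by linarith)
  have y3 := hy ((3 + L) * U n) (by linarith) (by linarith)
  obtain ⟨p2, b2, d2⟩ := S.bi.geoV (y (2 * U n)) q' (s := L * U n) uL (by
    have := y1.1.1
    rw [y1.2] at this
    linarith)
  have b3 := Btw.trans_right S.bi y1.1 b2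
  have pos2 : S.dv (Z.q 0) p2 = M + (2 + L) * U n := by
    have := b3.2.1
    rw [y1.2, d2] at this
    linarith
  have z2 : S.dv p2 (y ((2 + L) * U n)) = 0 := by
    rw [On.dist_eq pv hv b3.1.1 y2.1.1, pos2, y2.2, sub_self, abs_zero]
  have hdh : U n * S.dh (y (2 * U n)) p2 ≤ 3 + (B + C) ^ 2 := by
    obtain ⟨j, j0, jk, hj⟩ := hC 0 k (Z.X 0) (q', Z.τ k) (y (2 * U n)) k0'
      (by rw [S.dE_pm.self]; norm_num) cp.dE_le y1.1
    obtain ⟨a1, a2⟩ := Z.of_D hj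
    have aj := Z.a_pos j
    have a3 := h.bdd j j0
    have a4 := h.fh j k j0 jk
    have t1 := pv.tri (Z.q 0) (Z.q j) (y (2 * U n))
    rw [y1.2] at t1
    have a5 : Z.a j * U n ≤ B + C := by
      linarith [mul_le_mul_of_nonneg_left t1 aj.le, mul_nonneg aj.le M0, mul_pos aj u]
    have t2 := S.bi.ph.tri (y (2 * U n)) (Z.q j) (Z.q k)
    rw [S.bi.ph.congr'_E cp.h0 (y (2 * U n)), S.bi.ph.symm _ (Z.q j)] at t2
    have t3 : S.dh (y (2 * U n)) p2 ≤ (B + C) * Z.a j := by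
      linarith [b2.2, S.bi.ph.nonneg_E p2 q']
    linarith [mul_le_mul_of_nonneg_left t3 u.le,
      mul_le_mul_of_nonneg_left a5 (show 0 ≤ B + C by linarith)]
  have sp : 0 < s := hs0.trans_le sl
  obtain ⟨γ, hγ, P, hP⟩ := hb (e0 + n * w) (U n) (y (U n)) (y (2 * U n)) p2 (y ((3 + L) * U n)) s
    rfl (by rw [yd _ _ u.le (by linarith) (by linarith)]; ring) d2
    (by rw [pv.congr_E z2, yd _ _ (by linarith) (by linarith) (by linarith)]; ring)
    (by rw [pv.congr'_E z2, yd _ _ u.le (by linarith) (by linarith)]; ring)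
    (by rw [yd _ _ (by linarith) (by linarith) (by linarith)]; ring)
    (by rw [yd _ _ u.le (by linarith) (by linarith)]; ring) hdh sp es.le
    (by rw [hF.zero _ _ z2]; exact hgood) (by
      have a : F r ≤ s0 * U n := by
        rw [mul_comm, ← div_le_iff₀ hs0]
        linarith [Ulo n]
      have b : s0 * U n ≤ s * U n := mul_le_mul_of_nonneg_right sl u.le
      linarith [mul_nonneg (sq_nonneg (B + C)) (mul_pos sp u).le])
  refine ⟨k, q', U n, M + 2 * U n, γ, P, k0', cp, by linarith [Ulo n], by linarith,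
    by linarith [Ulo n], fun t t1 t2 => ?_⟩
  obtain ⟨c1, c2, c3⟩ := hP t t1 t2
  have o1 : On S.dv (y (2 * U n)) (P t) p2 := by
    rw [On, c2, c3, d2]
    ring
  have o2 := On.trans_right pv y1.1.1 (On.trans_left pv o1 b2.1).1
  refine ⟨c1, ?_, o2.1, ?_⟩
  · have := o2.2
    rw [On, y1.2, c2] at this
    exact this.symm
  · have := pv.tri (γ • S.P0) (y (2 * U n)) (P t)
    rw [c2] at this
    linarith

end Pool.Agent.E5f

end

section

/-! The last case: the sequence does not follow a cusp. -/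

set_option autoImplicit false

namespace Pool.Agent.E5f

variable {Q : Type} [MulAction G8 Q] {S : Base Q}

theorem ivt_EndFin {τ : ℤ → ℤ} {m0 : ℤ} (h0 : τ 0 = 0) (hm : 1 ≤ m0)
    (hs : ∀ i j, |τ i - τ j| ≤ m0 * |i - j|) (t : ℤ) (ht : 0 ≤ t) (k : ℤ) (hk : 0 ≤ k)
    (htk : t ≤ -τ k) : ∃ j, 0 ≤ j ∧ j ≤ k ∧ t ≤ -τ j ∧ -τ j ≤ t + m0 := by
  induction k, hk using Int.leInduction with
  | base => exact ⟨0, le_rfl, le_rfl, htk, by omega⟩
  | succ k hk ih =>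
    by_cases h : t ≤ -τ k
    · obtain ⟨j, a, b, c, d⟩ := ih h
      exact ⟨j, a, by omega, c, d⟩
    · have h1 := hs k (k + 1)
      rw [show k - (k + 1) = -1 by ring, abs_neg, abs_one, mul_one] at h1
      have h2 := le_abs_self (τ k - τ (k + 1))
      exact ⟨k + 1, by omega, le_rfl, htk, by omega⟩

theorem key_EndFin {Z : Seq S} {B : ℝ} (h : Z.Down B) : ∃ c0 c1 : ℝ, 0 ≤ c0 ∧
    ∀ (R N : ℝ) (k : ℤ) (q' : Q) (U β : ℝ) (γ : G8) (P : ℝ → Q), Z.Comp k q' → 1 ≤ U → 0 ≤ β →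
      β ≤ 3 * U → (∀ s, 1 ≤ s → s ≤ N → S.dh (P s) (γ • S.P0) = 0 ∧
        S.dv (Z.q 0) (P s) = β + s * U ∧ On S.dv (Z.q 0) (P s) q' ∧
        S.dv (γ • S.P0) (P s) ≤ (R + s) * U) →
      ∀ (j : ℤ) (ρ : ℝ), 0 ≤ j → j ≤ k → ρ * U = (Z.a j)⁻¹ → 1 ≤ ρ → R ≤ ρ → c0 * ρ ≤ N →
        S.dE (γ • S.P0, Z.τ j) (Z.q j, Z.τ j) ≤ c1 := by
  obtain ⟨C, hC, hnear⟩ := Z.mor_near 2
  obtain ⟨L1, hL, hg5⟩ := S.g5
  have pv := S.bi.pv
  have ph := S.bi.ph
  have hB : 1 ≤ B := by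
    have := h.bdd 0 le_rfl
    rwa [Z.a_zero, pv.self, add_zero, one_mul] at this
  obtain ⟨c, hc⟩ : ∃ c, c = B + C + L1 + 4 := ⟨_, rfl⟩
  refine ⟨c + L1, 2 * C + 2 * c + B + 3, by linarith,
    fun R N k q' U β γ P hq hU hβ hβ' hP j ρ hj hjk hρ h1 hR hN => ?_⟩
  have ha := Z.a_pos j
  have hU0 : 0 < U := by linarith
  obtain ⟨W, hW⟩ : ∃ W, W = (Z.a j)⁻¹ := ⟨_, rfl⟩
  have hW0 : 0 < W := hW ▸ inv_pos.2 ha
  have haW : Z.a j * W = 1 := by rw [hW]; exact mul_inv_cancel₀ ha.ne'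
  rw [← hW] at hρ
  have hdiv : ∀ {x A : ℝ}, Z.a j * x ≤ A → x ≤ A * W := fun {x A} hx => by
    have := mul_le_mul_of_nonneg_right hx hW0.le
    rwa [mul_right_comm, haW, one_mul] at this
  obtain ⟨vj, hvj, hD⟩ := hnear 0 j k (Z.X 0) (q', Z.τ k) hj hjk
    (by rw [S.dE_pm.self]; norm_num) hq.dE_le
  change Btw S.dv S.dh (Z.q 0) vj q' at hvj
  obtain ⟨e1, e2⟩ := Z.of_D hD
  have e3 : S.dv (Z.q 0) (Z.q j) ≤ B * W := hdiv (by
    have := h.bdd j hj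
    linarith)
  have e4 : S.dv (Z.q 0) vj ≤ (B + C) * W := by
    have := pv.tri (Z.q 0) (Z.q j) vj
    have := hdiv e1
    linarith
  obtain ⟨b, hb0, hb3, hb⟩ : ∃ b, 0 ≤ b ∧ b ≤ 3 ∧ b * U = β :=
    ⟨β / U, by positivity, by rwa [div_le_iff₀ hU0], div_mul_cancel₀ _ hU0.ne'⟩
  have hLρ : 0 ≤ L1 * ρ := by positivity
  have s1 : 1 ≤ c * ρ - b - L1 * ρ := by
    rw [hc]
    nlinarith
  have s2 : c * ρ - b + L1 * ρ ≤ N := by linarith
  obtain ⟨m1, m2, m3, -⟩ := hP (c * ρ - b - L1 * ρ) s1 (by linarith)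
  obtain ⟨n1, n2, n3, n4⟩ := hP (c * ρ - b) (by linarith) (by linarith)
  obtain ⟨p1, p2, p3, -⟩ := hP (c * ρ - b + L1 * ρ) (by linarith) s2
  have m2' : S.dv (Z.q 0) (P (c * ρ - b - L1 * ρ)) = c * W - L1 * W := by
    rw [m2, ← hρ, ← hb]; ring
  have n2' : S.dv (Z.q 0) (P (c * ρ - b)) = c * W := by
    rw [n2, ← hρ, ← hb]; ring
  have e5 : c * W ≤ S.dv (Z.q 0) q' := by
    have := pv.nonneg_E (P (c * ρ - b)) q'
    have n3' : _ = _ := n3
    linarith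
  have e6 : (B + C) * W ≤ c * W := mul_le_mul_of_nonneg_right (by linarith) hW0.le
  obtain ⟨v, hv, hv'⟩ := S.bi.geoV vj q' (s := c * W - S.dv (Z.q 0) vj) (by linarith)
    (by linarith [hvj.1])
  obtain ⟨t1, t2⟩ := Btw.trans_right S.bi hvj hv
  have e7 : S.dv (Z.q 0) v = c * W := by linarith [t2.1]
  have z0 : ∀ {x y : Q}, S.dh x (γ • S.P0) = 0 → S.dh y (γ • S.P0) = 0 → S.dh x y = 0 :=
    fun {x y} hx hy => by rw [ph.congr_E hx, ph.symm, hy]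
  have e8 := hg5 (Z.q 0) q' v _ _ _ (L1 * W) (Z.a j) ha
    (by rw [mul_left_comm, haW, mul_one]) t1 m3 n3 p3 (by rw [m2', e7]; ring) (by rw [n2', e7])
    (by rw [p2, e7, ← hρ, ← hb]; ring) (z0 m1 n1) (z0 n1 p1)
  have e9 : S.dv v (P (c * ρ - b)) = 0 := by
    rw [On.dist_eq pv S.bi.hv t1.1 n3, e7, n2', sub_self, abs_zero]
  have hc0 : 0 ≤ c := by linarith
  have f1 : S.D (Z.τ j) (γ • S.P0) v ≤ c + 2 := by
    rw [Z.D_eq, pv.congr'_E e9, ← ph.congr_E n1, ph.symm, ← hW]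
    have g1 : (R + (c * ρ - b)) * U ≤ (1 + c) * W := by
      rw [← hρ, ← mul_assoc]
      exact mul_le_mul_of_nonneg_right (by linarith) hU0.le
    have g2 := mul_le_mul_of_nonneg_left (n4.trans g1) ha.le
    rw [mul_left_comm, haW] at g2
    have g3 := mul_le_mul_of_nonneg_left e8 hW0.le
    rw [mul_comm W (Z.a j), haW] at g3
    linarith
  have f2 : S.D (Z.τ j) v vj ≤ c + (C + B) := by
    rw [Z.D_eq, pv.symm, ph.symm, ← hW]
    have g1 : S.dv vj v ≤ c * W := by linarith [pv.nonneg_E (Z.q 0) vj]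
    have g2 := mul_le_mul_of_nonneg_left g1 ha.le
    rw [mul_left_comm, haW] at g2
    have g3 : S.dh vj v ≤ (C + B) * Z.a j := by
      have := hv.2
      have := ph.nonneg_E v q'
      have := ph.tri vj (Z.q j) q'
      have := ph.tri (Z.q j) (Z.q k) q'
      have := h.fh j k hj hjk
      have := hq.h0
      have := ph.symm vj (Z.q j)
      linarith
    have g4 := mul_le_mul_of_nonneg_left g3 hW0.le
    rw [mul_left_comm, mul_comm W (Z.a j), haW] at g4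
    linarith
  have pD := S.D_pm (Z.τ j)
  have := S.dE_fib (γ • S.P0) (Z.q j) (Z.τ j)
  have := pD.tri (γ • S.P0) v (Z.q j)
  have := pD.tri v vj (Z.q j)
  have := pD.symm vj (Z.q j)
  linarith

theorem Seq.Down.not_cusp {Z : Seq S} {B : ℝ} (h : Z.Down B) : ¬ Z.Cusp := by
  rintro ⟨R, hR⟩
  obtain ⟨c0, c1, hc0, key⟩ := key_EndFin h
  obtain ⟨n, hn⟩ := Z.cl c1
  obtain ⟨m0, hm, hs⟩ := Z.step
  have pv := S.bi.pv
  have hB : 1 ≤ B := by
    have := h.bdd 0 le_rfl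
    rwa [Z.a_zero, pv.self, add_zero, one_mul] at this
  obtain ⟨n', hn'⟩ := exists_nat_gt n
  obtain ⟨M, hM⟩ : ∃ M : ℤ, M = m0 * n' + 2 * m0 := ⟨_, rfl⟩
  have hmn : 0 ≤ m0 * n' := by positivity
  obtain ⟨r1, h1, hr1⟩ : ∃ r1, 1 ≤ r1 ∧ R ≤ r1 := ⟨max R 1, le_max_right _ _, le_max_left _ _⟩
  obtain ⟨r2, hr2⟩ : ∃ r2, r2 = r1 * S.lam ^ (1 + M) := ⟨_, rfl⟩
  have h2 : 1 ≤ r2 := by
    have := S.lam_mono (s := 0) (t := 1 + M) (by omega)
    rw [zpow_zero] at this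
    rw [hr2]
    exact one_le_mul_of_one_le_of_one_le h1 this
  have hN : 1 ≤ (c0 + B + 1) * r2 := one_le_mul_of_one_le_of_one_le (by linarith) h2
  obtain ⟨k, q', U, β, γ, P, hk, hq, hU, hβ, hβ', hP⟩ := hR _ hN
  have hU0 : 0 < U := by linarith
  have hinv : ∀ j, (Z.a j)⁻¹ = S.lam ^ (-Z.τ j) := fun j => (zpow_neg _ _).symm
  have hk2 : r2 * U ≤ S.lam ^ (-Z.τ k) := by
    obtain ⟨-, a2, a3, -⟩ := hP _ hN le_rfl
    have a3' : _ = _ := a3
    have a4 : _ = _ := hq.on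
    have a5 := pv.nonneg_E (P ((c0 + B + 1) * r2)) q'
    have ha := Z.a_pos k
    have a6 : S.dv (Z.q 0) (Z.q k) ≤ B * (Z.a k)⁻¹ := by
      rw [← div_eq_mul_inv, le_div_iff₀ ha]
      have := h.bdd k hk
      linarith
    have a7 : 0 ≤ c0 * (r2 * U) := by positivity
    rw [hq.v1] at a4
    rw [← hinv]
    refine le_of_mul_le_mul_left (a := B + 1) ?_ (by linarith)
    linarith
  obtain ⟨e, he1, he2⟩ := exists_mem_Ioc_zpow (x := r1 * U) (by positivity) S.lam1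
  have hup : S.lam ^ (e + 1 + M) ≤ r2 * U := by
    rw [add_assoc, S.lam_add, hr2, mul_right_comm]
    exact mul_le_mul_of_nonneg_right he1.le (S.lam_pos _).le
  have he0 : 0 ≤ e + 1 := by
    rw [← zpow_le_zpow_iff_right₀ S.lam1, zpow_zero]
    exact (one_le_mul_of_one_le_of_one_le h1 hU).trans he2
  have hek : e + 1 + M ≤ -Z.τ k := (zpow_le_zpow_iff_right₀ S.lam1).1 (hup.trans hk2)
  have good : ∀ j, 0 ≤ j → j ≤ k → e + 1 ≤ -Z.τ j → -Z.τ j ≤ e + 1 + M →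
      S.dE (γ • S.P0, Z.τ j) (Z.q j, Z.τ j) ≤ c1 := fun j a b c d => by
    have g1 : r1 ≤ (Z.a j)⁻¹ / U := by
      rw [le_div_iff₀ hU0, hinv]
      exact he2.trans (S.lam_mono c)
    have g2 : (Z.a j)⁻¹ / U ≤ r2 := by
      rw [div_le_iff₀ hU0, hinv]
      exact (S.lam_mono d).trans hup
    refine key R _ k q' U β γ P hq hU hβ hβ' hP j ((Z.a j)⁻¹ / U) a b
      (div_mul_cancel₀ _ hU0.ne') (h1.trans g1) (hr1.trans g1) ?_
    exact mul_le_mul (by linarith) g2 (by linarith) (by linarith)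
  obtain ⟨j, a1, a2, a3, a4⟩ := ivt_EndFin Z.τ0 hm hs (e + 1) he0 k hk (by omega)
  obtain ⟨j', b1, b2, b3, b4⟩ := ivt_EndFin Z.τ0 hm hs (e + 1 + (m0 * n' + m0)) (by omega) k hk
    (by omega)
  have c1' := hn γ _ _ j j' (good j a1 a2 a3 (by omega)) (good j' b1 b2 (by omega) (by omega))
  have c2 : m0 * n' ≤ m0 * |j - j'| := by
    have := hs j j'
    have := le_abs_self (Z.τ j - Z.τ j')
    omega
  have c3 : (n' : ℤ) ≤ |j - j'| := le_of_mul_le_mul_left c2 (by omega)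
  have c4 : (n' : ℝ) ≤ |(j : ℝ) - j'| := by exact_mod_cast c3
  linarith

end Pool.Agent.E5f

end

section

/-! The surface group is quasi-isometrically embedded in the total graph and avoids the cusps. -/

set_option autoImplicit false

namespace Pool.Agent.E5f

variable {Q : Type} [MulAction G8 Q]

theorem wev_append_EndG1 {G ι : Type} [Group G] (s : ι → G) (l l' : List (ι × Bool)) :
    wev s (l ++ l') = wev s l * wev s l' := by
  rw [wev, List.map_append, List.prod_append, wev, wev]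

theorem sgen_gens_E (h : ℕ) : Gens (sgen h) := by
  intro g
  have hg : g ∈ Subgroup.closure (Set.range (sgen h)) := by
    have := PresentedGroup.closure_range_of ({srel h} : Set (FreeGroup (Fin h ⊕ Fin h)))
    exact this ▸ Subgroup.mem_top g
  induction hg using Subgroup.closure_induction'' with
  | mem x hx =>
    obtain ⟨i, rfl⟩ := hx
    exact ⟨[(i, true)], by simp [wev]⟩
  | inv_mem x hx =>
    obtain ⟨i, rfl⟩ := hx
    exact ⟨[(i, false)], by simp [wev]⟩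
  | one => exact ⟨[], rfl⟩
  | mul x y _ _ hx hy =>
    obtain ⟨l, rfl⟩ := hx
    obtain ⟨l', rfl⟩ := hy
    exact ⟨l ++ l', wev_append_EndG1 _ _ _⟩

theorem chain_EndG1 {V W : Type} {G : SimpleGraph V} (hG : G.Connected) {d : W → W → ℝ}
    (tri : ∀ x y z, d x z ≤ d x y + d y z) (f : V → W) {M : ℝ} (h0 : ∀ x, d (f x) (f x) ≤ M)
    (h1 : ∀ x y, G.Adj x y → d (f x) (f y) ≤ M) (x y : V) :
    d (f x) (f y) ≤ M * gd G x y + M := by
  obtain ⟨γ, e0, e1, -, e2⟩ := gseg_ex hG x y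
  have key : ∀ i, i ≤ G.dist x y → d (f x) (f (γ i)) ≤ M * i + M := fun i => by
    induction i with
    | zero => exact fun _ => by simpa [e0] using h0 x
    | succ i ih =>
      intro hi
      have := tri (f x) (f (γ i)) (f (γ (i + 1)))
      have := ih (by omega)
      have := h1 _ _ (e2 i (by omega))
      push_cast
      linarith
  have := key _ le_rfl
  rwa [e1] at this

theorem zpow_EndG1 {L : G8 → G8 → ℝ} {x : G8} (hx : ∀ g g', L (g * x) g' = L g g') (m : ℤ)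
    (g g' : G8) : L (g * x ^ m) g' = L g g' := by
  induction m using Int.induction_on with
  | zero => rw [zpow_zero, mul_one]
  | succ i ih => rw [zpow_add_one, ← mul_assoc, hx, ih]
  | pred i ih => rw [← hx, zpow_sub_one, mul_assoc, inv_mul_cancel_right, ih]

theorem list_EndG1 {h : ℕ} (A : Arith h) (F : Finset G8) (N : ℕ) : ∃ C : ℝ,
    ∀ l : List (ℤ × G8 × ℤ), l.length ≤ N → (∀ e ∈ l, e.2.1 ∈ F) → ∀ x,
      A.L x (x * (l.map fun e => g8c ^ e.1 * e.2.1 * g8c ^ e.2.2).prod) ≤ C := by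
  choose B hB using A.bdd
  obtain ⟨C, hC⟩ := ((F.finite_toSet.insert 1).image B).bddAbove
  have h1 : ∀ g, A.L g (g * 1) ≤ C := fun g => (hB 1 g).trans (hC ⟨1, Or.inl rfl, rfl⟩)
  have h0 : 0 ≤ C := (A.nonneg _ _).trans (h1 1)
  have key : ∀ l : List (ℤ × G8 × ℤ), (∀ e ∈ l, e.2.1 ∈ F) → ∀ x,
      A.L x (x * (l.map fun e => g8c ^ e.1 * e.2.1 * g8c ^ e.2.2).prod) ≤
        C * l.length + C := fun l => by
    induction l with
    | nil => exact fun _ x => by simpa using h1 x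
    | cons e l ih =>
      intro hl x
      have h2 := ih (fun e he => hl e (List.mem_cons_of_mem _ he))
        (x * (g8c ^ e.1 * e.2.1 * g8c ^ e.2.2))
      have h3 : A.L x (x * (g8c ^ e.1 * e.2.1 * g8c ^ e.2.2)) ≤ C := by
        rw [A.symm, ← mul_assoc, zpow_EndG1 A.right_c, A.symm, ← zpow_EndG1 A.right_c e.1,
          ← mul_assoc]
        exact (hB _ _).trans (hC ⟨_, Or.inr (hl e List.mem_cons_self), rfl⟩)
      rw [List.map_cons, List.prod_cons, ← mul_assoc, List.length_cons]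
      refine (A.tri _ _ _).trans ((add_le_add h3 h2).trans_eq ?_)
      push_cast
      ring
  refine ⟨C * N + C, fun l hl hF x => (key l hF x).trans ?_⟩
  have : (l.length : ℝ) ≤ N := by exact_mod_cast hl
  gcongr

theorem smul_EndG1 (S : Base Q) (g δ : G8) (p q : Q) :
    S.dE (g • p, -S.dg g) ((g * δ) • q, -S.dg (g * δ)) = S.dE (p, 0) (δ • q, -S.dg δ) := by
  rw [← S.dE_smul g p (δ • q) 0 (-S.dg δ), mul_smul, S.dg_mul, zero_sub]
  congr 2
  ring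

theorem smul'_EndG1 (S : Base Q) (g : G8) (p q : Q) :
    S.dE (g • p, -S.dg g) (g • q, -S.dg g) = S.dE (p, 0) (q, 0) := by
  rw [← S.dE_smul g p q 0 0, zero_sub]

theorem fix_EndG1 (S : Base Q) (δ : G8) (m : ℤ) :
    S.dv ((δ * g8t ^ m) • S.P0) (δ • S.P0) = 0 ∧ S.dh ((δ * g8t ^ m) • S.P0) (δ • S.P0) = 0 := by
  rw [mul_smul, S.sv, S.sh, (S.fix_pow m).1, (S.fix_pow m).2, mul_zero, mul_zero]
  exact ⟨rfl, rfl⟩

theorem rho0_EndG1 (S : Base Q) {h : ℕ} (A : Arith h) (C : ℝ) : ∃ C' : ℝ, ∀ g g' : G8,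
    S.dE (g • S.P0, -S.dg g) (g' • S.P0, -S.dg g') ≤ C → A.L g g' ≤ C' := by
  obtain ⟨C1, h1⟩ := S.out.fib_near C
  obtain ⟨F, N, h2⟩ := S.elem C1
  obtain ⟨C', h3⟩ := list_EndG1 A F N
  refine ⟨C', fun g g' hg => ?_⟩
  obtain ⟨δ, rfl⟩ : ∃ δ, g' = g * δ := ⟨g⁻¹ * g', (mul_inv_cancel_left _ _).symm⟩
  rw [smul_EndG1] at hg
  have h4 : S.D 0 S.P0 (δ • S.P0) ≤ C1 := h1 _ _ hg
  rw [Base.D, neg_zero, zpow_zero, one_mul, one_mul] at h4
  obtain ⟨m, hm⟩ := S.exists_deg (-S.dg δ)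
  obtain ⟨l, l1, l2, l3⟩ := h2 (δ * g8t ^ m) (by rw [S.dg_mul, hm, add_neg_cancel]) (by
    rwa [S.bi.pv.congr'_E (fix_EndG1 S δ m).1, S.bi.ph.congr'_E (fix_EndG1 S δ m).2])
  have h5 := h3 l l1 l2 g
  rwa [← l3, A.symm, ← mul_assoc, zpow_EndG1 A.right_t, A.symm] at h5

theorem near_EndG1 (S : Base Q) : ∃ R : ℝ, ∀ X : Q × ℤ, ∃ g : G8,
    S.dE (g • S.P0, -S.dg g) X ≤ R := by
  obtain ⟨R, hR⟩ := S.dense
  refine ⟨R + 1, fun ⟨q, t⟩ => ?_⟩
  obtain ⟨m, hm⟩ := S.exists_deg (-t)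
  obtain ⟨γ, h1, h2⟩ := hR ((g8t ^ m)⁻¹ • q)
  refine ⟨g8t ^ m * γ, ?_⟩
  have h3 := smul'_EndG1 S (g8t ^ m) (γ • S.P0) ((g8t ^ m)⁻¹ • q)
  rw [smul_inv_smul, hm, neg_neg] at h3
  rw [mul_smul, S.dg_mul, h1, hm, add_zero, neg_neg, h3]
  refine (S.dE_fib _ _ _).trans ?_
  rw [Base.D, neg_zero, zpow_zero, one_mul, one_mul, S.bi.pv.symm, S.bi.ph.symm]
  linarith

theorem Base.rho (S : Base Q) {h : ℕ} (A : Arith h) : ∃ C : ℝ, 0 ≤ C ∧ ∀ γ γ' : G8,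
    A.L γ γ' ≤ C * S.dE (γ • S.P0, -S.dg γ) (γ' • S.P0, -S.dg γ') + C := by
  obtain ⟨R, hR⟩ := near_EndG1 S
  choose g hg using hR
  have pm := S.dE_pm
  have hR0 : 0 ≤ R := (pm.nonneg_E _ _).trans (hg (S.P0, 0))
  obtain ⟨M, hM⟩ := rho0_EndG1 S A (2 * R + 1)
  have h0 : ∀ x, A.L x x ≤ M := fun x => hM x x (by rw [pm.self]; linarith)
  have hM0 : 0 ≤ M := (A.nonneg _ _).trans (h0 1)
  have h1 := chain_EndG1 S.out.conn A.tri g (fun X => h0 _) fun X Y hXY => hM _ _ (by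
    have e1 : S.dE X Y = 1 := gd_adj.2 hXY
    have := pm.tri (g X • S.P0, -S.dg (g X)) X (g Y • S.P0, -S.dg (g Y))
    have := pm.tri X Y (g Y • S.P0, -S.dg (g Y))
    have := pm.symm Y (g Y • S.P0, -S.dg (g Y))
    have := hg X
    have := hg Y
    linarith)
  have h2 : ∀ γ, A.L (g (γ • S.P0, -S.dg γ)) γ ≤ M := fun γ =>
    hM _ _ ((hg _).trans (by linarith))
  refine ⟨3 * M, by linarith, fun γ γ' => ?_⟩
  have h3 : _ ≤ M * S.dE _ _ + M := h1 (γ • S.P0, -S.dg γ) (γ' • S.P0, -S.dg γ')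
  have := A.tri γ (g (γ • S.P0, -S.dg γ)) γ'
  have := A.tri (g (γ • S.P0, -S.dg γ)) (g (γ' • S.P0, -S.dg γ')) γ'
  have := A.symm γ (g (γ • S.P0, -S.dg γ))
  have := h2 γ
  have := h2 γ'
  have := mul_nonneg hM0 (pm.nonneg_E (γ • S.P0, -S.dg γ) (γ' • S.P0, -S.dg γ'))
  linarith

theorem low_EndG1 {h : ℕ} (A : Arith h) : ∃ K : ℝ, 0 ≤ K ∧ ∀ b b' : SG h,
    gd (cay (sgen h)) b b' ≤ K * A.L (A.ι b) (A.ι b') + K := by
  obtain ⟨K, h0, hK⟩ := A.low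
  refine ⟨K, h0, fun b b' => ?_⟩
  have := hK (b⁻¹ * b')
  rwa [← cay_dist (sgen_gens_E h), ← A.left b, mul_one, ← map_mul, mul_inv_cancel_left] at this

theorem Base.qie (S : Base Q) (q0 : Q) {h : ℕ} (A : Arith h) : ∃ K : ℝ,
    QIE (cay (sgen h)) S.E (fun b => (A.ι b • q0, -S.dg (A.ι b))) K := by
  obtain ⟨C, hC0, hC⟩ := S.rho A
  obtain ⟨K, hK0, hK⟩ := low_EndG1 A
  have pm := S.dE_pm
  obtain ⟨c0, hc0⟩ : ∃ c0, c0 = S.dE (q0, 0) (S.P0, 0) := ⟨_, rfl⟩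
  have hc1 : 0 ≤ c0 := hc0 ▸ pm.nonneg_E _ _
  obtain ⟨M, hM⟩ : ∃ M, M = ∑ i, S.dE (q0, 0) (A.ι (sgen h i) • q0, -S.dg (A.ι (sgen h i))) :=
    ⟨_, rfl⟩
  have hM0 : 0 ≤ M := hM ▸ Finset.sum_nonneg fun _ _ => pm.nonneg_E _ _
  have h1 : ∀ b i, S.dE (A.ι b • q0, -S.dg (A.ι b))
      (A.ι (b * sgen h i) • q0, -S.dg (A.ι (b * sgen h i))) ≤ M := fun b i => by
    rw [map_mul, smul_EndG1, hM]
    exact Finset.single_le_sum (f := fun i => S.dE (q0, 0)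
      (A.ι (sgen h i) • q0, -S.dg (A.ι (sgen h i)))) (fun _ _ => pm.nonneg_E _ _)
      (Finset.mem_univ i)
  have h2 := chain_EndG1 (cay_conn (sgen_gens_E h)) pm.tri
    (fun b => (A.ι b • q0, -S.dg (A.ι b))) (fun b => (pm.self _).trans_le hM0) (by
      rintro x y ⟨-, i, rfl | rfl⟩
      · exact h1 x i
      · rw [pm.symm]
        exact h1 y i)
  have hKC := mul_nonneg hK0 hC0
  have hKC' := mul_nonneg hKC hc1
  refine ⟨M + (K * C * (2 * c0) + K * C + K), fun b b' => ⟨(h2 b b').trans ?_, ?_⟩⟩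
  · have := gd_nonneg_HypQI (cay (sgen h)) b b'
    gcongr <;> linarith
  · have e1 := smul'_EndG1 S (A.ι b) q0 S.P0
    have e2 := smul'_EndG1 S (A.ι b') q0 S.P0
    have e3 := pm.tri (A.ι b • S.P0, -S.dg (A.ι b)) (A.ι b • q0, -S.dg (A.ι b))
      (A.ι b' • S.P0, -S.dg (A.ι b'))
    have e4 := pm.tri (A.ι b • q0, -S.dg (A.ι b)) (A.ι b' • q0, -S.dg (A.ι b'))
      (A.ι b' • S.P0, -S.dg (A.ι b'))
    have e5 := pm.symm (A.ι b • S.P0, -S.dg (A.ι b)) (A.ι b • q0, -S.dg (A.ι b))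
    have e6 := pm.nonneg_E (A.ι b • q0, -S.dg (A.ι b)) (A.ι b' • q0, -S.dg (A.ι b'))
    change _ ≤ _ * S.dE _ _ + _
    generalize S.dE (A.ι b • q0, -S.dg (A.ι b)) (A.ι b' • q0, -S.dg (A.ι b')) = x at *
    have e7 : A.L (A.ι b) (A.ι b') ≤ C * (x + 2 * c0) + C :=
      (hC _ _).trans (by gcongr; linarith)
    have e8 := mul_le_mul_of_nonneg_left e7 hK0
    have := hK b b'
    have := mul_nonneg hM0 e6
    have := mul_nonneg hKC' e6
    have := mul_nonneg hK0 e6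
    linarith

theorem Base.cl (S : Base Q) (q0 : Q) {h : ℕ} (A : Arith h) (C : ℝ) : ∃ n : ℝ,
    ∀ (γ : G8) (t t' : ℤ) (b b' : SG h),
      S.dE (γ • S.P0, t) (A.ι b • q0, -S.dg (A.ι b)) ≤ C →
      S.dE (γ • S.P0, t') (A.ι b' • q0, -S.dg (A.ι b')) ≤ C → gd (cay (sgen h)) b b' ≤ n := by
  obtain ⟨K, hK0, hK⟩ := low_EndG1 A
  obtain ⟨M, hM⟩ := rho0_EndG1 S A (1 + C + S.dE (q0, 0) (S.P0, 0))
  have pm := S.dE_pm
  have key : ∀ (γ g : G8) (t : ℤ), S.dE (γ • S.P0, t) (g • q0, -S.dg g) ≤ C → A.L γ g ≤ M := by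
    intro γ g t hg
    obtain ⟨m, hm⟩ := S.exists_deg (-t - S.dg γ)
    rw [← zpow_EndG1 A.right_t m]
    refine hM _ _ ?_
    rw [S.dg_mul, hm, show -(S.dg γ + (-t - S.dg γ)) = t by ring]
    have e1 := S.dE_fib ((γ * g8t ^ m) • S.P0) (γ • S.P0) t
    rw [Base.D, (fix_EndG1 S γ m).1, (fix_EndG1 S γ m).2] at e1
    have := smul'_EndG1 S g q0 S.P0
    have := pm.tri ((γ * g8t ^ m) • S.P0, t) (γ • S.P0, t) (g • S.P0, -S.dg g)
    have := pm.tri (γ • S.P0, t) (g • q0, -S.dg g) (g • S.P0, -S.dg g)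
    linarith
  refine ⟨K * (M + M) + K, fun γ t t' b b' h1 h2 => (hK b b').trans ?_⟩
  have := key γ _ t h1
  have := key γ _ t' h2
  have := A.tri (A.ι b) γ (A.ι b')
  have := A.symm (A.ι b) γ
  gcongr
  linarith

theorem hypH_E (S : Base Q) (q0 : Q) {h : ℕ} (A : Arith h) :
    ∃ δ, Hyp (gd (cay (sgen h))) δ := by
  obtain ⟨K, hK⟩ := S.qie q0 A
  obtain ⟨δ, -, hδ⟩ := S.dE_hyp
  exact hyp_of_qie (cay_conn (sgen_gens_E h)) S.out.conn hδ hK

end Pool.Agent.E5f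

end

section

/-! From a bad geodesic to the abstract data. -/

set_option autoImplicit false

namespace Pool.Agent.E5f

variable {Q : Type} [MulAction G8 Q]

theorem FSide.neg_EndMk {dv dh : Q → Q → ℝ} {dg : G8 → ℤ} {P0 : Q}
    {FS FS' : (Q → ℝ) → ℝ → Prop} (h : FSide dv dh dg P0 FS) (h' : ∀ F z, FS' F z → FS F z) :
    FSide dv dh (fun γ => -dg γ) P0 FS' := by
  refine ⟨fun F z k => h.zero F z (h' F z k), fun F z k => h.cvx F z (h' F z k),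
    fun F z k => h.b1 F z (h' F z k), fun F z k => h.b5l F z (h' F z k), fun B => ?_⟩
  obtain ⟨R, hR⟩ := h.b5u B
  refine ⟨R, fun N => ?_⟩
  obtain ⟨L, η, h1, h2, h3⟩ := hR N
  refine ⟨L, η, h1, h2, fun F z k => ?_⟩
  simpa only [neg_eq_zero] using h3 F z (h' F z k)

theorem FClass.swap {S : Base Q} {q0 : Q} {FF : Set ((Q → ℝ) × (Q → ℝ))} (hF : FClass S q0 FF) :
    FClass S.swap q0 (Prod.swap '' FF) := by
  refine ⟨?_, ?_, fun q => ?_, hF.sideH.neg_EndMk ?_, hF.sideV.neg_EndMk ?_⟩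
  · rintro _ ⟨Φ, hΦ, rfl⟩ q
    exact (hF.nonneg Φ hΦ q).symm
  · rintro _ ⟨Φ, hΦ, rfl⟩ γ
    refine ⟨_, hF.inv Φ hΦ γ, ?_⟩
    simp only [Base.swap, neg_neg, Prod.swap]
  · obtain ⟨K, hK⟩ := hF.bound q
    refine ⟨K, ?_⟩
    rintro _ ⟨Φ, hΦ, rfl⟩
    have := hK Φ hΦ
    simp only [Prod.fst_swap, Prod.snd_swap]
    rwa [add_comm, add_comm (Φ.2 q0)]
  · rintro F z ⟨_, ⟨Φ, hΦ, rfl⟩, h1, h2⟩
    exact ⟨Φ, hΦ, h1, h2.trans (add_comm _ _)⟩
  · rintro F z ⟨_, ⟨Φ, hΦ, rfl⟩, h1, h2⟩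
    exact ⟨Φ, hΦ, h1, h2.trans (add_comm _ _)⟩

theorem exists_seq (S : Base Q) (q0 : Q) {h : ℕ} (A : Arith h) (γ : ℤ → SG h)
    (hγ : ∀ i j : ℤ, gd (cay (sgen h)) (γ i) (γ j) = |(i : ℝ) - (j : ℝ)|) (h0 : γ 0 = 1) :
    ∃ Z : Seq S, ∀ j, Z.q j = A.ι (γ j) • q0 ∧ Z.τ j = -S.dg (A.ι (γ j)) := by
  obtain ⟨K, hK⟩ := S.qie q0 A
  refine ⟨⟨fun j => A.ι (γ j) • q0, fun j => -S.dg (A.ι (γ j)), K,
    by rw [h0, map_one, S.dg_one, neg_zero], fun i j => ?_, fun i j => ?_, fun C => ?_⟩,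
    fun j => ⟨rfl, rfl⟩⟩
  · rw [← hγ]
    exact (hK (γ i) (γ j)).1
  · rw [← hγ]
    exact (hK (γ i) (γ j)).2
  · obtain ⟨n, hn⟩ := S.cl q0 A C
    exact ⟨n, fun g t t' i j h1 h2 => hγ i j ▸ hn g t t' (γ i) (γ j) h1 h2⟩

theorem fn_of_class {S : Base Q} {q0 : Q} {FF : Set ((Q → ℝ) × (Q → ℝ))} (hF : FClass S q0 FF)
    (g : ℤ → G8) (Z : Seq S) (hZ : ∀ j, Z.q j = g j • q0 ∧ Z.τ j = -S.dg (g j))
    {Φ : (Q → ℝ) × (Q → ℝ)} (hΦ : Φ ∈ FF) (h1 : Φ.1 q0 + Φ.2 q0 = 1) {Θ : ℝ}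
    (hΘ : ∀ j, ell S q0 Φ (g j) ≤ Θ) : Fn Z Φ.1 := by
  have hS : ∃ Φ' ∈ FF, Φ.1 = Φ'.1 ∧ (1 : ℝ) = Φ'.1 q0 + Φ'.2 q0 := ⟨Φ, hΦ, rfl, h1.symm⟩
  have ha : ∀ j, Z.a j = S.lam ^ (-S.dg (g j)) := fun j => by rw [Seq.a, (hZ j).2]
  refine ⟨fun q => (hF.nonneg Φ hΦ q).1, hF.sideV.zero _ _ hS, hF.sideV.cvx _ _ hS,
    fun p p' k1 k2 k3 => one_ne_zero (hF.sideV.b1 _ _ hS p p' k1 k2 k3), hF.sideV.b5l _ _ hS,
    fun B => ?_, ⟨Θ, fun j => ?_⟩, ?_⟩
  · obtain ⟨R, hR⟩ := hF.sideV.b5u B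
    refine ⟨R, fun N => ?_⟩
    obtain ⟨L, η, k1, k2, k3⟩ := hR N
    refine ⟨L, η, k1, k2,
      fun e U p0 p1 p2 p3 s hU a1 a2 a3 a4 a5 a6 a7 a8 a9 a10 a11 => ?_⟩
    obtain ⟨m, hm⟩ := S.exists_deg e
    generalize g8t ^ m = c at hm
    have hU0 : 0 < U := hU ▸ S.lam_pos e
    have hi : S.lam ^ (-S.dg c) = U⁻¹ := by rw [hm, zpow_neg, hU]
    have hv : ∀ p q, S.dv (c⁻¹ • p) (c⁻¹ • q) = S.dv p q / U := fun p q => by
      rw [S.sv, S.dg_inv, hi, div_eq_inv_mul]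
    have hv' : ∀ p q, S.dv (c • p) (c • q) = S.dv p q * U := fun p q => by
      rw [S.sv, hm, hU, mul_comm]
    obtain ⟨γ, -, b2, P, b3⟩ := k3 _ _ ⟨_, hF.inv Φ hΦ c, rfl, rfl⟩ (c⁻¹ • p0) (c⁻¹ • p1)
      (c⁻¹ • p2) (c⁻¹ • p3) s (by rw [hv, a1, div_self hU0.ne'])
      (by rw [hv, a2, mul_div_cancel_right₀ _ hU0.ne']) (by rw [hv, a3, div_self hU0.ne'])
      (by rw [hv, a4, mul_div_cancel_right₀ _ hU0.ne'])
      (by rw [hv, a5, mul_div_cancel_right₀ _ hU0.ne'])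
      (by rw [hv, a6, mul_div_cancel_right₀ _ hU0.ne'])
      (by rwa [S.sh, S.dg_inv, neg_neg, hm, ← hU]) a8
      (by
        simp only [smul_inv_smul, hi]
        rwa [← mul_sub, le_inv_mul_iff₀ hU0, mul_comm])
      (by
        simp only [smul_inv_smul, hi]
        rwa [← mul_sub, inv_mul_le_iff₀ hU0, mul_comm])
      (by
        simp only [smul_inv_smul, hi]
        rwa [inv_mul_le_iff₀ hU0, mul_comm])
    refine ⟨c * γ, ?_, fun τ => c • P τ, fun τ t1 t2 => ?_⟩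
    · rw [mul_smul, ← smul_inv_smul c p1, hv']
      exact mul_le_mul_of_nonneg_right b2 hU0.le
    · obtain ⟨c1, c2, c3⟩ := b3 τ t1 t2
      refine ⟨by rw [mul_smul, S.sh, c1, mul_zero], ?_, ?_⟩
      · rw [← smul_inv_smul c p1, hv', c2]
      · rw [← smul_inv_smul c p2, hv', c3]
  · rw [ha, (hZ j).1]
    exact (le_add_of_nonneg_right
      (mul_nonneg (S.lam_pos _).le (hF.nonneg Φ hΦ _).2)).trans (hΘ j)
  · obtain ⟨qm, qp, c1, c2, c3, c4, c5⟩ := S.sideV.hor q0 1 zero_le_one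
    have key : ∀ q, ∃ K : ℝ, ∀ k, Z.a k * Φ.1 (g k • q) ≤ K := fun q => by
      obtain ⟨K, hK⟩ := hF.bound q
      refine ⟨|K| * Θ, fun k => ?_⟩
      have e1 := hK _ (hF.inv Φ hΦ (g k))
      have e2 := hF.nonneg _ (hF.inv Φ hΦ (g k))
      have e3 : 0 ≤ ell S q0 Φ (g k) := add_nonneg (e2 q0).1 (e2 q0).2
      rw [ha]
      exact ((le_add_of_nonneg_right (e2 q).2).trans e1).trans
        ((mul_le_mul_of_nonneg_right (le_abs_self K) e3).trans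
          (mul_le_mul_of_nonneg_left (hΘ k) (abs_nonneg K)))
    obtain ⟨Km, hm⟩ := key qm
    obtain ⟨Kp, hp⟩ := key qp
    refine ⟨max Km Kp, fun k => ?_⟩
    have hd : ∀ q, S.dh q0 q = 0 → S.dv q0 q = 1 →
        S.dh (Z.q k) (g k • q) = 0 ∧ S.dv (Z.q k) (g k • q) = (Z.a k)⁻¹ := fun q e1 e2 => by
      rw [(hZ k).1, S.sh, S.sv, e1, e2, ha, zpow_neg, inv_inv, mul_zero, mul_one]
      exact ⟨rfl, rfl⟩
    have ho : On S.dv (g k • qm) (Z.q k) (g k • qp) := by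
      rw [On, (hZ k).1, S.sv, S.sv, S.sv, S.bi.pv.symm qm q0, c3, c4, c5]
      ring
    have hy := S.bi.hv (Z.q k) (g k • qm) (Z.q 0) (g k • qp)
    rw [S.bi.pv.on_iff.1 ho, sub_zero, min_le_iff] at hy
    rcases hy with hy | hy
    · rw [gp_symm_E S.bi.pv] at hy
      exact ⟨_, ⟨(hd qm c1 c3).1, (hd qm c1 c3).2,
        S.bi.pv.on_iff.2 (le_antisymm hy (S.bi.pv.gp_nonneg_E _ _ _))⟩,
        (hm k).trans (le_max_left _ _)⟩
    · exact ⟨_, ⟨(hd qp c2 c4).1, (hd qp c2 c4).2,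
        S.bi.pv.on_iff.2 (le_antisymm hy (S.bi.pv.gp_nonneg_E _ _ _))⟩,
        (hp k).trans (le_max_right _ _)⟩

end Pool.Agent.E5f

end
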