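import Pool.Agent.Mg.S03381.Gc7f183
import Pool.Agent.Mg.S03381.G09b917

section

set_option autoImplicit false

namespace Pool.Agent.E5f

open Classical Filter

theorem hgt_FsCore : ∀ i j : Fin 3, i ≠ j → (hgt i < hgt j ↔ ¬ hgt j < hgt i) := by decide

theorem cnt_FsCore {α : Type} (f : α → ℝ) (hf : ∀ q, 0 ≤ f q) (R : ℝ) (D : List α) :
    R * (D.countP (fun q => decide (R < f q)) : ℝ) ≤ (D.map f).sum := by
  induction D with
  | nil => simp
  | cons q D ih =>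
    have := hf q
    rw [List.countP_cons, List.map_cons, List.sum_cons]
    split_ifs with h
    · have := of_decide_eq_true h
      push_cast
      linarith
    · push_cast
      linarith

theorem cnt3_FsCore {α : Type} (p1 p2 p3 : α → Bool) (D : List α)
    (h : ∀ q ∈ D, p1 q = true ∨ p2 q = true ∨ p3 q = true) :
    D.length ≤ D.countP p1 + D.countP p2 + D.countP p3 := by
  induction D with
  | nil => simp
  | cons q D ih =>
    have h1 := ih fun q hq => h q (List.mem_cons_of_mem _ hq)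
    have h2 := h q List.mem_cons_self
    simp only [List.length_cons, List.countP_cons]
    split_ifs <;> first | omega | simp_all

theorem norm_FsCore {L κ : Type} [LinearOrder κ] {S : Set L} {k0 k1 k2 : L → κ}
    {c c' : List (L × L)} (h : FCh S k0 k1 c) (h' : FCh S k0 k2 c') {q : List L} (hq : Pth S q)
    (h2 : 2 ≤ q.length) {d d' : Bool} (hp : Pers k0 d c q) (hp' : Pers k0 d' c' q) {x y : L}
    (hx : q.head? = some x) (hy : q.getLast? = some y) :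
    ∃ q' l r, Pth S q' ∧ 2 ≤ q'.length ∧ Pers k0 true c q' ∧ Pers k0 true c' q' ∧
      q'.head? = some l ∧ q'.getLast? = some r ∧ (l = x ∧ r = y ∨ l = y ∧ r = x) := by
  obtain rfl : d = d' := mono_dir_LsTrackT (k := k0) h2 (hp [] c rfl) (hp' [] c' rfl)
  cases d
  · refine ⟨q.reverse, y, x, ⟨?_, by simpa using hq.ne, fun z hz => hq.sub z (by simpa using hz)⟩,
      by simpa using h2, pers_reverse h hq hp, pers_reverse h' hq hp', by simpa using hy,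
      by simpa using hx, .inr ⟨rfl, rfl⟩⟩
    exact List.isChain_reverse.2 (hq.rd.imp fun _ _ e => e.symm)
  · exact ⟨q, x, y, hq, h2, hp, hp', hx, hy, .inl ⟨rfl, rfl⟩⟩

namespace Lat
variable {O : Type} [AddCommGroup O] (E : Lat O)

/-- No piece from `l` to `r` persists along a chain of the step. -/
def KillFsCore (u u' : Mx) (σ : O → Bool) (l r : Fin 3 × O) : Prop :=
  ∃ X : Finset (Fin 3 × O), ∀ S : Finset (Fin 3 × O), X ⊆ S → ∀ c,
    FCh (S : Set (Fin 3 × O)) (E.key u) (E.key u') c →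
    (∀ e ∈ c, ∀ a, E.bk a e.1 = E.bk a e.2 → (hgt (E.tyl e.2) < hgt (E.tyl e.1) ↔ σ a = true)) →
    ∀ q, Pth (S : Set (Fin 3 × O)) q → 2 ≤ q.length → Pers (E.key u) true c q →
      q.head? = some l → q.getLast? = some r → False

/-- The index `i` is faster than the index `j` in direction `ε`. -/
def FaFsCore (ε : Bool) (i j : Fin 3) : Prop :=
  if ε = true then E.w (E.ty j) < E.w (E.ty i) else E.w (E.ty i) < E.w (E.ty j)

theorem w_ne_FsCore {i j : Fin 3} (h : i ≠ j) : E.w (E.ty i) ≠ E.w (E.ty j) := by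
  have h0 := E.w0
  have h1 := E.w1
  have h2 := E.w2
  have hm : StrictMono E.w := Fin.strictMono_iff_lt_succ.2 fun i => by
    fin_cases i
    · exact h0.trans_lt h1
    · exact h2
  exact fun e => h (E.ty.injective (hm.injective e))

theorem fa_FsCore (ε : Bool) {i j : Fin 3} (h : i ≠ j) : E.FaFsCore ε i j ∨ E.FaFsCore ε j i := by
  have := lt_or_gt_of_ne (E.w_ne_FsCore h)
  cases ε
  · exact this
  · exact this.symm

theorem δ_FsCore : 0 < min (E.w 1) (E.w 2 - E.w 1) := lt_min E.w1 (sub_pos.2 E.w2)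

variable {E} {ε : Bool} {u u' : Mx} {σ : O → Bool}

theorem inv_FsCore (hd : Dir ε u u') {x y : Fin 3 × O} {a : O} (hb : E.bk a x = E.bk a y)
    (hc : E.Cr u u' a) (hs : E.FaFsCore ε x.1 y.1) :
    E.key u x < E.key u y ∧ E.key u' y < E.key u' x := (E.inv_iff hd x y).2 ⟨a, hb, hc, hs⟩

theorem st_FsCore (hd : Dir ε u u') {S : Set (Fin 3 × O)} {c : List ((Fin 3 × O) × (Fin 3 × O))}
    (h : FCh S (E.key u) (E.key u') c)
    (hs : ∀ e ∈ c, ∀ a, E.bk a e.1 = E.bk a e.2 →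
      (hgt (E.tyl e.2) < hgt (E.tyl e.1) ↔ σ a = true))
    {x y : Fin 3 × O} (hx : x ∈ S) (hy : y ∈ S) (hne : x.1 ≠ y.1) {a : O}
    (hb : E.bk a x = E.bk a y) (hc : E.Cr u u' a) :
    (x, y) ∈ c ↔ (hgt (E.ty y.1) < hgt (E.ty x.1) ↔ σ a = true) := by
  have h1 : ((x, y) ∈ c ∨ (y, x) ∈ c) := by
    rcases E.fa_FsCore ε hne with h1 | h1
    · exact (fch_inv h hx hy (inv_FsCore hd hb hc h1).1 (inv_FsCore hd hb hc h1).2).1
    · exact (fch_inv h hy hx (inv_FsCore hd hb.symm hc h1).1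
        (inv_FsCore hd hb.symm hc h1).2).1.symm
  refine ⟨fun h2 => hs _ h2 a hb, fun h2 => h1.resolve_right fun h3 => ?_⟩
  have h4 : hgt (E.ty x.1) < hgt (E.ty y.1) ↔ σ a = true := hs _ h3 a hb.symm
  have h5 := hgt_FsCore _ _ (E.ty.injective.ne hne)
  tauto

theorem killA_FsCore (hd : Dir ε u u') {l r β : Fin 3 × O} {a1 a2 : O} (hlr : l.1 = r.1)
    (hβ : β.1 ≠ l.1) (h1 : E.bk a1 β = E.bk a1 l) (h2 : E.bk a2 β = E.bk a2 r)
    (c1 : E.Cr u u' a1) (c2 : E.Cr u u' a2) (hσ : σ a1 ≠ σ a2) : E.KillFsCore u u' σ l r := by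
  refine ⟨{β}, fun S hS c h hs q hq hq2 hp hl hr => hσ ?_⟩
  have hβS : β ∈ (S : Set (Fin 3 × O)) := hS (Finset.mem_singleton_self β)
  obtain ⟨hlS, hrS⟩ := mem_LsCC hq hl hr
  have e1 := st_FsCore hd h hs hβS hlS hβ h1 c1
  have e2 := st_FsCore hd h hs hβS hrS (hlr ▸ hβ) h2 c2
  have e3 : (β, l) ∈ c ↔ (β, r) ∈ c := by
    rcases E.fa_FsCore ε hβ with h3 | h3
    · exact cc2a h hq hq2 hp hl hr hβS (inv_FsCore hd h1 c1 h3).1
        (inv_FsCore hd h2 c2 (hlr ▸ h3)).2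
    · exact cc2b h hq hq2 hp hl hr hβS (inv_FsCore hd h2.symm c2 (hlr ▸ h3)).1
        (inv_FsCore hd h1.symm c1 h3).2
  rw [← hlr] at e2
  rw [Bool.eq_iff_iff]
  tauto

theorem killB_FsCore (hd : Dir ε u u') {l r : Fin 3 × O} {a : O} (hlr : l.1 ≠ r.1)
    (hb : E.bk a l = E.bk a r) (hc : E.Cr u u' a) : E.KillFsCore u u' σ l r := by
  refine ⟨∅, fun S _ c h _ q hq hq2 hp hl hr => ?_⟩
  obtain ⟨h0, h1⟩ := pers_ends h hq hq2 hp hl hr
  rcases E.fa_FsCore ε hlr with h3 | h3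
  · exact lt_asymm h1 (inv_FsCore hd hb hc h3).2
  · exact lt_asymm h0 (inv_FsCore hd hb.symm hc h3).1

theorem tf_FsCore (t : ℝ) : (toLex (t, false) : Mx) < toLex (t, true) :=
  Prod.Lex.toLex_lt_toLex.2 (.inr ⟨rfl, Bool.false_lt_true⟩)

theorem killC_FsCore (hd : Dir ε u u') {l r : Fin 3 × O} {a0 a a' : O} (hlr : l.1 ≠ r.1)
    (hb : E.bk a0 l = E.bk a0 r) (h0 : Dir ε (toLex (E.ξ a0, ε)) u) (ca : E.Cr u u' a)
    (ca' : E.Cr u u' a') (cb : E.Cr u u' (a + a' - a0)) (e : σ a = σ a')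
    (hσ : σ (a + a' - a0) ≠ σ a) : E.KillFsCore u u' σ l r := by
  obtain ⟨β, hβ⟩ : ∃ β : Fin 3 × O, β = (r.1, l.2 + E.μ l.1 a - E.μ r.1 a) := ⟨_, rfl⟩
  obtain ⟨α, hα⟩ : ∃ α : Fin 3 × O, α = (l.1, r.2 + E.μ r.1 a' - E.μ l.1 a') := ⟨_, rfl⟩
  have β1 : β.1 = r.1 := by rw [hβ]
  have α1 : α.1 = l.1 := by rw [hα]
  have b1 : E.bk a β = E.bk a l := by simp [hβ, bk]
  have b2 : E.bk a' r = E.bk a' α := by simp [hα, bk]
  have b3 : E.bk (a + a' - a0) β = E.bk (a + a' - a0) α := by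
    have : l.2 = r.2 + E.μ r.1 a0 - E.μ l.1 a0 := eq_sub_of_add_eq hb
    simp only [hα, hβ, bk, map_sub, map_add, this]
    abel
  refine ⟨{α, β}, fun S hS c h hs q hq hq2 hp hl hr => hσ ?_⟩
  have hαS : α ∈ (S : Set (Fin 3 × O)) := hS (by simp)
  have hβS : β ∈ (S : Set (Fin 3 × O)) := hS (by simp)
  obtain ⟨hlS, hrS⟩ := mem_LsCC hq hl hr
  have k0 := (pers_ends h hq hq2 hp hl hr).1
  have hf : E.FaFsCore ε r.1 l.1 := by
    refine (E.fa_FsCore ε hlr).resolve_left fun h3 => ?_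
    cases ε
    · exact (tf_FsCore _).not_ge (((E.key_col u hb h3).1 k0).trans h0)
    · exact lt_asymm k0 ((E.key_col u hb.symm h3).2 h0)
  have i1 := inv_FsCore hd b1 ca (β1 ▸ hf)
  have i2 := inv_FsCore hd b2 ca' (α1 ▸ hf)
  have i3 := inv_FsCore hd b3 cb (β1 ▸ α1 ▸ hf)
  have hc := cc1 h hq hq2 hp hl hr hαS hβS i1.1 ((E.key_same u u' β1).1 (i1.1.trans k0)) i2.1
    ((E.key_same u u' α1.symm).1 (k0.trans i2.1)) i3.2
  have n1 : β.1 ≠ l.1 := β1 ▸ hlr.symm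
  have n2 : r.1 ≠ α.1 := α1 ▸ hlr.symm
  have n3 : β.1 ≠ α.1 := α1 ▸ n1
  rw [st_FsCore hd h hs hβS hlS n1 b1 ca, st_FsCore hd h hs hrS hαS n2 b2 ca',
    st_FsCore hd h hs hβS hαS n3 b3 cb, st_FsCore hd h hs hlS hβS n1.symm b1.symm ca,
    st_FsCore hd h hs hαS hrS n2.symm b2.symm ca',
    st_FsCore hd h hs hαS hβS n3.symm b3.symm cb, β1, α1, ← e,
    hgt_FsCore _ _ (E.ty.injective.ne hlr)] at hc
  rw [Bool.eq_iff_iff]
  tauto

theorem near_FsCore {l r : Fin 3 × O} {a : O} (hlr : l.1 ≠ r.1) (hb : E.bk a l = E.bk a r)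
    {t R : ℝ} (h : |E.pos t r - E.pos t l| ≤ R) :
    |E.ξ a - t| ≤ R / min (E.w 1) (E.w 2 - E.w 1) := by
  have h1 : E.pos (E.ξ a) l = E.pos (E.ξ a) r := by rw [E.pos_bk, E.pos_bk, hb]
  have h2 : E.pos t r - E.pos t l = (E.sp l - E.sp r) * (E.ξ a - t) := by
    simp only [pos] at h1 ⊢
    linarith
  have h3 : min (E.w 1) (E.w 2 - E.w 1) ≤ |E.sp l - E.sp r| := by
    rcases lt_or_gt_of_ne (E.w_ne_FsCore hlr) with h4 | h4
    · exact (E.sp_gap h4).trans (abs_sub_comm (E.sp l) _ ▸ le_abs_self _)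
    · exact (E.sp_gap h4).trans (le_abs_self _)
  rw [h2, abs_mul] at h
  rw [le_div_iff₀' E.δ_FsCore]
  exact (mul_le_mul_of_nonneg_right h3 (abs_nonneg _)).trans h

theorem ahead_FsCore (hd : Dir ε u u') {a : O} {R : ℝ} (h : |E.ξ a - (ofLex u).1| ≤ R)
    (hL : R + 1 ≤ |(ofLex u').1 - (ofLex u).1|) (h0 : ¬ Dir ε (toLex (E.ξ a, ε)) u) :
    E.Cr u u' a := by
  obtain ⟨t, s⟩ := u
  obtain ⟨t', s'⟩ := u'
  change |E.ξ a - t| ≤ R at h
  change R + 1 ≤ |t' - t| at hL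
  rw [abs_le] at h
  cases ε
  · have h1 : (toLex (t', s') : Mx) ≤ toLex (t, s) := hd
    have h2 : (toLex (E.ξ a, false) : Mx) < toLex (t, s) := not_le.1 h0
    have h3 : t' ≤ t := Prod.Lex.monotone_fst _ _ h1
    rw [abs_of_nonpos (by linarith)] at hL
    refine .inr ⟨Prod.Lex.toLex_le_toLex.2 (.inl (by simp only; linarith)),
      Prod.Lex.toLex_le_toLex.2 ((Prod.Lex.toLex_lt_toLex.1 h2).imp_right fun h4 => ⟨h4.1, ?_⟩)⟩
    cases s
    · exact absurd h4.2 (lt_irrefl _)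
    · exact le_rfl
  · have h1 : (toLex (t, s) : Mx) ≤ toLex (t', s') := hd
    have h2 : (toLex (t, s) : Mx) < toLex (E.ξ a, true) := not_le.1 h0
    have h3 : t ≤ t' := Prod.Lex.monotone_fst _ _ h1
    rw [abs_of_nonneg (by linarith)] at hL
    refine .inl ⟨Prod.Lex.toLex_le_toLex.2
      ((Prod.Lex.toLex_lt_toLex.1 h2).imp_right fun h4 => ⟨h4.1, ?_⟩),
      Prod.Lex.toLex_le_toLex.2 (.inl (by simp only; linarith))⟩
    cases s
    · exact le_rfl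
    · exact absurd h4.2 (lt_irrefl _)

theorem same_FsCore {l r : Fin 3 × O} (hlr : l.1 = r.1) (t : ℝ) :
    E.pos t r - E.pos t l = E.ξ r.2 - E.ξ l.2 := by
  simp only [pos, sp, hlr]
  ring

end Lat

namespace FSys
variable {O : Type} [AddCommGroup O] {E : Lat O} {Q P : Type} {dv dh : Q → Q → ℝ}
  {Cu : Q → Prop} {fv fh : Q → P → P → ℝ} (Y : FSys E dv dh Cu fv fh)

theorem count_FsCore {R : ℝ} (hR : 0 < R) {z r r' : Q} {ε ε' : Bool} {σ σ' : O → Bool}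
    (h : Y.St z r σ) (hd : Dir ε (Y.ux z) (Y.ux r)) (h' : Y.St z r' σ')
    (hd' : Dir ε' (Y.ux z) (Y.ux r'))
    (hK : ∀ l m : Fin 3 × O, l ≠ m → |E.pos (Y.toStp.px z) m - E.pos (Y.toStp.px z) l| ≤ R →
      E.KillFsCore (Y.ux z) (Y.ux r) σ l m ∨ E.KillFsCore (Y.ux z) (Y.ux r') σ' l m)
    (x y : P) : ∀ᶠ S in atTop, ∀ g : ℝ, 0 ≤ g → Y.sl S x y r ε - Y.sl S x y z ε ≤ g →
      Y.sl S x y r' ε' - Y.sl S x y z ε' ≤ g →
      Y.tu S x y z ≤ fv z x y / R + 6 / min (E.w 1) (E.w 2 - E.w 1) * (g + 1) := by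
  have hδ := E.δ_FsCore
  obtain ⟨T, Y0, hT⟩ := Y.box z x y
  have hX : ∀ e : (Fin 3 × O) × (Fin 3 × O), ∃ X : Finset (Fin 3 × O),
      ∀ S : Finset (Fin 3 × O), X ⊆ S → ∀ c c', Y.CH S x y z r σ c → Y.CH S x y z r' σ' c' →
      ∀ q, Pth (S : Set (Fin 3 × O)) q → 2 ≤ q.length → Pers (E.key (Y.ux z)) true c q →
        Pers (E.key (Y.ux z)) true c' q → q.head? = some e.1 → q.getLast? = some e.2 →
        R < |E.pos (Y.toStp.px z) e.2 - E.pos (Y.toStp.px z) e.1| := by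
    rintro ⟨l, m⟩
    by_cases h1 : l = m
    · exact ⟨∅, fun S _ c c' hc _ q hq h2 hp _ hl hm =>
        absurd (pers_ends hc.fch hq h2 hp hl hm).1 (by simp [h1])⟩
    rcases lt_or_ge R |E.pos (Y.toStp.px z) m - E.pos (Y.toStp.px z) l| with h2 | h2
    · exact ⟨∅, fun _ _ _ _ _ _ _ _ _ _ _ _ _ => h2⟩
    rcases hK l m h1 h2 with ⟨X, hX⟩ | ⟨X, hX⟩
    · exact ⟨X, fun S hS c c' hc _ q hq h2 hp _ hl hm =>
        (hX S hS c hc.fch hc.stat q hq h2 hp hl hm).elim⟩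
    · exact ⟨X, fun S hS c c' _ hc q hq h2 _ hp hl hm =>
        (hX S hS c' hc.fch hc.stat q hq h2 hp hl hm).elim⟩
  choose X hX using hX
  filter_upwards [hT, Y.ev z x y, Y.step_ev h hd x y, Y.step_ev h' hd' x y,
    eventually_ge_atTop ((T ×ˢ T).biUnion X)] with S hT hev ⟨c, hc, _, g1, _⟩ ⟨c', hc', _, g2, _⟩ hS
    g hg s1 s2
  have hC : 0 ≤ 6 / min (E.w 1) (E.w 2 - E.w 1) := by positivity
  have hf : 0 ≤ fv z x y := hev ▸ var_nonneg _
  by_cases h2 : 2 ≤ (Y.path z S x y).length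
  swap
  · have : Y.tu S x y z = 0 := by
      unfold tu
      generalize Y.path z S x y = p at h2
      rcases p with _ | ⟨a, _ | ⟨b, p⟩⟩
      · simp [turns]
      · simp [turns]
      · simp at h2
    rw [this]
    positivity
  obtain ⟨D, hD, hA, hlen, hend⟩ := buildT (E.key_inj (Y.ux z)) hc.pth.rd h2
  have t1 := trackT hc.fch hc.pth hD hA
  have t2 := trackT hc'.fch hc.pth hD hA
  have t3 := cnt_FsCore (fun q => Var (q.map (E.pos (Y.toStp.px z)))) (fun _ => var_nonneg _) R D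
  rw [← dec_var hD, ← hev, ← le_div_iff₀' hR] at t3
  have t4 := cnt3_FsCore (fun q => decide (¬ ∃ d, Pers (E.key (Y.ux z)) d c q))
    (fun q => decide (¬ ∃ d, Pers (E.key (Y.ux z)) d c' q))
    (fun q => decide (R < Var (q.map (E.pos (Y.toStp.px z))))) D fun q hq => by
      simp only [decide_eq_true_eq]
      by_contra hn
      simp only [not_or, not_not] at hn
      obtain ⟨⟨d, hp⟩, ⟨d', hp'⟩, hv⟩ := hn
      have q2 := hD.two q hq
      have qn : q ≠ [] := by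
        rintro rfl
        simp at q2
      have hx := List.head?_eq_some_head qn
      have hy := List.getLast?_eq_some_getLast qn
      have xT := hT.1 _ (hend q hq _ (.inl hx))
      have yT := hT.1 _ (hend q hq _ (.inr hy))
      rw [var_mono (p := q) (ρ := E.pos (Y.toStp.px z)) (hp [] c rfl) fun a _ b _ => E.key_pos _,
        extn_eq_LsBasic _ hx hy] at hv
      obtain ⟨q', l, m, a1, a2, a3, a4, a5, a6, a7⟩ := norm_FsCore hc.fch hc'.fch
        (pth_inf hc.pth (dec_inf hD hq) qn) q2 hp hp' hx hy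
      have hm : (l, m) ∈ T ×ˢ T := by
        rcases a7 with ⟨rfl, rfl⟩ | ⟨rfl, rfl⟩ <;> exact Finset.mem_product.2 ⟨by assumption,
          by assumption⟩
      have := hX (l, m) S ((Finset.subset_biUnion_of_mem X hm).trans hS) c c' hc hc' q' a1 a2 a3
        a4 a5 a6
      rcases a7 with ⟨rfl, rfl⟩ | ⟨rfl, rfl⟩
      · exact hv this
      · exact hv (this.trans_eq (abs_sub_comm _ _))
  rw [hlen, ← Nat.cast_le (α := ℝ)] at t4
  push_cast at t4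
  unfold tu
  have g3 := (le_div_iff₀' hδ).2 (g1.trans s1)
  have g4 := (le_div_iff₀' hδ).2 (g2.trans s2)
  have e : 6 / min (E.w 1) (E.w 2 - E.w 1) * (g + 1) =
      6 * (g / min (E.w 1) (E.w 2 - E.w 1)) + 6 / min (E.w 1) (E.w 2 - E.w 1) := by ring
  linarith

/-- Few turns in the middle of a long step. -/
theorem core2 : ∃ C : ℝ, 0 ≤ C ∧ ∀ R : ℝ, 0 < R → ∃ W : ℝ, ∀ (lo hi : ℝ) (z r r' : Q) (ε : Bool)
    (σ σ' : O → Bool), Y.toStp.DSt lo hi ε z r σ → Y.toStp.DSt lo hi (!ε) z r' σ' →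
    W ≤ |Y.toStp.px r - Y.toStp.px z| → W ≤ |Y.toStp.px r' - Y.toStp.px z| →
    ∀ x y : P, ∀ᶠ S in atTop, ∀ g : ℝ, 0 ≤ g → Y.sl S x y r ε - Y.sl S x y z ε ≤ g →
      Y.sl S x y r' (!ε) - Y.sl S x y z (!ε) ≤ g →
      Y.tu S x y z ≤ fv z x y / R + C * (g + 1) := by
  refine ⟨6 / min (E.w 1) (E.w 2 - E.w 1), div_nonneg (by norm_num) E.δ_FsCore.le, fun R hR => ?_⟩
  obtain ⟨W, hW⟩ := E.same_lat R
  refine ⟨max W (R / min (E.w 1) (E.w 2 - E.w 1) + 1), fun lo hi z r r' ε σ σ' h h' w w' =>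
    Y.count_FsCore hR h.st h.dir h'.st h'.dir fun l m hne hlm => ?_⟩
  by_cases h1 : l.1 = m.1
  · obtain ⟨β, a1, a2, b1, b2, b3, b4, b5, b6⟩ := hW ε _ _ lo hi σ h.dir h.thr
      ((le_max_left _ _).trans w) l m h1 hne (by rwa [Lat.same_FsCore h1] at hlm)
    exact .inl (Lat.killA_FsCore h.dir h1 b1 b2 b3 b4 b5 b6)
  obtain ⟨a, ha⟩ := E.col_ex h1
  have h2 := Lat.near_FsCore h1 ha hlm
  by_cases h3 : Dir ε (toLex (E.ξ a, ε)) (Y.ux z)
  · refine .inr (Lat.killB_FsCore h'.dir h1 ha (Lat.ahead_FsCore h'.dir h2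
      ((le_max_right _ _).trans w') fun h4 => (Lat.tf_FsCore (E.ξ a)).not_ge ?_))
    cases ε
    · exact le_trans h4 h3
    · exact le_trans h3 h4
  · exact .inl (Lat.killB_FsCore h.dir h1 ha (Lat.ahead_FsCore h.dir h2
      ((le_max_right _ _).trans w) h3))

/-- Few turns at the start of a long step unless the step runs over a prong. -/
theorem core1 : ∃ C : ℝ, 0 ≤ C ∧ ∀ R : ℝ, 0 < R → ∃ R' : ℝ, ∀ B N : ℝ, ∃ L : ℝ,
    ∀ (y0 : ℝ) (z r : Q) (ε : Bool) (σ : O → Bool), Y.toStp.DSt (y0 - B) (y0 + B) ε z r σ →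
    L ≤ |Y.toStp.px r - Y.toStp.px z| →
    (∃ a0, |E.ξ a0 - Y.toStp.px z| ≤ R' ∧ ∀ a, E.Cr (Y.ux z) (Y.ux r) a →
      |E.ξ a - Y.toStp.px z| ≤ N → (σ a = true ↔ E.η a < E.η a0)) ∨
    ∀ x y : P, ∀ᶠ S in atTop, ∀ g : ℝ, 0 ≤ g → Y.sl S x y r ε - Y.sl S x y z ε ≤ g →
      Y.tu S x y z ≤ fv z x y / R + C * (g + 1) := by
  refine ⟨6 / min (E.w 1) (E.w 2 - E.w 1), div_nonneg (by norm_num) E.δ_FsCore.le, fun R hR =>
    ⟨R / min (E.w 1) (E.w 2 - E.w 1), fun B N => ?_⟩⟩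
  obtain ⟨W, hW⟩ := E.same_lat R
  obtain ⟨L0, hL⟩ := E.sg_lat (R / min (E.w 1) (E.w 2 - E.w 1)) B N
  refine ⟨max (max W L0) (R / min (E.w 1) (E.w 2 - E.w 1) + 1), fun y0 z r ε σ h w =>
    or_iff_not_imp_left.2 fun hn x y => ?_⟩
  refine (Y.count_FsCore hR h.st h.dir h.st h.dir (fun l m hne hlm => .inl ?_) x y).mono
    fun S hS g hg h1 => hS g hg h1 h1
  by_cases h1 : l.1 = m.1
  · obtain ⟨β, a1, a2, b1, b2, b3, b4, b5, b6⟩ := hW ε _ _ _ _ σ h.dir h.thr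
      (((le_max_left _ _).trans (le_max_left _ _)).trans w) l m h1 hne
      (by rwa [Lat.same_FsCore h1] at hlm)
    exact Lat.killA_FsCore h.dir h1 b1 b2 b3 b4 b5 b6
  obtain ⟨a, ha⟩ := E.col_ex h1
  have h2 := Lat.near_FsCore h1 ha hlm
  by_cases h3 : Dir ε (toLex (E.ξ a, ε)) (Y.ux z)
  · by_contra hk
    refine hn ⟨a, h2, hL ε _ _ y0 σ a h.dir h.thr
      (((le_max_right _ _).trans (le_max_left _ _)).trans w) h2 h3 fun b b' c1 c2 c3 e => ?_⟩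
    by_contra h4
    exact hk (Lat.killC_FsCore h.dir h1 ha h3 c1 c2 c3 e h4)
  · exact Lat.killB_FsCore h.dir h1 ha (Lat.ahead_FsCore h.dir h2 ((le_max_right _ _).trans w) h3)

end FSys

end Pool.Agent.E5f

end

section

set_option autoImplicit false

namespace Pool.Agent.E5f

open Classical Filter

theorem small_FsB5u {A M : ℝ} (hA : 0 < A) (h : ∀ ε, 0 < ε → A ≤ ε * M) : False := by
  have h0 : 0 < |M| + 1 := by positivity
  have h1 := h (A / (|M| + 1)) (by positivity)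
  rw [div_mul_eq_mul_div, le_div_iff₀ h0] at h1
  have := le_abs_self M
  nlinarith

theorem num1_FsB5u {c w η s ε K t T a b m : ℝ} (hc : 0 < c) (hw : 0 < w) (hs : 0 < s)
    (hη : η * (2 * w) ≤ c) (ht : 0 < t) (hε : t ≤ ε) (hm : 0 ≤ m) (h1 : s - ε * K ≤ t * a)
    (h2 : t * b ≤ (1 + η) * s + ε * K) (h3 : a ≤ w * (T + 1)) (h4 : c * T - m ≤ b - a) :
    c * s / 2 ≤ ε * (c * K + c * w + 2 * w * K + w * m) := by
  have a1 : t * a ≤ t * (w * (T + 1)) := mul_le_mul_of_nonneg_left h3 ht.le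
  have a2 : t * (c * T - m) ≤ t * (b - a) := mul_le_mul_of_nonneg_left h4 ht.le
  have a3 : w * t ≤ w * ε := mul_le_mul_of_nonneg_left hε hw.le
  have a4 : m * t ≤ m * ε := mul_le_mul_of_nonneg_left hε hm
  have a5 : c * (s - ε * K - w * ε) ≤ c * (w * (t * T)) :=
    mul_le_mul_of_nonneg_left (by linarith) hc.le
  have a6 : w * (c * (t * T)) ≤ w * (η * s + 2 * (ε * K) + m * ε) :=
    mul_le_mul_of_nonneg_left (by linarith) hw.le
  have a7 : η * (2 * w) * s ≤ c * s := mul_le_mul_of_nonneg_right hη hs.le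
  linarith

theorem num2_FsB5u {C w η s ε K t T a f b : ℝ} (hC : 0 ≤ C) (hw : 0 < w) (hs : 0 < s)
    (hb : 0 < b) (hη : η * (4 * w * (C + 1)) ≤ 1) (hη0 : 0 < η) (ht : 0 < t) (hε : t ≤ ε)
    (h1 : s - ε * K ≤ t * a) (h3 : a ≤ w * (T + 1)) (h4 : t * f ≤ b * s + ε)
    (h5 : T ≤ f / (4 * b * w) + C * ((η * s + 2 * (ε * K)) / t + 1)) :
    s / 2 ≤ ε * (K + w + 1 / (4 * b) + w * C * (2 * K + 1)) := by
  have a1 : t * a ≤ t * (w * (T + 1)) := mul_le_mul_of_nonneg_left h3 ht.le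
  have a3 : w * t ≤ w * ε := mul_le_mul_of_nonneg_left hε hw.le
  have a2 := mul_le_mul_of_nonneg_left h5 (mul_pos hw ht).le
  have e : w * t * (f / (4 * b * w) + C * ((η * s + 2 * (ε * K)) / t + 1)) =
      t * f / (4 * b) + w * C * (η * s + 2 * (ε * K) + t) := by
    field_simp
  have a4 : t * f / (4 * b) ≤ (b * s + ε) / (4 * b) := by gcongr
  have e2 : (b * s + ε) / (4 * b) = s / 4 + ε * (1 / (4 * b)) := by field_simp
  have a5 : w * C * t ≤ w * C * ε := mul_le_mul_of_nonneg_left hε (by positivity)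
  have a6 : η * (4 * w * (C + 1)) * s ≤ 1 * s := mul_le_mul_of_nonneg_right hη hs.le
  have a7 : 0 < η * w * s := by positivity
  rw [e] at a2
  linarith

namespace FSys
variable {O : Type} [AddCommGroup O] {E : Lat O} {Q P : Type} {dv dh : Q → Q → ℝ}
  {Cu : Q → Prop} {fv fh : Q → P → P → ℝ} (Y : FSys E dv dh Cu fv fh)

include Y

theorem apx_FsB5u {F : Q → ℝ} (hF : F ∈ LimF1 fv) {lo hi : ℝ} {p1 z z' p2 : Q}
    {e1 e e' e2 : Bool} {n1 n2 : ℕ} (r1 : Y.toStp.Rt lo hi p1 e1 z e (1 / 2) n1)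
    (r2 : Y.toStp.Rt lo hi z' e' p2 e2 (1 / 2) n2) : ∃ K : ℝ, 0 ≤ K ∧
    ∀ (R : P → P → Finset (Fin 3 × O) → Prop), (∀ x y, ∀ᶠ S in atTop, R x y S) →
      ∀ ε, 0 < ε → ∃ x y S t, 0 < t ∧ t ≤ ε ∧ R x y S ∧
        2 * (F z - F p1) - ε * K ≤ t * Y.sl S x y z e ∧
        t * Y.sl S x y z' e' ≤ 2 * (F p2 - F z') + ε * K ∧
        Y.sl S x y z e ≤ E.w 2 * (Y.tu S x y z + 1) ∧ t * fv z x y ≤ F z + ε := by
  obtain ⟨c, C, -, hC, h⟩ := Y.route_ev
  have m1 : 0 ≤ (n1 : ℝ) * C := by positivity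
  have m2 : 0 ≤ (n2 : ℝ) * C := by positivity
  refine ⟨4 + n1 * C + n2 * C, by positivity, fun R hR ε hε => ?_⟩
  obtain ⟨x, y, t, t0, t1, ht⟩ := hF {p1, z, z', p2} ε hε
  obtain ⟨S, a1, a2, a3, a4⟩ := ((hR x y).and ((h _ _ _ _ _ _ _ _ r1 x y).and
    ((h _ _ _ _ _ _ _ _ r2 x y).and (Y.sl_le z e x y)))).exists
  have b1 := abs_le.1 (ht p1 (by simp))
  have b2 := abs_le.1 (ht z (by simp))
  have b3 := abs_le.1 (ht z' (by simp))
  have b4 := abs_le.1 (ht p2 (by simp))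
  have c1 := mul_le_mul_of_nonneg_left a2.2.2.1 t0.le
  have c2 := mul_le_mul_of_nonneg_left a3.2.1 t0.le
  have c3 := mul_le_mul_of_nonneg_left t1 m1
  have c4 := mul_le_mul_of_nonneg_left t1 m2
  have c5 := mul_nonneg m1 hε.le
  have c6 := mul_nonneg m2 hε.le
  exact ⟨x, y, S, t, t0, t1, a1, by linarith [b1.1, b2.1, b1.2, b2.2],
    by linarith [b3.1, b4.1, b3.2, b4.2], (le_abs_self _).trans a4, by linarith [b2.2]⟩

theorem lim_b5u (B : ℝ) : ∃ R : ℝ, ∀ N : ℝ, ∃ L η : ℝ, N ≤ L ∧ 0 < η ∧ ∀ F ∈ LimF1 fv,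
    ∀ (p0 p1 p2 p3 : Q) (s : ℝ), dv p0 p1 = 1 → dv p1 p2 = L → dv p2 p3 = 1 →
      dv p0 p2 = L + 1 → dv p1 p3 = L + 1 → dv p0 p3 = L + 2 → dh p1 p2 ≤ B → 0 < s →
      s ≤ F p1 - F p0 → F p3 - F p2 ≤ (1 + η) * s → F p1 ≤ B * s →
      ∃ c, Cu c ∧ dv c p1 ≤ R ∧ ∃ z : ℝ → Q, ∀ τ, 1 ≤ τ → τ ≤ N →
        dh (z τ) c = 0 ∧ dv p1 (z τ) = τ ∧ dv (z τ) p2 = L - τ := by
  have hw : 0 < E.w 2 := E.w1.trans E.w2
  have hP := Y.pv
  obtain ⟨B', hB, hB1⟩ : ∃ B', B ≤ B' ∧ 1 ≤ B' := ⟨max B 1, le_max_left _ _, le_max_right _ _⟩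
  obtain ⟨c, C, hc, hC, hrt⟩ := Y.route_ev
  obtain ⟨C1, hC1, h1⟩ := Y.core1
  obtain ⟨R', h2⟩ := h1 (4 * (B' + 1) * E.w 2) (by positivity)
  refine ⟨R' + 1 / 2, fun N => ?_⟩
  obtain ⟨L0, h3⟩ := h2 B' N
  obtain ⟨L, l1, l2, l3⟩ : ∃ L, L0 + 2 ≤ L ∧ N + 2 ≤ L ∧ 2 ≤ L :=
    ⟨max (max L0 N) 0 + 2, by
      have := le_max_left (max L0 N) 0
      have := le_max_right (max L0 N) 0
      have := le_max_left L0 N
      have := le_max_right L0 N
      exact ⟨by linarith, by linarith, by linarith⟩⟩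
  obtain ⟨η, e0, e1, e2, e3⟩ : ∃ η : ℝ, 0 < η ∧ η ≤ 1 ∧ η * (2 * E.w 2) ≤ c ∧
      η * (4 * E.w 2 * (C1 + 1)) ≤ 1 :=
    ⟨min 1 (min (c / (2 * E.w 2)) (1 / (4 * E.w 2 * (C1 + 1)))), by positivity, min_le_left _ _,
      (le_div_iff₀ (by positivity)).1 ((min_le_right _ _).trans (min_le_left _ _)),
      (le_div_iff₀ (by positivity)).1 ((min_le_right _ _).trans (min_le_right _ _))⟩
  refine ⟨L, η, by linarith, e0, ?_⟩
  intro F hF p0 p1 p2 p3 s d01 d12 d23 d02 d13 d03 hh hs s1 s2 s3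
  obtain ⟨ε1, ε2, n, r⟩ := Y.route p1 p2
  rw [d12] at r
  replace r := Y.rt_mono r (lo' := Y.toStp.py p1 - B') (hi' := Y.toStp.py p1 + B')
    (by linarith) (by linarith)
  obtain ⟨z, e, n1, n2, r1, r'⟩ := Y.rt_split r (s := 1 / 2) (by norm_num) (by linarith)
  obtain ⟨z', e', n3, n4, r2, r3⟩ := Y.rt_split r' (s := L - 1) (by linarith) (by linarith)
  rw [show L - 1 / 2 - (L - 1) = 1 / 2 by ring] at r3
  have a1 := Y.rt_dv r1
  have a2 := Y.rt_dv r2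
  have a3 := Y.rt_dv r3
  have t1 := hP.tri p1 z p2
  have t2 := hP.tri z z' p2
  have t3 := hP.tri p1 z z'
  have t4 := hP.tri p1 z' p2
  have t5 := hP.tri p0 z p2
  have t6 := hP.tri p0 p1 z
  have t7 := hP.tri p1 z' p3
  have t8 := hP.tri z' p2 p3
  have d1 : dv p1 z = 1 / 2 := by linarith
  have d2 : dv z p2 = L - 1 / 2 := by linarith
  have d3 : dv z' p2 = 1 / 2 := by linarith
  have d4 : dv p0 z = 3 / 2 := by linarith
  have d5 : dv z' p3 = 3 / 2 := by linarith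
  have c1 := Y.lim_cvx hF (p := p0) (q := p1) (r := z) (by linarith)
  have c2 := Y.lim_cvx hF (p := z') (q := p2) (r := p3) (by linarith)
  have c3 := Y.lim_cvx hF (p := p1) (q := z) (r := p2) (by linarith)
  have c4 := Y.lim_cvx hF (p := p1) (q := p2) (r := p3) (by linarith)
  rw [d4, d1, d01] at c1
  rw [d5, d23, d3] at c2
  rw [d12, d2, d1] at c3
  rw [d13, d23, d12] at c4
  have f1 : F z ≤ (B' + 1) * s := by
    have g1 : η * s ≤ 1 * s := mul_le_mul_of_nonneg_right e1 hs.le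
    have g2 : L * (F p3 - F p2) ≤ L * (2 * s) :=
      mul_le_mul_of_nonneg_left (by linarith) (by linarith)
    have g3 : F z - F p1 ≤ s := le_of_mul_le_mul_left (a := L) (by linarith) (by linarith)
    have g4 : B * s ≤ B' * s := mul_le_mul_of_nonneg_right hB hs.le
    linarith
  obtain ⟨K, hK, hA⟩ := Y.apx_FsB5u hF r1 r3
  rcases Nat.eq_zero_or_pos n3 with rfl | hn
  swap
  · refine (small_FsB5u (A := c * s / 2)
      (M := c * K + c * E.w 2 + 2 * E.w 2 * K + E.w 2 * (n3 * C)) (by positivity)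
      fun ε hε => ?_).elim
    obtain ⟨x, y, S, t, b1, b2, b3, b4, b5, b6, -⟩ := hA _ (hrt _ _ _ _ _ _ _ _ r2) ε hε
    exact num1_FsB5u (K := K) hc hw hs e2 b1 b2 (by positivity) (by linarith)
      (b := Y.sl S x y z' e') (by linarith) b6 (b3.2.2.2 hn)
  obtain ⟨rfl, hl, σ, hσ⟩ := Y.rt_zero r2
  rcases h3 _ _ _ _ _ hσ (by linarith) with ⟨a0, h4, h5⟩ | h4
  · obtain ⟨q, q1, q2, y, q3⟩ := Y.prong hσ h4 h5 (by linarith)
    have u1 := hP.tri q z p1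
    rw [hP.symm z p1] at u1
    refine ⟨q, q1, by linarith, fun τ => y (τ - 1 / 2), fun τ k1 k2 => ?_⟩
    obtain ⟨v1, v2, v3⟩ := q3 (τ - 1 / 2) (by linarith) (by linarith)
    have v4 := hP.tri p1 z (y (τ - 1 / 2))
    have v5 := hP.tri (y (τ - 1 / 2)) z' p2
    have v6 := hP.tri p1 (y (τ - 1 / 2)) p2
    exact ⟨v1, by linarith, by linarith⟩
  · refine (small_FsB5u (A := s / 2)
      (M := K + E.w 2 + 1 / (4 * (B' + 1)) + E.w 2 * C1 * (2 * K + 1)) (by positivity)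
      fun ε hε => ?_).elim
    obtain ⟨x, y, S, t, b1, b2, b3, b4, b5, b6, b7⟩ := hA _ h4 ε hε
    refine num2_FsB5u (K := K) (b := B' + 1) (f := fv z x y) hC1 hw hs (by linarith) e3 e0 b1 b2
      (by linarith) b6 (by linarith) (b3 _ (by positivity) ?_)
    rw [le_div_iff₀ b1]
    linarith

end FSys

end Pool.Agent.E5f

end
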