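import Pool.Agent.Mg.S03381.G224cd9
import Pool.Agent.Mg.S03381.G7cdb90

section

/-! Definitions and elementary facts for the combination theorem. -/

set_option autoImplicit false

namespace Pool.Agent.E5f.Cb

section GP
variable {X : Type} {d : X → X → ℝ}

theorem pm_nonneg (h : PM d) (x y : X) : 0 ≤ d x y := by
  have h1 := h.tri x y x
  rw [h.self, h.symm y x] at h1
  linarith

theorem cgp_symm (h : PM d) (w x y : X) : gp d w x y = gp d w y x := by
  unfold gp; rw [h.symm y x]; ring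

theorem cgp_nonneg (h : PM d) (w x y : X) : 0 ≤ gp d w x y := by
  have := h.tri x w y
  rw [h.symm w y] at this
  unfold gp; linarith

theorem cgp_le_left (h : PM d) (w x y : X) : gp d w x y ≤ d w x := by
  have := h.tri y x w
  rw [h.symm y x] at this
  unfold gp; rw [h.symm w x]; linarith

theorem cgp_le_right (h : PM d) (w x y : X) : gp d w x y ≤ d w y := by
  rw [cgp_symm h]; exact cgp_le_left h w y x

/-- `(x|y)_w + (w|y)_x = d(w,x)`. -/
theorem cgp_add (h : PM d) (w x y : X) : gp d w x y + gp d x w y = d w x := by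
  unfold gp; rw [h.symm x w, h.symm y w, h.symm y x]; ring

theorem cgp_self (h : PM d) (w y : X) : gp d w w y = 0 := by
  unfold gp; rw [h.self, h.symm y w]; ring

theorem cgp_base (h : PM d) (w w' x y : X) : gp d w' x y ≤ gp d w x y + d w w' := by
  have h1 := h.tri x w w'
  have h2 := h.tri y w w'
  unfold gp; linarith

theorem cgp_left (h : PM d) (w x x' y : X) : gp d w x' y ≤ gp d w x y + d x x' := by
  have h1 := h.tri x' x w
  have h2 := h.tri x x' y
  rw [h.symm x' x] at h1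
  unfold gp; linarith

theorem hyp_nonneg {δ : ℝ} (h : Hyp d δ) (x : X) : 0 ≤ δ := by
  have := h x x x x
  rw [min_self] at this
  linarith

/-- A point at a prescribed distance from `s` on the way to `x`. -/
theorem rg_pt {κ : ℝ} (h : PM d) (hr : RG d κ) (s x : X) {σ : ℝ} (h0 : 0 ≤ σ) (h1 : σ ≤ d s x) :
    ∃ u, σ - κ ≤ d s u ∧ d s u ≤ σ + κ ∧ σ - κ ≤ gp d s u x ∧ gp d s u x ≤ σ + κ ∧
      gp d u s x ≤ κ := by
  obtain ⟨u, a, b⟩ := hr s x σ h0 h1
  rw [abs_le] at a b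
  refine ⟨u, by linarith, by linarith, ?_, ?_, ?_⟩ <;> unfold gp
  · rw [h.symm u s, h.symm x s]; linarith
  · rw [h.symm u s, h.symm x s]; linarith
  · rw [h.symm x u]; linarith

end GP

variable {P B : Type}

/-- Betweenness in a graph. -/
def Bt (G : SimpleGraph B) (a b c : B) : Prop := gd G a b + gd G b c = gd G a c

/-- `q` is a point of `U` nearest to `p`. -/
def Nst (G : SimpleGraph B) (U : B → Prop) (p q : B) : Prop :=
  U q ∧ ∀ b, U b → gd G p q ≤ gd G p b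

/-- Flaring functions. -/
structure Fl (G : SimpleGraph B) (K CL : ℝ) (n : ℕ) (M1 : ℝ) (ψ : B → ℝ) : Prop where
  lip : ∀ b b', G.Adj b b' → ψ b' ≤ K * ψ b + CL
  fl : ∀ a b c, gd G a b = n → gd G b c = n → gd G a c = 2 * n → M1 < ψ b →
    3 / 2 * ψ b ≤ max (ψ a) (ψ c)

/-- Standing assumptions for flaring functions. -/
structure FlCx (G : SimpleGraph B) (δ K CL : ℝ) (n : ℕ) (M1 : ℝ) : Prop where
  conn : G.Connected
  hyp : Hyp (gd G) δ
  K1 : 1 ≤ K
  CL0 : 0 ≤ CL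
  n1 : 1 ≤ n
  M1pos : 0 < M1

/-- Sections. -/
def Sec (G : SimpleGraph B) (D : B → P → P → ℝ) (k : ℝ) (s : B → P) : Prop :=
  ∀ b b', G.Adj b b' → D b' (s b) (s b') ≤ k

/-- The product `(t b | x)` at `s b` in the fibre over `b`. -/
noncomputable def phi (D : B → P → P → ℝ) (s : B → P) (x : P) (t : B → P) (b : B) : ℝ :=
  gp (D b) (s b) (t b) x

/-- The core of a section and a point. -/
def Core (G : SimpleGraph B) (D : B → P → P → ℝ) (k M1 R : ℝ) (s : B → P) (x : P) (b : B) :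
    Prop :=
  ∀ t, Sec G D k t → (∃ b', phi D s x t b' ≤ M1) → phi D s x t b ≤ R

/-- All constants of the proof. -/
structure Cx (G : SimpleGraph B) (D : B → P → P → ℝ) where
  δ : ℝ
  κ : ℝ
  K : ℝ
  n : ℕ
  M : ℝ
  h : CombHyp G D δ κ K n M
  c0 : ℝ
  k0 : ℝ
  CL : ℝ
  M1 : ℝ
  R : ℝ
  c00 : 0 ≤ c0
  k00 : 0 ≤ k0
  fc : FlCx G δ K CL n M1
  ctr : ∀ x y z, ∃ m, Sec G D k0 m ∧ ∀ b, gp (D b) (m b) x y ≤ c0 ∧ gp (D b) (m b) y z ≤ c0 ∧
    gp (D b) (m b) x z ≤ c0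
  fl2 : ∀ s t t' x, Sec G D k0 s → Sec G D k0 t → Sec G D k0 t' →
    Fl G K CL n M1 fun b => min (phi D s x t b) (phi D s x t' b)
  MR : M1 ≤ R
  core : ∀ s x, Sec G D k0 s → ∃ b, Core G D k0 M1 R s x b

variable {G : SimpleGraph B} {D : B → P → P → ℝ}

namespace Cx

/-- Sections. -/
def S (c : Cx G D) (s : B → P) : Prop := Sec G D c.k0 s

/-- Flaring functions. -/
def F (c : Cx G D) (ψ : B → ℝ) : Prop := Fl G c.K c.CL c.n c.M1 ψ

/-- The core. -/
def Co (c : Cx G D) (s : B → P) (x : P) (b : B) : Prop := Core G D c.k0 c.M1 c.R s x b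

/-- `a` is a projection of `X` to the core. -/
def Pr (c : Cx G D) (s : B → P) (X : P × B) (a : B) : Prop := Nst G (c.Co s X.1) X.2 a

/-- The guessed geodesics. -/
def Ls (c : Cx G D) (X Y : P × B) : Set (P × B) :=
  {W | ∃ s a e, c.S s ∧ (∀ b, gp (D b) (s b) X.1 Y.1 ≤ c.c0) ∧ c.Pr s X a ∧ c.Pr s Y e ∧
    Bt G a W.2 e ∧ W.1 = s W.2}

theorem pmB (c : Cx G D) : PM (gd G) := gd_pm c.h.conn

theorem δ0 (c : Cx G D) : 0 ≤ c.δ := hyp_nonneg c.h.hypB c.h.conn.nonempty.some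

theorem const (c : Cx G D) (u : P) : c.S fun _ => u := fun _ b' _ => by
  rw [(c.h.pm b').self]; exact c.k00

theorem fl1 (c : Cx G D) {s t : B → P} (x : P) (hs : c.S s) (ht : c.S t) :
    c.F (phi D s x t) := by
  have := c.fl2 s t t x hs ht ht
  simp only [min_self] at this
  exact this

end Cx

end Pool.Agent.E5f.Cb

end

section

/-! Geometry of the base graph. -/

set_option autoImplicit false

namespace Pool.Agent.E5f.Cb

variable {B : Type} {G : SimpleGraph B} {δ : ℝ}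

theorem Bt.symm (hG : G.Connected) {a b c : B} (h : Bt G a b c) : Bt G c b a := by
  have pm := gd_pm hG
  unfold Bt at *
  linarith [pm.symm a b, pm.symm b c, pm.symm a c]

theorem Bt.gp_zero (hG : G.Connected) {a b c : B} (h : Bt G a b c) : gp (gd G) b a c = 0 := by
  have pm := gd_pm hG
  unfold Bt at h
  unfold gp
  linarith [pm.symm b c]

/-- `a, v, b, c`: a point between `a` and `b` is between `a` and `c`. -/
theorem Bt.left (hG : G.Connected) {a v b c : B} (h : Bt G a b c) (h' : Bt G a v b) :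
    Bt G a v c ∧ Bt G v b c := by
  have pm := gd_pm hG
  unfold Bt at *
  constructor <;> linarith [pm.tri a v c, pm.tri v b c]

/-- `a, b, v, c`. -/
theorem Bt.right (hG : G.Connected) {a v b c : B} (h : Bt G a b c) (h' : Bt G b v c) :
    Bt G a v c ∧ Bt G a b v := by
  have pm := gd_pm hG
  unfold Bt at *
  constructor <;> linarith [pm.tri a v c, pm.tri a b v]

theorem gd_eq_zero (hG : G.Connected) {a b : B} (h : gd G a b ≤ 0) : a = b := by
  have h1 : G.dist a b = 0 := by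
    unfold gd at h
    exact_mod_cast le_antisymm h (Nat.cast_nonneg _)
  exact hG.dist_eq_zero_iff.1 h1

/-- A point at a given integer distance on a geodesic. -/
theorem bt_pt (hG : G.Connected) (a c : B) (k : ℕ) (hk : (k : ℝ) ≤ gd G a c) :
    ∃ b, Bt G a b c ∧ gd G a b = k := by
  obtain ⟨γ, e0, e1, e2, -⟩ := gseg_ex hG a c
  obtain ⟨e3, e4⟩ := btw_HypGuess e0 e1 e2 (k := k) (Nat.cast_le.1 hk)
  exact ⟨_, e4, e3⟩

/-- A geodesic segment through three points. -/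
theorem gseg_three (hG : G.Connected) {a b c : B} (h : Bt G a b c) :
    ∃ γ : ℕ → B, γ 0 = a ∧ γ (G.dist a b) = b ∧ γ (G.dist a c) = c ∧ GSeg G γ (G.dist a c) := by
  have pm := gd_pm hG
  obtain ⟨g1, a0, a1, a2, -⟩ := gseg_ex hG a b
  obtain ⟨g2, b0, b1, b2, -⟩ := gseg_ex hG b c
  have hd : G.dist a b + G.dist b c = G.dist a c := by
    unfold Bt gd at h
    exact_mod_cast h
  have key : ∀ i j : ℕ, i ≤ j → j ≤ G.dist a c →
      gd G (if i ≤ G.dist a b then g1 i else g2 (i - G.dist a b))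
        (if j ≤ G.dist a b then g1 j else g2 (j - G.dist a b)) = |(i : ℝ) - j| := by
    intro i j hij hj
    by_cases h1 : j ≤ G.dist a b
    · rw [if_pos h1, if_pos (hij.trans h1)]
      exact a2 i j (hij.trans h1) h1
    have h2 : G.dist a b ≤ j := (not_le.1 h1).le
    rw [if_neg h1]
    by_cases h3 : i ≤ G.dist a b
    · obtain ⟨e1, e2⟩ := btw_HypGuess a0 a1 a2 h3
      obtain ⟨e3, e4⟩ := btw_HypGuess b0 b1 b2 (k := j - G.dist a b) (by omega)
      rw [Nat.cast_sub h2] at e3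
      rw [if_pos h3, abs_sub_comm, abs_of_nonneg (sub_nonneg.2 (Nat.cast_le.2 hij))]
      have e5 : gd G a b = G.dist a b := rfl
      unfold Bt at h
      linarith [pm.tri (g1 i) b (g2 (j - G.dist a b)), pm.tri a (g1 i) c,
        pm.tri (g1 i) (g2 (j - G.dist a b)) c]
    · rw [if_neg h3, b2 _ _ (by omega) (by omega), Nat.cast_sub h2, Nat.cast_sub (not_le.1 h3).le,
        sub_sub_sub_cancel_right]
  refine ⟨fun i => if i ≤ G.dist a b then g1 i else g2 (i - G.dist a b),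
    (if_pos (Nat.zero_le _)).trans a0, (if_pos le_rfl).trans a1, ?_, fun i j hi hj => ?_⟩
  · beta_reduce
    by_cases h1 : G.dist a c ≤ G.dist a b
    · have h2 : G.dist b c = 0 := by omega
      rw [if_pos h1, ← hd, h2, add_zero, a1]
      exact hG.dist_eq_zero_iff.1 h2
    · rw [if_neg h1, ← hd, Nat.add_sub_cancel_left, b1]
  · rcases le_total i j with h1 | h1
    · exact key i j h1 hj
    · rw [pm.symm, abs_sub_comm]
      exact key j i h1 hi

/-- Induction along a geodesic. -/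
theorem dist_ind (hG : G.Connected) (b : B) (p : ℕ → B → Prop) (h0 : ∀ m, p m b)
    (hs : ∀ m b' b'', p m b' → G.Adj b' b'' → p (m + 1) b'') (m : ℕ) (b' : B)
    (h : gd G b b' ≤ m) : p m b' := by
  obtain ⟨γ, e0, e1, -, e2⟩ := gseg_ex hG b b'
  have h1 : G.dist b b' ≤ m := Nat.cast_le.1 h
  have key : ∀ i, i ≤ G.dist b b' → p (m - G.dist b b' + i) (γ i) := by
    intro i
    induction i with
    | zero => exact fun _ => by rw [e0]; exact h0 _
    | succ i ih => exact fun hi => hs _ _ _ (ih (by omega)) (e2 i hi)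
  have h2 := key _ le_rfl
  rwa [Nat.sub_add_cancel h1, e1] at h2

theorem nst_ex (hG : G.Connected) {U : B → Prop} (hU : ∃ b, U b) (p : B) : ∃ q, Nst G U p q := by
  obtain ⟨q, hq, h⟩ := (measure fun b => G.dist p b).wf.has_min {b | U b} hU
  exact ⟨q, hq, fun b hb => Nat.cast_le.2 (not_lt.1 (h b hb))⟩

/-- A point with small product is near a geodesic. -/
theorem near_geo (hG : G.Connected) (hh : Hyp (gd G) δ) (a c q : B) :
    ∃ y, Bt G a y c ∧ gd G q y ≤ gp (gd G) q a c + 1 + 2 * δ := by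
  have pm := gd_pm hG
  obtain ⟨y, e1, e2, e3⟩ := pt_HypGuess hG a c (cgp_nonneg pm a q c) (cgp_le_right pm a q c)
  refine ⟨y, e1, ?_⟩
  have h1 : gp (gd G) a y c = gd G a y := by
    unfold gp
    linarith [pm.symm y a, pm.symm c a]
  have h2 := hh a y c q
  rw [h1, cgp_symm pm a c q, min_eq_left e3] at h2
  have h3 := cgp_add pm a q c
  unfold gp at h2
  linarith [pm.symm y a, pm.symm q a, pm.symm y q]

/-- Fellow travelling. -/
theorem fellow (hG : G.Connected) (hh : Hyp (gd G) δ) {q p z y y' : B} (h1 : Bt G q y z)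
    (h2 : Bt G q y' p) (h3 : gd G q y = gd G q y') (h4 : gd G q y ≤ gp (gd G) q p z) :
    gd G y y' ≤ 4 * δ := by
  have pm := gd_pm hG
  have hδ := hyp_nonneg hh q
  unfold Bt at h1 h2
  have e1 : gp (gd G) q y z = gd G q y := by
    unfold gp
    linarith [pm.symm y q, pm.symm z q]
  have e2 : gp (gd G) q p y' = gd G q y := by
    unfold gp
    linarith [pm.symm y' q, pm.symm p q, pm.symm p y']
  have e3 := hh q y z p
  rw [e1, cgp_symm pm q z p, min_eq_left h4] at e3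
  have e4 := hh q y p y'
  have e5 : gd G q y - δ ≤ min (gp (gd G) q y p) (gp (gd G) q p y') :=
    le_min e3 (by linarith)
  have e6 : gp (gd G) q y y' = (gd G y q + gd G y' q - gd G y y') / 2 := rfl
  linarith [pm.symm y q, pm.symm y' q]

end Pool.Agent.E5f.Cb

end

section

/-! Flaring functions. -/

set_option autoImplicit false

namespace Pool.Agent.E5f.Cb

variable {B : Type} {G : SimpleGraph B} {δ K CL M1 : ℝ} {n : ℕ}

theorem fl_lm (c : FlCx G δ K CL n M1) (R m : ℝ) : ∃ R', R ≤ R' ∧ ∀ ψ, Fl G K CL n M1 ψ →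
    ∀ b b', gd G b b' ≤ m → ψ b ≤ R → ψ b' ≤ R' := by
  have hK := c.K1
  have hC := c.CL0
  have h1 : ∀ k : ℕ, max R 0 ≤ (fun x => K * x + CL)^[k] (max R 0) := by
    intro k
    induction k with
    | zero => exact le_rfl
    | succ k ih =>
      rw [Function.iterate_succ_apply']
      have := le_max_right R 0
      nlinarith
  refine ⟨(fun x => K * x + CL)^[⌈m⌉₊] (max R 0), (le_max_left _ _).trans (h1 _),
    fun ψ hψ b b' hb hR => ?_⟩
  refine dist_ind c.conn b (fun k v => ψ v ≤ (fun x => K * x + CL)^[k] (max R 0))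
    (fun k => hR.trans ((le_max_left _ _).trans (h1 k))) (fun k v w hv hvw => ?_) _ b'
    (hb.trans (Nat.le_ceil m))
  rw [Function.iterate_succ_apply']
  have := hψ.lip v w hvw
  nlinarith

theorem step_CombFl (c : FlCx G δ K CL n M1) {ψ : B → ℝ} (hψ : Fl G K CL n M1 ψ) {a b e : B}
    (h : Bt G a b e) (hab : gd G a b = n) (hb : M1 < ψ b) (ha : ψ a < 3 / 2 * ψ b) (j : ℕ) :
    (j : ℝ) * n ≤ gd G b e → ∃ a2 b2, Bt G a2 b2 e ∧ gd G a2 b2 = n ∧
      gd G b2 e = gd G b e - j * n ∧ (3 / 2) ^ j * ψ b ≤ ψ b2 ∧ ψ a2 < 3 / 2 * ψ b2 := by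
  have hM := c.M1pos
  induction j with
  | zero => exact fun _ => ⟨a, b, h, hab, by simp, by simp, ha⟩
  | succ j ih =>
    intro hj
    have hn : (0 : ℝ) ≤ n := Nat.cast_nonneg n
    push_cast at hj ⊢
    obtain ⟨a2, b2, h1, h2, h3, h4, h5⟩ := ih (by linarith)
    obtain ⟨b3, h6, h7⟩ := bt_pt c.conn b2 e n (by linarith)
    have h8 : gd G a2 b2 + gd G b2 b3 = gd G a2 b3 := (h1.right c.conn h6).2
    have h9 : (1 : ℝ) ≤ (3 / 2) ^ j := one_le_pow₀ (by norm_num)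
    have h10 : M1 < ψ b2 := by nlinarith
    have h11 : 3 / 2 * ψ b2 ≤ ψ b3 :=
      (le_max_iff.1 (hψ.fl a2 b2 b3 h2 h7 (by linarith) h10)).resolve_left (not_le.2 h5)
    have h12 : gd G b2 b3 + gd G b3 e = gd G b2 e := h6
    refine ⟨b2, b3, h6, h7, by linarith, ?_, by linarith⟩
    rw [pow_succ]
    linarith

theorem fl_gro (c : FlCx G δ K CL n M1) (R : ℝ) : ∃ N : ℝ, ∀ ψ, Fl G K CL n M1 ψ →
    ∀ a b e, Bt G a b e → gd G a b = n → N ≤ gd G b e → M1 < ψ b → ψ a < 3 / 2 * ψ b →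
      R < ψ e := by
  have hM := c.M1pos
  have hn : 0 < n := c.n1
  obtain ⟨R2, -, hR2⟩ := fl_lm c R n
  obtain ⟨J, hJ⟩ := pow_unbounded_of_one_lt (R2 / M1) (by norm_num : (1 : ℝ) < 3 / 2)
  rw [div_lt_iff₀ hM] at hJ
  refine ⟨(J * n : ℕ), fun ψ hψ a b e h hab hN hb ha => ?_⟩
  by_contra hR
  rw [not_lt] at hR
  have h1 : J ≤ G.dist b e / n := (Nat.le_div_iff_mul_le hn).2 (by
    unfold gd at hN
    exact_mod_cast hN)
  have h2 : ((G.dist b e / n : ℕ) : ℝ) * n ≤ gd G b e := by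
    unfold gd
    exact_mod_cast Nat.div_mul_le_self _ _
  have h3 : gd G b e < ((G.dist b e / n : ℕ) : ℝ) * n + n := by
    unfold gd
    exact_mod_cast Nat.lt_div_mul_add hn
  obtain ⟨a2, b2, -, -, h4, h5, -⟩ := step_CombFl c hψ h hab hb ha _ h2
  have h6 := hR2 ψ hψ e b2 (by rw [(gd_pm c.conn).symm]; linarith) hR
  have h7 : ((3 : ℝ) / 2) ^ J ≤ (3 / 2) ^ (G.dist b e / n) := pow_le_pow_right₀ (by norm_num) h1
  have h8 : (0 : ℝ) < (3 / 2) ^ J := by positivity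
  nlinarith

theorem mid_CombFl (c : FlCx G δ K CL n M1) (R : ℝ) : ∃ N : ℝ, ∀ ψ, Fl G K CL n M1 ψ →
    ∀ a b e, Bt G a b e → N ≤ gd G a b → N ≤ gd G b e → M1 < ψ b → R < ψ a ∨ R < ψ e := by
  have hM := c.M1pos
  have hP := gd_pm c.conn
  obtain ⟨N, hN⟩ := fl_gro c R
  refine ⟨max N 0 + n, fun ψ hψ a b e h ha he hb => ?_⟩
  have h1 := le_max_left N 0
  have h2 := le_max_right N 0
  rw [hP.symm] at ha
  obtain ⟨e1, h3, h4⟩ := bt_pt c.conn b e n (by linarith)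
  obtain ⟨a1, h5, h6⟩ := bt_pt c.conn b a n (by linarith)
  have h7 : gd G a1 b + gd G b e1 = gd G a1 e1 :=
    ((h.right c.conn h3).2.left c.conn (h5.symm c.conn)).2
  have h8 : gd G a1 b = n := by rw [hP.symm, h6]
  have h9 : gd G b e1 + gd G e1 e = gd G b e := h3
  have h10 : gd G b a1 + gd G a1 a = gd G b a := h5
  rcases le_max_iff.1 (hψ.fl a1 b e1 h8 h4 (by linarith) hb) with h11 | h11
  · exact Or.inl (hN ψ hψ b a1 a h5 h6 (by linarith) (by linarith) (by linarith))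
  · exact Or.inr (hN ψ hψ b e1 e h3 h4 (by linarith) (by linarith) (by linarith))

theorem fl_q (c : FlCx G δ K CL n M1) (R : ℝ) : ∃ Q, R ≤ Q ∧ M1 ≤ Q ∧ ∀ ψ, Fl G K CL n M1 ψ →
    ∀ a b e, Bt G a b e → ψ a ≤ R → ψ e ≤ R → ψ b ≤ Q := by
  obtain ⟨N, hN⟩ := mid_CombFl c R
  obtain ⟨R', h1, h2⟩ := fl_lm c R N
  refine ⟨max M1 R', h1.trans (le_max_right _ _), le_max_left _ _,
    fun ψ hψ a b e h ha he => ?_⟩
  by_contra hb
  rw [not_le, max_lt_iff] at hb
  have h3 : N ≤ gd G a b := by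
    by_contra h3
    exact absurd (h2 ψ hψ a b (not_le.1 h3).le ha) (not_le.2 hb.2)
  have h4 : N ≤ gd G b e := by
    by_contra h4
    rw [(gd_pm c.conn).symm] at h4
    exact absurd (h2 ψ hψ e b (not_le.1 h4).le he) (not_le.2 hb.2)
  rcases hN ψ hψ a b e h h3 h4 hb.1 with h5 | h5 <;> linarith

theorem fl_bd (c : FlCx G δ K CL n M1) (R : ℝ) : ∃ N : ℝ, ∀ ψ, Fl G K CL n M1 ψ →
    ∀ a e, ψ a ≤ R → ψ e ≤ R → (∀ b, Bt G a b e → M1 < ψ b) → gd G a e ≤ N := by
  obtain ⟨N, hN⟩ := mid_CombFl c R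
  refine ⟨2 * (⌈N⌉₊ : ℝ), fun ψ hψ a e ha he h => ?_⟩
  by_contra h1
  rw [not_le] at h1
  have h2 := Nat.le_ceil N
  have h3 : (0 : ℝ) ≤ (⌈N⌉₊ : ℝ) := Nat.cast_nonneg _
  obtain ⟨b, h4, h5⟩ := bt_pt c.conn a e ⌈N⌉₊ (by linarith)
  have h6 : gd G a b + gd G b e = gd G a e := h4
  rcases hN ψ hψ a b e h4 (by linarith) (by linarith) (h b h4) with h7 | h7 <;> linarith

end Pool.Agent.E5f.Cb

end

section

/-! Nearest points of sublevel sets, suprema, the Helly property. -/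

set_option autoImplicit false

namespace Pool.Agent.E5f.Cb

variable {B : Type} {G : SimpleGraph B} {δ K CL M1 : ℝ} {n : ℕ}

theorem fl_near (c : FlCx G δ K CL n M1) (R' : ℝ) : ∃ N : ℝ, ∀ ψ, Fl G K CL n M1 ψ →
    ∀ R p q, M1 ≤ R → R ≤ R' → ψ p ≤ R' → Nst G (fun b => ψ b ≤ R) p q → gd G p q ≤ N := by
  obtain ⟨R1, h1, h2⟩ := fl_lm c R' 1
  obtain ⟨N, hN⟩ := fl_bd c R1
  have pm := gd_pm c.conn
  refine ⟨|N| + 1, fun ψ hψ R p q e1 e2 e3 e4 => ?_⟩
  rcases le_total (gd G q p) 1 with h | h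
  · linarith [abs_nonneg N, pm.symm p q]
  obtain ⟨q1, e5, e6⟩ := bt_pt c.conn q p 1 (by exact_mod_cast h)
  rw [Nat.cast_one] at e6
  unfold Bt at e5
  have := hN ψ hψ p q1 (e3.trans h1) (h2 ψ hψ q q1 e6.le (e4.1.trans e2)) fun b hb =>
    e1.trans_lt (not_le.1 fun h3 => by
      unfold Bt at hb
      linarith [e4.2 b h3, pm_nonneg pm b q1, pm.symm p q, pm.symm p q1])
  linarith [le_abs_self N, pm.symm p q, pm.symm p q1]

theorem fl_np (c : FlCx G δ K CL n M1) (R' : ℝ) : ∃ C : ℝ, ∀ ψ, Fl G K CL n M1 ψ →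
    ∀ R p q z, M1 ≤ R → R ≤ R' → ψ z ≤ R' → Nst G (fun b => ψ b ≤ R) p q →
      gp (gd G) q p z ≤ C := by
  obtain ⟨Q, h1, -, h2⟩ := fl_q c R'
  obtain ⟨R1, h3, h4⟩ := fl_lm c Q (4 * δ)
  obtain ⟨N, hN⟩ := fl_near c R1
  have pm := gd_pm c.conn
  refine ⟨N + 1, fun ψ hψ R p q z e1 e2 e3 e4 => ?_⟩
  have h5 := Nat.floor_le (cgp_nonneg pm q p z)
  obtain ⟨y, e5, e6⟩ := bt_pt c.conn q z _ (h5.trans (cgp_le_right pm q p z))
  obtain ⟨y1, e7, e8⟩ := bt_pt c.conn q p _ (h5.trans (cgp_le_left pm q p z))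
  have := hN ψ hψ R y1 q e1 (e2.trans (h1.trans h3))
    (h4 ψ hψ y y1 (fellow c.conn c.hyp e5 e7 (e6.trans e8.symm) (e6 ▸ h5))
      (h2 ψ hψ q y z e5 (e4.1.trans e2) e3)) ⟨e4.1, fun b hb => by
      unfold Bt at e7
      linarith [e4.2 b hb, pm.tri p y1 b, pm.symm p q, pm.symm p y1, pm.symm q y1]⟩
  linarith [Nat.lt_floor_add_one (gp (gd G) q p z), pm.symm q y1]

theorem fl_sup (c : FlCx G δ K CL n M1) {T : Type} [Nonempty T] (Φ : T → B → ℝ)
    (hΦ : ∀ t, Fl G K CL n M1 (Φ t)) (hb : ∀ b, BddAbove (Set.range fun t => Φ t b)) :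
    Fl G K CL n M1 fun b => ⨆ t, Φ t b := by
  have hK : 0 ≤ K := zero_le_one.trans c.K1
  refine ⟨fun b b' h => ciSup_le fun t => ((hΦ t).lip b b' h).trans ?_,
    fun a b e h1 h2 h3 h4 => ?_⟩
  · gcongr
    exact le_ciSup (hb b) t
  by_contra h5
  obtain ⟨t, ht⟩ := exists_lt_of_lt_ciSup (max_lt h4
    (show 2 / 3 * max (⨆ t, Φ t a) (⨆ t, Φ t e) < ⨆ t, Φ t b by linarith))
  rw [max_lt_iff] at ht
  linarith [((hΦ t).fl a b e h1 h2 h3 ht.1).trans
    (max_le_max (le_ciSup (hb a) t) (le_ciSup (hb e) t)), ht.2]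

theorem fl_helly (c : FlCx G δ K CL n M1) : ∃ R : ℝ, ∀ (T : Type) [Nonempty T] (Φ : T → B → ℝ),
    (∀ t t', Fl G K CL n M1 fun b => min (Φ t b) (Φ t' b)) → (∀ t, ∃ b, Φ t b ≤ M1) →
    (∀ b, ∃ A, ∀ t, Φ t b ≤ A) → ∃ q, ∀ t, Φ t q ≤ R := by
  obtain ⟨Q, -, h1, h2⟩ := fl_q c M1
  obtain ⟨R1, h3, h4⟩ := fl_lm c Q 1
  obtain ⟨C, hC⟩ := fl_np c R1
  obtain ⟨Q1, -, -, h5⟩ := fl_q c R1
  obtain ⟨R, -, h6⟩ := fl_lm c Q1 (2 * C + δ + 1 + 2 * δ)
  have pm := gd_pm c.conn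
  refine ⟨R, fun T _ Φ hΦ hM hA => ?_⟩
  have hF : ∀ t, Fl G K CL n M1 (Φ t) := fun t => by simpa only [min_self] using hΦ t t
  have pair : ∀ t t', ∃ z, Φ t z ≤ R1 ∧ Φ t' z ≤ R1 := fun t t' => by
    obtain ⟨b, e1⟩ := hM t
    obtain ⟨b', e2⟩ := hM t'
    obtain ⟨q, ⟨e3, e4⟩, e5⟩ := nst_ex (U := fun v => Bt G b v b' ∧ Φ t v ≤ Q) c.conn
      ⟨b, by rw [Bt, pm.self, zero_add], e1.trans h1⟩ b'
    rcases le_total (gd G q b') 1 with h | h
    · exact ⟨b', h4 _ (hF t) q b' h e4, e2.trans (h1.trans h3)⟩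
    obtain ⟨q1, e6, e7⟩ := bt_pt c.conn q b' 1 (by exact_mod_cast h)
    rw [Nat.cast_one] at e7
    have e8 := (e3.right c.conn e6).1
    refine ⟨q1, h4 _ (hF t) q q1 e7.le e4, ((min_le_iff.1 (h2 _ (hΦ t t') b q1 b' e8
      ((min_le_left _ _).trans e1) ((min_le_right _ _).trans e2))).resolve_left
      fun e9 => ?_).trans h3⟩
    unfold Bt at e6
    linarith [e5 q1 ⟨e8, e9⟩, pm.symm q b', pm.symm q1 b']
  obtain ⟨p⟩ := c.conn.nonempty
  choose q hq using fun t => nst_ex (U := fun b => Φ t b ≤ R1) c.conn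
    ((hM t).imp fun b e => e.trans (h1.trans h3)) p
  obtain ⟨A, hA⟩ := hA p
  obtain ⟨N, hN⟩ := fl_near c (max A R1)
  have hB : BddAbove (Set.range fun t => G.dist p (q t)) := ⟨⌈N⌉₊, by
    rintro _ ⟨t, rfl⟩
    exact Nat.cast_le.1 ((hN _ (hF t) R1 p _ (h1.trans h3) (le_max_right _ _)
      ((hA t).trans (le_max_left _ _)) (hq t)).trans (Nat.le_ceil N))⟩
  obtain ⟨t0, h0⟩ := Nat.sSup_mem (Set.range_nonempty _) hB
  refine ⟨q t0, fun t => ?_⟩
  have e0 : gd G p (q t) ≤ gd G p (q t0) := Nat.cast_le.2 ((le_csSup hB ⟨t, rfl⟩).trans h0.ge)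
  obtain ⟨z, e1, e2⟩ := pair t0 t
  have e3 := hC _ (hF t0) R1 p _ z (h1.trans h3) le_rfl e1 (hq t0)
  have e4 := hC _ (hF t) R1 p _ z (h1.trans h3) le_rfl e2 (hq t)
  have e5 : gd G p (q t) - C ≤ min (gp (gd G) p (q t0) z) (gp (gd G) p z (q t)) :=
    le_min (by linarith [cgp_add pm p (q t0) z, cgp_add pm (q t0) p z, pm.symm p (q t0)])
      (by linarith [cgp_symm pm p z (q t), cgp_add pm (q t) p z, pm.symm p (q t)])
  have e6 := c.hyp p (q t0) z (q t)
  obtain ⟨y, e7, e8⟩ := near_geo c.conn c.hyp (q t) z (q t0)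
  refine h6 _ (hF t) y _ ?_ (h5 _ (hF t) _ y z e7 (hq t).1 e2)
  replace e6 := (sub_le_sub_right e5 δ).trans e6
  unfold gp at e3 e6 e8
  linarith [pm.symm y (q t0), pm.symm p (q t0), pm.symm p (q t), pm.symm (q t) (q t0),
    pm.tri p (q t) z]

end Pool.Agent.E5f.Cb

end

section

/-! Sections and the choice of the constants. -/

set_option autoImplicit false

namespace Pool.Agent.E5f.Cb

variable {P B : Type} {G : SimpleGraph B} {D : B → P → P → ℝ} {δ κ K M : ℝ} {n : ℕ}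

theorem lip_m (h : CombHyp G D δ κ K n M) (m : ℝ) : ∃ K', 1 ≤ K' ∧ ∀ b b', gd G b b' ≤ m →
    ∀ x y, D b' x y ≤ K' * D b x y + K' := by
  have hK := h.K1
  have h1 : ∀ j : ℕ, 1 ≤ (2 * K) ^ j := fun j => one_le_pow₀ (by linarith)
  refine ⟨(2 * K) ^ ⌈m⌉₊, h1 _, fun b b' hb x y => ?_⟩
  have h0 := fun b => pm_nonneg (h.pm b) x y
  have h2 := dist_ind h.conn b (fun j b' => D b' x y + 1 ≤ (2 * K) ^ j * (D b x y + 1))
    (fun j => le_mul_of_one_le_left (by linarith [h0 b]) (h1 j)) (fun j b1 b2 ih hadj => by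
      have a1 := h.lip b1 b2 hadj x y
      have a2 := mul_le_mul_of_nonneg_left ih (show 0 ≤ 2 * K by linarith)
      have a3 := mul_nonneg (show 0 ≤ K by linarith) (h0 b1)
      rw [pow_succ', mul_assoc (2 * K)]
      linarith) _ b' (hb.trans (Nat.le_ceil m))
  linarith

theorem sec_m (h : CombHyp G D δ κ K n M) (k m : ℝ) : ∃ k', 0 ≤ k' ∧ ∀ s, Sec G D k s →
    ∀ b b', gd G b b' ≤ m → D b' (s b) (s b') ≤ k' := by
  have hK := h.K1
  have h1 : ∀ j : ℕ, 1 ≤ (3 * K) ^ j := fun j => one_le_pow₀ (by linarith)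
  have c1 := le_max_left k 1
  have c2 := le_max_right k 1
  generalize max k 1 = c at c1 c2
  refine ⟨(3 * K) ^ ⌈m⌉₊ * c, mul_nonneg (by linarith [h1 ⌈m⌉₊]) (by linarith),
    fun s hs b b' hb => ?_⟩
  have h2 := dist_ind h.conn b (fun j b' => D b' (s b) (s b') + c ≤ (3 * K) ^ j * c)
    (fun j => by
      rw [(h.pm b).self, zero_add]
      exact le_mul_of_one_le_left (by linarith) (h1 j)) (fun j b1 b2 ih hadj => by
      have a1 := h.lip b1 b2 hadj (s b) (s b1)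
      have a2 := mul_le_mul_of_nonneg_left ih (show 0 ≤ 3 * K by linarith)
      have a3 := mul_nonneg (show 0 ≤ K by linarith) (pm_nonneg (h.pm b1) (s b) (s b1))
      have a4 := (h.pm b2).tri (s b) (s b1) (s b2)
      have a5 := hs b1 b2 hadj
      have a6 := mul_nonneg (sub_nonneg.2 hK) (show 0 ≤ c by linarith)
      have a7 := mul_nonneg (show 0 ≤ K by linarith) (sub_nonneg.2 c2)
      rw [pow_succ', mul_assoc (3 * K)]
      linarith) _ b' (hb.trans (Nat.le_ceil m))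
  linarith

theorem btw_m (h : CombHyp G D δ κ K n M) (c m : ℝ) : ∃ c', ∀ b b', gd G b b' ≤ m →
    ∀ s x y, gp (D b) s x y ≤ c → gp (D b') s x y ≤ c' := by
  obtain ⟨K', -, hK⟩ := lip_m h m
  obtain ⟨c', hc⟩ := trans_btw δ κ K' c
  exact ⟨c', fun b b' hb => hc _ _ (h.pm b) (h.hyp b) (h.rg b) (h.pm b') (h.hyp b') (h.rg b')
    (hK b b' hb) (hK b' b (((gd_pm h.conn).symm b' b).trans_le hb))⟩

/-- The distance between two sections. -/
theorem sec_sec (h : CombHyp G D δ κ K n M) (k C m : ℝ) : ∃ C', ∀ s s', Sec G D k s →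
    Sec G D k s' → ∀ b b', gd G b b' ≤ m → D b (s b) (s' b) ≤ C → D b' (s b') (s' b') ≤ C' := by
  obtain ⟨K', h1, hK⟩ := lip_m h m
  obtain ⟨k', -, hk⟩ := sec_m h k m
  refine ⟨K' * C + K' + 2 * k', fun s s' hs hs' b b' hb hC => ?_⟩
  have a1 := hK b b' hb (s b) (s' b)
  have a2 := hk s hs b b' hb
  have a3 := hk s' hs' b b' hb
  have a4 := (h.pm b').tri (s b') (s b) (s' b')
  have a5 := (h.pm b').tri (s b) (s' b) (s' b')
  have a6 := (h.pm b').symm (s b') (s b)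
  have a7 := mul_le_mul_of_nonneg_left hC (show 0 ≤ K' by linarith)
  linarith

theorem ctr_ex (h : CombHyp G D δ κ K n M) : ∃ c0 k0 : ℝ, 0 ≤ c0 ∧ 0 ≤ k0 ∧
    ∀ x y z, ∃ m, Sec G D k0 m ∧ ∀ b, gp (D b) (m b) x y ≤ c0 ∧ gp (D b) (m b) y z ≤ c0 ∧
      gp (D b) (m b) x z ≤ c0 := by
  obtain ⟨c, hc⟩ := centre_ex δ κ
  obtain ⟨c2, h2⟩ := trans_btw δ κ K c
  obtain ⟨C, hC⟩ := centre_uniq δ (max c c2)
  refine ⟨max c 0, max C 0, le_max_right _ _, le_max_right _ _, fun x y z => ?_⟩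
  choose m m1 m2 m3 using fun b => hc (D b) (h.pm b) (h.hyp b) (h.rg b) x y z
  refine ⟨m, fun b b' hb => le_max_of_le_left ?_, fun b =>
    ⟨le_max_of_le_left (m1 b), le_max_of_le_left (m2 b), le_max_of_le_left (m3 b)⟩⟩
  have h3 := h2 _ _ (h.pm b) (h.hyp b) (h.rg b) (h.pm b') (h.hyp b') (h.rg b') (h.lip b b' hb)
    (h.lip b' b hb.symm) (m b)
  exact hC _ (h.pm b') (h.hyp b') x y z _ _ (le_max_of_le_right (h3 _ _ (m1 b)))
    (le_max_of_le_right (h3 _ _ (m2 b))) (le_max_of_le_right (h3 _ _ (m3 b)))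
    (le_max_of_le_left (m1 b')) (le_max_of_le_left (m2 b')) (le_max_of_le_left (m3 b'))

theorem fl2_ex (h : CombHyp G D δ κ K n M) (k0 : ℝ) : ∃ CL M1 : ℝ, 0 ≤ CL ∧ 0 < M1 ∧
    ∀ s t t' x, Sec G D k0 s → Sec G D k0 t → Sec G D k0 t' →
      Fl G K CL n M1 fun b => min (phi D s x t b) (phi D s x t' b) := by
  have hK := h.K1
  have hκ := h.κ0
  have hδ := hyp_nonneg h.hypB h.conn.nonempty.some
  obtain ⟨C, hC⟩ := trans_gp δ κ K (by linarith)
  obtain ⟨c2, h2⟩ := btw_m h (2 * κ + δ) n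
  obtain ⟨k2, -, hk⟩ := sec_m h k0 n
  refine ⟨max 0 (C + 2 * k0), max 1 (max (M + κ) (2 * (2 * κ + c2 + δ + 2 * k2))),
    le_max_left _ _, lt_max_of_lt_left one_pos, fun s t t' x hs ht ht' =>
      ⟨fun b b' hb => ?_, fun a b c hab hbc hac hM => ?_⟩⟩
  · have h1 : ∀ t, Sec G D k0 t → phi D s x t b' ≤ K * phi D s x t b + max 0 (C + 2 * k0) :=
      fun t ht => by
        have a1 := hC _ _ (h.pm b) (h.hyp b) (h.rg b) (h.pm b') (h.hyp b') (h.rg b')
          (h.lip b b' hb) (h.lip b' b hb.symm) (s b) (t b) x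
        have a2 := cgp_base (h.pm b') (s b) (s b') (t b') x
        have a3 := cgp_left (h.pm b') (s b) (t b) (t b') x
        have a4 := le_max_right 0 (C + 2 * k0)
        unfold phi
        linarith [hs b b' hb, ht b b' hb]
    rcases min_choice (phi D s x t b) (phi D s x t' b) with e | e <;> rw [e]
    exacts [min_le_of_left_le (h1 t ht), min_le_of_right_le (h1 t' ht')]
  · simp only [max_lt_iff] at hM
    obtain ⟨m1, m2, m3⟩ := hM
    have l1 := min_le_left (phi D s x t b) (phi D s x t' b)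
    have l2 := min_le_right (phi D s x t b) (phi D s x t' b)
    generalize min (phi D s x t b) (phi D s x t' b) = ψ at m1 m2 m3 l1 l2 ⊢
    obtain ⟨u, u1, u2, u3, -, u5⟩ := rg_pt (h.pm b) (h.rg b) (s b) x (σ := ψ) (by linarith)
      (l1.trans (cgp_le_right (h.pm b) _ _ _))
    have key : ∀ t, Sec G D k0 t → ψ ≤ phi D s x t b → ∀ e, gd G b e ≤ n →
        D e (s b) u - c2 - δ - 2 * k2 ≤ phi D s x t e := fun t ht l e he => by
      unfold phi at l ⊢
      have a1 : ψ - κ ≤ min (gp (D b) (s b) u x) (gp (D b) (s b) x (t b)) :=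
        le_min u3 (by rw [cgp_symm (h.pm b)]; linarith)
      have a2 := h.hyp b (s b) u x (t b)
      have a3 := cgp_add (h.pm b) (s b) u (t b)
      have a4 := h2 b e he u (s b) (t b) (by linarith)
      have a5 := h2 b e he u (s b) x (by linarith)
      have a6 := cgp_add (h.pm e) (s b) u (t b)
      have a7 := cgp_add (h.pm e) (s b) u x
      have a8 : D e (s b) u - c2 ≤ min (gp (D e) (s b) (t b) u) (gp (D e) (s b) u x) :=
        le_min (by rw [cgp_symm (h.pm e)]; linarith) (by linarith)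
      have a9 := h.hyp e (s b) (t b) u x
      have b1 := cgp_base (h.pm e) (s e) (s b) (t b) x
      have b2 := cgp_left (h.pm e) (s e) (t e) (t b) x
      have b3 := (h.pm e).symm (s e) (s b)
      have b4 := (h.pm e).symm (t e) (t b)
      linarith [hk s hs b e he, hk t ht b e he]
    obtain ⟨γ, g0, g1, g2, g3⟩ := gseg_three h.conn (a := a) (b := b) (c := c) (by
      rw [Bt, hab, hbc, hac, two_mul])
    have d1 : G.dist a b = n := Nat.cast_injective (R := ℝ) hab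
    have d2 : G.dist a c = 2 * n := Nat.cast_injective (R := ℝ) (by push_cast; exact hac)
    rw [d1] at g1
    rw [d2] at g2 g3
    have hf := h.fl γ g3 (s b) u (by rw [g1]; linarith)
    rw [g0, g1, g2] at hf
    have ha : gd G b a ≤ n := (((gd_pm h.conn).symm b a).trans hab).le
    rcases le_max_iff.1 hf with e | e
    · exact le_max_of_le_left (le_min (by linarith [key t ht l1 a ha])
        (by linarith [key t' ht' l2 a ha]))
    · exact le_max_of_le_right (le_min (by linarith [key t ht l1 c hbc.le])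
        (by linarith [key t' ht' l2 c hbc.le]))

theorem cx_ex (h : CombHyp G D δ κ K n M) (r : ℝ) :
    ∃ c : Cx G D, c.κ = κ ∧ r + 2 * c.c0 ≤ c.R := by
  obtain ⟨c0, k0, h1, h2, h3⟩ := ctr_ex h
  obtain ⟨CL, M1, h4, h5, h6⟩ := fl2_ex h k0
  have fc : FlCx G δ K CL n M1 := ⟨h.conn, h.hypB, h.K1, h4, h.n1, h5⟩
  obtain ⟨R, hR⟩ := fl_helly fc
  refine ⟨⟨δ, κ, K, n, M, h, c0, k0, CL, M1, max R (max M1 (r + 2 * c0)), h1, h2, fc, h3, h6,
    le_max_of_le_right (le_max_left _ _), fun s x hs => ?_⟩, rfl,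
    le_max_of_le_right (le_max_right _ _)⟩
  haveI : Nonempty {t // Sec G D k0 t ∧ ∃ b, phi D s x t b ≤ M1} :=
    ⟨⟨s, hs, h.conn.nonempty.some, (cgp_self (h.pm _) _ _).trans_le h5.le⟩⟩
  obtain ⟨q, hq⟩ := hR {t // Sec G D k0 t ∧ ∃ b, phi D s x t b ≤ M1} (fun t => phi D s x t.1)
    (fun t t' => h6 s _ _ x hs t.2.1 t'.2.1) (fun t => t.2.2)
    fun b => ⟨_, fun t => cgp_le_right (h.pm b) _ _ _⟩
  exact ⟨q, fun t a1 a2 => le_max_of_le_left (hq ⟨t, a1, a2⟩)⟩

end Pool.Agent.E5f.Cb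

end

section

/-! Cores and projections. -/

set_option autoImplicit false

namespace Pool.Agent.E5f.Cb

variable {P B : Type} {G : SimpleGraph B} {D : B → P → P → ℝ}

theorem pr_ex (c : Cx G D) {s : B → P} (hs : c.S s) (X : P × B) : ∃ a, c.Pr s X a :=
  nst_ex c.h.conn (c.core s X.1 hs) X.2

theorem co_of_le (c : Cx G D) {s : B → P} {x : P} {b : B} (h : D b (s b) x ≤ c.R) :
    c.Co s x b :=
  fun t _ _ => (cgp_le_right (c.h.pm b) (s b) (t b) x).trans h

/-- (NP) for the core. -/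
theorem pr_np (c : Cx G D) (A : ℝ) : ∃ C : ℝ, ∀ s X a b, c.S s → c.Pr s X a →
    D b (s b) X.1 ≤ A → gp (gd G) a X.2 b ≤ C := by
  obtain ⟨C, hC⟩ := fl_np c.fc (max A c.R)
  refine ⟨C, fun s X a b hs hp hA => ?_⟩
  have hne : Nonempty {t // c.S t ∧ ∃ b, phi D s X.1 t b ≤ c.M1} :=
    ⟨⟨s, hs, a, (cgp_self (c.h.pm _) _ _).trans_le c.fc.M1pos.le⟩⟩
  have hle : ∀ (b : B) (t : B → P), phi D s X.1 t b ≤ D b (s b) X.1 := fun b t =>
    cgp_le_right (c.h.pm b) (s b) (t b) X.1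
  have hb : ∀ b, BddAbove (Set.range fun t : {t // c.S t ∧ ∃ b, phi D s X.1 t b ≤ c.M1} =>
      phi D s X.1 t.1 b) := fun b => ⟨D b (s b) X.1, by
    rintro _ ⟨t, rfl⟩
    exact hle b t.1⟩
  have hF := fl_sup c.fc (fun t : {t // c.S t ∧ ∃ b, phi D s X.1 t b ≤ c.M1} => phi D s X.1 t.1)
    (fun t => c.fl1 X.1 hs t.2.1) hb
  refine hC _ hF c.R X.2 a b c.MR (le_max_right _ _)
    (ciSup_le fun t => le_max_of_le_left ((hle b t.1).trans hA))
    ⟨ciSup_le fun t => hp.1 t.1 t.2.1 t.2.2, fun b' hb' => hp.2 b' fun t ht hm => ?_⟩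
  exact (le_ciSup (hb b') ⟨t, ht, hm⟩).trans hb'

theorem big_CombH (c : Cx G D) {s t : B → P} {x : P} {a : B} (ht : c.S t) (hc : c.Co s x a)
    (h : c.R < phi D s x t a) (b : B) : c.M1 < phi D s x t b :=
  not_le.1 fun hb => (hc t ht ⟨b, hb⟩).not_gt h

/-- (H) -/
theorem core_h (c : Cx G D) (A : ℝ) : ∃ N : ℝ, ∀ s t x b a, c.S s → c.S t →
    (∀ b', c.M1 < phi D s x t b') → phi D s x t b ≤ A → c.Co s x a → gd G b a ≤ N := by
  obtain ⟨N, hN⟩ := fl_bd c.fc (max A (c.R + c.κ + 1 + c.κ))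
  have hκ := c.h.κ0
  have hM := c.fc.M1pos
  have hR := c.MR
  refine ⟨N, fun s t x b a hs ht hb hA hc => ?_⟩
  rcases le_total (D a (s a) x) (c.R + c.κ + 1) with h | h
  · refine hN _ (c.fl1 x hs ht) b a (le_max_of_le_left hA) (le_max_of_le_right ?_)
      fun w _ => hb w
    have := cgp_le_right (c.h.pm a) (s a) (t a) x
    unfold phi
    linarith
  · obtain ⟨u, -, -, h1, h2, -⟩ := rg_pt (c.h.pm a) (c.h.rg a) (s a) x (by linarith) h
    have h3 : c.R < phi D s x (fun _ => u) a := by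
      unfold phi
      linarith
    exact hN _ (c.fl2 s t (fun _ => u) x hs ht (c.const u)) b a
      (le_max_of_le_left (min_le_of_left_le hA)) (le_max_of_le_right (min_le_of_right_le h2))
      fun w _ => lt_min (hb w) (big_CombH c (c.const u) hc h3 w)

/-- (H) or (Y) -/
theorem core_y (c : Cx G D) (A : ℝ) : ∃ N Q : ℝ, ∀ s t x b a, c.S s → c.S t →
    phi D s x t b ≤ A → c.Co s x a →
      gd G b a ≤ N ∨ ∀ w, Bt G b w a → phi D s x t w ≤ Q := by
  obtain ⟨N, hN⟩ := core_h c A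
  obtain ⟨Q, -, -, hQ⟩ := fl_q c.fc (max A c.R)
  refine ⟨N, Q, fun s t x b a hs ht hA hc => ?_⟩
  rcases le_or_gt (phi D s x t a) c.R with h | h
  · exact Or.inr fun w hw => hQ _ (c.fl1 x hs ht) b w a hw (le_max_of_le_left hA)
      (le_max_of_le_right h)
  · exact Or.inl (hN s t x b a hs ht (big_CombH c ht hc h) hA hc)

/-- (Gro) and (H) together. -/
theorem core_gro (c : Cx G D) (A : ℝ) : ∃ N : ℝ, ∀ s t x b b' a, c.S s → c.S t →
    phi D s x t b ≤ A → c.Co s x a → Bt G b b' a → gd G b b' = c.n → c.M1 < phi D s x t b' →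
    phi D s x t b < 3 / 2 * phi D s x t b' → gd G b a ≤ N := by
  obtain ⟨N, hN⟩ := core_h c A
  obtain ⟨N1, h1⟩ := fl_gro c.fc c.R
  refine ⟨max N (c.n + N1), fun s t x b b' a hs ht hA hc hbt hn hM h32 => ?_⟩
  rcases le_total N1 (gd G b' a) with h | h
  · exact le_max_of_le_left (hN s t x b a hs ht
      (big_CombH c ht hc (h1 _ (c.fl1 x hs ht) b b' a hbt hn h hM h32)) hA hc)
  · refine le_max_of_le_right ?_
    unfold Bt at hbt
    linarith

end Pool.Agent.E5f.Cb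

end

section

/-! Projections for close sections. -/

set_option autoImplicit false

namespace Pool.Agent.E5f.Cb

variable {P B : Type} {G : SimpleGraph B} {D : B → P → P → ℝ}

theorem back_CombC (c : Cx G D) (T m : ℝ) : ∃ R : ℝ, ∀ s (y z : P) b b', c.S s →
    gd G b b' ≤ m → R ≤ gp (D b) (s b) y z → T ≤ gp (D b') (s b') y z := by
  obtain ⟨R, -, hR⟩ := fl_lm c.fc T m
  refine ⟨R + 1, fun s y z b b' hs hb h => ?_⟩
  by_contra h1
  have h2 := hR _ (c.fl1 z hs (c.const y)) b' b (by rwa [c.pmB.symm]) (not_le.1 h1).le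
  unfold phi at h2
  linarith

/-- (C) on a geodesic. -/
theorem close_geo (c : Cx G D) (C4 : ℝ) : ∃ ρ R9 : ℝ, ∀ s s' (Y Z : P × B) a a' b, c.S s →
    c.S s' → c.Pr s Y a → c.Pr s' Z a' → Bt G a b a' → D b (s b) (s' b) ≤ C4 →
    (Y = Z ∨ R9 ≤ gp (D b) (s b) Y.1 Z.1) → gd G a b ≤ ρ ∨ gd G b a' ≤ ρ := by
  obtain ⟨C5, h5⟩ := sec_sec c.h c.k0 C4 c.n
  obtain ⟨C6, c4, c5, c0⟩ : ∃ C6 : ℝ, C4 ≤ C6 ∧ C5 ≤ C6 ∧ 0 ≤ C6 :=
    ⟨max (max C4 C5) 0, le_max_of_le_left (le_max_left _ _), le_max_of_le_left (le_max_right _ _),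
      le_max_right _ _⟩
  have hκ := c.h.κ0
  have hδ := c.δ0
  have hM := c.fc.M1pos
  have hG := c.h.conn
  obtain ⟨r, hr⟩ : ∃ r : ℝ, r = c.M1 + 3 * c.κ + 2 * C6 + 2 * c.δ + 1 := ⟨_, rfl⟩
  obtain ⟨R, hR⟩ := back_CombC c (3 / 2 * r) c.n
  obtain ⟨C, hC⟩ := pr_np c (r + C6)
  obtain ⟨N, hN⟩ := core_gro c (r + c.κ + C6)
  refine ⟨max (max c.n N) (C + c.δ), max r R, fun s s' Y Z a a' b hs hs' ha ha' hb h4 hYZ => ?_⟩
  by_contra hcon
  obtain ⟨g1, g2⟩ := not_or.1 hcon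
  rw [not_le, max_lt_iff, max_lt_iff] at g1 g2
  rw [c.pmB.symm] at g1
  have pb := c.h.pm b
  have t1 := pb.symm (s b) (s' b)
  by_cases h1 : D b (s b) Y.1 < r
  · obtain rfl : Y = Z := hYZ.resolve_right fun h =>
      (h1.trans_le ((le_max_left _ _).trans h)).not_ge (cgp_le_left pb _ _ _)
    have e1 := hC s Y a b hs ha (by linarith)
    have e2 := hC s' Y a' b hs' ha' (by linarith [pb.tri (s' b) (s b) Y.1])
    have e3 := cgp_add c.pmB b a Y.2
    have e4 := cgp_add c.pmB b a' Y.2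
    have e5 := c.h.hypB b a Y.2 a'
    rw [hb.gp_zero hG, cgp_symm c.pmB b Y.2 a'] at e5
    rw [cgp_symm c.pmB] at e1 e2
    rcases min_choice (gp (gd G) b a Y.2) (gp (gd G) b a' Y.2) with h | h <;> rw [h] at e5 <;>
      linarith [g1.2, g2.2]
  obtain ⟨u, -, u2, u3, u4, -⟩ := rg_pt pb (c.h.rg b) (s b) Y.1 (by linarith) (not_lt.1 h1)
  obtain ⟨bm, m1, m2⟩ := bt_pt hG b a c.n g1.1.1.le
  obtain ⟨bp, p1, p2⟩ := bt_pt hG b a' c.n g2.1.1.le
  have m3 : gd G bm b = c.n := by rwa [c.pmB.symm]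
  have e1 : gd G bm bp = 2 * c.n := by
    have := ((hb.left hG (m1.symm hG)).2.right hG p1).2
    unfold Bt at this
    linarith
  have e2 := (c.fl1 Y.1 hs (c.const u)).fl bm b bp m3 p2 e1 (by unfold phi; linarith)
  rcases le_max_iff.1 e2 with e3 | e3
  · refine g1.1.2.not_ge (hN s (fun _ => u) Y.1 b bm a hs (c.const u) ?_ ha.1 m1 m2 ?_ ?_) <;>
      unfold phi at * <;> linarith
  · have pp := c.h.pm bp
    have e4 := h5 s s' hs hs' b bp p2.le h4
    have e5 := cgp_base pp (s' bp) (s bp) u Z.1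
    have e6 := cgp_le_left pb (s' b) u Z.1
    have e7 := pb.tri (s' b) (s b) u
    rw [pp.symm] at e4
    unfold phi at e3
    have e8 : 3 / 2 * (r - c.κ) - c.δ ≤ gp (D bp) (s bp) u Z.1 := by
      rcases hYZ with rfl | h
      · linarith
      · have e9 := hR s Y.1 Z.1 b bp hs p2.le ((le_max_right _ _).trans h)
        refine le_trans (sub_le_sub_right (le_min ?_ ?_) _) (c.h.hyp bp (s bp) u Y.1 Z.1) <;>
          linarith
    refine g2.1.2.not_ge (hN s' (fun _ => u) Z.1 b bp a' hs' (c.const u) ?_ ha'.1 p1 p2 ?_ ?_) <;>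
      unfold phi <;> linarith

/-- (C) near a geodesic. -/
theorem close_near (c : Cx G D) (C4 e : ℝ) : ∃ ρ R9 : ℝ, ∀ s s' (Y Z : P × B) a a' b, c.S s →
    c.S s' → c.Pr s Y a → c.Pr s' Z a' → gp (gd G) b a a' ≤ e → D b (s b) (s' b) ≤ C4 →
    (Y = Z ∨ R9 ≤ gp (D b) (s b) Y.1 Z.1) → gd G a b ≤ ρ ∨ gd G b a' ≤ ρ := by
  obtain ⟨C5, h5⟩ := sec_sec c.h c.k0 C4 (e + 1 + 2 * c.δ)
  obtain ⟨ρ, T, hT⟩ := close_geo c C5
  obtain ⟨R, hR⟩ := back_CombC c T (e + 1 + 2 * c.δ)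
  refine ⟨ρ + (e + 1 + 2 * c.δ), R, fun s s' Y Z a a' b hs hs' ha ha' hb h4 hYZ => ?_⟩
  obtain ⟨v, v1, v2⟩ := near_geo c.h.conn c.h.hypB a a' b
  have v3 : gd G b v ≤ e + 1 + 2 * c.δ := by linarith
  refine (hT s s' Y Z a a' v hs hs' ha ha' v1 (h5 s s' hs hs' b v v3 h4)
    (hYZ.imp_right (hR s Y.1 Z.1 b v hs v3))).imp (fun h => ?_) fun h => ?_
  · linarith [c.pmB.tri a v b, c.pmB.symm v b]
  · linarith [c.pmB.tri b v a']

end Pool.Agent.E5f.Cb

end

section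

/-! Words, and the action of the figure-eight group on the lattice of Hermitian matrices. -/

set_option autoImplicit false

namespace Pool.Agent.E5f.Ar

section Words
variable {G ι : Type} [Group G] (s : ι → G)

/-- The value of a letter. -/
def lv (e : ι × Bool) : G := if e.2 = true then s e.1 else (s e.1)⁻¹

theorem wev_nil : wev s [] = 1 := rfl

theorem wev_cons (e : ι × Bool) (l : List (ι × Bool)) : wev s (e :: l) = lv s e * wev s l := by
  simp [wev, lv]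

theorem wev_append (l l' : List (ι × Bool)) : wev s (l ++ l') = wev s l * wev s l' := by
  simp [wev]

/-- The inverse word. -/
def winv (l : List (ι × Bool)) : List (ι × Bool) := (l.map fun e => (e.1, !e.2)).reverse

theorem lv_not (e : ι × Bool) : lv s (e.1, !e.2) = (lv s e)⁻¹ := by
  rcases e with ⟨i, _ | _⟩ <;> simp [lv]

theorem wev_winv (l : List (ι × Bool)) : wev s (winv l) = (wev s l)⁻¹ := by
  induction l with
  | nil => simp [winv, wev]
  | cons e l ih =>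
    have : winv (e :: l) = winv l ++ [(e.1, !e.2)] := by simp [winv]
    rw [this, wev_append, ih, wev_cons, wev_cons, wev_nil, mul_one, lv_not, mul_inv_rev]

/-- The elements that are values of words. -/
def wsub : Subgroup G where
  carrier := {g | ∃ l, wev s l = g}
  one_mem' := ⟨[], rfl⟩
  mul_mem' := by
    rintro _ _ ⟨l, rfl⟩ ⟨l', rfl⟩
    exact ⟨l ++ l', wev_append s l l'⟩
  inv_mem' := by
    rintro _ ⟨l, rfl⟩
    exact ⟨winv l, wev_winv s l⟩

theorem mem_wsub (i : ι) : s i ∈ wsub s := ⟨[(i, true)], by simp [wev]⟩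

theorem gens_of {α : Type} {rels : Set (FreeGroup α)} (t : ι → PresentedGroup rels)
    (h : ∀ a, PresentedGroup.of a ∈ wsub t) : Gens t :=
  fun g => PresentedGroup.generated_by rels (wsub t) h g

variable {s}

theorem wl_le (l : List (ι × Bool)) : wl s (wev s l) ≤ l.length := Nat.sInf_le ⟨l, rfl, rfl⟩

theorem wl_spec (hs : Gens s) (g : G) : ∃ l, l.length = wl s g ∧ wev s l = g := by
  obtain ⟨l, hl⟩ := hs g
  exact Nat.sInf_mem (s := {m : ℕ | ∃ l : List (ι × Bool), l.length = m ∧ wev s l = g})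
    ⟨_, l, rfl, hl⟩

theorem wl_mul (hs : Gens s) (g h : G) : wl s (g * h) ≤ wl s g + wl s h := by
  obtain ⟨l, h1, h2⟩ := wl_spec hs g
  obtain ⟨l', h3, h4⟩ := wl_spec hs h
  have := wl_le (s := s) (l ++ l')
  rwa [wev_append, h2, h4, List.length_append, h1, h3] at this

theorem wl_gen (hs : Gens s) (i : ι) (g : G) : wl s (s i * g) ≤ wl s g + 1 := by
  obtain ⟨l, h1, h2⟩ := wl_spec hs g
  have := wl_le (s := s) ((i, true) :: l)
  rwa [wev_cons, h2, List.length_cons, h1] at this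

theorem wl_desc (hs : Gens s) {g : G} (hg : g ≠ 1) :
    ∃ e : ι × Bool, wl s ((lv s e)⁻¹ * g) < wl s g := by
  obtain ⟨l, h1, h2⟩ := wl_spec hs g
  rcases l with _ | ⟨e, l⟩
  · exact absurd h2.symm hg
  · refine ⟨e, ?_⟩
    rw [← h1, ← h2, wev_cons, inv_mul_cancel_left]
    exact Nat.lt_succ_of_le (wl_le l)

end Words

/-- The lattice of Hermitian two by two matrices over the Eisenstein integers. -/
abbrev V : Type := ℤ × ℤ × ℤ × ℤ

/-- The invariant bilinear form. -/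
def bt (x y : V) : ℤ := x.1 * y.2.2.2 + x.2.2.2 * y.1 -
  (2 * x.2.1 * y.2.1 - x.2.1 * y.2.2.1 - x.2.2.1 * y.2.1 + 2 * x.2.2.1 * y.2.2.1)

theorem bt_comm (x y : V) : bt x y = bt y x := by
  simp only [bt]; ring

theorem bt_lc (a b : ℤ) (x y z : V) : bt (a • x + b • y) z = a * bt x z + b * bt y z := by
  simp only [bt, Prod.fst_add, Prod.snd_add, Prod.smul_fst, Prod.smul_snd, smul_eq_mul]; ring

theorem bt_lc' (a b : ℤ) (x y z : V) : bt z (a • x + b • y) = a * bt z x + b * bt z y := by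
  rw [bt_comm, bt_lc, bt_comm x, bt_comm y]

theorem bt_smul (a : ℤ) (x z : V) : bt z (a • x) = a * bt z x := by
  simp only [bt, Prod.smul_fst, Prod.smul_snd, smul_eq_mul]; ring

theorem bt_neg (x z : V) : bt z (-x) = -bt z x := by
  simp only [bt, Prod.fst_neg, Prod.snd_neg]; ring

theorem rcs (x y : V) (hy : 0 < bt y y) : bt x x * bt y y ≤ bt x y ^ 2 := by
  have h0 : ∀ w : V, w.1 = 0 → bt w w ≤ 0 := fun w h => by
    simp only [bt, h]
    nlinarith [sq_nonneg (w.2.1 - w.2.2.1), sq_nonneg w.2.1, sq_nonneg w.2.2.1]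
  have h1 : y.1 ≠ 0 := fun h => absurd (h0 y h) (not_le.2 hy)
  have h2 := h0 (y.1 • x + (-x.1) • y) (by simp; ring)
  rw [bt_lc, bt_lc', bt_lc', bt_comm y x] at h2
  have h3 : 0 < y.1 ^ 2 := by positivity
  by_contra h4
  have h5 := mul_pos h3 (sub_pos.2 (not_le.1 h4))
  nlinarith [sq_nonneg (x.1 * bt y y - y.1 * bt x y), mul_nonneg hy.le (neg_nonneg.2 h2)]

/-- The base point. -/
def pO : V := (1, 0, 0, 2)

/-- The normal vector of the invariant plane. -/
def eO : V := (1, 0, 0, -2)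

/-- The cusp. -/
def nO : V := (1, 0, 0, 0)

/-- The forward cone. -/
def Fw (x : V) : Prop := 0 ≤ bt x x ∧ 0 < bt x pO

theorem fw_key {x y : V} : bt y pO ^ 2 * bt x x + bt x pO ^ 2 * bt y y ≤
    2 * (bt x pO * bt y pO) * bt x y := by
  have h := rcs (bt y pO • x + (-bt x pO) • y) pO (by decide)
  rw [bt_lc, bt_lc', bt_lc', bt_lc, bt_comm y x, show bt pO pO = 4 by decide] at h
  nlinarith

theorem fw_nonneg {x y : V} (hx : Fw x) (hy : Fw y) : 0 ≤ bt x y := by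
  have h := fw_key (x := x) (y := y)
  have h1 := mul_pos hx.2 hy.2
  have h2 := mul_nonneg (sq_nonneg (bt y pO)) hx.1
  have h3 := mul_nonneg (sq_nonneg (bt x pO)) hy.1
  by_contra h4
  nlinarith [mul_pos h1 (neg_pos.2 (not_le.1 h4))]

theorem fw_pos {x y : V} (hx : Fw x) (hy : Fw y) (h0 : 0 < bt y y) : 0 < bt x y := by
  have h := fw_key (x := x) (y := y)
  have h1 := mul_pos hx.2 hy.2
  have h2 := mul_nonneg (sq_nonneg (bt y pO)) hx.1
  have h3 := mul_pos (pow_pos hx.2 2) h0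
  by_contra h4
  nlinarith [mul_nonneg h1.le (neg_nonneg.2 (not_lt.1 h4))]

theorem fw_tri {x y z : V} (hx : Fw x) (hy : Fw y) (hz : Fw z) (h0 : 0 < bt y y) :
    bt x z * bt y y ≤ 2 * (bt x y * bt z y) := by
  have h := rcs (bt z y • x + bt x y • z) y h0
  rw [bt_lc, bt_lc', bt_lc', bt_lc, bt_comm z x] at h
  have h1 := mul_pos (fw_pos hx hy h0) (fw_pos hz hy h0)
  have h2 := mul_nonneg (mul_nonneg (sq_nonneg (bt z y)) hx.1) h0.le
  have h3 := mul_nonneg (mul_nonneg (sq_nonneg (bt x y)) hz.1) h0.le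
  by_contra h4
  nlinarith [mul_pos h1 (sub_pos.2 (not_le.1 h4))]

theorem aniso (N : ℕ) : ∀ A u v : ℤ, A.natAbs ≤ N → u ^ 2 - u * v + v ^ 2 = 2 * A ^ 2 → A = 0 := by
  induction N with
  | zero => intro A u v h _; omega
  | succ N ih =>
    intro A u v h e
    obtain ⟨u, rfl | rfl⟩ := Int.even_or_odd' u <;> obtain ⟨v, rfl | rfl⟩ := Int.even_or_odd' v
    · obtain ⟨A, rfl | rfl⟩ := Int.even_or_odd' A
      · by_contra h0
        exact h0 (by rw [ih A u v (by omega) (by linarith), mul_zero])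
      · have : 2 * (u ^ 2 - u * v + v ^ 2 - 2 * A ^ 2 - 2 * A) = 1 := by linarith
        omega
    · have : 2 * (A ^ 2 - 2 * u ^ 2 + 2 * u * v + u - 2 * v ^ 2 - 2 * v) = 1 := by linarith
      omega
    · have : 2 * (A ^ 2 - 2 * u ^ 2 + 2 * u * v + v - 2 * v ^ 2 - 2 * u) = 1 := by linarith
      omega
    · have : 2 * (A ^ 2 - 2 * u ^ 2 + 2 * u * v - 2 * v ^ 2 - u - v) = 1 := by linarith
      omega

theorem null_ne {x : V} (hx : Fw x) (h0 : bt x x = 0) : bt x eO ≠ 0 := by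
  obtain ⟨A, u, v, C⟩ := x
  intro h
  have h1 := hx.2
  simp only [bt, eO, pO] at h h0 h1
  have h2 : C = 2 * A := by omega
  subst h2
  have := aniso _ A u v le_rfl (by linarith)
  omega

/-- The action of the generators and of their inverses. -/
def gen (e : Fin 3 × Bool) (x : V) : V :=
  match e with
  | (0, true) => (x.1 - x.2.1 + 2 * x.2.2.1 + x.2.2.2, -x.2.2.1 - x.2.2.2, x.1 + x.2.2.1,
      x.1 + x.2.1 + x.2.2.1 + x.2.2.2)
  | (0, false) => (x.1 + 2 * x.2.1 - x.2.2.1 + x.2.2.2, -x.1 - x.2.1 + x.2.2.1,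
      -x.1 - 2 * x.2.1 + 2 * x.2.2.1 - x.2.2.2, x.1 + x.2.1 - 2 * x.2.2.1 + x.2.2.2)
  | (1, true) => (3 * x.1 - 3 * x.2.1 + 3 * x.2.2.1 + x.2.2.2, -x.1 + x.2.1,
      -2 * x.1 + x.2.1 - x.2.2.1, x.1)
  | (1, false) => (x.2.2.2, x.2.1 + x.2.2.2, x.2.1 - x.2.2.1 - x.2.2.2,
      x.1 + 3 * x.2.2.1 + 3 * x.2.2.2)
  | (2, true) => (x.1 + 2 * x.2.1 - x.2.2.1 + x.2.2.2, x.2.1 + x.2.2.2, x.2.2.1, x.2.2.2)
  | (2, false) => (x.1 - 2 * x.2.1 + x.2.2.1 + x.2.2.2, x.2.1 - x.2.2.2, x.2.2.1, x.2.2.2)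

theorem gen_inv (e : Fin 3 × Bool) (x : V) : gen (e.1, !e.2) (gen e x) = x := by
  obtain ⟨i, b⟩ := e
  fin_cases i <;> cases b <;> refine Prod.ext ?_ (Prod.ext ?_ (Prod.ext ?_ ?_)) <;>
    simp only [gen, Bool.not_true, Bool.not_false, Fin.zero_eta, Fin.mk_one, Fin.reduceFinMk] <;>
    omega

theorem gen_bt (e : Fin 3 × Bool) (x y : V) : bt (gen e x) (gen e y) = bt x y := by
  obtain ⟨i, b⟩ := e
  fin_cases i <;> cases b <;>
    simp only [gen, bt] <;> ring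

theorem gen_fw (e : Fin 3 × Bool) {x : V} (hx : Fw x) : Fw (gen e x) := by
  have h1 : ∀ e : Fin 3 × Bool, 0 < bt (gen e pO) pO := by decide
  refine ⟨by rw [gen_bt]; exact hx.1, ?_⟩
  rw [← gen_bt (e.1, !e.2), gen_inv]
  have h2 : 0 < bt (gen (e.1, !e.2) pO) (gen (e.1, !e.2) pO) := by rw [gen_bt]; decide
  exact fw_pos hx ⟨h2.le, h1 _⟩ h2

/-- The generators as permutations. -/
def genP (i : Fin 3) : Equiv.Perm V :=
  ⟨gen (i, true), gen (i, false), gen_inv (i, true), gen_inv (i, false)⟩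

/-- The representation. -/
def R : G8 →* Equiv.Perm V :=
  PresentedGroup.toGroup (f := genP) (by
    intro r hr
    rcases hr with rfl | rfl <;> simp only [map_mul, map_inv, FreeGroup.lift_apply_of] <;>
      rw [mul_inv_eq_one, mul_inv_eq_iff_eq_mul] <;> ext x <;>
      simp only [Equiv.Perm.mul_apply, genP, Equiv.coe_fn_mk, gen] <;> omega)

/-- The standard generators of the figure-eight group. -/
def g8 : Fin 3 → G8 := fun i => PresentedGroup.of i

/-- The action of a word. -/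
def actW (l : List (Fin 3 × Bool)) (x : V) : V := l.foldr gen x

theorem R_lv (e : Fin 3 × Bool) (x : V) : R (lv g8 e) x = gen e x := by
  have h : ∀ i, R (g8 i) = genP i := fun i => PresentedGroup.toGroup.of _
  rcases e with ⟨i, _ | _⟩
  · simp only [lv, Bool.false_eq_true, if_false, map_inv, h]; rfl
  · simp only [lv, if_true, h]; rfl

theorem R_wev (l : List (Fin 3 × Bool)) (x : V) : R (wev g8 l) x = actW l x := by
  induction l with
  | nil => simp [wev_nil, actW]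
  | cons e l ih => rw [wev_cons, map_mul, Equiv.Perm.mul_apply, ih, R_lv]; rfl

theorem g8_gens : Gens g8 := gens_of g8 (mem_wsub g8)

theorem R_bt (g : G8) (x y : V) : bt (R g x) (R g y) = bt x y := by
  obtain ⟨l, rfl⟩ := g8_gens g
  rw [R_wev, R_wev]
  induction l with
  | nil => rfl
  | cons e l ih => exact (gen_bt e _ _).trans ih

theorem R_fw (g : G8) {x : V} (hx : Fw x) : Fw (R g x) := by
  obtain ⟨l, rfl⟩ := g8_gens g
  rw [R_wev]
  induction l with
  | nil => exact hx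
  | cons e l ih => exact gen_fw e ih

end Pool.Agent.E5f.Ar

end

section

/-! A twelve-sided polygon with even corners: the sign theorem, and growth by descent. -/

set_option autoImplicit false

namespace Pool.Agent.E5f.Ar

/-- The step of the index when one turns around a vertex. -/
def stp (ε : Bool) : Fin 12 := if ε = true then 5 else 7

/-- The neighbouring side. -/
def nb (ε : Bool) : Fin 12 := if ε = true then 1 else 11

/-- The word of `k` steps around a vertex. -/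
def uw {G : Type} [Group G] (s : Fin 12 → G) (ε : Bool) : ℕ → Fin 12 → G
  | 0, _ => 1
  | k + 1, m => s m * uw s ε k (m + stp ε)

/-- The normal vectors of the lines through a vertex. -/
def ww (act : Fin 12 → V → V) (n : Fin 12 → V) (ε : Bool) : ℕ → Fin 12 → V
  | 0, m => n m
  | k + 1, m => act m (ww act n ε k (m + stp ε))

/-- `z` is a nonnegative combination of `x` and `y`. -/
def PosC (x y z : V) : Prop :=
  0 < bt x x * bt y y - bt x y ^ 2 ∧ 0 ≤ bt z x * bt y y - bt z y * bt x y ∧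
    0 ≤ bt z y * bt x x - bt z x * bt x y ∧
    0 < (bt z x * bt y y - bt z y * bt x y) + (bt z y * bt x x - bt z x * bt x y) ∧
    (bt x x * bt y y - bt x y ^ 2) • z =
      (bt z x * bt y y - bt z y * bt x y) • x + (bt z y * bt x x - bt z x * bt x y) • y

instance decPosC (x y z : V) : Decidable (PosC x y z) := by unfold PosC; infer_instance

theorem PosC.neg {x y z w : V} (h : PosC x y z) (hx : bt w x < 0) (hy : bt w y < 0) :
    bt w z < 0 := by
  obtain ⟨h1, h2, h3, h4, h5⟩ := h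
  have h6 := congrArg (bt w) h5
  rw [bt_smul, bt_lc'] at h6
  generalize bt x x * bt y y - bt x y ^ 2 = c at *
  generalize bt z x * bt y y - bt z y * bt x y = a at *
  generalize bt z y * bt x x - bt z x * bt x y = b at *
  by_contra h7
  nlinarith [mul_nonneg h1.le (not_lt.1 h7), mul_nonneg h2 (Int.le_sub_one_of_lt (neg_pos.2 hx)),
    mul_nonneg h3 (Int.le_sub_one_of_lt (neg_pos.2 hy))]

/-- The half-planes beyond the lines with normal vectors `x`, `y` are disjoint. -/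
def Disj (x y : V) : Prop :=
  bt x x < 0 ∧ 0 < bt x y ∧ bt x x * bt y y < bt x y ^ 2 ∧ bt x pO < 0 ∧ bt y pO < 0

instance decDisj (x y : V) : Decidable (Disj x y) := by unfold Disj; infer_instance

theorem Disj.neg {x y w : V} (h : Disj x y) (hw : Fw w) (hy : 0 < bt w y) : bt w x < 0 := by
  obtain ⟨h1, h2, h3, h4, h5⟩ := h
  have h6 : 0 < bt ((-bt x y) • x + bt x x • y) ((-bt x y) • x + bt x x • y) := by
    rw [bt_lc, bt_lc', bt_lc', bt_comm y x]
    nlinarith [mul_pos (neg_pos.2 h1) (sub_pos.2 h3)]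
  have h7 := fw_pos hw ⟨h6.le, by
    rw [bt_lc]
    nlinarith [mul_pos h2 (neg_pos.2 h4), mul_pos (neg_pos.2 h1) (neg_pos.2 h5)]⟩ h6
  rw [bt_lc'] at h7
  by_contra h8
  nlinarith [mul_nonneg h2.le (not_lt.1 h8), mul_pos (neg_pos.2 h1) hy]

/-- The finite conditions on the polygon. -/
def Poly (act : Fin 12 → V → V) (n : Fin 12 → V) : Prop :=
  (∀ j, act j (n (j + 6)) = -n j) ∧ (∀ i, bt pO (n i) < 0) ∧
    (∀ i j, i = j ∨ (∃ ε, i = j + nb ε) ∨ Disj (n i) (n j)) ∧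
    (∀ ε m, ww act n ε 5 m = n (m + nb ε)) ∧
    ∀ ε m, ∀ k : Fin 6, PosC (n m) (n (m + nb ε)) (ww act n ε k m)

section Sign
variable {G : Type} [Group G] {s : Fin 12 → G}

theorem uw_len (hs : Gens s) (ε : Bool) (k : ℕ) (m : Fin 12) (g : G) :
    wl s (uw s ε k m * g) ≤ wl s g + k := by
  induction k generalizing m with
  | zero => simp [uw]
  | succ k ih =>
    rw [uw, mul_assoc]
    exact (wl_gen hs _ _).trans (Nat.succ_le_succ (ih _))

theorem rel_all (h6 : ∀ i, s (i + 6) = (s i)⁻¹)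
    (h0 : s 0 * s 5 * s 10 * s 3 * s 8 * s 1 = s 1 * s 8 * s 3 * s 10 * s 5 * s 0) (ε : Bool)
    (m : Fin 12) : uw s ε 6 m = uw s (!ε) 6 (m + nb ε) := by
  let Q : Fin 12 → Prop := fun m => s m * s (m + 5) * s (m + 10) * s (m + 3) * s (m + 8) *
    s (m + 1) = s (m + 1) * s (m + 8) * s (m + 3) * s (m + 10) * s (m + 5) * s m
  have step : ∀ m, Q m → Q (m + 5) := fun m h => by
    simp only [Q, add_assoc, Fin.reduceAdd, h6] at h ⊢
    calc _ = (s m)⁻¹ * (s m * s (m + 5) * s (m + 10) * s (m + 3) * s (m + 8) * s (m + 1)) *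
          (s m)⁻¹ := by group
      _ = _ := by rw [h]; group
  have all : ∀ m, Q m := by
    have q0 : Q 0 := h0
    have q5 : Q 5 := step 0 q0
    have q10 : Q 10 := step 5 q5
    have q3 : Q 3 := step 10 q10
    have q8 : Q 8 := step 3 q3
    have q1 : Q 1 := step 8 q8
    have q6 : Q 6 := step 1 q1
    have q11 : Q 11 := step 6 q6
    have q4 : Q 4 := step 11 q11
    have q9 : Q 9 := step 4 q4
    have q2 : Q 2 := step 9 q9
    have q7 : Q 7 := step 2 q2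
    intro m
    fin_cases m
    exacts [q0, q1, q2, q3, q4, q5, q6, q7, q8, q9, q10, q11]
  cases ε
  · have := all (m + 11)
    simp only [Q, add_assoc, Fin.reduceAdd, add_zero] at this
    simp only [uw, stp, nb, add_assoc, Fin.reduceAdd, Bool.not_false, if_true, Bool.false_eq_true,
      if_false, mul_one, add_zero, ← mul_assoc]
    exact this.symm
  · have := all m
    simp only [uw, stp, nb, add_assoc, Fin.reduceAdd, Bool.not_true, if_true, Bool.false_eq_true,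
      if_false, mul_one, add_zero, ← mul_assoc]
    exact this

theorem sign (hs : Gens s) (h6 : ∀ i, s (i + 6) = (s i)⁻¹)
    (h0 : s 0 * s 5 * s 10 * s 3 * s 8 * s 1 = s 1 * s 8 * s 3 * s 10 * s 5 * s 0)
    (ρ : G →* Equiv.Perm V) (hb : ∀ g x y, bt (ρ g x) (ρ g y) = bt x y)
    (hf : ∀ g, Fw (ρ g pO)) {act : Fin 12 → V → V} (ha : ∀ i x, ρ (s i) x = act i x)
    {n : Fin 12 → V} (hP : Poly act n) (N : ℕ) : ∀ g, wl s g < N →
      (∀ i, wl s g ≤ wl s ((s i)⁻¹ * g) → bt (ρ g pO) (n i) < 0) ∧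
      ∀ ε (k : ℕ) m, k ≤ 5 → wl s g < wl s ((uw s ε (k + 1) m)⁻¹ * g) + (k + 1) →
        wl s g ≤ wl s ((s (m + nb ε))⁻¹ * g) → bt (ρ g pO) (ww act n ε k m) < 0 := by
  obtain ⟨p1, p2, p3, p4, p5⟩ := hP
  have i6 : ∀ ε (m : Fin 12), m + stp ε + nb ε = m + 6 := by decide
  have mv : ∀ j g y, bt (ρ g pO) (act j y) = bt (ρ ((s j)⁻¹ * g) pO) y := fun j g y => by
    rw [← ha, ← hb (s j) (ρ ((s j)⁻¹ * g) pO), ← Equiv.Perm.mul_apply, ← map_mul,
      mul_inv_cancel_left]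
  induction N with
  | zero => exact fun g h => absurd h (Nat.not_lt_zero _)
  | succ N ih =>
    intro g hg
    have turn : ∀ ε (k : ℕ) j, k ≤ 4 → wl s ((s j)⁻¹ * g) < wl s g →
        wl s g < wl s ((uw s ε (k + 2) j)⁻¹ * g) + (k + 2) →
        bt (ρ g pO) (ww act n ε (k + 1) j) < 0 := by
      intro ε k j hk h1 h2
      have h3 := wl_gen hs j ((s j)⁻¹ * g)
      rw [mul_inv_cancel_left] at h3
      rw [ww, mv]
      refine (ih _ (by omega)).2 ε k _ (by omega) ?_ ?_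
      · rw [uw, mul_inv_rev, mul_assoc] at h2
        omega
      · rw [i6, h6, inv_inv, mul_inv_cancel_left]
        exact h1.le
    have A : ∀ i, wl s g ≤ wl s ((s i)⁻¹ * g) → bt (ρ g pO) (n i) < 0 := by
      intro i hi
      rcases eq_or_ne g 1 with rfl | h1
      · rw [map_one]
        exact p2 i
      obtain ⟨j, hj⟩ : ∃ j, wl s ((s j)⁻¹ * g) < wl s g := by
        obtain ⟨⟨j, _ | _⟩, hj⟩ := wl_desc hs h1
        · exact ⟨j + 6, by rw [h6]; exact hj⟩
        · exact ⟨j, hj⟩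
      rcases p3 i j with rfl | ⟨ε, rfl⟩ | h2
      · omega
      · rw [← p4]
        refine turn ε 4 j le_rfl hj ?_
        have h3 := uw_len hs (!ε) 5 (j + nb ε + stp (!ε)) ((uw s ε 6 j)⁻¹ * g)
        have h4 : uw s ε 6 j = s (j + nb ε) * uw s (!ε) 5 (j + nb ε + stp (!ε)) :=
          rel_all h6 h0 ε j
        rw [eq_inv_mul_iff_mul_eq.2 h4.symm, mul_assoc, mul_inv_cancel_left] at h3
        change wl s g < wl s ((uw s ε 6 j)⁻¹ * g) + 6
        omega
      · refine h2.neg (hf g) ?_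
        have h3 := (ih ((s j)⁻¹ * g) (by omega)).1 (j + 6) (by
          rw [h6, inv_inv, mul_inv_cancel_left]
          exact hj.le)
        rw [← mv, p1, bt_neg] at h3
        omega
    refine ⟨A, fun ε k m hk h1 h2 => ?_⟩
    by_cases h3 : wl s g ≤ wl s ((s m)⁻¹ * g)
    · exact (p5 ε m ⟨k, by omega⟩).neg (A _ h3) (A _ h2)
    · rcases k with _ | k
      · rw [uw, uw, mul_one] at h1
        omega
      · exact turn ε k m (by omega) (not_le.1 h3) h1

theorem free_of (hs : Gens s) (h6 : ∀ i, s (i + 6) = (s i)⁻¹)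
    (h0 : s 0 * s 5 * s 10 * s 3 * s 8 * s 1 = s 1 * s 8 * s 3 * s 10 * s 5 * s 0)
    (ρ : G →* Equiv.Perm V) (hb : ∀ g x y, bt (ρ g x) (ρ g y) = bt x y)
    (hf : ∀ g, Fw (ρ g pO)) {act : Fin 12 → V → V} (ha : ∀ i x, ρ (s i) x = act i x)
    {n : Fin 12 → V} (hP : Poly act n) : Function.Injective fun g => ρ g pO := by
  have key : ∀ g, ρ g pO = pO → g = 1 := by
    intro g hg
    by_contra h1
    obtain ⟨j, hj⟩ : ∃ j, wl s ((s j)⁻¹ * g) < wl s g := by
      obtain ⟨⟨j, _ | _⟩, hj⟩ := wl_desc hs h1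
      · exact ⟨j + 6, by rw [h6]; exact hj⟩
      · exact ⟨j, hj⟩
    have h3 := (sign hs h6 h0 ρ hb hf ha hP _ ((s j)⁻¹ * g) hj).1 (j + 6) (by
      rw [h6, inv_inv, mul_inv_cancel_left]
      exact hj.le)
    rw [← hb (s j), ← Equiv.Perm.mul_apply, ← map_mul, mul_inv_cancel_left, hg, ha, hP.1,
      bt_neg] at h3
    have := hP.2.1 j
    omega
  intro g g' h
  refine (inv_mul_eq_one.1 (key _ ?_)).symm
  rw [map_mul, Equiv.Perm.mul_apply, show ρ g pO = ρ g' pO from h, ← Equiv.Perm.mul_apply,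
    ← map_mul, inv_mul_cancel, map_one, Equiv.Perm.one_apply]

end Sign

theorem low_of {G ι : Type} [Group G] {s : ι → G} (hs : Gens s) (f : G → ℤ) (hf : ∀ g, 1 ≤ f g)
    (C : ℤ) (hfin : {g | f g ≤ C}.Finite) (d : Fin 16 → G)
    (hd : ∀ g, C < f g → ∃ k, 20 * f ((d k)⁻¹ * g) ≤ 19 * f g) :
    ∃ K : ℝ, 0 ≤ K ∧ ∀ g, (wl s g : ℝ) ≤ K * Real.log (f g) + K := by
  obtain ⟨W, hW⟩ := (hfin.image (wl s)).bddAbove
  obtain ⟨B, hB⟩ := (Set.finite_range fun k => wl s (d k)).bddAbove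
  have hc : 0 < Real.log (20 / 19) := Real.log_pos (by norm_num)
  have hK : (0 : ℝ) ≤ W + B / Real.log (20 / 19) := by positivity
  refine ⟨_, hK, fun g => ?_⟩
  induction hN : (f g).toNat using Nat.strong_induction_on generalizing g with
  | _ N ih =>
    have h1 : (1 : ℝ) ≤ f g := by exact_mod_cast hf g
    have h2 := mul_nonneg hK (Real.log_nonneg h1)
    have h3 : (0 : ℝ) ≤ B / Real.log (20 / 19) := by positivity
    by_cases h : f g ≤ C
    · have : (wl s g : ℝ) ≤ W := by exact_mod_cast hW ⟨g, h, rfl⟩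
      linarith
    obtain ⟨k, hk⟩ := hd g (not_le.1 h)
    have h4 := hf ((d k)⁻¹ * g)
    have h5 := ih _ (by have := hf g; omega) ((d k)⁻¹ * g) rfl
    have h6 := wl_mul hs (d k) ((d k)⁻¹ * g)
    rw [mul_inv_cancel_left] at h6
    have h7 : (wl s g : ℝ) ≤ B + wl s ((d k)⁻¹ * g) := by
      exact_mod_cast h6.trans (Nat.add_le_add_right (hB ⟨k, rfl⟩) _)
    have h8 : (0 : ℝ) < f ((d k)⁻¹ * g) := by exact_mod_cast h4
    have h9 : Real.log (20 / 19) + Real.log (f ((d k)⁻¹ * g)) ≤ Real.log (f g) := by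
      rw [← Real.log_mul (by norm_num) h8.ne']
      refine Real.log_le_log (by positivity) ?_
      have : (20 : ℝ) * f ((d k)⁻¹ * g) ≤ 19 * f g := by exact_mod_cast hk
      linarith
    have h10 := mul_le_mul_of_nonneg_left h9 hK
    have h11 : B / Real.log (20 / 19) * Real.log (20 / 19) = B := div_mul_cancel₀ _ hc.ne'
    have h12 : (0 : ℝ) ≤ W * Real.log (20 / 19) := by positivity
    nlinarith

/-- The conditions on one sector. -/
def Sect (P : V) (z z' : ℤ × ℤ) : Prop :=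
  P.2.2.2 = 2 * P.1 ∧ 1 ≤ P.1 ∧ 0 < z.1 * z'.2 - z.2 * z'.1 ∧
    (80 * P.1 - 76) * 200 ≤ 20 * (2 * P.2.1 - P.2.2.1) * z.1 + 20 * (2 * P.2.2.1 - P.2.1) * z.2 ∧
    (80 * P.1 - 76) * 200 ≤ 20 * (2 * P.2.1 - P.2.2.1) * z'.1 + 20 * (2 * P.2.2.1 - P.2.1) * z'.2 ∧
    z.1 ^ 2 - z.1 * z.2 + z.2 ^ 2 ≤ 79933 ∧ z'.1 ^ 2 - z'.1 * z'.2 + z'.2 ^ 2 ≤ 79933

instance decSect (P : V) (z z' : ℤ × ℤ) : Decidable (Sect P z z') := by
  unfold Sect; infer_instance

theorem Sect.bound {P : V} {z z' : ℤ × ℤ} (h : Sect P z z') {t u v : ℤ} (ht : 0 < t)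
    (h1 : 0 ≤ z.1 * v - z.2 * u) (h2 : z'.1 * v - z'.2 * u ≤ 0)
    (h3 : 19 * (4 * t) < 20 * bt (t, u, v, 2 * t) P) (h4 : u ^ 2 - u * v + v ^ 2 = 2 * t ^ 2 - 2) :
    t ≤ 35 := by
  obtain ⟨a, b, c, d⟩ := P
  obtain ⟨p, q⟩ := z
  obtain ⟨p', q'⟩ := z'
  obtain ⟨k0, k1, k2, k3, k4, k5, k6⟩ := h
  simp only [bt] at *
  subst k0
  obtain ⟨l, hl⟩ : ∃ l, l = q' * u - p' * v := ⟨_, rfl⟩
  obtain ⟨m, hm⟩ : ∃ m, m = p * v - q * u := ⟨_, rfl⟩
  obtain ⟨D, hD⟩ : ∃ D, D = p * q' - q * p' := ⟨_, rfl⟩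
  have l0 : 0 ≤ l := by omega
  have m0 : 0 ≤ m := by omega
  have D0 : 0 < D := by omega
  have e1 : D * u = l * p + m * p' := by rw [hl, hm, hD]; ring
  have e2 : D * v = l * q + m * q' := by rw [hl, hm, hD]; ring
  have a0 : 0 < 80 * a - 76 := by omega
  have f1 : (80 * a - 76) * (200 * (l + m)) ≤ (80 * a - 76) * (D * t) := by
    have g1 := mul_le_mul_of_nonneg_left k3 l0
    have g2 := mul_le_mul_of_nonneg_left k4 m0
    have g3 : 20 * (2 * b - c) * u + 20 * (2 * c - b) * v ≤ (80 * a - 76) * t := by linarith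
    have g4 := mul_le_mul_of_nonneg_left g3 D0.le
    have g5 : D * (20 * (2 * b - c) * u + 20 * (2 * c - b) * v) =
        20 * (2 * b - c) * (D * u) + 20 * (2 * c - b) * (D * v) := by ring
    rw [g5, e1, e2] at g4
    linarith
  have f2 : 200 * (l + m) ≤ D * t := le_of_mul_le_mul_left f1 a0
  have f3 : D ^ 2 * (2 * t ^ 2 - 2) ≤ (l + m) ^ 2 * 79933 := by
    have g1 : D ^ 2 * (u ^ 2 - u * v + v ^ 2) = (D * u) ^ 2 - (D * u) * (D * v) + (D * v) ^ 2 := by
      ring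
    rw [← h4, g1, e1, e2]
    have g2 := mul_le_mul_of_nonneg_left k5 (mul_nonneg l0 (add_nonneg l0 m0))
    have g3 := mul_le_mul_of_nonneg_left k6 (mul_nonneg m0 (add_nonneg l0 m0))
    have g4 : 0 ≤ (p - p') ^ 2 - (p - p') * (q - q') + (q - q') ^ 2 := by
      nlinarith [sq_nonneg (p - p' - (q - q')), sq_nonneg (p - p'), sq_nonneg (q - q')]
    nlinarith [mul_nonneg (mul_nonneg l0 m0) g4]
  have f4 : (200 * (l + m)) ^ 2 ≤ (D * t) ^ 2 := pow_le_pow_left₀ (by positivity) f2 2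
  have f5 : D ^ 2 * (67 * t ^ 2) ≤ D ^ 2 * 80000 := by nlinarith
  have f6 := le_of_mul_le_mul_left f5 (by positivity)
  nlinarith

end Pool.Agent.E5f.Ar

end
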