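import Pool.Agent.Mg.S03381.G54d886
import Pool.Agent.Mg.S03381.G09b917
import Pool.Agent.Mg.S03381.G59530b

section

/-!
The action of passes on a full block.
-/

set_option autoImplicit false
set_option linter.unusedSimpArgs false
set_option linter.unusedSectionVars false

namespace Pool.Agent.E5f.Wall

open Classical

variable {L : Type}

/-- The nontrivial letter at a label. -/
def lc (x : L) : W L C2 := lt x c2

theorem c2_ne : c2 ≠ 1 := by decide
theorem c2_cases (x : C2) : x = 1 ∨ x = c2 := by revert x; decide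
theorem c2_mul : c2 * c2 = 1 := by decide

@[simp] theorem lc_mul (x : L) : lc x * lc x = 1 := by rw [lc, ← lt_mul, c2_mul, lt_one]
@[simp] theorem lc_cancel (x : L) (g : W L C2) : lc x * (lc x * g) = g := by
  rw [← mul_assoc, lc_mul, one_mul]
@[simp] theorem lc_inv (x : L) : (lc x)⁻¹ = lc x := inv_eq_of_mul_eq_one_right (lc_mul x)
theorem lab_lc (x : L) : lab (lc x) = [x] := by rw [lab, lc, wd_lt x c2_ne]; rfl

theorem ext_lc {G : Type} [Group G] {f f' : W L C2 →* G} {S : Set L}
    (h : ∀ l ∈ S, f (lc l) = f' (lc l)) {g : W L C2} (hg : Sup S g) : f g = f' g := by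
  refine W_ext_sup (fun l hl x => ?_) hg
  rcases c2_cases x with rfl | rfl
  · simp
  · exact h l hl

theorem sup_map_lc {S T : Set L} {f : W L C2 →* W L C2} (h : ∀ l ∈ S, Sup T (f (lc l)))
    {g : W L C2} (hg : Sup S g) : Sup T (f g) := by
  refine sup_map (fun l hl x => ?_) hg
  rcases c2_cases x with rfl | rfl
  · simpa using sup_one T
  · exact h l hl

theorem sup_lc {S : Set L} {l : L} (hl : l ∈ S) : Sup S (lc l) := sup_lt c2 hl

theorem sw_lc (x y l : L) : sw x y c2 (lc l) = if l = y then lc x * lc y * lc x else lc l := by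
  unfold lc
  rw [sw_lt]
  split_ifs
  · rw [show (lt x c2 : W L C2)⁻¹ = lt x c2 from lc_inv x]
  · rfl

theorem eq_prod_lc (h : W L C2) : h = ((lab h).map lc).prod := by
  conv_lhs => rw [← ev_wd h]
  rw [lab, ev, List.map_map]
  congr 1
  refine List.map_congr_left (fun e he => ?_)
  have := (red_wd h).1 e he
  simp only [Function.comp, lc]
  rw [(c2_cases e.2).resolve_left this]

theorem lab_inv (h : W L C2) : lab h⁻¹ = (lab h).reverse := by
  have h1 : h⁻¹ = ev ((lab h).reverse.map (fun l => (l, c2))) := by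
    conv_lhs => rw [eq_prod_lc h]
    rw [List.prod_inv_reverse, ev]
    have e : (fun x : L => (lc x)⁻¹) = fun x => lt x c2 := funext (fun x => lc_inv x)
    simp only [List.map_reverse, List.map_map, Function.comp_def, e]
  rw [h1, lab_ev]
  · simp [List.map_map, Function.comp_def]
  · refine ⟨?_, ?_⟩
    · intro e he
      obtain ⟨l, -, rfl⟩ := List.mem_map.1 he
      exact c2_ne
    · rw [List.isChain_map, List.isChain_reverse]
      exact (lab_chain h).imp (fun _ _ h => h.symm)

/-- The homomorphism conjugating each letter. -/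
noncomputable def cjH (w : L → W L C2) : W L C2 →* W L C2 :=
  lf (fun l => (MulAut.conj (w l)).toMonoidHom.comp (ltH l))

theorem cjH_lc (w : L → W L C2) (l : L) : cjH w (lc l) = w l * lc l * (w l)⁻¹ := by
  unfold cjH lc
  rw [lf_lt]
  rfl

/-- The composite of a list of swap maps. -/
noncomputable def actH : List (L × L) → W L C2 →* W L C2
  | [] => MonoidHom.id _
  | e :: c => (actH c).comp (sw e.1 e.2 c2)

theorem actH_append (c c' : List (L × L)) (g : W L C2) : actH (c ++ c') g = actH c' (actH c g) := by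
  induction c generalizing g with
  | nil => rfl
  | cons e c ih => exact ih _

section three
variable (o a b : L)

/-- The map of one pass. -/
noncomputable def TP (σ : Bool) : W L C2 →* W L C2 :=
  cjH (fun l => if σ = true then (if l = o then lc b * lc a else if l = b then lc a else 1)
    else (if l = a then lc o * lc b else if l = b then lc o else 1))

/-- The map of `n` passes. -/
noncomputable def TT : ℕ → Bool → W L C2 →* W L C2
  | 0, _ => MonoidHom.id _
  | n + 1, σ => (TT n (!σ)).comp (TP o a b σ)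

/-- The state of a pass; the propositions say which pairs have been exchanged. -/
def Inv (σ : Bool) (s1 s2 s3 : Prop) (τ : W L C2 →* W L C2) : Prop :=
  if σ = true then
    τ (lc o) = (if s1 then (if s2 then (if s3 then lc b * lc a * lc o * lc a * lc b
      else lc a * lc b * lc o * lc b * lc a) else lc a * lc o * lc a)
      else (if s2 then lc b * lc o * lc b else lc o)) ∧ τ (lc a) = lc a ∧
    τ (lc b) = (if s3 then lc a * lc b * lc a else lc b)
  else
    τ (lc o) = lc o ∧
    τ (lc a) = (if s3 then (if s2 then (if s1 then lc o * lc b * lc a * lc b * lc o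
      else lc o * lc b * lc o * lc a * lc o * lc b * lc o) else lc b * lc a * lc b)
      else (if s1 then lc o * lc a * lc o else lc a)) ∧
    τ (lc b) = (if s2 then lc o * lc b * lc o else lc b)

variable {o a b} (hoa : o ≠ a) (hob : o ≠ b) (hab : a ≠ b)
include hoa hob hab

theorem inv_oa {σ : Bool} {s : Prop} {τ : W L C2 →* W L C2} (h : Inv o a b σ False s s τ) :
    Inv o a b σ True s s
      ((sw (if σ = true then a else o) (if σ = true then o else a) c2).comp τ) := by
  by_cases hs : s <;> cases σ <;> simp only [Inv, hs] at h ⊢ <;> simp at h ⊢ <;>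
    simp [h.1, h.2.1, h.2.2, sw_lc, hoa, hob, hab, hoa.symm, hob.symm, hab.symm, mul_assoc]

theorem inv_ob {σ : Bool} {s : Prop} {τ : W L C2 →* W L C2} (h : Inv o a b σ s False (¬ s) τ) :
    Inv o a b σ s True (¬ s)
      ((sw (if σ = true then b else o) (if σ = true then o else b) c2).comp τ) := by
  by_cases hs : s <;> cases σ <;> simp only [Inv, hs] at h ⊢ <;> simp at h ⊢ <;>
    simp [h.1, h.2.1, h.2.2, sw_lc, hoa, hob, hab, hoa.symm, hob.symm, hab.symm, mul_assoc]

theorem inv_ab {σ : Bool} {s : Prop} {τ : W L C2 →* W L C2} (h : Inv o a b σ s s False τ) :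
    Inv o a b σ s s True
      ((sw (if σ = true then a else b) (if σ = true then b else a) c2).comp τ) := by
  by_cases hs : s <;> cases σ <;> simp only [Inv, hs] at h ⊢ <;> simp at h ⊢ <;>
    simp [h.1, h.2.1, h.2.2, sw_lc, hoa, hob, hab, hoa.symm, hob.symm, hab.symm, mul_assoc]

omit hoa hob hab in
theorem inv_out {σ : Bool} {s1 s2 s3 : Prop} {τ : W L C2 →* W L C2} (h : Inv o a b σ s1 s2 s3 τ)
    {x y : L} (h1 : o ≠ y) (h2 : a ≠ y) (h3 : b ≠ y) :
    Inv o a b σ s1 s2 s3 ((sw x y c2).comp τ) := by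
  by_cases e1 : s1 <;> by_cases e2 : s2 <;> by_cases e3 : s3 <;> cases σ <;>
    simp only [Inv, e1, e2, e3] at h ⊢ <;> simp at h ⊢ <;>
    simp [h.1, h.2.1, h.2.2, sw_lc, h1, h2, h3]

omit hoa hob hab in
theorem pl1 {p d : Prop} (h : p ↔ d) : (¬ (p ↔ d)) = False := by rw [eq_iff_iff]; tauto

omit hoa hob hab in
theorem pl2 {p q d : Prop} (hq : q ↔ ¬ p) (h : p ↔ d) : (¬ (q ↔ d)) = True := by
  rw [eq_iff_iff]; tauto

omit hoa hob hab in
theorem pl3 {p q d : Prop} (hq : q ↔ ¬ p) : (¬ (q ↔ d)) = ¬ (¬ (p ↔ d)) := by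
  rw [eq_iff_iff]; tauto

omit hoa hob hab in
theorem pl4 {p q r d : Prop} (hq : q ↔ ¬ r) (hr : r ↔ ¬ p) : (¬ (q ↔ d)) = (¬ (p ↔ d)) := by
  rw [eq_iff_iff]; tauto

theorem inv_chain {κ : Type} [LinearOrder κ] {S : Set L} {k0 k1 : L → κ} (ho : o ∈ S) (ha : a ∈ S)
    (hb : b ∈ S) {d : Prop} (d1 : k0 o < k0 a ↔ d) (d2 : k0 o < k0 b ↔ d) (d3 : k0 a < k0 b ↔ d)
    (i0 : Function.Injective k0) {σ : Bool} (c : List (L × L))
    (hc : ∀ e ∈ c, (e.1 ≠ o ∧ e.1 ≠ a ∧ e.1 ≠ b ∧ e.2 ≠ o ∧ e.2 ≠ a ∧ e.2 ≠ b) ∨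
      e = (if σ = true then a else o, if σ = true then o else a) ∨
      e = (if σ = true then b else o, if σ = true then o else b) ∨
      e = (if σ = true then a else b, if σ = true then b else a))
    (k : L → κ) (hk : Function.Injective k) (hch : Chn S k0 k1 k c) (τ : W L C2 →* W L C2)
    (h : Inv o a b σ (¬ (k o < k a ↔ d)) (¬ (k o < k b ↔ d)) (¬ (k a < k b ↔ d)) τ) :
    Inv o a b σ (¬ (kend k c o < kend k c a ↔ d)) (¬ (kend k c o < kend k c b ↔ d))
      (¬ (kend k c a < kend k c b ↔ d)) ((actH c).comp τ) := by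
  induction c generalizing k τ with
  | nil => exact h
  | cons e c ih =>
    obtain ⟨hA, hu, -, hch'⟩ := hch
    have flip : ∀ (k : L → κ), Function.Injective k → ∀ x y, x ≠ y → (k y < k x ↔ ¬ k x < k y) :=
      fun k hk x y hxy => ⟨fun h1 => not_lt_of_gt h1,
        fun h1 => lt_of_le_of_ne (not_lt.1 h1) (fun h2 => hxy (hk h2).symm)⟩
    have f1 := flip k hk o a hoa
    have f2 := flip k hk o b hob
    have f3 := flip k hk a b hab
    have g1 := flip k0 i0 o a hoa
    have g2 := flip k0 i0 o b hob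
    have g3 := flip k0 i0 a b hab
    refine ih (fun e' he' => hc e' (List.mem_cons_of_mem _ he')) (ks k e.1 e.2) (ks_inj hk _ _)
      hch' ((sw e.1 e.2 c2).comp τ) ?_
    rcases hc e (by simp) with h1 | rfl | rfl | rfl
    · have q : ∀ x, x ≠ e.1 → x ≠ e.2 → ks k e.1 e.2 x = k x := fun x h1 h2 => by
        simp [ks, Equiv.swap_apply_of_ne_of_ne h1 h2]
      rw [q o h1.1.symm h1.2.2.2.1.symm, q a h1.2.1.symm h1.2.2.2.2.1.symm,
        q b h1.2.2.1.symm h1.2.2.2.2.2.symm]
      exact inv_out h h1.2.2.2.1.symm h1.2.2.2.2.1.symm h1.2.2.2.2.2.symm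
    · have q : ks k (if σ = true then a else o) (if σ = true then o else a) o = k a ∧
          ks k (if σ = true then a else o) (if σ = true then o else a) a = k o ∧
          ks k (if σ = true then a else o) (if σ = true then o else a) b = k b := by
        cases σ <;> simp [ks, Equiv.swap_apply_of_ne_of_ne hob.symm hab.symm,
          Equiv.swap_apply_of_ne_of_ne hab.symm hob.symm]
      have adj : (k o < k b ↔ k a < k b) ∧ (k o < k a ↔ d) := by
        cases σ
        · have := hA.adj b hb hob.symm hab.symm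
          simp only [Bool.false_eq_true, if_false] at this hu
          rw [f2, f3, not_iff_not] at this
          exact ⟨this, hu.trans d1⟩
        · have := hA.adj b hb hab.symm hob.symm
          simp only [if_true] at this hu
          rw [f2, f3, not_iff_not] at this
          rw [f1, g1, not_iff_not] at hu
          exact ⟨this.symm, hu.trans d1⟩
      simp only [q.1, q.2.1, q.2.2]
      have e1 : (¬ (k o < k a ↔ d)) = False := pl1 adj.2
      have e2 : (¬ (k a < k o ↔ d)) = True := pl2 f1 adj.2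
      have e3 : (¬ (k o < k b ↔ d)) = (¬ (k a < k b ↔ d)) := by rw [adj.1]
      rw [e1, e3] at h
      rw [e2, e3]
      exact inv_oa hoa hob hab h
    · have q : ks k (if σ = true then b else o) (if σ = true then o else b) o = k b ∧
          ks k (if σ = true then b else o) (if σ = true then o else b) a = k a ∧
          ks k (if σ = true then b else o) (if σ = true then o else b) b = k o := by
        cases σ <;> simp [ks, Equiv.swap_apply_of_ne_of_ne hoa.symm hab,
          Equiv.swap_apply_of_ne_of_ne hab hoa.symm]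
      have adj : (k a < k o ↔ k a < k b) ∧ (k o < k b ↔ d) := by
        cases σ
        · have := hA.adj a ha hoa.symm hab
          simp only [Bool.false_eq_true, if_false] at this hu
          exact ⟨this, hu.trans d2⟩
        · have := hA.adj a ha hab hoa.symm
          simp only [if_true] at this hu
          rw [f2, g2, not_iff_not] at hu
          exact ⟨this.symm, hu.trans d2⟩
      simp only [q.1, q.2.1, q.2.2]
      have e1 : (¬ (k o < k b ↔ d)) = False := pl1 adj.2
      have e2 : (¬ (k b < k o ↔ d)) = True := pl2 f2 adj.2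
      have e3 : (¬ (k a < k b ↔ d)) = ¬ (¬ (k o < k a ↔ d)) := pl3 (adj.1.symm.trans f1)
      have e4 : (¬ (k b < k a ↔ d)) = (¬ (k o < k a ↔ d)) := pl4 f3 (adj.1.symm.trans f1)
      have e5 : (¬ (k a < k o ↔ d)) = ¬ (¬ (k o < k a ↔ d)) := pl3 f1
      rw [e1, e3] at h
      rw [e2, e4, e5]
      exact inv_ob hoa hob hab h
    · have q : ks k (if σ = true then a else b) (if σ = true then b else a) o = k o ∧
          ks k (if σ = true then a else b) (if σ = true then b else a) a = k b ∧
          ks k (if σ = true then a else b) (if σ = true then b else a) b = k a := by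
        cases σ <;> simp [ks, Equiv.swap_apply_of_ne_of_ne hoa hob,
          Equiv.swap_apply_of_ne_of_ne hob hoa]
      have adj : (k o < k a ↔ k o < k b) ∧ (k a < k b ↔ d) := by
        cases σ
        · have := hA.adj o ho hob hoa
          simp only [Bool.false_eq_true, if_false] at this hu
          rw [f3, g3, not_iff_not] at hu
          exact ⟨this.symm, hu.trans d3⟩
        · have := hA.adj o ho hoa hob
          simp only [if_true] at this hu
          exact ⟨this, hu.trans d3⟩
      simp only [q.1, q.2.1, q.2.2]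
      have e1 : (¬ (k a < k b ↔ d)) = False := pl1 adj.2
      have e2 : (¬ (k b < k a ↔ d)) = True := pl2 f3 adj.2
      have e3 : (¬ (k o < k a ↔ d)) = (¬ (k o < k b ↔ d)) := by rw [adj.1]
      rw [e1, e3] at h
      rw [e2, e3]
      exact inv_ab hoa hob hab h

theorem TP_o (σ : Bool) : TP o a b σ (lc o) =
    if σ = true then lc b * lc a * lc o * lc a * lc b else lc o := by
  cases σ <;> simp [TP, cjH_lc, hoa, hob, mul_assoc]

omit hob in
theorem TP_a (σ : Bool) : TP o a b σ (lc a) =
    if σ = true then lc a else lc o * lc b * lc a * lc b * lc o := by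
  cases σ <;> simp [TP, cjH_lc, hoa.symm, hab, mul_assoc]

omit hoa in
theorem TP_b (σ : Bool) : TP o a b σ (lc b) =
    if σ = true then lc a * lc b * lc a else lc o * lc b * lc o := by
  cases σ <;> simp [TP, cjH_lc, hob.symm, hab.symm, mul_assoc]

/-- One pass acts on a full block by `TP`. -/
theorem pass_eq {κ : Type} [LinearOrder κ] {S : Set L} {k0 k1 : L → κ} (ho : o ∈ S) (ha : a ∈ S)
    (hb : b ∈ S) {d : Prop} (d1 : k0 o < k0 a ↔ d) (d2 : k0 o < k0 b ↔ d) (d3 : k0 a < k0 b ↔ d)
    (d1' : k1 o < k1 a ↔ ¬ d) (d2' : k1 o < k1 b ↔ ¬ d) (d3' : k1 a < k1 b ↔ ¬ d)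
    {σ : Bool} {c : List (L × L)} (hF : FCh S k0 k1 c)
    (hc : ∀ e ∈ c, (e.1 ≠ o ∧ e.1 ≠ a ∧ e.1 ≠ b ∧ e.2 ≠ o ∧ e.2 ≠ a ∧ e.2 ≠ b) ∨
      e = (if σ = true then a else o, if σ = true then o else a) ∨
      e = (if σ = true then b else o, if σ = true then o else b) ∨
      e = (if σ = true then a else b, if σ = true then b else a))
    {g : W L C2} (hg : Sup {o, a, b} g) : actH c g = TP o a b σ g := by
  have h := inv_chain hoa hob hab ho ha hb d1 d2 d3 hF.inj0 c hc k0 hF.inj0 hF.chn
    (MonoidHom.id _) (by cases σ <;> simp [Inv, d1, d2, d3])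
  rw [hF.fin o ho a ha, hF.fin o ho b hb, hF.fin a ha b hb, d1', d2', d3'] at h
  have e : (¬ (¬ d ↔ d)) = True := pl2 Iff.rfl Iff.rfl
  rw [e] at h
  refine ext_lc (fun l hl => ?_) hg
  rcases hl with rfl | rfl | rfl
  · rw [TP_o hoa hob hab]; cases σ <;> simp [Inv] at h ⊢ <;> exact h.1
  · rw [TP_a hoa hab]; cases σ <;> simp [Inv] at h ⊢ <;> exact h.2.1
  · rw [TP_b hob hab]; cases σ <;> simp [Inv] at h ⊢ <;> exact h.2.2

theorem sup_TP (σ : Bool) {g : W L C2} (hg : Sup {o, a, b} g) : Sup {o, a, b} (TP o a b σ g) := by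
  have qo : Sup {o, a, b} (lc o) := sup_lc (by simp)
  have qa : Sup {o, a, b} (lc a) := sup_lc (by simp)
  have qb : Sup {o, a, b} (lc b) := sup_lc (by simp)
  refine sup_map_lc (fun l hl => ?_) hg
  rcases hl with rfl | rfl | rfl
  · rw [TP_o hoa hob hab]; split_ifs <;> repeat first | assumption | apply sup_mul
  · rw [TP_a hoa hab]; split_ifs <;> repeat first | assumption | apply sup_mul
  · rw [TP_b hob hab]; split_ifs <;> repeat first | assumption | apply sup_mul

theorem TP_TP (σ : Bool) {g : W L C2} (hg : Sup {o, a, b} g) :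
    TP o a b σ (TP o a b σ g) = g := by
  refine ext_lc (f := (TP o a b σ).comp (TP o a b σ)) (f' := MonoidHom.id _) (fun l hl => ?_) hg
  rcases hl with rfl | rfl | rfl <;> cases σ <;>
    simp [TP_o hoa hob hab, TP_a hoa hab, TP_b hob hab, mul_assoc]

theorem sup_TT (n : ℕ) (σ : Bool) {g : W L C2} (hg : Sup {o, a, b} g) :
    Sup {o, a, b} (TT o a b n σ g) := by
  induction n generalizing σ g with
  | zero => exact hg
  | succ n ih => exact ih _ (sup_TP hoa hob hab σ hg)

omit hoa hob hab in
theorem TT_snoc (n : ℕ) (σ : Bool) (g : W L C2) :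
    TT o a b (n + 1) σ g = TP o a b (if Even n then σ else !σ) (TT o a b n σ g) := by
  induction n generalizing σ g with
  | zero => simp [TT]
  | succ n ih =>
    have := ih (!σ) (TP o a b σ g)
    have e : (if Even n then !σ else !!σ) = (if Even (n + 1) then σ else !σ) := by
      by_cases h : Even n <;> simp [h, Nat.even_add_one]
    rw [e] at this
    exact this

theorem TT_inv (n : ℕ) (σ : Bool) {g : W L C2} (hg : Sup {o, a, b} g) :
    TT o a b n (if Even n then !σ else σ) (TT o a b n σ g) = g := by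
  induction n with
  | zero => rfl
  | succ n ih =>
    rw [TT_snoc n σ]
    have e : (if Even (n + 1) then !σ else σ) = (if Even n then σ else !σ) := by
      by_cases h : Even n <;> simp [h, Nat.even_add_one]
    have e' : (!(if Even n then σ else !σ)) = (if Even n then !σ else σ) := by
      by_cases h : Even n <;> simp [h]
    rw [e]
    show TT o a b n (!(if Even n then σ else !σ)) (TP o a b _ (TP o a b _ _)) = g
    rw [TP_TP hoa hob hab _ (sup_TT hoa hob hab n σ hg), e', ih]

omit hoa hob hab in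
/-- The images of the two factors are conjugates by powers of the boundary element. -/
def Stc (o a b : L) (τ : W L C2 →* W L C2) (i i' : ℤ) : Prop :=
  τ (lc o) = (lc o * lc a * lc b) ^ i * lc o * (lc o * lc a * lc b) ^ (-i) ∧
  ∀ h, Sup {a, b} h → ∃ h', Sup {a, b} h' ∧
    τ h = (lc o * lc a * lc b) ^ i' * h' * (lc o * lc a * lc b) ^ (-i')

theorem TT_stc (n : ℕ) (σ : Bool) :
    TT o a b n σ (lc o * lc a * lc b) = (lc o * lc a * lc b) ^ (if Even n then 1 else -1 : ℤ) ∧
    ∃ j : ℕ, (n = 2 * j ∧ Stc o a b (TT o a b n σ) (if σ = true then j else -j)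
        (if σ = true then j else -j)) ∨
      (n = 2 * j + 1 ∧ Stc o a b (TT o a b n σ) (if σ = true then -j - 1 else j)
        (if σ = true then -j else j + 1)) := by
  have qa : Sup {a, b} (lc a) := sup_lc (by simp)
  have qb : Sup {a, b} (lc b) := sup_lc (by simp)
  induction n generalizing σ with
  | zero => exact ⟨by simp [TT], 0, Or.inl ⟨rfl, by simp [TT], fun h hh => ⟨h, hh, by simp [TT]⟩⟩⟩
  | succ n ih =>
    obtain ⟨hd, j, hj⟩ := ih (!σ)
    set δ : W L C2 := lc o * lc a * lc b with hδ
    have hP : TP o a b σ δ = δ⁻¹ := by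
      cases σ <;> simp [hδ, TP_o hoa hob hab, TP_a hoa hab, TP_b hob hab, mul_assoc]
    have stepA : ∀ (τ : W L C2 →* W L C2) (ε i i' : ℤ), τ δ = δ ^ ε → Stc o a b τ i i' →
        Stc o a b (τ.comp (TP o a b true)) (i - ε) i' := by
      intro τ ε i i' h1 h2
      refine ⟨?_, fun h hh => ?_⟩
      · have : TP o a b true (lc o) = δ⁻¹ * lc o * δ := by
          simp [hδ, TP_o hoa hob hab, mul_assoc]
        rw [MonoidHom.comp_apply, this, map_mul, map_mul, map_inv, h1, h2.1, ← hδ]
        group
      · refine h2.2 (TP o a b true h) (sup_map_lc (fun l hl => ?_) hh)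
        rcases hl with rfl | rfl
        · rw [TP_a hoa hab]; simpa using qa
        · rw [TP_b hob hab]; simpa using sup_mul (sup_mul qa qb) qa
    have stepB : ∀ (τ : W L C2 →* W L C2) (ε i i' : ℤ), τ δ = δ ^ ε → Stc o a b τ i i' →
        Stc o a b (τ.comp (TP o a b false)) i (i' + ε) := by
      intro τ ε i i' h1 h2
      refine ⟨?_, fun h hh => ?_⟩
      · rw [MonoidHom.comp_apply, TP_o hoa hob hab]
        exact h2.1
      · have q : Sup {a, b} (((MulAut.conj δ⁻¹).toMonoidHom.comp (TP o a b false)) h) := by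
          refine sup_map_lc (fun l hl => ?_) hh
          rcases hl with rfl | rfl
          · have : ((MulAut.conj δ⁻¹).toMonoidHom.comp (TP o l b false)) (lc l) =
                lc b * lc l * lc b * lc l * lc b * lc l * lc b := by
              simp [hδ, TP_a hoa hab, mul_assoc]
            rw [this]
            repeat first | assumption | apply sup_mul
          · have : ((MulAut.conj δ⁻¹).toMonoidHom.comp (TP o a l false)) (lc l) =
                lc l * lc a * lc l * lc a * lc l := by
              simp [hδ, TP_b hob hab, mul_assoc]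
            rw [this]
            repeat first | assumption | apply sup_mul
        obtain ⟨h', hh', e⟩ := h2.2 _ q
        refine ⟨h', hh', ?_⟩
        have e2 : TP o a b false h =
            δ * (((MulAut.conj δ⁻¹).toMonoidHom.comp (TP o a b false)) h) * δ⁻¹ := by
          simp [mul_assoc]
        rw [MonoidHom.comp_apply, e2, map_mul, map_mul, e, map_inv τ, h1, ← hδ]
        group
    refine ⟨?_, ?_⟩
    · show TT o a b n (!σ) (TP o a b σ δ) = _
      rw [hP, map_inv, hd]
      by_cases h : Even n <;> simp [h, Nat.even_add_one]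
    · rcases hj with ⟨rfl, hj⟩ | ⟨rfl, hj⟩
      · rw [if_pos (by simp)] at hd
        refine ⟨j, Or.inr ⟨rfl, ?_⟩⟩
        cases σ
        · exact stepB _ _ _ _ hd hj
        · exact stepA _ _ _ _ hd hj
      · rw [if_neg (by simp)] at hd
        refine ⟨j + 1, Or.inl ⟨by ring, ?_⟩⟩
        cases σ
        · have := stepB _ _ _ _ hd hj
          simp only [Bool.not_false, if_true] at this
          simp only [Bool.false_eq_true, if_false]
          have e : (-((j + 1 : ℕ) : ℤ)) = -j - 1 := by push_cast; ring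
          rw [e]
          exact this
        · have := stepA _ _ _ _ hd hj
          simp only [Bool.not_true, Bool.false_eq_true, if_false, sub_neg_eq_add] at this
          simp only [if_true]
          push_cast
          exact this

end three

end Pool.Agent.E5f.Wall

end

section

/-!
Patterns in the reduced words of conjugates by powers of the boundary element.
-/

set_option autoImplicit false
set_option linter.unusedSimpArgs false
set_option linter.unusedSectionVars false

namespace Pool.Agent.E5f.Wall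

open Classical

variable {L : Type}

/-- The reduced word starts and ends with `o`. -/
def CA (o : L) (g : W L C2) : Prop := (lab g).head? = some o ∧ (lab g).getLast? = some o

/-- The reduced word is nonempty and neither starts nor ends with `o`. -/
def CB (o : L) (g : W L C2) : Prop :=
  lab g ≠ [] ∧ (∀ x ∈ (lab g).head?, x ≠ o) ∧ (∀ x ∈ (lab g).getLast?, x ≠ o)

theorem lab_sand {u g v : W L C2} (hg : lab g ≠ [])
    (h1 : ∀ x ∈ (lab u).getLast?, ∀ y ∈ (lab g).head?, x ≠ y)
    (h2 : ∀ x ∈ (lab g).getLast?, ∀ y ∈ (lab v).head?, x ≠ y) :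
    lab (u * g * v) = lab u ++ lab g ++ lab v := by
  have e := lab_mul_W h1
  rw [lab_mul_W, e]
  rw [e, List.getLast?_append_of_ne_nil _ hg]
  exact h2

theorem lab_lc2 {x y : L} (h : x ≠ y) : lab (lc x * lc y) = [x, y] := by
  rw [lab_mul_W] <;> simp [lab_lc, h]

theorem lab_lc3 {x y z : L} (h : x ≠ y) (h' : y ≠ z) : lab (lc x * lc y * lc z) = [x, y, z] := by
  rw [lab_mul_W] <;> simp [lab_lc, lab_lc2 h, h']

section three
variable {o a b : L} (hoa : o ≠ a) (hob : o ≠ b) (hab : a ≠ b)
include hoa hob hab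

theorem conjA {g : W L C2} (h : CA o g) :
    lab ((lc o * lc a * lc b) * g * (lc o * lc a * lc b)⁻¹) = [o, a, b] ++ lab g ++ [b, a, o] := by
  have e : (lc o * lc a * lc b)⁻¹ = lc b * lc a * lc o := by simp [mul_assoc]
  rw [e, lab_sand, lab_lc3 hoa hab, lab_lc3 hab.symm hoa.symm]
  · intro h0; have := h.1; simp [h0] at this
  · rw [lab_lc3 hoa hab, h.1]; simpa using hob.symm
  · rw [lab_lc3 hab.symm hoa.symm, h.2]; simpa using hob

theorem conjB {g : W L C2} (h : CB o g) :
    lab ((lc o * lc a * lc b)⁻¹ * g * (lc o * lc a * lc b)) = [b, a, o] ++ lab g ++ [o, a, b] := by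
  have e : (lc o * lc a * lc b)⁻¹ = lc b * lc a * lc o := by simp [mul_assoc]
  rw [e, lab_sand h.1, lab_lc3 hoa hab, lab_lc3 hab.symm hoa.symm]
  · rw [lab_lc3 hab.symm hoa.symm]
    intro x hx y hy
    have : x = o := by simpa using hx.symm
    exact this ▸ (h.2.1 y hy).symm
  · rw [lab_lc3 hoa hab]
    intro x hx y hy
    have : y = o := by simpa using hy.symm
    exact this ▸ h.2.2 x hx

theorem powA {g : W L C2} (h : CA o g) (j : ℕ) :
    CA o ((lc o * lc a * lc b) ^ (j : ℤ) * g * (lc o * lc a * lc b) ^ (-(j : ℤ))) ∧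
      (lab g).Sublist
        (lab ((lc o * lc a * lc b) ^ (j : ℤ) * g * (lc o * lc a * lc b) ^ (-(j : ℤ)))) := by
  induction j with
  | zero => simpa using h
  | succ j ih =>
    have e : (lc o * lc a * lc b) ^ ((j + 1 : ℕ) : ℤ) * g *
        (lc o * lc a * lc b) ^ (-((j + 1 : ℕ) : ℤ)) = (lc o * lc a * lc b) *
        ((lc o * lc a * lc b) ^ (j : ℤ) * g * (lc o * lc a * lc b) ^ (-(j : ℤ))) *
        (lc o * lc a * lc b)⁻¹ := by
      generalize (lc o * lc a * lc b : W L C2) = δ
      push_cast
      group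
    rw [e]
    have := conjA hoa hob hab ih.1
    refine ⟨⟨by rw [this]; simp,
      by rw [this, List.getLast?_append_of_ne_nil _ (by simp)]; simp⟩, ?_⟩
    rw [this]
    exact ih.2.trans ((List.sublist_append_right _ _).trans (List.sublist_append_left _ _))

theorem powB {g : W L C2} (h : CB o g) (j : ℕ) :
    CB o ((lc o * lc a * lc b) ^ (-(j : ℤ)) * g * (lc o * lc a * lc b) ^ (j : ℤ)) ∧
      (lab g).Sublist
        (lab ((lc o * lc a * lc b) ^ (-(j : ℤ)) * g * (lc o * lc a * lc b) ^ (j : ℤ))) := by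
  induction j with
  | zero => simpa using h
  | succ j ih =>
    have e : (lc o * lc a * lc b) ^ (-((j + 1 : ℕ) : ℤ)) * g *
        (lc o * lc a * lc b) ^ ((j + 1 : ℕ) : ℤ) = (lc o * lc a * lc b)⁻¹ *
        ((lc o * lc a * lc b) ^ (-(j : ℤ)) * g * (lc o * lc a * lc b) ^ (j : ℤ)) *
        (lc o * lc a * lc b) := by
      generalize (lc o * lc a * lc b : W L C2) = δ
      push_cast
      group
    rw [e]
    have := conjB hoa hob hab ih.1
    refine ⟨⟨by rw [this]; simp, by rw [this]; simpa using hob.symm,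
      by rw [this, List.getLast?_append_of_ne_nil _ (by simp)]; simpa using hob.symm⟩, ?_⟩
    rw [this]
    exact ih.2.trans ((List.sublist_append_right _ _).trans (List.sublist_append_left _ _))

/-- Conjugation by a positive power, after peeling off `r` factors. -/
theorem subA {g g1 : W L C2} {i : ℤ} (r : ℕ) (hi : (r : ℤ) ≤ i) (h : CA o g1)
    (e : g1 = (lc o * lc a * lc b) ^ (r : ℤ) * g * (lc o * lc a * lc b) ^ (-(r : ℤ))) :
    (lab g1).Sublist (lab ((lc o * lc a * lc b) ^ i * g * (lc o * lc a * lc b) ^ (-i))) := by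
  obtain ⟨j, rfl⟩ : ∃ j : ℕ, i = j + r := ⟨(i - r).toNat, by omega⟩
  have := (powA hoa hob hab h j).2
  have e2 : (lc o * lc a * lc b) ^ ((j : ℤ) + r) * g * (lc o * lc a * lc b) ^ (-((j : ℤ) + r)) =
      (lc o * lc a * lc b) ^ (j : ℤ) * g1 * (lc o * lc a * lc b) ^ (-(j : ℤ)) := by
    rw [e]
    generalize (lc o * lc a * lc b : W L C2) = δ
    group
  rwa [e2]

/-- Conjugation by a negative power, after peeling off `r` factors. -/
theorem subB {g g1 : W L C2} {i : ℤ} (r : ℕ) (hi : i ≤ -(r : ℤ)) (h : CB o g1)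
    (e : g1 = (lc o * lc a * lc b) ^ (-(r : ℤ)) * g * (lc o * lc a * lc b) ^ (r : ℤ)) :
    (lab g1).Sublist (lab ((lc o * lc a * lc b) ^ i * g * (lc o * lc a * lc b) ^ (-i))) := by
  obtain ⟨j, rfl⟩ : ∃ j : ℕ, i = -((j : ℤ) + r) := ⟨(-i - r).toNat, by omega⟩
  have := (powB hoa hob hab h j).2
  have e2 : (lc o * lc a * lc b) ^ (-((j : ℤ) + r)) * g *
      (lc o * lc a * lc b) ^ (-(-((j : ℤ) + r))) =
      (lc o * lc a * lc b) ^ (-(j : ℤ)) * g1 * (lc o * lc a * lc b) ^ (j : ℤ) := by
    rw [e]
    generalize (lc o * lc a * lc b : W L C2) = δ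
    group
  rwa [e2]

omit hab in
theorem cb_of_sup {h : W L C2} (hh : Sup {a, b} h) (h1 : h ≠ 1) : CB o h := by
  have q : ∀ x ∈ lab h, x ≠ o := by
    intro x hx
    rcases hh x hx with rfl | rfl
    · exact hoa.symm
    · exact hob.symm
  exact ⟨fun h0 => h1 (lab_eq_nil.1 h0), fun x hx => q x (List.mem_of_mem_head? hx),
    fun x hx => q x (List.mem_of_mem_getLast? hx)⟩

omit hoa hob hab in
theorem lab_oho {h : W L C2} (hh : CB o h) : lab (lc o * h * lc o) = o :: (lab h ++ [o]) := by
  rw [lab_sand hh.1, lab_lc]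
  · simp
  · rw [lab_lc]
    intro x hx y hy
    have : x = o := by simpa using hx.symm
    exact this ▸ (hh.2.1 y hy).symm
  · rw [lab_lc]
    intro x hx y hy
    have : y = o := by simpa using hy.symm
    exact this ▸ hh.2.2 x hx

omit hoa hob hab in
theorem ca_oho {h : W L C2} (hh : CB o h) : CA o (lc o * h * lc o) := by
  unfold CA
  rw [lab_oho hh]
  refine ⟨by simp, ?_⟩
  rw [← List.cons_append, List.getLast?_concat]

theorem F1a {h : W L C2} (hh : Sup {a, b} h) (h1 : h ≠ 1) {i : ℤ} (hi : i ≠ 0) :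
    ∃ h', Sup {a, b} h' ∧ h' ≠ 1 ∧ (∀ x, expo x h' = expo x h) ∧ (o :: (lab h' ++ [o])).Sublist
      (lab ((lc o * lc a * lc b) ^ i * h * (lc o * lc a * lc b) ^ (-i))) := by
  have qa : Sup {a, b} (lc a) := sup_lc (by simp)
  have qb : Sup {a, b} (lc b) := sup_lc (by simp)
  rcases lt_or_gt_of_ne hi with hi | hi
  · refine ⟨h, hh, h1, fun _ => rfl, ?_⟩
    have hc := cb_of_sup hoa hob hh h1
    have e := conjB hoa hob hab hc
    have hc' := (powB hoa hob hab hc 1).1
    refine List.Sublist.trans ?_ (subB hoa hob hab 1 (by omega) hc' rfl)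
    simp only [Nat.cast_one, zpow_neg, zpow_one]
    rw [e]
    simp only [List.cons_append, List.nil_append, List.append_assoc]
    exact (((List.Sublist.append_left (by simp) _).cons_cons o).cons a).cons b
  · have hs : Sup {a, b} (lc a * lc b * h * (lc a * lc b)⁻¹) :=
      sup_mul (sup_mul (sup_mul qa qb) hh) (sup_inv (sup_mul qa qb))
    have hn : lc a * lc b * h * (lc a * lc b)⁻¹ ≠ 1 := fun h0 => h1 (by
      have := congrArg (fun g => (lc a * lc b)⁻¹ * g * (lc a * lc b)) h0
      simpa [mul_assoc] using this)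
    refine ⟨_, hs, hn, fun x => by
      rw [map_mul, map_mul, map_inv, mul_inv_cancel_comm], ?_⟩
    have hc := cb_of_sup hoa hob hs hn
    rw [← lab_oho hc]
    exact subA hoa hob hab 1 (by omega) (ca_oho hc) (by simp [mul_assoc])

theorem F1b {h : W L C2} (hh : Sup {a, b} h) (h1 : h ≠ 1) {i : ℤ} (hi : i ≠ 0) (hi' : i ≠ 1) :
    ∃ x y, x ≠ o ∧ y ≠ o ∧ [x, o, y].Sublist
      (lab ((lc o * lc a * lc b) ^ i * h * (lc o * lc a * lc b) ^ (-i))) := by
  rcases lt_or_gt_of_ne hi with hi | hi
  · have hc := cb_of_sup hoa hob hh h1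
    have e := conjB hoa hob hab hc
    have hc' := (powB hoa hob hab hc 1).1
    refine ⟨b, b, hob.symm, hob.symm,
      List.Sublist.trans ?_ (subB hoa hob hab 1 (by omega) hc' rfl)⟩
    simp only [Nat.cast_one, zpow_neg, zpow_one]
    rw [e]
    simp only [List.cons_append, List.nil_append, List.append_assoc]
    exact ((((List.Sublist.trans (by simp) (List.sublist_append_right _ _)).cons_cons o).cons
      a).cons_cons b)
  · have qa : Sup {a, b} (lc a) := sup_lc (by simp)
    have qb : Sup {a, b} (lc b) := sup_lc (by simp)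
    have hs : Sup {a, b} (lc a * lc b * h * (lc a * lc b)⁻¹) :=
      sup_mul (sup_mul (sup_mul qa qb) hh) (sup_inv (sup_mul qa qb))
    have hn : lc a * lc b * h * (lc a * lc b)⁻¹ ≠ 1 := fun h0 => h1 (by
      have := congrArg (fun g => (lc a * lc b)⁻¹ * g * (lc a * lc b)) h0
      simpa [mul_assoc] using this)
    have hc := ca_oho (cb_of_sup hoa hob hs hn)
    have e := conjA hoa hob hab hc
    have hc' := (powA hoa hob hab hc 1).1
    refine ⟨a, a, hoa.symm, hoa.symm, List.Sublist.trans ?_ (subA hoa hob hab 2 (by omega) hc'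
      (by simp [mul_assoc, zpow_ofNat, pow_two]))⟩
    simp only [Nat.cast_one, zpow_neg, zpow_one]
    rw [e, lab_oho (cb_of_sup hoa hob hs hn)]
    simp only [List.cons_append, List.nil_append, List.append_assoc]
    exact ((((List.Sublist.trans (by simp) (List.sublist_append_right _ _)).cons_cons o).cons
      b).cons_cons a).cons o

theorem F2a {i : ℤ} (hi : i ≠ 0) : [a, a].Sublist
      (lab ((lc o * lc a * lc b) ^ i * lc o * (lc o * lc a * lc b) ^ (-i))) := by
  rcases lt_or_gt_of_ne hi with hi | hi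
  · have e : lab (lc b * lc a * lc o * (lc a * lc b)) = [b, a, o, a, b] := by
      rw [lab_mul_W] <;> simp [lab_lc3 hab.symm hoa.symm, lab_lc2 hab, hoa]
    have hc : CB o (lc b * lc a * lc o * (lc a * lc b)) := by
      unfold CB; rw [e]; simpa using hob.symm
    refine List.Sublist.trans ?_ (subB hoa hob hab 1 (by omega) hc (by simp [mul_assoc]))
    rw [e]
    exact (((List.Sublist.cons_cons a (by simp)).cons o).cons_cons a).cons b
  · have hc : CA o (lc o) := by unfold CA; simp [lab_lc]
    have e := conjA hoa hob hab hc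
    have hc' := (powA hoa hob hab hc 1).1
    refine List.Sublist.trans ?_ (subA hoa hob hab 1 (by omega) hc' rfl)
    simp only [Nat.cast_one, zpow_neg, zpow_one]
    rw [e, lab_lc]
    exact (((((List.Sublist.cons_cons a (by simp)).cons b).cons o).cons b).cons_cons a).cons o

theorem F2b {i : ℤ} (hi : i ≠ 0) (hi' : i ≠ -1) : [o, a, o].Sublist
      (lab ((lc o * lc a * lc b) ^ i * lc o * (lc o * lc a * lc b) ^ (-i))) := by
  rcases lt_or_gt_of_ne hi with hi | hi
  · have e : lab (lc b * lc a * lc o * (lc a * lc b)) = [b, a, o, a, b] := by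
      rw [lab_mul_W] <;> simp [lab_lc3 hab.symm hoa.symm, lab_lc2 hab, hoa]
    have hc : CB o (lc b * lc a * lc o * (lc a * lc b)) := by
      unfold CB; rw [e]; simpa using hob.symm
    have e' := conjB hoa hob hab hc
    have hc' := (powB hoa hob hab hc 1).1
    refine List.Sublist.trans ?_ (subB hoa hob hab 2 (by omega) hc'
      (by simp [mul_assoc, zpow_ofNat, pow_two]))
    simp only [Nat.cast_one, zpow_neg, zpow_one]
    rw [e', e]
    exact ((((((List.Sublist.cons_cons o (by simp)).cons_cons a).cons b).cons_cons o).cons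
      a).cons b)
  · have hc : CA o (lc o) := by unfold CA; simp [lab_lc]
    have e := conjA hoa hob hab hc
    have hc' := (powA hoa hob hab hc 1).1
    refine List.Sublist.trans ?_ (subA hoa hob hab 1 (by omega) hc' rfl)
    simp only [Nat.cast_one, zpow_neg, zpow_one]
    rw [e, lab_lc]
    exact (((List.Sublist.cons_cons o (by simp)).cons b).cons_cons a).cons_cons o

theorem F3 {h : W L C2} (hh : Sup {a, b} h) (h1 : h ≠ lc a * lc b) {i : ℤ} (hi : i ≠ 0) :
    ¬ (lab ((lc o * lc a * lc b) ^ i * (lc o * h) * (lc o * lc a * lc b) ^ (-i))).Nodup := by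
  have qa : Sup {a, b} (lc a) := sup_lc (by simp)
  have qb : Sup {a, b} (lc b) := sup_lc (by simp)
  intro hN
  rcases lt_or_gt_of_ne hi with hi | hi
  · have hs : Sup {a, b} (lc b * lc a * h) := sup_mul (sup_mul qb qa) hh
    have hn : lc b * lc a * h ≠ 1 := fun h0 => h1 (by
      have := congrArg (fun g => lc a * lc b * g) h0
      simpa [mul_assoc] using this)
    have hc := cb_of_sup hoa hob hs hn
    have e : lab (lc b * lc a * h * (lc o * lc a * lc b)) = lab (lc b * lc a * h) ++ [o, a, b] := by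
      rw [lab_mul_W, lab_lc3 hoa hab]
      rw [lab_lc3 hoa hab]
      intro x hx y hy
      have : y = o := by simpa using hy.symm
      exact this ▸ hc.2.2 x hx
    have hc' : CB o (lc b * lc a * h * (lc o * lc a * lc b)) := by
      unfold CB
      rw [e]
      refine ⟨by simp, ?_, by simpa using hob.symm⟩
      rw [List.head?_append_of_ne_nil _ hc.1]
      exact hc.2.1
    have := (subB hoa hob hab (g := lc o * h) 1 (by omega) hc' (by simp [mul_assoc])).nodup hN
    rw [e, List.nodup_append] at this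
    obtain ⟨x, hx⟩ := List.exists_mem_of_ne_nil _ hc.1
    rcases hs x hx with rfl | rfl
    · exact this.2.2 x hx x (by simp) rfl
    · exact this.2.2 x hx x (by simp) rfl
  · have hs : Sup {a, b} (h * (lc b * lc a)) := sup_mul hh (sup_mul qb qa)
    have hn : h * (lc b * lc a) ≠ 1 := fun h0 => h1 (by
      have := congrArg (fun g => g * (lc a * lc b)) h0
      simpa [mul_assoc] using this)
    have hc := cb_of_sup hoa hob hs hn
    have hA := ca_oho hc
    have e : lab (lc o * lc a * lc b * (lc o * (h * (lc b * lc a)) * lc o)) =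
        [o, a, b] ++ lab (lc o * (h * (lc b * lc a)) * lc o) := by
      rw [lab_mul_W, lab_lc3 hoa hab]
      rw [lab_lc3 hoa hab, hA.1]
      simpa using hob.symm
    have hc' : CA o (lc o * lc a * lc b * (lc o * (h * (lc b * lc a)) * lc o)) := by
      unfold CA
      rw [e]
      refine ⟨by simp, ?_⟩
      rw [List.getLast?_append_of_ne_nil _ (by rw [lab_oho hc]; simp)]
      exact hA.2
    have := (subA hoa hob hab (g := lc o * h) 1 (by omega) hc' (by simp [mul_assoc])).nodup hN
    rw [e, lab_oho hc] at this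
    simp at this

end three

end Pool.Agent.E5f.Wall

end

section

/-!
Patterns in the images under at least two passes.
-/

set_option autoImplicit false
set_option linter.unusedSimpArgs false
set_option linter.unusedSectionVars false

namespace Pool.Agent.E5f.Wall

open Classical

variable {L : Type}

theorem expo_cjH (w : L → W L C2) (x : L) (g : W L C2) : expo x (cjH w g) = expo x g := by
  refine ext_lc (S := Set.univ) (f := (expo x).comp (cjH w)) (f' := expo x) (fun l _ => ?_)
    (fun _ _ => trivial)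
  rw [MonoidHom.comp_apply, cjH_lc, map_mul, map_mul, map_inv, mul_inv_cancel_comm]

theorem expo_TT (o a b : L) (n : ℕ) (σ : Bool) (x : L) (g : W L C2) :
    expo x (TT o a b n σ g) = expo x g := by
  induction n generalizing σ g with
  | zero => rfl
  | succ n ih => exact (ih (!σ) _).trans (expo_cjH _ x g)

theorem expo_conj (x : L) (d g : W L C2) (i : ℤ) : expo x (d ^ i * g * d ^ (-i)) = expo x g := by
  rw [zpow_neg, map_mul, map_mul, map_inv, mul_inv_cancel_comm]

theorem expo_lc (x y : L) : expo x (lc y) = if y = x then c2 else 1 := expo_lt x y c2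

theorem eq_lc {x : L} {h : W L C2} (h1 : h ≠ 1) (hh : ∀ y ∈ lab h, y = x) : h = lc x := by
  have := eq_lt_of_sup hh
  rcases c2_cases (expo x h) with e | e
  · rw [e, lt_one] at this; exact absurd this h1
  · rw [e] at this; exact this

section three
variable {o a b : L} (hoa : o ≠ a) (hob : o ≠ b) (hab : a ≠ b) {n : ℕ} (hn : 2 ≤ n) (σ : Bool)
include hoa hob hab hn

theorem stc2 : ∃ i i' : ℤ, Stc o a b (TT o a b n σ) i i' ∧ i ≠ 0 ∧ i' ≠ 0 ∧
    ((Even n ∧ i' = i) ∨ (¬ Even n ∧ i' = i + 1)) := by
  obtain ⟨-, j, ⟨rfl, h⟩ | ⟨rfl, h⟩⟩ := TT_stc hoa hob hab n σ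
  · refine ⟨_, _, h, ?_, ?_, Or.inl ⟨by simp, rfl⟩⟩ <;> split_ifs <;> omega
  · refine ⟨_, _, h, ?_, ?_, Or.inr ⟨by simp, ?_⟩⟩ <;> split_ifs <;> omega

omit hn in
theorem TT_ne {h : W L C2} (hh : Sup {o, a, b} h) (h1 : h ≠ 1) : TT o a b n σ h ≠ 1 := by
  intro h0
  have := TT_inv hoa hob hab n σ hh
  rw [h0, map_one] at this
  exact h1 this.symm

omit hoa hob hab hn in
theorem sup3 {h : W L C2} (hh : Sup {a, b} h) : Sup {o, a, b} h :=
  fun x hx => Or.inr (hh x hx)

omit hn in
theorem stc_ex {i i' : ℤ} (H : Stc o a b (TT o a b n σ) i i') {h : W L C2} (hh : Sup {a, b} h)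
    (h1 : h ≠ 1) : ∃ g, Sup {a, b} g ∧ g ≠ 1 ∧ (∀ x, expo x g = expo x h) ∧
      TT o a b n σ h = (lc o * lc a * lc b) ^ i' * g * (lc o * lc a * lc b) ^ (-i') := by
  obtain ⟨g, hg, e⟩ := H.2 h hh
  refine ⟨g, hg, ?_, fun x => ?_, e⟩
  · rintro rfl
    exact TT_ne hoa hob hab σ (sup3 hh) h1 (by rw [e]; group)
  · rw [← expo_TT o a b n σ x h, e, expo_conj]

theorem A1 {h : W L C2} (hh : Sup {a, b} h) (h1 : h ≠ 1) : ∃ g, Sup {a, b} g ∧ g ≠ 1 ∧
    (∀ x, expo x g = expo x h) ∧ (o :: (lab g ++ [o])).Sublist (lab (TT o a b n σ h)) := by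
  obtain ⟨i, i', H, -, hi', -⟩ := stc2 hoa hob hab hn σ
  obtain ⟨g, hg, g1, ge, e⟩ := stc_ex hoa hob hab σ H hh h1
  obtain ⟨g', hg', g1', ge', e'⟩ := F1a hoa hob hab hg g1 hi'
  exact ⟨g', hg', g1', fun x => (ge' x).trans (ge x), e ▸ e'⟩

theorem A2 : [a, a].Sublist (lab (TT o a b n σ (lc o))) := by
  obtain ⟨i, i', H, hi, -, -⟩ := stc2 hoa hob hab hn σ
  rw [H.1]
  exact F2a hoa hob hab hi

theorem A3 (ho : ¬ Even n) : [o, a, o].Sublist (lab (TT o a b n σ (lc o))) := by
  obtain ⟨i, i', H, hi, hi', h | h⟩ := stc2 hoa hob hab hn σ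
  · exact absurd h.1 ho
  rw [H.1]
  exact F2b hoa hob hab hi (by omega)

theorem A4 (ho : ¬ Even n) {h : W L C2} (hh : Sup {a, b} h) (h1 : h ≠ 1) :
    ∃ x y, x ≠ o ∧ y ≠ o ∧ [x, o, y].Sublist (lab (TT o a b n σ h)) := by
  obtain ⟨i, i', H, hi, hi', h | h⟩ := stc2 hoa hob hab hn σ
  · exact absurd h.1 ho
  obtain ⟨g, hg, g1, -, e⟩ := stc_ex hoa hob hab σ H hh h1
  rw [e]
  exact F1b hoa hob hab hg g1 hi' (by omega)

theorem A5 {x : L} (hx : x = a ∨ x = b) : ¬ (lab (TT o a b n σ (lc o * lc x))).Nodup := by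
  obtain ⟨i, i', H, hi, hi', hp⟩ := stc2 hoa hob hab hn σ
  have qa : Sup {a, b} (lc a) := sup_lc (by simp)
  have qb : Sup {a, b} (lc b) := sup_lc (by simp)
  have x1 : lc x ≠ 1 := fun h0 => by have := lab_lc x; rw [h0] at this; simp at this
  obtain ⟨g, hg, -, ge, e⟩ := stc_ex hoa hob hab σ H (h := lc x) (sup_lc hx) x1
  have ne : ∀ g' : W L C2, (∀ y, expo y g' = expo y (lc x)) → g' ≠ lc a * lc b := by
    rintro g' h rfl
    rcases hx with rfl | rfl
    · have := h b
      simp [expo_lc, hab, c2_ne] at this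
    · have := h a
      simp [expo_lc, hab.symm, c2_ne] at this
  rw [map_mul, H.1, e]
  rcases hp with ⟨-, rfl⟩ | ⟨-, rfl⟩
  · have := F3 hoa hob hab hg (ne g ge) hi
    intro hN
    refine this ?_
    convert hN using 2
    generalize (lc o * lc a * lc b : W L C2) = d
    group
  · have hs : Sup {a, b} (lc a * lc b * g * (lc a * lc b)⁻¹)⁻¹ :=
      sup_inv (sup_mul (sup_mul (sup_mul qa qb) hg) (sup_inv (sup_mul qa qb)))
    have := F3 hoa hob hab hs (ne _ (fun y => by
      rw [map_inv, map_mul, map_mul, map_inv, mul_inv_cancel_comm, ge y, ← map_inv, lc_inv])) hi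
    intro hN
    refine this ?_
    rw [← List.nodup_reverse, ← lab_inv]
    have e1 : (lc o * lc a * lc b) ^ i * lc o * (lc o * lc a * lc b) ^ (-i) *
        ((lc o * lc a * lc b) ^ (i + 1) * g * (lc o * lc a * lc b) ^ (-(i + 1))) =
        (lc o * lc a * lc b) ^ i * (lc o * (lc o * lc a * lc b) * g * (lc o * lc a * lc b)⁻¹) *
          (lc o * lc a * lc b) ^ (-i) := by
      generalize (lc o * lc a * lc b : W L C2) = d
      group
    have e2 : lc o * (lc o * lc a * lc b) * g * (lc o * lc a * lc b)⁻¹ =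
        (lc o * (lc a * lc b * g * (lc a * lc b)⁻¹)⁻¹)⁻¹ := by simp [mul_assoc]
    rw [e1, e2] at hN
    convert hN using 2
    generalize (lc o * lc a * lc b : W L C2) = d
    group

/-- A word without repetition that misses a label is mapped to a word with a repetition. -/
theorem MX {h : W L C2} (hh : Sup {o, a, b} h) (h1 : h ≠ 1) (hN : (lab h).Nodup) {y : L}
    (hy : y = o ∨ y = a ∨ y = b) (hy' : y ∉ lab h) : ¬ (lab (TT o a b n σ h)).Nodup := by
  by_cases ho : o ∈ lab h
  · obtain ⟨x, hx, hs⟩ : ∃ x, (x = a ∨ x = b) ∧ ∀ z ∈ lab h, z = o ∨ z = x := by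
      rcases hy with rfl | rfl | rfl
      · exact absurd ho hy'
      · refine ⟨b, Or.inr rfl, fun z hz => ?_⟩
        rcases hh z hz with e | e | e
        · exact Or.inl e
        · exact absurd (e ▸ hz) hy'
        · exact Or.inr e
      · refine ⟨a, Or.inl rfl, fun z hz => ?_⟩
        rcases hh z hz with e | e | e
        · exact Or.inl e
        · exact Or.inr e
        · exact absurd (e ▸ hz) hy'
    have e := eq_prod_lc h
    have k : lab h = [o] ∨ lab h = [o, x] ∨ lab h = [x, o] := by
      generalize lab h = s at *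
      rcases s with _ | ⟨p, _ | ⟨q, _ | ⟨r, t⟩⟩⟩
      · simp at ho
      · left; simpa using (List.mem_singleton.1 ho).symm
      · have h1 := hs p (by simp)
        have h2 := hs q (by simp)
        have h3 : p ≠ q := by simpa using hN
        rcases h1 with rfl | rfl <;> rcases h2 with rfl | rfl <;> simp at h3 ⊢
      · have h1 := hs p (by simp)
        have h2 := hs q (by simp)
        have h3 := hs r (by simp)
        simp only [List.nodup_cons, List.mem_cons, not_or] at hN
        rcases h1 with rfl | rfl <;> rcases h2 with rfl | rfl <;> rcases h3 with rfl | rfl <;>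
          simp at hN
    rcases k with k | k | k <;> rw [k] at e <;> simp only [List.map_cons, List.map_nil,
      List.prod_cons, List.prod_nil, mul_one] at e
    · rw [e]
      intro h2
      simpa using (A2 hoa hob hab hn σ).nodup h2
    · rw [e]
      exact A5 hoa hob hab hn σ hx
    · have e' : h = (lc o * lc x)⁻¹ := by simp [e]
      rw [e', map_inv, lab_inv, List.nodup_reverse]
      exact A5 hoa hob hab hn σ hx
  · have hs : Sup {a, b} h := fun z hz => (hh z hz).resolve_left (fun e => ho (e ▸ hz))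
    obtain ⟨g, -, -, -, e⟩ := A1 hoa hob hab hn σ hs h1
    intro h2
    simpa using e.nodup h2

/-- The pattern for the even case. -/
theorem EV {u : L → ℝ} (uo : u o = 0) (hu : u a = 1 ∨ u a = 0) (ub : u b = 1) {h : W L C2}
    (hh : Sup {o, a, b} h) (h1 : h ≠ 1) (h2 : ∀ x ∈ lab h, u x = 1) :
    ∃ x y z, [x, y, z].Sublist (lab (TT o a b n σ h)) ∧ u x = 0 ∧ u y = 1 ∧ u z = 0 := by
  have hs : Sup {a, b} h := fun z hz => (hh z hz).resolve_left (fun e => by
    have := h2 z hz
    rw [e, uo] at this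
    exact zero_ne_one this)
  obtain ⟨g, hg, g1, ge, e⟩ := A1 hoa hob hab hn σ hs h1
  obtain ⟨y, hy, uy⟩ : ∃ y ∈ lab g, u y = 1 := by
    rcases hu with hu | hu
    · obtain ⟨y, hy⟩ := List.exists_mem_of_ne_nil _ (fun h0 => g1 (lab_eq_nil.1 h0))
      refine ⟨y, hy, ?_⟩
      rcases hg y hy with rfl | rfl
      · exact hu
      · exact ub
    · refine ⟨b, ?_, ub⟩
      have hb : h = lc b := eq_lc h1 (fun z hz => (hs z hz).resolve_left (fun e => by
        have := h2 z hz
        rw [e, hu] at this
        exact zero_ne_one this))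
      by_contra h3
      have := expo_of_not_mem h3
      rw [ge, hb, expo_lc, if_pos rfl] at this
      exact c2_ne this
  exact ⟨o, y, o, (((List.singleton_sublist.2 hy).append_right [o]).cons_cons o).trans e,
    uo, uy, uo⟩

end three

section J
variable {u : L → ℝ} (hu : ∀ a, u a = 0 ∨ u a = 1) {s : List L}
include hu

theorem ends01 (hs : s ≠ []) : (0 ≤ hdv u s ∧ hdv u s ≤ 1) ∧ (0 ≤ lsv u s ∧ lsv u s ≤ 1) := by
  obtain ⟨a, -, ha⟩ := hdv_mem u hs
  obtain ⟨b, -, hb⟩ := lsv_mem u hs
  rw [ha, hb]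
  rcases hu a with h | h <;> rcases hu b with h' | h' <;> simp [h, h']

omit hu in
theorem J1 {x : L} (hx : x ∈ s) (ux : u x = 1) : 2 ≤ hdv u s + Var (s.map u) + lsv u s := by
  have := var_ge_one u hx
  rw [ux] at this
  linarith [le_abs_self (1 - hdv u s), neg_abs_le (lsv u s - 1)]

omit hu in
theorem J0 {x : L} (hx : x ∈ s) (ux : u x = 0) : 0 ≤ -hdv u s + Var (s.map u) - lsv u s := by
  have := var_ge_one u hx
  rw [ux] at this
  linarith [neg_abs_le (0 - hdv u s), le_abs_self (lsv u s - 0)]

omit hu in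
theorem J101 {x y z : L} (h : [x, y, z].Sublist s) (ux : u x = 1) (uy : u y = 0) (uz : u z = 1) :
    4 ≤ hdv u s + Var (s.map u) + lsv u s := by
  have := var_sub_ends u (fun h0 => by simp [h0] at h) h
  simp only [List.map_cons, List.map_nil, ux, uy, uz, List.cons_append, List.nil_append,
    Var] at this
  norm_num at this
  linarith [le_abs_self (1 - hdv u s), neg_abs_le (lsv u s - 1)]

omit hu in
theorem J010 {x y z : L} (h : [x, y, z].Sublist s) (ux : u x = 0) (uy : u y = 1) (uz : u z = 0) :
    2 ≤ -hdv u s + Var (s.map u) - lsv u s := by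
  have := var_sub_ends u (fun h0 => by simp [h0] at h) h
  simp only [List.map_cons, List.map_nil, ux, uy, uz, List.cons_append, List.nil_append,
    Var] at this
  norm_num at this
  linarith [le_abs_self (hdv u s), le_abs_self (lsv u s)]

end J

section good
variable {o a b : L} (hoa : o ≠ a) (hob : o ≠ b) (hab : a ≠ b) {n : ℕ} (hn : 2 ≤ n) (σ : Bool)
  {u : L → ℝ} (hu : ∀ a, u a = 0 ∨ u a = 1) (uo : u o = 0) (ua : u a = 1) (ub : u b = 1)
  {h : W L C2} (hh : Sup {o, a, b} h) (h1 : h ≠ 1)
include hoa hob hab hn hu uo ua ub hh h1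

theorem good_even : 2 ≤ hdv u (lab h) + Var ((lab h).map u) + lsv u (lab h) +
    (hdv u (lab (TT o a b n σ h)) + Var ((lab (TT o a b n σ h)).map u) +
      lsv u (lab (TT o a b n σ h))) := by
  have r := ends01 hu (s := lab h) (fun h0 => h1 (lab_eq_nil.1 h0))
  have r' := ends01 hu (s := lab (TT o a b n σ h))
    (fun h0 => TT_ne hoa hob hab σ hh h1 (lab_eq_nil.1 h0))
  have v := var_nonneg_W ((lab h).map u)
  have v' := var_nonneg_W ((lab (TT o a b n σ h)).map u)
  by_cases hc : ∀ x ∈ lab h, x = o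
  · have := J1 (u := u) ((A2 hoa hob hab hn σ).subset (List.mem_cons_self)) ua
    rw [← eq_lc h1 hc] at this
    linarith [r.1.1, r.2.1]
  · push Not at hc
    obtain ⟨x, hx, hxo⟩ := hc
    have := J1 (u := u) hx (by
      rcases hh x hx with e | e | e
      · exact absurd e hxo
      · rw [e, ua]
      · rw [e, ub])
    linarith [r'.1.1, r'.2.1]

theorem good_odd (ho : ¬ Even n) : 2 ≤ hdv u (lab h) + Var ((lab h).map u) + lsv u (lab h) +
    (-hdv u (lab (TT o a b n σ h)) + Var ((lab (TT o a b n σ h)).map u) -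
      lsv u (lab (TT o a b n σ h))) := by
  have r := ends01 hu (s := lab h) (fun h0 => h1 (lab_eq_nil.1 h0))
  have h1' := TT_ne hoa hob hab (n := n) σ hh h1
  have r' := ends01 hu (s := lab (TT o a b n σ h)) (fun h0 => h1' (lab_eq_nil.1 h0))
  have v := var_nonneg_W ((lab h).map u)
  have v' := var_nonneg_W ((lab (TT o a b n σ h)).map u)
  have u1 : ∀ x ∈ lab h, x ≠ o → u x = 1 := fun x hx hxo => by
    rcases hh x hx with e | e | e
    · exact absurd e hxo
    · rw [e, ua]
    · rw [e, ub]
  by_cases hc : ∀ x ∈ lab h, x = o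
  · have := J010 (u := u) (A3 hoa hob hab hn σ ho) uo ua uo
    rw [← eq_lc h1 hc] at this
    linarith [r.1.1, r.2.1]
  · push Not at hc
    obtain ⟨x, hx, hxo⟩ := hc
    have q := J1 (u := u) hx (u1 x hx hxo)
    by_cases hd : o ∈ lab (TT o a b n σ h)
    · linarith [J0 (u := u) hd uo]
    · have hs : Sup {a, b} (TT o a b n σ h) := fun z hz =>
        (sup_TT hoa hob hab n σ hh z hz).resolve_left (fun e => hd (e ▸ hz))
      obtain ⟨y, z, hy, hz, e⟩ := A4 hoa hob hab hn (if Even n then !σ else σ) ho hs h1'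
      rw [TT_inv hoa hob hab n σ hh] at e
      have := J101 (u := u) e (u1 y (e.subset (by simp)) hy) uo (u1 z (e.subset (by simp)) hz)
      linarith [r'.1.2, r'.2.2]

end good

end Pool.Agent.E5f.Wall

end
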