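import Pool.Agent.Mg.S03381.Gf847ec
import Pool.Agent.Mg.S03381.G7cdb90

section

/-! Horoball estimates: two directions that both climb are not opposite. -/

set_option autoImplicit false

namespace Pool.Agent.E5f

variable {Q : Type} [MulAction G8 Q]

theorem Base.walk_EndThin (S : Base Q) {X W : Q × ℤ} (w : S.E.Walk X W) :
    S.dh X.1 W.1 ≤ (S.lam - 1)⁻¹ * S.lam ^ (X.2 + (w.length : ℤ)) := by
  have hl : 0 < S.lam - 1 := sub_pos.2 S.lam1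
  have hc : 0 < (S.lam - 1)⁻¹ := inv_pos.2 hl
  induction w with
  | nil =>
    rw [S.bi.ph.self]
    exact (mul_pos hc (S.lam_pos _)).le
  | @cons X Y W h w ih =>
    have ht := S.bi.ph.tri X.1 Y.1 W.1
    have hlen : ((SimpleGraph.Walk.cons h w).length : ℤ) = (w.length : ℤ) + 1 := by
      rw [SimpleGraph.Walk.length_cons]; push_cast; rfl
    rw [hlen]
    have hn : (0 : ℤ) ≤ (w.length : ℤ) := Int.natCast_nonneg _
    rcases h.2 with ⟨h1, h2, -⟩ | ⟨h1, h2⟩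
    · have h3 := S.dh_le_D X.2 X.1 Y.1
      have h4 : S.lam ^ (-X.2) * S.dh X.1 Y.1 ≤ 1 := h3.trans h2
      have h5 : S.lam ^ X.2 * S.lam ^ (-X.2) = 1 := by
        rw [← S.lam_add, add_neg_cancel, zpow_zero]
      have h6 : S.dh X.1 Y.1 ≤ S.lam ^ X.2 := by
        have := mul_le_mul_of_nonneg_left h4 (S.lam_pos X.2).le
        rwa [← mul_assoc, h5, one_mul, mul_one] at this
      have h7 : S.lam ^ X.2 ≤ S.lam ^ (X.2 + (w.length : ℤ)) := S.lam_mono (by omega)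
      rw [← h1] at ih
      have h8 : S.lam ^ (X.2 + ((w.length : ℤ) + 1)) =
          S.lam ^ (X.2 + (w.length : ℤ)) * S.lam := by
        rw [← add_assoc, S.lam_add _ 1, zpow_one]
      have h9 : (S.lam - 1)⁻¹ * S.lam = (S.lam - 1)⁻¹ + 1 := by
        field_simp
        ring
      rw [h8]
      calc S.dh X.1 W.1 ≤ S.lam ^ (X.2 + (w.length : ℤ)) +
            (S.lam - 1)⁻¹ * S.lam ^ (X.2 + (w.length : ℤ)) := by linarith
        _ = ((S.lam - 1)⁻¹ + 1) * S.lam ^ (X.2 + (w.length : ℤ)) := by ring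
        _ = (S.lam - 1)⁻¹ * (S.lam ^ (X.2 + (w.length : ℤ)) * S.lam) := by rw [← h9]; ring
    · have h3 : S.dh X.1 Y.1 = 0 := by rw [h1]; exact S.bi.ph.self _
      have h4 : Y.2 ≤ X.2 + 1 := by
        rcases h2 with h2 | h2 <;> omega
      have h7 : S.lam ^ (Y.2 + (w.length : ℤ)) ≤ S.lam ^ (X.2 + ((w.length : ℤ) + 1)) :=
        S.lam_mono (by omega)
      have := mul_le_mul_of_nonneg_left h7 hc.le
      linarith

theorem Base.horo (S : Base Q) : ∃ c : ℝ, ∀ (p q : Q) (s t T : ℤ), S.lam ^ T ≤ S.dh p q →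
    2 * (T : ℝ) - s - t - c ≤ S.dE (p, s) (q, t) := by
  obtain ⟨b, -, hb⟩ := S.lam_big (2 * (S.lam - 1)⁻¹)
  have hc : 0 < (S.lam - 1)⁻¹ := inv_pos.2 (sub_pos.2 S.lam1)
  refine ⟨2 * b + 1, fun p q s t T hT => ?_⟩
  have hconn : S.E.Connected := S.out.conn
  obtain ⟨w, hw⟩ := hconn.exists_walk_length_eq_dist (p, s) (q, t)
  have hd : S.dE (p, s) (q, t) = (w.length : ℝ) := by
    rw [hw]; rfl
  have hst : |s - t| ≤ (w.length : ℤ) := by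
    have := S.le_dE p q s t
    rw [hd] at this
    exact_mod_cast this
  have hst1 := abs_le.1 hst
  obtain ⟨i, hi⟩ : ∃ i : ℕ, (i : ℤ) = ((w.length : ℤ) + t - s) / 2 :=
    ⟨(((w.length : ℤ) + t - s) / 2).toNat, Int.toNat_of_nonneg (by omega)⟩
  have hin : i ≤ w.length := by omega
  have h1 := S.walk_EndThin (X := (p, s)) (w.take i)
  have h2 := S.walk_EndThin (X := (q, t)) (w.drop i).reverse
  rw [SimpleGraph.Walk.take_length, inf_eq_left.2 hin] at h1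
  rw [SimpleGraph.Walk.length_reverse, SimpleGraph.Walk.drop_length] at h2
  have hsub : ((w.length - i : ℕ) : ℤ) = (w.length : ℤ) - i := by omega
  rw [hsub] at h2
  have h3 : S.lam ^ (s + (i : ℤ)) ≤ S.lam ^ (t + ((w.length : ℤ) - i)) := S.lam_mono (by omega)
  have h4 := mul_le_mul_of_nonneg_left h3 hc.le
  have h5 := S.bi.ph.tri p (w.getVert i).1 q
  rw [S.bi.ph.symm (w.getVert i).1 q] at h5
  have h6 := mul_le_mul_of_nonneg_right hb (S.lam_pos (t + ((w.length : ℤ) - i))).le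
  rw [← S.lam_add] at h6
  have h7 : S.lam ^ T ≤ S.lam ^ (b + (t + ((w.length : ℤ) - i))) := by
    simp only at h1 h2
    linarith
  have h8 : T ≤ b + (t + ((w.length : ℤ) - i)) := (zpow_le_zpow_iff_right₀ S.lam1).1 h7
  have h9 : 2 * T - s - t - (2 * b + 1) ≤ (w.length : ℤ) := by omega
  rw [hd]
  exact_mod_cast h9

theorem Base.D_two_EndThin (S : Base Q) {h : ℤ} {v u : Q} (h1 : S.dv v u ≤ S.lam ^ (-h))
    (h2 : S.dh v u ≤ S.lam ^ h) : S.D h v u ≤ 2 := by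
  have h5 : S.lam ^ h * S.lam ^ (-h) = 1 := by
    rw [← S.lam_add, add_neg_cancel, zpow_zero]
  have h3 := mul_le_mul_of_nonneg_left h1 (S.lam_pos h).le
  have h4 := mul_le_mul_of_nonneg_left h2 (S.lam_pos (-h)).le
  rw [mul_comm (S.lam ^ (-h)) (S.lam ^ h)] at h4
  unfold Base.D
  linarith

theorem Base.near_EndThin (S : Base Q) {h : ℤ} {v u : Q} (h1 : S.D h v u ≤ 2) (s : ℤ) :
    S.dE (u, s) (v, h) ≤ |(s : ℝ) - h| + 3 := by
  have h2 := S.dE_pm.tri (u, s) (u, h) (v, h)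
  have h3 := S.dE_fib u v h
  rw [(S.D_pm h).symm u v] at h3
  rw [S.dE_vert] at h2
  linarith

theorem Base.up1_EndThin (S : Base Q) : ∃ c : ℝ, ∀ (v u : Q) (t T : ℤ) (X : Q × ℤ), 0 ≤ T →
    Btw S.dv S.dh v u X.1 → S.lam ^ (t + T) ≤ S.dh v u → S.dv v u ≤ S.lam ^ (-(t + T)) →
    (T : ℝ) - c ≤ gp S.dE (v, t) X (v, t + T) := by
  obtain ⟨c, hc⟩ := S.horo
  obtain ⟨C, hC⟩ := S.out.out2 0
  obtain ⟨δ, -, hδ⟩ := S.dE_hyp
  refine ⟨δ + |c| + |C| + 3, fun v u t T X hT hb h1 h2 => ?_⟩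
  obtain ⟨r, hr, hr1⟩ := S.bi.geoH v u (S.lam_pos (t + T)).le h1
  have hrb := (Btw.trans_left S.bi hr hb).1
  have hr2 : S.dv v r ≤ S.lam ^ (-(t + T)) := by
    have := hr.1
    have := S.bi.pv.nonneg_E r u
    linarith
  have hD := S.D_two_EndThin hr2 hr1.le
  obtain ⟨t1, ht1⟩ := hC r (v, t) X (fun b => by
    have e1 := hrb.1
    have e2 := hrb.2
    simp only [gp, Base.D]
    rw [S.bi.pv.symm X.1 r, S.bi.ph.symm X.1 r, ← e1, ← e2]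
    apply le_of_eq
    ring)
  change gp S.dE (r, t1) (v, t) X ≤ C at ht1
  have a1 := S.dE_pm.gp_add_E (v, t) (r, t1) X
  have a2 := hc v r t t1 (t + T) hr1.ge
  have a3 := S.le_dE v r t t1
  have a4 := S.near_EndThin hD t1
  have a5 := S.dE_vert v (t + T) t
  have a6 := hδ (v, t) X (r, t1) (v, t + T)
  have hT' : (0 : ℝ) ≤ T := by exact_mod_cast hT
  push_cast at a2 a4 a5
  rw [add_sub_cancel_left, abs_of_nonneg hT'] at a5
  have b0 := le_abs_self c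
  have b1 := abs_nonneg c
  have b2 := le_abs_self C
  have b3 := abs_nonneg C
  have b4 : (T : ℝ) + |(t1 : ℝ) - (t + T)| - |c| ≤ S.dE (v, t) (r, t1) := by
    rcases le_total ((t1 : ℝ) - (t + T)) 0 with h | h
    · rw [abs_of_nonpos h]; linarith
    · rw [abs_of_nonneg h]
      have := neg_abs_le ((t : ℝ) - t1)
      linarith
  have b5 := abs_nonneg ((t1 : ℝ) - (t + T))
  have b6 : (T : ℝ) - |c| - |C| - 3 ≤ gp S.dE (v, t) X (r, t1) := by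
    rw [gp_symm_E S.dE_pm]; linarith
  have b7 : (T : ℝ) - |c| - |C| - 3 ≤ gp S.dE (v, t) (r, t1) (v, t + T) := by
    unfold gp
    rw [S.dE_pm.symm (r, t1) (v, t), a5]
    linarith
  have b8 := le_min b6 b7
  linarith

theorem Base.up_gp (S : Base Q) : ∃ c : ℝ, ∀ (v : Q) (t T : ℤ) (X : Q × ℤ), 0 ≤ T →
    S.Up v t T X → (T : ℝ) - c ≤ gp S.dE (v, t) X (v, t + T) := by
  obtain ⟨c, hc⟩ := S.up1_EndThin
  refine ⟨max c 2, fun v t T X hT hU => ?_⟩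
  have m1 := le_max_left c 2
  have m2 := le_max_right c 2
  rcases hU with ⟨u, h1, h2, h3⟩ | ⟨h1, h2⟩
  · have := hc v u t T X hT h1 h2 h3
    linarith
  · rcases le_total (S.lam ^ (t + T)) (S.dh v X.1) with h3 | h3
    · have := hc v X.1 t T X hT
        ⟨by rw [S.bi.pv.self, add_zero], by rw [S.bi.ph.self, add_zero]⟩ h3 h1
      linarith
    · have hD := S.D_two_EndThin h1 h3
      obtain ⟨x, s⟩ := X
      have a4 := S.near_EndThin hD s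
      have a5 := S.dE_vert v (t + T) t
      have a3 := S.le_dE x v s t
      have hT' : (0 : ℝ) ≤ T := by exact_mod_cast hT
      have h2' : (t : ℝ) + T ≤ s := by exact_mod_cast h2
      push_cast at a4 a5
      rw [add_sub_cancel_left, abs_of_nonneg hT'] at a5
      rw [abs_of_nonneg (by linarith)] at a4
      have := le_abs_self ((s : ℝ) - t)
      unfold gp
      rw [a5]
      linarith

theorem Base.thin (S : Base Q) (C : ℝ) : ∃ T0 : ℤ, 0 ≤ T0 ∧ ∀ (v : Q) (t T : ℤ) (X Y : Q × ℤ),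
    T0 ≤ T → gp S.dE (v, t) X Y ≤ C → S.Up v t T X → S.Up v t T Y → False := by
  obtain ⟨c, hc⟩ := S.up_gp
  obtain ⟨δ, -, hδ⟩ := S.dE_hyp
  refine ⟨max 0 (⌈C + c + δ⌉ + 1), le_max_left _ _, fun v t T X Y hT hg hX hY => ?_⟩
  have h0 : 0 ≤ T := (le_max_left _ _).trans hT
  have h1 : ⌈C + c + δ⌉ + 1 ≤ T := (le_max_right _ _).trans hT
  have h2 : ((⌈C + c + δ⌉ : ℤ) : ℝ) + 1 ≤ T := by exact_mod_cast h1
  have h3 := Int.le_ceil (C + c + δ)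
  have a1 := hc v t T X h0 hX
  have a2 := hc v t T Y h0 hY
  rw [gp_symm_E S.dE_pm] at a2
  have a3 := hδ (v, t) X (v, t + T) Y
  have a4 := le_min a1 a2
  linarith

end Pool.Agent.E5f

end

section

/-! Both ends good, one of them going up. -/

set_option autoImplicit false

namespace Pool.Agent.E5f

variable {Q : Type} [MulAction G8 Q] {S : Base Q}

theorem near_EndUp (Z : Seq S) : ∃ C : ℝ, 0 ≤ C ∧ ∀ i j k : ℤ, i ≤ j → j ≤ k →
    ∃ v, On S.dv (Z.q i) v (Z.q k) ∧ S.D (Z.τ j) (Z.q j) v ≤ C := by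
  obtain ⟨C, hC0, hC⟩ := Z.mor_near 0
  refine ⟨C, hC0, fun i j k h1 h2 => ?_⟩
  obtain ⟨v, hv, hv'⟩ := hC i j k (Z.X i) (Z.X k) h1 h2 (S.dE_pm.self _).le (S.dE_pm.self _).le
  exact ⟨v, hv.1, hv'⟩

/-- Two high points on opposite sides of the origin are not close in the first tree. -/
theorem high_EndUp (Z : Seq S) : ∃ T0 : ℤ, ∀ i k : ℤ, i ≤ 0 → 0 ≤ k → T0 ≤ Z.τ i → T0 ≤ Z.τ k →
    S.lam ^ (-T0) < S.dv (Z.q i) (Z.q k) := by
  obtain ⟨C, hC0, hC⟩ := near_EndUp Z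
  obtain ⟨C', -, hC'⟩ := Z.mor_gp C
  obtain ⟨T0, -, hT⟩ := S.thin C'
  refine ⟨T0, fun i k hi hk h1 h2 => not_le.1 fun h3 => ?_⟩
  obtain ⟨v, hv, hv'⟩ := hC i 0 k hi hk
  have t1 := S.bi.pv.nonneg_E (Z.q i) v
  have t2 := S.bi.pv.nonneg_E v (Z.q k)
  have t3 := S.bi.pv.symm v (Z.q i)
  simp only [On] at hv
  refine hT v (Z.τ 0) T0 (Z.X i) (Z.X k) le_rfl
    (hC' i 0 k _ _ v hi hk ((S.dE_pm.self _).trans_le hC0) ((S.dE_pm.self _).trans_le hC0) hv')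
    (Or.inr ?_) (Or.inr ?_)
  · rw [Z.τ0, zero_add]
    exact ⟨show S.dv v (Z.q i) ≤ _ by linarith, h1⟩
  · rw [Z.τ0, zero_add]
    exact ⟨show S.dv v (Z.q k) ≤ _ by linarith, h2⟩

theorem far_EndUp (Z : Seq S) {M : ℝ} (hM : 0 ≤ M) : ∃ L N A1 c : ℝ, 0 < A1 ∧ 0 < c ∧
    ∀ i k : ℤ, i ≤ 0 → 0 ≤ k → L ≤ Z.a i → S.dv (Z.q 0) (Z.q i) ≤ M →
      N ≤ Z.a k * (1 + S.dv (Z.q 0) (Z.q k)) →
      A1 ≤ S.dv (Z.q i) (Z.q k) ∧ 1 + S.dv (Z.q 0) (Z.q k) ≤ c * S.dv (Z.q i) (Z.q k) := by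
  obtain ⟨T0, hT⟩ := high_EndUp Z
  have hA : 0 < min 1 (S.lam ^ (-T0)) := lt_min one_pos (S.lam_pos _)
  have hq : 0 ≤ (1 + M) / min 1 (S.lam ^ (-T0)) := by positivity
  refine ⟨S.lam ^ T0, S.lam ^ T0 * (2 + M), _, 1 + (1 + M) / min 1 (S.lam ^ (-T0)), hA,
    by linarith, fun i k hi hk h1 h2 h3 => ?_⟩
  have t1 := S.bi.pv.tri (Z.q 0) (Z.q i) (Z.q k)
  have h4 : min 1 (S.lam ^ (-T0)) ≤ S.dv (Z.q i) (Z.q k) := by
    by_cases h5 : T0 ≤ Z.τ k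
    · exact (min_le_right _ _).trans
        (hT i k hi hk ((zpow_le_zpow_iff_right₀ S.lam1).1 h1) h5).le
    · have h6 : Z.a k ≤ S.lam ^ T0 := S.lam_mono (not_le.1 h5).le
      have h7 := S.bi.pv.nonneg_E (Z.q 0) (Z.q k)
      have h8 := le_of_mul_le_mul_left
        (h3.trans (mul_le_mul_of_nonneg_right h6 (by linarith))) (S.lam_pos T0)
      exact (min_le_left _ _).trans (by linarith)
  refine ⟨h4, ?_⟩
  have h9 := mul_le_mul_of_nonneg_left h4 hq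
  rw [div_mul_cancel₀ _ hA.ne'] at h9
  linarith

theorem caseUp {Z : Seq S} {F : Q → ℝ} (hF : Fn Z F) (h1 : Z.rev.UpE) (h2 : Z.FGood) : False := by
  have hp := S.bi.pv
  obtain ⟨M, hM0⟩ := h1
  have hM : ∀ (A : ℝ) (i0 : ℤ), ∃ i, i ≤ i0 ∧ A ≤ Z.a i ∧ S.dv (Z.q 0) (Z.q i) ≤ M := by
    intro A i0
    obtain ⟨k, a1, a2, a3⟩ := hM0 A (-i0)
    exact ⟨-k, by omega, a2, a3⟩
  have hMn : 0 ≤ M := by
    obtain ⟨i, -, -, a3⟩ := hM 0 0
    exact (hp.nonneg_E _ _).trans a3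
  obtain ⟨Θ, hΘ⟩ := hF.bd
  obtain ⟨C, hC0, hC⟩ := near_EndUp Z
  obtain ⟨L, N, A1, c, hA1, hc, hfar⟩ := far_EndUp Z hMn
  obtain ⟨i, hi, hi1, hi2⟩ := hM (max L (3 * C / A1)) 0
  obtain ⟨k, hk, hk1⟩ := h2 (max N (c * (3 * C))) 0
  obtain ⟨hA, hAc⟩ := hfar i k hi hk (le_of_max_le_left hi1) hi2 (le_of_max_le_left hk1)
  have e1 : C ≤ Z.a i * (S.dv (Z.q i) (Z.q k) / 3) := by
    have t1 := (div_le_iff₀ hA1).1 (le_of_max_le_right hi1)
    have t2 := mul_le_mul_of_nonneg_left hA (Z.a_pos i).le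
    linarith
  have e2 : C ≤ Z.a k * (S.dv (Z.q i) (Z.q k) / 3) := by
    have t1 := (le_of_max_le_right hk1).trans (mul_le_mul_of_nonneg_left hAc (Z.a_pos k).le)
    rw [mul_left_comm (Z.a k)] at t1
    have t2 := le_of_mul_le_mul_left t1 hc
    linarith
  have key : ∀ r, On S.dv (Z.q i) r (Z.q k) → S.dv (Z.q i) (Z.q k) / 3 ≤ S.dv (Z.q i) r →
      S.dv (Z.q i) (Z.q k) / 3 ≤ S.dv (Z.q k) r → F r = 0 := by
    intro r hr hr1 hr2
    refine le_antisymm (le_of_forall_pos_le_add fun ε hε => ?_) (hF.nonneg r)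
    have hW : 0 ≤ M + S.dv (Z.q 0) r := add_nonneg hMn (hp.nonneg_E _ _)
    obtain ⟨i', hi', hi1', hi2'⟩ := hM (max L (2 * Θ / ε)) i
    obtain ⟨k', hk', hk1'⟩ := h2 (max N (c * (2 * ((M + S.dv (Z.q 0) r) * Θ) / ε))) k
    obtain ⟨hA', hAc'⟩ := hfar i' k' (hi'.trans hi) (hk.trans hk') (le_of_max_le_left hi1') hi2'
      (le_of_max_le_left hk1')
    obtain ⟨v1, a1, a2⟩ := hC i' i k' hi' (hi.trans (hk.trans hk'))
    obtain ⟨v2, b1, b2⟩ := hC i' k k' (hi'.trans (hi.trans hk)) hk'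
    have a3 := le_of_mul_le_mul_left ((Z.of_D a2).1.trans e1) (Z.a_pos i)
    have b3 := le_of_mul_le_mul_left ((Z.of_D b2).1.trans e2) (Z.a_pos k)
    have hon : On S.dv (Z.q i') r (Z.q k') := hr.tree hp S.bi.hv
      ((a1.gp_le hp _).trans (a3.trans hr1)) ((b1.gp_le hp _).trans (b3.trans hr2))
    have c1 := hF.cvx _ _ _ hon
    have c2 : F (Z.q i') ≤ ε / 2 := by
      have t1 := (div_le_iff₀ hε).1 (le_of_max_le_right hi1')
      have t2 := hΘ i'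
      exact le_of_mul_le_mul_left (by linarith) (Z.a_pos i')
    have c3 : (M + S.dv (Z.q 0) r) * F (Z.q k') ≤ S.dv (Z.q i') (Z.q k') * (ε / 2) := by
      have t1 := (le_of_max_le_right hk1').trans (mul_le_mul_of_nonneg_left hAc' (Z.a_pos k').le)
      rw [mul_left_comm (Z.a k')] at t1
      have t2 := (div_le_iff₀ hε).1 (le_of_mul_le_mul_left t1 hc)
      have t3 := mul_le_mul_of_nonneg_left (hΘ k') hW
      exact le_of_mul_le_mul_left (by linarith) (Z.a_pos k')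
    have c4 : S.dv r (Z.q k') ≤ S.dv (Z.q i') (Z.q k') := by
      have t1 := hp.nonneg_E (Z.q i') r
      simp only [On] at hon
      linarith
    have c5 : S.dv (Z.q i') r ≤ M + S.dv (Z.q 0) r := by
      have t1 := hp.tri (Z.q i') (Z.q 0) r
      have t2 := hp.symm (Z.q i') (Z.q 0)
      linarith
    have c6 := mul_le_mul c4 c2 (hF.nonneg _) (hp.nonneg_E _ _)
    have c7 := mul_le_mul_of_nonneg_right c5 (hF.nonneg (Z.q k'))
    exact le_of_mul_le_mul_left (by linarith) (hA1.trans_le hA')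
  have hA0 : 0 < S.dv (Z.q i) (Z.q k) := hA1.trans_le hA
  obtain ⟨r1, p1, p2⟩ := S.bi.geoV (Z.q i) (Z.q k) (s := S.dv (Z.q i) (Z.q k) / 3)
    (by linarith) (by linarith)
  obtain ⟨r2, q1, q2⟩ := S.bi.geoV (Z.q i) (Z.q k) (s := 2 * S.dv (Z.q i) (Z.q k) / 3)
    (by linarith) (by linarith)
  have p3 := p1.1
  have q3 := q1.1
  have p4 := hp.symm (Z.q k) r1
  have q4 := hp.symm (Z.q k) r2
  have t1 := hp.tri (Z.q i) r1 r2
  exact hF.b1 r1 r2 (key r1 p1.1 (by linarith) (by linarith))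
    (key r2 q1.1 (by linarith) (by linarith)) (by linarith)

end Pool.Agent.E5f

end

section

/-! There are no long flat strips along the sequence. -/

set_option autoImplicit false

namespace Pool.Agent.E5f

variable {Q : Type} [MulAction G8 Q] {S : Base Q}


theorem Seq.not_strip (Z : Seq S) : ¬ Z.Strip := by
  rintro ⟨C0, hS⟩
  have pv := S.bi.pv
  have ph := S.bi.ph
  obtain ⟨C, hC, h1⟩ := Z.mor_near 0
  obtain ⟨C', -, h2⟩ := Z.swap.mor_gp C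
  obtain ⟨T, -, h3⟩ := S.swap.thin C'
  obtain ⟨L, hL, h4⟩ := S.g5
  have hΛ := S.lam_pos T
  have hε : 0 < S.lam ^ (-T) / 2 := half_pos (S.lam_pos _)
  obtain ⟨m, hm, hm'⟩ : ∃ m : ℝ, 0 < m ∧ L ≤ S.lam ^ (-T) / 2 * m :=
    ⟨L / (S.lam ^ (-T) / 2), div_pos hL hε, (mul_div_cancel₀ _ hε.ne').ge⟩
  have hC0 := abs_nonneg C0
  have hC1 := le_abs_self C0
  obtain ⟨R, hR⟩ : ∃ R, R = |C0| + C + S.lam ^ T + m := ⟨_, rfl⟩
  have hR0 : 0 ≤ R := by linarith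
  obtain ⟨i, k, c, P, hi, hk, p0, hP⟩ := hS R hR0
  obtain ⟨v, hv, hD⟩ := h1 i 0 k (Z.X i) (Z.X k) hi hk (S.dE_pm.self _).le (S.dE_pm.self _).le
  change Btw S.dv S.dh (Z.q i) v (Z.q k) at hv
  have d0 := (Z.of_D hD).1
  rw [Z.a_zero, one_mul] at d0
  have near : ∀ (w : Q) (s : ℝ), Btw S.dv S.dh (Z.q i) w (Z.q k) → S.dv (Z.q i) w = c + s →
      -R ≤ s - m → s + m ≤ R → S.dh w (P 0) ≤ S.lam ^ (-T) / 2 := by
    intro w s hw e a b
    obtain ⟨a1, a2, a3⟩ := hP (s - m) (abs_le.2 ⟨a, by linarith⟩)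
    obtain ⟨b1, b2, b3⟩ := hP s (abs_le.2 ⟨by linarith, by linarith⟩)
    obtain ⟨c1, c2, c3⟩ := hP (s + m) (abs_le.2 ⟨by linarith, b⟩)
    rw [← ph.congr'_E b1]
    exact h4 _ _ w _ _ _ m _ hε hm' hw a3 b3 c3 (by linarith) (by linarith) (by linarith)
      (by rw [ph.congr_E a1, ph.symm, b1]) (by rw [ph.congr_E b1, ph.symm, c1])
  have e0 := (hP 0 (by rwa [abs_zero])).2.1
  obtain ⟨-, e1, e2⟩ := hP R (abs_of_nonneg hR0).le
  have e3 := (hP (-R) (by rw [abs_neg, abs_of_nonneg hR0])).2.1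
  have t1 := pv.tri (Z.q i) (P 0) v
  have t2 := pv.tri (Z.q i) v (P 0)
  have t3 := pv.tri v (Z.q 0) (P 0)
  have s1 := pv.symm v (Z.q 0)
  have s2 := pv.symm v (P 0)
  have s3 := pv.symm v (Z.q i)
  have n1 := pv.nonneg_E (P R) (Z.q k)
  have n2 := pv.nonneg_E (Z.q i) (P (-R))
  have v1 := hv.1
  unfold On at e2
  obtain ⟨vp, bp, dp⟩ := S.bi.geoV v (Z.q k) hΛ.le (by linarith)
  obtain ⟨vm, bm, dm⟩ := S.bi.geoV v (Z.q i) hΛ.le (by linarith)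
  obtain ⟨p1, p2, -⟩ := hv.trans_right S.bi bp
  have m1 := ((bm.symm_E S.bi).trans_left S.bi hv).1
  have m2 := (bm.symm_E S.bi).1
  have s4 := pv.symm v vm
  have q0 := near v (S.dv (Z.q i) v - c) hv (by ring) (by linarith) (by linarith)
  have q1 := near vp (S.dv (Z.q i) v - c + S.lam ^ T) p1 (by linarith) (by linarith) (by linarith)
  have q2 := near vm (S.dv (Z.q i) v - c - S.lam ^ T) m1 (by linarith) (by linarith) (by linarith)
  have up : ∀ (u : Q) (X : Q × ℤ), Btw S.dv S.dh v u X.1 → S.dv v u = S.lam ^ T →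
      S.dh u (P 0) ≤ S.lam ^ (-T) / 2 → S.swap.Up v (Z.swap.τ 0) T X := by
    intro u X a b e
    have t4 := ph.tri v (P 0) u
    have s5 := ph.symm u (P 0)
    rw [Z.swap.τ0]
    refine .inl ⟨u, a.swap_E, ?_, ?_⟩
    · rw [zero_add]
      exact b.ge
    · rw [zero_add]
      change S.dh v u ≤ S.lam ^ (-T)
      linarith
  refine h3 v (Z.swap.τ 0) T (Z.swap.X i) (Z.swap.X k) le_rfl
    (h2 i 0 k _ _ v hi hk ((S.swap.dE_pm.self _).trans_le hC) ((S.swap.dE_pm.self _).trans_le hC) ?_)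
    (up vm _ bm dm q2) (up vp _ bp dp q1)
  rw [S.D_swap]
  change S.D (- -Z.τ 0) (Z.q 0) v ≤ C
  rwa [neg_neg]

end Pool.Agent.E5f

end

section

/-! An end that is not good goes down. -/

set_option autoImplicit false

namespace Pool.Agent.E5f

variable {Q : Type} [MulAction G8 Q] {S : Base Q}

theorem bdd_a_EndFH {Z : Seq S} {B : ℝ} (h : Z.Bdd B) {k : ℤ} (hk : 0 ≤ k) :
    Z.a k ≤ B ∧ Z.a k * S.dv (Z.q 0) (Z.q k) ≤ B := by
  have h1 := h k hk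
  have h2 := Z.a_pos k
  have h3 := mul_nonneg h2.le (S.bi.pv.nonneg_E (Z.q 0) (Z.q k))
  constructor <;> nlinarith

theorem dE_self_EndFH (Z : Seq S) (j : ℤ) {C : ℝ} (hC : 0 ≤ C) : S.dE (Z.X j) (Z.X j) ≤ C := by
  rw [S.dE_pm.self]; exact hC

theorem Seq.Bdd.rm {Z : Seq S} {B : ℝ} (h : Z.Bdd B) :
    ∃ c1 : ℤ, 0 ≤ c1 ∧ ∀ j l, 0 ≤ j → j ≤ l → Z.τ l ≤ Z.τ j + c1 := by
  obtain ⟨C, hC0, hC⟩ := Z.mor_near 0
  obtain ⟨C', -, hC'⟩ := Z.mor_gp C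
  obtain ⟨T0, hT0, hT⟩ := S.thin C'
  obtain ⟨b, hb0, hb⟩ := S.lam_big B
  refine ⟨T0 + b, by omega, fun j l hj hl => ?_⟩
  by_contra hcon
  obtain ⟨v, hv, hd⟩ := hC 0 j l (Z.X 0) (Z.X l) hj hl (dE_self_EndFH Z 0 le_rfl)
    (dE_self_EndFH Z l le_rfl)
  have hg := hC' 0 j l (Z.X 0) (Z.X l) v hj hl (dE_self_EndFH Z 0 hC0) (dE_self_EndFH Z l hC0) hd
  obtain ⟨a1, a2⟩ := bdd_a_EndFH h (hj.trans hl)
  have h1 : Z.τ l ≤ b := (zpow_le_zpow_iff_right₀ S.lam1).1 (a1.trans hb)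
  have h2 : S.dv (Z.q 0) (Z.q l) ≤ S.lam ^ (-(Z.τ j + T0)) := by
    refine le_trans ?_ (S.lam_mono (s := b + -Z.τ l) (by omega))
    rw [S.lam_add, zpow_neg, ← div_eq_mul_inv, le_div_iff₀ (S.lam_pos _), mul_comm]
    exact a2.trans hb
  have h3 : S.dv (Z.q 0) v + S.dv v (Z.q l) = S.dv (Z.q 0) (Z.q l) := hv.1
  have h4 := S.bi.pv.nonneg_E (Z.q 0) v
  have h5 := S.bi.pv.nonneg_E v (Z.q l)
  have h6 := S.bi.pv.symm v (Z.q 0)
  refine hT v (Z.τ j) T0 (Z.X 0) (Z.X l) le_rfl hg (Or.inr ⟨?_, ?_⟩) (Or.inr ⟨?_, ?_⟩)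
  · show S.dv v (Z.q 0) ≤ _
    linarith
  · show _ ≤ Z.τ 0
    rw [Z.τ0]; omega
  · show S.dv v (Z.q l) ≤ _
    linarith
  · show _ ≤ Z.τ l
    omega

theorem piece_EndFH {X : Type} {dv dh : X → X → ℝ} (hb : BiTree dv dh) {H η : ℝ} (hH : 0 ≤ H)
    (n : ℕ) : ∀ x w : X, ((n : ℝ) + 1) * H ≤ dh x w → dv x w ≤ ((n : ℝ) + 1) * η →
      ∃ y y', Btw dv dh x y y' ∧ Btw dv dh x y' w ∧ dh y y' = H ∧ dv y y' ≤ η := by
  have hself : ∀ x y, Btw dv dh x x y := fun x y =>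
    ⟨by rw [hb.pv.self, zero_add], by rw [hb.ph.self, zero_add]⟩
  induction n with
  | zero =>
    intro x w h1 h2
    simp only [Nat.cast_zero, zero_add, one_mul] at h1 h2
    obtain ⟨y, hy, e⟩ := hb.geoH x w hH h1
    refine ⟨x, y, hself _ _, hy, e, ?_⟩
    have := hy.1
    have := hb.pv.nonneg_E y w
    linarith
  | succ n ih =>
    intro x w h1 h2
    push_cast at h1 h2
    have hn : (0 : ℝ) ≤ n := Nat.cast_nonneg n
    obtain ⟨y, hy, e⟩ := hb.geoH x w hH (by nlinarith)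
    rcases le_or_gt (dv x y) η with h3 | h3
    · exact ⟨x, y, hself _ _, hy, e, h3⟩
    · obtain ⟨z, z', b1, b2, b3, b4⟩ := ih y w (by have := hy.2; linarith)
        (by have := hy.1; linarith)
      have t1 := Btw.trans_right hb hy b2
      exact ⟨z, z', (Btw.trans_right hb t1.2 b1).1, t1.1, b3, b4⟩

theorem fh_EndFH {Z : Seq S} {B : ℝ} (h : Z.Bdd B) :
    ∃ B2 : ℝ, 0 ≤ B2 ∧ ∀ j k, 0 ≤ j → j ≤ k → S.dh (Z.q j) (Z.q k) ≤ B2 * Z.a j := by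
  obtain ⟨c1, hc10, hc1⟩ := h.rm
  obtain ⟨C, hC0, hC⟩ := Z.mor_conv 0
  obtain ⟨C', -, hC'⟩ := Z.mor_gp C
  obtain ⟨T0, hT0, hT⟩ := S.thin C'
  obtain ⟨G, hG⟩ : ∃ G, G = S.lam ^ (c1 + T0) := ⟨_, rfl⟩
  have hG0 : 0 < G := hG ▸ S.lam_pos _
  obtain ⟨n, hn⟩ := exists_nat_ge ((4 * B + 3 * C) * G)
  have hn0 : (0 : ℝ) ≤ n := Nat.cast_nonneg n
  have hB0 : 0 ≤ B := (Z.a_pos 0).le.trans (bdd_a_EndFH h le_rfl).1
  refine ⟨max (2 * C) (4 * ((n : ℝ) + 1) * G), le_max_of_le_left (by linarith),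
    fun j0 k hj0 hk0 => ?_⟩
  obtain ⟨j, hj, hmax⟩ := Finset.exists_max_image (Finset.Icc 0 k)
    (fun j => S.dh (Z.q j) (Z.q k) / Z.a j) ⟨0, Finset.mem_Icc.2 ⟨le_rfl, hj0.trans hk0⟩⟩
  obtain ⟨Y, hY⟩ : ∃ Y, Y = S.dh (Z.q j) (Z.q k) / Z.a j := ⟨_, rfl⟩
  rw [Finset.mem_Icc] at hj
  have hmax' : ∀ l, 0 ≤ l → l ≤ k → S.dh (Z.q l) (Z.q k) ≤ Y * Z.a l := fun l h1 h2 => by
    have := hmax l (Finset.mem_Icc.2 ⟨h1, h2⟩)
    rw [← hY] at this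
    exact (div_le_iff₀ (Z.a_pos l)).1 this
  refine (hmax' j0 hj0 hk0).trans (mul_le_mul_of_nonneg_right ?_ (Z.a_pos j0).le)
  by_contra hcon
  rw [not_le, max_lt_iff] at hcon
  obtain ⟨hY1, hY2⟩ := hcon
  have ha := Z.a_pos j
  have hY0 : 0 < Y := by linarith
  have hYe : S.dh (Z.q j) (Z.q k) = Y * Z.a j := by rw [hY, div_mul_cancel₀ _ ha.ne']
  have hYa := mul_pos hY0 ha
  obtain ⟨w, hw, ew⟩ := S.bi.geoH (Z.q j) (Z.q k) (s := Y * Z.a j / 2) (by linarith)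
    (by linarith)
  obtain ⟨l, l1, l2, hl⟩ := hC j k (Z.X j) (Z.X k) w hj.2 (dE_self_EndFH Z j le_rfl)
    (dE_self_EndFH Z k le_rfl) hw
  obtain ⟨d1, d2⟩ := Z.of_D hl
  have hal := Z.a_pos l
  have h3 : Z.a j ≤ 3 * Z.a l := by
    have t1 := S.bi.ph.tri w (Z.q l) (Z.q k)
    have t2 := S.bi.ph.symm w (Z.q l)
    have t3 := hw.2
    have t4 := hmax' l (hj.1.trans l1) l2
    have t5 : 2 * C * Z.a l ≤ Y * Z.a l := mul_le_mul_of_nonneg_right hY1.le hal.le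
    have t6 : Y * Z.a j ≤ Y * (3 * Z.a l) := by linarith
    exact le_of_mul_le_mul_left t6 hY0
  have h4 : Z.a j * S.dv (Z.q j) w ≤ 4 * B + 3 * C := by
    have t1 := S.bi.pv.tri (Z.q j) (Z.q 0) w
    have t2 := S.bi.pv.tri (Z.q 0) (Z.q l) w
    have t3 := S.bi.pv.symm (Z.q j) (Z.q 0)
    have t4 := (bdd_a_EndFH h hj.1).2
    have t5 := (bdd_a_EndFH h (hj.1.trans l1)).2
    have t6 := mul_le_mul_of_nonneg_right h3 (S.bi.pv.nonneg_E (Z.q 0) (Z.q l))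
    have t7 := mul_le_mul_of_nonneg_right h3 (S.bi.pv.nonneg_E (Z.q l) w)
    have t8 : S.dv (Z.q j) w ≤ S.dv (Z.q 0) (Z.q j) + S.dv (Z.q 0) (Z.q l) + S.dv (Z.q l) w := by
      linarith
    have t9 := mul_le_mul_of_nonneg_left t8 ha.le
    linarith
  have hGa := mul_pos hG0 ha
  obtain ⟨y, y', b1, b2, b3, b4⟩ := piece_EndFH S.bi (H := 2 * (G * Z.a j)) (η := (G * Z.a j)⁻¹)
    (by linarith) n (Z.q j) w
    (by
      have := mul_le_mul_of_nonneg_right hY2.le ha.le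
      linarith)
    (by
      rw [← div_eq_mul_inv, le_div_iff₀ hGa]
      have := mul_le_mul_of_nonneg_right h4 hG0.le
      linarith)
  obtain ⟨v, hv, ev⟩ := S.bi.geoH y y' (s := G * Z.a j) hGa.le (by linarith)
  have c1' := (Btw.trans_left S.bi b2 hw).1
  have c2 := Btw.trans_right S.bi b1 hv
  have c3 := Btw.trans_left S.bi c2.1 c1'
  obtain ⟨m, m1, m2, hm⟩ := hC j k (Z.X j) (Z.X k) v hj.2 (dE_self_EndFH Z j le_rfl)
    (dE_self_EndFH Z k le_rfl) c3.1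
  have hg := hC' j m k (Z.X j) (Z.X k) v m1 m2 (dE_self_EndFH Z j hC0) (dE_self_EndFH Z k hC0) hm
  have h5 := hc1 j m hj.1 m1
  have e1 : S.lam ^ (Z.τ m + (Z.τ j + c1 + T0 - Z.τ m)) = G * Z.a j := by
    rw [hG, Seq.a, ← S.lam_add]
    congr 1
    ring
  have e2 : S.lam ^ (-(Z.τ m + (Z.τ j + c1 + T0 - Z.τ m))) = (G * Z.a j)⁻¹ := by
    rw [zpow_neg, e1]
  have v1 := hv.1
  have v2 := hv.2
  have v3 := S.bi.pv.nonneg_E y v
  have v4 := S.bi.pv.nonneg_E v y'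
  refine hT v (Z.τ m) (Z.τ j + c1 + T0 - Z.τ m) (Z.X j) (Z.X k) (by omega) hg
    (Or.inl ⟨y, Btw.symm_E S.bi c2.2, ?_, ?_⟩) (Or.inl ⟨y', c3.2, ?_, ?_⟩)
  · rw [e1, S.bi.ph.symm, ev]
  · rw [e2, S.bi.pv.symm]; linarith
  · rw [e1]; linarith
  · rw [e2]; linarith

theorem Seq.Bdd.down {Z : Seq S} {B : ℝ} (h : Z.Bdd B) : ∃ B', Z.Down B' := by
  obtain ⟨B2, hB2, hf⟩ := fh_EndFH h
  refine ⟨max B B2, fun k hk => (h k hk).trans (le_max_left _ _), fun j k hj hk =>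
    (hf j k hj hk).trans (mul_le_mul_of_nonneg_right (le_max_right _ _) (Z.a_pos j).le),
    fun ε hε => ?_⟩
  obtain ⟨n, hn⟩ := Z.unbd (max (B + ε⁻¹ * B2) ε⁻¹)
  refine ⟨max (n + 1) 0, fun k hk => ?_⟩
  by_contra hcon
  rw [not_le] at hcon
  have hk0 : 0 ≤ k := (le_max_right _ _).trans hk
  have hk1 : n + 1 ≤ k := (le_max_left _ _).trans hk
  obtain ⟨a1, a2⟩ := bdd_a_EndFH h hk0
  have h1 : (Z.a k)⁻¹ ≤ ε⁻¹ := inv_anti₀ hε hcon.le
  have h2 := mul_nonneg (inv_pos.2 hε).le hB2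
  have h3 := hf 0 k le_rfl hk0
  rw [Z.a_zero, mul_one] at h3
  have h4 : (Z.a k)⁻¹ * S.dh (Z.q 0) (Z.q k) ≤ ε⁻¹ * B2 :=
    mul_le_mul h1 h3 (S.bi.ph.nonneg_E _ _) (inv_pos.2 hε).le
  have h5 := hn k (le_max_of_le_left (by linarith)) (le_max_of_le_right h1)
    (le_max_of_le_left (by rw [Z.D_eq]; linarith))
  rw [abs_of_nonneg hk0] at h5
  omega

end Pool.Agent.E5f

end
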