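import Pool.Agent.Mg.S03381.G66dc53
import Pool.Agent.Mg.S03381.G224cd9
import Pool.Agent.Mg.S03381.G7cdb90

section

/-! Stability of the guessed geodesics. -/

set_option autoImplicit false

namespace Pool.Agent.E5f.Cb

variable {P B : Type} {G : SimpleGraph B} {D : B → P → P → ℝ}

theorem base_CombS {X : Type} {d : X → X → ℝ} (h : PM d) {b w a a' : X} {e : ℝ}
    (h1 : d b w + d w a' = d b a') (h2 : gp d b a a' ≤ e) :
    gp d w a a' ≤ e ∧ d b w - 2 * e ≤ d a w := by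
  have t1 := h.tri a b w
  have t2 := h.tri a w a'
  have t3 := pm_nonneg h a b
  have s1 := h.symm a' b
  have s2 := h.symm a' w
  unfold gp at h2 ⊢
  constructor <;> linarith

theorem fib_CombS {X : Type} {d : X → X → ℝ} {δ c0 Q : ℝ} (h : PM d) (hh : Hyp d δ)
    {u v x y z : X} (h0 : gp d u x y ≤ c0) (h1 : gp d v u x ≤ Q) (h2 : gp d v u z ≤ Q)
    (h3 : y = z ∨ c0 + δ < gp d u y z) : d u v ≤ c0 + 2 * δ + Q := by
  have hδ := hyp_nonneg hh u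
  have h4 : gp d u x z ≤ c0 + δ := by
    rcases h3 with rfl | h3
    · linarith
    · have := hh u x z y
      rw [cgp_symm h u z y] at this
      rcases min_cases (gp d u x z) (gp d u y z) with h5 | h5 <;> linarith [h5.1, h5.2]
  have h5 := cgp_add h u v x
  have h6 := cgp_add h u v z
  have h7 := hh u x v z
  rw [cgp_symm h u x v] at h7
  rcases min_cases (gp d u v x) (gp d u v z) with h8 | h8 <;> linarith [h8.1, h8.2]

/-- (S) -/
theorem stab (c : Cx G D) (C3 : ℝ) : ∃ cS R9 : ℝ, ∀ s s' (X Y Z : P × B) a e a' e' b, c.S s →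
    c.S s' → (∀ b', gp (D b') (s b') X.1 Y.1 ≤ c.c0) → c.Pr s X a → c.Pr s Y e → c.Pr s' X a' →
    c.Pr s' Z e' → Bt G a b e → D b (s b) (s' b) ≤ C3 →
    (Y = Z ∨ R9 ≤ gp (D b) (s b) Y.1 Z.1) → gp (gd G) b a' e' ≤ cS := by
  obtain ⟨N, Q, hy⟩ := core_y c C3
  obtain ⟨Q2, hQ, hQ2⟩ := fl_lm c.fc Q (4 * c.δ)
  obtain ⟨ρ, R8, hcl⟩ := close_near c (c.c0 + 2 * c.δ + Q2) (2 * c.δ)
  obtain ⟨T, hT⟩ := exists_nat_gt (ρ + 4 * c.δ)
  obtain ⟨R', -, hR'⟩ := fl_lm c.fc (max R8 (c.c0 + c.δ)) T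
  refine ⟨max N (T + |ρ| + 2 * c.δ), R' + 1, ?_⟩
  intro s s' X Y Z a e a' e' b hs hs' hc ha he ha' he' hb hD hYZ
  have pm := c.pmB
  have hG := c.h.conn
  have hδ := c.δ0
  have hρ := le_abs_self ρ
  have hρ0 := abs_nonneg ρ
  have hT0 : (0 : ℝ) ≤ T := T.cast_nonneg
  by_contra hn
  rw [not_le, max_lt_iff] at hn
  obtain ⟨hN, hn⟩ := hn
  have l1 := cgp_le_left pm b a' e'
  have l2 := cgp_le_right pm b a' e'
  have hph : ∀ x, phi D s' x s b ≤ C3 := fun x =>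
    (cgp_le_left (c.h.pm b) _ _ _).trans (((c.h.pm b).symm _ _).trans_le hD)
  have y1 := (hy s' s X.1 b a' hs' hs (hph _) ha'.1).resolve_left (by linarith)
  have y2 := (hy s' s Z.1 b e' hs' hs (hph _) he'.1).resolve_left (by linarith)
  obtain ⟨w1, b1, d1⟩ := bt_pt hG b a' T (by linarith)
  obtain ⟨w2, b2, d2⟩ := bt_pt hG b e' T (by linarith)
  have f12 : gd G w1 w2 ≤ 4 * c.δ := fellow hG c.h.hypB b1 b2 (d1.trans d2.symm) (by
    rw [cgp_symm pm b e' a']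
    linarith)
  have key : ∀ w, gd G b w = T → phi D s' X.1 s w ≤ Q2 → phi D s' Z.1 s w ≤ Q2 →
      D w (s w) (s' w) ≤ c.c0 + 2 * c.δ + Q2 ∧ (Y = Z ∨ R8 ≤ gp (D w) (s w) Y.1 Z.1) := by
    intro w hw p1 p2
    have : Y = Z ∨ max R8 (c.c0 + c.δ) < gp (D w) (s w) Y.1 Z.1 := hYZ.imp_right fun h => by
      by_contra h'
      have := hR' _ (c.fl1 Z.1 hs (c.const Y.1)) w b ((pm.symm _ _).trans hw).le (not_lt.1 h')
      unfold phi at this
      linarith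
    exact ⟨fib_CombS (c.h.pm w) (c.h.hyp w) (hc w) p1 p2
      (this.imp (congrArg Prod.fst) fun h => (le_max_right _ _).trans_lt h),
      this.imp_right fun h => ((le_max_left _ _).trans_lt h).le⟩
  have k1 := key w1 d1 ((y1 w1 b1).trans hQ)
    (hQ2 _ (c.fl1 Z.1 hs' hs) w2 w1 ((pm.symm _ _).trans_le f12) (y2 w2 b2))
  have k2 := key w2 d2 (hQ2 _ (c.fl1 X.1 hs' hs) w1 w2 f12 (y1 w1 b1)) ((y2 w2 b2).trans hQ)
  have g0 := hb.gp_zero hG
  have g1 := c.h.hypB b a a' e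
  have g2 := c.h.hypB b a' e' e
  unfold Bt at b1 b2
  by_cases h1 : gp (gd G) b a a' ≤ 2 * c.δ
  · obtain ⟨q1, q2⟩ := base_CombS pm b1 h1
    rcases hcl s s' X X a a' w1 hs hs' ha ha' q1 k1.1 (Or.inl rfl) with h | h <;> linarith
  · have h2 : gp (gd G) b e e' ≤ 2 * c.δ := by
      rw [cgp_symm pm b e' e] at g2
      rcases min_cases (gp (gd G) b a a') (gp (gd G) b a' e) with h3 | h3 <;>
        rcases min_cases (gp (gd G) b a' e') (gp (gd G) b e e') with h4 | h4 <;>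
        linarith [h3.1, h3.2, h4.1, h4.2]
    obtain ⟨q1, q2⟩ := base_CombS pm b2 h2
    rcases hcl s s' Y Z e e' w2 hs hs' he he' q1 k2.1 k2.2 with h | h <;> linarith

end Pool.Agent.E5f.Cb

end

section

/-! Elementary facts on the total graph. -/

set_option autoImplicit false

namespace Pool.Agent.E5f.Cb

variable {P B : Type} {G : SimpleGraph B} {D : B → P → P → ℝ} {δ κ K M r : ℝ} {n : ℕ}

theorem adj_CombTot {V : Type} {H : SimpleGraph V} {a b : V} (h : H.Adj a b) : gd H a b = 1 := by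
  rw [gd, SimpleGraph.dist_eq_one_iff_adj.2 h, Nat.cast_one]

theorem step_CombTot (h : CombHyp G D δ κ K n M) {b : B} {x y : P} (hx : D b x y ≤ r) :
    ∃ w : (totG G D r).Walk (x, b) (y, b), (w.length : ℝ) ≤ 1 := by
  by_cases e : x = y
  · subst e
    exact ⟨.nil, by simp⟩
  · have a : (totG G D r).Adj (x, b) (y, b) := ⟨fun e' => e (congrArg Prod.fst e'),
      Or.inl ⟨rfl, hx, ((h.pm b).symm y x).trans_le hx⟩⟩
    exact ⟨.cons a .nil, Nat.cast_one.le⟩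

theorem walk_CombTot (h : CombHyp G D δ κ K n M) (hr : 2 * κ + 1 ≤ r) (b : B) (y : P) (N : ℕ) :
    ∀ x, D b x y ≤ N →
      ∃ w : (totG G D r).Walk (x, b) (y, b), (w.length : ℝ) ≤ D b x y + 1 := by
  have hκ := h.κ0
  have small : ∀ x, D b x y ≤ r →
      ∃ w : (totG G D r).Walk (x, b) (y, b), (w.length : ℝ) ≤ D b x y + 1 := fun x hx => by
    obtain ⟨w, hw⟩ := step_CombTot h hx
    exact ⟨w, by linarith [pm_nonneg (h.pm b) x y]⟩
  induction N with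
  | zero => exact fun x hx => small x (by rw [Nat.cast_zero] at hx; linarith)
  | succ N ih =>
    intro x hx
    rcases le_or_gt (D b x y) r with h1 | h1
    · exact small x h1
    obtain ⟨z, a1, a2⟩ := h.rg b x y (r - κ) (by linarith) (by linarith)
    rw [abs_le] at a1 a2
    rw [Nat.cast_succ] at hx
    obtain ⟨w1, e1⟩ := step_CombTot (r := r) h (show D b x z ≤ r by linarith)
    obtain ⟨w2, e2⟩ := ih z (by linarith)
    refine ⟨w1.append w2, ?_⟩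
    rw [SimpleGraph.Walk.length_append, Nat.cast_add]
    linarith

theorem lift_CombTot (h : CombHyp G D δ κ K n M) (r : ℝ) (x : P) (b b' : B) :
    ∃ w : (totG G D r).Walk (x, b) (x, b'), w.length = G.dist b b' := by
  obtain ⟨w, hw⟩ := h.conn.exists_walk_length_eq_dist b b'
  let f : G →g totG G D r := ⟨fun b => (x, b), fun a =>
    ⟨fun e => a.ne (congrArg Prod.snd e), Or.inr ⟨rfl, a⟩⟩⟩
  exact ⟨w.map f, (w.length_map f).trans hw⟩

theorem tot_conn (h : CombHyp G D δ κ K n M) (hr : 2 * κ + 1 ≤ r) : (totG G D r).Connected := by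
  have := h.ne
  have := h.conn.nonempty
  refine ⟨fun ⟨x, b⟩ ⟨y, b'⟩ => ?_⟩
  obtain ⟨w1, -⟩ := walk_CombTot h hr b y _ x (Nat.le_ceil _)
  obtain ⟨w2, -⟩ := lift_CombTot h r y b b'
  exact ⟨w1.append w2⟩

theorem tot_fib (h : CombHyp G D δ κ K n M) (hr : 2 * κ + 1 ≤ r) (b : B) (x y : P) :
    gd (totG G D r) (x, b) (y, b) ≤ D b x y + 1 := by
  obtain ⟨w, hw⟩ := walk_CombTot h hr b y _ x (Nat.le_ceil _)
  exact (Nat.cast_le.2 (SimpleGraph.dist_le w)).trans hw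

theorem tot_base (h : CombHyp G D δ κ K n M) (r : ℝ) (x : P) (b b' : B) :
    gd (totG G D r) (x, b) (x, b') ≤ gd G b b' := by
  obtain ⟨w, hw⟩ := lift_CombTot h r x b b'
  exact Nat.cast_le.2 ((SimpleGraph.dist_le w).trans hw.le)

theorem tot_le (h : CombHyp G D δ κ K n M) (hr : 2 * κ + 1 ≤ r) (X Y : P × B) :
    gd G X.2 Y.2 ≤ gd (totG G D r) X Y := by
  have pm := gd_pm h.conn
  refine dist_ind (tot_conn h hr) X (fun m Y => gd G X.2 Y.2 ≤ m) (fun m => ?_)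
    (fun m Y' Y'' a e => ?_) _ Y le_rfl
  · rw [pm.self]
    exact Nat.cast_nonneg m
  · rw [Nat.cast_succ]
    rcases e.2 with e | e
    · rw [← e.1]
      linarith
    · linarith [pm.tri X.2 Y'.2 Y''.2, adj_CombTot e.2]

theorem tot_near (h : CombHyp G D δ κ K n M) (hr : 2 * κ + 1 ≤ r) (C : ℝ) :
    ∃ C' : ℝ, ∀ X Y : P × B, gd (totG G D r) X Y ≤ C → D X.2 X.1 Y.1 ≤ C' := by
  have hκ := h.κ0
  have hK := h.K1
  let c : ℕ → ℝ := fun m => Nat.rec 0 (fun _ a => K * a + K + r) m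
  have cs : ∀ m, c (m + 1) = K * c m + K + r := fun _ => rfl
  have c0 : ∀ m, 0 ≤ c m := fun m => by
    induction m with
    | zero => exact le_rfl
    | succ m ih =>
      rw [cs]
      nlinarith
  refine ⟨c ⌈C⌉₊, fun X Y hX => ?_⟩
  refine dist_ind (tot_conn h hr) Y (fun m X => D X.2 X.1 Y.1 ≤ c m) (fun m => ?_)
    (fun m X' X'' a e => ?_) _ X ?_
  · rw [(h.pm _).self]
    exact c0 m
  · rw [cs]
    have := c0 m
    rcases e.2 with e | e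
    · rw [← e.1]
      nlinarith [(h.pm X'.2).tri X''.1 X'.1 Y.1, e.2.2]
    · rw [← e.1]
      nlinarith [h.lip _ _ e.2 X'.1 Y.1]
  · rw [(gd_pm (tot_conn h hr)).symm]
    exact hX.trans (Nat.le_ceil C)

theorem tot_sec (h : CombHyp G D δ κ K n M) (hr : 2 * κ + 1 ≤ r) {k : ℝ} (hk : 0 ≤ k)
    {s : B → P} (hs : Sec G D k s) (b b' : B) :
    gd (totG G D r) (s b, b) (s b', b') ≤ (k + 2) * gd G b b' := by
  have pm := gd_pm (tot_conn h hr)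
  refine dist_ind h.conn b (fun m e => gd (totG G D r) (s b, b) (s e, e) ≤ (k + 2) * m)
    (fun m => ?_) (fun m e e' a he => ?_) _ b' le_rfl
  · rw [pm.self]
    positivity
  · have h1 := tot_base h r (s e) e e'
    have h2 := tot_fib h hr e' (s e) (s e')
    have h3 := hs e e' he
    rw [adj_CombTot he] at h1
    rw [Nat.cast_succ]
    linarith [pm.tri (s b, b) (s e, e) (s e', e'), pm.tri (s e, e) (s e, e') (s e', e')]

end Pool.Agent.E5f.Cb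

end

section

/-! The three conditions of the guessing lemma. -/

set_option autoImplicit false

namespace Pool.Agent.E5f.Cb

variable {P B : Type} {G : SimpleGraph B} {D : B → P → P → ℝ} {r : ℝ}

theorem ls_symm (c : Cx G D) {X Y W : P × B} (h : W ∈ c.Ls X Y) : W ∈ c.Ls Y X := by
  obtain ⟨s, a, e, hs, hc, ha, he, hb, hw⟩ := h
  refine ⟨s, e, a, hs, fun b => ?_, he, ha, hb.symm c.h.conn, hw⟩
  rw [cgp_symm (c.h.pm b)]; exact hc b

/-- A point of a section over a point with small product is near the guessed geodesic. -/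
theorem ls_near (c : Cx G D) (hr : 2 * c.κ + 1 ≤ r) (e : ℝ) : ∃ h : ℝ, ∀ s (X Y : P × B) a a' b,
    c.S s → (∀ b', gp (D b') (s b') X.1 Y.1 ≤ c.c0) → c.Pr s X a → c.Pr s Y a' →
    gp (gd G) b a a' ≤ e → ∃ W ∈ c.Ls X Y, gd (totG G D r) (s b, b) W ≤ h := by
  refine ⟨(c.k0 + 2) * (e + 1 + 2 * c.δ), fun s X Y a a' b hs hc ha ha' hb => ?_⟩
  obtain ⟨y, hy, hd⟩ := near_geo c.h.conn c.h.hypB a a' b
  refine ⟨(s y, y), ⟨s, a, a', hs, hc, ha, ha', hy, rfl⟩, ?_⟩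
  refine (tot_sec c.h hr c.k00 hs b y).trans ?_
  have := c.k00
  exact mul_le_mul_of_nonneg_left (by linarith) (by linarith)

theorem far_aux {X : Type} {d : X → X → ℝ} {δ c0 A : ℝ} (hd : PM d) (hh : Hyp d δ)
    {w m x y z : X} (h0 : gp d w x m ≤ c0 + δ) (h1 : gp d m x y ≤ c0)
    (h3 : gp d m x z ≤ c0) (hA : 0 ≤ A) (hf : A + 2 * c0 + 4 * δ < d w m) :
    gp d w x z ≤ c0 + 2 * δ ∧ A ≤ gp d w y z := by
  have hδ := hyp_nonneg hh w
  have hc : 0 ≤ c0 := (cgp_nonneg hd m x y).trans h1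
  have a1 := cgp_add hd w m x
  have a2 := cgp_add hd w m y
  have a3 := cgp_add hd w m z
  have s1 := cgp_symm hd w x m
  have s2 := cgp_symm hd m x w
  have s3 := cgp_symm hd w y m
  have s4 := cgp_symm hd w z m
  have b1 : gp d m w y ≤ c0 + δ := by
    have := hh m x w y
    rcases min_choice (gp d m x w) (gp d m w y) with h | h <;> rw [h] at this <;> linarith
  have b2 : gp d m w z ≤ c0 + δ := by
    have := hh m x w z
    rcases min_choice (gp d m x w) (gp d m w z) with h | h <;> rw [h] at this <;> linarith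
  constructor
  · have := hh w x z m
    rcases min_choice (gp d w x z) (gp d w z m) with h | h <;> rw [h] at this <;> linarith
  · have := hh w y m z
    rcases min_choice (gp d w y m) (gp d w m z) with h | h <;> rw [h] at this <;> linarith

/-- A point between `x` and `y` that is far from the centre. -/
theorem far_ctr {X : Type} {d : X → X → ℝ} {δ c0 A : ℝ} (hd : PM d) (hh : Hyp d δ)
    {w m x y z : X} (hw : gp d w x y ≤ c0) (h1 : gp d m x y ≤ c0) (h2 : gp d m y z ≤ c0)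
    (h3 : gp d m x z ≤ c0) (hA : 0 ≤ A) (hf : A + 2 * c0 + 4 * δ < d w m) :
    (gp d w x z ≤ c0 + 2 * δ ∧ A ≤ gp d w y z) ∨ (gp d w y z ≤ c0 + 2 * δ ∧ A ≤ gp d w x z) := by
  have := hh w x m y
  rcases min_choice (gp d w x m) (gp d w m y) with h | h <;> rw [h] at this
  · exact Or.inl (far_aux hd hh (by linarith) h1 h3 hA hf)
  · refine Or.inr (far_aux hd hh ?_ ?_ h2 hA hf)
    · rw [cgp_symm hd]; linarith
    · rw [cgp_symm hd]; exact h1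

/-- The case of a point far from the centre. -/
theorem ls_far (c : Cx G D) (hr : 2 * c.κ + 1 ≤ r) : ∃ h R9 : ℝ, ∀ s (X Y Z : P × B) a e b,
    c.S s → (∀ b', gp (D b') (s b') X.1 Y.1 ≤ c.c0) → c.Pr s X a → c.Pr s Y e → Bt G a b e →
    gp (D b) (s b) X.1 Z.1 ≤ c.c0 + 2 * c.δ → R9 ≤ gp (D b) (s b) Y.1 Z.1 →
    ∃ W ∈ c.Ls X Z, gd (totG G D r) (s b, b) W ≤ h := by
  obtain ⟨C3, hC3⟩ := centre_uniq c.δ (c.c0 + 2 * c.δ)
  obtain ⟨cS, R9, h1⟩ := stab c C3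
  obtain ⟨n1, hn1⟩ := ls_near c hr cS
  refine ⟨C3 + 1 + n1, R9, fun s X Y Z a e b hs hc ha he hb hx hy => ?_⟩
  obtain ⟨s', hs', hc'⟩ := c.ctr X.1 Z.1 (s b)
  have hδ := c.δ0
  have hc0 := c.c00
  have hp := c.h.pm b
  have hd : D b (s b) (s' b) ≤ C3 := by
    refine hC3 (D b) hp (c.h.hyp b) X.1 Z.1 (s b) (s b) (s' b) hx ?_ ?_ ?_ ?_ ?_
    · rw [cgp_symm hp, cgp_self hp]; linarith
    · rw [cgp_symm hp, cgp_self hp]; linarith
    · linarith [(hc' b).1]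
    · linarith [(hc' b).2.1]
    · linarith [(hc' b).2.2]
  obtain ⟨a', ha'⟩ := pr_ex c hs' X
  obtain ⟨e', he'⟩ := pr_ex c hs' Z
  have h2 := h1 s s' X Y Z a e a' e' b hs hs' hc ha he ha' he' hb hd (Or.inr hy)
  obtain ⟨W, hW, hW'⟩ := hn1 s' X Z a' e' b hs' (fun b' => (hc' b').1) ha' he' h2
  refine ⟨W, hW, ?_⟩
  have h3 := (gd_pm (tot_conn c.h hr)).tri (s b, b) (s' b, b) W
  have h4 := tot_fib c.h hr b (s b) (s' b)
  linarith

theorem ls_slim (c : Cx G D) (hr : 2 * c.κ + 1 ≤ r) : ∃ h : ℝ, ∀ X Y Z W, W ∈ c.Ls X Y →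
    ∃ W', (W' ∈ c.Ls X Z ∨ W' ∈ c.Ls Z Y) ∧ gd (totG G D r) W W' ≤ h := by
  obtain ⟨n1, R9, h1⟩ := ls_far c hr
  obtain ⟨cS, R9', h2⟩ := stab c (max R9 0 + 2 * c.c0 + 4 * c.δ)
  obtain ⟨n2, hn2⟩ := ls_near c hr (cS + c.δ)
  refine ⟨max n1 (max R9 0 + 2 * c.c0 + 4 * c.δ + 1 + n2), fun X Y Z W hW => ?_⟩
  obtain ⟨w, b⟩ := W
  obtain ⟨s, a, e, hs, hc, ha, he, hb, hw⟩ := hW
  dsimp only at hb hw
  subst hw
  obtain ⟨m, hm, hmc⟩ := c.ctr X.1 Y.1 Z.1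
  rcases le_or_gt (D b (s b) (m b)) (max R9 0 + 2 * c.c0 + 4 * c.δ) with hd | hd
  · obtain ⟨a', ha'⟩ := pr_ex c hm X
    obtain ⟨e', he'⟩ := pr_ex c hm Y
    obtain ⟨f, hf⟩ := pr_ex c hm Z
    have h3 := h2 s m X Y Y a e a' e' b hs hm hc ha he ha' he' hb hd (Or.inl rfl)
    have h4 := tot_fib c.h hr b (s b) (m b)
    have h5 := c.h.hypB b a' f e'
    have h6 := le_max_right n1 (max R9 0 + 2 * c.c0 + 4 * c.δ + 1 + n2)
    rcases min_choice (gp (gd G) b a' f) (gp (gd G) b f e') with h | h <;> rw [h] at h5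
    · obtain ⟨W, hW, hW'⟩ := hn2 m X Z a' f b hm (fun b' => (hmc b').2.2) ha' hf (by linarith)
      refine ⟨W, Or.inl hW, ?_⟩
      have h7 := (gd_pm (tot_conn c.h hr)).tri (s b, b) (m b, b) W
      linarith
    · obtain ⟨W, hW, hW'⟩ := hn2 m Z Y f e' b hm
        (fun b' => by rw [cgp_symm (c.h.pm b')]; exact (hmc b').2.1) hf he' (by linarith)
      refine ⟨W, Or.inr hW, ?_⟩
      have h7 := (gd_pm (tot_conn c.h hr)).tri (s b, b) (m b, b) W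
      linarith
  · have h6 := le_max_left n1 (max R9 0 + 2 * c.c0 + 4 * c.δ + 1 + n2)
    have h7 := le_max_left R9 0
    rcases far_ctr (c.h.pm b) (c.h.hyp b) (hc b) (hmc b).1 (hmc b).2.1 (hmc b).2.2
      (le_max_right R9 0) hd with h | h
    · obtain ⟨W, hW, hW'⟩ := h1 s X Y Z a e b hs hc ha he hb h.1 (h7.trans h.2)
      exact ⟨W, Or.inl hW, hW'.trans h6⟩
    · obtain ⟨W, hW, hW'⟩ := h1 s Y X Z e a b hs
        (fun b' => by rw [cgp_symm (c.h.pm b')]; exact hc b') he ha (hb.symm c.h.conn) h.1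
        (h7.trans h.2)
      exact ⟨W, Or.inr (ls_symm c hW), hW'.trans h6⟩

theorem ls_ctr (c : Cx G D) (hr : 2 * c.κ + 1 ≤ r) : ∃ h : ℝ, ∀ X Y Z, ∃ C W1 W2 W3,
    W1 ∈ c.Ls X Y ∧ W2 ∈ c.Ls X Z ∧ W3 ∈ c.Ls Z Y ∧ gd (totG G D r) C W1 ≤ h ∧
      gd (totG G D r) C W2 ≤ h ∧ gd (totG G D r) C W3 ≤ h := by
  obtain ⟨cB, hcB⟩ := centre_ex c.δ 1
  obtain ⟨n1, hn⟩ := ls_near c hr cB
  refine ⟨n1, fun X Y Z => ?_⟩
  obtain ⟨m, hm, hmc⟩ := c.ctr X.1 Y.1 Z.1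
  obtain ⟨a, ha⟩ := pr_ex c hm X
  obtain ⟨e, he⟩ := pr_ex c hm Y
  obtain ⟨f, hf⟩ := pr_ex c hm Z
  obtain ⟨b, b1, b2, b3⟩ := hcB (gd G) c.pmB c.h.hypB (gd_rg c.h.conn) a e f
  obtain ⟨W1, m1, d1⟩ := hn m X Y a e b hm (fun b' => (hmc b').1) ha he b1
  obtain ⟨W2, m2, d2⟩ := hn m X Z a f b hm (fun b' => (hmc b').2.2) ha hf b3
  obtain ⟨W3, m3, d3⟩ := hn m Z Y f e b hm
    (fun b' => by rw [cgp_symm (c.h.pm b')]; exact (hmc b').2.1) hf he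
    (by rw [cgp_symm c.pmB]; exact b2)
  exact ⟨(m b, b), W1, W2, W3, m1, m2, m3, d1, d2, d3⟩

theorem adj_cases (c : Cx G D) (hr : 2 * c.κ + 1 ≤ r) {X Y : P × B}
    (h : gd (totG G D r) X Y ≤ 1) : D X.2 X.1 Y.1 ≤ r ∧ D Y.2 X.1 Y.1 ≤ r := by
  have hκ := c.h.κ0
  have hc := tot_conn c.h hr
  have h1 : (totG G D r).dist X Y ≤ 1 := by
    unfold gd at h; exact_mod_cast h
  rcases Nat.le_one_iff_eq_zero_or_eq_one.1 h1 with h2 | h2
  · have : X = Y := hc.dist_eq_zero_iff.1 h2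
    subst this
    rw [(c.h.pm X.2).self]
    constructor <;> linarith
  · have h3 : (totG G D r).Adj X Y := gd_adj.1 (by unfold gd; rw [h2]; norm_num)
    rcases h3.2 with h4 | h4
    · exact ⟨h4.2.1, h4.1 ▸ h4.2.1⟩
    · rw [h4.1, (c.h.pm X.2).self, (c.h.pm Y.2).self]
      constructor <;> linarith

theorem pr_eq (c : Cx G D) {s : B → P} {X : P × B} {a : B} (ha : c.Pr s X a)
    (h : D X.2 (s X.2) X.1 ≤ c.R) : X.2 = a := by
  have h1 := ha.2 X.2 (co_of_le c h)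
  rw [c.pmB.self] at h1
  exact gd_eq_zero c.h.conn h1

theorem ls_adj (c : Cx G D) (hr : 2 * c.κ + 1 ≤ r) (hR : r + 2 * c.c0 ≤ c.R) : ∃ h : ℝ,
    ∀ X Y W, gd (totG G D r) X Y ≤ 1 → W ∈ c.Ls X Y → gd (totG G D r) X W ≤ h := by
  refine ⟨r + 2 * c.c0 + 1 + (c.k0 + 2), fun X Y W hXY hW => ?_⟩
  obtain ⟨w, b⟩ := W
  obtain ⟨s, a, e, hs, hc, ha, he, hb, hw⟩ := hW
  dsimp only at hb hw
  subst hw
  obtain ⟨h1, h2⟩ := adj_cases c hr hXY
  have h3 := (tot_le c.h hr X Y).trans hXY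
  have hx : D X.2 X.1 (s X.2) ≤ r + 2 * c.c0 := by
    have t1 := hc X.2
    have t2 := pm_nonneg (c.h.pm X.2) Y.1 (s X.2)
    unfold gp at t1; linarith
  have hy : D Y.2 Y.1 (s Y.2) ≤ r + 2 * c.c0 := by
    have t1 := hc Y.2
    have t2 := pm_nonneg (c.h.pm Y.2) X.1 (s Y.2)
    unfold gp at t1; linarith
  have e1 : X.2 = a := pr_eq c ha (by rw [(c.h.pm X.2).symm]; linarith)
  have e2 : Y.2 = e := pr_eq c he (by rw [(c.h.pm Y.2).symm]; linarith)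
  subst e1 e2
  have h4 : gd G X.2 b ≤ 1 := by
    have t1 := pm_nonneg c.pmB b Y.2
    unfold Bt at hb; linarith
  have h5 := (gd_pm (tot_conn c.h hr)).tri X (s X.2, X.2) (s b, b)
  have h6 : gd (totG G D r) X (s X.2, X.2) ≤ D X.2 X.1 (s X.2) + 1 :=
    tot_fib c.h hr X.2 X.1 (s X.2)
  have h7 := tot_sec c.h hr c.k00 hs X.2 b
  have h8 : (c.k0 + 2) * gd G X.2 b ≤ (c.k0 + 2) * 1 :=
    mul_le_mul_of_nonneg_left h4 (by linarith [c.k00])
  linarith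

end Pool.Agent.E5f.Cb

end

section

/-! The combination theorem. -/

set_option autoImplicit false

namespace Pool.Agent.E5f

open Cb in
theorem comb {P B : Type} {G : SimpleGraph B} {D : B → P → P → ℝ} {δ κ K : ℝ} {n : ℕ} {M r : ℝ}
    (h : CombHyp G D δ κ K n M) (hr : 2 * κ + 1 ≤ r) : CombOut G D r := by
  obtain ⟨c, hκ, hR⟩ := cx_ex h r
  have hr' : 2 * c.κ + 1 ≤ r := by rw [hκ]; exact hr
  obtain ⟨h1, s1⟩ := ls_slim c hr'
  obtain ⟨h2, s2⟩ := ls_ctr c hr'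
  obtain ⟨h3, s3⟩ := ls_adj c hr' hR
  obtain ⟨δ', Rg, hg⟩ := guess (max h1 (max h2 h3))
  have l1 : h1 ≤ max h1 (max h2 h3) := le_max_left _ _
  have l2 : h2 ≤ max h1 (max h2 h3) := (le_max_left _ _).trans (le_max_right _ _)
  have l3 : h3 ≤ max h1 (max h2 h3) := (le_max_right _ _).trans (le_max_right _ _)
  have hc := tot_conn h hr
  have hp := gd_pm hc
  obtain ⟨g1, g2, g3⟩ := hg (totG G D r) c.Ls hc
    (fun X Y Z W hW => by
      obtain ⟨W', a, b⟩ := s1 X Y Z W hW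
      exact ⟨W', a, b.trans l1⟩)
    (fun X Y Z => by
      obtain ⟨C, W1, W2, W3, a1, a2, a3, b1, b2, b3⟩ := s2 X Y Z
      exact ⟨C, W1, W2, W3, a1, a2, a3, b1.trans l2, b2.trans l2, b3.trans l2⟩)
    (fun X Y W a b => (s3 X Y W a b).trans l3)
  refine ⟨hc, ⟨δ', g1⟩, tot_fib h hr, tot_base h r, tot_le h hr, tot_near h hr, fun C => ?_,
    fun e => ?_⟩
  · obtain ⟨c', hc'⟩ := btw_m h c.c0 (C + Rg)
    obtain ⟨C', hC'⟩ := tot_near h hr (C + Rg)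
    refine ⟨c' + C', fun W X Y hW => ?_⟩
    obtain ⟨W', ⟨s, a, e, -, hs, -, -, -, hw⟩, hd⟩ := g3 X Y W C hW
    have t1 : gd G W'.2 W.2 ≤ C + Rg := by
      rw [c.pmB.symm]; exact (tot_le h hr W W').trans hd
    have t2 := hc' W'.2 W.2 t1 (s W'.2) X.1 Y.1 (hs W'.2)
    have t3 := hC' W W' hd
    have t4 := cgp_base (h.pm W.2) (s W'.2) W.1 X.1 Y.1
    rw [hw, (h.pm W.2).symm] at t3
    linarith
  · obtain ⟨C, hC⟩ := centre_uniq δ (max e c.c0)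
    refine ⟨Rg + (C + 1), fun v X Y hv => ?_⟩
    obtain ⟨s, hs, hm⟩ := c.ctr X.1 Y.1 v
    obtain ⟨a, ha⟩ := pr_ex c hs X
    obtain ⟨a', ha'⟩ := pr_ex c hs Y
    have m1 : (s a, a) ∈ c.Ls X Y := ⟨s, a, a', hs, fun b => (hm b).1, ha, ha', by
      unfold Bt; rw [c.pmB.self, zero_add], rfl⟩
    have l4 : c.c0 ≤ max e c.c0 := le_max_right _ _
    have l5 := c.c00
    have hq := h.pm a
    have t1 : D a (s a) v ≤ C := by
      refine hC (D a) hq (h.hyp a) X.1 Y.1 v (s a) v ((hm a).1.trans l4) ((hm a).2.1.trans l4)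
        ((hm a).2.2.trans l4) ((hv a).trans (le_max_left _ _)) ?_ ?_
      · rw [cgp_symm hq, cgp_self hq]; linarith
      · rw [cgp_symm hq, cgp_self hq]; linarith
    have t2 := g2 X Y _ m1
    have t3 := cgp_base hp (s a, a) (v, a) X Y
    have t4 := tot_fib h hr a (s a) v
    exact ⟨a, by linarith⟩

end Pool.Agent.E5f

end

section

/-! The extension group and its hyperbolicity. -/

set_option autoImplicit false

namespace Pool.Agent.E5f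

theorem gd_hom_FinGroup {V : Type} {G : SimpleGraph V} (hc : G.Connected) (f : V → V)
    (hf : ∀ X Y, G.Adj X Y → G.Adj (f X) (f Y)) (X Y : V) : gd G (f X) (f Y) ≤ gd G X Y := by
  obtain ⟨p, hp⟩ := (hc X Y).exists_walk_length_eq_dist
  have := SimpleGraph.dist_le (p.map (⟨f, fun {a b} => hf a b⟩ : G →g G))
  rw [SimpleGraph.Walk.length_map, hp] at this
  unfold gd
  exact_mod_cast this

theorem ball_FinGroup {G ι : Type} [Group G] [Finite ι] {s : ι → G} (hs : Gens s) (C : ℝ) :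
    {b | gd (cay s) 1 b ≤ C}.Finite := by
  refine ((List.finite_length_le (ι × Bool) ⌈C⌉₊).image (wev s)).subset fun b hb => ?_
  have hb' : (wl s b : ℝ) ≤ C := by simpa [cay_dist hs] using hb
  have hne : {m : ℕ | ∃ l : List (ι × Bool), l.length = m ∧ wev s l = b}.Nonempty := by
    obtain ⟨l, hl⟩ := hs b
    exact ⟨_, l, rfl, hl⟩
  obtain ⟨l, h1, h2⟩ := Nat.sInf_mem hne
  refine ⟨l, ?_, h2⟩
  have h3 : (l.length : ℝ) ≤ (⌈C⌉₊ : ℝ) := by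
    rw [h1]
    exact hb'.trans (Nat.le_ceil C)
  exact_mod_cast h3

theorem hyp_mono_FinGroup {X : Type} {d : X → X → ℝ} {δ δ' : ℝ} (h : Hyp d δ) (hδ : δ ≤ δ') :
    Hyp d δ' := fun w x y z => le_trans (by linarith) (h w x y z)

section
variable {Q P : Type} [MulAction G8 Q] {S : Base Q} {q0 : Q} (Fb : Fib S q0 P)

theorem Fib.conj_FinGroup (γ : G8) {n : Equiv.Perm P} (hn : n ∈ (ker2 (OG 3 2)).map Fb.φ) :
    Fb.s γ * n * (Fb.s γ)⁻¹ ∈ (ker2 (OG 3 2)).map Fb.φ := by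
  obtain ⟨o, ho, rfl⟩ := hn
  choose c hc using Fb.norm γ
  let c' : OG 3 2 →* OG 3 2 := MonoidHom.mk' c fun a b => Fb.inj (by
    rw [map_mul, ← hc, ← hc, ← hc, map_mul]
    group)
  refine ⟨c o, ?_, (hc o).symm⟩
  exact Subgroup.mem_iInf.2 fun ψ => Subgroup.mem_iInf.1 ho (ψ.comp c')

variable {h : ℕ} (A : Arith h)

/-- The extension group. -/
def Fib.ext_FinGroup : Subgroup (Equiv.Perm P × SG h) where
  carrier := {g | g.1 * (Fb.s (A.ι g.2))⁻¹ ∈ (ker2 (OG 3 2)).map Fb.φ}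
  one_mem' := ⟨1, one_mem _, by simp⟩
  mul_mem' := by
    intro a b ha hb
    have := mul_mem ha (Fb.conj_FinGroup (A.ι a.2) hb)
    change (a.1 * b.1) * (Fb.s (A.ι (a.2 * b.2)))⁻¹ ∈ (ker2 (OG 3 2)).map Fb.φ
    rw [map_mul, map_mul]
    have e : a.1 * b.1 * (Fb.s (A.ι a.2) * Fb.s (A.ι b.2))⁻¹ =
        a.1 * (Fb.s (A.ι a.2))⁻¹ *
          (Fb.s (A.ι a.2) * (b.1 * (Fb.s (A.ι b.2))⁻¹) * (Fb.s (A.ι a.2))⁻¹) := by group
    rw [e]
    exact this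
  inv_mem' := by
    intro a ha
    have := Fb.conj_FinGroup (A.ι a.2)⁻¹ (inv_mem ha)
    change a.1⁻¹ * (Fb.s (A.ι a.2⁻¹))⁻¹ ∈ (ker2 (OG 3 2)).map Fb.φ
    rw [map_inv] at this
    rw [map_inv, map_inv]
    have e : a.1⁻¹ * (Fb.s (A.ι a.2))⁻¹⁻¹ =
        (Fb.s (A.ι a.2))⁻¹ * (a.1 * (Fb.s (A.ι a.2))⁻¹)⁻¹ * (Fb.s (A.ι a.2))⁻¹⁻¹ := by group
    rw [e]
    exact this

/-- The action of the extension group on the total space. -/
@[reducible] def Fib.act_FinGroup : MulAction (Fb.ext_FinGroup A) (P × SG h) where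
  smul g X := (g.1.1 X.1, g.1.2 * X.2)
  one_smul _ := Prod.ext rfl (one_mul _)
  mul_smul _ _ _ := Prod.ext rfl (mul_assoc _ _ _)

theorem Fib.Dinv_FinGroup (g : Fb.ext_FinGroup A) (b : SG h) (x y : P) :
    Fb.D A (g.1.2 * b) (g.1.1 x) (g.1.1 y) = Fb.D A b x y := by
  obtain ⟨o, -, ho⟩ := Fb.conj_FinGroup (A.ι (g.1.2 * b))⁻¹ g.2
  have e : (Fb.s (A.ι (g.1.2 * b)))⁻¹ * g.1.1 = Fb.φ o * (Fb.s (A.ι b))⁻¹ := by
    rw [ho, map_inv, map_mul, map_mul]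
    group
  have e' : ∀ z, (Fb.s (A.ι (g.1.2 * b)))⁻¹ (g.1.1 z) = Fb.φ o ((Fb.s (A.ι b))⁻¹ z) := fun z => by
    rw [← Equiv.Perm.mul_apply, e, Equiv.Perm.mul_apply]
  rw [Fib.D, Fib.D, e', e', Fb.inv_v, Fb.inv_h]

theorem Fib.adj_FinGroup (r : ℝ) (g : Fb.ext_FinGroup A) (X Y : P × SG h)
    (hXY : (totG (cay (sgen h)) (Fb.D A) r).Adj X Y) :
    (totG (cay (sgen h)) (Fb.D A) r).Adj (g.1.1 X.1, g.1.2 * X.2) (g.1.1 Y.1, g.1.2 * Y.2) := by
  obtain ⟨h0, h1⟩ := hXY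
  refine ⟨fun e => h0 (Prod.ext (g.1.1.injective (congrArg Prod.fst e))
    (mul_left_cancel (congrArg Prod.snd e))), ?_⟩
  rcases h1 with ⟨h1, h2, h3⟩ | ⟨h1, h2, i, h3⟩
  · exact Or.inl ⟨congrArg (g.1.2 * ·) h1, (Fb.Dinv_FinGroup A g _ _ _).trans_le h2,
      (Fb.Dinv_FinGroup A g _ _ _).trans_le h3⟩
  · refine Or.inr ⟨congrArg g.1.1 h1, fun e => h2 (mul_left_cancel e), i, ?_⟩
    rcases h3 with h3 | h3
    · exact Or.inl (by simp only [h3, mul_assoc])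
    · exact Or.inr (by simp only [h3, mul_assoc])

theorem Fib.comb_FinGroup (hg : Gens (sgen h)) (hH : ∃ δ, Hyp (gd (cay (sgen h))) δ)
    (hfl : ∃ (n : ℕ) (M : ℝ), 1 ≤ n ∧ Flares (cay (sgen h)) (Fb.D A) n M) :
    ∃ r, CombOut (cay (sgen h)) (Fb.D A) r := by
  obtain ⟨δ, hδ⟩ := hH
  obtain ⟨n, M, hn, hf⟩ := hfl
  obtain ⟨δ', hδ'⟩ := Fb.thick.hyp
  obtain ⟨κ, hκ, hrg⟩ := Fb.thick.rg
  obtain ⟨K, hK, hl⟩ := Fb.lipD A
  refine ⟨_, comb (δ := max δ δ') (κ := κ) (K := K) (n := n) (M := M)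
    ⟨Fb.ne, cay_conn hg, hyp_mono_FinGroup hδ (le_max_left _ _), fun b => ⟨fun x => ?_,
      fun x y => ?_, fun x y z => ?_⟩, fun b => hyp_mono_FinGroup (δ := δ') ?_ (le_max_right _ _),
      fun b x y t h0 h1 => ?_, hκ, hK, hl, hn, hf⟩ le_rfl⟩
  · rw [Fib.D, (Fb.pv q0).self, (Fb.ph q0).self, add_zero]
  · rw [Fib.D, Fib.D, (Fb.pv q0).symm, (Fb.ph q0).symm]
  · have h1 := (Fb.pv q0).tri ((Fb.s (A.ι b))⁻¹ x) ((Fb.s (A.ι b))⁻¹ y) ((Fb.s (A.ι b))⁻¹ z)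
    have h2 := (Fb.ph q0).tri ((Fb.s (A.ι b))⁻¹ x) ((Fb.s (A.ι b))⁻¹ y) ((Fb.s (A.ι b))⁻¹ z)
    simp only [Fib.D]
    linarith
  · exact fun w x y z => hδ' ((Fb.s (A.ι b))⁻¹ w) ((Fb.s (A.ι b))⁻¹ x) ((Fb.s (A.ι b))⁻¹ y)
      ((Fb.s (A.ι b))⁻¹ z)
  · obtain ⟨z, hz⟩ := hrg ((Fb.s (A.ι b))⁻¹ x) ((Fb.s (A.ι b))⁻¹ y) t h0 h1
    refine ⟨Fb.s (A.ι b) z, ?_⟩
    have e : (Fb.s (A.ι b))⁻¹ (Fb.s (A.ι b) z) = z := Equiv.symm_apply_apply _ _
    simpa only [Fib.D, e] using hz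

theorem Fib.stab_FinGroup (x0 : P) :
    {g : Fb.ext_FinGroup A | g.1.1 x0 = x0 ∧ g.1.2 = 1}.Finite := by
  refine Set.Finite.of_finite_image (f := fun g => g.1.1) ?_ ?_
  · refine ((Fb.stab x0).image Fb.φ).subset ?_
    rintro _ ⟨g, ⟨h1, h2⟩, rfl⟩
    obtain ⟨o, -, ho⟩ := g.2
    have ho' : Fb.φ o = g.1.1 := by rw [ho, h2]; simp
    exact ⟨o, show Fb.φ o x0 = x0 by rw [ho', h1], ho'⟩
  · intro g hg g' hg' e
    exact Subtype.ext (Prod.ext e (hg.2.trans hg'.2.symm))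

theorem Fib.proper_FinGroup (hg : Gens (sgen h)) {r : ℝ}
    (hO : CombOut (cay (sgen h)) (Fb.D A) r) (x0 : P) (C : ℝ) :
    {g : Fb.ext_FinGroup A |
      gd (totG (cay (sgen h)) (Fb.D A) r) (x0, 1) (g.1.1 x0, g.1.2 * 1) ≤ C}.Finite := by
  obtain ⟨C', hC'⟩ := hO.fib_near C
  refine Set.Finite.of_finite_fibers (fun g : Fb.ext_FinGroup A => (g.1.1 x0, g.1.2)) ?_ ?_
  · refine ((Fb.thick.fin x0 C').prod (ball_FinGroup hg C)).subset ?_
    rintro _ ⟨g, hg', rfl⟩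
    refine ⟨?_, ?_⟩
    · simpa [Fib.D] using hC' _ _ hg'
    · simpa using (hO.le_base _ _).trans hg'
  · rintro _ ⟨g, -, rfl⟩
    refine ((Fb.stab_FinGroup A x0).image (g * ·)).subset ?_
    rintro g' ⟨-, hg'⟩
    have h1 : g'.1.1 x0 = g.1.1 x0 := congrArg Prod.fst hg'
    have h2 : g'.1.2 = g.1.2 := congrArg (Prod.snd : P × SG h → SG h) hg'
    refine ⟨g⁻¹ * g', ⟨?_, ?_⟩, by simp⟩
    · change g.1.1⁻¹ (g'.1.1 x0) = x0
      rw [h1]
      exact Equiv.symm_apply_apply _ _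
    · change g.1.2⁻¹ * g'.1.2 = 1
      rw [h2, inv_mul_cancel]

theorem Fib.cocpt_FinGroup (hfi : (ker2 (OG 3 2)).FiniteIndex) {r : ℝ}
    (hO : CombOut (cay (sgen h)) (Fb.D A) r) (x0 : P) :
    ∃ R : ℝ, ∀ X : P × SG h, ∃ g : Fb.ext_FinGroup A,
      gd (totG (cay (sgen h)) (Fb.D A) r) (g.1.1 x0, g.1.2 * 1) X ≤ R := by
  obtain ⟨T, hT⟩ := Fb.orb
  obtain ⟨R, hR⟩ := (Set.finite_range fun a : (OG 3 2 ⧸ ker2 (OG 3 2)) × T =>
    gd (totG (cay (sgen h)) (Fb.D A) r) (x0, 1) (Fb.φ a.1.out⁻¹ a.2.1, 1)).bddAbove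
  refine ⟨R, fun X => ?_⟩
  obtain ⟨o, y, hy, hx⟩ := hT ((Fb.s (A.ι X.2))⁻¹ X.1)
  obtain ⟨n, hn⟩ := QuotientGroup.mk_out_eq_mul (ker2 (OG 3 2)) o⁻¹
  let g : Fb.ext_FinGroup A := ⟨(Fb.s (A.ι X.2) * Fb.φ n, X.2),
    Fb.conj_FinGroup _ ⟨n, n.2, rfl⟩⟩
  have h1 := gd_hom_FinGroup hO.conn _ (Fb.adj_FinGroup A r g) (x0, 1)
    (Fb.φ (QuotientGroup.mk (s := ker2 (OG 3 2)) o⁻¹).out⁻¹ y, 1)
  have h2 := hR ⟨(QuotientGroup.mk o⁻¹, ⟨y, hy⟩), rfl⟩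
  have e : (g.1.1 (Fb.φ (QuotientGroup.mk (s := ker2 (OG 3 2)) o⁻¹).out⁻¹ y), g.1.2 * 1) = X := by
    refine Prod.ext ?_ (mul_one _)
    change Fb.s (A.ι X.2) (Fb.φ n (Fb.φ _ y)) = X.1
    rw [hn, ← Equiv.Perm.mul_apply (Fb.φ n), ← map_mul, mul_inv_rev, inv_inv, mul_inv_cancel_left,
      ← hx]
    exact Equiv.apply_symm_apply _ _
  refine ⟨g, ?_⟩
  rw [← e]
  exact h1.trans h2

end

theorem Fib.group {Q P : Type} [MulAction G8 Q] {S : Base Q} {q0 : Q} (Fb : Fib S q0 P)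
    {h : ℕ} (A : Arith h) (hg : Gens (sgen h)) (hH : ∃ δ, Hyp (gd (cay (sgen h))) δ)
    (hfl : ∃ (n : ℕ) (M : ℝ), 1 ≤ n ∧ Flares (cay (sgen h)) (Fb.D A) n M)
    {g : ℕ} (e : SG g ≃* ker2 (OG 3 2)) (hfi : (ker2 (OG 3 2)).FiniteIndex) :
    ∃ (G : Type) (_ : Group G) (n : ℕ) (s : Fin n → G) (i : SG g →* G) (p : G →* SG h),
      Gens s ∧ FourPt s ∧ Function.Injective i ∧ Function.Surjective p ∧ i.range = p.ker := by
  obtain ⟨r, hO⟩ := Fb.comb_FinGroup A hg hH hfl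
  obtain ⟨x0⟩ := Fb.ne
  obtain ⟨R, hR⟩ := Fb.cocpt_FinGroup A hfi hO x0
  obtain ⟨δ, hδ⟩ := hO.hyp
  let := Fb.act_FinGroup A
  obtain ⟨n, s, K, hs, hq⟩ := svarc (G := Fb.ext_FinGroup A) (totG (cay (sgen h)) (Fb.D A) r)
    hO.conn (Fb.adj_FinGroup A r) (x0, 1) R hR (Fb.proper_FinGroup A hg hO x0)
  obtain ⟨δ', hδ'⟩ := hyp_of_qie (cay_conn hs) hO.conn hδ hq
  let i0 : SG g →* Equiv.Perm P × SG h :=
    (Fb.φ.comp ((ker2 (OG 3 2)).subtype.comp e.toMonoidHom)).prod 1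
  have hi0 : ∀ a, i0 a ∈ Fb.ext_FinGroup A := fun a => ⟨e a, (e a).2, by simp [i0]⟩
  refine ⟨Fb.ext_FinGroup A, inferInstance, n, s, i0.codRestrict _ hi0,
    (MonoidHom.snd _ _).comp (Fb.ext_FinGroup A).subtype, hs, fourPt_of_hyp hs hδ', ?_, ?_, ?_⟩
  · intro a b hab
    exact e.injective (Subtype.ext (Fb.inj (congrArg (fun x => x.1.1) hab)))
  · intro b
    exact ⟨⟨(Fb.s (A.ι b), b), 1, one_mem _, by simp⟩, rfl⟩
  · ext x
    constructor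
    · rintro ⟨a, rfl⟩
      rfl
    · intro hx
      have hx' : x.1.2 = 1 := hx
      obtain ⟨o, ho, ho'⟩ := x.2
      refine ⟨e.symm ⟨o, ho⟩, Subtype.ext (Prod.ext ?_ hx'.symm)⟩
      rw [hx'] at ho'
      simpa [i0] using ho'

end Pool.Agent.E5f

end

section

/-! The total graph of the base is hyperbolic. -/

set_option autoImplicit false

namespace Pool.Agent.E5f

variable {Q : Type} [MulAction G8 Q]

theorem walk_EndG0 (n : ℕ) : ∀ i j : ℤ, j = i + n → ∃ w : lineG.Walk i j, w.length = n := by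
  induction n with
  | zero =>
    intro i j h
    obtain rfl : j = i := by simpa using h
    exact ⟨SimpleGraph.Walk.nil, rfl⟩
  | succ n ih =>
    intro i j h
    obtain ⟨w, hw⟩ := ih (i + 1) j (by rw [h]; push_cast; ring)
    exact ⟨SimpleGraph.Walk.cons (show lineG.Adj i (i + 1) from Or.inl rfl) w, by simp [hw]⟩

theorem walk'_EndG0 (i j : ℤ) : ∃ w : lineG.Walk i j, (w.length : ℤ) = |i - j| := by
  rcases le_total i j with h | h
  · obtain ⟨w, hw⟩ := walk_EndG0 (j - i).toNat i j (by omega)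
    exact ⟨w, by rw [hw, abs_of_nonpos (by omega)]; omega⟩
  · obtain ⟨w, hw⟩ := walk_EndG0 (i - j).toNat j i (by omega)
    exact ⟨w.reverse, by rw [SimpleGraph.Walk.length_reverse, hw, abs_of_nonneg (by omega)]; omega⟩

theorem low_EndG0 {i j : ℤ} (w : lineG.Walk i j) : |i - j| ≤ (w.length : ℤ) := by
  induction w with
  | nil => simp
  | @cons a b c h w ih =>
    rw [SimpleGraph.Walk.length_cons]
    rw [abs_le] at ih ⊢
    rcases h with h | h <;> constructor <;> push_cast <;> omega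

theorem conn_EndG0 : lineG.Connected :=
  ⟨fun i j => (walk'_EndG0 i j).elim fun w _ => ⟨w⟩⟩

theorem dist_EndG0 (i j : ℤ) : (lineG.dist i j : ℤ) = |i - j| := by
  refine le_antisymm ?_ ?_
  · obtain ⟨w, hw⟩ := walk'_EndG0 i j
    rw [← hw]
    exact_mod_cast SimpleGraph.dist_le w
  · obtain ⟨w, hw⟩ := conn_EndG0.exists_walk_length_eq_dist i j
    rw [← hw]
    exact low_EndG0 w

theorem gd_line (i j : ℤ) : gd lineG i j = |(i : ℝ) - (j : ℝ)| := by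
  have h : ((lineG.dist i j : ℤ) : ℝ) = ((|i - j| : ℤ) : ℝ) := by rw [dist_EndG0]
  rw [gd]
  exact_mod_cast h

theorem hypLine_EndG0 {δ : ℝ} (h : 0 ≤ δ) : Hyp (gd lineG) δ := by
  intro w x y z
  have key : min (gp (gd lineG) w x y) (gp (gd lineG) w y z) ≤ gp (gd lineG) w x z := by
    simp only [gp, gd_line, min_le_iff]
    generalize (w : ℝ) = a
    generalize (x : ℝ) = b
    generalize (y : ℝ) = c
    generalize (z : ℝ) = d
    by_contra hc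
    rw [not_or, not_le, not_le] at hc
    obtain ⟨h1, h2⟩ := hc
    rcases abs_cases (b - a) with k1 | k1 <;> rcases abs_cases (c - a) with k2 | k2 <;>
      rcases abs_cases (d - a) with k3 | k3 <;> rcases abs_cases (b - c) with k4 | k4 <;>
      rcases abs_cases (c - d) with k5 | k5 <;> rcases abs_cases (b - d) with k6 | k6 <;>
      linarith [k1.1, k1.2, k2.1, k2.2, k3.1, k3.2, k4.1, k4.2, k5.1, k5.2, k6.1, k6.2]
  linarith

theorem Base.D_pm (S : Base Q) (t : ℤ) : PM (S.D t) :=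
  S.bi.pm (S.lam_pos t).le (S.lam_pos (-t)).le

theorem Base.sum_EndG0 (S : Base Q) (t : ℤ) (L : ℝ) :
    S.lam ^ t * (S.lam ^ (-t) * L) + S.lam ^ (-t) * (S.lam ^ t * L) = 2 * L := by
  have e : S.lam ^ t * S.lam ^ (-t) = 1 := by rw [← S.lam_add, add_neg_cancel, zpow_zero]
  linear_combination 2 * L * e

theorem Base.lip_EndG0 (S : Base Q) (b b' : ℤ) (h : lineG.Adj b b') (x y : Q) :
    S.D b' x y ≤ S.lam * S.D b x y + S.lam := by
  have h1 : S.lam ^ b' ≤ S.lam * S.lam ^ b := by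
    have := S.lam_mono (s := b') (t := 1 + b) (by rcases h with h | h <;> omega)
    rwa [S.lam_add, zpow_one] at this
  have h2 : S.lam ^ (-b') ≤ S.lam * S.lam ^ (-b) := by
    have := S.lam_mono (s := -b') (t := 1 + -b) (by rcases h with h | h <;> omega)
    rwa [S.lam_add, zpow_one] at this
  have h3 := mul_le_mul_of_nonneg_right h1 (S.bi.pv.nonneg_E x y)
  have h4 := mul_le_mul_of_nonneg_right h2 (S.bi.ph.nonneg_E x y)
  have := S.lam1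
  simp only [Base.D]
  nlinarith

theorem Base.two_EndG0 (S : Base Q) {n t : ℤ} (hn : 4 ≤ S.lam ^ n) (x y : Q) :
    2 * S.D t x y ≤ max (S.D (t + n) x y) (S.D (t - n) x y) := by
  have h1 := S.dv_le_D (t + n) x y
  have h2 := S.dh_le_D (t - n) x y
  rw [S.lam_add, mul_right_comm] at h1
  rw [show -(t - n) = -t + n by ring, S.lam_add, mul_right_comm] at h2
  have hA : 0 ≤ S.lam ^ t * S.dv x y := mul_nonneg (S.lam_pos _).le (S.bi.pv.nonneg_E _ _)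
  have hB : 0 ≤ S.lam ^ (-t) * S.dh x y := mul_nonneg (S.lam_pos _).le (S.bi.ph.nonneg_E _ _)
  have h3 := mul_le_mul_of_nonneg_left hn hA
  have h4 := mul_le_mul_of_nonneg_left hn hB
  have e : S.D t x y = S.lam ^ t * S.dv x y + S.lam ^ (-t) * S.dh x y := rfl
  rcases le_total (S.lam ^ t * S.dv x y) (S.lam ^ (-t) * S.dh x y) with k | k
  · exact le_max_of_le_right (by linarith)
  · exact le_max_of_le_left (by linarith)

theorem Base.flares_EndG0 (S : Base Q) {n : ℕ} (hn : 4 ≤ S.lam ^ (n : ℤ)) :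
    Flares lineG S.D n 0 := by
  intro γ hγ x y _
  have a1 := hγ 0 n (by omega) (by omega)
  have a2 := hγ n (2 * n) (by omega) le_rfl
  have a3 := hγ 0 (2 * n) (by omega) le_rfl
  rw [gd_line] at a1 a2 a3
  have b1 : |γ 0 - γ n| = |((0 : ℕ) : ℤ) - (n : ℤ)| := by exact_mod_cast a1
  have b2 : |γ n - γ (2 * n)| = |(n : ℤ) - ((2 * n : ℕ) : ℤ)| := by exact_mod_cast a2
  have b3 : |γ 0 - γ (2 * n)| = |((0 : ℕ) : ℤ) - ((2 * n : ℕ) : ℤ)| := by exact_mod_cast a3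
  have key : (γ 0 = γ n + n ∧ γ (2 * n) = γ n - n) ∨ (γ 0 = γ n - n ∧ γ (2 * n) = γ n + n) := by
    rw [abs_eq_abs] at b1 b2 b3
    omega
  have h := S.two_EndG0 (t := γ n) hn x y
  rcases key with ⟨k1, k2⟩ | ⟨k1, k2⟩
  · rw [k1, k2]
    exact h
  · rw [k1, k2, max_comm]
    exact h

theorem Base.out (S : Base Q) : CombOut lineG S.D 1 := by
  obtain ⟨L, hL, hn⟩ := S.noRect
  obtain ⟨b, hb0, hb⟩ := S.lam_big 4
  have hb' : 4 ≤ S.lam ^ ((b.toNat + 1 : ℕ) : ℤ) := hb.trans (S.lam_mono (by omega))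
  refine comb (δ := 18 * L) (κ := 0) (K := S.lam) (n := b.toNat + 1) (M := 0)
    ⟨⟨S.P0⟩, conn_EndG0, hypLine_EndG0 (by linarith), S.D_pm, fun t => ?_,
      fun t => S.bi.rg (S.lam_pos t).le (S.lam_pos (-t)).le, le_rfl, S.lam1.le, S.lip_EndG0,
      by omega, S.flares_EndG0 hb'⟩ (by norm_num)
  have h := S.bi.hyp (mul_nonneg (S.lam_pos (-t)).le hL.le) (mul_nonneg (S.lam_pos t).le hL.le)
    (hn t) (S.lam_pos t).le (S.lam_pos (-t)).le
  rw [S.sum_EndG0, show 9 * (2 * L) = 18 * L by ring] at h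
  exact h

theorem Base.nearD (S : Base Q) : ∃ C : ℝ, ∀ (t : ℤ) (w x y : Q), ∃ v, Btw S.dv S.dh x v y ∧
    S.D t w v ≤ gp (S.D t) w x y + C := by
  obtain ⟨L, hL, hn⟩ := S.noRect
  refine ⟨6 * (2 * L), fun t w x y => ?_⟩
  have h := S.bi.near (mul_nonneg (S.lam_pos (-t)).le hL.le) (mul_nonneg (S.lam_pos t).le hL.le)
    (hn t) (S.lam_pos t).le (S.lam_pos (-t)).le w x y
  rw [S.sum_EndG0] at h
  exact h

theorem Base.dE_pm (S : Base Q) : PM S.dE :=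
  gd_pm S.out.conn

theorem Base.dE_hyp (S : Base Q) : ∃ δ : ℝ, 0 ≤ δ ∧ Hyp S.dE δ := by
  obtain ⟨δ, h⟩ := S.out.hyp
  refine ⟨max δ 0, le_max_right _ _, fun w x y z => ?_⟩
  have h1 : min (gp S.dE w x y) (gp S.dE w y z) - δ ≤ gp S.dE w x z := h w x y z
  have h2 := le_max_left δ 0
  linarith

theorem Base.D_smul_EndG0 (S : Base Q) (γ : G8) (t : ℤ) (p q : Q) :
    S.D (t - S.dg γ) (γ • p) (γ • q) = S.D t p q := by
  simp only [Base.D, S.sv, S.sh]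
  rw [← mul_assoc, ← mul_assoc, ← S.lam_add, ← S.lam_add, sub_add_cancel,
    show -(t - S.dg γ) + -S.dg γ = -t by ring]

theorem Base.dE_smul (S : Base Q) (γ : G8) (p q : Q) (s t : ℤ) :
    S.dE (γ • p, s - S.dg γ) (γ • q, t - S.dg γ) = S.dE (p, s) (q, t) := by
  refine gd_equiv_End (G := S.E) (G' := S.E)
    ⟨(MulAction.toPerm γ).prodCongr (Equiv.subRight (S.dg γ)), ?_⟩ (p, s) (q, t)
  rintro ⟨a, i⟩ ⟨b, j⟩
  simp only [Base.E, totG, lineG, Equiv.prodCongr_apply, Prod.map, MulAction.toPerm_apply,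
    Equiv.subRight_apply, ne_eq, Prod.mk.injEq, smul_left_cancel_iff, sub_left_inj,
    S.D_smul_EndG0]
  have : (j - S.dg γ = i - S.dg γ + 1 ∨ i - S.dg γ = j - S.dg γ + 1) ↔
      (j = i + 1 ∨ i = j + 1) := by omega
  rw [this]

theorem Base.dE_fib (S : Base Q) (p q : Q) (t : ℤ) : S.dE (p, t) (q, t) ≤ S.D t p q + 1 :=
  S.out.fib_le t p q

theorem Base.le_dE_EndG0 (S : Base Q) (p q : Q) (s t : ℤ) :
    |(s : ℝ) - (t : ℝ)| ≤ S.dE (p, s) (q, t) := by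
  rw [← gd_line]
  exact S.out.le_base (p, s) (q, t)

theorem Base.dE_vert (S : Base Q) (p : Q) (s t : ℤ) :
    S.dE (p, s) (p, t) = |(s : ℝ) - (t : ℝ)| := by
  refine le_antisymm ?_ (S.le_dE_EndG0 p p s t)
  rw [← gd_line]
  exact S.out.base_le p s t

theorem Base.le_dE (S : Base Q) (p q : Q) (s t : ℤ) :
    |(s : ℝ) - (t : ℝ)| ≤ S.dE (p, s) (q, t) :=
  S.le_dE_EndG0 p q s t

end Pool.Agent.E5f

end

section

/-! The Morse lemma for the sequence. -/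

set_option autoImplicit false

namespace Pool.Agent.E5f

variable {Q : Type} [MulAction G8 Q] {S : Base Q}


theorem qg_EndG2 (Z : Seq S) (i : ℤ) (n : ℕ) : QG S.dE Z.K (fun m : ℕ => Z.X (i + m)) n := by
  intro a b _ _
  have e : ((i + a : ℤ) : ℝ) - ((i + b : ℤ) : ℝ) = (a : ℝ) - (b : ℝ) := by
    push_cast
    ring
  have h1 := Z.up (i + a) (i + b)
  have h2 := Z.low (i + a) (i + b)
  rw [e] at h1 h2
  exact ⟨h1, h2⟩

theorem rg_EndG2 (S : Base Q) : RG S.dE 1 := gd_rg S.out.conn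

theorem K_nonneg_EndG2 (Z : Seq S) : 0 ≤ Z.K := by
  have h := Z.up 0 0
  rw [S.dE_pm.self, sub_self, abs_zero, mul_zero, zero_add] at h
  exact h

theorem ends_EndG2 (S : Base Q) (W X X' Y Y' : Q × ℤ) :
    gp S.dE W X Y ≤ gp S.dE W X' Y' + S.dE X X' + S.dE Y Y' := by
  have h1 := S.dE_pm.gp_left_E W X X' Y
  have h2 := S.dE_pm.gp_right_E W X' Y Y'
  linarith

theorem Seq.mor_gp (Z : Seq S) (c : ℝ) : ∃ C : ℝ, 0 ≤ C ∧ ∀ (i j k : ℤ) (X Y : Q × ℤ) (v : Q),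
    i ≤ j → j ≤ k → S.dE X (Z.X i) ≤ c → S.dE Y (Z.X k) ≤ c → S.D (Z.τ j) (Z.q j) v ≤ c →
    gp S.dE (v, Z.τ j) X Y ≤ C := by
  obtain ⟨δ, -, hδ⟩ := S.dE_hyp
  obtain ⟨C, hC⟩ := morse_a δ 1 Z.K
  refine ⟨max 0 (C + 3 * c + 1), le_max_left _ _, fun i j k X Y v hij hjk hX hY hv => ?_⟩
  refine le_trans ?_ (le_max_right _ _)
  have h1 := hC S.dE S.dE_pm hδ (rg_EndG2 S) _ (k - i).toNat (qg_EndG2 Z i _) 0 (j - i).toNat
    (k - i).toNat (Nat.zero_le _) (by omega) le_rfl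
  have e1 : i + ((j - i).toNat : ℤ) = j := by omega
  have e2 : i + ((k - i).toNat : ℤ) = k := by omega
  simp only [e1, e2, Nat.cast_zero, add_zero] at h1
  have h2 := ends_EndG2 S (v, Z.τ j) X (Z.X i) Y (Z.X k)
  have h3 := S.dE_pm.gp_base_E (v, Z.τ j) (Z.X j) (Z.X i) (Z.X k)
  have h4 : S.dE (Z.X j) (v, Z.τ j) ≤ S.D (Z.τ j) (Z.q j) v + 1 := S.dE_fib _ _ _
  have h5 := S.dE_pm.symm (Z.X j) (v, Z.τ j)
  linarith

theorem Seq.mor_near (Z : Seq S) (c : ℝ) : ∃ C : ℝ, 0 ≤ C ∧ ∀ (i j k : ℤ) (X Y : Q × ℤ),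
    i ≤ j → j ≤ k → S.dE X (Z.X i) ≤ c → S.dE Y (Z.X k) ≤ c →
    ∃ v, Btw S.dv S.dh X.1 v Y.1 ∧ S.D (Z.τ j) (Z.q j) v ≤ C := by
  obtain ⟨C1, -, h1⟩ := Z.mor_gp (max c 0)
  obtain ⟨C2, h2⟩ := S.out.out1 C1
  obtain ⟨C3, h3⟩ := S.nearD
  refine ⟨max 0 (C2 + C3), le_max_left _ _, fun i j k X Y hij hjk hX hY => ?_⟩
  have a1 := h1 i j k X Y (Z.q j) hij hjk (hX.trans (le_max_left _ _)) (hY.trans (le_max_left _ _))
    (by rw [(S.D_pm _).self]; exact le_max_right _ _)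
  have a2 : gp (S.D (Z.τ j)) (Z.q j) X.1 Y.1 ≤ C2 := h2 (Z.q j, Z.τ j) X Y a1
  obtain ⟨v, a3, a4⟩ := h3 (Z.τ j) (Z.q j) X.1 Y.1
  exact ⟨v, a3, le_trans (by linarith) (le_max_right _ _)⟩

theorem Seq.mor_conv (Z : Seq S) (c : ℝ) : ∃ C : ℝ, 0 ≤ C ∧ ∀ (i k : ℤ) (X Y : Q × ℤ) (v : Q),
    i ≤ k → S.dE X (Z.X i) ≤ c → S.dE Y (Z.X k) ≤ c → Btw S.dv S.dh X.1 v Y.1 →
    ∃ l, i ≤ l ∧ l ≤ k ∧ S.D (Z.τ l) (Z.q l) v ≤ C := by
  obtain ⟨δ, -, hδ⟩ := S.dE_hyp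
  obtain ⟨C1, h1⟩ := S.out.out2 0
  obtain ⟨C2, h2⟩ := morse_b δ 1 Z.K (C1 + 2 * c)
  obtain ⟨C3, h3⟩ := S.out.fib_near C2
  refine ⟨max 0 C3, le_max_left _ _, fun i k X Y v hik hX hY hv => ?_⟩
  obtain ⟨t, ht⟩ := h1 v X Y fun b => by
    refine ((S.D_pm b).on_iff.1 ?_).le
    simp only [On, Base.D]
    rw [← hv.1, ← hv.2]
    ring
  have ht' : gp S.dE (v, t) X Y ≤ C1 := ht
  have e2 : i + ((k - i).toNat : ℤ) = k := by omega
  obtain ⟨m, hm, hm'⟩ := h2 S.dE S.dE_pm hδ (rg_EndG2 S) _ (k - i).toNat (qg_EndG2 Z i _) (v, t) (by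
    simp only [e2, Nat.cast_zero, add_zero]
    have a1 := ends_EndG2 S (v, t) (Z.X i) X (Z.X k) Y
    have a2 := S.dE_pm.symm X (Z.X i)
    have a3 := S.dE_pm.symm Y (Z.X k)
    linarith)
  refine ⟨i + m, by omega, by omega, le_trans ?_ (le_max_right _ _)⟩
  rw [S.dE_pm.symm] at hm'
  exact h3 (Z.X (i + m)) (v, t) hm'

/-- The height moves at bounded speed. -/
theorem Seq.step (Z : Seq S) : ∃ m0 : ℤ, 1 ≤ m0 ∧ ∀ i j, |Z.τ i - Z.τ j| ≤ m0 * |i - j| := by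
  refine ⟨max 1 ⌈2 * Z.K⌉, le_max_left _ _, fun i j => ?_⟩
  rcases eq_or_ne i j with rfl | hij
  · simp
  have h1 := (S.le_dE (Z.q i) (Z.q j) (Z.τ i) (Z.τ j)).trans (Z.up i j)
  have h2 : (1 : ℝ) ≤ |(i : ℝ) - (j : ℝ)| := by
    exact_mod_cast Int.one_le_abs (sub_ne_zero.2 hij)
  have h3 : 2 * Z.K ≤ ((max 1 ⌈2 * Z.K⌉ : ℤ) : ℝ) :=
    (Int.le_ceil _).trans (Int.cast_le.2 (le_max_right _ _))
  have h4 := K_nonneg_EndG2 Z
  have h5 : |(Z.τ i : ℝ) - (Z.τ j : ℝ)| ≤ ((max 1 ⌈2 * Z.K⌉ : ℤ) : ℝ) * |(i : ℝ) - (j : ℝ)| := by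
    nlinarith [mul_le_mul_of_nonneg_left h2 h4, mul_le_mul_of_nonneg_right h3 (zero_le_one.trans h2)]
  exact_mod_cast h5

/-- The sequence leaves every bounded region. -/
theorem Seq.unbd (Z : Seq S) (C : ℝ) : ∃ n : ℤ, ∀ k, Z.a k ≤ C → (Z.a k)⁻¹ ≤ C →
    S.D (Z.τ k) (Z.q 0) (Z.q k) ≤ C → |k| ≤ n := by
  obtain ⟨b, -, hb⟩ := S.lam_big C
  refine ⟨⌈Z.K * (b + C + 1) + Z.K⌉, fun k h1 h2 h3 => ?_⟩
  have a1 : Z.τ k ≤ b := (zpow_le_zpow_iff_right₀ S.lam1).1 (h1.trans hb)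
  have a2 : -Z.τ k ≤ b := by
    refine (zpow_le_zpow_iff_right₀ S.lam1).1 (le_trans ?_ hb)
    rw [zpow_neg]
    exact h2
  have a3 : |((Z.τ 0 : ℤ) : ℝ) - (Z.τ k : ℝ)| ≤ b := by
    rw [Z.τ0]
    exact_mod_cast abs_le.2 ⟨by omega, by omega⟩
  have a4 := S.dE_vert (Z.q 0) (Z.τ 0) (Z.τ k)
  have a5 := S.dE_fib (Z.q 0) (Z.q k) (Z.τ k)
  have a6 := S.dE_pm.tri (Z.q 0, Z.τ 0) (Z.q 0, Z.τ k) (Z.q k, Z.τ k)
  have a7 := Z.low 0 k
  have a8 := mul_le_mul_of_nonneg_left (show S.dE (Z.q 0, Z.τ 0) (Z.q k, Z.τ k) ≤ b + C + 1 by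
    linarith) (K_nonneg_EndG2 Z)
  rw [Int.cast_zero, zero_sub, abs_neg] at a7
  have a9 : |(k : ℝ)| ≤ (⌈Z.K * (b + C + 1) + Z.K⌉ : ℤ) := le_trans (by linarith) (Int.le_ceil _)
  exact_mod_cast a9

theorem Seq.Comp.dE_le {Z : Seq S} {k : ℤ} {q' : Q} (h : Z.Comp k q') :
    S.dE (q', Z.τ k) (Z.X k) ≤ 2 := by
  have h1 : S.dE (Z.X k) (q', Z.τ k) ≤ S.D (Z.τ k) (Z.q k) q' + 1 := S.dE_fib _ _ _
  rw [Z.D_eq, h.h0, h.v1, mul_inv_cancel₀ (Z.a_pos k).ne', mul_zero] at h1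
  rw [S.dE_pm.symm]
  linarith

theorem Seq.not_bdd (Z : Seq S) {B B' : ℝ} (h : Z.Bdd B) (h' : Z.swap.Bdd B') : False := by
  obtain ⟨n, hn⟩ := Z.unbd (B + B')
  have h0 : 0 ≤ |n| + 1 := by positivity
  have h1 := h _ h0
  have h2 := h' _ h0
  rw [Z.a_swap] at h2
  have h3 : (Z.a (|n| + 1))⁻¹ * (1 + S.dh (Z.q 0) (Z.q (|n| + 1))) ≤ B' := h2
  have a1 := Z.a_pos (|n| + 1)
  have a2 := inv_pos.2 a1
  have a3 := mul_nonneg a1.le (S.bi.pv.nonneg_E (Z.q 0) (Z.q (|n| + 1)))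
  have a4 := mul_nonneg a2.le (S.bi.ph.nonneg_E (Z.q 0) (Z.q (|n| + 1)))
  rw [mul_add, mul_one] at h1 h3
  have a5 := hn (|n| + 1) (by linarith) (by linarith) (by rw [Z.D_eq]; linarith)
  rw [abs_of_nonneg h0] at a5
  have a6 := le_abs_self n
  omega

theorem Seq.good_or (Z : Seq S) : Z.FGood ∨ ∃ B, Z.Bdd B := by
  refine or_iff_not_imp_left.2 fun h => ?_
  simp only [Seq.FGood, not_forall, not_exists, not_and, not_le] at h
  obtain ⟨A, k0, h⟩ := h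
  have h0 : ∀ k, 0 ≤ Z.a k * (1 + S.dv (Z.q 0) (Z.q k)) := fun k =>
    mul_nonneg (Z.a_pos k).le (add_nonneg zero_le_one (S.bi.pv.nonneg_E _ _))
  refine ⟨|A| + ∑ k ∈ Finset.Ico 0 k0, Z.a k * (1 + S.dv (Z.q 0) (Z.q k)), fun k hk => ?_⟩
  rcases le_or_gt k0 k with h1 | h1
  · have a1 := h k h1
    have a2 := le_abs_self A
    have a3 := Finset.sum_nonneg (s := Finset.Ico 0 k0) fun k _ => h0 k
    linarith
  · have a1 := Finset.single_le_sum (s := Finset.Ico 0 k0) (fun k _ => h0 k)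
      (Finset.mem_Ico.2 ⟨hk, h1⟩)
    have a2 := abs_nonneg A
    linarith

theorem Seq.FGood.cases {Z : Seq S} (h : Z.FGood) : Z.UpE ∨ Z.FrE := by
  refine or_iff_not_imp_right.2 fun hf => ?_
  simp only [Seq.FrE, not_forall, not_exists, not_and, not_le] at hf
  obtain ⟨A0, k1, hf⟩ := hf
  refine ⟨A0, fun A k0 => ?_⟩
  obtain ⟨k, hk, h1⟩ := h (max A0 (A * (1 + |A0|))) (max k0 k1)
  have h2 := hf k ((le_max_right _ _).trans hk) ((le_max_left _ _).trans h1)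
  refine ⟨k, (le_max_left _ _).trans hk, ?_, h2.le⟩
  have h3 : A * (1 + |A0|) ≤ Z.a k * (1 + |A0|) :=
    ((le_max_right _ _).trans h1).trans (mul_le_mul_of_nonneg_left
      (by linarith [le_abs_self A0]) (Z.a_pos k).le)
  exact le_of_mul_le_mul_right h3 (by positivity)

end Pool.Agent.E5f

end

section

/-! Both ends going far: a line on which the functional is constant. -/

set_option autoImplicit false

namespace Pool.Agent.E5f

section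
variable {X : Type} {d : X → X → ℝ}

theorem ultra_EndLine (h : PM d) (ht : Hyp d 0) {w x x' y : X}
    (h1 : gp d w x y < gp d w x x') : gp d w x' y = gp d w x y := by
  have a1 := ht w x' x y
  have a2 := ht w x x' y
  rw [gp_symm_E h w x' x, min_eq_right h1.le] at a1
  rcases le_total (gp d w x x') (gp d w x' y) with k | k
  · rw [min_eq_left k] at a2
    linarith
  · rw [min_eq_right k] at a2
    linarith

theorem move_EndLine (h : PM d) (ht : Hyp d 0) {w x x' y r : X} {g s : ℝ}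
    (h1 : On d x r y) (h2 : d x r = d w x - g + s) (g1 : gp d w x y = g) (g2 : gp d w x' y = g)
    (g3 : g - s ≤ gp d w x x') :
    On d x' r y ∧ d x' r = d w x' - g + s ∧ d y r = d w y - g - s := by
  have s1 := h.symm x w
  have s2 := h.symm x' w
  have s3 := h.symm y w
  have s4 := h.symm x' x
  have s5 := h.symm y x
  have s6 := h.symm y r
  have o : On d x' r y := by
    refine h1.tree_left h ht ?_
    simp only [gp] at g1 g2 g3 ⊢
    linarith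
  refine ⟨o, ?_, ?_⟩
  · simp only [gp, On] at g1 g2 g3 o h1
    linarith
  · simp only [gp, On] at g1 g2 g3 o h1
    linarith

theorem line_EndLine (h : PM d) (ht : Hyp d 0)
    (geo : ∀ p q (s : ℝ), 0 ≤ s → s ≤ d p q → ∃ r, On d p r q ∧ d p r = s)
    (w : X) (x y : ℕ → X) (C : ℝ)
    (hx : ∀ n m : ℕ, n ≤ m → (n : ℝ) + C + 1 ≤ gp d w (x n) (x m))
    (hy : ∀ n m : ℕ, n ≤ m → (n : ℝ) + C + 1 ≤ gp d w (y n) (y m))
    (h0 : gp d w (x 0) (y 0) ≤ C) :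
    ∃ (σ : ℝ → X) (c : ℕ → ℝ), d w (σ 0) ≤ C ∧ ∀ (s : ℝ) (M : ℕ), |s| ≤ M →
      On d (x M) (σ s) (y M) ∧ d (x M) (σ s) = c M + s := by
  obtain ⟨g, hg⟩ : ∃ g, g = gp d w (x 0) (y 0) := ⟨_, rfl⟩
  rw [← hg] at h0
  have hg1 : ∀ n, gp d w (x n) (y 0) = g := by
    intro n
    rw [hg]
    refine ultra_EndLine h ht ?_
    have := hx 0 n (Nat.zero_le n)
    rw [Nat.cast_zero] at this
    linarith
  have hg2 : ∀ n m, gp d w (x n) (y m) = g := by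
    intro n m
    rw [gp_symm_E h, ← hg1 n, gp_symm_E h w (x n) (y 0)]
    refine ultra_EndLine h ht ?_
    have := hy 0 m (Nat.zero_le m)
    rw [Nat.cast_zero] at this
    rw [gp_symm_E h, hg1]
    linarith
  have ex : ∀ s : ℝ, ∃ r, On d (x ⌈|s|⌉₊) r (y ⌈|s|⌉₊) ∧
      d (x ⌈|s|⌉₊) r = d w (x ⌈|s|⌉₊) - g + s := by
    intro s
    have a1 := (hx _ _ (le_refl ⌈|s|⌉₊)).trans (h.gp_le_E w _ _)
    have a2 := (hy _ _ (le_refl ⌈|s|⌉₊)).trans (h.gp_le_E w _ _)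
    have a3 := Nat.le_ceil |s|
    have a4 := le_abs_self s
    have a5 := neg_abs_le s
    have a6 := hg2 ⌈|s|⌉₊ ⌈|s|⌉₊
    have s1 := h.symm (x ⌈|s|⌉₊) w
    have s2 := h.symm (y ⌈|s|⌉₊) w
    refine geo _ _ _ (by linarith) ?_
    simp only [gp] at a6
    linarith
  choose σ hσ1 hσ2 using ex
  refine ⟨σ, fun M => d w (x M) - g, ?_, fun s M hM => ?_⟩
  · have a1 := hσ1 0
    have a2 := hσ2 0
    generalize ⌈|(0 : ℝ)|⌉₊ = m at a1 a2
    have a6 := hg2 m m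
    have s1 := h.symm (x m) w
    have s2 := h.symm (y m) w
    have s3 := h.symm (y m) (x m)
    have o : On d w (σ 0) (y m) := by
      refine a1.tree_left h ht ?_
      simp only [gp] at a6 ⊢
      linarith
    simp only [gp, On] at a6 o a1
    linarith
  · have hm : ⌈|s|⌉₊ ≤ M := Nat.ceil_le.2 hM
    have a3 := Nat.le_ceil |s|
    have a4 := le_abs_self s
    have a5 := neg_abs_le s
    obtain ⟨b1, b2, b3⟩ := move_EndLine h ht (x' := x M) (hσ1 s) (hσ2 s) (hg2 _ _) (hg2 _ _)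
      (by have := hx _ _ hm; linarith)
    obtain ⟨b4, -, -⟩ := move_EndLine h ht (w := w) (x' := y M) (g := g) (s := -s) (b1.symm h)
      (by rw [b3]; ring) (by rw [gp_symm_E h, hg2]) (by rw [gp_symm_E h, hg2])
      (by have := hy _ _ hm; linarith)
    exact ⟨b4.symm h, b2⟩

theorem mono_EndLine (h : PM d) {F : X → ℝ} (hn : ∀ q, 0 ≤ F q)
    (cvx : ∀ p q r, On d p q r → d p r * F q ≤ d q r * F p + d p q * F r) {p p' : X}
    (y : ℕ → X) (M0 : ℕ) (hy : ∀ M, M0 ≤ M → On d p p' (y M) ∧ 0 < d p (y M) ∧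
      F (y M) * (M + 1) ≤ 2 * d p (y M)) : F p' ≤ F p := by
  refine not_lt.1 fun hlt => ?_
  obtain ⟨N, hN⟩ := exists_nat_gt (2 * d p p' / (F p' - F p))
  obtain ⟨o, h1, h2⟩ := hy (max M0 N) (le_max_left _ _)
  have h3 := cvx _ _ _ o
  have h4 : (N : ℝ) ≤ (max M0 N : ℕ) := Nat.cast_le.2 (le_max_right _ _)
  set M : ℝ := ((max M0 N : ℕ) : ℝ)
  set D := d p (y (max M0 N))
  set f := F (y (max M0 N))
  have hδ : 0 < F p' - F p := by linarith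
  rw [div_lt_iff₀ hδ] at hN
  have e0 := h.nonneg_E p p'
  have e1 : d p' (y (max M0 N)) ≤ D := by
    have : d p p' + d p' (y (max M0 N)) = D := o
    linarith
  have e2 : D * (F p' - F p) ≤ d p p' * f := by
    have := mul_le_mul_of_nonneg_right e1 (hn p)
    linarith
  have hM : (0 : ℝ) < M + 1 := by
    have : (0 : ℝ) ≤ N := Nat.cast_nonneg N
    linarith
  have e3 : D * (F p' - F p) * (M + 1) ≤ d p p' * (2 * D) := by
    have a := mul_le_mul_of_nonneg_right e2 hM.le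
    have b := mul_le_mul_of_nonneg_left h2 e0
    linarith
  have e4 : 2 * d p p' < (F p' - F p) * (M + 1) := by nlinarith
  have e5 := mul_lt_mul_of_pos_left e4 h1
  linarith

end

variable {Q : Type} [MulAction G8 Q] {S : Base Q}

theorem near_EndLine (Z : Seq S) : ∃ C : ℝ, 0 ≤ C ∧ ∀ i j k : ℤ, i ≤ j → j ≤ k →
    Z.a j * gp S.dv (Z.q j) (Z.q i) (Z.q k) ≤ C := by
  obtain ⟨C, h0, h⟩ := Z.mor_near 0
  refine ⟨C, h0, fun i j k h1 h2 => ?_⟩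
  obtain ⟨v, b, hv⟩ := h i j k (Z.X i) (Z.X k) h1 h2 (S.dE_pm.self _).le (S.dE_pm.self _).le
  have a1 := (Z.of_D hv).1
  have a2 : gp S.dv (Z.q j) (Z.q i) (Z.q k) ≤ S.dv (Z.q j) v :=
    On.gp_le S.bi.pv (show On S.dv (Z.q i) v (Z.q k) from b.1) _
  exact (mul_le_mul_of_nonneg_left a2 (Z.a_pos j).le).trans a1

theorem half_EndLine {Z : Seq S} {F : Q → ℝ} (hF : Fn Z F) (h2 : Z.FrE) {C0 : ℝ} (hC0 : 0 ≤ C0) :
    ∃ k : ℕ → ℤ, (∀ n, 0 ≤ k n) ∧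
      (∀ n m : ℕ, n ≤ m → (n : ℝ) + C0 + 1 ≤ gp S.dv (Z.q 0) (Z.q (k n)) (Z.q (k m))) ∧
      (∀ n : ℕ, 2 * ((n : ℝ) + C0 + 1) ≤ S.dv (Z.q 0) (Z.q (k n))) ∧
      ∀ n : ℕ, F (Z.q (k n)) * (n + 1) ≤ S.dv (Z.q 0) (Z.q (k n)) := by
  obtain ⟨C, hC, hn⟩ := near_EndLine Z
  obtain ⟨Θ, hΘ⟩ := hF.bd
  have hT : 0 < |Θ| + 1 := by positivity
  choose f f1 f2 f3 using h2
  let A : ℕ → ℝ := fun n => 2 * ((n : ℝ) + C0 + 1) + 4 * C + 2 * (|Θ| + 1) * (n + 1)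
  let k : ℕ → ℤ := fun n => Nat.rec (f (A 0) 0) (fun n z => f (A (n + 1)) z) n
  have k1 : Monotone k := monotone_nat_of_le_succ fun n => f1 _ _
  have k0 : ∀ n, 0 ≤ k n := fun n => (f1 (A 0) 0).trans (k1 (Nat.zero_le n))
  have k2 : ∀ n, A n ≤ Z.a (k n) * (1 + S.dv (Z.q 0) (Z.q (k n))) := by
    intro n
    cases n with
    | zero => exact f2 _ _
    | succ n => exact f2 _ _
  have k3 : ∀ n, A n ≤ S.dv (Z.q 0) (Z.q (k n)) := by
    intro n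
    cases n with
    | zero => exact f3 _ _
    | succ n => exact f3 _ _
  have hA : ∀ n : ℕ, 2 * ((n : ℝ) + C0 + 1) ≤ A n ∧ 4 * C ≤ A n ∧
      2 * (|Θ| + 1) * (n + 1) ≤ A n := by
    intro n
    have a1 : (0 : ℝ) ≤ 2 * ((n : ℝ) + C0 + 1) := by positivity
    have a2 : (0 : ℝ) ≤ 2 * (|Θ| + 1) * (n + 1) := by positivity
    refine ⟨?_, ?_, ?_⟩ <;> simp only [A] <;> linarith
  have hd : ∀ n : ℕ, 1 ≤ S.dv (Z.q 0) (Z.q (k n)) := by
    intro n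
    have a1 : (0 : ℝ) ≤ n := Nat.cast_nonneg n
    have := (hA n).1.trans (k3 n)
    linarith
  refine ⟨k, k0, fun n m hnm => ?_, fun n => (hA n).1.trans (k3 n), fun n => ?_⟩
  · have a1 := hn 0 (k n) (k m) (k0 n) (k1 hnm)
    have a2 := S.bi.pv.gp_add_E (Z.q 0) (Z.q (k n)) (Z.q (k m))
    have a3 := (hA n).2.1.trans (k2 n)
    have a4 := (hA n).1.trans (k3 n)
    have a5 := hd n
    have a6 := Z.a_pos (k n)
    have a7 : 4 * gp S.dv (Z.q (k n)) (Z.q 0) (Z.q (k m)) ≤ 1 + S.dv (Z.q 0) (Z.q (k n)) :=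
      le_of_mul_le_mul_left (by linarith) a6
    linarith
  · have a1 := (hΘ (k n)).trans (le_abs_self Θ)
    have a3 := (hA n).2.2.trans (k2 n)
    have a5 := hd n
    have a8 := hF.nonneg (Z.q (k n))
    have b1 := mul_le_mul_of_nonneg_left a3 a8
    have b2 : Z.a (k n) * F (Z.q (k n)) * (1 + S.dv (Z.q 0) (Z.q (k n))) ≤
        (|Θ| + 1) * (2 * S.dv (Z.q 0) (Z.q (k n))) :=
      mul_le_mul (by linarith) (by linarith) (by linarith) hT.le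
    refine le_of_mul_le_mul_left (a := 2 * (|Θ| + 1)) ?_ (by positivity)
    linarith

theorem strip_of_far {Z : Seq S} {F : Q → ℝ} (hF : Fn Z F) (h1 : Z.rev.FrE) (h2 : Z.FrE) :
    Z.Strip := by
  have pv := S.bi.pv
  have hv := S.bi.hv
  obtain ⟨C, hC, hn⟩ := near_EndLine Z
  obtain ⟨k, k0, k1, k2, k3⟩ := half_EndLine hF h2 hC
  obtain ⟨i, i0, i1, i2, i3⟩ := half_EndLine hF.rev h1 hC
  obtain ⟨σ, c, hσ0, hσ⟩ := line_EndLine pv hv
    (fun p q s a b => by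
      obtain ⟨r, h3, h4⟩ := S.bi.geoV p q a b
      exact ⟨r, h3.1, h4⟩)
    (Z.q 0) (fun n => Z.q (-i n)) (fun n => Z.q (k n)) C i1 k1
    (by
      have := hn (-i 0) 0 (k 0) (by have := i0 0; omega) (k0 0)
      rwa [Z.a_zero, one_mul] at this)
  have hd : ∀ s s', S.dv (σ s) (σ s') = |s - s'| := by
    intro s s'
    obtain ⟨M, hM⟩ := exists_nat_ge (max |s| |s'|)
    obtain ⟨a1, a2⟩ := hσ s M ((le_max_left _ _).trans hM)
    obtain ⟨a3, a4⟩ := hσ s' M ((le_max_right _ _).trans hM)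
    rw [a1.dist_eq pv hv a3, a2, a4, add_sub_add_left_eq_sub]
  have far : ∀ (s : ℝ) (M : ℕ) (z : Q), |s| ≤ M → 2 * ((M : ℝ) + C + 1) ≤ S.dv (Z.q 0) z →
      F z * (M + 1) ≤ S.dv (Z.q 0) z → 0 < S.dv (σ s) z ∧ F z * (M + 1) ≤ 2 * S.dv (σ s) z := by
    intro s M z a1 a2 a3
    have b1 := pv.tri (Z.q 0) (σ 0) z
    have b2 := pv.tri (σ 0) (σ s) z
    rw [hd, zero_sub, abs_neg] at b2
    have b3 := abs_nonneg s
    constructor <;> linarith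
  have hconst : ∀ s s', s ≤ s' → F (σ s) = F (σ s') := by
    intro s s' hss
    obtain ⟨M0, hM0⟩ := exists_nat_ge (max |s| |s'|)
    have ord : ∀ M : ℕ, M0 ≤ M → (|s| ≤ M ∧ |s'| ≤ M) ∧ On S.dv (Z.q (-i M)) (σ s) (σ s') ∧
        On S.dv (σ s) (σ s') (Z.q (k M)) := by
      intro M hM
      have hM' : (M0 : ℝ) ≤ M := Nat.cast_le.2 hM
      have e1 : |s| ≤ M := ((le_max_left _ _).trans hM0).trans hM'
      have e2 : |s'| ≤ M := ((le_max_right _ _).trans hM0).trans hM'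
      obtain ⟨a1, a2⟩ := hσ s M e1
      obtain ⟨a3, a4⟩ := hσ s' M e2
      exact ⟨⟨e1, e2⟩, a1.order pv hv a3 (by rw [a2, a4]; linarith)⟩
    refine le_antisymm ?_ ?_
    · refine mono_EndLine pv hF.nonneg hF.cvx (fun n => Z.q (-i n)) M0 fun M hM => ?_
      obtain ⟨⟨-, e2⟩, o1, -⟩ := ord M hM
      exact ⟨o1.symm pv, far s' M _ e2 (i2 M) (i3 M)⟩
    · refine mono_EndLine pv hF.nonneg hF.cvx (fun n => Z.q (k n)) M0 fun M hM => ?_
      obtain ⟨⟨e1, -⟩, -, o2⟩ := ord M hM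
      exact ⟨o2, far s M _ e1 (k2 M) (k3 M)⟩
  have hc : ∀ s, F (σ s) = F (σ 0) := by
    intro s
    rcases le_total s 0 with h | h
    · exact hconst s 0 h
    · exact (hconst 0 s h).symm
  have hpos : 0 < F (σ 0) := by
    refine lt_of_le_of_ne (hF.nonneg _) fun h0 => ?_
    refine hF.b1 (σ 0) (σ 1) h0.symm ((hc 1).trans h0.symm) ?_
    rw [hd]
    norm_num
  refine ⟨C, fun R hR => ?_⟩
  obtain ⟨P, hP⟩ := hF.b5l σ (F (σ 0)) hd hpos hc R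
  obtain ⟨M, hM⟩ := exists_nat_ge R
  have z0 : |(0 : ℝ)| ≤ R := by rwa [abs_zero]
  refine ⟨-i M, k M, c M, P, by have := i0 M; omega, k0 M, ?_, fun s hs => ?_⟩
  · rw [pv.congr'_E (hP 0 0 z0 z0).1]
    exact hσ0
  · obtain ⟨a1, a2⟩ := hP s 0 hs z0
    obtain ⟨a3, a4⟩ := hσ s M (hs.trans hM)
    refine ⟨a2, ?_, a3.of_zero pv (by rw [pv.symm]; exact a1)⟩
    rw [pv.congr'_E a1]
    exact a4

end Pool.Agent.E5f

end

section

/-! The last case: the functional has a definite slope. -/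

set_option autoImplicit false

namespace Pool.Agent.E5f

variable {Q : Type} [MulAction G8 Q] {S : Base Q}


theorem back_of_down {Z : Seq S} {F : Q → ℝ} (hF : Fn Z F) {B : ℝ} (h : Z.swap.rev.Down B) :
    Z.Back F := by
  obtain ⟨Θ, hΘ⟩ := hF.bd
  refine ⟨B, fun ε hε => ?_⟩
  have hp : 0 < |Θ| + 1 := by positivity
  obtain ⟨k0, hk0⟩ := h.small (ε / (|Θ| + 1)) (by positivity)
  refine ⟨-(max k0 0), by have := le_max_right k0 0; omega, ?_, ?_⟩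
  · have h1 : Z.swap.a (-(max k0 0)) ≤ ε / (|Θ| + 1) := hk0 (max k0 0) (le_max_left _ _)
    rw [Z.a_swap] at h1
    have h2 := hΘ (-(max k0 0))
    have h3 := Z.a_pos (-(max k0 0))
    have h4 : F (Z.q (-(max k0 0))) ≤ (Z.a (-(max k0 0)))⁻¹ * (|Θ| + 1) := by
      rw [le_inv_mul_iff₀ h3]
      linarith [le_abs_self Θ]
    have h5 := mul_le_mul_of_nonneg_right h1 hp.le
    rw [div_mul_cancel₀ _ hp.ne'] at h5
    linarith
  · have h1 := h.fh 0 (max k0 0) le_rfl (le_max_right _ _)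
    rw [Seq.a_zero, mul_one] at h1
    exact h1

theorem slope_of_back {Z : Seq S} {F : Q → ℝ} (hF : Fn Z F) {B : ℝ} (h : Z.Down B)
    (hb : Z.Back F) : Z.Slope F := by
  obtain ⟨K1, hK⟩ := hF.ext
  choose q' hq hq1 using hK
  obtain ⟨B2, hB2⟩ := hb
  have pv := S.bi.pv
  have ph := S.bi.ph
  obtain ⟨C, hC0, hC⟩ := Z.mor_near 2
  have hgp : ∀ i k, i ≤ 0 → 0 ≤ k → gp S.dv (Z.q 0) (Z.q i) (q' k) ≤ C := by
    intro i k hi hk
    obtain ⟨v, hv, hd⟩ := hC i 0 k (Z.X i) (q' k, Z.τ k) hi hk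
      (by rw [S.dE_pm.self]; norm_num) (hq k).dE_le
    have h1 := (Z.of_D hd).1
    rw [Z.a_zero, one_mul] at h1
    exact (On.gp_le pv (show On S.dv (Z.q i) v (q' k) from hv.1) (Z.q 0)).trans h1
  have hM : 0 < C + 1 := by linarith
  obtain ⟨k1, hk1⟩ := h.small (C + 1)⁻¹ (inv_pos.2 hM)
  obtain ⟨k0, hk0, hk01⟩ : ∃ k0 : ℤ, 0 ≤ k0 ∧ k1 ≤ k0 :=
    ⟨max k1 0, le_max_right _ _, le_max_left _ _⟩
  have hray := S.sideV.ray (Z.q 0) (fun n : ℕ => q' (k0 + n)) B (C + 1) hM.le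
    (fun n => by
      have h1 := h.fh 0 (k0 + n) le_rfl (by omega)
      rw [Z.a_zero, mul_one] at h1
      rw [← ph.congr'_E (hq (k0 + n)).h0]
      exact h1)
    (fun n => by
      have h1 : S.dv (Z.q 0) (Z.q (k0 + n)) + S.dv (Z.q (k0 + n)) (q' (k0 + n)) =
        S.dv (Z.q 0) (q' (k0 + n)) := (hq (k0 + n)).on
      have h2 := (hq (k0 + n)).v1
      have h3 := hk1 (k0 + n) (by omega)
      have h4 : C + 1 ≤ (Z.a (k0 + n))⁻¹ := by
        rw [le_inv_comm₀ hM (Z.a_pos _)]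
        exact h3
      have h5 := pv.nonneg_E (Z.q 0) (Z.q (k0 + n))
      linarith)
  rcases hray with ⟨r, hr, hJ⟩ | ⟨γ, -, J, hJ, hB⟩
  · obtain ⟨r1, b1, d1⟩ := S.bi.geoV (Z.q 0) r (s := C + 1 / 2) (by linarith) (by linarith)
    have d2 : S.dv r1 r = 1 / 2 := by
      have := b1.1
      linarith
    have hon : ∀ i, i ≤ 0 → ∀ n : ℕ, On S.dv (Z.q 0) r (q' (k0 + n)) →
        On S.dv (Z.q i) r (q' (k0 + n)) := fun i hi n hn =>
      On.tree_left pv S.bi.hv hn ((hgp i _ hi (by omega)).trans (by linarith))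
    obtain ⟨n0, hn0⟩ := hJ.nonempty
    have hn0' : On S.dv (Z.q 0) r (q' (k0 + n0)) := hn0
    obtain ⟨t1, t2⟩ := On.trans_left pv (show On S.dv (Z.q 0) r1 r from b1.1) hn0'
    have hon1 : ∀ i, i ≤ 0 → On S.dv (Z.q i) r1 r := fun i hi =>
      (On.trans_right pv (On.tree_left pv S.bi.hv t1
        ((hgp i _ hi (by omega)).trans (by linarith))) t2).2
    have hhalf : ∀ i, i ≤ 0 → 1 / 2 ≤ S.dv (Z.q i) r := fun i hi => by
      have h1 : S.dv (Z.q i) r1 + S.dv r1 r = S.dv (Z.q i) r := hon1 i hi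
      have h2 := pv.nonneg_E (Z.q i) r1
      linarith
    have hpos : 0 < F r := by
      refine lt_of_le_of_ne (hF.nonneg r) fun h0 => ?_
      refine hF.b1 r1 r ?_ h0.symm (by rw [d2]; norm_num)
      refine le_antisymm (le_of_forall_pos_le_add fun ε hε => ?_) (hF.nonneg r1)
      obtain ⟨i, hi, hi1, -⟩ := hB2 ε hε
      have h1 := hF.cvx _ _ _ (hon1 i hi)
      rw [← h0, d2, mul_zero, add_zero] at h1
      have h2 := mul_le_mul_of_nonneg_right (hhalf i hi) (hF.nonneg r1)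
      linarith
    obtain ⟨i, hi, hi1, hi2⟩ := hB2 (F r / 2) (by linarith)
    have h1 : S.dv (Z.q i) r ≤ B2 + (C + 1) := by
      have a1 := pv.tri (Z.q i) (Z.q 0) r
      have a2 := pv.symm (Z.q i) (Z.q 0)
      linarith
    have h2 := hhalf i hi
    have h3 : 0 < B2 + (C + 1) := by linarith
    refine ⟨K1, F r / 2 / (B2 + (C + 1)), Z.q i, r, by positivity, by linarith, ?_, fun k2 => ?_⟩
    · have a1 : 0 ≤ F r / 2 / (B2 + (C + 1)) := by positivity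
      have a2 := mul_le_mul_of_nonneg_left h1 a1
      rw [div_mul_cancel₀ _ h3.ne'] at a2
      linarith
    · obtain ⟨n, hn, hn1⟩ := hJ.exists_gt (k2 - k0).toNat
      have hn' : On S.dv (Z.q 0) r (q' (k0 + n)) := hn
      exact ⟨k0 + n, q' (k0 + n), by omega, hq _, hq1 _, hn', hon i hi n hn'⟩
  · exfalso
    obtain ⟨C2, -, hC2⟩ := Z.mor_conv 2
    obtain ⟨n, hn⟩ := Z.cl (C2 + 1)
    have key : ∀ k ∈ J, ∀ l ∈ J, k < l → ∃ j : ℤ, k0 + k ≤ j ∧ j ≤ k0 + l ∧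
        S.dE (γ • S.P0, Z.τ j) (Z.q j, Z.τ j) ≤ C2 + 1 := by
      intro k hk l hl hkl
      obtain ⟨j, j1, j2, j3⟩ := hC2 (k0 + k) (k0 + l) (q' (k0 + k), Z.τ (k0 + k))
        (q' (k0 + l), Z.τ (k0 + l)) (γ • S.P0) (by omega) (hq _).dE_le (hq _).dE_le
        (hB k hk l hl hkl.ne)
      refine ⟨j, j1, j2, (S.dE_fib _ _ _).trans ?_⟩
      rw [(S.D_pm _).symm]
      linarith
    obtain ⟨a1, ha1⟩ := hJ.nonempty
    obtain ⟨l1, hl1, hl1'⟩ := hJ.exists_gt a1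
    obtain ⟨a2, ha2, ha2'⟩ := hJ.exists_gt (l1 + ⌈n⌉₊)
    obtain ⟨l2, hl2, hl2'⟩ := hJ.exists_gt a2
    obtain ⟨j1, u1, u2, u3⟩ := key a1 ha1 l1 hl1 hl1'
    obtain ⟨j2, w1, w2, w3⟩ := key a2 ha2 l2 hl2 hl2'
    have h1 := hn γ _ _ j2 j1 w3 u3
    have h2 : (j1 + (⌈n⌉₊ : ℕ) + 1 : ℤ) ≤ j2 := by omega
    have h3 : (j1 : ℝ) + (⌈n⌉₊ : ℕ) + 1 ≤ j2 := by exact_mod_cast h2
    have h4 := Nat.le_ceil n
    have h5 := le_abs_self ((j2 : ℝ) - j1)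
    linarith

end Pool.Agent.E5f

end
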