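import Pool.Agent.Mg.S03381.G00a67e
import Pool.Agent.Mg.S03381.Gdf2cf1
import Pool.Agent.Mg.S03381.G09b917
import Pool.Agent.Mg.S03381.Gc7f183
import Pool.Agent.Mg.S03381.G0f67b3
import Pool.Agent.Mg.S03381.G599b51
import Pool.Agent.Mg.S03381.G7cdb90
import Pool.Agent.Mg.S03381.Gf847ec
import Pool.Agent.Mg.S03381.G224cd9
import Pool.Agent.Mg.S03381.Gf22c49
import Pool.Agent.Mg.S03381.G31bb04
import Pool.Agent.Mg.S03381.G039f22
import Pool.Agent.Mg.S03381.G6add5e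
import Pool.Agent.Mg.S03381.Gb346c8
import Pool.Agent.Mg.S03381.G1dfabe
import Pool.Agent.Mg.S03381.Gd982a0

section

set_option autoImplicit false

namespace Pool.Agent.E5f

open Classical Filter

section Wov
variable {L κ : Type} [LinearOrder κ] {k : L → κ} {ν : L}

/-- The label `ν` occurs exactly between consecutive entries on different sides of `ν`. -/
inductive WovBrBox (k : L → κ) (ν : L) : L → List L → Prop
  | nil (a : L) : WovBrBox k ν a []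
  | same (a b : L) (w : List L) : b ≠ ν → (k a < k ν ↔ k b < k ν) → WovBrBox k ν b w →
      WovBrBox k ν a (b :: w)
  | cross (a b : L) (w : List L) : b ≠ ν → ¬ (k a < k ν ↔ k b < k ν) → WovBrBox k ν b w →
      WovBrBox k ν a (ν :: b :: w)

theorem dst_BrBox {a : L} {w : List L} (h : WovBrBox k ν a w) (ha : a ≠ ν) :
    ∃ t, List.destutter' (· ≠ ·) a w = a :: t ∧ WovBrBox k ν a t := by
  induction h with
  | nil a => exact ⟨[], rfl, .nil a⟩
  | same a b w hb h _ ih =>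
    obtain ⟨t, h1, h2⟩ := ih hb
    by_cases e : a = b
    · subst e
      exact ⟨t, (List.destutter'_cons_neg _ (not_not.2 rfl)).trans h1, h2⟩
    · exact ⟨b :: t, by rw [List.destutter'_cons_pos _ e, h1], .same a b t hb h h2⟩
  | cross a b w hb h _ ih =>
    obtain ⟨t, h1, h2⟩ := ih hb
    exact ⟨ν :: b :: t, by
      rw [List.destutter'_cons_pos _ ha, List.destutter'_cons_pos _ hb.symm, h1],
      .cross a b t hb h h2⟩

theorem skip_cons_BrBox {a : L} {w : List L} (h : Skip k (a :: w) ν) :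
    (∃ c B, w = c :: B ∧ ((k a < k ν ∧ k ν < k c) ∨ (k c < k ν ∧ k ν < k a))) ∨ Skip k w ν := by
  obtain ⟨A, B, a', c, e, h⟩ := h
  cases A with
  | nil =>
    obtain ⟨rfl, rfl⟩ := List.cons.inj e
    exact Or.inl ⟨c, B, rfl, h⟩
  | cons x A => exact Or.inr ⟨A, B, a', c, (List.cons.inj e).2, h⟩

theorem turn_cons_BrBox {a : L} {w : List L} (h : TurnAt k (a :: w) ν) :
    (∃ c B, w = ν :: c :: B ∧ ¬ (k a < k ν ↔ k ν < k c)) ∨ TurnAt k w ν := by
  obtain ⟨A, B, a', c, e, h⟩ := h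
  cases A with
  | nil =>
    obtain ⟨rfl, rfl⟩ := List.cons.inj e
    exact Or.inl ⟨c, B, rfl, h⟩
  | cons x A => exact Or.inr ⟨A, B, a', c, (List.cons.inj e).2, h⟩

theorem not_BrBox (hk : Function.Injective k) {a : L} {w : List L} (h : WovBrBox k ν a w) :
    ¬ TurnAt k (a :: w) ν ∧ ¬ Skip k (a :: w) ν := by
  induction h with
  | nil a =>
    constructor <;> rintro ⟨A, B, a', c, e, -⟩ <;>
    · have := congrArg List.length e
      simp only [List.length_cons, List.length_nil, List.length_append] at this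
      omega
  | same a b w hb h _ ih =>
    refine ⟨fun t => ?_, fun t => ?_⟩
    · rcases turn_cons_BrBox t with ⟨c, B, e, -⟩ | t
      · exact hb (List.cons.inj e).1
      · exact ih.1 t
    · rcases skip_cons_BrBox t with ⟨c, B, e, t⟩ | t
      · obtain ⟨rfl, -⟩ := List.cons.inj e
        rcases t with t | t
        · exact lt_asymm (h.1 t.1) t.2
        · exact lt_asymm (h.2 t.1) t.2
      · exact ih.2 t
  | cross a b w hb h _ ih =>
    refine ⟨fun t => ?_, fun t => ?_⟩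
    · rcases turn_cons_BrBox t with ⟨c, B, e, t⟩ | t
      · obtain ⟨rfl, -⟩ := List.cons.inj (List.cons.inj e).2
        have : k ν < k b ↔ ¬ k b < k ν :=
          ⟨lt_asymm, fun x => lt_of_le_of_ne (not_lt.1 x) (hk.ne hb.symm)⟩
        tauto
      · rcases turn_cons_BrBox t with ⟨c, B, e, -⟩ | t
        · exact hb (List.cons.inj e).1
        · exact ih.1 t
    · rcases skip_cons_BrBox t with ⟨c, B, e, t⟩ | t
      · obtain ⟨rfl, -⟩ := List.cons.inj e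
        exact t.elim (fun t => lt_irrefl _ t.2) fun t => lt_irrefl _ t.1
      · rcases skip_cons_BrBox t with ⟨c, B, -, t⟩ | t
        · exact t.elim (fun t => lt_irrefl _ t.1) fun t => lt_irrefl _ t.2
        · exact ih.2 t

end Wov

section Weave
variable {L C : Type} [CommGroup C]

theorem wv_BrBox (c : C) (X : Od L) {ν b : L} (a : L) {w : List L} (hb : b ≠ ν)
    (h : WovBrBox X ν b w) :
    WovBrBox X ν a ((wv c ν (X a < X ν) (X b < X ν)).map Prod.fst ++ b :: w) := by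
  rcases wv_cases c ν (X a < X ν) (X b < X ν) with h1 | ⟨h1, x, -, h2⟩
  · rw [h1.2]
    exact .same a b w hb h1.1 h
  · rw [h2]
    exact .cross a b w hb h1 h

theorem weave_BrBox (c : C) (X : Od L) {ν m : L} (hm : m ≠ ν) : ∀ (w : List (L × C)) (a : L),
    (∀ e ∈ w, e.1 ≠ ν) →
      WovBrBox X ν a ((weave c X ν (X a < X ν) w (X m < X ν)).map Prod.fst ++ [m])
  | [], a, _ => wv_BrBox c X a hm (.nil m)
  | e :: w, a, h => by
    rw [weave, List.map_append, List.append_assoc]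
    exact wv_BrBox c X a (h e List.mem_cons_self)
      (weave_BrBox c X hm w e.1 fun e' he => h e' (List.mem_cons_of_mem _ he))

end Weave

section Key
variable {L : Type} {Z : Cfg L} {b : Bx} {l m ν : L} {g h : WL L C2} {S : Finset L}

theorem erase_BrBox (hν : ν ∈ S) (x : L) : x ∈ S ↔ x = ν ∨ x ∈ S.erase ν := by
  rw [← Finset.mem_insert, Finset.insert_erase hν]

theorem high_BrBox (hb : BoxW c2 Z b (Rl Z.X l) (Rl Z.X m) (g⁻¹ * h)) (hν : ν ∈ S) (hl : l ≠ ν)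
    (hm : m ≠ ν) (hy : b.y1 < Z.y ν) : ¬ TurnAt Z.X (cpl (l, pj S g) (m, pj S h)) ν ∧
      ¬ Skip Z.X (cpl (l, pj S g) (m, pj S h)) ν := by
  have h1 := weave_BrBox c2 Z.X hm (wd (pj (S.erase ν) (g⁻¹ * h))) l fun e he h1 =>
    (Finset.mem_erase.1 (sup_pj _ _ e.1 (List.mem_map_of_mem he))).1 h1
  have h2 := hb.wd_high c2_ne_link (erase_BrBox hν) (Finset.notMem_erase ν S) hy
  obtain ⟨t, h3, h4⟩ := dst_BrBox h1 hl
  have e : cpl (l, pj S g) (m, pj S h) = l :: t := by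
    rw [← h3, cpl, List.cons_append, List.destutter_cons', ← map_inv, ← map_mul, lab, h2]
    rfl
  rw [e]
  exact not_BrBox Z.X.injective h4

theorem mem_BrBox (hb : BoxW c2 Z b (Rl Z.X l) (Rl Z.X m) (g⁻¹ * h))
    (hν : ν ∈ cpl (l, pj S g) (m, pj S h)) (hl : l ≠ ν) (hm : m ≠ ν) (hn : ν ∉ Z.bl b) :
    ν ∈ S ∧ b.y1 < Z.y ν := by
  rw [cpl_mem, ← map_inv, ← map_mul] at hν
  have h1 := (hν.resolve_left hl.symm).resolve_left hm.symm
  have h2 : ν ∈ S := sup_pj S _ ν h1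
  refine ⟨h2, (Z.not_bl hn).resolve_left fun h3 => ?_⟩
  rw [hb.out (erase_BrBox h2) h3] at h1
  exact Finset.notMem_erase ν S (sup_pj _ _ ν h1)

end Key

namespace Fam
variable {E : Emb} {Q P : Type} (F : Fam E Q P)

theorem ev_BrBox (q : Q) (x y : P) : ∀ᶠ S : Finset Lam in atTop,
    F.dv q x y = dL (E.pos (F.B.u q).1) (E.pos (F.B.u q).1 (F.lb x), pj S (F.gv q x))
      (E.pos (F.B.u q).1 (F.lb y), pj S (F.gv q y)) := by
  obtain ⟨b, hb⟩ := F.cv q x y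
  refine (eventually_ge_atTop ((F.Z q).bl_fin b).toFinset).mono fun S hS => ?_
  rw [dL, ← map_inv, ← map_mul]
  exact hb.att ((F.Z q).at_Rl _) ((F.Z q).at_Rl _)
    fun l hl => hS (((F.Z q).bl_fin b).mem_toFinset.2 hl)

theorem br_ev (q : Q) (x y : P) : ∀ᶠ S : Finset Lam in atTop,
    F.dv q x y = Var ((F.path q S x y).map (E.lat.pos (F.B.stpI.px q))) := by
  refine (F.ev_BrBox q x y).mono fun S h => ?_
  rw [h, Fam.path, cpl_var, E.lat_pos, List.map_append, List.map_cons]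
  rfl

theorem br_pm (q : Q) : PM (F.dv q) := by
  have pm := dL_pm (C := C2) (E.pos (F.B.u q).1)
  refine ⟨fun x => ?_, fun x y => ?_, fun x y z => ?_⟩
  · obtain ⟨S, h⟩ := (F.ev_BrBox q x x).exists
    rw [h, pm.self]
  · obtain ⟨S, h1, h2⟩ := ((F.ev_BrBox q x y).and (F.ev_BrBox q y x)).exists
    rw [h1, h2, pm.symm]
  · obtain ⟨S, h1, h2, h3⟩ :=
      ((F.ev_BrBox q x z).and ((F.ev_BrBox q x y).and (F.ev_BrBox q y z))).exists
    rw [h1, h2, h3]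
    exact pm.tri _ _ _

theorem br_box (q : Q) (x y : P) : ∃ (T : Finset Lam) (Y : ℝ), ∀ᶠ S : Finset Lam in atTop,
    (∀ ν, EndT (E.lat.key (F.B.stpI.ux q)) (F.path q S x y) ν → ν ∈ T) ∧
    (∀ ν ∈ F.path q S x y, -Y ≤ E.lat.η ν.2) ∧
    (∀ ν ∈ S, Y < E.lat.η ν.2 → ¬ Skip (E.lat.key (F.B.stpI.ux q)) (F.path q S x y) ν) := by
  obtain ⟨b, hb⟩ := F.cv q x y
  obtain ⟨T, hT⟩ : ∃ T : Finset Lam, ∀ ν, ν ∉ T →
      F.lb x ≠ ν ∧ F.lb y ≠ ν ∧ ν ∉ (F.Z q).bl b :=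
    ⟨insert (F.lb x) (insert (F.lb y) ((F.Z q).bl_fin b).toFinset), fun ν h => by
      simp only [Finset.mem_insert, Set.Finite.mem_toFinset, not_or] at h
      exact ⟨Ne.symm h.1, Ne.symm h.2.1, h.2.2⟩⟩
  have hk : E.lat.key (F.B.stpI.ux q) = (F.Z q).X := E.lat_key _
  have hs : ∀ ν ∈ T, |E.η ν.2| ≤ ∑ ν ∈ T, |E.η ν.2| := fun ν h =>
    Finset.single_le_sum (f := fun ν : Lam => |E.η ν.2|) (fun _ _ => abs_nonneg _) h
  have hs0 : 0 ≤ ∑ ν ∈ T, |E.η ν.2| := Finset.sum_nonneg fun _ _ => abs_nonneg _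
  have hy : ∀ ν : Lam, |(F.Z q).y ν - E.η ν.2| ≤ 3 * |(F.B.w q).1| := fun ν => by
    have e : (F.Z q).y ν - E.η ν.2 = E.tr.m ν.1 * (F.B.w q).1 := add_sub_cancel_left _ _
    rw [e, abs_mul, abs_of_nonneg (E.tr.m_nonneg _)]
    exact mul_le_mul_of_nonneg_right (E.tr.m_le _) (abs_nonneg _)
  have a1 := abs_nonneg (F.B.w q).1
  have a2 := le_abs_self b.y1
  have a3 := neg_abs_le b.y1
  refine ⟨T, ∑ ν ∈ T, |E.η ν.2| + 3 * |(F.B.w q).1| + |b.y1|, Eventually.of_forall fun S => ?_⟩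
  rw [hk]
  refine ⟨fun ν h => ?_, fun ν h => ?_, fun ν h h1 => ?_⟩
  · by_contra hn
    obtain ⟨h1, h2, h3⟩ := hT ν hn
    obtain ⟨-, -, e1, e2⟩ := cpl_rd (F.lb x, pj S (F.gv q x)) (F.lb y, pj S (F.gv q y))
    rcases h with h | h | h
    · exact h1 (Option.some.inj (e1.symm.trans h))
    · exact h2 (Option.some.inj (e2.symm.trans h))
    · have h4 : ν ∈ F.path q S x y := by
        obtain ⟨A, B, a, c, e, -⟩ := h
        simp [e]
      obtain ⟨h5, h6⟩ := mem_BrBox hb h4 h1 h2 h3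
      exact (high_BrBox hb h5 h1 h2 h6).1 h
  · rw [E.lat_η]
    by_cases hn : ν ∈ T
    · linarith [hs ν hn, neg_abs_le (E.η ν.2)]
    · obtain ⟨h1, h2, h3⟩ := hT ν hn
      have h4 : b.y1 < (F.Z q).y ν := (mem_BrBox hb h h1 h2 h3).2
      linarith [(abs_le.1 (hy ν)).2]
  · rw [E.lat_η] at h1
    obtain ⟨h2, h3, -⟩ := hT ν fun hn => by linarith [hs ν hn, le_abs_self (E.η ν.2)]
    refine (high_BrBox hb h h2 h3 ?_).2
    change b.y1 < (F.Z q).y ν
    linarith [(abs_le.1 (hy ν)).1]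

end Fam

end Pool.Agent.E5f

end

section

set_option autoImplicit false

namespace Pool.Agent.E5f

open Classical Filter

theorem pm_nonneg_b5l {X : Type} {d : X → X → ℝ} (h : PM d) (x y : X) : 0 ≤ d x y := by
  have h1 := h.tri x y x
  rw [h.self, h.symm y x] at h1
  linarith

namespace FSys
variable {O : Type} [AddCommGroup O] {E : Lat O} {Q P : Type} {dv dh : Q → Q → ℝ}
  {Cu : Q → Prop} {fv fh : Q → P → P → ℝ} (Y : FSys E dv dh Cu fv fh)

/-- Slopes on a route lie between the slopes at the ends up to a constant. -/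
theorem on_bd_b5l {lo hi : ℝ} {a d z : Q} {ea ed e : Bool}
    (h : Y.toStp.OnR lo hi a ea d ed z e) : ∃ K : ℝ, 0 ≤ K ∧ ∀ x y : P, ∀ᶠ S in atTop,
      Y.sl S x y a ea - K ≤ Y.sl S x y z e ∧ Y.sl S x y z e ≤ Y.sl S x y d ed + K := by
  obtain ⟨c0, C0, _, hC0, hr⟩ := Y.route_ev
  obtain ⟨⟨l, n, h1⟩, ⟨l', n', h2⟩⟩ := h
  have hn : (0 : ℝ) ≤ n * C0 := mul_nonneg (Nat.cast_nonneg n) hC0
  have hn' : (0 : ℝ) ≤ n' * C0 := mul_nonneg (Nat.cast_nonneg n') hC0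
  refine ⟨n * C0 + n' * C0, by linarith, fun x y => ?_⟩
  filter_upwards [hr _ _ _ _ _ _ _ _ h1 x y, hr _ _ _ _ _ _ _ _ h2 x y] with S s1 s2
  constructor
  · linarith [s1.1]
  · linarith [s2.1]

/-- Gains at touches on a route. -/
theorem tg_bd_b5l {lo hi : ℝ} {a d : Q} {ea ed : Bool} (o : Option (Q × Q))
    (h : ∀ z, o = some z → Y.toStp.OnR lo hi a ea d ed z.1 (!Y.toStp.sx z.1) ∧
      Y.toStp.OnR lo hi a ea d ed z.2 (Y.toStp.sx z.2)) :
    ∃ K : ℝ, 0 ≤ K ∧ ∀ x y : P, ∀ᶠ S in atTop, ∀ z, o = some z →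
      Y.tg S x y z.1 z.2 ≤ Y.sl S x y d ed - Y.sl S x y a ea + K := by
  cases o with
  | none => exact ⟨0, le_rfl, fun x y => Eventually.of_forall (fun S z hz => by cases hz)⟩
  | some z0 =>
    obtain ⟨h1, h2⟩ := h z0 rfl
    obtain ⟨K1, k1, e1⟩ := Y.on_bd_b5l h1
    obtain ⟨K2, k2, e2⟩ := Y.on_bd_b5l h2
    refine ⟨K1 + K2, by linarith, fun x y => ?_⟩
    filter_upwards [e1 x y, e2 x y] with S s1 s2 z hz
    cases hz
    unfold tg
    linarith [s1.1, s2.2]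

/-- Few turns at a point in the middle of a route with long ends. -/
theorem up_b5l {lo hi R0 W C2 : ℝ} (hR0 : 0 < R0) (hC2 : 0 ≤ C2)
    (hW : ∀ (z r r' : Q) (ε : Bool)
      (σ σ' : O → Bool), Y.toStp.DSt lo hi ε z r σ → Y.toStp.DSt lo hi (!ε) z r' σ' →
      W ≤ |Y.toStp.px r - Y.toStp.px z| → W ≤ |Y.toStp.px r' - Y.toStp.px z| →
      ∀ x y : P, ∀ᶠ S in atTop, ∀ g : ℝ, 0 ≤ g → Y.sl S x y r ε - Y.sl S x y z ε ≤ g →
        Y.sl S x y r' (!ε) - Y.sl S x y z (!ε) ≤ g →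
        Y.tu S x y z ≤ fv z x y / R0 + C2 * (g + 1))
    {a d A : Q} {ea ed e : Bool} {l l' : ℝ} {n n' : ℕ}
    (h1 : Y.toStp.Rt lo hi a ea A e l n) (h2 : Y.toStp.Rt lo hi A e d ed l' n')
    (hl : W ≤ l) (hl' : W ≤ l') :
    ∃ K : ℝ, 0 ≤ K ∧ ∀ x y : P, ∀ᶠ S in atTop, ∀ g : ℝ, 0 ≤ g →
      Y.sl S x y d ed - Y.sl S x y A e ≤ g → Y.sl S x y A e - Y.sl S x y a ea ≤ g →
      Y.tu S x y A ≤ fv A x y / R0 + K * (g + 1) := by
  obtain ⟨c0, C0, hc0, hC0, hr⟩ := Y.route_ev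
  have aux : ∀ (m : ℕ) (t g f : ℝ), 0 ≤ g → 0 ≤ f → c0 * t - m * C0 ≤ g →
      t ≤ f / R0 + ((1 + m * C0) / c0) * (g + 1) := by
    intro m t g f hg hf h
    have hm : (0 : ℝ) ≤ m * C0 := mul_nonneg (Nat.cast_nonneg m) hC0
    have h3 : 0 ≤ f / R0 := div_nonneg hf hR0.le
    have h4 : t ≤ ((1 + m * C0) / c0) * (g + 1) := by
      rw [div_mul_eq_mul_div, le_div_iff₀ hc0]
      have := mul_nonneg hm hg
      linarith only [this, h, hm]
    linarith only [h3, h4]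
  have h1' := Y.toBSys.rt_rev h1
  rcases Nat.eq_zero_or_pos n' with rfl | hn'
  · rcases Nat.eq_zero_or_pos n with rfl | hn
    · obtain ⟨e1, l1, σ1, s1⟩ := Y.toBSys.rt_zero h2
      obtain ⟨e2, l2, σ2, s2⟩ := Y.toBSys.rt_zero h1'
      refine ⟨C2, hC2, fun x y => ?_⟩
      filter_upwards [hW A d a e σ1 σ2 s1 s2 (l1 ▸ hl') (l2 ▸ hl) x y] with S hS g hg g1 g2
      refine hS g hg (e1 ▸ g1) ?_
      have e3 : ea = e := Bool.not_inj e2
      rw [Y.sl_not, Y.sl_not]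
      rw [e3] at g2
      linarith
    · refine ⟨(1 + n * C0) / c0, div_nonneg
        (by have := mul_nonneg (Nat.cast_nonneg (α := ℝ) n) hC0; linarith) hc0.le, fun x y => ?_⟩
      filter_upwards [hr _ _ _ _ _ _ _ _ h1' x y] with S hS g hg _ g2
      refine aux n _ g _ hg (pm_nonneg_b5l (Y.fpm A) x y) ?_
      have := hS.2.2.2 hn
      rw [Y.sl_not, Y.sl_not] at this
      linarith
  · refine ⟨(1 + n' * C0) / c0, div_nonneg
      (by have := mul_nonneg (Nat.cast_nonneg (α := ℝ) n') hC0; linarith) hc0.le, fun x y => ?_⟩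
    filter_upwards [hr _ _ _ _ _ _ _ _ h2 x y] with S hS g hg g1 _
    refine aux n' _ g _ hg (pm_nonneg_b5l (Y.fpm A) x y) ?_
    have := hS.2.2.2 hn'
    linarith

/-- An inverted pair in the middle of a route bounds the length by the variation at the ends. -/
theorem key_b5l (W : ℝ) : ∃ W1 : ℝ, 1 ≤ W1 ∧ ∀ {lo hi : ℝ} {p a b c d r : Q}
    {ep ea eb ec ed er : Bool} {n1 n2 n4 n5 : ℕ},
    Y.toStp.Rt lo hi p ep a ea 1 n1 → Y.toStp.Rt lo hi a ea b eb W1 n2 →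
    Y.toStp.Rt lo hi c ec d ed W1 n4 → Y.toStp.Rt lo hi d ed r er 1 n5 →
    (∃ (A B : Q) (e : Bool) (σ : O → Bool) (a0 a' : O) (o o' : Option (Q × Q)),
      Y.toStp.DSt lo hi e A B σ ∧ |Y.toStp.px B - Y.toStp.px A| ≤ W ∧ E.η a' < E.η a0 ∧
      Y.toStp.WS A B e σ true a0 o ∧ Y.toStp.WS A B e σ false a' o' ∧
      Y.toStp.OnR lo hi b eb c ec A e ∧ Y.toStp.OnR lo hi b eb c ec B e ∧
      ∀ z, (o = some z ∨ o' = some z) → Y.toStp.OnR lo hi b eb c ec z.1 (!Y.toStp.sx z.1) ∧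
        Y.toStp.OnR lo hi b eb c ec z.2 (Y.toStp.sx z.2)) →
    ∃ M : ℝ, 0 ≤ M ∧ ∀ (x y : P) (u : ℝ), 0 ≤ u → fv p x y - fv a x y ≤ u →
      fv r x y - fv d x y ≤ u → fv b x y ≤ M * (u + 1) := by
  obtain ⟨L1, C1, hL1, hC1, hdr⟩ := Y.drift W
  obtain ⟨C2, hC2, hco⟩ := Y.core2
  obtain ⟨W0, hW0⟩ := hco (2 * L1) (by linarith)
  refine ⟨max W0 1, le_max_right _ _, ?_⟩
  intro lo hi p a b c d r ep ea eb ec ed er n1 n2 n4 n5 r1 r2 r4 r5 hinv
  obtain ⟨A, B, e, σ, a0, a', o, o', hst, hlen, hη, w1, w2, oA, oB, oz⟩ := hinv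
  obtain ⟨c0, C0, hc0, hC0, hr⟩ := Y.route_ev
  have ext : ∀ z ez, Y.toStp.OnR lo hi b eb c ec z ez → Y.toStp.OnR lo hi a ea d ed z ez := by
    rintro z ez ⟨⟨l, n, h1⟩, ⟨l', n', h2⟩⟩
    exact ⟨⟨_, _, Y.toBSys.rt_append r2 h1⟩, ⟨_, _, Y.toBSys.rt_append h2 r4⟩⟩
  obtain ⟨KA, kA, eA⟩ := Y.on_bd_b5l (ext _ _ oA)
  obtain ⟨KB, kB, eB⟩ := Y.on_bd_b5l (ext _ _ oB)
  obtain ⟨Ko, ko, eo⟩ := Y.tg_bd_b5l o
    (fun z hz => ⟨ext _ _ (oz z (Or.inl hz)).1, ext _ _ (oz z (Or.inl hz)).2⟩)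
  obtain ⟨Ko', ko', eo'⟩ := Y.tg_bd_b5l o'
    (fun z hz => ⟨ext _ _ (oz z (Or.inr hz)).1, ext _ _ (oz z (Or.inr hz)).2⟩)
  obtain ⟨⟨l, n, h1⟩, ⟨l', n', h2⟩⟩ := oA
  have hl := Y.toBSys.rt_nonneg h1
  have hl' := Y.toBSys.rt_nonneg h2
  obtain ⟨Kb, kb, eb'⟩ := Y.on_bd_b5l (lo := lo) (hi := hi) (a := a) (d := d) (z := b) (ea := ea)
    (ed := ed) (e := eb) ⟨⟨_, _, r2⟩,
      ⟨_, _, Y.toBSys.rt_append (Y.toBSys.rt_append h1 h2) r4⟩⟩
  obtain ⟨KU, kU, eU⟩ := Y.up_b5l (R0 := 2 * L1) (W := W0) (by linarith) hC2 (hW0 lo hi)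
    (Y.toBSys.rt_append r2 h1) (Y.toBSys.rt_append h2 r4)
    (by linarith [le_max_left W0 1]) (by linarith [le_max_left W0 1])
  have hn1 : (0 : ℝ) ≤ n1 * C0 := mul_nonneg (Nat.cast_nonneg _) hC0
  have hn5 : (0 : ℝ) ≤ n5 * C0 := mul_nonneg (Nat.cast_nonneg _) hC0
  have hn : (0 : ℝ) ≤ n * C0 := mul_nonneg (Nat.cast_nonneg _) hC0
  obtain ⟨K, hK⟩ : ∃ K : ℝ, K = n1 * C0 + n5 * C0 + n * C0 + KA + KB + Ko + Ko' + Kb + 2 :=
    ⟨_, rfl⟩
  have hK2 : 2 ≤ K := by linarith only [hK, hn1, hn5, hn, kA, kB, ko, ko', kb]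
  have hCK : 0 ≤ C1 + KU := by linarith only [hC1, kU]
  refine ⟨2 * L1 * (C1 + KU) * (K + 1) + l * K, by positivity, fun x y u hu u1 u2 => ?_⟩
  obtain ⟨S, s1, s5, s3, sA, sB, so, so', sb, sU, sD⟩ := ((hr _ _ _ _ _ _ _ _ r1 x y).and
    ((hr _ _ _ _ _ _ _ _ r5 x y).and ((hr _ _ _ _ _ _ _ _ h1 x y).and ((eA x y).and ((eB x y).and
    ((eo x y).and ((eo' x y).and ((eb' x y).and ((eU x y).and
    (hdr A B e σ a0 a' o o' hst.st hst.dir hlen hη w1 w2 x y)))))))))).exists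
  have ba : -u - n1 * C0 ≤ Y.sl S x y a ea := by linarith only [s1.2.2.1, u1]
  have bd : Y.sl S x y d ed ≤ u + n5 * C0 := by linarith only [s5.2.1, u2]
  have hg : 0 ≤ 2 * u + K := by linarith only [hu, hK2]
  have up := sU (2 * u + K) hg (by linarith only [sA.1, ba, bd, hK, hn, kB, ko, ko', kb])
    (by linarith only [sA.2, ba, bd, hK, hn, kB, ko, ko', kb])
  have dn := sD (2 * u + K) hg (by linarith only [sA.1, sB.2, ba, bd, hK, hn, ko, ko', kb]) (by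
    rintro z (hz | hz)
    · linarith only [so z hz, ba, bd, hK, hn, kA, kB, ko', kb]
    · linarith only [so' z hz, ba, bd, hK, hn, kA, kB, ko, kb])
  have hA : fv A x y ≤ 2 * L1 * ((C1 + KU) * (2 * u + K + 1)) := by
    have e1 : fv A x y / L1 = 2 * (fv A x y / (2 * L1)) := by field_simp
    have e2 : fv A x y / (2 * L1) ≤ (C1 + KU) * (2 * u + K + 1) := by
      linarith only [e1, up, dn]
    rw [div_le_iff₀ (by linarith only [hL1])] at e2
    linarith only [e2]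
  have hb : fv b x y ≤ fv A x y + l * (u + K) := by
    have e1 : -(u + K) ≤ Y.sl S x y b eb - n * C0 := by
      linarith only [sb.1, ba, hK, hn5, kA, kB, ko, ko']
    have e2 := mul_le_mul_of_nonneg_left e1 hl
    linarith only [s3.2.1, e2]
  have e0 : 0 ≤ (K - 1) * u := mul_nonneg (by linarith only [hK2]) hu
  have e3 : 2 * u + K + 1 ≤ (K + 1) * (u + 1) := by linarith only [e0]
  have e4 : u + K ≤ K * (u + 1) := by linarith only [e0]
  have e5 := mul_le_mul_of_nonneg_left e3 (by positivity : 0 ≤ 2 * L1 * (C1 + KU))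
  have e6 := mul_le_mul_of_nonneg_left e4 hl
  linarith only [hA, hb, e5, e6]

include Y

theorem lim_b5l {F : Q → ℝ} (hF : F ∈ LimF1 fv) (σ : ℝ → Q) (c : ℝ)
    (hσ : ∀ s s', dv (σ s) (σ s') = |s - s'|) (hc : 0 < c) (h : ∀ s, F (σ s) = c) (R : ℝ) :
    ∃ z : ℝ → Q, ∀ s s', |s| ≤ R → |s'| ≤ R → dv (z s) (σ s) = 0 ∧ dh (z s) (z s') = 0 := by
  rcases lt_or_ge R 0 with hR | hR
  · exact ⟨σ, fun s s' hs _ => absurd (le_trans (abs_nonneg s) hs) (not_le.2 hR)⟩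
  obtain ⟨W1, hW1, hkey⟩ := Y.key_b5l (2 * R)
  obtain ⟨R', hR'⟩ : ∃ R' : ℝ, R' = R + W1 + 1 := ⟨_, rfl⟩
  have hpr : dv (σ (-R')) (σ R') = 2 * R' := by
    rw [hσ, abs_of_nonpos (by linarith)]; ring
  have on : ∀ q s, -R' ≤ s → s ≤ R' → dv (σ (-R')) q ≤ R' + s → dv q (σ R') ≤ R' - s →
      dv q (σ s) = 0 := by
    intro q s s1 s2 d1 d2
    have t := Y.pv.tri (σ (-R')) q (σ R')
    have e1 : dv (σ (-R')) (σ s) = R' + s := by rw [hσ, abs_of_nonpos (by linarith)]; ring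
    have e2 : dv (σ s) (σ R') = R' - s := by rw [hσ, abs_of_nonpos (by linarith)]; ring
    exact tree0 Y.pv Y.hv (p := σ (-R')) (r := σ R') (by linarith) (by linarith) (by linarith)
  obtain ⟨ep, er, n, rt⟩ := Y.route (σ (-R')) (σ R')
  rw [hpr] at rt
  obtain ⟨a, ea, n1, m1, r1, rt1⟩ := Y.toBSys.rt_split rt (s := 1) (by linarith) (by linarith)
  obtain ⟨b, eb, n2, m2, r2, rt2⟩ := Y.toBSys.rt_split rt1 (s := W1) (by linarith) (by linarith)
  obtain ⟨c', ec, n3, m3, r3, rt3⟩ := Y.toBSys.rt_split rt2 (s := 2 * R) (by linarith)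
    (by linarith)
  obtain ⟨d, ed, n4, n5, r4, r5⟩ := Y.toBSys.rt_split rt3 (s := W1) (by linarith) (by linarith)
  have e5 : 2 * R' - 1 - W1 - 2 * R - W1 = 1 := by rw [hR']; ring
  rw [e5] at r5
  have d1 := Y.toBSys.rt_dv r1
  have d1' := Y.toBSys.rt_dv rt1
  have d2 := Y.toBSys.rt_dv (Y.toBSys.rt_append r1 r2)
  have d2' := Y.toBSys.rt_dv rt2
  have d3' := Y.toBSys.rt_dv rt3
  have d4 := Y.toBSys.rt_dv
    (Y.toBSys.rt_append (Y.toBSys.rt_append (Y.toBSys.rt_append r1 r2) r3) r4)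
  have d4' := Y.toBSys.rt_dv r5
  rcases Y.toBSys.dich r3 with ⟨z, hz1, hz2⟩ | hinv
  · refine ⟨fun s => z (s + R), fun s s' hs hs' => ?_⟩
    obtain ⟨s1, s2⟩ := abs_le.1 hs
    obtain ⟨s1', s2'⟩ := abs_le.1 hs'
    refine ⟨?_, hz2 _ _ (by linarith) (by linarith) (by linarith) (by linarith)⟩
    obtain ⟨z1, z2⟩ := hz1 (s + R) (by linarith) (by linarith)
    have t1 := Y.pv.tri (σ (-R')) b (z (s + R))
    have t2 := Y.pv.tri (z (s + R)) c' (σ R')
    exact on _ s (by linarith) (by linarith) (by linarith) (by linarith)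
  · exfalso
    obtain ⟨M, hM, hb⟩ := hkey r1 r2 r4 r5 hinv
    have Fa : F a = c := by
      rw [Y.lim_zero hF (on a (1 - R') (by linarith) (by linarith) (by linarith) (by linarith)), h]
    have Fb : F b = c := by
      rw [Y.lim_zero hF (on b (-R) (by linarith) (by linarith) (by linarith) (by linarith)), h]
    have Fd : F d = c := by
      rw [Y.lim_zero hF (on d (R' - 1) (by linarith) (by linarith) (by linarith) (by linarith)), h]
    have hε : 0 < c / (3 * M + 2) := by positivity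
    obtain ⟨ε, hεd⟩ : ∃ ε : ℝ, ε = c / (3 * M + 2) := ⟨_, rfl⟩
    rw [← hεd] at hε
    have hεc : ε * (3 * M + 2) = c := by rw [hεd]; field_simp
    obtain ⟨x, y, t, ht, htε, hT⟩ := hF {σ (-R'), a, b, d, σ R'} ε hε
    have tp := abs_le.1 (hT (σ (-R')) (by simp))
    have ta := abs_le.1 (hT a (by simp))
    have tb := abs_le.1 (hT b (by simp))
    have td := abs_le.1 (hT d (by simp))
    have tr := abs_le.1 (hT (σ R') (by simp))
    rw [h] at tp tr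
    rw [Fa] at ta
    rw [Fb] at tb
    rw [Fd] at td
    have := hb x y (2 * ε / t) (by positivity)
      (by rw [le_div_iff₀ ht]; linarith [tp.2, ta.1])
      (by rw [le_div_iff₀ ht]; linarith [tr.2, td.1])
    have e1 := mul_le_mul_of_nonneg_left this ht.le
    have e2 : t * (M * (2 * ε / t + 1)) = M * (2 * ε + t) := by field_simp
    have e3 := mul_le_mul_of_nonneg_left htε hM
    linarith [tb.1]

end FSys

end Pool.Agent.E5f

end

section

set_option autoImplicit false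

namespace Pool.Agent.E5f

open Classical Filter

theorem limF_fst {Q P : Type} {fv fh : Q → P → P → ℝ} {Φ : (Q → ℝ) × (Q → ℝ)}
    (h : Φ ∈ LimF fv fh) : Φ.1 ∈ LimF1 fv := fun T ε hε => by
  obtain ⟨x, y, t, h1, h2, h3⟩ := h T ε hε
  exact ⟨x, y, t, h1, h2, fun q hq => (h3 q hq).1⟩

theorem limF_swap {Q P : Type} {fv fh : Q → P → P → ℝ} {Φ : (Q → ℝ) × (Q → ℝ)}
    (h : Φ ∈ LimF fv fh) : Φ.swap ∈ LimF fh fv := fun T ε hε => by
  obtain ⟨x, y, t, h1, h2, h3⟩ := h T ε hε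
  exact ⟨x, y, t, h1, h2, fun q hq => (h3 q hq).symm⟩

theorem fside_of_sys {O : Type} [AddCommGroup O] {E : Lat O} {Q P : Type} [MulAction G8 Q]
    {dv dh : Q → Q → ℝ} {dg : G8 → ℤ} {P0 q0 : Q} {fv fh : Q → P → P → ℝ}
    (Y : FSys E dv dh (fun q => ∃ γ : G8, dg γ = 0 ∧ q = γ • P0) fv fh)
    (hz : ∀ q, Thick (fun x y => fv q x y + fh q x y) → ∀ Φ ∈ LimF fv fh, Φ.1 q = 0 → Φ.2 q = 0 →
      Φ.1 q0 + Φ.2 q0 = 0) :
    FSide dv dh dg P0 (fun F z => ∃ Φ ∈ LimF fv fh, F = Φ.1 ∧ z = Φ.1 q0 + Φ.2 q0) where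
  zero := by
    rintro F z ⟨Φ, hΦ, rfl, rfl⟩ p q h
    exact Y.lim_zero (limF_fst hΦ) h
  cvx := by
    rintro F z ⟨Φ, hΦ, rfl, rfl⟩ p q r h
    exact Y.lim_cvx (limF_fst hΦ) h
  b1 := by
    rintro F z ⟨Φ, hΦ, rfl, rfl⟩ p p' h h' hd
    obtain ⟨q, h1, h2, h3⟩ := Y.lim_b1 hΦ h h' hd
    exact hz q h1 Φ hΦ h2 h3
  b5l := by
    rintro F z ⟨Φ, hΦ, rfl, rfl⟩ σ c h1 h2 h3 R
    exact Y.lim_b5l (limF_fst hΦ) σ c h1 h2 h3 R
  b5u := by
    intro B
    obtain ⟨R, hR⟩ := Y.lim_b5u B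
    refine ⟨R, fun N => ?_⟩
    obtain ⟨L, η, h1, h2, h3⟩ := hR N
    refine ⟨L, η, h1, h2, ?_⟩
    rintro F z ⟨Φ, hΦ, rfl, rfl⟩ p0 p1 p2 p3 s a1 a2 a3 a4 a5 a6 a7 a8 a9 a10 a11
    obtain ⟨c, ⟨γ, hγ, rfl⟩, b1, b2⟩ :=
      h3 _ (limF_fst hΦ) p0 p1 p2 p3 s a1 a2 a3 a4 a5 a6 a7 a8 a9 a10 a11
    exact ⟨γ, hγ, b1, b2⟩

end Pool.Agent.E5f

end

section

/-! The endgame. -/

set_option autoImplicit false

namespace Pool.Agent.E5f

theorem sgen_gens (h : ℕ) : Gens (sgen h) := sgen_gens_E h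

theorem hypH {Q : Type} [MulAction G8 Q] (S : Base Q) (q0 : Q) {h : ℕ} (A : Arith h) :
    ∃ δ, Hyp (gd (cay (sgen h))) δ := hypH_E S q0 A

theorem caseFF_EndG {Q : Type} [MulAction G8 Q] {S : Base Q} {Z : Seq S} {F : Q → ℝ}
    (hF : Fn Z F) (h1 : Z.rev.FGood) (h2 : Z.FGood) : False := by
  rcases h1.cases with a | a
  · exact caseUp hF a h2
  rcases h2.cases with b | b
  · refine caseUp hF.rev (Z := Z.rev) ?_ h1
    obtain ⟨M, hM⟩ := b
    refine ⟨M, fun A k0 => ?_⟩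
    simpa [Seq.rev, Seq.a] using hM A k0
  · exact Z.not_strip (strip_of_far hF a b)

theorem caseLast_EndG {Q : Type} [MulAction G8 Q] {S : Base Q} {Z : Seq S} {F : Q → ℝ}
    (hF : Fn Z F) {B B' : ℝ} (h1 : Z.Bdd B) (h2 : Z.swap.rev.Bdd B') : False := by
  obtain ⟨C, d⟩ := h1.down
  obtain ⟨C', d'⟩ := h2.down
  exact d.not_cusp (cusp_of_slope hF d (slope_of_back hF d (back_of_down hF d')))

theorem noBad {Q : Type} [MulAction G8 Q] (S : Base Q) (q0 : Q)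
    (FF : Set ((Q → ℝ) × (Q → ℝ))) (hF : FClass S q0 FF) {h : ℕ} (A : Arith h) :
    NoBad S q0 FF A := by
  intro γ Φ Θ hγ h0 hΦ h1 hΘ
  obtain ⟨Z, hZ⟩ := exists_seq S q0 A γ hγ h0
  have f1 : Fn Z Φ.1 := fn_of_class hF (fun j => A.ι (γ j)) Z hZ hΦ h1 hΘ
  have f2 : Fn Z.swap Φ.2 :=
    fn_of_class hF.swap (fun j => A.ι (γ j)) Z.swap
      (fun j => ⟨(hZ j).1, congrArg Neg.neg (hZ j).2⟩) (Φ := Φ.swap) ⟨Φ, hΦ, rfl⟩
      ((add_comm _ _).trans h1) (Θ := Θ) fun j => by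
        have := hΘ j
        simp only [ell, Base.swap, neg_neg, Prod.fst_swap, Prod.snd_swap] at this ⊢
        linarith
  have last2 : ∀ B B', Z.rev.Bdd B → Z.swap.Bdd B' → False := fun B B' a b =>
    caseLast_EndG f1.rev a (B' := B') fun k hk => by
      simpa [Seq.rev, Seq.swap, Seq.a] using b k hk
  rcases Z.good_or with a | ⟨B, a⟩
  · rcases Z.rev.good_or with b | ⟨B', b⟩
    · exact caseFF_EndG f1 b a
    · rcases Z.swap.good_or with c | ⟨C, c⟩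
      · rcases Z.swap.rev.good_or with d | ⟨C', d⟩
        · exact caseFF_EndG f2 d c
        · exact Z.rev.not_bdd b d
      · exact last2 _ _ b c
  · rcases Z.swap.rev.good_or with d | ⟨C', d⟩
    · rcases Z.swap.good_or with c | ⟨C, c⟩
      · exact caseFF_EndG f2 d c
      · exact Z.not_bdd a c
    · exact caseLast_EndG f1 a d

end Pool.Agent.E5f

end

section

set_option autoImplicit false

namespace Pool.Agent.E5f

/-- A hyperbolic extension from a base, a fibre family and the two interface systems. -/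
theorem group_of_sys {Q P : Type} [MulAction G8 Q] (S : Base Q) (q0 : Q) (Fb : Fib S q0 P)
    {O : Type} [AddCommGroup O] {E E' : Lat O}
    (Y : FSys E S.dv S.dh (fun q => ∃ γ : G8, S.dg γ = 0 ∧ q = γ • S.P0) Fb.dv Fb.dh)
    (Y' : FSys E' S.dh S.dv (fun q => ∃ γ : G8, S.dg γ = 0 ∧ q = γ • S.P0) Fb.dh Fb.dv) :
    ∃ h : ℕ, 2 ≤ h ∧ ∃ (G : Type) (_ : Group G) (n : ℕ) (s : Fin n → G) (i : SG 13 →* G)
      (p : G →* SG h), Gens s ∧ FourPt s ∧ Function.Injective i ∧ Function.Surjective p ∧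
        i.range = p.ker := by
  obtain ⟨h, hh, ⟨A⟩⟩ := arith_ex
  obtain ⟨e⟩ := ker2_iso
  have hV := fside_of_sys (q0 := q0) Y (fun q hq Φ hΦ h1 h2 => zero_of_thick Fb q hq Φ hΦ h1 h2)
  have hH := fside_of_sys (q0 := q0) Y' (fun q hq Φ hΦ h1 h2 => by
    have hq' : Thick (fun x y => Fb.dv q x y + Fb.dh q x y) := by
      simpa only [add_comm] using hq
    have := zero_of_thick Fb q hq' Φ.swap (limF_swap hΦ) h2 h1
    simpa [add_comm] using this)
  have e2 : (fun (F : Q → ℝ) (z : ℝ) => ∃ Φ ∈ LimF Fb.dh Fb.dv, F = Φ.1 ∧ z = Φ.1 q0 + Φ.2 q0) =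
      fun F z => ∃ Φ ∈ LimF Fb.dv Fb.dh, F = Φ.2 ∧ z = Φ.1 q0 + Φ.2 q0 := by
    funext F z
    apply propext
    constructor
    · rintro ⟨Φ, hΦ, rfl, rfl⟩
      exact ⟨Φ.swap, limF_swap hΦ, rfl, add_comm _ _⟩
    · rintro ⟨Φ, hΦ, rfl, rfl⟩
      exact ⟨Φ.swap, limF_swap hΦ, rfl, add_comm _ _⟩
  rw [e2] at hH
  have hF := fclass_of Fb hV hH
  have hb := noBad S q0 _ hF A
  exact ⟨h, hh, Fb.group A (sgen_gens h) (hypH S q0 A) (Fb.flares A (sgen_gens h) hb) e ker2_fi⟩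

end Pool.Agent.E5f

end

section

set_option autoImplicit false

namespace Pool.Agent.E5f

open Filter Classical

namespace Hol

/-- The change of coordinates as a permutation. -/
noncomputable def kp (X Y : Od Lam) (l : Lam) : Equiv.Perm (WL Lam C2) :=
  ⟨kap c2 X Y l, kap c2 Y X l, kap_kap c2 X Y l, kap_kap c2 Y X l⟩

/-- Permutations which descend to the level `S`. -/
def Dn (S : Finset Lam) : Subgroup (Equiv.Perm (WL Lam C2)) where
  carrier := {π | ∀ γ γ', pj S γ = pj S γ' ↔ pj S (π γ) = pj S (π γ')}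
  mul_mem' := fun {a b} ha hb γ γ' => (hb γ γ').trans (ha _ _)
  one_mem' := fun _ _ => Iff.rfl
  inv_mem' := fun {a} ha γ γ' => by
    have := ha (a⁻¹ γ) (a⁻¹ γ')
    simpa using this.symm

/-- Permutations which are trivial at the level `S`. -/
def Tv (S : Finset Lam) : Subgroup (Equiv.Perm (WL Lam C2)) where
  carrier := {π | ∀ γ, pj S (π γ) = pj S γ}
  mul_mem' := fun {a b} ha hb γ => (ha _).trans (hb γ)
  one_mem' := fun _ => rfl
  inv_mem' := fun {a} ha γ => by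
    have := ha (a⁻¹ γ)
    simpa using this.symm

theorem kp_dn (X Y : Od Lam) (l : Lam) (S : Finset Lam) : kp X Y l ∈ Dn S := fun γ γ' => by
  change _ ↔ pj S (kap c2 X Y l γ) = pj S (kap c2 X Y l γ')
  rw [pj_kap, pj_kap]
  refine ⟨fun h => by rw [h], fun h => ?_⟩
  rw [← kapf_kapf c2 X Y S l (pj S γ), h, kapf_kapf]

variable (E : Emb)

/-- The collision points of the pairs of labels of `S`. -/
noncomputable def cols (S : Finset Lam) : Finset Zl := (S ×ˢ S).image (fun e => E.col e.1 e.2)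

theorem mem_cols {S : Finset Lam} {l l' : Lam} (h : l ∈ S) (h' : l' ∈ S) :
    E.col l l' ∈ cols E S := Finset.mem_image.2 ⟨(l, l'), Finset.mem_product.2 ⟨h, h'⟩, rfl⟩

theorem cols_mono {S S' : Finset Lam} (h : S ⊆ S') : cols E S ⊆ cols E S' :=
  Finset.image_subset_image (Finset.product_subset_product h h)

theorem key_iff (u : Mk) {l l' : Lam} (h : l.1 ≠ l'.1) :
    E.key u l < E.key u l' ↔ (E.col l l' ∈ Rs E.ξ u ↔ E.m l'.1 < E.m l.1) := by
  rcases lt_or_gt_of_ne (E.m_ne h) with h1 | h1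
  · rw [E.key_lt_slow u h1]
    exact ⟨fun h2 => iff_of_false h2 h1.not_gt, fun h2 h3 => h1.not_gt (h2.1 h3)⟩
  · rw [E.key_lt_fast u h1, E.col_symm h.symm]
    exact ⟨fun h2 => iff_of_true h2 h1, fun h2 => h2.2 h1⟩

theorem agr_key {S : Finset Lam} {u u' : Mk}
    (h : ∀ a ∈ cols E S, (a ∈ Rs E.ξ u ↔ a ∈ Rs E.ξ u')) :
    Agr (S : Set Lam) (E.key u) (E.key u') := fun l hl l' hl' => by
  by_cases e : l.1 = l'.1
  · rw [E.key_lt_same u e, E.key_lt_same u' e]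
  · rw [key_iff E u e, key_iff E u' e, h _ (mem_cols E hl hl')]

theorem agr_inf {S : Finset Lam} {u : Mk} (h : ∀ a ∈ cols E S, a ∉ Rs E.ξ u) :
    Agr (S : Set Lam) (E.key u) (E.kinf true) := fun l hl l' hl' => by
  by_cases e : l.1 = l'.1
  · rw [E.key_lt_same u e, E.kinf_lt_same true e]
  · rw [key_iff E u e, E.kinf_true_lt e]
    have h1 := h _ (mem_cols E hl hl')
    have h2 := E.m_ne e
    exact ⟨fun h3 => lt_of_le_of_ne (not_lt.1 fun h4 => h1 (h3.2 h4)) h2,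
      fun h3 => iff_of_false h1 h3.not_gt⟩

theorem inv_col {a : Zl} {l l' : Lam} (h1 : E.key (E.ξ a, true) l < E.key (E.ξ a, true) l')
    (h2 : E.key (E.ξ a, false) l' < E.key (E.ξ a, false) l) : l.1 ≠ l'.1 ∧ E.col l l' = a := by
  have e : l.1 ≠ l'.1 := fun e => by
    rw [E.key_lt_same _ e] at h1
    rw [E.key_lt_same _ e.symm] at h2
    exact lt_asymm h1 h2
  refine ⟨e, ?_⟩
  by_contra h
  have h3 : E.ξ a ≠ E.ξ (E.col l l') := fun h' => h (E.ξ_inj h').symm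
  have h4 := lt_asymm h2
  rw [key_iff E _ e] at h1 h4
  simp only [Rs, Set.mem_setOf_eq, h3, false_and, or_false] at h1 h4
  exact h4 h1

/-- The holonomy around a lattice point. -/
noncomputable def eta (l : Lam) (a : Zl) : Equiv.Perm (WL Lam C2) :=
  kp (E.key (E.ξ a, false)) (E.tr.kinf true) l * kp (E.tr.kinf false) (E.key (E.ξ a, false)) l *
    kp (E.key (E.ξ a, true)) (E.tr.kinf false) l * kp (E.tr.kinf true) (E.key (E.ξ a, true)) l

theorem eta_dn (l : Lam) (a : Zl) (S : Finset Lam) : eta E l a ∈ Dn S :=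
  mul_mem (mul_mem (mul_mem (kp_dn _ _ _ _) (kp_dn _ _ _ _)) (kp_dn _ _ _ _)) (kp_dn _ _ _ _)

theorem eta_tv {l : Lam} {a : Zl} {S : Finset Lam} (h : a ∉ cols E (insert l S)) :
    eta E l a ∈ Tv S := fun γ => by
  have hA : Agr ((insert l S : Finset Lam) : Set Lam) (E.key (E.ξ a, true))
      (E.key (E.ξ a, false)) := agr_key E fun b hb => by
    have h3 : E.ξ a ≠ E.ξ b := fun h' => h (E.ξ_inj h' ▸ hb)
    simp [Rs, h3]
  have hl : l ∈ insert l S := Finset.mem_insert_self l S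
  have h1 : pj (insert l S) (eta E l a γ) = pj (insert l S) γ := by
    change pj _ (kap _ _ _ _ (kap _ _ _ _ (kap _ _ _ _ (kap _ _ _ _ γ)))) = _
    have hs := sup_kapf c2 (E.tr.kinf true) (E.key (E.ξ a, true)) l (sup_pj (insert l S) γ)
    rw [pj_kap, pj_kap, pj_kap, pj_kap, kapf_same c2 _ hA hl hs,
      kapf_congr c2 hA.symm (Agr.refl _ _) hl hs, kapf_kapf]
  rw [← ret_pj (Finset.subset_insert l S), h1, ret_pj (Finset.subset_insert l S)]

/-- The holonomy of finite words. -/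
noncomputable def hol (l : Lam) : W Zl CZ →* Equiv.Perm (WL Lam C2) :=
  lf (fun a => zpowersHom _ (eta E l a))

theorem hol_lt (l : Lam) (a : Zl) (x : CZ) :
    hol E l (lt a x) = eta E l a ^ (Multiplicative.toAdd x) := by
  unfold hol; rw [lf_lt]; rfl

theorem hol_dn (l : Lam) (S : Finset Lam) (w : W Zl CZ) : hol E l w ∈ Dn S := by
  induction w using W_ind with
  | h1 => rw [map_one]; exact one_mem _
  | h a x g ih => rw [map_mul, hol_lt]; exact mul_mem (zpow_mem (eta_dn E l a S) _) ih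

theorem hol_ret (l : Lam) {S : Finset Lam} {A : Finset Zl} (hA : cols E (insert l S) ⊆ A)
    (γ : WL Lam C2) (w : W Zl CZ) :
    pj S (hol E l (ret (A : Set Zl) w) γ) = pj S (hol E l w γ) := by
  induction w using W_ind with
  | h1 => rw [map_one]
  | h a x g ih =>
    rw [map_mul, map_mul, map_mul, ret_lt, Equiv.Perm.mul_apply, Equiv.Perm.mul_apply]
    split_ifs with h
    · exact (hol_dn E l S _ _ _).1 ih
    · have h2 : hol E l (lt a x) ∈ Tv S := by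
        rw [hol_lt]
        exact zpow_mem (eta_tv E fun h' => h (hA h')) _
      rw [h2, map_one, Equiv.Perm.one_apply, ih]

theorem hol_pj (l : Lam) {S : Finset Lam} {A : Finset Zl} (hA : cols E (insert l S) ⊆ A)
    (γ : WL Lam C2) (g : WL Zl CZ) :
    pj S (hol E l (pj (cols E (insert l S)) g) γ) = pj S (hol E l (pj A g) γ) := by
  rw [← ret_pj hA, hol_ret E l (Finset.Subset.refl _)]

/-- The holonomy of compatible families. -/
noncomputable def hf (l : Lam) (g : WL Zl CZ) (γ : WL Lam C2) : WL Lam C2 :=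
  mkW (fun S => pj S (hol E l (pj (cols E (insert l S)) g) γ)) (fun S S' h => by
    rw [ret_pj h, hol_pj E l (cols_mono E (Finset.insert_subset_insert l h))])

theorem pj_hf (l : Lam) (S : Finset Lam) (g : WL Zl CZ) (γ : WL Lam C2) :
    pj S (hf E l g γ) = pj S (hol E l (pj (cols E (insert l S)) g) γ) := rfl

/-- The holonomy as a homomorphism. -/
noncomputable def hh (l : Lam) : WL Zl CZ →* Equiv.Perm (WL Lam C2) :=
  MonoidHom.toHomPerm
    { toFun := hf E l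
      map_one' := funext fun γ => WL_ext fun S => by
        rw [pj_hf, map_one, map_one]; rfl
      map_mul' := fun g g' => funext fun γ => WL_ext fun S => by
        change _ = pj S (hf E l g (hf E l g' γ))
        rw [pj_hf, pj_hf, map_mul, map_mul, Equiv.Perm.mul_apply]
        exact (hol_dn E l S _ _ _).1 (pj_hf E l S g' γ).symm }

theorem hh_apply (l : Lam) (g : WL Zl CZ) (γ : WL Lam C2) : hh E l g γ = hf E l g γ := rfl

/-- From the reference coordinates to the H-coordinates at the level `w` through the order `X`. -/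
noncomputable def Ps (l : Lam) (w : Mk) (X : Od Lam) : Equiv.Perm (WL Lam C2) :=
  kp X (E.tr.key w) l * kp (E.tr.kinf true) X l

theorem Ps_dn (l : Lam) (w : Mk) (X : Od Lam) (S : Finset Lam) : Ps E l w X ∈ Dn S :=
  mul_mem (kp_dn _ _ _ _) (kp_dn _ _ _ _)

theorem Ps_agr {l : Lam} (w : Mk) {X X' : Od Lam} {S : Finset Lam} (hl : l ∈ S)
    (h : Agr (S : Set Lam) X X') (γ : WL Lam C2) :
    pj S (Ps E l w X γ) = pj S (Ps E l w X' γ) := by
  change pj _ (kap _ _ _ _ (kap _ _ _ _ γ)) = pj _ (kap _ _ _ _ (kap _ _ _ _ γ))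
  rw [pj_kap, pj_kap, pj_kap, pj_kap, kapf_congr c2 (Agr.refl _ _) h hl (sup_pj S γ),
    kapf_congr c2 h (Agr.refl _ _) hl (sup_kapf c2 _ _ l (sup_pj S γ))]

theorem Ps_up (l : Lam) {w : Mk} {a : Zl} (h : a ∉ Rs E.η w) (γ : WL Lam C2) :
    Ps E l w (E.key (E.ξ a, false)) γ = Ps E l w (E.key (E.ξ a, true)) γ := by
  change kap _ _ _ _ (kap _ _ _ _ γ) = kap _ _ _ _ (kap _ _ _ _ γ)
  have := kap_R c2 (E.key (E.ξ a, true)) (E.key (E.ξ a, false)) (E.tr.kinf true) (E.tr.key w)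
    (fun p q h1 h2 => by
      obtain ⟨e, e'⟩ := inv_col E h1 h2
      rw [key_iff E.tr w e, E.tr.kinf_true_lt e, E.tr_col, e']
      have h2 := E.tr.m_ne e
      exact ⟨fun h3 => iff_of_false h h3.not_gt,
        fun h3 => lt_of_le_of_ne (not_lt.1 fun h4 => h (h3.2 h4)) h2⟩) l
    (kap c2 (E.tr.kinf true) (E.key (E.ξ a, true)) l γ)
  rw [kap_kap] at this
  rw [this, kap_kap]

theorem Ps_down (l : Lam) {w : Mk} {a : Zl} (h : a ∈ Rs E.η w) (γ : WL Lam C2) :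
    Ps E l w (E.key (E.ξ a, false)) (eta E l a γ) = Ps E l w (E.key (E.ξ a, true)) γ := by
  change kap _ _ _ _ (kap _ _ _ _ (kap _ _ _ _ (kap _ _ _ _ (kap _ _ _ _ (kap _ _ _ _ γ))))) =
    kap _ _ _ _ (kap _ _ _ _ γ)
  rw [kap_kap, kap_R c2 (E.key (E.ξ a, true)) (E.key (E.ξ a, false)) (E.tr.kinf false) (E.tr.key w)
    (fun p q h1 h2 => by
      obtain ⟨e, e'⟩ := inv_col E h1 h2
      rw [key_iff E.tr w e, E.tr.kinf_false_lt e, E.tr_col, e']
      exact ⟨fun h3 => iff_of_true h h3, fun h3 => h3.1 h⟩), kap_kap]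

theorem Ps_fin {l : Lam} (w : Mk) {S : Finset Lam} (hl : l ∈ S) (γ : WL Lam C2) :
    ∀ (n : ℕ) (u : Mk), (cut (cols E S) (Rs E.ξ u)).card = n →
      pj S (Ps E l w (E.key u) (hol E l (op E.bkey cz (cut (cols E S) (Rs E.ξ u ∩ Rs E.η w))) γ))
        = pj S (Ps E l w (E.kinf true) γ) := by
  intro n
  induction n with
  | zero =>
    intro u hn
    have h0 : ∀ a ∈ cols E S, a ∉ Rs E.ξ u := fun a ha h => by
      have : a ∈ cut (cols E S) (Rs E.ξ u) := mem_cut.2 ⟨ha, h⟩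
      rw [Finset.card_eq_zero.1 hn] at this
      exact absurd this (Finset.notMem_empty a)
    have h1 : op E.bkey cz (cut (cols E S) (Rs E.ξ u ∩ Rs E.η w)) = 1 :=
      op_eq_pl (w := []) cz List.Pairwise.nil fun a =>
        iff_of_false (by simp) fun h => h0 a (mem_cut.1 h).1 (mem_cut.1 h).2.1
    rw [h1, map_one, Equiv.Perm.one_apply, Ps_agr E w hl (agr_inf E h0)]
  | succ n ih =>
    intro u hn
    obtain ⟨a, ha, hm⟩ := Finset.exists_min_image (cut (cols E S) (Rs E.ξ u)) E.ξ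
      (Finset.card_pos.1 (by omega))
    obtain ⟨ha1, ha2⟩ := mem_cut.1 ha
    have k1 : ∀ b, b ∈ Rs E.ξ (E.ξ a, true) ↔ E.ξ a < E.ξ b := fun b => by simp [Rs]
    have k2 : ∀ b, E.ξ a ≤ E.ξ b → b ∈ Rs E.ξ u := fun b hb => by
      rcases hb.lt_or_eq with hb | hb
      · rcases ha2 with h | h
        · exact Or.inl (h.trans hb)
        · exact Or.inl (h.1.trans_lt hb)
      · rwa [← E.ξ_inj hb]
    have k3 : ∀ b ∈ cols E S, (b ∈ Rs E.ξ u ↔ b = a ∨ E.ξ a < E.ξ b) := fun b hb =>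
      ⟨fun h => (hm b (mem_cut.2 ⟨hb, h⟩)).eq_or_lt.imp (fun e => (E.ξ_inj e).symm) id,
        fun h => h.elim (fun e => e ▸ ha2) fun e => k2 b e.le⟩
    have hA : Agr (S : Set Lam) (E.key u) (E.key (E.ξ a, false)) := agr_key E fun b hb => by
      rw [k3 b hb]
      simp only [Rs, Set.mem_setOf_eq, and_true]
      exact ⟨fun h => h.elim (fun e => Or.inr (e ▸ rfl)) Or.inl,
        fun h => h.elim Or.inr fun e => Or.inl (E.ξ_inj e).symm⟩
    have hc : (cut (cols E S) (Rs E.ξ (E.ξ a, true))).card = n := by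
      have : cut (cols E S) (Rs E.ξ (E.ξ a, true)) = (cut (cols E S) (Rs E.ξ u)).erase a := by
        ext b
        rw [Finset.mem_erase, mem_cut, mem_cut, k1]
        exact ⟨fun h => ⟨fun e => by rw [e] at h; exact lt_irrefl _ h.2, h.1, k2 b h.2.le⟩,
          fun h => ⟨h.2.1, ((k3 b h.2.1).1 h.2.2).resolve_left h.1⟩⟩
      rw [this, Finset.card_erase_of_mem ha, hn]
      rfl
    rw [Ps_agr E w hl hA, ← ih _ hc]
    by_cases hD : a ∈ Rs E.η w
    · rw [op_min (D' := cut (cols E S) (Rs E.ξ (E.ξ a, true) ∩ Rs E.η w)) (l := a) cz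
        E.bkey.injective.injOn (fun b => by
          simp only [mem_cut, Set.mem_inter_iff, k1]
          exact ⟨fun h => ((k3 b h.1).1 h.2.1).imp id fun e => ⟨h.1, e, h.2.2⟩,
            fun h => h.elim (fun e => e ▸ ⟨ha1, ha2, hD⟩) fun e => ⟨e.1, k2 b e.2.1.le, e.2.2⟩⟩)
        (fun b hb => (E.bkey_lt_iff a b).2 ((k1 b).1 (mem_cut.1 hb).2.1)),
        map_mul, Equiv.Perm.mul_apply, hol_lt]
      have : Multiplicative.toAdd cz = 1 := rfl
      rw [this, zpow_one, Ps_down E l hD]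
    · have : cut (cols E S) (Rs E.ξ u ∩ Rs E.η w) =
          cut (cols E S) (Rs E.ξ (E.ξ a, true) ∩ Rs E.η w) := by
        ext b
        simp only [mem_cut, Set.mem_inter_iff, k1]
        exact ⟨fun h => ⟨h.1, ((k3 b h.1).1 h.2.1).resolve_left fun e => hD (e ▸ h.2.2), h.2.2⟩,
          fun h => ⟨h.1, k2 b h.2.1.le, h.2.2⟩⟩
      rw [this, Ps_up E l hD]

theorem Ps_op (l : Lam) (u w : Mk) (γ : WL Lam C2) :
    Ps E l w (E.key u) (hh E l (opH cz E.bkey (Rs E.ξ u ∩ Rs E.η w)) γ) =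
      Ps E l w (E.kinf true) γ := by
  refine WL_ext_of {l} fun S hS => ?_
  have hl : l ∈ S := hS (Finset.mem_singleton_self l)
  rw [← Ps_fin E w hl γ _ u rfl]
  refine (Ps_dn E l w _ S _ _).1 ?_
  rw [hh_apply, pj_hf, pj_opH, Finset.insert_eq_of_mem hl]

end Hol

/-- Transport of pointed words over the base. -/
theorem amb_ex (E : Emb) {Q : Type} (B : Plan cz E.bc Q) :
    ∃ Θ : Q → Lam → Equiv.Perm (WL Lam C2),
      (∀ q q', B.MV q q' → Θ q = Θ q') ∧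
      (∀ q q', B.MH q q' → ∀ l g,
        kap c2 (E.key (B.u q)) (E.tr.key (B.w q)) l (Θ q l g) =
          kap c2 (E.key (B.u q')) (E.tr.key (B.w q')) l (Θ q' l g)) := by
  refine ⟨fun q l => Hol.kp (E.tr.kinf true) (E.key (B.u q)) l * (Hol.hh E l (B.g q))⁻¹,
    fun q q' h => by simp only [h.1, h.2], fun q q' h l γ => ?_⟩
  have key : ∀ p : Q, kap c2 (E.key (B.u p)) (E.tr.key (B.w p)) l
      ((Hol.kp (E.tr.kinf true) (E.key (B.u p)) l * (Hol.hh E l (B.g p))⁻¹) γ) =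
      Hol.Ps E l (B.w p) (E.kinf true)
        (Hol.hh E l (B.g p * opH cz E.bkey (Rs E.ξ (B.u p) ∩ Rs E.η (B.w p)))⁻¹ γ) := fun p => by
    rw [← Hol.Ps_op E l (B.u p) (B.w p), ← Equiv.Perm.mul_apply (Hol.hh E l _), ← map_mul,
      mul_inv_rev, mul_inv_cancel_left, map_inv]
    rfl
  have e : B.g q * opH cz E.bkey (Rs E.ξ (B.u q) ∩ Rs E.η (B.w q)) =
      B.g q' * opH cz E.bkey (Rs E.ξ (B.u q') ∩ Rs E.η (B.w q')) :=
    Kh_injective cz E.bc.X E.bc.Y ((B.relv q).symm.trans (h.1.trans (B.relv q')))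
  rw [key q, key q', e, h.2]

end Pool.Agent.E5f

end

section

set_option autoImplicit false

namespace Pool.Agent.E5f

open Filter Classical

section
variable {L C : Type} [CommGroup C] {c : C} {Z : Cfg L} {l m n : L} {g g' g'' : WL L C}

/-- The points adjacent to two labels are joined inside some box. -/
def Jn_MoHol2 (c : C) (Z : Cfg L) (l m : L) (g g' : WL L C) : Prop :=
  ∃ b, BoxW c Z b (Rl Z.X l) (Rl Z.X m) (g⁻¹ * g')

theorem jn_refl_MoHol2 (c : C) (Z : Cfg L) (l : L) (g : WL L C) : Jn_MoHol2 c Z l l g g :=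
  ⟨⟨Z.x l, Z.x l, 0, 0⟩, by
    rw [inv_mul_cancel]
    exact BoxW.refl (up_Rl _ _) ((Z.at_Rl l).inB le_rfl le_rfl)⟩

theorem jn_symm_MoHol2 (h : Jn_MoHol2 c Z l m g g') : Jn_MoHol2 c Z m l g' g := by
  obtain ⟨b, h⟩ := h
  refine ⟨b, ?_⟩
  have := h.symm
  rwa [mul_inv_rev, inv_inv] at this

theorem jn_trans_MoHol2 (h : Jn_MoHol2 c Z l m g g') (h' : Jn_MoHol2 c Z m n g' g'') :
    Jn_MoHol2 c Z l n g g'' := by
  obtain ⟨b, h⟩ := h
  obtain ⟨b', h'⟩ := h'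
  refine ⟨b.sup b', ?_⟩
  have := (h.mono (b.sub_sup_left b')).trans (h'.mono (b.sub_sup_right b'))
  rwa [mul_assoc, mul_inv_cancel_left] at this

theorem jn_kap_MoHol2 (h : Jn_MoHol2 c Z l m g g') :
    Jn_MoHol2 c Z.tr l m (kap c Z.X Z.Y l g) (kap c Z.X Z.Y m g') := by
  obtain ⟨b, h⟩ := h
  let b1 : Bx := ⟨Z.x l, Z.x l, Z.y l, Z.y l⟩
  let b2 : Bx := ⟨Z.x m, Z.x m, Z.y m, Z.y m⟩
  have h1 : l ∈ Z.bl b1 := ⟨le_rfl, le_rfl, le_rfl, le_rfl⟩
  have h2 : m ∈ Z.bl b2 := ⟨le_rfl, le_rfl, le_rfl, le_rfl⟩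
  exact ⟨(b.sup (b1.sup b2)).tr, (h.mono (b.sub_sup_left _)).kap
    (Z.bl_mono ((b1.sub_sup_left b2).trans (b.sub_sup_right _)) h1)
    (Z.bl_mono ((b1.sub_sup_right b2).trans (b.sub_sup_right _)) h2)⟩

theorem jn_kap_inv_MoHol2
    (h : Jn_MoHol2 c Z.tr l m (kap c Z.X Z.Y l g) (kap c Z.X Z.Y m g')) :
    Jn_MoHol2 c Z l m g g' := by
  have := jn_kap_MoHol2 h
  simp only [Cfg.tr_X, Cfg.tr_Y, Cfg.tr_tr, kap_kap] at this
  exact this

end

theorem jn_move_MoHol2 (E : Emb) (u w w' : Mk) {l m : Lam} {g g' : WL Lam C2}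
    (h : Jn_MoHol2 c2 (E.fc u w) l m g g') : Jn_MoHol2 c2 (E.fc u w') l m g g' := by
  obtain ⟨b, h⟩ := h
  refine ⟨⟨b.x0, b.x1, b.y0 - 3 * |w'.1 - w.1|, b.y1 + 3 * |w'.1 - w.1|⟩,
    h.transfer (Z' := E.fc u w') (Agr.refl _ _) (fun _ _ k => k)
      (fun D hD => ⟨D, fun a => ?_, fun _ _ _ => Iff.rfl⟩)⟩
  have h1 := E.tr.pos_move a w.1 w'.1
  have h2 := E.tr.m_le a.1
  have h3 := E.tr.m_nonneg a.1
  have h4 : |E.tr.m a.1 * (w'.1 - w.1)| ≤ 3 * |w'.1 - w.1| := by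
    rw [abs_mul, abs_of_nonneg h3]
    exact mul_le_mul_of_nonneg_right h2 (abs_nonneg _)
  obtain ⟨h5, h6⟩ := abs_le.1 h4
  refine ⟨fun k => (hD a).1 ?_, fun k => (hD a).2 ?_⟩
  · simp only [Emb.fc_y] at k ⊢
    linarith
  · simp only [Emb.fc_y] at k ⊢
    linarith

theorem jn_conn_MoHol2 (E : Emb) {Q : Type} (B : Plan cz E.bc Q)
    (Θ : Q → Lam → Equiv.Perm (WL Lam C2)) (h1 : ∀ q q', B.MV q q' → Θ q = Θ q')
    (h2 : ∀ q q', B.MH q q' → ∀ l g,
      kap c2 (E.key (B.u q)) (E.tr.key (B.w q)) l (Θ q l g) =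
        kap c2 (E.key (B.u q')) (E.tr.key (B.w q')) l (Θ q' l g))
    (q q' : Q) {l m : Lam} {g g' : WL Lam C2}
    (h : Jn_MoHol2 c2 (E.fc (B.u q) (B.w q)) l m (Θ q l g) (Θ q m g')) :
    Jn_MoHol2 c2 (E.fc (B.u q') (B.w q')) l m (Θ q' l g) (Θ q' m g') := by
  induction B.conn q q' with
  | refl => exact h
  | @tail p p' _ k ih =>
    rcases k with k | k
    · rw [← h1 p p' k, ← k.2]
      exact jn_move_MoHol2 E _ _ _ ih
    · refine jn_kap_inv_MoHol2 ?_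
      have k1 := jn_kap_MoHol2 ih
      simp only [Emb.fc_X, Emb.fc_Y] at k1 ⊢
      rw [h2 p p' k, h2 p p' k, ← Emb.tr_fc, k.2] at k1
      rw [← Emb.tr_fc]
      exact jn_move_MoHol2 E.tr _ _ _ k1

theorem fam_ex (E : Emb) {Q : Type} (B : Plan cz E.bc Q) (q0 : Q) :
    ∃ (P : Type) (F : Fam E Q P) (x0 : P), F.B = B ∧ F.lb x0 = (0, 0) ∧ F.gv q0 x0 = 1 := by
  obtain ⟨Θ, h1, h2⟩ := amb_ex E B
  let l0 : Lam := (0, 0)
  let g0 : WL Lam C2 := (Θ q0 l0).symm 1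
  let P : Type := {r : Lam × WL Lam C2 //
    Jn_MoHol2 c2 (E.fc (B.u q0) (B.w q0)) l0 r.1 (Θ q0 l0 g0) (Θ q0 r.1 r.2)}
  have cv : ∀ (q : Q) (x y : P), Jn_MoHol2 c2 (E.fc (B.u q) (B.w q)) x.1.1 y.1.1
      (Θ q x.1.1 x.1.2) (Θ q y.1.1 y.1.2) := fun q x y =>
    jn_conn_MoHol2 E B Θ h1 h2 q0 q (jn_trans_MoHol2 (jn_symm_MoHol2 x.2) y.2)
  have cl : ∀ (q : Q) (x : P) (l : Lam) (g : WL Lam C2),
      Jn_MoHol2 c2 (E.fc (B.u q) (B.w q)) x.1.1 l (Θ q x.1.1 x.1.2) g →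
        ∃ y : P, y.1.1 = l ∧ Θ q y.1.1 y.1.2 = g := fun q x l g h => by
    refine ⟨⟨(l, (Θ q l).symm g), jn_trans_MoHol2 x.2
      (jn_conn_MoHol2 E B Θ h1 h2 q q0 ?_)⟩, rfl, Equiv.apply_symm_apply _ _⟩
    have e : Θ q l ((Θ q l).symm g) = g := Equiv.apply_symm_apply _ _
    rw [← e] at h
    exact h
  refine ⟨P,
    { B := B
      lb := fun x => x.1.1
      gv := fun q x => Θ q x.1.1 x.1.2
      gh := fun q x => kap c2 (E.key (B.u q)) (E.tr.key (B.w q)) x.1.1 (Θ q x.1.1 x.1.2)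
      relv := fun _ _ => rfl
      relh := fun _ _ => (kap_kap _ _ _ _ _).symm
      mv := fun q q' x h => by rw [h1 q q' h]
      mh := fun q q' x h => h2 q q' h _ _
      cv := cv
      ch := fun q x y => jn_kap_MoHol2 (cv q x y)
      clv := fun q x l b ω h => cl q x l _ ⟨b, by rw [inv_mul_cancel_left]; exact h⟩
      clh := fun q x l b ω h => ?_
      ext := fun q x y e1 e2 => ?_ },
    ⟨(l0, g0), jn_refl_MoHol2 _ _ _ _⟩, rfl, rfl, Equiv.apply_symm_apply _ _⟩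
  · obtain ⟨y, e1, e2⟩ := cl q x l (kap c2 (E.tr.key (B.w q)) (E.key (B.u q)) l
      (kap c2 (E.key (B.u q)) (E.tr.key (B.w q)) x.1.1 (Θ q x.1.1 x.1.2) * ω))
      (jn_kap_inv_MoHol2 ⟨b, by
        simp only [Emb.fc_X, Emb.fc_Y, Cfg.tr_X]
        rw [kap_kap, inv_mul_cancel_left]
        exact h⟩)
    refine ⟨y, e1, ?_⟩
    rw [e2, e1, kap_kap]
  · refine Subtype.ext (Prod.ext e1 ?_)
    have e3 : Θ q x.1.1 x.1.2 = Θ q x.1.1 y.1.2 := by
      rw [e2]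
      exact congrArg (fun l => Θ q l y.1.2) e1.symm
    exact (Θ q x.1.1).injective e3

end Pool.Agent.E5f

end

section

set_option autoImplicit false

namespace Pool.Agent.E5f

open Filter Classical

theorem model_ex : ∃ (Q P : Type) (_ : MulAction G8 Q) (S : Base Q) (q0 : Q) (Fb : Fib S q0 P)
    (F : Fam E0 Q P), S.dv = F.B.dv ∧ S.dh = F.B.dh ∧ Fb.dv = F.dv ∧ Fb.dh = F.dh ∧
      ∀ r a, F.B.Cusp a r → ∃ γ : G8, S.dg γ = 0 ∧ γ • S.P0 = r := by
  obtain ⟨Q, B, P0, h0, h1, h2⟩ := plan_ex cz E0.bc 1 (E0.bc.x 0, false) (E0.bc.y 0, false)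
  obtain ⟨inst, ⟨A⟩⟩ := bact_ex B P0 h0 ⟨h1, h2⟩
  obtain ⟨S, s1, s2, s3, s4, s5⟩ := A.base_ex
  obtain ⟨s, a1, a2, a3⟩ := E0.exists_generic (show (0 : ℝ) < 1 / 2 by norm_num)
  obtain ⟨t, -, -, b3⟩ := E0.tr.exists_generic (show (0 : ℝ) < 1 / 2 by norm_num)
  obtain ⟨q1, -, -, c1⟩ := B.mvh P0 (s, false)
  obtain ⟨q0, -, c2, c3⟩ := B.mvv q1 (t, false)
  obtain ⟨P, F, x0, rfl, f1, f2⟩ := fam_ex E0 B q0
  have hu : (F.B.u q0).1 = s := by rw [c2, c1]
  have hw : (F.B.w q0).1 = t := by rw [c3]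
  obtain ⟨Fb, g1, g2⟩ := fib_ex F A q0 x0 f1 f2
    (E0.fc_gen (by rw [hu]; exact a3) (by rw [hw]; exact b3)) (by rw [hu]; exact a1)
    (by rw [hu]; exact a2) S s5 s3
  refine ⟨Q, P, inst, S, q0, Fb, F, s1, s2, g1, g2, fun r a h => ?_⟩
  rw [s3, s4]
  exact A.cusp r a h

end Pool.Agent.E5f

end

section

set_option autoImplicit false

namespace Pool.Agent.E5f

open Classical Filter

namespace Fam
variable {E : Emb} {Q P : Type} (F : Fam E Q P)

/-- The interface system of a family. -/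
noncomputable def fsys (Cu : Q → Prop) (hc : ∀ r a, F.B.Cusp a r → Cu r) :
    FSys E.lat F.B.dv F.B.dh Cu F.dv F.dh where
  toBSys := F.B.bsys Cu hc
  path := F.path
  fpm := F.br_pm
  fpm' := F.tr.br_pm
  ev := F.br_ev
  pth := F.br_pth
  box := F.br_box
  chain := F.br_chain
  two := fun q r h e hne hq hr hw =>
    ⟨F.thick q (E.fc_gen hq hw), F.br_two (F.B.brs_mh h e) hne hq hr hw⟩

end Fam

theorem main_group : ∃ h : ℕ, 2 ≤ h ∧ ∃ (G : Type) (_ : Group G) (n : ℕ) (s : Fin n → G)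
    (i : SG 13 →* G) (p : G →* SG h), Gens s ∧ FourPt s ∧ Function.Injective i ∧
      Function.Surjective p ∧ i.range = p.ker := by
  obtain ⟨Q, P, inst, S, q0, Fb, F, e1, e2, e3, e4, hc⟩ := model_ex
  refine group_of_sys S q0 Fb (O := Zl) (E := E0.lat) (E' := E0.tr.lat) ?_ ?_
  · rw [e1, e2, e3, e4]
    exact F.fsys _ (fun r a h => (hc r a h).imp fun γ h' => ⟨h'.1, h'.2.symm⟩)
  · rw [e1, e2, e3, e4]
    exact F.tr.fsys _ (fun r a h => (hc r a ⟨h.2, h.1⟩).imp fun γ h' => ⟨h'.1, h'.2.symm⟩)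

end Pool.Agent.E5f

end
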